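import Pool.Agent.Work.MP_6bf1e5_an.HD.BkQ

namespace Pool.Agent.Work.MP_6bf1e5_an.HD

open Pool.Agent.Lib.KLA Pool.Agent.Lib.KBlk Pool.Agent.Lib.KRad Pool.Agent.Work.MP_6bf1e5_an.H.Bk

def kBA0 : PLift (GA.at (chkA GA) 0 = true) := ⟨by decide +kernel⟩

def kBA11 : PLift (GA.at (chkA GA) 11 = true) := ⟨by decide +kernel⟩

def kBA17 : PLift (GA.at (chkA GA) 17 = true) := ⟨by decide +kernel⟩

def kBA18 : PLift (GA.at (chkA GA) 18 = true) := ⟨by decide +kernel⟩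

def kBA27 : PLift (GA.at (chkA GA) 27 = true) := ⟨by decide +kernel⟩

def kBA32 : PLift (GA.at (chkA GA) 32 = true) := ⟨by decide +kernel⟩

def kBA38 : PLift (GA.at (chkA GA) 38 = true) := ⟨by decide +kernel⟩

def kBA45 : PLift (GA.at (chkA GA) 45 = true) := ⟨by decide +kernel⟩

def kBA49 : PLift (GA.at (chkA GA) 49 = true) := ⟨by decide +kernel⟩

def kBA58 : PLift (GA.at (chkA GA) 58 = true) := ⟨by decide +kernel⟩

end Pool.Agent.Work.MP_6bf1e5_an.HD
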