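import Pool.Agent.Work.MP_6bf1e5_an.HD.BkQ

namespace Pool.Agent.Work.MP_6bf1e5_an.HD

open Pool.Agent.Lib.KLA Pool.Agent.Lib.KBlk Pool.Agent.Lib.KRad Pool.Agent.Work.MP_6bf1e5_an.H.Bk

def kBA3 : PLift (GA.at (chkA GA) 3 = true) := ⟨by decide +kernel⟩

def kBA8 : PLift (GA.at (chkA GA) 8 = true) := ⟨by decide +kernel⟩

def kBA14 : PLift (GA.at (chkA GA) 14 = true) := ⟨by decide +kernel⟩

def kBA21 : PLift (GA.at (chkA GA) 21 = true) := ⟨by decide +kernel⟩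

def kBA24 : PLift (GA.at (chkA GA) 24 = true) := ⟨by decide +kernel⟩

def kBA35 : PLift (GA.at (chkA GA) 35 = true) := ⟨by decide +kernel⟩

def kBA41 : PLift (GA.at (chkA GA) 41 = true) := ⟨by decide +kernel⟩

def kBA42 : PLift (GA.at (chkA GA) 42 = true) := ⟨by decide +kernel⟩

def kBA48 : PLift (GA.at (chkA GA) 48 = true) := ⟨by decide +kernel⟩

def kBA59 : PLift (GA.at (chkA GA) 59 = true) := ⟨by decide +kernel⟩

end Pool.Agent.Work.MP_6bf1e5_an.HD
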