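import Pool.Agent.Work.MP_6bf1e5_an.HD.BkQ

namespace Pool.Agent.Work.MP_6bf1e5_an.HD

open Pool.Agent.Lib.KLA Pool.Agent.Lib.KBlk Pool.Agent.Lib.KRad Pool.Agent.Work.MP_6bf1e5_an.H.Bk

def kBA2 : PLift (GA.at (chkA GA) 2 = true) := ⟨by decide +kernel⟩

def kBA9 : PLift (GA.at (chkA GA) 9 = true) := ⟨by decide +kernel⟩

def kBA15 : PLift (GA.at (chkA GA) 15 = true) := ⟨by decide +kernel⟩

def kBA20 : PLift (GA.at (chkA GA) 20 = true) := ⟨by decide +kernel⟩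

def kBA25 : PLift (GA.at (chkA GA) 25 = true) := ⟨by decide +kernel⟩

def kBA34 : PLift (GA.at (chkA GA) 34 = true) := ⟨by decide +kernel⟩

def kBA40 : PLift (GA.at (chkA GA) 40 = true) := ⟨by decide +kernel⟩

def kBA43 : PLift (GA.at (chkA GA) 43 = true) := ⟨by decide +kernel⟩

def kBA50 : PLift (GA.at (chkA GA) 50 = true) := ⟨by decide +kernel⟩

def kBA57 : PLift (GA.at (chkA GA) 57 = true) := ⟨by decide +kernel⟩

def kBA60 : PLift (GA.at (chkA GA) 60 = true) := ⟨by decide +kernel⟩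

end Pool.Agent.Work.MP_6bf1e5_an.HD
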