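import Pool.Agent.Work.MP_6bf1e5_an.HD.BkQ

namespace Pool.Agent.Work.MP_6bf1e5_an.HD

open Pool.Agent.Lib.KLA Pool.Agent.Lib.KBlk Pool.Agent.Lib.KRad Pool.Agent.Work.MP_6bf1e5_an.H.Bk

def kBA5 : PLift (GA.at (chkA GA) 5 = true) := ⟨by decide +kernel⟩

def kBA6 : PLift (GA.at (chkA GA) 6 = true) := ⟨by decide +kernel⟩

def kBA12 : PLift (GA.at (chkA GA) 12 = true) := ⟨by decide +kernel⟩

def kBA23 : PLift (GA.at (chkA GA) 23 = true) := ⟨by decide +kernel⟩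

def kBA26 : PLift (GA.at (chkA GA) 26 = true) := ⟨by decide +kernel⟩

def kBA33 : PLift (GA.at (chkA GA) 33 = true) := ⟨by decide +kernel⟩

def kBA37 : PLift (GA.at (chkA GA) 37 = true) := ⟨by decide +kernel⟩

def kBA46 : PLift (GA.at (chkA GA) 46 = true) := ⟨by decide +kernel⟩

def kBA52 : PLift (GA.at (chkA GA) 52 = true) := ⟨by decide +kernel⟩

def kBA55 : PLift (GA.at (chkA GA) 55 = true) := ⟨by decide +kernel⟩

def kBA62 : PLift (GA.at (chkA GA) 62 = true) := ⟨by decide +kernel⟩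

end Pool.Agent.Work.MP_6bf1e5_an.HD
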