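import Pool.Agent.Work.MP_6bf1e5_an.HD.BkQ

namespace Pool.Agent.Work.MP_6bf1e5_an.HD

open Pool.Agent.Lib.KLA Pool.Agent.Lib.KBlk Pool.Agent.Lib.KRad Pool.Agent.Work.MP_6bf1e5_an.H.Bk

def kBA4 : PLift (GA.at (chkA GA) 4 = true) := ⟨by decide +kernel⟩

def kBA7 : PLift (GA.at (chkA GA) 7 = true) := ⟨by decide +kernel⟩

def kBA13 : PLift (GA.at (chkA GA) 13 = true) := ⟨by decide +kernel⟩

def kBA22 : PLift (GA.at (chkA GA) 22 = true) := ⟨by decide +kernel⟩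

def kBA28 : PLift (GA.at (chkA GA) 28 = true) := ⟨by decide +kernel⟩

def kBA31 : PLift (GA.at (chkA GA) 31 = true) := ⟨by decide +kernel⟩

def kBA36 : PLift (GA.at (chkA GA) 36 = true) := ⟨by decide +kernel⟩

def kBA47 : PLift (GA.at (chkA GA) 47 = true) := ⟨by decide +kernel⟩

def kBA53 : PLift (GA.at (chkA GA) 53 = true) := ⟨by decide +kernel⟩

def kBA54 : PLift (GA.at (chkA GA) 54 = true) := ⟨by decide +kernel⟩

def kBA61 : PLift (GA.at (chkA GA) 61 = true) := ⟨by decide +kernel⟩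

end Pool.Agent.Work.MP_6bf1e5_an.HD
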