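import Pool.Agent.Work.MP_6bf1e5_an.HD.BkQ

namespace Pool.Agent.Work.MP_6bf1e5_an.HD

open Pool.Agent.Lib.KLA Pool.Agent.Lib.KBlk Pool.Agent.Lib.KRad Pool.Agent.Work.MP_6bf1e5_an.H.Bk

def kBG1 : PLift (G0.at (chkG G0) 1 = true) := ⟨by decide +kernel⟩

def kBG6 : PLift (G0.at (chkG G0) 6 = true) := ⟨by decide +kernel⟩

def kBG10 : PLift (G0.at (chkG G0) 10 = true) := ⟨by decide +kernel⟩

def kBG13 : PLift (G0.at (chkG G0) 13 = true) := ⟨by decide +kernel⟩

def kBG19 : PLift (G0.at (chkG G0) 19 = true) := ⟨by decide +kernel⟩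

def kBG20 : PLift (G0.at (chkG G0) 20 = true) := ⟨by decide +kernel⟩

def kBG24 : PLift (G0.at (chkG G0) 24 = true) := ⟨by decide +kernel⟩

def kBG31 : PLift (G0.at (chkG G0) 31 = true) := ⟨by decide +kernel⟩

def kBG35 : PLift (G0.at (chkG G0) 35 = true) := ⟨by decide +kernel⟩

def kBG36 : PLift (G0.at (chkG G0) 36 = true) := ⟨by decide +kernel⟩

def kBG41 : PLift (G0.at (chkG G0) 41 = true) := ⟨by decide +kernel⟩

def kBG46 : PLift (G0.at (chkG G0) 46 = true) := ⟨by decide +kernel⟩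

def kBG50 : PLift (G0.at (chkG G0) 50 = true) := ⟨by decide +kernel⟩

def kBG53 : PLift (G0.at (chkG G0) 53 = true) := ⟨by decide +kernel⟩

def kBG62 : PLift (G0.at (chkG G0) 62 = true) := ⟨by decide +kernel⟩

def kBG58 : PLift (G0.at (chkG G0) 58 = true) := ⟨by decide +kernel⟩

end Pool.Agent.Work.MP_6bf1e5_an.HD
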