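import Pool.Agent.Work.MP_6bf1e5_an.HD.BkQ

namespace Pool.Agent.Work.MP_6bf1e5_an.HD

open Pool.Agent.Lib.KLA Pool.Agent.Lib.KBlk Pool.Agent.Lib.KRad Pool.Agent.Work.MP_6bf1e5_an.H.Bk

def kBG0 : PLift (G0.at (chkG G0) 0 = true) := ⟨by decide +kernel⟩

def kBG7 : PLift (G0.at (chkG G0) 7 = true) := ⟨by decide +kernel⟩

def kBG11 : PLift (G0.at (chkG G0) 11 = true) := ⟨by decide +kernel⟩

def kBG12 : PLift (G0.at (chkG G0) 12 = true) := ⟨by decide +kernel⟩

def kBG17 : PLift (G0.at (chkG G0) 17 = true) := ⟨by decide +kernel⟩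

def kBG22 : PLift (G0.at (chkG G0) 22 = true) := ⟨by decide +kernel⟩

def kBG26 : PLift (G0.at (chkG G0) 26 = true) := ⟨by decide +kernel⟩

def kBG29 : PLift (G0.at (chkG G0) 29 = true) := ⟨by decide +kernel⟩

def kBG32 : PLift (G0.at (chkG G0) 32 = true) := ⟨by decide +kernel⟩

def kBG39 : PLift (G0.at (chkG G0) 39 = true) := ⟨by decide +kernel⟩

def kBG43 : PLift (G0.at (chkG G0) 43 = true) := ⟨by decide +kernel⟩

def kBG44 : PLift (G0.at (chkG G0) 44 = true) := ⟨by decide +kernel⟩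

def kBG49 : PLift (G0.at (chkG G0) 49 = true) := ⟨by decide +kernel⟩

def kBG54 : PLift (G0.at (chkG G0) 54 = true) := ⟨by decide +kernel⟩

def kBG60 : PLift (G0.at (chkG G0) 60 = true) := ⟨by decide +kernel⟩

def kBG56 : PLift (G0.at (chkG G0) 56 = true) := ⟨by decide +kernel⟩

end Pool.Agent.Work.MP_6bf1e5_an.HD
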