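import Pool.Agent.Work.MP_6bf1e5_an.HD.BkQ

namespace Pool.Agent.Work.MP_6bf1e5_an.HD

open Pool.Agent.Lib.KLA Pool.Agent.Lib.KBlk Pool.Agent.Lib.KRad Pool.Agent.Work.MP_6bf1e5_an.H.Bk

def kBG3 : PLift (G0.at (chkG G0) 3 = true) := ⟨by decide +kernel⟩

def kBG4 : PLift (G0.at (chkG G0) 4 = true) := ⟨by decide +kernel⟩

def kBG8 : PLift (G0.at (chkG G0) 8 = true) := ⟨by decide +kernel⟩

def kBG15 : PLift (G0.at (chkG G0) 15 = true) := ⟨by decide +kernel⟩

def kBG16 : PLift (G0.at (chkG G0) 16 = true) := ⟨by decide +kernel⟩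

def kBG23 : PLift (G0.at (chkG G0) 23 = true) := ⟨by decide +kernel⟩

def kBG27 : PLift (G0.at (chkG G0) 27 = true) := ⟨by decide +kernel⟩

def kBG28 : PLift (G0.at (chkG G0) 28 = true) := ⟨by decide +kernel⟩

def kBG33 : PLift (G0.at (chkG G0) 33 = true) := ⟨by decide +kernel⟩

def kBG38 : PLift (G0.at (chkG G0) 38 = true) := ⟨by decide +kernel⟩

def kBG42 : PLift (G0.at (chkG G0) 42 = true) := ⟨by decide +kernel⟩

def kBG45 : PLift (G0.at (chkG G0) 45 = true) := ⟨by decide +kernel⟩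

def kBG48 : PLift (G0.at (chkG G0) 48 = true) := ⟨by decide +kernel⟩

def kBG55 : PLift (G0.at (chkG G0) 55 = true) := ⟨by decide +kernel⟩

def kBG61 : PLift (G0.at (chkG G0) 61 = true) := ⟨by decide +kernel⟩

def kBG57 : PLift (G0.at (chkG G0) 57 = true) := ⟨by decide +kernel⟩

end Pool.Agent.Work.MP_6bf1e5_an.HD
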