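import Pool.Agent.Work.MP_6bf1e5_an.HD.BkQ

namespace Pool.Agent.Work.MP_6bf1e5_an.HD

open Pool.Agent.Lib.KLA Pool.Agent.Lib.KBlk Pool.Agent.Lib.KRad Pool.Agent.Work.MP_6bf1e5_an.H.Bk

def kBG2 : PLift (G0.at (chkG G0) 2 = true) := ⟨by decide +kernel⟩

def kBG5 : PLift (G0.at (chkG G0) 5 = true) := ⟨by decide +kernel⟩

def kBG9 : PLift (G0.at (chkG G0) 9 = true) := ⟨by decide +kernel⟩

def kBG14 : PLift (G0.at (chkG G0) 14 = true) := ⟨by decide +kernel⟩

def kBG18 : PLift (G0.at (chkG G0) 18 = true) := ⟨by decide +kernel⟩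

def kBG21 : PLift (G0.at (chkG G0) 21 = true) := ⟨by decide +kernel⟩

def kBG25 : PLift (G0.at (chkG G0) 25 = true) := ⟨by decide +kernel⟩

def kBG30 : PLift (G0.at (chkG G0) 30 = true) := ⟨by decide +kernel⟩

def kBG34 : PLift (G0.at (chkG G0) 34 = true) := ⟨by decide +kernel⟩

def kBG37 : PLift (G0.at (chkG G0) 37 = true) := ⟨by decide +kernel⟩

def kBG40 : PLift (G0.at (chkG G0) 40 = true) := ⟨by decide +kernel⟩

def kBG47 : PLift (G0.at (chkG G0) 47 = true) := ⟨by decide +kernel⟩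

def kBG51 : PLift (G0.at (chkG G0) 51 = true) := ⟨by decide +kernel⟩

def kBG52 : PLift (G0.at (chkG G0) 52 = true) := ⟨by decide +kernel⟩

def kBG63 : PLift (G0.at (chkG G0) 63 = true) := ⟨by decide +kernel⟩

def kBG59 : PLift (G0.at (chkG G0) 59 = true) := ⟨by decide +kernel⟩

end Pool.Agent.Work.MP_6bf1e5_an.HD
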