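import Pool.Agent.Work.MP_6bf1e5_an.HD.KBA0
import Pool.Agent.Work.MP_6bf1e5_an.HD.KBA1
import Pool.Agent.Work.MP_6bf1e5_an.HD.KBA2
import Pool.Agent.Work.MP_6bf1e5_an.HD.KBA3
import Pool.Agent.Work.MP_6bf1e5_an.HD.KBA4
import Pool.Agent.Work.MP_6bf1e5_an.HD.KBA5
import Pool.Agent.Work.MP_6bf1e5_an.HD.KBG0
import Pool.Agent.Work.MP_6bf1e5_an.HD.KBG1
import Pool.Agent.Work.MP_6bf1e5_an.HD.KBG2
import Pool.Agent.Work.MP_6bf1e5_an.HD.KBG3

namespace Pool.Agent.Work.MP_6bf1e5_an.HD

open Pool.Agent.Lib.KLA Pool.Agent.Lib.KBlk Pool.Agent.Lib.KRad Pool.Agent.Work.MP_6bf1e5_an.H.Bk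

theorem jobA : AllP (fun i => GA.at (chkA GA) i = true) 64 :=
  (AllP.step kBA63.down (AllP.step kBA62.down (AllP.step kBA61.down (AllP.step kBA60.down
  (AllP.step kBA59.down (AllP.step kBA58.down (AllP.step kBA57.down (AllP.step kBA56.down
  (AllP.step kBA55.down (AllP.step kBA54.down (AllP.step kBA53.down (AllP.step kBA52.down
  (AllP.step kBA51.down (AllP.step kBA50.down (AllP.step kBA49.down (AllP.step kBA48.down
  (AllP.step kBA47.down (AllP.step kBA46.down (AllP.step kBA45.down (AllP.step kBA44.down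
  (AllP.step kBA43.down (AllP.step kBA42.down (AllP.step kBA41.down (AllP.step kBA40.down
  (AllP.step kBA39.down (AllP.step kBA38.down (AllP.step kBA37.down (AllP.step kBA36.down
  (AllP.step kBA35.down (AllP.step kBA34.down (AllP.step kBA33.down (AllP.step kBA32.down
  (AllP.step kBA31.down (AllP.step kBA30.down (AllP.step kBA29.down (AllP.step kBA28.down
  (AllP.step kBA27.down (AllP.step kBA26.down (AllP.step kBA25.down (AllP.step kBA24.down
  (AllP.step kBA23.down (AllP.step kBA22.down (AllP.step kBA21.down (AllP.step kBA20.down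
  (AllP.step kBA19.down (AllP.step kBA18.down (AllP.step kBA17.down (AllP.step kBA16.down
  (AllP.step kBA15.down (AllP.step kBA14.down (AllP.step kBA13.down (AllP.step kBA12.down
  (AllP.step kBA11.down (AllP.step kBA10.down (AllP.step kBA9.down (AllP.step kBA8.down (AllP.step
  kBA7.down (AllP.step kBA6.down (AllP.step kBA5.down (AllP.step kBA4.down (AllP.step kBA3.down
  (AllP.step kBA2.down (AllP.step kBA1.down (AllP.step kBA0.down (AllP.zero
  _)))))))))))))))))))))))))))))))))))))))))))))))))))))))))))))))))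

theorem jobG : AllP (fun i => G0.at (chkG G0) i = true) 64 :=
  (AllP.step kBG63.down (AllP.step kBG62.down (AllP.step kBG61.down (AllP.step kBG60.down
  (AllP.step kBG59.down (AllP.step kBG58.down (AllP.step kBG57.down (AllP.step kBG56.down
  (AllP.step kBG55.down (AllP.step kBG54.down (AllP.step kBG53.down (AllP.step kBG52.down
  (AllP.step kBG51.down (AllP.step kBG50.down (AllP.step kBG49.down (AllP.step kBG48.down
  (AllP.step kBG47.down (AllP.step kBG46.down (AllP.step kBG45.down (AllP.step kBG44.down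
  (AllP.step kBG43.down (AllP.step kBG42.down (AllP.step kBG41.down (AllP.step kBG40.down
  (AllP.step kBG39.down (AllP.step kBG38.down (AllP.step kBG37.down (AllP.step kBG36.down
  (AllP.step kBG35.down (AllP.step kBG34.down (AllP.step kBG33.down (AllP.step kBG32.down
  (AllP.step kBG31.down (AllP.step kBG30.down (AllP.step kBG29.down (AllP.step kBG28.down
  (AllP.step kBG27.down (AllP.step kBG26.down (AllP.step kBG25.down (AllP.step kBG24.down
  (AllP.step kBG23.down (AllP.step kBG22.down (AllP.step kBG21.down (AllP.step kBG20.down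
  (AllP.step kBG19.down (AllP.step kBG18.down (AllP.step kBG17.down (AllP.step kBG16.down
  (AllP.step kBG15.down (AllP.step kBG14.down (AllP.step kBG13.down (AllP.step kBG12.down
  (AllP.step kBG11.down (AllP.step kBG10.down (AllP.step kBG9.down (AllP.step kBG8.down (AllP.step
  kBG7.down (AllP.step kBG6.down (AllP.step kBG5.down (AllP.step kBG4.down (AllP.step kBG3.down
  (AllP.step kBG2.down (AllP.step kBG1.down (AllP.step kBG0.down (AllP.zero
  _)))))))))))))))))))))))))))))))))))))))))))))))))))))))))))))))))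

end Pool.Agent.Work.MP_6bf1e5_an.HD
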