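import Pool.Agent.Work.MP_6bf1e5_an.H.BkU
import Pool.Agent.Work.MP_6bf1e5_an.H.BkG
import Pool.Agent.Lib.KBlk.VrS
import Pool.Agent.Work.MP_6bf1e5_an.HD.JBk

namespace Pool.Agent.Work.MP_6bf1e5_an.HD

open Pool.Agent.Lib.KLA Pool.Agent.Lib.KBlk H H.Bk H.Jf H.Ca H.Ps

theorem okA : GA.Ok := ⟨⟨by decide, by decide, by decide⟩, by decide, by decide, by decide⟩

theorem allA : GA.All (chkA GA) := Gd.all_of jobA rfl (by decide)

theorem det0 : ∀ b < Am.nq + 1, ∀ c < 2, (Matrix.of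
    fun m m' : Fin (Am.J b c) => prj (2 * b) (xi0 cMd (b, c, m)) m').det ≠ 0 :=
  (Gd.det okA allA (by decide +kernel) :)

theorem blkD : Blks 96 (2 ^ 47) 32 Am Am Dt
    (fun d d' => (mD 64 (mdD Am.J (xi0 cMd) d).gr (mdD Am.J (xi0 cMd) d').gr
      + mD 64 (mdD Am.J (xi0 cMd) d').gr (mdD Am.J (xi0 cMd) d).gr) / 2) (1 / 2 ^ 30) :=
  (Gd.blkD (n := 16 * 5) (δ := 1 / 2 ^ 30) okA allA
    (fun _ _ => ⟨_, mat_vld (B := 48) (by decide) (by decide) _ 5 _⟩)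
    (by decide +kernel) (show (2 : ℝ) ^ (226 + 1) / 2 ^ (2 * 128 + 1) ≤ _ by
      rw [pow_succ _ (2 * 128)]; norm_num) :)

theorem blkK (ht : ∀ d, In Ah d → Test (3 / 4) 64 (th0 cTh d)) : Blks 96 (2 ^ 47) 40 Ah Am KL
    (fun d d' => 1 / 64 * ip (LamV (curl (uD (xi0 cMd) d'))) (th0 cTh d)) (1 / 2 ^ 36) :=
  (Gd.blkK (n := 16 * 5) (δ := 1 / 2 ^ 36) okA allA
    (fun _ _ => ⟨_, mat_vld (B := 48) (by decide) (by decide) _ 5 _⟩)
    (by decide +kernel) (by decide) (by decide +kernel) ht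
    (show (2 : ℝ) ^ (219 + 1) / 2 ^ (2 * 128) ≤ _ by norm_num) :)

theorem hG0 {D : Ps.Dat} (e1 : Am = D.Am) (e2 : Ah = D.Ah) (hs : Sub D.Ah D.Am) :
    Nm (fun (a : Fin D.Ah.N) (j : Fin D.Am.N) => mom (th0 cTh (D.Ah.mem a))
      (uD (xi0 cMd) (D.Am.mem j)) - sel D.lo a j) (1 / 10 ^ 11) :=
  (hG_of (G := G0) (δ := 1 / 10 ^ 11) ⟨by decide, by decide, by decide⟩ e1 e2
    (e1 ▸ (by decide : 1 ≤ Am.b0)) hs (on_all rfl jobG) (by norm_num)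
    (show ((0x2000000000000000000000000000000000000000000000000000000 : ℕ) : ℝ) *
      (0x2000000000000000000000000000000000000000000000000000000 : ℕ) ≤ (_ * 4 ^ 128) ^ 2 by
      norm_num) :)

end Pool.Agent.Work.MP_6bf1e5_an.HD
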