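import Pool.Agent.Work.MP_6bf1e5_an.HD.CfGT

/-! Checks of the pass GT, part 0. -/

namespace Pool.Agent.Work.MP_6bf1e5_an.HD

open Pool.Agent.Lib.KLA Pool.Agent.Lib.KBlk

def cGT_0 : PLift (bnd (fGT 0 0 0 58)
    (bnd (fGT 0 1 0 56)
    (fGT 1 0 0 26)) = true) :=
  ⟨by decide +kernel⟩

def cGT_1 : PLift (fGT 1 0 26 80 = true) :=
  ⟨by decide +kernel⟩

def cGT_2 : PLift (fGT 1 0 106 73 = true) :=
  ⟨by decide +kernel⟩

def cGT_3 : PLift (fGT 1 1 0 80 = true) :=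
  ⟨by decide +kernel⟩

def cGT_4 : PLift (fGT 1 1 80 80 = true) :=
  ⟨by decide +kernel⟩

def cGT_5 : PLift (bnd (fGT 1 1 160 18)
    (fGT 2 0 0 59) = true) :=
  ⟨by decide +kernel⟩

def cGT_6 : PLift (fGT 2 0 59 80 = true) :=
  ⟨by decide +kernel⟩

def cGT_7 : PLift (bnd (fGT 2 0 139 38)
    (fGT 2 1 0 39) = true) :=
  ⟨by decide +kernel⟩

def cGT_8 : PLift (fGT 2 1 39 80 = true) :=
  ⟨by decide +kernel⟩

def cGT_9 : PLift (bnd (fGT 2 1 119 59)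
    (fGT 3 0 0 18) = true) :=
  ⟨by decide +kernel⟩

def cGT_10 : PLift (fGT 3 0 18 81 = true) :=
  ⟨by decide +kernel⟩

def cGT_11 : PLift (fGT 3 0 99 76 = true) :=
  ⟨by decide +kernel⟩

def cGT_12 : PLift (fGT 3 1 0 81 = true) :=
  ⟨by decide +kernel⟩

def cGT_13 : PLift (fGT 3 1 81 81 = true) :=
  ⟨by decide +kernel⟩

def cGT_14 : PLift (bnd (fGT 3 1 162 12)
    (fGT 4 0 0 68) = true) :=
  ⟨by decide +kernel⟩

def cGT_15 : PLift (fGT 4 0 68 83 = true) :=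
  ⟨by decide +kernel⟩

def cGT_16 : PLift (bnd (fGT 4 0 151 20)
    (fGT 4 1 0 60) = true) :=
  ⟨by decide +kernel⟩

def cGT_17 : PLift (fGT 4 1 60 83 = true) :=
  ⟨by decide +kernel⟩

def cGT_18 : PLift (bnd (fGT 4 1 143 27)
    (fGT 5 0 0 54) = true) :=
  ⟨by decide +kernel⟩

def cGT_19 : PLift (fGT 5 0 54 84 = true) :=
  ⟨by decide +kernel⟩

def cGT_20 : PLift (bnd (fGT 5 0 138 30)
    (fGT 5 1 0 51) = true) :=
  ⟨by decide +kernel⟩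

def cGT_21 : PLift (fGT 5 1 51 84 = true) :=
  ⟨by decide +kernel⟩

def cGT_22 : PLift (bnd (fGT 5 1 135 31)
    (fGT 6 0 0 52) = true) :=
  ⟨by decide +kernel⟩

def cGT_23 : PLift (fGT 6 0 52 87 = true) :=
  ⟨by decide +kernel⟩

def cGT_24 : PLift (bnd (fGT 6 0 139 22)
    (fGT 6 1 0 62) = true) :=
  ⟨by decide +kernel⟩

def cGT_25 : PLift (fGT 6 1 62 87 = true) :=
  ⟨by decide +kernel⟩

def cGT_26 : PLift (bnd (fGT 6 1 149 10)
    (fGT 7 0 0 77) = true) :=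
  ⟨by decide +kernel⟩

def cGT_27 : PLift (fGT 7 0 77 78 = true) :=
  ⟨by decide +kernel⟩

def cGT_28 : PLift (fGT 7 1 0 90 = true) :=
  ⟨by decide +kernel⟩

def cGT_29 : PLift (bnd (fGT 7 1 90 61)
    (fGT 8 0 0 27) = true) :=
  ⟨by decide +kernel⟩

def cGT_30 : PLift (fGT 8 0 27 93 = true) :=
  ⟨by decide +kernel⟩

def cGT_31 : PLift (bnd (fGT 8 0 120 30)
    (fGT 8 1 0 60) = true) :=
  ⟨by decide +kernel⟩

def cGT_32 : PLift (fGT 8 1 60 87 = true) :=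
  ⟨by decide +kernel⟩

def cGT_33 : PLift (fGT 9 0 0 93 = true) :=
  ⟨by decide +kernel⟩

def cGT_34 : PLift (bnd (fGT 9 0 93 54)
    (fGT 9 1 0 36) = true) :=
  ⟨by decide +kernel⟩

def cGT_35 : PLift (fGT 9 1 36 93 = true) :=
  ⟨by decide +kernel⟩

def cGT_36 : PLift (bnd (fGT 9 1 129 19)
    (fGT 10 0 0 73) = true) :=
  ⟨by decide +kernel⟩

end Pool.Agent.Work.MP_6bf1e5_an.HD
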