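import Pool.Agent.Work.MP_6bf1e5_an.HD.CfGT

/-! Checks of the pass GT, part 1. -/

namespace Pool.Agent.Work.MP_6bf1e5_an.HD

open Pool.Agent.Lib.KLA Pool.Agent.Lib.KBlk

def cGT_37 : PLift (bnd (fGT 10 0 73 71)
    (fGT 10 1 0 21) = true) :=
  ⟨by decide +kernel⟩

def cGT_38 : PLift (fGT 10 1 21 95 = true) :=
  ⟨by decide +kernel⟩

def cGT_39 : PLift (bnd (fGT 10 1 116 28)
    (fGT 11 0 0 65) = true) :=
  ⟨by decide +kernel⟩

def cGT_40 : PLift (bnd (fGT 11 0 65 75)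
    (fGT 11 1 0 19) = true) :=
  ⟨by decide +kernel⟩

def cGT_41 : PLift (fGT 11 1 19 97 = true) :=
  ⟨by decide +kernel⟩

def cGT_42 : PLift (bnd (fGT 11 1 116 25)
    (fGT 12 0 0 71) = true) :=
  ⟨by decide +kernel⟩

def cGT_43 : PLift (bnd (fGT 12 0 71 64)
    (fGT 12 1 0 33) = true) :=
  ⟨by decide +kernel⟩

def cGT_44 : PLift (fGT 12 1 33 100 = true) :=
  ⟨by decide +kernel⟩

def cGT_45 : PLift (bnd (fGT 12 1 133 3)
    (fGT 13 0 0 97) = true) :=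
  ⟨by decide +kernel⟩

def cGT_46 : PLift (bnd (fGT 13 0 97 33)
    (fGT 13 1 0 67) = true) :=
  ⟨by decide +kernel⟩

def cGT_47 : PLift (bnd (fGT 13 1 67 63)
    (fGT 14 0 0 38) = true) :=
  ⟨by decide +kernel⟩

def cGT_48 : PLift (bnd (fGT 14 0 38 87)
    (fGT 14 1 0 16) = true) :=
  ⟨by decide +kernel⟩

def cGT_49 : PLift (fGT 14 1 16 106 = true) :=
  ⟨by decide +kernel⟩

def cGT_50 : PLift (bnd (fGT 14 1 122 3)
    (fGT 15 0 0 104) = true) :=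
  ⟨by decide +kernel⟩

def cGT_51 : PLift (bnd (fGT 15 0 104 16)
    (fGT 15 1 0 91) = true) :=
  ⟨by decide +kernel⟩

def cGT_52 : PLift (bnd (fGT 15 1 91 28)
    (fGT 16 0 0 83) = true) :=
  ⟨by decide +kernel⟩

def cGT_53 : PLift (bnd (fGT 16 0 83 29)
    (fGT 16 1 0 83) = true) :=
  ⟨by decide +kernel⟩

def cGT_54 : PLift (bnd (fGT 16 1 83 30)
    (fGT 17 0 0 86) = true) :=
  ⟨by decide +kernel⟩

def cGT_55 : PLift (bnd (fGT 17 0 86 20)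
    (fGT 17 1 0 97) = true) :=
  ⟨by decide +kernel⟩

def cGT_56 : PLift (bnd (fGT 17 1 97 9)
    (fGT 18 0 0 101) = true) :=
  ⟨by decide +kernel⟩

def cGT_57 : PLift (bnd (fGT 18 1 0 102)
    (fGT 19 0 0 20) = true) :=
  ⟨by decide +kernel⟩

def cGT_58 : PLift (bnd (fGT 19 0 20 78)
    (fGT 19 1 0 47) = true) :=
  ⟨by decide +kernel⟩

def cGT_59 : PLift (bnd (fGT 19 1 47 50)
    (fGT 20 0 0 75) = true) :=
  ⟨by decide +kernel⟩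

def cGT_60 : PLift (bnd (fGT 20 0 75 21)
    (fGT 20 1 0 97) = true) :=
  ⟨by decide +kernel⟩

def cGT_61 : PLift (bnd (fGT 21 0 0 90)
    (fGT 21 1 0 41) = true) :=
  ⟨by decide +kernel⟩

def cGT_62 : PLift (bnd (fGT 21 1 41 52)
    (fGT 22 0 0 82) = true) :=
  ⟨by decide +kernel⟩

def cGT_63 : PLift (bnd (fGT 22 0 82 3)
    (bnd (fGT 22 1 0 87)
    (fGT 23 0 0 45)) = true) :=
  ⟨by decide +kernel⟩

def cGT_64 : PLift (bnd (fGT 23 0 45 35)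
    (bnd (fGT 23 1 0 82)
    (fGT 24 0 0 23)) = true) :=
  ⟨by decide +kernel⟩

def cGT_65 : PLift (bnd (fGT 24 0 23 51)
    (bnd (fGT 24 1 0 76)
    (fGT 25 0 0 21)) = true) :=
  ⟨by decide +kernel⟩

def cGT_66 : PLift (bnd (fGT 25 0 21 46)
    (bnd (fGT 25 1 0 70)
    (fGT 26 0 0 42)) = true) :=
  ⟨by decide +kernel⟩

def cGT_67 : PLift (bnd (fGT 26 0 42 20)
    (bnd (fGT 26 1 0 63)
    (bnd (fGT 27 0 0 56)
    (fGT 27 1 0 27))) = true) :=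
  ⟨by decide +kernel⟩

def cGT_68 : PLift (bnd (fGT 27 1 27 32)
    (bnd (fGT 28 0 0 49)
    (bnd (fGT 28 1 0 54)
    (fGT 29 0 0 43))) = true) :=
  ⟨by decide +kernel⟩

def cGT_69 : PLift (bnd (fGT 29 1 0 45)
    (bnd (fGT 30 0 0 36)
    (bnd (fGT 30 1 0 39)
    (bnd (fGT 31 0 0 31)
    (bnd (fGT 31 1 0 34)
    (fGT 32 0 0 25))))) = true) :=
  ⟨by decide +kernel⟩

def cGT_70 : PLift (bnd (fGT 32 1 0 28)
    (bnd (fGT 33 0 0 20)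
    (bnd (fGT 33 1 0 23)
    (bnd (fGT 34 0 0 15)
    (bnd (fGT 34 1 0 20)
    (bnd (fGT 35 0 0 13)
    (bnd (fGT 35 1 0 18)
    (bnd (fGT 36 0 0 11)
    (bnd (fGT 36 1 0 17)
    (bnd (fGT 37 0 0 9)
    (bnd (fGT 37 1 0 15)
    (bnd (fGT 38 0 0 8)
    (fGT 38 1 0 14)))))))))))) = true) :=
  ⟨by decide +kernel⟩

end Pool.Agent.Work.MP_6bf1e5_an.HD
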