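import Pool.Agent.Work.MP_6bf1e5_an.HD.CfKK

/-! Checks of the pass KK, part 0. -/

namespace Pool.Agent.Work.MP_6bf1e5_an.HD

open Pool.Agent.Lib.KLA Pool.Agent.Lib.KBlk

def cKK_1_0 : PLift (fKK 1 0 1 4 0 55 = true) :=
  ⟨by decide +kernel⟩

def cKK_1_1 : PLift (fKK 1 1 1 4 0 57 = true) :=
  ⟨by decide +kernel⟩

def cKK_1_2 : PLift (bnd (fKK 1 1 1 4 57 1)
    (fKK 2 0 1 4 0 53) = true) :=
  ⟨by decide +kernel⟩

def cKK_1_3 : PLift (fKK 2 1 1 4 0 56 = true) :=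
  ⟨by decide +kernel⟩

def cKK_1_4 : PLift (fKK 3 0 1 4 0 51 = true) :=
  ⟨by decide +kernel⟩

def cKK_1_5 : PLift (fKK 3 1 1 4 0 54 = true) :=
  ⟨by decide +kernel⟩

def cKK_1_6 : PLift (fKK 4 0 1 4 0 49 = true) :=
  ⟨by decide +kernel⟩

def cKK_1_7 : PLift (fKK 4 1 1 4 0 52 = true) :=
  ⟨by decide +kernel⟩

def cKK_1_8 : PLift (fKK 5 0 1 4 0 47 = true) :=
  ⟨by decide +kernel⟩

def cKK_1_9 : PLift (fKK 5 1 1 4 0 50 = true) :=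
  ⟨by decide +kernel⟩

def cKK_1_10 : PLift (fKK 6 0 1 4 0 45 = true) :=
  ⟨by decide +kernel⟩

def cKK_1_11 : PLift (fKK 6 1 1 4 0 48 = true) :=
  ⟨by decide +kernel⟩

def cKK_1_12 : PLift (fKK 7 0 1 4 0 43 = true) :=
  ⟨by decide +kernel⟩

def cKK_1_13 : PLift (fKK 7 1 1 4 0 46 = true) :=
  ⟨by decide +kernel⟩

def cKK_1_14 : PLift (fKK 8 0 1 4 0 41 = true) :=
  ⟨by decide +kernel⟩

def cKK_1_15 : PLift (fKK 8 1 1 4 0 44 = true) :=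
  ⟨by decide +kernel⟩

def cKK_1_16 : PLift (fKK 9 0 1 4 0 39 = true) :=
  ⟨by decide +kernel⟩

def cKK_1_17 : PLift (fKK 9 1 1 4 0 42 = true) :=
  ⟨by decide +kernel⟩

def cKK_1_18 : PLift (fKK 10 0 1 4 0 37 = true) :=
  ⟨by decide +kernel⟩

def cKK_1_19 : PLift (fKK 10 1 1 4 0 40 = true) :=
  ⟨by decide +kernel⟩

def cKK_1_20 : PLift (fKK 11 0 1 4 0 35 = true) :=
  ⟨by decide +kernel⟩

def cKK_1_21 : PLift (fKK 11 1 1 4 0 38 = true) :=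
  ⟨by decide +kernel⟩

def cKK_1_22 : PLift (fKK 12 0 1 4 0 33 = true) :=
  ⟨by decide +kernel⟩

def cKK_1_23 : PLift (fKK 12 1 1 4 0 36 = true) :=
  ⟨by decide +kernel⟩

def cKK_1_24 : PLift (fKK 13 0 1 4 0 31 = true) :=
  ⟨by decide +kernel⟩

def cKK_1_25 : PLift (fKK 13 1 1 4 0 34 = true) :=
  ⟨by decide +kernel⟩

def cKK_1_26 : PLift (bnd (fKK 14 0 1 4 0 29)
    (fKK 14 1 1 4 0 24) = true) :=
  ⟨by decide +kernel⟩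

def cKK_1_27 : PLift (bnd (fKK 14 1 1 4 24 8)
    (fKK 15 0 1 4 0 27) = true) :=
  ⟨by decide +kernel⟩

def cKK_1_28 : PLift (fKK 15 1 1 4 0 30 = true) :=
  ⟨by decide +kernel⟩

def cKK_1_29 : PLift (bnd (fKK 16 0 1 4 0 25)
    (fKK 16 1 1 4 0 28) = true) :=
  ⟨by decide +kernel⟩

end Pool.Agent.Work.MP_6bf1e5_an.HD
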