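import Pool.Agent.Work.MP_6bf1e5_an.HD.CfKK

/-! Checks of the pass KK, part 1. -/

namespace Pool.Agent.Work.MP_6bf1e5_an.HD

open Pool.Agent.Lib.KLA Pool.Agent.Lib.KBlk

def cKK_1_30 : PLift (bnd (fKK 17 0 1 4 0 23)
    (fKK 17 1 1 4 0 26) = true) :=
  ⟨by decide +kernel⟩

def cKK_1_31 : PLift (bnd (fKK 18 0 1 4 0 21)
    (fKK 18 1 1 4 0 24) = true) :=
  ⟨by decide +kernel⟩

def cKK_1_32 : PLift (bnd (fKK 19 0 1 4 0 19)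
    (fKK 19 1 1 4 0 22) = true) :=
  ⟨by decide +kernel⟩

def cKK_1_33 : PLift (bnd (fKK 20 0 1 4 0 17)
    (fKK 20 1 1 4 0 20) = true) :=
  ⟨by decide +kernel⟩

def cKK_1_34 : PLift (bnd (fKK 21 0 1 4 0 15)
    (bnd (fKK 21 1 1 4 0 18)
    (fKK 22 0 1 4 0 13)) = true) :=
  ⟨by decide +kernel⟩

def cKK_1_35 : PLift (bnd (fKK 22 1 1 4 0 16)
    (bnd (fKK 23 0 1 4 0 11)
    (fKK 23 1 1 4 0 14)) = true) :=
  ⟨by decide +kernel⟩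

def cKK_1_36 : PLift (bnd (fKK 24 0 1 4 0 9)
    (bnd (fKK 24 1 1 4 0 12)
    (bnd (fKK 25 0 1 4 0 7)
    (bnd (fKK 25 1 1 4 0 10)
    (fKK 26 0 1 4 0 5)))) = true) :=
  ⟨by decide +kernel⟩

def cKK_1_37 : PLift (bnd (fKK 26 1 1 4 0 8)
    (bnd (fKK 27 0 1 4 0 3)
    (bnd (fKK 27 1 1 4 0 6)
    (bnd (fKK 28 0 1 4 0 1)
    (fKK 28 1 1 4 0 4)))) = true) :=
  ⟨by decide +kernel⟩

def cKK_5_0 : PLift (fKK 1 0 5 4 0 55 = true) :=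
  ⟨by decide +kernel⟩

def cKK_5_1 : PLift (fKK 1 1 5 4 0 58 = true) :=
  ⟨by decide +kernel⟩

def cKK_5_2 : PLift (fKK 2 0 5 4 0 53 = true) :=
  ⟨by decide +kernel⟩

def cKK_5_3 : PLift (fKK 2 1 5 4 0 56 = true) :=
  ⟨by decide +kernel⟩

def cKK_5_4 : PLift (fKK 3 0 5 4 0 51 = true) :=
  ⟨by decide +kernel⟩

def cKK_5_5 : PLift (fKK 3 1 5 4 0 54 = true) :=
  ⟨by decide +kernel⟩

def cKK_5_6 : PLift (fKK 4 0 5 4 0 49 = true) :=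
  ⟨by decide +kernel⟩

def cKK_5_7 : PLift (fKK 4 1 5 4 0 52 = true) :=
  ⟨by decide +kernel⟩

def cKK_5_8 : PLift (fKK 5 0 5 4 0 47 = true) :=
  ⟨by decide +kernel⟩

def cKK_5_9 : PLift (fKK 5 1 5 4 0 50 = true) :=
  ⟨by decide +kernel⟩

def cKK_5_10 : PLift (fKK 6 0 5 4 0 45 = true) :=
  ⟨by decide +kernel⟩

def cKK_5_11 : PLift (fKK 6 1 5 4 0 48 = true) :=
  ⟨by decide +kernel⟩

def cKK_5_12 : PLift (fKK 7 0 5 4 0 43 = true) :=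
  ⟨by decide +kernel⟩

def cKK_5_13 : PLift (fKK 7 1 5 4 0 46 = true) :=
  ⟨by decide +kernel⟩

def cKK_5_14 : PLift (fKK 8 0 5 4 0 41 = true) :=
  ⟨by decide +kernel⟩

def cKK_5_15 : PLift (fKK 8 1 5 4 0 44 = true) :=
  ⟨by decide +kernel⟩

def cKK_5_16 : PLift (fKK 9 0 5 4 0 39 = true) :=
  ⟨by decide +kernel⟩

def cKK_5_17 : PLift (fKK 9 1 5 4 0 42 = true) :=
  ⟨by decide +kernel⟩

def cKK_5_18 : PLift (fKK 10 0 5 4 0 37 = true) :=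
  ⟨by decide +kernel⟩

def cKK_5_19 : PLift (fKK 10 1 5 4 0 40 = true) :=
  ⟨by decide +kernel⟩

def cKK_5_20 : PLift (bnd (fKK 11 0 5 4 0 35)
    (fKK 11 1 5 4 0 24) = true) :=
  ⟨by decide +kernel⟩

def cKK_5_21 : PLift (bnd (fKK 11 1 5 4 24 14)
    (fKK 12 0 5 4 0 33) = true) :=
  ⟨by decide +kernel⟩

end Pool.Agent.Work.MP_6bf1e5_an.HD
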