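import Pool.Agent.Work.MP_6bf1e5_an.HD.CfKK

/-! Checks of the pass KK, part 2. -/

namespace Pool.Agent.Work.MP_6bf1e5_an.HD

open Pool.Agent.Lib.KLA Pool.Agent.Lib.KBlk

def cKK_5_22 : PLift (fKK 12 1 5 4 0 36 = true) :=
  ⟨by decide +kernel⟩

def cKK_5_23 : PLift (bnd (fKK 13 0 5 4 0 31)
    (fKK 13 1 5 4 0 28) = true) :=
  ⟨by decide +kernel⟩

def cKK_5_24 : PLift (bnd (fKK 13 1 5 4 28 6)
    (fKK 14 0 5 4 0 29) = true) :=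
  ⟨by decide +kernel⟩

def cKK_5_25 : PLift (bnd (fKK 14 1 5 4 0 32)
    (fKK 15 0 5 4 0 27) = true) :=
  ⟨by decide +kernel⟩

def cKK_5_26 : PLift (bnd (fKK 15 1 5 4 0 30)
    (fKK 16 0 5 4 0 25) = true) :=
  ⟨by decide +kernel⟩

def cKK_5_27 : PLift (bnd (fKK 16 1 5 4 0 28)
    (fKK 17 0 5 4 0 23) = true) :=
  ⟨by decide +kernel⟩

def cKK_5_28 : PLift (bnd (fKK 17 1 5 4 0 26)
    (fKK 18 0 5 4 0 21) = true) :=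
  ⟨by decide +kernel⟩

def cKK_5_29 : PLift (bnd (fKK 18 1 5 4 0 24)
    (fKK 19 0 5 4 0 19) = true) :=
  ⟨by decide +kernel⟩

def cKK_5_30 : PLift (bnd (fKK 19 1 5 4 0 22)
    (fKK 20 0 5 4 0 17) = true) :=
  ⟨by decide +kernel⟩

def cKK_5_31 : PLift (bnd (fKK 20 1 5 4 0 20)
    (bnd (fKK 21 0 5 4 0 15)
    (fKK 21 1 5 4 0 18)) = true) :=
  ⟨by decide +kernel⟩

def cKK_5_32 : PLift (bnd (fKK 22 0 5 4 0 13)
    (bnd (fKK 22 1 5 4 0 16)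
    (bnd (fKK 23 0 5 4 0 11)
    (fKK 23 1 5 4 0 14))) = true) :=
  ⟨by decide +kernel⟩

def cKK_5_33 : PLift (bnd (fKK 24 0 5 4 0 9)
    (bnd (fKK 24 1 5 4 0 12)
    (bnd (fKK 25 0 5 4 0 7)
    (bnd (fKK 25 1 5 4 0 10)
    (fKK 26 0 5 4 0 5)))) = true) :=
  ⟨by decide +kernel⟩

def cKK_5_34 : PLift (bnd (fKK 26 1 5 4 0 8)
    (bnd (fKK 27 0 5 4 0 3)
    (bnd (fKK 27 1 5 4 0 6)
    (bnd (fKK 28 0 5 4 0 1)
    (fKK 28 1 5 4 0 4)))) = true) :=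
  ⟨by decide +kernel⟩

def cKK_9_0 : PLift (fKK 1 0 9 4 0 55 = true) :=
  ⟨by decide +kernel⟩

def cKK_9_1 : PLift (fKK 1 1 9 4 0 58 = true) :=
  ⟨by decide +kernel⟩

def cKK_9_2 : PLift (fKK 2 0 9 4 0 53 = true) :=
  ⟨by decide +kernel⟩

def cKK_9_3 : PLift (fKK 2 1 9 4 0 56 = true) :=
  ⟨by decide +kernel⟩

def cKK_9_4 : PLift (fKK 3 0 9 4 0 51 = true) :=
  ⟨by decide +kernel⟩

def cKK_9_5 : PLift (fKK 3 1 9 4 0 54 = true) :=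
  ⟨by decide +kernel⟩

def cKK_9_6 : PLift (fKK 4 0 9 4 0 49 = true) :=
  ⟨by decide +kernel⟩

def cKK_9_7 : PLift (fKK 4 1 9 4 0 52 = true) :=
  ⟨by decide +kernel⟩

def cKK_9_8 : PLift (fKK 5 0 9 4 0 47 = true) :=
  ⟨by decide +kernel⟩

def cKK_9_9 : PLift (fKK 5 1 9 4 0 50 = true) :=
  ⟨by decide +kernel⟩

def cKK_9_10 : PLift (fKK 6 0 9 4 0 45 = true) :=
  ⟨by decide +kernel⟩

def cKK_9_11 : PLift (fKK 6 1 9 4 0 48 = true) :=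
  ⟨by decide +kernel⟩

def cKK_9_12 : PLift (fKK 7 0 9 4 0 43 = true) :=
  ⟨by decide +kernel⟩

def cKK_9_13 : PLift (fKK 7 1 9 4 0 46 = true) :=
  ⟨by decide +kernel⟩

def cKK_9_14 : PLift (bnd (fKK 8 0 9 4 0 41)
    (fKK 8 1 9 4 0 25) = true) :=
  ⟨by decide +kernel⟩

def cKK_9_15 : PLift (bnd (fKK 8 1 9 4 25 19)
    (fKK 9 0 9 4 0 39) = true) :=
  ⟨by decide +kernel⟩

end Pool.Agent.Work.MP_6bf1e5_an.HD
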