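import Pool.Agent.Work.MP_6bf1e5_an.HD.CfKK

/-! Checks of the pass KK, part 3. -/

namespace Pool.Agent.Work.MP_6bf1e5_an.HD

open Pool.Agent.Lib.KLA Pool.Agent.Lib.KBlk

def cKK_9_16 : PLift (bnd (fKK 9 1 9 4 0 42)
    (fKK 10 0 9 4 0 24) = true) :=
  ⟨by decide +kernel⟩

def cKK_9_17 : PLift (bnd (fKK 10 0 9 4 24 13)
    (fKK 10 1 9 4 0 40) = true) :=
  ⟨by decide +kernel⟩

def cKK_9_18 : PLift (bnd (fKK 11 0 9 4 0 35)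
    (fKK 11 1 9 4 0 31) = true) :=
  ⟨by decide +kernel⟩

def cKK_9_19 : PLift (bnd (fKK 11 1 9 4 31 7)
    (fKK 12 0 9 4 0 33) = true) :=
  ⟨by decide +kernel⟩

def cKK_9_20 : PLift (bnd (fKK 12 1 9 4 0 36)
    (fKK 13 0 9 4 0 30) = true) :=
  ⟨by decide +kernel⟩

def cKK_9_21 : PLift (bnd (fKK 13 0 9 4 30 1)
    (bnd (fKK 13 1 9 4 0 34)
    (fKK 14 0 9 4 0 28)) = true) :=
  ⟨by decide +kernel⟩

def cKK_9_22 : PLift (bnd (fKK 14 0 9 4 28 1)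
    (bnd (fKK 14 1 9 4 0 32)
    (fKK 15 0 9 4 0 27)) = true) :=
  ⟨by decide +kernel⟩

def cKK_9_23 : PLift (bnd (fKK 15 1 9 4 0 30)
    (fKK 16 0 9 4 0 25) = true) :=
  ⟨by decide +kernel⟩

def cKK_9_24 : PLift (bnd (fKK 16 1 9 4 0 28)
    (fKK 17 0 9 4 0 23) = true) :=
  ⟨by decide +kernel⟩

def cKK_9_25 : PLift (bnd (fKK 17 1 9 4 0 26)
    (fKK 18 0 9 4 0 21) = true) :=
  ⟨by decide +kernel⟩

def cKK_9_26 : PLift (bnd (fKK 18 1 9 4 0 24)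
    (fKK 19 0 9 4 0 19) = true) :=
  ⟨by decide +kernel⟩

def cKK_9_27 : PLift (bnd (fKK 19 1 9 4 0 22)
    (bnd (fKK 20 0 9 4 0 17)
    (fKK 20 1 9 4 0 20)) = true) :=
  ⟨by decide +kernel⟩

def cKK_9_28 : PLift (bnd (fKK 21 0 9 4 0 15)
    (bnd (fKK 21 1 9 4 0 18)
    (fKK 22 0 9 4 0 13)) = true) :=
  ⟨by decide +kernel⟩

def cKK_9_29 : PLift (bnd (fKK 22 1 9 4 0 16)
    (bnd (fKK 23 0 9 4 0 11)
    (bnd (fKK 23 1 9 4 0 14)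
    (fKK 24 0 9 4 0 9))) = true) :=
  ⟨by decide +kernel⟩

def cKK_9_30 : PLift (bnd (fKK 24 1 9 4 0 12)
    (bnd (fKK 25 0 9 4 0 7)
    (bnd (fKK 25 1 9 4 0 10)
    (bnd (fKK 26 0 9 4 0 5)
    (bnd (fKK 26 1 9 4 0 8)
    (fKK 27 0 9 4 0 3))))) = true) :=
  ⟨by decide +kernel⟩

def cKK_9_31 : PLift (bnd (fKK 27 1 9 4 0 6)
    (bnd (fKK 28 0 9 4 0 1)
    (fKK 28 1 9 4 0 4)) = true) :=
  ⟨by decide +kernel⟩

def cKK_13_0 : PLift (fKK 1 0 13 4 0 55 = true) :=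
  ⟨by decide +kernel⟩

def cKK_13_1 : PLift (fKK 1 1 13 4 0 58 = true) :=
  ⟨by decide +kernel⟩

def cKK_13_2 : PLift (fKK 2 0 13 4 0 53 = true) :=
  ⟨by decide +kernel⟩

def cKK_13_3 : PLift (fKK 2 1 13 4 0 56 = true) :=
  ⟨by decide +kernel⟩

def cKK_13_4 : PLift (bnd (fKK 3 0 13 4 0 51)
    (fKK 3 1 13 4 0 24) = true) :=
  ⟨by decide +kernel⟩

def cKK_13_5 : PLift (bnd (fKK 3 1 13 4 24 30)
    (fKK 4 0 13 4 0 45) = true) :=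
  ⟨by decide +kernel⟩

def cKK_13_6 : PLift (bnd (fKK 4 0 13 4 45 4)
    (fKK 4 1 13 4 0 52) = true) :=
  ⟨by decide +kernel⟩

def cKK_13_7 : PLift (bnd (fKK 5 0 13 4 0 47)
    (fKK 5 1 13 4 0 28) = true) :=
  ⟨by decide +kernel⟩

def cKK_13_8 : PLift (bnd (fKK 5 1 13 4 28 22)
    (fKK 6 0 13 4 0 45) = true) :=
  ⟨by decide +kernel⟩

def cKK_13_9 : PLift (bnd (fKK 6 1 13 4 0 48)
    (fKK 7 0 13 4 0 27) = true) :=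
  ⟨by decide +kernel⟩

def cKK_13_10 : PLift (bnd (fKK 7 0 13 4 27 16)
    (fKK 7 1 13 4 0 46) = true) :=
  ⟨by decide +kernel⟩

end Pool.Agent.Work.MP_6bf1e5_an.HD
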