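import Pool.Agent.Work.MP_6bf1e5_an.HD.CfKK

/-! Checks of the pass KK, part 4. -/

namespace Pool.Agent.Work.MP_6bf1e5_an.HD

open Pool.Agent.Lib.KLA Pool.Agent.Lib.KBlk

def cKK_13_11 : PLift (bnd (fKK 8 0 13 4 0 41)
    (fKK 8 1 13 4 0 34) = true) :=
  ⟨by decide +kernel⟩

def cKK_13_12 : PLift (bnd (fKK 8 1 13 4 34 10)
    (fKK 9 0 13 4 0 39) = true) :=
  ⟨by decide +kernel⟩

def cKK_13_13 : PLift (bnd (fKK 9 1 13 4 0 42)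
    (fKK 10 0 13 4 0 33) = true) :=
  ⟨by decide +kernel⟩

def cKK_13_14 : PLift (bnd (fKK 10 0 13 4 33 4)
    (bnd (fKK 10 1 13 4 0 40)
    (fKK 11 0 13 4 0 28)) = true) :=
  ⟨by decide +kernel⟩

def cKK_13_15 : PLift (bnd (fKK 11 0 13 4 28 7)
    (bnd (fKK 11 1 13 4 0 38)
    (fKK 12 0 13 4 0 27)) = true) :=
  ⟨by decide +kernel⟩

def cKK_13_16 : PLift (bnd (fKK 12 0 13 4 27 6)
    (bnd (fKK 12 1 13 4 0 36)
    (fKK 13 0 13 4 0 30)) = true) :=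
  ⟨by decide +kernel⟩

def cKK_13_17 : PLift (bnd (fKK 13 0 13 4 30 1)
    (bnd (fKK 13 1 13 4 0 34)
    (fKK 14 0 13 4 0 29)) = true) :=
  ⟨by decide +kernel⟩

def cKK_13_18 : PLift (bnd (fKK 14 1 13 4 0 32)
    (fKK 15 0 13 4 0 27) = true) :=
  ⟨by decide +kernel⟩

def cKK_13_19 : PLift (bnd (fKK 15 1 13 4 0 30)
    (fKK 16 0 13 4 0 25) = true) :=
  ⟨by decide +kernel⟩

def cKK_13_20 : PLift (bnd (fKK 16 1 13 4 0 28)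
    (fKK 17 0 13 4 0 23) = true) :=
  ⟨by decide +kernel⟩

def cKK_13_21 : PLift (bnd (fKK 17 1 13 4 0 26)
    (fKK 18 0 13 4 0 21) = true) :=
  ⟨by decide +kernel⟩

def cKK_13_22 : PLift (bnd (fKK 18 1 13 4 0 24)
    (bnd (fKK 19 0 13 4 0 19)
    (fKK 19 1 13 4 0 22)) = true) :=
  ⟨by decide +kernel⟩

def cKK_13_23 : PLift (bnd (fKK 20 0 13 4 0 17)
    (bnd (fKK 20 1 13 4 0 20)
    (fKK 21 0 13 4 0 15)) = true) :=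
  ⟨by decide +kernel⟩

def cKK_13_24 : PLift (bnd (fKK 21 1 13 4 0 18)
    (bnd (fKK 22 0 13 4 0 13)
    (bnd (fKK 22 1 13 4 0 16)
    (fKK 23 0 13 4 0 11))) = true) :=
  ⟨by decide +kernel⟩

def cKK_13_25 : PLift (bnd (fKK 23 1 13 4 0 14)
    (bnd (fKK 24 0 13 4 0 9)
    (bnd (fKK 24 1 13 4 0 12)
    (bnd (fKK 25 0 13 4 0 7)
    (fKK 25 1 13 4 0 10)))) = true) :=
  ⟨by decide +kernel⟩

def cKK_13_26 : PLift (bnd (fKK 26 0 13 4 0 5)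
    (bnd (fKK 26 1 13 4 0 8)
    (bnd (fKK 27 0 13 4 0 3)
    (bnd (fKK 27 1 13 4 0 6)
    (bnd (fKK 28 0 13 4 0 1)
    (fKK 28 1 13 4 0 4))))) = true) :=
  ⟨by decide +kernel⟩

def cKK_17_0 : PLift (bnd (fKK 1 0 17 4 0 55)
    (fKK 1 1 17 4 0 32) = true) :=
  ⟨by decide +kernel⟩

def cKK_17_1 : PLift (bnd (fKK 1 1 17 4 32 26)
    (fKK 2 0 17 4 0 53) = true) :=
  ⟨by decide +kernel⟩

def cKK_17_2 : PLift (bnd (fKK 2 1 17 4 0 56)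
    (fKK 3 0 17 4 0 31) = true) :=
  ⟨by decide +kernel⟩

def cKK_17_3 : PLift (bnd (fKK 3 0 17 4 31 20)
    (fKK 3 1 17 4 0 54) = true) :=
  ⟨by decide +kernel⟩

def cKK_17_4 : PLift (bnd (fKK 4 0 17 4 0 49)
    (fKK 4 1 17 4 0 38) = true) :=
  ⟨by decide +kernel⟩

def cKK_17_5 : PLift (bnd (fKK 4 1 17 4 38 14)
    (fKK 5 0 17 4 0 47) = true) :=
  ⟨by decide +kernel⟩

def cKK_17_6 : PLift (bnd (fKK 5 1 17 4 0 50)
    (fKK 6 0 17 4 0 37) = true) :=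
  ⟨by decide +kernel⟩

def cKK_17_7 : PLift (bnd (fKK 6 0 17 4 37 8)
    (bnd (fKK 6 1 17 4 0 48)
    (fKK 7 0 17 4 0 28)) = true) :=
  ⟨by decide +kernel⟩

end Pool.Agent.Work.MP_6bf1e5_an.HD
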