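import Pool.Agent.Work.MP_6bf1e5_an.HD.CfKK

/-! Checks of the pass KK, part 5. -/

namespace Pool.Agent.Work.MP_6bf1e5_an.HD

open Pool.Agent.Lib.KLA Pool.Agent.Lib.KBlk

def cKK_17_8 : PLift (bnd (fKK 7 0 17 4 28 15)
    (fKK 7 1 17 4 0 46) = true) :=
  ⟨by decide +kernel⟩

def cKK_17_9 : PLift (bnd (fKK 8 0 17 4 0 41)
    (fKK 8 1 17 4 0 44) = true) :=
  ⟨by decide +kernel⟩

def cKK_17_10 : PLift (bnd (fKK 9 0 17 4 0 39)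
    (fKK 9 1 17 4 0 42) = true) :=
  ⟨by decide +kernel⟩

def cKK_17_11 : PLift (bnd (fKK 10 0 17 4 0 37)
    (fKK 10 1 17 4 0 40) = true) :=
  ⟨by decide +kernel⟩

def cKK_17_12 : PLift (bnd (fKK 11 0 17 4 0 35)
    (fKK 11 1 17 4 0 38) = true) :=
  ⟨by decide +kernel⟩

def cKK_17_13 : PLift (bnd (fKK 12 0 17 4 0 33)
    (fKK 12 1 17 4 0 36) = true) :=
  ⟨by decide +kernel⟩

def cKK_17_14 : PLift (bnd (fKK 13 0 17 4 0 31)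
    (fKK 13 1 17 4 0 34) = true) :=
  ⟨by decide +kernel⟩

def cKK_17_15 : PLift (bnd (fKK 14 0 17 4 0 29)
    (fKK 14 1 17 4 0 32) = true) :=
  ⟨by decide +kernel⟩

def cKK_17_16 : PLift (bnd (fKK 15 0 17 4 0 27)
    (fKK 15 1 17 4 0 30) = true) :=
  ⟨by decide +kernel⟩

def cKK_17_17 : PLift (bnd (fKK 16 0 17 4 0 25)
    (bnd (fKK 16 1 17 4 0 28)
    (fKK 17 0 17 4 0 23)) = true) :=
  ⟨by decide +kernel⟩

def cKK_17_18 : PLift (bnd (fKK 17 1 17 4 0 26)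
    (bnd (fKK 18 0 17 4 0 21)
    (fKK 18 1 17 4 0 24)) = true) :=
  ⟨by decide +kernel⟩

def cKK_17_19 : PLift (bnd (fKK 19 0 17 4 0 19)
    (bnd (fKK 19 1 17 4 0 22)
    (fKK 20 0 17 4 0 17)) = true) :=
  ⟨by decide +kernel⟩

def cKK_17_20 : PLift (bnd (fKK 20 1 17 4 0 20)
    (bnd (fKK 21 0 17 4 0 15)
    (bnd (fKK 21 1 17 4 0 18)
    (fKK 22 0 17 4 0 13))) = true) :=
  ⟨by decide +kernel⟩

def cKK_17_21 : PLift (bnd (fKK 22 1 17 4 0 16)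
    (bnd (fKK 23 0 17 4 0 11)
    (bnd (fKK 23 1 17 4 0 14)
    (bnd (fKK 24 0 17 4 0 9)
    (fKK 24 1 17 4 0 12)))) = true) :=
  ⟨by decide +kernel⟩

def cKK_17_22 : PLift (bnd (fKK 25 0 17 4 0 7)
    (bnd (fKK 25 1 17 4 0 10)
    (bnd (fKK 26 0 17 4 0 5)
    (bnd (fKK 26 1 17 4 0 8)
    (bnd (fKK 27 0 17 4 0 3)
    (bnd (fKK 27 1 17 4 0 6)
    (bnd (fKK 28 0 17 4 0 1)
    (fKK 28 1 17 4 0 4))))))) = true) :=
  ⟨by decide +kernel⟩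

def cKK_21_0 : PLift (bnd (fKK 1 0 21 4 0 55)
    (fKK 1 1 21 4 0 48) = true) :=
  ⟨by decide +kernel⟩

def cKK_21_1 : PLift (bnd (fKK 1 1 21 4 48 10)
    (bnd (fKK 2 0 21 4 0 53)
    (fKK 2 1 21 4 0 37)) = true) :=
  ⟨by decide +kernel⟩

def cKK_21_2 : PLift (bnd (fKK 2 1 21 4 37 19)
    (bnd (fKK 3 0 21 4 0 51)
    (fKK 3 1 21 4 0 30)) = true) :=
  ⟨by decide +kernel⟩

def cKK_21_3 : PLift (bnd (fKK 3 1 21 4 30 24)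
    (bnd (fKK 4 0 21 4 0 49)
    (fKK 4 1 21 4 0 27)) = true) :=
  ⟨by decide +kernel⟩

def cKK_21_4 : PLift (bnd (fKK 4 1 21 4 27 25)
    (bnd (fKK 5 0 21 4 0 47)
    (fKK 5 1 21 4 0 28)) = true) :=
  ⟨by decide +kernel⟩

def cKK_21_5 : PLift (bnd (fKK 5 1 21 4 28 22)
    (bnd (fKK 6 0 21 4 0 45)
    (fKK 6 1 21 4 0 33)) = true) :=
  ⟨by decide +kernel⟩

def cKK_21_6 : PLift (bnd (fKK 6 1 21 4 33 15)
    (bnd (fKK 7 0 21 4 0 43)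
    (fKK 7 1 21 4 0 42)) = true) :=
  ⟨by decide +kernel⟩

def cKK_21_7 : PLift (bnd (fKK 7 1 21 4 42 4)
    (bnd (fKK 8 0 21 4 0 41)
    (fKK 8 1 21 4 0 44)) = true) :=
  ⟨by decide +kernel⟩

end Pool.Agent.Work.MP_6bf1e5_an.HD
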