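import Pool.Agent.Work.MP_6bf1e5_an.HD.CfKK

/-! Checks of the pass KK, part 6. -/

namespace Pool.Agent.Work.MP_6bf1e5_an.HD

open Pool.Agent.Lib.KLA Pool.Agent.Lib.KBlk

def cKK_21_8 : PLift (bnd (fKK 9 0 21 4 0 39)
    (fKK 9 1 21 4 0 42) = true) :=
  ⟨by decide +kernel⟩

def cKK_21_9 : PLift (bnd (fKK 10 0 21 4 0 37)
    (fKK 10 1 21 4 0 40) = true) :=
  ⟨by decide +kernel⟩

def cKK_21_10 : PLift (bnd (fKK 11 0 21 4 0 35)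
    (fKK 11 1 21 4 0 38) = true) :=
  ⟨by decide +kernel⟩

def cKK_21_11 : PLift (bnd (fKK 12 0 21 4 0 33)
    (bnd (fKK 12 1 21 4 0 36)
    (fKK 13 0 21 4 0 25)) = true) :=
  ⟨by decide +kernel⟩

def cKK_21_12 : PLift (bnd (fKK 13 0 21 4 25 6)
    (bnd (fKK 13 1 21 4 0 34)
    (fKK 14 0 21 4 0 29)) = true) :=
  ⟨by decide +kernel⟩

def cKK_21_13 : PLift (bnd (fKK 14 1 21 4 0 32)
    (bnd (fKK 15 0 21 4 0 27)
    (fKK 15 1 21 4 0 30)) = true) :=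
  ⟨by decide +kernel⟩

def cKK_21_14 : PLift (bnd (fKK 16 0 21 4 0 25)
    (bnd (fKK 16 1 21 4 0 28)
    (fKK 17 0 21 4 0 23)) = true) :=
  ⟨by decide +kernel⟩

def cKK_21_15 : PLift (bnd (fKK 17 1 21 4 0 26)
    (bnd (fKK 18 0 21 4 0 21)
    (fKK 18 1 21 4 0 24)) = true) :=
  ⟨by decide +kernel⟩

def cKK_21_16 : PLift (bnd (fKK 19 0 21 4 0 19)
    (bnd (fKK 19 1 21 4 0 22)
    (bnd (fKK 20 0 21 4 0 17)
    (fKK 20 1 21 4 0 20))) = true) :=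
  ⟨by decide +kernel⟩

def cKK_21_17 : PLift (bnd (fKK 21 0 21 4 0 15)
    (bnd (fKK 21 1 21 4 0 18)
    (bnd (fKK 22 0 21 4 0 13)
    (bnd (fKK 22 1 21 4 0 16)
    (fKK 23 0 21 4 0 11)))) = true) :=
  ⟨by decide +kernel⟩

def cKK_21_18 : PLift (bnd (fKK 23 1 21 4 0 14)
    (bnd (fKK 24 0 21 4 0 9)
    (bnd (fKK 24 1 21 4 0 12)
    (bnd (fKK 25 0 21 4 0 7)
    (bnd (fKK 25 1 21 4 0 10)
    (fKK 26 0 21 4 0 5))))) = true) :=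
  ⟨by decide +kernel⟩

def cKK_21_19 : PLift (bnd (fKK 26 1 21 4 0 8)
    (bnd (fKK 27 0 21 4 0 3)
    (bnd (fKK 27 1 21 4 0 6)
    (bnd (fKK 28 0 21 4 0 1)
    (fKK 28 1 21 4 0 4)))) = true) :=
  ⟨by decide +kernel⟩

def cKK_25_0 : PLift (bnd (fKK 1 0 25 4 0 55)
    (fKK 1 1 25 4 0 58) = true) :=
  ⟨by decide +kernel⟩

def cKK_25_1 : PLift (bnd (fKK 2 0 25 4 0 53)
    (fKK 2 1 25 4 0 56) = true) :=
  ⟨by decide +kernel⟩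

def cKK_25_2 : PLift (bnd (fKK 3 0 25 4 0 51)
    (fKK 3 1 25 4 0 54) = true) :=
  ⟨by decide +kernel⟩

def cKK_25_3 : PLift (bnd (fKK 4 0 25 4 0 49)
    (fKK 4 1 25 4 0 52) = true) :=
  ⟨by decide +kernel⟩

def cKK_25_4 : PLift (bnd (fKK 5 0 25 4 0 47)
    (fKK 5 1 25 4 0 50) = true) :=
  ⟨by decide +kernel⟩

def cKK_25_5 : PLift (bnd (fKK 6 0 25 4 0 45)
    (fKK 6 1 25 4 0 48) = true) :=
  ⟨by decide +kernel⟩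

def cKK_25_6 : PLift (bnd (fKK 7 0 25 4 0 43)
    (bnd (fKK 7 1 25 4 0 46)
    (fKK 8 0 25 4 0 26)) = true) :=
  ⟨by decide +kernel⟩

def cKK_25_7 : PLift (bnd (fKK 8 0 25 4 26 15)
    (bnd (fKK 8 1 25 4 0 44)
    (fKK 9 0 25 4 0 39)) = true) :=
  ⟨by decide +kernel⟩

def cKK_25_8 : PLift (bnd (fKK 9 1 25 4 0 42)
    (bnd (fKK 10 0 25 4 0 37)
    (fKK 10 1 25 4 0 36)) = true) :=
  ⟨by decide +kernel⟩

def cKK_25_9 : PLift (bnd (fKK 10 1 25 4 36 4)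
    (bnd (fKK 11 0 25 4 0 35)
    (bnd (fKK 11 1 25 4 0 38)
    (fKK 12 0 25 4 0 31))) = true) :=
  ⟨by decide +kernel⟩

def cKK_25_10 : PLift (bnd (fKK 12 0 25 4 31 2)
    (bnd (fKK 12 1 25 4 0 36)
    (bnd (fKK 13 0 25 4 0 31)
    (fKK 13 1 25 4 0 34))) = true) :=
  ⟨by decide +kernel⟩

end Pool.Agent.Work.MP_6bf1e5_an.HD
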