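import Pool.Agent.Work.MP_6bf1e5_an.HD.CfKK

/-! Checks of the pass KK, part 7. -/

namespace Pool.Agent.Work.MP_6bf1e5_an.HD

open Pool.Agent.Lib.KLA Pool.Agent.Lib.KBlk

def cKK_25_11 : PLift (bnd (fKK 14 0 25 4 0 29)
    (bnd (fKK 14 1 25 4 0 32)
    (fKK 15 0 25 4 0 27)) = true) :=
  ⟨by decide +kernel⟩

def cKK_25_12 : PLift (bnd (fKK 15 1 25 4 0 30)
    (bnd (fKK 16 0 25 4 0 25)
    (bnd (fKK 16 1 25 4 0 28)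
    (fKK 17 0 25 4 0 23))) = true) :=
  ⟨by decide +kernel⟩

def cKK_25_13 : PLift (bnd (fKK 17 1 25 4 0 26)
    (bnd (fKK 18 0 25 4 0 21)
    (bnd (fKK 18 1 25 4 0 24)
    (fKK 19 0 25 4 0 19))) = true) :=
  ⟨by decide +kernel⟩

def cKK_25_14 : PLift (bnd (fKK 19 1 25 4 0 22)
    (bnd (fKK 20 0 25 4 0 17)
    (bnd (fKK 20 1 25 4 0 20)
    (bnd (fKK 21 0 25 4 0 15)
    (fKK 21 1 25 4 0 18)))) = true) :=
  ⟨by decide +kernel⟩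

def cKK_25_15 : PLift (bnd (fKK 22 0 25 4 0 13)
    (bnd (fKK 22 1 25 4 0 16)
    (bnd (fKK 23 0 25 4 0 11)
    (bnd (fKK 23 1 25 4 0 14)
    (bnd (fKK 24 0 25 4 0 9)
    (fKK 24 1 25 4 0 12))))) = true) :=
  ⟨by decide +kernel⟩

def cKK_25_16 : PLift (bnd (fKK 25 0 25 4 0 7)
    (bnd (fKK 25 1 25 4 0 10)
    (bnd (fKK 26 0 25 4 0 5)
    (bnd (fKK 26 1 25 4 0 8)
    (bnd (fKK 27 0 25 4 0 3)
    (bnd (fKK 27 1 25 4 0 6)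
    (bnd (fKK 28 0 25 4 0 1)
    (fKK 28 1 25 4 0 4))))))) = true) :=
  ⟨by decide +kernel⟩

def cKK_29_0 : PLift (bnd (fKK 1 0 29 4 0 55)
    (bnd (fKK 1 1 29 4 0 58)
    (fKK 2 0 29 4 0 38)) = true) :=
  ⟨by decide +kernel⟩

def cKK_29_1 : PLift (bnd (fKK 2 0 29 4 38 15)
    (bnd (fKK 2 1 29 4 0 56)
    (bnd (fKK 3 0 29 4 0 51)
    (fKK 3 1 29 4 0 18))) = true) :=
  ⟨by decide +kernel⟩

def cKK_29_2 : PLift (bnd (fKK 3 1 29 4 18 36)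
    (bnd (fKK 4 0 29 4 0 49)
    (fKK 4 1 29 4 0 52)) = true) :=
  ⟨by decide +kernel⟩

def cKK_29_3 : PLift (bnd (fKK 5 0 29 4 0 47)
    (bnd (fKK 5 1 29 4 0 50)
    (fKK 6 0 29 4 0 45)) = true) :=
  ⟨by decide +kernel⟩

def cKK_29_4 : PLift (bnd (fKK 6 1 29 4 0 48)
    (bnd (fKK 7 0 29 4 0 43)
    (fKK 7 1 29 4 0 46)) = true) :=
  ⟨by decide +kernel⟩

def cKK_29_5 : PLift (bnd (fKK 8 0 29 4 0 41)
    (bnd (fKK 8 1 29 4 0 44)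
    (bnd (fKK 9 0 29 4 0 39)
    (fKK 9 1 29 4 0 14))) = true) :=
  ⟨by decide +kernel⟩

def cKK_29_6 : PLift (bnd (fKK 9 1 29 4 14 28)
    (bnd (fKK 10 0 29 4 0 37)
    (bnd (fKK 10 1 29 4 0 40)
    (fKK 11 0 29 4 0 33))) = true) :=
  ⟨by decide +kernel⟩

def cKK_29_7 : PLift (bnd (fKK 11 0 29 4 33 2)
    (bnd (fKK 11 1 29 4 0 38)
    (bnd (fKK 12 0 29 4 0 33)
    (bnd (fKK 12 1 29 4 0 36)
    (fKK 13 0 29 4 0 20)))) = true) :=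
  ⟨by decide +kernel⟩

def cKK_29_8 : PLift (bnd (fKK 13 0 29 4 20 11)
    (bnd (fKK 13 1 29 4 0 34)
    (bnd (fKK 14 0 29 4 0 29)
    (bnd (fKK 14 1 29 4 0 32)
    (fKK 15 0 29 4 0 23)))) = true) :=
  ⟨by decide +kernel⟩

def cKK_29_9 : PLift (bnd (fKK 15 0 29 4 23 4)
    (bnd (fKK 15 1 29 4 0 30)
    (bnd (fKK 16 0 29 4 0 25)
    (bnd (fKK 16 1 29 4 0 28)
    (fKK 17 0 29 4 0 23)))) = true) :=
  ⟨by decide +kernel⟩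

def cKK_29_10 : PLift (bnd (fKK 17 1 29 4 0 26)
    (bnd (fKK 18 0 29 4 0 21)
    (bnd (fKK 18 1 29 4 0 24)
    (bnd (fKK 19 0 29 4 0 19)
    (fKK 19 1 29 4 0 22)))) = true) :=
  ⟨by decide +kernel⟩

def cKK_29_11 : PLift (bnd (fKK 20 0 29 4 0 17)
    (bnd (fKK 20 1 29 4 0 20)
    (bnd (fKK 21 0 29 4 0 15)
    (bnd (fKK 21 1 29 4 0 18)
    (bnd (fKK 22 0 29 4 0 13)
    (fKK 22 1 29 4 0 16))))) = true) :=
  ⟨by decide +kernel⟩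

def cKK_29_12 : PLift (bnd (fKK 23 0 29 4 0 11)
    (bnd (fKK 23 1 29 4 0 14)
    (bnd (fKK 24 0 29 4 0 9)
    (bnd (fKK 24 1 29 4 0 12)
    (bnd (fKK 25 0 29 4 0 7)
    (bnd (fKK 25 1 29 4 0 10)
    (bnd (fKK 26 0 29 4 0 5)
    (fKK 26 1 29 4 0 8))))))) = true) :=
  ⟨by decide +kernel⟩

def cKK_29_13 : PLift (bnd (fKK 27 0 29 4 0 3)
    (bnd (fKK 27 1 29 4 0 6)
    (bnd (fKK 28 0 29 4 0 1)
    (fKK 28 1 29 4 0 4))) = true) :=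
  ⟨by decide +kernel⟩

end Pool.Agent.Work.MP_6bf1e5_an.HD
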