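import Pool.Agent.Work.MP_6bf1e5_an.HD.CfLL

/-! Checks of the pass LL, part 0. -/

namespace Pool.Agent.Work.MP_6bf1e5_an.HD

open Pool.Agent.Lib.KLA Pool.Agent.Lib.KBlk

def cLL_1_0 : PLift (fLL 1 0 1 4 0 36 = true) :=
  ⟨by decide +kernel⟩

def cLL_1_1 : PLift (bnd (fLL 1 0 1 4 36 19)
    (fLL 1 1 1 4 0 12) = true) :=
  ⟨by decide +kernel⟩

def cLL_1_2 : PLift (fLL 1 1 1 4 12 36 = true) :=
  ⟨by decide +kernel⟩

def cLL_1_3 : PLift (bnd (fLL 1 1 1 4 48 10)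
    (fLL 2 0 1 4 0 21) = true) :=
  ⟨by decide +kernel⟩

def cLL_1_4 : PLift (fLL 2 0 1 4 21 32 = true) :=
  ⟨by decide +kernel⟩

def cLL_1_5 : PLift (fLL 2 1 1 4 0 36 = true) :=
  ⟨by decide +kernel⟩

def cLL_1_6 : PLift (fLL 2 1 1 4 36 20 = true) :=
  ⟨by decide +kernel⟩

def cLL_1_7 : PLift (fLL 3 0 1 4 0 36 = true) :=
  ⟨by decide +kernel⟩

def cLL_1_8 : PLift (bnd (fLL 3 0 1 4 36 15)
    (fLL 3 1 1 4 0 16) = true) :=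
  ⟨by decide +kernel⟩

def cLL_1_9 : PLift (fLL 3 1 1 4 16 36 = true) :=
  ⟨by decide +kernel⟩

def cLL_1_10 : PLift (bnd (fLL 3 1 1 4 52 2)
    (fLL 4 0 1 4 0 29) = true) :=
  ⟨by decide +kernel⟩

def cLL_1_11 : PLift (fLL 4 0 1 4 29 20 = true) :=
  ⟨by decide +kernel⟩

def cLL_1_12 : PLift (fLL 4 1 1 4 0 36 = true) :=
  ⟨by decide +kernel⟩

def cLL_1_13 : PLift (bnd (fLL 4 1 1 4 36 16)
    (fLL 5 0 1 4 0 12) = true) :=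
  ⟨by decide +kernel⟩

def cLL_1_14 : PLift (fLL 5 0 1 4 12 31 = true) :=
  ⟨by decide +kernel⟩

def cLL_1_15 : PLift (bnd (fLL 5 0 1 4 43 4)
    (fLL 5 1 1 4 0 22) = true) :=
  ⟨by decide +kernel⟩

def cLL_1_16 : PLift (fLL 5 1 1 4 22 28 = true) :=
  ⟨by decide +kernel⟩

def cLL_1_17 : PLift (fLL 6 0 1 4 0 31 = true) :=
  ⟨by decide +kernel⟩

def cLL_1_18 : PLift (bnd (fLL 6 0 1 4 31 14)
    (fLL 6 1 1 4 0 13) = true) :=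
  ⟨by decide +kernel⟩

def cLL_1_19 : PLift (fLL 6 1 1 4 13 31 = true) :=
  ⟨by decide +kernel⟩

def cLL_1_20 : PLift (bnd (fLL 6 1 1 4 44 4)
    (fLL 7 0 1 4 0 23) = true) :=
  ⟨by decide +kernel⟩

def cLL_1_21 : PLift (fLL 7 0 1 4 23 20 = true) :=
  ⟨by decide +kernel⟩

def cLL_1_22 : PLift (fLL 7 1 1 4 0 31 = true) :=
  ⟨by decide +kernel⟩

def cLL_1_23 : PLift (bnd (fLL 7 1 1 4 31 15)
    (fLL 8 0 1 4 0 12) = true) :=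
  ⟨by decide +kernel⟩

def cLL_1_24 : PLift (fLL 8 0 1 4 12 29 = true) :=
  ⟨by decide +kernel⟩

def cLL_1_25 : PLift (fLL 8 1 1 4 0 31 = true) :=
  ⟨by decide +kernel⟩

def cLL_1_26 : PLift (fLL 8 1 1 4 31 13 = true) :=
  ⟨by decide +kernel⟩

def cLL_1_27 : PLift (fLL 9 0 1 4 0 28 = true) :=
  ⟨by decide +kernel⟩

def cLL_1_28 : PLift (bnd (fLL 9 0 1 4 28 11)
    (fLL 9 1 1 4 0 12) = true) :=
  ⟨by decide +kernel⟩

def cLL_1_29 : PLift (fLL 9 1 1 4 12 27 = true) :=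
  ⟨by decide +kernel⟩

end Pool.Agent.Work.MP_6bf1e5_an.HD
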