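import Pool.Agent.Work.MP_6bf1e5_an.HD.CfLL

/-! Checks of the pass LL, part 1. -/

namespace Pool.Agent.Work.MP_6bf1e5_an.HD

open Pool.Agent.Lib.KLA Pool.Agent.Lib.KBlk

def cLL_1_30 : PLift (bnd (fLL 9 1 1 4 39 3)
    (fLL 10 0 1 4 0 21) = true) :=
  ⟨by decide +kernel⟩

def cLL_1_31 : PLift (fLL 10 0 1 4 21 16 = true) :=
  ⟨by decide +kernel⟩

def cLL_1_32 : PLift (fLL 10 1 1 4 0 28 = true) :=
  ⟨by decide +kernel⟩

def cLL_1_33 : PLift (bnd (fLL 10 1 1 4 28 12)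
    (fLL 11 0 1 4 0 12) = true) :=
  ⟨by decide +kernel⟩

def cLL_1_34 : PLift (fLL 11 0 1 4 12 23 = true) :=
  ⟨by decide +kernel⟩

def cLL_1_35 : PLift (fLL 11 1 1 4 0 28 = true) :=
  ⟨by decide +kernel⟩

def cLL_1_36 : PLift (bnd (fLL 11 1 1 4 28 10)
    (fLL 12 0 1 4 0 13) = true) :=
  ⟨by decide +kernel⟩

def cLL_1_37 : PLift (fLL 12 0 1 4 13 20 = true) :=
  ⟨by decide +kernel⟩

def cLL_1_38 : PLift (fLL 12 1 1 4 0 27 = true) :=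
  ⟨by decide +kernel⟩

def cLL_1_39 : PLift (fLL 12 1 1 4 27 9 = true) :=
  ⟨by decide +kernel⟩

def cLL_1_40 : PLift (fLL 13 0 1 4 0 25 = true) :=
  ⟨by decide +kernel⟩

def cLL_1_41 : PLift (bnd (fLL 13 0 1 4 25 6)
    (fLL 13 1 1 4 0 15) = true) :=
  ⟨by decide +kernel⟩

def cLL_1_42 : PLift (fLL 13 1 1 4 15 19 = true) :=
  ⟨by decide +kernel⟩

def cLL_1_43 : PLift (fLL 14 0 1 4 0 25 = true) :=
  ⟨by decide +kernel⟩

def cLL_1_44 : PLift (bnd (fLL 14 0 1 4 25 4)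
    (fLL 14 1 1 4 0 16) = true) :=
  ⟨by decide +kernel⟩

def cLL_1_45 : PLift (fLL 14 1 1 4 16 16 = true) :=
  ⟨by decide +kernel⟩

def cLL_1_46 : PLift (fLL 15 0 1 4 0 25 = true) :=
  ⟨by decide +kernel⟩

def cLL_1_47 : PLift (bnd (fLL 15 0 1 4 25 2)
    (fLL 15 1 1 4 0 18) = true) :=
  ⟨by decide +kernel⟩

def cLL_1_48 : PLift (fLL 15 1 1 4 18 12 = true) :=
  ⟨by decide +kernel⟩

def cLL_1_49 : PLift (fLL 16 0 1 4 0 25 = true) :=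
  ⟨by decide +kernel⟩

def cLL_1_50 : PLift (fLL 16 1 1 4 0 25 = true) :=
  ⟨by decide +kernel⟩

def cLL_1_51 : PLift (bnd (fLL 16 1 1 4 25 3)
    (fLL 17 0 1 4 0 14) = true) :=
  ⟨by decide +kernel⟩

def cLL_1_52 : PLift (fLL 17 0 1 4 14 9 = true) :=
  ⟨by decide +kernel⟩

def cLL_1_53 : PLift (fLL 17 1 1 4 0 23 = true) :=
  ⟨by decide +kernel⟩

def cLL_1_54 : PLift (bnd (fLL 17 1 1 4 23 3)
    (fLL 18 0 1 4 0 16) = true) :=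
  ⟨by decide +kernel⟩

def cLL_1_55 : PLift (bnd (fLL 18 0 1 4 16 5)
    (fLL 18 1 1 4 0 14) = true) :=
  ⟨by decide +kernel⟩

def cLL_1_56 : PLift (fLL 18 1 1 4 14 10 = true) :=
  ⟨by decide +kernel⟩

def cLL_1_57 : PLift (fLL 19 0 1 4 0 19 = true) :=
  ⟨by decide +kernel⟩

def cLL_1_58 : PLift (fLL 19 1 1 4 0 22 = true) :=
  ⟨by decide +kernel⟩

def cLL_1_59 : PLift (fLL 20 0 1 4 0 17 = true) :=
  ⟨by decide +kernel⟩

def cLL_1_60 : PLift (fLL 20 1 1 4 0 20 = true) :=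
  ⟨by decide +kernel⟩

def cLL_1_61 : PLift (fLL 21 0 1 4 0 15 = true) :=
  ⟨by decide +kernel⟩

def cLL_1_62 : PLift (fLL 21 1 1 4 0 18 = true) :=
  ⟨by decide +kernel⟩

end Pool.Agent.Work.MP_6bf1e5_an.HD
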