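import Pool.Agent.Work.MP_6bf1e5_an.HD.CfLL

/-! Checks of the pass LL, part 10. -/

namespace Pool.Agent.Work.MP_6bf1e5_an.HD

open Pool.Agent.Lib.KLA Pool.Agent.Lib.KBlk

def cLL_21_7 : PLift (fLL 4 1 21 4 0 52 = true) :=
  ⟨by decide +kernel⟩

def cLL_21_8 : PLift (fLL 5 0 21 4 0 47 = true) :=
  ⟨by decide +kernel⟩

def cLL_21_9 : PLift (fLL 5 1 21 4 0 50 = true) :=
  ⟨by decide +kernel⟩

def cLL_21_10 : PLift (fLL 6 0 21 4 0 45 = true) :=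
  ⟨by decide +kernel⟩

def cLL_21_11 : PLift (fLL 6 1 21 4 0 48 = true) :=
  ⟨by decide +kernel⟩

def cLL_21_12 : PLift (fLL 7 0 21 4 0 43 = true) :=
  ⟨by decide +kernel⟩

def cLL_21_13 : PLift (fLL 7 1 21 4 0 46 = true) :=
  ⟨by decide +kernel⟩

def cLL_21_14 : PLift (fLL 8 0 21 4 0 41 = true) :=
  ⟨by decide +kernel⟩

def cLL_21_15 : PLift (fLL 8 1 21 4 0 44 = true) :=
  ⟨by decide +kernel⟩

def cLL_21_16 : PLift (fLL 9 0 21 4 0 39 = true) :=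
  ⟨by decide +kernel⟩

def cLL_21_17 : PLift (fLL 9 1 21 4 0 42 = true) :=
  ⟨by decide +kernel⟩

def cLL_21_18 : PLift (fLL 10 0 21 4 0 37 = true) :=
  ⟨by decide +kernel⟩

def cLL_21_19 : PLift (fLL 10 1 21 4 0 40 = true) :=
  ⟨by decide +kernel⟩

def cLL_21_20 : PLift (fLL 11 0 21 4 0 35 = true) :=
  ⟨by decide +kernel⟩

def cLL_21_21 : PLift (fLL 11 1 21 4 0 38 = true) :=
  ⟨by decide +kernel⟩

def cLL_21_22 : PLift (fLL 12 0 21 4 0 33 = true) :=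
  ⟨by decide +kernel⟩

def cLL_21_23 : PLift (fLL 12 1 21 4 0 36 = true) :=
  ⟨by decide +kernel⟩

def cLL_21_24 : PLift (fLL 13 0 21 4 0 31 = true) :=
  ⟨by decide +kernel⟩

def cLL_21_25 : PLift (fLL 13 1 21 4 0 34 = true) :=
  ⟨by decide +kernel⟩

def cLL_21_26 : PLift (fLL 14 0 21 4 0 29 = true) :=
  ⟨by decide +kernel⟩

def cLL_21_27 : PLift (fLL 14 1 21 4 0 32 = true) :=
  ⟨by decide +kernel⟩

def cLL_21_28 : PLift (fLL 15 0 21 4 0 27 = true) :=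
  ⟨by decide +kernel⟩

def cLL_21_29 : PLift (fLL 15 1 21 4 0 30 = true) :=
  ⟨by decide +kernel⟩

def cLL_21_30 : PLift (fLL 16 0 21 4 0 25 = true) :=
  ⟨by decide +kernel⟩

def cLL_21_31 : PLift (fLL 16 1 21 4 0 28 = true) :=
  ⟨by decide +kernel⟩

def cLL_21_32 : PLift (fLL 17 0 21 4 0 23 = true) :=
  ⟨by decide +kernel⟩

def cLL_21_33 : PLift (fLL 17 1 21 4 0 26 = true) :=
  ⟨by decide +kernel⟩

def cLL_21_34 : PLift (fLL 18 0 21 4 0 21 = true) :=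
  ⟨by decide +kernel⟩

def cLL_21_35 : PLift (fLL 18 1 21 4 0 24 = true) :=
  ⟨by decide +kernel⟩

def cLL_21_36 : PLift (fLL 19 0 21 4 0 19 = true) :=
  ⟨by decide +kernel⟩

def cLL_21_37 : PLift (fLL 19 1 21 4 0 22 = true) :=
  ⟨by decide +kernel⟩

def cLL_21_38 : PLift (bnd (fLL 20 0 21 4 0 17)
    (fLL 20 1 21 4 0 20) = true) :=
  ⟨by decide +kernel⟩

end Pool.Agent.Work.MP_6bf1e5_an.HD
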