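import Pool.Agent.Work.MP_6bf1e5_an.HD.CfLL

/-! Checks of the pass LL, part 11. -/

namespace Pool.Agent.Work.MP_6bf1e5_an.HD

open Pool.Agent.Lib.KLA Pool.Agent.Lib.KBlk

def cLL_21_39 : PLift (bnd (fLL 21 0 21 4 0 15)
    (fLL 21 1 21 4 0 18) = true) :=
  ⟨by decide +kernel⟩

def cLL_21_40 : PLift (bnd (fLL 22 0 21 4 0 13)
    (fLL 22 1 21 4 0 16) = true) :=
  ⟨by decide +kernel⟩

def cLL_21_41 : PLift (bnd (fLL 23 0 21 4 0 11)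
    (fLL 23 1 21 4 0 14) = true) :=
  ⟨by decide +kernel⟩

def cLL_21_42 : PLift (bnd (fLL 24 0 21 4 0 9)
    (fLL 24 1 21 4 0 12) = true) :=
  ⟨by decide +kernel⟩

def cLL_21_43 : PLift (bnd (fLL 25 0 21 4 0 7)
    (bnd (fLL 25 1 21 4 0 10)
    (fLL 26 0 21 4 0 5)) = true) :=
  ⟨by decide +kernel⟩

def cLL_21_44 : PLift (bnd (fLL 26 1 21 4 0 8)
    (bnd (fLL 27 0 21 4 0 3)
    (bnd (fLL 27 1 21 4 0 6)
    (fLL 28 0 21 4 0 1))) = true) :=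
  ⟨by decide +kernel⟩

def cLL_21_45 : PLift (fLL 28 1 21 4 0 4 = true) :=
  ⟨by decide +kernel⟩

def cLL_25_0 : PLift (fLL 1 0 25 4 0 55 = true) :=
  ⟨by decide +kernel⟩

def cLL_25_1 : PLift (fLL 1 1 25 4 0 58 = true) :=
  ⟨by decide +kernel⟩

def cLL_25_2 : PLift (fLL 2 0 25 4 0 53 = true) :=
  ⟨by decide +kernel⟩

def cLL_25_3 : PLift (fLL 2 1 25 4 0 56 = true) :=
  ⟨by decide +kernel⟩

def cLL_25_4 : PLift (fLL 3 0 25 4 0 51 = true) :=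
  ⟨by decide +kernel⟩

def cLL_25_5 : PLift (fLL 3 1 25 4 0 54 = true) :=
  ⟨by decide +kernel⟩

def cLL_25_6 : PLift (fLL 4 0 25 4 0 49 = true) :=
  ⟨by decide +kernel⟩

def cLL_25_7 : PLift (fLL 4 1 25 4 0 52 = true) :=
  ⟨by decide +kernel⟩

def cLL_25_8 : PLift (fLL 5 0 25 4 0 47 = true) :=
  ⟨by decide +kernel⟩

def cLL_25_9 : PLift (fLL 5 1 25 4 0 50 = true) :=
  ⟨by decide +kernel⟩

def cLL_25_10 : PLift (fLL 6 0 25 4 0 45 = true) :=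
  ⟨by decide +kernel⟩

def cLL_25_11 : PLift (fLL 6 1 25 4 0 48 = true) :=
  ⟨by decide +kernel⟩

def cLL_25_12 : PLift (fLL 7 0 25 4 0 43 = true) :=
  ⟨by decide +kernel⟩

def cLL_25_13 : PLift (fLL 7 1 25 4 0 46 = true) :=
  ⟨by decide +kernel⟩

def cLL_25_14 : PLift (fLL 8 0 25 4 0 41 = true) :=
  ⟨by decide +kernel⟩

def cLL_25_15 : PLift (fLL 8 1 25 4 0 44 = true) :=
  ⟨by decide +kernel⟩

def cLL_25_16 : PLift (fLL 9 0 25 4 0 39 = true) :=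
  ⟨by decide +kernel⟩

def cLL_25_17 : PLift (fLL 9 1 25 4 0 42 = true) :=
  ⟨by decide +kernel⟩

def cLL_25_18 : PLift (fLL 10 0 25 4 0 37 = true) :=
  ⟨by decide +kernel⟩

def cLL_25_19 : PLift (fLL 10 1 25 4 0 40 = true) :=
  ⟨by decide +kernel⟩

def cLL_25_20 : PLift (fLL 11 0 25 4 0 35 = true) :=
  ⟨by decide +kernel⟩

def cLL_25_21 : PLift (fLL 11 1 25 4 0 38 = true) :=
  ⟨by decide +kernel⟩

def cLL_25_22 : PLift (fLL 12 0 25 4 0 33 = true) :=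
  ⟨by decide +kernel⟩

end Pool.Agent.Work.MP_6bf1e5_an.HD
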