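import Pool.Agent.Work.MP_6bf1e5_an.HD.CfLL

/-! Checks of the pass LL, part 12. -/

namespace Pool.Agent.Work.MP_6bf1e5_an.HD

open Pool.Agent.Lib.KLA Pool.Agent.Lib.KBlk

def cLL_25_23 : PLift (fLL 12 1 25 4 0 36 = true) :=
  ⟨by decide +kernel⟩

def cLL_25_24 : PLift (fLL 13 0 25 4 0 31 = true) :=
  ⟨by decide +kernel⟩

def cLL_25_25 : PLift (fLL 13 1 25 4 0 34 = true) :=
  ⟨by decide +kernel⟩

def cLL_25_26 : PLift (fLL 14 0 25 4 0 29 = true) :=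
  ⟨by decide +kernel⟩

def cLL_25_27 : PLift (fLL 14 1 25 4 0 32 = true) :=
  ⟨by decide +kernel⟩

def cLL_25_28 : PLift (bnd (fLL 15 0 25 4 0 27)
    (fLL 15 1 25 4 0 24) = true) :=
  ⟨by decide +kernel⟩

def cLL_25_29 : PLift (bnd (fLL 15 1 25 4 24 6)
    (fLL 16 0 25 4 0 25) = true) :=
  ⟨by decide +kernel⟩

def cLL_25_30 : PLift (fLL 16 1 25 4 0 28 = true) :=
  ⟨by decide +kernel⟩

def cLL_25_31 : PLift (bnd (fLL 17 0 25 4 0 23)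
    (fLL 17 1 25 4 0 25) = true) :=
  ⟨by decide +kernel⟩

def cLL_25_32 : PLift (bnd (fLL 17 1 25 4 25 1)
    (fLL 18 0 25 4 0 21) = true) :=
  ⟨by decide +kernel⟩

def cLL_25_33 : PLift (bnd (fLL 18 1 25 4 0 24)
    (fLL 19 0 25 4 0 19) = true) :=
  ⟨by decide +kernel⟩

def cLL_25_34 : PLift (bnd (fLL 19 1 25 4 0 22)
    (fLL 20 0 25 4 0 17) = true) :=
  ⟨by decide +kernel⟩

def cLL_25_35 : PLift (bnd (fLL 20 1 25 4 0 20)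
    (fLL 21 0 25 4 0 15) = true) :=
  ⟨by decide +kernel⟩

def cLL_25_36 : PLift (bnd (fLL 21 1 25 4 0 18)
    (fLL 22 0 25 4 0 13) = true) :=
  ⟨by decide +kernel⟩

def cLL_25_37 : PLift (bnd (fLL 22 1 25 4 0 16)
    (fLL 23 0 25 4 0 11) = true) :=
  ⟨by decide +kernel⟩

def cLL_25_38 : PLift (bnd (fLL 23 1 25 4 0 14)
    (bnd (fLL 24 0 25 4 0 9)
    (fLL 24 1 25 4 0 12)) = true) :=
  ⟨by decide +kernel⟩

def cLL_25_39 : PLift (bnd (fLL 25 0 25 4 0 7)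
    (bnd (fLL 25 1 25 4 0 10)
    (fLL 26 0 25 4 0 5)) = true) :=
  ⟨by decide +kernel⟩

def cLL_25_40 : PLift (bnd (fLL 26 1 25 4 0 8)
    (bnd (fLL 27 0 25 4 0 3)
    (bnd (fLL 27 1 25 4 0 6)
    (fLL 28 0 25 4 0 1))) = true) :=
  ⟨by decide +kernel⟩

def cLL_25_41 : PLift (fLL 28 1 25 4 0 4 = true) :=
  ⟨by decide +kernel⟩

def cLL_29_0 : PLift (bnd (fLL 1 0 29 4 0 55)
    (fLL 1 1 29 4 0 30) = true) :=
  ⟨by decide +kernel⟩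

def cLL_29_1 : PLift (bnd (fLL 1 1 29 4 30 28)
    (fLL 2 0 29 4 0 53) = true) :=
  ⟨by decide +kernel⟩

def cLL_29_2 : PLift (bnd (fLL 2 1 29 4 0 56)
    (fLL 3 0 29 4 0 28) = true) :=
  ⟨by decide +kernel⟩

def cLL_29_3 : PLift (bnd (fLL 3 0 29 4 28 23)
    (fLL 3 1 29 4 0 54) = true) :=
  ⟨by decide +kernel⟩

def cLL_29_4 : PLift (bnd (fLL 4 0 29 4 0 49)
    (fLL 4 1 29 4 0 34) = true) :=
  ⟨by decide +kernel⟩

def cLL_29_5 : PLift (bnd (fLL 4 1 29 4 34 18)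
    (fLL 5 0 29 4 0 47) = true) :=
  ⟨by decide +kernel⟩

def cLL_29_6 : PLift (bnd (fLL 5 1 29 4 0 50)
    (fLL 6 0 29 4 0 25) = true) :=
  ⟨by decide +kernel⟩

end Pool.Agent.Work.MP_6bf1e5_an.HD
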