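import Pool.Agent.Work.MP_6bf1e5_an.HD.CfLL

/-! Checks of the pass LL, part 13. -/

namespace Pool.Agent.Work.MP_6bf1e5_an.HD

open Pool.Agent.Lib.KLA Pool.Agent.Lib.KBlk

def cLL_29_7 : PLift (bnd (fLL 6 0 29 4 25 20)
    (fLL 6 1 29 4 0 48) = true) :=
  ⟨by decide +kernel⟩

def cLL_29_8 : PLift (bnd (fLL 7 0 29 4 0 43)
    (fLL 7 1 29 4 0 33) = true) :=
  ⟨by decide +kernel⟩

def cLL_29_9 : PLift (bnd (fLL 7 1 29 4 33 13)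
    (fLL 8 0 29 4 0 41) = true) :=
  ⟨by decide +kernel⟩

def cLL_29_10 : PLift (bnd (fLL 8 1 29 4 0 44)
    (fLL 9 0 29 4 0 26) = true) :=
  ⟨by decide +kernel⟩

def cLL_29_11 : PLift (bnd (fLL 9 0 29 4 26 13)
    (fLL 9 1 29 4 0 42) = true) :=
  ⟨by decide +kernel⟩

def cLL_29_12 : PLift (bnd (fLL 10 0 29 4 0 37)
    (fLL 10 1 29 4 0 33) = true) :=
  ⟨by decide +kernel⟩

def cLL_29_13 : PLift (bnd (fLL 10 1 29 4 33 7)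
    (fLL 11 0 29 4 0 35) = true) :=
  ⟨by decide +kernel⟩

def cLL_29_14 : PLift (bnd (fLL 11 1 29 4 0 38)
    (fLL 12 0 29 4 0 33) = true) :=
  ⟨by decide +kernel⟩

def cLL_29_15 : PLift (bnd (fLL 12 1 29 4 0 36)
    (fLL 13 0 29 4 0 29) = true) :=
  ⟨by decide +kernel⟩

def cLL_29_16 : PLift (bnd (fLL 13 0 29 4 29 2)
    (fLL 13 1 29 4 0 34) = true) :=
  ⟨by decide +kernel⟩

def cLL_29_17 : PLift (bnd (fLL 14 0 29 4 0 29)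
    (fLL 14 1 29 4 0 32) = true) :=
  ⟨by decide +kernel⟩

def cLL_29_18 : PLift (bnd (fLL 15 0 29 4 0 27)
    (fLL 15 1 29 4 0 30) = true) :=
  ⟨by decide +kernel⟩

def cLL_29_19 : PLift (bnd (fLL 16 0 29 4 0 25)
    (fLL 16 1 29 4 0 28) = true) :=
  ⟨by decide +kernel⟩

def cLL_29_20 : PLift (bnd (fLL 17 0 29 4 0 23)
    (fLL 17 1 29 4 0 26) = true) :=
  ⟨by decide +kernel⟩

def cLL_29_21 : PLift (bnd (fLL 18 0 29 4 0 21)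
    (fLL 18 1 29 4 0 24) = true) :=
  ⟨by decide +kernel⟩

def cLL_29_22 : PLift (bnd (fLL 19 0 29 4 0 19)
    (fLL 19 1 29 4 0 22) = true) :=
  ⟨by decide +kernel⟩

def cLL_29_23 : PLift (bnd (fLL 20 0 29 4 0 17)
    (fLL 20 1 29 4 0 20) = true) :=
  ⟨by decide +kernel⟩

def cLL_29_24 : PLift (bnd (fLL 21 0 29 4 0 15)
    (bnd (fLL 21 1 29 4 0 18)
    (fLL 22 0 29 4 0 13)) = true) :=
  ⟨by decide +kernel⟩

def cLL_29_25 : PLift (bnd (fLL 22 1 29 4 0 16)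
    (bnd (fLL 23 0 29 4 0 11)
    (fLL 23 1 29 4 0 14)) = true) :=
  ⟨by decide +kernel⟩

def cLL_29_26 : PLift (bnd (fLL 24 0 29 4 0 9)
    (bnd (fLL 24 1 29 4 0 12)
    (fLL 25 0 29 4 0 7)) = true) :=
  ⟨by decide +kernel⟩

def cLL_29_27 : PLift (bnd (fLL 25 1 29 4 0 10)
    (bnd (fLL 26 0 29 4 0 5)
    (bnd (fLL 26 1 29 4 0 8)
    (fLL 27 0 29 4 0 3))) = true) :=
  ⟨by decide +kernel⟩

def cLL_29_28 : PLift (bnd (fLL 27 1 29 4 0 6)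
    (bnd (fLL 28 0 29 4 0 1)
    (fLL 28 1 29 4 0 4)) = true) :=
  ⟨by decide +kernel⟩

end Pool.Agent.Work.MP_6bf1e5_an.HD
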