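import Pool.Agent.Work.MP_6bf1e5_an.HD.CfLL

/-! Checks of the pass LL, part 2. -/

namespace Pool.Agent.Work.MP_6bf1e5_an.HD

open Pool.Agent.Lib.KLA Pool.Agent.Lib.KBlk

def cLL_1_63 : PLift (fLL 22 0 1 4 0 13 = true) :=
  ⟨by decide +kernel⟩

def cLL_1_64 : PLift (fLL 22 1 1 4 0 16 = true) :=
  ⟨by decide +kernel⟩

def cLL_1_65 : PLift (fLL 23 0 1 4 0 11 = true) :=
  ⟨by decide +kernel⟩

def cLL_1_66 : PLift (fLL 23 1 1 4 0 14 = true) :=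
  ⟨by decide +kernel⟩

def cLL_1_67 : PLift (fLL 24 0 1 4 0 9 = true) :=
  ⟨by decide +kernel⟩

def cLL_1_68 : PLift (fLL 24 1 1 4 0 12 = true) :=
  ⟨by decide +kernel⟩

def cLL_1_69 : PLift (bnd (fLL 25 0 1 4 0 7)
    (fLL 25 1 1 4 0 10) = true) :=
  ⟨by decide +kernel⟩

def cLL_1_70 : PLift (bnd (fLL 26 0 1 4 0 5)
    (bnd (fLL 26 1 1 4 0 8)
    (fLL 27 0 1 4 0 3)) = true) :=
  ⟨by decide +kernel⟩

def cLL_1_71 : PLift (bnd (fLL 27 1 1 4 0 6)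
    (bnd (fLL 28 0 1 4 0 1)
    (fLL 28 1 1 4 0 4)) = true) :=
  ⟨by decide +kernel⟩

def cLL_5_0 : PLift (fLL 1 0 5 4 0 40 = true) :=
  ⟨by decide +kernel⟩

def cLL_5_1 : PLift (bnd (fLL 1 0 5 4 40 15)
    (fLL 1 1 5 4 0 20) = true) :=
  ⟨by decide +kernel⟩

def cLL_5_2 : PLift (fLL 1 1 5 4 20 38 = true) :=
  ⟨by decide +kernel⟩

def cLL_5_3 : PLift (fLL 2 0 5 4 0 41 = true) :=
  ⟨by decide +kernel⟩

def cLL_5_4 : PLift (bnd (fLL 2 0 5 4 41 12)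
    (fLL 2 1 5 4 0 23) = true) :=
  ⟨by decide +kernel⟩

def cLL_5_5 : PLift (fLL 2 1 5 4 23 33 = true) :=
  ⟨by decide +kernel⟩

def cLL_5_6 : PLift (fLL 3 0 5 4 0 41 = true) :=
  ⟨by decide +kernel⟩

def cLL_5_7 : PLift (bnd (fLL 3 0 5 4 41 10)
    (fLL 3 1 5 4 0 25) = true) :=
  ⟨by decide +kernel⟩

def cLL_5_8 : PLift (fLL 3 1 5 4 25 29 = true) :=
  ⟨by decide +kernel⟩

def cLL_5_9 : PLift (fLL 4 0 5 4 0 41 = true) :=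
  ⟨by decide +kernel⟩

def cLL_5_10 : PLift (bnd (fLL 4 0 5 4 41 8)
    (fLL 4 1 5 4 0 27) = true) :=
  ⟨by decide +kernel⟩

def cLL_5_11 : PLift (fLL 4 1 5 4 27 25 = true) :=
  ⟨by decide +kernel⟩

def cLL_5_12 : PLift (fLL 5 0 5 4 0 35 = true) :=
  ⟨by decide +kernel⟩

def cLL_5_13 : PLift (bnd (fLL 5 0 5 4 35 12)
    (fLL 5 1 5 4 0 18) = true) :=
  ⟨by decide +kernel⟩

def cLL_5_14 : PLift (fLL 5 1 5 4 18 32 = true) :=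
  ⟨by decide +kernel⟩

def cLL_5_15 : PLift (fLL 6 0 5 4 0 35 = true) :=
  ⟨by decide +kernel⟩

def cLL_5_16 : PLift (bnd (fLL 6 0 5 4 35 10)
    (fLL 6 1 5 4 0 20) = true) :=
  ⟨by decide +kernel⟩

def cLL_5_17 : PLift (fLL 6 1 5 4 20 28 = true) :=
  ⟨by decide +kernel⟩

def cLL_5_18 : PLift (fLL 7 0 5 4 0 35 = true) :=
  ⟨by decide +kernel⟩

def cLL_5_19 : PLift (bnd (fLL 7 0 5 4 35 8)
    (fLL 7 1 5 4 0 22) = true) :=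
  ⟨by decide +kernel⟩

def cLL_5_20 : PLift (fLL 7 1 5 4 22 24 = true) :=
  ⟨by decide +kernel⟩

end Pool.Agent.Work.MP_6bf1e5_an.HD
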