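import Pool.Agent.Work.MP_6bf1e5_an.HD.CfLL

/-! Checks of the pass LL, part 3. -/

namespace Pool.Agent.Work.MP_6bf1e5_an.HD

open Pool.Agent.Lib.KLA Pool.Agent.Lib.KBlk

def cLL_5_21 : PLift (fLL 8 0 5 4 0 35 = true) :=
  ⟨by decide +kernel⟩

def cLL_5_22 : PLift (bnd (fLL 8 0 5 4 35 6)
    (fLL 8 1 5 4 0 23) = true) :=
  ⟨by decide +kernel⟩

def cLL_5_23 : PLift (fLL 8 1 5 4 23 21 = true) :=
  ⟨by decide +kernel⟩

def cLL_5_24 : PLift (fLL 9 0 5 4 0 30 = true) :=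
  ⟨by decide +kernel⟩

def cLL_5_25 : PLift (bnd (fLL 9 0 5 4 30 9)
    (fLL 9 1 5 4 0 17) = true) :=
  ⟨by decide +kernel⟩

def cLL_5_26 : PLift (fLL 9 1 5 4 17 25 = true) :=
  ⟨by decide +kernel⟩

def cLL_5_27 : PLift (fLL 10 0 5 4 0 30 = true) :=
  ⟨by decide +kernel⟩

def cLL_5_28 : PLift (bnd (fLL 10 0 5 4 30 7)
    (fLL 10 1 5 4 0 18) = true) :=
  ⟨by decide +kernel⟩

def cLL_5_29 : PLift (fLL 10 1 5 4 18 22 = true) :=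
  ⟨by decide +kernel⟩

def cLL_5_30 : PLift (fLL 11 0 5 4 0 30 = true) :=
  ⟨by decide +kernel⟩

def cLL_5_31 : PLift (bnd (fLL 11 0 5 4 30 5)
    (fLL 11 1 5 4 0 20) = true) :=
  ⟨by decide +kernel⟩

def cLL_5_32 : PLift (fLL 11 1 5 4 20 18 = true) :=
  ⟨by decide +kernel⟩

def cLL_5_33 : PLift (fLL 12 0 5 4 0 30 = true) :=
  ⟨by decide +kernel⟩

def cLL_5_34 : PLift (bnd (fLL 12 0 5 4 30 3)
    (fLL 12 1 5 4 0 22) = true) :=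
  ⟨by decide +kernel⟩

def cLL_5_35 : PLift (fLL 12 1 5 4 22 14 = true) :=
  ⟨by decide +kernel⟩

def cLL_5_36 : PLift (fLL 13 0 5 4 0 28 = true) :=
  ⟨by decide +kernel⟩

def cLL_5_37 : PLift (bnd (fLL 13 0 5 4 28 3)
    (fLL 13 1 5 4 0 20) = true) :=
  ⟨by decide +kernel⟩

def cLL_5_38 : PLift (fLL 13 1 5 4 20 14 = true) :=
  ⟨by decide +kernel⟩

def cLL_5_39 : PLift (fLL 14 0 5 4 0 28 = true) :=
  ⟨by decide +kernel⟩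

def cLL_5_40 : PLift (bnd (fLL 14 0 5 4 28 1)
    (fLL 14 1 5 4 0 22) = true) :=
  ⟨by decide +kernel⟩

def cLL_5_41 : PLift (bnd (fLL 14 1 5 4 22 10)
    (fLL 15 0 5 4 0 13) = true) :=
  ⟨by decide +kernel⟩

def cLL_5_42 : PLift (fLL 15 0 5 4 13 14 = true) :=
  ⟨by decide +kernel⟩

def cLL_5_43 : PLift (fLL 15 1 5 4 0 28 = true) :=
  ⟨by decide +kernel⟩

def cLL_5_44 : PLift (bnd (fLL 15 1 5 4 28 2)
    (fLL 16 0 5 4 0 21) = true) :=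
  ⟨by decide +kernel⟩

def cLL_5_45 : PLift (bnd (fLL 16 0 5 4 21 4)
    (fLL 16 1 5 4 0 19) = true) :=
  ⟨by decide +kernel⟩

def cLL_5_46 : PLift (fLL 16 1 5 4 19 9 = true) :=
  ⟨by decide +kernel⟩

def cLL_5_47 : PLift (fLL 17 0 5 4 0 23 = true) :=
  ⟨by decide +kernel⟩

def cLL_5_48 : PLift (fLL 17 1 5 4 0 26 = true) :=
  ⟨by decide +kernel⟩

def cLL_5_49 : PLift (fLL 18 0 5 4 0 21 = true) :=
  ⟨by decide +kernel⟩

def cLL_5_50 : PLift (fLL 18 1 5 4 0 24 = true) :=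
  ⟨by decide +kernel⟩

def cLL_5_51 : PLift (fLL 19 0 5 4 0 19 = true) :=
  ⟨by decide +kernel⟩

def cLL_5_52 : PLift (fLL 19 1 5 4 0 22 = true) :=
  ⟨by decide +kernel⟩

end Pool.Agent.Work.MP_6bf1e5_an.HD
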