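import Pool.Agent.Work.MP_6bf1e5_an.HD.CfLL

/-! Checks of the pass LL, part 4. -/

namespace Pool.Agent.Work.MP_6bf1e5_an.HD

open Pool.Agent.Lib.KLA Pool.Agent.Lib.KBlk

def cLL_5_53 : PLift (fLL 20 0 5 4 0 17 = true) :=
  ⟨by decide +kernel⟩

def cLL_5_54 : PLift (fLL 20 1 5 4 0 20 = true) :=
  ⟨by decide +kernel⟩

def cLL_5_55 : PLift (fLL 21 0 5 4 0 15 = true) :=
  ⟨by decide +kernel⟩

def cLL_5_56 : PLift (fLL 21 1 5 4 0 18 = true) :=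
  ⟨by decide +kernel⟩

def cLL_5_57 : PLift (fLL 22 0 5 4 0 13 = true) :=
  ⟨by decide +kernel⟩

def cLL_5_58 : PLift (fLL 22 1 5 4 0 16 = true) :=
  ⟨by decide +kernel⟩

def cLL_5_59 : PLift (fLL 23 0 5 4 0 11 = true) :=
  ⟨by decide +kernel⟩

def cLL_5_60 : PLift (fLL 23 1 5 4 0 14 = true) :=
  ⟨by decide +kernel⟩

def cLL_5_61 : PLift (fLL 24 0 5 4 0 9 = true) :=
  ⟨by decide +kernel⟩

def cLL_5_62 : PLift (fLL 24 1 5 4 0 12 = true) :=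
  ⟨by decide +kernel⟩

def cLL_5_63 : PLift (bnd (fLL 25 0 5 4 0 7)
    (fLL 25 1 5 4 0 10) = true) :=
  ⟨by decide +kernel⟩

def cLL_5_64 : PLift (bnd (fLL 26 0 5 4 0 5)
    (bnd (fLL 26 1 5 4 0 8)
    (fLL 27 0 5 4 0 3)) = true) :=
  ⟨by decide +kernel⟩

def cLL_5_65 : PLift (bnd (fLL 27 1 5 4 0 6)
    (bnd (fLL 28 0 5 4 0 1)
    (fLL 28 1 5 4 0 4)) = true) :=
  ⟨by decide +kernel⟩

def cLL_9_0 : PLift (fLL 1 0 9 4 0 46 = true) :=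
  ⟨by decide +kernel⟩

def cLL_9_1 : PLift (bnd (fLL 1 0 9 4 46 9)
    (fLL 1 1 9 4 0 30) = true) :=
  ⟨by decide +kernel⟩

def cLL_9_2 : PLift (fLL 1 1 9 4 30 28 = true) :=
  ⟨by decide +kernel⟩

def cLL_9_3 : PLift (fLL 2 0 9 4 0 46 = true) :=
  ⟨by decide +kernel⟩

def cLL_9_4 : PLift (bnd (fLL 2 0 9 4 46 7)
    (fLL 2 1 9 4 0 32) = true) :=
  ⟨by decide +kernel⟩

def cLL_9_5 : PLift (bnd (fLL 2 1 9 4 32 24)
    (fLL 3 0 9 4 0 15) = true) :=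
  ⟨by decide +kernel⟩

def cLL_9_6 : PLift (fLL 3 0 9 4 15 36 = true) :=
  ⟨by decide +kernel⟩

def cLL_9_7 : PLift (fLL 3 1 9 4 0 46 = true) :=
  ⟨by decide +kernel⟩

def cLL_9_8 : PLift (bnd (fLL 3 1 9 4 46 8)
    (fLL 4 0 9 4 0 31) = true) :=
  ⟨by decide +kernel⟩

def cLL_9_9 : PLift (bnd (fLL 4 0 9 4 31 18)
    (fLL 4 1 9 4 0 21) = true) :=
  ⟨by decide +kernel⟩

def cLL_9_10 : PLift (fLL 4 1 9 4 21 31 = true) :=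
  ⟨by decide +kernel⟩

def cLL_9_11 : PLift (fLL 5 0 9 4 0 39 = true) :=
  ⟨by decide +kernel⟩

def cLL_9_12 : PLift (bnd (fLL 5 0 9 4 39 8)
    (fLL 5 1 9 4 0 25) = true) :=
  ⟨by decide +kernel⟩

def cLL_9_13 : PLift (fLL 5 1 9 4 25 25 = true) :=
  ⟨by decide +kernel⟩

def cLL_9_14 : PLift (fLL 6 0 9 4 0 38 = true) :=
  ⟨by decide +kernel⟩

def cLL_9_15 : PLift (bnd (fLL 6 0 9 4 38 7)
    (fLL 6 1 9 4 0 25) = true) :=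
  ⟨by decide +kernel⟩

def cLL_9_16 : PLift (fLL 6 1 9 4 25 23 = true) :=
  ⟨by decide +kernel⟩

def cLL_9_17 : PLift (fLL 7 0 9 4 0 38 = true) :=
  ⟨by decide +kernel⟩

end Pool.Agent.Work.MP_6bf1e5_an.HD
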