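import Pool.Agent.Work.MP_6bf1e5_an.HD.CfLL

/-! Checks of the pass LL, part 5. -/

namespace Pool.Agent.Work.MP_6bf1e5_an.HD

open Pool.Agent.Lib.KLA Pool.Agent.Lib.KBlk

def cLL_9_18 : PLift (bnd (fLL 7 0 9 4 38 5)
    (fLL 7 1 9 4 0 26) = true) :=
  ⟨by decide +kernel⟩

def cLL_9_19 : PLift (bnd (fLL 7 1 9 4 26 20)
    (fLL 8 0 9 4 0 12) = true) :=
  ⟨by decide +kernel⟩

def cLL_9_20 : PLift (fLL 8 0 9 4 12 29 = true) :=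
  ⟨by decide +kernel⟩

def cLL_9_21 : PLift (fLL 8 1 9 4 0 38 = true) :=
  ⟨by decide +kernel⟩

def cLL_9_22 : PLift (bnd (fLL 8 1 9 4 38 6)
    (fLL 9 0 9 4 0 21) = true) :=
  ⟨by decide +kernel⟩

def cLL_9_23 : PLift (fLL 9 0 9 4 21 18 = true) :=
  ⟨by decide +kernel⟩

def cLL_9_24 : PLift (fLL 9 1 9 4 0 34 = true) :=
  ⟨by decide +kernel⟩

def cLL_9_25 : PLift (bnd (fLL 9 1 9 4 34 8)
    (fLL 10 0 9 4 0 20) = true) :=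
  ⟨by decide +kernel⟩

def cLL_9_26 : PLift (fLL 10 0 9 4 20 17 = true) :=
  ⟨by decide +kernel⟩

def cLL_9_27 : PLift (fLL 10 1 9 4 0 34 = true) :=
  ⟨by decide +kernel⟩

def cLL_9_28 : PLift (bnd (fLL 10 1 9 4 34 6)
    (fLL 11 0 9 4 0 22) = true) :=
  ⟨by decide +kernel⟩

def cLL_9_29 : PLift (bnd (fLL 11 0 9 4 22 13)
    (fLL 11 1 9 4 0 15) = true) :=
  ⟨by decide +kernel⟩

def cLL_9_30 : PLift (fLL 11 1 9 4 15 23 = true) :=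
  ⟨by decide +kernel⟩

def cLL_9_31 : PLift (fLL 12 0 9 4 0 33 = true) :=
  ⟨by decide +kernel⟩

def cLL_9_32 : PLift (fLL 12 1 9 4 0 34 = true) :=
  ⟨by decide +kernel⟩

def cLL_9_33 : PLift (bnd (fLL 12 1 9 4 34 2)
    (fLL 13 0 9 4 0 22) = true) :=
  ⟨by decide +kernel⟩

def cLL_9_34 : PLift (bnd (fLL 13 0 9 4 22 9)
    (fLL 13 1 9 4 0 17) = true) :=
  ⟨by decide +kernel⟩

def cLL_9_35 : PLift (fLL 13 1 9 4 17 17 = true) :=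
  ⟨by decide +kernel⟩

def cLL_9_36 : PLift (fLL 14 0 9 4 0 29 = true) :=
  ⟨by decide +kernel⟩

def cLL_9_37 : PLift (fLL 14 1 9 4 0 32 = true) :=
  ⟨by decide +kernel⟩

def cLL_9_38 : PLift (fLL 15 0 9 4 0 27 = true) :=
  ⟨by decide +kernel⟩

def cLL_9_39 : PLift (fLL 15 1 9 4 0 30 = true) :=
  ⟨by decide +kernel⟩

def cLL_9_40 : PLift (fLL 16 0 9 4 0 25 = true) :=
  ⟨by decide +kernel⟩

def cLL_9_41 : PLift (fLL 16 1 9 4 0 28 = true) :=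
  ⟨by decide +kernel⟩

def cLL_9_42 : PLift (fLL 17 0 9 4 0 23 = true) :=
  ⟨by decide +kernel⟩

def cLL_9_43 : PLift (fLL 17 1 9 4 0 26 = true) :=
  ⟨by decide +kernel⟩

def cLL_9_44 : PLift (fLL 18 0 9 4 0 21 = true) :=
  ⟨by decide +kernel⟩

def cLL_9_45 : PLift (fLL 18 1 9 4 0 24 = true) :=
  ⟨by decide +kernel⟩

def cLL_9_46 : PLift (fLL 19 0 9 4 0 19 = true) :=
  ⟨by decide +kernel⟩

def cLL_9_47 : PLift (fLL 19 1 9 4 0 22 = true) :=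
  ⟨by decide +kernel⟩

end Pool.Agent.Work.MP_6bf1e5_an.HD
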