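import Pool.Agent.Work.MP_6bf1e5_an.HD.CfLL

/-! Checks of the pass LL, part 6. -/

namespace Pool.Agent.Work.MP_6bf1e5_an.HD

open Pool.Agent.Lib.KLA Pool.Agent.Lib.KBlk

def cLL_9_48 : PLift (fLL 20 0 9 4 0 17 = true) :=
  ⟨by decide +kernel⟩

def cLL_9_49 : PLift (fLL 20 1 9 4 0 20 = true) :=
  ⟨by decide +kernel⟩

def cLL_9_50 : PLift (fLL 21 0 9 4 0 15 = true) :=
  ⟨by decide +kernel⟩

def cLL_9_51 : PLift (fLL 21 1 9 4 0 18 = true) :=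
  ⟨by decide +kernel⟩

def cLL_9_52 : PLift (fLL 22 0 9 4 0 13 = true) :=
  ⟨by decide +kernel⟩

def cLL_9_53 : PLift (fLL 22 1 9 4 0 16 = true) :=
  ⟨by decide +kernel⟩

def cLL_9_54 : PLift (fLL 23 0 9 4 0 11 = true) :=
  ⟨by decide +kernel⟩

def cLL_9_55 : PLift (fLL 23 1 9 4 0 14 = true) :=
  ⟨by decide +kernel⟩

def cLL_9_56 : PLift (bnd (fLL 24 0 9 4 0 9)
    (fLL 24 1 9 4 0 12) = true) :=
  ⟨by decide +kernel⟩

def cLL_9_57 : PLift (bnd (fLL 25 0 9 4 0 7)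
    (fLL 25 1 9 4 0 10) = true) :=
  ⟨by decide +kernel⟩

def cLL_9_58 : PLift (bnd (fLL 26 0 9 4 0 5)
    (bnd (fLL 26 1 9 4 0 8)
    (fLL 27 0 9 4 0 3)) = true) :=
  ⟨by decide +kernel⟩

def cLL_9_59 : PLift (bnd (fLL 27 1 9 4 0 6)
    (bnd (fLL 28 0 9 4 0 1)
    (fLL 28 1 9 4 0 4)) = true) :=
  ⟨by decide +kernel⟩

def cLL_13_0 : PLift (fLL 1 0 13 4 0 51 = true) :=
  ⟨by decide +kernel⟩

def cLL_13_1 : PLift (bnd (fLL 1 0 13 4 51 4)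
    (fLL 1 1 13 4 0 39) = true) :=
  ⟨by decide +kernel⟩

def cLL_13_2 : PLift (bnd (fLL 1 1 13 4 39 19)
    (fLL 2 0 13 4 0 24) = true) :=
  ⟨by decide +kernel⟩

def cLL_13_3 : PLift (fLL 2 0 13 4 24 29 = true) :=
  ⟨by decide +kernel⟩

def cLL_13_4 : PLift (fLL 2 1 13 4 0 51 = true) :=
  ⟨by decide +kernel⟩

def cLL_13_5 : PLift (bnd (fLL 2 1 13 4 51 5)
    (fLL 3 0 13 4 0 37) = true) :=
  ⟨by decide +kernel⟩

def cLL_13_6 : PLift (bnd (fLL 3 0 13 4 37 14)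
    (fLL 3 1 13 4 0 28) = true) :=
  ⟨by decide +kernel⟩

def cLL_13_7 : PLift (fLL 3 1 13 4 28 26 = true) :=
  ⟨by decide +kernel⟩

def cLL_13_8 : PLift (fLL 4 0 13 4 0 49 = true) :=
  ⟨by decide +kernel⟩

def cLL_13_9 : PLift (fLL 4 1 13 4 0 51 = true) :=
  ⟨by decide +kernel⟩

def cLL_13_10 : PLift (bnd (fLL 4 1 13 4 51 1)
    (fLL 5 0 13 4 0 34) = true) :=
  ⟨by decide +kernel⟩

def cLL_13_11 : PLift (fLL 5 0 13 4 34 13 = true) :=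
  ⟨by decide +kernel⟩

def cLL_13_12 : PLift (fLL 5 1 13 4 0 44 = true) :=
  ⟨by decide +kernel⟩

def cLL_13_13 : PLift (bnd (fLL 5 1 13 4 44 6)
    (fLL 6 0 13 4 0 30) = true) :=
  ⟨by decide +kernel⟩

def cLL_13_14 : PLift (fLL 6 0 13 4 30 15 = true) :=
  ⟨by decide +kernel⟩

def cLL_13_15 : PLift (fLL 6 1 13 4 0 44 = true) :=
  ⟨by decide +kernel⟩

def cLL_13_16 : PLift (bnd (fLL 6 1 13 4 44 4)
    (fLL 7 0 13 4 0 32) = true) :=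
  ⟨by decide +kernel⟩

def cLL_13_17 : PLift (bnd (fLL 7 0 13 4 32 11)
    (fLL 7 1 13 4 0 25) = true) :=
  ⟨by decide +kernel⟩

def cLL_13_18 : PLift (fLL 7 1 13 4 25 21 = true) :=
  ⟨by decide +kernel⟩

def cLL_13_19 : PLift (fLL 8 0 13 4 0 41 = true) :=
  ⟨by decide +kernel⟩

end Pool.Agent.Work.MP_6bf1e5_an.HD
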