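import Pool.Agent.Work.MP_6bf1e5_an.HD.CfLL

/-! Checks of the pass LL, part 7. -/

namespace Pool.Agent.Work.MP_6bf1e5_an.HD

open Pool.Agent.Lib.KLA Pool.Agent.Lib.KBlk

def cLL_13_20 : PLift (fLL 8 1 13 4 0 44 = true) :=
  ⟨by decide +kernel⟩

def cLL_13_21 : PLift (fLL 9 0 13 4 0 39 = true) :=
  ⟨by decide +kernel⟩

def cLL_13_22 : PLift (fLL 9 1 13 4 0 39 = true) :=
  ⟨by decide +kernel⟩

def cLL_13_23 : PLift (bnd (fLL 9 1 13 4 39 3)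
    (fLL 10 0 13 4 0 30) = true) :=
  ⟨by decide +kernel⟩

def cLL_13_24 : PLift (bnd (fLL 10 0 13 4 30 7)
    (fLL 10 1 13 4 0 25) = true) :=
  ⟨by decide +kernel⟩

def cLL_13_25 : PLift (fLL 10 1 13 4 25 15 = true) :=
  ⟨by decide +kernel⟩

def cLL_13_26 : PLift (fLL 11 0 13 4 0 35 = true) :=
  ⟨by decide +kernel⟩

def cLL_13_27 : PLift (fLL 11 1 13 4 0 38 = true) :=
  ⟨by decide +kernel⟩

def cLL_13_28 : PLift (fLL 12 0 13 4 0 33 = true) :=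
  ⟨by decide +kernel⟩

def cLL_13_29 : PLift (fLL 12 1 13 4 0 36 = true) :=
  ⟨by decide +kernel⟩

def cLL_13_30 : PLift (fLL 13 0 13 4 0 31 = true) :=
  ⟨by decide +kernel⟩

def cLL_13_31 : PLift (fLL 13 1 13 4 0 34 = true) :=
  ⟨by decide +kernel⟩

def cLL_13_32 : PLift (fLL 14 0 13 4 0 29 = true) :=
  ⟨by decide +kernel⟩

def cLL_13_33 : PLift (fLL 14 1 13 4 0 32 = true) :=
  ⟨by decide +kernel⟩

def cLL_13_34 : PLift (fLL 15 0 13 4 0 27 = true) :=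
  ⟨by decide +kernel⟩

def cLL_13_35 : PLift (fLL 15 1 13 4 0 30 = true) :=
  ⟨by decide +kernel⟩

def cLL_13_36 : PLift (fLL 16 0 13 4 0 25 = true) :=
  ⟨by decide +kernel⟩

def cLL_13_37 : PLift (fLL 16 1 13 4 0 28 = true) :=
  ⟨by decide +kernel⟩

def cLL_13_38 : PLift (fLL 17 0 13 4 0 23 = true) :=
  ⟨by decide +kernel⟩

def cLL_13_39 : PLift (fLL 17 1 13 4 0 26 = true) :=
  ⟨by decide +kernel⟩

def cLL_13_40 : PLift (fLL 18 0 13 4 0 21 = true) :=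
  ⟨by decide +kernel⟩

def cLL_13_41 : PLift (fLL 18 1 13 4 0 24 = true) :=
  ⟨by decide +kernel⟩

def cLL_13_42 : PLift (fLL 19 0 13 4 0 19 = true) :=
  ⟨by decide +kernel⟩

def cLL_13_43 : PLift (fLL 19 1 13 4 0 22 = true) :=
  ⟨by decide +kernel⟩

def cLL_13_44 : PLift (fLL 20 0 13 4 0 17 = true) :=
  ⟨by decide +kernel⟩

def cLL_13_45 : PLift (fLL 20 1 13 4 0 20 = true) :=
  ⟨by decide +kernel⟩

def cLL_13_46 : PLift (fLL 21 0 13 4 0 15 = true) :=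
  ⟨by decide +kernel⟩

def cLL_13_47 : PLift (fLL 21 1 13 4 0 18 = true) :=
  ⟨by decide +kernel⟩

def cLL_13_48 : PLift (fLL 22 0 13 4 0 13 = true) :=
  ⟨by decide +kernel⟩

def cLL_13_49 : PLift (fLL 22 1 13 4 0 16 = true) :=
  ⟨by decide +kernel⟩

def cLL_13_50 : PLift (bnd (fLL 23 0 13 4 0 11)
    (fLL 23 1 13 4 0 14) = true) :=
  ⟨by decide +kernel⟩

end Pool.Agent.Work.MP_6bf1e5_an.HD
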