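import Pool.Agent.Work.MP_6bf1e5_an.HD.CfLL

/-! Checks of the pass LL, part 8. -/

namespace Pool.Agent.Work.MP_6bf1e5_an.HD

open Pool.Agent.Lib.KLA Pool.Agent.Lib.KBlk

def cLL_13_51 : PLift (bnd (fLL 24 0 13 4 0 9)
    (fLL 24 1 13 4 0 12) = true) :=
  ⟨by decide +kernel⟩

def cLL_13_52 : PLift (bnd (fLL 25 0 13 4 0 7)
    (fLL 25 1 13 4 0 10) = true) :=
  ⟨by decide +kernel⟩

def cLL_13_53 : PLift (bnd (fLL 26 0 13 4 0 5)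
    (bnd (fLL 26 1 13 4 0 8)
    (fLL 27 0 13 4 0 3)) = true) :=
  ⟨by decide +kernel⟩

def cLL_13_54 : PLift (bnd (fLL 27 1 13 4 0 6)
    (bnd (fLL 28 0 13 4 0 1)
    (fLL 28 1 13 4 0 4)) = true) :=
  ⟨by decide +kernel⟩

def cLL_17_0 : PLift (fLL 1 0 17 4 0 55 = true) :=
  ⟨by decide +kernel⟩

def cLL_17_1 : PLift (fLL 1 1 17 4 0 58 = true) :=
  ⟨by decide +kernel⟩

def cLL_17_2 : PLift (fLL 2 0 17 4 0 53 = true) :=
  ⟨by decide +kernel⟩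

def cLL_17_3 : PLift (fLL 2 1 17 4 0 56 = true) :=
  ⟨by decide +kernel⟩

def cLL_17_4 : PLift (fLL 3 0 17 4 0 51 = true) :=
  ⟨by decide +kernel⟩

def cLL_17_5 : PLift (fLL 3 1 17 4 0 54 = true) :=
  ⟨by decide +kernel⟩

def cLL_17_6 : PLift (fLL 4 0 17 4 0 49 = true) :=
  ⟨by decide +kernel⟩

def cLL_17_7 : PLift (fLL 4 1 17 4 0 52 = true) :=
  ⟨by decide +kernel⟩

def cLL_17_8 : PLift (fLL 5 0 17 4 0 47 = true) :=
  ⟨by decide +kernel⟩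

def cLL_17_9 : PLift (fLL 5 1 17 4 0 50 = true) :=
  ⟨by decide +kernel⟩

def cLL_17_10 : PLift (fLL 6 0 17 4 0 45 = true) :=
  ⟨by decide +kernel⟩

def cLL_17_11 : PLift (fLL 6 1 17 4 0 48 = true) :=
  ⟨by decide +kernel⟩

def cLL_17_12 : PLift (fLL 7 0 17 4 0 43 = true) :=
  ⟨by decide +kernel⟩

def cLL_17_13 : PLift (fLL 7 1 17 4 0 46 = true) :=
  ⟨by decide +kernel⟩

def cLL_17_14 : PLift (fLL 8 0 17 4 0 41 = true) :=
  ⟨by decide +kernel⟩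

def cLL_17_15 : PLift (fLL 8 1 17 4 0 44 = true) :=
  ⟨by decide +kernel⟩

def cLL_17_16 : PLift (fLL 9 0 17 4 0 39 = true) :=
  ⟨by decide +kernel⟩

def cLL_17_17 : PLift (fLL 9 1 17 4 0 42 = true) :=
  ⟨by decide +kernel⟩

def cLL_17_18 : PLift (fLL 10 0 17 4 0 37 = true) :=
  ⟨by decide +kernel⟩

def cLL_17_19 : PLift (fLL 10 1 17 4 0 40 = true) :=
  ⟨by decide +kernel⟩

def cLL_17_20 : PLift (fLL 11 0 17 4 0 35 = true) :=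
  ⟨by decide +kernel⟩

def cLL_17_21 : PLift (fLL 11 1 17 4 0 38 = true) :=
  ⟨by decide +kernel⟩

def cLL_17_22 : PLift (fLL 12 0 17 4 0 33 = true) :=
  ⟨by decide +kernel⟩

end Pool.Agent.Work.MP_6bf1e5_an.HD
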