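import Pool.Agent.Work.MP_6bf1e5_an.HD.CfLL

/-! Checks of the pass LL, part 9. -/

namespace Pool.Agent.Work.MP_6bf1e5_an.HD

open Pool.Agent.Lib.KLA Pool.Agent.Lib.KBlk

def cLL_17_23 : PLift (fLL 12 1 17 4 0 36 = true) :=
  ⟨by decide +kernel⟩

def cLL_17_24 : PLift (fLL 13 0 17 4 0 31 = true) :=
  ⟨by decide +kernel⟩

def cLL_17_25 : PLift (fLL 13 1 17 4 0 34 = true) :=
  ⟨by decide +kernel⟩

def cLL_17_26 : PLift (fLL 14 0 17 4 0 29 = true) :=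
  ⟨by decide +kernel⟩

def cLL_17_27 : PLift (fLL 14 1 17 4 0 32 = true) :=
  ⟨by decide +kernel⟩

def cLL_17_28 : PLift (fLL 15 0 17 4 0 27 = true) :=
  ⟨by decide +kernel⟩

def cLL_17_29 : PLift (fLL 15 1 17 4 0 30 = true) :=
  ⟨by decide +kernel⟩

def cLL_17_30 : PLift (fLL 16 0 17 4 0 25 = true) :=
  ⟨by decide +kernel⟩

def cLL_17_31 : PLift (fLL 16 1 17 4 0 28 = true) :=
  ⟨by decide +kernel⟩

def cLL_17_32 : PLift (fLL 17 0 17 4 0 23 = true) :=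
  ⟨by decide +kernel⟩

def cLL_17_33 : PLift (fLL 17 1 17 4 0 26 = true) :=
  ⟨by decide +kernel⟩

def cLL_17_34 : PLift (fLL 18 0 17 4 0 21 = true) :=
  ⟨by decide +kernel⟩

def cLL_17_35 : PLift (fLL 18 1 17 4 0 24 = true) :=
  ⟨by decide +kernel⟩

def cLL_17_36 : PLift (fLL 19 0 17 4 0 19 = true) :=
  ⟨by decide +kernel⟩

def cLL_17_37 : PLift (fLL 19 1 17 4 0 22 = true) :=
  ⟨by decide +kernel⟩

def cLL_17_38 : PLift (fLL 20 0 17 4 0 17 = true) :=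
  ⟨by decide +kernel⟩

def cLL_17_39 : PLift (fLL 20 1 17 4 0 20 = true) :=
  ⟨by decide +kernel⟩

def cLL_17_40 : PLift (fLL 21 0 17 4 0 15 = true) :=
  ⟨by decide +kernel⟩

def cLL_17_41 : PLift (bnd (fLL 21 1 17 4 0 18)
    (fLL 22 0 17 4 0 13) = true) :=
  ⟨by decide +kernel⟩

def cLL_17_42 : PLift (bnd (fLL 22 1 17 4 0 16)
    (fLL 23 0 17 4 0 11) = true) :=
  ⟨by decide +kernel⟩

def cLL_17_43 : PLift (bnd (fLL 23 1 17 4 0 14)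
    (fLL 24 0 17 4 0 9) = true) :=
  ⟨by decide +kernel⟩

def cLL_17_44 : PLift (bnd (fLL 24 1 17 4 0 12)
    (fLL 25 0 17 4 0 7) = true) :=
  ⟨by decide +kernel⟩

def cLL_17_45 : PLift (bnd (fLL 25 1 17 4 0 10)
    (bnd (fLL 26 0 17 4 0 5)
    (fLL 26 1 17 4 0 8)) = true) :=
  ⟨by decide +kernel⟩

def cLL_17_46 : PLift (bnd (fLL 27 0 17 4 0 3)
    (bnd (fLL 27 1 17 4 0 6)
    (bnd (fLL 28 0 17 4 0 1)
    (fLL 28 1 17 4 0 4))) = true) :=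
  ⟨by decide +kernel⟩

def cLL_21_0 : PLift (fLL 1 0 21 4 0 55 = true) :=
  ⟨by decide +kernel⟩

def cLL_21_1 : PLift (fLL 1 1 21 4 0 58 = true) :=
  ⟨by decide +kernel⟩

def cLL_21_2 : PLift (fLL 2 0 21 4 0 53 = true) :=
  ⟨by decide +kernel⟩

def cLL_21_3 : PLift (fLL 2 1 21 4 0 56 = true) :=
  ⟨by decide +kernel⟩

def cLL_21_4 : PLift (fLL 3 0 21 4 0 51 = true) :=
  ⟨by decide +kernel⟩

def cLL_21_5 : PLift (fLL 3 1 21 4 0 54 = true) :=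
  ⟨by decide +kernel⟩

def cLL_21_6 : PLift (fLL 4 0 21 4 0 49 = true) :=
  ⟨by decide +kernel⟩

end Pool.Agent.Work.MP_6bf1e5_an.HD
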