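import Pool.Agent.Work.MP_6bf1e5_an.HD.CfMM

/-! Checks of the pass MM, part 0. -/

namespace Pool.Agent.Work.MP_6bf1e5_an.HD

open Pool.Agent.Lib.KLA Pool.Agent.Lib.KBlk

def cMM_1_0 : PLift (fMM 1 0 1 1 0 21 = true) :=
  ⟨by decide +kernel⟩

def cMM_1_1 : PLift (fMM 1 0 1 1 21 21 = true) :=
  ⟨by decide +kernel⟩

def cMM_1_2 : PLift (fMM 1 0 1 1 42 21 = true) :=
  ⟨by decide +kernel⟩

def cMM_1_3 : PLift (fMM 1 1 1 1 0 21 = true) :=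
  ⟨by decide +kernel⟩

def cMM_1_4 : PLift (fMM 1 1 1 1 21 21 = true) :=
  ⟨by decide +kernel⟩

def cMM_1_5 : PLift (fMM 1 1 1 1 42 21 = true) :=
  ⟨by decide +kernel⟩

def cMM_1_6 : PLift (fMM 1 1 1 1 63 1 = true) :=
  ⟨by decide +kernel⟩

def cMM_2_0 : PLift (fMM 1 0 2 3 0 8 = true) :=
  ⟨by decide +kernel⟩

def cMM_2_1 : PLift (fMM 1 0 2 3 8 8 = true) :=
  ⟨by decide +kernel⟩

def cMM_2_2 : PLift (fMM 1 0 2 3 16 8 = true) :=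
  ⟨by decide +kernel⟩

def cMM_2_3 : PLift (fMM 1 0 2 3 24 8 = true) :=
  ⟨by decide +kernel⟩

def cMM_2_4 : PLift (fMM 1 0 2 3 32 8 = true) :=
  ⟨by decide +kernel⟩

def cMM_2_5 : PLift (fMM 1 0 2 3 40 8 = true) :=
  ⟨by decide +kernel⟩

def cMM_2_6 : PLift (fMM 1 0 2 3 48 8 = true) :=
  ⟨by decide +kernel⟩

def cMM_2_7 : PLift (fMM 1 0 2 3 56 7 = true) :=
  ⟨by decide +kernel⟩

def cMM_2_8 : PLift (fMM 1 1 2 3 0 8 = true) :=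
  ⟨by decide +kernel⟩

def cMM_2_9 : PLift (fMM 1 1 2 3 8 8 = true) :=
  ⟨by decide +kernel⟩

def cMM_2_10 : PLift (fMM 1 1 2 3 16 8 = true) :=
  ⟨by decide +kernel⟩

def cMM_2_11 : PLift (fMM 1 1 2 3 24 8 = true) :=
  ⟨by decide +kernel⟩

end Pool.Agent.Work.MP_6bf1e5_an.HD
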