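import Pool.Agent.Work.MP_6bf1e5_an.HD.CfMM

/-! Checks of the pass MM, part 1. -/

namespace Pool.Agent.Work.MP_6bf1e5_an.HD

open Pool.Agent.Lib.KLA Pool.Agent.Lib.KBlk

def cMM_2_12 : PLift (fMM 1 1 2 3 32 8 = true) :=
  ⟨by decide +kernel⟩

def cMM_2_13 : PLift (fMM 1 1 2 3 40 8 = true) :=
  ⟨by decide +kernel⟩

def cMM_2_14 : PLift (fMM 1 1 2 3 48 8 = true) :=
  ⟨by decide +kernel⟩

def cMM_2_15 : PLift (fMM 1 1 2 3 56 8 = true) :=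
  ⟨by decide +kernel⟩

def cMM_2_16 : PLift (fMM 2 0 2 3 0 8 = true) :=
  ⟨by decide +kernel⟩

def cMM_2_17 : PLift (fMM 2 0 2 3 8 8 = true) :=
  ⟨by decide +kernel⟩

def cMM_2_18 : PLift (fMM 2 0 2 3 16 8 = true) :=
  ⟨by decide +kernel⟩

def cMM_2_19 : PLift (fMM 2 0 2 3 24 8 = true) :=
  ⟨by decide +kernel⟩

def cMM_2_20 : PLift (fMM 2 0 2 3 32 8 = true) :=
  ⟨by decide +kernel⟩

def cMM_2_21 : PLift (fMM 2 0 2 3 40 8 = true) :=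
  ⟨by decide +kernel⟩

def cMM_2_22 : PLift (fMM 2 0 2 3 48 8 = true) :=
  ⟨by decide +kernel⟩

def cMM_2_23 : PLift (bnd (fMM 2 0 2 3 56 5)
    (fMM 2 1 2 3 0 1) = true) :=
  ⟨by decide +kernel⟩

def cMM_2_24 : PLift (fMM 2 1 2 3 1 8 = true) :=
  ⟨by decide +kernel⟩

def cMM_2_25 : PLift (fMM 2 1 2 3 9 8 = true) :=
  ⟨by decide +kernel⟩

def cMM_2_26 : PLift (fMM 2 1 2 3 17 8 = true) :=
  ⟨by decide +kernel⟩

def cMM_2_27 : PLift (fMM 2 1 2 3 25 8 = true) :=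
  ⟨by decide +kernel⟩

def cMM_2_28 : PLift (fMM 2 1 2 3 33 8 = true) :=
  ⟨by decide +kernel⟩

def cMM_2_29 : PLift (fMM 2 1 2 3 41 8 = true) :=
  ⟨by decide +kernel⟩

def cMM_2_30 : PLift (fMM 2 1 2 3 49 8 = true) :=
  ⟨by decide +kernel⟩

def cMM_2_31 : PLift (bnd (fMM 2 1 2 3 57 5)
    (fMM 3 0 2 3 0 1) = true) :=
  ⟨by decide +kernel⟩

def cMM_2_32 : PLift (fMM 3 0 2 3 1 8 = true) :=
  ⟨by decide +kernel⟩

end Pool.Agent.Work.MP_6bf1e5_an.HD
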