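import Pool.Agent.Work.MP_6bf1e5_an.HD.CfMM

/-! Checks of the pass MM, part 10. -/

namespace Pool.Agent.Work.MP_6bf1e5_an.HD

open Pool.Agent.Lib.KLA Pool.Agent.Lib.KBlk

def cMM_9_9 : PLift (fMM 1 1 9 4 8 8 = true) :=
  ⟨by decide +kernel⟩

def cMM_9_10 : PLift (fMM 1 1 9 4 16 8 = true) :=
  ⟨by decide +kernel⟩

def cMM_9_11 : PLift (fMM 1 1 9 4 24 8 = true) :=
  ⟨by decide +kernel⟩

def cMM_9_12 : PLift (fMM 1 1 9 4 32 8 = true) :=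
  ⟨by decide +kernel⟩

def cMM_9_13 : PLift (fMM 1 1 9 4 40 8 = true) :=
  ⟨by decide +kernel⟩

def cMM_9_14 : PLift (fMM 1 1 9 4 48 8 = true) :=
  ⟨by decide +kernel⟩

def cMM_9_15 : PLift (fMM 1 1 9 4 56 8 = true) :=
  ⟨by decide +kernel⟩

def cMM_9_16 : PLift (fMM 2 0 9 4 0 8 = true) :=
  ⟨by decide +kernel⟩

def cMM_9_17 : PLift (fMM 2 0 9 4 8 8 = true) :=
  ⟨by decide +kernel⟩

def cMM_9_18 : PLift (fMM 2 0 9 4 16 8 = true) :=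
  ⟨by decide +kernel⟩

def cMM_9_19 : PLift (fMM 2 0 9 4 24 8 = true) :=
  ⟨by decide +kernel⟩

def cMM_9_20 : PLift (fMM 2 0 9 4 32 8 = true) :=
  ⟨by decide +kernel⟩

def cMM_9_21 : PLift (fMM 2 0 9 4 40 8 = true) :=
  ⟨by decide +kernel⟩

def cMM_9_22 : PLift (fMM 2 0 9 4 48 8 = true) :=
  ⟨by decide +kernel⟩

def cMM_9_23 : PLift (bnd (fMM 2 0 9 4 56 5)
    (fMM 2 1 9 4 0 1) = true) :=
  ⟨by decide +kernel⟩

def cMM_9_24 : PLift (fMM 2 1 9 4 1 8 = true) :=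
  ⟨by decide +kernel⟩

def cMM_9_25 : PLift (fMM 2 1 9 4 9 8 = true) :=
  ⟨by decide +kernel⟩

def cMM_9_26 : PLift (fMM 2 1 9 4 17 8 = true) :=
  ⟨by decide +kernel⟩

def cMM_9_27 : PLift (fMM 2 1 9 4 25 8 = true) :=
  ⟨by decide +kernel⟩

def cMM_9_28 : PLift (fMM 2 1 9 4 33 8 = true) :=
  ⟨by decide +kernel⟩

def cMM_9_29 : PLift (fMM 2 1 9 4 41 8 = true) :=
  ⟨by decide +kernel⟩

end Pool.Agent.Work.MP_6bf1e5_an.HD
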