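import Pool.Agent.Work.MP_6bf1e5_an.HD.CfMM

/-! Checks of the pass MM, part 11. -/

namespace Pool.Agent.Work.MP_6bf1e5_an.HD

open Pool.Agent.Lib.KLA Pool.Agent.Lib.KBlk

def cMM_9_30 : PLift (fMM 2 1 9 4 49 8 = true) :=
  ⟨by decide +kernel⟩

def cMM_9_31 : PLift (bnd (fMM 2 1 9 4 57 5)
    (fMM 3 0 9 4 0 1) = true) :=
  ⟨by decide +kernel⟩

def cMM_9_32 : PLift (fMM 3 0 9 4 1 8 = true) :=
  ⟨by decide +kernel⟩

def cMM_9_33 : PLift (fMM 3 0 9 4 9 8 = true) :=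
  ⟨by decide +kernel⟩

def cMM_9_34 : PLift (fMM 3 0 9 4 17 8 = true) :=
  ⟨by decide +kernel⟩

def cMM_9_35 : PLift (fMM 3 0 9 4 25 8 = true) :=
  ⟨by decide +kernel⟩

def cMM_9_36 : PLift (fMM 3 0 9 4 33 8 = true) :=
  ⟨by decide +kernel⟩

def cMM_9_37 : PLift (fMM 3 0 9 4 41 8 = true) :=
  ⟨by decide +kernel⟩

def cMM_9_38 : PLift (fMM 3 0 9 4 49 8 = true) :=
  ⟨by decide +kernel⟩

def cMM_9_39 : PLift (bnd (fMM 3 0 9 4 57 2)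
    (fMM 3 1 9 4 0 4) = true) :=
  ⟨by decide +kernel⟩

def cMM_9_40 : PLift (fMM 3 1 9 4 4 8 = true) :=
  ⟨by decide +kernel⟩

def cMM_9_41 : PLift (fMM 3 1 9 4 12 8 = true) :=
  ⟨by decide +kernel⟩

def cMM_9_42 : PLift (fMM 3 1 9 4 20 8 = true) :=
  ⟨by decide +kernel⟩

def cMM_9_43 : PLift (fMM 3 1 9 4 28 8 = true) :=
  ⟨by decide +kernel⟩

def cMM_9_44 : PLift (fMM 3 1 9 4 36 8 = true) :=
  ⟨by decide +kernel⟩

def cMM_9_45 : PLift (fMM 3 1 9 4 44 8 = true) :=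
  ⟨by decide +kernel⟩

def cMM_9_46 : PLift (fMM 3 1 9 4 52 8 = true) :=
  ⟨by decide +kernel⟩

def cMM_9_47 : PLift (fMM 4 0 9 4 0 8 = true) :=
  ⟨by decide +kernel⟩

def cMM_9_48 : PLift (fMM 4 0 9 4 8 8 = true) :=
  ⟨by decide +kernel⟩

def cMM_9_49 : PLift (fMM 4 0 9 4 16 8 = true) :=
  ⟨by decide +kernel⟩

end Pool.Agent.Work.MP_6bf1e5_an.HD
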