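import Pool.Agent.Work.MP_6bf1e5_an.HD.CfMM

/-! Checks of the pass MM, part 12. -/

namespace Pool.Agent.Work.MP_6bf1e5_an.HD

open Pool.Agent.Lib.KLA Pool.Agent.Lib.KBlk

def cMM_9_50 : PLift (fMM 4 0 9 4 24 8 = true) :=
  ⟨by decide +kernel⟩

def cMM_9_51 : PLift (fMM 4 0 9 4 32 8 = true) :=
  ⟨by decide +kernel⟩

def cMM_9_52 : PLift (fMM 4 0 9 4 40 8 = true) :=
  ⟨by decide +kernel⟩

def cMM_9_53 : PLift (fMM 4 0 9 4 48 8 = true) :=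
  ⟨by decide +kernel⟩

def cMM_9_54 : PLift (bnd (fMM 4 0 9 4 56 1)
    (fMM 4 1 9 4 0 5) = true) :=
  ⟨by decide +kernel⟩

def cMM_9_55 : PLift (fMM 4 1 9 4 5 8 = true) :=
  ⟨by decide +kernel⟩

def cMM_9_56 : PLift (fMM 4 1 9 4 13 8 = true) :=
  ⟨by decide +kernel⟩

def cMM_9_57 : PLift (fMM 4 1 9 4 21 8 = true) :=
  ⟨by decide +kernel⟩

def cMM_9_58 : PLift (fMM 4 1 9 4 29 8 = true) :=
  ⟨by decide +kernel⟩

def cMM_9_59 : PLift (fMM 4 1 9 4 37 8 = true) :=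
  ⟨by decide +kernel⟩

def cMM_9_60 : PLift (fMM 4 1 9 4 45 8 = true) :=
  ⟨by decide +kernel⟩

def cMM_9_61 : PLift (fMM 4 1 9 4 53 5 = true) :=
  ⟨by decide +kernel⟩

def cMM_9_62 : PLift (fMM 5 0 9 4 0 8 = true) :=
  ⟨by decide +kernel⟩

def cMM_9_63 : PLift (fMM 5 0 9 4 8 8 = true) :=
  ⟨by decide +kernel⟩

def cMM_9_64 : PLift (fMM 5 0 9 4 16 8 = true) :=
  ⟨by decide +kernel⟩

def cMM_9_65 : PLift (fMM 5 0 9 4 24 8 = true) :=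
  ⟨by decide +kernel⟩

def cMM_9_66 : PLift (fMM 5 0 9 4 32 8 = true) :=
  ⟨by decide +kernel⟩

def cMM_9_67 : PLift (fMM 5 0 9 4 40 8 = true) :=
  ⟨by decide +kernel⟩

def cMM_9_68 : PLift (fMM 5 0 9 4 48 7 = true) :=
  ⟨by decide +kernel⟩

def cMM_9_69 : PLift (fMM 5 1 9 4 0 8 = true) :=
  ⟨by decide +kernel⟩

def cMM_9_70 : PLift (fMM 5 1 9 4 8 8 = true) :=
  ⟨by decide +kernel⟩

end Pool.Agent.Work.MP_6bf1e5_an.HD
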