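import Pool.Agent.Work.MP_6bf1e5_an.HD.CfMM

/-! Checks of the pass MM, part 13. -/

namespace Pool.Agent.Work.MP_6bf1e5_an.HD

open Pool.Agent.Lib.KLA Pool.Agent.Lib.KBlk

def cMM_9_71 : PLift (fMM 5 1 9 4 16 8 = true) :=
  ⟨by decide +kernel⟩

def cMM_9_72 : PLift (fMM 5 1 9 4 24 8 = true) :=
  ⟨by decide +kernel⟩

def cMM_9_73 : PLift (fMM 5 1 9 4 32 8 = true) :=
  ⟨by decide +kernel⟩

def cMM_9_74 : PLift (fMM 5 1 9 4 40 8 = true) :=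
  ⟨by decide +kernel⟩

def cMM_9_75 : PLift (fMM 5 1 9 4 48 8 = true) :=
  ⟨by decide +kernel⟩

def cMM_9_76 : PLift (fMM 6 0 9 4 0 8 = true) :=
  ⟨by decide +kernel⟩

def cMM_9_77 : PLift (fMM 6 0 9 4 8 8 = true) :=
  ⟨by decide +kernel⟩

def cMM_9_78 : PLift (fMM 6 0 9 4 16 8 = true) :=
  ⟨by decide +kernel⟩

def cMM_9_79 : PLift (fMM 6 0 9 4 24 8 = true) :=
  ⟨by decide +kernel⟩

def cMM_9_80 : PLift (fMM 6 0 9 4 32 8 = true) :=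
  ⟨by decide +kernel⟩

def cMM_9_81 : PLift (fMM 6 0 9 4 40 8 = true) :=
  ⟨by decide +kernel⟩

def cMM_9_82 : PLift (bnd (fMM 6 0 9 4 48 5)
    (fMM 6 1 9 4 0 1) = true) :=
  ⟨by decide +kernel⟩

def cMM_9_83 : PLift (fMM 6 1 9 4 1 8 = true) :=
  ⟨by decide +kernel⟩

def cMM_9_84 : PLift (fMM 6 1 9 4 9 8 = true) :=
  ⟨by decide +kernel⟩

def cMM_9_85 : PLift (fMM 6 1 9 4 17 8 = true) :=
  ⟨by decide +kernel⟩

def cMM_9_86 : PLift (fMM 6 1 9 4 25 8 = true) :=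
  ⟨by decide +kernel⟩

def cMM_9_87 : PLift (fMM 6 1 9 4 33 8 = true) :=
  ⟨by decide +kernel⟩

def cMM_9_88 : PLift (fMM 6 1 9 4 41 8 = true) :=
  ⟨by decide +kernel⟩

def cMM_9_89 : PLift (bnd (fMM 6 1 9 4 49 5)
    (fMM 7 0 9 4 0 1) = true) :=
  ⟨by decide +kernel⟩

def cMM_9_90 : PLift (fMM 7 0 9 4 1 8 = true) :=
  ⟨by decide +kernel⟩

end Pool.Agent.Work.MP_6bf1e5_an.HD
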