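import Pool.Agent.Work.MP_6bf1e5_an.HD.CfMM

/-! Checks of the pass MM, part 14. -/

namespace Pool.Agent.Work.MP_6bf1e5_an.HD

open Pool.Agent.Lib.KLA Pool.Agent.Lib.KBlk

def cMM_9_91 : PLift (fMM 7 0 9 4 9 8 = true) :=
  ⟨by decide +kernel⟩

def cMM_9_92 : PLift (fMM 7 0 9 4 17 8 = true) :=
  ⟨by decide +kernel⟩

def cMM_9_93 : PLift (fMM 7 0 9 4 25 8 = true) :=
  ⟨by decide +kernel⟩

def cMM_9_94 : PLift (fMM 7 0 9 4 33 8 = true) :=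
  ⟨by decide +kernel⟩

def cMM_9_95 : PLift (fMM 7 0 9 4 41 8 = true) :=
  ⟨by decide +kernel⟩

def cMM_9_96 : PLift (bnd (fMM 7 0 9 4 49 2)
    (fMM 7 1 9 4 0 4) = true) :=
  ⟨by decide +kernel⟩

def cMM_9_97 : PLift (fMM 7 1 9 4 4 8 = true) :=
  ⟨by decide +kernel⟩

def cMM_9_98 : PLift (fMM 7 1 9 4 12 8 = true) :=
  ⟨by decide +kernel⟩

def cMM_9_99 : PLift (fMM 7 1 9 4 20 8 = true) :=
  ⟨by decide +kernel⟩

def cMM_9_100 : PLift (fMM 7 1 9 4 28 8 = true) :=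
  ⟨by decide +kernel⟩

def cMM_9_101 : PLift (fMM 7 1 9 4 36 8 = true) :=
  ⟨by decide +kernel⟩

def cMM_9_102 : PLift (fMM 7 1 9 4 44 8 = true) :=
  ⟨by decide +kernel⟩

def cMM_9_103 : PLift (fMM 8 0 9 4 0 8 = true) :=
  ⟨by decide +kernel⟩

def cMM_9_104 : PLift (fMM 8 0 9 4 8 8 = true) :=
  ⟨by decide +kernel⟩

def cMM_9_105 : PLift (fMM 8 0 9 4 16 8 = true) :=
  ⟨by decide +kernel⟩

def cMM_9_106 : PLift (fMM 8 0 9 4 24 8 = true) :=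
  ⟨by decide +kernel⟩

def cMM_9_107 : PLift (fMM 8 0 9 4 32 8 = true) :=
  ⟨by decide +kernel⟩

def cMM_9_108 : PLift (fMM 8 0 9 4 40 8 = true) :=
  ⟨by decide +kernel⟩

def cMM_9_109 : PLift (bnd (fMM 8 0 9 4 48 1)
    (fMM 8 1 9 4 0 5) = true) :=
  ⟨by decide +kernel⟩

def cMM_9_110 : PLift (fMM 8 1 9 4 5 8 = true) :=
  ⟨by decide +kernel⟩

def cMM_9_111 : PLift (fMM 8 1 9 4 13 8 = true) :=
  ⟨by decide +kernel⟩

end Pool.Agent.Work.MP_6bf1e5_an.HD
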