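import Pool.Agent.Work.MP_6bf1e5_an.HD.CfMM

/-! Checks of the pass MM, part 15. -/

namespace Pool.Agent.Work.MP_6bf1e5_an.HD

open Pool.Agent.Lib.KLA Pool.Agent.Lib.KBlk

def cMM_9_112 : PLift (fMM 8 1 9 4 21 8 = true) :=
  ⟨by decide +kernel⟩

def cMM_9_113 : PLift (fMM 8 1 9 4 29 8 = true) :=
  ⟨by decide +kernel⟩

def cMM_9_114 : PLift (fMM 8 1 9 4 37 8 = true) :=
  ⟨by decide +kernel⟩

def cMM_9_115 : PLift (fMM 8 1 9 4 45 5 = true) :=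
  ⟨by decide +kernel⟩

def cMM_9_116 : PLift (fMM 9 0 9 4 0 8 = true) :=
  ⟨by decide +kernel⟩

def cMM_9_117 : PLift (fMM 9 0 9 4 8 8 = true) :=
  ⟨by decide +kernel⟩

def cMM_9_118 : PLift (fMM 9 0 9 4 16 8 = true) :=
  ⟨by decide +kernel⟩

def cMM_9_119 : PLift (fMM 9 0 9 4 24 8 = true) :=
  ⟨by decide +kernel⟩

def cMM_9_120 : PLift (fMM 9 0 9 4 32 8 = true) :=
  ⟨by decide +kernel⟩

def cMM_9_121 : PLift (fMM 9 0 9 4 40 7 = true) :=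
  ⟨by decide +kernel⟩

def cMM_9_122 : PLift (fMM 9 1 9 4 0 8 = true) :=
  ⟨by decide +kernel⟩

def cMM_9_123 : PLift (fMM 9 1 9 4 8 8 = true) :=
  ⟨by decide +kernel⟩

def cMM_9_124 : PLift (fMM 9 1 9 4 16 8 = true) :=
  ⟨by decide +kernel⟩

def cMM_9_125 : PLift (fMM 9 1 9 4 24 8 = true) :=
  ⟨by decide +kernel⟩

def cMM_9_126 : PLift (fMM 9 1 9 4 32 8 = true) :=
  ⟨by decide +kernel⟩

def cMM_9_127 : PLift (fMM 9 1 9 4 40 8 = true) :=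
  ⟨by decide +kernel⟩

def cMM_9_128 : PLift (fMM 10 0 9 4 0 8 = true) :=
  ⟨by decide +kernel⟩

def cMM_9_129 : PLift (fMM 10 0 9 4 8 8 = true) :=
  ⟨by decide +kernel⟩

def cMM_9_130 : PLift (fMM 10 0 9 4 16 8 = true) :=
  ⟨by decide +kernel⟩

def cMM_9_131 : PLift (fMM 10 0 9 4 24 8 = true) :=
  ⟨by decide +kernel⟩

def cMM_9_132 : PLift (fMM 10 0 9 4 32 8 = true) :=
  ⟨by decide +kernel⟩

end Pool.Agent.Work.MP_6bf1e5_an.HD
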