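import Pool.Agent.Work.MP_6bf1e5_an.HD.CfMM

/-! Checks of the pass MM, part 16. -/

namespace Pool.Agent.Work.MP_6bf1e5_an.HD

open Pool.Agent.Lib.KLA Pool.Agent.Lib.KBlk

def cMM_9_133 : PLift (bnd (fMM 10 0 9 4 40 5)
    (fMM 10 1 9 4 0 2) = true) :=
  ⟨by decide +kernel⟩

def cMM_9_134 : PLift (fMM 10 1 9 4 2 8 = true) :=
  ⟨by decide +kernel⟩

def cMM_9_135 : PLift (fMM 10 1 9 4 10 8 = true) :=
  ⟨by decide +kernel⟩

def cMM_9_136 : PLift (fMM 10 1 9 4 18 8 = true) :=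
  ⟨by decide +kernel⟩

def cMM_9_137 : PLift (fMM 10 1 9 4 26 8 = true) :=
  ⟨by decide +kernel⟩

def cMM_9_138 : PLift (fMM 10 1 9 4 34 8 = true) :=
  ⟨by decide +kernel⟩

def cMM_9_139 : PLift (bnd (fMM 10 1 9 4 42 4)
    (fMM 11 0 9 4 0 3) = true) :=
  ⟨by decide +kernel⟩

def cMM_9_140 : PLift (fMM 11 0 9 4 3 8 = true) :=
  ⟨by decide +kernel⟩

def cMM_9_141 : PLift (fMM 11 0 9 4 11 8 = true) :=
  ⟨by decide +kernel⟩

def cMM_9_142 : PLift (fMM 11 0 9 4 19 8 = true) :=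
  ⟨by decide +kernel⟩

def cMM_9_143 : PLift (fMM 11 0 9 4 27 8 = true) :=
  ⟨by decide +kernel⟩

def cMM_9_144 : PLift (fMM 11 0 9 4 35 8 = true) :=
  ⟨by decide +kernel⟩

def cMM_9_145 : PLift (fMM 11 1 9 4 0 8 = true) :=
  ⟨by decide +kernel⟩

def cMM_9_146 : PLift (fMM 11 1 9 4 8 8 = true) :=
  ⟨by decide +kernel⟩

def cMM_9_147 : PLift (fMM 11 1 9 4 16 8 = true) :=
  ⟨by decide +kernel⟩

def cMM_9_148 : PLift (fMM 11 1 9 4 24 8 = true) :=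
  ⟨by decide +kernel⟩

def cMM_9_149 : PLift (fMM 11 1 9 4 32 8 = true) :=
  ⟨by decide +kernel⟩

def cMM_9_150 : PLift (bnd (fMM 11 1 9 4 40 4)
    (fMM 12 0 9 4 0 3) = true) :=
  ⟨by decide +kernel⟩

def cMM_9_151 : PLift (fMM 12 0 9 4 3 8 = true) :=
  ⟨by decide +kernel⟩

def cMM_9_152 : PLift (fMM 12 0 9 4 11 8 = true) :=
  ⟨by decide +kernel⟩

def cMM_9_153 : PLift (fMM 12 0 9 4 19 8 = true) :=
  ⟨by decide +kernel⟩

end Pool.Agent.Work.MP_6bf1e5_an.HD
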