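import Pool.Agent.Work.MP_6bf1e5_an.HD.CfMM

/-! Checks of the pass MM, part 17. -/

namespace Pool.Agent.Work.MP_6bf1e5_an.HD

open Pool.Agent.Lib.KLA Pool.Agent.Lib.KBlk

def cMM_9_154 : PLift (fMM 12 0 9 4 27 8 = true) :=
  ⟨by decide +kernel⟩

def cMM_9_155 : PLift (bnd (fMM 12 0 9 4 35 6)
    (fMM 12 1 9 4 0 1) = true) :=
  ⟨by decide +kernel⟩

def cMM_9_156 : PLift (fMM 12 1 9 4 1 8 = true) :=
  ⟨by decide +kernel⟩

def cMM_9_157 : PLift (fMM 12 1 9 4 9 8 = true) :=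
  ⟨by decide +kernel⟩

def cMM_9_158 : PLift (fMM 12 1 9 4 17 8 = true) :=
  ⟨by decide +kernel⟩

def cMM_9_159 : PLift (fMM 12 1 9 4 25 8 = true) :=
  ⟨by decide +kernel⟩

def cMM_9_160 : PLift (fMM 12 1 9 4 33 8 = true) :=
  ⟨by decide +kernel⟩

def cMM_9_161 : PLift (fMM 12 1 9 4 41 1 = true) :=
  ⟨by decide +kernel⟩

def cMM_13_0 : PLift (fMM 1 0 13 4 0 9 = true) :=
  ⟨by decide +kernel⟩

def cMM_13_1 : PLift (fMM 1 0 13 4 9 9 = true) :=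
  ⟨by decide +kernel⟩

def cMM_13_2 : PLift (fMM 1 0 13 4 18 9 = true) :=
  ⟨by decide +kernel⟩

def cMM_13_3 : PLift (fMM 1 0 13 4 27 9 = true) :=
  ⟨by decide +kernel⟩

def cMM_13_4 : PLift (fMM 1 0 13 4 36 9 = true) :=
  ⟨by decide +kernel⟩

def cMM_13_5 : PLift (fMM 1 0 13 4 45 9 = true) :=
  ⟨by decide +kernel⟩

def cMM_13_6 : PLift (fMM 1 0 13 4 54 9 = true) :=
  ⟨by decide +kernel⟩

def cMM_13_7 : PLift (fMM 1 1 13 4 0 9 = true) :=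
  ⟨by decide +kernel⟩

def cMM_13_8 : PLift (fMM 1 1 13 4 9 9 = true) :=
  ⟨by decide +kernel⟩

def cMM_13_9 : PLift (fMM 1 1 13 4 18 9 = true) :=
  ⟨by decide +kernel⟩

def cMM_13_10 : PLift (fMM 1 1 13 4 27 9 = true) :=
  ⟨by decide +kernel⟩

def cMM_13_11 : PLift (fMM 1 1 13 4 36 9 = true) :=
  ⟨by decide +kernel⟩

def cMM_13_12 : PLift (fMM 1 1 13 4 45 9 = true) :=
  ⟨by decide +kernel⟩

end Pool.Agent.Work.MP_6bf1e5_an.HD
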