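import Pool.Agent.Work.MP_6bf1e5_an.HD.CfMM

/-! Checks of the pass MM, part 18. -/

namespace Pool.Agent.Work.MP_6bf1e5_an.HD

open Pool.Agent.Lib.KLA Pool.Agent.Lib.KBlk

def cMM_13_13 : PLift (fMM 1 1 13 4 54 9 = true) :=
  ⟨by decide +kernel⟩

def cMM_13_14 : PLift (bnd (fMM 1 1 13 4 63 1)
    (fMM 2 0 13 4 0 6) = true) :=
  ⟨by decide +kernel⟩

def cMM_13_15 : PLift (fMM 2 0 13 4 6 9 = true) :=
  ⟨by decide +kernel⟩

def cMM_13_16 : PLift (fMM 2 0 13 4 15 9 = true) :=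
  ⟨by decide +kernel⟩

def cMM_13_17 : PLift (fMM 2 0 13 4 24 9 = true) :=
  ⟨by decide +kernel⟩

def cMM_13_18 : PLift (fMM 2 0 13 4 33 9 = true) :=
  ⟨by decide +kernel⟩

def cMM_13_19 : PLift (fMM 2 0 13 4 42 9 = true) :=
  ⟨by decide +kernel⟩

def cMM_13_20 : PLift (fMM 2 0 13 4 51 9 = true) :=
  ⟨by decide +kernel⟩

def cMM_13_21 : PLift (bnd (fMM 2 0 13 4 60 1)
    (fMM 2 1 13 4 0 6) = true) :=
  ⟨by decide +kernel⟩

def cMM_13_22 : PLift (fMM 2 1 13 4 6 9 = true) :=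
  ⟨by decide +kernel⟩

def cMM_13_23 : PLift (fMM 2 1 13 4 15 9 = true) :=
  ⟨by decide +kernel⟩

def cMM_13_24 : PLift (fMM 2 1 13 4 24 9 = true) :=
  ⟨by decide +kernel⟩

def cMM_13_25 : PLift (fMM 2 1 13 4 33 9 = true) :=
  ⟨by decide +kernel⟩

def cMM_13_26 : PLift (fMM 2 1 13 4 42 9 = true) :=
  ⟨by decide +kernel⟩

def cMM_13_27 : PLift (fMM 2 1 13 4 51 9 = true) :=
  ⟨by decide +kernel⟩

def cMM_13_28 : PLift (bnd (fMM 2 1 13 4 60 2)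
    (fMM 3 0 13 4 0 5) = true) :=
  ⟨by decide +kernel⟩

def cMM_13_29 : PLift (fMM 3 0 13 4 5 9 = true) :=
  ⟨by decide +kernel⟩

def cMM_13_30 : PLift (fMM 3 0 13 4 14 9 = true) :=
  ⟨by decide +kernel⟩

def cMM_13_31 : PLift (fMM 3 0 13 4 23 9 = true) :=
  ⟨by decide +kernel⟩

def cMM_13_32 : PLift (fMM 3 0 13 4 32 9 = true) :=
  ⟨by decide +kernel⟩

end Pool.Agent.Work.MP_6bf1e5_an.HD
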