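import Pool.Agent.Work.MP_6bf1e5_an.HD.CfMM

/-! Checks of the pass MM, part 19. -/

namespace Pool.Agent.Work.MP_6bf1e5_an.HD

open Pool.Agent.Lib.KLA Pool.Agent.Lib.KBlk

def cMM_13_33 : PLift (fMM 3 0 13 4 41 9 = true) :=
  ⟨by decide +kernel⟩

def cMM_13_34 : PLift (fMM 3 0 13 4 50 9 = true) :=
  ⟨by decide +kernel⟩

def cMM_13_35 : PLift (fMM 3 1 13 4 0 9 = true) :=
  ⟨by decide +kernel⟩

def cMM_13_36 : PLift (fMM 3 1 13 4 9 9 = true) :=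
  ⟨by decide +kernel⟩

def cMM_13_37 : PLift (fMM 3 1 13 4 18 9 = true) :=
  ⟨by decide +kernel⟩

def cMM_13_38 : PLift (fMM 3 1 13 4 27 9 = true) :=
  ⟨by decide +kernel⟩

def cMM_13_39 : PLift (fMM 3 1 13 4 36 9 = true) :=
  ⟨by decide +kernel⟩

def cMM_13_40 : PLift (fMM 3 1 13 4 45 9 = true) :=
  ⟨by decide +kernel⟩

def cMM_13_41 : PLift (fMM 3 1 13 4 54 6 = true) :=
  ⟨by decide +kernel⟩

def cMM_13_42 : PLift (fMM 4 0 13 4 0 9 = true) :=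
  ⟨by decide +kernel⟩

def cMM_13_43 : PLift (fMM 4 0 13 4 9 9 = true) :=
  ⟨by decide +kernel⟩

def cMM_13_44 : PLift (fMM 4 0 13 4 18 9 = true) :=
  ⟨by decide +kernel⟩

def cMM_13_45 : PLift (fMM 4 0 13 4 27 9 = true) :=
  ⟨by decide +kernel⟩

def cMM_13_46 : PLift (fMM 4 0 13 4 36 9 = true) :=
  ⟨by decide +kernel⟩

def cMM_13_47 : PLift (fMM 4 0 13 4 45 9 = true) :=
  ⟨by decide +kernel⟩

def cMM_13_48 : PLift (bnd (fMM 4 0 13 4 54 3)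
    (fMM 4 1 13 4 0 4) = true) :=
  ⟨by decide +kernel⟩

def cMM_13_49 : PLift (fMM 4 1 13 4 4 9 = true) :=
  ⟨by decide +kernel⟩

def cMM_13_50 : PLift (fMM 4 1 13 4 13 9 = true) :=
  ⟨by decide +kernel⟩

def cMM_13_51 : PLift (fMM 4 1 13 4 22 9 = true) :=
  ⟨by decide +kernel⟩

end Pool.Agent.Work.MP_6bf1e5_an.HD
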