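import Pool.Agent.Work.MP_6bf1e5_an.HD.CfMM

/-! Checks of the pass MM, part 2. -/

namespace Pool.Agent.Work.MP_6bf1e5_an.HD

open Pool.Agent.Lib.KLA Pool.Agent.Lib.KBlk

def cMM_2_33 : PLift (fMM 3 0 2 3 9 8 = true) :=
  ⟨by decide +kernel⟩

def cMM_2_34 : PLift (fMM 3 0 2 3 17 8 = true) :=
  ⟨by decide +kernel⟩

def cMM_2_35 : PLift (fMM 3 0 2 3 25 8 = true) :=
  ⟨by decide +kernel⟩

def cMM_2_36 : PLift (fMM 3 0 2 3 33 8 = true) :=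
  ⟨by decide +kernel⟩

def cMM_2_37 : PLift (fMM 3 0 2 3 41 8 = true) :=
  ⟨by decide +kernel⟩

def cMM_2_38 : PLift (fMM 3 0 2 3 49 8 = true) :=
  ⟨by decide +kernel⟩

def cMM_2_39 : PLift (bnd (fMM 3 0 2 3 57 2)
    (fMM 3 1 2 3 0 4) = true) :=
  ⟨by decide +kernel⟩

def cMM_2_40 : PLift (fMM 3 1 2 3 4 8 = true) :=
  ⟨by decide +kernel⟩

def cMM_2_41 : PLift (fMM 3 1 2 3 12 8 = true) :=
  ⟨by decide +kernel⟩

def cMM_2_42 : PLift (fMM 3 1 2 3 20 8 = true) :=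
  ⟨by decide +kernel⟩

def cMM_2_43 : PLift (fMM 3 1 2 3 28 8 = true) :=
  ⟨by decide +kernel⟩

def cMM_2_44 : PLift (fMM 3 1 2 3 36 8 = true) :=
  ⟨by decide +kernel⟩

def cMM_2_45 : PLift (fMM 3 1 2 3 44 8 = true) :=
  ⟨by decide +kernel⟩

def cMM_2_46 : PLift (fMM 3 1 2 3 52 8 = true) :=
  ⟨by decide +kernel⟩

def cMM_2_47 : PLift (fMM 4 0 2 3 0 8 = true) :=
  ⟨by decide +kernel⟩

def cMM_2_48 : PLift (fMM 4 0 2 3 8 8 = true) :=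
  ⟨by decide +kernel⟩

def cMM_2_49 : PLift (fMM 4 0 2 3 16 8 = true) :=
  ⟨by decide +kernel⟩

def cMM_2_50 : PLift (fMM 4 0 2 3 24 8 = true) :=
  ⟨by decide +kernel⟩

def cMM_2_51 : PLift (fMM 4 0 2 3 32 8 = true) :=
  ⟨by decide +kernel⟩

def cMM_2_52 : PLift (fMM 4 0 2 3 40 8 = true) :=
  ⟨by decide +kernel⟩

def cMM_2_53 : PLift (fMM 4 0 2 3 48 8 = true) :=
  ⟨by decide +kernel⟩

end Pool.Agent.Work.MP_6bf1e5_an.HD
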