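import Pool.Agent.Work.MP_6bf1e5_an.HD.CfMM

/-! Checks of the pass MM, part 20. -/

namespace Pool.Agent.Work.MP_6bf1e5_an.HD

open Pool.Agent.Lib.KLA Pool.Agent.Lib.KBlk

def cMM_13_52 : PLift (fMM 4 1 13 4 31 9 = true) :=
  ⟨by decide +kernel⟩

def cMM_13_53 : PLift (fMM 4 1 13 4 40 9 = true) :=
  ⟨by decide +kernel⟩

def cMM_13_54 : PLift (fMM 4 1 13 4 49 9 = true) :=
  ⟨by decide +kernel⟩

def cMM_13_55 : PLift (fMM 5 0 13 4 0 10 = true) :=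
  ⟨by decide +kernel⟩

def cMM_13_56 : PLift (fMM 5 0 13 4 10 10 = true) :=
  ⟨by decide +kernel⟩

def cMM_13_57 : PLift (fMM 5 0 13 4 20 10 = true) :=
  ⟨by decide +kernel⟩

def cMM_13_58 : PLift (fMM 5 0 13 4 30 10 = true) :=
  ⟨by decide +kernel⟩

def cMM_13_59 : PLift (fMM 5 0 13 4 40 10 = true) :=
  ⟨by decide +kernel⟩

def cMM_13_60 : PLift (bnd (fMM 5 0 13 4 50 5)
    (fMM 5 1 13 4 0 3) = true) :=
  ⟨by decide +kernel⟩

def cMM_13_61 : PLift (fMM 5 1 13 4 3 10 = true) :=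
  ⟨by decide +kernel⟩

def cMM_13_62 : PLift (fMM 5 1 13 4 13 10 = true) :=
  ⟨by decide +kernel⟩

def cMM_13_63 : PLift (fMM 5 1 13 4 23 10 = true) :=
  ⟨by decide +kernel⟩

def cMM_13_64 : PLift (fMM 5 1 13 4 33 10 = true) :=
  ⟨by decide +kernel⟩

def cMM_13_65 : PLift (fMM 5 1 13 4 43 10 = true) :=
  ⟨by decide +kernel⟩

def cMM_13_66 : PLift (bnd (fMM 5 1 13 4 53 3)
    (fMM 6 0 13 4 0 5) = true) :=
  ⟨by decide +kernel⟩

def cMM_13_67 : PLift (fMM 6 0 13 4 5 10 = true) :=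
  ⟨by decide +kernel⟩

def cMM_13_68 : PLift (fMM 6 0 13 4 15 10 = true) :=
  ⟨by decide +kernel⟩

def cMM_13_69 : PLift (fMM 6 0 13 4 25 10 = true) :=
  ⟨by decide +kernel⟩

def cMM_13_70 : PLift (fMM 6 0 13 4 35 10 = true) :=
  ⟨by decide +kernel⟩

end Pool.Agent.Work.MP_6bf1e5_an.HD
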