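import Pool.Agent.Work.MP_6bf1e5_an.HD.CfMM

/-! Checks of the pass MM, part 21. -/

namespace Pool.Agent.Work.MP_6bf1e5_an.HD

open Pool.Agent.Lib.KLA Pool.Agent.Lib.KBlk

def cMM_13_71 : PLift (fMM 6 0 13 4 45 8 = true) :=
  ⟨by decide +kernel⟩

def cMM_13_72 : PLift (fMM 6 1 13 4 0 10 = true) :=
  ⟨by decide +kernel⟩

def cMM_13_73 : PLift (fMM 6 1 13 4 10 10 = true) :=
  ⟨by decide +kernel⟩

def cMM_13_74 : PLift (fMM 6 1 13 4 20 10 = true) :=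
  ⟨by decide +kernel⟩

def cMM_13_75 : PLift (fMM 6 1 13 4 30 10 = true) :=
  ⟨by decide +kernel⟩

def cMM_13_76 : PLift (fMM 6 1 13 4 40 10 = true) :=
  ⟨by decide +kernel⟩

def cMM_13_77 : PLift (bnd (fMM 6 1 13 4 50 4)
    (fMM 7 0 13 4 0 4) = true) :=
  ⟨by decide +kernel⟩

def cMM_13_78 : PLift (fMM 7 0 13 4 4 10 = true) :=
  ⟨by decide +kernel⟩

def cMM_13_79 : PLift (fMM 7 0 13 4 14 10 = true) :=
  ⟨by decide +kernel⟩

def cMM_13_80 : PLift (fMM 7 0 13 4 24 10 = true) :=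
  ⟨by decide +kernel⟩

def cMM_13_81 : PLift (fMM 7 0 13 4 34 10 = true) :=
  ⟨by decide +kernel⟩

def cMM_13_82 : PLift (fMM 7 0 13 4 44 7 = true) :=
  ⟨by decide +kernel⟩

def cMM_13_83 : PLift (fMM 7 1 13 4 0 10 = true) :=
  ⟨by decide +kernel⟩

def cMM_13_84 : PLift (fMM 7 1 13 4 10 10 = true) :=
  ⟨by decide +kernel⟩

def cMM_13_85 : PLift (fMM 7 1 13 4 20 10 = true) :=
  ⟨by decide +kernel⟩

def cMM_13_86 : PLift (fMM 7 1 13 4 30 10 = true) :=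
  ⟨by decide +kernel⟩

def cMM_13_87 : PLift (fMM 7 1 13 4 40 10 = true) :=
  ⟨by decide +kernel⟩

def cMM_13_88 : PLift (bnd (fMM 7 1 13 4 50 2)
    (fMM 8 0 13 4 0 6) = true) :=
  ⟨by decide +kernel⟩

def cMM_13_89 : PLift (fMM 8 0 13 4 6 10 = true) :=
  ⟨by decide +kernel⟩

end Pool.Agent.Work.MP_6bf1e5_an.HD
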