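import Pool.Agent.Work.MP_6bf1e5_an.HD.CfMM

/-! Checks of the pass MM, part 22. -/

namespace Pool.Agent.Work.MP_6bf1e5_an.HD

open Pool.Agent.Lib.KLA Pool.Agent.Lib.KBlk

def cMM_13_90 : PLift (fMM 8 0 13 4 16 10 = true) :=
  ⟨by decide +kernel⟩

def cMM_13_91 : PLift (fMM 8 0 13 4 26 10 = true) :=
  ⟨by decide +kernel⟩

def cMM_13_92 : PLift (fMM 8 0 13 4 36 10 = true) :=
  ⟨by decide +kernel⟩

def cMM_13_93 : PLift (bnd (fMM 8 0 13 4 46 3)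
    (fMM 8 1 13 4 0 5) = true) :=
  ⟨by decide +kernel⟩

def cMM_13_94 : PLift (fMM 8 1 13 4 5 10 = true) :=
  ⟨by decide +kernel⟩

def cMM_13_95 : PLift (fMM 8 1 13 4 15 10 = true) :=
  ⟨by decide +kernel⟩

def cMM_13_96 : PLift (fMM 8 1 13 4 25 10 = true) :=
  ⟨by decide +kernel⟩

def cMM_13_97 : PLift (fMM 8 1 13 4 35 10 = true) :=
  ⟨by decide +kernel⟩

def cMM_13_98 : PLift (fMM 8 1 13 4 45 5 = true) :=
  ⟨by decide +kernel⟩

def cMM_13_99 : PLift (fMM 9 0 13 4 0 10 = true) :=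
  ⟨by decide +kernel⟩

def cMM_13_100 : PLift (fMM 9 0 13 4 10 10 = true) :=
  ⟨by decide +kernel⟩

def cMM_13_101 : PLift (fMM 9 0 13 4 20 10 = true) :=
  ⟨by decide +kernel⟩

def cMM_13_102 : PLift (fMM 9 0 13 4 30 10 = true) :=
  ⟨by decide +kernel⟩

def cMM_13_103 : PLift (fMM 9 0 13 4 40 7 = true) :=
  ⟨by decide +kernel⟩

def cMM_13_104 : PLift (fMM 9 1 13 4 0 10 = true) :=
  ⟨by decide +kernel⟩

def cMM_13_105 : PLift (fMM 9 1 13 4 10 10 = true) :=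
  ⟨by decide +kernel⟩

def cMM_13_106 : PLift (fMM 9 1 13 4 20 10 = true) :=
  ⟨by decide +kernel⟩

def cMM_13_107 : PLift (fMM 9 1 13 4 30 10 = true) :=
  ⟨by decide +kernel⟩

def cMM_13_108 : PLift (fMM 9 1 13 4 40 8 = true) :=
  ⟨by decide +kernel⟩

def cMM_13_109 : PLift (fMM 10 0 13 4 0 10 = true) :=
  ⟨by decide +kernel⟩

end Pool.Agent.Work.MP_6bf1e5_an.HD
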