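import Pool.Agent.Work.MP_6bf1e5_an.HD.CfMM

/-! Checks of the pass MM, part 23. -/

namespace Pool.Agent.Work.MP_6bf1e5_an.HD

open Pool.Agent.Lib.KLA Pool.Agent.Lib.KBlk

def cMM_13_110 : PLift (fMM 10 0 13 4 10 10 = true) :=
  ⟨by decide +kernel⟩

def cMM_13_111 : PLift (fMM 10 0 13 4 20 10 = true) :=
  ⟨by decide +kernel⟩

def cMM_13_112 : PLift (fMM 10 0 13 4 30 10 = true) :=
  ⟨by decide +kernel⟩

def cMM_13_113 : PLift (bnd (fMM 10 0 13 4 40 5)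
    (fMM 10 1 13 4 0 3) = true) :=
  ⟨by decide +kernel⟩

def cMM_13_114 : PLift (fMM 10 1 13 4 3 10 = true) :=
  ⟨by decide +kernel⟩

def cMM_13_115 : PLift (fMM 10 1 13 4 13 10 = true) :=
  ⟨by decide +kernel⟩

def cMM_13_116 : PLift (fMM 10 1 13 4 23 10 = true) :=
  ⟨by decide +kernel⟩

def cMM_13_117 : PLift (fMM 10 1 13 4 33 10 = true) :=
  ⟨by decide +kernel⟩

def cMM_13_118 : PLift (bnd (fMM 10 1 13 4 43 3)
    (fMM 11 0 13 4 0 5) = true) :=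
  ⟨by decide +kernel⟩

def cMM_13_119 : PLift (fMM 11 0 13 4 5 10 = true) :=
  ⟨by decide +kernel⟩

def cMM_13_120 : PLift (fMM 11 0 13 4 15 10 = true) :=
  ⟨by decide +kernel⟩

def cMM_13_121 : PLift (fMM 11 0 13 4 25 10 = true) :=
  ⟨by decide +kernel⟩

def cMM_13_122 : PLift (fMM 11 0 13 4 35 8 = true) :=
  ⟨by decide +kernel⟩

def cMM_13_123 : PLift (fMM 11 1 13 4 0 10 = true) :=
  ⟨by decide +kernel⟩

def cMM_13_124 : PLift (fMM 11 1 13 4 10 10 = true) :=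
  ⟨by decide +kernel⟩

def cMM_13_125 : PLift (fMM 11 1 13 4 20 10 = true) :=
  ⟨by decide +kernel⟩

def cMM_13_126 : PLift (fMM 11 1 13 4 30 10 = true) :=
  ⟨by decide +kernel⟩

def cMM_13_127 : PLift (bnd (fMM 11 1 13 4 40 4)
    (fMM 12 0 13 4 0 4) = true) :=
  ⟨by decide +kernel⟩

def cMM_13_128 : PLift (fMM 12 0 13 4 4 10 = true) :=
  ⟨by decide +kernel⟩

end Pool.Agent.Work.MP_6bf1e5_an.HD
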