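import Pool.Agent.Work.MP_6bf1e5_an.HD.CfMM

/-! Checks of the pass MM, part 24. -/

namespace Pool.Agent.Work.MP_6bf1e5_an.HD

open Pool.Agent.Lib.KLA Pool.Agent.Lib.KBlk

def cMM_13_129 : PLift (fMM 12 0 13 4 14 10 = true) :=
  ⟨by decide +kernel⟩

def cMM_13_130 : PLift (fMM 12 0 13 4 24 10 = true) :=
  ⟨by decide +kernel⟩

def cMM_13_131 : PLift (fMM 12 0 13 4 34 7 = true) :=
  ⟨by decide +kernel⟩

def cMM_13_132 : PLift (fMM 12 1 13 4 0 10 = true) :=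
  ⟨by decide +kernel⟩

def cMM_13_133 : PLift (fMM 12 1 13 4 10 10 = true) :=
  ⟨by decide +kernel⟩

def cMM_13_134 : PLift (fMM 12 1 13 4 20 10 = true) :=
  ⟨by decide +kernel⟩

def cMM_13_135 : PLift (fMM 12 1 13 4 30 10 = true) :=
  ⟨by decide +kernel⟩

def cMM_13_136 : PLift (bnd (fMM 12 1 13 4 40 2)
    (fMM 13 0 13 4 0 5) = true) :=
  ⟨by decide +kernel⟩

def cMM_13_137 : PLift (fMM 13 0 13 4 5 10 = true) :=
  ⟨by decide +kernel⟩

def cMM_13_138 : PLift (fMM 13 0 13 4 15 10 = true) :=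
  ⟨by decide +kernel⟩

def cMM_13_139 : PLift (fMM 13 0 13 4 25 10 = true) :=
  ⟨by decide +kernel⟩

def cMM_13_140 : PLift (bnd (fMM 13 0 13 4 35 4)
    (fMM 13 1 13 4 0 5) = true) :=
  ⟨by decide +kernel⟩

def cMM_13_141 : PLift (fMM 13 1 13 4 5 10 = true) :=
  ⟨by decide +kernel⟩

def cMM_13_142 : PLift (fMM 13 1 13 4 15 10 = true) :=
  ⟨by decide +kernel⟩

def cMM_13_143 : PLift (fMM 13 1 13 4 25 10 = true) :=
  ⟨by decide +kernel⟩

def cMM_13_144 : PLift (bnd (fMM 13 1 13 4 35 5)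
    (fMM 14 0 13 4 0 4) = true) :=
  ⟨by decide +kernel⟩

def cMM_13_145 : PLift (fMM 14 0 13 4 4 10 = true) :=
  ⟨by decide +kernel⟩

def cMM_13_146 : PLift (fMM 14 0 13 4 14 10 = true) :=
  ⟨by decide +kernel⟩

def cMM_13_147 : PLift (fMM 14 0 13 4 24 10 = true) :=
  ⟨by decide +kernel⟩

def cMM_13_148 : PLift (bnd (fMM 14 0 13 4 34 3)
    (fMM 14 1 13 4 0 6) = true) :=
  ⟨by decide +kernel⟩

end Pool.Agent.Work.MP_6bf1e5_an.HD
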