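import Pool.Agent.Work.MP_6bf1e5_an.HD.CfMM

/-! Checks of the pass MM, part 25. -/

namespace Pool.Agent.Work.MP_6bf1e5_an.HD

open Pool.Agent.Lib.KLA Pool.Agent.Lib.KBlk

def cMM_13_149 : PLift (fMM 14 1 13 4 6 10 = true) :=
  ⟨by decide +kernel⟩

def cMM_13_150 : PLift (fMM 14 1 13 4 16 10 = true) :=
  ⟨by decide +kernel⟩

def cMM_13_151 : PLift (fMM 14 1 13 4 26 10 = true) :=
  ⟨by decide +kernel⟩

def cMM_13_152 : PLift (bnd (fMM 14 1 13 4 36 2)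
    (fMM 15 0 13 4 0 7) = true) :=
  ⟨by decide +kernel⟩

def cMM_13_153 : PLift (fMM 15 0 13 4 7 10 = true) :=
  ⟨by decide +kernel⟩

def cMM_13_154 : PLift (fMM 15 0 13 4 17 10 = true) :=
  ⟨by decide +kernel⟩

def cMM_13_155 : PLift (fMM 15 0 13 4 27 8 = true) :=
  ⟨by decide +kernel⟩

def cMM_13_156 : PLift (fMM 15 1 13 4 0 10 = true) :=
  ⟨by decide +kernel⟩

def cMM_13_157 : PLift (fMM 15 1 13 4 10 10 = true) :=
  ⟨by decide +kernel⟩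

def cMM_13_158 : PLift (fMM 15 1 13 4 20 10 = true) :=
  ⟨by decide +kernel⟩

def cMM_13_159 : PLift (bnd (fMM 15 1 13 4 30 6)
    (fMM 16 0 13 4 0 3) = true) :=
  ⟨by decide +kernel⟩

def cMM_13_160 : PLift (fMM 16 0 13 4 3 10 = true) :=
  ⟨by decide +kernel⟩

def cMM_13_161 : PLift (fMM 16 0 13 4 13 10 = true) :=
  ⟨by decide +kernel⟩

def cMM_13_162 : PLift (fMM 16 0 13 4 23 10 = true) :=
  ⟨by decide +kernel⟩

def cMM_13_163 : PLift (fMM 16 1 13 4 0 10 = true) :=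
  ⟨by decide +kernel⟩

def cMM_13_164 : PLift (fMM 16 1 13 4 10 10 = true) :=
  ⟨by decide +kernel⟩

def cMM_13_165 : PLift (fMM 16 1 13 4 20 10 = true) :=
  ⟨by decide +kernel⟩

def cMM_13_166 : PLift (fMM 16 1 13 4 30 4 = true) :=
  ⟨by decide +kernel⟩

def cMM_17_0 : PLift (fMM 1 0 17 4 0 12 = true) :=
  ⟨by decide +kernel⟩

def cMM_17_1 : PLift (fMM 1 0 17 4 12 12 = true) :=
  ⟨by decide +kernel⟩

end Pool.Agent.Work.MP_6bf1e5_an.HD
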