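import Pool.Agent.Work.MP_6bf1e5_an.HD.CfMM

/-! Checks of the pass MM, part 26. -/

namespace Pool.Agent.Work.MP_6bf1e5_an.HD

open Pool.Agent.Lib.KLA Pool.Agent.Lib.KBlk

def cMM_17_2 : PLift (fMM 1 0 17 4 24 12 = true) :=
  ⟨by decide +kernel⟩

def cMM_17_3 : PLift (fMM 1 0 17 4 36 12 = true) :=
  ⟨by decide +kernel⟩

def cMM_17_4 : PLift (fMM 1 0 17 4 48 12 = true) :=
  ⟨by decide +kernel⟩

def cMM_17_5 : PLift (bnd (fMM 1 0 17 4 60 3)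
    (fMM 1 1 17 4 0 6) = true) :=
  ⟨by decide +kernel⟩

def cMM_17_6 : PLift (fMM 1 1 17 4 6 12 = true) :=
  ⟨by decide +kernel⟩

def cMM_17_7 : PLift (fMM 1 1 17 4 18 12 = true) :=
  ⟨by decide +kernel⟩

def cMM_17_8 : PLift (fMM 1 1 17 4 30 12 = true) :=
  ⟨by decide +kernel⟩

def cMM_17_9 : PLift (fMM 1 1 17 4 42 12 = true) :=
  ⟨by decide +kernel⟩

def cMM_17_10 : PLift (fMM 1 1 17 4 54 10 = true) :=
  ⟨by decide +kernel⟩

def cMM_17_11 : PLift (fMM 2 0 17 4 0 12 = true) :=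
  ⟨by decide +kernel⟩

def cMM_17_12 : PLift (fMM 2 0 17 4 12 12 = true) :=
  ⟨by decide +kernel⟩

def cMM_17_13 : PLift (fMM 2 0 17 4 24 12 = true) :=
  ⟨by decide +kernel⟩

def cMM_17_14 : PLift (fMM 2 0 17 4 36 12 = true) :=
  ⟨by decide +kernel⟩

def cMM_17_15 : PLift (fMM 2 0 17 4 48 12 = true) :=
  ⟨by decide +kernel⟩

def cMM_17_16 : PLift (bnd (fMM 2 0 17 4 60 1)
    (fMM 2 1 17 4 0 8) = true) :=
  ⟨by decide +kernel⟩

def cMM_17_17 : PLift (fMM 2 1 17 4 8 12 = true) :=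
  ⟨by decide +kernel⟩

def cMM_17_18 : PLift (fMM 2 1 17 4 20 12 = true) :=
  ⟨by decide +kernel⟩

def cMM_17_19 : PLift (fMM 2 1 17 4 32 12 = true) :=
  ⟨by decide +kernel⟩

end Pool.Agent.Work.MP_6bf1e5_an.HD
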