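import Pool.Agent.Work.MP_6bf1e5_an.HD.CfMM

/-! Checks of the pass MM, part 27. -/

namespace Pool.Agent.Work.MP_6bf1e5_an.HD

open Pool.Agent.Lib.KLA Pool.Agent.Lib.KBlk

def cMM_17_20 : PLift (fMM 2 1 17 4 44 12 = true) :=
  ⟨by decide +kernel⟩

def cMM_17_21 : PLift (bnd (fMM 2 1 17 4 56 6)
    (fMM 3 0 17 4 0 3) = true) :=
  ⟨by decide +kernel⟩

def cMM_17_22 : PLift (fMM 3 0 17 4 3 12 = true) :=
  ⟨by decide +kernel⟩

def cMM_17_23 : PLift (fMM 3 0 17 4 15 12 = true) :=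
  ⟨by decide +kernel⟩

def cMM_17_24 : PLift (fMM 3 0 17 4 27 12 = true) :=
  ⟨by decide +kernel⟩

def cMM_17_25 : PLift (fMM 3 0 17 4 39 12 = true) :=
  ⟨by decide +kernel⟩

def cMM_17_26 : PLift (fMM 3 0 17 4 51 8 = true) :=
  ⟨by decide +kernel⟩

def cMM_17_27 : PLift (fMM 3 1 17 4 0 12 = true) :=
  ⟨by decide +kernel⟩

def cMM_17_28 : PLift (fMM 3 1 17 4 12 12 = true) :=
  ⟨by decide +kernel⟩

def cMM_17_29 : PLift (fMM 3 1 17 4 24 12 = true) :=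
  ⟨by decide +kernel⟩

def cMM_17_30 : PLift (fMM 3 1 17 4 36 12 = true) :=
  ⟨by decide +kernel⟩

def cMM_17_31 : PLift (fMM 3 1 17 4 48 12 = true) :=
  ⟨by decide +kernel⟩

def cMM_17_32 : PLift (fMM 4 0 17 4 0 12 = true) :=
  ⟨by decide +kernel⟩

def cMM_17_33 : PLift (fMM 4 0 17 4 12 12 = true) :=
  ⟨by decide +kernel⟩

def cMM_17_34 : PLift (fMM 4 0 17 4 24 12 = true) :=
  ⟨by decide +kernel⟩

def cMM_17_35 : PLift (fMM 4 0 17 4 36 12 = true) :=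
  ⟨by decide +kernel⟩

def cMM_17_36 : PLift (fMM 4 0 17 4 48 9 = true) :=
  ⟨by decide +kernel⟩

end Pool.Agent.Work.MP_6bf1e5_an.HD
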