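import Pool.Agent.Work.MP_6bf1e5_an.HD.CfMM

/-! Checks of the pass MM, part 28. -/

namespace Pool.Agent.Work.MP_6bf1e5_an.HD

open Pool.Agent.Lib.KLA Pool.Agent.Lib.KBlk

def cMM_17_37 : PLift (fMM 4 1 17 4 0 12 = true) :=
  ⟨by decide +kernel⟩

def cMM_17_38 : PLift (fMM 4 1 17 4 12 12 = true) :=
  ⟨by decide +kernel⟩

def cMM_17_39 : PLift (fMM 4 1 17 4 24 12 = true) :=
  ⟨by decide +kernel⟩

def cMM_17_40 : PLift (fMM 4 1 17 4 36 12 = true) :=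
  ⟨by decide +kernel⟩

def cMM_17_41 : PLift (fMM 4 1 17 4 48 10 = true) :=
  ⟨by decide +kernel⟩

def cMM_17_42 : PLift (fMM 5 0 17 4 0 12 = true) :=
  ⟨by decide +kernel⟩

def cMM_17_43 : PLift (fMM 5 0 17 4 12 12 = true) :=
  ⟨by decide +kernel⟩

def cMM_17_44 : PLift (fMM 5 0 17 4 24 12 = true) :=
  ⟨by decide +kernel⟩

def cMM_17_45 : PLift (fMM 5 0 17 4 36 12 = true) :=
  ⟨by decide +kernel⟩

def cMM_17_46 : PLift (bnd (fMM 5 0 17 4 48 7)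
    (fMM 5 1 17 4 0 3) = true) :=
  ⟨by decide +kernel⟩

def cMM_17_47 : PLift (fMM 5 1 17 4 3 12 = true) :=
  ⟨by decide +kernel⟩

def cMM_17_48 : PLift (fMM 5 1 17 4 15 12 = true) :=
  ⟨by decide +kernel⟩

def cMM_17_49 : PLift (fMM 5 1 17 4 27 12 = true) :=
  ⟨by decide +kernel⟩

def cMM_17_50 : PLift (fMM 5 1 17 4 39 12 = true) :=
  ⟨by decide +kernel⟩

def cMM_17_51 : PLift (bnd (fMM 5 1 17 4 51 5)
    (fMM 6 0 17 4 0 5) = true) :=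
  ⟨by decide +kernel⟩

def cMM_17_52 : PLift (fMM 6 0 17 4 5 12 = true) :=
  ⟨by decide +kernel⟩

def cMM_17_53 : PLift (fMM 6 0 17 4 17 12 = true) :=
  ⟨by decide +kernel⟩

def cMM_17_54 : PLift (fMM 6 0 17 4 29 12 = true) :=
  ⟨by decide +kernel⟩

end Pool.Agent.Work.MP_6bf1e5_an.HD
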