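import Pool.Agent.Work.MP_6bf1e5_an.HD.CfMM

/-! Checks of the pass MM, part 29. -/

namespace Pool.Agent.Work.MP_6bf1e5_an.HD

open Pool.Agent.Lib.KLA Pool.Agent.Lib.KBlk

def cMM_17_55 : PLift (fMM 6 0 17 4 41 12 = true) :=
  ⟨by decide +kernel⟩

def cMM_17_56 : PLift (fMM 6 1 17 4 0 12 = true) :=
  ⟨by decide +kernel⟩

def cMM_17_57 : PLift (fMM 6 1 17 4 12 12 = true) :=
  ⟨by decide +kernel⟩

def cMM_17_58 : PLift (fMM 6 1 17 4 24 12 = true) :=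
  ⟨by decide +kernel⟩

def cMM_17_59 : PLift (fMM 6 1 17 4 36 12 = true) :=
  ⟨by decide +kernel⟩

def cMM_17_60 : PLift (bnd (fMM 6 1 17 4 48 6)
    (fMM 7 0 17 4 0 4) = true) :=
  ⟨by decide +kernel⟩

def cMM_17_61 : PLift (fMM 7 0 17 4 4 12 = true) :=
  ⟨by decide +kernel⟩

def cMM_17_62 : PLift (fMM 7 0 17 4 16 12 = true) :=
  ⟨by decide +kernel⟩

def cMM_17_63 : PLift (fMM 7 0 17 4 28 12 = true) :=
  ⟨by decide +kernel⟩

def cMM_17_64 : PLift (fMM 7 0 17 4 40 11 = true) :=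
  ⟨by decide +kernel⟩

def cMM_17_65 : PLift (fMM 7 1 17 4 0 12 = true) :=
  ⟨by decide +kernel⟩

def cMM_17_66 : PLift (fMM 7 1 17 4 12 12 = true) :=
  ⟨by decide +kernel⟩

def cMM_17_67 : PLift (fMM 7 1 17 4 24 12 = true) :=
  ⟨by decide +kernel⟩

def cMM_17_68 : PLift (fMM 7 1 17 4 36 12 = true) :=
  ⟨by decide +kernel⟩

def cMM_17_69 : PLift (bnd (fMM 7 1 17 4 48 4)
    (fMM 8 0 17 4 0 6) = true) :=
  ⟨by decide +kernel⟩

def cMM_17_70 : PLift (fMM 8 0 17 4 6 12 = true) :=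
  ⟨by decide +kernel⟩

def cMM_17_71 : PLift (fMM 8 0 17 4 18 12 = true) :=
  ⟨by decide +kernel⟩

def cMM_17_72 : PLift (fMM 8 0 17 4 30 12 = true) :=
  ⟨by decide +kernel⟩

end Pool.Agent.Work.MP_6bf1e5_an.HD
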