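import Pool.Agent.Work.MP_6bf1e5_an.HD.CfMM

/-! Checks of the pass MM, part 3. -/

namespace Pool.Agent.Work.MP_6bf1e5_an.HD

open Pool.Agent.Lib.KLA Pool.Agent.Lib.KBlk

def cMM_2_54 : PLift (bnd (fMM 4 0 2 3 56 1)
    (fMM 4 1 2 3 0 5) = true) :=
  ⟨by decide +kernel⟩

def cMM_2_55 : PLift (fMM 4 1 2 3 5 8 = true) :=
  ⟨by decide +kernel⟩

def cMM_2_56 : PLift (fMM 4 1 2 3 13 8 = true) :=
  ⟨by decide +kernel⟩

def cMM_2_57 : PLift (fMM 4 1 2 3 21 8 = true) :=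
  ⟨by decide +kernel⟩

def cMM_2_58 : PLift (fMM 4 1 2 3 29 8 = true) :=
  ⟨by decide +kernel⟩

def cMM_2_59 : PLift (fMM 4 1 2 3 37 8 = true) :=
  ⟨by decide +kernel⟩

def cMM_2_60 : PLift (fMM 4 1 2 3 45 8 = true) :=
  ⟨by decide +kernel⟩

def cMM_2_61 : PLift (fMM 4 1 2 3 53 5 = true) :=
  ⟨by decide +kernel⟩

def cMM_5_0 : PLift (fMM 1 0 5 4 0 7 = true) :=
  ⟨by decide +kernel⟩

def cMM_5_1 : PLift (fMM 1 0 5 4 7 7 = true) :=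
  ⟨by decide +kernel⟩

def cMM_5_2 : PLift (fMM 1 0 5 4 14 7 = true) :=
  ⟨by decide +kernel⟩

def cMM_5_3 : PLift (fMM 1 0 5 4 21 7 = true) :=
  ⟨by decide +kernel⟩

def cMM_5_4 : PLift (fMM 1 0 5 4 28 7 = true) :=
  ⟨by decide +kernel⟩

def cMM_5_5 : PLift (fMM 1 0 5 4 35 7 = true) :=
  ⟨by decide +kernel⟩

def cMM_5_6 : PLift (fMM 1 0 5 4 42 7 = true) :=
  ⟨by decide +kernel⟩

def cMM_5_7 : PLift (fMM 1 0 5 4 49 7 = true) :=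
  ⟨by decide +kernel⟩

def cMM_5_8 : PLift (fMM 1 0 5 4 56 7 = true) :=
  ⟨by decide +kernel⟩

def cMM_5_9 : PLift (fMM 1 1 5 4 0 7 = true) :=
  ⟨by decide +kernel⟩

def cMM_5_10 : PLift (fMM 1 1 5 4 7 7 = true) :=
  ⟨by decide +kernel⟩

def cMM_5_11 : PLift (fMM 1 1 5 4 14 7 = true) :=
  ⟨by decide +kernel⟩

def cMM_5_12 : PLift (fMM 1 1 5 4 21 7 = true) :=
  ⟨by decide +kernel⟩

end Pool.Agent.Work.MP_6bf1e5_an.HD
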