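import Pool.Agent.Work.MP_6bf1e5_an.HD.CfMM

/-! Checks of the pass MM, part 30. -/

namespace Pool.Agent.Work.MP_6bf1e5_an.HD

open Pool.Agent.Lib.KLA Pool.Agent.Lib.KBlk

def cMM_17_73 : PLift (bnd (fMM 8 0 17 4 42 7)
    (fMM 8 1 17 4 0 3) = true) :=
  ⟨by decide +kernel⟩

def cMM_17_74 : PLift (fMM 8 1 17 4 3 12 = true) :=
  ⟨by decide +kernel⟩

def cMM_17_75 : PLift (fMM 8 1 17 4 15 12 = true) :=
  ⟨by decide +kernel⟩

def cMM_17_76 : PLift (fMM 8 1 17 4 27 12 = true) :=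
  ⟨by decide +kernel⟩

def cMM_17_77 : PLift (fMM 8 1 17 4 39 11 = true) :=
  ⟨by decide +kernel⟩

def cMM_17_78 : PLift (fMM 9 0 17 4 0 12 = true) :=
  ⟨by decide +kernel⟩

def cMM_17_79 : PLift (fMM 9 0 17 4 12 12 = true) :=
  ⟨by decide +kernel⟩

def cMM_17_80 : PLift (fMM 9 0 17 4 24 12 = true) :=
  ⟨by decide +kernel⟩

def cMM_17_81 : PLift (fMM 9 0 17 4 36 11 = true) :=
  ⟨by decide +kernel⟩

def cMM_17_82 : PLift (fMM 9 1 17 4 0 12 = true) :=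
  ⟨by decide +kernel⟩

def cMM_17_83 : PLift (fMM 9 1 17 4 12 12 = true) :=
  ⟨by decide +kernel⟩

def cMM_17_84 : PLift (fMM 9 1 17 4 24 12 = true) :=
  ⟨by decide +kernel⟩

def cMM_17_85 : PLift (fMM 9 1 17 4 36 12 = true) :=
  ⟨by decide +kernel⟩

def cMM_17_86 : PLift (fMM 10 0 17 4 0 12 = true) :=
  ⟨by decide +kernel⟩

def cMM_17_87 : PLift (fMM 10 0 17 4 12 12 = true) :=
  ⟨by decide +kernel⟩

def cMM_17_88 : PLift (fMM 10 0 17 4 24 12 = true) :=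
  ⟨by decide +kernel⟩

def cMM_17_89 : PLift (fMM 10 0 17 4 36 9 = true) :=
  ⟨by decide +kernel⟩

def cMM_17_90 : PLift (fMM 10 1 17 4 0 12 = true) :=
  ⟨by decide +kernel⟩

end Pool.Agent.Work.MP_6bf1e5_an.HD
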