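import Pool.Agent.Work.MP_6bf1e5_an.HD.CfMM

/-! Checks of the pass MM, part 31. -/

namespace Pool.Agent.Work.MP_6bf1e5_an.HD

open Pool.Agent.Lib.KLA Pool.Agent.Lib.KBlk

def cMM_17_91 : PLift (fMM 10 1 17 4 12 12 = true) :=
  ⟨by decide +kernel⟩

def cMM_17_92 : PLift (fMM 10 1 17 4 24 12 = true) :=
  ⟨by decide +kernel⟩

def cMM_17_93 : PLift (fMM 10 1 17 4 36 10 = true) :=
  ⟨by decide +kernel⟩

def cMM_17_94 : PLift (fMM 11 0 17 4 0 12 = true) :=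
  ⟨by decide +kernel⟩

def cMM_17_95 : PLift (fMM 11 0 17 4 12 12 = true) :=
  ⟨by decide +kernel⟩

def cMM_17_96 : PLift (fMM 11 0 17 4 24 12 = true) :=
  ⟨by decide +kernel⟩

def cMM_17_97 : PLift (bnd (fMM 11 0 17 4 36 7)
    (fMM 11 1 17 4 0 3) = true) :=
  ⟨by decide +kernel⟩

def cMM_17_98 : PLift (fMM 11 1 17 4 3 12 = true) :=
  ⟨by decide +kernel⟩

def cMM_17_99 : PLift (fMM 11 1 17 4 15 12 = true) :=
  ⟨by decide +kernel⟩

def cMM_17_100 : PLift (fMM 11 1 17 4 27 12 = true) :=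
  ⟨by decide +kernel⟩

def cMM_17_101 : PLift (bnd (fMM 11 1 17 4 39 5)
    (fMM 12 0 17 4 0 5) = true) :=
  ⟨by decide +kernel⟩

def cMM_17_102 : PLift (fMM 12 0 17 4 5 12 = true) :=
  ⟨by decide +kernel⟩

def cMM_17_103 : PLift (fMM 12 0 17 4 17 12 = true) :=
  ⟨by decide +kernel⟩

def cMM_17_104 : PLift (fMM 12 0 17 4 29 12 = true) :=
  ⟨by decide +kernel⟩

def cMM_17_105 : PLift (fMM 12 1 17 4 0 12 = true) :=
  ⟨by decide +kernel⟩

def cMM_17_106 : PLift (fMM 12 1 17 4 12 12 = true) :=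
  ⟨by decide +kernel⟩

def cMM_17_107 : PLift (fMM 12 1 17 4 24 12 = true) :=
  ⟨by decide +kernel⟩

def cMM_17_108 : PLift (fMM 12 1 17 4 36 6 = true) :=
  ⟨by decide +kernel⟩

def cMM_17_109 : PLift (fMM 13 0 17 4 0 13 = true) :=
  ⟨by decide +kernel⟩

end Pool.Agent.Work.MP_6bf1e5_an.HD
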