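import Pool.Agent.Work.MP_6bf1e5_an.HD.CfMM

/-! Checks of the pass MM, part 32. -/

namespace Pool.Agent.Work.MP_6bf1e5_an.HD

open Pool.Agent.Lib.KLA Pool.Agent.Lib.KBlk

def cMM_17_110 : PLift (fMM 13 0 17 4 13 13 = true) :=
  ⟨by decide +kernel⟩

def cMM_17_111 : PLift (fMM 13 0 17 4 26 13 = true) :=
  ⟨by decide +kernel⟩

def cMM_17_112 : PLift (fMM 13 1 17 4 0 13 = true) :=
  ⟨by decide +kernel⟩

def cMM_17_113 : PLift (fMM 13 1 17 4 13 13 = true) :=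
  ⟨by decide +kernel⟩

def cMM_17_114 : PLift (fMM 13 1 17 4 26 13 = true) :=
  ⟨by decide +kernel⟩

def cMM_17_115 : PLift (bnd (fMM 13 1 17 4 39 1)
    (fMM 14 0 17 4 0 10) = true) :=
  ⟨by decide +kernel⟩

def cMM_17_116 : PLift (fMM 14 0 17 4 10 13 = true) :=
  ⟨by decide +kernel⟩

def cMM_17_117 : PLift (fMM 14 0 17 4 23 13 = true) :=
  ⟨by decide +kernel⟩

def cMM_17_118 : PLift (bnd (fMM 14 0 17 4 36 1)
    (fMM 14 1 17 4 0 10) = true) :=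
  ⟨by decide +kernel⟩

def cMM_17_119 : PLift (fMM 14 1 17 4 10 13 = true) :=
  ⟨by decide +kernel⟩

def cMM_17_120 : PLift (fMM 14 1 17 4 23 13 = true) :=
  ⟨by decide +kernel⟩

def cMM_17_121 : PLift (bnd (fMM 14 1 17 4 36 2)
    (fMM 15 0 17 4 0 8) = true) :=
  ⟨by decide +kernel⟩

def cMM_17_122 : PLift (fMM 15 0 17 4 8 13 = true) :=
  ⟨by decide +kernel⟩

def cMM_17_123 : PLift (fMM 15 0 17 4 21 13 = true) :=
  ⟨by decide +kernel⟩

def cMM_17_124 : PLift (bnd (fMM 15 0 17 4 34 1)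
    (fMM 15 1 17 4 0 9) = true) :=
  ⟨by decide +kernel⟩

def cMM_17_125 : PLift (fMM 15 1 17 4 9 12 = true) :=
  ⟨by decide +kernel⟩

def cMM_17_126 : PLift (fMM 15 1 17 4 21 12 = true) :=
  ⟨by decide +kernel⟩

end Pool.Agent.Work.MP_6bf1e5_an.HD
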