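import Pool.Agent.Work.MP_6bf1e5_an.HD.CfMM

/-! Checks of the pass MM, part 33. -/

namespace Pool.Agent.Work.MP_6bf1e5_an.HD

open Pool.Agent.Lib.KLA Pool.Agent.Lib.KBlk

def cMM_17_127 : PLift (bnd (fMM 15 1 17 4 33 3)
    (fMM 16 0 17 4 0 7) = true) :=
  ⟨by decide +kernel⟩

def cMM_17_128 : PLift (fMM 16 0 17 4 7 13 = true) :=
  ⟨by decide +kernel⟩

def cMM_17_129 : PLift (fMM 16 0 17 4 20 13 = true) :=
  ⟨by decide +kernel⟩

def cMM_17_130 : PLift (fMM 16 1 17 4 0 13 = true) :=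
  ⟨by decide +kernel⟩

def cMM_17_131 : PLift (fMM 16 1 17 4 13 13 = true) :=
  ⟨by decide +kernel⟩

def cMM_17_132 : PLift (fMM 16 1 17 4 26 8 = true) :=
  ⟨by decide +kernel⟩

def cMM_17_133 : PLift (fMM 17 0 17 4 0 13 = true) :=
  ⟨by decide +kernel⟩

def cMM_17_134 : PLift (fMM 17 0 17 4 13 13 = true) :=
  ⟨by decide +kernel⟩

def cMM_17_135 : PLift (bnd (fMM 17 0 17 4 26 5)
    (fMM 17 1 17 4 0 6) = true) :=
  ⟨by decide +kernel⟩

def cMM_17_136 : PLift (fMM 17 1 17 4 6 13 = true) :=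
  ⟨by decide +kernel⟩

def cMM_17_137 : PLift (fMM 17 1 17 4 19 13 = true) :=
  ⟨by decide +kernel⟩

def cMM_17_138 : PLift (fMM 18 0 17 4 0 13 = true) :=
  ⟨by decide +kernel⟩

def cMM_17_139 : PLift (fMM 18 0 17 4 13 13 = true) :=
  ⟨by decide +kernel⟩

def cMM_17_140 : PLift (bnd (fMM 18 0 17 4 26 3)
    (fMM 18 1 17 4 0 8) = true) :=
  ⟨by decide +kernel⟩

def cMM_17_141 : PLift (fMM 18 1 17 4 8 13 = true) :=
  ⟨by decide +kernel⟩

def cMM_17_142 : PLift (fMM 18 1 17 4 21 9 = true) :=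
  ⟨by decide +kernel⟩

def cMM_17_143 : PLift (fMM 19 0 17 4 0 13 = true) :=
  ⟨by decide +kernel⟩

def cMM_17_144 : PLift (fMM 19 0 17 4 13 13 = true) :=
  ⟨by decide +kernel⟩

end Pool.Agent.Work.MP_6bf1e5_an.HD
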