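import Pool.Agent.Work.MP_6bf1e5_an.HD.CfMM

/-! Checks of the pass MM, part 34. -/

namespace Pool.Agent.Work.MP_6bf1e5_an.HD

open Pool.Agent.Lib.KLA Pool.Agent.Lib.KBlk

def cMM_17_145 : PLift (bnd (fMM 19 0 17 4 26 1)
    (fMM 19 1 17 4 0 10) = true) :=
  ⟨by decide +kernel⟩

def cMM_17_146 : PLift (fMM 19 1 17 4 10 13 = true) :=
  ⟨by decide +kernel⟩

def cMM_17_147 : PLift (bnd (fMM 19 1 17 4 23 5)
    (fMM 20 0 17 4 0 6) = true) :=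
  ⟨by decide +kernel⟩

def cMM_17_148 : PLift (fMM 20 0 17 4 6 13 = true) :=
  ⟨by decide +kernel⟩

def cMM_17_149 : PLift (bnd (fMM 20 0 17 4 19 6)
    (fMM 20 1 17 4 0 5) = true) :=
  ⟨by decide +kernel⟩

def cMM_17_150 : PLift (fMM 20 1 17 4 5 13 = true) :=
  ⟨by decide +kernel⟩

def cMM_17_151 : PLift (fMM 20 1 17 4 18 8 = true) :=
  ⟨by decide +kernel⟩

def cMM_21_0 : PLift (fMM 1 0 21 4 0 15 = true) :=
  ⟨by decide +kernel⟩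

def cMM_21_1 : PLift (fMM 1 0 21 4 15 15 = true) :=
  ⟨by decide +kernel⟩

def cMM_21_2 : PLift (fMM 1 0 21 4 30 15 = true) :=
  ⟨by decide +kernel⟩

def cMM_21_3 : PLift (fMM 1 0 21 4 45 15 = true) :=
  ⟨by decide +kernel⟩

def cMM_21_4 : PLift (bnd (fMM 1 0 21 4 60 3)
    (fMM 1 1 21 4 0 9) = true) :=
  ⟨by decide +kernel⟩

def cMM_21_5 : PLift (fMM 1 1 21 4 9 15 = true) :=
  ⟨by decide +kernel⟩

def cMM_21_6 : PLift (fMM 1 1 21 4 24 15 = true) :=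
  ⟨by decide +kernel⟩

def cMM_21_7 : PLift (fMM 1 1 21 4 39 15 = true) :=
  ⟨by decide +kernel⟩

def cMM_21_8 : PLift (fMM 1 1 21 4 54 10 = true) :=
  ⟨by decide +kernel⟩

def cMM_21_9 : PLift (fMM 2 0 21 4 0 15 = true) :=
  ⟨by decide +kernel⟩

def cMM_21_10 : PLift (fMM 2 0 21 4 15 15 = true) :=
  ⟨by decide +kernel⟩

end Pool.Agent.Work.MP_6bf1e5_an.HD
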