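import Pool.Agent.Work.MP_6bf1e5_an.HD.CfMM

/-! Checks of the pass MM, part 35. -/

namespace Pool.Agent.Work.MP_6bf1e5_an.HD

open Pool.Agent.Lib.KLA Pool.Agent.Lib.KBlk

def cMM_21_11 : PLift (fMM 2 0 21 4 30 15 = true) :=
  ⟨by decide +kernel⟩

def cMM_21_12 : PLift (fMM 2 0 21 4 45 15 = true) :=
  ⟨by decide +kernel⟩

def cMM_21_13 : PLift (bnd (fMM 2 0 21 4 60 1)
    (fMM 2 1 21 4 0 11) = true) :=
  ⟨by decide +kernel⟩

def cMM_21_14 : PLift (fMM 2 1 21 4 11 15 = true) :=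
  ⟨by decide +kernel⟩

def cMM_21_15 : PLift (fMM 2 1 21 4 26 15 = true) :=
  ⟨by decide +kernel⟩

def cMM_21_16 : PLift (fMM 2 1 21 4 41 15 = true) :=
  ⟨by decide +kernel⟩

def cMM_21_17 : PLift (bnd (fMM 2 1 21 4 56 6)
    (fMM 3 0 21 4 0 6) = true) :=
  ⟨by decide +kernel⟩

def cMM_21_18 : PLift (fMM 3 0 21 4 6 15 = true) :=
  ⟨by decide +kernel⟩

def cMM_21_19 : PLift (fMM 3 0 21 4 21 15 = true) :=
  ⟨by decide +kernel⟩

def cMM_21_20 : PLift (fMM 3 0 21 4 36 15 = true) :=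
  ⟨by decide +kernel⟩

def cMM_21_21 : PLift (fMM 3 0 21 4 51 8 = true) :=
  ⟨by decide +kernel⟩

def cMM_21_22 : PLift (fMM 3 1 21 4 0 15 = true) :=
  ⟨by decide +kernel⟩

def cMM_21_23 : PLift (fMM 3 1 21 4 15 15 = true) :=
  ⟨by decide +kernel⟩

def cMM_21_24 : PLift (fMM 3 1 21 4 30 15 = true) :=
  ⟨by decide +kernel⟩

def cMM_21_25 : PLift (fMM 3 1 21 4 45 15 = true) :=
  ⟨by decide +kernel⟩

def cMM_21_26 : PLift (fMM 4 0 21 4 0 15 = true) :=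
  ⟨by decide +kernel⟩

end Pool.Agent.Work.MP_6bf1e5_an.HD
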