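import Pool.Agent.Work.MP_6bf1e5_an.HD.CfMM

/-! Checks of the pass MM, part 36. -/

namespace Pool.Agent.Work.MP_6bf1e5_an.HD

open Pool.Agent.Lib.KLA Pool.Agent.Lib.KBlk

def cMM_21_27 : PLift (fMM 4 0 21 4 15 15 = true) :=
  ⟨by decide +kernel⟩

def cMM_21_28 : PLift (fMM 4 0 21 4 30 15 = true) :=
  ⟨by decide +kernel⟩

def cMM_21_29 : PLift (fMM 4 0 21 4 45 12 = true) :=
  ⟨by decide +kernel⟩

def cMM_21_30 : PLift (fMM 4 1 21 4 0 15 = true) :=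
  ⟨by decide +kernel⟩

def cMM_21_31 : PLift (fMM 4 1 21 4 15 15 = true) :=
  ⟨by decide +kernel⟩

def cMM_21_32 : PLift (fMM 4 1 21 4 30 15 = true) :=
  ⟨by decide +kernel⟩

def cMM_21_33 : PLift (fMM 4 1 21 4 45 13 = true) :=
  ⟨by decide +kernel⟩

def cMM_21_34 : PLift (fMM 5 0 21 4 0 16 = true) :=
  ⟨by decide +kernel⟩

def cMM_21_35 : PLift (fMM 5 0 21 4 16 16 = true) :=
  ⟨by decide +kernel⟩

def cMM_21_36 : PLift (fMM 5 0 21 4 32 16 = true) :=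
  ⟨by decide +kernel⟩

def cMM_21_37 : PLift (bnd (fMM 5 0 21 4 48 7)
    (fMM 5 1 21 4 0 6) = true) :=
  ⟨by decide +kernel⟩

def cMM_21_38 : PLift (fMM 5 1 21 4 6 16 = true) :=
  ⟨by decide +kernel⟩

def cMM_21_39 : PLift (fMM 5 1 21 4 22 16 = true) :=
  ⟨by decide +kernel⟩

def cMM_21_40 : PLift (fMM 5 1 21 4 38 16 = true) :=
  ⟨by decide +kernel⟩

def cMM_21_41 : PLift (bnd (fMM 5 1 21 4 54 2)
    (fMM 6 0 21 4 0 11) = true) :=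
  ⟨by decide +kernel⟩

def cMM_21_42 : PLift (fMM 6 0 21 4 11 16 = true) :=
  ⟨by decide +kernel⟩

end Pool.Agent.Work.MP_6bf1e5_an.HD
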