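import Pool.Agent.Work.MP_6bf1e5_an.HD.CfMM

/-! Checks of the pass MM, part 37. -/

namespace Pool.Agent.Work.MP_6bf1e5_an.HD

open Pool.Agent.Lib.KLA Pool.Agent.Lib.KBlk

def cMM_21_43 : PLift (fMM 6 0 21 4 27 16 = true) :=
  ⟨by decide +kernel⟩

def cMM_21_44 : PLift (fMM 6 0 21 4 43 10 = true) :=
  ⟨by decide +kernel⟩

def cMM_21_45 : PLift (fMM 6 1 21 4 0 16 = true) :=
  ⟨by decide +kernel⟩

def cMM_21_46 : PLift (fMM 6 1 21 4 16 16 = true) :=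
  ⟨by decide +kernel⟩

def cMM_21_47 : PLift (fMM 6 1 21 4 32 16 = true) :=
  ⟨by decide +kernel⟩

def cMM_21_48 : PLift (bnd (fMM 6 1 21 4 48 6)
    (fMM 7 0 21 4 0 7) = true) :=
  ⟨by decide +kernel⟩

def cMM_21_49 : PLift (fMM 7 0 21 4 7 16 = true) :=
  ⟨by decide +kernel⟩

def cMM_21_50 : PLift (fMM 7 0 21 4 23 16 = true) :=
  ⟨by decide +kernel⟩

def cMM_21_51 : PLift (fMM 7 0 21 4 39 12 = true) :=
  ⟨by decide +kernel⟩

def cMM_21_52 : PLift (fMM 7 1 21 4 0 16 = true) :=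
  ⟨by decide +kernel⟩

def cMM_21_53 : PLift (fMM 7 1 21 4 16 16 = true) :=
  ⟨by decide +kernel⟩

def cMM_21_54 : PLift (fMM 7 1 21 4 32 16 = true) :=
  ⟨by decide +kernel⟩

def cMM_21_55 : PLift (bnd (fMM 7 1 21 4 48 4)
    (fMM 8 0 21 4 0 9) = true) :=
  ⟨by decide +kernel⟩

def cMM_21_56 : PLift (fMM 8 0 21 4 9 16 = true) :=
  ⟨by decide +kernel⟩

def cMM_21_57 : PLift (fMM 8 0 21 4 25 16 = true) :=
  ⟨by decide +kernel⟩

def cMM_21_58 : PLift (fMM 8 0 21 4 41 8 = true) :=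
  ⟨by decide +kernel⟩

end Pool.Agent.Work.MP_6bf1e5_an.HD
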