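import Pool.Agent.Work.MP_6bf1e5_an.HD.CfMM

/-! Checks of the pass MM, part 38. -/

namespace Pool.Agent.Work.MP_6bf1e5_an.HD

open Pool.Agent.Lib.KLA Pool.Agent.Lib.KBlk

def cMM_21_59 : PLift (fMM 8 1 21 4 0 16 = true) :=
  ⟨by decide +kernel⟩

def cMM_21_60 : PLift (fMM 8 1 21 4 16 16 = true) :=
  ⟨by decide +kernel⟩

def cMM_21_61 : PLift (fMM 8 1 21 4 32 16 = true) :=
  ⟨by decide +kernel⟩

def cMM_21_62 : PLift (bnd (fMM 8 1 21 4 48 2)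
    (fMM 9 0 21 4 0 7) = true) :=
  ⟨by decide +kernel⟩

def cMM_21_63 : PLift (fMM 9 0 21 4 7 16 = true) :=
  ⟨by decide +kernel⟩

def cMM_21_64 : PLift (fMM 9 0 21 4 23 16 = true) :=
  ⟨by decide +kernel⟩

def cMM_21_65 : PLift (fMM 9 0 21 4 39 8 = true) :=
  ⟨by decide +kernel⟩

def cMM_21_66 : PLift (fMM 9 1 21 4 0 16 = true) :=
  ⟨by decide +kernel⟩

def cMM_21_67 : PLift (fMM 9 1 21 4 16 16 = true) :=
  ⟨by decide +kernel⟩

def cMM_21_68 : PLift (fMM 9 1 21 4 32 16 = true) :=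
  ⟨by decide +kernel⟩

def cMM_21_69 : PLift (fMM 10 0 21 4 0 16 = true) :=
  ⟨by decide +kernel⟩

def cMM_21_70 : PLift (fMM 10 0 21 4 16 16 = true) :=
  ⟨by decide +kernel⟩

def cMM_21_71 : PLift (fMM 10 0 21 4 32 13 = true) :=
  ⟨by decide +kernel⟩

def cMM_21_72 : PLift (fMM 10 1 21 4 0 16 = true) :=
  ⟨by decide +kernel⟩

def cMM_21_73 : PLift (fMM 10 1 21 4 16 16 = true) :=
  ⟨by decide +kernel⟩

def cMM_21_74 : PLift (fMM 10 1 21 4 32 14 = true) :=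
  ⟨by decide +kernel⟩

def cMM_21_75 : PLift (fMM 11 0 21 4 0 16 = true) :=
  ⟨by decide +kernel⟩

end Pool.Agent.Work.MP_6bf1e5_an.HD
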