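import Pool.Agent.Work.MP_6bf1e5_an.HD.CfMM

/-! Checks of the pass MM, part 39. -/

namespace Pool.Agent.Work.MP_6bf1e5_an.HD

open Pool.Agent.Lib.KLA Pool.Agent.Lib.KBlk

def cMM_21_76 : PLift (fMM 11 0 21 4 16 16 = true) :=
  ⟨by decide +kernel⟩

def cMM_21_77 : PLift (fMM 11 0 21 4 32 11 = true) :=
  ⟨by decide +kernel⟩

def cMM_21_78 : PLift (fMM 11 1 21 4 0 16 = true) :=
  ⟨by decide +kernel⟩

def cMM_21_79 : PLift (fMM 11 1 21 4 16 16 = true) :=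
  ⟨by decide +kernel⟩

def cMM_21_80 : PLift (fMM 11 1 21 4 32 12 = true) :=
  ⟨by decide +kernel⟩

def cMM_21_81 : PLift (fMM 12 0 21 4 0 16 = true) :=
  ⟨by decide +kernel⟩

def cMM_21_82 : PLift (fMM 12 0 21 4 16 16 = true) :=
  ⟨by decide +kernel⟩

def cMM_21_83 : PLift (fMM 12 0 21 4 32 9 = true) :=
  ⟨by decide +kernel⟩

def cMM_21_84 : PLift (fMM 12 1 21 4 0 16 = true) :=
  ⟨by decide +kernel⟩

def cMM_21_85 : PLift (fMM 12 1 21 4 16 16 = true) :=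
  ⟨by decide +kernel⟩

def cMM_21_86 : PLift (fMM 12 1 21 4 32 10 = true) :=
  ⟨by decide +kernel⟩

def cMM_21_87 : PLift (fMM 13 0 21 4 0 16 = true) :=
  ⟨by decide +kernel⟩

def cMM_21_88 : PLift (fMM 13 0 21 4 16 16 = true) :=
  ⟨by decide +kernel⟩

def cMM_21_89 : PLift (bnd (fMM 13 0 21 4 32 7)
    (fMM 13 1 21 4 0 6) = true) :=
  ⟨by decide +kernel⟩

def cMM_21_90 : PLift (fMM 13 1 21 4 6 16 = true) :=
  ⟨by decide +kernel⟩

def cMM_21_91 : PLift (fMM 13 1 21 4 22 16 = true) :=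
  ⟨by decide +kernel⟩

end Pool.Agent.Work.MP_6bf1e5_an.HD
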