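import Pool.Agent.Work.MP_6bf1e5_an.HD.CfMM

/-! Checks of the pass MM, part 4. -/

namespace Pool.Agent.Work.MP_6bf1e5_an.HD

open Pool.Agent.Lib.KLA Pool.Agent.Lib.KBlk

def cMM_5_13 : PLift (fMM 1 1 5 4 28 7 = true) :=
  ⟨by decide +kernel⟩

def cMM_5_14 : PLift (fMM 1 1 5 4 35 7 = true) :=
  ⟨by decide +kernel⟩

def cMM_5_15 : PLift (fMM 1 1 5 4 42 7 = true) :=
  ⟨by decide +kernel⟩

def cMM_5_16 : PLift (fMM 1 1 5 4 49 7 = true) :=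
  ⟨by decide +kernel⟩

def cMM_5_17 : PLift (fMM 1 1 5 4 56 7 = true) :=
  ⟨by decide +kernel⟩

def cMM_5_18 : PLift (bnd (fMM 1 1 5 4 63 1)
    (fMM 2 0 5 4 0 4) = true) :=
  ⟨by decide +kernel⟩

def cMM_5_19 : PLift (fMM 2 0 5 4 4 7 = true) :=
  ⟨by decide +kernel⟩

def cMM_5_20 : PLift (fMM 2 0 5 4 11 7 = true) :=
  ⟨by decide +kernel⟩

def cMM_5_21 : PLift (fMM 2 0 5 4 18 7 = true) :=
  ⟨by decide +kernel⟩

def cMM_5_22 : PLift (fMM 2 0 5 4 25 7 = true) :=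
  ⟨by decide +kernel⟩

def cMM_5_23 : PLift (fMM 2 0 5 4 32 7 = true) :=
  ⟨by decide +kernel⟩

def cMM_5_24 : PLift (fMM 2 0 5 4 39 7 = true) :=
  ⟨by decide +kernel⟩

def cMM_5_25 : PLift (fMM 2 0 5 4 46 7 = true) :=
  ⟨by decide +kernel⟩

def cMM_5_26 : PLift (fMM 2 0 5 4 53 7 = true) :=
  ⟨by decide +kernel⟩

def cMM_5_27 : PLift (bnd (fMM 2 0 5 4 60 1)
    (fMM 2 1 5 4 0 4) = true) :=
  ⟨by decide +kernel⟩

def cMM_5_28 : PLift (fMM 2 1 5 4 4 7 = true) :=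
  ⟨by decide +kernel⟩

def cMM_5_29 : PLift (fMM 2 1 5 4 11 7 = true) :=
  ⟨by decide +kernel⟩

def cMM_5_30 : PLift (fMM 2 1 5 4 18 7 = true) :=
  ⟨by decide +kernel⟩

def cMM_5_31 : PLift (fMM 2 1 5 4 25 7 = true) :=
  ⟨by decide +kernel⟩

def cMM_5_32 : PLift (fMM 2 1 5 4 32 7 = true) :=
  ⟨by decide +kernel⟩

def cMM_5_33 : PLift (fMM 2 1 5 4 39 7 = true) :=
  ⟨by decide +kernel⟩

end Pool.Agent.Work.MP_6bf1e5_an.HD
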