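import Pool.Agent.Work.MP_6bf1e5_an.HD.CfMM

/-! Checks of the pass MM, part 40. -/

namespace Pool.Agent.Work.MP_6bf1e5_an.HD

open Pool.Agent.Lib.KLA Pool.Agent.Lib.KBlk

def cMM_21_92 : PLift (bnd (fMM 13 1 21 4 38 2)
    (fMM 14 0 21 4 0 11) = true) :=
  ⟨by decide +kernel⟩

def cMM_21_93 : PLift (fMM 14 0 21 4 11 16 = true) :=
  ⟨by decide +kernel⟩

def cMM_21_94 : PLift (fMM 14 0 21 4 27 10 = true) :=
  ⟨by decide +kernel⟩

def cMM_21_95 : PLift (fMM 14 1 21 4 0 16 = true) :=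
  ⟨by decide +kernel⟩

def cMM_21_96 : PLift (fMM 14 1 21 4 16 16 = true) :=
  ⟨by decide +kernel⟩

def cMM_21_97 : PLift (bnd (fMM 14 1 21 4 32 6)
    (fMM 15 0 21 4 0 7) = true) :=
  ⟨by decide +kernel⟩

def cMM_21_98 : PLift (fMM 15 0 21 4 7 16 = true) :=
  ⟨by decide +kernel⟩

def cMM_21_99 : PLift (fMM 15 0 21 4 23 12 = true) :=
  ⟨by decide +kernel⟩

def cMM_21_100 : PLift (fMM 15 1 21 4 0 16 = true) :=
  ⟨by decide +kernel⟩

def cMM_21_101 : PLift (fMM 15 1 21 4 16 16 = true) :=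
  ⟨by decide +kernel⟩

def cMM_21_102 : PLift (bnd (fMM 15 1 21 4 32 4)
    (fMM 16 0 21 4 0 10) = true) :=
  ⟨by decide +kernel⟩

def cMM_21_103 : PLift (fMM 16 0 21 4 10 16 = true) :=
  ⟨by decide +kernel⟩

def cMM_21_104 : PLift (bnd (fMM 16 0 21 4 26 7)
    (fMM 16 1 21 4 0 7) = true) :=
  ⟨by decide +kernel⟩

def cMM_21_105 : PLift (fMM 16 1 21 4 7 16 = true) :=
  ⟨by decide +kernel⟩

def cMM_21_106 : PLift (fMM 16 1 21 4 23 11 = true) :=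
  ⟨by decide +kernel⟩

def cMM_21_107 : PLift (fMM 17 0 21 4 0 17 = true) :=
  ⟨by decide +kernel⟩

def cMM_21_108 : PLift (fMM 17 0 21 4 17 14 = true) :=
  ⟨by decide +kernel⟩

end Pool.Agent.Work.MP_6bf1e5_an.HD
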