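import Pool.Agent.Work.MP_6bf1e5_an.HD.CfMM

/-! Checks of the pass MM, part 41. -/

namespace Pool.Agent.Work.MP_6bf1e5_an.HD

open Pool.Agent.Lib.KLA Pool.Agent.Lib.KBlk

def cMM_21_109 : PLift (fMM 17 1 21 4 0 17 = true) :=
  ⟨by decide +kernel⟩

def cMM_21_110 : PLift (fMM 17 1 21 4 17 15 = true) :=
  ⟨by decide +kernel⟩

def cMM_21_111 : PLift (fMM 18 0 21 4 0 17 = true) :=
  ⟨by decide +kernel⟩

def cMM_21_112 : PLift (fMM 18 0 21 4 17 12 = true) :=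
  ⟨by decide +kernel⟩

def cMM_21_113 : PLift (fMM 18 1 21 4 0 17 = true) :=
  ⟨by decide +kernel⟩

def cMM_21_114 : PLift (fMM 18 1 21 4 17 13 = true) :=
  ⟨by decide +kernel⟩

def cMM_21_115 : PLift (fMM 19 0 21 4 0 17 = true) :=
  ⟨by decide +kernel⟩

def cMM_21_116 : PLift (fMM 19 0 21 4 17 10 = true) :=
  ⟨by decide +kernel⟩

def cMM_21_117 : PLift (fMM 19 1 21 4 0 17 = true) :=
  ⟨by decide +kernel⟩

def cMM_21_118 : PLift (fMM 19 1 21 4 17 11 = true) :=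
  ⟨by decide +kernel⟩

def cMM_21_119 : PLift (fMM 20 0 21 4 0 17 = true) :=
  ⟨by decide +kernel⟩

def cMM_21_120 : PLift (bnd (fMM 20 0 21 4 17 8)
    (fMM 20 1 21 4 0 6) = true) :=
  ⟨by decide +kernel⟩

def cMM_21_121 : PLift (fMM 20 1 21 4 6 17 = true) :=
  ⟨by decide +kernel⟩

def cMM_21_122 : PLift (bnd (fMM 20 1 21 4 23 3)
    (fMM 21 0 21 4 0 10) = true) :=
  ⟨by decide +kernel⟩

def cMM_21_123 : PLift (fMM 21 0 21 4 10 13 = true) :=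
  ⟨by decide +kernel⟩

def cMM_21_124 : PLift (fMM 21 1 21 4 0 17 = true) :=
  ⟨by decide +kernel⟩

def cMM_21_125 : PLift (bnd (fMM 21 1 21 4 17 7)
    (fMM 22 0 21 4 0 8) = true) :=
  ⟨by decide +kernel⟩

end Pool.Agent.Work.MP_6bf1e5_an.HD
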