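import Pool.Agent.Work.MP_6bf1e5_an.HD.CfMM

/-! Checks of the pass MM, part 42. -/

namespace Pool.Agent.Work.MP_6bf1e5_an.HD

open Pool.Agent.Lib.KLA Pool.Agent.Lib.KBlk

def cMM_21_126 : PLift (fMM 22 0 21 4 8 13 = true) :=
  ⟨by decide +kernel⟩

def cMM_21_127 : PLift (fMM 22 1 21 4 0 17 = true) :=
  ⟨by decide +kernel⟩

def cMM_21_128 : PLift (bnd (fMM 22 1 21 4 17 5)
    (fMM 23 0 21 4 0 10) = true) :=
  ⟨by decide +kernel⟩

def cMM_21_129 : PLift (bnd (fMM 23 0 21 4 10 9)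
    (fMM 23 1 21 4 0 6) = true) :=
  ⟨by decide +kernel⟩

def cMM_21_130 : PLift (fMM 23 1 21 4 6 14 = true) :=
  ⟨by decide +kernel⟩

def cMM_21_131 : PLift (fMM 24 0 21 4 0 17 = true) :=
  ⟨by decide +kernel⟩

def cMM_21_132 : PLift (fMM 24 1 21 4 0 17 = true) :=
  ⟨by decide +kernel⟩

def cMM_21_133 : PLift (fMM 24 1 21 4 17 1 = true) :=
  ⟨by decide +kernel⟩

def cMM_25_0 : PLift (fMM 1 0 25 4 0 22 = true) :=
  ⟨by decide +kernel⟩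

def cMM_25_1 : PLift (fMM 1 0 25 4 22 22 = true) :=
  ⟨by decide +kernel⟩

def cMM_25_2 : PLift (fMM 1 0 25 4 44 19 = true) :=
  ⟨by decide +kernel⟩

def cMM_25_3 : PLift (fMM 1 1 25 4 0 22 = true) :=
  ⟨by decide +kernel⟩

def cMM_25_4 : PLift (fMM 1 1 25 4 22 22 = true) :=
  ⟨by decide +kernel⟩

def cMM_25_5 : PLift (fMM 1 1 25 4 44 20 = true) :=
  ⟨by decide +kernel⟩

def cMM_25_6 : PLift (fMM 2 0 25 4 0 22 = true) :=
  ⟨by decide +kernel⟩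

def cMM_25_7 : PLift (fMM 2 0 25 4 22 22 = true) :=
  ⟨by decide +kernel⟩

end Pool.Agent.Work.MP_6bf1e5_an.HD
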