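import Pool.Agent.Work.MP_6bf1e5_an.HD.CfMM

/-! Checks of the pass MM, part 43. -/

namespace Pool.Agent.Work.MP_6bf1e5_an.HD

open Pool.Agent.Lib.KLA Pool.Agent.Lib.KBlk

def cMM_25_8 : PLift (fMM 2 0 25 4 44 17 = true) :=
  ⟨by decide +kernel⟩

def cMM_25_9 : PLift (fMM 2 1 25 4 0 22 = true) :=
  ⟨by decide +kernel⟩

def cMM_25_10 : PLift (fMM 2 1 25 4 22 22 = true) :=
  ⟨by decide +kernel⟩

def cMM_25_11 : PLift (fMM 2 1 25 4 44 18 = true) :=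
  ⟨by decide +kernel⟩

def cMM_25_12 : PLift (fMM 3 0 25 4 0 22 = true) :=
  ⟨by decide +kernel⟩

def cMM_25_13 : PLift (fMM 3 0 25 4 22 22 = true) :=
  ⟨by decide +kernel⟩

def cMM_25_14 : PLift (fMM 3 0 25 4 44 15 = true) :=
  ⟨by decide +kernel⟩

def cMM_25_15 : PLift (fMM 3 1 25 4 0 22 = true) :=
  ⟨by decide +kernel⟩

def cMM_25_16 : PLift (fMM 3 1 25 4 22 22 = true) :=
  ⟨by decide +kernel⟩

def cMM_25_17 : PLift (fMM 3 1 25 4 44 16 = true) :=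
  ⟨by decide +kernel⟩

def cMM_25_18 : PLift (fMM 4 0 25 4 0 22 = true) :=
  ⟨by decide +kernel⟩

def cMM_25_19 : PLift (fMM 4 0 25 4 22 22 = true) :=
  ⟨by decide +kernel⟩

def cMM_25_20 : PLift (fMM 4 0 25 4 44 13 = true) :=
  ⟨by decide +kernel⟩

def cMM_25_21 : PLift (fMM 4 1 25 4 0 22 = true) :=
  ⟨by decide +kernel⟩

end Pool.Agent.Work.MP_6bf1e5_an.HD
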