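import Pool.Agent.Work.MP_6bf1e5_an.HD.CfMM

/-! Checks of the pass MM, part 44. -/

namespace Pool.Agent.Work.MP_6bf1e5_an.HD

open Pool.Agent.Lib.KLA Pool.Agent.Lib.KBlk

def cMM_25_22 : PLift (fMM 4 1 25 4 22 22 = true) :=
  ⟨by decide +kernel⟩

def cMM_25_23 : PLift (fMM 4 1 25 4 44 14 = true) :=
  ⟨by decide +kernel⟩

def cMM_25_24 : PLift (fMM 5 0 25 4 0 22 = true) :=
  ⟨by decide +kernel⟩

def cMM_25_25 : PLift (fMM 5 0 25 4 22 22 = true) :=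
  ⟨by decide +kernel⟩

def cMM_25_26 : PLift (fMM 5 0 25 4 44 11 = true) :=
  ⟨by decide +kernel⟩

def cMM_25_27 : PLift (fMM 5 1 25 4 0 22 = true) :=
  ⟨by decide +kernel⟩

def cMM_25_28 : PLift (fMM 5 1 25 4 22 22 = true) :=
  ⟨by decide +kernel⟩

def cMM_25_29 : PLift (fMM 5 1 25 4 44 12 = true) :=
  ⟨by decide +kernel⟩

def cMM_25_30 : PLift (fMM 6 0 25 4 0 22 = true) :=
  ⟨by decide +kernel⟩

def cMM_25_31 : PLift (fMM 6 0 25 4 22 22 = true) :=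
  ⟨by decide +kernel⟩

def cMM_25_32 : PLift (fMM 6 0 25 4 44 9 = true) :=
  ⟨by decide +kernel⟩

def cMM_25_33 : PLift (fMM 6 1 25 4 0 21 = true) :=
  ⟨by decide +kernel⟩

def cMM_25_34 : PLift (fMM 6 1 25 4 21 21 = true) :=
  ⟨by decide +kernel⟩

def cMM_25_35 : PLift (fMM 6 1 25 4 42 12 = true) :=
  ⟨by decide +kernel⟩

def cMM_25_36 : PLift (fMM 7 0 25 4 0 21 = true) :=
  ⟨by decide +kernel⟩

end Pool.Agent.Work.MP_6bf1e5_an.HD
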