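import Pool.Agent.Work.MP_6bf1e5_an.HD.CfMM

/-! Checks of the pass MM, part 45. -/

namespace Pool.Agent.Work.MP_6bf1e5_an.HD

open Pool.Agent.Lib.KLA Pool.Agent.Lib.KBlk

def cMM_25_37 : PLift (fMM 7 0 25 4 21 21 = true) :=
  ⟨by decide +kernel⟩

def cMM_25_38 : PLift (fMM 7 0 25 4 42 9 = true) :=
  ⟨by decide +kernel⟩

def cMM_25_39 : PLift (fMM 7 1 25 4 0 21 = true) :=
  ⟨by decide +kernel⟩

def cMM_25_40 : PLift (fMM 7 1 25 4 21 21 = true) :=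
  ⟨by decide +kernel⟩

def cMM_25_41 : PLift (fMM 7 1 25 4 42 10 = true) :=
  ⟨by decide +kernel⟩

def cMM_25_42 : PLift (fMM 8 0 25 4 0 21 = true) :=
  ⟨by decide +kernel⟩

def cMM_25_43 : PLift (fMM 8 0 25 4 21 21 = true) :=
  ⟨by decide +kernel⟩

def cMM_25_44 : PLift (fMM 8 0 25 4 42 7 = true) :=
  ⟨by decide +kernel⟩

def cMM_25_45 : PLift (fMM 8 1 25 4 0 21 = true) :=
  ⟨by decide +kernel⟩

def cMM_25_46 : PLift (fMM 8 1 25 4 21 21 = true) :=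
  ⟨by decide +kernel⟩

def cMM_25_47 : PLift (fMM 8 1 25 4 42 8 = true) :=
  ⟨by decide +kernel⟩

def cMM_25_48 : PLift (fMM 9 0 25 4 0 22 = true) :=
  ⟨by decide +kernel⟩

def cMM_25_49 : PLift (fMM 9 0 25 4 22 22 = true) :=
  ⟨by decide +kernel⟩

def cMM_25_50 : PLift (bnd (fMM 9 0 25 4 44 3)
    (fMM 9 1 25 4 0 15) = true) :=
  ⟨by decide +kernel⟩

def cMM_25_51 : PLift (fMM 9 1 25 4 15 22 = true) :=
  ⟨by decide +kernel⟩

end Pool.Agent.Work.MP_6bf1e5_an.HD
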