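import Pool.Agent.Work.MP_6bf1e5_an.HD.CfMM

/-! Checks of the pass MM, part 46. -/

namespace Pool.Agent.Work.MP_6bf1e5_an.HD

open Pool.Agent.Lib.KLA Pool.Agent.Lib.KBlk

def cMM_25_52 : PLift (fMM 9 1 25 4 37 11 = true) :=
  ⟨by decide +kernel⟩

def cMM_25_53 : PLift (fMM 10 0 25 4 0 22 = true) :=
  ⟨by decide +kernel⟩

def cMM_25_54 : PLift (fMM 10 0 25 4 22 22 = true) :=
  ⟨by decide +kernel⟩

def cMM_25_55 : PLift (bnd (fMM 10 0 25 4 44 1)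
    (fMM 10 1 25 4 0 17) = true) :=
  ⟨by decide +kernel⟩

def cMM_25_56 : PLift (fMM 10 1 25 4 17 22 = true) :=
  ⟨by decide +kernel⟩

def cMM_25_57 : PLift (fMM 10 1 25 4 39 7 = true) :=
  ⟨by decide +kernel⟩

def cMM_25_58 : PLift (fMM 11 0 25 4 0 22 = true) :=
  ⟨by decide +kernel⟩

def cMM_25_59 : PLift (fMM 11 0 25 4 22 21 = true) :=
  ⟨by decide +kernel⟩

def cMM_25_60 : PLift (fMM 11 1 25 4 0 22 = true) :=
  ⟨by decide +kernel⟩

def cMM_25_61 : PLift (fMM 11 1 25 4 22 22 = true) :=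
  ⟨by decide +kernel⟩

def cMM_25_62 : PLift (fMM 12 0 25 4 0 22 = true) :=
  ⟨by decide +kernel⟩

def cMM_25_63 : PLift (fMM 12 0 25 4 22 19 = true) :=
  ⟨by decide +kernel⟩

def cMM_25_64 : PLift (fMM 12 1 25 4 0 22 = true) :=
  ⟨by decide +kernel⟩

def cMM_25_65 : PLift (fMM 12 1 25 4 22 20 = true) :=
  ⟨by decide +kernel⟩

def cMM_25_66 : PLift (fMM 13 0 25 4 0 22 = true) :=
  ⟨by decide +kernel⟩

end Pool.Agent.Work.MP_6bf1e5_an.HD
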