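import Pool.Agent.Work.MP_6bf1e5_an.HD.CfMM

/-! Checks of the pass MM, part 47. -/

namespace Pool.Agent.Work.MP_6bf1e5_an.HD

open Pool.Agent.Lib.KLA Pool.Agent.Lib.KBlk

def cMM_25_67 : PLift (fMM 13 0 25 4 22 17 = true) :=
  ⟨by decide +kernel⟩

def cMM_25_68 : PLift (fMM 13 1 25 4 0 22 = true) :=
  ⟨by decide +kernel⟩

def cMM_25_69 : PLift (fMM 13 1 25 4 22 18 = true) :=
  ⟨by decide +kernel⟩

def cMM_25_70 : PLift (fMM 14 0 25 4 0 22 = true) :=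
  ⟨by decide +kernel⟩

def cMM_25_71 : PLift (fMM 14 0 25 4 22 15 = true) :=
  ⟨by decide +kernel⟩

def cMM_25_72 : PLift (fMM 14 1 25 4 0 22 = true) :=
  ⟨by decide +kernel⟩

def cMM_25_73 : PLift (fMM 14 1 25 4 22 16 = true) :=
  ⟨by decide +kernel⟩

def cMM_25_74 : PLift (fMM 15 0 25 4 0 22 = true) :=
  ⟨by decide +kernel⟩

def cMM_25_75 : PLift (fMM 15 0 25 4 22 13 = true) :=
  ⟨by decide +kernel⟩

def cMM_25_76 : PLift (fMM 15 1 25 4 0 22 = true) :=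
  ⟨by decide +kernel⟩

def cMM_25_77 : PLift (fMM 15 1 25 4 22 14 = true) :=
  ⟨by decide +kernel⟩

def cMM_25_78 : PLift (fMM 16 0 25 4 0 22 = true) :=
  ⟨by decide +kernel⟩

def cMM_25_79 : PLift (fMM 16 0 25 4 22 11 = true) :=
  ⟨by decide +kernel⟩

def cMM_25_80 : PLift (fMM 16 1 25 4 0 22 = true) :=
  ⟨by decide +kernel⟩

def cMM_25_81 : PLift (fMM 16 1 25 4 22 12 = true) :=
  ⟨by decide +kernel⟩

end Pool.Agent.Work.MP_6bf1e5_an.HD
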