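import Pool.Agent.Work.MP_6bf1e5_an.HD.CfMM

/-! Checks of the pass MM, part 48. -/

namespace Pool.Agent.Work.MP_6bf1e5_an.HD

open Pool.Agent.Lib.KLA Pool.Agent.Lib.KBlk

def cMM_25_82 : PLift (fMM 17 0 25 4 0 23 = true) :=
  ⟨by decide +kernel⟩

def cMM_25_83 : PLift (bnd (fMM 17 0 25 4 23 8)
    (fMM 17 1 25 4 0 12) = true) :=
  ⟨by decide +kernel⟩

def cMM_25_84 : PLift (fMM 17 1 25 4 12 20 = true) :=
  ⟨by decide +kernel⟩

def cMM_25_85 : PLift (fMM 18 0 25 4 0 23 = true) :=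
  ⟨by decide +kernel⟩

def cMM_25_86 : PLift (bnd (fMM 18 0 25 4 23 6)
    (fMM 18 1 25 4 0 14) = true) :=
  ⟨by decide +kernel⟩

def cMM_25_87 : PLift (fMM 18 1 25 4 14 16 = true) :=
  ⟨by decide +kernel⟩

def cMM_25_88 : PLift (fMM 19 0 25 4 0 23 = true) :=
  ⟨by decide +kernel⟩

def cMM_25_89 : PLift (bnd (fMM 19 0 25 4 23 4)
    (fMM 19 1 25 4 0 16) = true) :=
  ⟨by decide +kernel⟩

def cMM_25_90 : PLift (fMM 19 1 25 4 16 12 = true) :=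
  ⟨by decide +kernel⟩

def cMM_25_91 : PLift (fMM 20 0 25 4 0 23 = true) :=
  ⟨by decide +kernel⟩

def cMM_25_92 : PLift (bnd (fMM 20 0 25 4 23 2)
    (fMM 20 1 25 4 0 17) = true) :=
  ⟨by decide +kernel⟩

def cMM_25_93 : PLift (fMM 20 1 25 4 17 9 = true) :=
  ⟨by decide +kernel⟩

def cMM_25_94 : PLift (fMM 21 0 25 4 0 23 = true) :=
  ⟨by decide +kernel⟩

def cMM_25_95 : PLift (fMM 21 1 25 4 0 23 = true) :=
  ⟨by decide +kernel⟩

def cMM_25_96 : PLift (bnd (fMM 21 1 25 4 23 1)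
    (fMM 22 0 25 4 0 19) = true) :=
  ⟨by decide +kernel⟩

end Pool.Agent.Work.MP_6bf1e5_an.HD
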