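import Pool.Agent.Work.MP_6bf1e5_an.HD.CfMM

/-! Checks of the pass MM, part 49. -/

namespace Pool.Agent.Work.MP_6bf1e5_an.HD

open Pool.Agent.Lib.KLA Pool.Agent.Lib.KBlk

def cMM_25_97 : PLift (bnd (fMM 22 0 25 4 19 2)
    (fMM 22 1 25 4 0 18) = true) :=
  ⟨by decide +kernel⟩

def cMM_25_98 : PLift (bnd (fMM 22 1 25 4 18 4)
    (fMM 23 0 25 4 0 16) = true) :=
  ⟨by decide +kernel⟩

def cMM_25_99 : PLift (bnd (fMM 23 0 25 4 16 3)
    (fMM 23 1 25 4 0 17) = true) :=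
  ⟨by decide +kernel⟩

def cMM_25_100 : PLift (bnd (fMM 23 1 25 4 17 3)
    (fMM 24 0 25 4 0 17) = true) :=
  ⟨by decide +kernel⟩

def cMM_25_101 : PLift (fMM 24 1 25 4 0 18 = true) :=
  ⟨by decide +kernel⟩

def cMM_25_102 : PLift (fMM 25 0 25 4 0 15 = true) :=
  ⟨by decide +kernel⟩

def cMM_25_103 : PLift (fMM 25 1 25 4 0 16 = true) :=
  ⟨by decide +kernel⟩

def cMM_25_104 : PLift (fMM 26 0 25 4 0 13 = true) :=
  ⟨by decide +kernel⟩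

def cMM_25_105 : PLift (fMM 26 1 25 4 0 14 = true) :=
  ⟨by decide +kernel⟩

def cMM_25_106 : PLift (fMM 27 0 25 4 0 11 = true) :=
  ⟨by decide +kernel⟩

def cMM_25_107 : PLift (bnd (fMM 27 1 25 4 0 12)
    (fMM 28 0 25 4 0 9) = true) :=
  ⟨by decide +kernel⟩

def cMM_25_108 : PLift (fMM 28 1 25 4 0 10 = true) :=
  ⟨by decide +kernel⟩

def cMM_29_0 : PLift (fMM 1 0 29 4 0 36 = true) :=
  ⟨by decide +kernel⟩

def cMM_29_1 : PLift (fMM 1 0 29 4 36 27 = true) :=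
  ⟨by decide +kernel⟩

def cMM_29_2 : PLift (fMM 1 1 29 4 0 36 = true) :=
  ⟨by decide +kernel⟩

end Pool.Agent.Work.MP_6bf1e5_an.HD
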