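import Pool.Agent.Work.MP_6bf1e5_an.HD.CfMM

/-! Checks of the pass MM, part 5. -/

namespace Pool.Agent.Work.MP_6bf1e5_an.HD

open Pool.Agent.Lib.KLA Pool.Agent.Lib.KBlk

def cMM_5_34 : PLift (fMM 2 1 5 4 46 7 = true) :=
  ⟨by decide +kernel⟩

def cMM_5_35 : PLift (fMM 2 1 5 4 53 7 = true) :=
  ⟨by decide +kernel⟩

def cMM_5_36 : PLift (bnd (fMM 2 1 5 4 60 2)
    (fMM 3 0 5 4 0 3) = true) :=
  ⟨by decide +kernel⟩

def cMM_5_37 : PLift (fMM 3 0 5 4 3 7 = true) :=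
  ⟨by decide +kernel⟩

def cMM_5_38 : PLift (fMM 3 0 5 4 10 7 = true) :=
  ⟨by decide +kernel⟩

def cMM_5_39 : PLift (fMM 3 0 5 4 17 7 = true) :=
  ⟨by decide +kernel⟩

def cMM_5_40 : PLift (fMM 3 0 5 4 24 7 = true) :=
  ⟨by decide +kernel⟩

def cMM_5_41 : PLift (fMM 3 0 5 4 31 7 = true) :=
  ⟨by decide +kernel⟩

def cMM_5_42 : PLift (fMM 3 0 5 4 38 7 = true) :=
  ⟨by decide +kernel⟩

def cMM_5_43 : PLift (fMM 3 0 5 4 45 7 = true) :=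
  ⟨by decide +kernel⟩

def cMM_5_44 : PLift (fMM 3 0 5 4 52 7 = true) :=
  ⟨by decide +kernel⟩

def cMM_5_45 : PLift (fMM 3 1 5 4 0 7 = true) :=
  ⟨by decide +kernel⟩

def cMM_5_46 : PLift (fMM 3 1 5 4 7 7 = true) :=
  ⟨by decide +kernel⟩

def cMM_5_47 : PLift (fMM 3 1 5 4 14 7 = true) :=
  ⟨by decide +kernel⟩

def cMM_5_48 : PLift (fMM 3 1 5 4 21 7 = true) :=
  ⟨by decide +kernel⟩

def cMM_5_49 : PLift (fMM 3 1 5 4 28 7 = true) :=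
  ⟨by decide +kernel⟩

def cMM_5_50 : PLift (fMM 3 1 5 4 35 7 = true) :=
  ⟨by decide +kernel⟩

def cMM_5_51 : PLift (fMM 3 1 5 4 42 7 = true) :=
  ⟨by decide +kernel⟩

def cMM_5_52 : PLift (fMM 3 1 5 4 49 7 = true) :=
  ⟨by decide +kernel⟩

def cMM_5_53 : PLift (fMM 3 1 5 4 56 4 = true) :=
  ⟨by decide +kernel⟩

def cMM_5_54 : PLift (fMM 4 0 5 4 0 7 = true) :=
  ⟨by decide +kernel⟩

end Pool.Agent.Work.MP_6bf1e5_an.HD
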