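import Pool.Agent.Work.MP_6bf1e5_an.HD.CfMM

/-! Checks of the pass MM, part 50. -/

namespace Pool.Agent.Work.MP_6bf1e5_an.HD

open Pool.Agent.Lib.KLA Pool.Agent.Lib.KBlk

def cMM_29_3 : PLift (fMM 1 1 29 4 36 28 = true) :=
  ⟨by decide +kernel⟩

def cMM_29_4 : PLift (fMM 2 0 29 4 0 36 = true) :=
  ⟨by decide +kernel⟩

def cMM_29_5 : PLift (fMM 2 0 29 4 36 25 = true) :=
  ⟨by decide +kernel⟩

def cMM_29_6 : PLift (fMM 2 1 29 4 0 36 = true) :=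
  ⟨by decide +kernel⟩

def cMM_29_7 : PLift (fMM 2 1 29 4 36 26 = true) :=
  ⟨by decide +kernel⟩

def cMM_29_8 : PLift (fMM 3 0 29 4 0 35 = true) :=
  ⟨by decide +kernel⟩

def cMM_29_9 : PLift (fMM 3 0 29 4 35 24 = true) :=
  ⟨by decide +kernel⟩

def cMM_29_10 : PLift (fMM 3 1 29 4 0 35 = true) :=
  ⟨by decide +kernel⟩

def cMM_29_11 : PLift (fMM 3 1 29 4 35 25 = true) :=
  ⟨by decide +kernel⟩

def cMM_29_12 : PLift (fMM 4 0 29 4 0 35 = true) :=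
  ⟨by decide +kernel⟩

def cMM_29_13 : PLift (fMM 4 0 29 4 35 22 = true) :=
  ⟨by decide +kernel⟩

def cMM_29_14 : PLift (fMM 4 1 29 4 0 35 = true) :=
  ⟨by decide +kernel⟩

end Pool.Agent.Work.MP_6bf1e5_an.HD
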