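import Pool.Agent.Work.MP_6bf1e5_an.HD.CfMM

/-! Checks of the pass MM, part 51. -/

namespace Pool.Agent.Work.MP_6bf1e5_an.HD

open Pool.Agent.Lib.KLA Pool.Agent.Lib.KBlk

def cMM_29_15 : PLift (fMM 4 1 29 4 35 23 = true) :=
  ⟨by decide +kernel⟩

def cMM_29_16 : PLift (fMM 5 0 29 4 0 35 = true) :=
  ⟨by decide +kernel⟩

def cMM_29_17 : PLift (fMM 5 0 29 4 35 20 = true) :=
  ⟨by decide +kernel⟩

def cMM_29_18 : PLift (fMM 5 1 29 4 0 35 = true) :=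
  ⟨by decide +kernel⟩

def cMM_29_19 : PLift (fMM 5 1 29 4 35 21 = true) :=
  ⟨by decide +kernel⟩

def cMM_29_20 : PLift (fMM 6 0 29 4 0 35 = true) :=
  ⟨by decide +kernel⟩

def cMM_29_21 : PLift (fMM 6 0 29 4 35 18 = true) :=
  ⟨by decide +kernel⟩

def cMM_29_22 : PLift (fMM 6 1 29 4 0 35 = true) :=
  ⟨by decide +kernel⟩

def cMM_29_23 : PLift (fMM 6 1 29 4 35 19 = true) :=
  ⟨by decide +kernel⟩

def cMM_29_24 : PLift (fMM 7 0 29 4 0 35 = true) :=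
  ⟨by decide +kernel⟩

def cMM_29_25 : PLift (bnd (fMM 7 0 29 4 35 16)
    (fMM 7 1 29 4 0 12) = true) :=
  ⟨by decide +kernel⟩

def cMM_29_26 : PLift (fMM 7 1 29 4 12 35 = true) :=
  ⟨by decide +kernel⟩

end Pool.Agent.Work.MP_6bf1e5_an.HD
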