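import Pool.Agent.Work.MP_6bf1e5_an.HD.CfMM

/-! Checks of the pass MM, part 52. -/

namespace Pool.Agent.Work.MP_6bf1e5_an.HD

open Pool.Agent.Lib.KLA Pool.Agent.Lib.KBlk

def cMM_29_27 : PLift (bnd (fMM 7 1 29 4 47 5)
    (fMM 8 0 29 4 0 23) = true) :=
  ⟨by decide +kernel⟩

def cMM_29_28 : PLift (fMM 8 0 29 4 23 26 = true) :=
  ⟨by decide +kernel⟩

def cMM_29_29 : PLift (fMM 8 1 29 4 0 35 = true) :=
  ⟨by decide +kernel⟩

def cMM_29_30 : PLift (fMM 8 1 29 4 35 15 = true) :=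
  ⟨by decide +kernel⟩

def cMM_29_31 : PLift (fMM 9 0 29 4 0 35 = true) :=
  ⟨by decide +kernel⟩

def cMM_29_32 : PLift (bnd (fMM 9 0 29 4 35 12)
    (fMM 9 1 29 4 0 16) = true) :=
  ⟨by decide +kernel⟩

def cMM_29_33 : PLift (fMM 9 1 29 4 16 32 = true) :=
  ⟨by decide +kernel⟩

def cMM_29_34 : PLift (fMM 10 0 29 4 0 35 = true) :=
  ⟨by decide +kernel⟩

def cMM_29_35 : PLift (bnd (fMM 10 0 29 4 35 10)
    (fMM 10 1 29 4 0 18) = true) :=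
  ⟨by decide +kernel⟩

def cMM_29_36 : PLift (fMM 10 1 29 4 18 28 = true) :=
  ⟨by decide +kernel⟩

def cMM_29_37 : PLift (fMM 11 0 29 4 0 35 = true) :=
  ⟨by decide +kernel⟩

end Pool.Agent.Work.MP_6bf1e5_an.HD
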