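import Pool.Agent.Work.MP_6bf1e5_an.HD.CfMM

/-! Checks of the pass MM, part 53. -/

namespace Pool.Agent.Work.MP_6bf1e5_an.HD

open Pool.Agent.Lib.KLA Pool.Agent.Lib.KBlk

def cMM_29_38 : PLift (bnd (fMM 11 0 29 4 35 8)
    (fMM 11 1 29 4 0 21) = true) :=
  ⟨by decide +kernel⟩

def cMM_29_39 : PLift (fMM 11 1 29 4 21 23 = true) :=
  ⟨by decide +kernel⟩

def cMM_29_40 : PLift (fMM 12 0 29 4 0 35 = true) :=
  ⟨by decide +kernel⟩

def cMM_29_41 : PLift (bnd (fMM 12 0 29 4 35 6)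
    (fMM 12 1 29 4 0 23) = true) :=
  ⟨by decide +kernel⟩

def cMM_29_42 : PLift (fMM 12 1 29 4 23 19 = true) :=
  ⟨by decide +kernel⟩

def cMM_29_43 : PLift (fMM 13 0 29 4 0 35 = true) :=
  ⟨by decide +kernel⟩

def cMM_29_44 : PLift (bnd (fMM 13 0 29 4 35 4)
    (fMM 13 1 29 4 0 25) = true) :=
  ⟨by decide +kernel⟩

def cMM_29_45 : PLift (bnd (fMM 13 1 29 4 25 15)
    (fMM 14 0 29 4 0 14) = true) :=
  ⟨by decide +kernel⟩

def cMM_29_46 : PLift (fMM 14 0 29 4 14 23 = true) :=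
  ⟨by decide +kernel⟩

def cMM_29_47 : PLift (fMM 14 1 29 4 0 35 = true) :=
  ⟨by decide +kernel⟩

def cMM_29_48 : PLift (bnd (fMM 14 1 29 4 35 3)
    (fMM 15 0 29 4 0 26) = true) :=
  ⟨by decide +kernel⟩

end Pool.Agent.Work.MP_6bf1e5_an.HD
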