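import Pool.Agent.Work.MP_6bf1e5_an.HD.CfMM

/-! Checks of the pass MM, part 54. -/

namespace Pool.Agent.Work.MP_6bf1e5_an.HD

open Pool.Agent.Lib.KLA Pool.Agent.Lib.KBlk

def cMM_29_49 : PLift (bnd (fMM 15 0 29 4 26 9)
    (fMM 15 1 29 4 0 20) = true) :=
  ⟨by decide +kernel⟩

def cMM_29_50 : PLift (bnd (fMM 15 1 29 4 20 16)
    (fMM 16 0 29 4 0 13) = true) :=
  ⟨by decide +kernel⟩

def cMM_29_51 : PLift (fMM 16 0 29 4 13 20 = true) :=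
  ⟨by decide +kernel⟩

def cMM_29_52 : PLift (fMM 16 1 29 4 0 34 = true) :=
  ⟨by decide +kernel⟩

def cMM_29_53 : PLift (fMM 17 0 29 4 0 31 = true) :=
  ⟨by decide +kernel⟩

def cMM_29_54 : PLift (fMM 17 1 29 4 0 32 = true) :=
  ⟨by decide +kernel⟩

def cMM_29_55 : PLift (fMM 18 0 29 4 0 29 = true) :=
  ⟨by decide +kernel⟩

def cMM_29_56 : PLift (fMM 18 1 29 4 0 30 = true) :=
  ⟨by decide +kernel⟩

def cMM_29_57 : PLift (fMM 19 0 29 4 0 27 = true) :=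
  ⟨by decide +kernel⟩

def cMM_29_58 : PLift (fMM 19 1 29 4 0 28 = true) :=
  ⟨by decide +kernel⟩

def cMM_29_59 : PLift (fMM 20 0 29 4 0 25 = true) :=
  ⟨by decide +kernel⟩

def cMM_29_60 : PLift (fMM 20 1 29 4 0 26 = true) :=
  ⟨by decide +kernel⟩

end Pool.Agent.Work.MP_6bf1e5_an.HD
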