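import Pool.Agent.Work.MP_6bf1e5_an.HD.CfMM

/-! Checks of the pass MM, part 55. -/

namespace Pool.Agent.Work.MP_6bf1e5_an.HD

open Pool.Agent.Lib.KLA Pool.Agent.Lib.KBlk

def cMM_29_61 : PLift (fMM 21 0 29 4 0 23 = true) :=
  ⟨by decide +kernel⟩

def cMM_29_62 : PLift (fMM 21 1 29 4 0 24 = true) :=
  ⟨by decide +kernel⟩

def cMM_29_63 : PLift (fMM 22 0 29 4 0 21 = true) :=
  ⟨by decide +kernel⟩

def cMM_29_64 : PLift (fMM 22 1 29 4 0 22 = true) :=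
  ⟨by decide +kernel⟩

def cMM_29_65 : PLift (fMM 23 0 29 4 0 19 = true) :=
  ⟨by decide +kernel⟩

def cMM_29_66 : PLift (fMM 23 1 29 4 0 20 = true) :=
  ⟨by decide +kernel⟩

def cMM_29_67 : PLift (bnd (fMM 24 0 29 4 0 17)
    (fMM 24 1 29 4 0 14) = true) :=
  ⟨by decide +kernel⟩

def cMM_29_68 : PLift (bnd (fMM 24 1 29 4 14 4)
    (fMM 25 0 29 4 0 15) = true) :=
  ⟨by decide +kernel⟩

def cMM_29_69 : PLift (bnd (fMM 25 1 29 4 0 16)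
    (fMM 26 0 29 4 0 13) = true) :=
  ⟨by decide +kernel⟩

def cMM_29_70 : PLift (bnd (fMM 26 1 29 4 0 14)
    (fMM 27 0 29 4 0 11) = true) :=
  ⟨by decide +kernel⟩

def cMM_29_71 : PLift (bnd (fMM 27 1 29 4 0 12)
    (fMM 28 0 29 4 0 9) = true) :=
  ⟨by decide +kernel⟩

def cMM_29_72 : PLift (bnd (fMM 28 1 29 4 0 10)
    (bnd (fMM 29 0 29 4 0 7)
    (fMM 29 1 29 4 0 8)) = true) :=
  ⟨by decide +kernel⟩

def cMM_29_73 : PLift (bnd (fMM 30 0 29 4 0 5)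
    (bnd (fMM 30 1 29 4 0 6)
    (bnd (fMM 31 0 29 4 0 3)
    (bnd (fMM 31 1 29 4 0 4)
    (bnd (fMM 32 0 29 4 0 1)
    (fMM 32 1 29 4 0 2))))) = true) :=
  ⟨by decide +kernel⟩

end Pool.Agent.Work.MP_6bf1e5_an.HD
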