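import Pool.Agent.Work.MP_6bf1e5_an.HD.CfMM

/-! Checks of the pass MM, part 6. -/

namespace Pool.Agent.Work.MP_6bf1e5_an.HD

open Pool.Agent.Lib.KLA Pool.Agent.Lib.KBlk

def cMM_5_55 : PLift (fMM 4 0 5 4 7 7 = true) :=
  ⟨by decide +kernel⟩

def cMM_5_56 : PLift (fMM 4 0 5 4 14 7 = true) :=
  ⟨by decide +kernel⟩

def cMM_5_57 : PLift (fMM 4 0 5 4 21 7 = true) :=
  ⟨by decide +kernel⟩

def cMM_5_58 : PLift (fMM 4 0 5 4 28 7 = true) :=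
  ⟨by decide +kernel⟩

def cMM_5_59 : PLift (fMM 4 0 5 4 35 7 = true) :=
  ⟨by decide +kernel⟩

def cMM_5_60 : PLift (fMM 4 0 5 4 42 7 = true) :=
  ⟨by decide +kernel⟩

def cMM_5_61 : PLift (fMM 4 0 5 4 49 7 = true) :=
  ⟨by decide +kernel⟩

def cMM_5_62 : PLift (bnd (fMM 4 0 5 4 56 1)
    (fMM 4 1 5 4 0 4) = true) :=
  ⟨by decide +kernel⟩

def cMM_5_63 : PLift (fMM 4 1 5 4 4 7 = true) :=
  ⟨by decide +kernel⟩

def cMM_5_64 : PLift (fMM 4 1 5 4 11 7 = true) :=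
  ⟨by decide +kernel⟩

def cMM_5_65 : PLift (fMM 4 1 5 4 18 7 = true) :=
  ⟨by decide +kernel⟩

def cMM_5_66 : PLift (fMM 4 1 5 4 25 7 = true) :=
  ⟨by decide +kernel⟩

def cMM_5_67 : PLift (fMM 4 1 5 4 32 7 = true) :=
  ⟨by decide +kernel⟩

def cMM_5_68 : PLift (fMM 4 1 5 4 39 7 = true) :=
  ⟨by decide +kernel⟩

def cMM_5_69 : PLift (fMM 4 1 5 4 46 7 = true) :=
  ⟨by decide +kernel⟩

def cMM_5_70 : PLift (fMM 4 1 5 4 53 5 = true) :=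
  ⟨by decide +kernel⟩

def cMM_5_71 : PLift (fMM 5 0 5 4 0 7 = true) :=
  ⟨by decide +kernel⟩

def cMM_5_72 : PLift (fMM 5 0 5 4 7 7 = true) :=
  ⟨by decide +kernel⟩

def cMM_5_73 : PLift (fMM 5 0 5 4 14 7 = true) :=
  ⟨by decide +kernel⟩

def cMM_5_74 : PLift (fMM 5 0 5 4 21 7 = true) :=
  ⟨by decide +kernel⟩

def cMM_5_75 : PLift (fMM 5 0 5 4 28 7 = true) :=
  ⟨by decide +kernel⟩

def cMM_5_76 : PLift (fMM 5 0 5 4 35 7 = true) :=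
  ⟨by decide +kernel⟩

end Pool.Agent.Work.MP_6bf1e5_an.HD
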