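import Pool.Agent.Work.MP_6bf1e5_an.HD.CfMM

/-! Checks of the pass MM, part 7. -/

namespace Pool.Agent.Work.MP_6bf1e5_an.HD

open Pool.Agent.Lib.KLA Pool.Agent.Lib.KBlk

def cMM_5_77 : PLift (fMM 5 0 5 4 42 7 = true) :=
  ⟨by decide +kernel⟩

def cMM_5_78 : PLift (fMM 5 0 5 4 49 6 = true) :=
  ⟨by decide +kernel⟩

def cMM_5_79 : PLift (fMM 5 1 5 4 0 7 = true) :=
  ⟨by decide +kernel⟩

def cMM_5_80 : PLift (fMM 5 1 5 4 7 7 = true) :=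
  ⟨by decide +kernel⟩

def cMM_5_81 : PLift (fMM 5 1 5 4 14 7 = true) :=
  ⟨by decide +kernel⟩

def cMM_5_82 : PLift (fMM 5 1 5 4 21 7 = true) :=
  ⟨by decide +kernel⟩

def cMM_5_83 : PLift (fMM 5 1 5 4 28 7 = true) :=
  ⟨by decide +kernel⟩

def cMM_5_84 : PLift (fMM 5 1 5 4 35 7 = true) :=
  ⟨by decide +kernel⟩

def cMM_5_85 : PLift (fMM 5 1 5 4 42 7 = true) :=
  ⟨by decide +kernel⟩

def cMM_5_86 : PLift (fMM 5 1 5 4 49 7 = true) :=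
  ⟨by decide +kernel⟩

def cMM_5_87 : PLift (fMM 6 0 5 4 0 7 = true) :=
  ⟨by decide +kernel⟩

def cMM_5_88 : PLift (fMM 6 0 5 4 7 7 = true) :=
  ⟨by decide +kernel⟩

def cMM_5_89 : PLift (fMM 6 0 5 4 14 7 = true) :=
  ⟨by decide +kernel⟩

def cMM_5_90 : PLift (fMM 6 0 5 4 21 7 = true) :=
  ⟨by decide +kernel⟩

def cMM_5_91 : PLift (fMM 6 0 5 4 28 7 = true) :=
  ⟨by decide +kernel⟩

def cMM_5_92 : PLift (fMM 6 0 5 4 35 7 = true) :=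
  ⟨by decide +kernel⟩

def cMM_5_93 : PLift (fMM 6 0 5 4 42 7 = true) :=
  ⟨by decide +kernel⟩

def cMM_5_94 : PLift (fMM 6 0 5 4 49 4 = true) :=
  ⟨by decide +kernel⟩

def cMM_5_95 : PLift (fMM 6 1 5 4 0 7 = true) :=
  ⟨by decide +kernel⟩

def cMM_5_96 : PLift (fMM 6 1 5 4 7 7 = true) :=
  ⟨by decide +kernel⟩

def cMM_5_97 : PLift (fMM 6 1 5 4 14 7 = true) :=
  ⟨by decide +kernel⟩

def cMM_5_98 : PLift (fMM 6 1 5 4 21 7 = true) :=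
  ⟨by decide +kernel⟩

end Pool.Agent.Work.MP_6bf1e5_an.HD
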