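import Pool.Agent.Work.MP_6bf1e5_an.HD.CfMM

/-! Checks of the pass MM, part 8. -/

namespace Pool.Agent.Work.MP_6bf1e5_an.HD

open Pool.Agent.Lib.KLA Pool.Agent.Lib.KBlk

def cMM_5_99 : PLift (fMM 6 1 5 4 28 7 = true) :=
  ⟨by decide +kernel⟩

def cMM_5_100 : PLift (fMM 6 1 5 4 35 7 = true) :=
  ⟨by decide +kernel⟩

def cMM_5_101 : PLift (fMM 6 1 5 4 42 7 = true) :=
  ⟨by decide +kernel⟩

def cMM_5_102 : PLift (fMM 6 1 5 4 49 5 = true) :=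
  ⟨by decide +kernel⟩

def cMM_5_103 : PLift (fMM 7 0 5 4 0 7 = true) :=
  ⟨by decide +kernel⟩

def cMM_5_104 : PLift (fMM 7 0 5 4 7 7 = true) :=
  ⟨by decide +kernel⟩

def cMM_5_105 : PLift (fMM 7 0 5 4 14 7 = true) :=
  ⟨by decide +kernel⟩

def cMM_5_106 : PLift (fMM 7 0 5 4 21 7 = true) :=
  ⟨by decide +kernel⟩

def cMM_5_107 : PLift (fMM 7 0 5 4 28 7 = true) :=
  ⟨by decide +kernel⟩

def cMM_5_108 : PLift (fMM 7 0 5 4 35 7 = true) :=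
  ⟨by decide +kernel⟩

def cMM_5_109 : PLift (fMM 7 0 5 4 42 7 = true) :=
  ⟨by decide +kernel⟩

def cMM_5_110 : PLift (bnd (fMM 7 0 5 4 49 2)
    (fMM 7 1 5 4 0 4) = true) :=
  ⟨by decide +kernel⟩

def cMM_5_111 : PLift (fMM 7 1 5 4 4 7 = true) :=
  ⟨by decide +kernel⟩

def cMM_5_112 : PLift (fMM 7 1 5 4 11 7 = true) :=
  ⟨by decide +kernel⟩

def cMM_5_113 : PLift (fMM 7 1 5 4 18 7 = true) :=
  ⟨by decide +kernel⟩

def cMM_5_114 : PLift (fMM 7 1 5 4 25 7 = true) :=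
  ⟨by decide +kernel⟩

def cMM_5_115 : PLift (fMM 7 1 5 4 32 7 = true) :=
  ⟨by decide +kernel⟩

def cMM_5_116 : PLift (fMM 7 1 5 4 39 7 = true) :=
  ⟨by decide +kernel⟩

def cMM_5_117 : PLift (fMM 7 1 5 4 46 6 = true) :=
  ⟨by decide +kernel⟩

def cMM_5_118 : PLift (fMM 8 0 5 4 0 7 = true) :=
  ⟨by decide +kernel⟩

def cMM_5_119 : PLift (fMM 8 0 5 4 7 7 = true) :=
  ⟨by decide +kernel⟩

def cMM_5_120 : PLift (fMM 8 0 5 4 14 7 = true) :=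
  ⟨by decide +kernel⟩

end Pool.Agent.Work.MP_6bf1e5_an.HD
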