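import Pool.Agent.Work.MP_6bf1e5_an.HD.CfMM

/-! Checks of the pass MM, part 9. -/

namespace Pool.Agent.Work.MP_6bf1e5_an.HD

open Pool.Agent.Lib.KLA Pool.Agent.Lib.KBlk

def cMM_5_121 : PLift (fMM 8 0 5 4 21 7 = true) :=
  ⟨by decide +kernel⟩

def cMM_5_122 : PLift (fMM 8 0 5 4 28 7 = true) :=
  ⟨by decide +kernel⟩

def cMM_5_123 : PLift (fMM 8 0 5 4 35 7 = true) :=
  ⟨by decide +kernel⟩

def cMM_5_124 : PLift (fMM 8 0 5 4 42 7 = true) :=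
  ⟨by decide +kernel⟩

def cMM_5_125 : PLift (fMM 8 1 5 4 0 7 = true) :=
  ⟨by decide +kernel⟩

def cMM_5_126 : PLift (fMM 8 1 5 4 7 7 = true) :=
  ⟨by decide +kernel⟩

def cMM_5_127 : PLift (fMM 8 1 5 4 14 7 = true) :=
  ⟨by decide +kernel⟩

def cMM_5_128 : PLift (fMM 8 1 5 4 21 7 = true) :=
  ⟨by decide +kernel⟩

def cMM_5_129 : PLift (fMM 8 1 5 4 28 7 = true) :=
  ⟨by decide +kernel⟩

def cMM_5_130 : PLift (fMM 8 1 5 4 35 7 = true) :=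
  ⟨by decide +kernel⟩

def cMM_5_131 : PLift (fMM 8 1 5 4 42 7 = true) :=
  ⟨by decide +kernel⟩

def cMM_5_132 : PLift (fMM 8 1 5 4 49 1 = true) :=
  ⟨by decide +kernel⟩

def cMM_9_0 : PLift (fMM 1 0 9 4 0 8 = true) :=
  ⟨by decide +kernel⟩

def cMM_9_1 : PLift (fMM 1 0 9 4 8 8 = true) :=
  ⟨by decide +kernel⟩

def cMM_9_2 : PLift (fMM 1 0 9 4 16 8 = true) :=
  ⟨by decide +kernel⟩

def cMM_9_3 : PLift (fMM 1 0 9 4 24 8 = true) :=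
  ⟨by decide +kernel⟩

def cMM_9_4 : PLift (fMM 1 0 9 4 32 8 = true) :=
  ⟨by decide +kernel⟩

def cMM_9_5 : PLift (fMM 1 0 9 4 40 8 = true) :=
  ⟨by decide +kernel⟩

def cMM_9_6 : PLift (fMM 1 0 9 4 48 8 = true) :=
  ⟨by decide +kernel⟩

def cMM_9_7 : PLift (fMM 1 0 9 4 56 7 = true) :=
  ⟨by decide +kernel⟩

def cMM_9_8 : PLift (fMM 1 1 9 4 0 8 = true) :=
  ⟨by decide +kernel⟩

end Pool.Agent.Work.MP_6bf1e5_an.HD
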