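import Pool.Agent.Work.MP_6bf1e5_an.HD.CfPP

/-! Checks of the pass PP, part 0. -/

namespace Pool.Agent.Work.MP_6bf1e5_an.HD

open Pool.Agent.Lib.KLA Pool.Agent.Lib.KBlk

def cPP_1_0 : PLift (fPP 1 0 1 4 0 55 = true) :=
  ⟨by decide +kernel⟩

def cPP_1_1 : PLift (fPP 1 1 1 4 0 56 = true) :=
  ⟨by decide +kernel⟩

def cPP_1_2 : PLift (bnd (fPP 1 1 1 4 56 2)
    (fPP 2 0 1 4 0 51) = true) :=
  ⟨by decide +kernel⟩

def cPP_1_3 : PLift (bnd (fPP 2 0 1 4 51 2)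
    (fPP 2 1 1 4 0 51) = true) :=
  ⟨by decide +kernel⟩

def cPP_1_4 : PLift (bnd (fPP 2 1 1 4 51 5)
    (fPP 3 0 1 4 0 48) = true) :=
  ⟨by decide +kernel⟩

def cPP_1_5 : PLift (bnd (fPP 3 0 1 4 48 3)
    (fPP 3 1 1 4 0 50) = true) :=
  ⟨by decide +kernel⟩

def cPP_1_6 : PLift (bnd (fPP 3 1 1 4 50 4)
    (fPP 4 0 1 4 0 49) = true) :=
  ⟨by decide +kernel⟩

def cPP_1_7 : PLift (fPP 4 1 1 4 0 52 = true) :=
  ⟨by decide +kernel⟩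

def cPP_5_0 : PLift (fPP 1 0 5 4 0 55 = true) :=
  ⟨by decide +kernel⟩

def cPP_5_1 : PLift (fPP 1 1 5 4 0 58 = true) :=
  ⟨by decide +kernel⟩

def cPP_5_2 : PLift (fPP 2 0 5 4 0 53 = true) :=
  ⟨by decide +kernel⟩

def cPP_5_3 : PLift (fPP 2 1 5 4 0 56 = true) :=
  ⟨by decide +kernel⟩

def cPP_5_4 : PLift (fPP 3 0 5 4 0 51 = true) :=
  ⟨by decide +kernel⟩

def cPP_5_5 : PLift (fPP 3 1 5 4 0 54 = true) :=
  ⟨by decide +kernel⟩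

def cPP_5_6 : PLift (fPP 4 0 5 4 0 49 = true) :=
  ⟨by decide +kernel⟩

def cPP_5_7 : PLift (fPP 4 1 5 4 0 52 = true) :=
  ⟨by decide +kernel⟩

def cPP_5_8 : PLift (fPP 5 0 5 4 0 47 = true) :=
  ⟨by decide +kernel⟩

def cPP_5_9 : PLift (fPP 5 1 5 4 0 50 = true) :=
  ⟨by decide +kernel⟩

def cPP_5_10 : PLift (fPP 6 0 5 4 0 45 = true) :=
  ⟨by decide +kernel⟩

def cPP_5_11 : PLift (fPP 6 1 5 4 0 48 = true) :=
  ⟨by decide +kernel⟩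

def cPP_5_12 : PLift (fPP 7 0 5 4 0 43 = true) :=
  ⟨by decide +kernel⟩

def cPP_5_13 : PLift (fPP 7 1 5 4 0 46 = true) :=
  ⟨by decide +kernel⟩

end Pool.Agent.Work.MP_6bf1e5_an.HD
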