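import Pool.Agent.Work.MP_6bf1e5_an.HD.CfPP

/-! Checks of the pass PP, part 1. -/

namespace Pool.Agent.Work.MP_6bf1e5_an.HD

open Pool.Agent.Lib.KLA Pool.Agent.Lib.KBlk

def cPP_5_14 : PLift (fPP 8 0 5 4 0 41 = true) :=
  ⟨by decide +kernel⟩

def cPP_5_15 : PLift (fPP 8 1 5 4 0 44 = true) :=
  ⟨by decide +kernel⟩

def cPP_9_0 : PLift (fPP 1 0 9 4 0 55 = true) :=
  ⟨by decide +kernel⟩

def cPP_9_1 : PLift (fPP 1 1 9 4 0 58 = true) :=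
  ⟨by decide +kernel⟩

def cPP_9_2 : PLift (fPP 2 0 9 4 0 53 = true) :=
  ⟨by decide +kernel⟩

def cPP_9_3 : PLift (fPP 2 1 9 4 0 56 = true) :=
  ⟨by decide +kernel⟩

def cPP_9_4 : PLift (fPP 3 0 9 4 0 51 = true) :=
  ⟨by decide +kernel⟩

def cPP_9_5 : PLift (fPP 3 1 9 4 0 54 = true) :=
  ⟨by decide +kernel⟩

def cPP_9_6 : PLift (fPP 4 0 9 4 0 49 = true) :=
  ⟨by decide +kernel⟩

def cPP_9_7 : PLift (fPP 4 1 9 4 0 52 = true) :=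
  ⟨by decide +kernel⟩

def cPP_9_8 : PLift (fPP 5 0 9 4 0 47 = true) :=
  ⟨by decide +kernel⟩

def cPP_9_9 : PLift (fPP 5 1 9 4 0 50 = true) :=
  ⟨by decide +kernel⟩

def cPP_9_10 : PLift (fPP 6 0 9 4 0 45 = true) :=
  ⟨by decide +kernel⟩

def cPP_9_11 : PLift (fPP 6 1 9 4 0 48 = true) :=
  ⟨by decide +kernel⟩

def cPP_9_12 : PLift (fPP 7 0 9 4 0 43 = true) :=
  ⟨by decide +kernel⟩

def cPP_9_13 : PLift (fPP 7 1 9 4 0 46 = true) :=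
  ⟨by decide +kernel⟩

def cPP_9_14 : PLift (bnd (fPP 8 0 9 4 0 41)
    (fPP 8 1 9 4 0 24) = true) :=
  ⟨by decide +kernel⟩

def cPP_9_15 : PLift (bnd (fPP 8 1 9 4 24 20)
    (fPP 9 0 9 4 0 39) = true) :=
  ⟨by decide +kernel⟩

def cPP_9_16 : PLift (fPP 9 1 9 4 0 42 = true) :=
  ⟨by decide +kernel⟩

def cPP_9_17 : PLift (bnd (fPP 10 0 9 4 0 37)
    (fPP 10 1 9 4 0 28) = true) :=
  ⟨by decide +kernel⟩

def cPP_9_18 : PLift (bnd (fPP 10 1 9 4 28 12)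
    (fPP 11 0 9 4 0 35) = true) :=
  ⟨by decide +kernel⟩

def cPP_9_19 : PLift (bnd (fPP 11 1 9 4 0 38)
    (fPP 12 0 9 4 0 27) = true) :=
  ⟨by decide +kernel⟩

def cPP_9_20 : PLift (bnd (fPP 12 0 9 4 27 6)
    (fPP 12 1 9 4 0 36) = true) :=
  ⟨by decide +kernel⟩

def cPP_13_0 : PLift (fPP 1 0 13 4 0 55 = true) :=
  ⟨by decide +kernel⟩

def cPP_13_1 : PLift (fPP 1 1 13 4 0 58 = true) :=
  ⟨by decide +kernel⟩

end Pool.Agent.Work.MP_6bf1e5_an.HD
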