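import Pool.Agent.Work.MP_6bf1e5_an.HD.CfPP

/-! Checks of the pass PP, part 2. -/

namespace Pool.Agent.Work.MP_6bf1e5_an.HD

open Pool.Agent.Lib.KLA Pool.Agent.Lib.KBlk

def cPP_13_2 : PLift (fPP 2 0 13 4 0 53 = true) :=
  ⟨by decide +kernel⟩

def cPP_13_3 : PLift (fPP 2 1 13 4 0 56 = true) :=
  ⟨by decide +kernel⟩

def cPP_13_4 : PLift (fPP 3 0 13 4 0 51 = true) :=
  ⟨by decide +kernel⟩

def cPP_13_5 : PLift (fPP 3 1 13 4 0 54 = true) :=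
  ⟨by decide +kernel⟩

def cPP_13_6 : PLift (bnd (fPP 4 0 13 4 0 49)
    (fPP 4 1 13 4 0 25) = true) :=
  ⟨by decide +kernel⟩

def cPP_13_7 : PLift (bnd (fPP 4 1 13 4 25 27)
    (fPP 5 0 13 4 0 47) = true) :=
  ⟨by decide +kernel⟩

def cPP_13_8 : PLift (bnd (fPP 5 1 13 4 0 50)
    (fPP 6 0 13 4 0 24) = true) :=
  ⟨by decide +kernel⟩

def cPP_13_9 : PLift (bnd (fPP 6 0 13 4 24 21)
    (fPP 6 1 13 4 0 48) = true) :=
  ⟨by decide +kernel⟩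

def cPP_13_10 : PLift (bnd (fPP 7 0 13 4 0 43)
    (fPP 7 1 13 4 0 31) = true) :=
  ⟨by decide +kernel⟩

def cPP_13_11 : PLift (bnd (fPP 7 1 13 4 31 15)
    (fPP 8 0 13 4 0 41) = true) :=
  ⟨by decide +kernel⟩

def cPP_13_12 : PLift (bnd (fPP 8 1 13 4 0 44)
    (fPP 9 0 13 4 0 30) = true) :=
  ⟨by decide +kernel⟩

def cPP_13_13 : PLift (bnd (fPP 9 0 13 4 30 9)
    (fPP 9 1 13 4 0 42) = true) :=
  ⟨by decide +kernel⟩

def cPP_13_14 : PLift (bnd (fPP 10 0 13 4 0 37)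
    (fPP 10 1 13 4 0 38) = true) :=
  ⟨by decide +kernel⟩

def cPP_13_15 : PLift (bnd (fPP 10 1 13 4 38 2)
    (bnd (fPP 11 0 13 4 0 35)
    (fPP 11 1 13 4 0 34)) = true) :=
  ⟨by decide +kernel⟩

def cPP_13_16 : PLift (bnd (fPP 11 1 13 4 34 4)
    (bnd (fPP 12 0 13 4 0 33)
    (fPP 12 1 13 4 0 35)) = true) :=
  ⟨by decide +kernel⟩

def cPP_13_17 : PLift (bnd (fPP 12 1 13 4 35 1)
    (bnd (fPP 13 0 13 4 0 31)
    (fPP 13 1 13 4 0 34)) = true) :=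
  ⟨by decide +kernel⟩

def cPP_13_18 : PLift (bnd (fPP 14 0 13 4 0 29)
    (fPP 14 1 13 4 0 32) = true) :=
  ⟨by decide +kernel⟩

def cPP_13_19 : PLift (bnd (fPP 15 0 13 4 0 27)
    (fPP 15 1 13 4 0 30) = true) :=
  ⟨by decide +kernel⟩

def cPP_13_20 : PLift (bnd (fPP 16 0 13 4 0 25)
    (fPP 16 1 13 4 0 28) = true) :=
  ⟨by decide +kernel⟩

def cPP_17_0 : PLift (bnd (fPP 1 0 17 4 0 55)
    (fPP 1 1 17 4 0 30) = true) :=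
  ⟨by decide +kernel⟩

end Pool.Agent.Work.MP_6bf1e5_an.HD
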