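import Pool.Agent.Work.MP_6bf1e5_an.HD.CfPP

/-! Checks of the pass PP, part 3. -/

namespace Pool.Agent.Work.MP_6bf1e5_an.HD

open Pool.Agent.Lib.KLA Pool.Agent.Lib.KBlk

def cPP_17_1 : PLift (bnd (fPP 1 1 17 4 30 28)
    (fPP 2 0 17 4 0 53) = true) :=
  ⟨by decide +kernel⟩

def cPP_17_2 : PLift (bnd (fPP 2 1 17 4 0 56)
    (fPP 3 0 17 4 0 29) = true) :=
  ⟨by decide +kernel⟩

def cPP_17_3 : PLift (bnd (fPP 3 0 17 4 29 22)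
    (fPP 3 1 17 4 0 54) = true) :=
  ⟨by decide +kernel⟩

def cPP_17_4 : PLift (bnd (fPP 4 0 17 4 0 49)
    (fPP 4 1 17 4 0 37) = true) :=
  ⟨by decide +kernel⟩

def cPP_17_5 : PLift (bnd (fPP 4 1 17 4 37 15)
    (fPP 5 0 17 4 0 47) = true) :=
  ⟨by decide +kernel⟩

def cPP_17_6 : PLift (bnd (fPP 5 1 17 4 0 50)
    (fPP 6 0 17 4 0 36) = true) :=
  ⟨by decide +kernel⟩

def cPP_17_7 : PLift (bnd (fPP 6 0 17 4 36 9)
    (bnd (fPP 6 1 17 4 0 48)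
    (fPP 7 0 17 4 0 25)) = true) :=
  ⟨by decide +kernel⟩

def cPP_17_8 : PLift (bnd (fPP 7 0 17 4 25 18)
    (fPP 7 1 17 4 0 46) = true) :=
  ⟨by decide +kernel⟩

def cPP_17_9 : PLift (bnd (fPP 8 0 17 4 0 41)
    (fPP 8 1 17 4 0 44) = true) :=
  ⟨by decide +kernel⟩

def cPP_17_10 : PLift (bnd (fPP 9 0 17 4 0 39)
    (fPP 9 1 17 4 0 42) = true) :=
  ⟨by decide +kernel⟩

def cPP_17_11 : PLift (bnd (fPP 10 0 17 4 0 37)
    (fPP 10 1 17 4 0 40) = true) :=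
  ⟨by decide +kernel⟩

def cPP_17_12 : PLift (bnd (fPP 11 0 17 4 0 35)
    (fPP 11 1 17 4 0 38) = true) :=
  ⟨by decide +kernel⟩

def cPP_17_13 : PLift (bnd (fPP 12 0 17 4 0 33)
    (fPP 12 1 17 4 0 36) = true) :=
  ⟨by decide +kernel⟩

def cPP_17_14 : PLift (bnd (fPP 13 0 17 4 0 31)
    (fPP 13 1 17 4 0 34) = true) :=
  ⟨by decide +kernel⟩

def cPP_17_15 : PLift (bnd (fPP 14 0 17 4 0 29)
    (fPP 14 1 17 4 0 32) = true) :=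
  ⟨by decide +kernel⟩

def cPP_17_16 : PLift (bnd (fPP 15 0 17 4 0 27)
    (fPP 15 1 17 4 0 30) = true) :=
  ⟨by decide +kernel⟩

def cPP_17_17 : PLift (bnd (fPP 16 0 17 4 0 25)
    (bnd (fPP 16 1 17 4 0 28)
    (fPP 17 0 17 4 0 23)) = true) :=
  ⟨by decide +kernel⟩

def cPP_17_18 : PLift (bnd (fPP 17 1 17 4 0 26)
    (bnd (fPP 18 0 17 4 0 21)
    (fPP 18 1 17 4 0 24)) = true) :=
  ⟨by decide +kernel⟩

def cPP_17_19 : PLift (bnd (fPP 19 0 17 4 0 19)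
    (bnd (fPP 19 1 17 4 0 22)
    (fPP 20 0 17 4 0 17)) = true) :=
  ⟨by decide +kernel⟩

def cPP_17_20 : PLift (fPP 20 1 17 4 0 20 = true) :=
  ⟨by decide +kernel⟩

def cPP_21_0 : PLift (bnd (fPP 1 0 21 4 0 55)
    (fPP 1 1 21 4 0 47) = true) :=
  ⟨by decide +kernel⟩

end Pool.Agent.Work.MP_6bf1e5_an.HD
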