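import Pool.Agent.Work.MP_6bf1e5_an.HD.CfPP

/-! Checks of the pass PP, part 4. -/

namespace Pool.Agent.Work.MP_6bf1e5_an.HD

open Pool.Agent.Lib.KLA Pool.Agent.Lib.KBlk

def cPP_21_1 : PLift (bnd (fPP 1 1 21 4 47 11)
    (bnd (fPP 2 0 21 4 0 53)
    (fPP 2 1 21 4 0 33)) = true) :=
  ⟨by decide +kernel⟩

def cPP_21_2 : PLift (bnd (fPP 2 1 21 4 33 23)
    (bnd (fPP 3 0 21 4 0 51)
    (fPP 3 1 21 4 0 24)) = true) :=
  ⟨by decide +kernel⟩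

def cPP_21_3 : PLift (bnd (fPP 3 1 21 4 24 30)
    (fPP 4 0 21 4 0 49) = true) :=
  ⟨by decide +kernel⟩

def cPP_21_4 : PLift (bnd (fPP 4 1 21 4 0 52)
    (fPP 5 0 21 4 0 47) = true) :=
  ⟨by decide +kernel⟩

def cPP_21_5 : PLift (bnd (fPP 5 1 21 4 0 50)
    (fPP 6 0 21 4 0 45) = true) :=
  ⟨by decide +kernel⟩

def cPP_21_6 : PLift (bnd (fPP 6 1 21 4 0 48)
    (fPP 7 0 21 4 0 43) = true) :=
  ⟨by decide +kernel⟩

def cPP_21_7 : PLift (bnd (fPP 7 1 21 4 0 46)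
    (fPP 8 0 21 4 0 41) = true) :=
  ⟨by decide +kernel⟩

def cPP_21_8 : PLift (bnd (fPP 8 1 21 4 0 44)
    (fPP 9 0 21 4 0 39) = true) :=
  ⟨by decide +kernel⟩

def cPP_21_9 : PLift (bnd (fPP 9 1 21 4 0 42)
    (fPP 10 0 21 4 0 37) = true) :=
  ⟨by decide +kernel⟩

def cPP_21_10 : PLift (bnd (fPP 10 1 21 4 0 40)
    (fPP 11 0 21 4 0 35) = true) :=
  ⟨by decide +kernel⟩

def cPP_21_11 : PLift (bnd (fPP 11 1 21 4 0 38)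
    (bnd (fPP 12 0 21 4 0 33)
    (fPP 12 1 21 4 0 24)) = true) :=
  ⟨by decide +kernel⟩

def cPP_21_12 : PLift (bnd (fPP 12 1 21 4 24 12)
    (bnd (fPP 13 0 21 4 0 31)
    (fPP 13 1 21 4 0 34)) = true) :=
  ⟨by decide +kernel⟩

def cPP_21_13 : PLift (bnd (fPP 14 0 21 4 0 29)
    (bnd (fPP 14 1 21 4 0 32)
    (fPP 15 0 21 4 0 27)) = true) :=
  ⟨by decide +kernel⟩

def cPP_21_14 : PLift (bnd (fPP 15 1 21 4 0 30)
    (bnd (fPP 16 0 21 4 0 25)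
    (fPP 16 1 21 4 0 28)) = true) :=
  ⟨by decide +kernel⟩

def cPP_21_15 : PLift (bnd (fPP 17 0 21 4 0 23)
    (bnd (fPP 17 1 21 4 0 26)
    (fPP 18 0 21 4 0 21)) = true) :=
  ⟨by decide +kernel⟩

def cPP_21_16 : PLift (bnd (fPP 18 1 21 4 0 24)
    (bnd (fPP 19 0 21 4 0 19)
    (bnd (fPP 19 1 21 4 0 22)
    (fPP 20 0 21 4 0 17))) = true) :=
  ⟨by decide +kernel⟩

def cPP_21_17 : PLift (bnd (fPP 20 1 21 4 0 20)
    (bnd (fPP 21 0 21 4 0 15)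
    (bnd (fPP 21 1 21 4 0 18)
    (bnd (fPP 22 0 21 4 0 13)
    (fPP 22 1 21 4 0 16)))) = true) :=
  ⟨by decide +kernel⟩

def cPP_21_18 : PLift (bnd (fPP 23 0 21 4 0 11)
    (bnd (fPP 23 1 21 4 0 14)
    (bnd (fPP 24 0 21 4 0 9)
    (fPP 24 1 21 4 0 12))) = true) :=
  ⟨by decide +kernel⟩

end Pool.Agent.Work.MP_6bf1e5_an.HD
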