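import Pool.Agent.Work.MP_6bf1e5_an.HD.CfPP

/-! Checks of the pass PP, part 5. -/

namespace Pool.Agent.Work.MP_6bf1e5_an.HD

open Pool.Agent.Lib.KLA Pool.Agent.Lib.KBlk

def cPP_25_0 : PLift (bnd (fPP 1 0 25 4 0 55)
    (fPP 1 1 25 4 0 58) = true) :=
  ⟨by decide +kernel⟩

def cPP_25_1 : PLift (bnd (fPP 2 0 25 4 0 53)
    (fPP 2 1 25 4 0 56) = true) :=
  ⟨by decide +kernel⟩

def cPP_25_2 : PLift (bnd (fPP 3 0 25 4 0 51)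
    (bnd (fPP 3 1 25 4 0 54)
    (fPP 4 0 25 4 0 15)) = true) :=
  ⟨by decide +kernel⟩

def cPP_25_3 : PLift (bnd (fPP 4 0 25 4 15 34)
    (bnd (fPP 4 1 25 4 0 52)
    (fPP 5 0 25 4 0 34)) = true) :=
  ⟨by decide +kernel⟩

def cPP_25_4 : PLift (bnd (fPP 5 0 25 4 34 13)
    (bnd (fPP 5 1 25 4 0 50)
    (fPP 6 0 25 4 0 45)) = true) :=
  ⟨by decide +kernel⟩

def cPP_25_5 : PLift (bnd (fPP 6 1 25 4 0 48)
    (bnd (fPP 7 0 25 4 0 43)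
    (fPP 7 1 25 4 0 26)) = true) :=
  ⟨by decide +kernel⟩

def cPP_25_6 : PLift (bnd (fPP 7 1 25 4 26 20)
    (bnd (fPP 8 0 25 4 0 41)
    (fPP 8 1 25 4 0 44)) = true) :=
  ⟨by decide +kernel⟩

def cPP_25_7 : PLift (bnd (fPP 9 0 25 4 0 39)
    (bnd (fPP 9 1 25 4 0 42)
    (fPP 10 0 25 4 0 37)) = true) :=
  ⟨by decide +kernel⟩

def cPP_25_8 : PLift (bnd (fPP 10 1 25 4 0 40)
    (bnd (fPP 11 0 25 4 0 35)
    (fPP 11 1 25 4 0 38)) = true) :=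
  ⟨by decide +kernel⟩

def cPP_25_9 : PLift (bnd (fPP 12 0 25 4 0 33)
    (bnd (fPP 12 1 25 4 0 36)
    (bnd (fPP 13 0 25 4 0 31)
    (fPP 13 1 25 4 0 12))) = true) :=
  ⟨by decide +kernel⟩

def cPP_25_10 : PLift (bnd (fPP 13 1 25 4 12 22)
    (bnd (fPP 14 0 25 4 0 29)
    (bnd (fPP 14 1 25 4 0 32)
    (fPP 15 0 25 4 0 27))) = true) :=
  ⟨by decide +kernel⟩

def cPP_25_11 : PLift (bnd (fPP 15 1 25 4 0 30)
    (bnd (fPP 16 0 25 4 0 25)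
    (bnd (fPP 16 1 25 4 0 28)
    (fPP 17 0 25 4 0 23))) = true) :=
  ⟨by decide +kernel⟩

def cPP_25_12 : PLift (bnd (fPP 17 1 25 4 0 26)
    (bnd (fPP 18 0 25 4 0 21)
    (bnd (fPP 18 1 25 4 0 24)
    (bnd (fPP 19 0 25 4 0 19)
    (fPP 19 1 25 4 0 16)))) = true) :=
  ⟨by decide +kernel⟩

def cPP_25_13 : PLift (bnd (fPP 19 1 25 4 16 6)
    (bnd (fPP 20 0 25 4 0 17)
    (bnd (fPP 20 1 25 4 0 20)
    (bnd (fPP 21 0 25 4 0 15)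
    (bnd (fPP 21 1 25 4 0 18)
    (fPP 22 0 25 4 0 13))))) = true) :=
  ⟨by decide +kernel⟩

def cPP_25_14 : PLift (bnd (fPP 22 1 25 4 0 16)
    (bnd (fPP 23 0 25 4 0 11)
    (bnd (fPP 23 1 25 4 0 14)
    (bnd (fPP 24 0 25 4 0 9)
    (bnd (fPP 24 1 25 4 0 12)
    (bnd (fPP 25 0 25 4 0 7)
    (fPP 25 1 25 4 0 10)))))) = true) :=
  ⟨by decide +kernel⟩

def cPP_25_15 : PLift (bnd (fPP 26 0 25 4 0 5)
    (bnd (fPP 26 1 25 4 0 8)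
    (bnd (fPP 27 0 25 4 0 3)
    (bnd (fPP 27 1 25 4 0 6)
    (bnd (fPP 28 0 25 4 0 1)
    (fPP 28 1 25 4 0 4))))) = true) :=
  ⟨by decide +kernel⟩

end Pool.Agent.Work.MP_6bf1e5_an.HD
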