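import Pool.Agent.Work.MP_6bf1e5_an.HD.CfT0

/-! Checks of the pass T0, part 0. -/

namespace Pool.Agent.Work.MP_6bf1e5_an.HD

open Pool.Agent.Lib.KLA Pool.Agent.Lib.KBlk

def cT0_0_0 : PLift (fT0 1 0 0 2 0 35 = true) :=
  ⟨by decide +kernel⟩

def cT0_0_1 : PLift (fT0 1 0 0 2 35 28 = true) :=
  ⟨by decide +kernel⟩

def cT0_0_2 : PLift (fT0 1 1 0 2 0 35 = true) :=
  ⟨by decide +kernel⟩

def cT0_0_3 : PLift (fT0 1 1 0 2 35 29 = true) :=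
  ⟨by decide +kernel⟩

def cT0_0_4 : PLift (fT0 2 0 0 2 0 35 = true) :=
  ⟨by decide +kernel⟩

def cT0_0_5 : PLift (fT0 2 0 0 2 35 26 = true) :=
  ⟨by decide +kernel⟩

def cT0_0_6 : PLift (fT0 2 1 0 2 0 35 = true) :=
  ⟨by decide +kernel⟩

def cT0_0_7 : PLift (fT0 2 1 0 2 35 27 = true) :=
  ⟨by decide +kernel⟩

def cT0_0_8 : PLift (fT0 3 0 0 2 0 35 = true) :=
  ⟨by decide +kernel⟩

def cT0_0_9 : PLift (bnd (fT0 3 0 0 2 35 24)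
    (fT0 3 1 0 2 0 7) = true) :=
  ⟨by decide +kernel⟩

def cT0_0_10 : PLift (fT0 3 1 0 2 7 35 = true) :=
  ⟨by decide +kernel⟩

def cT0_0_11 : PLift (bnd (fT0 3 1 0 2 42 18)
    (fT0 4 0 0 2 0 13) = true) :=
  ⟨by decide +kernel⟩

def cT0_0_12 : PLift (fT0 4 0 0 2 13 35 = true) :=
  ⟨by decide +kernel⟩

def cT0_0_13 : PLift (bnd (fT0 4 0 0 2 48 9)
    (fT0 4 1 0 2 0 22) = true) :=
  ⟨by decide +kernel⟩

def cT0_0_14 : PLift (fT0 4 1 0 2 22 35 = true) :=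
  ⟨by decide +kernel⟩

def cT0_0_15 : PLift (bnd (fT0 4 1 0 2 57 1)
    (fT0 5 0 0 2 0 31) = true) :=
  ⟨by decide +kernel⟩

def cT0_0_16 : PLift (bnd (fT0 5 0 0 2 31 24)
    (fT0 5 1 0 2 0 8) = true) :=
  ⟨by decide +kernel⟩

def cT0_0_17 : PLift (fT0 5 1 0 2 8 35 = true) :=
  ⟨by decide +kernel⟩

def cT0_0_18 : PLift (bnd (fT0 5 1 0 2 43 13)
    (fT0 6 0 0 2 0 19) = true) :=
  ⟨by decide +kernel⟩

def cT0_0_19 : PLift (fT0 6 0 0 2 19 34 = true) :=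
  ⟨by decide +kernel⟩

def cT0_0_20 : PLift (fT0 6 1 0 2 0 35 = true) :=
  ⟨by decide +kernel⟩

def cT0_0_21 : PLift (bnd (fT0 6 1 0 2 35 19)
    (fT0 7 0 0 2 0 13) = true) :=
  ⟨by decide +kernel⟩

def cT0_0_22 : PLift (fT0 7 0 0 2 13 35 = true) :=
  ⟨by decide +kernel⟩

def cT0_0_23 : PLift (bnd (fT0 7 0 0 2 48 3)
    (fT0 7 1 0 2 0 29) = true) :=
  ⟨by decide +kernel⟩

end Pool.Agent.Work.MP_6bf1e5_an.HD
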