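import Pool.Agent.Work.MP_6bf1e5_an.HD.CfT0

/-! Checks of the pass T0, part 1. -/

namespace Pool.Agent.Work.MP_6bf1e5_an.HD

open Pool.Agent.Lib.KLA Pool.Agent.Lib.KBlk

def cT0_0_24 : PLift (bnd (fT0 7 1 0 2 29 23)
    (fT0 8 0 0 2 0 9) = true) :=
  ⟨by decide +kernel⟩

def cT0_0_25 : PLift (fT0 8 0 0 2 9 35 = true) :=
  ⟨by decide +kernel⟩

def cT0_0_26 : PLift (bnd (fT0 8 0 0 2 44 5)
    (fT0 8 1 0 2 0 27) = true) :=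
  ⟨by decide +kernel⟩

def cT0_0_27 : PLift (bnd (fT0 8 1 0 2 27 23)
    (fT0 9 0 0 2 0 9) = true) :=
  ⟨by decide +kernel⟩

def cT0_0_28 : PLift (fT0 9 0 0 2 9 35 = true) :=
  ⟨by decide +kernel⟩

def cT0_0_29 : PLift (bnd (fT0 9 0 0 2 44 3)
    (fT0 9 1 0 2 0 29) = true) :=
  ⟨by decide +kernel⟩

def cT0_0_30 : PLift (bnd (fT0 9 1 0 2 29 19)
    (fT0 10 0 0 2 0 13) = true) :=
  ⟨by decide +kernel⟩

def cT0_0_31 : PLift (fT0 10 0 0 2 13 32 = true) :=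
  ⟨by decide +kernel⟩

def cT0_0_32 : PLift (fT0 10 1 0 2 0 35 = true) :=
  ⟨by decide +kernel⟩

def cT0_0_33 : PLift (bnd (fT0 10 1 0 2 35 11)
    (fT0 11 0 0 2 0 21) = true) :=
  ⟨by decide +kernel⟩

def cT0_0_34 : PLift (bnd (fT0 11 0 0 2 21 22)
    (fT0 11 1 0 2 0 10) = true) :=
  ⟨by decide +kernel⟩

def cT0_0_35 : PLift (fT0 11 1 0 2 10 34 = true) :=
  ⟨by decide +kernel⟩

def cT0_0_36 : PLift (fT0 12 0 0 2 0 35 = true) :=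
  ⟨by decide +kernel⟩

def cT0_0_37 : PLift (bnd (fT0 12 0 0 2 35 6)
    (fT0 12 1 0 2 0 26) = true) :=
  ⟨by decide +kernel⟩

def cT0_0_38 : PLift (bnd (fT0 12 1 0 2 26 16)
    (fT0 13 0 0 2 0 16) = true) :=
  ⟨by decide +kernel⟩

def cT0_0_39 : PLift (bnd (fT0 13 0 0 2 16 23)
    (fT0 13 1 0 2 0 9) = true) :=
  ⟨by decide +kernel⟩

def cT0_0_40 : PLift (fT0 13 1 0 2 9 31 = true) :=
  ⟨by decide +kernel⟩

def cT0_0_41 : PLift (fT0 14 0 0 2 0 35 = true) :=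
  ⟨by decide +kernel⟩

def cT0_0_42 : PLift (bnd (fT0 14 0 0 2 35 2)
    (fT0 14 1 0 2 0 30) = true) :=
  ⟨by decide +kernel⟩

def cT0_0_43 : PLift (bnd (fT0 14 1 0 2 30 8)
    (fT0 15 0 0 2 0 24) = true) :=
  ⟨by decide +kernel⟩

def cT0_0_44 : PLift (bnd (fT0 15 0 0 2 24 11)
    (fT0 15 1 0 2 0 21) = true) :=
  ⟨by decide +kernel⟩

def cT0_0_45 : PLift (bnd (fT0 15 1 0 2 21 15)
    (fT0 16 0 0 2 0 17) = true) :=
  ⟨by decide +kernel⟩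

def cT0_0_46 : PLift (bnd (fT0 16 0 0 2 17 16)
    (fT0 16 1 0 2 0 16) = true) :=
  ⟨by decide +kernel⟩

def cT0_0_47 : PLift (bnd (fT0 16 1 0 2 16 18)
    (fT0 17 0 0 2 0 14) = true) :=
  ⟨by decide +kernel⟩

end Pool.Agent.Work.MP_6bf1e5_an.HD
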