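import Pool.Agent.Work.MP_6bf1e5_an.HD.CfT0

/-! Checks of the pass T0, part 10. -/

namespace Pool.Agent.Work.MP_6bf1e5_an.HD

open Pool.Agent.Lib.KLA Pool.Agent.Lib.KBlk

def cT0_6_0 : PLift (fT0 1 0 6 2 0 26 = true) :=
  ⟨by decide +kernel⟩

def cT0_6_1 : PLift (fT0 1 0 6 2 26 26 = true) :=
  ⟨by decide +kernel⟩

def cT0_6_2 : PLift (bnd (fT0 1 0 6 2 52 11)
    (fT0 1 1 6 2 0 13) = true) :=
  ⟨by decide +kernel⟩

def cT0_6_3 : PLift (fT0 1 1 6 2 13 26 = true) :=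
  ⟨by decide +kernel⟩

def cT0_6_4 : PLift (fT0 1 1 6 2 39 25 = true) :=
  ⟨by decide +kernel⟩

def cT0_6_5 : PLift (fT0 2 0 6 2 0 26 = true) :=
  ⟨by decide +kernel⟩

def cT0_6_6 : PLift (fT0 2 0 6 2 26 26 = true) :=
  ⟨by decide +kernel⟩

def cT0_6_7 : PLift (bnd (fT0 2 0 6 2 52 9)
    (fT0 2 1 6 2 0 15) = true) :=
  ⟨by decide +kernel⟩

def cT0_6_8 : PLift (fT0 2 1 6 2 15 26 = true) :=
  ⟨by decide +kernel⟩

def cT0_6_9 : PLift (fT0 2 1 6 2 41 21 = true) :=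
  ⟨by decide +kernel⟩

def cT0_6_10 : PLift (fT0 3 0 6 2 0 26 = true) :=
  ⟨by decide +kernel⟩

def cT0_6_11 : PLift (fT0 3 0 6 2 26 26 = true) :=
  ⟨by decide +kernel⟩

def cT0_6_12 : PLift (bnd (fT0 3 0 6 2 52 7)
    (fT0 3 1 6 2 0 17) = true) :=
  ⟨by decide +kernel⟩

def cT0_6_13 : PLift (fT0 3 1 6 2 17 26 = true) :=
  ⟨by decide +kernel⟩

def cT0_6_14 : PLift (fT0 3 1 6 2 43 17 = true) :=
  ⟨by decide +kernel⟩

def cT0_6_15 : PLift (fT0 4 0 6 2 0 26 = true) :=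
  ⟨by decide +kernel⟩

def cT0_6_16 : PLift (fT0 4 0 6 2 26 26 = true) :=
  ⟨by decide +kernel⟩

def cT0_6_17 : PLift (bnd (fT0 4 0 6 2 52 5)
    (fT0 4 1 6 2 0 19) = true) :=
  ⟨by decide +kernel⟩

def cT0_6_18 : PLift (fT0 4 1 6 2 19 26 = true) :=
  ⟨by decide +kernel⟩

def cT0_6_19 : PLift (fT0 4 1 6 2 45 13 = true) :=
  ⟨by decide +kernel⟩

def cT0_6_20 : PLift (fT0 5 0 6 2 0 26 = true) :=
  ⟨by decide +kernel⟩

def cT0_6_21 : PLift (fT0 5 0 6 2 26 26 = true) :=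
  ⟨by decide +kernel⟩

def cT0_6_22 : PLift (bnd (fT0 5 0 6 2 52 3)
    (fT0 5 1 6 2 0 21) = true) :=
  ⟨by decide +kernel⟩

def cT0_6_23 : PLift (fT0 5 1 6 2 21 26 = true) :=
  ⟨by decide +kernel⟩

def cT0_6_24 : PLift (bnd (fT0 5 1 6 2 47 9)
    (fT0 6 0 6 2 0 15) = true) :=
  ⟨by decide +kernel⟩

def cT0_6_25 : PLift (fT0 6 0 6 2 15 26 = true) :=
  ⟨by decide +kernel⟩

end Pool.Agent.Work.MP_6bf1e5_an.HD
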