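import Pool.Agent.Work.MP_6bf1e5_an.HD.CfT0

/-! Checks of the pass T0, part 11. -/

namespace Pool.Agent.Work.MP_6bf1e5_an.HD

open Pool.Agent.Lib.KLA Pool.Agent.Lib.KBlk

def cT0_6_26 : PLift (bnd (fT0 6 0 6 2 41 12)
    (fT0 6 1 6 2 0 12) = true) :=
  ⟨by decide +kernel⟩

def cT0_6_27 : PLift (fT0 6 1 6 2 12 26 = true) :=
  ⟨by decide +kernel⟩

def cT0_6_28 : PLift (fT0 6 1 6 2 38 16 = true) :=
  ⟨by decide +kernel⟩

def cT0_6_29 : PLift (fT0 7 0 6 2 0 26 = true) :=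
  ⟨by decide +kernel⟩

def cT0_6_30 : PLift (fT0 7 0 6 2 26 25 = true) :=
  ⟨by decide +kernel⟩

def cT0_6_31 : PLift (fT0 7 1 6 2 0 26 = true) :=
  ⟨by decide +kernel⟩

def cT0_6_32 : PLift (fT0 7 1 6 2 26 26 = true) :=
  ⟨by decide +kernel⟩

def cT0_6_33 : PLift (fT0 8 0 6 2 0 26 = true) :=
  ⟨by decide +kernel⟩

def cT0_6_34 : PLift (fT0 8 0 6 2 26 23 = true) :=
  ⟨by decide +kernel⟩

def cT0_6_35 : PLift (fT0 8 1 6 2 0 26 = true) :=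
  ⟨by decide +kernel⟩

def cT0_6_36 : PLift (fT0 8 1 6 2 26 24 = true) :=
  ⟨by decide +kernel⟩

def cT0_6_37 : PLift (fT0 9 0 6 2 0 26 = true) :=
  ⟨by decide +kernel⟩

def cT0_6_38 : PLift (fT0 9 0 6 2 26 21 = true) :=
  ⟨by decide +kernel⟩

def cT0_6_39 : PLift (fT0 9 1 6 2 0 26 = true) :=
  ⟨by decide +kernel⟩

def cT0_6_40 : PLift (fT0 9 1 6 2 26 22 = true) :=
  ⟨by decide +kernel⟩

def cT0_6_41 : PLift (fT0 10 0 6 2 0 26 = true) :=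
  ⟨by decide +kernel⟩

def cT0_6_42 : PLift (fT0 10 0 6 2 26 19 = true) :=
  ⟨by decide +kernel⟩

def cT0_6_43 : PLift (fT0 10 1 6 2 0 26 = true) :=
  ⟨by decide +kernel⟩

def cT0_6_44 : PLift (fT0 10 1 6 2 26 20 = true) :=
  ⟨by decide +kernel⟩

def cT0_6_45 : PLift (fT0 11 0 6 2 0 26 = true) :=
  ⟨by decide +kernel⟩

def cT0_6_46 : PLift (fT0 11 0 6 2 26 17 = true) :=
  ⟨by decide +kernel⟩

def cT0_6_47 : PLift (fT0 11 1 6 2 0 26 = true) :=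
  ⟨by decide +kernel⟩

def cT0_6_48 : PLift (fT0 11 1 6 2 26 18 = true) :=
  ⟨by decide +kernel⟩

def cT0_6_49 : PLift (fT0 12 0 6 2 0 26 = true) :=
  ⟨by decide +kernel⟩

def cT0_6_50 : PLift (fT0 12 0 6 2 26 15 = true) :=
  ⟨by decide +kernel⟩

def cT0_6_51 : PLift (fT0 12 1 6 2 0 26 = true) :=
  ⟨by decide +kernel⟩

end Pool.Agent.Work.MP_6bf1e5_an.HD
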