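import Pool.Agent.Work.MP_6bf1e5_an.HD.CfT0

/-! Checks of the pass T0, part 12. -/

namespace Pool.Agent.Work.MP_6bf1e5_an.HD

open Pool.Agent.Lib.KLA Pool.Agent.Lib.KBlk

def cT0_6_52 : PLift (fT0 12 1 6 2 26 16 = true) :=
  ⟨by decide +kernel⟩

def cT0_6_53 : PLift (fT0 13 0 6 2 0 26 = true) :=
  ⟨by decide +kernel⟩

def cT0_6_54 : PLift (fT0 13 0 6 2 26 13 = true) :=
  ⟨by decide +kernel⟩

def cT0_6_55 : PLift (fT0 13 1 6 2 0 26 = true) :=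
  ⟨by decide +kernel⟩

def cT0_6_56 : PLift (fT0 13 1 6 2 26 14 = true) :=
  ⟨by decide +kernel⟩

def cT0_6_57 : PLift (fT0 14 0 6 2 0 26 = true) :=
  ⟨by decide +kernel⟩

def cT0_6_58 : PLift (bnd (fT0 14 0 6 2 26 11)
    (fT0 14 1 6 2 0 13) = true) :=
  ⟨by decide +kernel⟩

def cT0_6_59 : PLift (fT0 14 1 6 2 13 25 = true) :=
  ⟨by decide +kernel⟩

def cT0_6_60 : PLift (fT0 15 0 6 2 0 26 = true) :=
  ⟨by decide +kernel⟩

def cT0_6_61 : PLift (bnd (fT0 15 0 6 2 26 9)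
    (fT0 15 1 6 2 0 15) = true) :=
  ⟨by decide +kernel⟩

def cT0_6_62 : PLift (fT0 15 1 6 2 15 21 = true) :=
  ⟨by decide +kernel⟩

def cT0_6_63 : PLift (fT0 16 0 6 2 0 26 = true) :=
  ⟨by decide +kernel⟩

def cT0_6_64 : PLift (bnd (fT0 16 0 6 2 26 7)
    (fT0 16 1 6 2 0 17) = true) :=
  ⟨by decide +kernel⟩

def cT0_6_65 : PLift (fT0 16 1 6 2 17 17 = true) :=
  ⟨by decide +kernel⟩

def cT0_6_66 : PLift (fT0 17 0 6 2 0 26 = true) :=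
  ⟨by decide +kernel⟩

def cT0_6_67 : PLift (bnd (fT0 17 0 6 2 26 5)
    (fT0 17 1 6 2 0 19) = true) :=
  ⟨by decide +kernel⟩

def cT0_6_68 : PLift (fT0 17 1 6 2 19 13 = true) :=
  ⟨by decide +kernel⟩

def cT0_6_69 : PLift (fT0 18 0 6 2 0 26 = true) :=
  ⟨by decide +kernel⟩

def cT0_6_70 : PLift (bnd (fT0 18 0 6 2 26 3)
    (fT0 18 1 6 2 0 21) = true) :=
  ⟨by decide +kernel⟩

def cT0_6_71 : PLift (bnd (fT0 18 1 6 2 21 9)
    (fT0 19 0 6 2 0 15) = true) :=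
  ⟨by decide +kernel⟩

def cT0_6_72 : PLift (bnd (fT0 19 0 6 2 15 12)
    (fT0 19 1 6 2 0 12) = true) :=
  ⟨by decide +kernel⟩

def cT0_6_73 : PLift (fT0 19 1 6 2 12 16 = true) :=
  ⟨by decide +kernel⟩

def cT0_6_74 : PLift (fT0 20 0 6 2 0 25 = true) :=
  ⟨by decide +kernel⟩

def cT0_6_75 : PLift (fT0 20 1 6 2 0 26 = true) :=
  ⟨by decide +kernel⟩

def cT0_6_76 : PLift (fT0 21 0 6 2 0 23 = true) :=
  ⟨by decide +kernel⟩

def cT0_6_77 : PLift (fT0 21 1 6 2 0 24 = true) :=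
  ⟨by decide +kernel⟩

def cT0_6_78 : PLift (fT0 22 0 6 2 0 21 = true) :=
  ⟨by decide +kernel⟩

def cT0_6_79 : PLift (fT0 22 1 6 2 0 22 = true) :=
  ⟨by decide +kernel⟩

end Pool.Agent.Work.MP_6bf1e5_an.HD
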