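import Pool.Agent.Work.MP_6bf1e5_an.HD.CfT0

/-! Checks of the pass T0, part 13. -/

namespace Pool.Agent.Work.MP_6bf1e5_an.HD

open Pool.Agent.Lib.KLA Pool.Agent.Lib.KBlk

def cT0_6_80 : PLift (fT0 23 0 6 2 0 19 = true) :=
  ⟨by decide +kernel⟩

def cT0_6_81 : PLift (fT0 23 1 6 2 0 20 = true) :=
  ⟨by decide +kernel⟩

def cT0_6_82 : PLift (fT0 24 0 6 2 0 17 = true) :=
  ⟨by decide +kernel⟩

def cT0_6_83 : PLift (fT0 24 1 6 2 0 18 = true) :=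
  ⟨by decide +kernel⟩

def cT0_6_84 : PLift (fT0 25 0 6 2 0 15 = true) :=
  ⟨by decide +kernel⟩

def cT0_6_85 : PLift (fT0 25 1 6 2 0 16 = true) :=
  ⟨by decide +kernel⟩

def cT0_6_86 : PLift (fT0 26 0 6 2 0 13 = true) :=
  ⟨by decide +kernel⟩

def cT0_6_87 : PLift (fT0 26 1 6 2 0 14 = true) :=
  ⟨by decide +kernel⟩

def cT0_6_88 : PLift (bnd (fT0 27 0 6 2 0 11)
    (fT0 27 1 6 2 0 12) = true) :=
  ⟨by decide +kernel⟩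

def cT0_6_89 : PLift (bnd (fT0 28 0 6 2 0 9)
    (fT0 28 1 6 2 0 10) = true) :=
  ⟨by decide +kernel⟩

def cT0_6_90 : PLift (bnd (fT0 29 0 6 2 0 7)
    (bnd (fT0 29 1 6 2 0 8)
    (fT0 30 0 6 2 0 5)) = true) :=
  ⟨by decide +kernel⟩

def cT0_6_91 : PLift (bnd (fT0 30 1 6 2 0 6)
    (bnd (fT0 31 0 6 2 0 3)
    (bnd (fT0 31 1 6 2 0 4)
    (bnd (fT0 32 0 6 2 0 1)
    (fT0 32 1 6 2 0 2)))) = true) :=
  ⟨by decide +kernel⟩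

def cT0_8_0 : PLift (fT0 1 0 8 2 0 28 = true) :=
  ⟨by decide +kernel⟩

def cT0_8_1 : PLift (fT0 1 0 8 2 28 28 = true) :=
  ⟨by decide +kernel⟩

def cT0_8_2 : PLift (bnd (fT0 1 0 8 2 56 7)
    (fT0 1 1 8 2 0 18) = true) :=
  ⟨by decide +kernel⟩

def cT0_8_3 : PLift (fT0 1 1 8 2 18 28 = true) :=
  ⟨by decide +kernel⟩

def cT0_8_4 : PLift (bnd (fT0 1 1 8 2 46 18)
    (fT0 2 0 8 2 0 7) = true) :=
  ⟨by decide +kernel⟩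

def cT0_8_5 : PLift (fT0 2 0 8 2 7 28 = true) :=
  ⟨by decide +kernel⟩

def cT0_8_6 : PLift (fT0 2 0 8 2 35 26 = true) :=
  ⟨by decide +kernel⟩

def cT0_8_7 : PLift (fT0 2 1 8 2 0 28 = true) :=
  ⟨by decide +kernel⟩

def cT0_8_8 : PLift (fT0 2 1 8 2 28 28 = true) :=
  ⟨by decide +kernel⟩

def cT0_8_9 : PLift (bnd (fT0 2 1 8 2 56 6)
    (fT0 3 0 8 2 0 19) = true) :=
  ⟨by decide +kernel⟩

def cT0_8_10 : PLift (fT0 3 0 8 2 19 28 = true) :=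
  ⟨by decide +kernel⟩

def cT0_8_11 : PLift (bnd (fT0 3 0 8 2 47 12)
    (fT0 3 1 8 2 0 13) = true) :=
  ⟨by decide +kernel⟩

def cT0_8_12 : PLift (fT0 3 1 8 2 13 28 = true) :=
  ⟨by decide +kernel⟩

def cT0_8_13 : PLift (bnd (fT0 3 1 8 2 41 19)
    (fT0 4 0 8 2 0 6) = true) :=
  ⟨by decide +kernel⟩

def cT0_8_14 : PLift (fT0 4 0 8 2 6 28 = true) :=
  ⟨by decide +kernel⟩

end Pool.Agent.Work.MP_6bf1e5_an.HD
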