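import Pool.Agent.Work.MP_6bf1e5_an.HD.CfT0

/-! Checks of the pass T0, part 14. -/

namespace Pool.Agent.Work.MP_6bf1e5_an.HD

open Pool.Agent.Lib.KLA Pool.Agent.Lib.KBlk

def cT0_8_15 : PLift (bnd (fT0 4 0 8 2 34 23)
    (fT0 4 1 8 2 0 2) = true) :=
  ⟨by decide +kernel⟩

def cT0_8_16 : PLift (fT0 4 1 8 2 2 28 = true) :=
  ⟨by decide +kernel⟩

def cT0_8_17 : PLift (fT0 4 1 8 2 30 28 = true) :=
  ⟨by decide +kernel⟩

def cT0_8_18 : PLift (fT0 5 0 8 2 0 28 = true) :=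
  ⟨by decide +kernel⟩

def cT0_8_19 : PLift (fT0 5 0 8 2 28 27 = true) :=
  ⟨by decide +kernel⟩

def cT0_8_20 : PLift (fT0 5 1 8 2 0 28 = true) :=
  ⟨by decide +kernel⟩

def cT0_8_21 : PLift (fT0 5 1 8 2 28 28 = true) :=
  ⟨by decide +kernel⟩

def cT0_8_22 : PLift (fT0 6 0 8 2 0 28 = true) :=
  ⟨by decide +kernel⟩

def cT0_8_23 : PLift (fT0 6 0 8 2 28 25 = true) :=
  ⟨by decide +kernel⟩

def cT0_8_24 : PLift (fT0 6 1 8 2 0 28 = true) :=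
  ⟨by decide +kernel⟩

def cT0_8_25 : PLift (fT0 6 1 8 2 28 26 = true) :=
  ⟨by decide +kernel⟩

def cT0_8_26 : PLift (fT0 7 0 8 2 0 28 = true) :=
  ⟨by decide +kernel⟩

def cT0_8_27 : PLift (bnd (fT0 7 0 8 2 28 23)
    (fT0 7 1 8 2 0 2) = true) :=
  ⟨by decide +kernel⟩

def cT0_8_28 : PLift (fT0 7 1 8 2 2 28 = true) :=
  ⟨by decide +kernel⟩

def cT0_8_29 : PLift (bnd (fT0 7 1 8 2 30 22)
    (fT0 8 0 8 2 0 3) = true) :=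
  ⟨by decide +kernel⟩

def cT0_8_30 : PLift (fT0 8 0 8 2 3 27 = true) :=
  ⟨by decide +kernel⟩

def cT0_8_31 : PLift (bnd (fT0 8 0 8 2 30 19)
    (fT0 8 1 8 2 0 6) = true) :=
  ⟨by decide +kernel⟩

def cT0_8_32 : PLift (fT0 8 1 8 2 6 27 = true) :=
  ⟨by decide +kernel⟩

def cT0_8_33 : PLift (bnd (fT0 8 1 8 2 33 17)
    (fT0 9 0 8 2 0 8) = true) :=
  ⟨by decide +kernel⟩

def cT0_8_34 : PLift (fT0 9 0 8 2 8 28 = true) :=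
  ⟨by decide +kernel⟩

def cT0_8_35 : PLift (bnd (fT0 9 0 8 2 36 11)
    (fT0 9 1 8 2 0 14) = true) :=
  ⟨by decide +kernel⟩

def cT0_8_36 : PLift (fT0 9 1 8 2 14 28 = true) :=
  ⟨by decide +kernel⟩

def cT0_8_37 : PLift (bnd (fT0 9 1 8 2 42 6)
    (fT0 10 0 8 2 0 19) = true) :=
  ⟨by decide +kernel⟩

def cT0_8_38 : PLift (fT0 10 0 8 2 19 26 = true) :=
  ⟨by decide +kernel⟩

def cT0_8_39 : PLift (fT0 10 1 8 2 0 28 = true) :=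
  ⟨by decide +kernel⟩

end Pool.Agent.Work.MP_6bf1e5_an.HD
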