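import Pool.Agent.Work.MP_6bf1e5_an.HD.CfT0

/-! Checks of the pass T0, part 15. -/

namespace Pool.Agent.Work.MP_6bf1e5_an.HD

open Pool.Agent.Lib.KLA Pool.Agent.Lib.KBlk

def cT0_8_40 : PLift (bnd (fT0 10 1 8 2 28 18)
    (fT0 11 0 8 2 0 7) = true) :=
  ⟨by decide +kernel⟩

def cT0_8_41 : PLift (fT0 11 0 8 2 7 28 = true) :=
  ⟨by decide +kernel⟩

def cT0_8_42 : PLift (bnd (fT0 11 0 8 2 35 8)
    (fT0 11 1 8 2 0 17) = true) :=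
  ⟨by decide +kernel⟩

def cT0_8_43 : PLift (fT0 11 1 8 2 17 27 = true) :=
  ⟨by decide +kernel⟩

def cT0_8_44 : PLift (fT0 12 0 8 2 0 28 = true) :=
  ⟨by decide +kernel⟩

def cT0_8_45 : PLift (bnd (fT0 12 0 8 2 28 13)
    (fT0 12 1 8 2 0 12) = true) :=
  ⟨by decide +kernel⟩

def cT0_8_46 : PLift (fT0 12 1 8 2 12 28 = true) :=
  ⟨by decide +kernel⟩

def cT0_8_47 : PLift (bnd (fT0 12 1 8 2 40 2)
    (fT0 13 0 8 2 0 23) = true) :=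
  ⟨by decide +kernel⟩

def cT0_8_48 : PLift (bnd (fT0 13 0 8 2 23 16)
    (fT0 13 1 8 2 0 9) = true) :=
  ⟨by decide +kernel⟩

def cT0_8_49 : PLift (fT0 13 1 8 2 9 28 = true) :=
  ⟨by decide +kernel⟩

def cT0_8_50 : PLift (bnd (fT0 13 1 8 2 37 3)
    (fT0 14 0 8 2 0 22) = true) :=
  ⟨by decide +kernel⟩

def cT0_8_51 : PLift (bnd (fT0 14 0 8 2 22 15)
    (fT0 14 1 8 2 0 10) = true) :=
  ⟨by decide +kernel⟩

def cT0_8_52 : PLift (fT0 14 1 8 2 10 28 = true) :=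
  ⟨by decide +kernel⟩

def cT0_8_53 : PLift (fT0 15 0 8 2 0 28 = true) :=
  ⟨by decide +kernel⟩

def cT0_8_54 : PLift (bnd (fT0 15 0 8 2 28 7)
    (fT0 15 1 8 2 0 18) = true) :=
  ⟨by decide +kernel⟩

def cT0_8_55 : PLift (bnd (fT0 15 1 8 2 18 18)
    (fT0 16 0 8 2 0 7) = true) :=
  ⟨by decide +kernel⟩

def cT0_8_56 : PLift (fT0 16 0 8 2 7 26 = true) :=
  ⟨by decide +kernel⟩

def cT0_8_57 : PLift (fT0 16 1 8 2 0 28 = true) :=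
  ⟨by decide +kernel⟩

def cT0_8_58 : PLift (bnd (fT0 16 1 8 2 28 6)
    (fT0 17 0 8 2 0 19) = true) :=
  ⟨by decide +kernel⟩

def cT0_8_59 : PLift (bnd (fT0 17 0 8 2 19 12)
    (fT0 17 1 8 2 0 14) = true) :=
  ⟨by decide +kernel⟩

def cT0_8_60 : PLift (bnd (fT0 17 1 8 2 14 18)
    (fT0 18 0 8 2 0 8) = true) :=
  ⟨by decide +kernel⟩

def cT0_8_61 : PLift (bnd (fT0 18 0 8 2 8 21)
    (fT0 18 1 8 2 0 5) = true) :=
  ⟨by decide +kernel⟩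

def cT0_8_62 : PLift (bnd (fT0 18 1 8 2 5 25)
    (fT0 19 0 8 2 0 1) = true) :=
  ⟨by decide +kernel⟩

def cT0_8_63 : PLift (fT0 19 0 8 2 1 26 = true) :=
  ⟨by decide +kernel⟩

def cT0_8_64 : PLift (fT0 19 1 8 2 0 28 = true) :=
  ⟨by decide +kernel⟩

end Pool.Agent.Work.MP_6bf1e5_an.HD
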