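import Pool.Agent.Work.MP_6bf1e5_an.HD.CfT0

/-! Checks of the pass T0, part 16. -/

namespace Pool.Agent.Work.MP_6bf1e5_an.HD

open Pool.Agent.Lib.KLA Pool.Agent.Lib.KBlk

def cT0_8_65 : PLift (bnd (fT0 20 0 8 2 0 25)
    (fT0 20 1 8 2 0 1) = true) :=
  ⟨by decide +kernel⟩

def cT0_8_66 : PLift (bnd (fT0 20 1 8 2 1 25)
    (fT0 21 0 8 2 0 1) = true) :=
  ⟨by decide +kernel⟩

def cT0_8_67 : PLift (bnd (fT0 21 0 8 2 1 22)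
    (fT0 21 1 8 2 0 4) = true) :=
  ⟨by decide +kernel⟩

def cT0_8_68 : PLift (bnd (fT0 21 1 8 2 4 20)
    (fT0 22 0 8 2 0 6) = true) :=
  ⟨by decide +kernel⟩

def cT0_8_69 : PLift (bnd (fT0 22 0 8 2 6 15)
    (fT0 22 1 8 2 0 11) = true) :=
  ⟨by decide +kernel⟩

def cT0_8_70 : PLift (bnd (fT0 22 1 8 2 11 11)
    (fT0 23 0 8 2 0 15) = true) :=
  ⟨by decide +kernel⟩

def cT0_8_71 : PLift (bnd (fT0 23 0 8 2 15 4)
    (fT0 23 1 8 2 0 20) = true) :=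
  ⟨by decide +kernel⟩

def cT0_8_72 : PLift (bnd (fT0 24 0 8 2 0 17)
    (fT0 24 1 8 2 0 8) = true) :=
  ⟨by decide +kernel⟩

def cT0_8_73 : PLift (bnd (fT0 24 1 8 2 8 10)
    (fT0 25 0 8 2 0 15) = true) :=
  ⟨by decide +kernel⟩

def cT0_8_74 : PLift (bnd (fT0 25 1 8 2 0 16)
    (fT0 26 0 8 2 0 10) = true) :=
  ⟨by decide +kernel⟩

def cT0_8_75 : PLift (bnd (fT0 26 0 8 2 10 3)
    (bnd (fT0 26 1 8 2 0 14)
    (fT0 27 0 8 2 0 7)) = true) :=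
  ⟨by decide +kernel⟩

def cT0_8_76 : PLift (bnd (fT0 27 0 8 2 7 4)
    (bnd (fT0 27 1 8 2 0 12)
    (fT0 28 0 8 2 0 8)) = true) :=
  ⟨by decide +kernel⟩

def cT0_8_77 : PLift (bnd (fT0 28 0 8 2 8 1)
    (bnd (fT0 28 1 8 2 0 10)
    (bnd (fT0 29 0 8 2 0 7)
    (fT0 29 1 8 2 0 6))) = true) :=
  ⟨by decide +kernel⟩

def cT0_8_78 : PLift (bnd (fT0 29 1 8 2 6 2)
    (bnd (fT0 30 0 8 2 0 5)
    (bnd (fT0 30 1 8 2 0 6)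
    (bnd (fT0 31 0 8 2 0 3)
    (bnd (fT0 31 1 8 2 0 4)
    (fT0 32 0 8 2 0 1))))) = true) :=
  ⟨by decide +kernel⟩

def cT0_8_79 : PLift (fT0 32 1 8 2 0 2 = true) :=
  ⟨by decide +kernel⟩

def cT0_10_0 : PLift (fT0 1 0 10 2 0 29 = true) :=
  ⟨by decide +kernel⟩

def cT0_10_1 : PLift (fT0 1 0 10 2 29 29 = true) :=
  ⟨by decide +kernel⟩

def cT0_10_2 : PLift (bnd (fT0 1 0 10 2 58 5)
    (fT0 1 1 10 2 0 21) = true) :=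
  ⟨by decide +kernel⟩

def cT0_10_3 : PLift (fT0 1 1 10 2 21 29 = true) :=
  ⟨by decide +kernel⟩

def cT0_10_4 : PLift (bnd (fT0 1 1 10 2 50 14)
    (fT0 2 0 10 2 0 12) = true) :=
  ⟨by decide +kernel⟩

def cT0_10_5 : PLift (fT0 2 0 10 2 12 29 = true) :=
  ⟨by decide +kernel⟩

def cT0_10_6 : PLift (fT0 2 0 10 2 41 20 = true) :=
  ⟨by decide +kernel⟩

def cT0_10_7 : PLift (fT0 2 1 10 2 0 29 = true) :=
  ⟨by decide +kernel⟩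

def cT0_10_8 : PLift (fT0 2 1 10 2 29 29 = true) :=
  ⟨by decide +kernel⟩

def cT0_10_9 : PLift (bnd (fT0 2 1 10 2 58 4)
    (fT0 3 0 10 2 0 22) = true) :=
  ⟨by decide +kernel⟩

end Pool.Agent.Work.MP_6bf1e5_an.HD
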