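import Pool.Agent.Work.MP_6bf1e5_an.HD.CfT0

/-! Checks of the pass T0, part 17. -/

namespace Pool.Agent.Work.MP_6bf1e5_an.HD

open Pool.Agent.Lib.KLA Pool.Agent.Lib.KBlk

def cT0_10_10 : PLift (fT0 3 0 10 2 22 29 = true) :=
  ⟨by decide +kernel⟩

def cT0_10_11 : PLift (bnd (fT0 3 0 10 2 51 8)
    (fT0 3 1 10 2 0 18) = true) :=
  ⟨by decide +kernel⟩

def cT0_10_12 : PLift (fT0 3 1 10 2 18 29 = true) :=
  ⟨by decide +kernel⟩

def cT0_10_13 : PLift (bnd (fT0 3 1 10 2 47 13)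
    (fT0 4 0 10 2 0 13) = true) :=
  ⟨by decide +kernel⟩

def cT0_10_14 : PLift (fT0 4 0 10 2 13 29 = true) :=
  ⟨by decide +kernel⟩

def cT0_10_15 : PLift (fT0 4 0 10 2 42 15 = true) :=
  ⟨by decide +kernel⟩

def cT0_10_16 : PLift (fT0 4 1 10 2 0 29 = true) :=
  ⟨by decide +kernel⟩

def cT0_10_17 : PLift (fT0 4 1 10 2 29 29 = true) :=
  ⟨by decide +kernel⟩

def cT0_10_18 : PLift (fT0 5 0 10 2 0 29 = true) :=
  ⟨by decide +kernel⟩

def cT0_10_19 : PLift (fT0 5 0 10 2 29 26 = true) :=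
  ⟨by decide +kernel⟩

def cT0_10_20 : PLift (fT0 5 1 10 2 0 29 = true) :=
  ⟨by decide +kernel⟩

def cT0_10_21 : PLift (fT0 5 1 10 2 29 27 = true) :=
  ⟨by decide +kernel⟩

def cT0_10_22 : PLift (fT0 6 0 10 2 0 29 = true) :=
  ⟨by decide +kernel⟩

def cT0_10_23 : PLift (fT0 6 0 10 2 29 24 = true) :=
  ⟨by decide +kernel⟩

def cT0_10_24 : PLift (fT0 6 1 10 2 0 29 = true) :=
  ⟨by decide +kernel⟩

def cT0_10_25 : PLift (fT0 6 1 10 2 29 25 = true) :=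
  ⟨by decide +kernel⟩

def cT0_10_26 : PLift (fT0 7 0 10 2 0 29 = true) :=
  ⟨by decide +kernel⟩

def cT0_10_27 : PLift (fT0 7 0 10 2 29 22 = true) :=
  ⟨by decide +kernel⟩

def cT0_10_28 : PLift (fT0 7 1 10 2 0 29 = true) :=
  ⟨by decide +kernel⟩

def cT0_10_29 : PLift (fT0 7 1 10 2 29 23 = true) :=
  ⟨by decide +kernel⟩

def cT0_10_30 : PLift (fT0 8 0 10 2 0 29 = true) :=
  ⟨by decide +kernel⟩

def cT0_10_31 : PLift (fT0 8 0 10 2 29 20 = true) :=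
  ⟨by decide +kernel⟩

def cT0_10_32 : PLift (fT0 8 1 10 2 0 29 = true) :=
  ⟨by decide +kernel⟩

def cT0_10_33 : PLift (fT0 8 1 10 2 29 21 = true) :=
  ⟨by decide +kernel⟩

def cT0_10_34 : PLift (fT0 9 0 10 2 0 29 = true) :=
  ⟨by decide +kernel⟩

def cT0_10_35 : PLift (fT0 9 0 10 2 29 18 = true) :=
  ⟨by decide +kernel⟩

end Pool.Agent.Work.MP_6bf1e5_an.HD
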