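import Pool.Agent.Work.MP_6bf1e5_an.HD.CfT0

/-! Checks of the pass T0, part 18. -/

namespace Pool.Agent.Work.MP_6bf1e5_an.HD

open Pool.Agent.Lib.KLA Pool.Agent.Lib.KBlk

def cT0_10_36 : PLift (fT0 9 1 10 2 0 29 = true) :=
  ⟨by decide +kernel⟩

def cT0_10_37 : PLift (fT0 9 1 10 2 29 19 = true) :=
  ⟨by decide +kernel⟩

def cT0_10_38 : PLift (fT0 10 0 10 2 0 29 = true) :=
  ⟨by decide +kernel⟩

def cT0_10_39 : PLift (fT0 10 0 10 2 29 16 = true) :=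
  ⟨by decide +kernel⟩

def cT0_10_40 : PLift (fT0 10 1 10 2 0 29 = true) :=
  ⟨by decide +kernel⟩

def cT0_10_41 : PLift (fT0 10 1 10 2 29 17 = true) :=
  ⟨by decide +kernel⟩

def cT0_10_42 : PLift (fT0 11 0 10 2 0 29 = true) :=
  ⟨by decide +kernel⟩

def cT0_10_43 : PLift (bnd (fT0 11 0 10 2 29 14)
    (fT0 11 1 10 2 0 12) = true) :=
  ⟨by decide +kernel⟩

def cT0_10_44 : PLift (fT0 11 1 10 2 12 29 = true) :=
  ⟨by decide +kernel⟩

def cT0_10_45 : PLift (bnd (fT0 11 1 10 2 41 3)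
    (fT0 12 0 10 2 0 23) = true) :=
  ⟨by decide +kernel⟩

def cT0_10_46 : PLift (fT0 12 0 10 2 23 18 = true) :=
  ⟨by decide +kernel⟩

def cT0_10_47 : PLift (fT0 12 1 10 2 0 29 = true) :=
  ⟨by decide +kernel⟩

def cT0_10_48 : PLift (bnd (fT0 12 1 10 2 29 13)
    (fT0 13 0 10 2 0 13) = true) :=
  ⟨by decide +kernel⟩

def cT0_10_49 : PLift (fT0 13 0 10 2 13 26 = true) :=
  ⟨by decide +kernel⟩

def cT0_10_50 : PLift (fT0 13 1 10 2 0 29 = true) :=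
  ⟨by decide +kernel⟩

def cT0_10_51 : PLift (bnd (fT0 13 1 10 2 29 11)
    (fT0 14 0 10 2 0 15) = true) :=
  ⟨by decide +kernel⟩

def cT0_10_52 : PLift (fT0 14 0 10 2 15 22 = true) :=
  ⟨by decide +kernel⟩

def cT0_10_53 : PLift (fT0 14 1 10 2 0 29 = true) :=
  ⟨by decide +kernel⟩

def cT0_10_54 : PLift (bnd (fT0 14 1 10 2 29 9)
    (fT0 15 0 10 2 0 17) = true) :=
  ⟨by decide +kernel⟩

def cT0_10_55 : PLift (fT0 15 0 10 2 17 18 = true) :=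
  ⟨by decide +kernel⟩

def cT0_10_56 : PLift (fT0 15 1 10 2 0 29 = true) :=
  ⟨by decide +kernel⟩

def cT0_10_57 : PLift (bnd (fT0 15 1 10 2 29 7)
    (fT0 16 0 10 2 0 19) = true) :=
  ⟨by decide +kernel⟩

def cT0_10_58 : PLift (bnd (fT0 16 0 10 2 19 14)
    (fT0 16 1 10 2 0 12) = true) :=
  ⟨by decide +kernel⟩

def cT0_10_59 : PLift (fT0 16 1 10 2 12 22 = true) :=
  ⟨by decide +kernel⟩

def cT0_10_60 : PLift (fT0 17 0 10 2 0 29 = true) :=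
  ⟨by decide +kernel⟩

def cT0_10_61 : PLift (bnd (fT0 17 0 10 2 29 2)
    (fT0 17 1 10 2 0 25) = true) :=
  ⟨by decide +kernel⟩

end Pool.Agent.Work.MP_6bf1e5_an.HD
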