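import Pool.Agent.Work.MP_6bf1e5_an.HD.CfT0

/-! Checks of the pass T0, part 19. -/

namespace Pool.Agent.Work.MP_6bf1e5_an.HD

open Pool.Agent.Lib.KLA Pool.Agent.Lib.KBlk

def cT0_10_62 : PLift (bnd (fT0 17 1 10 2 25 7)
    (fT0 18 0 10 2 0 20) = true) :=
  ⟨by decide +kernel⟩

def cT0_10_63 : PLift (bnd (fT0 18 0 10 2 20 9)
    (fT0 18 1 10 2 0 18) = true) :=
  ⟨by decide +kernel⟩

def cT0_10_64 : PLift (bnd (fT0 18 1 10 2 18 12)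
    (fT0 19 0 10 2 0 15) = true) :=
  ⟨by decide +kernel⟩

def cT0_10_65 : PLift (bnd (fT0 19 0 10 2 15 12)
    (fT0 19 1 10 2 0 15) = true) :=
  ⟨by decide +kernel⟩

def cT0_10_66 : PLift (bnd (fT0 19 1 10 2 15 13)
    (fT0 20 0 10 2 0 14) = true) :=
  ⟨by decide +kernel⟩

def cT0_10_67 : PLift (bnd (fT0 20 0 10 2 14 11)
    (fT0 20 1 10 2 0 16) = true) :=
  ⟨by decide +kernel⟩

def cT0_10_68 : PLift (bnd (fT0 20 1 10 2 16 10)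
    (fT0 21 0 10 2 0 17) = true) :=
  ⟨by decide +kernel⟩

def cT0_10_69 : PLift (bnd (fT0 21 0 10 2 17 6)
    (fT0 21 1 10 2 0 21) = true) :=
  ⟨by decide +kernel⟩

def cT0_10_70 : PLift (bnd (fT0 21 1 10 2 21 3)
    (fT0 22 0 10 2 0 21) = true) :=
  ⟨by decide +kernel⟩

def cT0_10_71 : PLift (fT0 22 1 10 2 0 22 = true) :=
  ⟨by decide +kernel⟩

def cT0_10_72 : PLift (fT0 23 0 10 2 0 19 = true) :=
  ⟨by decide +kernel⟩

def cT0_10_73 : PLift (fT0 23 1 10 2 0 20 = true) :=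
  ⟨by decide +kernel⟩

def cT0_10_74 : PLift (fT0 24 0 10 2 0 17 = true) :=
  ⟨by decide +kernel⟩

def cT0_10_75 : PLift (fT0 24 1 10 2 0 18 = true) :=
  ⟨by decide +kernel⟩

def cT0_10_76 : PLift (bnd (fT0 25 0 10 2 0 15)
    (fT0 25 1 10 2 0 12) = true) :=
  ⟨by decide +kernel⟩

def cT0_10_77 : PLift (bnd (fT0 25 1 10 2 12 4)
    (fT0 26 0 10 2 0 13) = true) :=
  ⟨by decide +kernel⟩

def cT0_10_78 : PLift (bnd (fT0 26 1 10 2 0 14)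
    (fT0 27 0 10 2 0 11) = true) :=
  ⟨by decide +kernel⟩

def cT0_10_79 : PLift (bnd (fT0 27 1 10 2 0 12)
    (fT0 28 0 10 2 0 9) = true) :=
  ⟨by decide +kernel⟩

def cT0_10_80 : PLift (bnd (fT0 28 1 10 2 0 10)
    (bnd (fT0 29 0 10 2 0 7)
    (fT0 29 1 10 2 0 8)) = true) :=
  ⟨by decide +kernel⟩

def cT0_10_81 : PLift (bnd (fT0 30 0 10 2 0 5)
    (bnd (fT0 30 1 10 2 0 6)
    (bnd (fT0 31 0 10 2 0 3)
    (bnd (fT0 31 1 10 2 0 4)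
    (bnd (fT0 32 0 10 2 0 1)
    (fT0 32 1 10 2 0 2))))) = true) :=
  ⟨by decide +kernel⟩

def cT0_12_0 : PLift (fT0 1 0 12 3 0 20 = true) :=
  ⟨by decide +kernel⟩

def cT0_12_1 : PLift (fT0 1 0 12 3 20 20 = true) :=
  ⟨by decide +kernel⟩

def cT0_12_2 : PLift (fT0 1 0 12 3 40 20 = true) :=
  ⟨by decide +kernel⟩

def cT0_12_3 : PLift (bnd (fT0 1 0 12 3 60 3)
    (fT0 1 1 12 3 0 15) = true) :=
  ⟨by decide +kernel⟩

def cT0_12_4 : PLift (fT0 1 1 12 3 15 20 = true) :=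
  ⟨by decide +kernel⟩

def cT0_12_5 : PLift (fT0 1 1 12 3 35 20 = true) :=
  ⟨by decide +kernel⟩

def cT0_12_6 : PLift (bnd (fT0 1 1 12 3 55 9)
    (fT0 2 0 12 3 0 9) = true) :=
  ⟨by decide +kernel⟩

end Pool.Agent.Work.MP_6bf1e5_an.HD
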