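import Pool.Agent.Work.MP_6bf1e5_an.HD.CfT0

/-! Checks of the pass T0, part 2. -/

namespace Pool.Agent.Work.MP_6bf1e5_an.HD

open Pool.Agent.Lib.KLA Pool.Agent.Lib.KBlk

def cT0_0_48 : PLift (bnd (fT0 17 0 0 2 14 17)
    (fT0 17 1 0 2 0 15) = true) :=
  ⟨by decide +kernel⟩

def cT0_0_49 : PLift (bnd (fT0 17 1 0 2 15 17)
    (fT0 18 0 0 2 0 15) = true) :=
  ⟨by decide +kernel⟩

def cT0_0_50 : PLift (bnd (fT0 18 0 0 2 15 14)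
    (fT0 18 1 0 2 0 18) = true) :=
  ⟨by decide +kernel⟩

def cT0_0_51 : PLift (bnd (fT0 18 1 0 2 18 12)
    (fT0 19 0 0 2 0 20) = true) :=
  ⟨by decide +kernel⟩

def cT0_0_52 : PLift (bnd (fT0 19 0 0 2 20 7)
    (fT0 19 1 0 2 0 25) = true) :=
  ⟨by decide +kernel⟩

def cT0_0_53 : PLift (bnd (fT0 19 1 0 2 25 3)
    (fT0 20 0 0 2 0 25) = true) :=
  ⟨by decide +kernel⟩

def cT0_0_54 : PLift (bnd (fT0 20 1 0 2 0 26)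
    (fT0 21 0 0 2 0 6) = true) :=
  ⟨by decide +kernel⟩

def cT0_0_55 : PLift (bnd (fT0 21 0 0 2 6 17)
    (fT0 21 1 0 2 0 15) = true) :=
  ⟨by decide +kernel⟩

def cT0_0_56 : PLift (bnd (fT0 21 1 0 2 15 9)
    (fT0 22 0 0 2 0 21) = true) :=
  ⟨by decide +kernel⟩

def cT0_0_57 : PLift (bnd (fT0 22 1 0 2 0 22)
    (fT0 23 0 0 2 0 10) = true) :=
  ⟨by decide +kernel⟩

def cT0_0_58 : PLift (bnd (fT0 23 0 0 2 10 9)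
    (fT0 23 1 0 2 0 20) = true) :=
  ⟨by decide +kernel⟩

def cT0_0_59 : PLift (bnd (fT0 24 0 0 2 0 17)
    (fT0 24 1 0 2 0 15) = true) :=
  ⟨by decide +kernel⟩

def cT0_0_60 : PLift (bnd (fT0 24 1 0 2 15 3)
    (bnd (fT0 25 0 0 2 0 15)
    (fT0 25 1 0 2 0 13)) = true) :=
  ⟨by decide +kernel⟩

def cT0_0_61 : PLift (bnd (fT0 25 1 0 2 13 3)
    (bnd (fT0 26 0 0 2 0 13)
    (fT0 26 1 0 2 0 14)) = true) :=
  ⟨by decide +kernel⟩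

def cT0_0_62 : PLift (bnd (fT0 27 0 0 2 0 11)
    (bnd (fT0 27 1 0 2 0 12)
    (fT0 28 0 0 2 0 9)) = true) :=
  ⟨by decide +kernel⟩

def cT0_0_63 : PLift (bnd (fT0 28 1 0 2 0 10)
    (bnd (fT0 29 0 0 2 0 7)
    (bnd (fT0 29 1 0 2 0 8)
    (fT0 30 0 0 2 0 5))) = true) :=
  ⟨by decide +kernel⟩

def cT0_0_64 : PLift (bnd (fT0 30 1 0 2 0 6)
    (bnd (fT0 31 0 0 2 0 3)
    (bnd (fT0 31 1 0 2 0 4)
    (bnd (fT0 32 0 0 2 0 1)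
    (fT0 32 1 0 2 0 2)))) = true) :=
  ⟨by decide +kernel⟩

def cT0_2_0 : PLift (fT0 1 0 2 2 0 23 = true) :=
  ⟨by decide +kernel⟩

def cT0_2_1 : PLift (fT0 1 0 2 2 23 23 = true) :=
  ⟨by decide +kernel⟩

def cT0_2_2 : PLift (bnd (fT0 1 0 2 2 46 17)
    (fT0 1 1 2 2 0 4) = true) :=
  ⟨by decide +kernel⟩

def cT0_2_3 : PLift (fT0 1 1 2 2 4 23 = true) :=
  ⟨by decide +kernel⟩

def cT0_2_4 : PLift (fT0 1 1 2 2 27 23 = true) :=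
  ⟨by decide +kernel⟩

def cT0_2_5 : PLift (bnd (fT0 1 1 2 2 50 14)
    (fT0 2 0 2 2 0 7) = true) :=
  ⟨by decide +kernel⟩

def cT0_2_6 : PLift (fT0 2 0 2 2 7 23 = true) :=
  ⟨by decide +kernel⟩

end Pool.Agent.Work.MP_6bf1e5_an.HD
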