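import Pool.Agent.Work.MP_6bf1e5_an.HD.CfT0

/-! Checks of the pass T0, part 20. -/

namespace Pool.Agent.Work.MP_6bf1e5_an.HD

open Pool.Agent.Lib.KLA Pool.Agent.Lib.KBlk

def cT0_12_7 : PLift (fT0 2 0 12 3 9 20 = true) :=
  ⟨by decide +kernel⟩

def cT0_12_8 : PLift (fT0 2 0 12 3 29 20 = true) :=
  ⟨by decide +kernel⟩

def cT0_12_9 : PLift (bnd (fT0 2 0 12 3 49 12)
    (fT0 2 1 12 3 0 6) = true) :=
  ⟨by decide +kernel⟩

def cT0_12_10 : PLift (fT0 2 1 12 3 6 20 = true) :=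
  ⟨by decide +kernel⟩

def cT0_12_11 : PLift (fT0 2 1 12 3 26 20 = true) :=
  ⟨by decide +kernel⟩

def cT0_12_12 : PLift (fT0 2 1 12 3 46 16 = true) :=
  ⟨by decide +kernel⟩

def cT0_12_13 : PLift (fT0 3 0 12 3 0 20 = true) :=
  ⟨by decide +kernel⟩

def cT0_12_14 : PLift (fT0 3 0 12 3 20 20 = true) :=
  ⟨by decide +kernel⟩

def cT0_12_15 : PLift (fT0 3 0 12 3 40 19 = true) :=
  ⟨by decide +kernel⟩

def cT0_12_16 : PLift (fT0 3 1 12 3 0 20 = true) :=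
  ⟨by decide +kernel⟩

def cT0_12_17 : PLift (fT0 3 1 12 3 20 20 = true) :=
  ⟨by decide +kernel⟩

def cT0_12_18 : PLift (fT0 3 1 12 3 40 20 = true) :=
  ⟨by decide +kernel⟩

def cT0_12_19 : PLift (fT0 4 0 12 3 0 20 = true) :=
  ⟨by decide +kernel⟩

def cT0_12_20 : PLift (fT0 4 0 12 3 20 20 = true) :=
  ⟨by decide +kernel⟩

def cT0_12_21 : PLift (fT0 4 0 12 3 40 17 = true) :=
  ⟨by decide +kernel⟩

def cT0_12_22 : PLift (fT0 4 1 12 3 0 20 = true) :=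
  ⟨by decide +kernel⟩

def cT0_12_23 : PLift (fT0 4 1 12 3 20 20 = true) :=
  ⟨by decide +kernel⟩

def cT0_12_24 : PLift (fT0 4 1 12 3 40 18 = true) :=
  ⟨by decide +kernel⟩

def cT0_12_25 : PLift (fT0 5 0 12 3 0 20 = true) :=
  ⟨by decide +kernel⟩

def cT0_12_26 : PLift (fT0 5 0 12 3 20 20 = true) :=
  ⟨by decide +kernel⟩

def cT0_12_27 : PLift (fT0 5 0 12 3 40 15 = true) :=
  ⟨by decide +kernel⟩

def cT0_12_28 : PLift (fT0 5 1 12 3 0 20 = true) :=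
  ⟨by decide +kernel⟩

def cT0_12_29 : PLift (fT0 5 1 12 3 20 20 = true) :=
  ⟨by decide +kernel⟩

def cT0_12_30 : PLift (fT0 5 1 12 3 40 16 = true) :=
  ⟨by decide +kernel⟩

def cT0_12_31 : PLift (fT0 6 0 12 3 0 20 = true) :=
  ⟨by decide +kernel⟩

def cT0_12_32 : PLift (fT0 6 0 12 3 20 20 = true) :=
  ⟨by decide +kernel⟩

end Pool.Agent.Work.MP_6bf1e5_an.HD
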