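import Pool.Agent.Work.MP_6bf1e5_an.HD.CfT0

/-! Checks of the pass T0, part 21. -/

namespace Pool.Agent.Work.MP_6bf1e5_an.HD

open Pool.Agent.Lib.KLA Pool.Agent.Lib.KBlk

def cT0_12_33 : PLift (fT0 6 0 12 3 40 13 = true) :=
  ⟨by decide +kernel⟩

def cT0_12_34 : PLift (fT0 6 1 12 3 0 20 = true) :=
  ⟨by decide +kernel⟩

def cT0_12_35 : PLift (fT0 6 1 12 3 20 20 = true) :=
  ⟨by decide +kernel⟩

def cT0_12_36 : PLift (fT0 6 1 12 3 40 14 = true) :=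
  ⟨by decide +kernel⟩

def cT0_12_37 : PLift (fT0 7 0 12 3 0 20 = true) :=
  ⟨by decide +kernel⟩

def cT0_12_38 : PLift (fT0 7 0 12 3 20 20 = true) :=
  ⟨by decide +kernel⟩

def cT0_12_39 : PLift (bnd (fT0 7 0 12 3 40 11)
    (fT0 7 1 12 3 0 7) = true) :=
  ⟨by decide +kernel⟩

def cT0_12_40 : PLift (fT0 7 1 12 3 7 20 = true) :=
  ⟨by decide +kernel⟩

def cT0_12_41 : PLift (fT0 7 1 12 3 27 20 = true) :=
  ⟨by decide +kernel⟩

def cT0_12_42 : PLift (bnd (fT0 7 1 12 3 47 5)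
    (fT0 8 0 12 3 0 13) = true) :=
  ⟨by decide +kernel⟩

def cT0_12_43 : PLift (fT0 8 0 12 3 13 20 = true) :=
  ⟨by decide +kernel⟩

def cT0_12_44 : PLift (fT0 8 0 12 3 33 16 = true) :=
  ⟨by decide +kernel⟩

def cT0_12_45 : PLift (fT0 8 1 12 3 0 20 = true) :=
  ⟨by decide +kernel⟩

def cT0_12_46 : PLift (fT0 8 1 12 3 20 20 = true) :=
  ⟨by decide +kernel⟩

def cT0_12_47 : PLift (bnd (fT0 8 1 12 3 40 10)
    (fT0 9 0 12 3 0 8) = true) :=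
  ⟨by decide +kernel⟩

def cT0_12_48 : PLift (fT0 9 0 12 3 8 20 = true) :=
  ⟨by decide +kernel⟩

def cT0_12_49 : PLift (fT0 9 0 12 3 28 19 = true) :=
  ⟨by decide +kernel⟩

def cT0_12_50 : PLift (fT0 9 1 12 3 0 20 = true) :=
  ⟨by decide +kernel⟩

def cT0_12_51 : PLift (fT0 9 1 12 3 20 20 = true) :=
  ⟨by decide +kernel⟩

def cT0_12_52 : PLift (bnd (fT0 9 1 12 3 40 8)
    (fT0 10 0 12 3 0 10) = true) :=
  ⟨by decide +kernel⟩

def cT0_12_53 : PLift (fT0 10 0 12 3 10 20 = true) :=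
  ⟨by decide +kernel⟩

def cT0_12_54 : PLift (fT0 10 0 12 3 30 15 = true) :=
  ⟨by decide +kernel⟩

def cT0_12_55 : PLift (fT0 10 1 12 3 0 20 = true) :=
  ⟨by decide +kernel⟩

def cT0_12_56 : PLift (fT0 10 1 12 3 20 20 = true) :=
  ⟨by decide +kernel⟩

def cT0_12_57 : PLift (bnd (fT0 10 1 12 3 40 6)
    (fT0 11 0 12 3 0 12) = true) :=
  ⟨by decide +kernel⟩

def cT0_12_58 : PLift (fT0 11 0 12 3 12 20 = true) :=
  ⟨by decide +kernel⟩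

end Pool.Agent.Work.MP_6bf1e5_an.HD
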