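import Pool.Agent.Work.MP_6bf1e5_an.HD.CfT0

/-! Checks of the pass T0, part 22. -/

namespace Pool.Agent.Work.MP_6bf1e5_an.HD

open Pool.Agent.Lib.KLA Pool.Agent.Lib.KBlk

def cT0_12_59 : PLift (bnd (fT0 11 0 12 3 32 11)
    (fT0 11 1 12 3 0 7) = true) :=
  ⟨by decide +kernel⟩

def cT0_12_60 : PLift (fT0 11 1 12 3 7 20 = true) :=
  ⟨by decide +kernel⟩

def cT0_12_61 : PLift (fT0 11 1 12 3 27 17 = true) :=
  ⟨by decide +kernel⟩

def cT0_12_62 : PLift (fT0 12 0 12 3 0 20 = true) :=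
  ⟨by decide +kernel⟩

def cT0_12_63 : PLift (fT0 12 0 12 3 20 20 = true) :=
  ⟨by decide +kernel⟩

def cT0_12_64 : PLift (bnd (fT0 12 0 12 3 40 1)
    (fT0 12 1 12 3 0 17) = true) :=
  ⟨by decide +kernel⟩

def cT0_12_65 : PLift (fT0 12 1 12 3 17 20 = true) :=
  ⟨by decide +kernel⟩

def cT0_12_66 : PLift (bnd (fT0 12 1 12 3 37 5)
    (fT0 13 0 12 3 0 13) = true) :=
  ⟨by decide +kernel⟩

def cT0_12_67 : PLift (fT0 13 0 12 3 13 20 = true) :=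
  ⟨by decide +kernel⟩

def cT0_12_68 : PLift (bnd (fT0 13 0 12 3 33 6)
    (fT0 13 1 12 3 0 12) = true) :=
  ⟨by decide +kernel⟩

def cT0_12_69 : PLift (fT0 13 1 12 3 12 20 = true) :=
  ⟨by decide +kernel⟩

def cT0_12_70 : PLift (bnd (fT0 13 1 12 3 32 8)
    (fT0 14 0 12 3 0 10) = true) :=
  ⟨by decide +kernel⟩

def cT0_12_71 : PLift (fT0 14 0 12 3 10 20 = true) :=
  ⟨by decide +kernel⟩

def cT0_12_72 : PLift (bnd (fT0 14 0 12 3 30 7)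
    (fT0 14 1 12 3 0 11) = true) :=
  ⟨by decide +kernel⟩

def cT0_12_73 : PLift (fT0 14 1 12 3 11 20 = true) :=
  ⟨by decide +kernel⟩

def cT0_12_74 : PLift (bnd (fT0 14 1 12 3 31 7)
    (fT0 15 0 12 3 0 11) = true) :=
  ⟨by decide +kernel⟩

def cT0_12_75 : PLift (fT0 15 0 12 3 11 20 = true) :=
  ⟨by decide +kernel⟩

def cT0_12_76 : PLift (bnd (fT0 15 0 12 3 31 4)
    (fT0 15 1 12 3 0 14) = true) :=
  ⟨by decide +kernel⟩

def cT0_12_77 : PLift (fT0 15 1 12 3 14 20 = true) :=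
  ⟨by decide +kernel⟩

def cT0_12_78 : PLift (bnd (fT0 15 1 12 3 34 2)
    (fT0 16 0 12 3 0 16) = true) :=
  ⟨by decide +kernel⟩

def cT0_12_79 : PLift (fT0 16 0 12 3 16 17 = true) :=
  ⟨by decide +kernel⟩

def cT0_12_80 : PLift (fT0 16 1 12 3 0 20 = true) :=
  ⟨by decide +kernel⟩

def cT0_12_81 : PLift (fT0 16 1 12 3 20 14 = true) :=
  ⟨by decide +kernel⟩

def cT0_12_82 : PLift (fT0 17 0 12 3 0 20 = true) :=
  ⟨by decide +kernel⟩

def cT0_12_83 : PLift (bnd (fT0 17 0 12 3 20 11)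
    (fT0 17 1 12 3 0 7) = true) :=
  ⟨by decide +kernel⟩

end Pool.Agent.Work.MP_6bf1e5_an.HD
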