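import Pool.Agent.Work.MP_6bf1e5_an.HD.CfT0

/-! Checks of the pass T0, part 23. -/

namespace Pool.Agent.Work.MP_6bf1e5_an.HD

open Pool.Agent.Lib.KLA Pool.Agent.Lib.KBlk

def cT0_12_84 : PLift (fT0 17 1 12 3 7 20 = true) :=
  ⟨by decide +kernel⟩

def cT0_12_85 : PLift (bnd (fT0 17 1 12 3 27 5)
    (fT0 18 0 12 3 0 13) = true) :=
  ⟨by decide +kernel⟩

def cT0_12_86 : PLift (fT0 18 0 12 3 13 16 = true) :=
  ⟨by decide +kernel⟩

def cT0_12_87 : PLift (fT0 18 1 12 3 0 20 = true) :=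
  ⟨by decide +kernel⟩

def cT0_12_88 : PLift (bnd (fT0 18 1 12 3 20 10)
    (fT0 19 0 12 3 0 8) = true) :=
  ⟨by decide +kernel⟩

def cT0_12_89 : PLift (fT0 19 0 12 3 8 19 = true) :=
  ⟨by decide +kernel⟩

def cT0_12_90 : PLift (fT0 19 1 12 3 0 20 = true) :=
  ⟨by decide +kernel⟩

def cT0_12_91 : PLift (bnd (fT0 19 1 12 3 20 8)
    (fT0 20 0 12 3 0 10) = true) :=
  ⟨by decide +kernel⟩

def cT0_12_92 : PLift (fT0 20 0 12 3 10 15 = true) :=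
  ⟨by decide +kernel⟩

def cT0_12_93 : PLift (fT0 20 1 12 3 0 20 = true) :=
  ⟨by decide +kernel⟩

def cT0_12_94 : PLift (bnd (fT0 20 1 12 3 20 6)
    (fT0 21 0 12 3 0 12) = true) :=
  ⟨by decide +kernel⟩

def cT0_12_95 : PLift (bnd (fT0 21 0 12 3 12 11)
    (fT0 21 1 12 3 0 7) = true) :=
  ⟨by decide +kernel⟩

def cT0_12_96 : PLift (fT0 21 1 12 3 7 17 = true) :=
  ⟨by decide +kernel⟩

def cT0_12_97 : PLift (fT0 22 0 12 3 0 20 = true) :=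
  ⟨by decide +kernel⟩

def cT0_12_98 : PLift (bnd (fT0 22 0 12 3 20 1)
    (fT0 22 1 12 3 0 17) = true) :=
  ⟨by decide +kernel⟩

def cT0_12_99 : PLift (bnd (fT0 22 1 12 3 17 5)
    (fT0 23 0 12 3 0 13) = true) :=
  ⟨by decide +kernel⟩

def cT0_12_100 : PLift (bnd (fT0 23 0 12 3 13 6)
    (fT0 23 1 12 3 0 12) = true) :=
  ⟨by decide +kernel⟩

def cT0_12_101 : PLift (bnd (fT0 23 1 12 3 12 8)
    (fT0 24 0 12 3 0 10) = true) :=
  ⟨by decide +kernel⟩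

def cT0_12_102 : PLift (bnd (fT0 24 0 12 3 10 7)
    (fT0 24 1 12 3 0 11) = true) :=
  ⟨by decide +kernel⟩

def cT0_12_103 : PLift (bnd (fT0 24 1 12 3 11 7)
    (fT0 25 0 12 3 0 11) = true) :=
  ⟨by decide +kernel⟩

def cT0_12_104 : PLift (bnd (fT0 25 0 12 3 11 4)
    (fT0 25 1 12 3 0 14) = true) :=
  ⟨by decide +kernel⟩

def cT0_12_105 : PLift (bnd (fT0 25 1 12 3 14 2)
    (fT0 26 0 12 3 0 13) = true) :=
  ⟨by decide +kernel⟩

def cT0_12_106 : PLift (fT0 26 1 12 3 0 14 = true) :=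
  ⟨by decide +kernel⟩

def cT0_12_107 : PLift (bnd (fT0 27 0 12 3 0 11)
    (fT0 27 1 12 3 0 7) = true) :=
  ⟨by decide +kernel⟩

def cT0_12_108 : PLift (bnd (fT0 27 1 12 3 7 5)
    (fT0 28 0 12 3 0 9) = true) :=
  ⟨by decide +kernel⟩

def cT0_12_109 : PLift (bnd (fT0 28 1 12 3 0 10)
    (fT0 29 0 12 3 0 7) = true) :=
  ⟨by decide +kernel⟩

def cT0_12_110 : PLift (bnd (fT0 29 1 12 3 0 8)
    (fT0 30 0 12 3 0 5) = true) :=
  ⟨by decide +kernel⟩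

end Pool.Agent.Work.MP_6bf1e5_an.HD
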