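import Pool.Agent.Work.MP_6bf1e5_an.HD.CfT0

/-! Checks of the pass T0, part 24. -/

namespace Pool.Agent.Work.MP_6bf1e5_an.HD

open Pool.Agent.Lib.KLA Pool.Agent.Lib.KBlk

def cT0_12_111 : PLift (bnd (fT0 30 1 12 3 0 6)
    (bnd (fT0 31 0 12 3 0 3)
    (bnd (fT0 31 1 12 3 0 4)
    (fT0 32 0 12 3 0 1))) = true) :=
  ⟨by decide +kernel⟩

def cT0_12_112 : PLift (fT0 32 1 12 3 0 2 = true) :=
  ⟨by decide +kernel⟩

def cT0_15_0 : PLift (fT0 1 0 15 3 0 23 = true) :=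
  ⟨by decide +kernel⟩

def cT0_15_1 : PLift (fT0 1 0 15 3 23 23 = true) :=
  ⟨by decide +kernel⟩

def cT0_15_2 : PLift (fT0 1 0 15 3 46 17 = true) :=
  ⟨by decide +kernel⟩

def cT0_15_3 : PLift (fT0 1 1 15 3 0 23 = true) :=
  ⟨by decide +kernel⟩

def cT0_15_4 : PLift (fT0 1 1 15 3 23 23 = true) :=
  ⟨by decide +kernel⟩

def cT0_15_5 : PLift (fT0 1 1 15 3 46 18 = true) :=
  ⟨by decide +kernel⟩

def cT0_15_6 : PLift (fT0 2 0 15 3 0 23 = true) :=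
  ⟨by decide +kernel⟩

def cT0_15_7 : PLift (fT0 2 0 15 3 23 23 = true) :=
  ⟨by decide +kernel⟩

def cT0_15_8 : PLift (fT0 2 0 15 3 46 15 = true) :=
  ⟨by decide +kernel⟩

def cT0_15_9 : PLift (fT0 2 1 15 3 0 23 = true) :=
  ⟨by decide +kernel⟩

def cT0_15_10 : PLift (fT0 2 1 15 3 23 23 = true) :=
  ⟨by decide +kernel⟩

def cT0_15_11 : PLift (fT0 2 1 15 3 46 16 = true) :=
  ⟨by decide +kernel⟩

def cT0_15_12 : PLift (fT0 3 0 15 3 0 23 = true) :=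
  ⟨by decide +kernel⟩

def cT0_15_13 : PLift (fT0 3 0 15 3 23 23 = true) :=
  ⟨by decide +kernel⟩

def cT0_15_14 : PLift (bnd (fT0 3 0 15 3 46 13)
    (fT0 3 1 15 3 0 7) = true) :=
  ⟨by decide +kernel⟩

def cT0_15_15 : PLift (fT0 3 1 15 3 7 23 = true) :=
  ⟨by decide +kernel⟩

def cT0_15_16 : PLift (fT0 3 1 15 3 30 23 = true) :=
  ⟨by decide +kernel⟩

def cT0_15_17 : PLift (bnd (fT0 3 1 15 3 53 7)
    (fT0 4 0 15 3 0 13) = true) :=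
  ⟨by decide +kernel⟩

def cT0_15_18 : PLift (fT0 4 0 15 3 13 23 = true) :=
  ⟨by decide +kernel⟩

def cT0_15_19 : PLift (fT0 4 0 15 3 36 21 = true) :=
  ⟨by decide +kernel⟩

def cT0_15_20 : PLift (fT0 4 1 15 3 0 23 = true) :=
  ⟨by decide +kernel⟩

def cT0_15_21 : PLift (fT0 4 1 15 3 23 23 = true) :=
  ⟨by decide +kernel⟩

def cT0_15_22 : PLift (bnd (fT0 4 1 15 3 46 12)
    (fT0 5 0 15 3 0 9) = true) :=
  ⟨by decide +kernel⟩

def cT0_15_23 : PLift (fT0 5 0 15 3 9 23 = true) :=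
  ⟨by decide +kernel⟩

end Pool.Agent.Work.MP_6bf1e5_an.HD
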