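import Pool.Agent.Work.MP_6bf1e5_an.HD.CfT0

/-! Checks of the pass T0, part 25. -/

namespace Pool.Agent.Work.MP_6bf1e5_an.HD

open Pool.Agent.Lib.KLA Pool.Agent.Lib.KBlk

def cT0_15_24 : PLift (fT0 5 0 15 3 32 23 = true) :=
  ⟨by decide +kernel⟩

def cT0_15_25 : PLift (fT0 5 1 15 3 0 23 = true) :=
  ⟨by decide +kernel⟩

def cT0_15_26 : PLift (fT0 5 1 15 3 23 23 = true) :=
  ⟨by decide +kernel⟩

def cT0_15_27 : PLift (bnd (fT0 5 1 15 3 46 10)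
    (fT0 6 0 15 3 0 11) = true) :=
  ⟨by decide +kernel⟩

def cT0_15_28 : PLift (fT0 6 0 15 3 11 23 = true) :=
  ⟨by decide +kernel⟩

def cT0_15_29 : PLift (fT0 6 0 15 3 34 19 = true) :=
  ⟨by decide +kernel⟩

def cT0_15_30 : PLift (fT0 6 1 15 3 0 23 = true) :=
  ⟨by decide +kernel⟩

def cT0_15_31 : PLift (fT0 6 1 15 3 23 23 = true) :=
  ⟨by decide +kernel⟩

def cT0_15_32 : PLift (bnd (fT0 6 1 15 3 46 8)
    (fT0 7 0 15 3 0 13) = true) :=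
  ⟨by decide +kernel⟩

def cT0_15_33 : PLift (fT0 7 0 15 3 13 23 = true) :=
  ⟨by decide +kernel⟩

def cT0_15_34 : PLift (bnd (fT0 7 0 15 3 36 15)
    (fT0 7 1 15 3 0 6) = true) :=
  ⟨by decide +kernel⟩

def cT0_15_35 : PLift (fT0 7 1 15 3 6 23 = true) :=
  ⟨by decide +kernel⟩

def cT0_15_36 : PLift (fT0 7 1 15 3 29 23 = true) :=
  ⟨by decide +kernel⟩

def cT0_15_37 : PLift (fT0 8 0 15 3 0 23 = true) :=
  ⟨by decide +kernel⟩

def cT0_15_38 : PLift (fT0 8 0 15 3 23 23 = true) :=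
  ⟨by decide +kernel⟩

def cT0_15_39 : PLift (bnd (fT0 8 0 15 3 46 3)
    (fT0 8 1 15 3 0 18) = true) :=
  ⟨by decide +kernel⟩

def cT0_15_40 : PLift (fT0 8 1 15 3 18 23 = true) :=
  ⟨by decide +kernel⟩

def cT0_15_41 : PLift (bnd (fT0 8 1 15 3 41 9)
    (fT0 9 0 15 3 0 12) = true) :=
  ⟨by decide +kernel⟩

def cT0_15_42 : PLift (fT0 9 0 15 3 12 23 = true) :=
  ⟨by decide +kernel⟩

def cT0_15_43 : PLift (bnd (fT0 9 0 15 3 35 12)
    (fT0 9 1 15 3 0 9) = true) :=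
  ⟨by decide +kernel⟩

def cT0_15_44 : PLift (fT0 9 1 15 3 9 23 = true) :=
  ⟨by decide +kernel⟩

def cT0_15_45 : PLift (fT0 9 1 15 3 32 16 = true) :=
  ⟨by decide +kernel⟩

def cT0_15_46 : PLift (fT0 10 0 15 3 0 23 = true) :=
  ⟨by decide +kernel⟩

def cT0_15_47 : PLift (fT0 10 0 15 3 23 22 = true) :=
  ⟨by decide +kernel⟩

def cT0_15_48 : PLift (fT0 10 1 15 3 0 23 = true) :=
  ⟨by decide +kernel⟩

end Pool.Agent.Work.MP_6bf1e5_an.HD
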