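import Pool.Agent.Work.MP_6bf1e5_an.HD.CfT0

/-! Checks of the pass T0, part 26. -/

namespace Pool.Agent.Work.MP_6bf1e5_an.HD

open Pool.Agent.Lib.KLA Pool.Agent.Lib.KBlk

def cT0_15_49 : PLift (fT0 10 1 15 3 23 23 = true) :=
  ⟨by decide +kernel⟩

def cT0_15_50 : PLift (fT0 11 0 15 3 0 23 = true) :=
  ⟨by decide +kernel⟩

def cT0_15_51 : PLift (fT0 11 0 15 3 23 20 = true) :=
  ⟨by decide +kernel⟩

def cT0_15_52 : PLift (fT0 11 1 15 3 0 23 = true) :=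
  ⟨by decide +kernel⟩

def cT0_15_53 : PLift (fT0 11 1 15 3 23 21 = true) :=
  ⟨by decide +kernel⟩

def cT0_15_54 : PLift (fT0 12 0 15 3 0 23 = true) :=
  ⟨by decide +kernel⟩

def cT0_15_55 : PLift (fT0 12 0 15 3 23 18 = true) :=
  ⟨by decide +kernel⟩

def cT0_15_56 : PLift (fT0 12 1 15 3 0 23 = true) :=
  ⟨by decide +kernel⟩

def cT0_15_57 : PLift (fT0 12 1 15 3 23 19 = true) :=
  ⟨by decide +kernel⟩

def cT0_15_58 : PLift (fT0 13 0 15 3 0 23 = true) :=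
  ⟨by decide +kernel⟩

def cT0_15_59 : PLift (fT0 13 0 15 3 23 16 = true) :=
  ⟨by decide +kernel⟩

def cT0_15_60 : PLift (fT0 13 1 15 3 0 23 = true) :=
  ⟨by decide +kernel⟩

def cT0_15_61 : PLift (fT0 13 1 15 3 23 17 = true) :=
  ⟨by decide +kernel⟩

def cT0_15_62 : PLift (fT0 14 0 15 3 0 23 = true) :=
  ⟨by decide +kernel⟩

def cT0_15_63 : PLift (bnd (fT0 14 0 15 3 23 14)
    (fT0 14 1 15 3 0 7) = true) :=
  ⟨by decide +kernel⟩

def cT0_15_64 : PLift (fT0 14 1 15 3 7 23 = true) :=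
  ⟨by decide +kernel⟩

def cT0_15_65 : PLift (bnd (fT0 14 1 15 3 30 8)
    (fT0 15 0 15 3 0 13) = true) :=
  ⟨by decide +kernel⟩

def cT0_15_66 : PLift (fT0 15 0 15 3 13 22 = true) :=
  ⟨by decide +kernel⟩

def cT0_15_67 : PLift (fT0 15 1 15 3 0 23 = true) :=
  ⟨by decide +kernel⟩

def cT0_15_68 : PLift (bnd (fT0 15 1 15 3 23 13)
    (fT0 16 0 15 3 0 8) = true) :=
  ⟨by decide +kernel⟩

def cT0_15_69 : PLift (fT0 16 0 15 3 8 23 = true) :=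
  ⟨by decide +kernel⟩

def cT0_15_70 : PLift (bnd (fT0 16 0 15 3 31 2)
    (fT0 16 1 15 3 0 19) = true) :=
  ⟨by decide +kernel⟩

def cT0_15_71 : PLift (bnd (fT0 16 1 15 3 19 15)
    (fT0 17 0 15 3 0 6) = true) :=
  ⟨by decide +kernel⟩

def cT0_15_72 : PLift (fT0 17 0 15 3 6 23 = true) :=
  ⟨by decide +kernel⟩

def cT0_15_73 : PLift (bnd (fT0 17 0 15 3 29 2)
    (fT0 17 1 15 3 0 19) = true) :=
  ⟨by decide +kernel⟩

def cT0_15_74 : PLift (bnd (fT0 17 1 15 3 19 13)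
    (fT0 18 0 15 3 0 8) = true) :=
  ⟨by decide +kernel⟩

end Pool.Agent.Work.MP_6bf1e5_an.HD
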