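import Pool.Agent.Work.MP_6bf1e5_an.HD.CfT0

/-! Checks of the pass T0, part 27. -/

namespace Pool.Agent.Work.MP_6bf1e5_an.HD

open Pool.Agent.Lib.KLA Pool.Agent.Lib.KBlk

def cT0_15_75 : PLift (fT0 18 0 15 3 8 21 = true) :=
  ⟨by decide +kernel⟩

def cT0_15_76 : PLift (fT0 18 1 15 3 0 23 = true) :=
  ⟨by decide +kernel⟩

def cT0_15_77 : PLift (bnd (fT0 18 1 15 3 23 7)
    (fT0 19 0 15 3 0 14) = true) :=
  ⟨by decide +kernel⟩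

def cT0_15_78 : PLift (bnd (fT0 19 0 15 3 14 13)
    (fT0 19 1 15 3 0 8) = true) :=
  ⟨by decide +kernel⟩

def cT0_15_79 : PLift (fT0 19 1 15 3 8 20 = true) :=
  ⟨by decide +kernel⟩

def cT0_15_80 : PLift (fT0 20 0 15 3 0 23 = true) :=
  ⟨by decide +kernel⟩

def cT0_15_81 : PLift (bnd (fT0 20 0 15 3 23 2)
    (fT0 20 1 15 3 0 19) = true) :=
  ⟨by decide +kernel⟩

def cT0_15_82 : PLift (bnd (fT0 20 1 15 3 19 7)
    (fT0 21 0 15 3 0 14) = true) :=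
  ⟨by decide +kernel⟩

def cT0_15_83 : PLift (bnd (fT0 21 0 15 3 14 9)
    (fT0 21 1 15 3 0 12) = true) :=
  ⟨by decide +kernel⟩

def cT0_15_84 : PLift (bnd (fT0 21 1 15 3 12 12)
    (fT0 22 0 15 3 0 9) = true) :=
  ⟨by decide +kernel⟩

def cT0_15_85 : PLift (bnd (fT0 22 0 15 3 9 12)
    (fT0 22 1 15 3 0 9) = true) :=
  ⟨by decide +kernel⟩

def cT0_15_86 : PLift (bnd (fT0 22 1 15 3 9 13)
    (fT0 23 0 15 3 0 8) = true) :=
  ⟨by decide +kernel⟩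

def cT0_15_87 : PLift (bnd (fT0 23 0 15 3 8 11)
    (fT0 23 1 15 3 0 10) = true) :=
  ⟨by decide +kernel⟩

def cT0_15_88 : PLift (bnd (fT0 23 1 15 3 10 10)
    (fT0 24 0 15 3 0 11) = true) :=
  ⟨by decide +kernel⟩

def cT0_15_89 : PLift (bnd (fT0 24 0 15 3 11 6)
    (fT0 24 1 15 3 0 15) = true) :=
  ⟨by decide +kernel⟩

def cT0_15_90 : PLift (bnd (fT0 24 1 15 3 15 3)
    (fT0 25 0 15 3 0 15) = true) :=
  ⟨by decide +kernel⟩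

def cT0_15_91 : PLift (fT0 25 1 15 3 0 16 = true) :=
  ⟨by decide +kernel⟩

def cT0_15_92 : PLift (bnd (fT0 26 0 15 3 0 13)
    (fT0 26 1 15 3 0 8) = true) :=
  ⟨by decide +kernel⟩

def cT0_15_93 : PLift (bnd (fT0 26 1 15 3 8 6)
    (fT0 27 0 15 3 0 11) = true) :=
  ⟨by decide +kernel⟩

def cT0_15_94 : PLift (bnd (fT0 27 1 15 3 0 12)
    (fT0 28 0 15 3 0 9) = true) :=
  ⟨by decide +kernel⟩

def cT0_15_95 : PLift (bnd (fT0 28 1 15 3 0 10)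
    (fT0 29 0 15 3 0 7) = true) :=
  ⟨by decide +kernel⟩

def cT0_15_96 : PLift (bnd (fT0 29 1 15 3 0 8)
    (bnd (fT0 30 0 15 3 0 5)
    (fT0 30 1 15 3 0 6)) = true) :=
  ⟨by decide +kernel⟩

def cT0_15_97 : PLift (bnd (fT0 31 0 15 3 0 3)
    (bnd (fT0 31 1 15 3 0 4)
    (bnd (fT0 32 0 15 3 0 1)
    (fT0 32 1 15 3 0 2))) = true) :=
  ⟨by decide +kernel⟩

def cT0_18_0 : PLift (fT0 1 0 18 3 0 27 = true) :=
  ⟨by decide +kernel⟩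

def cT0_18_1 : PLift (fT0 1 0 18 3 27 27 = true) :=
  ⟨by decide +kernel⟩

def cT0_18_2 : PLift (bnd (fT0 1 0 18 3 54 9)
    (fT0 1 1 18 3 0 15) = true) :=
  ⟨by decide +kernel⟩

end Pool.Agent.Work.MP_6bf1e5_an.HD
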