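import Pool.Agent.Work.MP_6bf1e5_an.HD.CfT0

/-! Checks of the pass T0, part 28. -/

namespace Pool.Agent.Work.MP_6bf1e5_an.HD

open Pool.Agent.Lib.KLA Pool.Agent.Lib.KBlk

def cT0_18_3 : PLift (fT0 1 1 18 3 15 27 = true) :=
  ⟨by decide +kernel⟩

def cT0_18_4 : PLift (fT0 1 1 18 3 42 22 = true) :=
  ⟨by decide +kernel⟩

def cT0_18_5 : PLift (fT0 2 0 18 3 0 27 = true) :=
  ⟨by decide +kernel⟩

def cT0_18_6 : PLift (fT0 2 0 18 3 27 27 = true) :=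
  ⟨by decide +kernel⟩

def cT0_18_7 : PLift (bnd (fT0 2 0 18 3 54 7)
    (fT0 2 1 18 3 0 17) = true) :=
  ⟨by decide +kernel⟩

def cT0_18_8 : PLift (fT0 2 1 18 3 17 27 = true) :=
  ⟨by decide +kernel⟩

def cT0_18_9 : PLift (bnd (fT0 2 1 18 3 44 18)
    (fT0 3 0 18 3 0 6) = true) :=
  ⟨by decide +kernel⟩

def cT0_18_10 : PLift (fT0 3 0 18 3 6 27 = true) :=
  ⟨by decide +kernel⟩

def cT0_18_11 : PLift (fT0 3 0 18 3 33 26 = true) :=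
  ⟨by decide +kernel⟩

def cT0_18_12 : PLift (fT0 3 1 18 3 0 27 = true) :=
  ⟨by decide +kernel⟩

def cT0_18_13 : PLift (fT0 3 1 18 3 27 27 = true) :=
  ⟨by decide +kernel⟩

def cT0_18_14 : PLift (bnd (fT0 3 1 18 3 54 6)
    (fT0 4 0 18 3 0 18) = true) :=
  ⟨by decide +kernel⟩

def cT0_18_15 : PLift (fT0 4 0 18 3 18 27 = true) :=
  ⟨by decide +kernel⟩

def cT0_18_16 : PLift (bnd (fT0 4 0 18 3 45 12)
    (fT0 4 1 18 3 0 12) = true) :=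
  ⟨by decide +kernel⟩

def cT0_18_17 : PLift (fT0 4 1 18 3 12 27 = true) :=
  ⟨by decide +kernel⟩

def cT0_18_18 : PLift (fT0 4 1 18 3 39 19 = true) :=
  ⟨by decide +kernel⟩

def cT0_18_19 : PLift (fT0 5 0 18 3 0 27 = true) :=
  ⟨by decide +kernel⟩

def cT0_18_20 : PLift (fT0 5 0 18 3 27 27 = true) :=
  ⟨by decide +kernel⟩

def cT0_18_21 : PLift (bnd (fT0 5 0 18 3 54 1)
    (fT0 5 1 18 3 0 23) = true) :=
  ⟨by decide +kernel⟩

def cT0_18_22 : PLift (fT0 5 1 18 3 23 27 = true) :=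
  ⟨by decide +kernel⟩

def cT0_18_23 : PLift (bnd (fT0 5 1 18 3 50 6)
    (fT0 6 0 18 3 0 18) = true) :=
  ⟨by decide +kernel⟩

def cT0_18_24 : PLift (fT0 6 0 18 3 18 27 = true) :=
  ⟨by decide +kernel⟩

def cT0_18_25 : PLift (bnd (fT0 6 0 18 3 45 8)
    (fT0 6 1 18 3 0 16) = true) :=
  ⟨by decide +kernel⟩

def cT0_18_26 : PLift (fT0 6 1 18 3 16 27 = true) :=
  ⟨by decide +kernel⟩

end Pool.Agent.Work.MP_6bf1e5_an.HD
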