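import Pool.Agent.Work.MP_6bf1e5_an.HD.CfT0

/-! Checks of the pass T0, part 29. -/

namespace Pool.Agent.Work.MP_6bf1e5_an.HD

open Pool.Agent.Lib.KLA Pool.Agent.Lib.KBlk

def cT0_18_27 : PLift (bnd (fT0 6 1 18 3 43 11)
    (fT0 7 0 18 3 0 13) = true) :=
  ⟨by decide +kernel⟩

def cT0_18_28 : PLift (fT0 7 0 18 3 13 27 = true) :=
  ⟨by decide +kernel⟩

def cT0_18_29 : PLift (bnd (fT0 7 0 18 3 40 11)
    (fT0 7 1 18 3 0 13) = true) :=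
  ⟨by decide +kernel⟩

def cT0_18_30 : PLift (fT0 7 1 18 3 13 27 = true) :=
  ⟨by decide +kernel⟩

def cT0_18_31 : PLift (bnd (fT0 7 1 18 3 40 12)
    (fT0 8 0 18 3 0 12) = true) :=
  ⟨by decide +kernel⟩

def cT0_18_32 : PLift (fT0 8 0 18 3 12 27 = true) :=
  ⟨by decide +kernel⟩

def cT0_18_33 : PLift (bnd (fT0 8 0 18 3 39 10)
    (fT0 8 1 18 3 0 14) = true) :=
  ⟨by decide +kernel⟩

def cT0_18_34 : PLift (fT0 8 1 18 3 14 27 = true) :=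
  ⟨by decide +kernel⟩

def cT0_18_35 : PLift (bnd (fT0 8 1 18 3 41 9)
    (fT0 9 0 18 3 0 15) = true) :=
  ⟨by decide +kernel⟩

def cT0_18_36 : PLift (fT0 9 0 18 3 15 27 = true) :=
  ⟨by decide +kernel⟩

def cT0_18_37 : PLift (bnd (fT0 9 0 18 3 42 5)
    (fT0 9 1 18 3 0 19) = true) :=
  ⟨by decide +kernel⟩

def cT0_18_38 : PLift (fT0 9 1 18 3 19 27 = true) :=
  ⟨by decide +kernel⟩

def cT0_18_39 : PLift (bnd (fT0 9 1 18 3 46 2)
    (fT0 10 0 18 3 0 22) = true) :=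
  ⟨by decide +kernel⟩

def cT0_18_40 : PLift (fT0 10 0 18 3 22 23 = true) :=
  ⟨by decide +kernel⟩

def cT0_18_41 : PLift (fT0 10 1 18 3 0 27 = true) :=
  ⟨by decide +kernel⟩

def cT0_18_42 : PLift (fT0 10 1 18 3 27 19 = true) :=
  ⟨by decide +kernel⟩

def cT0_18_43 : PLift (fT0 11 0 18 3 0 27 = true) :=
  ⟨by decide +kernel⟩

def cT0_18_44 : PLift (bnd (fT0 11 0 18 3 27 16)
    (fT0 11 1 18 3 0 8) = true) :=
  ⟨by decide +kernel⟩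

def cT0_18_45 : PLift (fT0 11 1 18 3 8 27 = true) :=
  ⟨by decide +kernel⟩

def cT0_18_46 : PLift (bnd (fT0 11 1 18 3 35 9)
    (fT0 12 0 18 3 0 15) = true) :=
  ⟨by decide +kernel⟩

def cT0_18_47 : PLift (fT0 12 0 18 3 15 26 = true) :=
  ⟨by decide +kernel⟩

def cT0_18_48 : PLift (fT0 12 1 18 3 0 27 = true) :=
  ⟨by decide +kernel⟩

def cT0_18_49 : PLift (bnd (fT0 12 1 18 3 27 15)
    (fT0 13 0 18 3 0 9) = true) :=
  ⟨by decide +kernel⟩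

def cT0_18_50 : PLift (fT0 13 0 18 3 9 27 = true) :=
  ⟨by decide +kernel⟩

end Pool.Agent.Work.MP_6bf1e5_an.HD
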