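import Pool.Agent.Work.MP_6bf1e5_an.HD.CfT0

/-! Checks of the pass T0, part 3. -/

namespace Pool.Agent.Work.MP_6bf1e5_an.HD

open Pool.Agent.Lib.KLA Pool.Agent.Lib.KBlk

def cT0_2_7 : PLift (fT0 2 0 2 2 30 23 = true) :=
  ⟨by decide +kernel⟩

def cT0_2_8 : PLift (bnd (fT0 2 0 2 2 53 8)
    (fT0 2 1 2 2 0 13) = true) :=
  ⟨by decide +kernel⟩

def cT0_2_9 : PLift (fT0 2 1 2 2 13 23 = true) :=
  ⟨by decide +kernel⟩

def cT0_2_10 : PLift (fT0 2 1 2 2 36 23 = true) :=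
  ⟨by decide +kernel⟩

def cT0_2_11 : PLift (bnd (fT0 2 1 2 2 59 3)
    (fT0 3 0 2 2 0 18) = true) :=
  ⟨by decide +kernel⟩

def cT0_2_12 : PLift (fT0 3 0 2 2 18 23 = true) :=
  ⟨by decide +kernel⟩

def cT0_2_13 : PLift (bnd (fT0 3 0 2 2 41 18)
    (fT0 3 1 2 2 0 3) = true) :=
  ⟨by decide +kernel⟩

def cT0_2_14 : PLift (fT0 3 1 2 2 3 23 = true) :=
  ⟨by decide +kernel⟩

def cT0_2_15 : PLift (fT0 3 1 2 2 26 23 = true) :=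
  ⟨by decide +kernel⟩

def cT0_2_16 : PLift (bnd (fT0 3 1 2 2 49 11)
    (fT0 4 0 2 2 0 10) = true) :=
  ⟨by decide +kernel⟩

def cT0_2_17 : PLift (fT0 4 0 2 2 10 23 = true) :=
  ⟨by decide +kernel⟩

def cT0_2_18 : PLift (fT0 4 0 2 2 33 23 = true) :=
  ⟨by decide +kernel⟩

def cT0_2_19 : PLift (bnd (fT0 4 0 2 2 56 1)
    (fT0 4 1 2 2 0 20) = true) :=
  ⟨by decide +kernel⟩

def cT0_2_20 : PLift (fT0 4 1 2 2 20 23 = true) :=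
  ⟨by decide +kernel⟩

def cT0_2_21 : PLift (bnd (fT0 4 1 2 2 43 15)
    (fT0 5 0 2 2 0 6) = true) :=
  ⟨by decide +kernel⟩

def cT0_2_22 : PLift (fT0 5 0 2 2 6 23 = true) :=
  ⟨by decide +kernel⟩

def cT0_2_23 : PLift (fT0 5 0 2 2 29 23 = true) :=
  ⟨by decide +kernel⟩

def cT0_2_24 : PLift (bnd (fT0 5 0 2 2 52 3)
    (fT0 5 1 2 2 0 18) = true) :=
  ⟨by decide +kernel⟩

def cT0_2_25 : PLift (fT0 5 1 2 2 18 23 = true) :=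
  ⟨by decide +kernel⟩

def cT0_2_26 : PLift (bnd (fT0 5 1 2 2 41 15)
    (fT0 6 0 2 2 0 6) = true) :=
  ⟨by decide +kernel⟩

def cT0_2_27 : PLift (fT0 6 0 2 2 6 23 = true) :=
  ⟨by decide +kernel⟩

def cT0_2_28 : PLift (fT0 6 0 2 2 29 23 = true) :=
  ⟨by decide +kernel⟩

def cT0_2_29 : PLift (bnd (fT0 6 0 2 2 52 1)
    (fT0 6 1 2 2 0 20) = true) :=
  ⟨by decide +kernel⟩

def cT0_2_30 : PLift (fT0 6 1 2 2 20 23 = true) :=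
  ⟨by decide +kernel⟩

def cT0_2_31 : PLift (bnd (fT0 6 1 2 2 43 11)
    (fT0 7 0 2 2 0 10) = true) :=
  ⟨by decide +kernel⟩

def cT0_2_32 : PLift (fT0 7 0 2 2 10 23 = true) :=
  ⟨by decide +kernel⟩

end Pool.Agent.Work.MP_6bf1e5_an.HD
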