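import Pool.Agent.Work.MP_6bf1e5_an.HD.CfT0

/-! Checks of the pass T0, part 30. -/

namespace Pool.Agent.Work.MP_6bf1e5_an.HD

open Pool.Agent.Lib.KLA Pool.Agent.Lib.KBlk

def cT0_18_51 : PLift (bnd (fT0 13 0 18 3 36 3)
    (fT0 13 1 18 3 0 21) = true) :=
  ⟨by decide +kernel⟩

def cT0_18_52 : PLift (fT0 13 1 18 3 21 19 = true) :=
  ⟨by decide +kernel⟩

def cT0_18_53 : PLift (fT0 14 0 18 3 0 27 = true) :=
  ⟨by decide +kernel⟩

def cT0_18_54 : PLift (bnd (fT0 14 0 18 3 27 10)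
    (fT0 14 1 18 3 0 14) = true) :=
  ⟨by decide +kernel⟩

def cT0_18_55 : PLift (fT0 14 1 18 3 14 24 = true) :=
  ⟨by decide +kernel⟩

def cT0_18_56 : PLift (fT0 15 0 18 3 0 27 = true) :=
  ⟨by decide +kernel⟩

def cT0_18_57 : PLift (bnd (fT0 15 0 18 3 27 8)
    (fT0 15 1 18 3 0 16) = true) :=
  ⟨by decide +kernel⟩

def cT0_18_58 : PLift (fT0 15 1 18 3 16 20 = true) :=
  ⟨by decide +kernel⟩

def cT0_18_59 : PLift (fT0 16 0 18 3 0 27 = true) :=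
  ⟨by decide +kernel⟩

def cT0_18_60 : PLift (bnd (fT0 16 0 18 3 27 6)
    (fT0 16 1 18 3 0 18) = true) :=
  ⟨by decide +kernel⟩

def cT0_18_61 : PLift (bnd (fT0 16 1 18 3 18 16)
    (fT0 17 0 18 3 0 8) = true) :=
  ⟨by decide +kernel⟩

def cT0_18_62 : PLift (fT0 17 0 18 3 8 23 = true) :=
  ⟨by decide +kernel⟩

def cT0_18_63 : PLift (fT0 17 1 18 3 0 27 = true) :=
  ⟨by decide +kernel⟩

def cT0_18_64 : PLift (bnd (fT0 17 1 18 3 27 5)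
    (fT0 18 0 18 3 0 19) = true) :=
  ⟨by decide +kernel⟩

def cT0_18_65 : PLift (bnd (fT0 18 0 18 3 19 10)
    (fT0 18 1 18 3 0 14) = true) :=
  ⟨by decide +kernel⟩

def cT0_18_66 : PLift (bnd (fT0 18 1 18 3 14 16)
    (fT0 19 0 18 3 0 8) = true) :=
  ⟨by decide +kernel⟩

def cT0_18_67 : PLift (fT0 19 0 18 3 8 19 = true) :=
  ⟨by decide +kernel⟩

def cT0_18_68 : PLift (fT0 19 1 18 3 0 27 = true) :=
  ⟨by decide +kernel⟩

def cT0_18_69 : PLift (bnd (fT0 19 1 18 3 27 1)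
    (fT0 20 0 18 3 0 23) = true) :=
  ⟨by decide +kernel⟩

def cT0_18_70 : PLift (bnd (fT0 20 0 18 3 23 2)
    (fT0 20 1 18 3 0 22) = true) :=
  ⟨by decide +kernel⟩

def cT0_18_71 : PLift (bnd (fT0 20 1 18 3 22 4)
    (fT0 21 0 18 3 0 20) = true) :=
  ⟨by decide +kernel⟩

def cT0_18_72 : PLift (bnd (fT0 21 0 18 3 20 3)
    (fT0 21 1 18 3 0 21) = true) :=
  ⟨by decide +kernel⟩

def cT0_18_73 : PLift (bnd (fT0 21 1 18 3 21 3)
    (fT0 22 0 18 3 0 21) = true) :=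
  ⟨by decide +kernel⟩

def cT0_18_74 : PLift (fT0 22 1 18 3 0 22 = true) :=
  ⟨by decide +kernel⟩

def cT0_18_75 : PLift (fT0 23 0 18 3 0 19 = true) :=
  ⟨by decide +kernel⟩

end Pool.Agent.Work.MP_6bf1e5_an.HD
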