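import Pool.Agent.Work.MP_6bf1e5_an.HD.CfT0

/-! Checks of the pass T0, part 31. -/

namespace Pool.Agent.Work.MP_6bf1e5_an.HD

open Pool.Agent.Lib.KLA Pool.Agent.Lib.KBlk

def cT0_18_76 : PLift (fT0 23 1 18 3 0 20 = true) :=
  ⟨by decide +kernel⟩

def cT0_18_77 : PLift (bnd (fT0 24 0 18 3 0 17)
    (fT0 24 1 18 3 0 7) = true) :=
  ⟨by decide +kernel⟩

def cT0_18_78 : PLift (bnd (fT0 24 1 18 3 7 11)
    (fT0 25 0 18 3 0 14) = true) :=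
  ⟨by decide +kernel⟩

def cT0_18_79 : PLift (bnd (fT0 25 0 18 3 14 1)
    (bnd (fT0 25 1 18 3 0 16)
    (fT0 26 0 18 3 0 6)) = true) :=
  ⟨by decide +kernel⟩

def cT0_18_80 : PLift (bnd (fT0 26 0 18 3 6 7)
    (fT0 26 1 18 3 0 14) = true) :=
  ⟨by decide +kernel⟩

def cT0_18_81 : PLift (bnd (fT0 27 0 18 3 0 11)
    (fT0 27 1 18 3 0 12) = true) :=
  ⟨by decide +kernel⟩

def cT0_18_82 : PLift (bnd (fT0 28 0 18 3 0 9)
    (fT0 28 1 18 3 0 10) = true) :=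
  ⟨by decide +kernel⟩

def cT0_18_83 : PLift (bnd (fT0 29 0 18 3 0 7)
    (bnd (fT0 29 1 18 3 0 8)
    (fT0 30 0 18 3 0 5)) = true) :=
  ⟨by decide +kernel⟩

def cT0_18_84 : PLift (bnd (fT0 30 1 18 3 0 6)
    (bnd (fT0 31 0 18 3 0 3)
    (bnd (fT0 31 1 18 3 0 4)
    (bnd (fT0 32 0 18 3 0 1)
    (fT0 32 1 18 3 0 2)))) = true) :=
  ⟨by decide +kernel⟩

def cT0_21_0 : PLift (fT0 1 0 21 3 0 31 = true) :=
  ⟨by decide +kernel⟩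

def cT0_21_1 : PLift (fT0 1 0 21 3 31 31 = true) :=
  ⟨by decide +kernel⟩

def cT0_21_2 : PLift (bnd (fT0 1 0 21 3 62 1)
    (fT0 1 1 21 3 0 26) = true) :=
  ⟨by decide +kernel⟩

def cT0_21_3 : PLift (fT0 1 1 21 3 26 31 = true) :=
  ⟨by decide +kernel⟩

def cT0_21_4 : PLift (bnd (fT0 1 1 21 3 57 7)
    (fT0 2 0 21 3 0 20) = true) :=
  ⟨by decide +kernel⟩

def cT0_21_5 : PLift (fT0 2 0 21 3 20 31 = true) :=
  ⟨by decide +kernel⟩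

def cT0_21_6 : PLift (bnd (fT0 2 0 21 3 51 10)
    (fT0 2 1 21 3 0 17) = true) :=
  ⟨by decide +kernel⟩

def cT0_21_7 : PLift (fT0 2 1 21 3 17 31 = true) :=
  ⟨by decide +kernel⟩

def cT0_21_8 : PLift (bnd (fT0 2 1 21 3 48 14)
    (fT0 3 0 21 3 0 13) = true) :=
  ⟨by decide +kernel⟩

def cT0_21_9 : PLift (fT0 3 0 21 3 13 31 = true) :=
  ⟨by decide +kernel⟩

def cT0_21_10 : PLift (bnd (fT0 3 0 21 3 44 15)
    (fT0 3 1 21 3 0 12) = true) :=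
  ⟨by decide +kernel⟩

def cT0_21_11 : PLift (fT0 3 1 21 3 12 31 = true) :=
  ⟨by decide +kernel⟩

def cT0_21_12 : PLift (bnd (fT0 3 1 21 3 43 17)
    (fT0 4 0 21 3 0 10) = true) :=
  ⟨by decide +kernel⟩

def cT0_21_13 : PLift (fT0 4 0 21 3 10 31 = true) :=
  ⟨by decide +kernel⟩

def cT0_21_14 : PLift (bnd (fT0 4 0 21 3 41 16)
    (fT0 4 1 21 3 0 11) = true) :=
  ⟨by decide +kernel⟩

end Pool.Agent.Work.MP_6bf1e5_an.HD
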