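import Pool.Agent.Work.MP_6bf1e5_an.HD.CfT0

/-! Checks of the pass T0, part 32. -/

namespace Pool.Agent.Work.MP_6bf1e5_an.HD

open Pool.Agent.Lib.KLA Pool.Agent.Lib.KBlk

def cT0_21_15 : PLift (fT0 4 1 21 3 11 31 = true) :=
  ⟨by decide +kernel⟩

def cT0_21_16 : PLift (bnd (fT0 4 1 21 3 42 16)
    (fT0 5 0 21 3 0 11) = true) :=
  ⟨by decide +kernel⟩

def cT0_21_17 : PLift (fT0 5 0 21 3 11 31 = true) :=
  ⟨by decide +kernel⟩

def cT0_21_18 : PLift (bnd (fT0 5 0 21 3 42 13)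
    (fT0 5 1 21 3 0 15) = true) :=
  ⟨by decide +kernel⟩

def cT0_21_19 : PLift (fT0 5 1 21 3 15 31 = true) :=
  ⟨by decide +kernel⟩

def cT0_21_20 : PLift (bnd (fT0 5 1 21 3 46 10)
    (fT0 6 0 21 3 0 18) = true) :=
  ⟨by decide +kernel⟩

def cT0_21_21 : PLift (fT0 6 0 21 3 18 31 = true) :=
  ⟨by decide +kernel⟩

def cT0_21_22 : PLift (bnd (fT0 6 0 21 3 49 4)
    (fT0 6 1 21 3 0 24) = true) :=
  ⟨by decide +kernel⟩

def cT0_21_23 : PLift (fT0 6 1 21 3 24 30 = true) :=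
  ⟨by decide +kernel⟩

def cT0_21_24 : PLift (fT0 7 0 21 3 0 31 = true) :=
  ⟨by decide +kernel⟩

def cT0_21_25 : PLift (bnd (fT0 7 0 21 3 31 20)
    (fT0 7 1 21 3 0 8) = true) :=
  ⟨by decide +kernel⟩

def cT0_21_26 : PLift (fT0 7 1 21 3 8 31 = true) :=
  ⟨by decide +kernel⟩

def cT0_21_27 : PLift (bnd (fT0 7 1 21 3 39 13)
    (fT0 8 0 21 3 0 15) = true) :=
  ⟨by decide +kernel⟩

def cT0_21_28 : PLift (fT0 8 0 21 3 15 31 = true) :=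
  ⟨by decide +kernel⟩

def cT0_21_29 : PLift (bnd (fT0 8 0 21 3 46 3)
    (fT0 8 1 21 3 0 25) = true) :=
  ⟨by decide +kernel⟩

def cT0_21_30 : PLift (fT0 8 1 21 3 25 25 = true) :=
  ⟨by decide +kernel⟩

def cT0_21_31 : PLift (fT0 9 0 21 3 0 31 = true) :=
  ⟨by decide +kernel⟩

def cT0_21_32 : PLift (bnd (fT0 9 0 21 3 31 16)
    (fT0 9 1 21 3 0 12) = true) :=
  ⟨by decide +kernel⟩

def cT0_21_33 : PLift (fT0 9 1 21 3 12 31 = true) :=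
  ⟨by decide +kernel⟩

def cT0_21_34 : PLift (bnd (fT0 9 1 21 3 43 5)
    (fT0 10 0 21 3 0 22) = true) :=
  ⟨by decide +kernel⟩

def cT0_21_35 : PLift (fT0 10 0 21 3 22 23 = true) :=
  ⟨by decide +kernel⟩

def cT0_21_36 : PLift (fT0 10 1 21 3 0 31 = true) :=
  ⟨by decide +kernel⟩

def cT0_21_37 : PLift (bnd (fT0 10 1 21 3 31 15)
    (fT0 11 0 21 3 0 12) = true) :=
  ⟨by decide +kernel⟩

end Pool.Agent.Work.MP_6bf1e5_an.HD
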