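import Pool.Agent.Work.MP_6bf1e5_an.HD.CfT0

/-! Checks of the pass T0, part 33. -/

namespace Pool.Agent.Work.MP_6bf1e5_an.HD

open Pool.Agent.Lib.KLA Pool.Agent.Lib.KBlk

def cT0_21_38 : PLift (fT0 11 0 21 3 12 30 = true) :=
  ⟨by decide +kernel⟩

def cT0_21_39 : PLift (bnd (fT0 11 0 21 3 42 1)
    (fT0 11 1 21 3 0 26) = true) :=
  ⟨by decide +kernel⟩

def cT0_21_40 : PLift (bnd (fT0 11 1 21 3 26 18)
    (fT0 12 0 21 3 0 9) = true) :=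
  ⟨by decide +kernel⟩

def cT0_21_41 : PLift (fT0 12 0 21 3 9 30 = true) :=
  ⟨by decide +kernel⟩

def cT0_21_42 : PLift (bnd (fT0 12 0 21 3 39 2)
    (fT0 12 1 21 3 0 25) = true) :=
  ⟨by decide +kernel⟩

def cT0_21_43 : PLift (bnd (fT0 12 1 21 3 25 17)
    (fT0 13 0 21 3 0 10) = true) :=
  ⟨by decide +kernel⟩

def cT0_21_44 : PLift (fT0 13 0 21 3 10 29 = true) :=
  ⟨by decide +kernel⟩

def cT0_21_45 : PLift (fT0 13 1 21 3 0 31 = true) :=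
  ⟨by decide +kernel⟩

def cT0_21_46 : PLift (bnd (fT0 13 1 21 3 31 9)
    (fT0 14 0 21 3 0 18) = true) :=
  ⟨by decide +kernel⟩

def cT0_21_47 : PLift (bnd (fT0 14 0 21 3 18 19)
    (fT0 14 1 21 3 0 8) = true) :=
  ⟨by decide +kernel⟩

def cT0_21_48 : PLift (fT0 14 1 21 3 8 30 = true) :=
  ⟨by decide +kernel⟩

def cT0_21_49 : PLift (fT0 15 0 21 3 0 31 = true) :=
  ⟨by decide +kernel⟩

def cT0_21_50 : PLift (bnd (fT0 15 0 21 3 31 4)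
    (fT0 15 1 21 3 0 23) = true) :=
  ⟨by decide +kernel⟩

def cT0_21_51 : PLift (bnd (fT0 15 1 21 3 23 13)
    (fT0 16 0 21 3 0 14) = true) :=
  ⟨by decide +kernel⟩

def cT0_21_52 : PLift (bnd (fT0 16 0 21 3 14 19)
    (fT0 16 1 21 3 0 8) = true) :=
  ⟨by decide +kernel⟩

def cT0_21_53 : PLift (fT0 16 1 21 3 8 26 = true) :=
  ⟨by decide +kernel⟩

def cT0_21_54 : PLift (fT0 17 0 21 3 0 31 = true) :=
  ⟨by decide +kernel⟩

def cT0_21_55 : PLift (fT0 17 1 21 3 0 31 = true) :=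
  ⟨by decide +kernel⟩

def cT0_21_56 : PLift (bnd (fT0 17 1 21 3 31 1)
    (fT0 18 0 21 3 0 27) = true) :=
  ⟨by decide +kernel⟩

def cT0_21_57 : PLift (bnd (fT0 18 0 21 3 27 2)
    (fT0 18 1 21 3 0 26) = true) :=
  ⟨by decide +kernel⟩

def cT0_21_58 : PLift (bnd (fT0 18 1 21 3 26 4)
    (fT0 19 0 21 3 0 24) = true) :=
  ⟨by decide +kernel⟩

def cT0_21_59 : PLift (bnd (fT0 19 0 21 3 24 3)
    (fT0 19 1 21 3 0 25) = true) :=
  ⟨by decide +kernel⟩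

def cT0_21_60 : PLift (bnd (fT0 19 1 21 3 25 3)
    (fT0 20 0 21 3 0 25) = true) :=
  ⟨by decide +kernel⟩

def cT0_21_61 : PLift (fT0 20 1 21 3 0 26 = true) :=
  ⟨by decide +kernel⟩

end Pool.Agent.Work.MP_6bf1e5_an.HD
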