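import Pool.Agent.Work.MP_6bf1e5_an.HD.CfT0

/-! Checks of the pass T0, part 34. -/

namespace Pool.Agent.Work.MP_6bf1e5_an.HD

open Pool.Agent.Lib.KLA Pool.Agent.Lib.KBlk

def cT0_21_62 : PLift (fT0 21 0 21 3 0 23 = true) :=
  ⟨by decide +kernel⟩

def cT0_21_63 : PLift (fT0 21 1 21 3 0 24 = true) :=
  ⟨by decide +kernel⟩

def cT0_21_64 : PLift (bnd (fT0 22 0 21 3 0 21)
    (fT0 22 1 21 3 0 7) = true) :=
  ⟨by decide +kernel⟩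

def cT0_21_65 : PLift (bnd (fT0 22 1 21 3 7 15)
    (fT0 23 0 21 3 0 13) = true) :=
  ⟨by decide +kernel⟩

def cT0_21_66 : PLift (bnd (fT0 23 0 21 3 13 6)
    (fT0 23 1 21 3 0 20) = true) :=
  ⟨by decide +kernel⟩

def cT0_21_67 : PLift (bnd (fT0 24 0 21 3 0 17)
    (fT0 24 1 21 3 0 11) = true) :=
  ⟨by decide +kernel⟩

def cT0_21_68 : PLift (bnd (fT0 24 1 21 3 11 7)
    (fT0 25 0 21 3 0 15) = true) :=
  ⟨by decide +kernel⟩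

def cT0_21_69 : PLift (bnd (fT0 25 1 21 3 0 16)
    (fT0 26 0 21 3 0 12) = true) :=
  ⟨by decide +kernel⟩

def cT0_21_70 : PLift (bnd (fT0 26 0 21 3 12 1)
    (bnd (fT0 26 1 21 3 0 14)
    (fT0 27 0 21 3 0 11)) = true) :=
  ⟨by decide +kernel⟩

def cT0_21_71 : PLift (bnd (fT0 27 1 21 3 0 12)
    (fT0 28 0 21 3 0 9) = true) :=
  ⟨by decide +kernel⟩

def cT0_21_72 : PLift (bnd (fT0 28 1 21 3 0 10)
    (bnd (fT0 29 0 21 3 0 7)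
    (fT0 29 1 21 3 0 8)) = true) :=
  ⟨by decide +kernel⟩

def cT0_21_73 : PLift (bnd (fT0 30 0 21 3 0 5)
    (bnd (fT0 30 1 21 3 0 6)
    (bnd (fT0 31 0 21 3 0 3)
    (bnd (fT0 31 1 21 3 0 4)
    (bnd (fT0 32 0 21 3 0 1)
    (fT0 32 1 21 3 0 2))))) = true) :=
  ⟨by decide +kernel⟩

def cT0_24_0 : PLift (fT0 1 0 24 6 0 20 = true) :=
  ⟨by decide +kernel⟩

def cT0_24_1 : PLift (fT0 1 0 24 6 20 20 = true) :=
  ⟨by decide +kernel⟩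

def cT0_24_2 : PLift (fT0 1 0 24 6 40 20 = true) :=
  ⟨by decide +kernel⟩

def cT0_24_3 : PLift (bnd (fT0 1 0 24 6 60 3)
    (fT0 1 1 24 6 0 14) = true) :=
  ⟨by decide +kernel⟩

def cT0_24_4 : PLift (fT0 1 1 24 6 14 20 = true) :=
  ⟨by decide +kernel⟩

def cT0_24_5 : PLift (fT0 1 1 24 6 34 20 = true) :=
  ⟨by decide +kernel⟩

def cT0_24_6 : PLift (bnd (fT0 1 1 24 6 54 10)
    (fT0 2 0 24 6 0 7) = true) :=
  ⟨by decide +kernel⟩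

def cT0_24_7 : PLift (fT0 2 0 24 6 7 20 = true) :=
  ⟨by decide +kernel⟩

def cT0_24_8 : PLift (fT0 2 0 24 6 27 20 = true) :=
  ⟨by decide +kernel⟩

def cT0_24_9 : PLift (bnd (fT0 2 0 24 6 47 14)
    (fT0 2 1 24 6 0 3) = true) :=
  ⟨by decide +kernel⟩

def cT0_24_10 : PLift (fT0 2 1 24 6 3 20 = true) :=
  ⟨by decide +kernel⟩

def cT0_24_11 : PLift (fT0 2 1 24 6 23 20 = true) :=
  ⟨by decide +kernel⟩

end Pool.Agent.Work.MP_6bf1e5_an.HD
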