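import Pool.Agent.Work.MP_6bf1e5_an.HD.CfT0

/-! Checks of the pass T0, part 35. -/

namespace Pool.Agent.Work.MP_6bf1e5_an.HD

open Pool.Agent.Lib.KLA Pool.Agent.Lib.KBlk

def cT0_24_12 : PLift (fT0 2 1 24 6 43 19 = true) :=
  ⟨by decide +kernel⟩

def cT0_24_13 : PLift (fT0 3 0 24 6 0 20 = true) :=
  ⟨by decide +kernel⟩

def cT0_24_14 : PLift (fT0 3 0 24 6 20 20 = true) :=
  ⟨by decide +kernel⟩

def cT0_24_15 : PLift (fT0 3 0 24 6 40 19 = true) :=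
  ⟨by decide +kernel⟩

def cT0_24_16 : PLift (fT0 3 1 24 6 0 20 = true) :=
  ⟨by decide +kernel⟩

def cT0_24_17 : PLift (fT0 3 1 24 6 20 20 = true) :=
  ⟨by decide +kernel⟩

def cT0_24_18 : PLift (fT0 3 1 24 6 40 20 = true) :=
  ⟨by decide +kernel⟩

def cT0_24_19 : PLift (fT0 4 0 24 6 0 20 = true) :=
  ⟨by decide +kernel⟩

def cT0_24_20 : PLift (fT0 4 0 24 6 20 20 = true) :=
  ⟨by decide +kernel⟩

def cT0_24_21 : PLift (fT0 4 0 24 6 40 17 = true) :=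
  ⟨by decide +kernel⟩

def cT0_24_22 : PLift (fT0 4 1 24 6 0 20 = true) :=
  ⟨by decide +kernel⟩

def cT0_24_23 : PLift (fT0 4 1 24 6 20 20 = true) :=
  ⟨by decide +kernel⟩

def cT0_24_24 : PLift (fT0 4 1 24 6 40 18 = true) :=
  ⟨by decide +kernel⟩

def cT0_24_25 : PLift (fT0 5 0 24 6 0 20 = true) :=
  ⟨by decide +kernel⟩

def cT0_24_26 : PLift (fT0 5 0 24 6 20 20 = true) :=
  ⟨by decide +kernel⟩

def cT0_24_27 : PLift (fT0 5 0 24 6 40 15 = true) :=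
  ⟨by decide +kernel⟩

def cT0_24_28 : PLift (fT0 5 1 24 6 0 20 = true) :=
  ⟨by decide +kernel⟩

def cT0_24_29 : PLift (fT0 5 1 24 6 20 20 = true) :=
  ⟨by decide +kernel⟩

def cT0_24_30 : PLift (fT0 5 1 24 6 40 16 = true) :=
  ⟨by decide +kernel⟩

def cT0_24_31 : PLift (fT0 6 0 24 6 0 20 = true) :=
  ⟨by decide +kernel⟩

def cT0_24_32 : PLift (fT0 6 0 24 6 20 20 = true) :=
  ⟨by decide +kernel⟩

def cT0_24_33 : PLift (bnd (fT0 6 0 24 6 40 13)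
    (fT0 6 1 24 6 0 4) = true) :=
  ⟨by decide +kernel⟩

def cT0_24_34 : PLift (fT0 6 1 24 6 4 20 = true) :=
  ⟨by decide +kernel⟩

end Pool.Agent.Work.MP_6bf1e5_an.HD
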