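import Pool.Agent.Work.MP_6bf1e5_an.HD.CfT0

/-! Checks of the pass T0, part 36. -/

namespace Pool.Agent.Work.MP_6bf1e5_an.HD

open Pool.Agent.Lib.KLA Pool.Agent.Lib.KBlk

def cT0_24_35 : PLift (fT0 6 1 24 6 24 20 = true) :=
  ⟨by decide +kernel⟩

def cT0_24_36 : PLift (bnd (fT0 6 1 24 6 44 10)
    (fT0 7 0 24 6 0 6) = true) :=
  ⟨by decide +kernel⟩

def cT0_24_37 : PLift (fT0 7 0 24 6 6 19 = true) :=
  ⟨by decide +kernel⟩

def cT0_24_38 : PLift (fT0 7 0 24 6 25 19 = true) :=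
  ⟨by decide +kernel⟩

def cT0_24_39 : PLift (bnd (fT0 7 0 24 6 44 7)
    (fT0 7 1 24 6 0 9) = true) :=
  ⟨by decide +kernel⟩

def cT0_24_40 : PLift (fT0 7 1 24 6 9 19 = true) :=
  ⟨by decide +kernel⟩

def cT0_24_41 : PLift (fT0 7 1 24 6 28 19 = true) :=
  ⟨by decide +kernel⟩

def cT0_24_42 : PLift (bnd (fT0 7 1 24 6 47 5)
    (fT0 8 0 24 6 0 11) = true) :=
  ⟨by decide +kernel⟩

def cT0_24_43 : PLift (fT0 8 0 24 6 11 19 = true) :=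
  ⟨by decide +kernel⟩

def cT0_24_44 : PLift (fT0 8 0 24 6 30 19 = true) :=
  ⟨by decide +kernel⟩

def cT0_24_45 : PLift (fT0 8 1 24 6 0 19 = true) :=
  ⟨by decide +kernel⟩

def cT0_24_46 : PLift (fT0 8 1 24 6 19 19 = true) :=
  ⟨by decide +kernel⟩

def cT0_24_47 : PLift (bnd (fT0 8 1 24 6 38 12)
    (fT0 9 0 24 6 0 4) = true) :=
  ⟨by decide +kernel⟩

def cT0_24_48 : PLift (fT0 9 0 24 6 4 19 = true) :=
  ⟨by decide +kernel⟩

def cT0_24_49 : PLift (fT0 9 0 24 6 23 19 = true) :=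
  ⟨by decide +kernel⟩

def cT0_24_50 : PLift (bnd (fT0 9 0 24 6 42 5)
    (fT0 9 1 24 6 0 11) = true) :=
  ⟨by decide +kernel⟩

def cT0_24_51 : PLift (fT0 9 1 24 6 11 19 = true) :=
  ⟨by decide +kernel⟩

def cT0_24_52 : PLift (fT0 9 1 24 6 30 18 = true) :=
  ⟨by decide +kernel⟩

def cT0_24_53 : PLift (fT0 10 0 24 6 0 19 = true) :=
  ⟨by decide +kernel⟩

def cT0_24_54 : PLift (fT0 10 0 24 6 19 19 = true) :=
  ⟨by decide +kernel⟩

def cT0_24_55 : PLift (bnd (fT0 10 0 24 6 38 7)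
    (fT0 10 1 24 6 0 9) = true) :=
  ⟨by decide +kernel⟩

def cT0_24_56 : PLift (fT0 10 1 24 6 9 19 = true) :=
  ⟨by decide +kernel⟩

def cT0_24_57 : PLift (fT0 10 1 24 6 28 18 = true) :=
  ⟨by decide +kernel⟩

def cT0_24_58 : PLift (fT0 11 0 24 6 0 19 = true) :=
  ⟨by decide +kernel⟩

end Pool.Agent.Work.MP_6bf1e5_an.HD
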