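import Pool.Agent.Work.MP_6bf1e5_an.HD.CfT0

/-! Checks of the pass T0, part 37. -/

namespace Pool.Agent.Work.MP_6bf1e5_an.HD

open Pool.Agent.Lib.KLA Pool.Agent.Lib.KBlk

def cT0_24_59 : PLift (fT0 11 0 24 6 19 19 = true) :=
  ⟨by decide +kernel⟩

def cT0_24_60 : PLift (bnd (fT0 11 0 24 6 38 5)
    (fT0 11 1 24 6 0 11) = true) :=
  ⟨by decide +kernel⟩

def cT0_24_61 : PLift (fT0 11 1 24 6 11 19 = true) :=
  ⟨by decide +kernel⟩

def cT0_24_62 : PLift (fT0 11 1 24 6 30 14 = true) :=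
  ⟨by decide +kernel⟩

def cT0_24_63 : PLift (fT0 12 0 24 6 0 19 = true) :=
  ⟨by decide +kernel⟩

def cT0_24_64 : PLift (fT0 12 0 24 6 19 19 = true) :=
  ⟨by decide +kernel⟩

def cT0_24_65 : PLift (bnd (fT0 12 0 24 6 38 3)
    (fT0 12 1 24 6 0 13) = true) :=
  ⟨by decide +kernel⟩

def cT0_24_66 : PLift (fT0 12 1 24 6 13 19 = true) :=
  ⟨by decide +kernel⟩

def cT0_24_67 : PLift (bnd (fT0 12 1 24 6 32 10)
    (fT0 13 0 24 6 0 6) = true) :=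
  ⟨by decide +kernel⟩

def cT0_24_68 : PLift (fT0 13 0 24 6 6 20 = true) :=
  ⟨by decide +kernel⟩

def cT0_24_69 : PLift (bnd (fT0 13 0 24 6 26 13)
    (fT0 13 1 24 6 0 4) = true) :=
  ⟨by decide +kernel⟩

def cT0_24_70 : PLift (fT0 13 1 24 6 4 20 = true) :=
  ⟨by decide +kernel⟩

def cT0_24_71 : PLift (fT0 13 1 24 6 24 16 = true) :=
  ⟨by decide +kernel⟩

def cT0_24_72 : PLift (fT0 14 0 24 6 0 20 = true) :=
  ⟨by decide +kernel⟩

def cT0_24_73 : PLift (fT0 14 0 24 6 20 17 = true) :=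
  ⟨by decide +kernel⟩

def cT0_24_74 : PLift (fT0 14 1 24 6 0 20 = true) :=
  ⟨by decide +kernel⟩

def cT0_24_75 : PLift (fT0 14 1 24 6 20 18 = true) :=
  ⟨by decide +kernel⟩

def cT0_24_76 : PLift (fT0 15 0 24 6 0 20 = true) :=
  ⟨by decide +kernel⟩

def cT0_24_77 : PLift (fT0 15 0 24 6 20 15 = true) :=
  ⟨by decide +kernel⟩

def cT0_24_78 : PLift (fT0 15 1 24 6 0 20 = true) :=
  ⟨by decide +kernel⟩

def cT0_24_79 : PLift (fT0 15 1 24 6 20 16 = true) :=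
  ⟨by decide +kernel⟩

def cT0_24_80 : PLift (fT0 16 0 24 6 0 20 = true) :=
  ⟨by decide +kernel⟩

def cT0_24_81 : PLift (bnd (fT0 16 0 24 6 20 13)
    (fT0 16 1 24 6 0 4) = true) :=
  ⟨by decide +kernel⟩

def cT0_24_82 : PLift (fT0 16 1 24 6 4 20 = true) :=
  ⟨by decide +kernel⟩

end Pool.Agent.Work.MP_6bf1e5_an.HD
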