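import Pool.Agent.Work.MP_6bf1e5_an.HD.CfT0

/-! Checks of the pass T0, part 38. -/

namespace Pool.Agent.Work.MP_6bf1e5_an.HD

open Pool.Agent.Lib.KLA Pool.Agent.Lib.KBlk

def cT0_24_83 : PLift (bnd (fT0 16 1 24 6 24 10)
    (fT0 17 0 24 6 0 7) = true) :=
  ⟨by decide +kernel⟩

def cT0_24_84 : PLift (fT0 17 0 24 6 7 20 = true) :=
  ⟨by decide +kernel⟩

def cT0_24_85 : PLift (bnd (fT0 17 0 24 6 27 4)
    (fT0 17 1 24 6 0 13) = true) :=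
  ⟨by decide +kernel⟩

def cT0_24_86 : PLift (fT0 17 1 24 6 13 19 = true) :=
  ⟨by decide +kernel⟩

def cT0_24_87 : PLift (fT0 18 0 24 6 0 20 = true) :=
  ⟨by decide +kernel⟩

def cT0_24_88 : PLift (bnd (fT0 18 0 24 6 20 9)
    (fT0 18 1 24 6 0 8) = true) :=
  ⟨by decide +kernel⟩

def cT0_24_89 : PLift (fT0 18 1 24 6 8 20 = true) :=
  ⟨by decide +kernel⟩

def cT0_24_90 : PLift (bnd (fT0 18 1 24 6 28 2)
    (fT0 19 0 24 6 0 15) = true) :=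
  ⟨by decide +kernel⟩

def cT0_24_91 : PLift (bnd (fT0 19 0 24 6 15 12)
    (fT0 19 1 24 6 0 5) = true) :=
  ⟨by decide +kernel⟩

def cT0_24_92 : PLift (fT0 19 1 24 6 5 20 = true) :=
  ⟨by decide +kernel⟩

def cT0_24_93 : PLift (bnd (fT0 19 1 24 6 25 3)
    (fT0 20 0 24 6 0 14) = true) :=
  ⟨by decide +kernel⟩

def cT0_24_94 : PLift (bnd (fT0 20 0 24 6 14 11)
    (fT0 20 1 24 6 0 5) = true) :=
  ⟨by decide +kernel⟩

def cT0_24_95 : PLift (fT0 20 1 24 6 5 19 = true) :=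
  ⟨by decide +kernel⟩

def cT0_24_96 : PLift (bnd (fT0 20 1 24 6 24 2)
    (fT0 21 0 24 6 0 14) = true) :=
  ⟨by decide +kernel⟩

def cT0_24_97 : PLift (bnd (fT0 21 0 24 6 14 9)
    (fT0 21 1 24 6 0 7) = true) :=
  ⟨by decide +kernel⟩

def cT0_24_98 : PLift (fT0 21 1 24 6 7 17 = true) :=
  ⟨by decide +kernel⟩

def cT0_24_99 : PLift (fT0 22 0 24 6 0 19 = true) :=
  ⟨by decide +kernel⟩

def cT0_24_100 : PLift (bnd (fT0 22 0 24 6 19 2)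
    (fT0 22 1 24 6 0 14) = true) :=
  ⟨by decide +kernel⟩

def cT0_24_101 : PLift (bnd (fT0 22 1 24 6 14 8)
    (fT0 23 0 24 6 0 8) = true) :=
  ⟨by decide +kernel⟩

def cT0_24_102 : PLift (bnd (fT0 23 0 24 6 8 11)
    (fT0 23 1 24 6 0 5) = true) :=
  ⟨by decide +kernel⟩

def cT0_24_103 : PLift (fT0 23 1 24 6 5 15 = true) :=
  ⟨by decide +kernel⟩

def cT0_24_104 : PLift (fT0 24 0 24 6 0 17 = true) :=
  ⟨by decide +kernel⟩

def cT0_24_105 : PLift (fT0 24 1 24 6 0 18 = true) :=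
  ⟨by decide +kernel⟩

def cT0_24_106 : PLift (fT0 25 0 24 6 0 15 = true) :=
  ⟨by decide +kernel⟩

end Pool.Agent.Work.MP_6bf1e5_an.HD
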