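import Pool.Agent.Work.MP_6bf1e5_an.HD.CfT0

/-! Checks of the pass T0, part 39. -/

namespace Pool.Agent.Work.MP_6bf1e5_an.HD

open Pool.Agent.Lib.KLA Pool.Agent.Lib.KBlk

def cT0_24_107 : PLift (fT0 25 1 24 6 0 16 = true) :=
  ⟨by decide +kernel⟩

def cT0_24_108 : PLift (bnd (fT0 26 0 24 6 0 13)
    (fT0 26 1 24 6 0 3) = true) :=
  ⟨by decide +kernel⟩

def cT0_24_109 : PLift (bnd (fT0 26 1 24 6 3 11)
    (fT0 27 0 24 6 0 5) = true) :=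
  ⟨by decide +kernel⟩

def cT0_24_110 : PLift (bnd (fT0 27 0 24 6 5 6)
    (fT0 27 1 24 6 0 10) = true) :=
  ⟨by decide +kernel⟩

def cT0_24_111 : PLift (bnd (fT0 27 1 24 6 10 2)
    (bnd (fT0 28 0 24 6 0 9)
    (fT0 28 1 24 6 0 3)) = true) :=
  ⟨by decide +kernel⟩

def cT0_24_112 : PLift (bnd (fT0 28 1 24 6 3 7)
    (fT0 29 0 24 6 0 7) = true) :=
  ⟨by decide +kernel⟩

def cT0_24_113 : PLift (bnd (fT0 29 1 24 6 0 8)
    (fT0 30 0 24 6 0 5) = true) :=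
  ⟨by decide +kernel⟩

def cT0_24_114 : PLift (bnd (fT0 30 1 24 6 0 6)
    (bnd (fT0 31 0 24 6 0 3)
    (fT0 31 1 24 6 0 4)) = true) :=
  ⟨by decide +kernel⟩

def cT0_24_115 : PLift (bnd (fT0 32 0 24 6 0 1)
    (fT0 32 1 24 6 0 2) = true) :=
  ⟨by decide +kernel⟩

def cT0_30_0 : PLift (fT0 1 0 30 6 0 40 = true) :=
  ⟨by decide +kernel⟩

def cT0_30_1 : PLift (fT0 1 0 30 6 40 23 = true) :=
  ⟨by decide +kernel⟩

def cT0_30_2 : PLift (fT0 1 1 30 6 0 40 = true) :=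
  ⟨by decide +kernel⟩

def cT0_30_3 : PLift (fT0 1 1 30 6 40 24 = true) :=
  ⟨by decide +kernel⟩

def cT0_30_4 : PLift (fT0 2 0 30 6 0 40 = true) :=
  ⟨by decide +kernel⟩

def cT0_30_5 : PLift (fT0 2 0 30 6 40 21 = true) :=
  ⟨by decide +kernel⟩

def cT0_30_6 : PLift (fT0 2 1 30 6 0 40 = true) :=
  ⟨by decide +kernel⟩

def cT0_30_7 : PLift (fT0 2 1 30 6 40 22 = true) :=
  ⟨by decide +kernel⟩

def cT0_30_8 : PLift (fT0 3 0 30 6 0 40 = true) :=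
  ⟨by decide +kernel⟩

def cT0_30_9 : PLift (fT0 3 0 30 6 40 19 = true) :=
  ⟨by decide +kernel⟩

def cT0_30_10 : PLift (fT0 3 1 30 6 0 40 = true) :=
  ⟨by decide +kernel⟩

def cT0_30_11 : PLift (fT0 3 1 30 6 40 20 = true) :=
  ⟨by decide +kernel⟩

def cT0_30_12 : PLift (fT0 4 0 30 6 0 40 = true) :=
  ⟨by decide +kernel⟩

def cT0_30_13 : PLift (fT0 4 0 30 6 40 17 = true) :=
  ⟨by decide +kernel⟩

def cT0_30_14 : PLift (fT0 4 1 30 6 0 40 = true) :=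
  ⟨by decide +kernel⟩

end Pool.Agent.Work.MP_6bf1e5_an.HD
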