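import Pool.Agent.Work.MP_6bf1e5_an.HD.CfT0

/-! Checks of the pass T0, part 4. -/

namespace Pool.Agent.Work.MP_6bf1e5_an.HD

open Pool.Agent.Lib.KLA Pool.Agent.Lib.KBlk

def cT0_2_33 : PLift (bnd (fT0 7 0 2 2 33 18)
    (fT0 7 1 2 2 0 3) = true) :=
  ⟨by decide +kernel⟩

def cT0_2_34 : PLift (fT0 7 1 2 2 3 23 = true) :=
  ⟨by decide +kernel⟩

def cT0_2_35 : PLift (fT0 7 1 2 2 26 23 = true) :=
  ⟨by decide +kernel⟩

def cT0_2_36 : PLift (bnd (fT0 7 1 2 2 49 3)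
    (fT0 8 0 2 2 0 18) = true) :=
  ⟨by decide +kernel⟩

def cT0_2_37 : PLift (fT0 8 0 2 2 18 23 = true) :=
  ⟨by decide +kernel⟩

def cT0_2_38 : PLift (bnd (fT0 8 0 2 2 41 8)
    (fT0 8 1 2 2 0 13) = true) :=
  ⟨by decide +kernel⟩

def cT0_2_39 : PLift (fT0 8 1 2 2 13 23 = true) :=
  ⟨by decide +kernel⟩

def cT0_2_40 : PLift (bnd (fT0 8 1 2 2 36 14)
    (fT0 9 0 2 2 0 7) = true) :=
  ⟨by decide +kernel⟩

def cT0_2_41 : PLift (fT0 9 0 2 2 7 23 = true) :=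
  ⟨by decide +kernel⟩

def cT0_2_42 : PLift (bnd (fT0 9 0 2 2 30 17)
    (fT0 9 1 2 2 0 4) = true) :=
  ⟨by decide +kernel⟩

def cT0_2_43 : PLift (fT0 9 1 2 2 4 23 = true) :=
  ⟨by decide +kernel⟩

def cT0_2_44 : PLift (fT0 9 1 2 2 27 21 = true) :=
  ⟨by decide +kernel⟩

def cT0_2_45 : PLift (fT0 10 0 2 2 0 23 = true) :=
  ⟨by decide +kernel⟩

def cT0_2_46 : PLift (fT0 10 0 2 2 23 22 = true) :=
  ⟨by decide +kernel⟩

def cT0_2_47 : PLift (fT0 10 1 2 2 0 23 = true) :=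
  ⟨by decide +kernel⟩

def cT0_2_48 : PLift (fT0 10 1 2 2 23 23 = true) :=
  ⟨by decide +kernel⟩

def cT0_2_49 : PLift (fT0 11 0 2 2 0 23 = true) :=
  ⟨by decide +kernel⟩

def cT0_2_50 : PLift (fT0 11 0 2 2 23 20 = true) :=
  ⟨by decide +kernel⟩

def cT0_2_51 : PLift (fT0 11 1 2 2 0 23 = true) :=
  ⟨by decide +kernel⟩

def cT0_2_52 : PLift (fT0 11 1 2 2 23 21 = true) :=
  ⟨by decide +kernel⟩

def cT0_2_53 : PLift (fT0 12 0 2 2 0 23 = true) :=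
  ⟨by decide +kernel⟩

def cT0_2_54 : PLift (bnd (fT0 12 0 2 2 23 18)
    (fT0 12 1 2 2 0 3) = true) :=
  ⟨by decide +kernel⟩

def cT0_2_55 : PLift (fT0 12 1 2 2 3 23 = true) :=
  ⟨by decide +kernel⟩

def cT0_2_56 : PLift (bnd (fT0 12 1 2 2 26 16)
    (fT0 13 0 2 2 0 5) = true) :=
  ⟨by decide +kernel⟩

def cT0_2_57 : PLift (fT0 13 0 2 2 5 23 = true) :=
  ⟨by decide +kernel⟩

end Pool.Agent.Work.MP_6bf1e5_an.HD
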