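import Pool.Agent.Work.MP_6bf1e5_an.HD.CfT0

/-! Checks of the pass T0, part 40. -/

namespace Pool.Agent.Work.MP_6bf1e5_an.HD

open Pool.Agent.Lib.KLA Pool.Agent.Lib.KBlk

def cT0_30_15 : PLift (fT0 4 1 30 6 40 18 = true) :=
  ⟨by decide +kernel⟩

def cT0_30_16 : PLift (fT0 5 0 30 6 0 40 = true) :=
  ⟨by decide +kernel⟩

def cT0_30_17 : PLift (fT0 5 0 30 6 40 15 = true) :=
  ⟨by decide +kernel⟩

def cT0_30_18 : PLift (fT0 5 1 30 6 0 40 = true) :=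
  ⟨by decide +kernel⟩

def cT0_30_19 : PLift (fT0 5 1 30 6 40 16 = true) :=
  ⟨by decide +kernel⟩

def cT0_30_20 : PLift (fT0 6 0 30 6 0 40 = true) :=
  ⟨by decide +kernel⟩

def cT0_30_21 : PLift (fT0 6 0 30 6 40 13 = true) :=
  ⟨by decide +kernel⟩

def cT0_30_22 : PLift (fT0 6 1 30 6 0 40 = true) :=
  ⟨by decide +kernel⟩

def cT0_30_23 : PLift (fT0 6 1 30 6 40 14 = true) :=
  ⟨by decide +kernel⟩

def cT0_30_24 : PLift (fT0 7 0 30 6 0 40 = true) :=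
  ⟨by decide +kernel⟩

def cT0_30_25 : PLift (bnd (fT0 7 0 30 6 40 11)
    (fT0 7 1 30 6 0 24) = true) :=
  ⟨by decide +kernel⟩

def cT0_30_26 : PLift (fT0 7 1 30 6 24 28 = true) :=
  ⟨by decide +kernel⟩

def cT0_30_27 : PLift (fT0 8 0 30 6 0 40 = true) :=
  ⟨by decide +kernel⟩

def cT0_30_28 : PLift (bnd (fT0 8 0 30 6 40 9)
    (fT0 8 1 30 6 0 26) = true) :=
  ⟨by decide +kernel⟩

def cT0_30_29 : PLift (fT0 8 1 30 6 26 24 = true) :=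
  ⟨by decide +kernel⟩

def cT0_30_30 : PLift (fT0 9 0 30 6 0 40 = true) :=
  ⟨by decide +kernel⟩

def cT0_30_31 : PLift (bnd (fT0 9 0 30 6 40 7)
    (fT0 9 1 30 6 0 28) = true) :=
  ⟨by decide +kernel⟩

def cT0_30_32 : PLift (fT0 9 1 30 6 28 20 = true) :=
  ⟨by decide +kernel⟩

def cT0_30_33 : PLift (fT0 10 0 30 6 0 40 = true) :=
  ⟨by decide +kernel⟩

def cT0_30_34 : PLift (bnd (fT0 10 0 30 6 40 5)
    (fT0 10 1 30 6 0 30) = true) :=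
  ⟨by decide +kernel⟩

def cT0_30_35 : PLift (fT0 10 1 30 6 30 16 = true) :=
  ⟨by decide +kernel⟩

def cT0_30_36 : PLift (fT0 11 0 30 6 0 40 = true) :=
  ⟨by decide +kernel⟩

def cT0_30_37 : PLift (bnd (fT0 11 0 30 6 40 3)
    (fT0 11 1 30 6 0 32) = true) :=
  ⟨by decide +kernel⟩

end Pool.Agent.Work.MP_6bf1e5_an.HD
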