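import Pool.Agent.Work.MP_6bf1e5_an.HD.CfT0

/-! Checks of the pass T0, part 41. -/

namespace Pool.Agent.Work.MP_6bf1e5_an.HD

open Pool.Agent.Lib.KLA Pool.Agent.Lib.KBlk

def cT0_30_38 : PLift (fT0 11 1 30 6 32 12 = true) :=
  ⟨by decide +kernel⟩

def cT0_30_39 : PLift (fT0 12 0 30 6 0 40 = true) :=
  ⟨by decide +kernel⟩

def cT0_30_40 : PLift (bnd (fT0 12 0 30 6 40 1)
    (fT0 12 1 30 6 0 34) = true) :=
  ⟨by decide +kernel⟩

def cT0_30_41 : PLift (bnd (fT0 12 1 30 6 34 8)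
    (fT0 13 0 30 6 0 27) = true) :=
  ⟨by decide +kernel⟩

def cT0_30_42 : PLift (fT0 13 0 30 6 27 12 = true) :=
  ⟨by decide +kernel⟩

def cT0_30_43 : PLift (fT0 13 1 30 6 0 40 = true) :=
  ⟨by decide +kernel⟩

def cT0_30_44 : PLift (fT0 14 0 30 6 0 37 = true) :=
  ⟨by decide +kernel⟩

def cT0_30_45 : PLift (fT0 14 1 30 6 0 38 = true) :=
  ⟨by decide +kernel⟩

def cT0_30_46 : PLift (fT0 15 0 30 6 0 35 = true) :=
  ⟨by decide +kernel⟩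

def cT0_30_47 : PLift (fT0 15 1 30 6 0 36 = true) :=
  ⟨by decide +kernel⟩

def cT0_30_48 : PLift (fT0 16 0 30 6 0 33 = true) :=
  ⟨by decide +kernel⟩

def cT0_30_49 : PLift (fT0 16 1 30 6 0 34 = true) :=
  ⟨by decide +kernel⟩

def cT0_30_50 : PLift (fT0 17 0 30 6 0 31 = true) :=
  ⟨by decide +kernel⟩

def cT0_30_51 : PLift (fT0 17 1 30 6 0 32 = true) :=
  ⟨by decide +kernel⟩

def cT0_30_52 : PLift (fT0 18 0 30 6 0 29 = true) :=
  ⟨by decide +kernel⟩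

def cT0_30_53 : PLift (fT0 18 1 30 6 0 30 = true) :=
  ⟨by decide +kernel⟩

def cT0_30_54 : PLift (fT0 19 0 30 6 0 27 = true) :=
  ⟨by decide +kernel⟩

def cT0_30_55 : PLift (fT0 19 1 30 6 0 28 = true) :=
  ⟨by decide +kernel⟩

def cT0_30_56 : PLift (fT0 20 0 30 6 0 25 = true) :=
  ⟨by decide +kernel⟩

def cT0_30_57 : PLift (fT0 20 1 30 6 0 26 = true) :=
  ⟨by decide +kernel⟩

def cT0_30_58 : PLift (fT0 21 0 30 6 0 23 = true) :=
  ⟨by decide +kernel⟩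

def cT0_30_59 : PLift (fT0 21 1 30 6 0 24 = true) :=
  ⟨by decide +kernel⟩

def cT0_30_60 : PLift (fT0 22 0 30 6 0 21 = true) :=
  ⟨by decide +kernel⟩

end Pool.Agent.Work.MP_6bf1e5_an.HD
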