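import Pool.Agent.Work.MP_6bf1e5_an.HD.CfT0

/-! Checks of the pass T0, part 42. -/

namespace Pool.Agent.Work.MP_6bf1e5_an.HD

open Pool.Agent.Lib.KLA Pool.Agent.Lib.KBlk

def cT0_30_61 : PLift (fT0 22 1 30 6 0 22 = true) :=
  ⟨by decide +kernel⟩

def cT0_30_62 : PLift (fT0 23 0 30 6 0 19 = true) :=
  ⟨by decide +kernel⟩

def cT0_30_63 : PLift (fT0 23 1 30 6 0 20 = true) :=
  ⟨by decide +kernel⟩

def cT0_30_64 : PLift (fT0 24 0 30 6 0 17 = true) :=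
  ⟨by decide +kernel⟩

def cT0_30_65 : PLift (bnd (fT0 24 1 30 6 0 18)
    (fT0 25 0 30 6 0 15) = true) :=
  ⟨by decide +kernel⟩

def cT0_30_66 : PLift (bnd (fT0 25 1 30 6 0 16)
    (fT0 26 0 30 6 0 13) = true) :=
  ⟨by decide +kernel⟩

def cT0_30_67 : PLift (bnd (fT0 26 1 30 6 0 14)
    (fT0 27 0 30 6 0 11) = true) :=
  ⟨by decide +kernel⟩

def cT0_30_68 : PLift (bnd (fT0 27 1 30 6 0 12)
    (fT0 28 0 30 6 0 9) = true) :=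
  ⟨by decide +kernel⟩

def cT0_30_69 : PLift (bnd (fT0 28 1 30 6 0 10)
    (bnd (fT0 29 0 30 6 0 7)
    (fT0 29 1 30 6 0 8)) = true) :=
  ⟨by decide +kernel⟩

def cT0_30_70 : PLift (bnd (fT0 30 0 30 6 0 5)
    (bnd (fT0 30 1 30 6 0 6)
    (bnd (fT0 31 0 30 6 0 3)
    (bnd (fT0 31 1 30 6 0 4)
    (fT0 32 0 30 6 0 1)))) = true) :=
  ⟨by decide +kernel⟩

def cT0_30_71 : PLift (fT0 32 1 30 6 0 2 = true) :=
  ⟨by decide +kernel⟩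

def cT0_36_0 : PLift (bnd (fT0 1 0 36 3 0 63)
    (fT0 1 1 36 3 0 39) = true) :=
  ⟨by decide +kernel⟩

def cT0_36_1 : PLift (bnd (fT0 1 1 36 3 39 25)
    (fT0 2 0 36 3 0 61) = true) :=
  ⟨by decide +kernel⟩

def cT0_36_2 : PLift (bnd (fT0 2 1 36 3 0 62)
    (fT0 3 0 36 3 0 40) = true) :=
  ⟨by decide +kernel⟩

def cT0_36_3 : PLift (bnd (fT0 3 0 36 3 40 19)
    (fT0 3 1 36 3 0 60) = true) :=
  ⟨by decide +kernel⟩

def cT0_36_4 : PLift (bnd (fT0 4 0 36 3 0 57)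
    (fT0 4 1 36 3 0 45) = true) :=
  ⟨by decide +kernel⟩

def cT0_36_5 : PLift (bnd (fT0 4 1 36 3 45 13)
    (bnd (fT0 5 0 36 3 0 55)
    (fT0 5 1 36 3 0 27)) = true) :=
  ⟨by decide +kernel⟩

def cT0_36_6 : PLift (bnd (fT0 5 1 36 3 27 29)
    (fT0 6 0 36 3 0 53) = true) :=
  ⟨by decide +kernel⟩

def cT0_36_7 : PLift (bnd (fT0 6 1 36 3 0 54)
    (fT0 7 0 36 3 0 49) = true) :=
  ⟨by decide +kernel⟩

def cT0_36_8 : PLift (bnd (fT0 7 0 36 3 49 2)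
    (bnd (fT0 7 1 36 3 0 52)
    (fT0 8 0 36 3 0 42)) = true) :=
  ⟨by decide +kernel⟩

end Pool.Agent.Work.MP_6bf1e5_an.HD
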