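import Pool.Agent.Work.MP_6bf1e5_an.HD.CfT0

/-! Checks of the pass T0, part 43. -/

namespace Pool.Agent.Work.MP_6bf1e5_an.HD

open Pool.Agent.Lib.KLA Pool.Agent.Lib.KBlk

def cT0_36_9 : PLift (bnd (fT0 8 0 36 3 42 7)
    (bnd (fT0 8 1 36 3 0 50)
    (fT0 9 0 36 3 0 39)) = true) :=
  ⟨by decide +kernel⟩

def cT0_36_10 : PLift (bnd (fT0 9 0 36 3 39 8)
    (bnd (fT0 9 1 36 3 0 48)
    (fT0 10 0 36 3 0 41)) = true) :=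
  ⟨by decide +kernel⟩

def cT0_36_11 : PLift (bnd (fT0 10 0 36 3 41 4)
    (bnd (fT0 10 1 36 3 0 46)
    (fT0 11 0 36 3 0 43)) = true) :=
  ⟨by decide +kernel⟩

def cT0_36_12 : PLift (bnd (fT0 11 1 36 3 0 44)
    (fT0 12 0 36 3 0 41) = true) :=
  ⟨by decide +kernel⟩

def cT0_36_13 : PLift (bnd (fT0 12 1 36 3 0 42)
    (fT0 13 0 36 3 0 39) = true) :=
  ⟨by decide +kernel⟩

def cT0_36_14 : PLift (bnd (fT0 13 1 36 3 0 40)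
    (fT0 14 0 36 3 0 37) = true) :=
  ⟨by decide +kernel⟩

def cT0_36_15 : PLift (bnd (fT0 14 1 36 3 0 38)
    (fT0 15 0 36 3 0 35) = true) :=
  ⟨by decide +kernel⟩

def cT0_36_16 : PLift (bnd (fT0 15 1 36 3 0 36)
    (bnd (fT0 16 0 36 3 0 33)
    (fT0 16 1 36 3 0 26)) = true) :=
  ⟨by decide +kernel⟩

def cT0_36_17 : PLift (bnd (fT0 16 1 36 3 26 8)
    (bnd (fT0 17 0 36 3 0 31)
    (fT0 17 1 36 3 0 32)) = true) :=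
  ⟨by decide +kernel⟩

def cT0_36_18 : PLift (bnd (fT0 18 0 36 3 0 29)
    (bnd (fT0 18 1 36 3 0 30)
    (fT0 19 0 36 3 0 27)) = true) :=
  ⟨by decide +kernel⟩

def cT0_36_19 : PLift (bnd (fT0 19 1 36 3 0 28)
    (bnd (fT0 20 0 36 3 0 25)
    (fT0 20 1 36 3 0 26)) = true) :=
  ⟨by decide +kernel⟩

def cT0_36_20 : PLift (bnd (fT0 21 0 36 3 0 23)
    (bnd (fT0 21 1 36 3 0 24)
    (bnd (fT0 22 0 36 3 0 21)
    (fT0 22 1 36 3 0 22))) = true) :=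
  ⟨by decide +kernel⟩

def cT0_36_21 : PLift (bnd (fT0 23 0 36 3 0 19)
    (bnd (fT0 23 1 36 3 0 20)
    (bnd (fT0 24 0 36 3 0 17)
    (fT0 24 1 36 3 0 18))) = true) :=
  ⟨by decide +kernel⟩

def cT0_36_22 : PLift (bnd (fT0 25 0 36 3 0 15)
    (bnd (fT0 25 1 36 3 0 16)
    (bnd (fT0 26 0 36 3 0 13)
    (bnd (fT0 26 1 36 3 0 14)
    (fT0 27 0 36 3 0 11)))) = true) :=
  ⟨by decide +kernel⟩

def cT0_36_23 : PLift (bnd (fT0 27 1 36 3 0 12)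
    (bnd (fT0 28 0 36 3 0 9)
    (bnd (fT0 28 1 36 3 0 10)
    (bnd (fT0 29 0 36 3 0 7)
    (bnd (fT0 29 1 36 3 0 8)
    (bnd (fT0 30 0 36 3 0 5)
    (bnd (fT0 30 1 36 3 0 6)
    (fT0 31 0 36 3 0 3))))))) = true) :=
  ⟨by decide +kernel⟩

def cT0_36_24 : PLift (bnd (fT0 31 1 36 3 0 4)
    (bnd (fT0 32 0 36 3 0 1)
    (fT0 32 1 36 3 0 2)) = true) :=
  ⟨by decide +kernel⟩

end Pool.Agent.Work.MP_6bf1e5_an.HD
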