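import Pool.Agent.Work.MP_6bf1e5_an.HD.CfT0

/-! Checks of the pass T0, part 5. -/

namespace Pool.Agent.Work.MP_6bf1e5_an.HD

open Pool.Agent.Lib.KLA Pool.Agent.Lib.KBlk

def cT0_2_58 : PLift (bnd (fT0 13 0 2 2 28 11)
    (fT0 13 1 2 2 0 10) = true) :=
  ⟨by decide +kernel⟩

def cT0_2_59 : PLift (fT0 13 1 2 2 10 23 = true) :=
  ⟨by decide +kernel⟩

def cT0_2_60 : PLift (bnd (fT0 13 1 2 2 33 7)
    (fT0 14 0 2 2 0 14) = true) :=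
  ⟨by decide +kernel⟩

def cT0_2_61 : PLift (fT0 14 0 2 2 14 23 = true) :=
  ⟨by decide +kernel⟩

def cT0_2_62 : PLift (fT0 14 1 2 2 0 23 = true) :=
  ⟨by decide +kernel⟩

def cT0_2_63 : PLift (bnd (fT0 14 1 2 2 23 15)
    (fT0 15 0 2 2 0 6) = true) :=
  ⟨by decide +kernel⟩

def cT0_2_64 : PLift (fT0 15 0 2 2 6 23 = true) :=
  ⟨by decide +kernel⟩

def cT0_2_65 : PLift (bnd (fT0 15 0 2 2 29 6)
    (fT0 15 1 2 2 0 15) = true) :=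
  ⟨by decide +kernel⟩

def cT0_2_66 : PLift (fT0 15 1 2 2 15 21 = true) :=
  ⟨by decide +kernel⟩

def cT0_2_67 : PLift (fT0 16 0 2 2 0 23 = true) :=
  ⟨by decide +kernel⟩

def cT0_2_68 : PLift (bnd (fT0 16 0 2 2 23 10)
    (fT0 16 1 2 2 0 11) = true) :=
  ⟨by decide +kernel⟩

def cT0_2_69 : PLift (fT0 16 1 2 2 11 23 = true) :=
  ⟨by decide +kernel⟩

def cT0_2_70 : PLift (fT0 17 0 2 2 0 23 = true) :=
  ⟨by decide +kernel⟩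

def cT0_2_71 : PLift (bnd (fT0 17 0 2 2 23 8)
    (fT0 17 1 2 2 0 13) = true) :=
  ⟨by decide +kernel⟩

def cT0_2_72 : PLift (fT0 17 1 2 2 13 19 = true) :=
  ⟨by decide +kernel⟩

def cT0_2_73 : PLift (fT0 18 0 2 2 0 23 = true) :=
  ⟨by decide +kernel⟩

def cT0_2_74 : PLift (bnd (fT0 18 0 2 2 23 6)
    (fT0 18 1 2 2 0 15) = true) :=
  ⟨by decide +kernel⟩

def cT0_2_75 : PLift (bnd (fT0 18 1 2 2 15 15)
    (fT0 19 0 2 2 0 6) = true) :=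
  ⟨by decide +kernel⟩

def cT0_2_76 : PLift (fT0 19 0 2 2 6 21 = true) :=
  ⟨by decide +kernel⟩

def cT0_2_77 : PLift (fT0 19 1 2 2 0 23 = true) :=
  ⟨by decide +kernel⟩

def cT0_2_78 : PLift (bnd (fT0 19 1 2 2 23 5)
    (fT0 20 0 2 2 0 16) = true) :=
  ⟨by decide +kernel⟩

def cT0_2_79 : PLift (bnd (fT0 20 0 2 2 16 9)
    (fT0 20 1 2 2 0 12) = true) :=
  ⟨by decide +kernel⟩

def cT0_2_80 : PLift (bnd (fT0 20 1 2 2 12 14)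
    (fT0 21 0 2 2 0 7) = true) :=
  ⟨by decide +kernel⟩

def cT0_2_81 : PLift (bnd (fT0 21 0 2 2 7 16)
    (fT0 21 1 2 2 0 5) = true) :=
  ⟨by decide +kernel⟩

def cT0_2_82 : PLift (fT0 21 1 2 2 5 19 = true) :=
  ⟨by decide +kernel⟩

def cT0_2_83 : PLift (fT0 22 0 2 2 0 21 = true) :=
  ⟨by decide +kernel⟩

def cT0_2_84 : PLift (fT0 22 1 2 2 0 22 = true) :=
  ⟨by decide +kernel⟩

end Pool.Agent.Work.MP_6bf1e5_an.HD
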