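import Pool.Agent.Work.MP_6bf1e5_an.HD.CfT0

/-! Checks of the pass T0, part 6. -/

namespace Pool.Agent.Work.MP_6bf1e5_an.HD

open Pool.Agent.Lib.KLA Pool.Agent.Lib.KBlk

def cT0_2_85 : PLift (fT0 23 0 2 2 0 19 = true) :=
  ⟨by decide +kernel⟩

def cT0_2_86 : PLift (fT0 23 1 2 2 0 20 = true) :=
  ⟨by decide +kernel⟩

def cT0_2_87 : PLift (bnd (fT0 24 0 2 2 0 17)
    (fT0 24 1 2 2 0 4) = true) :=
  ⟨by decide +kernel⟩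

def cT0_2_88 : PLift (bnd (fT0 24 1 2 2 4 14)
    (fT0 25 0 2 2 0 7) = true) :=
  ⟨by decide +kernel⟩

def cT0_2_89 : PLift (bnd (fT0 25 0 2 2 7 8)
    (fT0 25 1 2 2 0 14) = true) :=
  ⟨by decide +kernel⟩

def cT0_2_90 : PLift (bnd (fT0 25 1 2 2 14 2)
    (bnd (fT0 26 0 2 2 0 13)
    (fT0 26 1 2 2 0 6)) = true) :=
  ⟨by decide +kernel⟩

def cT0_2_91 : PLift (bnd (fT0 26 1 2 2 6 8)
    (fT0 27 0 2 2 0 11) = true) :=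
  ⟨by decide +kernel⟩

def cT0_2_92 : PLift (bnd (fT0 27 1 2 2 0 12)
    (fT0 28 0 2 2 0 9) = true) :=
  ⟨by decide +kernel⟩

def cT0_2_93 : PLift (bnd (fT0 28 1 2 2 0 10)
    (bnd (fT0 29 0 2 2 0 7)
    (fT0 29 1 2 2 0 4)) = true) :=
  ⟨by decide +kernel⟩

def cT0_2_94 : PLift (bnd (fT0 29 1 2 2 4 4)
    (bnd (fT0 30 0 2 2 0 5)
    (bnd (fT0 30 1 2 2 0 6)
    (fT0 31 0 2 2 0 3))) = true) :=
  ⟨by decide +kernel⟩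

def cT0_2_95 : PLift (bnd (fT0 31 1 2 2 0 4)
    (bnd (fT0 32 0 2 2 0 1)
    (fT0 32 1 2 2 0 2)) = true) :=
  ⟨by decide +kernel⟩

def cT0_4_0 : PLift (fT0 1 0 4 2 0 24 = true) :=
  ⟨by decide +kernel⟩

def cT0_4_1 : PLift (fT0 1 0 4 2 24 24 = true) :=
  ⟨by decide +kernel⟩

def cT0_4_2 : PLift (bnd (fT0 1 0 4 2 48 15)
    (fT0 1 1 4 2 0 7) = true) :=
  ⟨by decide +kernel⟩

def cT0_4_3 : PLift (fT0 1 1 4 2 7 24 = true) :=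
  ⟨by decide +kernel⟩

def cT0_4_4 : PLift (fT0 1 1 4 2 31 24 = true) :=
  ⟨by decide +kernel⟩

def cT0_4_5 : PLift (bnd (fT0 1 1 4 2 55 9)
    (fT0 2 0 4 2 0 13) = true) :=
  ⟨by decide +kernel⟩

def cT0_4_6 : PLift (fT0 2 0 4 2 13 24 = true) :=
  ⟨by decide +kernel⟩

def cT0_4_7 : PLift (fT0 2 0 4 2 37 24 = true) :=
  ⟨by decide +kernel⟩

def cT0_4_8 : PLift (fT0 2 1 4 2 0 24 = true) :=
  ⟨by decide +kernel⟩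

def cT0_4_9 : PLift (fT0 2 1 4 2 24 24 = true) :=
  ⟨by decide +kernel⟩

def cT0_4_10 : PLift (bnd (fT0 2 1 4 2 48 14)
    (fT0 3 0 4 2 0 8) = true) :=
  ⟨by decide +kernel⟩

def cT0_4_11 : PLift (fT0 3 0 4 2 8 24 = true) :=
  ⟨by decide +kernel⟩

def cT0_4_12 : PLift (fT0 3 0 4 2 32 24 = true) :=
  ⟨by decide +kernel⟩

def cT0_4_13 : PLift (bnd (fT0 3 0 4 2 56 3)
    (fT0 3 1 4 2 0 19) = true) :=
  ⟨by decide +kernel⟩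

def cT0_4_14 : PLift (fT0 3 1 4 2 19 24 = true) :=
  ⟨by decide +kernel⟩

end Pool.Agent.Work.MP_6bf1e5_an.HD
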