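import Pool.Agent.Work.MP_6bf1e5_an.HD.CfT0

/-! Checks of the pass T0, part 7. -/

namespace Pool.Agent.Work.MP_6bf1e5_an.HD

open Pool.Agent.Lib.KLA Pool.Agent.Lib.KBlk

def cT0_4_15 : PLift (bnd (fT0 3 1 4 2 43 17)
    (fT0 4 0 4 2 0 5) = true) :=
  ⟨by decide +kernel⟩

def cT0_4_16 : PLift (fT0 4 0 4 2 5 24 = true) :=
  ⟨by decide +kernel⟩

def cT0_4_17 : PLift (fT0 4 0 4 2 29 24 = true) :=
  ⟨by decide +kernel⟩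

def cT0_4_18 : PLift (bnd (fT0 4 0 4 2 53 4)
    (fT0 4 1 4 2 0 18) = true) :=
  ⟨by decide +kernel⟩

def cT0_4_19 : PLift (fT0 4 1 4 2 18 24 = true) :=
  ⟨by decide +kernel⟩

def cT0_4_20 : PLift (bnd (fT0 4 1 4 2 42 16)
    (fT0 5 0 4 2 0 6) = true) :=
  ⟨by decide +kernel⟩

def cT0_4_21 : PLift (fT0 5 0 4 2 6 24 = true) :=
  ⟨by decide +kernel⟩

def cT0_4_22 : PLift (fT0 5 0 4 2 30 24 = true) :=
  ⟨by decide +kernel⟩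

def cT0_4_23 : PLift (bnd (fT0 5 0 4 2 54 1)
    (fT0 5 1 4 2 0 21) = true) :=
  ⟨by decide +kernel⟩

def cT0_4_24 : PLift (fT0 5 1 4 2 21 24 = true) :=
  ⟨by decide +kernel⟩

def cT0_4_25 : PLift (bnd (fT0 5 1 4 2 45 11)
    (fT0 6 0 4 2 0 11) = true) :=
  ⟨by decide +kernel⟩

def cT0_4_26 : PLift (fT0 6 0 4 2 11 24 = true) :=
  ⟨by decide +kernel⟩

def cT0_4_27 : PLift (bnd (fT0 6 0 4 2 35 18)
    (fT0 6 1 4 2 0 4) = true) :=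
  ⟨by decide +kernel⟩

def cT0_4_28 : PLift (fT0 6 1 4 2 4 24 = true) :=
  ⟨by decide +kernel⟩

def cT0_4_29 : PLift (fT0 6 1 4 2 28 24 = true) :=
  ⟨by decide +kernel⟩

def cT0_4_30 : PLift (bnd (fT0 6 1 4 2 52 2)
    (fT0 7 0 4 2 0 20) = true) :=
  ⟨by decide +kernel⟩

def cT0_4_31 : PLift (fT0 7 0 4 2 20 24 = true) :=
  ⟨by decide +kernel⟩

def cT0_4_32 : PLift (bnd (fT0 7 0 4 2 44 7)
    (fT0 7 1 4 2 0 15) = true) :=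
  ⟨by decide +kernel⟩

def cT0_4_33 : PLift (fT0 7 1 4 2 15 24 = true) :=
  ⟨by decide +kernel⟩

def cT0_4_34 : PLift (bnd (fT0 7 1 4 2 39 13)
    (fT0 8 0 4 2 0 9) = true) :=
  ⟨by decide +kernel⟩

def cT0_4_35 : PLift (fT0 8 0 4 2 9 24 = true) :=
  ⟨by decide +kernel⟩

def cT0_4_36 : PLift (bnd (fT0 8 0 4 2 33 16)
    (fT0 8 1 4 2 0 6) = true) :=
  ⟨by decide +kernel⟩

def cT0_4_37 : PLift (fT0 8 1 4 2 6 24 = true) :=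
  ⟨by decide +kernel⟩

def cT0_4_38 : PLift (bnd (fT0 8 1 4 2 30 20)
    (fT0 9 0 4 2 0 2) = true) :=
  ⟨by decide +kernel⟩

def cT0_4_39 : PLift (fT0 9 0 4 2 2 24 = true) :=
  ⟨by decide +kernel⟩

end Pool.Agent.Work.MP_6bf1e5_an.HD
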