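import Pool.Agent.Work.MP_6bf1e5_an.HD.CfT0

/-! Checks of the pass T0, part 8. -/

namespace Pool.Agent.Work.MP_6bf1e5_an.HD

open Pool.Agent.Lib.KLA Pool.Agent.Lib.KBlk

def cT0_4_40 : PLift (bnd (fT0 9 0 4 2 26 21)
    (fT0 9 1 4 2 0 1) = true) :=
  ⟨by decide +kernel⟩

def cT0_4_41 : PLift (fT0 9 1 4 2 1 24 = true) :=
  ⟨by decide +kernel⟩

def cT0_4_42 : PLift (fT0 9 1 4 2 25 23 = true) :=
  ⟨by decide +kernel⟩

def cT0_4_43 : PLift (fT0 10 0 4 2 0 24 = true) :=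
  ⟨by decide +kernel⟩

def cT0_4_44 : PLift (bnd (fT0 10 0 4 2 24 21)
    (fT0 10 1 4 2 0 1) = true) :=
  ⟨by decide +kernel⟩

def cT0_4_45 : PLift (fT0 10 1 4 2 1 24 = true) :=
  ⟨by decide +kernel⟩

def cT0_4_46 : PLift (bnd (fT0 10 1 4 2 25 21)
    (fT0 11 0 4 2 0 1) = true) :=
  ⟨by decide +kernel⟩

def cT0_4_47 : PLift (fT0 11 0 4 2 1 24 = true) :=
  ⟨by decide +kernel⟩

def cT0_4_48 : PLift (bnd (fT0 11 0 4 2 25 18)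
    (fT0 11 1 4 2 0 4) = true) :=
  ⟨by decide +kernel⟩

def cT0_4_49 : PLift (fT0 11 1 4 2 4 24 = true) :=
  ⟨by decide +kernel⟩

def cT0_4_50 : PLift (bnd (fT0 11 1 4 2 28 16)
    (fT0 12 0 4 2 0 6) = true) :=
  ⟨by decide +kernel⟩

def cT0_4_51 : PLift (fT0 12 0 4 2 6 24 = true) :=
  ⟨by decide +kernel⟩

def cT0_4_52 : PLift (bnd (fT0 12 0 4 2 30 11)
    (fT0 12 1 4 2 0 11) = true) :=
  ⟨by decide +kernel⟩

def cT0_4_53 : PLift (fT0 12 1 4 2 11 24 = true) :=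
  ⟨by decide +kernel⟩

def cT0_4_54 : PLift (bnd (fT0 12 1 4 2 35 7)
    (fT0 13 0 4 2 0 15) = true) :=
  ⟨by decide +kernel⟩

def cT0_4_55 : PLift (fT0 13 0 4 2 15 24 = true) :=
  ⟨by decide +kernel⟩

def cT0_4_56 : PLift (fT0 13 1 4 2 0 24 = true) :=
  ⟨by decide +kernel⟩

def cT0_4_57 : PLift (bnd (fT0 13 1 4 2 24 16)
    (fT0 14 0 4 2 0 6) = true) :=
  ⟨by decide +kernel⟩

def cT0_4_58 : PLift (fT0 14 0 4 2 6 24 = true) :=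
  ⟨by decide +kernel⟩

def cT0_4_59 : PLift (bnd (fT0 14 0 4 2 30 7)
    (fT0 14 1 4 2 0 15) = true) :=
  ⟨by decide +kernel⟩

def cT0_4_60 : PLift (fT0 14 1 4 2 15 23 = true) :=
  ⟨by decide +kernel⟩

def cT0_4_61 : PLift (fT0 15 0 4 2 0 24 = true) :=
  ⟨by decide +kernel⟩

def cT0_4_62 : PLift (bnd (fT0 15 0 4 2 24 11)
    (fT0 15 1 4 2 0 11) = true) :=
  ⟨by decide +kernel⟩

def cT0_4_63 : PLift (fT0 15 1 4 2 11 24 = true) :=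
  ⟨by decide +kernel⟩

def cT0_4_64 : PLift (bnd (fT0 15 1 4 2 35 1)
    (fT0 16 0 4 2 0 21) = true) :=
  ⟨by decide +kernel⟩

end Pool.Agent.Work.MP_6bf1e5_an.HD
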