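import Pool.Agent.Work.MP_6bf1e5_an.HD.CfT0

/-! Checks of the pass T0, part 9. -/

namespace Pool.Agent.Work.MP_6bf1e5_an.HD

open Pool.Agent.Lib.KLA Pool.Agent.Lib.KBlk

def cT0_4_65 : PLift (bnd (fT0 16 0 4 2 21 12)
    (fT0 16 1 4 2 0 10) = true) :=
  ⟨by decide +kernel⟩

def cT0_4_66 : PLift (fT0 16 1 4 2 10 24 = true) :=
  ⟨by decide +kernel⟩

def cT0_4_67 : PLift (fT0 17 0 4 2 0 24 = true) :=
  ⟨by decide +kernel⟩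

def cT0_4_68 : PLift (bnd (fT0 17 0 4 2 24 7)
    (fT0 17 1 4 2 0 15) = true) :=
  ⟨by decide +kernel⟩

def cT0_4_69 : PLift (bnd (fT0 17 1 4 2 15 17)
    (fT0 18 0 4 2 0 5) = true) :=
  ⟨by decide +kernel⟩

def cT0_4_70 : PLift (fT0 18 0 4 2 5 24 = true) :=
  ⟨by decide +kernel⟩

def cT0_4_71 : PLift (fT0 18 1 4 2 0 24 = true) :=
  ⟨by decide +kernel⟩

def cT0_4_72 : PLift (bnd (fT0 18 1 4 2 24 6)
    (fT0 19 0 4 2 0 16) = true) :=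
  ⟨by decide +kernel⟩

def cT0_4_73 : PLift (bnd (fT0 19 0 4 2 16 11)
    (fT0 19 1 4 2 0 11) = true) :=
  ⟨by decide +kernel⟩

def cT0_4_74 : PLift (bnd (fT0 19 1 4 2 11 17)
    (fT0 20 0 4 2 0 5) = true) :=
  ⟨by decide +kernel⟩

def cT0_4_75 : PLift (bnd (fT0 20 0 4 2 5 20)
    (fT0 20 1 4 2 0 2) = true) :=
  ⟨by decide +kernel⟩

def cT0_4_76 : PLift (fT0 20 1 4 2 2 24 = true) :=
  ⟨by decide +kernel⟩

def cT0_4_77 : PLift (fT0 21 0 4 2 0 23 = true) :=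
  ⟨by decide +kernel⟩

def cT0_4_78 : PLift (fT0 21 1 4 2 0 24 = true) :=
  ⟨by decide +kernel⟩

def cT0_4_79 : PLift (bnd (fT0 22 0 4 2 0 21)
    (fT0 22 1 4 2 0 1) = true) :=
  ⟨by decide +kernel⟩

def cT0_4_80 : PLift (bnd (fT0 22 1 4 2 1 21)
    (fT0 23 0 4 2 0 1) = true) :=
  ⟨by decide +kernel⟩

def cT0_4_81 : PLift (bnd (fT0 23 0 4 2 1 18)
    (fT0 23 1 4 2 0 4) = true) :=
  ⟨by decide +kernel⟩

def cT0_4_82 : PLift (bnd (fT0 23 1 4 2 4 16)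
    (fT0 24 0 4 2 0 6) = true) :=
  ⟨by decide +kernel⟩

def cT0_4_83 : PLift (bnd (fT0 24 0 4 2 6 11)
    (fT0 24 1 4 2 0 11) = true) :=
  ⟨by decide +kernel⟩

def cT0_4_84 : PLift (bnd (fT0 24 1 4 2 11 7)
    (fT0 25 0 4 2 0 15) = true) :=
  ⟨by decide +kernel⟩

def cT0_4_85 : PLift (bnd (fT0 25 1 4 2 0 16)
    (fT0 26 0 4 2 0 7) = true) :=
  ⟨by decide +kernel⟩

def cT0_4_86 : PLift (bnd (fT0 26 0 4 2 7 6)
    (bnd (fT0 26 1 4 2 0 14)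
    (fT0 27 0 4 2 0 2)) = true) :=
  ⟨by decide +kernel⟩

def cT0_4_87 : PLift (bnd (fT0 27 0 4 2 2 9)
    (fT0 27 1 4 2 0 12) = true) :=
  ⟨by decide +kernel⟩

def cT0_4_88 : PLift (bnd (fT0 28 0 4 2 0 9)
    (bnd (fT0 28 1 4 2 0 10)
    (fT0 29 0 4 2 0 2)) = true) :=
  ⟨by decide +kernel⟩

def cT0_4_89 : PLift (bnd (fT0 29 0 4 2 2 5)
    (bnd (fT0 29 1 4 2 0 8)
    (bnd (fT0 30 0 4 2 0 5)
    (fT0 30 1 4 2 0 3))) = true) :=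
  ⟨by decide +kernel⟩

def cT0_4_90 : PLift (bnd (fT0 30 1 4 2 3 3)
    (bnd (fT0 31 0 4 2 0 3)
    (bnd (fT0 31 1 4 2 0 4)
    (bnd (fT0 32 0 4 2 0 1)
    (fT0 32 1 4 2 0 2)))) = true) :=
  ⟨by decide +kernel⟩

end Pool.Agent.Work.MP_6bf1e5_an.HD
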