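import Pool.Agent.Work.MP_6bf1e5_an.HD.CfTP

/-! Checks of the pass TP, part 0. -/

namespace Pool.Agent.Work.MP_6bf1e5_an.HD

open Pool.Agent.Lib.KLA Pool.Agent.Lib.KBlk

def cTP_0_0 : PLift (fTP 1 0 0 3 0 35 = true) :=
  ⟨by decide +kernel⟩

def cTP_0_1 : PLift (bnd (fTP 1 0 0 3 35 20)
    (fTP 1 1 0 3 0 13) = true) :=
  ⟨by decide +kernel⟩

def cTP_0_2 : PLift (fTP 1 1 0 3 13 35 = true) :=
  ⟨by decide +kernel⟩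

def cTP_0_3 : PLift (bnd (fTP 1 1 0 3 48 10)
    (fTP 2 0 0 3 0 23) = true) :=
  ⟨by decide +kernel⟩

def cTP_0_4 : PLift (fTP 2 0 0 3 23 30 = true) :=
  ⟨by decide +kernel⟩

def cTP_0_5 : PLift (fTP 2 1 0 3 0 35 = true) :=
  ⟨by decide +kernel⟩

def cTP_0_6 : PLift (bnd (fTP 2 1 0 3 35 21)
    (fTP 3 0 0 3 0 12) = true) :=
  ⟨by decide +kernel⟩

def cTP_0_7 : PLift (fTP 3 0 0 3 12 35 = true) :=
  ⟨by decide +kernel⟩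

def cTP_0_8 : PLift (bnd (fTP 3 0 0 3 47 4)
    (fTP 3 1 0 3 0 29) = true) :=
  ⟨by decide +kernel⟩

def cTP_0_9 : PLift (bnd (fTP 3 1 0 3 29 25)
    (fTP 4 0 0 3 0 8) = true) :=
  ⟨by decide +kernel⟩

def cTP_0_10 : PLift (fTP 4 0 0 3 8 35 = true) :=
  ⟨by decide +kernel⟩

def cTP_0_11 : PLift (bnd (fTP 4 0 0 3 43 6)
    (fTP 4 1 0 3 0 27) = true) :=
  ⟨by decide +kernel⟩

def cTP_0_12 : PLift (bnd (fTP 4 1 0 3 27 25)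
    (fTP 5 0 0 3 0 8) = true) :=
  ⟨by decide +kernel⟩

def cTP_0_13 : PLift (fTP 5 0 0 3 8 35 = true) :=
  ⟨by decide +kernel⟩

def cTP_0_14 : PLift (bnd (fTP 5 0 0 3 43 4)
    (fTP 5 1 0 3 0 29) = true) :=
  ⟨by decide +kernel⟩

def cTP_0_15 : PLift (bnd (fTP 5 1 0 3 29 21)
    (fTP 6 0 0 3 0 12) = true) :=
  ⟨by decide +kernel⟩

def cTP_0_16 : PLift (fTP 6 0 0 3 12 33 = true) :=
  ⟨by decide +kernel⟩

def cTP_0_17 : PLift (fTP 6 1 0 3 0 35 = true) :=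
  ⟨by decide +kernel⟩

def cTP_0_18 : PLift (bnd (fTP 6 1 0 3 35 13)
    (fTP 7 0 0 3 0 20) = true) :=
  ⟨by decide +kernel⟩

def cTP_0_19 : PLift (bnd (fTP 7 0 0 3 20 23)
    (fTP 7 1 0 3 0 10) = true) :=
  ⟨by decide +kernel⟩

def cTP_0_20 : PLift (fTP 7 1 0 3 10 35 = true) :=
  ⟨by decide +kernel⟩

def cTP_0_21 : PLift (bnd (fTP 7 1 0 3 45 1)
    (fTP 8 0 0 3 0 32) = true) :=
  ⟨by decide +kernel⟩

def cTP_0_22 : PLift (bnd (fTP 8 0 0 3 32 9)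
    (fTP 8 1 0 3 0 24) = true) :=
  ⟨by decide +kernel⟩

def cTP_0_23 : PLift (bnd (fTP 8 1 0 3 24 20)
    (fTP 9 0 0 3 0 13) = true) :=
  ⟨by decide +kernel⟩

def cTP_0_24 : PLift (bnd (fTP 9 0 0 3 13 26)
    (fTP 9 1 0 3 0 7) = true) :=
  ⟨by decide +kernel⟩

def cTP_0_25 : PLift (fTP 9 1 0 3 7 35 = true) :=
  ⟨by decide +kernel⟩

def cTP_0_26 : PLift (fTP 10 0 0 3 0 35 = true) :=
  ⟨by decide +kernel⟩

end Pool.Agent.Work.MP_6bf1e5_an.HD
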