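import Pool.Agent.Work.MP_6bf1e5_an.HD.CfTP

/-! Checks of the pass TP, part 1. -/

namespace Pool.Agent.Work.MP_6bf1e5_an.HD

open Pool.Agent.Lib.KLA Pool.Agent.Lib.KBlk

def cTP_0_27 : PLift (bnd (fTP 10 0 0 3 35 2)
    (fTP 10 1 0 3 0 31) = true) :=
  ⟨by decide +kernel⟩

def cTP_0_28 : PLift (bnd (fTP 10 1 0 3 31 9)
    (fTP 11 0 0 3 0 24) = true) :=
  ⟨by decide +kernel⟩

def cTP_0_29 : PLift (bnd (fTP 11 0 0 3 24 11)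
    (fTP 11 1 0 3 0 22) = true) :=
  ⟨by decide +kernel⟩

def cTP_0_30 : PLift (bnd (fTP 11 1 0 3 22 16)
    (fTP 12 0 0 3 0 17) = true) :=
  ⟨by decide +kernel⟩

def cTP_0_31 : PLift (bnd (fTP 12 0 0 3 17 16)
    (fTP 12 1 0 3 0 17) = true) :=
  ⟨by decide +kernel⟩

def cTP_0_32 : PLift (bnd (fTP 12 1 0 3 17 19)
    (fTP 13 0 0 3 0 14) = true) :=
  ⟨by decide +kernel⟩

def cTP_0_33 : PLift (bnd (fTP 13 0 0 3 14 17)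
    (fTP 13 1 0 3 0 16) = true) :=
  ⟨by decide +kernel⟩

def cTP_0_34 : PLift (bnd (fTP 13 1 0 3 16 18)
    (fTP 14 0 0 3 0 15) = true) :=
  ⟨by decide +kernel⟩

def cTP_0_35 : PLift (bnd (fTP 14 0 0 3 15 14)
    (fTP 14 1 0 3 0 19) = true) :=
  ⟨by decide +kernel⟩

def cTP_0_36 : PLift (bnd (fTP 14 1 0 3 19 13)
    (fTP 15 0 0 3 0 19) = true) :=
  ⟨by decide +kernel⟩

def cTP_0_37 : PLift (bnd (fTP 15 0 0 3 19 8)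
    (fTP 15 1 0 3 0 24) = true) :=
  ⟨by decide +kernel⟩

def cTP_0_38 : PLift (bnd (fTP 15 1 0 3 24 6)
    (fTP 16 0 0 3 0 25) = true) :=
  ⟨by decide +kernel⟩

def cTP_0_39 : PLift (fTP 16 1 0 3 0 28 = true) :=
  ⟨by decide +kernel⟩

def cTP_0_40 : PLift (bnd (fTP 17 0 0 3 0 23)
    (fTP 17 1 0 3 0 9) = true) :=
  ⟨by decide +kernel⟩

def cTP_0_41 : PLift (bnd (fTP 17 1 0 3 9 17)
    (fTP 18 0 0 3 0 15) = true) :=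
  ⟨by decide +kernel⟩

def cTP_0_42 : PLift (bnd (fTP 18 0 0 3 15 6)
    (fTP 18 1 0 3 0 24) = true) :=
  ⟨by decide +kernel⟩

def cTP_0_43 : PLift (bnd (fTP 19 0 0 3 0 19)
    (fTP 19 1 0 3 0 13) = true) :=
  ⟨by decide +kernel⟩

def cTP_0_44 : PLift (bnd (fTP 19 1 0 3 13 9)
    (fTP 20 0 0 3 0 17) = true) :=
  ⟨by decide +kernel⟩

def cTP_0_45 : PLift (bnd (fTP 20 1 0 3 0 20)
    (fTP 21 0 0 3 0 12) = true) :=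
  ⟨by decide +kernel⟩

def cTP_0_46 : PLift (bnd (fTP 21 0 0 3 12 3)
    (bnd (fTP 21 1 0 3 0 18)
    (fTP 22 0 0 3 0 10)) = true) :=
  ⟨by decide +kernel⟩

def cTP_0_47 : PLift (bnd (fTP 22 0 0 3 10 3)
    (bnd (fTP 22 1 0 3 0 16)
    (fTP 23 0 0 3 0 11)) = true) :=
  ⟨by decide +kernel⟩

def cTP_0_48 : PLift (bnd (fTP 23 1 0 3 0 14)
    (bnd (fTP 24 0 0 3 0 9)
    (fTP 24 1 0 3 0 8)) = true) :=
  ⟨by decide +kernel⟩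

def cTP_0_49 : PLift (bnd (fTP 24 1 0 3 8 4)
    (bnd (fTP 25 0 0 3 0 7)
    (bnd (fTP 25 1 0 3 0 10)
    (fTP 26 0 0 3 0 5))) = true) :=
  ⟨by decide +kernel⟩

def cTP_0_50 : PLift (bnd (fTP 26 1 0 3 0 8)
    (bnd (fTP 27 0 0 3 0 3)
    (bnd (fTP 27 1 0 3 0 6)
    (bnd (fTP 28 0 0 3 0 1)
    (fTP 28 1 0 3 0 4)))) = true) :=
  ⟨by decide +kernel⟩

def cTP_3_0 : PLift (fTP 1 0 3 3 0 28 = true) :=
  ⟨by decide +kernel⟩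

def cTP_3_1 : PLift (fTP 1 0 3 3 28 27 = true) :=
  ⟨by decide +kernel⟩

def cTP_3_2 : PLift (fTP 1 1 3 3 0 28 = true) :=
  ⟨by decide +kernel⟩

end Pool.Agent.Work.MP_6bf1e5_an.HD
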