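import Pool.Agent.Work.MP_6bf1e5_an.HD.CfTP

/-! Checks of the pass TP, part 10. -/

namespace Pool.Agent.Work.MP_6bf1e5_an.HD

open Pool.Agent.Lib.KLA Pool.Agent.Lib.KBlk

def cTP_15_2 : PLift (fTP 1 1 15 3 26 32 = true) :=
  ⟨by decide +kernel⟩

def cTP_15_3 : PLift (fTP 2 0 15 3 0 42 = true) :=
  ⟨by decide +kernel⟩

def cTP_15_4 : PLift (bnd (fTP 2 0 15 3 42 11)
    (fTP 2 1 15 3 0 28) = true) :=
  ⟨by decide +kernel⟩

def cTP_15_5 : PLift (fTP 2 1 15 3 28 28 = true) :=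
  ⟨by decide +kernel⟩

def cTP_15_6 : PLift (fTP 3 0 15 3 0 42 = true) :=
  ⟨by decide +kernel⟩

def cTP_15_7 : PLift (bnd (fTP 3 0 15 3 42 9)
    (fTP 3 1 15 3 0 30) = true) :=
  ⟨by decide +kernel⟩

def cTP_15_8 : PLift (bnd (fTP 3 1 15 3 30 24)
    (fTP 4 0 15 3 0 15) = true) :=
  ⟨by decide +kernel⟩

def cTP_15_9 : PLift (fTP 4 0 15 3 15 34 = true) :=
  ⟨by decide +kernel⟩

def cTP_15_10 : PLift (fTP 4 1 15 3 0 42 = true) :=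
  ⟨by decide +kernel⟩

def cTP_15_11 : PLift (bnd (fTP 4 1 15 3 42 10)
    (fTP 5 0 15 3 0 29) = true) :=
  ⟨by decide +kernel⟩

def cTP_15_12 : PLift (bnd (fTP 5 0 15 3 29 18)
    (fTP 5 1 15 3 0 21) = true) :=
  ⟨by decide +kernel⟩

def cTP_15_13 : PLift (fTP 5 1 15 3 21 29 = true) :=
  ⟨by decide +kernel⟩

def cTP_15_14 : PLift (fTP 6 0 15 3 0 42 = true) :=
  ⟨by decide +kernel⟩

def cTP_15_15 : PLift (bnd (fTP 6 0 15 3 42 3)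
    (fTP 6 1 15 3 0 36) = true) :=
  ⟨by decide +kernel⟩

def cTP_15_16 : PLift (bnd (fTP 6 1 15 3 36 12)
    (fTP 7 0 15 3 0 27) = true) :=
  ⟨by decide +kernel⟩

def cTP_15_17 : PLift (bnd (fTP 7 0 15 3 27 16)
    (fTP 7 1 15 3 0 23) = true) :=
  ⟨by decide +kernel⟩

def cTP_15_18 : PLift (bnd (fTP 7 1 15 3 23 23)
    (fTP 8 0 15 3 0 16) = true) :=
  ⟨by decide +kernel⟩

def cTP_15_19 : PLift (bnd (fTP 8 0 15 3 16 25)
    (fTP 8 1 15 3 0 14) = true) :=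
  ⟨by decide +kernel⟩

def cTP_15_20 : PLift (fTP 8 1 15 3 14 30 = true) :=
  ⟨by decide +kernel⟩

def cTP_15_21 : PLift (fTP 9 0 15 3 0 39 = true) :=
  ⟨by decide +kernel⟩

def cTP_15_22 : PLift (fTP 9 1 15 3 0 42 = true) :=
  ⟨by decide +kernel⟩

def cTP_15_23 : PLift (fTP 10 0 15 3 0 37 = true) :=
  ⟨by decide +kernel⟩

def cTP_15_24 : PLift (fTP 10 1 15 3 0 40 = true) :=
  ⟨by decide +kernel⟩

def cTP_15_25 : PLift (fTP 11 0 15 3 0 35 = true) :=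
  ⟨by decide +kernel⟩

def cTP_15_26 : PLift (fTP 11 1 15 3 0 38 = true) :=
  ⟨by decide +kernel⟩

def cTP_15_27 : PLift (fTP 12 0 15 3 0 33 = true) :=
  ⟨by decide +kernel⟩

def cTP_15_28 : PLift (fTP 12 1 15 3 0 36 = true) :=
  ⟨by decide +kernel⟩

end Pool.Agent.Work.MP_6bf1e5_an.HD
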