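import Pool.Agent.Work.MP_6bf1e5_an.HD.CfTP

/-! Checks of the pass TP, part 11. -/

namespace Pool.Agent.Work.MP_6bf1e5_an.HD

open Pool.Agent.Lib.KLA Pool.Agent.Lib.KBlk

def cTP_15_29 : PLift (fTP 13 0 15 3 0 31 = true) :=
  ⟨by decide +kernel⟩

def cTP_15_30 : PLift (fTP 13 1 15 3 0 34 = true) :=
  ⟨by decide +kernel⟩

def cTP_15_31 : PLift (fTP 14 0 15 3 0 29 = true) :=
  ⟨by decide +kernel⟩

def cTP_15_32 : PLift (fTP 14 1 15 3 0 32 = true) :=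
  ⟨by decide +kernel⟩

def cTP_15_33 : PLift (bnd (fTP 15 0 15 3 0 27)
    (fTP 15 1 15 3 0 12) = true) :=
  ⟨by decide +kernel⟩

def cTP_15_34 : PLift (bnd (fTP 15 1 15 3 12 18)
    (fTP 16 0 15 3 0 21) = true) :=
  ⟨by decide +kernel⟩

def cTP_15_35 : PLift (bnd (fTP 16 0 15 3 21 4)
    (fTP 16 1 15 3 0 28) = true) :=
  ⟨by decide +kernel⟩

def cTP_15_36 : PLift (bnd (fTP 17 0 15 3 0 23)
    (fTP 17 1 15 3 0 15) = true) :=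
  ⟨by decide +kernel⟩

def cTP_15_37 : PLift (bnd (fTP 17 1 15 3 15 11)
    (fTP 18 0 15 3 0 21) = true) :=
  ⟨by decide +kernel⟩

def cTP_15_38 : PLift (bnd (fTP 18 1 15 3 0 24)
    (fTP 19 0 15 3 0 14) = true) :=
  ⟨by decide +kernel⟩

def cTP_15_39 : PLift (bnd (fTP 19 0 15 3 14 5)
    (fTP 19 1 15 3 0 22) = true) :=
  ⟨by decide +kernel⟩

def cTP_15_40 : PLift (bnd (fTP 20 0 15 3 0 17)
    (fTP 20 1 15 3 0 20) = true) :=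
  ⟨by decide +kernel⟩

def cTP_15_41 : PLift (bnd (fTP 21 0 15 3 0 15)
    (fTP 21 1 15 3 0 18) = true) :=
  ⟨by decide +kernel⟩

def cTP_15_42 : PLift (bnd (fTP 22 0 15 3 0 13)
    (fTP 22 1 15 3 0 16) = true) :=
  ⟨by decide +kernel⟩

def cTP_15_43 : PLift (bnd (fTP 23 0 15 3 0 11)
    (bnd (fTP 23 1 15 3 0 14)
    (fTP 24 0 15 3 0 9)) = true) :=
  ⟨by decide +kernel⟩

def cTP_15_44 : PLift (bnd (fTP 24 1 15 3 0 12)
    (bnd (fTP 25 0 15 3 0 7)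
    (bnd (fTP 25 1 15 3 0 10)
    (fTP 26 0 15 3 0 5))) = true) :=
  ⟨by decide +kernel⟩

def cTP_15_45 : PLift (bnd (fTP 26 1 15 3 0 8)
    (bnd (fTP 27 0 15 3 0 3)
    (bnd (fTP 27 1 15 3 0 6)
    (bnd (fTP 28 0 15 3 0 1)
    (fTP 28 1 15 3 0 4)))) = true) :=
  ⟨by decide +kernel⟩

def cTP_18_0 : PLift (fTP 1 0 18 6 0 23 = true) :=
  ⟨by decide +kernel⟩

def cTP_18_1 : PLift (fTP 1 0 18 6 23 23 = true) :=
  ⟨by decide +kernel⟩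

def cTP_18_2 : PLift (bnd (fTP 1 0 18 6 46 9)
    (fTP 1 1 18 6 0 12) = true) :=
  ⟨by decide +kernel⟩

def cTP_18_3 : PLift (fTP 1 1 18 6 12 23 = true) :=
  ⟨by decide +kernel⟩

def cTP_18_4 : PLift (fTP 1 1 18 6 35 23 = true) :=
  ⟨by decide +kernel⟩

def cTP_18_5 : PLift (fTP 2 0 18 6 0 23 = true) :=
  ⟨by decide +kernel⟩

def cTP_18_6 : PLift (fTP 2 0 18 6 23 23 = true) :=
  ⟨by decide +kernel⟩

def cTP_18_7 : PLift (bnd (fTP 2 0 18 6 46 7)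
    (fTP 2 1 18 6 0 14) = true) :=
  ⟨by decide +kernel⟩

def cTP_18_8 : PLift (fTP 2 1 18 6 14 23 = true) :=
  ⟨by decide +kernel⟩

def cTP_18_9 : PLift (fTP 2 1 18 6 37 19 = true) :=
  ⟨by decide +kernel⟩

def cTP_18_10 : PLift (fTP 3 0 18 6 0 23 = true) :=
  ⟨by decide +kernel⟩

end Pool.Agent.Work.MP_6bf1e5_an.HD
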