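import Pool.Agent.Work.MP_6bf1e5_an.HD.CfTP

/-! Checks of the pass TP, part 12. -/

namespace Pool.Agent.Work.MP_6bf1e5_an.HD

open Pool.Agent.Lib.KLA Pool.Agent.Lib.KBlk

def cTP_18_11 : PLift (fTP 3 0 18 6 23 23 = true) :=
  ⟨by decide +kernel⟩

def cTP_18_12 : PLift (bnd (fTP 3 0 18 6 46 5)
    (fTP 3 1 18 6 0 16) = true) :=
  ⟨by decide +kernel⟩

def cTP_18_13 : PLift (fTP 3 1 18 6 16 23 = true) :=
  ⟨by decide +kernel⟩

def cTP_18_14 : PLift (fTP 3 1 18 6 39 15 = true) :=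
  ⟨by decide +kernel⟩

def cTP_18_15 : PLift (fTP 4 0 18 6 0 23 = true) :=
  ⟨by decide +kernel⟩

def cTP_18_16 : PLift (fTP 4 0 18 6 23 23 = true) :=
  ⟨by decide +kernel⟩

def cTP_18_17 : PLift (bnd (fTP 4 0 18 6 46 3)
    (fTP 4 1 18 6 0 18) = true) :=
  ⟨by decide +kernel⟩

def cTP_18_18 : PLift (fTP 4 1 18 6 18 23 = true) :=
  ⟨by decide +kernel⟩

def cTP_18_19 : PLift (fTP 4 1 18 6 41 11 = true) :=
  ⟨by decide +kernel⟩

def cTP_18_20 : PLift (fTP 5 0 18 6 0 23 = true) :=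
  ⟨by decide +kernel⟩

def cTP_18_21 : PLift (fTP 5 0 18 6 23 23 = true) :=
  ⟨by decide +kernel⟩

def cTP_18_22 : PLift (bnd (fTP 5 0 18 6 46 1)
    (fTP 5 1 18 6 0 20) = true) :=
  ⟨by decide +kernel⟩

def cTP_18_23 : PLift (fTP 5 1 18 6 20 23 = true) :=
  ⟨by decide +kernel⟩

def cTP_18_24 : PLift (bnd (fTP 5 1 18 6 43 7)
    (fTP 6 0 18 6 0 14) = true) :=
  ⟨by decide +kernel⟩

def cTP_18_25 : PLift (fTP 6 0 18 6 14 23 = true) :=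
  ⟨by decide +kernel⟩

def cTP_18_26 : PLift (bnd (fTP 6 0 18 6 37 8)
    (fTP 6 1 18 6 0 13) = true) :=
  ⟨by decide +kernel⟩

def cTP_18_27 : PLift (fTP 6 1 18 6 13 23 = true) :=
  ⟨by decide +kernel⟩

def cTP_18_28 : PLift (fTP 6 1 18 6 36 12 = true) :=
  ⟨by decide +kernel⟩

def cTP_18_29 : PLift (fTP 7 0 18 6 0 23 = true) :=
  ⟨by decide +kernel⟩

def cTP_18_30 : PLift (fTP 7 0 18 6 23 20 = true) :=
  ⟨by decide +kernel⟩

def cTP_18_31 : PLift (fTP 7 1 18 6 0 23 = true) :=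
  ⟨by decide +kernel⟩

def cTP_18_32 : PLift (fTP 7 1 18 6 23 23 = true) :=
  ⟨by decide +kernel⟩

def cTP_18_33 : PLift (fTP 8 0 18 6 0 23 = true) :=
  ⟨by decide +kernel⟩

def cTP_18_34 : PLift (fTP 8 0 18 6 23 18 = true) :=
  ⟨by decide +kernel⟩

def cTP_18_35 : PLift (fTP 8 1 18 6 0 23 = true) :=
  ⟨by decide +kernel⟩

def cTP_18_36 : PLift (fTP 8 1 18 6 23 21 = true) :=
  ⟨by decide +kernel⟩

def cTP_18_37 : PLift (fTP 9 0 18 6 0 23 = true) :=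
  ⟨by decide +kernel⟩

def cTP_18_38 : PLift (fTP 9 0 18 6 23 16 = true) :=
  ⟨by decide +kernel⟩

end Pool.Agent.Work.MP_6bf1e5_an.HD
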