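import Pool.Agent.Work.MP_6bf1e5_an.HD.CfTP

/-! Checks of the pass TP, part 13. -/

namespace Pool.Agent.Work.MP_6bf1e5_an.HD

open Pool.Agent.Lib.KLA Pool.Agent.Lib.KBlk

def cTP_18_39 : PLift (fTP 9 1 18 6 0 23 = true) :=
  ⟨by decide +kernel⟩

def cTP_18_40 : PLift (fTP 9 1 18 6 23 19 = true) :=
  ⟨by decide +kernel⟩

def cTP_18_41 : PLift (fTP 10 0 18 6 0 23 = true) :=
  ⟨by decide +kernel⟩

def cTP_18_42 : PLift (fTP 10 0 18 6 23 14 = true) :=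
  ⟨by decide +kernel⟩

def cTP_18_43 : PLift (fTP 10 1 18 6 0 23 = true) :=
  ⟨by decide +kernel⟩

def cTP_18_44 : PLift (fTP 10 1 18 6 23 17 = true) :=
  ⟨by decide +kernel⟩

def cTP_18_45 : PLift (fTP 11 0 18 6 0 23 = true) :=
  ⟨by decide +kernel⟩

def cTP_18_46 : PLift (fTP 11 0 18 6 23 12 = true) :=
  ⟨by decide +kernel⟩

def cTP_18_47 : PLift (fTP 11 1 18 6 0 23 = true) :=
  ⟨by decide +kernel⟩

def cTP_18_48 : PLift (fTP 11 1 18 6 23 15 = true) :=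
  ⟨by decide +kernel⟩

def cTP_18_49 : PLift (fTP 12 0 18 6 0 22 = true) :=
  ⟨by decide +kernel⟩

def cTP_18_50 : PLift (fTP 12 0 18 6 22 11 = true) :=
  ⟨by decide +kernel⟩

def cTP_18_51 : PLift (fTP 12 1 18 6 0 22 = true) :=
  ⟨by decide +kernel⟩

def cTP_18_52 : PLift (fTP 12 1 18 6 22 14 = true) :=
  ⟨by decide +kernel⟩

def cTP_18_53 : PLift (fTP 13 0 18 6 0 22 = true) :=
  ⟨by decide +kernel⟩

def cTP_18_54 : PLift (fTP 13 0 18 6 22 9 = true) :=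
  ⟨by decide +kernel⟩

def cTP_18_55 : PLift (fTP 13 1 18 6 0 22 = true) :=
  ⟨by decide +kernel⟩

def cTP_18_56 : PLift (fTP 13 1 18 6 22 12 = true) :=
  ⟨by decide +kernel⟩

def cTP_18_57 : PLift (fTP 14 0 18 6 0 22 = true) :=
  ⟨by decide +kernel⟩

def cTP_18_58 : PLift (bnd (fTP 14 0 18 6 22 7)
    (fTP 14 1 18 6 0 13) = true) :=
  ⟨by decide +kernel⟩

def cTP_18_59 : PLift (fTP 14 1 18 6 13 19 = true) :=
  ⟨by decide +kernel⟩

def cTP_18_60 : PLift (fTP 15 0 18 6 0 22 = true) :=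
  ⟨by decide +kernel⟩

def cTP_18_61 : PLift (bnd (fTP 15 0 18 6 22 5)
    (fTP 15 1 18 6 0 15) = true) :=
  ⟨by decide +kernel⟩

def cTP_18_62 : PLift (fTP 15 1 18 6 15 15 = true) :=
  ⟨by decide +kernel⟩

def cTP_18_63 : PLift (fTP 16 0 18 6 0 22 = true) :=
  ⟨by decide +kernel⟩

def cTP_18_64 : PLift (bnd (fTP 16 0 18 6 22 3)
    (fTP 16 1 18 6 0 17) = true) :=
  ⟨by decide +kernel⟩

def cTP_18_65 : PLift (fTP 16 1 18 6 17 11 = true) :=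
  ⟨by decide +kernel⟩

def cTP_18_66 : PLift (fTP 17 0 18 6 0 22 = true) :=
  ⟨by decide +kernel⟩

def cTP_18_67 : PLift (bnd (fTP 17 0 18 6 22 1)
    (fTP 17 1 18 6 0 19) = true) :=
  ⟨by decide +kernel⟩

def cTP_18_68 : PLift (bnd (fTP 17 1 18 6 19 7)
    (fTP 18 0 18 6 0 13) = true) :=
  ⟨by decide +kernel⟩

def cTP_18_69 : PLift (bnd (fTP 18 0 18 6 13 8)
    (fTP 18 1 18 6 0 12) = true) :=
  ⟨by decide +kernel⟩

end Pool.Agent.Work.MP_6bf1e5_an.HD
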