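import Pool.Agent.Work.MP_6bf1e5_an.HD.CfTP

/-! Checks of the pass TP, part 14. -/

namespace Pool.Agent.Work.MP_6bf1e5_an.HD

open Pool.Agent.Lib.KLA Pool.Agent.Lib.KBlk

def cTP_18_70 : PLift (fTP 18 1 18 6 12 12 = true) :=
  ⟨by decide +kernel⟩

def cTP_18_71 : PLift (fTP 19 0 18 6 0 19 = true) :=
  ⟨by decide +kernel⟩

def cTP_18_72 : PLift (fTP 19 1 18 6 0 22 = true) :=
  ⟨by decide +kernel⟩

def cTP_18_73 : PLift (fTP 20 0 18 6 0 17 = true) :=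
  ⟨by decide +kernel⟩

def cTP_18_74 : PLift (fTP 20 1 18 6 0 20 = true) :=
  ⟨by decide +kernel⟩

def cTP_18_75 : PLift (fTP 21 0 18 6 0 15 = true) :=
  ⟨by decide +kernel⟩

def cTP_18_76 : PLift (fTP 21 1 18 6 0 18 = true) :=
  ⟨by decide +kernel⟩

def cTP_18_77 : PLift (fTP 22 0 18 6 0 13 = true) :=
  ⟨by decide +kernel⟩

def cTP_18_78 : PLift (fTP 22 1 18 6 0 16 = true) :=
  ⟨by decide +kernel⟩

def cTP_18_79 : PLift (fTP 23 0 18 6 0 11 = true) :=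
  ⟨by decide +kernel⟩

def cTP_18_80 : PLift (fTP 23 1 18 6 0 14 = true) :=
  ⟨by decide +kernel⟩

def cTP_18_81 : PLift (fTP 24 0 18 6 0 9 = true) :=
  ⟨by decide +kernel⟩

def cTP_18_82 : PLift (bnd (fTP 24 1 18 6 0 12)
    (fTP 25 0 18 6 0 7) = true) :=
  ⟨by decide +kernel⟩

def cTP_18_83 : PLift (bnd (fTP 25 1 18 6 0 10)
    (fTP 26 0 18 6 0 5) = true) :=
  ⟨by decide +kernel⟩

def cTP_18_84 : PLift (bnd (fTP 26 1 18 6 0 8)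
    (bnd (fTP 27 0 18 6 0 3)
    (fTP 27 1 18 6 0 6)) = true) :=
  ⟨by decide +kernel⟩

def cTP_18_85 : PLift (bnd (fTP 28 0 18 6 0 1)
    (fTP 28 1 18 6 0 4) = true) :=
  ⟨by decide +kernel⟩

def cTP_24_0 : PLift (fTP 1 0 24 6 0 33 = true) :=
  ⟨by decide +kernel⟩

def cTP_24_1 : PLift (fTP 1 0 24 6 33 22 = true) :=
  ⟨by decide +kernel⟩

def cTP_24_2 : PLift (fTP 1 1 24 6 0 33 = true) :=
  ⟨by decide +kernel⟩

def cTP_24_3 : PLift (fTP 1 1 24 6 33 25 = true) :=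
  ⟨by decide +kernel⟩

def cTP_24_4 : PLift (fTP 2 0 24 6 0 33 = true) :=
  ⟨by decide +kernel⟩

def cTP_24_5 : PLift (fTP 2 0 24 6 33 20 = true) :=
  ⟨by decide +kernel⟩

def cTP_24_6 : PLift (fTP 2 1 24 6 0 33 = true) :=
  ⟨by decide +kernel⟩

def cTP_24_7 : PLift (fTP 2 1 24 6 33 23 = true) :=
  ⟨by decide +kernel⟩

def cTP_24_8 : PLift (fTP 3 0 24 6 0 33 = true) :=
  ⟨by decide +kernel⟩

def cTP_24_9 : PLift (fTP 3 0 24 6 33 18 = true) :=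
  ⟨by decide +kernel⟩

def cTP_24_10 : PLift (fTP 3 1 24 6 0 33 = true) :=
  ⟨by decide +kernel⟩

def cTP_24_11 : PLift (fTP 3 1 24 6 33 21 = true) :=
  ⟨by decide +kernel⟩

def cTP_24_12 : PLift (fTP 4 0 24 6 0 33 = true) :=
  ⟨by decide +kernel⟩

def cTP_24_13 : PLift (fTP 4 0 24 6 33 16 = true) :=
  ⟨by decide +kernel⟩

def cTP_24_14 : PLift (fTP 4 1 24 6 0 33 = true) :=
  ⟨by decide +kernel⟩

def cTP_24_15 : PLift (fTP 4 1 24 6 33 19 = true) :=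
  ⟨by decide +kernel⟩

end Pool.Agent.Work.MP_6bf1e5_an.HD
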