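import Pool.Agent.Work.MP_6bf1e5_an.HD.CfTP

/-! Checks of the pass TP, part 15. -/

namespace Pool.Agent.Work.MP_6bf1e5_an.HD

open Pool.Agent.Lib.KLA Pool.Agent.Lib.KBlk

def cTP_24_16 : PLift (fTP 5 0 24 6 0 33 = true) :=
  ⟨by decide +kernel⟩

def cTP_24_17 : PLift (fTP 5 0 24 6 33 14 = true) :=
  ⟨by decide +kernel⟩

def cTP_24_18 : PLift (fTP 5 1 24 6 0 33 = true) :=
  ⟨by decide +kernel⟩

def cTP_24_19 : PLift (fTP 5 1 24 6 33 17 = true) :=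
  ⟨by decide +kernel⟩

def cTP_24_20 : PLift (fTP 6 0 24 6 0 33 = true) :=
  ⟨by decide +kernel⟩

def cTP_24_21 : PLift (fTP 6 0 24 6 33 12 = true) :=
  ⟨by decide +kernel⟩

def cTP_24_22 : PLift (fTP 6 1 24 6 0 33 = true) :=
  ⟨by decide +kernel⟩

def cTP_24_23 : PLift (fTP 6 1 24 6 33 15 = true) :=
  ⟨by decide +kernel⟩

def cTP_24_24 : PLift (fTP 7 0 24 6 0 32 = true) :=
  ⟨by decide +kernel⟩

def cTP_24_25 : PLift (fTP 7 0 24 6 32 11 = true) :=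
  ⟨by decide +kernel⟩

def cTP_24_26 : PLift (fTP 7 1 24 6 0 32 = true) :=
  ⟨by decide +kernel⟩

def cTP_24_27 : PLift (fTP 7 1 24 6 32 14 = true) :=
  ⟨by decide +kernel⟩

def cTP_24_28 : PLift (fTP 8 0 24 6 0 32 = true) :=
  ⟨by decide +kernel⟩

def cTP_24_29 : PLift (fTP 8 0 24 6 32 9 = true) :=
  ⟨by decide +kernel⟩

def cTP_24_30 : PLift (fTP 8 1 24 6 0 32 = true) :=
  ⟨by decide +kernel⟩

def cTP_24_31 : PLift (fTP 8 1 24 6 32 12 = true) :=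
  ⟨by decide +kernel⟩

def cTP_24_32 : PLift (fTP 9 0 24 6 0 32 = true) :=
  ⟨by decide +kernel⟩

def cTP_24_33 : PLift (fTP 9 0 24 6 32 7 = true) :=
  ⟨by decide +kernel⟩

def cTP_24_34 : PLift (fTP 9 1 24 6 0 32 = true) :=
  ⟨by decide +kernel⟩

def cTP_24_35 : PLift (fTP 9 1 24 6 32 10 = true) :=
  ⟨by decide +kernel⟩

def cTP_24_36 : PLift (fTP 10 0 24 6 0 32 = true) :=
  ⟨by decide +kernel⟩

def cTP_24_37 : PLift (bnd (fTP 10 0 24 6 32 5)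
    (fTP 10 1 24 6 0 24) = true) :=
  ⟨by decide +kernel⟩

def cTP_24_38 : PLift (fTP 10 1 24 6 24 16 = true) :=
  ⟨by decide +kernel⟩

def cTP_24_39 : PLift (fTP 11 0 24 6 0 32 = true) :=
  ⟨by decide +kernel⟩

def cTP_24_40 : PLift (bnd (fTP 11 0 24 6 32 3)
    (fTP 11 1 24 6 0 26) = true) :=
  ⟨by decide +kernel⟩

def cTP_24_41 : PLift (fTP 11 1 24 6 26 12 = true) :=
  ⟨by decide +kernel⟩

def cTP_24_42 : PLift (fTP 12 0 24 6 0 32 = true) :=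
  ⟨by decide +kernel⟩

def cTP_24_43 : PLift (bnd (fTP 12 0 24 6 32 1)
    (fTP 12 1 24 6 0 28) = true) :=
  ⟨by decide +kernel⟩

def cTP_24_44 : PLift (fTP 12 1 24 6 28 8 = true) :=
  ⟨by decide +kernel⟩

def cTP_24_45 : PLift (fTP 13 0 24 6 0 31 = true) :=
  ⟨by decide +kernel⟩

def cTP_24_46 : PLift (fTP 13 1 24 6 0 32 = true) :=
  ⟨by decide +kernel⟩

def cTP_24_47 : PLift (bnd (fTP 13 1 24 6 32 2)
    (fTP 14 0 24 6 0 27) = true) :=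
  ⟨by decide +kernel⟩

end Pool.Agent.Work.MP_6bf1e5_an.HD
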