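import Pool.Agent.Work.MP_6bf1e5_an.HD.CfTP

/-! Checks of the pass TP, part 16. -/

namespace Pool.Agent.Work.MP_6bf1e5_an.HD

open Pool.Agent.Lib.KLA Pool.Agent.Lib.KBlk

def cTP_24_48 : PLift (bnd (fTP 14 0 24 6 27 2)
    (fTP 14 1 24 6 0 27) = true) :=
  ⟨by decide +kernel⟩

def cTP_24_49 : PLift (bnd (fTP 14 1 24 6 27 5)
    (fTP 15 0 24 6 0 24) = true) :=
  ⟨by decide +kernel⟩

def cTP_24_50 : PLift (bnd (fTP 15 0 24 6 24 3)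
    (fTP 15 1 24 6 0 26) = true) :=
  ⟨by decide +kernel⟩

def cTP_24_51 : PLift (bnd (fTP 15 1 24 6 26 4)
    (fTP 16 0 24 6 0 25) = true) :=
  ⟨by decide +kernel⟩

def cTP_24_52 : PLift (fTP 16 1 24 6 0 28 = true) :=
  ⟨by decide +kernel⟩

def cTP_24_53 : PLift (fTP 17 0 24 6 0 23 = true) :=
  ⟨by decide +kernel⟩

def cTP_24_54 : PLift (fTP 17 1 24 6 0 26 = true) :=
  ⟨by decide +kernel⟩

def cTP_24_55 : PLift (fTP 18 0 24 6 0 21 = true) :=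
  ⟨by decide +kernel⟩

def cTP_24_56 : PLift (fTP 18 1 24 6 0 24 = true) :=
  ⟨by decide +kernel⟩

def cTP_24_57 : PLift (fTP 19 0 24 6 0 19 = true) :=
  ⟨by decide +kernel⟩

def cTP_24_58 : PLift (fTP 19 1 24 6 0 22 = true) :=
  ⟨by decide +kernel⟩

def cTP_24_59 : PLift (fTP 20 0 24 6 0 17 = true) :=
  ⟨by decide +kernel⟩

def cTP_24_60 : PLift (fTP 20 1 24 6 0 20 = true) :=
  ⟨by decide +kernel⟩

def cTP_24_61 : PLift (fTP 21 0 24 6 0 15 = true) :=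
  ⟨by decide +kernel⟩

def cTP_24_62 : PLift (fTP 21 1 24 6 0 18 = true) :=
  ⟨by decide +kernel⟩

def cTP_24_63 : PLift (fTP 22 0 24 6 0 13 = true) :=
  ⟨by decide +kernel⟩

def cTP_24_64 : PLift (bnd (fTP 22 1 24 6 0 16)
    (fTP 23 0 24 6 0 11) = true) :=
  ⟨by decide +kernel⟩

def cTP_24_65 : PLift (bnd (fTP 23 1 24 6 0 14)
    (fTP 24 0 24 6 0 9) = true) :=
  ⟨by decide +kernel⟩

def cTP_24_66 : PLift (bnd (fTP 24 1 24 6 0 12)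
    (fTP 25 0 24 6 0 7) = true) :=
  ⟨by decide +kernel⟩

def cTP_24_67 : PLift (bnd (fTP 25 1 24 6 0 10)
    (bnd (fTP 26 0 24 6 0 5)
    (fTP 26 1 24 6 0 8)) = true) :=
  ⟨by decide +kernel⟩

def cTP_24_68 : PLift (bnd (fTP 27 0 24 6 0 3)
    (bnd (fTP 27 1 24 6 0 6)
    (bnd (fTP 28 0 24 6 0 1)
    (fTP 28 1 24 6 0 4))) = true) :=
  ⟨by decide +kernel⟩

def cTP_30_0 : PLift (fTP 1 0 30 6 0 55 = true) :=
  ⟨by decide +kernel⟩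

def cTP_30_1 : PLift (fTP 1 1 30 6 0 55 = true) :=
  ⟨by decide +kernel⟩

def cTP_30_2 : PLift (bnd (fTP 1 1 30 6 55 3)
    (fTP 2 0 30 6 0 46) = true) :=
  ⟨by decide +kernel⟩

def cTP_30_3 : PLift (bnd (fTP 2 0 30 6 46 7)
    (fTP 2 1 30 6 0 42) = true) :=
  ⟨by decide +kernel⟩

def cTP_30_4 : PLift (bnd (fTP 2 1 30 6 42 14)
    (fTP 3 0 30 6 0 35) = true) :=
  ⟨by decide +kernel⟩

def cTP_30_5 : PLift (bnd (fTP 3 0 30 6 35 16)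
    (fTP 3 1 30 6 0 33) = true) :=
  ⟨by decide +kernel⟩

def cTP_30_6 : PLift (bnd (fTP 3 1 30 6 33 21)
    (fTP 4 0 30 6 0 28) = true) :=
  ⟨by decide +kernel⟩

end Pool.Agent.Work.MP_6bf1e5_an.HD
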