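import Pool.Agent.Work.MP_6bf1e5_an.HD.CfTP

/-! Checks of the pass TP, part 17. -/

namespace Pool.Agent.Work.MP_6bf1e5_an.HD

open Pool.Agent.Lib.KLA Pool.Agent.Lib.KBlk

def cTP_30_7 : PLift (bnd (fTP 4 0 30 6 28 21)
    (fTP 4 1 30 6 0 28) = true) :=
  ⟨by decide +kernel⟩

def cTP_30_8 : PLift (bnd (fTP 4 1 30 6 28 24)
    (fTP 5 0 30 6 0 25) = true) :=
  ⟨by decide +kernel⟩

def cTP_30_9 : PLift (bnd (fTP 5 0 30 6 25 22)
    (fTP 5 1 30 6 0 27) = true) :=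
  ⟨by decide +kernel⟩

def cTP_30_10 : PLift (bnd (fTP 5 1 30 6 27 23)
    (fTP 6 0 30 6 0 26) = true) :=
  ⟨by decide +kernel⟩

def cTP_30_11 : PLift (bnd (fTP 6 0 30 6 26 19)
    (fTP 6 1 30 6 0 30) = true) :=
  ⟨by decide +kernel⟩

def cTP_30_12 : PLift (bnd (fTP 6 1 30 6 30 18)
    (fTP 7 0 30 6 0 31) = true) :=
  ⟨by decide +kernel⟩

def cTP_30_13 : PLift (bnd (fTP 7 0 30 6 31 12)
    (fTP 7 1 30 6 0 37) = true) :=
  ⟨by decide +kernel⟩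

def cTP_30_14 : PLift (bnd (fTP 7 1 30 6 37 9)
    (fTP 8 0 30 6 0 40) = true) :=
  ⟨by decide +kernel⟩

def cTP_30_15 : PLift (bnd (fTP 8 0 30 6 40 1)
    (fTP 8 1 30 6 0 44) = true) :=
  ⟨by decide +kernel⟩

def cTP_30_16 : PLift (fTP 9 0 30 6 0 39 = true) :=
  ⟨by decide +kernel⟩

def cTP_30_17 : PLift (fTP 9 1 30 6 0 42 = true) :=
  ⟨by decide +kernel⟩

def cTP_30_18 : PLift (fTP 10 0 30 6 0 37 = true) :=
  ⟨by decide +kernel⟩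

def cTP_30_19 : PLift (fTP 10 1 30 6 0 40 = true) :=
  ⟨by decide +kernel⟩

def cTP_30_20 : PLift (fTP 11 0 30 6 0 35 = true) :=
  ⟨by decide +kernel⟩

def cTP_30_21 : PLift (fTP 11 1 30 6 0 38 = true) :=
  ⟨by decide +kernel⟩

def cTP_30_22 : PLift (fTP 12 0 30 6 0 33 = true) :=
  ⟨by decide +kernel⟩

def cTP_30_23 : PLift (fTP 12 1 30 6 0 36 = true) :=
  ⟨by decide +kernel⟩

def cTP_30_24 : PLift (fTP 13 0 30 6 0 31 = true) :=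
  ⟨by decide +kernel⟩

def cTP_30_25 : PLift (fTP 13 1 30 6 0 34 = true) :=
  ⟨by decide +kernel⟩

def cTP_30_26 : PLift (fTP 14 0 30 6 0 29 = true) :=
  ⟨by decide +kernel⟩

def cTP_30_27 : PLift (fTP 14 1 30 6 0 32 = true) :=
  ⟨by decide +kernel⟩

def cTP_30_28 : PLift (fTP 15 0 30 6 0 27 = true) :=
  ⟨by decide +kernel⟩

def cTP_30_29 : PLift (fTP 15 1 30 6 0 30 = true) :=
  ⟨by decide +kernel⟩

def cTP_30_30 : PLift (fTP 16 0 30 6 0 25 = true) :=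
  ⟨by decide +kernel⟩

def cTP_30_31 : PLift (fTP 16 1 30 6 0 28 = true) :=
  ⟨by decide +kernel⟩

def cTP_30_32 : PLift (bnd (fTP 17 0 30 6 0 23)
    (fTP 17 1 30 6 0 25) = true) :=
  ⟨by decide +kernel⟩

def cTP_30_33 : PLift (bnd (fTP 17 1 30 6 25 1)
    (fTP 18 0 30 6 0 21) = true) :=
  ⟨by decide +kernel⟩

def cTP_30_34 : PLift (bnd (fTP 18 1 30 6 0 24)
    (fTP 19 0 30 6 0 19) = true) :=
  ⟨by decide +kernel⟩

end Pool.Agent.Work.MP_6bf1e5_an.HD
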