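import Pool.Agent.Work.MP_6bf1e5_an.HD.CfTP

/-! Checks of the pass TP, part 18. -/

namespace Pool.Agent.Work.MP_6bf1e5_an.HD

open Pool.Agent.Lib.KLA Pool.Agent.Lib.KBlk

def cTP_30_35 : PLift (bnd (fTP 19 1 30 6 0 22)
    (fTP 20 0 30 6 0 17) = true) :=
  ⟨by decide +kernel⟩

def cTP_30_36 : PLift (bnd (fTP 20 1 30 6 0 20)
    (fTP 21 0 30 6 0 15) = true) :=
  ⟨by decide +kernel⟩

def cTP_30_37 : PLift (bnd (fTP 21 1 30 6 0 18)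
    (fTP 22 0 30 6 0 13) = true) :=
  ⟨by decide +kernel⟩

def cTP_30_38 : PLift (bnd (fTP 22 1 30 6 0 16)
    (bnd (fTP 23 0 30 6 0 11)
    (fTP 23 1 30 6 0 14)) = true) :=
  ⟨by decide +kernel⟩

def cTP_30_39 : PLift (bnd (fTP 24 0 30 6 0 9)
    (bnd (fTP 24 1 30 6 0 12)
    (bnd (fTP 25 0 30 6 0 7)
    (fTP 25 1 30 6 0 10))) = true) :=
  ⟨by decide +kernel⟩

def cTP_30_40 : PLift (bnd (fTP 26 0 30 6 0 5)
    (bnd (fTP 26 1 30 6 0 8)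
    (bnd (fTP 27 0 30 6 0 3)
    (bnd (fTP 27 1 30 6 0 6)
    (bnd (fTP 28 0 30 6 0 1)
    (fTP 28 1 30 6 0 4))))) = true) :=
  ⟨by decide +kernel⟩

def cTP_36_0 : PLift (bnd (fTP 1 0 36 3 0 55)
    (fTP 1 1 36 3 0 58) = true) :=
  ⟨by decide +kernel⟩

def cTP_36_1 : PLift (bnd (fTP 2 0 36 3 0 53)
    (fTP 2 1 36 3 0 56) = true) :=
  ⟨by decide +kernel⟩

def cTP_36_2 : PLift (bnd (fTP 3 0 36 3 0 51)
    (fTP 3 1 36 3 0 54) = true) :=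
  ⟨by decide +kernel⟩

def cTP_36_3 : PLift (bnd (fTP 4 0 36 3 0 49)
    (bnd (fTP 4 1 36 3 0 52)
    (fTP 5 0 36 3 0 24)) = true) :=
  ⟨by decide +kernel⟩

def cTP_36_4 : PLift (bnd (fTP 5 0 36 3 24 23)
    (bnd (fTP 5 1 36 3 0 50)
    (fTP 6 0 36 3 0 45)) = true) :=
  ⟨by decide +kernel⟩

def cTP_36_5 : PLift (bnd (fTP 6 1 36 3 0 48)
    (bnd (fTP 7 0 36 3 0 43)
    (fTP 7 1 36 3 0 34)) = true) :=
  ⟨by decide +kernel⟩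

def cTP_36_6 : PLift (bnd (fTP 7 1 36 3 34 12)
    (bnd (fTP 8 0 36 3 0 41)
    (bnd (fTP 8 1 36 3 0 44)
    (fTP 9 0 36 3 0 24))) = true) :=
  ⟨by decide +kernel⟩

def cTP_36_7 : PLift (bnd (fTP 9 0 36 3 24 15)
    (bnd (fTP 9 1 36 3 0 42)
    (bnd (fTP 10 0 36 3 0 37)
    (fTP 10 1 36 3 0 26))) = true) :=
  ⟨by decide +kernel⟩

def cTP_36_8 : PLift (bnd (fTP 10 1 36 3 26 14)
    (bnd (fTP 11 0 36 3 0 35)
    (bnd (fTP 11 1 36 3 0 38)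
    (fTP 12 0 36 3 0 31))) = true) :=
  ⟨by decide +kernel⟩

def cTP_36_9 : PLift (bnd (fTP 12 0 36 3 31 2)
    (bnd (fTP 12 1 36 3 0 36)
    (bnd (fTP 13 0 36 3 0 31)
    (fTP 13 1 36 3 0 34))) = true) :=
  ⟨by decide +kernel⟩

def cTP_36_10 : PLift (bnd (fTP 14 0 36 3 0 29)
    (bnd (fTP 14 1 36 3 0 32)
    (bnd (fTP 15 0 36 3 0 27)
    (fTP 15 1 36 3 0 29))) = true) :=
  ⟨by decide +kernel⟩

def cTP_36_11 : PLift (bnd (fTP 15 1 36 3 29 1)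
    (bnd (fTP 16 0 36 3 0 25)
    (bnd (fTP 16 1 36 3 0 28)
    (bnd (fTP 17 0 36 3 0 23)
    (fTP 17 1 36 3 0 26)))) = true) :=
  ⟨by decide +kernel⟩

def cTP_36_12 : PLift (bnd (fTP 18 0 36 3 0 21)
    (bnd (fTP 18 1 36 3 0 24)
    (bnd (fTP 19 0 36 3 0 19)
    (bnd (fTP 19 1 36 3 0 22)
    (fTP 20 0 36 3 0 17)))) = true) :=
  ⟨by decide +kernel⟩

def cTP_36_13 : PLift (bnd (fTP 20 1 36 3 0 20)
    (bnd (fTP 21 0 36 3 0 15)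
    (bnd (fTP 21 1 36 3 0 18)
    (bnd (fTP 22 0 36 3 0 13)
    (bnd (fTP 22 1 36 3 0 16)
    (fTP 23 0 36 3 0 11))))) = true) :=
  ⟨by decide +kernel⟩

def cTP_36_14 : PLift (bnd (fTP 23 1 36 3 0 14)
    (bnd (fTP 24 0 36 3 0 9)
    (bnd (fTP 24 1 36 3 0 12)
    (bnd (fTP 25 0 36 3 0 7)
    (bnd (fTP 25 1 36 3 0 10)
    (bnd (fTP 26 0 36 3 0 5)
    (bnd (fTP 26 1 36 3 0 8)
    (bnd (fTP 27 0 36 3 0 3)
    (bnd (fTP 27 1 36 3 0 6)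
    (bnd (fTP 28 0 36 3 0 1)
    (fTP 28 1 36 3 0 4)))))))))) = true) :=
  ⟨by decide +kernel⟩

end Pool.Agent.Work.MP_6bf1e5_an.HD
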