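import Pool.Agent.Work.MP_6bf1e5_an.HD.CfTP

/-! Checks of the pass TP, part 2. -/

namespace Pool.Agent.Work.MP_6bf1e5_an.HD

open Pool.Agent.Lib.KLA Pool.Agent.Lib.KBlk

def cTP_3_3 : PLift (fTP 1 1 3 3 28 28 = true) :=
  ⟨by decide +kernel⟩

def cTP_3_4 : PLift (bnd (fTP 1 1 3 3 56 2)
    (fTP 2 0 3 3 0 25) = true) :=
  ⟨by decide +kernel⟩

def cTP_3_5 : PLift (fTP 2 0 3 3 25 28 = true) :=
  ⟨by decide +kernel⟩

def cTP_3_6 : PLift (fTP 2 1 3 3 0 28 = true) :=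
  ⟨by decide +kernel⟩

def cTP_3_7 : PLift (fTP 2 1 3 3 28 28 = true) :=
  ⟨by decide +kernel⟩

def cTP_3_8 : PLift (fTP 3 0 3 3 0 28 = true) :=
  ⟨by decide +kernel⟩

def cTP_3_9 : PLift (fTP 3 0 3 3 28 23 = true) :=
  ⟨by decide +kernel⟩

def cTP_3_10 : PLift (fTP 3 1 3 3 0 28 = true) :=
  ⟨by decide +kernel⟩

def cTP_3_11 : PLift (fTP 3 1 3 3 28 26 = true) :=
  ⟨by decide +kernel⟩

def cTP_3_12 : PLift (fTP 4 0 3 3 0 28 = true) :=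
  ⟨by decide +kernel⟩

def cTP_3_13 : PLift (fTP 4 0 3 3 28 21 = true) :=
  ⟨by decide +kernel⟩

def cTP_3_14 : PLift (fTP 4 1 3 3 0 28 = true) :=
  ⟨by decide +kernel⟩

def cTP_3_15 : PLift (fTP 4 1 3 3 28 24 = true) :=
  ⟨by decide +kernel⟩

def cTP_3_16 : PLift (fTP 5 0 3 3 0 28 = true) :=
  ⟨by decide +kernel⟩

def cTP_3_17 : PLift (fTP 5 0 3 3 28 19 = true) :=
  ⟨by decide +kernel⟩

def cTP_3_18 : PLift (fTP 5 1 3 3 0 28 = true) :=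
  ⟨by decide +kernel⟩

def cTP_3_19 : PLift (fTP 5 1 3 3 28 22 = true) :=
  ⟨by decide +kernel⟩

def cTP_3_20 : PLift (fTP 6 0 3 3 0 28 = true) :=
  ⟨by decide +kernel⟩

def cTP_3_21 : PLift (fTP 6 0 3 3 28 17 = true) :=
  ⟨by decide +kernel⟩

def cTP_3_22 : PLift (fTP 6 1 3 3 0 28 = true) :=
  ⟨by decide +kernel⟩

def cTP_3_23 : PLift (fTP 6 1 3 3 28 20 = true) :=
  ⟨by decide +kernel⟩

def cTP_3_24 : PLift (fTP 7 0 3 3 0 28 = true) :=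
  ⟨by decide +kernel⟩

def cTP_3_25 : PLift (bnd (fTP 7 0 3 3 28 15)
    (fTP 7 1 3 3 0 12) = true) :=
  ⟨by decide +kernel⟩

def cTP_3_26 : PLift (fTP 7 1 3 3 12 28 = true) :=
  ⟨by decide +kernel⟩

def cTP_3_27 : PLift (bnd (fTP 7 1 3 3 40 6)
    (fTP 8 0 3 3 0 21) = true) :=
  ⟨by decide +kernel⟩

def cTP_3_28 : PLift (fTP 8 0 3 3 21 20 = true) :=
  ⟨by decide +kernel⟩

def cTP_3_29 : PLift (fTP 8 1 3 3 0 28 = true) :=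
  ⟨by decide +kernel⟩

def cTP_3_30 : PLift (fTP 8 1 3 3 28 16 = true) :=
  ⟨by decide +kernel⟩

def cTP_3_31 : PLift (fTP 9 0 3 3 0 28 = true) :=
  ⟨by decide +kernel⟩

def cTP_3_32 : PLift (bnd (fTP 9 0 3 3 28 11)
    (fTP 9 1 3 3 0 16) = true) :=
  ⟨by decide +kernel⟩

end Pool.Agent.Work.MP_6bf1e5_an.HD
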