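import Pool.Agent.Work.MP_6bf1e5_an.HD.CfTP

/-! Checks of the pass TP, part 3. -/

namespace Pool.Agent.Work.MP_6bf1e5_an.HD

open Pool.Agent.Lib.KLA Pool.Agent.Lib.KBlk

def cTP_3_33 : PLift (fTP 9 1 3 3 16 26 = true) :=
  ⟨by decide +kernel⟩

def cTP_3_34 : PLift (fTP 10 0 3 3 0 28 = true) :=
  ⟨by decide +kernel⟩

def cTP_3_35 : PLift (bnd (fTP 10 0 3 3 28 9)
    (fTP 10 1 3 3 0 18) = true) :=
  ⟨by decide +kernel⟩

def cTP_3_36 : PLift (fTP 10 1 3 3 18 22 = true) :=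
  ⟨by decide +kernel⟩

def cTP_3_37 : PLift (fTP 11 0 3 3 0 28 = true) :=
  ⟨by decide +kernel⟩

def cTP_3_38 : PLift (bnd (fTP 11 0 3 3 28 7)
    (fTP 11 1 3 3 0 20) = true) :=
  ⟨by decide +kernel⟩

def cTP_3_39 : PLift (fTP 11 1 3 3 20 18 = true) :=
  ⟨by decide +kernel⟩

def cTP_3_40 : PLift (fTP 12 0 3 3 0 28 = true) :=
  ⟨by decide +kernel⟩

def cTP_3_41 : PLift (bnd (fTP 12 0 3 3 28 5)
    (fTP 12 1 3 3 0 21) = true) :=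
  ⟨by decide +kernel⟩

def cTP_3_42 : PLift (fTP 12 1 3 3 21 15 = true) :=
  ⟨by decide +kernel⟩

def cTP_3_43 : PLift (fTP 13 0 3 3 0 28 = true) :=
  ⟨by decide +kernel⟩

def cTP_3_44 : PLift (bnd (fTP 13 0 3 3 28 3)
    (fTP 13 1 3 3 0 23) = true) :=
  ⟨by decide +kernel⟩

def cTP_3_45 : PLift (bnd (fTP 13 1 3 3 23 11)
    (fTP 14 0 3 3 0 15) = true) :=
  ⟨by decide +kernel⟩

def cTP_3_46 : PLift (bnd (fTP 14 0 3 3 15 14)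
    (fTP 14 1 3 3 0 12) = true) :=
  ⟨by decide +kernel⟩

def cTP_3_47 : PLift (fTP 14 1 3 3 12 20 = true) :=
  ⟨by decide +kernel⟩

def cTP_3_48 : PLift (fTP 15 0 3 3 0 27 = true) :=
  ⟨by decide +kernel⟩

def cTP_3_49 : PLift (fTP 15 1 3 3 0 28 = true) :=
  ⟨by decide +kernel⟩

def cTP_3_50 : PLift (bnd (fTP 15 1 3 3 28 2)
    (fTP 16 0 3 3 0 24) = true) :=
  ⟨by decide +kernel⟩

def cTP_3_51 : PLift (bnd (fTP 16 0 3 3 24 1)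
    (fTP 16 1 3 3 0 25) = true) :=
  ⟨by decide +kernel⟩

def cTP_3_52 : PLift (bnd (fTP 16 1 3 3 25 3)
    (fTP 17 0 3 3 0 23) = true) :=
  ⟨by decide +kernel⟩

def cTP_3_53 : PLift (fTP 17 1 3 3 0 26 = true) :=
  ⟨by decide +kernel⟩

def cTP_3_54 : PLift (fTP 18 0 3 3 0 21 = true) :=
  ⟨by decide +kernel⟩

def cTP_3_55 : PLift (fTP 18 1 3 3 0 24 = true) :=
  ⟨by decide +kernel⟩

def cTP_3_56 : PLift (fTP 19 0 3 3 0 19 = true) :=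
  ⟨by decide +kernel⟩

def cTP_3_57 : PLift (fTP 19 1 3 3 0 22 = true) :=
  ⟨by decide +kernel⟩

def cTP_3_58 : PLift (fTP 20 0 3 3 0 17 = true) :=
  ⟨by decide +kernel⟩

def cTP_3_59 : PLift (fTP 20 1 3 3 0 20 = true) :=
  ⟨by decide +kernel⟩

def cTP_3_60 : PLift (fTP 21 0 3 3 0 15 = true) :=
  ⟨by decide +kernel⟩

def cTP_3_61 : PLift (fTP 21 1 3 3 0 18 = true) :=
  ⟨by decide +kernel⟩

def cTP_3_62 : PLift (bnd (fTP 22 0 3 3 0 13)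
    (fTP 22 1 3 3 0 13) = true) :=
  ⟨by decide +kernel⟩

def cTP_3_63 : PLift (bnd (fTP 22 1 3 3 13 3)
    (bnd (fTP 23 0 3 3 0 11)
    (fTP 23 1 3 3 0 12)) = true) :=
  ⟨by decide +kernel⟩

end Pool.Agent.Work.MP_6bf1e5_an.HD
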