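import Pool.Agent.Work.MP_6bf1e5_an.HD.CfTP

/-! Checks of the pass TP, part 4. -/

namespace Pool.Agent.Work.MP_6bf1e5_an.HD

open Pool.Agent.Lib.KLA Pool.Agent.Lib.KBlk

def cTP_3_64 : PLift (bnd (fTP 23 1 3 3 12 2)
    (bnd (fTP 24 0 3 3 0 9)
    (fTP 24 1 3 3 0 12)) = true) :=
  ⟨by decide +kernel⟩

def cTP_3_65 : PLift (bnd (fTP 25 0 3 3 0 7)
    (bnd (fTP 25 1 3 3 0 10)
    (fTP 26 0 3 3 0 5)) = true) :=
  ⟨by decide +kernel⟩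

def cTP_3_66 : PLift (bnd (fTP 26 1 3 3 0 8)
    (bnd (fTP 27 0 3 3 0 3)
    (bnd (fTP 27 1 3 3 0 6)
    (bnd (fTP 28 0 3 3 0 1)
    (fTP 28 1 3 3 0 4)))) = true) :=
  ⟨by decide +kernel⟩

def cTP_6_0 : PLift (fTP 1 0 6 3 0 31 = true) :=
  ⟨by decide +kernel⟩

def cTP_6_1 : PLift (fTP 1 0 6 3 31 24 = true) :=
  ⟨by decide +kernel⟩

def cTP_6_2 : PLift (fTP 1 1 6 3 0 31 = true) :=
  ⟨by decide +kernel⟩

def cTP_6_3 : PLift (fTP 1 1 6 3 31 27 = true) :=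
  ⟨by decide +kernel⟩

def cTP_6_4 : PLift (fTP 2 0 6 3 0 31 = true) :=
  ⟨by decide +kernel⟩

def cTP_6_5 : PLift (fTP 2 0 6 3 31 22 = true) :=
  ⟨by decide +kernel⟩

def cTP_6_6 : PLift (fTP 2 1 6 3 0 31 = true) :=
  ⟨by decide +kernel⟩

def cTP_6_7 : PLift (fTP 2 1 6 3 31 25 = true) :=
  ⟨by decide +kernel⟩

def cTP_6_8 : PLift (fTP 3 0 6 3 0 31 = true) :=
  ⟨by decide +kernel⟩

def cTP_6_9 : PLift (fTP 3 0 6 3 31 20 = true) :=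
  ⟨by decide +kernel⟩

def cTP_6_10 : PLift (fTP 3 1 6 3 0 31 = true) :=
  ⟨by decide +kernel⟩

def cTP_6_11 : PLift (fTP 3 1 6 3 31 23 = true) :=
  ⟨by decide +kernel⟩

def cTP_6_12 : PLift (fTP 4 0 6 3 0 31 = true) :=
  ⟨by decide +kernel⟩

def cTP_6_13 : PLift (bnd (fTP 4 0 6 3 31 18)
    (fTP 4 1 6 3 0 12) = true) :=
  ⟨by decide +kernel⟩

def cTP_6_14 : PLift (fTP 4 1 6 3 12 31 = true) :=
  ⟨by decide +kernel⟩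

def cTP_6_15 : PLift (bnd (fTP 4 1 6 3 43 9)
    (fTP 5 0 6 3 0 21) = true) :=
  ⟨by decide +kernel⟩

def cTP_6_16 : PLift (fTP 5 0 6 3 21 26 = true) :=
  ⟨by decide +kernel⟩

def cTP_6_17 : PLift (fTP 5 1 6 3 0 31 = true) :=
  ⟨by decide +kernel⟩

def cTP_6_18 : PLift (fTP 5 1 6 3 31 19 = true) :=
  ⟨by decide +kernel⟩

def cTP_6_19 : PLift (fTP 6 0 6 3 0 31 = true) :=
  ⟨by decide +kernel⟩

def cTP_6_20 : PLift (bnd (fTP 6 0 6 3 31 14)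
    (fTP 6 1 6 3 0 16) = true) :=
  ⟨by decide +kernel⟩

def cTP_6_21 : PLift (fTP 6 1 6 3 16 31 = true) :=
  ⟨by decide +kernel⟩

def cTP_6_22 : PLift (bnd (fTP 6 1 6 3 47 1)
    (fTP 7 0 6 3 0 29) = true) :=
  ⟨by decide +kernel⟩

def cTP_6_23 : PLift (bnd (fTP 7 0 6 3 29 14)
    (fTP 7 1 6 3 0 16) = true) :=
  ⟨by decide +kernel⟩

def cTP_6_24 : PLift (fTP 7 1 6 3 16 30 = true) :=
  ⟨by decide +kernel⟩

def cTP_6_25 : PLift (fTP 8 0 6 3 0 31 = true) :=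
  ⟨by decide +kernel⟩

end Pool.Agent.Work.MP_6bf1e5_an.HD
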