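import Pool.Agent.Work.MP_6bf1e5_an.HD.CfTP

/-! Checks of the pass TP, part 5. -/

namespace Pool.Agent.Work.MP_6bf1e5_an.HD

open Pool.Agent.Lib.KLA Pool.Agent.Lib.KBlk

def cTP_6_26 : PLift (bnd (fTP 8 0 6 3 31 10)
    (fTP 8 1 6 3 0 19) = true) :=
  ⟨by decide +kernel⟩

def cTP_6_27 : PLift (fTP 8 1 6 3 19 25 = true) :=
  ⟨by decide +kernel⟩

def cTP_6_28 : PLift (fTP 9 0 6 3 0 31 = true) :=
  ⟨by decide +kernel⟩

def cTP_6_29 : PLift (bnd (fTP 9 0 6 3 31 8)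
    (fTP 9 1 6 3 0 21) = true) :=
  ⟨by decide +kernel⟩

def cTP_6_30 : PLift (fTP 9 1 6 3 21 21 = true) :=
  ⟨by decide +kernel⟩

def cTP_6_31 : PLift (fTP 10 0 6 3 0 31 = true) :=
  ⟨by decide +kernel⟩

def cTP_6_32 : PLift (bnd (fTP 10 0 6 3 31 6)
    (fTP 10 1 6 3 0 23) = true) :=
  ⟨by decide +kernel⟩

def cTP_6_33 : PLift (bnd (fTP 10 1 6 3 23 17)
    (fTP 11 0 6 3 0 12) = true) :=
  ⟨by decide +kernel⟩

def cTP_6_34 : PLift (fTP 11 0 6 3 12 23 = true) :=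
  ⟨by decide +kernel⟩

def cTP_6_35 : PLift (fTP 11 1 6 3 0 31 = true) :=
  ⟨by decide +kernel⟩

def cTP_6_36 : PLift (bnd (fTP 11 1 6 3 31 7)
    (fTP 12 0 6 3 0 22) = true) :=
  ⟨by decide +kernel⟩

def cTP_6_37 : PLift (bnd (fTP 12 0 6 3 22 11)
    (fTP 12 1 6 3 0 18) = true) :=
  ⟨by decide +kernel⟩

def cTP_6_38 : PLift (fTP 12 1 6 3 18 18 = true) :=
  ⟨by decide +kernel⟩

def cTP_6_39 : PLift (fTP 13 0 6 3 0 31 = true) :=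
  ⟨by decide +kernel⟩

def cTP_6_40 : PLift (fTP 13 1 6 3 0 31 = true) :=
  ⟨by decide +kernel⟩

def cTP_6_41 : PLift (bnd (fTP 13 1 6 3 31 3)
    (fTP 14 0 6 3 0 26) = true) :=
  ⟨by decide +kernel⟩

def cTP_6_42 : PLift (bnd (fTP 14 0 6 3 26 3)
    (fTP 14 1 6 3 0 26) = true) :=
  ⟨by decide +kernel⟩

def cTP_6_43 : PLift (bnd (fTP 14 1 6 3 26 6)
    (fTP 15 0 6 3 0 23) = true) :=
  ⟨by decide +kernel⟩

def cTP_6_44 : PLift (bnd (fTP 15 0 6 3 23 4)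
    (fTP 15 1 6 3 0 25) = true) :=
  ⟨by decide +kernel⟩

def cTP_6_45 : PLift (bnd (fTP 15 1 6 3 25 5)
    (fTP 16 0 6 3 0 24) = true) :=
  ⟨by decide +kernel⟩

def cTP_6_46 : PLift (bnd (fTP 16 0 6 3 24 1)
    (fTP 16 1 6 3 0 28) = true) :=
  ⟨by decide +kernel⟩

def cTP_6_47 : PLift (fTP 17 0 6 3 0 23 = true) :=
  ⟨by decide +kernel⟩

def cTP_6_48 : PLift (fTP 17 1 6 3 0 26 = true) :=
  ⟨by decide +kernel⟩

def cTP_6_49 : PLift (fTP 18 0 6 3 0 21 = true) :=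
  ⟨by decide +kernel⟩

def cTP_6_50 : PLift (fTP 18 1 6 3 0 24 = true) :=
  ⟨by decide +kernel⟩

def cTP_6_51 : PLift (fTP 19 0 6 3 0 19 = true) :=
  ⟨by decide +kernel⟩

def cTP_6_52 : PLift (fTP 19 1 6 3 0 22 = true) :=
  ⟨by decide +kernel⟩

def cTP_6_53 : PLift (bnd (fTP 20 0 6 3 0 17)
    (fTP 20 1 6 3 0 12) = true) :=
  ⟨by decide +kernel⟩

def cTP_6_54 : PLift (bnd (fTP 20 1 6 3 12 8)
    (fTP 21 0 6 3 0 15) = true) :=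
  ⟨by decide +kernel⟩

def cTP_6_55 : PLift (fTP 21 1 6 3 0 18 = true) :=
  ⟨by decide +kernel⟩

end Pool.Agent.Work.MP_6bf1e5_an.HD
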