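import Pool.Agent.Work.MP_6bf1e5_an.HD.CfTP

/-! Checks of the pass TP, part 6. -/

namespace Pool.Agent.Work.MP_6bf1e5_an.HD

open Pool.Agent.Lib.KLA Pool.Agent.Lib.KBlk

def cTP_6_56 : PLift (bnd (fTP 22 0 6 3 0 13)
    (fTP 22 1 6 3 0 16) = true) :=
  ⟨by decide +kernel⟩

def cTP_6_57 : PLift (bnd (fTP 23 0 6 3 0 11)
    (fTP 23 1 6 3 0 14) = true) :=
  ⟨by decide +kernel⟩

def cTP_6_58 : PLift (bnd (fTP 24 0 6 3 0 9)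
    (bnd (fTP 24 1 6 3 0 12)
    (fTP 25 0 6 3 0 7)) = true) :=
  ⟨by decide +kernel⟩

def cTP_6_59 : PLift (bnd (fTP 25 1 6 3 0 10)
    (bnd (fTP 26 0 6 3 0 5)
    (bnd (fTP 26 1 6 3 0 8)
    (fTP 27 0 6 3 0 3))) = true) :=
  ⟨by decide +kernel⟩

def cTP_6_60 : PLift (bnd (fTP 27 1 6 3 0 6)
    (bnd (fTP 28 0 6 3 0 1)
    (fTP 28 1 6 3 0 4)) = true) :=
  ⟨by decide +kernel⟩

def cTP_9_0 : PLift (fTP 1 0 9 3 0 33 = true) :=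
  ⟨by decide +kernel⟩

def cTP_9_1 : PLift (bnd (fTP 1 0 9 3 33 22)
    (fTP 1 1 9 3 0 10) = true) :=
  ⟨by decide +kernel⟩

def cTP_9_2 : PLift (fTP 1 1 9 3 10 33 = true) :=
  ⟨by decide +kernel⟩

def cTP_9_3 : PLift (bnd (fTP 1 1 9 3 43 15)
    (fTP 2 0 9 3 0 17) = true) :=
  ⟨by decide +kernel⟩

def cTP_9_4 : PLift (fTP 2 0 9 3 17 33 = true) :=
  ⟨by decide +kernel⟩

def cTP_9_5 : PLift (bnd (fTP 2 0 9 3 50 3)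
    (fTP 2 1 9 3 0 29) = true) :=
  ⟨by decide +kernel⟩

def cTP_9_6 : PLift (fTP 2 1 9 3 29 27 = true) :=
  ⟨by decide +kernel⟩

def cTP_9_7 : PLift (fTP 3 0 9 3 0 33 = true) :=
  ⟨by decide +kernel⟩

def cTP_9_8 : PLift (bnd (fTP 3 0 9 3 33 18)
    (fTP 3 1 9 3 0 14) = true) :=
  ⟨by decide +kernel⟩

def cTP_9_9 : PLift (fTP 3 1 9 3 14 33 = true) :=
  ⟨by decide +kernel⟩

def cTP_9_10 : PLift (bnd (fTP 3 1 9 3 47 7)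
    (fTP 4 0 9 3 0 25) = true) :=
  ⟨by decide +kernel⟩

def cTP_9_11 : PLift (bnd (fTP 4 0 9 3 25 24)
    (fTP 4 1 9 3 0 8) = true) :=
  ⟨by decide +kernel⟩

def cTP_9_12 : PLift (fTP 4 1 9 3 8 33 = true) :=
  ⟨by decide +kernel⟩

def cTP_9_13 : PLift (bnd (fTP 4 1 9 3 41 11)
    (fTP 5 0 9 3 0 20) = true) :=
  ⟨by decide +kernel⟩

def cTP_9_14 : PLift (fTP 5 0 9 3 20 27 = true) :=
  ⟨by decide +kernel⟩

def cTP_9_15 : PLift (fTP 5 1 9 3 0 33 = true) :=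
  ⟨by decide +kernel⟩

def cTP_9_16 : PLift (bnd (fTP 5 1 9 3 33 17)
    (fTP 6 0 9 3 0 14) = true) :=
  ⟨by decide +kernel⟩

def cTP_9_17 : PLift (fTP 6 0 9 3 14 31 = true) :=
  ⟨by decide +kernel⟩

def cTP_9_18 : PLift (fTP 6 1 9 3 0 33 = true) :=
  ⟨by decide +kernel⟩

def cTP_9_19 : PLift (bnd (fTP 6 1 9 3 33 15)
    (fTP 7 0 9 3 0 16) = true) :=
  ⟨by decide +kernel⟩

def cTP_9_20 : PLift (fTP 7 0 9 3 16 27 = true) :=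
  ⟨by decide +kernel⟩

def cTP_9_21 : PLift (fTP 7 1 9 3 0 33 = true) :=
  ⟨by decide +kernel⟩

def cTP_9_22 : PLift (bnd (fTP 7 1 9 3 33 13)
    (fTP 8 0 9 3 0 18) = true) :=
  ⟨by decide +kernel⟩

end Pool.Agent.Work.MP_6bf1e5_an.HD
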