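import Pool.Agent.Work.MP_6bf1e5_an.HD.CfTP

/-! Checks of the pass TP, part 7. -/

namespace Pool.Agent.Work.MP_6bf1e5_an.HD

open Pool.Agent.Lib.KLA Pool.Agent.Lib.KBlk

def cTP_9_23 : PLift (bnd (fTP 8 0 9 3 18 23)
    (fTP 8 1 9 3 0 8) = true) :=
  ⟨by decide +kernel⟩

def cTP_9_24 : PLift (fTP 8 1 9 3 8 33 = true) :=
  ⟨by decide +kernel⟩

def cTP_9_25 : PLift (bnd (fTP 8 1 9 3 41 3)
    (fTP 9 0 9 3 0 28) = true) :=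
  ⟨by decide +kernel⟩

def cTP_9_26 : PLift (bnd (fTP 9 0 9 3 28 11)
    (fTP 9 1 9 3 0 20) = true) :=
  ⟨by decide +kernel⟩

def cTP_9_27 : PLift (bnd (fTP 9 1 9 3 20 22)
    (fTP 10 0 9 3 0 9) = true) :=
  ⟨by decide +kernel⟩

def cTP_9_28 : PLift (fTP 10 0 9 3 9 28 = true) :=
  ⟨by decide +kernel⟩

def cTP_9_29 : PLift (fTP 10 1 9 3 0 33 = true) :=
  ⟨by decide +kernel⟩

def cTP_9_30 : PLift (bnd (fTP 10 1 9 3 33 7)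
    (fTP 11 0 9 3 0 24) = true) :=
  ⟨by decide +kernel⟩

def cTP_9_31 : PLift (bnd (fTP 11 0 9 3 24 11)
    (fTP 11 1 9 3 0 20) = true) :=
  ⟨by decide +kernel⟩

def cTP_9_32 : PLift (bnd (fTP 11 1 9 3 20 18)
    (fTP 12 0 9 3 0 13) = true) :=
  ⟨by decide +kernel⟩

def cTP_9_33 : PLift (bnd (fTP 12 0 9 3 13 20)
    (fTP 12 1 9 3 0 11) = true) :=
  ⟨by decide +kernel⟩

def cTP_9_34 : PLift (bnd (fTP 12 1 9 3 11 25)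
    (fTP 13 0 9 3 0 6) = true) :=
  ⟨by decide +kernel⟩

def cTP_9_35 : PLift (bnd (fTP 13 0 9 3 6 25)
    (fTP 13 1 9 3 0 6) = true) :=
  ⟨by decide +kernel⟩

def cTP_9_36 : PLift (fTP 13 1 9 3 6 28 = true) :=
  ⟨by decide +kernel⟩

def cTP_9_37 : PLift (fTP 14 0 9 3 0 29 = true) :=
  ⟨by decide +kernel⟩

def cTP_9_38 : PLift (fTP 14 1 9 3 0 32 = true) :=
  ⟨by decide +kernel⟩

def cTP_9_39 : PLift (fTP 15 0 9 3 0 27 = true) :=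
  ⟨by decide +kernel⟩

def cTP_9_40 : PLift (fTP 15 1 9 3 0 30 = true) :=
  ⟨by decide +kernel⟩

def cTP_9_41 : PLift (bnd (fTP 16 0 9 3 0 25)
    (fTP 16 1 9 3 0 6) = true) :=
  ⟨by decide +kernel⟩

def cTP_9_42 : PLift (bnd (fTP 16 1 9 3 6 22)
    (fTP 17 0 9 3 0 9) = true) :=
  ⟨by decide +kernel⟩

def cTP_9_43 : PLift (bnd (fTP 17 0 9 3 9 14)
    (fTP 17 1 9 3 0 17) = true) :=
  ⟨by decide +kernel⟩

def cTP_9_44 : PLift (bnd (fTP 17 1 9 3 17 9)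
    (fTP 18 0 9 3 0 21) = true) :=
  ⟨by decide +kernel⟩

def cTP_9_45 : PLift (bnd (fTP 18 1 9 3 0 24)
    (fTP 19 0 9 3 0 7) = true) :=
  ⟨by decide +kernel⟩

def cTP_9_46 : PLift (bnd (fTP 19 0 9 3 7 12)
    (fTP 19 1 9 3 0 19) = true) :=
  ⟨by decide +kernel⟩

def cTP_9_47 : PLift (bnd (fTP 19 1 9 3 19 3)
    (bnd (fTP 20 0 9 3 0 17)
    (fTP 20 1 9 3 0 10)) = true) :=
  ⟨by decide +kernel⟩

def cTP_9_48 : PLift (bnd (fTP 20 1 9 3 10 10)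
    (fTP 21 0 9 3 0 15) = true) :=
  ⟨by decide +kernel⟩

def cTP_9_49 : PLift (bnd (fTP 21 1 9 3 0 18)
    (fTP 22 0 9 3 0 13) = true) :=
  ⟨by decide +kernel⟩

end Pool.Agent.Work.MP_6bf1e5_an.HD
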