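import Pool.Agent.Work.MP_6bf1e5_an.HD.CfTP

/-! Checks of the pass TP, part 8. -/

namespace Pool.Agent.Work.MP_6bf1e5_an.HD

open Pool.Agent.Lib.KLA Pool.Agent.Lib.KBlk

def cTP_9_50 : PLift (bnd (fTP 22 1 9 3 0 16)
    (fTP 23 0 9 3 0 11) = true) :=
  ⟨by decide +kernel⟩

def cTP_9_51 : PLift (bnd (fTP 23 1 9 3 0 14)
    (bnd (fTP 24 0 9 3 0 9)
    (fTP 24 1 9 3 0 6)) = true) :=
  ⟨by decide +kernel⟩

def cTP_9_52 : PLift (bnd (fTP 24 1 9 3 6 6)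
    (bnd (fTP 25 0 9 3 0 7)
    (bnd (fTP 25 1 9 3 0 10)
    (fTP 26 0 9 3 0 5))) = true) :=
  ⟨by decide +kernel⟩

def cTP_9_53 : PLift (bnd (fTP 26 1 9 3 0 8)
    (bnd (fTP 27 0 9 3 0 3)
    (bnd (fTP 27 1 9 3 0 6)
    (bnd (fTP 28 0 9 3 0 1)
    (fTP 28 1 9 3 0 4)))) = true) :=
  ⟨by decide +kernel⟩

def cTP_12_0 : PLift (fTP 1 0 12 3 0 37 = true) :=
  ⟨by decide +kernel⟩

def cTP_12_1 : PLift (bnd (fTP 1 0 12 3 37 18)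
    (fTP 1 1 12 3 0 17) = true) :=
  ⟨by decide +kernel⟩

def cTP_12_2 : PLift (fTP 1 1 12 3 17 37 = true) :=
  ⟨by decide +kernel⟩

def cTP_12_3 : PLift (bnd (fTP 1 1 12 3 54 4)
    (fTP 2 0 12 3 0 31) = true) :=
  ⟨by decide +kernel⟩

def cTP_12_4 : PLift (bnd (fTP 2 0 12 3 31 22)
    (fTP 2 1 12 3 0 13) = true) :=
  ⟨by decide +kernel⟩

def cTP_12_5 : PLift (fTP 2 1 12 3 13 37 = true) :=
  ⟨by decide +kernel⟩

def cTP_12_6 : PLift (bnd (fTP 2 1 12 3 50 6)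
    (fTP 3 0 12 3 0 29) = true) :=
  ⟨by decide +kernel⟩

def cTP_12_7 : PLift (bnd (fTP 3 0 12 3 29 22)
    (fTP 3 1 12 3 0 13) = true) :=
  ⟨by decide +kernel⟩

def cTP_12_8 : PLift (fTP 3 1 12 3 13 37 = true) :=
  ⟨by decide +kernel⟩

def cTP_12_9 : PLift (bnd (fTP 3 1 12 3 50 4)
    (fTP 4 0 12 3 0 30) = true) :=
  ⟨by decide +kernel⟩

def cTP_12_10 : PLift (bnd (fTP 4 0 12 3 30 19)
    (fTP 4 1 12 3 0 15) = true) :=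
  ⟨by decide +kernel⟩

def cTP_12_11 : PLift (fTP 4 1 12 3 15 37 = true) :=
  ⟨by decide +kernel⟩

def cTP_12_12 : PLift (fTP 5 0 12 3 0 37 = true) :=
  ⟨by decide +kernel⟩

def cTP_12_13 : PLift (bnd (fTP 5 0 12 3 37 10)
    (fTP 5 1 12 3 0 24) = true) :=
  ⟨by decide +kernel⟩

def cTP_12_14 : PLift (bnd (fTP 5 1 12 3 24 26)
    (fTP 6 0 12 3 0 8) = true) :=
  ⟨by decide +kernel⟩

def cTP_12_15 : PLift (fTP 6 0 12 3 8 37 = true) :=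
  ⟨by decide +kernel⟩

def cTP_12_16 : PLift (fTP 6 1 12 3 0 37 = true) :=
  ⟨by decide +kernel⟩

def cTP_12_17 : PLift (bnd (fTP 6 1 12 3 37 11)
    (fTP 7 0 12 3 0 23) = true) :=
  ⟨by decide +kernel⟩

def cTP_12_18 : PLift (bnd (fTP 7 0 12 3 23 20)
    (fTP 7 1 12 3 0 14) = true) :=
  ⟨by decide +kernel⟩

def cTP_12_19 : PLift (fTP 7 1 12 3 14 32 = true) :=
  ⟨by decide +kernel⟩

def cTP_12_20 : PLift (fTP 8 0 12 3 0 37 = true) :=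
  ⟨by decide +kernel⟩

def cTP_12_21 : PLift (bnd (fTP 8 0 12 3 37 4)
    (fTP 8 1 12 3 0 30) = true) :=
  ⟨by decide +kernel⟩

def cTP_12_22 : PLift (bnd (fTP 8 1 12 3 30 14)
    (fTP 9 0 12 3 0 20) = true) :=
  ⟨by decide +kernel⟩

end Pool.Agent.Work.MP_6bf1e5_an.HD
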