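import Pool.Agent.Work.MP_6bf1e5_an.HD.CfTP

/-! Checks of the pass TP, part 9. -/

namespace Pool.Agent.Work.MP_6bf1e5_an.HD

open Pool.Agent.Lib.KLA Pool.Agent.Lib.KBlk

def cTP_12_23 : PLift (bnd (fTP 9 0 12 3 20 19)
    (fTP 9 1 12 3 0 15) = true) :=
  ⟨by decide +kernel⟩

def cTP_12_24 : PLift (bnd (fTP 9 1 12 3 15 27)
    (fTP 10 0 12 3 0 7) = true) :=
  ⟨by decide +kernel⟩

def cTP_12_25 : PLift (bnd (fTP 10 0 12 3 7 30)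
    (fTP 10 1 12 3 0 4) = true) :=
  ⟨by decide +kernel⟩

def cTP_12_26 : PLift (fTP 10 1 12 3 4 36 = true) :=
  ⟨by decide +kernel⟩

def cTP_12_27 : PLift (fTP 11 0 12 3 0 35 = true) :=
  ⟨by decide +kernel⟩

def cTP_12_28 : PLift (fTP 11 1 12 3 0 37 = true) :=
  ⟨by decide +kernel⟩

def cTP_12_29 : PLift (bnd (fTP 11 1 12 3 37 1)
    (fTP 12 0 12 3 0 33) = true) :=
  ⟨by decide +kernel⟩

def cTP_12_30 : PLift (fTP 12 1 12 3 0 36 = true) :=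
  ⟨by decide +kernel⟩

def cTP_12_31 : PLift (bnd (fTP 13 0 12 3 0 31)
    (fTP 13 1 12 3 0 3) = true) :=
  ⟨by decide +kernel⟩

def cTP_12_32 : PLift (bnd (fTP 13 1 12 3 3 31)
    (fTP 14 0 12 3 0 3) = true) :=
  ⟨by decide +kernel⟩

def cTP_12_33 : PLift (bnd (fTP 14 0 12 3 3 26)
    (fTP 14 1 12 3 0 8) = true) :=
  ⟨by decide +kernel⟩

def cTP_12_34 : PLift (bnd (fTP 14 1 12 3 8 24)
    (fTP 15 0 12 3 0 10) = true) :=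
  ⟨by decide +kernel⟩

def cTP_12_35 : PLift (bnd (fTP 15 0 12 3 10 17)
    (fTP 15 1 12 3 0 17) = true) :=
  ⟨by decide +kernel⟩

def cTP_12_36 : PLift (bnd (fTP 15 1 12 3 17 13)
    (fTP 16 0 12 3 0 21) = true) :=
  ⟨by decide +kernel⟩

def cTP_12_37 : PLift (bnd (fTP 16 0 12 3 21 4)
    (fTP 16 1 12 3 0 28) = true) :=
  ⟨by decide +kernel⟩

def cTP_12_38 : PLift (bnd (fTP 17 0 12 3 0 23)
    (fTP 17 1 12 3 0 11) = true) :=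
  ⟨by decide +kernel⟩

def cTP_12_39 : PLift (bnd (fTP 17 1 12 3 11 15)
    (fTP 18 0 12 3 0 19) = true) :=
  ⟨by decide +kernel⟩

def cTP_12_40 : PLift (bnd (fTP 18 0 12 3 19 2)
    (bnd (fTP 18 1 12 3 0 24)
    (fTP 19 0 12 3 0 7)) = true) :=
  ⟨by decide +kernel⟩

def cTP_12_41 : PLift (bnd (fTP 19 0 12 3 7 12)
    (fTP 19 1 12 3 0 22) = true) :=
  ⟨by decide +kernel⟩

def cTP_12_42 : PLift (bnd (fTP 20 0 12 3 0 17)
    (fTP 20 1 12 3 0 17) = true) :=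
  ⟨by decide +kernel⟩

def cTP_12_43 : PLift (bnd (fTP 20 1 12 3 17 3)
    (bnd (fTP 21 0 12 3 0 15)
    (fTP 21 1 12 3 0 15)) = true) :=
  ⟨by decide +kernel⟩

def cTP_12_44 : PLift (bnd (fTP 21 1 12 3 15 3)
    (bnd (fTP 22 0 12 3 0 13)
    (fTP 22 1 12 3 0 16)) = true) :=
  ⟨by decide +kernel⟩

def cTP_12_45 : PLift (bnd (fTP 23 0 12 3 0 11)
    (bnd (fTP 23 1 12 3 0 14)
    (fTP 24 0 12 3 0 8)) = true) :=
  ⟨by decide +kernel⟩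

def cTP_12_46 : PLift (bnd (fTP 24 0 12 3 8 1)
    (bnd (fTP 24 1 12 3 0 12)
    (bnd (fTP 25 0 12 3 0 7)
    (fTP 25 1 12 3 0 10))) = true) :=
  ⟨by decide +kernel⟩

def cTP_12_47 : PLift (bnd (fTP 26 0 12 3 0 5)
    (bnd (fTP 26 1 12 3 0 8)
    (bnd (fTP 27 0 12 3 0 3)
    (bnd (fTP 27 1 12 3 0 6)
    (bnd (fTP 28 0 12 3 0 1)
    (fTP 28 1 12 3 0 4))))) = true) :=
  ⟨by decide +kernel⟩

def cTP_15_0 : PLift (fTP 1 0 15 3 0 42 = true) :=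
  ⟨by decide +kernel⟩

def cTP_15_1 : PLift (bnd (fTP 1 0 15 3 42 13)
    (fTP 1 1 15 3 0 26) = true) :=
  ⟨by decide +kernel⟩

end Pool.Agent.Work.MP_6bf1e5_an.HD
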