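import Pool.Agent.Work.MP_6bf1e5_an.H.MoFam
import Pool.Agent.Work.MP_6bf1e5_an.HD.MoDt7

/-! The moment tables of one pass (owner helper64). -/

namespace Pool.Agent.Work.MP_6bf1e5_an.HD

open Pool.Agent.Lib.KLA Pool.Agent.Lib.KBlk H.Mw

noncomputable def tGT : Tr (Nat × Vr) :=
  (Tr.node (Tr.node (Tr.node (Tr.node (Tr.node (Tr.node (Tr.leaf (1, m34)) (Tr.leaf (0, Vr.nil)))
  (Tr.leaf (0, Vr.nil))) (Tr.node (Tr.leaf (0, Vr.nil)) (Tr.leaf (0, Vr.nil)))) (Tr.node (Tr.node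
  (Tr.leaf (0, Vr.nil)) (Tr.leaf (0, Vr.nil))) (Tr.node (Tr.leaf (0, Vr.nil)) (Tr.leaf (1,
  m38))))) (Tr.node (Tr.node (Tr.node (Tr.node (Tr.leaf (0, Vr.nil)) (Tr.leaf (0, Vr.nil)))
  (Tr.leaf (0, Vr.nil))) (Tr.node (Tr.leaf (0, Vr.nil)) (Tr.leaf (0, Vr.nil)))) (Tr.node (Tr.node
  (Tr.leaf (0, Vr.nil)) (Tr.leaf (0, Vr.nil))) (Tr.node (Tr.leaf (1, m36)) (Tr.leaf (0,
  Vr.nil)))))) (Tr.node (Tr.node (Tr.node (Tr.node (Tr.node (Tr.leaf (0, Vr.nil)) (Tr.leaf (0,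
  Vr.nil))) (Tr.leaf (0, Vr.nil))) (Tr.node (Tr.leaf (0, Vr.nil)) (Tr.leaf (0, Vr.nil)))) (Tr.node
  (Tr.node (Tr.leaf (0, Vr.nil)) (Tr.leaf (1, m37))) (Tr.node (Tr.leaf (0, Vr.nil)) (Tr.leaf (0,
  Vr.nil))))) (Tr.node (Tr.node (Tr.node (Tr.node (Tr.leaf (0, Vr.nil)) (Tr.leaf (1, m39)))
  (Tr.leaf (0, Vr.nil))) (Tr.node (Tr.leaf (0, Vr.nil)) (Tr.leaf (0, Vr.nil)))) (Tr.node (Tr.node
  (Tr.leaf (1, m35)) (Tr.leaf (0, Vr.nil))) (Tr.node (Tr.leaf (0, Vr.nil)) (Tr.leaf (0,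
  Vr.nil)))))))

noncomputable def MoGT (c s b : Nat) : Rows := fam 80 (tGT.get (ixe c s b))

end Pool.Agent.Work.MP_6bf1e5_an.HD
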