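import Pool.Agent.Work.MP_6bf1e5_an.HD.Tt
import Pool.Agent.Work.MP_6bf1e5_an.HD.MoGT
import Pool.Agent.Work.MP_6bf1e5_an.H.AngT
import Pool.Agent.Work.MP_6bf1e5_an.H.PassTD

/-! The numbers of the pass GT. -/

namespace Pool.Agent.Work.MP_6bf1e5_an.HD

open Pool.Agent.Lib.KLA Pool.Agent.Lib.KBlk

noncomputable def pGT : Par :=
  ⟨192, 13, 207, 13, 5, 5, 47, 622, 9903520314283042199192993792,
    9903520314283042199192993792, 39614081257132168796771975168, 604462909807314587353088, 98,
    83, 103, 4951760157141521099596496896, 309485009821345068724781062, 88,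
    145071098353755500964741120, 1569275433846670190958947355801916604025588861116008628224⟩

noncomputable def fGT : Nat → Nat → Nat → Nat → Bool :=
  H.Ps.gchk pGT 79228162514264619068520660992 281474976710656 22 2814749
    ⟨1, 94, 79228162514264337593543950336, false⟩
    H.Ang.T0 H.Ang.T1 H.Ang.dg MoGT Rt Rt At

end Pool.Agent.Work.MP_6bf1e5_an.HD
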