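import Pool.Agent.Work.MP_6bf1e5_an.HD.Lay0
import Pool.Agent.Work.MP_6bf1e5_an.HD.KL_0

namespace Pool.Agent.Work.MP_6bf1e5_an.HD

open Pool.Agent.Lib.KLA Pool.Agent.Lib.KBlk

noncomputable def KLt : Tr Vr :=
  (Tr.node (Tr.node (Tr.node (Tr.node (Tr.node (Tr.node (Tr.node (Tr.leaf Vr.nil) (Tr.leaf Vr.nil))
  (Tr.leaf KLv32)) (Tr.node (Tr.leaf KLv16) (Tr.leaf KLv48))) (Tr.node (Tr.node (Tr.node (Tr.leaf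
  KLv8) (Tr.leaf Vr.nil)) (Tr.leaf KLv40)) (Tr.node (Tr.leaf KLv24) (Tr.leaf KLv56)))) (Tr.node
  (Tr.node (Tr.node (Tr.node (Tr.leaf KLv4) (Tr.leaf Vr.nil)) (Tr.leaf KLv36)) (Tr.node (Tr.leaf
  KLv20) (Tr.leaf KLv52))) (Tr.node (Tr.node (Tr.node (Tr.leaf KLv12) (Tr.leaf Vr.nil)) (Tr.leaf
  KLv44)) (Tr.node (Tr.leaf KLv28) (Tr.leaf Vr.nil))))) (Tr.node (Tr.node (Tr.node (Tr.node
  (Tr.node (Tr.leaf KLv2) (Tr.leaf Vr.nil)) (Tr.leaf KLv34)) (Tr.node (Tr.leaf KLv18) (Tr.leaf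
  KLv50))) (Tr.node (Tr.node (Tr.node (Tr.leaf KLv10) (Tr.leaf Vr.nil)) (Tr.leaf KLv42)) (Tr.node
  (Tr.leaf KLv26) (Tr.leaf Vr.nil)))) (Tr.node (Tr.node (Tr.node (Tr.node (Tr.leaf KLv6) (Tr.leaf
  Vr.nil)) (Tr.leaf KLv38)) (Tr.node (Tr.leaf KLv22) (Tr.leaf KLv54))) (Tr.node (Tr.node (Tr.leaf
  KLv14) (Tr.leaf KLv46)) (Tr.node (Tr.leaf KLv30) (Tr.leaf Vr.nil)))))) (Tr.node (Tr.node (Tr.node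
  (Tr.node (Tr.node (Tr.node (Tr.leaf Vr.nil) (Tr.leaf Vr.nil)) (Tr.leaf KLv33)) (Tr.node (Tr.leaf
  KLv17) (Tr.leaf KLv49))) (Tr.node (Tr.node (Tr.node (Tr.leaf KLv9) (Tr.leaf Vr.nil)) (Tr.leaf
  KLv41)) (Tr.node (Tr.leaf KLv25) (Tr.leaf KLv57)))) (Tr.node (Tr.node (Tr.node (Tr.node (Tr.leaf
  KLv5) (Tr.leaf Vr.nil)) (Tr.leaf KLv37)) (Tr.node (Tr.leaf KLv21) (Tr.leaf KLv53))) (Tr.node
  (Tr.node (Tr.node (Tr.leaf KLv13) (Tr.leaf Vr.nil)) (Tr.leaf KLv45)) (Tr.node (Tr.leaf KLv29)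
  (Tr.leaf Vr.nil))))) (Tr.node (Tr.node (Tr.node (Tr.node (Tr.node (Tr.leaf KLv3) (Tr.leaf
  Vr.nil)) (Tr.leaf KLv35)) (Tr.node (Tr.leaf KLv19) (Tr.leaf KLv51))) (Tr.node (Tr.node (Tr.node
  (Tr.leaf KLv11) (Tr.leaf Vr.nil)) (Tr.leaf KLv43)) (Tr.node (Tr.leaf KLv27) (Tr.leaf Vr.nil))))
  (Tr.node (Tr.node (Tr.node (Tr.node (Tr.leaf KLv7) (Tr.leaf Vr.nil)) (Tr.leaf KLv39)) (Tr.node
  (Tr.leaf KLv23) (Tr.leaf KLv55))) (Tr.node (Tr.node (Tr.leaf KLv15) (Tr.leaf KLv47)) (Tr.node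
  (Tr.leaf KLv31) (Tr.leaf Vr.nil)))))))

noncomputable def KL (b c : Nat) : Rows :=
  vld 96 48 (jm b c) 5 (Tr.get KLt (Nat.add (Nat.mul 2 b) c))

end Pool.Agent.Work.MP_6bf1e5_an.HD
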