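import Pool.Agent.Work.MP_6bf1e5_an.H.MoFam
import Pool.Agent.Work.MP_6bf1e5_an.HD.MoDt11
import Pool.Agent.Work.MP_6bf1e5_an.HD.MoDt12

/-! The moment tables of one pass (owner helper64). -/

namespace Pool.Agent.Work.MP_6bf1e5_an.HD

open Pool.Agent.Lib.KLA Pool.Agent.Lib.KBlk H.Mw

noncomputable def tKK : Tr (Nat × Vr) :=
  (Tr.node (Tr.node (Tr.node (Tr.node (Tr.node (Tr.node (Tr.leaf (1, m52)) (Tr.leaf (0, Vr.nil)))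
  (Tr.leaf (1, m57))) (Tr.node (Tr.leaf (0, Vr.nil)) (Tr.leaf (2, m58)))) (Tr.node (Tr.node
  (Tr.leaf (0, Vr.nil)) (Tr.leaf (2, m56))) (Tr.node (Tr.leaf (1, m54)) (Tr.leaf (0, Vr.nil)))))
  (Tr.node (Tr.node (Tr.node (Tr.node (Tr.leaf (0, Vr.nil)) (Tr.leaf (0, Vr.nil))) (Tr.leaf (0,
  Vr.nil))) (Tr.node (Tr.leaf (0, Vr.nil)) (Tr.leaf (2, m57)))) (Tr.node (Tr.node (Tr.leaf (0,
  Vr.nil)) (Tr.leaf (1, m59))) (Tr.node (Tr.leaf (0, Vr.nil)) (Tr.leaf (0, Vr.nil)))))) (Tr.node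
  (Tr.node (Tr.node (Tr.node (Tr.node (Tr.leaf (0, Vr.nil)) (Tr.leaf (0, Vr.nil))) (Tr.leaf (0,
  Vr.nil))) (Tr.node (Tr.leaf (0, Vr.nil)) (Tr.leaf (0, Vr.nil)))) (Tr.node (Tr.node (Tr.leaf (0,
  Vr.nil)) (Tr.leaf (0, Vr.nil))) (Tr.node (Tr.leaf (1, m55)) (Tr.leaf (2, m55))))) (Tr.node
  (Tr.node (Tr.node (Tr.node (Tr.leaf (0, Vr.nil)) (Tr.leaf (1, m60))) (Tr.leaf (1, m58)))
  (Tr.node (Tr.leaf (0, Vr.nil)) (Tr.leaf (2, m59)))) (Tr.node (Tr.node (Tr.leaf (1, m53))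
  (Tr.leaf (2, m54))) (Tr.node (Tr.leaf (1, m56)) (Tr.leaf (0, Vr.nil)))))))

noncomputable def MoKK (c s b : Nat) : Rows := fam 77 (tKK.get (ixe c s b))

end Pool.Agent.Work.MP_6bf1e5_an.HD
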