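import Pool.Agent.Work.MP_6bf1e5_an.HD.Lay0
import Pool.Agent.Work.MP_6bf1e5_an.HD.Ta_0
import Pool.Agent.Work.MP_6bf1e5_an.HD.Ta_1
import Pool.Agent.Work.MP_6bf1e5_an.HD.Ta_2
import Pool.Agent.Work.MP_6bf1e5_an.HD.Ta_3
import Pool.Agent.Work.MP_6bf1e5_an.HD.Ta_4
import Pool.Agent.Work.MP_6bf1e5_an.HD.Ta_5

namespace Pool.Agent.Work.MP_6bf1e5_an.HD

open Pool.Agent.Lib.KLA Pool.Agent.Lib.KBlk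

noncomputable def Tat : Tr Vr :=
  (Tr.node (Tr.node (Tr.node (Tr.node (Tr.node (Tr.node (Tr.node (Tr.leaf Vr.nil) (Tr.leaf Vr.nil))
  (Tr.leaf Tav32)) (Tr.node (Tr.leaf Tav16) (Tr.leaf Tav48))) (Tr.node (Tr.node (Tr.node (Tr.leaf
  Tav8) (Tr.leaf Vr.nil)) (Tr.leaf Tav40)) (Tr.node (Tr.leaf Tav24) (Tr.leaf Tav56)))) (Tr.node
  (Tr.node (Tr.node (Tr.node (Tr.leaf Tav4) (Tr.leaf Vr.nil)) (Tr.leaf Tav36)) (Tr.node (Tr.leaf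
  Tav20) (Tr.leaf Tav52))) (Tr.node (Tr.node (Tr.node (Tr.leaf Tav12) (Tr.leaf Vr.nil)) (Tr.leaf
  Tav44)) (Tr.node (Tr.leaf Tav28) (Tr.leaf Vr.nil))))) (Tr.node (Tr.node (Tr.node (Tr.node
  (Tr.node (Tr.leaf Tav2) (Tr.leaf Vr.nil)) (Tr.leaf Tav34)) (Tr.node (Tr.leaf Tav18) (Tr.leaf
  Tav50))) (Tr.node (Tr.node (Tr.node (Tr.leaf Tav10) (Tr.leaf Vr.nil)) (Tr.leaf Tav42)) (Tr.node
  (Tr.leaf Tav26) (Tr.leaf Vr.nil)))) (Tr.node (Tr.node (Tr.node (Tr.node (Tr.leaf Tav6) (Tr.leaf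
  Vr.nil)) (Tr.leaf Tav38)) (Tr.node (Tr.leaf Tav22) (Tr.leaf Tav54))) (Tr.node (Tr.node (Tr.leaf
  Tav14) (Tr.leaf Tav46)) (Tr.node (Tr.leaf Tav30) (Tr.leaf Vr.nil)))))) (Tr.node (Tr.node (Tr.node
  (Tr.node (Tr.node (Tr.node (Tr.leaf Vr.nil) (Tr.leaf Vr.nil)) (Tr.leaf Tav33)) (Tr.node (Tr.leaf
  Tav17) (Tr.leaf Tav49))) (Tr.node (Tr.node (Tr.node (Tr.leaf Tav9) (Tr.leaf Vr.nil)) (Tr.leaf
  Tav41)) (Tr.node (Tr.leaf Tav25) (Tr.leaf Tav57)))) (Tr.node (Tr.node (Tr.node (Tr.node (Tr.leaf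
  Tav5) (Tr.leaf Vr.nil)) (Tr.leaf Tav37)) (Tr.node (Tr.leaf Tav21) (Tr.leaf Tav53))) (Tr.node
  (Tr.node (Tr.node (Tr.leaf Tav13) (Tr.leaf Vr.nil)) (Tr.leaf Tav45)) (Tr.node (Tr.leaf Tav29)
  (Tr.leaf Vr.nil))))) (Tr.node (Tr.node (Tr.node (Tr.node (Tr.node (Tr.leaf Tav3) (Tr.leaf
  Vr.nil)) (Tr.leaf Tav35)) (Tr.node (Tr.leaf Tav19) (Tr.leaf Tav51))) (Tr.node (Tr.node (Tr.node
  (Tr.leaf Tav11) (Tr.leaf Vr.nil)) (Tr.leaf Tav43)) (Tr.node (Tr.leaf Tav27) (Tr.leaf Vr.nil))))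
  (Tr.node (Tr.node (Tr.node (Tr.node (Tr.leaf Tav7) (Tr.leaf Vr.nil)) (Tr.leaf Tav39)) (Tr.node
  (Tr.leaf Tav23) (Tr.leaf Tav55))) (Tr.node (Tr.node (Tr.leaf Tav15) (Tr.leaf Tav47)) (Tr.node
  (Tr.leaf Tav31) (Tr.leaf Vr.nil)))))))

noncomputable def Ta (b c : Nat) : Vr := Tr.get Tat (Nat.add (Nat.mul 2 b) c)

noncomputable def Ra (b c : Nat) : Rows := vld 192 94 (Nat.mul 8 (jh b c)) 5 (Ta b c)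

end Pool.Agent.Work.MP_6bf1e5_an.HD
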