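import Pool.Agent.Work.MP_6bf1e5_an.HD.Lay0
import Pool.Agent.Work.MP_6bf1e5_an.HD.Tm_0
import Pool.Agent.Work.MP_6bf1e5_an.HD.Tm_1
import Pool.Agent.Work.MP_6bf1e5_an.HD.Tm_2
import Pool.Agent.Work.MP_6bf1e5_an.HD.Tm_3
import Pool.Agent.Work.MP_6bf1e5_an.HD.Tm_4
import Pool.Agent.Work.MP_6bf1e5_an.HD.Tm_5
import Pool.Agent.Work.MP_6bf1e5_an.HD.Tm_6

namespace Pool.Agent.Work.MP_6bf1e5_an.HD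

open Pool.Agent.Lib.KLA Pool.Agent.Lib.KBlk

noncomputable def Tmt : Tr Vr :=
  (Tr.node (Tr.node (Tr.node (Tr.node (Tr.node (Tr.node (Tr.node (Tr.leaf Vr.nil) (Tr.leaf Tmv64))
  (Tr.leaf Tmv32)) (Tr.node (Tr.leaf Tmv16) (Tr.leaf Tmv48))) (Tr.node (Tr.node (Tr.node (Tr.leaf
  Tmv8) (Tr.leaf Vr.nil)) (Tr.leaf Tmv40)) (Tr.node (Tr.leaf Tmv24) (Tr.leaf Tmv56)))) (Tr.node
  (Tr.node (Tr.node (Tr.node (Tr.leaf Tmv4) (Tr.leaf Vr.nil)) (Tr.leaf Tmv36)) (Tr.node (Tr.leaf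
  Tmv20) (Tr.leaf Tmv52))) (Tr.node (Tr.node (Tr.node (Tr.leaf Tmv12) (Tr.leaf Vr.nil)) (Tr.leaf
  Tmv44)) (Tr.node (Tr.leaf Tmv28) (Tr.leaf Tmv60))))) (Tr.node (Tr.node (Tr.node (Tr.node (Tr.node
  (Tr.leaf Tmv2) (Tr.leaf Vr.nil)) (Tr.leaf Tmv34)) (Tr.node (Tr.leaf Tmv18) (Tr.leaf Tmv50)))
  (Tr.node (Tr.node (Tr.node (Tr.leaf Tmv10) (Tr.leaf Vr.nil)) (Tr.leaf Tmv42)) (Tr.node (Tr.leaf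
  Tmv26) (Tr.leaf Tmv58)))) (Tr.node (Tr.node (Tr.node (Tr.node (Tr.leaf Tmv6) (Tr.leaf Vr.nil))
  (Tr.leaf Tmv38)) (Tr.node (Tr.leaf Tmv22) (Tr.leaf Tmv54))) (Tr.node (Tr.node (Tr.leaf Tmv14)
  (Tr.leaf Tmv46)) (Tr.node (Tr.leaf Tmv30) (Tr.leaf Tmv62)))))) (Tr.node (Tr.node (Tr.node
  (Tr.node (Tr.node (Tr.node (Tr.leaf Vr.nil) (Tr.leaf Tmv65)) (Tr.leaf Tmv33)) (Tr.node (Tr.leaf
  Tmv17) (Tr.leaf Tmv49))) (Tr.node (Tr.node (Tr.node (Tr.leaf Tmv9) (Tr.leaf Vr.nil)) (Tr.leaf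
  Tmv41)) (Tr.node (Tr.leaf Tmv25) (Tr.leaf Tmv57)))) (Tr.node (Tr.node (Tr.node (Tr.node (Tr.leaf
  Tmv5) (Tr.leaf Vr.nil)) (Tr.leaf Tmv37)) (Tr.node (Tr.leaf Tmv21) (Tr.leaf Tmv53))) (Tr.node
  (Tr.node (Tr.node (Tr.leaf Tmv13) (Tr.leaf Vr.nil)) (Tr.leaf Tmv45)) (Tr.node (Tr.leaf Tmv29)
  (Tr.leaf Tmv61))))) (Tr.node (Tr.node (Tr.node (Tr.node (Tr.node (Tr.leaf Tmv3) (Tr.leaf Vr.nil))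
  (Tr.leaf Tmv35)) (Tr.node (Tr.leaf Tmv19) (Tr.leaf Tmv51))) (Tr.node (Tr.node (Tr.node (Tr.leaf
  Tmv11) (Tr.leaf Vr.nil)) (Tr.leaf Tmv43)) (Tr.node (Tr.leaf Tmv27) (Tr.leaf Tmv59)))) (Tr.node
  (Tr.node (Tr.node (Tr.node (Tr.leaf Tmv7) (Tr.leaf Vr.nil)) (Tr.leaf Tmv39)) (Tr.node (Tr.leaf
  Tmv23) (Tr.leaf Tmv55))) (Tr.node (Tr.node (Tr.leaf Tmv15) (Tr.leaf Tmv47)) (Tr.node (Tr.leaf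
  Tmv31) (Tr.leaf Tmv63)))))))

noncomputable def Tm (b c : Nat) : Vr := Tr.get Tmt (Nat.add (Nat.mul 2 b) c)

noncomputable def Rm (b c : Nat) : Rows := vld 192 91 (Nat.mul 8 (jm b c)) 5 (Tm b c)

end Pool.Agent.Work.MP_6bf1e5_an.HD
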