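import Pool.Agent.Work.MP_6bf1e5_an.HD.K
import Pool.Agent.Work.MP_6bf1e5_an.HD.Ta
import Pool.Agent.Work.MP_6bf1e5_an.HD.Tm
import Pool.Agent.Work.MP_6bf1e5_an.HD.KL
import Pool.Agent.Work.MP_6bf1e5_an.HD.MoKK
import Pool.Agent.Work.MP_6bf1e5_an.H.AngT
import Pool.Agent.Work.MP_6bf1e5_an.H.PassDef

/-! The numbers of the pass KK. -/

namespace Pool.Agent.Work.MP_6bf1e5_an.HD

open Pool.Agent.Lib.KLA Pool.Agent.Lib.KBlk

noncomputable def dKK : H.Ps.Dat :=
  { Am := Am, Ah := Ah, At := At, V := 96, c1 := 105, cT := 456, nm := 0, nh := 0, nt := 0,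
    cU := cU, cR := cR, X := fun _ => Chk.nil, K := K, La := fun _ => Chk.nil,
    Th := fun _ => Chk.nil, R := fun _ => Chk.nil, TP := fun _ => Chk.nil,
    U := fun _ => Chk.nil, Zc := Chk.nil, kX := 0, kK := 17179869184, kL := 0, kT := 0,
    kR := 0, kP := 0, kU := 0, kZ := 0, sX := 0, sK := 0, sL := 0, sT := 0, sR := 0, sP := 0,
    sU := 0, sZ := 0 }

noncomputable def pKK : Par :=
  ⟨192, 13, 207, 13, 5, 5, 47, 622, 9903520314283042199192993792,
    1237940039285380274899124224, 39614081257132168796771975168, 75557863725914323419136, 98,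
    80, 99, 4951760157141521099596496896, 309485009821345068724781062, 87,
    1682824740903563811190996992, 1569275433846670190958947355801916604025588861116008628224⟩

noncomputable def fKK : Nat → Nat → Nat → Nat → Nat → Nat → Bool :=
  tchk pKK 96 69324642200044345789134143488 14 20
    ⟨1, 98, 4951760157141521099596496896, false⟩
    H.Ang.T0 H.Ang.T1 H.Ang.dg MoKK Ra Rm Am
    (H.Ps.tKK dKK ⟨16, 0, 140737488355328, false⟩
      ⟨131072, 0, 17179869184, true⟩ KL)

end Pool.Agent.Work.MP_6bf1e5_an.HD
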