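import Pool.Agent.Lib.KBlk.Vr
import Pool.Agent.Work.MP_6bf1e5_an.HD.K_0
import Pool.Agent.Work.MP_6bf1e5_an.HD.K_1
import Pool.Agent.Work.MP_6bf1e5_an.HD.K_2
import Pool.Agent.Work.MP_6bf1e5_an.HD.K_3
import Pool.Agent.Work.MP_6bf1e5_an.HD.K_4
import Pool.Agent.Work.MP_6bf1e5_an.HD.K_5
import Pool.Agent.Work.MP_6bf1e5_an.HD.K_6
import Pool.Agent.Work.MP_6bf1e5_an.HD.K_7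

namespace Pool.Agent.Work.MP_6bf1e5_an.HD

open Pool.Agent.Lib.KLA Pool.Agent.Lib.KBlk

noncomputable def Kp0 : Chk :=
  Kp0_0 ( Kp0_1 ( Kp0_2 ( Kp0_3 ( Kp0_4 ( Kp0_5 ( Kp0_6 ( Kp0_7 ( Kp0_8 ( Kp0_9 ( Kp0_10 ( Kp0_11 ( Kp0_12 ( Kp0_13 (Chk.nil))))))))))))))

noncomputable def Kp1 : Chk :=
  Kp1_0 ( Kp1_1 ( Kp1_2 ( Kp1_3 ( Kp1_4 ( Kp1_5 ( Kp1_6 ( Kp1_7 ( Kp1_8 ( Kp1_9 ( Kp1_10 ( Kp1_11 ( Kp1_12 ( Kp1_13 (Chk.nil))))))))))))))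

noncomputable def Kp2 : Chk :=
  Kp2_0 ( Kp2_1 ( Kp2_2 ( Kp2_3 ( Kp2_4 ( Kp2_5 ( Kp2_6 ( Kp2_7 ( Kp2_8 ( Kp2_9 ( Kp2_10 ( Kp2_11 ( Kp2_12 ( Kp2_13 (Chk.nil))))))))))))))

noncomputable def Kp3 : Chk :=
  Kp3_0 ( Kp3_1 ( Kp3_2 ( Kp3_3 ( Kp3_4 ( Kp3_5 ( Kp3_6 ( Kp3_7 ( Kp3_8 ( Kp3_9 ( Kp3_10 ( Kp3_11 ( Kp3_12 ( Kp3_13 (Chk.nil))))))))))))))

noncomputable def Kp4 : Chk :=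
  Kp4_0 ( Kp4_1 ( Kp4_2 ( Kp4_3 ( Kp4_4 ( Kp4_5 ( Kp4_6 ( Kp4_7 ( Kp4_8 ( Kp4_9 ( Kp4_10 ( Kp4_11 ( Kp4_12 ( Kp4_13 (Chk.nil))))))))))))))

noncomputable def Kp5 : Chk :=
  Kp5_0 ( Kp5_1 ( Kp5_2 ( Kp5_3 ( Kp5_4 ( Kp5_5 ( Kp5_6 ( Kp5_7 ( Kp5_8 ( Kp5_9 ( Kp5_10 ( Kp5_11 ( Kp5_12 ( Kp5_13 (Chk.nil))))))))))))))

noncomputable def Kp6 : Chk :=
  Kp6_0 ( Kp6_1 ( Kp6_2 ( Kp6_3 ( Kp6_4 ( Kp6_5 ( Kp6_6 ( Kp6_7 ( Kp6_8 ( Kp6_9 ( Kp6_10 ( Kp6_11 ( Kp6_12 ( Kp6_13 (Chk.nil))))))))))))))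

noncomputable def Kp7 : Chk :=
  Kp7_0 ( Kp7_1 ( Kp7_2 ( Kp7_3 ( Kp7_4 ( Kp7_5 ( Kp7_6 ( Kp7_7 ( Kp7_8 ( Kp7_9 ( Kp7_10 ( Kp7_11 ( Kp7_12 ( Kp7_13 (Chk.nil))))))))))))))

noncomputable def K (p : Nat) : Chk := Tr.get
  (Tr.node (Tr.node (Tr.node (Tr.leaf Kp0) (Tr.leaf Kp4)) (Tr.node (Tr.leaf Kp2) (Tr.leaf Kp6)))
  (Tr.node (Tr.node (Tr.leaf Kp1) (Tr.leaf Kp5)) (Tr.node (Tr.leaf Kp3) (Tr.leaf Kp7)))) p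

end Pool.Agent.Work.MP_6bf1e5_an.HD
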