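import Pool.Agent.Lib.KBlk.Vr
import Pool.Agent.Work.MP_6bf1e5_an.HD.La_0
import Pool.Agent.Work.MP_6bf1e5_an.HD.La_1
import Pool.Agent.Work.MP_6bf1e5_an.HD.La_2
import Pool.Agent.Work.MP_6bf1e5_an.HD.La_3
import Pool.Agent.Work.MP_6bf1e5_an.HD.La_4
import Pool.Agent.Work.MP_6bf1e5_an.HD.La_5
import Pool.Agent.Work.MP_6bf1e5_an.HD.La_6
import Pool.Agent.Work.MP_6bf1e5_an.HD.La_7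
import Pool.Agent.Work.MP_6bf1e5_an.HD.La_8
import Pool.Agent.Work.MP_6bf1e5_an.HD.La_9

namespace Pool.Agent.Work.MP_6bf1e5_an.HD

open Pool.Agent.Lib.KLA Pool.Agent.Lib.KBlk

noncomputable def Lap0 : Chk :=
  Lap0_0 ( Lap0_1 ( Lap0_2 ( Lap0_3 ( Lap0_4 ( Lap0_5 ( Lap0_6 ( Lap0_7 ( Lap0_8 ( Lap0_9 ( Lap0_10 ( Lap0_11 ( Lap0_12 ( Lap0_13 (Chk.nil))))))))))))))

noncomputable def Lap1 : Chk :=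
  Lap1_0 ( Lap1_1 ( Lap1_2 ( Lap1_3 ( Lap1_4 ( Lap1_5 ( Lap1_6 ( Lap1_7 ( Lap1_8 ( Lap1_9 ( Lap1_10 ( Lap1_11 ( Lap1_12 ( Lap1_13 (Chk.nil))))))))))))))

noncomputable def Lap2 : Chk :=
  Lap2_0 ( Lap2_1 ( Lap2_2 ( Lap2_3 ( Lap2_4 ( Lap2_5 ( Lap2_6 ( Lap2_7 ( Lap2_8 ( Lap2_9 ( Lap2_10 ( Lap2_11 ( Lap2_12 ( Lap2_13 (Chk.nil))))))))))))))

noncomputable def Lap3 : Chk :=
  Lap3_0 ( Lap3_1 ( Lap3_2 ( Lap3_3 ( Lap3_4 ( Lap3_5 ( Lap3_6 ( Lap3_7 ( Lap3_8 ( Lap3_9 ( Lap3_10 ( Lap3_11 ( Lap3_12 ( Lap3_13 (Chk.nil))))))))))))))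

noncomputable def Lap4 : Chk :=
  Lap4_0 ( Lap4_1 ( Lap4_2 ( Lap4_3 ( Lap4_4 ( Lap4_5 ( Lap4_6 ( Lap4_7 ( Lap4_8 ( Lap4_9 ( Lap4_10 ( Lap4_11 ( Lap4_12 ( Lap4_13 (Chk.nil))))))))))))))

noncomputable def Lap5 : Chk :=
  Lap5_0 ( Lap5_1 ( Lap5_2 ( Lap5_3 ( Lap5_4 ( Lap5_5 ( Lap5_6 ( Lap5_7 ( Lap5_8 ( Lap5_9 ( Lap5_10 ( Lap5_11 ( Lap5_12 ( Lap5_13 (Chk.nil))))))))))))))

noncomputable def Lap6 : Chk :=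
  Lap6_0 ( Lap6_1 ( Lap6_2 ( Lap6_3 ( Lap6_4 ( Lap6_5 ( Lap6_6 ( Lap6_7 ( Lap6_8 ( Lap6_9 ( Lap6_10 ( Lap6_11 ( Lap6_12 ( Lap6_13 (Chk.nil))))))))))))))

noncomputable def Lap7 : Chk :=
  Lap7_0 ( Lap7_1 ( Lap7_2 ( Lap7_3 ( Lap7_4 ( Lap7_5 ( Lap7_6 ( Lap7_7 ( Lap7_8 ( Lap7_9 ( Lap7_10 ( Lap7_11 ( Lap7_12 ( Lap7_13 (Chk.nil))))))))))))))

noncomputable def La (p : Nat) : Chk := Tr.get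
  (Tr.node (Tr.node (Tr.node (Tr.leaf Lap0) (Tr.leaf Lap4)) (Tr.node (Tr.leaf Lap2) (Tr.leaf
  Lap6))) (Tr.node (Tr.node (Tr.leaf Lap1) (Tr.leaf Lap5)) (Tr.node (Tr.leaf Lap3) (Tr.leaf
  Lap7)))) p

end Pool.Agent.Work.MP_6bf1e5_an.HD
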