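import Pool.Agent.Work.MP_6bf1e5_an.H.MoFam
import Pool.Agent.Work.MP_6bf1e5_an.HD.MoDt2
import Pool.Agent.Work.MP_6bf1e5_an.HD.MoDt3
import Pool.Agent.Work.MP_6bf1e5_an.HD.MoDt4
import Pool.Agent.Work.MP_6bf1e5_an.HD.MoDt13
import Pool.Agent.Work.MP_6bf1e5_an.HD.MoDt14
import Pool.Agent.Work.MP_6bf1e5_an.HD.MoDt15
import Pool.Agent.Work.MP_6bf1e5_an.HD.MoDt16
import Pool.Agent.Work.MP_6bf1e5_an.HD.MoDt17

/-! The moment tables of one pass (owner helper64). -/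

namespace Pool.Agent.Work.MP_6bf1e5_an.HD

open Pool.Agent.Lib.KLA Pool.Agent.Lib.KBlk H.Mw

noncomputable def tLL : Tr (Nat × Vr) :=
  (Tr.node (Tr.node (Tr.node (Tr.node (Tr.node (Tr.node (Tr.leaf (1, m10)) (Tr.leaf (1, m23)))
  (Tr.leaf (1, m65))) (Tr.node (Tr.leaf (1, m22)) (Tr.leaf (1, m73)))) (Tr.node (Tr.node (Tr.leaf
  (1, m27)) (Tr.leaf (1, m69))) (Tr.node (Tr.leaf (1, m61)) (Tr.leaf (1, m77))))) (Tr.node
  (Tr.node (Tr.node (Tr.node (Tr.leaf (1, m21)) (Tr.leaf (1, m29))) (Tr.leaf (1, m67))) (Tr.node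
  (Tr.leaf (1, m28)) (Tr.leaf (1, m75)))) (Tr.node (Tr.node (Tr.leaf (1, m11)) (Tr.leaf (1, m71)))
  (Tr.node (Tr.leaf (1, m63)) (Tr.leaf (1, m15)))))) (Tr.node (Tr.node (Tr.node (Tr.node (Tr.node
  (Tr.leaf (1, m11)) (Tr.leaf (1, m26))) (Tr.leaf (1, m66))) (Tr.node (Tr.leaf (1, m25)) (Tr.leaf
  (1, m74)))) (Tr.node (Tr.node (Tr.leaf (1, m15)) (Tr.leaf (1, m70))) (Tr.node (Tr.leaf (1, m62))
  (Tr.leaf (1, m78))))) (Tr.node (Tr.node (Tr.node (Tr.node (Tr.leaf (1, m24)) (Tr.leaf (1, m33)))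
  (Tr.leaf (1, m68))) (Tr.node (Tr.leaf (1, m20)) (Tr.leaf (1, m76)))) (Tr.node (Tr.node (Tr.leaf
  (1, m16)) (Tr.leaf (1, m72))) (Tr.node (Tr.leaf (1, m64)) (Tr.leaf (1, m20)))))))

noncomputable def MoLL (c s b : Nat) : Rows := fam 79 (tLL.get (ixe c s b))

end Pool.Agent.Work.MP_6bf1e5_an.HD
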