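import Pool.Agent.Lib.KBlk.Vr
import Pool.Agent.Work.MP_6bf1e5_an.HD.U_0
import Pool.Agent.Work.MP_6bf1e5_an.HD.U_1
import Pool.Agent.Work.MP_6bf1e5_an.HD.U_2
import Pool.Agent.Work.MP_6bf1e5_an.HD.U_3
import Pool.Agent.Work.MP_6bf1e5_an.HD.U_4

namespace Pool.Agent.Work.MP_6bf1e5_an.HD

open Pool.Agent.Lib.KLA Pool.Agent.Lib.KBlk

noncomputable def Up0 : Chk :=
  Up0_0 ( Up0_1 ( Up0_2 ( Up0_3 (Chk.nil))))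

noncomputable def Up1 : Chk :=
  Up1_0 ( Up1_1 ( Up1_2 ( Up1_3 ( Up1_4 ( Up1_5 ( Up1_6 (Chk.nil)))))))

noncomputable def Up2 : Chk :=
  Up2_0 ( Up2_1 ( Up2_2 ( Up2_3 ( Up2_4 ( Up2_5 ( Up2_6 ( Up2_7 ( Up2_8 (Chk.nil)))))))))

noncomputable def Up3 : Chk :=
  Up3_0 ( Up3_1 ( Up3_2 ( Up3_3 ( Up3_4 ( Up3_5 ( Up3_6 ( Up3_7 ( Up3_8 ( Up3_9 ( Up3_10 (Chk.nil)))))))))))

noncomputable def Up4 : Chk :=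
  Up4_0 ( Up4_1 ( Up4_2 ( Up4_3 ( Up4_4 ( Up4_5 ( Up4_6 ( Up4_7 ( Up4_8 ( Up4_9 ( Up4_10 ( Up4_11 (Chk.nil))))))))))))

noncomputable def Up5 : Chk :=
  Up5_0 ( Up5_1 ( Up5_2 ( Up5_3 ( Up5_4 ( Up5_5 ( Up5_6 ( Up5_7 ( Up5_8 ( Up5_9 ( Up5_10 ( Up5_11 ( Up5_12 (Chk.nil)))))))))))))

noncomputable def Up6 : Chk :=
  Up6_0 ( Up6_1 ( Up6_2 ( Up6_3 ( Up6_4 ( Up6_5 ( Up6_6 ( Up6_7 ( Up6_8 ( Up6_9 ( Up6_10 ( Up6_11 ( Up6_12 ( Up6_13 (Chk.nil))))))))))))))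

noncomputable def U (p : Nat) : Chk := Tr.get
  (Tr.node (Tr.node (Tr.node (Tr.leaf Up0) (Tr.leaf Up4)) (Tr.node (Tr.leaf Up2) (Tr.leaf Up6)))
  (Tr.node (Tr.node (Tr.leaf Up1) (Tr.leaf Up5)) (Tr.leaf Up3))) p

end Pool.Agent.Work.MP_6bf1e5_an.HD
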