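import Pool.Agent.Work.MP_6bf1e5_an.HD.X
import Pool.Agent.Work.MP_6bf1e5_an.HD.K
import Pool.Agent.Work.MP_6bf1e5_an.HD.La
import Pool.Agent.Work.MP_6bf1e5_an.HD.U
import Pool.Agent.Work.MP_6bf1e5_an.HD.Ta
import Pool.Agent.Work.MP_6bf1e5_an.HD.Tm
import Pool.Agent.Work.MP_6bf1e5_an.HD.MoLL
import Pool.Agent.Work.MP_6bf1e5_an.H.AngT
import Pool.Agent.Work.MP_6bf1e5_an.H.PassDef

/-! The numbers of the pass LL. -/

namespace Pool.Agent.Work.MP_6bf1e5_an.HD

open Pool.Agent.Lib.KLA Pool.Agent.Lib.KBlk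

noncomputable def dLL : H.Ps.Dat :=
  { Am := Am, Ah := Ah, At := At, V := 96, c1 := 105, cT := 456, nm := 0, nh := 0, nt := 0,
    cU := cU, cR := cR, X := X, K := K, La := La, Th := fun _ => Chk.nil,
    R := fun _ => Chk.nil, TP := fun _ => Chk.nil, U := U, Zc := Chk.nil, kX := 4294967296,
    kK := 17179869184, kL := 1099511627776, kT := 0, kR := 0, kP := 0, kU := 17592186044416,
    kZ := 0, sX := 0, sK := 0, sL := 0, sT := 0, sR := 0, sP := 0, sU := 0, sZ := 0 }

noncomputable def pLL : Par :=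
  ⟨192, 13, 207, 13, 5, 5, 47, 622, 9903520314283042199192993792,
    1237940039285380274899124224, 39614081257132168796771975168, 302231454903657293676544, 98,
    82, 99, 4951760157141521099596496896, 309485009821345068724781062, 87,
    1682824740903563811190996992, 1569275433846670190958947355801916604025588861116008628224⟩

noncomputable def fLL : Nat → Nat → Nat → Nat → Nat → Nat → Bool :=
  tchk pLL 96 74276402496026941447227310080 15 18
    ⟨1, 98, 4951760157141521099596496896, true⟩
    H.Ang.T0 H.Ang.T1 H.Ang.dg MoLL Ra Rm Am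
    (H.Ps.tLL dLL 51267502080 80 ⟨50880, 0, 17179869184, false⟩
      ⟨1, 17, 9223372036854775808, true⟩
      ⟨32768, 0, 1099511627776, true⟩)

end Pool.Agent.Work.MP_6bf1e5_an.HD
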