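import Pool.Agent.Work.MP_6bf1e5_an.HD.Lay0
import Pool.Agent.Work.MP_6bf1e5_an.HD.Dt_0

namespace Pool.Agent.Work.MP_6bf1e5_an.HD

open Pool.Agent.Lib.KLA Pool.Agent.Lib.KBlk

noncomputable def Dtt : Tr Vr :=
  (Tr.node (Tr.node (Tr.node (Tr.node (Tr.node (Tr.node (Tr.node (Tr.leaf Vr.nil) (Tr.leaf Dtv64))
  (Tr.leaf Dtv32)) (Tr.node (Tr.leaf Dtv16) (Tr.leaf Dtv48))) (Tr.node (Tr.node (Tr.node (Tr.leaf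
  Dtv8) (Tr.leaf Vr.nil)) (Tr.leaf Dtv40)) (Tr.node (Tr.leaf Dtv24) (Tr.leaf Dtv56)))) (Tr.node
  (Tr.node (Tr.node (Tr.node (Tr.leaf Dtv4) (Tr.leaf Vr.nil)) (Tr.leaf Dtv36)) (Tr.node (Tr.leaf
  Dtv20) (Tr.leaf Dtv52))) (Tr.node (Tr.node (Tr.node (Tr.leaf Dtv12) (Tr.leaf Vr.nil)) (Tr.leaf
  Dtv44)) (Tr.node (Tr.leaf Dtv28) (Tr.leaf Dtv60))))) (Tr.node (Tr.node (Tr.node (Tr.node (Tr.node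
  (Tr.leaf Dtv2) (Tr.leaf Vr.nil)) (Tr.leaf Dtv34)) (Tr.node (Tr.leaf Dtv18) (Tr.leaf Dtv50)))
  (Tr.node (Tr.node (Tr.node (Tr.leaf Dtv10) (Tr.leaf Vr.nil)) (Tr.leaf Dtv42)) (Tr.node (Tr.leaf
  Dtv26) (Tr.leaf Dtv58)))) (Tr.node (Tr.node (Tr.node (Tr.node (Tr.leaf Dtv6) (Tr.leaf Vr.nil))
  (Tr.leaf Dtv38)) (Tr.node (Tr.leaf Dtv22) (Tr.leaf Dtv54))) (Tr.node (Tr.node (Tr.leaf Dtv14)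
  (Tr.leaf Dtv46)) (Tr.node (Tr.leaf Dtv30) (Tr.leaf Dtv62)))))) (Tr.node (Tr.node (Tr.node
  (Tr.node (Tr.node (Tr.node (Tr.leaf Vr.nil) (Tr.leaf Dtv65)) (Tr.leaf Dtv33)) (Tr.node (Tr.leaf
  Dtv17) (Tr.leaf Dtv49))) (Tr.node (Tr.node (Tr.node (Tr.leaf Dtv9) (Tr.leaf Vr.nil)) (Tr.leaf
  Dtv41)) (Tr.node (Tr.leaf Dtv25) (Tr.leaf Dtv57)))) (Tr.node (Tr.node (Tr.node (Tr.node (Tr.leaf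
  Dtv5) (Tr.leaf Vr.nil)) (Tr.leaf Dtv37)) (Tr.node (Tr.leaf Dtv21) (Tr.leaf Dtv53))) (Tr.node
  (Tr.node (Tr.node (Tr.leaf Dtv13) (Tr.leaf Vr.nil)) (Tr.leaf Dtv45)) (Tr.node (Tr.leaf Dtv29)
  (Tr.leaf Dtv61))))) (Tr.node (Tr.node (Tr.node (Tr.node (Tr.node (Tr.leaf Dtv3) (Tr.leaf Vr.nil))
  (Tr.leaf Dtv35)) (Tr.node (Tr.leaf Dtv19) (Tr.leaf Dtv51))) (Tr.node (Tr.node (Tr.node (Tr.leaf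
  Dtv11) (Tr.leaf Vr.nil)) (Tr.leaf Dtv43)) (Tr.node (Tr.leaf Dtv27) (Tr.leaf Dtv59)))) (Tr.node
  (Tr.node (Tr.node (Tr.node (Tr.leaf Dtv7) (Tr.leaf Vr.nil)) (Tr.leaf Dtv39)) (Tr.node (Tr.leaf
  Dtv23) (Tr.leaf Dtv55))) (Tr.node (Tr.node (Tr.leaf Dtv15) (Tr.leaf Dtv47)) (Tr.node (Tr.leaf
  Dtv31) (Tr.leaf Dtv63)))))))

noncomputable def Dt (b c : Nat) : Rows :=
  vld 96 48 (jm b c) 5 (Tr.get Dtt (Nat.add (Nat.mul 2 b) c))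

end Pool.Agent.Work.MP_6bf1e5_an.HD
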