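import Pool.Agent.Work.MP_6bf1e5_an.H.MoFam
import Pool.Agent.Work.MP_6bf1e5_an.HD.MoDt18
import Pool.Agent.Work.MP_6bf1e5_an.HD.MoDt19
import Pool.Agent.Work.MP_6bf1e5_an.HD.MoDt20
import Pool.Agent.Work.MP_6bf1e5_an.HD.MoDt21
import Pool.Agent.Work.MP_6bf1e5_an.HD.MoDt22
import Pool.Agent.Work.MP_6bf1e5_an.HD.MoDt23

/-! The moment tables of one pass (owner helper64). -/

namespace Pool.Agent.Work.MP_6bf1e5_an.HD

open Pool.Agent.Lib.KLA Pool.Agent.Lib.KBlk H.Mw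

noncomputable def tMM : Tr (Nat × Vr) :=
  (Tr.node (Tr.node (Tr.node (Tr.node (Tr.node (Tr.node (Tr.leaf (1, m79)) (Tr.leaf (1, m93)))
  (Tr.leaf (1, m92))) (Tr.node (Tr.leaf (1, m86)) (Tr.leaf (1, m83)))) (Tr.node (Tr.node (Tr.leaf
  (1, m83)) (Tr.leaf (1, m91))) (Tr.node (Tr.leaf (1, m81)) (Tr.leaf (1, m97))))) (Tr.node
  (Tr.node (Tr.node (Tr.node (Tr.leaf (1, m81)) (Tr.leaf (1, m98))) (Tr.leaf (1, m82))) (Tr.node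
  (Tr.leaf (1, m88)) (Tr.leaf (1, m92)))) (Tr.node (Tr.node (Tr.leaf (1, m80)) (Tr.leaf (1, m95)))
  (Tr.node (Tr.leaf (1, m90)) (Tr.leaf (1, m84)))))) (Tr.node (Tr.node (Tr.node (Tr.node (Tr.node
  (Tr.leaf (1, m80)) (Tr.leaf (1, m96))) (Tr.leaf (1, m93))) (Tr.node (Tr.leaf (1, m87)) (Tr.leaf
  (1, m88)))) (Tr.node (Tr.node (Tr.leaf (1, m84)) (Tr.leaf (1, m94))) (Tr.node (Tr.leaf (1, m86))
  (Tr.leaf (1, m98))))) (Tr.node (Tr.node (Tr.node (Tr.node (Tr.leaf (1, m82)) (Tr.leaf (1, m99)))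
  (Tr.leaf (1, m87))) (Tr.node (Tr.leaf (1, m89)) (Tr.leaf (1, m95)))) (Tr.node (Tr.node (Tr.leaf
  (1, m85)) (Tr.leaf (1, m96))) (Tr.node (Tr.leaf (1, m91)) (Tr.leaf (1, m89)))))))

noncomputable def MoMM (c s b : Nat) : Rows := fam 77 (tMM.get (ixe c s b))

end Pool.Agent.Work.MP_6bf1e5_an.HD
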