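import Pool.Agent.Lib.KBlk.Vr
import Pool.Agent.Work.MP_6bf1e5_an.HD.R_0
import Pool.Agent.Work.MP_6bf1e5_an.HD.R_1
import Pool.Agent.Work.MP_6bf1e5_an.HD.R_2
import Pool.Agent.Work.MP_6bf1e5_an.HD.R_3
import Pool.Agent.Work.MP_6bf1e5_an.HD.R_4
import Pool.Agent.Work.MP_6bf1e5_an.HD.R_5

namespace Pool.Agent.Work.MP_6bf1e5_an.HD

open Pool.Agent.Lib.KLA Pool.Agent.Lib.KBlk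

noncomputable def Rp0 : Chk :=
  Rp0_0 ( Rp0_1 ( Rp0_2 ( Rp0_3 ( Rp0_4 ( Rp0_5 ( Rp0_6 (Chk.nil)))))))

noncomputable def Rp1 : Chk :=
  Rp1_0 ( Rp1_1 ( Rp1_2 ( Rp1_3 ( Rp1_4 ( Rp1_5 ( Rp1_6 ( Rp1_7 ( Rp1_8 ( Rp1_9 (Chk.nil))))))))))

noncomputable def Rp2 : Chk :=
  Rp2_0 ( Rp2_1 ( Rp2_2 ( Rp2_3 ( Rp2_4 ( Rp2_5 ( Rp2_6 ( Rp2_7 ( Rp2_8 ( Rp2_9 ( Rp2_10 ( Rp2_11 ( Rp2_12 (Chk.nil)))))))))))))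

noncomputable def Rp3 : Chk :=
  Rp3_0 ( Rp3_1 ( Rp3_2 ( Rp3_3 ( Rp3_4 ( Rp3_5 ( Rp3_6 ( Rp3_7 ( Rp3_8 ( Rp3_9 ( Rp3_10 ( Rp3_11 ( Rp3_12 ( Rp3_13 ( Rp3_14 (Chk.nil)))))))))))))))

noncomputable def Rp4 : Chk :=
  Rp4_0 ( Rp4_1 ( Rp4_2 ( Rp4_3 ( Rp4_4 ( Rp4_5 ( Rp4_6 ( Rp4_7 ( Rp4_8 ( Rp4_9 ( Rp4_10 ( Rp4_11 ( Rp4_12 ( Rp4_13 ( Rp4_14 ( Rp4_15 ( Rp4_16 (Chk.nil)))))))))))))))))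

noncomputable def Rp5 : Chk :=
  Rp5_0 ( Rp5_1 ( Rp5_2 ( Rp5_3 ( Rp5_4 ( Rp5_5 ( Rp5_6 ( Rp5_7 ( Rp5_8 ( Rp5_9 ( Rp5_10 ( Rp5_11 ( Rp5_12 ( Rp5_13 ( Rp5_14 ( Rp5_15 ( Rp5_16 ( Rp5_17 (Chk.nil))))))))))))))))))

noncomputable def Rp6 : Chk :=
  Rp6_0 ( Rp6_1 ( Rp6_2 ( Rp6_3 ( Rp6_4 ( Rp6_5 ( Rp6_6 ( Rp6_7 ( Rp6_8 ( Rp6_9 ( Rp6_10 ( Rp6_11 ( Rp6_12 ( Rp6_13 ( Rp6_14 ( Rp6_15 ( Rp6_16 ( Rp6_17 ( Rp6_18 (Chk.nil)))))))))))))))))))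

noncomputable def Rp7 : Chk :=
  Rp7_0 ( Rp7_1 ( Rp7_2 ( Rp7_3 ( Rp7_4 ( Rp7_5 ( Rp7_6 ( Rp7_7 ( Rp7_8 ( Rp7_9 ( Rp7_10 ( Rp7_11 ( Rp7_12 ( Rp7_13 ( Rp7_14 ( Rp7_15 ( Rp7_16 ( Rp7_17 ( Rp7_18 (Chk.nil)))))))))))))))))))

noncomputable def R (p : Nat) : Chk := Tr.get
  (Tr.node (Tr.node (Tr.node (Tr.leaf Rp0) (Tr.leaf Rp4)) (Tr.node (Tr.leaf Rp2) (Tr.leaf Rp6)))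
  (Tr.node (Tr.node (Tr.leaf Rp1) (Tr.leaf Rp5)) (Tr.node (Tr.leaf Rp3) (Tr.leaf Rp7)))) p

end Pool.Agent.Work.MP_6bf1e5_an.HD
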