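import Pool.Agent.Lib.KBlk.Vr
import Pool.Agent.Work.MP_6bf1e5_an.HD.Th_0
import Pool.Agent.Work.MP_6bf1e5_an.HD.Th_1
import Pool.Agent.Work.MP_6bf1e5_an.HD.Th_2
import Pool.Agent.Work.MP_6bf1e5_an.HD.Th_3
import Pool.Agent.Work.MP_6bf1e5_an.HD.Th_4
import Pool.Agent.Work.MP_6bf1e5_an.HD.Th_5
import Pool.Agent.Work.MP_6bf1e5_an.HD.Th_6
import Pool.Agent.Work.MP_6bf1e5_an.HD.Th_7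
import Pool.Agent.Work.MP_6bf1e5_an.HD.Th_8
import Pool.Agent.Work.MP_6bf1e5_an.HD.Th_9
import Pool.Agent.Work.MP_6bf1e5_an.HD.Th_10
import Pool.Agent.Work.MP_6bf1e5_an.HD.Th_11
import Pool.Agent.Work.MP_6bf1e5_an.HD.Th_12
import Pool.Agent.Work.MP_6bf1e5_an.HD.Th_13
import Pool.Agent.Work.MP_6bf1e5_an.HD.Th_14
import Pool.Agent.Work.MP_6bf1e5_an.HD.Th_15
import Pool.Agent.Work.MP_6bf1e5_an.HD.Th_16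
import Pool.Agent.Work.MP_6bf1e5_an.HD.Th_17
import Pool.Agent.Work.MP_6bf1e5_an.HD.Th_18
import Pool.Agent.Work.MP_6bf1e5_an.HD.Th_19
import Pool.Agent.Work.MP_6bf1e5_an.HD.Th_20
import Pool.Agent.Work.MP_6bf1e5_an.HD.Th_21
import Pool.Agent.Work.MP_6bf1e5_an.HD.Th_22
import Pool.Agent.Work.MP_6bf1e5_an.HD.Th_23
import Pool.Agent.Work.MP_6bf1e5_an.HD.Th_24
import Pool.Agent.Work.MP_6bf1e5_an.HD.Th_25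
import Pool.Agent.Work.MP_6bf1e5_an.HD.Th_26
import Pool.Agent.Work.MP_6bf1e5_an.HD.Th_27
import Pool.Agent.Work.MP_6bf1e5_an.HD.Th_28
import Pool.Agent.Work.MP_6bf1e5_an.HD.Th_29
import Pool.Agent.Work.MP_6bf1e5_an.HD.Th_30

namespace Pool.Agent.Work.MP_6bf1e5_an.HD

open Pool.Agent.Lib.KLA Pool.Agent.Lib.KBlk

noncomputable def Thp0_t1 : Chk :=
  Thp0_32 ( Thp0_33 ( Thp0_34 ( Thp0_35 ( Thp0_36 ( Thp0_37 ( Thp0_38 ( Thp0_39 ( Thp0_40 ( Thp0_41 ( Thp0_42 ( Thp0_43 ( Thp0_44 ( Thp0_45 ( Thp0_46 ( Thp0_47 ( Thp0_48 ( Thp0_49 ( Thp0_50 ( Thp0_51 ( Thp0_52 ( Thp0_53 ( Thp0_54 ( Thp0_55 ( Thp0_56 (Chk.nil)))))))))))))))))))))))))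

noncomputable def Thp0 : Chk :=
  Thp0_0 ( Thp0_1 ( Thp0_2 ( Thp0_3 ( Thp0_4 ( Thp0_5 ( Thp0_6 ( Thp0_7 ( Thp0_8 ( Thp0_9 ( Thp0_10 ( Thp0_11 ( Thp0_12 ( Thp0_13 ( Thp0_14 ( Thp0_15 ( Thp0_16 ( Thp0_17 ( Thp0_18 ( Thp0_19 ( Thp0_20 ( Thp0_21 ( Thp0_22 ( Thp0_23 ( Thp0_24 ( Thp0_25 ( Thp0_26 ( Thp0_27 ( Thp0_28 ( Thp0_29 ( Thp0_30 ( Thp0_31 (Thp0_t1))))))))))))))))))))))))))))))))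

noncomputable def Thp1_t1 : Chk :=
  Thp1_32 ( Thp1_33 ( Thp1_34 ( Thp1_35 ( Thp1_36 ( Thp1_37 ( Thp1_38 ( Thp1_39 ( Thp1_40 ( Thp1_41 ( Thp1_42 ( Thp1_43 ( Thp1_44 ( Thp1_45 ( Thp1_46 ( Thp1_47 ( Thp1_48 ( Thp1_49 ( Thp1_50 ( Thp1_51 ( Thp1_52 ( Thp1_53 ( Thp1_54 ( Thp1_55 ( Thp1_56 (Chk.nil)))))))))))))))))))))))))

noncomputable def Thp1 : Chk :=
  Thp1_0 ( Thp1_1 ( Thp1_2 ( Thp1_3 ( Thp1_4 ( Thp1_5 ( Thp1_6 ( Thp1_7 ( Thp1_8 ( Thp1_9 ( Thp1_10 ( Thp1_11 ( Thp1_12 ( Thp1_13 ( Thp1_14 ( Thp1_15 ( Thp1_16 ( Thp1_17 ( Thp1_18 ( Thp1_19 ( Thp1_20 ( Thp1_21 ( Thp1_22 ( Thp1_23 ( Thp1_24 ( Thp1_25 ( Thp1_26 ( Thp1_27 ( Thp1_28 ( Thp1_29 ( Thp1_30 ( Thp1_31 (Thp1_t1))))))))))))))))))))))))))))))))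

noncomputable def Thp2_t1 : Chk :=
  Thp2_32 ( Thp2_33 ( Thp2_34 ( Thp2_35 ( Thp2_36 ( Thp2_37 ( Thp2_38 ( Thp2_39 ( Thp2_40 ( Thp2_41 ( Thp2_42 ( Thp2_43 ( Thp2_44 ( Thp2_45 ( Thp2_46 ( Thp2_47 ( Thp2_48 ( Thp2_49 ( Thp2_50 ( Thp2_51 ( Thp2_52 ( Thp2_53 ( Thp2_54 ( Thp2_55 ( Thp2_56 (Chk.nil)))))))))))))))))))))))))

noncomputable def Thp2 : Chk :=
  Thp2_0 ( Thp2_1 ( Thp2_2 ( Thp2_3 ( Thp2_4 ( Thp2_5 ( Thp2_6 ( Thp2_7 ( Thp2_8 ( Thp2_9 ( Thp2_10 ( Thp2_11 ( Thp2_12 ( Thp2_13 ( Thp2_14 ( Thp2_15 ( Thp2_16 ( Thp2_17 ( Thp2_18 ( Thp2_19 ( Thp2_20 ( Thp2_21 ( Thp2_22 ( Thp2_23 ( Thp2_24 ( Thp2_25 ( Thp2_26 ( Thp2_27 ( Thp2_28 ( Thp2_29 ( Thp2_30 ( Thp2_31 (Thp2_t1))))))))))))))))))))))))))))))))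

noncomputable def Thp3_t1 : Chk :=
  Thp3_32 ( Thp3_33 ( Thp3_34 ( Thp3_35 ( Thp3_36 ( Thp3_37 ( Thp3_38 ( Thp3_39 ( Thp3_40 ( Thp3_41 ( Thp3_42 ( Thp3_43 ( Thp3_44 ( Thp3_45 ( Thp3_46 ( Thp3_47 ( Thp3_48 ( Thp3_49 ( Thp3_50 ( Thp3_51 ( Thp3_52 ( Thp3_53 ( Thp3_54 ( Thp3_55 ( Thp3_56 (Chk.nil)))))))))))))))))))))))))

noncomputable def Thp3 : Chk :=
  Thp3_0 ( Thp3_1 ( Thp3_2 ( Thp3_3 ( Thp3_4 ( Thp3_5 ( Thp3_6 ( Thp3_7 ( Thp3_8 ( Thp3_9 ( Thp3_10 ( Thp3_11 ( Thp3_12 ( Thp3_13 ( Thp3_14 ( Thp3_15 ( Thp3_16 ( Thp3_17 ( Thp3_18 ( Thp3_19 ( Thp3_20 ( Thp3_21 ( Thp3_22 ( Thp3_23 ( Thp3_24 ( Thp3_25 ( Thp3_26 ( Thp3_27 ( Thp3_28 ( Thp3_29 ( Thp3_30 ( Thp3_31 (Thp3_t1))))))))))))))))))))))))))))))))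

noncomputable def Thp4_t1 : Chk :=
  Thp4_32 ( Thp4_33 ( Thp4_34 ( Thp4_35 ( Thp4_36 ( Thp4_37 ( Thp4_38 ( Thp4_39 ( Thp4_40 ( Thp4_41 ( Thp4_42 ( Thp4_43 ( Thp4_44 ( Thp4_45 ( Thp4_46 ( Thp4_47 ( Thp4_48 ( Thp4_49 ( Thp4_50 ( Thp4_51 ( Thp4_52 ( Thp4_53 ( Thp4_54 ( Thp4_55 ( Thp4_56 (Chk.nil)))))))))))))))))))))))))

noncomputable def Thp4 : Chk :=
  Thp4_0 ( Thp4_1 ( Thp4_2 ( Thp4_3 ( Thp4_4 ( Thp4_5 ( Thp4_6 ( Thp4_7 ( Thp4_8 ( Thp4_9 ( Thp4_10 ( Thp4_11 ( Thp4_12 ( Thp4_13 ( Thp4_14 ( Thp4_15 ( Thp4_16 ( Thp4_17 ( Thp4_18 ( Thp4_19 ( Thp4_20 ( Thp4_21 ( Thp4_22 ( Thp4_23 ( Thp4_24 ( Thp4_25 ( Thp4_26 ( Thp4_27 ( Thp4_28 ( Thp4_29 ( Thp4_30 ( Thp4_31 (Thp4_t1))))))))))))))))))))))))))))))))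

noncomputable def Thp5_t1 : Chk :=
  Thp5_32 ( Thp5_33 ( Thp5_34 ( Thp5_35 ( Thp5_36 ( Thp5_37 ( Thp5_38 ( Thp5_39 ( Thp5_40 ( Thp5_41 ( Thp5_42 ( Thp5_43 ( Thp5_44 ( Thp5_45 ( Thp5_46 ( Thp5_47 ( Thp5_48 ( Thp5_49 ( Thp5_50 ( Thp5_51 ( Thp5_52 ( Thp5_53 ( Thp5_54 ( Thp5_55 ( Thp5_56 (Chk.nil)))))))))))))))))))))))))

noncomputable def Thp5 : Chk :=
  Thp5_0 ( Thp5_1 ( Thp5_2 ( Thp5_3 ( Thp5_4 ( Thp5_5 ( Thp5_6 ( Thp5_7 ( Thp5_8 ( Thp5_9 ( Thp5_10 ( Thp5_11 ( Thp5_12 ( Thp5_13 ( Thp5_14 ( Thp5_15 ( Thp5_16 ( Thp5_17 ( Thp5_18 ( Thp5_19 ( Thp5_20 ( Thp5_21 ( Thp5_22 ( Thp5_23 ( Thp5_24 ( Thp5_25 ( Thp5_26 ( Thp5_27 ( Thp5_28 ( Thp5_29 ( Thp5_30 ( Thp5_31 (Thp5_t1))))))))))))))))))))))))))))))))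

noncomputable def Thp6_t1 : Chk :=
  Thp6_32 ( Thp6_33 ( Thp6_34 ( Thp6_35 ( Thp6_36 ( Thp6_37 ( Thp6_38 ( Thp6_39 ( Thp6_40 ( Thp6_41 ( Thp6_42 ( Thp6_43 ( Thp6_44 ( Thp6_45 ( Thp6_46 ( Thp6_47 ( Thp6_48 ( Thp6_49 ( Thp6_50 ( Thp6_51 ( Thp6_52 ( Thp6_53 ( Thp6_54 ( Thp6_55 ( Thp6_56 (Chk.nil)))))))))))))))))))))))))

noncomputable def Thp6 : Chk :=
  Thp6_0 ( Thp6_1 ( Thp6_2 ( Thp6_3 ( Thp6_4 ( Thp6_5 ( Thp6_6 ( Thp6_7 ( Thp6_8 ( Thp6_9 ( Thp6_10 ( Thp6_11 ( Thp6_12 ( Thp6_13 ( Thp6_14 ( Thp6_15 ( Thp6_16 ( Thp6_17 ( Thp6_18 ( Thp6_19 ( Thp6_20 ( Thp6_21 ( Thp6_22 ( Thp6_23 ( Thp6_24 ( Thp6_25 ( Thp6_26 ( Thp6_27 ( Thp6_28 ( Thp6_29 ( Thp6_30 ( Thp6_31 (Thp6_t1))))))))))))))))))))))))))))))))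

noncomputable def Thp7_t1 : Chk :=
  Thp7_32 ( Thp7_33 ( Thp7_34 ( Thp7_35 ( Thp7_36 ( Thp7_37 ( Thp7_38 ( Thp7_39 ( Thp7_40 ( Thp7_41 ( Thp7_42 ( Thp7_43 ( Thp7_44 ( Thp7_45 ( Thp7_46 ( Thp7_47 ( Thp7_48 ( Thp7_49 ( Thp7_50 ( Thp7_51 ( Thp7_52 ( Thp7_53 ( Thp7_54 ( Thp7_55 ( Thp7_56 (Chk.nil)))))))))))))))))))))))))

noncomputable def Thp7 : Chk :=
  Thp7_0 ( Thp7_1 ( Thp7_2 ( Thp7_3 ( Thp7_4 ( Thp7_5 ( Thp7_6 ( Thp7_7 ( Thp7_8 ( Thp7_9 ( Thp7_10 ( Thp7_11 ( Thp7_12 ( Thp7_13 ( Thp7_14 ( Thp7_15 ( Thp7_16 ( Thp7_17 ( Thp7_18 ( Thp7_19 ( Thp7_20 ( Thp7_21 ( Thp7_22 ( Thp7_23 ( Thp7_24 ( Thp7_25 ( Thp7_26 ( Thp7_27 ( Thp7_28 ( Thp7_29 ( Thp7_30 ( Thp7_31 (Thp7_t1))))))))))))))))))))))))))))))))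

noncomputable def Th (p : Nat) : Chk := Tr.get
  (Tr.node (Tr.node (Tr.node (Tr.leaf Thp0) (Tr.leaf Thp4)) (Tr.node (Tr.leaf Thp2) (Tr.leaf
  Thp6))) (Tr.node (Tr.node (Tr.leaf Thp1) (Tr.leaf Thp5)) (Tr.node (Tr.leaf Thp3) (Tr.leaf
  Thp7)))) p

end Pool.Agent.Work.MP_6bf1e5_an.HD
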