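import Pool.Agent.Work.MP_6bf1e5_an.HD.X
import Pool.Agent.Work.MP_6bf1e5_an.HD.La
import Pool.Agent.Work.MP_6bf1e5_an.HD.Th
import Pool.Agent.Work.MP_6bf1e5_an.HD.R
import Pool.Agent.Work.MP_6bf1e5_an.HD.Tm
import Pool.Agent.Work.MP_6bf1e5_an.HD.Dt
import Pool.Agent.Work.MP_6bf1e5_an.HD.MoMM
import Pool.Agent.Work.MP_6bf1e5_an.H.AngT
import Pool.Agent.Work.MP_6bf1e5_an.H.PassDef

/-! The numbers of the pass MM. -/

namespace Pool.Agent.Work.MP_6bf1e5_an.HD

open Pool.Agent.Lib.KLA Pool.Agent.Lib.KBlk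

noncomputable def dMM : H.Ps.Dat :=
  { Am := Am, Ah := Ah, At := At, V := 96, c1 := 105, cT := 456, nm := 0, nh := 0, nt := 0,
    cU := cU, cR := cR, X := X, K := fun _ => Chk.nil, La := La, Th := Th, R := R,
    TP := fun _ => Chk.nil, U := fun _ => Chk.nil, Zc := Chk.nil, kX := 4294967296, kK := 0,
    kL := 1099511627776, kT := 4294967296, kR := 134217728, kP := 0, kU := 0, kZ := 0,
    sX := 0, sK := 0, sL := 0, sT := 0, sR := 0, sP := 0, sU := 0, sZ := 0 }

noncomputable def pMM : Par :=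
  ⟨192, 13, 207, 13, 5, 5, 47, 622, 1237940039285380274899124224,
    1237940039285380274899124224, 39614081257132168796771975168, 75557863725914323419136, 98,
    71, 100, 4951760157141521099596496896, 158456325028528675187087903744, 94,
    1044511908147039606946136064, 1569275433846670190958947355801916604025588861116008628224⟩

noncomputable def fMM : Nat → Nat → Nat → Nat → Nat → Nat → Bool :=
  tchk pMM 96 44565841440870807427828678656 9 20
    ⟨1, 98, 4951760157141521099596496896, false⟩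
    H.Ang.T0 H.Ang.T1 H.Ang.dg MoMM Rm Rm Am
    (H.Ps.tMM dMM 2952790016 69 76 68 ⟨795, 7, 1099511627776, false⟩
      ⟨4194293, 35, 17179869184, false⟩
      ⟨1, 16, 1152921504606846976, false⟩
      ⟨1, 9, 576460752303423488, true⟩ Dt)

end Pool.Agent.Work.MP_6bf1e5_an.HD
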