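import Pool.Agent.Work.MP_6bf1e5_an.H.MoFam
import Pool.Agent.Work.MP_6bf1e5_an.HD.MoDt8
import Pool.Agent.Work.MP_6bf1e5_an.HD.MoDt9
import Pool.Agent.Work.MP_6bf1e5_an.HD.MoDt10

/-! The moment tables of one pass (owner helper64). -/

namespace Pool.Agent.Work.MP_6bf1e5_an.HD

open Pool.Agent.Lib.KLA Pool.Agent.Lib.KBlk H.Mw

noncomputable def tPP : Tr (Nat × Vr) :=
  (Tr.node (Tr.node (Tr.node (Tr.node (Tr.node (Tr.node (Tr.leaf (1, m40)) (Tr.leaf (0, Vr.nil)))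
  (Tr.leaf (1, m47))) (Tr.node (Tr.leaf (1, m44)) (Tr.leaf (1, m42)))) (Tr.node (Tr.node (Tr.leaf
  (1, m42)) (Tr.leaf (1, m46))) (Tr.node (Tr.leaf (1, m41)) (Tr.leaf (1, m50))))) (Tr.node
  (Tr.node (Tr.node (Tr.node (Tr.leaf (1, m41)) (Tr.leaf (2, m44))) (Tr.leaf (0, Vr.nil)))
  (Tr.node (Tr.leaf (0, Vr.nil)) (Tr.leaf (1, m47)))) (Tr.node (Tr.node (Tr.leaf (0, Vr.nil))
  (Tr.leaf (1, m49))) (Tr.node (Tr.leaf (1, m45)) (Tr.leaf (0, Vr.nil)))))) (Tr.node (Tr.node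
  (Tr.node (Tr.node (Tr.node (Tr.leaf (0, Vr.nil)) (Tr.leaf (2, m41))) (Tr.leaf (0, Vr.nil)))
  (Tr.node (Tr.leaf (2, m42)) (Tr.leaf (0, Vr.nil)))) (Tr.node (Tr.node (Tr.leaf (0, Vr.nil))
  (Tr.leaf (1, m48))) (Tr.node (Tr.leaf (1, m44)) (Tr.leaf (2, m44))))) (Tr.node (Tr.node (Tr.node
  (Tr.node (Tr.leaf (0, Vr.nil)) (Tr.leaf (1, m51))) (Tr.leaf (2, m42))) (Tr.node (Tr.leaf (0,
  Vr.nil)) (Tr.leaf (1, m49)))) (Tr.node (Tr.node (Tr.leaf (1, m43)) (Tr.leaf (2, m41))) (Tr.node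
  (Tr.leaf (1, m46)) (Tr.leaf (0, Vr.nil)))))))

noncomputable def MoPP (c s b : Nat) : Rows := fam 84 (tPP.get (ixe c s b))

end Pool.Agent.Work.MP_6bf1e5_an.HD
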