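import Pool.Agent.Work.MP_6bf1e5_an.HD.U
import Pool.Agent.Work.MP_6bf1e5_an.HD.Ta
import Pool.Agent.Work.MP_6bf1e5_an.HD.MoPP
import Pool.Agent.Work.MP_6bf1e5_an.H.AngT
import Pool.Agent.Work.MP_6bf1e5_an.H.PassPD

/-! The numbers of the pass PP. -/

namespace Pool.Agent.Work.MP_6bf1e5_an.HD

open Pool.Agent.Lib.KLA Pool.Agent.Lib.KBlk

noncomputable def dPP : H.Ps.Dat :=
  { Am := Am, Ah := Ah, At := At, V := 96, c1 := 105, cT := 456, nm := 0, nh := 0, nt := 0,
    cU := cU, cR := cR, X := fun _ => Chk.nil, K := fun _ => Chk.nil, La := fun _ => Chk.nil,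
    Th := fun _ => Chk.nil, R := fun _ => Chk.nil, TP := fun _ => Chk.nil, U := U,
    Zc := Chk.nil, kX := 0, kK := 0, kL := 0, kT := 0, kR := 0, kP := 0, kU := 17592186044416,
    kZ := 0, sX := 0, sK := 0, sL := 0, sT := 0, sR := 0, sP := 0, sU := 0, sZ := 0 }

noncomputable def pPP : Par :=
  ⟨192, 13, 207, 13, 5, 5, 47, 622, 9903520314283042199192993792,
    9903520314283042199192993792, 39614081257132168796771975168, 9671406556917033397649408,
    98, 87, 102, 4951760157141521099596496896, 309485009821345068724781062, 87,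
    210353092612945476398874624, 1569275433846670190958947355801916604025588861116008628224⟩

noncomputable def fPP : Nat → Nat → Nat → Nat → Nat → Nat → Bool :=
  tchk pPP 96 74276402358203680404516372480 15 15
    ⟨1, 98, 4951760157141521099596496896, false⟩
    H.Ang.T0 H.Ang.T1 H.Ang.dg MoPP Ra Ra Ah
    (H.Ps.tPP dPP ⟨2048, 0, 17592186044416, true⟩)

noncomputable def fUP : Bool :=
  H.Ps.upad { dPP with nh := 7 } 0 ⟨4, 0, 17592186044416, false⟩

end Pool.Agent.Work.MP_6bf1e5_an.HD
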