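import Pool.Agent.Work.MP_6bf1e5_an.H.MoFam
import Pool.Agent.Work.MP_6bf1e5_an.HD.MoDt2
import Pool.Agent.Work.MP_6bf1e5_an.HD.MoDt3
import Pool.Agent.Work.MP_6bf1e5_an.HD.MoDt4
import Pool.Agent.Work.MP_6bf1e5_an.HD.MoDt5
import Pool.Agent.Work.MP_6bf1e5_an.HD.MoDt6

/-! The moment tables of one pass (owner helper64). -/

namespace Pool.Agent.Work.MP_6bf1e5_an.HD

open Pool.Agent.Lib.KLA Pool.Agent.Lib.KBlk H.Mw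

noncomputable def tT0 : Tr (Nat × Vr) :=
  (Tr.node (Tr.node (Tr.node (Tr.node (Tr.node (Tr.node (Tr.leaf (1, m10)) (Tr.leaf (1, m30)))
  (Tr.leaf (0, Vr.nil))) (Tr.node (Tr.leaf (1, m17)) (Tr.leaf (1, m27)))) (Tr.node (Tr.node
  (Tr.leaf (1, m14)) (Tr.leaf (0, Vr.nil))) (Tr.node (Tr.leaf (1, m21)) (Tr.leaf (0, Vr.nil)))))
  (Tr.node (Tr.node (Tr.node (Tr.node (Tr.leaf (1, m12)) (Tr.leaf (1, m32))) (Tr.leaf (1, m24)))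
  (Tr.node (Tr.leaf (1, m19)) (Tr.leaf (0, Vr.nil)))) (Tr.node (Tr.node (Tr.leaf (1, m11))
  (Tr.leaf (0, Vr.nil))) (Tr.node (Tr.leaf (0, Vr.nil)) (Tr.leaf (1, m15)))))) (Tr.node (Tr.node
  (Tr.node (Tr.node (Tr.node (Tr.leaf (1, m11)) (Tr.leaf (1, m31))) (Tr.leaf (1, m23))) (Tr.node
  (Tr.leaf (1, m18)) (Tr.leaf (1, m28)))) (Tr.node (Tr.node (Tr.leaf (1, m15)) (Tr.leaf (0,
  Vr.nil))) (Tr.node (Tr.leaf (1, m22)) (Tr.leaf (1, m29))))) (Tr.node (Tr.node (Tr.node (Tr.node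
  (Tr.leaf (1, m13)) (Tr.leaf (1, m33))) (Tr.leaf (1, m25))) (Tr.node (Tr.leaf (1, m20)) (Tr.leaf
  (0, Vr.nil)))) (Tr.node (Tr.node (Tr.leaf (1, m16)) (Tr.leaf (1, m26))) (Tr.node (Tr.leaf (0,
  Vr.nil)) (Tr.leaf (1, m20)))))))

noncomputable def MoT0 (c s b : Nat) : Rows := fam 79 (tT0.get (ixe c s b))

end Pool.Agent.Work.MP_6bf1e5_an.HD
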