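import Pool.Agent.Lib.KBlk.Vr
import Pool.Agent.Work.MP_6bf1e5_an.HD.TP_0
import Pool.Agent.Work.MP_6bf1e5_an.HD.TP_1
import Pool.Agent.Work.MP_6bf1e5_an.HD.TP_2
import Pool.Agent.Work.MP_6bf1e5_an.HD.TP_3
import Pool.Agent.Work.MP_6bf1e5_an.HD.TP_4
import Pool.Agent.Work.MP_6bf1e5_an.HD.TP_5
import Pool.Agent.Work.MP_6bf1e5_an.HD.TP_6
import Pool.Agent.Work.MP_6bf1e5_an.HD.TP_7
import Pool.Agent.Work.MP_6bf1e5_an.HD.TP_8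
import Pool.Agent.Work.MP_6bf1e5_an.HD.TP_9
import Pool.Agent.Work.MP_6bf1e5_an.HD.TP_10
import Pool.Agent.Work.MP_6bf1e5_an.HD.TP_11
import Pool.Agent.Work.MP_6bf1e5_an.HD.TP_12
import Pool.Agent.Work.MP_6bf1e5_an.HD.TP_13
import Pool.Agent.Work.MP_6bf1e5_an.HD.TP_14
import Pool.Agent.Work.MP_6bf1e5_an.HD.TP_15
import Pool.Agent.Work.MP_6bf1e5_an.HD.TP_16
import Pool.Agent.Work.MP_6bf1e5_an.HD.TP_17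
import Pool.Agent.Work.MP_6bf1e5_an.HD.TP_18
import Pool.Agent.Work.MP_6bf1e5_an.HD.TP_19
import Pool.Agent.Work.MP_6bf1e5_an.HD.TP_20
import Pool.Agent.Work.MP_6bf1e5_an.HD.TP_21
import Pool.Agent.Work.MP_6bf1e5_an.HD.TP_22
import Pool.Agent.Work.MP_6bf1e5_an.HD.TP_23
import Pool.Agent.Work.MP_6bf1e5_an.HD.TP_24
import Pool.Agent.Work.MP_6bf1e5_an.HD.TP_25
import Pool.Agent.Work.MP_6bf1e5_an.HD.TP_26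
import Pool.Agent.Work.MP_6bf1e5_an.HD.TP_27
import Pool.Agent.Work.MP_6bf1e5_an.HD.TP_28
import Pool.Agent.Work.MP_6bf1e5_an.HD.TP_29
import Pool.Agent.Work.MP_6bf1e5_an.HD.TP_30
import Pool.Agent.Work.MP_6bf1e5_an.HD.TP_31
import Pool.Agent.Work.MP_6bf1e5_an.HD.TP_32
import Pool.Agent.Work.MP_6bf1e5_an.HD.TP_33
import Pool.Agent.Work.MP_6bf1e5_an.HD.TP_34
import Pool.Agent.Work.MP_6bf1e5_an.HD.TP_35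
import Pool.Agent.Work.MP_6bf1e5_an.HD.TP_36
import Pool.Agent.Work.MP_6bf1e5_an.HD.TP_37
import Pool.Agent.Work.MP_6bf1e5_an.HD.TP_38

namespace Pool.Agent.Work.MP_6bf1e5_an.HD

open Pool.Agent.Lib.KLA Pool.Agent.Lib.KBlk

noncomputable def TPp0 : Chk :=
  TPp0_0 ( TPp0_1 ( TPp0_2 ( TPp0_3 ( TPp0_4 ( TPp0_5 ( TPp0_6 ( TPp0_7 ( TPp0_8 ( TPp0_9 ( TPp0_10 ( TPp0_11 ( TPp0_12 ( TPp0_13 (Chk.nil))))))))))))))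

noncomputable def TPp1 : Chk :=
  TPp1_0 ( TPp1_1 ( TPp1_2 ( TPp1_3 ( TPp1_4 ( TPp1_5 ( TPp1_6 ( TPp1_7 ( TPp1_8 ( TPp1_9 ( TPp1_10 ( TPp1_11 ( TPp1_12 ( TPp1_13 (Chk.nil))))))))))))))

noncomputable def TPp2 : Chk :=
  TPp2_0 ( TPp2_1 ( TPp2_2 ( TPp2_3 ( TPp2_4 ( TPp2_5 ( TPp2_6 ( TPp2_7 ( TPp2_8 ( TPp2_9 ( TPp2_10 ( TPp2_11 ( TPp2_12 ( TPp2_13 (Chk.nil))))))))))))))

noncomputable def TPp3 : Chk :=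
  TPp3_0 ( TPp3_1 ( TPp3_2 ( TPp3_3 ( TPp3_4 ( TPp3_5 ( TPp3_6 ( TPp3_7 ( TPp3_8 ( TPp3_9 ( TPp3_10 ( TPp3_11 ( TPp3_12 ( TPp3_13 (Chk.nil))))))))))))))

noncomputable def TPp4 : Chk :=
  TPp4_0 ( TPp4_1 ( TPp4_2 ( TPp4_3 ( TPp4_4 ( TPp4_5 ( TPp4_6 ( TPp4_7 ( TPp4_8 ( TPp4_9 ( TPp4_10 ( TPp4_11 ( TPp4_12 ( TPp4_13 (Chk.nil))))))))))))))

noncomputable def TPp5 : Chk :=
  TPp5_0 ( TPp5_1 ( TPp5_2 ( TPp5_3 ( TPp5_4 ( TPp5_5 ( TPp5_6 ( TPp5_7 ( TPp5_8 ( TPp5_9 ( TPp5_10 ( TPp5_11 ( TPp5_12 ( TPp5_13 (Chk.nil))))))))))))))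

noncomputable def TPp6 : Chk :=
  TPp6_0 ( TPp6_1 ( TPp6_2 ( TPp6_3 ( TPp6_4 ( TPp6_5 ( TPp6_6 ( TPp6_7 ( TPp6_8 ( TPp6_9 ( TPp6_10 ( TPp6_11 ( TPp6_12 ( TPp6_13 (Chk.nil))))))))))))))

noncomputable def TP (p : Nat) : Chk := Tr.get
  (Tr.node (Tr.node (Tr.node (Tr.leaf TPp0) (Tr.leaf TPp4)) (Tr.node (Tr.leaf TPp2) (Tr.leaf
  TPp6))) (Tr.node (Tr.node (Tr.leaf TPp1) (Tr.leaf TPp5)) (Tr.leaf TPp3))) p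

end Pool.Agent.Work.MP_6bf1e5_an.HD
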