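import Pool.Agent.Work.MP_6bf1e5_an.HD.Lay0
import Pool.Agent.Work.MP_6bf1e5_an.HD.Tt_0
import Pool.Agent.Work.MP_6bf1e5_an.HD.Tt_1
import Pool.Agent.Work.MP_6bf1e5_an.HD.Tt_2
import Pool.Agent.Work.MP_6bf1e5_an.HD.Tt_3
import Pool.Agent.Work.MP_6bf1e5_an.HD.Tt_4
import Pool.Agent.Work.MP_6bf1e5_an.HD.Tt_5
import Pool.Agent.Work.MP_6bf1e5_an.HD.Tt_6
import Pool.Agent.Work.MP_6bf1e5_an.HD.Tt_7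
import Pool.Agent.Work.MP_6bf1e5_an.HD.Tt_8
import Pool.Agent.Work.MP_6bf1e5_an.HD.Tt_9
import Pool.Agent.Work.MP_6bf1e5_an.HD.Tt_10
import Pool.Agent.Work.MP_6bf1e5_an.HD.Tt_11
import Pool.Agent.Work.MP_6bf1e5_an.HD.Tt_12
import Pool.Agent.Work.MP_6bf1e5_an.HD.Tt_13
import Pool.Agent.Work.MP_6bf1e5_an.HD.Tt_14
import Pool.Agent.Work.MP_6bf1e5_an.HD.Tt_15
import Pool.Agent.Work.MP_6bf1e5_an.HD.Tt_16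
import Pool.Agent.Work.MP_6bf1e5_an.HD.Tt_17
import Pool.Agent.Work.MP_6bf1e5_an.HD.Tt_18
import Pool.Agent.Work.MP_6bf1e5_an.HD.Tt_19
import Pool.Agent.Work.MP_6bf1e5_an.HD.Tt_20
import Pool.Agent.Work.MP_6bf1e5_an.HD.Tt_21

namespace Pool.Agent.Work.MP_6bf1e5_an.HD

open Pool.Agent.Lib.KLA Pool.Agent.Lib.KBlk

noncomputable def Ttt : Tr Vr :=
  (Tr.node (Tr.node (Tr.node (Tr.node (Tr.node (Tr.node (Tr.node (Tr.leaf Ttv0) (Tr.leaf Ttv64))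
  (Tr.leaf Ttv32)) (Tr.node (Tr.leaf Ttv16) (Tr.leaf Ttv48))) (Tr.node (Tr.node (Tr.node (Tr.leaf
  Ttv8) (Tr.leaf Ttv72)) (Tr.leaf Ttv40)) (Tr.node (Tr.leaf Ttv24) (Tr.leaf Ttv56)))) (Tr.node
  (Tr.node (Tr.node (Tr.node (Tr.leaf Ttv4) (Tr.leaf Ttv68)) (Tr.leaf Ttv36)) (Tr.node (Tr.leaf
  Ttv20) (Tr.leaf Ttv52))) (Tr.node (Tr.node (Tr.node (Tr.leaf Ttv12) (Tr.leaf Ttv76)) (Tr.leaf
  Ttv44)) (Tr.node (Tr.leaf Ttv28) (Tr.leaf Ttv60))))) (Tr.node (Tr.node (Tr.node (Tr.node (Tr.node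
  (Tr.leaf Ttv2) (Tr.leaf Ttv66)) (Tr.leaf Ttv34)) (Tr.node (Tr.leaf Ttv18) (Tr.leaf Ttv50)))
  (Tr.node (Tr.node (Tr.node (Tr.leaf Ttv10) (Tr.leaf Ttv74)) (Tr.leaf Ttv42)) (Tr.node (Tr.leaf
  Ttv26) (Tr.leaf Ttv58)))) (Tr.node (Tr.node (Tr.node (Tr.node (Tr.leaf Ttv6) (Tr.leaf Ttv70))
  (Tr.leaf Ttv38)) (Tr.node (Tr.leaf Ttv22) (Tr.leaf Ttv54))) (Tr.node (Tr.node (Tr.leaf Ttv14)
  (Tr.leaf Ttv46)) (Tr.node (Tr.leaf Ttv30) (Tr.leaf Ttv62)))))) (Tr.node (Tr.node (Tr.node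
  (Tr.node (Tr.node (Tr.node (Tr.leaf Ttv1) (Tr.leaf Ttv65)) (Tr.leaf Ttv33)) (Tr.node (Tr.leaf
  Ttv17) (Tr.leaf Ttv49))) (Tr.node (Tr.node (Tr.node (Tr.leaf Ttv9) (Tr.leaf Ttv73)) (Tr.leaf
  Ttv41)) (Tr.node (Tr.leaf Ttv25) (Tr.leaf Ttv57)))) (Tr.node (Tr.node (Tr.node (Tr.node (Tr.leaf
  Ttv5) (Tr.leaf Ttv69)) (Tr.leaf Ttv37)) (Tr.node (Tr.leaf Ttv21) (Tr.leaf Ttv53))) (Tr.node
  (Tr.node (Tr.node (Tr.leaf Ttv13) (Tr.leaf Ttv77)) (Tr.leaf Ttv45)) (Tr.node (Tr.leaf Ttv29)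
  (Tr.leaf Ttv61))))) (Tr.node (Tr.node (Tr.node (Tr.node (Tr.node (Tr.leaf Ttv3) (Tr.leaf Ttv67))
  (Tr.leaf Ttv35)) (Tr.node (Tr.leaf Ttv19) (Tr.leaf Ttv51))) (Tr.node (Tr.node (Tr.node (Tr.leaf
  Ttv11) (Tr.leaf Ttv75)) (Tr.leaf Ttv43)) (Tr.node (Tr.leaf Ttv27) (Tr.leaf Ttv59)))) (Tr.node
  (Tr.node (Tr.node (Tr.node (Tr.leaf Ttv7) (Tr.leaf Ttv71)) (Tr.leaf Ttv39)) (Tr.node (Tr.leaf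
  Ttv23) (Tr.leaf Ttv55))) (Tr.node (Tr.node (Tr.leaf Ttv15) (Tr.leaf Ttv47)) (Tr.node (Tr.leaf
  Ttv31) (Tr.leaf Ttv63)))))))

noncomputable def Tt (b c : Nat) : Vr := Tr.get Ttt (Nat.add (Nat.mul 2 b) c)

noncomputable def Rt (b c : Nat) : Rows := vld 192 94 (Nat.mul 8 (jt b c)) 5 (Tt b c)

end Pool.Agent.Work.MP_6bf1e5_an.HD
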