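import Pool.Agent.Work.MP_6bf1e5_an.HD.X
import Pool.Agent.Work.MP_6bf1e5_an.HD.Th
import Pool.Agent.Work.MP_6bf1e5_an.HD.TP
import Pool.Agent.Work.MP_6bf1e5_an.HD.Tm
import Pool.Agent.Work.MP_6bf1e5_an.HD.Tt
import Pool.Agent.Work.MP_6bf1e5_an.HD.MoT0
import Pool.Agent.Work.MP_6bf1e5_an.H.AngT
import Pool.Agent.Work.MP_6bf1e5_an.H.PassTD

/-! The numbers of the pass T0. -/

namespace Pool.Agent.Work.MP_6bf1e5_an.HD

open Pool.Agent.Lib.KLA Pool.Agent.Lib.KBlk

noncomputable def dT0 : H.Ps.Dat :=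
  { Am := Am, Ah := Ah, At := At, V := 96, c1 := 105, cT := 456, nm := 0, nh := 0, nt := 0,
    cU := cU, cR := cR, X := X, K := fun _ => Chk.nil, La := fun _ => Chk.nil, Th := Th,
    R := fun _ => Chk.nil, TP := TP, U := fun _ => Chk.nil, Zc := Chk.nil, kX := 4294967296,
    kK := 0, kL := 0, kT := 4294967296, kR := 0, kP := 68719476736, kU := 0, kZ := 0, sX := 0,
    sK := 0, sL := 0, sT := 0, sR := 0, sP := 0, sU := 0, sZ := 0 }

noncomputable def pT0 : Par :=
  ⟨192, 13, 207, 13, 5, 5, 47, 622, 1237940039285380274899124224,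
    9903520314283042199192993792, 39614081257132168796771975168, 302231454903657293676544, 98,
    75, 103, 4951760157141521099596496896, 39614081257132168796771975936, 94,
    130563988518379950868267008, 1569275433846670190958947355801916604025588861116008628224⟩

noncomputable def fT0 : Nat → Nat → Nat → Nat → Nat → Nat → Bool :=
  tchk pT0 96 74276402365803504775704084480 15 22
    ⟨1, 98, 4951760157141521099596496896, false⟩
    H.Ang.T0 H.Ang.T1 H.Ang.dg MoT0 Rm Rt At
    (H.Ps.tT0 dT0 72 ⟨1, 13, 576460752303423488, false⟩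
      ⟨524288, 0, 4294967296, true⟩)

end Pool.Agent.Work.MP_6bf1e5_an.HD
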