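import Pool.Agent.Work.MP_6bf1e5_an.H.MoFam
import Pool.Agent.Work.MP_6bf1e5_an.HD.MoDt0
import Pool.Agent.Work.MP_6bf1e5_an.HD.MoDt1

/-! The moment tables of one pass (owner helper64). -/

namespace Pool.Agent.Work.MP_6bf1e5_an.HD

open Pool.Agent.Lib.KLA Pool.Agent.Lib.KBlk H.Mw

noncomputable def tTP : Tr (Nat × Vr) :=
  (Tr.node (Tr.node (Tr.node (Tr.node (Tr.node (Tr.node (Tr.leaf (1, m1)) (Tr.leaf (0, Vr.nil)))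
  (Tr.leaf (1, m6))) (Tr.node (Tr.leaf (0, Vr.nil)) (Tr.leaf (2, m7)))) (Tr.node (Tr.node (Tr.leaf
  (0, Vr.nil)) (Tr.leaf (2, m5))) (Tr.node (Tr.leaf (1, m3)) (Tr.leaf (0, Vr.nil))))) (Tr.node
  (Tr.node (Tr.node (Tr.node (Tr.leaf (0, Vr.nil)) (Tr.leaf (0, Vr.nil))) (Tr.leaf (0, Vr.nil)))
  (Tr.node (Tr.leaf (0, Vr.nil)) (Tr.leaf (2, m6)))) (Tr.node (Tr.node (Tr.leaf (0, Vr.nil))
  (Tr.leaf (1, m8))) (Tr.node (Tr.leaf (0, Vr.nil)) (Tr.leaf (0, Vr.nil)))))) (Tr.node (Tr.node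
  (Tr.node (Tr.node (Tr.node (Tr.leaf (0, Vr.nil)) (Tr.leaf (0, Vr.nil))) (Tr.leaf (0, Vr.nil)))
  (Tr.node (Tr.leaf (0, Vr.nil)) (Tr.leaf (0, Vr.nil)))) (Tr.node (Tr.node (Tr.leaf (0, Vr.nil))
  (Tr.leaf (0, Vr.nil))) (Tr.node (Tr.leaf (1, m4)) (Tr.leaf (2, m4))))) (Tr.node (Tr.node
  (Tr.node (Tr.node (Tr.leaf (0, Vr.nil)) (Tr.leaf (1, m9))) (Tr.leaf (1, m7))) (Tr.node (Tr.leaf
  (0, Vr.nil)) (Tr.leaf (2, m8)))) (Tr.node (Tr.node (Tr.leaf (1, m2)) (Tr.leaf (2, m3))) (Tr.node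
  (Tr.leaf (1, m5)) (Tr.leaf (0, Vr.nil)))))))

noncomputable def MoTP (c s b : Nat) : Rows := fam 83 (tTP.get (ixe c s b))

end Pool.Agent.Work.MP_6bf1e5_an.HD
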