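import Pool.Agent.Work.MP_6bf1e5_an.HD.TP
import Pool.Agent.Work.MP_6bf1e5_an.HD.Ta
import Pool.Agent.Work.MP_6bf1e5_an.HD.Tt
import Pool.Agent.Work.MP_6bf1e5_an.HD.MoTP
import Pool.Agent.Work.MP_6bf1e5_an.H.AngT
import Pool.Agent.Work.MP_6bf1e5_an.H.PassTD

/-! The numbers of the pass TP. -/

namespace Pool.Agent.Work.MP_6bf1e5_an.HD

open Pool.Agent.Lib.KLA Pool.Agent.Lib.KBlk

noncomputable def dTP : H.Ps.Dat :=
  { Am := Am, Ah := Ah, At := At, V := 96, c1 := 105, cT := 456, nm := 0, nh := 0, nt := 0,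
    cU := cU, cR := cR, X := fun _ => Chk.nil, K := fun _ => Chk.nil, La := fun _ => Chk.nil,
    Th := fun _ => Chk.nil, R := fun _ => Chk.nil, TP := TP, U := fun _ => Chk.nil,
    Zc := Chk.nil, kX := 0, kK := 0, kL := 0, kT := 0, kR := 0, kP := 68719476736, kU := 0,
    kZ := 0, sX := 0, sK := 0, sL := 0, sT := 0, sR := 0, sP := 0, sU := 0, sZ := 0 }

noncomputable def pTP : Par :=
  ⟨192, 13, 207, 13, 5, 5, 47, 622, 9903520314283042199192993792,
    9903520314283042199192993792, 39614081257132168796771975168, 4835703278458516698824704,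
    98, 87, 102, 4951760157141521099596496896, 154742504910672534362390531, 87,
    210353092612945476398874624, 1569275433846670190958947355801916604025588861116008628224⟩

noncomputable def fTP : Nat → Nat → Nat → Nat → Nat → Nat → Bool :=
  tchk pTP 96 74276402357139704992550092800 15 17
    ⟨1, 98, 4951760157141521099596496896, false⟩
    H.Ang.T0 H.Ang.T1 H.Ang.dg MoTP Ra Rt At
    (H.Ps.tTP dTP ⟨16384, 0, 68719476736, true⟩)

end Pool.Agent.Work.MP_6bf1e5_an.HD
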