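import Pool.Agent.Lib.KBlk.Vr
import Pool.Agent.Work.MP_6bf1e5_an.HD.Rc_0
import Pool.Agent.Work.MP_6bf1e5_an.HD.Rc_1
import Pool.Agent.Work.MP_6bf1e5_an.HD.Rc_2

namespace Pool.Agent.Work.MP_6bf1e5_an.HD

open Pool.Agent.Lib.KLA Pool.Agent.Lib.KBlk

noncomputable def Rcp0 : Chk :=
  Rcp0_0 ( Rcp0_1 ( Rcp0_2 ( Rcp0_3 (Chk.nil))))

noncomputable def Rcp1 : Chk :=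
  Rcp1_0 ( Rcp1_1 ( Rcp1_2 ( Rcp1_3 ( Rcp1_4 ( Rcp1_5 ( Rcp1_6 (Chk.nil)))))))

noncomputable def Rcp2 : Chk :=
  Rcp2_0 ( Rcp2_1 ( Rcp2_2 ( Rcp2_3 ( Rcp2_4 ( Rcp2_5 ( Rcp2_6 ( Rcp2_7 ( Rcp2_8 (Chk.nil)))))))))

noncomputable def Rcp3 : Chk :=
  Rcp3_0 ( Rcp3_1 ( Rcp3_2 ( Rcp3_3 ( Rcp3_4 ( Rcp3_5 ( Rcp3_6 ( Rcp3_7 ( Rcp3_8 ( Rcp3_9 ( Rcp3_10 (Chk.nil)))))))))))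

noncomputable def Rcp4 : Chk :=
  Rcp4_0 ( Rcp4_1 ( Rcp4_2 ( Rcp4_3 ( Rcp4_4 ( Rcp4_5 ( Rcp4_6 ( Rcp4_7 ( Rcp4_8 ( Rcp4_9 ( Rcp4_10 ( Rcp4_11 (Chk.nil))))))))))))

noncomputable def Rcp5 : Chk :=
  Rcp5_0 ( Rcp5_1 ( Rcp5_2 ( Rcp5_3 ( Rcp5_4 ( Rcp5_5 ( Rcp5_6 ( Rcp5_7 ( Rcp5_8 ( Rcp5_9 ( Rcp5_10 ( Rcp5_11 ( Rcp5_12 (Chk.nil)))))))))))))

noncomputable def Rcp6 : Chk :=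
  Rcp6_0 ( Rcp6_1 ( Rcp6_2 ( Rcp6_3 ( Rcp6_4 ( Rcp6_5 ( Rcp6_6 ( Rcp6_7 ( Rcp6_8 ( Rcp6_9 ( Rcp6_10 ( Rcp6_11 ( Rcp6_12 (Chk.nil)))))))))))))

noncomputable def Rc (p : Nat) : Chk := Tr.get
  (Tr.node (Tr.node (Tr.node (Tr.leaf Rcp0) (Tr.leaf Rcp4)) (Tr.node (Tr.leaf Rcp2) (Tr.leaf
  Rcp6))) (Tr.node (Tr.node (Tr.leaf Rcp1) (Tr.leaf Rcp5)) (Tr.leaf Rcp3))) p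

end Pool.Agent.Work.MP_6bf1e5_an.HD
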