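import Pool.Agent.Work.MP_6bf1e5_an.HD.Dat
import Pool.Agent.Work.MP_6bf1e5_an.HD.Rc
import Pool.Agent.Work.MP_6bf1e5_an.H.PassND
import Pool.Agent.Lib.KBlk.Jobs

namespace Pool.Agent.Work.MP_6bf1e5_an.HD

open Pool.Agent.Lib.KLA Pool.Agent.Lib.KBlk

noncomputable def bNF : List Nat :=
  [129721232, 3374735, 25272216, 1533412, 4622426, 14356801, 1451654, 13083795, 921162,
  9716197, 584653, 6159323, 334726, 2456736, 119808, 118080]

noncomputable def bNK : List Nat :=
  [1144288587, 2241988, 1136252705, 52615023, 173563964, 628826820, 2018698, 389954352, 785083,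
  147868530, 545942, 53781129, 332800, 15521670, 119808, 733663]

noncomputable def bNU : List Nat :=
  [480911458, 0, 618044373, 0, 148541896, 296218477, 1331730, 179804803, 594823, 53497038,
  359604, 12957043, 146432, 2176706]

noncomputable def bHI : List Nat :=
  [114803457, 4831937, 1590784, 12723879, 12716934, 969549, 2187151, 15922759, 814900, 1110766,
  2160944, 11253261, 669220, 532966, 9432161, 405776, 369477, 5965636, 225745, 224000, 2340849,
  80640, 80640, 76608]

noncomputable def bX1 : List Nat :=
  [3275031170697292, 209390038048342, 76071784811802, 39673616755009, 21678388709629,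
  9221715208323, 2060258184563, 1576242]

noncomputable def sHI : Scl := ⟨1, 27, 34359738368, false⟩

noncomputable def cNF : Nat → Bool := H.Ps.fNF dat 20 12 832 2 bNF

noncomputable def cNK : Nat → Bool := H.Ps.fNK dat 22 12 832 2 bNK

noncomputable def cNU : Nat → Bool := H.Ps.fNU dat 32 12 832 2 bNU

noncomputable def cHI : Nat → Bool := H.Ps.fHi dat 62 sHI 20 12 560 3 bHI

noncomputable def cX1 : Nat → Bool := H.Ps.fX1 dat 8 33 7 11 40 67 bX1

noncomputable def sCF : Scl := ⟨16, 0, 4294967296, false⟩

noncomputable def sCZ : Scl := ⟨35, 29, 8589934592, false⟩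

noncomputable def sCC : Scl := ⟨1, 16, 17179869184, true⟩

noncomputable def cCO : Nat → Nat → Nat → Nat → Nat → Nat → Bool :=
  pchk dat.V 14460797374464 37 13 dat.Ah (H.Ps.tCO dat 33554432 4285304832 62 50 sCF sCZ sCC Rc)

end Pool.Agent.Work.MP_6bf1e5_an.HD
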