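import Pool.Agent.Work.MP_6bf1e5_an.HD.Dat
import Pool.Agent.Work.MP_6bf1e5_an.H.PassSmD
import Pool.Agent.Lib.KBlk.Jobs

namespace Pool.Agent.Work.MP_6bf1e5_an.HD

open Pool.Agent.Lib.KBlk H.Pz

noncomputable def fZP : Bool :=
  zp dat ⟨4, 0, 1073741824, false⟩

noncomputable def fZT : Nat → Nat → Bool :=
  zt dat 31 16 77 ⟨1, 16, 2305843009213693952, false⟩
    ⟨4096, 0, 68719476736, true⟩

noncomputable def fZU : Nat → Nat → Bool :=
  zu dat 31 16 85 ⟨1, 16, 590295810358705651712, false⟩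
    ⟨4096, 0, 17592186044416, true⟩

noncomputable def fZK : Nat → Nat → Bool :=
  zk dat 31 16 75 ⟨5, 28, 140737488355328, false⟩
    ⟨4096, 0, 4294967296, false⟩

noncomputable def fZL : Nat → Nat → Bool :=
  zl dat 31 16 81 ⟨1, 16, 36893488147419103232, false⟩
    ⟨4096, 0, 1099511627776, true⟩ ⟨97785, 12, 1048576, false⟩
    ⟨2605056, 0, 4294967296, false⟩ ⟨97785, 11, 2097152, true⟩

noncomputable def fS2 : Nat → Nat → Bool :=
  s2 dat ⟨64, 0, 4294967296, false⟩ ⟨64, 0, 1073741824, true⟩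

noncomputable def fS1 : Nat → Nat → Nat → Nat → Nat → Nat → Bool :=
  s1 dat ⟨64, 0, 4294967296, false⟩ ⟨64, 0, 4294967296, true⟩

noncomputable def pVY : VyP :=
  ⟨31, 16, 77, 62, 48, 49, 43, 38, 29, ⟨1, 21, 72057594037927936, false⟩,
    ⟨123, 7, 33554432, true⟩, ⟨123, 34, 268435456, true⟩,
    ⟨17592227987481, 44, 16, false⟩, ⟨1, 28, 1125899906842624, false⟩,
    ⟨1, 38, 17592186044416, false⟩, ⟨1024, 0, 4294967296, false⟩,
    ⟨4194309, 10, 131072, true⟩⟩

noncomputable def fVY : Nat → Nat → Nat → Nat → Nat → Nat → Bool :=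
  vy dat As beta pVY

noncomputable def fAS : Bool :=
  asz dat As beta 522

end Pool.Agent.Work.MP_6bf1e5_an.HD
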