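import Pool.Agent.Work.MP_6bf1e5_an.HD.Cu
import Pool.Agent.Work.MP_6bf1e5_an.HD.Ch_0

namespace Pool.Agent.Work.MP_6bf1e5_an.HD

open Pool.Agent.Lib.KLA Pool.Agent.Lib.KBlk Pool.Agent.Lib.KRad

noncomputable def cTht : Tr Cm :=
  (Tr.node (Tr.node (Tr.node (Tr.node (Tr.node (Tr.node (Tr.leaf e0) (Tr.leaf th16_0)) (Tr.node
  (Tr.leaf th8_0) (Tr.leaf th24_0))) (Tr.node (Tr.node (Tr.leaf th4_0) (Tr.leaf th20_0)) (Tr.node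
  (Tr.leaf th12_0) (Tr.leaf th28_0)))) (Tr.node (Tr.node (Tr.node (Tr.leaf th2_0) (Tr.leaf th18_0))
  (Tr.node (Tr.leaf th10_0) (Tr.leaf th26_0))) (Tr.node (Tr.node (Tr.leaf th6_0) (Tr.leaf th22_0))
  (Tr.leaf th14_0)))) (Tr.node (Tr.node (Tr.node (Tr.node (Tr.leaf th1_0) (Tr.leaf th17_0))
  (Tr.node (Tr.leaf th9_0) (Tr.leaf th25_0))) (Tr.node (Tr.node (Tr.leaf th5_0) (Tr.leaf th21_0))
  (Tr.leaf th13_0))) (Tr.node (Tr.node (Tr.node (Tr.leaf th3_0) (Tr.leaf th19_0)) (Tr.node (Tr.leaf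
  th11_0) (Tr.leaf th27_0))) (Tr.node (Tr.node (Tr.leaf th7_0) (Tr.leaf th23_0)) (Tr.leaf
  th15_0))))) (Tr.node (Tr.node (Tr.node (Tr.node (Tr.node (Tr.leaf e0) (Tr.leaf th16_1)) (Tr.node
  (Tr.leaf th8_1) (Tr.leaf th24_1))) (Tr.node (Tr.node (Tr.leaf th4_1) (Tr.leaf th20_1)) (Tr.node
  (Tr.leaf th12_1) (Tr.leaf th28_1)))) (Tr.node (Tr.node (Tr.node (Tr.leaf th2_1) (Tr.leaf th18_1))
  (Tr.node (Tr.leaf th10_1) (Tr.leaf th26_1))) (Tr.node (Tr.node (Tr.leaf th6_1) (Tr.leaf th22_1))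
  (Tr.leaf th14_1)))) (Tr.node (Tr.node (Tr.node (Tr.node (Tr.leaf th1_1) (Tr.leaf th17_1))
  (Tr.node (Tr.leaf th9_1) (Tr.leaf th25_1))) (Tr.node (Tr.node (Tr.leaf th5_1) (Tr.leaf th21_1))
  (Tr.leaf th13_1))) (Tr.node (Tr.node (Tr.node (Tr.leaf th3_1) (Tr.leaf th19_1)) (Tr.node (Tr.leaf
  th11_1) (Tr.leaf th27_1))) (Tr.node (Tr.node (Tr.leaf th7_1) (Tr.leaf th23_1)) (Tr.leaf
  th15_1))))))

noncomputable def cTh (b c : Nat) : Cm := Tr.get cTht (Nat.add (Nat.mul 2 b) c)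

end Pool.Agent.Work.MP_6bf1e5_an.HD
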