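import Pool.Agent.Work.MP_6bf1e5_an.HD.CfG

namespace Pool.Agent.Work.MP_6bf1e5_an.HD

open Pool.Agent.Lib.KLA Pool.Agent.Lib.KBlk H H.Tg

def kC0 : PLift (fC 0 = true) := ⟨by decide +kernel⟩

def kC4 : PLift (fC 4 = true) := ⟨by decide +kernel⟩

def kC8 : PLift (fC 8 = true) := ⟨by decide +kernel⟩

def kC12 : PLift (fC 12 = true) := ⟨by decide +kernel⟩

def kC16 : PLift (fC 16 = true) := ⟨by decide +kernel⟩

def kC20 : PLift (fC 20 = true) := ⟨by decide +kernel⟩

def kC24 : PLift (fC 24 = true) := ⟨by decide +kernel⟩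

def kC28 : PLift (fC 28 = true) := ⟨by decide +kernel⟩

def kC32 : PLift (fC 32 = true) := ⟨by decide +kernel⟩

def kC36 : PLift (fC 36 = true) := ⟨by decide +kernel⟩

def kC40 : PLift (fC 40 = true) := ⟨by decide +kernel⟩

def kC44 : PLift (fC 44 = true) := ⟨by decide +kernel⟩

def kC48 : PLift (fC 48 = true) := ⟨by decide +kernel⟩

def kC52 : PLift (fC 52 = true) := ⟨by decide +kernel⟩

end Pool.Agent.Work.MP_6bf1e5_an.HD
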