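import Pool.Agent.Work.MP_6bf1e5_an.HD.CfG

namespace Pool.Agent.Work.MP_6bf1e5_an.HD

open Pool.Agent.Lib.KLA Pool.Agent.Lib.KBlk H H.Tg

def kC1 : PLift (fC 1 = true) := ⟨by decide +kernel⟩

def kC5 : PLift (fC 5 = true) := ⟨by decide +kernel⟩

def kC9 : PLift (fC 9 = true) := ⟨by decide +kernel⟩

def kC13 : PLift (fC 13 = true) := ⟨by decide +kernel⟩

def kC17 : PLift (fC 17 = true) := ⟨by decide +kernel⟩

def kC21 : PLift (fC 21 = true) := ⟨by decide +kernel⟩

def kC25 : PLift (fC 25 = true) := ⟨by decide +kernel⟩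

def kC29 : PLift (fC 29 = true) := ⟨by decide +kernel⟩

def kC33 : PLift (fC 33 = true) := ⟨by decide +kernel⟩

def kC37 : PLift (fC 37 = true) := ⟨by decide +kernel⟩

def kC41 : PLift (fC 41 = true) := ⟨by decide +kernel⟩

def kC45 : PLift (fC 45 = true) := ⟨by decide +kernel⟩

def kC49 : PLift (fC 49 = true) := ⟨by decide +kernel⟩

def kC53 : PLift (fC 53 = true) := ⟨by decide +kernel⟩

end Pool.Agent.Work.MP_6bf1e5_an.HD
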