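import Pool.Agent.Work.MP_6bf1e5_an.HD.CfG

namespace Pool.Agent.Work.MP_6bf1e5_an.HD

open Pool.Agent.Lib.KLA Pool.Agent.Lib.KBlk H H.Tg

def kC2 : PLift (fC 2 = true) := ⟨by decide +kernel⟩

def kC6 : PLift (fC 6 = true) := ⟨by decide +kernel⟩

def kC10 : PLift (fC 10 = true) := ⟨by decide +kernel⟩

def kC14 : PLift (fC 14 = true) := ⟨by decide +kernel⟩

def kC18 : PLift (fC 18 = true) := ⟨by decide +kernel⟩

def kC22 : PLift (fC 22 = true) := ⟨by decide +kernel⟩

def kC26 : PLift (fC 26 = true) := ⟨by decide +kernel⟩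

def kC30 : PLift (fC 30 = true) := ⟨by decide +kernel⟩

def kC34 : PLift (fC 34 = true) := ⟨by decide +kernel⟩

def kC38 : PLift (fC 38 = true) := ⟨by decide +kernel⟩

def kC42 : PLift (fC 42 = true) := ⟨by decide +kernel⟩

def kC46 : PLift (fC 46 = true) := ⟨by decide +kernel⟩

def kC50 : PLift (fC 50 = true) := ⟨by decide +kernel⟩

def kC54 : PLift (fC 54 = true) := ⟨by decide +kernel⟩

end Pool.Agent.Work.MP_6bf1e5_an.HD
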