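import Pool.Agent.Work.MP_6bf1e5_an.HD.CfG

namespace Pool.Agent.Work.MP_6bf1e5_an.HD

open Pool.Agent.Lib.KLA Pool.Agent.Lib.KBlk H H.Tg

def kC3 : PLift (fC 3 = true) := ⟨by decide +kernel⟩

def kC7 : PLift (fC 7 = true) := ⟨by decide +kernel⟩

def kC11 : PLift (fC 11 = true) := ⟨by decide +kernel⟩

def kC15 : PLift (fC 15 = true) := ⟨by decide +kernel⟩

def kC19 : PLift (fC 19 = true) := ⟨by decide +kernel⟩

def kC23 : PLift (fC 23 = true) := ⟨by decide +kernel⟩

def kC27 : PLift (fC 27 = true) := ⟨by decide +kernel⟩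

def kC31 : PLift (fC 31 = true) := ⟨by decide +kernel⟩

def kC35 : PLift (fC 35 = true) := ⟨by decide +kernel⟩

def kC39 : PLift (fC 39 = true) := ⟨by decide +kernel⟩

def kC43 : PLift (fC 43 = true) := ⟨by decide +kernel⟩

def kC47 : PLift (fC 47 = true) := ⟨by decide +kernel⟩

def kC51 : PLift (fC 51 = true) := ⟨by decide +kernel⟩

def kC55 : PLift (fC 55 = true) := ⟨by decide +kernel⟩

end Pool.Agent.Work.MP_6bf1e5_an.HD
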