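import Pool.Agent.Work.MP_6bf1e5_an.HD.CfG

namespace Pool.Agent.Work.MP_6bf1e5_an.HD

open Pool.Agent.Lib.KLA Pool.Agent.Lib.KBlk H H.Tg

def kG0 : PLift (fG 0 = true) := ⟨by decide +kernel⟩

def kG1 : PLift (fG 1 = true) := ⟨by decide +kernel⟩

def kG2 : PLift (fG 2 = true) := ⟨by decide +kernel⟩

def kG3 : PLift (fG 3 = true) := ⟨by decide +kernel⟩

def kG4 : PLift (fG 4 = true) := ⟨by decide +kernel⟩

def kG5 : PLift (fG 5 = true) := ⟨by decide +kernel⟩

def kG6 : PLift (fG 6 = true) := ⟨by decide +kernel⟩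

def kG7 : PLift (fG 7 = true) := ⟨by decide +kernel⟩

def kG8 : PLift (fG 8 = true) := ⟨by decide +kernel⟩

def kG9 : PLift (fG 9 = true) := ⟨by decide +kernel⟩

def kG10 : PLift (fG 10 = true) := ⟨by decide +kernel⟩

def kG11 : PLift (fG 11 = true) := ⟨by decide +kernel⟩

def kG12 : PLift (fG 12 = true) := ⟨by decide +kernel⟩

def kG13 : PLift (fG 13 = true) := ⟨by decide +kernel⟩

def kG14 : PLift (fG 14 = true) := ⟨by decide +kernel⟩

def kG15 : PLift (fG 15 = true) := ⟨by decide +kernel⟩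

def kG16 : PLift (fG 16 = true) := ⟨by decide +kernel⟩

def kG17 : PLift (fG 17 = true) := ⟨by decide +kernel⟩

def kG18 : PLift (fG 18 = true) := ⟨by decide +kernel⟩

def kG19 : PLift (fG 19 = true) := ⟨by decide +kernel⟩

def kG20 : PLift (fG 20 = true) := ⟨by decide +kernel⟩

def kG21 : PLift (fG 21 = true) := ⟨by decide +kernel⟩

def kG22 : PLift (fG 22 = true) := ⟨by decide +kernel⟩

def kG23 : PLift (fG 23 = true) := ⟨by decide +kernel⟩

def kG24 : PLift (fG 24 = true) := ⟨by decide +kernel⟩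

def kG25 : PLift (fG 25 = true) := ⟨by decide +kernel⟩

def kG26 : PLift (fG 26 = true) := ⟨by decide +kernel⟩

def kG27 : PLift (fG 27 = true) := ⟨by decide +kernel⟩

def kG28 : PLift (fG 28 = true) := ⟨by decide +kernel⟩

def kG29 : PLift (fG 29 = true) := ⟨by decide +kernel⟩

def kG30 : PLift (fG 30 = true) := ⟨by decide +kernel⟩

def kG31 : PLift (fG 31 = true) := ⟨by decide +kernel⟩

def kG32 : PLift (fG 32 = true) := ⟨by decide +kernel⟩

def kG33 : PLift (fG 33 = true) := ⟨by decide +kernel⟩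

def kG34 : PLift (fG 34 = true) := ⟨by decide +kernel⟩

def kG35 : PLift (fG 35 = true) := ⟨by decide +kernel⟩

def kG36 : PLift (fG 36 = true) := ⟨by decide +kernel⟩

def kG37 : PLift (fG 37 = true) := ⟨by decide +kernel⟩

def kG38 : PLift (fG 38 = true) := ⟨by decide +kernel⟩

def kG39 : PLift (fG 39 = true) := ⟨by decide +kernel⟩

def kG40 : PLift (fG 40 = true) := ⟨by decide +kernel⟩

def kG41 : PLift (fG 41 = true) := ⟨by decide +kernel⟩

def kG42 : PLift (fG 42 = true) := ⟨by decide +kernel⟩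

def kG43 : PLift (fG 43 = true) := ⟨by decide +kernel⟩

def kG44 : PLift (fG 44 = true) := ⟨by decide +kernel⟩

def kG45 : PLift (fG 45 = true) := ⟨by decide +kernel⟩

def kG46 : PLift (fG 46 = true) := ⟨by decide +kernel⟩

def kG47 : PLift (fG 47 = true) := ⟨by decide +kernel⟩

def kG48 : PLift (fG 48 = true) := ⟨by decide +kernel⟩

def kG49 : PLift (fG 49 = true) := ⟨by decide +kernel⟩

def kG50 : PLift (fG 50 = true) := ⟨by decide +kernel⟩

def kG51 : PLift (fG 51 = true) := ⟨by decide +kernel⟩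

def kG52 : PLift (fG 52 = true) := ⟨by decide +kernel⟩

def kG53 : PLift (fG 53 = true) := ⟨by decide +kernel⟩

def kG54 : PLift (fG 54 = true) := ⟨by decide +kernel⟩

def kG55 : PLift (fG 55 = true) := ⟨by decide +kernel⟩

end Pool.Agent.Work.MP_6bf1e5_an.HD
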