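import Pool.Agent.Work.MP_6bf1e5_an.HD.CfgN

namespace Pool.Agent.Work.MP_6bf1e5_an.HD

open Pool.Agent.Lib.KLA Pool.Agent.Lib.KBlk

def jNF0 : PLift (cNF 0 = true) := ⟨by decide +kernel⟩

def jNF7 : PLift (cNF 7 = true) := ⟨by decide +kernel⟩

def jNF14 : PLift (cNF 14 = true) := ⟨by decide +kernel⟩

def jNK5 : PLift (cNK 5 = true) := ⟨by decide +kernel⟩

def jNK12 : PLift (cNK 12 = true) := ⟨by decide +kernel⟩

def jNU3 : PLift (cNU 3 = true) := ⟨by decide +kernel⟩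

def jNU10 : PLift (cNU 10 = true) := ⟨by decide +kernel⟩

def jHI3 : PLift (cHI 3 = true) := ⟨by decide +kernel⟩

def jHI10 : PLift (cHI 10 = true) := ⟨by decide +kernel⟩

def jHI17 : PLift (cHI 17 = true) := ⟨by decide +kernel⟩

def jX10 : PLift (cX1 0 = true) := ⟨by decide +kernel⟩

def jX17 : PLift (cX1 7 = true) := ⟨by decide +kernel⟩

end Pool.Agent.Work.MP_6bf1e5_an.HD
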