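import Pool.Agent.Work.MP_6bf1e5_an.HD.CfgN

namespace Pool.Agent.Work.MP_6bf1e5_an.HD

open Pool.Agent.Lib.KLA Pool.Agent.Lib.KBlk

def jNF1 : PLift (cNF 1 = true) := ⟨by decide +kernel⟩

def jNF8 : PLift (cNF 8 = true) := ⟨by decide +kernel⟩

def jNF15 : PLift (cNF 15 = true) := ⟨by decide +kernel⟩

def jNK6 : PLift (cNK 6 = true) := ⟨by decide +kernel⟩

def jNK13 : PLift (cNK 13 = true) := ⟨by decide +kernel⟩

def jNU4 : PLift (cNU 4 = true) := ⟨by decide +kernel⟩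

def jNU11 : PLift (cNU 11 = true) := ⟨by decide +kernel⟩

def jHI4 : PLift (cHI 4 = true) := ⟨by decide +kernel⟩

def jHI11 : PLift (cHI 11 = true) := ⟨by decide +kernel⟩

def jHI18 : PLift (cHI 18 = true) := ⟨by decide +kernel⟩

def jX11 : PLift (cX1 1 = true) := ⟨by decide +kernel⟩

def jNZ : PLift (H.Ps.fNZ dat 10 20 3326136182448 = true) := ⟨by decide +kernel⟩

end Pool.Agent.Work.MP_6bf1e5_an.HD
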