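import Pool.Agent.Work.MP_6bf1e5_an.HD.CfgN

namespace Pool.Agent.Work.MP_6bf1e5_an.HD

open Pool.Agent.Lib.KLA Pool.Agent.Lib.KBlk

def jCO0_13 : PLift (cCO 1 0 13 4 0 55 = true) := ⟨by decide +kernel⟩

def jCO1_25 : PLift (cCO 1 1 25 4 0 58 = true) := ⟨by decide +kernel⟩

def jCO3_9 : PLift (cCO 2 1 9 4 0 56 = true) := ⟨by decide +kernel⟩

def jCO4_21 : PLift (cCO 3 0 21 4 0 51 = true) := ⟨by decide +kernel⟩

def jCO6_5 : PLift (cCO 4 0 5 4 0 49 = true) := ⟨by decide +kernel⟩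

def jCO7_17 : PLift (cCO 4 1 17 4 0 52 = true) := ⟨by decide +kernel⟩

def jCO9_9 : PLift (cCO 5 1 9 4 0 50 = true) := ⟨by decide +kernel⟩

def jCO10_25 : PLift (cCO 6 0 25 4 0 45 = true) := ⟨by decide +kernel⟩

def jCO12_17 : PLift (cCO 7 0 17 4 0 43 = true) := ⟨by decide +kernel⟩

def jCO14_9 : PLift (cCO 8 0 9 4 0 41 = true) := ⟨by decide +kernel⟩

def jCO15_25 : PLift (cCO 8 1 25 4 0 44 = true) := ⟨by decide +kernel⟩

def jCO17_25 : PLift (cCO 9 1 25 4 0 42 = true) := ⟨by decide +kernel⟩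

def jCO19_25 : PLift (cCO 10 1 25 4 0 40 = true) := ⟨by decide +kernel⟩

def jCO21_25 : PLift (cCO 11 1 25 4 0 38 = true) := ⟨by decide +kernel⟩

def jCO23_25 : PLift (cCO 12 1 25 4 0 36 = true) := ⟨by decide +kernel⟩

def jCO26_17 : PLift (cCO 14 0 17 4 0 29 = true) := ⟨by decide +kernel⟩

def jCO28_25 : PLift (cCO 15 0 25 4 0 27 = true) := ⟨by decide +kernel⟩

def jCO31_17 : PLift (cCO 16 1 17 4 0 28 = true) := ⟨by decide +kernel⟩

def jCO34_21 : PLift (cCO 18 0 21 4 0 21 = true) := ⟨by decide +kernel⟩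

def jCO37_25 : PLift (cCO 19 1 25 4 0 22 = true) := ⟨by decide +kernel⟩

def jCO41_25 : PLift (cCO 21 1 25 4 0 18 = true) := ⟨by decide +kernel⟩

def jCO46_25 : PLift (cCO 24 0 25 4 0 9 = true) := ⟨by decide +kernel⟩

def jCO55_28 : PLift (cCO 28 1 28 1 0 4 = true) := ⟨by decide +kernel⟩

end Pool.Agent.Work.MP_6bf1e5_an.HD
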