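import Pool.Agent.Work.MP_6bf1e5_an.HD.CfgN

namespace Pool.Agent.Work.MP_6bf1e5_an.HD

open Pool.Agent.Lib.KLA Pool.Agent.Lib.KBlk

def jCO0_17 : PLift (cCO 1 0 17 4 0 55 = true) := ⟨by decide +kernel⟩

def jCO2_2 : PLift (cCO 2 0 2 3 0 53 = true) := ⟨by decide +kernel⟩

def jCO3_13 : PLift (cCO 2 1 13 4 0 56 = true) := ⟨by decide +kernel⟩

def jCO4_25 : PLift (cCO 3 0 25 4 0 51 = true) := ⟨by decide +kernel⟩

def jCO6_9 : PLift (cCO 4 0 9 4 0 49 = true) := ⟨by decide +kernel⟩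

def jCO7_21 : PLift (cCO 4 1 21 4 0 52 = true) := ⟨by decide +kernel⟩

def jCO9_13 : PLift (cCO 5 1 13 4 0 50 = true) := ⟨by decide +kernel⟩

def jCO11_6 : PLift (cCO 6 1 6 3 0 48 = true) := ⟨by decide +kernel⟩

def jCO12_21 : PLift (cCO 7 0 21 4 0 43 = true) := ⟨by decide +kernel⟩

def jCO14_13 : PLift (cCO 8 0 13 4 0 41 = true) := ⟨by decide +kernel⟩

def jCO16_9 : PLift (cCO 9 0 9 4 0 39 = true) := ⟨by decide +kernel⟩

def jCO18_10 : PLift (cCO 10 0 10 3 0 37 = true) := ⟨by decide +kernel⟩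

def jCO20_11 : PLift (cCO 11 0 11 2 0 35 = true) := ⟨by decide +kernel⟩

def jCO22_12 : PLift (cCO 12 0 12 1 0 33 = true) := ⟨by decide +kernel⟩

def jCO24_13 : PLift (cCO 13 0 13 4 0 31 = true) := ⟨by decide +kernel⟩

def jCO26_21 : PLift (cCO 14 0 21 4 0 29 = true) := ⟨by decide +kernel⟩

def jCO29_15 : PLift (cCO 15 1 15 2 0 30 = true) := ⟨by decide +kernel⟩

def jCO31_21 : PLift (cCO 16 1 21 4 0 28 = true) := ⟨by decide +kernel⟩

def jCO34_25 : PLift (cCO 18 0 25 4 0 21 = true) := ⟨by decide +kernel⟩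

def jCO38_20 : PLift (cCO 20 0 20 1 0 17 = true) := ⟨by decide +kernel⟩

def jCO42_22 : PLift (cCO 22 0 22 3 0 13 = true) := ⟨by decide +kernel⟩

def jCO47_24 : PLift (cCO 24 1 24 1 0 12 = true) := ⟨by decide +kernel⟩

end Pool.Agent.Work.MP_6bf1e5_an.HD
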