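import Pool.Agent.Work.MP_6bf1e5_an.HD.CfgN

namespace Pool.Agent.Work.MP_6bf1e5_an.HD

open Pool.Agent.Lib.KLA Pool.Agent.Lib.KBlk

def jCO0_21 : PLift (cCO 1 0 21 4 0 55 = true) := ⟨by decide +kernel⟩

def jCO2_5 : PLift (cCO 2 0 5 4 0 53 = true) := ⟨by decide +kernel⟩

def jCO3_17 : PLift (cCO 2 1 17 4 0 56 = true) := ⟨by decide +kernel⟩

def jCO5_3 : PLift (cCO 3 1 3 2 0 54 = true) := ⟨by decide +kernel⟩

def jCO6_13 : PLift (cCO 4 0 13 4 0 49 = true) := ⟨by decide +kernel⟩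

def jCO7_25 : PLift (cCO 4 1 25 4 0 52 = true) := ⟨by decide +kernel⟩

def jCO9_17 : PLift (cCO 5 1 17 4 0 50 = true) := ⟨by decide +kernel⟩

def jCO11_9 : PLift (cCO 6 1 9 4 0 48 = true) := ⟨by decide +kernel⟩

def jCO12_25 : PLift (cCO 7 0 25 4 0 43 = true) := ⟨by decide +kernel⟩

def jCO14_17 : PLift (cCO 8 0 17 4 0 41 = true) := ⟨by decide +kernel⟩

def jCO16_13 : PLift (cCO 9 0 13 4 0 39 = true) := ⟨by decide +kernel⟩

def jCO18_13 : PLift (cCO 10 0 13 4 0 37 = true) := ⟨by decide +kernel⟩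

def jCO20_13 : PLift (cCO 11 0 13 4 0 35 = true) := ⟨by decide +kernel⟩

def jCO22_13 : PLift (cCO 12 0 13 4 0 33 = true) := ⟨by decide +kernel⟩

def jCO24_17 : PLift (cCO 13 0 17 4 0 31 = true) := ⟨by decide +kernel⟩

def jCO26_25 : PLift (cCO 14 0 25 4 0 29 = true) := ⟨by decide +kernel⟩

def jCO29_17 : PLift (cCO 15 1 17 4 0 30 = true) := ⟨by decide +kernel⟩

def jCO31_25 : PLift (cCO 16 1 25 4 0 28 = true) := ⟨by decide +kernel⟩

def jCO35_18 : PLift (cCO 18 1 18 3 0 24 = true) := ⟨by decide +kernel⟩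

def jCO38_21 : PLift (cCO 20 0 21 4 0 17 = true) := ⟨by decide +kernel⟩

def jCO42_25 : PLift (cCO 22 0 25 4 0 13 = true) := ⟨by decide +kernel⟩

def jCO47_25 : PLift (cCO 24 1 25 4 0 12 = true) := ⟨by decide +kernel⟩

end Pool.Agent.Work.MP_6bf1e5_an.HD
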