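import Pool.Agent.Work.MP_6bf1e5_an.HD.CfgN

namespace Pool.Agent.Work.MP_6bf1e5_an.HD

open Pool.Agent.Lib.KLA Pool.Agent.Lib.KBlk

def jCO0_25 : PLift (cCO 1 0 25 4 0 55 = true) := ⟨by decide +kernel⟩

def jCO2_9 : PLift (cCO 2 0 9 4 0 53 = true) := ⟨by decide +kernel⟩

def jCO3_21 : PLift (cCO 2 1 21 4 0 56 = true) := ⟨by decide +kernel⟩

def jCO5_5 : PLift (cCO 3 1 5 4 0 54 = true) := ⟨by decide +kernel⟩

def jCO6_17 : PLift (cCO 4 0 17 4 0 49 = true) := ⟨by decide +kernel⟩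

def jCO8_5 : PLift (cCO 5 0 5 4 0 47 = true) := ⟨by decide +kernel⟩

def jCO9_21 : PLift (cCO 5 1 21 4 0 50 = true) := ⟨by decide +kernel⟩

def jCO11_13 : PLift (cCO 6 1 13 4 0 48 = true) := ⟨by decide +kernel⟩

def jCO13_7 : PLift (cCO 7 1 7 2 0 46 = true) := ⟨by decide +kernel⟩

def jCO14_21 : PLift (cCO 8 0 21 4 0 41 = true) := ⟨by decide +kernel⟩

def jCO16_17 : PLift (cCO 9 0 17 4 0 39 = true) := ⟨by decide +kernel⟩

def jCO18_17 : PLift (cCO 10 0 17 4 0 37 = true) := ⟨by decide +kernel⟩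

def jCO20_17 : PLift (cCO 11 0 17 4 0 35 = true) := ⟨by decide +kernel⟩

def jCO22_17 : PLift (cCO 12 0 17 4 0 33 = true) := ⟨by decide +kernel⟩

def jCO24_21 : PLift (cCO 13 0 21 4 0 31 = true) := ⟨by decide +kernel⟩

def jCO27_14 : PLift (cCO 14 1 14 3 0 32 = true) := ⟨by decide +kernel⟩

def jCO29_21 : PLift (cCO 15 1 21 4 0 30 = true) := ⟨by decide +kernel⟩

def jCO32_17 : PLift (cCO 17 0 17 4 0 23 = true) := ⟨by decide +kernel⟩

def jCO35_21 : PLift (cCO 18 1 21 4 0 24 = true) := ⟨by decide +kernel⟩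

def jCO38_25 : PLift (cCO 20 0 25 4 0 17 = true) := ⟨by decide +kernel⟩

def jCO43_22 : PLift (cCO 22 1 22 3 0 16 = true) := ⟨by decide +kernel⟩

def jCO48_25 : PLift (cCO 25 0 25 4 0 7 = true) := ⟨by decide +kernel⟩

end Pool.Agent.Work.MP_6bf1e5_an.HD
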