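import Pool.Agent.Work.MP_6bf1e5_an.HD.CfgN

namespace Pool.Agent.Work.MP_6bf1e5_an.HD

open Pool.Agent.Lib.KLA Pool.Agent.Lib.KBlk

def jCO1_5 : PLift (cCO 1 1 5 4 0 58 = true) := ⟨by decide +kernel⟩

def jCO2_17 : PLift (cCO 2 0 17 4 0 53 = true) := ⟨by decide +kernel⟩

def jCO4_3 : PLift (cCO 3 0 3 2 0 51 = true) := ⟨by decide +kernel⟩

def jCO5_13 : PLift (cCO 3 1 13 4 0 54 = true) := ⟨by decide +kernel⟩

def jCO6_25 : PLift (cCO 4 0 25 4 0 49 = true) := ⟨by decide +kernel⟩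

def jCO8_13 : PLift (cCO 5 0 13 4 0 47 = true) := ⟨by decide +kernel⟩

def jCO10_6 : PLift (cCO 6 0 6 3 0 45 = true) := ⟨by decide +kernel⟩

def jCO11_21 : PLift (cCO 6 1 21 4 0 48 = true) := ⟨by decide +kernel⟩

def jCO13_13 : PLift (cCO 7 1 13 4 0 46 = true) := ⟨by decide +kernel⟩

def jCO15_8 : PLift (cCO 8 1 8 1 0 44 = true) := ⟨by decide +kernel⟩

def jCO16_25 : PLift (cCO 9 0 25 4 0 39 = true) := ⟨by decide +kernel⟩

def jCO18_25 : PLift (cCO 10 0 25 4 0 37 = true) := ⟨by decide +kernel⟩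

def jCO20_25 : PLift (cCO 11 0 25 4 0 35 = true) := ⟨by decide +kernel⟩

def jCO22_25 : PLift (cCO 12 0 25 4 0 33 = true) := ⟨by decide +kernel⟩

def jCO25_13 : PLift (cCO 13 1 13 4 0 34 = true) := ⟨by decide +kernel⟩

def jCO27_21 : PLift (cCO 14 1 21 4 0 32 = true) := ⟨by decide +kernel⟩

def jCO30_16 : PLift (cCO 16 0 16 1 0 25 = true) := ⟨by decide +kernel⟩

def jCO32_25 : PLift (cCO 17 0 25 4 0 23 = true) := ⟨by decide +kernel⟩

def jCO36_19 : PLift (cCO 19 0 19 2 0 19 = true) := ⟨by decide +kernel⟩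

def jCO39_21 : PLift (cCO 20 1 21 4 0 20 = true) := ⟨by decide +kernel⟩

def jCO44_23 : PLift (cCO 23 0 23 2 0 11 = true) := ⟨by decide +kernel⟩

def jCO50_26 : PLift (cCO 26 0 26 3 0 5 = true) := ⟨by decide +kernel⟩

end Pool.Agent.Work.MP_6bf1e5_an.HD
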