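import Pool.Agent.Work.MP_6bf1e5_an.HD.CfgN

namespace Pool.Agent.Work.MP_6bf1e5_an.HD

open Pool.Agent.Lib.KLA Pool.Agent.Lib.KBlk

def jCO1_9 : PLift (cCO 1 1 9 4 0 58 = true) := ⟨by decide +kernel⟩

def jCO2_21 : PLift (cCO 2 0 21 4 0 53 = true) := ⟨by decide +kernel⟩

def jCO4_5 : PLift (cCO 3 0 5 4 0 51 = true) := ⟨by decide +kernel⟩

def jCO5_17 : PLift (cCO 3 1 17 4 0 54 = true) := ⟨by decide +kernel⟩

def jCO7_4 : PLift (cCO 4 1 4 1 0 52 = true) := ⟨by decide +kernel⟩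

def jCO8_17 : PLift (cCO 5 0 17 4 0 47 = true) := ⟨by decide +kernel⟩

def jCO10_9 : PLift (cCO 6 0 9 4 0 45 = true) := ⟨by decide +kernel⟩

def jCO11_25 : PLift (cCO 6 1 25 4 0 48 = true) := ⟨by decide +kernel⟩

def jCO13_17 : PLift (cCO 7 1 17 4 0 46 = true) := ⟨by decide +kernel⟩

def jCO15_9 : PLift (cCO 8 1 9 4 0 44 = true) := ⟨by decide +kernel⟩

def jCO17_9 : PLift (cCO 9 1 9 4 0 42 = true) := ⟨by decide +kernel⟩

def jCO19_10 : PLift (cCO 10 1 10 3 0 40 = true) := ⟨by decide +kernel⟩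

def jCO21_11 : PLift (cCO 11 1 11 2 0 38 = true) := ⟨by decide +kernel⟩

def jCO23_12 : PLift (cCO 12 1 12 1 0 36 = true) := ⟨by decide +kernel⟩

def jCO25_17 : PLift (cCO 13 1 17 4 0 34 = true) := ⟨by decide +kernel⟩

def jCO27_25 : PLift (cCO 14 1 25 4 0 32 = true) := ⟨by decide +kernel⟩

def jCO30_17 : PLift (cCO 16 0 17 4 0 25 = true) := ⟨by decide +kernel⟩

def jCO33_17 : PLift (cCO 17 1 17 4 0 26 = true) := ⟨by decide +kernel⟩

def jCO36_21 : PLift (cCO 19 0 21 4 0 19 = true) := ⟨by decide +kernel⟩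

def jCO39_25 : PLift (cCO 20 1 25 4 0 20 = true) := ⟨by decide +kernel⟩

def jCO44_25 : PLift (cCO 23 0 25 4 0 11 = true) := ⟨by decide +kernel⟩

def jCO51_26 : PLift (cCO 26 1 26 3 0 8 = true) := ⟨by decide +kernel⟩

end Pool.Agent.Work.MP_6bf1e5_an.HD
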