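import Pool.Agent.Work.MP_6bf1e5_an.HD.CfgN

namespace Pool.Agent.Work.MP_6bf1e5_an.HD

open Pool.Agent.Lib.KLA Pool.Agent.Lib.KBlk

def jNF2 : PLift (cNF 2 = true) := ⟨by decide +kernel⟩

def jNF9 : PLift (cNF 9 = true) := ⟨by decide +kernel⟩

def jNK0 : PLift (cNK 0 = true) := ⟨by decide +kernel⟩

def jNK7 : PLift (cNK 7 = true) := ⟨by decide +kernel⟩

def jNK14 : PLift (cNK 14 = true) := ⟨by decide +kernel⟩

def jNU5 : PLift (cNU 5 = true) := ⟨by decide +kernel⟩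

def jNU12 : PLift (cNU 12 = true) := ⟨by decide +kernel⟩

def jHI5 : PLift (cHI 5 = true) := ⟨by decide +kernel⟩

def jHI12 : PLift (cHI 12 = true) := ⟨by decide +kernel⟩

def jHI19 : PLift (cHI 19 = true) := ⟨by decide +kernel⟩

def jX12 : PLift (cX1 2 = true) := ⟨by decide +kernel⟩

def jZ1 : PLift (H.Ps.fZ1 dat 30 17727116353 = true) := ⟨by decide +kernel⟩

end Pool.Agent.Work.MP_6bf1e5_an.HD
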