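import Pool.Agent.Work.MP_6bf1e5_an.HD.CfgN

namespace Pool.Agent.Work.MP_6bf1e5_an.HD

open Pool.Agent.Lib.KLA Pool.Agent.Lib.KBlk

def jNF3 : PLift (cNF 3 = true) := ⟨by decide +kernel⟩

def jNF10 : PLift (cNF 10 = true) := ⟨by decide +kernel⟩

def jNK1 : PLift (cNK 1 = true) := ⟨by decide +kernel⟩

def jNK8 : PLift (cNK 8 = true) := ⟨by decide +kernel⟩

def jNK15 : PLift (cNK 15 = true) := ⟨by decide +kernel⟩

def jNU6 : PLift (cNU 6 = true) := ⟨by decide +kernel⟩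

def jNU13 : PLift (cNU 13 = true) := ⟨by decide +kernel⟩

def jHI6 : PLift (cHI 6 = true) := ⟨by decide +kernel⟩

def jHI13 : PLift (cHI 13 = true) := ⟨by decide +kernel⟩

def jHI20 : PLift (cHI 20 = true) := ⟨by decide +kernel⟩

def jX13 : PLift (cX1 3 = true) := ⟨by decide +kernel⟩

end Pool.Agent.Work.MP_6bf1e5_an.HD
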