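import Pool.Agent.Work.MP_6bf1e5_an.HD.CfgN

namespace Pool.Agent.Work.MP_6bf1e5_an.HD

open Pool.Agent.Lib.KLA Pool.Agent.Lib.KBlk

def jNF4 : PLift (cNF 4 = true) := ⟨by decide +kernel⟩

def jNF11 : PLift (cNF 11 = true) := ⟨by decide +kernel⟩

def jNK2 : PLift (cNK 2 = true) := ⟨by decide +kernel⟩

def jNK9 : PLift (cNK 9 = true) := ⟨by decide +kernel⟩

def jNU0 : PLift (cNU 0 = true) := ⟨by decide +kernel⟩

def jNU7 : PLift (cNU 7 = true) := ⟨by decide +kernel⟩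

def jHI0 : PLift (cHI 0 = true) := ⟨by decide +kernel⟩

def jHI7 : PLift (cHI 7 = true) := ⟨by decide +kernel⟩

def jHI14 : PLift (cHI 14 = true) := ⟨by decide +kernel⟩

def jHI21 : PLift (cHI 21 = true) := ⟨by decide +kernel⟩

def jX14 : PLift (cX1 4 = true) := ⟨by decide +kernel⟩

end Pool.Agent.Work.MP_6bf1e5_an.HD
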