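import Pool.Agent.Work.MP_6bf1e5_an.HD.CfgN

namespace Pool.Agent.Work.MP_6bf1e5_an.HD

open Pool.Agent.Lib.KLA Pool.Agent.Lib.KBlk

def jNF5 : PLift (cNF 5 = true) := ⟨by decide +kernel⟩

def jNF12 : PLift (cNF 12 = true) := ⟨by decide +kernel⟩

def jNK3 : PLift (cNK 3 = true) := ⟨by decide +kernel⟩

def jNK10 : PLift (cNK 10 = true) := ⟨by decide +kernel⟩

def jNU1 : PLift (cNU 1 = true) := ⟨by decide +kernel⟩

def jNU8 : PLift (cNU 8 = true) := ⟨by decide +kernel⟩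

def jHI1 : PLift (cHI 1 = true) := ⟨by decide +kernel⟩

def jHI8 : PLift (cHI 8 = true) := ⟨by decide +kernel⟩

def jHI15 : PLift (cHI 15 = true) := ⟨by decide +kernel⟩

def jHI22 : PLift (cHI 22 = true) := ⟨by decide +kernel⟩

def jX15 : PLift (cX1 5 = true) := ⟨by decide +kernel⟩

end Pool.Agent.Work.MP_6bf1e5_an.HD
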