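import Pool.Agent.Work.MP_6bf1e5_an.HD.CfgN

namespace Pool.Agent.Work.MP_6bf1e5_an.HD

open Pool.Agent.Lib.KLA Pool.Agent.Lib.KBlk

def jNF6 : PLift (cNF 6 = true) := ⟨by decide +kernel⟩

def jNF13 : PLift (cNF 13 = true) := ⟨by decide +kernel⟩

def jNK4 : PLift (cNK 4 = true) := ⟨by decide +kernel⟩

def jNK11 : PLift (cNK 11 = true) := ⟨by decide +kernel⟩

def jNU2 : PLift (cNU 2 = true) := ⟨by decide +kernel⟩

def jNU9 : PLift (cNU 9 = true) := ⟨by decide +kernel⟩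

def jHI2 : PLift (cHI 2 = true) := ⟨by decide +kernel⟩

def jHI9 : PLift (cHI 9 = true) := ⟨by decide +kernel⟩

def jHI16 : PLift (cHI 16 = true) := ⟨by decide +kernel⟩

def jHI23 : PLift (cHI 23 = true) := ⟨by decide +kernel⟩

def jX16 : PLift (cX1 6 = true) := ⟨by decide +kernel⟩

end Pool.Agent.Work.MP_6bf1e5_an.HD
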