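import Pool.Agent.Work.MP_6bf1e5_an.HD.CfgN

namespace Pool.Agent.Work.MP_6bf1e5_an.HD

open Pool.Agent.Lib.KLA Pool.Agent.Lib.KBlk

def jCO0_1 : PLift (cCO 1 0 1 4 0 55 = true) := ⟨by decide +kernel⟩

def jCO1_13 : PLift (cCO 1 1 13 4 0 58 = true) := ⟨by decide +kernel⟩

def jCO2_25 : PLift (cCO 2 0 25 4 0 53 = true) := ⟨by decide +kernel⟩

def jCO4_9 : PLift (cCO 3 0 9 4 0 51 = true) := ⟨by decide +kernel⟩

def jCO5_21 : PLift (cCO 3 1 21 4 0 54 = true) := ⟨by decide +kernel⟩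

def jCO7_5 : PLift (cCO 4 1 5 4 0 52 = true) := ⟨by decide +kernel⟩

def jCO8_21 : PLift (cCO 5 0 21 4 0 47 = true) := ⟨by decide +kernel⟩

def jCO10_13 : PLift (cCO 6 0 13 4 0 45 = true) := ⟨by decide +kernel⟩

def jCO12_7 : PLift (cCO 7 0 7 2 0 43 = true) := ⟨by decide +kernel⟩

def jCO13_21 : PLift (cCO 7 1 21 4 0 46 = true) := ⟨by decide +kernel⟩

def jCO15_13 : PLift (cCO 8 1 13 4 0 44 = true) := ⟨by decide +kernel⟩

def jCO17_13 : PLift (cCO 9 1 13 4 0 42 = true) := ⟨by decide +kernel⟩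

def jCO19_13 : PLift (cCO 10 1 13 4 0 40 = true) := ⟨by decide +kernel⟩

def jCO21_13 : PLift (cCO 11 1 13 4 0 38 = true) := ⟨by decide +kernel⟩

def jCO23_13 : PLift (cCO 12 1 13 4 0 36 = true) := ⟨by decide +kernel⟩

def jCO25_21 : PLift (cCO 13 1 21 4 0 34 = true) := ⟨by decide +kernel⟩

def jCO28_15 : PLift (cCO 15 0 15 2 0 27 = true) := ⟨by decide +kernel⟩

def jCO30_21 : PLift (cCO 16 0 21 4 0 25 = true) := ⟨by decide +kernel⟩

def jCO33_21 : PLift (cCO 17 1 21 4 0 26 = true) := ⟨by decide +kernel⟩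

def jCO36_25 : PLift (cCO 19 0 25 4 0 19 = true) := ⟨by decide +kernel⟩

def jCO40_21 : PLift (cCO 21 0 21 4 0 15 = true) := ⟨by decide +kernel⟩

def jCO45_23 : PLift (cCO 23 1 23 2 0 14 = true) := ⟨by decide +kernel⟩

def jCO52_27 : PLift (cCO 27 0 27 2 0 3 = true) := ⟨by decide +kernel⟩

end Pool.Agent.Work.MP_6bf1e5_an.HD
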