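import Pool.Agent.Work.MP_6bf1e5_an.HD.Dat

namespace Pool.Agent.Work.MP_6bf1e5_an.HD

open Pool.Agent.Lib.KLA Pool.Agent.Lib.KBlk H.Ps

def jOs : PLift (dat.szs = true) := ⟨by decide +kernel⟩

def jOX : PLift (pok dat.V dat.kX (fun _ => dat.c1) dat.X dat.nm = true) := ⟨by decide +kernel⟩

def jOK : PLift (pok dat.V dat.kK (fun _ => dat.c1) dat.K dat.nm = true) := ⟨by decide +kernel⟩

def jOL : PLift (pok dat.V dat.kL (fun _ => dat.c1) dat.La dat.nm = true) := ⟨by decide +kernel⟩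

def jOT : PLift (pok dat.V dat.kT (fun _ => dat.cT) dat.Th dat.nm = true) := ⟨by decide +kernel⟩

def jOR : PLift (pok dat.V dat.kR dat.cR dat.R dat.nm = true) := ⟨by decide +kernel⟩

def jOP : PLift (pok dat.V dat.kP (fun _ => dat.c1) dat.TP dat.nt = true) := ⟨by decide +kernel⟩

def jOU : PLift (pok dat.V dat.kU dat.cU dat.U dat.nh = true) := ⟨by decide +kernel⟩

def jOZ : PLift (dat.Zc.ok dat.V dat.kZ (16 * dat.c1) = true) := ⟨by decide +kernel⟩

end Pool.Agent.Work.MP_6bf1e5_an.HD
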