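import Pool.Agent.Work.MP_6bf1e5_an.HD.CfgP

namespace Pool.Agent.Work.MP_6bf1e5_an.HD

open Pool.Agent.Lib.KLA Pool.Agent.Lib.KBlk

def jPC0 : PLift (cPC 0 = true) := ⟨by decide +kernel⟩

def jPC3 : PLift (cPC 3 = true) := ⟨by decide +kernel⟩

def jPC6 : PLift (cPC 6 = true) := ⟨by decide +kernel⟩

def jPC9 : PLift (cPC 9 = true) := ⟨by decide +kernel⟩

def jPC12 : PLift (cPC 12 = true) := ⟨by decide +kernel⟩

def jPC15 : PLift (cPC 15 = true) := ⟨by decide +kernel⟩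

def jPC18 : PLift (cPC 18 = true) := ⟨by decide +kernel⟩

def jPC21 : PLift (cPC 21 = true) := ⟨by decide +kernel⟩

def jPC24 : PLift (cPC 24 = true) := ⟨by decide +kernel⟩

def jPC27 : PLift (cPC 27 = true) := ⟨by decide +kernel⟩

def jPC30 : PLift (cPC 30 = true) := ⟨by decide +kernel⟩

def jPC33 : PLift (cPC 33 = true) := ⟨by decide +kernel⟩

def jPC36 : PLift (cPC 36 = true) := ⟨by decide +kernel⟩

def jPC39 : PLift (cPC 39 = true) := ⟨by decide +kernel⟩

def jPC42 : PLift (cPC 42 = true) := ⟨by decide +kernel⟩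

def jPC45 : PLift (cPC 45 = true) := ⟨by decide +kernel⟩

def jPC48 : PLift (cPC 48 = true) := ⟨by decide +kernel⟩

def jPC51 : PLift (cPC 51 = true) := ⟨by decide +kernel⟩

def jPC54 : PLift (cPC 54 = true) := ⟨by decide +kernel⟩

def jPX1 : PLift (cPX 1 = true) := ⟨by decide +kernel⟩

def jPX4 : PLift (cPX 4 = true) := ⟨by decide +kernel⟩

def jPX7 : PLift (cPX 7 = true) := ⟨by decide +kernel⟩

end Pool.Agent.Work.MP_6bf1e5_an.HD
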