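import Pool.Agent.Work.MP_6bf1e5_an.HD.CfgP

namespace Pool.Agent.Work.MP_6bf1e5_an.HD

open Pool.Agent.Lib.KLA Pool.Agent.Lib.KBlk

def jPC1 : PLift (cPC 1 = true) := ⟨by decide +kernel⟩

def jPC4 : PLift (cPC 4 = true) := ⟨by decide +kernel⟩

def jPC7 : PLift (cPC 7 = true) := ⟨by decide +kernel⟩

def jPC10 : PLift (cPC 10 = true) := ⟨by decide +kernel⟩

def jPC13 : PLift (cPC 13 = true) := ⟨by decide +kernel⟩

def jPC16 : PLift (cPC 16 = true) := ⟨by decide +kernel⟩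

def jPC19 : PLift (cPC 19 = true) := ⟨by decide +kernel⟩

def jPC22 : PLift (cPC 22 = true) := ⟨by decide +kernel⟩

def jPC25 : PLift (cPC 25 = true) := ⟨by decide +kernel⟩

def jPC28 : PLift (cPC 28 = true) := ⟨by decide +kernel⟩

def jPC31 : PLift (cPC 31 = true) := ⟨by decide +kernel⟩

def jPC34 : PLift (cPC 34 = true) := ⟨by decide +kernel⟩

def jPC37 : PLift (cPC 37 = true) := ⟨by decide +kernel⟩

def jPC40 : PLift (cPC 40 = true) := ⟨by decide +kernel⟩

def jPC43 : PLift (cPC 43 = true) := ⟨by decide +kernel⟩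

def jPC46 : PLift (cPC 46 = true) := ⟨by decide +kernel⟩

def jPC49 : PLift (cPC 49 = true) := ⟨by decide +kernel⟩

def jPC52 : PLift (cPC 52 = true) := ⟨by decide +kernel⟩

def jPC55 : PLift (cPC 55 = true) := ⟨by decide +kernel⟩

def jPX2 : PLift (cPX 2 = true) := ⟨by decide +kernel⟩

def jPX5 : PLift (cPX 5 = true) := ⟨by decide +kernel⟩

def jPY : PLift (H.Ps.pwY dat 16 31 16 18 zP 11216091686898377 = true) := ⟨by decide +kernel⟩

end Pool.Agent.Work.MP_6bf1e5_an.HD
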