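import Pool.Agent.Work.MP_6bf1e5_an.HD.CfgP

namespace Pool.Agent.Work.MP_6bf1e5_an.HD

open Pool.Agent.Lib.KLA Pool.Agent.Lib.KBlk

def jPC2 : PLift (cPC 2 = true) := ⟨by decide +kernel⟩

def jPC5 : PLift (cPC 5 = true) := ⟨by decide +kernel⟩

def jPC8 : PLift (cPC 8 = true) := ⟨by decide +kernel⟩

def jPC11 : PLift (cPC 11 = true) := ⟨by decide +kernel⟩

def jPC14 : PLift (cPC 14 = true) := ⟨by decide +kernel⟩

def jPC17 : PLift (cPC 17 = true) := ⟨by decide +kernel⟩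

def jPC20 : PLift (cPC 20 = true) := ⟨by decide +kernel⟩

def jPC23 : PLift (cPC 23 = true) := ⟨by decide +kernel⟩

def jPC26 : PLift (cPC 26 = true) := ⟨by decide +kernel⟩

def jPC29 : PLift (cPC 29 = true) := ⟨by decide +kernel⟩

def jPC32 : PLift (cPC 32 = true) := ⟨by decide +kernel⟩

def jPC35 : PLift (cPC 35 = true) := ⟨by decide +kernel⟩

def jPC38 : PLift (cPC 38 = true) := ⟨by decide +kernel⟩

def jPC41 : PLift (cPC 41 = true) := ⟨by decide +kernel⟩

def jPC44 : PLift (cPC 44 = true) := ⟨by decide +kernel⟩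

def jPC47 : PLift (cPC 47 = true) := ⟨by decide +kernel⟩

def jPC50 : PLift (cPC 50 = true) := ⟨by decide +kernel⟩

def jPC53 : PLift (cPC 53 = true) := ⟨by decide +kernel⟩

def jPX0 : PLift (cPX 0 = true) := ⟨by decide +kernel⟩

def jPX3 : PLift (cPX 3 = true) := ⟨by decide +kernel⟩

def jPX6 : PLift (cPX 6 = true) := ⟨by decide +kernel⟩

end Pool.Agent.Work.MP_6bf1e5_an.HD
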