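import Pool.Agent.Work.MP_6bf1e5_an.HD.CfgQ

namespace Pool.Agent.Work.MP_6bf1e5_an.HD

open Pool.Agent.Lib.KLA Pool.Agent.Lib.KBlk

def cQB1 : PLift (fQB 1 = true) := ⟨by decide +kernel⟩

def cQB10 : PLift (fQB 10 = true) := ⟨by decide +kernel⟩

def cQB15 : PLift (fQB 15 = true) := ⟨by decide +kernel⟩

def cQA3 : PLift (fQA 3 = true) := ⟨by decide +kernel⟩

def cQA5 : PLift (fQA 5 = true) := ⟨by decide +kernel⟩

def cQB25 : PLift (fQB 25 = true) := ⟨by decide +kernel⟩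

def cQA8 : PLift (fQA 8 = true) := ⟨by decide +kernel⟩

def cQA20 : PLift (fQA 20 = true) := ⟨by decide +kernel⟩

def cQA12 : PLift (fQA 12 = true) := ⟨by decide +kernel⟩

def cQY3 : PLift (fQY 3 = true) := ⟨by decide +kernel⟩

end Pool.Agent.Work.MP_6bf1e5_an.HD
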