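import Pool.Agent.Work.MP_6bf1e5_an.HD.CfgQ

namespace Pool.Agent.Work.MP_6bf1e5_an.HD

open Pool.Agent.Lib.KLA Pool.Agent.Lib.KBlk

def cQB2 : PLift (fQB 2 = true) := ⟨by decide +kernel⟩

def cQB9 : PLift (fQB 9 = true) := ⟨by decide +kernel⟩

def cQB14 : PLift (fQB 14 = true) := ⟨by decide +kernel⟩

def cQA2 : PLift (fQA 2 = true) := ⟨by decide +kernel⟩

def cQB22 : PLift (fQB 22 = true) := ⟨by decide +kernel⟩

def cQA7 : PLift (fQA 7 = true) := ⟨by decide +kernel⟩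

def cQA15 : PLift (fQA 15 = true) := ⟨by decide +kernel⟩

def cQA10 : PLift (fQA 10 = true) := ⟨by decide +kernel⟩

def cQA22 : PLift (fQA 22 = true) := ⟨by decide +kernel⟩

def cQY4 : PLift (fQY 4 = true) := ⟨by decide +kernel⟩

end Pool.Agent.Work.MP_6bf1e5_an.HD
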