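import Pool.Agent.Work.MP_6bf1e5_an.HD.CfgQ

namespace Pool.Agent.Work.MP_6bf1e5_an.HD

open Pool.Agent.Lib.KLA Pool.Agent.Lib.KBlk

def cQB3 : PLift (fQB 3 = true) := ⟨by decide +kernel⟩

def cQB7 : PLift (fQB 7 = true) := ⟨by decide +kernel⟩

def cQA1 : PLift (fQA 1 = true) := ⟨by decide +kernel⟩

def cQB19 : PLift (fQB 19 = true) := ⟨by decide +kernel⟩

def cQB21 : PLift (fQB 21 = true) := ⟨by decide +kernel⟩

def cQB24 : PLift (fQB 24 = true) := ⟨by decide +kernel⟩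

def cQA17 : PLift (fQA 17 = true) := ⟨by decide +kernel⟩

def cQA9 : PLift (fQA 9 = true) := ⟨by decide +kernel⟩

def cQA25 : PLift (fQA 25 = true) := ⟨by decide +kernel⟩

def cQZ : PLift (fQZ = true) := ⟨by decide +kernel⟩

end Pool.Agent.Work.MP_6bf1e5_an.HD
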