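import Pool.Agent.Work.MP_6bf1e5_an.HD.CfgQ

namespace Pool.Agent.Work.MP_6bf1e5_an.HD

open Pool.Agent.Lib.KLA Pool.Agent.Lib.KBlk

def cQB4 : PLift (fQB 4 = true) := ⟨by decide +kernel⟩

def cQB8 : PLift (fQB 8 = true) := ⟨by decide +kernel⟩

def cQB12 : PLift (fQB 12 = true) := ⟨by decide +kernel⟩

def cQB17 : PLift (fQB 17 = true) := ⟨by decide +kernel⟩

def cQA0 : PLift (fQA 0 = true) := ⟨by decide +kernel⟩

def cQB26 : PLift (fQB 26 = true) := ⟨by decide +kernel⟩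

def cQA13 : PLift (fQA 13 = true) := ⟨by decide +kernel⟩

def cQA18 : PLift (fQA 18 = true) := ⟨by decide +kernel⟩

def cQA24 : PLift (fQA 24 = true) := ⟨by decide +kernel⟩

def cQY1 : PLift (fQY 1 = true) := ⟨by decide +kernel⟩

def cQY6 : PLift (fQY 6 = true) := ⟨by decide +kernel⟩

end Pool.Agent.Work.MP_6bf1e5_an.HD
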