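import Pool.Agent.Work.MP_6bf1e5_an.HD.CfgQ

namespace Pool.Agent.Work.MP_6bf1e5_an.HD

open Pool.Agent.Lib.KLA Pool.Agent.Lib.KBlk

def cQB5 : PLift (fQB 5 = true) := ⟨by decide +kernel⟩

def cQB6 : PLift (fQB 6 = true) := ⟨by decide +kernel⟩

def cQB13 : PLift (fQB 13 = true) := ⟨by decide +kernel⟩

def cQB18 : PLift (fQB 18 = true) := ⟨by decide +kernel⟩

def cQA4 : PLift (fQA 4 = true) := ⟨by decide +kernel⟩

def cQA6 : PLift (fQA 6 = true) := ⟨by decide +kernel⟩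

def cQA16 : PLift (fQA 16 = true) := ⟨by decide +kernel⟩

def cQA19 : PLift (fQA 19 = true) := ⟨by decide +kernel⟩

def cQA23 : PLift (fQA 23 = true) := ⟨by decide +kernel⟩

def cQY0 : PLift (fQY 0 = true) := ⟨by decide +kernel⟩

def cQY5 : PLift (fQY 5 = true) := ⟨by decide +kernel⟩

end Pool.Agent.Work.MP_6bf1e5_an.HD
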