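import Pool.Agent.Work.MP_6bf1e5_an.HD.CkQ_0
import Pool.Agent.Work.MP_6bf1e5_an.HD.CkQ_1
import Pool.Agent.Work.MP_6bf1e5_an.HD.CkQ_2
import Pool.Agent.Work.MP_6bf1e5_an.HD.CkQ_3
import Pool.Agent.Work.MP_6bf1e5_an.HD.CkQ_4
import Pool.Agent.Work.MP_6bf1e5_an.HD.CkQ_5

namespace Pool.Agent.Work.MP_6bf1e5_an.HD

open Pool.Agent.Lib.KLA Pool.Agent.Lib.KBlk

theorem allQA : All fQA 26 :=
  All.step cQA25.down ( All.step cQA24.down (
  All.step cQA23.down ( All.step cQA22.down ( All.step cQA21.down (
  All.step cQA20.down ( All.step cQA19.down ( All.step cQA18.down (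
  All.step cQA17.down ( All.step cQA16.down ( All.step cQA15.down (
  All.step cQA14.down ( All.step cQA13.down ( All.step cQA12.down (
  All.step cQA11.down ( All.step cQA10.down ( All.step cQA9.down (
  All.step cQA8.down ( All.step cQA7.down ( All.step cQA6.down (
  All.step cQA5.down ( All.step cQA4.down ( All.step cQA3.down (
  All.step cQA2.down ( All.step cQA1.down ( All.step cQA0.down (All.zero _))))))))))))))))))))))))))

theorem allQY : All fQY 7 :=
  All.step cQY6.down (
  All.step cQY5.down ( All.step cQY4.down ( All.step cQY3.down (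
  All.step cQY2.down ( All.step cQY1.down ( All.step cQY0.down (All.zero _)))))))

theorem allQB : All fQB 28 :=
  All.step cQB27.down (
  All.step cQB26.down ( All.step cQB25.down ( All.step cQB24.down (
  All.step cQB23.down ( All.step cQB22.down ( All.step cQB21.down (
  All.step cQB20.down ( All.step cQB19.down ( All.step cQB18.down (
  All.step cQB17.down ( All.step cQB16.down ( All.step cQB15.down (
  All.step cQB14.down ( All.step cQB13.down ( All.step cQB12.down (
  All.step cQB11.down ( All.step cQB10.down ( All.step cQB9.down (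
  All.step cQB8.down ( All.step cQB7.down ( All.step cQB6.down (
  All.step cQB5.down ( All.step cQB4.down ( All.step cQB3.down (
  All.step cQB2.down ( All.step cQB1.down ( All.step cQB0.down (All.zero _))))))))))))))))))))))))))))

end Pool.Agent.Work.MP_6bf1e5_an.HD
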