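import Pool.Agent.Work.MP_6bf1e5_an.HD.CfgQ

namespace Pool.Agent.Work.MP_6bf1e5_an.HD

open Pool.Agent.Lib.KLA Pool.Agent.Lib.KBlk

def cQB0 : PLift (fQB 0 = true) := ⟨by decide +kernel⟩

def cQB11 : PLift (fQB 11 = true) := ⟨by decide +kernel⟩

def cQB16 : PLift (fQB 16 = true) := ⟨by decide +kernel⟩

def cQB20 : PLift (fQB 20 = true) := ⟨by decide +kernel⟩

def cQB23 : PLift (fQB 23 = true) := ⟨by decide +kernel⟩

def cQA14 : PLift (fQA 14 = true) := ⟨by decide +kernel⟩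

def cQB27 : PLift (fQB 27 = true) := ⟨by decide +kernel⟩

def cQA21 : PLift (fQA 21 = true) := ⟨by decide +kernel⟩

def cQA11 : PLift (fQA 11 = true) := ⟨by decide +kernel⟩

def cQY2 : PLift (fQY 2 = true) := ⟨by decide +kernel⟩

end Pool.Agent.Work.MP_6bf1e5_an.HD
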