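import Pool.Agent.Work.MP_6bf1e5_an.HD.CfgS

namespace Pool.Agent.Work.MP_6bf1e5_an.HD

open Pool.Agent.Lib.KBlk H.Pz

def jAS : PLift (fAS = true) := ⟨by decide +kernel⟩

def jS11_1 : PLift (fS1 1 1 1 4 0 58 = true) := ⟨by decide +kernel⟩

def jS16_29 : PLift (fS1 4 0 29 4 0 49 = true) := ⟨by decide +kernel⟩

def jS112_25 : PLift (fS1 7 0 25 4 0 43 = true) := ⟨by decide +kernel⟩

def jS118_21 : PLift (fS1 10 0 21 4 0 37 = true) := ⟨by decide +kernel⟩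

def jS124_17 : PLift (fS1 13 0 17 4 0 31 = true) := ⟨by decide +kernel⟩

def jS130_13 : PLift (fS1 16 0 13 4 0 25 = true) := ⟨by decide +kernel⟩

def jS136_9 : PLift (fS1 19 0 9 4 0 19 = true) := ⟨by decide +kernel⟩

def jS142_5 : PLift (fS1 22 0 5 4 0 13 = true) := ⟨by decide +kernel⟩

def jS148_1 : PLift (fS1 25 0 1 4 0 7 = true) := ⟨by decide +kernel⟩

def jS153_29 : PLift (fS1 27 1 29 4 0 6 = true) := ⟨by decide +kernel⟩

def jVY3_25 : PLift (fVY 2 1 25 4 0 12 = true) := ⟨by decide +kernel⟩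

def jVY9_21 : PLift (fVY 5 1 21 4 0 10 = true) := ⟨by decide +kernel⟩

def jVY15_17 : PLift (fVY 8 1 17 4 0 8 = true) := ⟨by decide +kernel⟩

def jVY21_13 : PLift (fVY 11 1 13 4 0 7 = true) := ⟨by decide +kernel⟩

def jVY27_9 : PLift (fVY 14 1 9 4 0 6 = true) := ⟨by decide +kernel⟩

def jVY33_5 : PLift (fVY 17 1 5 4 0 5 = true) := ⟨by decide +kernel⟩

def jVY39_1 : PLift (fVY 20 1 1 4 0 5 = true) := ⟨by decide +kernel⟩

def jVY44_29 : PLift (fVY 23 0 29 4 0 3 = true) := ⟨by decide +kernel⟩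

def jVY50_25 : PLift (fVY 26 0 25 4 0 2 = true) := ⟨by decide +kernel⟩

end Pool.Agent.Work.MP_6bf1e5_an.HD
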