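import Pool.Agent.Work.MP_6bf1e5_an.HD.CfgS

namespace Pool.Agent.Work.MP_6bf1e5_an.HD

open Pool.Agent.Lib.KBlk H.Pz

def jZU13 : PLift (fZU 13 4 = true) := ⟨by decide +kernel⟩

def jS12_13 : PLift (fS1 2 0 13 4 0 53 = true) := ⟨by decide +kernel⟩

def jS18_9 : PLift (fS1 5 0 9 4 0 47 = true) := ⟨by decide +kernel⟩

def jS114_5 : PLift (fS1 8 0 5 4 0 41 = true) := ⟨by decide +kernel⟩

def jS120_1 : PLift (fS1 11 0 1 4 0 35 = true) := ⟨by decide +kernel⟩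

def jS125_29 : PLift (fS1 13 1 29 4 0 34 = true) := ⟨by decide +kernel⟩

def jS131_25 : PLift (fS1 16 1 25 4 0 28 = true) := ⟨by decide +kernel⟩

def jS137_21 : PLift (fS1 19 1 21 4 0 22 = true) := ⟨by decide +kernel⟩

def jS143_17 : PLift (fS1 22 1 17 4 0 16 = true) := ⟨by decide +kernel⟩

def jS149_13 : PLift (fS1 25 1 13 4 0 10 = true) := ⟨by decide +kernel⟩

def jS155_9 : PLift (fS1 28 1 9 4 0 4 = true) := ⟨by decide +kernel⟩

def jVY5_5 : PLift (fVY 3 1 5 4 0 11 = true) := ⟨by decide +kernel⟩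

def jVY11_1 : PLift (fVY 6 1 1 4 0 9 = true) := ⟨by decide +kernel⟩

def jVY16_29 : PLift (fVY 9 0 29 4 0 6 = true) := ⟨by decide +kernel⟩

def jVY22_25 : PLift (fVY 12 0 25 4 0 5 = true) := ⟨by decide +kernel⟩

def jVY28_21 : PLift (fVY 15 0 21 4 0 5 = true) := ⟨by decide +kernel⟩

def jVY34_17 : PLift (fVY 18 0 17 4 0 4 = true) := ⟨by decide +kernel⟩

def jVY40_13 : PLift (fVY 21 0 13 4 0 3 = true) := ⟨by decide +kernel⟩

def jVY46_9 : PLift (fVY 24 0 9 4 0 3 = true) := ⟨by decide +kernel⟩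

def jVY52_5 : PLift (fVY 27 0 5 4 0 2 = true) := ⟨by decide +kernel⟩

end Pool.Agent.Work.MP_6bf1e5_an.HD
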