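import Pool.Agent.Work.MP_6bf1e5_an.HD.CfgS

namespace Pool.Agent.Work.MP_6bf1e5_an.HD

open Pool.Agent.Lib.KBlk H.Pz

def jZK1 : PLift (fZK 1 4 = true) := ⟨by decide +kernel⟩

def jS12_29 : PLift (fS1 2 0 29 4 0 53 = true) := ⟨by decide +kernel⟩

def jS18_25 : PLift (fS1 5 0 25 4 0 47 = true) := ⟨by decide +kernel⟩

def jS114_21 : PLift (fS1 8 0 21 4 0 41 = true) := ⟨by decide +kernel⟩

def jS120_17 : PLift (fS1 11 0 17 4 0 35 = true) := ⟨by decide +kernel⟩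

def jS126_13 : PLift (fS1 14 0 13 4 0 29 = true) := ⟨by decide +kernel⟩

def jS132_9 : PLift (fS1 17 0 9 4 0 23 = true) := ⟨by decide +kernel⟩

def jS138_5 : PLift (fS1 20 0 5 4 0 17 = true) := ⟨by decide +kernel⟩

def jS144_1 : PLift (fS1 23 0 1 4 0 11 = true) := ⟨by decide +kernel⟩

def jS149_29 : PLift (fS1 25 1 29 4 0 10 = true) := ⟨by decide +kernel⟩

def jS155_25 : PLift (fS1 28 1 25 4 0 4 = true) := ⟨by decide +kernel⟩

def jVY5_21 : PLift (fVY 3 1 21 4 0 11 = true) := ⟨by decide +kernel⟩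

def jVY11_17 : PLift (fVY 6 1 17 4 0 9 = true) := ⟨by decide +kernel⟩

def jVY17_13 : PLift (fVY 9 1 13 4 0 8 = true) := ⟨by decide +kernel⟩

def jVY23_9 : PLift (fVY 12 1 9 4 0 7 = true) := ⟨by decide +kernel⟩

def jVY29_5 : PLift (fVY 15 1 5 4 0 6 = true) := ⟨by decide +kernel⟩

def jVY35_1 : PLift (fVY 18 1 1 4 0 5 = true) := ⟨by decide +kernel⟩

def jVY40_29 : PLift (fVY 21 0 29 4 0 3 = true) := ⟨by decide +kernel⟩

def jVY46_25 : PLift (fVY 24 0 25 4 0 3 = true) := ⟨by decide +kernel⟩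

def jVY52_21 : PLift (fVY 27 0 21 4 0 2 = true) := ⟨by decide +kernel⟩

end Pool.Agent.Work.MP_6bf1e5_an.HD
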