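import Pool.Agent.Work.MP_6bf1e5_an.HD.CfgS

namespace Pool.Agent.Work.MP_6bf1e5_an.HD

open Pool.Agent.Lib.KBlk H.Pz

def jZK9 : PLift (fZK 9 4 = true) := ⟨by decide +kernel⟩

def jS13_5 : PLift (fS1 2 1 5 4 0 56 = true) := ⟨by decide +kernel⟩

def jS19_1 : PLift (fS1 5 1 1 4 0 50 = true) := ⟨by decide +kernel⟩

def jS114_29 : PLift (fS1 8 0 29 4 0 41 = true) := ⟨by decide +kernel⟩

def jS120_25 : PLift (fS1 11 0 25 4 0 35 = true) := ⟨by decide +kernel⟩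

def jS126_21 : PLift (fS1 14 0 21 4 0 29 = true) := ⟨by decide +kernel⟩

def jS132_17 : PLift (fS1 17 0 17 4 0 23 = true) := ⟨by decide +kernel⟩

def jS138_13 : PLift (fS1 20 0 13 4 0 17 = true) := ⟨by decide +kernel⟩

def jS144_9 : PLift (fS1 23 0 9 4 0 11 = true) := ⟨by decide +kernel⟩

def jS150_5 : PLift (fS1 26 0 5 4 0 5 = true) := ⟨by decide +kernel⟩

def jVY0_1 : PLift (fVY 1 0 1 4 0 11 = true) := ⟨by decide +kernel⟩

def jVY5_29 : PLift (fVY 3 1 29 4 0 11 = true) := ⟨by decide +kernel⟩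

def jVY11_25 : PLift (fVY 6 1 25 4 0 9 = true) := ⟨by decide +kernel⟩

def jVY17_21 : PLift (fVY 9 1 21 4 0 8 = true) := ⟨by decide +kernel⟩

def jVY23_17 : PLift (fVY 12 1 17 4 0 7 = true) := ⟨by decide +kernel⟩

def jVY29_13 : PLift (fVY 15 1 13 4 0 6 = true) := ⟨by decide +kernel⟩

def jVY35_9 : PLift (fVY 18 1 9 4 0 5 = true) := ⟨by decide +kernel⟩

def jVY41_5 : PLift (fVY 21 1 5 4 0 5 = true) := ⟨by decide +kernel⟩

def jVY47_1 : PLift (fVY 24 1 1 4 0 4 = true) := ⟨by decide +kernel⟩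

def jVY52_29 : PLift (fVY 27 0 29 4 0 2 = true) := ⟨by decide +kernel⟩

end Pool.Agent.Work.MP_6bf1e5_an.HD
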