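import Pool.Agent.Work.MP_6bf1e5_an.HD.CfgS

namespace Pool.Agent.Work.MP_6bf1e5_an.HD

open Pool.Agent.Lib.KBlk H.Pz

def jZK13 : PLift (fZK 13 4 = true) := ⟨by decide +kernel⟩

def jS13_9 : PLift (fS1 2 1 9 4 0 56 = true) := ⟨by decide +kernel⟩

def jS19_5 : PLift (fS1 5 1 5 4 0 50 = true) := ⟨by decide +kernel⟩

def jS115_1 : PLift (fS1 8 1 1 4 0 44 = true) := ⟨by decide +kernel⟩

def jS120_29 : PLift (fS1 11 0 29 4 0 35 = true) := ⟨by decide +kernel⟩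

def jS126_25 : PLift (fS1 14 0 25 4 0 29 = true) := ⟨by decide +kernel⟩

def jS132_21 : PLift (fS1 17 0 21 4 0 23 = true) := ⟨by decide +kernel⟩

def jS138_17 : PLift (fS1 20 0 17 4 0 17 = true) := ⟨by decide +kernel⟩

def jS144_13 : PLift (fS1 23 0 13 4 0 11 = true) := ⟨by decide +kernel⟩

def jS150_9 : PLift (fS1 26 0 9 4 0 5 = true) := ⟨by decide +kernel⟩

def jVY0_5 : PLift (fVY 1 0 5 4 0 11 = true) := ⟨by decide +kernel⟩

def jVY6_1 : PLift (fVY 4 0 1 4 0 8 = true) := ⟨by decide +kernel⟩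

def jVY11_29 : PLift (fVY 6 1 29 4 0 9 = true) := ⟨by decide +kernel⟩

def jVY17_25 : PLift (fVY 9 1 25 4 0 8 = true) := ⟨by decide +kernel⟩

def jVY23_21 : PLift (fVY 12 1 21 4 0 7 = true) := ⟨by decide +kernel⟩

def jVY29_17 : PLift (fVY 15 1 17 4 0 6 = true) := ⟨by decide +kernel⟩

def jVY35_13 : PLift (fVY 18 1 13 4 0 5 = true) := ⟨by decide +kernel⟩

def jVY41_9 : PLift (fVY 21 1 9 4 0 5 = true) := ⟨by decide +kernel⟩

def jVY47_5 : PLift (fVY 24 1 5 4 0 4 = true) := ⟨by decide +kernel⟩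

def jVY53_1 : PLift (fVY 27 1 1 4 0 3 = true) := ⟨by decide +kernel⟩

end Pool.Agent.Work.MP_6bf1e5_an.HD
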