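import Pool.Agent.Work.MP_6bf1e5_an.HD.CfgS

namespace Pool.Agent.Work.MP_6bf1e5_an.HD

open Pool.Agent.Lib.KBlk H.Pz

def jZK29 : PLift (fZK 29 4 = true) := ⟨by decide +kernel⟩

def jS13_25 : PLift (fS1 2 1 25 4 0 56 = true) := ⟨by decide +kernel⟩

def jS19_21 : PLift (fS1 5 1 21 4 0 50 = true) := ⟨by decide +kernel⟩

def jS115_17 : PLift (fS1 8 1 17 4 0 44 = true) := ⟨by decide +kernel⟩

def jS121_13 : PLift (fS1 11 1 13 4 0 38 = true) := ⟨by decide +kernel⟩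

def jS127_9 : PLift (fS1 14 1 9 4 0 32 = true) := ⟨by decide +kernel⟩

def jS133_5 : PLift (fS1 17 1 5 4 0 26 = true) := ⟨by decide +kernel⟩

def jS139_1 : PLift (fS1 20 1 1 4 0 20 = true) := ⟨by decide +kernel⟩

def jS144_29 : PLift (fS1 23 0 29 4 0 11 = true) := ⟨by decide +kernel⟩

def jS150_25 : PLift (fS1 26 0 25 4 0 5 = true) := ⟨by decide +kernel⟩

def jVY0_21 : PLift (fVY 1 0 21 4 0 11 = true) := ⟨by decide +kernel⟩

def jVY6_17 : PLift (fVY 4 0 17 4 0 8 = true) := ⟨by decide +kernel⟩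

def jVY12_13 : PLift (fVY 7 0 13 4 0 7 = true) := ⟨by decide +kernel⟩

def jVY18_9 : PLift (fVY 10 0 9 4 0 6 = true) := ⟨by decide +kernel⟩

def jVY24_5 : PLift (fVY 13 0 5 4 0 5 = true) := ⟨by decide +kernel⟩

def jVY30_1 : PLift (fVY 16 0 1 4 0 4 = true) := ⟨by decide +kernel⟩

def jVY35_29 : PLift (fVY 18 1 29 4 0 5 = true) := ⟨by decide +kernel⟩

def jVY41_25 : PLift (fVY 21 1 25 4 0 5 = true) := ⟨by decide +kernel⟩

def jVY47_21 : PLift (fVY 24 1 21 4 0 4 = true) := ⟨by decide +kernel⟩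

def jVY53_17 : PLift (fVY 27 1 17 4 0 3 = true) := ⟨by decide +kernel⟩

end Pool.Agent.Work.MP_6bf1e5_an.HD
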