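import Pool.Agent.Work.MP_6bf1e5_an.HD.CfgS

namespace Pool.Agent.Work.MP_6bf1e5_an.HD

open Pool.Agent.Lib.KBlk H.Pz

def jZL1 : PLift (fZL 1 4 = true) := ⟨by decide +kernel⟩

def jS13_29 : PLift (fS1 2 1 29 4 0 56 = true) := ⟨by decide +kernel⟩

def jS19_25 : PLift (fS1 5 1 25 4 0 50 = true) := ⟨by decide +kernel⟩

def jS115_21 : PLift (fS1 8 1 21 4 0 44 = true) := ⟨by decide +kernel⟩

def jS121_17 : PLift (fS1 11 1 17 4 0 38 = true) := ⟨by decide +kernel⟩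

def jS127_13 : PLift (fS1 14 1 13 4 0 32 = true) := ⟨by decide +kernel⟩

def jS133_9 : PLift (fS1 17 1 9 4 0 26 = true) := ⟨by decide +kernel⟩

def jS139_5 : PLift (fS1 20 1 5 4 0 20 = true) := ⟨by decide +kernel⟩

def jS145_1 : PLift (fS1 23 1 1 4 0 14 = true) := ⟨by decide +kernel⟩

def jS150_29 : PLift (fS1 26 0 29 4 0 5 = true) := ⟨by decide +kernel⟩

def jVY0_25 : PLift (fVY 1 0 25 4 0 11 = true) := ⟨by decide +kernel⟩

def jVY6_21 : PLift (fVY 4 0 21 4 0 8 = true) := ⟨by decide +kernel⟩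

def jVY12_17 : PLift (fVY 7 0 17 4 0 7 = true) := ⟨by decide +kernel⟩

def jVY18_13 : PLift (fVY 10 0 13 4 0 6 = true) := ⟨by decide +kernel⟩

def jVY24_9 : PLift (fVY 13 0 9 4 0 5 = true) := ⟨by decide +kernel⟩

def jVY30_5 : PLift (fVY 16 0 5 4 0 4 = true) := ⟨by decide +kernel⟩

def jVY36_1 : PLift (fVY 19 0 1 4 0 4 = true) := ⟨by decide +kernel⟩

def jVY41_29 : PLift (fVY 21 1 29 4 0 5 = true) := ⟨by decide +kernel⟩

def jVY47_25 : PLift (fVY 24 1 25 4 0 4 = true) := ⟨by decide +kernel⟩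

def jVY53_21 : PLift (fVY 27 1 21 4 0 3 = true) := ⟨by decide +kernel⟩

end Pool.Agent.Work.MP_6bf1e5_an.HD
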