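import Pool.Agent.Work.MP_6bf1e5_an.HD.CfgS

namespace Pool.Agent.Work.MP_6bf1e5_an.HD

open Pool.Agent.Lib.KBlk H.Pz

def jZL21 : PLift (fZL 21 4 = true) := ⟨by decide +kernel⟩

def jS14_17 : PLift (fS1 3 0 17 4 0 51 = true) := ⟨by decide +kernel⟩

def jS110_13 : PLift (fS1 6 0 13 4 0 45 = true) := ⟨by decide +kernel⟩

def jS116_9 : PLift (fS1 9 0 9 4 0 39 = true) := ⟨by decide +kernel⟩

def jS122_5 : PLift (fS1 12 0 5 4 0 33 = true) := ⟨by decide +kernel⟩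

def jS128_1 : PLift (fS1 15 0 1 4 0 27 = true) := ⟨by decide +kernel⟩

def jS133_29 : PLift (fS1 17 1 29 4 0 26 = true) := ⟨by decide +kernel⟩

def jS139_25 : PLift (fS1 20 1 25 4 0 20 = true) := ⟨by decide +kernel⟩

def jS145_21 : PLift (fS1 23 1 21 4 0 14 = true) := ⟨by decide +kernel⟩

def jS151_17 : PLift (fS1 26 1 17 4 0 8 = true) := ⟨by decide +kernel⟩

def jVY1_13 : PLift (fVY 1 1 13 4 0 13 = true) := ⟨by decide +kernel⟩

def jVY7_9 : PLift (fVY 4 1 9 4 0 10 = true) := ⟨by decide +kernel⟩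

def jVY13_5 : PLift (fVY 7 1 5 4 0 9 = true) := ⟨by decide +kernel⟩

def jVY19_1 : PLift (fVY 10 1 1 4 0 7 = true) := ⟨by decide +kernel⟩

def jVY24_29 : PLift (fVY 13 0 29 4 0 5 = true) := ⟨by decide +kernel⟩

def jVY30_25 : PLift (fVY 16 0 25 4 0 4 = true) := ⟨by decide +kernel⟩

def jVY36_21 : PLift (fVY 19 0 21 4 0 4 = true) := ⟨by decide +kernel⟩

def jVY42_17 : PLift (fVY 22 0 17 4 0 3 = true) := ⟨by decide +kernel⟩

def jVY48_13 : PLift (fVY 25 0 13 4 0 2 = true) := ⟨by decide +kernel⟩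

def jVY54_9 : PLift (fVY 28 0 9 4 0 1 = true) := ⟨by decide +kernel⟩

end Pool.Agent.Work.MP_6bf1e5_an.HD
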