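import Pool.Agent.Work.MP_6bf1e5_an.HD.CfgS

namespace Pool.Agent.Work.MP_6bf1e5_an.HD

open Pool.Agent.Lib.KBlk H.Pz

def jZT12 : PLift (fZT 12 6 = true) := ⟨by decide +kernel⟩

def jS11_13 : PLift (fS1 1 1 13 4 0 58 = true) := ⟨by decide +kernel⟩

def jS17_9 : PLift (fS1 4 1 9 4 0 52 = true) := ⟨by decide +kernel⟩

def jS113_5 : PLift (fS1 7 1 5 4 0 46 = true) := ⟨by decide +kernel⟩

def jS119_1 : PLift (fS1 10 1 1 4 0 40 = true) := ⟨by decide +kernel⟩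

def jS124_29 : PLift (fS1 13 0 29 4 0 31 = true) := ⟨by decide +kernel⟩

def jS130_25 : PLift (fS1 16 0 25 4 0 25 = true) := ⟨by decide +kernel⟩

def jS136_21 : PLift (fS1 19 0 21 4 0 19 = true) := ⟨by decide +kernel⟩

def jS142_17 : PLift (fS1 22 0 17 4 0 13 = true) := ⟨by decide +kernel⟩

def jS148_13 : PLift (fS1 25 0 13 4 0 7 = true) := ⟨by decide +kernel⟩

def jS154_9 : PLift (fS1 28 0 9 4 0 1 = true) := ⟨by decide +kernel⟩

def jVY4_5 : PLift (fVY 3 0 5 4 0 9 = true) := ⟨by decide +kernel⟩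

def jVY10_1 : PLift (fVY 6 0 1 4 0 7 = true) := ⟨by decide +kernel⟩

def jVY15_29 : PLift (fVY 8 1 29 4 0 8 = true) := ⟨by decide +kernel⟩

def jVY21_25 : PLift (fVY 11 1 25 4 0 7 = true) := ⟨by decide +kernel⟩

def jVY27_21 : PLift (fVY 14 1 21 4 0 6 = true) := ⟨by decide +kernel⟩

def jVY33_17 : PLift (fVY 17 1 17 4 0 5 = true) := ⟨by decide +kernel⟩

def jVY39_13 : PLift (fVY 20 1 13 4 0 5 = true) := ⟨by decide +kernel⟩

def jVY45_9 : PLift (fVY 23 1 9 4 0 4 = true) := ⟨by decide +kernel⟩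

def jVY51_5 : PLift (fVY 26 1 5 4 0 3 = true) := ⟨by decide +kernel⟩

end Pool.Agent.Work.MP_6bf1e5_an.HD
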