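import Pool.Agent.Work.MP_6bf1e5_an.HD.CfgS

namespace Pool.Agent.Work.MP_6bf1e5_an.HD

open Pool.Agent.Lib.KBlk H.Pz

def jS10_5 : PLift (fS1 1 0 5 4 0 55 = true) := ⟨by decide +kernel⟩

def jS16_1 : PLift (fS1 4 0 1 4 0 49 = true) := ⟨by decide +kernel⟩

def jS111_29 : PLift (fS1 6 1 29 4 0 48 = true) := ⟨by decide +kernel⟩

def jS117_25 : PLift (fS1 9 1 25 4 0 42 = true) := ⟨by decide +kernel⟩

def jS123_21 : PLift (fS1 12 1 21 4 0 36 = true) := ⟨by decide +kernel⟩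

def jS129_17 : PLift (fS1 15 1 17 4 0 30 = true) := ⟨by decide +kernel⟩

def jS135_13 : PLift (fS1 18 1 13 4 0 24 = true) := ⟨by decide +kernel⟩

def jS141_9 : PLift (fS1 21 1 9 4 0 18 = true) := ⟨by decide +kernel⟩

def jS147_5 : PLift (fS1 24 1 5 4 0 12 = true) := ⟨by decide +kernel⟩

def jS153_1 : PLift (fS1 27 1 1 4 0 6 = true) := ⟨by decide +kernel⟩

def jVY2_29 : PLift (fVY 2 0 29 4 0 10 = true) := ⟨by decide +kernel⟩

def jVY8_25 : PLift (fVY 5 0 25 4 0 8 = true) := ⟨by decide +kernel⟩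

def jVY14_21 : PLift (fVY 8 0 21 4 0 7 = true) := ⟨by decide +kernel⟩

def jVY20_17 : PLift (fVY 11 0 17 4 0 6 = true) := ⟨by decide +kernel⟩

def jVY26_13 : PLift (fVY 14 0 13 4 0 5 = true) := ⟨by decide +kernel⟩

def jVY32_9 : PLift (fVY 17 0 9 4 0 4 = true) := ⟨by decide +kernel⟩

def jVY38_5 : PLift (fVY 20 0 5 4 0 4 = true) := ⟨by decide +kernel⟩

def jVY44_1 : PLift (fVY 23 0 1 4 0 3 = true) := ⟨by decide +kernel⟩

def jVY49_29 : PLift (fVY 25 1 29 4 0 4 = true) := ⟨by decide +kernel⟩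

def jVY55_25 : PLift (fVY 28 1 25 4 0 3 = true) := ⟨by decide +kernel⟩

end Pool.Agent.Work.MP_6bf1e5_an.HD
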