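import Pool.Agent.Work.MP_6bf1e5_an.HD.CfgS

namespace Pool.Agent.Work.MP_6bf1e5_an.HD

open Pool.Agent.Lib.KBlk H.Pz

def jS10_17 : PLift (fS1 1 0 17 4 0 55 = true) := ⟨by decide +kernel⟩

def jS16_13 : PLift (fS1 4 0 13 4 0 49 = true) := ⟨by decide +kernel⟩

def jS112_9 : PLift (fS1 7 0 9 4 0 43 = true) := ⟨by decide +kernel⟩

def jS118_5 : PLift (fS1 10 0 5 4 0 37 = true) := ⟨by decide +kernel⟩

def jS124_1 : PLift (fS1 13 0 1 4 0 31 = true) := ⟨by decide +kernel⟩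

def jS129_29 : PLift (fS1 15 1 29 4 0 30 = true) := ⟨by decide +kernel⟩

def jS135_25 : PLift (fS1 18 1 25 4 0 24 = true) := ⟨by decide +kernel⟩

def jS141_21 : PLift (fS1 21 1 21 4 0 18 = true) := ⟨by decide +kernel⟩

def jS147_17 : PLift (fS1 24 1 17 4 0 12 = true) := ⟨by decide +kernel⟩

def jS153_13 : PLift (fS1 27 1 13 4 0 6 = true) := ⟨by decide +kernel⟩

def jVY3_9 : PLift (fVY 2 1 9 4 0 12 = true) := ⟨by decide +kernel⟩

def jVY9_5 : PLift (fVY 5 1 5 4 0 10 = true) := ⟨by decide +kernel⟩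

def jVY15_1 : PLift (fVY 8 1 1 4 0 8 = true) := ⟨by decide +kernel⟩

def jVY20_29 : PLift (fVY 11 0 29 4 0 6 = true) := ⟨by decide +kernel⟩

def jVY26_25 : PLift (fVY 14 0 25 4 0 5 = true) := ⟨by decide +kernel⟩

def jVY32_21 : PLift (fVY 17 0 21 4 0 4 = true) := ⟨by decide +kernel⟩

def jVY38_17 : PLift (fVY 20 0 17 4 0 4 = true) := ⟨by decide +kernel⟩

def jVY44_13 : PLift (fVY 23 0 13 4 0 3 = true) := ⟨by decide +kernel⟩

def jVY50_9 : PLift (fVY 26 0 9 4 0 2 = true) := ⟨by decide +kernel⟩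

end Pool.Agent.Work.MP_6bf1e5_an.HD
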