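import Pool.Agent.Work.MP_6bf1e5_an.HD.CfgS

namespace Pool.Agent.Work.MP_6bf1e5_an.HD

open Pool.Agent.Lib.KBlk H.Pz

def jZT18 : PLift (fZT 18 6 = true) := ⟨by decide +kernel⟩

def jS11_17 : PLift (fS1 1 1 17 4 0 58 = true) := ⟨by decide +kernel⟩

def jS17_13 : PLift (fS1 4 1 13 4 0 52 = true) := ⟨by decide +kernel⟩

def jS113_9 : PLift (fS1 7 1 9 4 0 46 = true) := ⟨by decide +kernel⟩

def jS119_5 : PLift (fS1 10 1 5 4 0 40 = true) := ⟨by decide +kernel⟩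

def jS125_1 : PLift (fS1 13 1 1 4 0 34 = true) := ⟨by decide +kernel⟩

def jS130_29 : PLift (fS1 16 0 29 4 0 25 = true) := ⟨by decide +kernel⟩

def jS136_25 : PLift (fS1 19 0 25 4 0 19 = true) := ⟨by decide +kernel⟩

def jS142_21 : PLift (fS1 22 0 21 4 0 13 = true) := ⟨by decide +kernel⟩

def jS148_17 : PLift (fS1 25 0 17 4 0 7 = true) := ⟨by decide +kernel⟩

def jS154_13 : PLift (fS1 28 0 13 4 0 1 = true) := ⟨by decide +kernel⟩

def jVY4_9 : PLift (fVY 3 0 9 4 0 9 = true) := ⟨by decide +kernel⟩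

def jVY10_5 : PLift (fVY 6 0 5 4 0 7 = true) := ⟨by decide +kernel⟩

def jVY16_1 : PLift (fVY 9 0 1 4 0 6 = true) := ⟨by decide +kernel⟩

def jVY21_29 : PLift (fVY 11 1 29 4 0 7 = true) := ⟨by decide +kernel⟩

def jVY27_25 : PLift (fVY 14 1 25 4 0 6 = true) := ⟨by decide +kernel⟩

def jVY33_21 : PLift (fVY 17 1 21 4 0 5 = true) := ⟨by decide +kernel⟩

def jVY39_17 : PLift (fVY 20 1 17 4 0 5 = true) := ⟨by decide +kernel⟩

def jVY45_13 : PLift (fVY 23 1 13 4 0 4 = true) := ⟨by decide +kernel⟩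

def jVY51_9 : PLift (fVY 26 1 9 4 0 3 = true) := ⟨by decide +kernel⟩

end Pool.Agent.Work.MP_6bf1e5_an.HD
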