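import Pool.Agent.Work.MP_6bf1e5_an.HD.CfgS

namespace Pool.Agent.Work.MP_6bf1e5_an.HD

open Pool.Agent.Lib.KBlk H.Pz

def jZT36 : PLift (fZT 36 3 = true) := ⟨by decide +kernel⟩

def jS11_29 : PLift (fS1 1 1 29 4 0 58 = true) := ⟨by decide +kernel⟩

def jS17_25 : PLift (fS1 4 1 25 4 0 52 = true) := ⟨by decide +kernel⟩

def jS113_21 : PLift (fS1 7 1 21 4 0 46 = true) := ⟨by decide +kernel⟩

def jS119_17 : PLift (fS1 10 1 17 4 0 40 = true) := ⟨by decide +kernel⟩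

def jS125_13 : PLift (fS1 13 1 13 4 0 34 = true) := ⟨by decide +kernel⟩

def jS131_9 : PLift (fS1 16 1 9 4 0 28 = true) := ⟨by decide +kernel⟩

def jS137_5 : PLift (fS1 19 1 5 4 0 22 = true) := ⟨by decide +kernel⟩

def jS143_1 : PLift (fS1 22 1 1 4 0 16 = true) := ⟨by decide +kernel⟩

def jS148_29 : PLift (fS1 25 0 29 4 0 7 = true) := ⟨by decide +kernel⟩

def jS154_25 : PLift (fS1 28 0 25 4 0 1 = true) := ⟨by decide +kernel⟩

def jVY4_21 : PLift (fVY 3 0 21 4 0 9 = true) := ⟨by decide +kernel⟩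

def jVY10_17 : PLift (fVY 6 0 17 4 0 7 = true) := ⟨by decide +kernel⟩

def jVY16_13 : PLift (fVY 9 0 13 4 0 6 = true) := ⟨by decide +kernel⟩

def jVY22_9 : PLift (fVY 12 0 9 4 0 5 = true) := ⟨by decide +kernel⟩

def jVY28_5 : PLift (fVY 15 0 5 4 0 5 = true) := ⟨by decide +kernel⟩

def jVY34_1 : PLift (fVY 18 0 1 4 0 4 = true) := ⟨by decide +kernel⟩

def jVY39_29 : PLift (fVY 20 1 29 4 0 5 = true) := ⟨by decide +kernel⟩

def jVY45_25 : PLift (fVY 23 1 25 4 0 4 = true) := ⟨by decide +kernel⟩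

def jVY51_21 : PLift (fVY 26 1 21 4 0 3 = true) := ⟨by decide +kernel⟩

end Pool.Agent.Work.MP_6bf1e5_an.HD
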