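import Pool.Agent.Work.MP_6bf1e5_an.HD.Cu
import Pool.Agent.Work.MP_6bf1e5_an.HD.Cm_0

namespace Pool.Agent.Work.MP_6bf1e5_an.HD

open Pool.Agent.Lib.KLA Pool.Agent.Lib.KBlk Pool.Agent.Lib.KRad

noncomputable def cMdt : Tr Mb :=
  (Tr.node (Tr.node (Tr.node (Tr.node (Tr.node (Tr.node (Tr.node (Tr.leaf (Mb.mk 0 0 0 0 0 e0 e0))
  (Tr.leaf md32_0)) (Tr.leaf md16_0)) (Tr.node (Tr.leaf md8_0) (Tr.leaf md24_0))) (Tr.node (Tr.node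
  (Tr.leaf md4_0) (Tr.leaf md20_0)) (Tr.node (Tr.leaf md12_0) (Tr.leaf md28_0)))) (Tr.node (Tr.node
  (Tr.node (Tr.leaf md2_0) (Tr.leaf md18_0)) (Tr.node (Tr.leaf md10_0) (Tr.leaf md26_0))) (Tr.node
  (Tr.node (Tr.leaf md6_0) (Tr.leaf md22_0)) (Tr.node (Tr.leaf md14_0) (Tr.leaf md30_0)))))
  (Tr.node (Tr.node (Tr.node (Tr.node (Tr.leaf md1_0) (Tr.leaf md17_0)) (Tr.node (Tr.leaf md9_0)
  (Tr.leaf md25_0))) (Tr.node (Tr.node (Tr.leaf md5_0) (Tr.leaf md21_0)) (Tr.node (Tr.leaf md13_0)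
  (Tr.leaf md29_0)))) (Tr.node (Tr.node (Tr.node (Tr.leaf md3_0) (Tr.leaf md19_0)) (Tr.node
  (Tr.leaf md11_0) (Tr.leaf md27_0))) (Tr.node (Tr.node (Tr.leaf md7_0) (Tr.leaf md23_0)) (Tr.node
  (Tr.leaf md15_0) (Tr.leaf md31_0)))))) (Tr.node (Tr.node (Tr.node (Tr.node (Tr.node (Tr.node
  (Tr.leaf (Mb.mk 0 0 0 0 0 e0 e0)) (Tr.leaf md32_1)) (Tr.leaf md16_1)) (Tr.node (Tr.leaf md8_1)
  (Tr.leaf md24_1))) (Tr.node (Tr.node (Tr.leaf md4_1) (Tr.leaf md20_1)) (Tr.node (Tr.leaf md12_1)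
  (Tr.leaf md28_1)))) (Tr.node (Tr.node (Tr.node (Tr.leaf md2_1) (Tr.leaf md18_1)) (Tr.node
  (Tr.leaf md10_1) (Tr.leaf md26_1))) (Tr.node (Tr.node (Tr.leaf md6_1) (Tr.leaf md22_1)) (Tr.node
  (Tr.leaf md14_1) (Tr.leaf md30_1))))) (Tr.node (Tr.node (Tr.node (Tr.node (Tr.leaf md1_1)
  (Tr.leaf md17_1)) (Tr.node (Tr.leaf md9_1) (Tr.leaf md25_1))) (Tr.node (Tr.node (Tr.leaf md5_1)
  (Tr.leaf md21_1)) (Tr.node (Tr.leaf md13_1) (Tr.leaf md29_1)))) (Tr.node (Tr.node (Tr.node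
  (Tr.leaf md3_1) (Tr.leaf md19_1)) (Tr.node (Tr.leaf md11_1) (Tr.leaf md27_1))) (Tr.node (Tr.node
  (Tr.leaf md7_1) (Tr.leaf md23_1)) (Tr.node (Tr.leaf md15_1) (Tr.leaf md31_1)))))))

noncomputable def cMd (b c : Nat) : Mb := Tr.get cMdt (Nat.add (Nat.mul 2 b) c)

end Pool.Agent.Work.MP_6bf1e5_an.HD
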