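import Pool.Agent.Work.MP_6bf1e5_an.HD.Cu
import Pool.Agent.Work.MP_6bf1e5_an.HD.Ct_0
import Pool.Agent.Work.MP_6bf1e5_an.HD.Ct_1
import Pool.Agent.Work.MP_6bf1e5_an.HD.Ct_2
import Pool.Agent.Work.MP_6bf1e5_an.HD.Ct_3
import Pool.Agent.Work.MP_6bf1e5_an.HD.Ct_4

namespace Pool.Agent.Work.MP_6bf1e5_an.HD

open Pool.Agent.Lib.KLA Pool.Agent.Lib.KBlk Pool.Agent.Lib.KRad

noncomputable def cTet : Tr Tb :=
  (Tr.node (Tr.node (Tr.node (Tr.node (Tr.node (Tr.node (Tr.node (Tr.leaf te0_0) (Tr.leaf te32_0))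
  (Tr.leaf te16_0)) (Tr.node (Tr.leaf te8_0) (Tr.leaf te24_0))) (Tr.node (Tr.node (Tr.node (Tr.leaf
  te4_0) (Tr.leaf te36_0)) (Tr.leaf te20_0)) (Tr.node (Tr.leaf te12_0) (Tr.leaf te28_0)))) (Tr.node
  (Tr.node (Tr.node (Tr.node (Tr.leaf te2_0) (Tr.leaf te34_0)) (Tr.leaf te18_0)) (Tr.node (Tr.leaf
  te10_0) (Tr.leaf te26_0))) (Tr.node (Tr.node (Tr.node (Tr.leaf te6_0) (Tr.leaf te38_0)) (Tr.leaf
  te22_0)) (Tr.node (Tr.leaf te14_0) (Tr.leaf te30_0))))) (Tr.node (Tr.node (Tr.node (Tr.node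
  (Tr.node (Tr.leaf te1_0) (Tr.leaf te33_0)) (Tr.leaf te17_0)) (Tr.node (Tr.leaf te9_0) (Tr.leaf
  te25_0))) (Tr.node (Tr.node (Tr.node (Tr.leaf te5_0) (Tr.leaf te37_0)) (Tr.leaf te21_0)) (Tr.node
  (Tr.leaf te13_0) (Tr.leaf te29_0)))) (Tr.node (Tr.node (Tr.node (Tr.node (Tr.leaf te3_0) (Tr.leaf
  te35_0)) (Tr.leaf te19_0)) (Tr.node (Tr.leaf te11_0) (Tr.leaf te27_0))) (Tr.node (Tr.node
  (Tr.leaf te7_0) (Tr.leaf te23_0)) (Tr.node (Tr.leaf te15_0) (Tr.leaf te31_0)))))) (Tr.node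
  (Tr.node (Tr.node (Tr.node (Tr.node (Tr.node (Tr.leaf te0_1) (Tr.leaf te32_1)) (Tr.leaf te16_1))
  (Tr.node (Tr.leaf te8_1) (Tr.leaf te24_1))) (Tr.node (Tr.node (Tr.node (Tr.leaf te4_1) (Tr.leaf
  te36_1)) (Tr.leaf te20_1)) (Tr.node (Tr.leaf te12_1) (Tr.leaf te28_1)))) (Tr.node (Tr.node
  (Tr.node (Tr.node (Tr.leaf te2_1) (Tr.leaf te34_1)) (Tr.leaf te18_1)) (Tr.node (Tr.leaf te10_1)
  (Tr.leaf te26_1))) (Tr.node (Tr.node (Tr.node (Tr.leaf te6_1) (Tr.leaf te38_1)) (Tr.leaf te22_1))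
  (Tr.node (Tr.leaf te14_1) (Tr.leaf te30_1))))) (Tr.node (Tr.node (Tr.node (Tr.node (Tr.node
  (Tr.leaf te1_1) (Tr.leaf te33_1)) (Tr.leaf te17_1)) (Tr.node (Tr.leaf te9_1) (Tr.leaf te25_1)))
  (Tr.node (Tr.node (Tr.node (Tr.leaf te5_1) (Tr.leaf te37_1)) (Tr.leaf te21_1)) (Tr.node (Tr.leaf
  te13_1) (Tr.leaf te29_1)))) (Tr.node (Tr.node (Tr.node (Tr.node (Tr.leaf te3_1) (Tr.leaf te35_1))
  (Tr.leaf te19_1)) (Tr.node (Tr.leaf te11_1) (Tr.leaf te27_1))) (Tr.node (Tr.node (Tr.leaf te7_1)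
  (Tr.leaf te23_1)) (Tr.node (Tr.leaf te15_1) (Tr.leaf te31_1)))))))

noncomputable def cTe (b c : Nat) : Tb := Tr.get cTet (Nat.add (Nat.mul 2 b) c)

end Pool.Agent.Work.MP_6bf1e5_an.HD
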