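import Pool.Agent.Lib.KBlk.Vr
import Pool.Agent.Work.MP_6bf1e5_an.HD.X_0
import Pool.Agent.Work.MP_6bf1e5_an.HD.X_1
import Pool.Agent.Work.MP_6bf1e5_an.HD.X_2
import Pool.Agent.Work.MP_6bf1e5_an.HD.X_3
import Pool.Agent.Work.MP_6bf1e5_an.HD.X_4
import Pool.Agent.Work.MP_6bf1e5_an.HD.X_5
import Pool.Agent.Work.MP_6bf1e5_an.HD.X_6

namespace Pool.Agent.Work.MP_6bf1e5_an.HD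

open Pool.Agent.Lib.KLA Pool.Agent.Lib.KBlk

noncomputable def Xp0 : Chk :=
  Xp0_0 ( Xp0_1 ( Xp0_2 ( Xp0_3 ( Xp0_4 ( Xp0_5 ( Xp0_6 ( Xp0_7 ( Xp0_8 ( Xp0_9 ( Xp0_10 ( Xp0_11 ( Xp0_12 ( Xp0_13 (Chk.nil))))))))))))))

noncomputable def Xp1 : Chk :=
  Xp1_0 ( Xp1_1 ( Xp1_2 ( Xp1_3 ( Xp1_4 ( Xp1_5 ( Xp1_6 ( Xp1_7 ( Xp1_8 ( Xp1_9 ( Xp1_10 ( Xp1_11 ( Xp1_12 ( Xp1_13 (Chk.nil))))))))))))))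

noncomputable def Xp2 : Chk :=
  Xp2_0 ( Xp2_1 ( Xp2_2 ( Xp2_3 ( Xp2_4 ( Xp2_5 ( Xp2_6 ( Xp2_7 ( Xp2_8 ( Xp2_9 ( Xp2_10 ( Xp2_11 ( Xp2_12 ( Xp2_13 (Chk.nil))))))))))))))

noncomputable def Xp3 : Chk :=
  Xp3_0 ( Xp3_1 ( Xp3_2 ( Xp3_3 ( Xp3_4 ( Xp3_5 ( Xp3_6 ( Xp3_7 ( Xp3_8 ( Xp3_9 ( Xp3_10 ( Xp3_11 ( Xp3_12 ( Xp3_13 (Chk.nil))))))))))))))

noncomputable def Xp4 : Chk :=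
  Xp4_0 ( Xp4_1 ( Xp4_2 ( Xp4_3 ( Xp4_4 ( Xp4_5 ( Xp4_6 ( Xp4_7 ( Xp4_8 ( Xp4_9 ( Xp4_10 ( Xp4_11 ( Xp4_12 ( Xp4_13 (Chk.nil))))))))))))))

noncomputable def Xp5 : Chk :=
  Xp5_0 ( Xp5_1 ( Xp5_2 ( Xp5_3 ( Xp5_4 ( Xp5_5 ( Xp5_6 ( Xp5_7 ( Xp5_8 ( Xp5_9 ( Xp5_10 ( Xp5_11 ( Xp5_12 ( Xp5_13 (Chk.nil))))))))))))))

noncomputable def Xp6 : Chk :=
  Xp6_0 ( Xp6_1 ( Xp6_2 ( Xp6_3 ( Xp6_4 ( Xp6_5 ( Xp6_6 ( Xp6_7 ( Xp6_8 ( Xp6_9 ( Xp6_10 ( Xp6_11 ( Xp6_12 ( Xp6_13 (Chk.nil))))))))))))))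

noncomputable def Xp7 : Chk :=
  Xp7_0 ( Xp7_1 ( Xp7_2 ( Xp7_3 ( Xp7_4 ( Xp7_5 ( Xp7_6 ( Xp7_7 ( Xp7_8 ( Xp7_9 ( Xp7_10 ( Xp7_11 ( Xp7_12 ( Xp7_13 (Chk.nil))))))))))))))

noncomputable def X (p : Nat) : Chk := Tr.get
  (Tr.node (Tr.node (Tr.node (Tr.leaf Xp0) (Tr.leaf Xp4)) (Tr.node (Tr.leaf Xp2) (Tr.leaf Xp6)))
  (Tr.node (Tr.node (Tr.leaf Xp1) (Tr.leaf Xp5)) (Tr.node (Tr.leaf Xp3) (Tr.leaf Xp7)))) p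

end Pool.Agent.Work.MP_6bf1e5_an.HD
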