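import Pool.Agent.Lib.KBlk.Vr

namespace Pool.Agent.Work.MP_6bf1e5_an.HD

open Pool.Agent.Lib.KLA Pool.Agent.Lib.KBlk

noncomputable def Zc_0f (a0 a1 a2 a3 a4 a5 a6 a7 a8 a9 a10 a11 a12 a13 a14 a15 a16 a17 a18 a19 a20 a21 a22 a23 a24 a25 a26 _o : Nat) (t : Chk) : Chk :=
  Chk.cons (nat_lit 0) (nat_lit 0) (nat_lit 0) (nat_lit 0) (nat_lit 0) (nat_lit 0) (nat_lit 0) (nat_lit 0) (nat_lit 0) (nat_lit 0) (nat_lit 0) (nat_lit 0) (nat_lit 0) (nat_lit 0) (nat_lit 0) (nat_lit 0)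
    _o _o _o _o _o _o _o _o _o _o _o _o _o _o _o _o
  (Chk.cons (nat_lit 19) (nat_lit 2452) (nat_lit 5013) (nat_lit 7701) (nat_lit 10390) (nat_lit 918) (nat_lit 3734) (nat_lit 6551) (nat_lit 9495) (nat_lit 151) (nat_lit 3095) (nat_lit 6046) (nat_lit 9886) (nat_lit 1438) (nat_lit 5276) (nat_lit 8860)
    a0 a0 a0 a0 (Nat.xor a0 a1) a1 a1 a1 (Nat.xor a1 a2) a2 a2 a2 (Nat.xor a2 a3) a3 a3 (Nat.xor a3 a4)
  (Chk.cons (nat_lit 157) (nat_lit 3868) (nat_lit 7450) (nat_lit 10779) (nat_lit 1947) (nat_lit 5402) (nat_lit 8729) (nat_lit 11930) (nat_lit 2970) (nat_lit 6296) (nat_lit 9368) (nat_lit 152) (nat_lit 3223) (nat_lit 6167) (nat_lit 9111) (nat_lit 12054)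
    a4 a4 a4 (Nat.xor a4 a5) a5 a5 a5 (Nat.xor a5 a6) a6 a6 (Nat.xor a6 a7) a7 a7 a7 a7 (Nat.xor a7 a8)
  (Chk.cons (nat_lit 2580) (nat_lit 5142) (nat_lit 7958) (nat_lit 10773) (nat_lit 1172) (nat_lit 3733) (nat_lit 6421) (nat_lit 9108) (nat_lit 11668) (nat_lit 1940) (nat_lit 4499) (nat_lit 6931) (nat_lit 9363) (nat_lit 11795) (nat_lit 1937) (nat_lit 4115)
    a8 a8 a8 (Nat.xor a8 a9) a9 a9 a9 a9 (Nat.xor a9 a10) a10 a10 a10 a10 (Nat.xor a10 a11) a11 a11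
  (Chk.cons (nat_lit 6546) (nat_lit 8848) (nat_lit 10898) (nat_lit 912) (nat_lit 2961) (nat_lit 5136) (nat_lit 7183) (nat_lit 9115) (nat_lit 284) (nat_lit 3868) (nat_lit 7452) (nat_lit 11036) (nat_lit 2332) (nat_lit 5916) (nat_lit 9500) (nat_lit 796)
    a11 a11 (Nat.xor a11 a12) a12 a12 a12 a12 (Nat.xor a12 a13) a13 a13 a13 (Nat.xor a13 a14) a14 a14 (Nat.xor a14 a15) a15
  (Chk.cons (nat_lit 4380) (nat_lit 7964) (nat_lit 11548) (nat_lit 2843) (nat_lit 6303) (nat_lit 10270) (nat_lit 1822) (nat_lit 5661) (nat_lit 9373) (nat_lit 795) (nat_lit 4252) (nat_lit 7836) (nat_lit 11418) (nat_lit 2459) (nat_lit 5915) (nat_lit 9369)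
    a15 a15 (Nat.xor a15 a16) a16 a16 (Nat.xor a16 a17) a17 a17 (Nat.xor a17 a18) a18 a18 a18 (Nat.xor a18 a19) a19 a19 (Nat.xor a19 a20)
  (Chk.cons (nat_lit 282) (nat_lit 3610) (nat_lit 6937) (nat_lit 10136) (nat_lit 920) (nat_lit 3991) (nat_lit 6931) (nat_lit 9366) (nat_lit 12182) (nat_lit 2709) (nat_lit 5396) (nat_lit 7957) (nat_lit 10645) (nat_lit 1045) (nat_lit 3732) (nat_lit 6292)
    a20 a20 a20 (Nat.xor a20 a21) a21 a21 a21 a21 (Nat.xor a21 a22) a22 a22 a22 (Nat.xor a22 a23) a23 a23 a23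
  (Chk.cons (nat_lit 8853) (nat_lit 11540) (nat_lit 1811) (nat_lit 4244) (nat_lit 6803) (nat_lit 9234) (nat_lit 11539) (nat_lit 1683) (nat_lit 4114) (nat_lit 6417) (nat_lit 8593) (nat_lit 10768) (nat_lit 529) (nat_lit 2705) (nat_lit 4882) (nat_lit 7184)
    a23 (Nat.xor a23 a24) a24 a24 a24 a24 (Nat.xor a24 a25) a25 a25 a25 a25 (Nat.xor a25 a26) a26 a26 a26 a26 t)))))))

noncomputable def Zc_0 (t : Chk) : Chk := Zc_0f
  (nat_lit 0xb46b164ff86923bad74c6478b45c29194349eb6e2a68dd52)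
  (nat_lit 0x3c870a35e0416bab120efe2c1c9b24f3179a178e491b28cb00)
  (nat_lit 0x6c383bebfddb4667048ccc2931be90ed7f300e75e21c6dc6)
  (nat_lit 0x15338af836551413372c3dc5d3f84f6e0c5fccb4982ec424000)
  (nat_lit 0x1db8d9a26d93aa915271c9771a385b48f20a559e9f1a725f4)
  (nat_lit 0x42c8a86585ab7049099066bdee075c0a169d0779a4328cbc0000)
  (nat_lit 0x423253c847e66ed0b116e5a230b8b31ca598a1b99d86571a800000)
  (nat_lit 0x4a569fe504d87497ecba51532a5dd1343dc62a1e75cee824)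
  (nat_lit 0xe668fc1ddc3cb0af7d3a3b83c62ca7628b487256027154ab00000)
  (nat_lit 0xc3d5f99511c43b8e7468e576a3074830a46f820d161e6d9800)
  (nat_lit 0x6922f262a4a83150176bde0c7a39e998cc3f80a67cf34da0000)
  (nat_lit 0x1959e09922b62d925519ee8ddbacc08b6fdb6191be75d9b20000)
  (nat_lit 0x3dba2df972fc3d4fa364a27644d4754d6cfc075ad3a6188800)
  (nat_lit 0x63e1f804c9dee57ca2197597a88b60fa87581fdc8aae14fc)
  (nat_lit 0x21f86728731dfb797de01ac05cc749d9ed3466ce03457e7280000)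
  (nat_lit 0x1b9ddd3f1cddd95819de60e9401b50b0f034dd5eb34b016b80)
  (nat_lit 0x222333bce867e8cccb1a51f2eb90ae0301f608afdc03e0ec800000)
  (nat_lit 0x123a8a0fa7c22c73c38cee5a922f1ebfa9c09ee77a07a329c000)
  (nat_lit 0x2cd6a9e375d70d25d4afa8a0a69453a24fd9e2c729edf50c40)
  (nat_lit 0x5384f839050d0f339a5747eee652a0606c034f490f77f19180000)
  (nat_lit 0x1f3723b794e1fce74b842a2e5d7ab643f9487a6808d3758c0)
  (nat_lit 0x3fedf3b39e9e0f1124d19c260d2f0c5c433d7bf9e305c82a00)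
  (nat_lit 0x3bd92d566c8271050777ea7483f42a4c2d1b33291f166a4000000)
  (nat_lit 0xbefea4b38121896ba9155bc70d630c4c47bee232c05ba70500)
  (nat_lit 0x1ddfa31faaa22c0c5f85d2de4e6be5cc3fd91be7ac13457fc000)
  (nat_lit 0x1442ad053f1d52e0b5c76a4d88d429417657ce608edd3b352000)
  (nat_lit 0xf000000f40245d218518d87d800000067cc3690c3be652960)
  (nat_lit 0) t

noncomputable def Zc_1f (a0 a1 a2 a3 a4 a5 a6 a7 a8 a9 a10 a11 a12 a13 a14 a15 a16 a17 a18 a19 a20 a21 a22 a23 a24 a25 a26 a27 a28 a29 _o : Nat) (t : Chk) : Chk :=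
  Chk.cons (nat_lit 18) (nat_lit 2321) (nat_lit 4499) (nat_lit 6932) (nat_lit 9492) (nat_lit 12053) (nat_lit 2453) (nat_lit 5141) (nat_lit 7830) (nat_lit 10646) (nat_lit 1174) (nat_lit 3998) (nat_lit 7838) (nat_lit 11678) (nat_lit 3228) (nat_lit 6811)
    a0 a0 a0 a0 a0 (Nat.xor a0 a1) a1 a1 a1 (Nat.xor a1 a2) a2 a2 a2 (Nat.xor a2 a3) a3 a3
  (Chk.cons (nat_lit 10268) (nat_lit 1564) (nat_lit 5147) (nat_lit 8601) (nat_lit 11802) (nat_lit 2842) (nat_lit 6168) (nat_lit 9240) (nat_lit 25) (nat_lit 3223) (nat_lit 6166) (nat_lit 8983) (nat_lit 11927) (nat_lit 2582) (nat_lit 5398) (nat_lit 8215)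
    (Nat.xor a3 a4) a4 a4 a4 (Nat.xor a4 a5) a5 a5 a5 a6 a6 a6 a6 (Nat.xor a6 a7) a7 a7 a7
  (Chk.cons (nat_lit 11158) (nat_lit 1686) (nat_lit 4501) (nat_lit 7190) (nat_lit 10005) (nat_lit 404) (nat_lit 2964) (nat_lit 5525) (nat_lit 8212) (nat_lit 10771) (nat_lit 916) (nat_lit 3476) (nat_lit 6034) (nat_lit 8338) (nat_lit 10643) (nat_lit 784)
    (Nat.xor a7 a8) a8 a8 a8 (Nat.xor a8 a9) a9 a9 a9 a9 (Nat.xor a9 a10) a10 a10 a10 a10 (Nat.xor a10 a11) a11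
  (Chk.cons (nat_lit 2834) (nat_lit 5138) (nat_lit 7438) (nat_lit 9233) (nat_lit 11406) (nat_lit 912) (nat_lit 2962) (nat_lit 5266) (nat_lit 7571) (nat_lit 10004) (nat_lit 275) (nat_lit 2708) (nat_lit 5268) (nat_lit 7828) (nat_lit 10388) (nat_lit 661)
    a11 a11 a11 a11 (Nat.xor a11 a12) a12 a12 a12 a12 (Nat.xor a12 a13) a13 a13 a13 a13 (Nat.xor a13 a14) a14
  (Chk.cons (nat_lit 3349) (nat_lit 6037) (nat_lit 8734) (nat_lit 286) (nat_lit 4124) (nat_lit 7708) (nat_lit 11293) (nat_lit 2716) (nat_lit 6299) (nat_lit 9756) (nat_lit 1051) (nat_lit 4505) (nat_lit 7707) (nat_lit 11162) (nat_lit 2200) (nat_lit 5274)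
    a14 a14 (Nat.xor a14 a15) a15 a15 a15 (Nat.xor a15 a16) a16 a16 (Nat.xor a16 a17) a17 a17 a17 (Nat.xor a17 a18) a18 a18
  (Chk.cons (nat_lit 8601) (nat_lit 11800) (nat_lit 2584) (nat_lit 5655) (nat_lit 8599) (nat_lit 11542) (nat_lit 2069) (nat_lit 4757) (nat_lit 7445) (nat_lit 10134) (nat_lit 661) (nat_lit 3349) (nat_lit 6037) (nat_lit 8725) (nat_lit 11412) (nat_lit 1684)
    a18 (Nat.xor a18 a19) a19 a19 a19 (Nat.xor a19 a20) a20 a20 a20 (Nat.xor a20 a21) a21 a21 a21 a21 (Nat.xor a21 a22) a22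
  (Chk.cons (nat_lit 4244) (nat_lit 6801) (nat_lit 8979) (nat_lit 11411) (nat_lit 1553) (nat_lit 3731) (nat_lit 6161) (nat_lit 8336) (nat_lit 10385) (nat_lit 271) (nat_lit 2194) (nat_lit 4499) (nat_lit 6929) (nat_lit 9106) (nat_lit 11409) (nat_lit 1295)
    a22 a22 a22 (Nat.xor a22 a23) a23 a23 a23 a23 (Nat.xor a23 a24) a24 a24 a24 a24 a24 (Nat.xor a24 a25) a25
  (Chk.cons (nat_lit 3217) (nat_lit 5394) (nat_lit 7699) (nat_lit 10131) (nat_lit 275) (nat_lit 2707) (nat_lit 5139) (nat_lit 7581) (nat_lit 11293) (nat_lit 2717) (nat_lit 6427) (nat_lit 9882) (nat_lit 923) (nat_lit 4379) (nat_lit 7833) (nat_lit 11034)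
    a25 a25 a25 (Nat.xor a25 a26) a26 a26 a26 a26 (Nat.xor a26 a27) a27 a27 (Nat.xor a27 a28) a28 a28 a28 (Nat.xor a28 a29) t)))))))

noncomputable def Zc_1 (t : Chk) : Chk := Zc_1f
  (nat_lit 0x227c0a17f722bdbb97ae1f75bafa0b2cdc7382f94b93586d)
  (nat_lit 0x3c2625403e97fef17a477a84fa9e11c39e4b561bf6f2520d00000)
  (nat_lit 0x9b3452a4dd30a2684a413435838e6b49bc44ad5d8566de4a00)
  (nat_lit 0xe0029df7bd3f204bd7180e474c5baad42888a5b3fe6330c4000000)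
  (nat_lit 0xa04ed5e7c9b4b5e0d853320791dd2cc9fa9967f6ecc98a90000)
  (nat_lit 0x19443f278bb0afd5498577a55bd616dc9b97d8368c1cc867c00000)
  (nat_lit 0xdd8950d0b23b2a1099537096261a2671b3bde0d13c6e4714)
  (nat_lit 0x10ea0291dde2cbc04df6eb6248ee29c3cf26b28b8f7588b100000)
  (nat_lit 0x1366272870e9b42a798317197689110de880a59dd6d1cb346000)
  (nat_lit 0x7035bebc7380287e69fc432698fee76e238c45558c7f9fae8)
  (nat_lit 0x67b7cf0dce056e2a0ee1b9032dbc3faf1405771c2261792f00)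
  (nat_lit 0x341787a3d9b290b54720ae12234ddb3b575b1c7826983a6300)
  (nat_lit 0x5a854015d9753e96cdb1312021e3ba8e60bf49b7eb1a8f6100)
  (nat_lit 0x323ab8c34d6388d4f5497e5156b53ff6e59b931d67a5ef0b4)
  (nat_lit 0x1b89b4b105516c2969013dc04a83f3b412a2810ed4fca5e6e0)
  (nat_lit 0x26d2ae3a25c0041967ba753025b221a96021f55abc2ccafc0)
  (nat_lit 0x13d640d89215bf8a62dfbdf47d530304cc73e90b0850d23f800000)
  (nat_lit 0xd57fc642e844480b93a3b1e8da8eef6162e0fac4908eecc800)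
  (nat_lit 0x111791a06f4442bdd8e47543ffa30f2c1601e619d986de8980000)
  (nat_lit 0x28ef254c1df068c20a882676a745a056148b9b0e8ae1194100000)
  (nat_lit 0x2128bf6574b1c04903f7d7d398459c25e1fc0a3ae94288c50000)
  (nat_lit 0x3dafb31937189e21649fcbe836c6087c15012c38ab3c4f740)
  (nat_lit 0x53073626553f36e19a944a5bd9a4d81a87e76a75d3f90920000)
  (nat_lit 0xe3a4d0a78c1222758abbfb022bc75f6e75ffebc3b6e1a609000)
  (nat_lit 0x17025b726254cffb903cd9af57b134d1bfce6c71de866138)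
  (nat_lit 0x2fa6066373c05a298ff040ee510d7939b958162f493dac51800)
  (nat_lit 0x3a189c138ccad1d6d8e6e59907fda8b5a36f92b194b43d714)
  (nat_lit 0xff13d3326f5858449e2ed974d83286478e38e48cf1f0ecd600000)
  (nat_lit 0x22bf4faaf4716432a223cb74b0496a17ca47c9f6ff80f28a80)
  (nat_lit 0x92c100000000000000000000b6b8000000000000000000000000)
  (nat_lit 0) t

noncomputable def Zc_2f (a0 a1 a2 a3 a4 a5 a6 a7 a8 a9 a10 a11 a12 a13 a14 a15 a16 a17 a18 a19 a20 a21 a22 a23 a24 a25 a26 a27 a28 _o : Nat) (t : Chk) : Chk :=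
  Chk.cons (nat_lit 26) (nat_lit 3353) (nat_lit 6552) (nat_lit 9625) (nat_lit 536) (nat_lit 3607) (nat_lit 6552) (nat_lit 9624) (nat_lit 406) (nat_lit 3223) (nat_lit 6167) (nat_lit 9109) (nat_lit 11798) (nat_lit 2326) (nat_lit 5141) (nat_lit 7829)
    a0 a0 a0 (Nat.xor a0 a1) a1 a1 a1 (Nat.xor a1 a2) a2 a2 a2 a2 (Nat.xor a2 a3) a3 a3 a3
  (Chk.cons (nat_lit 10517) (nat_lit 917) (nat_lit 3603) (nat_lit 6036) (nat_lit 8596) (nat_lit 11155) (nat_lit 1299) (nat_lit 3731) (nat_lit 6162) (nat_lit 8466) (nat_lit 10770) (nat_lit 784) (nat_lit 2833) (nat_lit 5010) (nat_lit 7311) (nat_lit 9232)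
    (Nat.xor a3 a4) a4 a4 a4 a4 (Nat.xor a4 a5) a5 a5 a5 a5 (Nat.xor a5 a6) a6 a6 a6 a6 a6
  (Chk.cons (nat_lit 11280) (nat_lit 1039) (nat_lit 2961) (nat_lit 5136) (nat_lit 7185) (nat_lit 9360) (nat_lit 11410) (nat_lit 1425) (nat_lit 3602) (nat_lit 5906) (nat_lit 8209) (nat_lit 10386) (nat_lit 413) (nat_lit 4125) (nat_lit 7835) (nat_lit 11291)
    (Nat.xor a6 a7) a7 a7 a7 a7 a7 (Nat.xor a7 a8) a8 a8 a8 a8 (Nat.xor a8 a9) a9 a9 a9 (Nat.xor a9 a10)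
  (Chk.cons (nat_lit 2460) (nat_lit 6044) (nat_lit 9626) (nat_lit 667) (nat_lit 4123) (nat_lit 7577) (nat_lit 10779) (nat_lit 1946) (nat_lit 5273) (nat_lit 8474) (nat_lit 11801) (nat_lit 2712) (nat_lit 5785) (nat_lit 8984) (nat_lit 12054) (nat_lit 2582)
    a10 a10 (Nat.xor a10 a11) a11 a11 a11 (Nat.xor a11 a12) a12 a12 a12 (Nat.xor a12 a13) a13 a13 a13 (Nat.xor a13 a14) a14
  (Chk.cons (nat_lit 5398) (nat_lit 8213) (nat_lit 10900) (nat_lit 1173) (nat_lit 3862) (nat_lit 6676) (nat_lit 9237) (nat_lit 11925) (nat_lit 2323) (nat_lit 4755) (nat_lit 7188) (nat_lit 9745) (nat_lit 11921) (nat_lit 1811) (nat_lit 4243) (nat_lit 6674)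
    a14 a14 (Nat.xor a14 a15) a15 a15 a15 a15 (Nat.xor a15 a16) a16 a16 a16 a16 (Nat.xor a16 a17) a17 a17 a17
  (Chk.cons (nat_lit 8976) (nat_lit 11024) (nat_lit 784) (nat_lit 2834) (nat_lit 5139) (nat_lit 7571) (nat_lit 10000) (nat_lit 12048) (nat_lit 1807) (nat_lit 3729) (nat_lit 5905) (nat_lit 8081) (nat_lit 10257) (nat_lit 145) (nat_lit 2321) (nat_lit 4508)
    a17 (Nat.xor a17 a18) a18 a18 a18 a18 a18 (Nat.xor a18 a19) a19 a19 a19 a19 (Nat.xor a19 a20) a20 a20 a20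
  (Chk.cons (nat_lit 8092) (nat_lit 11675) (nat_lit 2842) (nat_lit 6171) (nat_lit 9628) (nat_lit 923) (nat_lit 4375) (nat_lit 7322) (nat_lit 10650) (nat_lit 1689) (nat_lit 4887) (nat_lit 7833) (nat_lit 11033) (nat_lit 1943) (nat_lit 4887) (nat_lit 7831)
    a20 (Nat.xor a20 a21) a21 a21 (Nat.xor a21 a22) a22 a22 a22 (Nat.xor a22 a23) a23 a23 a23 (Nat.xor a23 a24) a24 a24 a24
  (Chk.cons (nat_lit 10774) (nat_lit 1302) (nat_lit 4119) (nat_lit 7062) (nat_lit 9878) (nat_lit 406) (nat_lit 3221) (nat_lit 5909) (nat_lit 8597) (nat_lit 11285) (nat_lit 1683) (nat_lit 4116) (nat_lit 6676) (nat_lit 9235) (nat_lit 11667) (nat_lit 1812)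
    (Nat.xor a24 a25) a25 a25 a25 (Nat.xor a25 a26) a26 a26 a26 a26 (Nat.xor a26 a27) a27 a27 a27 a27 (Nat.xor a27 a28) a28 t)))))))

noncomputable def Zc_2 (t : Chk) : Chk := Zc_2f
  (nat_lit 0xff9c5df8d5fafb334e0dcd7ccadcd64124f629a5e0d8277a)
  (nat_lit 0x77ed36b13391729a83618625fd13b31cb410419f0af2b6c70)
  (nat_lit 0x4af22e744d3f44c7c89f2bbe1c2eecf66111d3c0de0c23cb8)
  (nat_lit 0xe0ada4acfa7211980aa6a05f9e3b39c59c7505401dd4c81c0000)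
  (nat_lit 0x72c824a2eeb7a90f71a69a8dcb8a88cb270076e10792c83180)
  (nat_lit 0x1b50e52ed99f25946e739e5eadbe182c90f943705e1fc316c00)
  (nat_lit 0x127d3ee506e0df7eb4afd4c42b9f05edfdd27f7d1fd6052c00)
  (nat_lit 0x6513b4a07f181ec24bccf54ff9379b8debfc7a863fbf7cb500)
  (nat_lit 0x4afcdf6ac94218c62d2be2d5f4d05bfb97556374599aec39800)
  (nat_lit 0x6a15e1c00304f6bf28437c929f7fa5a4906cd1807c977e218)
  (nat_lit 0x559b72957c39112ae3bd24148ba0a2ca6b66f7e2d86e8c3000000)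
  (nat_lit 0xadc7f0daf340b1fb7564d4dd9e21b7247c6dd97a6049a1820)
  (nat_lit 0x33e0f65f888b14007efe0fdfd4ec52d7655e8b1a85d76b9b8000)
  (nat_lit 0xf5364de28135a987478c28ae28792f567ad8f5c279363bb400000)
  (nat_lit 0x1269c81340bf183dbc91c39c43ab46c808e9bee6960258d300000)
  (nat_lit 0xa916f6dd37d0d741192f1f77a67985d4d19ba3ad447e15fc00)
  (nat_lit 0x1b7c0980ea88c19dfddc5a18bc0bc43fb4c9b0efc4fdc08f00000)
  (nat_lit 0x262d383086f25417274b3d374f77b60e2cfc6093e59580720000)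
  (nat_lit 0x24cc46ed4cfcf1076b4e342760be5ff052ce33fd261beff940)
  (nat_lit 0x3489d4fe7cdfb607dc0788f5c0a653f2f66a9902cb7f81480000)
  (nat_lit 0x13c40589c384bd244a9fa2c91ff3d197e925ab04787ab6c00)
  (nat_lit 0x230c3492159d5bd5b03289dbba14fc8733a7b58e3960fb47800000)
  (nat_lit 0xc7fa387bbcbbe69ea1c9639e2a5590b9d7aee68f331034880)
  (nat_lit 0x10b8df9f7127ebf3bee159da256e81f31728e7177fc699714000)
  (nat_lit 0x5636d1e9bfa9d35975cf925b3aefe65034f55d8237ec431f8000)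
  (nat_lit 0x23db7a64767d2be6efcdcc74032762db6f2cd9a3347f6b67c00)
  (nat_lit 0x3d83be9de5b44da512cb2fa0f152bba4c453078a9985ca2c0)
  (nat_lit 0x12e68c2600c4d831c977ee06a096610f81f6d082f5e51c7f2000)
  (nat_lit 0x156b0000000000000002aafaa96a00000000000000032d444000)
  (nat_lit 0) t

noncomputable def Zc_3f (a0 a1 a2 a3 a4 a5 a6 a7 a8 a9 a10 a11 a12 a13 a14 a15 a16 a17 a18 a19 a20 a21 a22 a23 a24 a25 a26 a27 a28 _o : Nat) (t : Chk) : Chk :=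
  Chk.cons (nat_lit 19) (nat_lit 2450) (nat_lit 4755) (nat_lit 7183) (nat_lit 9103) (nat_lit 11026) (nat_lit 1040) (nat_lit 3088) (nat_lit 5137) (nat_lit 7314) (nat_lit 9618) (nat_lit 11923) (nat_lit 2067) (nat_lit 4499) (nat_lit 6931) (nat_lit 9364)
    a0 a0 a0 a0 a0 (Nat.xor a0 a1) a1 a1 a1 a1 a1 (Nat.xor a1 a2) a2 a2 a2 a2
  (Chk.cons (nat_lit 11923) (nat_lit 2068) (nat_lit 4636) (nat_lit 8220) (nat_lit 11804) (nat_lit 3098) (nat_lit 6428) (nat_lit 10011) (nat_lit 1178) (nat_lit 4507) (nat_lit 7963) (nat_lit 11417) (nat_lit 2331) (nat_lit 5787) (nat_lit 9240) (nat_lit 26)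
    (Nat.xor a2 a3) a3 a3 a3 (Nat.xor a3 a4) a4 a4 (Nat.xor a4 a5) a5 a5 a5 (Nat.xor a5 a6) a6 a6 a6 a7
  (Chk.cons (nat_lit 3354) (nat_lit 6679) (nat_lit 9624) (nat_lit 408) (nat_lit 3478) (nat_lit 6294) (nat_lit 9110) (nat_lit 11926) (nat_lit 2453) (nat_lit 5141) (nat_lit 7830) (nat_lit 10645) (nat_lit 1045) (nat_lit 3733) (nat_lit 6420) (nat_lit 8980)
    a7 a7 (Nat.xor a7 a8) a8 a8 a8 a8 (Nat.xor a8 a9) a9 a9 a9 (Nat.xor a9 a10) a10 a10 a10 a10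
  (Chk.cons (nat_lit 11540) (nat_lit 1811) (nat_lit 4242) (nat_lit 6547) (nat_lit 8979) (nat_lit 11410) (nat_lit 1427) (nat_lit 3858) (nat_lit 6162) (nat_lit 8467) (nat_lit 10898) (nat_lit 912) (nat_lit 2960) (nat_lit 5009) (nat_lit 7185) (nat_lit 9361)
    (Nat.xor a10 a11) a11 a11 a11 a11 (Nat.xor a11 a12) a12 a12 a12 a12 (Nat.xor a12 a13) a13 a13 a13 a13 a13
  (Chk.cons (nat_lit 11536) (nat_lit 1297) (nat_lit 3473) (nat_lit 5648) (nat_lit 7708) (nat_lit 11292) (nat_lit 2587) (nat_lit 6041) (nat_lit 9243) (nat_lit 411) (nat_lit 3867) (nat_lit 7319) (nat_lit 10266) (nat_lit 1306) (nat_lit 4633) (nat_lit 7831)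
    (Nat.xor a13 a14) a14 a14 a14 a14 (Nat.xor a14 a15) a15 a15 (Nat.xor a15 a16) a16 a16 a16 (Nat.xor a16 a17) a17 a17 a17
  (Chk.cons (nat_lit 10776) (nat_lit 1560) (nat_lit 4631) (nat_lit 7575) (nat_lit 10519) (nat_lit 1175) (nat_lit 4119) (nat_lit 7063) (nat_lit 10005) (nat_lit 406) (nat_lit 3222) (nat_lit 6037) (nat_lit 8724) (nat_lit 11285) (nat_lit 1685) (nat_lit 4372)
    (Nat.xor a17 a18) a18 a18 a18 (Nat.xor a18 a19) a19 a19 a19 (Nat.xor a19 a20) a20 a20 a20 a20 (Nat.xor a20 a21) a21 a21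
  (Chk.cons (nat_lit 6932) (nat_lit 9493) (nat_lit 12180) (nat_lit 2451) (nat_lit 4884) (nat_lit 7443) (nat_lit 9874) (nat_lit 12178) (nat_lit 2193) (nat_lit 4369) (nat_lit 6545) (nat_lit 8721) (nat_lit 10898) (nat_lit 914) (nat_lit 3218) (nat_lit 5523)
    a21 a21 (Nat.xor a21 a22) a22 a22 a22 a22 (Nat.xor a22 a23) a23 a23 a23 a23 (Nat.xor a23 a24) a24 a24 a24
  (Chk.cons (nat_lit 7955) (nat_lit 10387) (nat_lit 531) (nat_lit 2964) (nat_lit 5523) (nat_lit 7964) (nat_lit 11548) (nat_lit 2843) (nat_lit 6298) (nat_lit 9627) (nat_lit 795) (nat_lit 4250) (nat_lit 7579) (nat_lit 11035) (nat_lit 2201) (nat_lit 5402)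
    a24 (Nat.xor a24 a25) a25 a25 a25 a25 (Nat.xor a25 a26) a26 a26 (Nat.xor a26 a27) a27 a27 a27 (Nat.xor a27 a28) a28 a28 t)))))))

noncomputable def Zc_3 (t : Chk) : Chk := Zc_3f
  (nat_lit 0x44bbc79f1a50d706269ba2a2543a6e62e3383c0a2411d6b2)
  (nat_lit 0xa031c33bf48f0799d067d7256f5d0b463fa03517efbca1d100)
  (nat_lit 0x85ab4dc779005ae499ac49efe21985ef0e57f13b1f162ad40000)
  (nat_lit 0x14f874b93de827cb0f6f0bee7d3cf7953f102a75423c8de0000)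
  (nat_lit 0x928ec0fcafe1eb6940b747c287ce0f244ff12650a8ce952c000000)
  (nat_lit 0x1f77ce9b5c0ec605bf85828dc3da8590499bb73305256f7e600)
  (nat_lit 0x884b1df342795f03d35eeacdcce398447a3f7ed4b9e18c640000)
  (nat_lit 0x933cc09d6137d7385e660640b1500e2fd933faeeb32555ad)
  (nat_lit 0x5af114ce5a32415ca243c95b7a1e4026d2307886fa93b1198)
  (nat_lit 0x330399d7c8d98c5f9e4cd62a28c7e70c683b4e013527518c00000)
  (nat_lit 0x9f3cf93ba9814e8b4de7159340e92888cc367f88710750a200)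
  (nat_lit 0x27a0c52933d63ffe3230fe0ba15b77a0ad088f1c22661bdf8000)
  (nat_lit 0x119a7f49d25c1aacf66658e561d059955d04916d6b93306e800)
  (nat_lit 0x61ee2da539daa99e70778b57e6db9b038005c02d723835cd00)
  (nat_lit 0x2129d869d5e7e86badaacd5f06608cfb7bcae944c2576bc2c00)
  (nat_lit 0x7abb448c55fc487a5bf45a6378f880e581ec12d7af61d6ea00000)
  (nat_lit 0x72e1f27288704eeb7a2566180ac3ef204746f585d7ecf90d8)
  (nat_lit 0x205871caee22bcff318d0484a8834dd6aa8b833fa038a2cd800)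
  (nat_lit 0xadb47f51689a796bfc4d2c08a1dbbc416a2cc0fa36d75959000)
  (nat_lit 0x2b57ea555a29e94ccc9ac11f0ad7af49f421dde326e00b000)
  (nat_lit 0x530001cf77c40ddb97c511640b17865010cc7ecbd70a23178)
  (nat_lit 0x19ee2b383764f71b5ec954bc6d2b9f7b831621346a5c7adfa000)
  (nat_lit 0x4a144192773c6f55aaa71124a0a78a0705cd8ecd5dd6e64f00000)
  (nat_lit 0x1c9d64e0e2c38504dbee923d5d8c390fa6acc0357fd6463660000)
  (nat_lit 0x151b3517a75fbe53f07f1493272e4666e84c41e027ae1cce80)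
  (nat_lit 0x3ca1c9ea621f29b97da4a5c874358f9e18027e9d24b0ebbe0)
  (nat_lit 0x1f769152e405a9783ee62232416e1d0b2c0e5907edc7e2d1800000)
  (nat_lit 0xd7055bd9feeb87ff6e01084de7646529fcd9ab67fabd25100)
  (nat_lit 0x117ae0000000544372b181013295a00000000134eedf945040000)
  (nat_lit 0) t

noncomputable def Zc_4f (a0 a1 a2 a3 a4 a5 a6 a7 a8 a9 a10 a11 a12 a13 a14 a15 a16 a17 a18 a19 a20 a21 a22 a23 a24 a25 a26 a27 a28 _o : Nat) (t : Chk) : Chk :=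
  Chk.cons (nat_lit 26) (nat_lit 3352) (nat_lit 6425) (nat_lit 9625) (nat_lit 536) (nat_lit 3608) (nat_lit 6680) (nat_lit 9750) (nat_lit 278) (nat_lit 3095) (nat_lit 6038) (nat_lit 8853) (nat_lit 11541) (nat_lit 1942) (nat_lit 4757) (nat_lit 7445)
    a0 a0 a0 (Nat.xor a0 a1) a1 a1 a1 (Nat.xor a1 a2) a2 a2 a2 a2 (Nat.xor a2 a3) a3 a3 a3
  (Chk.cons (nat_lit 10133) (nat_lit 532) (nat_lit 3091) (nat_lit 5524) (nat_lit 8084) (nat_lit 10641) (nat_lit 531) (nat_lit 2963) (nat_lit 5395) (nat_lit 7827) (nat_lit 10259) (nat_lit 403) (nat_lit 2833) (nat_lit 5007) (nat_lit 6927) (nat_lit 8848)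
    (Nat.xor a3 a4) a4 a4 a4 a4 (Nat.xor a4 a5) a5 a5 a5 a5 (Nat.xor a5 a6) a6 a6 a6 a6 a6
  (Chk.cons (nat_lit 10895) (nat_lit 527) (nat_lit 2448) (nat_lit 4496) (nat_lit 6555) (nat_lit 10012) (nat_lit 1307) (nat_lit 4760) (nat_lit 7835) (nat_lit 11291) (nat_lit 2458) (nat_lit 5784) (nat_lit 8858) (nat_lit 12185) (nat_lit 3096) (nat_lit 6168)
    (Nat.xor a6 a7) a7 a7 a7 a7 (Nat.xor a7 a8) a8 a8 a8 (Nat.xor a8 a9) a9 a9 a9 (Nat.xor a9 a10) a10 a10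
  (Chk.cons (nat_lit 9241) (nat_lit 152) (nat_lit 3223) (nat_lit 6168) (nat_lit 9239) (nat_lit 12182) (nat_lit 2711) (nat_lit 5655) (nat_lit 8598) (nat_lit 11414) (nat_lit 1942) (nat_lit 4758) (nat_lit 7572) (nat_lit 10133) (nat_lit 533) (nat_lit 3220)
    (Nat.xor a10 a11) a11 a11 a11 a11 (Nat.xor a11 a12) a12 a12 a12 (Nat.xor a12 a13) a13 a13 a13 (Nat.xor a13 a14) a14 a14
  (Chk.cons (nat_lit 5779) (nat_lit 8212) (nat_lit 10772) (nat_lit 1042) (nat_lit 3348) (nat_lit 5907) (nat_lit 8337) (nat_lit 10514) (nat_lit 528) (nat_lit 2578) (nat_lit 4881) (nat_lit 7058) (nat_lit 9362) (nat_lit 11667) (nat_lit 1811) (nat_lit 4243)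
    a14 a14 (Nat.xor a14 a15) a15 a15 a15 a15 (Nat.xor a15 a16) a16 a16 a16 a16 a16 (Nat.xor a16 a17) a17 a17
  (Chk.cons (nat_lit 6675) (nat_lit 9108) (nat_lit 11668) (nat_lit 1948) (nat_lit 5531) (nat_lit 8987) (nat_lit 154) (nat_lit 3483) (nat_lit 6939) (nat_lit 10393) (nat_lit 1307) (nat_lit 4763) (nat_lit 8217) (nat_lit 11418) (nat_lit 2458) (nat_lit 5784)
    a17 a17 (Nat.xor a17 a18) a18 a18 (Nat.xor a18 a19) a19 a19 a19 (Nat.xor a19 a20) a20 a20 a20 (Nat.xor a20 a21) a21 a21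
  (Chk.cons (nat_lit 8857) (nat_lit 12057) (nat_lit 2967) (nat_lit 5912) (nat_lit 8984) (nat_lit 12055) (nat_lit 2710) (nat_lit 5527) (nat_lit 8470) (nat_lit 11285) (nat_lit 1685) (nat_lit 4374) (nat_lit 7189) (nat_lit 9876) (nat_lit 149) (nat_lit 2836)
    a21 (Nat.xor a21 a22) a22 a22 a22 (Nat.xor a22 a23) a23 a23 a23 (Nat.xor a23 a24) a24 a24 a24 (Nat.xor a24 a25) a25 a25
  (Chk.cons (nat_lit 5395) (nat_lit 7827) (nat_lit 10259) (nat_lit 403) (nat_lit 2835) (nat_lit 5267) (nat_lit 7699) (nat_lit 10132) (nat_lit 403) (nat_lit 2834) (nat_lit 5136) (nat_lit 7183) (nat_lit 9104) (nat_lit 11151) (nat_lit 783) (nat_lit 2704)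
    a25 a25 (Nat.xor a25 a26) a26 a26 a26 a26 (Nat.xor a26 a27) a27 a27 a27 a27 a27 (Nat.xor a27 a28) a28 a28 t)))))))

noncomputable def Zc_4 (t : Chk) : Chk := Zc_4f
  (nat_lit 0x68a9ea6737178dde0a2534456268485c6798f15a4fdda771)
  (nat_lit 0x82eba684c93b4811d5c0288fa44974df35bc1fccfa5dd7a80)
  (nat_lit 0x3e8ea5e9068e64b336a14d622cebd4d8397d763fa3a208d8c)
  (nat_lit 0x71357b65e332e1b6ea4bf26baaa0ca14d843ef78b1445ca48000)
  (nat_lit 0x185bbc489ad38bf7cf1718c6191c19d3516524d4a3ee61e00)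
  (nat_lit 0xbe4370db37a33db441ddcb05e6051652d999a07cf5773a10)
  (nat_lit 0x57056057b31b924b209302b1ae76544e671de4a6956aa1620)
  (nat_lit 0xab266da5551296cb53c8b2896e35fc2821f4aa06e08282da0)
  (nat_lit 0x22dcc8496f1eb2fd1aef9cc1f83e6d292a183edf205656f4800)
  (nat_lit 0x42f3e3afc207f366d6c08b255271a9af7da7aa0973abdf1400000)
  (nat_lit 0x617501b644063c705bdbf9f3ac6bcd080398220e70435b18000000)
  (nat_lit 0xbec77ba671950a7ddd5257b080db46c6bb3c65b1da5f71d0)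
  (nat_lit 0x132d472bef593093ddc294787416dd39f96c12adc0c920ea00000)
  (nat_lit 0x574337b6ea04e46f6c48823695d5e2472ec0361df3444f378000)
  (nat_lit 0xc47c80e004830fbc17548646d15f2885435e623d09c603d0)
  (nat_lit 0x644573e81ecc1968ea28bec76e8ed6af7428b0302d31d91f00)
  (nat_lit 0x143e86f24e03b31dbb6e6385e5072ac3f9e0ca60fe0121630)
  (nat_lit 0x227e6457bcb48cb85efcee99f3dad6461cf31f8fba1b9f598000)
  (nat_lit 0x188ecc81466047cb5be0686c13c53c7d38fccd9ad1f85fc90000)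
  (nat_lit 0x1da8d1227ece3b92f5a9fe38743984f9145bb4d0d3106255e)
  (nat_lit 0x83e67678f7a68ccf3bd8ab60f16ff71103919f6d9a6969c00)
  (nat_lit 0x55c01ef09f5a28543aeef4015df027cdb05d628b442dbf9a80000)
  (nat_lit 0x3dedfa9be4812f213d84db881195660603f2f5d8f138f1bc800000)
  (nat_lit 0x17155f4389e42d923d37205749699bf9f02660dc1265df8de00000)
  (nat_lit 0x8a6f9a100229a46edc9a912d20a94220c7f9db94e07a5d4000)
  (nat_lit 0x63dcc44c2394f5efc4aca31c006af696126ef007acf80a06)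
  (nat_lit 0x35db91bc59afc0a84b8a1758c6e49ac4cbf21d21c8704b8d0)
  (nat_lit 0x7e8e02d4b96b9e4cb6e0d833adcd2bc7b87eeb88d3709fc90)
  (nat_lit 0x37000000000000001da09929c4000000000000001f69e24940)
  (nat_lit 0) t

noncomputable def Zc_5f (a0 a1 a2 a3 a4 a5 a6 a7 a8 a9 a10 a11 a12 a13 a14 a15 a16 a17 a18 a19 a20 a21 a22 a23 a24 a25 a26 a27 a28 a29 _o : Nat) (t : Chk) : Chk :=
  Chk.cons (nat_lit 16) (nat_lit 2075) (nat_lit 5531) (nat_lit 8986) (nat_lit 25) (nat_lit 3227) (nat_lit 6683) (nat_lit 10137) (nat_lit 1049) (nat_lit 4250) (nat_lit 7577) (nat_lit 10776) (nat_lit 1560) (nat_lit 4633) (nat_lit 7832) (nat_lit 10903)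
    a0 a0 a0 a0 a1 a1 a1 (Nat.xor a1 a2) a2 a2 a2 (Nat.xor a2 a3) a3 a3 a3 (Nat.xor a3 a4)
  (Chk.cons (nat_lit 1560) (nat_lit 4632) (nat_lit 7702) (nat_lit 10519) (nat_lit 1175) (nat_lit 4118) (nat_lit 6934) (nat_lit 9750) (nat_lit 278) (nat_lit 3092) (nat_lit 5653) (nat_lit 8341) (nat_lit 11028) (nat_lit 1299) (nat_lit 3732) (nat_lit 6292)
    a4 a4 a4 (Nat.xor a4 a5) a5 a5 a5 (Nat.xor a5 a6) a6 a6 a6 a6 (Nat.xor a6 a7) a7 a7 a7
  (Chk.cons (nat_lit 8850) (nat_lit 11156) (nat_lit 1425) (nat_lit 3602) (nat_lit 5905) (nat_lit 8081) (nat_lit 10258) (nat_lit 274) (nat_lit 2579) (nat_lit 5011) (nat_lit 7443) (nat_lit 9876) (nat_lit 147) (nat_lit 2579) (nat_lit 5019) (nat_lit 8475)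
    a7 (Nat.xor a7 a8) a8 a8 a8 a8 (Nat.xor a8 a9) a9 a9 a9 a9 (Nat.xor a9 a10) a10 a10 a10 a10
  (Chk.cons (nat_lit 11930) (nat_lit 2970) (nat_lit 6299) (nat_lit 9755) (nat_lit 921) (nat_lit 4123) (nat_lit 7578) (nat_lit 10905) (nat_lit 1818) (nat_lit 5146) (nat_lit 8472) (nat_lit 11545) (nat_lit 2457) (nat_lit 5655) (nat_lit 8600) (nat_lit 11672)
    (Nat.xor a10 a11) a11 a11 (Nat.xor a11 a12) a12 a12 a12 (Nat.xor a12 a13) a13 a13 a13 (Nat.xor a13 a14) a14 a14 a14 (Nat.xor a14 a15)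
  (Chk.cons (nat_lit 2455) (nat_lit 5398) (nat_lit 8215) (nat_lit 11158) (nat_lit 1685) (nat_lit 4373) (nat_lit 7062) (nat_lit 9877) (nat_lit 276) (nat_lit 2837) (nat_lit 5524) (nat_lit 8083) (nat_lit 10514) (nat_lit 532) (nat_lit 3090) (nat_lit 5394)
    a15 a15 a15 (Nat.xor a15 a16) a16 a16 a16 (Nat.xor a16 a17) a17 a17 a17 a17 (Nat.xor a17 a18) a18 a18 a18
  (Chk.cons (nat_lit 7700) (nat_lit 10260) (nat_lit 530) (nat_lit 2831) (nat_lit 4749) (nat_lit 6417) (nat_lit 8589) (nat_lit 10256) (nat_lit 15) (nat_lit 1933) (nat_lit 3611) (nat_lit 7067) (nat_lit 10522) (nat_lit 1560) (nat_lit 4634) (nat_lit 7962)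
    a18 (Nat.xor a18 a19) a19 a19 a19 a19 a19 a19 a20 a20 a20 a20 (Nat.xor a20 a21) a21 a21 a21
  (Chk.cons (nat_lit 11289) (nat_lit 2201) (nat_lit 5402) (nat_lit 8729) (nat_lit 11928) (nat_lit 2712) (nat_lit 5785) (nat_lit 8983) (nat_lit 11927) (nat_lit 2584) (nat_lit 5655) (nat_lit 8598) (nat_lit 11415) (nat_lit 2071) (nat_lit 5014) (nat_lit 7830)
    (Nat.xor a21 a22) a22 a22 a22 (Nat.xor a22 a23) a23 a23 a23 (Nat.xor a23 a24) a24 a24 a24 (Nat.xor a24 a25) a25 a25 a25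
  (Chk.cons (nat_lit 10646) (nat_lit 1174) (nat_lit 3988) (nat_lit 6549) (nat_lit 9237) (nat_lit 11924) (nat_lit 2195) (nat_lit 4628) (nat_lit 7188) (nat_lit 9747) (nat_lit 12180) (nat_lit 2450) (nat_lit 4753) (nat_lit 6929) (nat_lit 9106) (nat_lit 11411)
    (Nat.xor a25 a26) a26 a26 a26 a26 (Nat.xor a26 a27) a27 a27 a27 a27 (Nat.xor a27 a28) a28 a28 a28 a28 (Nat.xor a28 a29) t)))))))

noncomputable def Zc_5 (t : Chk) : Chk := Zc_5f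
  (nat_lit 0x905fd35c13d14c84421db087f420190708c066b9dca72568)
  (nat_lit 0xde83c2f9777e672190ff290baafe4bc81a369fd01952418)
  (nat_lit 0xc599b94766446e7da4794be89bc610cdaac67a2a66673c4800)
  (nat_lit 0x2150aab418c4f86e51bf51832c92738e77b877a52fec7e64000)
  (nat_lit 0xcddbb5fa93dc8210995cb65e85e1a4543ef6c01d3b363020000)
  (nat_lit 0x5b3da993a4eae749f79dc12a2d969575fc90ca081edbb18200)
  (nat_lit 0x1dd56f47b7cfbe2ba3f74995af40922098efa5a79493db76c)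
  (nat_lit 0x1f8fdf1a7933cc47c587fd642f5a1cce19afa0431a9d6f22000)
  (nat_lit 0x4f667a25f9728d30f415e3ecc814fd1ca7a05ae0b03d0d0d800)
  (nat_lit 0x39f5b0d6d85e799bc74260c8eed9778e943a56b6229df4894)
  (nat_lit 0x8f86aa661ee67848ebb638c564889d1b931efef0b72e2278)
  (nat_lit 0x39f7fa92643745765d405545c3374c8529626841cd977111000000)
  (nat_lit 0x468c30ce778b361958ea12a3a840fee6a209f59ca099409e00)
  (nat_lit 0x333ceb6f16b2311ff652d3f180ec54edce0f9bf28d16d673c000)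
  (nat_lit 0x203058229df2eeafdf918816148c8f1a65f2830273f3f0db00000)
  (nat_lit 0x69740394ee77f19c10292371e61e743e464db514a9cc1d3380000)
  (nat_lit 0x1920e15ccb5b066b48e94ff340a7ca4b253b8ce9b733b597a000)
  (nat_lit 0x2e84f8519c2dcc262167d4dc434fa2755fee231691e67f780)
  (nat_lit 0x228a49b206e58fde6186e52c449c0d95659f0f38a03328040)
  (nat_lit 0x9b5383724c7974eae8116ca28f2ac547e286ac13f19b16710)
  (nat_lit 0xa9c6387b4fb92ada81ed818f55874798429cea24fea5c0e1)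
  (nat_lit 0x6f7728c701ae0b0c9d7935ec07ee308f4ee3e6771a07cd31000)
  (nat_lit 0x8c27cced89a7661056e0d553613adc2350c35d1fd359964e0000)
  (nat_lit 0x1af4f6faa259e019afe8ba3f5c2e434116baf08a7b80d0f1200000)
  (nat_lit 0xbc1a09c28be5401c8da119018bc33ed4e78a8424b8c981a500000)
  (nat_lit 0x7d29a92e3e15ec71b5313e487986e2851c85ba855793cc250000)
  (nat_lit 0x1a354d57f407576bbe8c7075fcc3be669372e3308ba620bec00)
  (nat_lit 0x103aa64f5b69585c1b4a063a76ed0e2ada32205eb3a3533e00000)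
  (nat_lit 0x271e5af05c6df1cdb97994da6a8a862201b99384270f5fd480000)
  (nat_lit 0x914000000000000000000000b57000000000000000000000000)
  (nat_lit 0) t

noncomputable def Zc_6f (a0 a1 a2 a3 a4 a5 a6 a7 a8 a9 a10 a11 a12 a13 a14 a15 a16 a17 a18 a19 a20 a21 a22 a23 a24 a25 a26 a27 a28 a29 _o : Nat) (t : Chk) : Chk :=
  Chk.cons (nat_lit 18) (nat_lit 2323) (nat_lit 4754) (nat_lit 7059) (nat_lit 9499) (nat_lit 667) (nat_lit 4122) (nat_lit 7450) (nat_lit 10779) (nat_lit 1946) (nat_lit 5273) (nat_lit 8474) (nat_lit 11802) (nat_lit 2841) (nat_lit 6042) (nat_lit 9370)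
    a0 a0 a0 a0 (Nat.xor a0 a1) a1 a1 a1 (Nat.xor a1 a2) a2 a2 a2 (Nat.xor a2 a3) a3 a3 (Nat.xor a3 a4)
  (Chk.cons (nat_lit 408) (nat_lit 3481) (nat_lit 6681) (nat_lit 9879) (nat_lit 536) (nat_lit 3608) (nat_lit 6679) (nat_lit 9622) (nat_lit 151) (nat_lit 3094) (nat_lit 5909) (nat_lit 8597) (nat_lit 11286) (nat_lit 1814) (nat_lit 4628) (nat_lit 7189)
    a4 a4 a4 (Nat.xor a4 a5) a5 a5 a5 (Nat.xor a5 a6) a6 a6 a6 a6 (Nat.xor a6 a7) a7 a7 a7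
  (Chk.cons (nat_lit 9876) (nat_lit 147) (nat_lit 2579) (nat_lit 5011) (nat_lit 7443) (nat_lit 9874) (nat_lit 12180) (nat_lit 2451) (nat_lit 4881) (nat_lit 7054) (nat_lit 8848) (nat_lit 10896) (nat_lit 657) (nat_lit 2834) (nat_lit 5146) (nat_lit 8475)
    (Nat.xor a7 a8) a8 a8 a8 a8 a8 (Nat.xor a8 a9) a9 a9 a9 a9 (Nat.xor a9 a10) a10 a10 a10 a10
  (Chk.cons (nat_lit 11930) (nat_lit 2968) (nat_lit 6042) (nat_lit 9370) (nat_lit 408) (nat_lit 3481) (nat_lit 6682) (nat_lit 10009) (nat_lit 920) (nat_lit 3992) (nat_lit 7064) (nat_lit 10135) (nat_lit 791) (nat_lit 3736) (nat_lit 6807) (nat_lit 9750)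
    (Nat.xor a10 a11) a11 a11 (Nat.xor a11 a12) a12 a12 a12 (Nat.xor a12 a13) a13 a13 a13 (Nat.xor a13 a14) a14 a14 a14 (Nat.xor a14 a15)
  (Chk.cons (nat_lit 279) (nat_lit 3223) (nat_lit 6166) (nat_lit 8982) (nat_lit 11798) (nat_lit 2326) (nat_lit 5140) (nat_lit 7701) (nat_lit 10389) (nat_lit 788) (nat_lit 3347) (nat_lit 5780) (nat_lit 8340) (nat_lit 10899) (nat_lit 1043) (nat_lit 3472)
    a15 a15 a15 a15 (Nat.xor a15 a16) a16 a16 a16 (Nat.xor a16 a17) a17 a17 a17 a17 (Nat.xor a17 a18) a18 a18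
  (Chk.cons (nat_lit 5522) (nat_lit 7825) (nat_lit 10002) (nat_lit 19) (nat_lit 2450) (nat_lit 4755) (nat_lit 7186) (nat_lit 9498) (nat_lit 538) (nat_lit 3865) (nat_lit 7066) (nat_lit 10395) (nat_lit 1562) (nat_lit 4889) (nat_lit 8090) (nat_lit 11418)
    a18 a18 a18 a19 a19 a19 a19 (Nat.xor a19 a20) a20 a20 a20 (Nat.xor a20 a21) a21 a21 a21 (Nat.xor a21 a22)
  (Chk.cons (nat_lit 2456) (nat_lit 5530) (nat_lit 8858) (nat_lit 12184) (nat_lit 2969) (nat_lit 6169) (nat_lit 9367) (nat_lit 24) (nat_lit 3096) (nat_lit 6167) (nat_lit 9110) (nat_lit 11927) (nat_lit 2582) (nat_lit 5397) (nat_lit 8085) (nat_lit 10774)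
    a22 a22 a22 (Nat.xor a22 a23) a23 a23 a23 a24 a24 a24 a24 (Nat.xor a24 a25) a25 a25 a25 (Nat.xor a25 a26)
  (Chk.cons (nat_lit 1302) (nat_lit 4116) (nat_lit 6677) (nat_lit 9364) (nat_lit 11923) (nat_lit 2067) (nat_lit 4496) (nat_lit 6546) (nat_lit 8851) (nat_lit 11280) (nat_lit 1041) (nat_lit 3218) (nat_lit 5521) (nat_lit 7697) (nat_lit 9874) (nat_lit 12186)
    a26 a26 a26 a26 (Nat.xor a26 a27) a27 a27 a27 a27 (Nat.xor a27 a28) a28 a28 a28 a28 a28 (Nat.xor a28 a29) t)))))))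

noncomputable def Zc_6 (t : Chk) : Chk := Zc_6f
  (nat_lit 0x50f6398d83605faee32a60351547b8201782c3615b041fcc)
  (nat_lit 0xeaba67f29ea15c2bb860b33133d5382a840c94d93c66dcb60)
  (nat_lit 0x44a71ae05894874f9b1c4b9b55629f969d65713adc0b08048000)
  (nat_lit 0x1e6bb42ddb4f51c1231e20e15f46f79cb44fb830983ef84a400000)
  (nat_lit 0x788154dcbd72b7de7a15443b68ee862516d0dd38646269b80)
  (nat_lit 0x5d65b930290f69a0fabd23229354066b3c991b0d8ec5d97d0)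
  (nat_lit 0x32a74e548da24b5675e6742713711784666be234d37e9c0)
  (nat_lit 0x2a187505372798167ff7b58b93b3d0179a7ffb74da63e7e24000)
  (nat_lit 0x9ca32b75be47c9dfa8e2ed73d934260f4791f662f4e85d54)
  (nat_lit 0x30544eec2a270abad5fb0d51372ebf80ab67b5f9ea7b57cd80000)
  (nat_lit 0x88e678cf26119806149e66caa07fcc927c06c203353bb1f00)
  (nat_lit 0x4754a2ef288af6ececc4b93782bf24bc490a2ceb99ff71e0000000)
  (nat_lit 0x1506fe15737a53f90b6e0f58ba35b30fdb5028122606e1a58)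
  (nat_lit 0x4f372cc24b44db5c549587a69c1ec28341a8ff5610b7768a80)
  (nat_lit 0x7eb2a17e3e44c02123dccf06a22310eebb8c6c90b39575600)
  (nat_lit 0x43ccf7e5ea769eaefe891fbf85f4e5cad77fd93c9c6ecc80)
  (nat_lit 0x2eaee293f7936a3591b6f949e6e44b3578d3b4b0c1c3a6a000000)
  (nat_lit 0x389093fdaa902fbe487a1c188dc8fbbd3e556af4de6bcc0340)
  (nat_lit 0xa868cc9956f70e8704be0eabff5b6f3d1791369de50e7a400)
  (nat_lit 0xb3014481278a7b8bbcfb9cbbdf94f74673ffe5bc58d63c00)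
  (nat_lit 0x861752aac3a3aaaea5d7f5174ab358e84ff73c62185cfff40)
  (nat_lit 0x779b4b1d5ffe72226dd66bda2ccd229ba67503c7dfab376c000)
  (nat_lit 0x42e12450546eb4d3f7fe708bab551ea7d27c5ab07c41944780000)
  (nat_lit 0x6d64ddd2ba0725dee048c81b1acb010147bdd0feda28d1d7000000)
  (nat_lit 0xe2ac334d48da9951a14282112c58b6134c79e2cffa3f8751)
  (nat_lit 0xa418d322d5c2f2ecf25a5b2fe0eeb7f1c65a6ffaf840c1d500000)
  (nat_lit 0xee71700697dd9f051e875396595f09f6563ef8f8c6c40dc400)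
  (nat_lit 0xfa2455a9acecee07eebca14b38c12fccc782ae904876dec10000)
  (nat_lit 0xa83f7bc2bffd5032d7f17234c10de02eef0b1a319327d4e900)
  (nat_lit 0xda4c08000000000000000001217a31000000000000000000000000)
  (nat_lit 0) t

noncomputable def Zc_7f (a0 a1 a2 a3 a4 a5 a6 a7 a8 a9 a10 a11 a12 a13 a14 a15 a16 a17 a18 a19 a20 a21 a22 a23 a24 a25 a26 a27 a28 a29 a30 _o : Nat) (t : Chk) : Chk :=
  Chk.cons (nat_lit 26) (nat_lit 3353) (nat_lit 6553) (nat_lit 9754) (nat_lit 794) (nat_lit 4120) (nat_lit 7193) (nat_lit 10393) (nat_lit 1304) (nat_lit 4376) (nat_lit 7449) (nat_lit 10648) (nat_lit 1431) (nat_lit 4375) (nat_lit 7320) (nat_lit 10391)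
    a0 a0 a0 (Nat.xor a0 a1) a1 a1 a1 (Nat.xor a1 a2) a2 a2 a2 (Nat.xor a2 a3) a3 a3 a3 (Nat.xor a3 a4)
  (Chk.cons (nat_lit 1046) (nat_lit 3863) (nat_lit 6807) (nat_lit 9750) (nat_lit 277) (nat_lit 2966) (nat_lit 5782) (nat_lit 8596) (nat_lit 11157) (nat_lit 1557) (nat_lit 4244) (nat_lit 6803) (nat_lit 9236) (nat_lit 11795) (nat_lit 1937) (nat_lit 4113)
    a4 a4 a4 (Nat.xor a4 a5) a5 a5 a5 a5 (Nat.xor a5 a6) a6 a6 a6 a6 (Nat.xor a6 a7) a7 a7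
  (Chk.cons (nat_lit 6291) (nat_lit 8721) (nat_lit 10899) (nat_lit 1043) (nat_lit 3474) (nat_lit 5786) (nat_lit 9114) (nat_lit 153) (nat_lit 3353) (nat_lit 6554) (nat_lit 9882) (nat_lit 921) (nat_lit 4122) (nat_lit 7450) (nat_lit 10776) (nat_lit 1562)
    a7 a7 (Nat.xor a7 a8) a8 a8 a8 (Nat.xor a8 a9) a9 a9 a9 (Nat.xor a9 a10) a10 a10 a10 (Nat.xor a10 a11) a11
  (Chk.cons (nat_lit 4890) (nat_lit 8216) (nat_lit 11289) (nat_lit 2201) (nat_lit 5399) (nat_lit 8343) (nat_lit 11288) (nat_lit 2071) (nat_lit 5014) (nat_lit 7831) (nat_lit 10774) (nat_lit 1302) (nat_lit 4117) (nat_lit 6806) (nat_lit 9622) (nat_lit 148)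
    a11 a11 (Nat.xor a11 a12) a12 a12 a12 (Nat.xor a12 a13) a13 a13 a13 (Nat.xor a13 a14) a14 a14 a14 (Nat.xor a14 a15) a15
  (Chk.cons (nat_lit 2709) (nat_lit 5397) (nat_lit 8084) (nat_lit 10644) (nat_lit 914) (nat_lit 3217) (nat_lit 5393) (nat_lit 7569) (nat_lit 9745) (nat_lit 11923) (nat_lit 2066) (nat_lit 4371) (nat_lit 6810) (nat_lit 10138) (nat_lit 1177) (nat_lit 4377)
    a15 a15 a15 (Nat.xor a15 a16) a16 a16 a16 a16 a16 (Nat.xor a16 a17) a17 a17 a17 (Nat.xor a17 a18) a18 a18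
  (Chk.cons (nat_lit 7578) (nat_lit 10906) (nat_lit 1944) (nat_lit 5017) (nat_lit 8217) (nat_lit 11416) (nat_lit 2200) (nat_lit 5273) (nat_lit 8472) (nat_lit 11543) (nat_lit 2199) (nat_lit 5144) (nat_lit 8215) (nat_lit 11158) (nat_lit 1687) (nat_lit 4631)
    a18 (Nat.xor a18 a19) a19 a19 a19 (Nat.xor a19 a20) a20 a20 a20 (Nat.xor a20 a21) a21 a21 a21 (Nat.xor a21 a22) a22 a22
  (Chk.cons (nat_lit 7574) (nat_lit 10389) (nat_lit 790) (nat_lit 3605) (nat_lit 6292) (nat_lit 8853) (nat_lit 11541) (nat_lit 1939) (nat_lit 4372) (nat_lit 6930) (nat_lit 9233) (nat_lit 11410) (nat_lit 1427) (nat_lit 3858) (nat_lit 6163) (nat_lit 8594)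
    a22 (Nat.xor a22 a23) a23 a23 a23 a23 (Nat.xor a23 a24) a24 a24 a24 a24 (Nat.xor a24 a25) a25 a25 a25 a25
  (Chk.cons (nat_lit 10906) (nat_lit 1946) (nat_lit 5272) (nat_lit 8345) (nat_lit 11546) (nat_lit 2586) (nat_lit 5912) (nat_lit 8986) (nat_lit 26) (nat_lit 3352) (nat_lit 6426) (nat_lit 9754) (nat_lit 792) (nat_lit 3865) (nat_lit 7065) (nat_lit 10263)
    (Nat.xor a25 a26) a26 a26 a26 (Nat.xor a26 a27) a27 a27 a27 a28 a28 a28 (Nat.xor a28 a29) a29 a29 a29 (Nat.xor a29 a30) t)))))))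

noncomputable def Zc_7 (t : Chk) : Chk := Zc_7f
  (nat_lit 0x65add781f95b51fdc251849fccbc8393fb20be101b83a4e7)
  (nat_lit 0x21ccb142cb333b03d98406dd2814059be0e0e0f45627bb5ac0)
  (nat_lit 0x1d1ef3b3322234f852906d89906d6f9f02596a2d283e84e6c00)
  (nat_lit 0x2101bef3a43b02a7c5377e30e87877b93f18c48620904f25000)
  (nat_lit 0x93db813641b336cf15c6df8c904daa02aae898def0e33a2e00)
  (nat_lit 0x27865d6b47453291bd37e50db082e63f620d5a4e6afdf60dc)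
  (nat_lit 0x47404a82f167db0e48d4483733b00197072efc5e823bc88e000)
  (nat_lit 0x1330d8980b47763715f48c7d66b9ab20fd43e19a74522ed90000)
  (nat_lit 0x47ef8ddbb9db2014f50c90439151b3f81137cae07ae1b09900)
  (nat_lit 0xfb7231d6adaaf4daaa15bd86f6955e58e7482529a8c2c658)
  (nat_lit 0x4453b7c44d028839ff3c19a7924e026d092388b13e578d3f00)
  (nat_lit 0x8ced32a26c76a176e8b521d04d2db9b57132d7bfb29f760000)
  (nat_lit 0x16ac0b5f90fd6686a65b2e43c71981af9d0aff70c787668fe0000)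
  (nat_lit 0xfea8fa5bba65d19d434fc4e6f4516238e00f275c86e3e990000)
  (nat_lit 0x18eb8e6dd40e265d89e905ac8b3bb2b6e7db308b9d23aa75c00)
  (nat_lit 0x5651b2bf3bae96f1f4a26eedcb9304191bb35364ee2ff54e)
  (nat_lit 0x33f2921704665715988c24adf440c7eee7c66758dc3b169480)
  (nat_lit 0xa64ce85c47e117388e61163375e05c9062a133d9dc8c18d70000)
  (nat_lit 0x906eef33081c35abf64b6d3f85e365cbc82607515f44725200)
  (nat_lit 0x3e0c3b0477576372555cd8c35a91bdcd30a93694b11ced4d0000)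
  (nat_lit 0x14af8d62c6ca659432265f0471b49d864e70707cbbc92990a0000)
  (nat_lit 0x10c8595bb1f6c67e718e2ab184d75e86db1e639f031e3773e0000)
  (nat_lit 0x10e2b21d33222cb9df54e1119d1a6eb27008067a1b33a3ce2000)
  (nat_lit 0x23cace36c4b048cf8feb2b1fd4cf2a83924c8e00a5fd74f2c0)
  (nat_lit 0x2fdd4ee2039016550557cbbf0c2e4bcde8c280c1b5252ff00000)
  (nat_lit 0x393bb49125376b5610d1e02fae2145a54e76f85c9c7b269f000)
  (nat_lit 0x46fcb2736146ee8a4aed653c990d27c851a1d16f207f870d0000)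
  (nat_lit 0x76bbc62a152bd0ca5de1639dd5e9027719ef54308f1fb19a00000)
  (nat_lit 0xcd9ff600f41ba8a9b609a598783bc3ca00fe121cf73bd5d2)
  (nat_lit 0x22d03a93017c26b0057220f5e92226dcd81b19d3ae938846c0)
  (nat_lit 0x4000000000000000000000006a000000000000000000000000)
  (nat_lit 0) t

noncomputable def Zc_8f (a0 a1 a2 a3 a4 a5 a6 a7 a8 a9 a10 a11 a12 a13 a14 a15 a16 a17 a18 a19 a20 a21 a22 a23 a24 a25 a26 a27 a28 a29 _o : Nat) (t : Chk) : Chk :=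
  Chk.cons (nat_lit 23) (nat_lit 2968) (nat_lit 6039) (nat_lit 8982) (nat_lit 11799) (nat_lit 2454) (nat_lit 5270) (nat_lit 8085) (nat_lit 10774) (nat_lit 1302) (nat_lit 4116) (nat_lit 6677) (nat_lit 9364) (nat_lit 11925) (nat_lit 2323) (nat_lit 4754)
    a0 a0 a0 a0 (Nat.xor a0 a1) a1 a1 a1 (Nat.xor a1 a2) a2 a2 a2 a2 (Nat.xor a2 a3) a3 a3
  (Chk.cons (nat_lit 7058) (nat_lit 9361) (nat_lit 11537) (nat_lit 1427) (nat_lit 3865) (nat_lit 7065) (nat_lit 10264) (nat_lit 1048) (nat_lit 4122) (nat_lit 7449) (nat_lit 10647) (nat_lit 1305) (nat_lit 4505) (nat_lit 7704) (nat_lit 10776) (nat_lit 1560)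
    a3 a3 (Nat.xor a3 a4) a4 a4 a4 (Nat.xor a4 a5) a5 a5 a5 (Nat.xor a5 a6) a6 a6 a6 (Nat.xor a6 a7) a7
  (Chk.cons (nat_lit 4632) (nat_lit 7703) (nat_lit 10647) (nat_lit 1304) (nat_lit 4375) (nat_lit 7318) (nat_lit 10135) (nat_lit 791) (nat_lit 3733) (nat_lit 6421) (nat_lit 9110) (nat_lit 11926) (nat_lit 2452) (nat_lit 5013) (nat_lit 7701) (nat_lit 10388)
    a7 a7 (Nat.xor a7 a8) a8 a8 a8 (Nat.xor a8 a9) a9 a9 a9 a9 (Nat.xor a9 a10) a10 a10 a10 (Nat.xor a10 a11)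
  (Chk.cons (nat_lit 656) (nat_lit 2706) (nat_lit 5009) (nat_lit 7187) (nat_lit 9618) (nat_lit 11923) (nat_lit 2067) (nat_lit 4505) (nat_lit 7705) (nat_lit 10904) (nat_lit 1689) (nat_lit 4890) (nat_lit 8217) (nat_lit 11416) (nat_lit 2202) (nat_lit 5530)
    a11 a11 a11 a11 a11 (Nat.xor a11 a12) a12 a12 a12 (Nat.xor a12 a13) a13 a13 a13 (Nat.xor a13 a14) a14 a14
  (Chk.cons (nat_lit 8856) (nat_lit 11929) (nat_lit 2841) (nat_lit 6040) (nat_lit 9113) (nat_lit 25) (nat_lit 3223) (nat_lit 6167) (nat_lit 9112) (nat_lit 12183) (nat_lit 2838) (nat_lit 5655) (nat_lit 8598) (nat_lit 11413) (nat_lit 1813) (nat_lit 4502)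
    a14 (Nat.xor a14 a15) a15 a15 a15 a16 a16 a16 a16 (Nat.xor a16 a17) a17 a17 a17 (Nat.xor a17 a18) a18 a18
  (Chk.cons (nat_lit 7318) (nat_lit 10132) (nat_lit 406) (nat_lit 3220) (nat_lit 5777) (nat_lit 7954) (nat_lit 10259) (nat_lit 403) (nat_lit 2835) (nat_lit 5273) (nat_lit 8473) (nat_lit 11672) (nat_lit 2456) (nat_lit 5529) (nat_lit 8729) (nat_lit 11927)
    a18 (Nat.xor a18 a19) a19 a19 a19 a19 (Nat.xor a19 a20) a20 a20 a20 a20 (Nat.xor a20 a21) a21 a21 a21 (Nat.xor a21 a22)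
  (Chk.cons (nat_lit 2585) (nat_lit 5785) (nat_lit 8983) (nat_lit 11927) (nat_lit 2584) (nat_lit 5656) (nat_lit 8727) (nat_lit 11671) (nat_lit 2327) (nat_lit 5271) (nat_lit 8214) (nat_lit 11031) (nat_lit 1687) (nat_lit 4629) (nat_lit 7317) (nat_lit 10006)
    a22 a22 a22 (Nat.xor a22 a23) a23 a23 a23 (Nat.xor a23 a24) a24 a24 a24 (Nat.xor a24 a25) a25 a25 a25 (Nat.xor a25 a26)
  (Chk.cons (nat_lit 533) (nat_lit 3221) (nat_lit 5909) (nat_lit 8593) (nat_lit 10770) (nat_lit 786) (nat_lit 3090) (nat_lit 5396) (nat_lit 7955) (nat_lit 10393) (nat_lit 1305) (nat_lit 4503) (nat_lit 7449) (nat_lit 10650) (nat_lit 1689) (nat_lit 4888)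
    a26 a26 a26 a26 (Nat.xor a26 a27) a27 a27 a27 a27 (Nat.xor a27 a28) a28 a28 a28 (Nat.xor a28 a29) a29 a29 t)))))))

noncomputable def Zc_8 (t : Chk) : Chk := Zc_8f
  (nat_lit 0x417fa8e4f6fa4d768e8562cb06f911c90f3bee66cc875b19)
  (nat_lit 0x52196078d13a9b7b768cccd6b7cef217b4b8661e3ea097f280000)
  (nat_lit 0xccb374c87aebbf273e89efac2fc14ce03a2ae81786c9db4400)
  (nat_lit 0x14f9053a9e486e14796f4c2bb4590bb5d8235fce77c05ed280000)
  (nat_lit 0x70e46a69d779d331b625bd83bc7bfcdf718380981e7c72e5000)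
  (nat_lit 0x6c256c1f661619879f721a5accfa20185f971bd87802449200)
  (nat_lit 0x1ddcf4d615f7d86db4cea235b1534ce179723a8e3630583c00)
  (nat_lit 0xc2ee226ec5e7709dc65c5eb0e1d9edb5da7fd96e8303e475000)
  (nat_lit 0xbdaa9b0e7d5f20ba0e4e9db64e6d9334e44465196b08d54000)
  (nat_lit 0x1609ecf8fbadf11e792da7583fe57c74677863fd0806d07a40)
  (nat_lit 0x44c3b532d3990749efeede729595ba59bd3de73c66e415c080000)
  (nat_lit 0x1c1e9b7bd26cc9f444eca6b917c75031768068780dba465720)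
  (nat_lit 0x7250add1f0de86d553562a9c8529c07c5032112540f0e17e0000)
  (nat_lit 0x2a42f1957688b9a19d9b2af42e236143004d57c9bc63872e000)
  (nat_lit 0x3a5583b4e34fdcd1d4c866cb11d0ae640bc777944677b20a0000)
  (nat_lit 0x2e9a3caf686f9e4eff3854c23406fdc6e901d66ec280f719800000)
  (nat_lit 0xb299fd78c5053df656dc188c9411db7647e5f2767c5433fe)
  (nat_lit 0x1b558c3f3243b2df373e64d5ea2b989df5e4d1fc8429455dc00000)
  (nat_lit 0x32d612cc3a417d4fe0d9893eab451ae99e6c8da56882d9574000)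
  (nat_lit 0x60fbe8248c34dbbe89cc85b318f502bf25079d766ce7bae18)
  (nat_lit 0x2a340243e52c77fb6cdce499e89249083539371c7f144c4d0)
  (nat_lit 0x4b5214fa4c3a73e02447112d8c6413d0a4bb059f5efb42e580000)
  (nat_lit 0x9d81b3b0794e0a5b5ad186a3c97e5a02c1834a26407bdd1f00000)
  (nat_lit 0x97ef8091cd85921ade9c8b33cf6686c0a95132ad28f3d22200000)
  (nat_lit 0x23016a9b86d516a44f2c094ff49eae029c325c0e5f80687c00000)
  (nat_lit 0x1a90bbaf008f097351c8dda12ed2178bc8dd78247e3c46236000)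
  (nat_lit 0xa2c508a6af196ce6d68da850f55d1be68a03499b05e0f74f0)
  (nat_lit 0x2c55a618e860164926c81a0afe2d142a39b22420cf3cc86a80)
  (nat_lit 0x26d121cab43a1d60f0b95b1a5ae6946cf169f4431f197a81400)
  (nat_lit 0xca10000000035d9b09d24d362ab0000000036d07177336d2000)
  (nat_lit 0) t

noncomputable def Zc_9f (a0 a1 a2 a3 a4 a5 a6 a7 a8 a9 a10 a11 a12 a13 a14 a15 a16 a17 a18 a19 a20 a21 a22 a23 a24 a25 a26 a27 a28 a29 a30 _o : Nat) (t : Chk) : Chk :=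
  Chk.cons (nat_lit 26) (nat_lit 3353) (nat_lit 6552) (nat_lit 9625) (nat_lit 537) (nat_lit 3735) (nat_lit 6681) (nat_lit 9881) (nat_lit 791) (nat_lit 3735) (nat_lit 6680) (nat_lit 9751) (nat_lit 406) (nat_lit 3222) (nat_lit 6038) (nat_lit 8854)
    a0 a0 a0 (Nat.xor a0 a1) a1 a1 a1 (Nat.xor a1 a2) a2 a2 a2 (Nat.xor a2 a3) a3 a3 a3 a3
  (Chk.cons (nat_lit 11669) (nat_lit 2069) (nat_lit 4758) (nat_lit 7573) (nat_lit 10261) (nat_lit 659) (nat_lit 3091) (nat_lit 5523) (nat_lit 7956) (nat_lit 10516) (nat_lit 793) (nat_lit 3993) (nat_lit 7191) (nat_lit 10136) (nat_lit 921) (nat_lit 4121)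
    (Nat.xor a3 a4) a4 a4 a4 (Nat.xor a4 a5) a5 a5 a5 a5 (Nat.xor a5 a6) a6 a6 a6 (Nat.xor a6 a7) a7 a7
  (Chk.cons (nat_lit 7319) (nat_lit 10264) (nat_lit 1049) (nat_lit 4247) (nat_lit 7191) (nat_lit 10136) (nat_lit 920) (nat_lit 3991) (nat_lit 6935) (nat_lit 9879) (nat_lit 534) (nat_lit 3350) (nat_lit 6167) (nat_lit 9111) (nat_lit 12053) (nat_lit 2453)
    a7 (Nat.xor a7 a8) a8 a8 a8 (Nat.xor a8 a9) a9 a9 a9 (Nat.xor a9 a10) a10 a10 a10 a10 (Nat.xor a10 a11) a11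
  (Chk.cons (nat_lit 5142) (nat_lit 7956) (nat_lit 10514) (nat_lit 531) (nat_lit 2963) (nat_lit 5395) (nat_lit 7825) (nat_lit 10004) (nat_lit 280) (nat_lit 3352) (nat_lit 6422) (nat_lit 9241) (nat_lit 153) (nat_lit 3353) (nat_lit 6552) (nat_lit 9625)
    a11 a11 (Nat.xor a11 a12) a12 a12 a12 a12 (Nat.xor a12 a13) a13 a13 a13 (Nat.xor a13 a14) a14 a14 a14 (Nat.xor a14 a15)
  (Chk.cons (nat_lit 537) (nat_lit 3736) (nat_lit 6809) (nat_lit 10009) (nat_lit 919) (nat_lit 3864) (nat_lit 6937) (nat_lit 10135) (nat_lit 791) (nat_lit 3736) (nat_lit 6807) (nat_lit 9750) (nat_lit 278) (nat_lit 3094) (nat_lit 5909) (nat_lit 8596)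
    a15 a15 a15 (Nat.xor a15 a16) a16 a16 a16 (Nat.xor a16 a17) a17 a17 a17 (Nat.xor a17 a18) a18 a18 a18 a18
  (Chk.cons (nat_lit 11158) (nat_lit 1684) (nat_lit 4243) (nat_lit 6676) (nat_lit 9236) (nat_lit 11797) (nat_lit 2196) (nat_lit 4760) (nat_lit 7832) (nat_lit 10903) (nat_lit 1560) (nat_lit 4633) (nat_lit 7833) (nat_lit 11031) (nat_lit 1688) (nat_lit 4761)
    (Nat.xor a18 a19) a19 a19 a19 a19 (Nat.xor a19 a20) a20 a20 a20 (Nat.xor a20 a21) a21 a21 a21 (Nat.xor a21 a22) a22 a22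
  (Chk.cons (nat_lit 7959) (nat_lit 10903) (nat_lit 1560) (nat_lit 4631) (nat_lit 7575) (nat_lit 10519) (nat_lit 1175) (nat_lit 4118) (nat_lit 6934) (nat_lit 9751) (nat_lit 406) (nat_lit 3221) (nat_lit 5910) (nat_lit 8723) (nat_lit 11154) (nat_lit 1171)
    a22 (Nat.xor a22 a23) a23 a23 a23 (Nat.xor a23 a24) a24 a24 a24 (Nat.xor a24 a25) a25 a25 a25 a25 (Nat.xor a25 a26) a26
  (Chk.cons (nat_lit 3604) (nat_lit 6164) (nat_lit 8724) (nat_lit 11288) (nat_lit 2072) (nat_lit 5140) (nat_lit 7705) (nat_lit 10905) (nat_lit 1816) (nat_lit 4888) (nat_lit 7961) (nat_lit 11161) (nat_lit 2072) (nat_lit 5145) (nat_lit 8345) (nat_lit 11543)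
    a26 a26 a26 (Nat.xor a26 a27) a27 a27 a27 (Nat.xor a27 a28) a28 a28 a28 (Nat.xor a28 a29) a29 a29 a29 (Nat.xor a29 a30) t)))))))

noncomputable def Zc_9 (t : Chk) : Chk := Zc_9f
  (nat_lit 0x9d31becba68c073f39a961f4d6c0dc8c399fb616b4e2c0d6)
  (nat_lit 0x425976a743f1ff6f0d1a205743ea567adf2e351fd5e154dd0)
  (nat_lit 0x20117509a69fb128cfd7e10bc7f4f77d3cdca15f6b62ea9c40)
  (nat_lit 0x49ba501cd2df2e2e67e3b290eae00e9a22f737e1a8ada3ac8)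
  (nat_lit 0xc8782f8033339ca3d687d69888fc049656fcc662b5a097480000)
  (nat_lit 0x8b3f637700ce48e0d6661c6e64930fb8415ae9e22861f4840)
  (nat_lit 0x2cff5dae1cdc93dad1b789491c9ddb05c157c72ccf1eb11fc0)
  (nat_lit 0x1571ff3216210541d48ac1d7962f9897aec0563807e75e0f80)
  (nat_lit 0xbf7a43f37cdd323466fa5b70682f2efc741de7e4b46b290800)
  (nat_lit 0xb58f52665cff5ffca364241624ea8a1bc70232095e130bf00)
  (nat_lit 0x2dcfa3bd392721deba2c2575d0ef8f4e1655147eb6c45dc10)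
  (nat_lit 0x1afce9ce7cec2d4d6a9f07e3c5bd644ca199cc4aaf2cd51880000)
  (nat_lit 0x41d20c463dca8516eec582044eec2f7e7f362885af763f130)
  (nat_lit 0x236eafd943baa55244d91b5984c0997368cbfd7556003a714)
  (nat_lit 0xece3919f28b44db6fa416f4c2ce1e92a0651b63707e6f382)
  (nat_lit 0xaa7a72ba89925c27c300c2413c30a79f457ad0dd3c353d140)
  (nat_lit 0x30248fb81827749bfc819be29e318d9b77dd3f80f1aea22980)
  (nat_lit 0x20fcc3f6e223ccd33f9cfd30e9de66ed04ab663030dd04a240)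
  (nat_lit 0x37d8c9ffd2dd1e4b85b40235fa5b7add1b933bb1d3d0f3310)
  (nat_lit 0x14c945898a8cc87c25246c3af9e4012781d5b1d8bb9960a82000)
  (nat_lit 0x14bebcd0c041c536898a51b3379015fa268d73ce4538a7cc20000)
  (nat_lit 0x2492f9f6a1f8ec27118c84825bf32b145de4501ea7e0d47d000)
  (nat_lit 0x1a32ee78adb72096c1cb4c6bd5b6c3a59b78f07ddc01451e0000)
  (nat_lit 0x80e1c0cb85a8d31b9a9445a75c857bda6d46061c2ae30a52000)
  (nat_lit 0x184b540ae1de113a66e6e0faa17c37b6beb2cb6d3ec136b4e00)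
  (nat_lit 0x64a5ae28ae21b3bdb792b3f062f67a9cdff12d69bc9ec94a8)
  (nat_lit 0x778ec699a4348da8aba830ceab24c4b382a67eecabf278d400)
  (nat_lit 0x9755dd520e503344376f0a041114f2f89af75b84b425afd70000)
  (nat_lit 0xbcfbcb0760af0a56c5ba2b9979fb887985bb66c0abbf59bc000)
  (nat_lit 0x7542a62496d8ad893dcaeb724201e362d60041c8e59d3e2e0000)
  (nat_lit 0x1920e00000000000000000000ead0000000000000000000000000)
  (nat_lit 0) t

noncomputable def Zc_10f (a0 a1 a2 a3 a4 a5 a6 a7 a8 a9 a10 a11 a12 a13 a14 a15 a16 a17 a18 a19 a20 a21 a22 a23 a24 a25 a26 a27 a28 a29 a30 _o : Nat) (t : Chk) : Chk :=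
  Chk.cons (nat_lit 24) (nat_lit 3097) (nat_lit 6295) (nat_lit 9239) (nat_lit 12184) (nat_lit 2967) (nat_lit 5910) (nat_lit 8726) (nat_lit 11542) (nat_lit 2068) (nat_lit 4629) (nat_lit 7316) (nat_lit 9876) (nat_lit 147) (nat_lit 2581) (nat_lit 5272)
    a0 a0 a0 a0 (Nat.xor a0 a1) a1 a1 a1 (Nat.xor a1 a2) a2 a2 a2 (Nat.xor a2 a3) a3 a3 a3
  (Chk.cons (nat_lit 8344) (nat_lit 11414) (nat_lit 1944) (nat_lit 5017) (nat_lit 8216) (nat_lit 11286) (nat_lit 1816) (nat_lit 4888) (nat_lit 7959) (nat_lit 10903) (nat_lit 1560) (nat_lit 4631) (nat_lit 7575) (nat_lit 10519) (nat_lit 1175) (nat_lit 4118)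
    a3 (Nat.xor a3 a4) a4 a4 a4 (Nat.xor a4 a5) a5 a5 a5 (Nat.xor a5 a6) a6 a6 a6 (Nat.xor a6 a7) a7 a7
  (Chk.cons (nat_lit 6934) (nat_lit 9750) (nat_lit 278) (nat_lit 3094) (nat_lit 5907) (nat_lit 8340) (nat_lit 10899) (nat_lit 1043) (nat_lit 3476) (nat_lit 6037) (nat_lit 8728) (nat_lit 11800) (nat_lit 2580) (nat_lit 5144) (nat_lit 8217) (nat_lit 11416)
    a7 (Nat.xor a7 a8) a8 a8 a8 a8 (Nat.xor a8 a9) a9 a9 a9 a9 (Nat.xor a9 a10) a10 a10 a10 (Nat.xor a10 a11)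
  (Chk.cons (nat_lit 2200) (nat_lit 5273) (nat_lit 8473) (nat_lit 11672) (nat_lit 2457) (nat_lit 5657) (nat_lit 8855) (nat_lit 11800) (nat_lit 2584) (nat_lit 5655) (nat_lit 8599) (nat_lit 11544) (nat_lit 2326) (nat_lit 5142) (nat_lit 7959) (nat_lit 10901)
    a11 a11 a11 (Nat.xor a11 a12) a12 a12 a12 (Nat.xor a12 a13) a13 a13 a13 (Nat.xor a13 a14) a14 a14 a14 (Nat.xor a14 a15)
  (Chk.cons (nat_lit 1299) (nat_lit 3733) (nat_lit 6421) (nat_lit 9109) (nat_lit 11799) (nat_lit 2455) (nat_lit 5397) (nat_lit 8088) (nat_lit 11160) (nat_lit 1944) (nat_lit 5014) (nat_lit 7832) (nat_lit 10904) (nat_lit 1686) (nat_lit 4503) (nat_lit 7448)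
    a15 a15 a15 a15 (Nat.xor a15 a16) a16 a16 a16 (Nat.xor a16 a17) a17 a17 a17 (Nat.xor a17 a18) a18 a18 a18
  (Chk.cons (nat_lit 10519) (nat_lit 1175) (nat_lit 4119) (nat_lit 7063) (nat_lit 10005) (nat_lit 406) (nat_lit 3222) (nat_lit 6035) (nat_lit 8468) (nat_lit 11029) (nat_lit 1429) (nat_lit 4117) (nat_lit 6807) (nat_lit 9751) (nat_lit 405) (nat_lit 3096)
    (Nat.xor a18 a19) a19 a19 a19 (Nat.xor a19 a20) a20 a20 a20 a20 (Nat.xor a20 a21) a21 a21 a21 (Nat.xor a21 a22) a22 a22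
  (Chk.cons (nat_lit 6169) (nat_lit 9367) (nat_lit 24) (nat_lit 3097) (nat_lit 6296) (nat_lit 9367) (nat_lit 25) (nat_lit 3225) (nat_lit 6423) (nat_lit 9368) (nat_lit 152) (nat_lit 3223) (nat_lit 6167) (nat_lit 9112) (nat_lit 12182) (nat_lit 2710)
    a22 a22 a23 a23 a23 a23 a24 a24 a24 (Nat.xor a24 a25) a25 a25 a25 a25 (Nat.xor a25 a26) a26
  (Chk.cons (nat_lit 5526) (nat_lit 8341) (nat_lit 11028) (nat_lit 1300) (nat_lit 3862) (nat_lit 6679) (nat_lit 9623) (nat_lit 276) (nat_lit 2840) (nat_lit 5912) (nat_lit 8984) (nat_lit 12054) (nat_lit 2584) (nat_lit 5656) (nat_lit 8726) (nat_lit 11543)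
    a26 a26 (Nat.xor a26 a27) a27 a27 a27 (Nat.xor a27 a28) a28 a28 a28 a28 (Nat.xor a28 a29) a29 a29 a29 (Nat.xor a29 a30) t)))))))

noncomputable def Zc_10 (t : Chk) : Chk := Zc_10f
  (nat_lit 0x8eaf97bb62191d3c76344af58c89922b4d73863c51094468)
  (nat_lit 0x4c0353caded5f1f0c924d7655171eeefda61b55a25cdf581000000)
  (nat_lit 0x76021cfad56e0c9f80604fbb592058151c716001aebdf26d0000)
  (nat_lit 0x6132c406d40a93129aff58faf9a5c40860eb8fb272e4dd42)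
  (nat_lit 0x2cc0dc843f5088b09b39f493c84a2b11103ac9f3a294cac10000)
  (nat_lit 0x2ef664084faf5f285928649b9ecb2f1813bdc30f8e7b3a5f8000)
  (nat_lit 0x3c80b3f30e0c2ee55a6ef4fe1adf32e6eddaf3488c24c571000)
  (nat_lit 0x141954f2292d8ed8e8f8ed66b83caf31385154d81efe30f1000)
  (nat_lit 0x373aa6b7314654f756d7815ac0c46a2b9f8aed1e7b2047e24)
  (nat_lit 0xefc6cc77e88c5f465640f3ae50c37fbcdd681f10622de4ac00)
  (nat_lit 0x8d323951652eb638ed4c6375fe3279fa904bf0a2508e5f7e00000)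
  (nat_lit 0x1f3a9c4144f4269e9668c134db83ba1c38dfb90321851907e0000)
  (nat_lit 0x172c4138d00f2006da4823ef402a89db02a649710d6e58580000)
  (nat_lit 0xc4aa84f767b323052b65ca12044316b92e56e4320f04b81f00000)
  (nat_lit 0x1ef3369cc8acd76fada4c79d89ff8ad0651cd6c68b3ee60940000)
  (nat_lit 0x382708359a88595eca50fee73f3666e731ef0adc517037c00)
  (nat_lit 0x51b193f45afebdaed055eacf83f38b1e6037e74f4d40733680000)
  (nat_lit 0x23b4fdec64b11d94373e49ba3d491363982cf860ddec049b8000)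
  (nat_lit 0x13dd0f8e3be4d0da479f7eddc1f8e3f74f04483fa2a901562000)
  (nat_lit 0x9d980d9e2c7fda02f43c0b3ba9c8008a73fff1791462b49000)
  (nat_lit 0x56d63e8643e4bbc0a09c5d6ee8008ff38b01402a413bd1c18)
  (nat_lit 0x42e3ca899f5b5b7b0624ffe18cd31acbeba64f9a59f12c06800)
  (nat_lit 0x5632f54ee3f1e990c835e1265f740a474c5e6e503b9186340)
  (nat_lit 0xfa0d9af2e46ad3eabfb2b79cc988b3ec157c50c8bcd32fdc)
  (nat_lit 0x364db5c94c9e14d44ebfc1534c12d0dc21cf0fa98661cb65)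
  (nat_lit 0x492f7311a7ddb4af5f2cfee36074618bc00d3d418bdeea52)
  (nat_lit 0x147d5ba49567a0ed3e483e5e6cf347f10c3d6c05ba50c9fe200000)
  (nat_lit 0x2e65d099b1cb3974c7a09dbb513f545491655126eb17bc60400)
  (nat_lit 0x20dee9634a0f9d78f74f780c8ec73239a4158f773e0a9730)
  (nat_lit 0x1fec9d8628747cb88b987430da264970df1f28ac91d9710400000)
  (nat_lit 0x82e3000000000000000000007024000000000000000000000000)
  (nat_lit 0) t

noncomputable def Zc_11f (a0 a1 a2 a3 a4 a5 a6 a7 a8 a9 a10 a11 a12 a13 a14 a15 a16 a17 a18 a19 a20 a21 a22 a23 a24 a25 a26 a27 a28 a29 a30 _o : Nat) (t : Chk) : Chk :=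
  Chk.cons (nat_lit 24) (nat_lit 3095) (nat_lit 6038) (nat_lit 8855) (nat_lit 11799) (nat_lit 2454) (nat_lit 5269) (nat_lit 7957) (nat_lit 10645) (nat_lit 1045) (nat_lit 3734) (nat_lit 6551) (nat_lit 9495) (nat_lit 150) (nat_lit 2968) (nat_lit 6040)
    a0 a0 a0 a0 (Nat.xor a0 a1) a1 a1 a1 (Nat.xor a1 a2) a2 a2 a2 (Nat.xor a2 a3) a3 a3 a3
  (Chk.cons (nat_lit 9111) (nat_lit 12056) (nat_lit 2841) (nat_lit 6040) (nat_lit 9111) (nat_lit 12057) (nat_lit 2968) (nat_lit 6039) (nat_lit 8984) (nat_lit 12056) (nat_lit 2838) (nat_lit 5655) (nat_lit 8600) (nat_lit 11670) (nat_lit 2196) (nat_lit 4758)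
    a3 (Nat.xor a3 a4) a4 a4 a4 (Nat.xor a4 a5) a5 a5 a5 (Nat.xor a5 a6) a6 a6 a6 (Nat.xor a6 a7) a7 a7
  (Chk.cons (nat_lit 7574) (nat_lit 10390) (nat_lit 919) (nat_lit 3863) (nat_lit 6803) (nat_lit 9239) (nat_lit 12184) (nat_lit 2967) (nat_lit 5910) (nat_lit 8728) (nat_lit 11800) (nat_lit 2582) (nat_lit 5399) (nat_lit 8344) (nat_lit 11414) (nat_lit 1943)
    a7 (Nat.xor a7 a8) a8 a8 a8 a8 (Nat.xor a8 a9) a9 a9 a9 (Nat.xor a9 a10) a10 a10 a10 (Nat.xor a10 a11) a11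
  (Chk.cons (nat_lit 4887) (nat_lit 7828) (nat_lit 10390) (nat_lit 918) (nat_lit 3734) (nat_lit 6550) (nat_lit 9366) (nat_lit 12182) (nat_lit 2710) (nat_lit 5528) (nat_lit 8600) (nat_lit 11670) (nat_lit 2200) (nat_lit 5273) (nat_lit 8472) (nat_lit 11543)
    a11 a11 (Nat.xor a11 a12) a12 a12 a12 a12 (Nat.xor a12 a13) a13 a13 a13 (Nat.xor a13 a14) a14 a14 a14 (Nat.xor a14 a15)
  (Chk.cons (nat_lit 2201) (nat_lit 5400) (nat_lit 8471) (nat_lit 11416) (nat_lit 2200) (nat_lit 5271) (nat_lit 8216) (nat_lit 11285) (nat_lit 1685) (nat_lit 4374) (nat_lit 7191) (nat_lit 10134) (nat_lit 662) (nat_lit 3475) (nat_lit 5911) (nat_lit 8856)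
    a15 a15 a15 (Nat.xor a15 a16) a16 a16 a16 (Nat.xor a16 a17) a17 a17 a17 (Nat.xor a17 a18) a18 a18 a18 a18
  (Chk.cons (nat_lit 11927) (nat_lit 2582) (nat_lit 5400) (nat_lit 8471) (nat_lit 11414) (nat_lit 1943) (nat_lit 4888) (nat_lit 7958) (nat_lit 10774) (nat_lit 1301) (nat_lit 3989) (nat_lit 6679) (nat_lit 9623) (nat_lit 278) (nat_lit 3094) (nat_lit 5910)
    (Nat.xor a18 a19) a19 a19 a19 (Nat.xor a19 a20) a20 a20 a20 (Nat.xor a20 a21) a21 a21 a21 (Nat.xor a21 a22) a22 a22 a22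
  (Chk.cons (nat_lit 8727) (nat_lit 11672) (nat_lit 2453) (nat_lit 5144) (nat_lit 8216) (nat_lit 11287) (nat_lit 1943) (nat_lit 4888) (nat_lit 7960) (nat_lit 11031) (nat_lit 1688) (nat_lit 4759) (nat_lit 7702) (nat_lit 10518) (nat_lit 1046) (nat_lit 3862)
    a22 (Nat.xor a22 a23) a23 a23 a23 (Nat.xor a23 a24) a24 a24 a24 (Nat.xor a24 a25) a25 a25 a25 (Nat.xor a25 a26) a26 a26
  (Chk.cons (nat_lit 6678) (nat_lit 9492) (nat_lit 12055) (nat_lit 2711) (nat_lit 5654) (nat_lit 8470) (nat_lit 11287) (nat_lit 1943) (nat_lit 4885) (nat_lit 7575) (nat_lit 10519) (nat_lit 1174) (nat_lit 3991) (nat_lit 6935) (nat_lit 9878) (nat_lit 407)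
    a26 a26 (Nat.xor a26 a27) a27 a27 a27 (Nat.xor a27 a28) a28 a28 a28 (Nat.xor a28 a29) a29 a29 a29 (Nat.xor a29 a30) a30 t)))))))

noncomputable def Zc_11 (t : Chk) : Chk := Zc_11f
  (nat_lit 0x855c4d3f087f300112726e05a2b77fd91d4f64e77134a0fd)
  (nat_lit 0x421d272ddc2d41b6c1bc38be48362e77e26c60dbdedaa22180000)
  (nat_lit 0xe9f835699b237412f015383b075255b8be82a6bc3cc6a8ce00)
  (nat_lit 0xe68916470956b55e6c48d51ccb884478bbcc9570a8e16f28)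
  (nat_lit 0x14ddfe0420b2437266c905ba048b9b4c3c1b8fb554661a87000000)
  (nat_lit 0x591fabee3154081456bbba3be719a137e334e10af0848534800000)
  (nat_lit 0x3ab8eeb6b2bb6903a10e5f8a28a3899812f8eb8153cf66c000000)
  (nat_lit 0x475e2e38a02f54db7ab7cff7f931651058fff68c1de3e7740000)
  (nat_lit 0x3fc92e61d4e2ed0443a5b7f86778f5838d06c72ad9f1b1de00)
  (nat_lit 0x3a223ed69d156cebacddc44a22429ee2f5fc0d8a263a559f000000)
  (nat_lit 0x237a5811289129141635fe6becb13bd824ebc3650713dcc100000)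
  (nat_lit 0x6d8b50cfcd21d161bfcf2d94cf3e7d66e1275c4130d3c47c8000)
  (nat_lit 0x4dd428ee6679b67e8d2bc41fddfc3ae6afa9ff04648359e000)
  (nat_lit 0xd34cbdba32d948dcda37454461646f121135639df11bcd0e00000)
  (nat_lit 0x1ad1fb5df1b51c332f14b8a09d980a73425f8f7f9fd90cb8a0000)
  (nat_lit 0x6b129bb867b61b5ee1a188f846d87b0694db95e614ffe9940000)
  (nat_lit 0xca8342655a2ad267bb2d28ee0c0f273287ab6850afb9b3940000)
  (nat_lit 0x134ae3444a2b4e93a780cdb6b2769c7f6621db30cd3e90256000)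
  (nat_lit 0x1911e704dbe1d521ccd1f2d743883a623c05fb590f742da40)
  (nat_lit 0x877028501fc1a4e458cf305cdc43a380dd13b19225c81e4900000)
  (nat_lit 0x6d08ca206f551d81f1eb5c448d23b5b4f8cd8e603bb548f20000)
  (nat_lit 0x3aaef096c5ad8ad1d338a9d7202514aa6ad5381e9b9b55b9c00)
  (nat_lit 0x3b30bc888fae1a3ee26608d7a38445bbc6eeb73d3c2261bb0)
  (nat_lit 0x445eb1499b206600b31ddce3eca0dc1f0d4b83de82d06be680000)
  (nat_lit 0xfbaf66097a96b0cdb8b6428ce51d3ccde16bd9d87cd5be18000)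
  (nat_lit 0x87ac745f9639b01cff76ce93f88b9fb137e83a6a87ead33c000)
  (nat_lit 0x39620219924b79cb59332cb98f0c1ecccd5c2d020475f84200)
  (nat_lit 0x12033eecc0d299e032472e1376f90a3fe5952bf128812bd5200000)
  (nat_lit 0x321c7e6538a91fdc405f6bcb7c1e2dcc7ff1dbc586f8a4c18000)
  (nat_lit 0xc0df97563f5817dd1e3e5537ae028d1857a14d41386176dc00)
  (nat_lit 0x25bb0b5000000000000000000f7e9e0)
  (nat_lit 0) t

noncomputable def Zc_12f (a0 a1 a2 a3 a4 a5 a6 a7 a8 a9 a10 a11 a12 a13 a14 a15 a16 a17 a18 a19 a20 a21 a22 a23 a24 a25 a26 a27 a28 _o : Nat) (t : Chk) : Chk :=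
  Chk.cons (nat_lit 22) (nat_lit 2837) (nat_lit 5526) (nat_lit 8343) (nat_lit 11287) (nat_lit 1941) (nat_lit 4631) (nat_lit 7576) (nat_lit 10647) (nat_lit 1303) (nat_lit 4248) (nat_lit 7320) (nat_lit 10392) (nat_lit 1173) (nat_lit 3862) (nat_lit 6679)
    a0 a0 a0 a0 (Nat.xor a0 a1) a1 a1 a1 (Nat.xor a1 a2) a2 a2 a2 (Nat.xor a2 a3) a3 a3 a3
  (Chk.cons (nat_lit 9621) (nat_lit 21) (nat_lit 2708) (nat_lit 5271) (nat_lit 8215) (nat_lit 11158) (nat_lit 1686) (nat_lit 4503) (nat_lit 7447) (nat_lit 10391) (nat_lit 1045) (nat_lit 3734) (nat_lit 6551) (nat_lit 9495) (nat_lit 149) (nat_lit 2837)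
    a3 a4 a4 a4 a4 (Nat.xor a4 a5) a5 a5 a5 (Nat.xor a5 a6) a6 a6 a6 (Nat.xor a6 a7) a7 a7
  (Chk.cons (nat_lit 5525) (nat_lit 8215) (nat_lit 11159) (nat_lit 1813) (nat_lit 4503) (nat_lit 7448) (nat_lit 10519) (nat_lit 1174) (nat_lit 3992) (nat_lit 7062) (nat_lit 9878) (nat_lit 406) (nat_lit 3221) (nat_lit 5909) (nat_lit 8597) (nat_lit 11284)
    a7 a7 (Nat.xor a7 a8) a8 a8 a8 (Nat.xor a8 a9) a9 a9 a9 (Nat.xor a9 a10) a10 a10 a10 a10 (Nat.xor a10 a11)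
  (Chk.cons (nat_lit 1558) (nat_lit 4375) (nat_lit 7317) (nat_lit 10006) (nat_lit 535) (nat_lit 3479) (nat_lit 6422) (nat_lit 9238) (nat_lit 12055) (nat_lit 2709) (nat_lit 5396) (nat_lit 7957) (nat_lit 10647) (nat_lit 1303) (nat_lit 4245) (nat_lit 6935)
    a11 a11 a11 (Nat.xor a11 a12) a12 a12 a12 a12 (Nat.xor a12 a13) a13 a13 a13 (Nat.xor a13 a14) a14 a14 a14
  (Chk.cons (nat_lit 9879) (nat_lit 535) (nat_lit 3480) (nat_lit 6548) (nat_lit 9110) (nat_lit 11926) (nat_lit 2453) (nat_lit 5140) (nat_lit 7700) (nat_lit 10262) (nat_lit 790) (nat_lit 3604) (nat_lit 6165) (nat_lit 8855) (nat_lit 11799) (nat_lit 2455)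
    (Nat.xor a14 a15) a15 a15 a15 a15 (Nat.xor a15 a16) a16 a16 a16 (Nat.xor a16 a17) a17 a17 a17 a17 (Nat.xor a17 a18) a18
  (Chk.cons (nat_lit 5396) (nat_lit 7955) (nat_lit 10389) (nat_lit 790) (nat_lit 3606) (nat_lit 6420) (nat_lit 8983) (nat_lit 11927) (nat_lit 2582) (nat_lit 5396) (nat_lit 7956) (nat_lit 10516) (nat_lit 788) (nat_lit 3350) (nat_lit 6166) (nat_lit 8982)
    a18 a18 (Nat.xor a18 a19) a19 a19 a19 a19 (Nat.xor a19 a20) a20 a20 a20 (Nat.xor a20 a21) a21 a21 a21 a21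
  (Chk.cons (nat_lit 11797) (nat_lit 2198) (nat_lit 5015) (nat_lit 7956) (nat_lit 10515) (nat_lit 661) (nat_lit 3350) (nat_lit 6166) (nat_lit 8982) (nat_lit 11797) (nat_lit 2197) (nat_lit 4884) (nat_lit 7443) (nat_lit 9877) (nat_lit 278) (nat_lit 3094)
    (Nat.xor a21 a22) a22 a22 a22 (Nat.xor a22 a23) a23 a23 a23 a23 (Nat.xor a23 a24) a24 a24 a24 (Nat.xor a24 a25) a25 a25
  (Chk.cons (nat_lit 5910) (nat_lit 8724) (nat_lit 11281) (nat_lit 1172) (nat_lit 3734) (nat_lit 6548) (nat_lit 9108) (nat_lit 11666) (nat_lit 1683) (nat_lit 4117) (nat_lit 6803) (nat_lit 9237) (nat_lit 11923) (nat_lit 2065) (nat_lit 4245) (nat_lit 6931)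
    a25 a25 (Nat.xor a25 a26) a26 a26 a26 a26 (Nat.xor a26 a27) a27 a27 a27 a27 (Nat.xor a27 a28) a28 a28 a28 t)))))))

noncomputable def Zc_12 (t : Chk) : Chk := Zc_12f
  (nat_lit 0x4d999a02e1ba4b47fea5ff9bf9e313507adc50890ff0da67)
  (nat_lit 0x39fe4dfb674775c921a32a88f8c437911edb7fd1999bf61f8000)
  (nat_lit 0x470e0ef6c30ab893d595acc750befdb48aa44d2ad7b6877800)
  (nat_lit 0x1245287f42dca1921cdc6c614f308372e4ea15222830c8c3600)
  (nat_lit 0x95c644c473b7bb0f62b5141899ec88bd3d3ea9c129bdc6e0)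
  (nat_lit 0x1149580efc36325258e23383717d301642b5a77b6478e4834000)
  (nat_lit 0x186606ba2d1424aea220edf343ff455785c7091c6f44999400)
  (nat_lit 0xe83640989e9784851cd71019fc17ed83f9705e58d406b5b0)
  (nat_lit 0x22b03fba3e0ec946eeae78eee62845c33a91905c2ee3c8e10000)
  (nat_lit 0x1979ceb7ebf6252c8c105bec857427b68b08775273703f48c00)
  (nat_lit 0x4d9640f051ea5c8024d72b7b7e9334b4ec8095b334bae9f58)
  (nat_lit 0x771beda5857dce9e47e557475851db6b8485c73601fbc858000)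
  (nat_lit 0xb494d6bdb52e9a7a81ba5034815cbf9fbc9b8f458e0cfce40)
  (nat_lit 0x115dc0a0233a3f9adf7669bac3c5e590a0c9eb881cab33eec00000)
  (nat_lit 0x381e302d45ffa8c8a10f03d56e221f2dbb8f79abc447c17cc00)
  (nat_lit 0x7b1ffbd6d920d0195934bb122bee8311987d67a673642ac80)
  (nat_lit 0x30529afdf8940fa76e46489db9ab48021d9514ebbd13ed9080000)
  (nat_lit 0x3358dea8b79505f8196912213dad391a47bbe4c6a55f2e4fc0)
  (nat_lit 0x2e92f09913de096eadaa791bafd0430adf37ec2f94304b8a00000)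
  (nat_lit 0xa6ac7367529a20ea9d63811f1c3eae926781b662801467340)
  (nat_lit 0x79b6f66a6a6a78ea172660c45186a99a3790295348b3bdfa00000)
  (nat_lit 0x37ab21409f37c191bc81c2dce67e8d210e55f5cbaf24a03e40)
  (nat_lit 0x4eb6f0f2639223a2584a660248f8b7ab6512f23a361f82820000)
  (nat_lit 0x1a54d606dd1c6b909d09a05e9ed0bead8776cbc7cb30ba3460)
  (nat_lit 0x108214fbaf51ddd83afda42a3d0bd27c73e95f0f43e0453a20000)
  (nat_lit 0x3756e893a3ed858e24083a67a333a072d3f2485570ec111a0)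
  (nat_lit 0x1582b52cfade3837a4eb451ef9b491451f09479d9771ebdbc00)
  (nat_lit 0xc58f1b0b3a7bbab4da3b01fa808fad51215e64652d5e65de000)
  (nat_lit 0x9ac9000000bdf81adf8cacff4ea70000007ac3cc13981c6a0000)
  (nat_lit 0) t

noncomputable def Zc_13f (a0 _o : Nat) (t : Chk) : Chk :=
  Chk.cons (nat_lit 20) (nat_lit 2580) (nat_lit 5138) (nat_lit 7443) (nat_lit 0) (nat_lit 0) (nat_lit 0) (nat_lit 0) (nat_lit 0) (nat_lit 0) (nat_lit 0) (nat_lit 0) (nat_lit 0) (nat_lit 0) (nat_lit 0) (nat_lit 0)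
    a0 a0 a0 a0 _o _o _o _o _o _o _o _o _o _o _o _o t

noncomputable def Zc_13 (t : Chk) : Chk := Zc_13f
  (nat_lit 0xe3389a09199bc268bca000007761837edd8a320aa45)
  (nat_lit 0) t

end Pool.Agent.Work.MP_6bf1e5_an.HD
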