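import Pool.Agent.Lib.KBlk.Vr
import Pool.Agent.Work.MP_6bf1e5_an.HD.Zc_0

namespace Pool.Agent.Work.MP_6bf1e5_an.HD

open Pool.Agent.Lib.KLA Pool.Agent.Lib.KBlk

noncomputable def Zc : Chk :=
  Zc_0 ( Zc_1 ( Zc_2 ( Zc_3 ( Zc_4 ( Zc_5 ( Zc_6 ( Zc_7 ( Zc_8 ( Zc_9 ( Zc_10 ( Zc_11 ( Zc_12 ( Zc_13 (Chk.nil))))))))))))))

end Pool.Agent.Work.MP_6bf1e5_an.HD
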