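import Pool.Agent.Work.MP_6bf1e5_an.H.PassDef
import Pool.Agent.Work.MP_6bf1e5_an.HD.Lay0
import Pool.Agent.Work.MP_6bf1e5_an.HD.X
import Pool.Agent.Work.MP_6bf1e5_an.HD.K
import Pool.Agent.Work.MP_6bf1e5_an.HD.La
import Pool.Agent.Work.MP_6bf1e5_an.HD.Th
import Pool.Agent.Work.MP_6bf1e5_an.HD.R
import Pool.Agent.Work.MP_6bf1e5_an.HD.TP
import Pool.Agent.Work.MP_6bf1e5_an.HD.U
import Pool.Agent.Work.MP_6bf1e5_an.HD.Zc

namespace Pool.Agent.Work.MP_6bf1e5_an.HD

open Pool.Agent.Lib.KLA Pool.Agent.Lib.KBlk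

noncomputable def dat : H.Ps.Dat :=
  { Am := Am, Ah := Ah, At := At, V := 96, c1 := 105, cT := 456, nm := 8, nh := 7, nt := 7, cU := cU, cR := cR,
    X := X, K := K, La := La, Th := Th, R := R, TP := TP, U := U, Zc := Zc,
    kX := 4294967296, kK := 17179869184, kL := 1099511627776, kT := 4294967296,
    kR := 134217728, kP := 68719476736, kU := 17592186044416, kZ := 1073741824,
    sX := 28, sK := 27, sL := 26, sT := 26, sR := 24, sP := 30, sU := 30, sZ := 28 }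

end Pool.Agent.Work.MP_6bf1e5_an.HD
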