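import Pool.Agent.Work.MP_6bf1e5_an.HD.FcM

namespace Pool.Agent.Work.MP_6bf1e5_an.HD

open Pool.Agent.Lib.KLA Pool.Agent.Lib.KBlk Pool.Agent.Lib.KRad

def kM_1_1_0 : PLift (fM 1 1 0 64 = true) := ⟨by decide +kernel⟩

def kM_2_0_0 : PLift (fM 2 0 0 61 = true) := ⟨by decide +kernel⟩

def kM_3_1_0 : PLift (fM 3 1 0 60 = true) := ⟨by decide +kernel⟩

def kM_4_0_0 : PLift (fM 4 0 0 57 = true) := ⟨by decide +kernel⟩

def kM_5_1_0 : PLift (fM 5 1 0 56 = true) := ⟨by decide +kernel⟩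

def kM_6_0_0 : PLift (fM 6 0 0 53 = true) := ⟨by decide +kernel⟩

def kM_7_1_0 : PLift (fM 7 1 0 52 = true) := ⟨by decide +kernel⟩

def kM_8_0_0 : PLift (fM 8 0 0 49 = true) := ⟨by decide +kernel⟩

def kM_9_1_0 : PLift (fM 9 1 0 48 = true) := ⟨by decide +kernel⟩

def kM_10_0_0 : PLift (fM 10 0 0 45 = true) := ⟨by decide +kernel⟩

def kM_11_1_0 : PLift (fM 11 1 0 44 = true) := ⟨by decide +kernel⟩

def kM_12_0_0 : PLift (fM 12 0 0 41 = true) := ⟨by decide +kernel⟩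

def kM_13_1_0 : PLift (fM 13 1 0 40 = true) := ⟨by decide +kernel⟩

def kM_14_0_0 : PLift (fM 14 0 0 37 = true) := ⟨by decide +kernel⟩

def kM_15_1_0 : PLift (fM 15 1 0 36 = true) := ⟨by decide +kernel⟩

def kM_16_0_0 : PLift (fM 16 0 0 33 = true) := ⟨by decide +kernel⟩

def kM_17_1_0 : PLift (fM 17 1 0 32 = true) := ⟨by decide +kernel⟩

def kM_18_0_0 : PLift (fM 18 0 0 29 = true) := ⟨by decide +kernel⟩

def kM_19_1_0 : PLift (fM 19 1 0 28 = true) := ⟨by decide +kernel⟩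

def kM_20_0_0 : PLift (fM 20 0 0 25 = true) := ⟨by decide +kernel⟩

def kM_21_1_0 : PLift (fM 21 1 0 24 = true) := ⟨by decide +kernel⟩

def kM_22_0_0 : PLift (fM 22 0 0 21 = true) := ⟨by decide +kernel⟩

def kM_23_1_0 : PLift (fM 23 1 0 20 = true) := ⟨by decide +kernel⟩

def kM_24_0_0 : PLift (fM 24 0 0 17 = true) := ⟨by decide +kernel⟩

def kM_25_1_0 : PLift (fM 25 1 0 16 = true) := ⟨by decide +kernel⟩

def kM_26_0_0 : PLift (fM 26 0 0 13 = true) := ⟨by decide +kernel⟩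

def kM_27_1_0 : PLift (fM 27 1 0 12 = true) := ⟨by decide +kernel⟩

def kM_28_0_0 : PLift (fM 28 0 0 9 = true) := ⟨by decide +kernel⟩

def kM_29_1_0 : PLift (fM 29 1 0 8 = true) := ⟨by decide +kernel⟩

def kM_30_0_0 : PLift (fM 30 0 0 5 = true) := ⟨by decide +kernel⟩

def kM_31_1_0 : PLift (fM 31 1 0 4 = true) := ⟨by decide +kernel⟩

def kM_32_0_0 : PLift (fM 32 0 0 1 = true) := ⟨by decide +kernel⟩

end Pool.Agent.Work.MP_6bf1e5_an.HD
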