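import Pool.Agent.Work.MP_6bf1e5_an.HD.FcM

namespace Pool.Agent.Work.MP_6bf1e5_an.HD

open Pool.Agent.Lib.KLA Pool.Agent.Lib.KBlk Pool.Agent.Lib.KRad

def kM_1_0_0 : PLift (fM 1 0 0 63 = true) := ⟨by decide +kernel⟩

def kM_2_1_0 : PLift (fM 2 1 0 62 = true) := ⟨by decide +kernel⟩

def kM_3_0_0 : PLift (fM 3 0 0 59 = true) := ⟨by decide +kernel⟩

def kM_4_1_0 : PLift (fM 4 1 0 58 = true) := ⟨by decide +kernel⟩

def kM_5_0_0 : PLift (fM 5 0 0 55 = true) := ⟨by decide +kernel⟩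

def kM_6_1_0 : PLift (fM 6 1 0 54 = true) := ⟨by decide +kernel⟩

def kM_7_0_0 : PLift (fM 7 0 0 51 = true) := ⟨by decide +kernel⟩

def kM_8_1_0 : PLift (fM 8 1 0 50 = true) := ⟨by decide +kernel⟩

def kM_9_0_0 : PLift (fM 9 0 0 47 = true) := ⟨by decide +kernel⟩

def kM_10_1_0 : PLift (fM 10 1 0 46 = true) := ⟨by decide +kernel⟩

def kM_11_0_0 : PLift (fM 11 0 0 43 = true) := ⟨by decide +kernel⟩

def kM_12_1_0 : PLift (fM 12 1 0 42 = true) := ⟨by decide +kernel⟩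

def kM_13_0_0 : PLift (fM 13 0 0 39 = true) := ⟨by decide +kernel⟩

def kM_14_1_0 : PLift (fM 14 1 0 38 = true) := ⟨by decide +kernel⟩

def kM_15_0_0 : PLift (fM 15 0 0 35 = true) := ⟨by decide +kernel⟩

def kM_16_1_0 : PLift (fM 16 1 0 34 = true) := ⟨by decide +kernel⟩

def kM_17_0_0 : PLift (fM 17 0 0 31 = true) := ⟨by decide +kernel⟩

def kM_18_1_0 : PLift (fM 18 1 0 30 = true) := ⟨by decide +kernel⟩

def kM_19_0_0 : PLift (fM 19 0 0 27 = true) := ⟨by decide +kernel⟩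

def kM_20_1_0 : PLift (fM 20 1 0 26 = true) := ⟨by decide +kernel⟩

def kM_21_0_0 : PLift (fM 21 0 0 23 = true) := ⟨by decide +kernel⟩

def kM_22_1_0 : PLift (fM 22 1 0 22 = true) := ⟨by decide +kernel⟩

def kM_23_0_0 : PLift (fM 23 0 0 19 = true) := ⟨by decide +kernel⟩

def kM_24_1_0 : PLift (fM 24 1 0 18 = true) := ⟨by decide +kernel⟩

def kM_25_0_0 : PLift (fM 25 0 0 15 = true) := ⟨by decide +kernel⟩

def kM_26_1_0 : PLift (fM 26 1 0 14 = true) := ⟨by decide +kernel⟩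

def kM_27_0_0 : PLift (fM 27 0 0 11 = true) := ⟨by decide +kernel⟩

def kM_28_1_0 : PLift (fM 28 1 0 10 = true) := ⟨by decide +kernel⟩

def kM_29_0_0 : PLift (fM 29 0 0 7 = true) := ⟨by decide +kernel⟩

def kM_30_1_0 : PLift (fM 30 1 0 6 = true) := ⟨by decide +kernel⟩

def kM_31_0_0 : PLift (fM 31 0 0 3 = true) := ⟨by decide +kernel⟩

def kM_32_1_0 : PLift (fM 32 1 0 2 = true) := ⟨by decide +kernel⟩

end Pool.Agent.Work.MP_6bf1e5_an.HD
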