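import Pool.Agent.Work.MP_6bf1e5_an.H.JobG
import Pool.Agent.Work.MP_6bf1e5_an.HD.KM0
import Pool.Agent.Work.MP_6bf1e5_an.HD.KM1

namespace Pool.Agent.Work.MP_6bf1e5_an.HD

open Pool.Agent.Lib.KLA Pool.Agent.Lib.KBlk Pool.Agent.Lib.KRad

open Pool.Agent.Work.MP_6bf1e5_an.H.Ps

theorem jM0 : JobD fM Am 0 :=
  CvD.job (b := 1) (y := 0) (n := 63) (CvD.step kM_1_0_0 (by decide) (CvD.zero))
    (by decide +kernel)

theorem jM1 : JobD fM Am 1 :=
  CvD.job (b := 1) (y := 1) (n := 64) (CvD.step kM_1_1_0 (by decide) (CvD.zero))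
    (by decide +kernel)

theorem jM2 : JobD fM Am 2 :=
  CvD.job (b := 2) (y := 0) (n := 61) (CvD.step kM_2_0_0 (by decide) (CvD.zero))
    (by decide +kernel)

theorem jM3 : JobD fM Am 3 :=
  CvD.job (b := 2) (y := 1) (n := 62) (CvD.step kM_2_1_0 (by decide) (CvD.zero))
    (by decide +kernel)

theorem jM4 : JobD fM Am 4 :=
  CvD.job (b := 3) (y := 0) (n := 59) (CvD.step kM_3_0_0 (by decide) (CvD.zero))
    (by decide +kernel)

theorem jM5 : JobD fM Am 5 :=
  CvD.job (b := 3) (y := 1) (n := 60) (CvD.step kM_3_1_0 (by decide) (CvD.zero))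
    (by decide +kernel)

theorem jM6 : JobD fM Am 6 :=
  CvD.job (b := 4) (y := 0) (n := 57) (CvD.step kM_4_0_0 (by decide) (CvD.zero))
    (by decide +kernel)

theorem jM7 : JobD fM Am 7 :=
  CvD.job (b := 4) (y := 1) (n := 58) (CvD.step kM_4_1_0 (by decide) (CvD.zero))
    (by decide +kernel)

theorem jM8 : JobD fM Am 8 :=
  CvD.job (b := 5) (y := 0) (n := 55) (CvD.step kM_5_0_0 (by decide) (CvD.zero))
    (by decide +kernel)

theorem jM9 : JobD fM Am 9 :=
  CvD.job (b := 5) (y := 1) (n := 56) (CvD.step kM_5_1_0 (by decide) (CvD.zero))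
    (by decide +kernel)

theorem jM10 : JobD fM Am 10 :=
  CvD.job (b := 6) (y := 0) (n := 53) (CvD.step kM_6_0_0 (by decide) (CvD.zero))
    (by decide +kernel)

theorem jM11 : JobD fM Am 11 :=
  CvD.job (b := 6) (y := 1) (n := 54) (CvD.step kM_6_1_0 (by decide) (CvD.zero))
    (by decide +kernel)

theorem jM12 : JobD fM Am 12 :=
  CvD.job (b := 7) (y := 0) (n := 51) (CvD.step kM_7_0_0 (by decide) (CvD.zero))
    (by decide +kernel)

theorem jM13 : JobD fM Am 13 :=
  CvD.job (b := 7) (y := 1) (n := 52) (CvD.step kM_7_1_0 (by decide) (CvD.zero))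
    (by decide +kernel)

theorem jM14 : JobD fM Am 14 :=
  CvD.job (b := 8) (y := 0) (n := 49) (CvD.step kM_8_0_0 (by decide) (CvD.zero))
    (by decide +kernel)

theorem jM15 : JobD fM Am 15 :=
  CvD.job (b := 8) (y := 1) (n := 50) (CvD.step kM_8_1_0 (by decide) (CvD.zero))
    (by decide +kernel)

theorem jM16 : JobD fM Am 16 :=
  CvD.job (b := 9) (y := 0) (n := 47) (CvD.step kM_9_0_0 (by decide) (CvD.zero))
    (by decide +kernel)

theorem jM17 : JobD fM Am 17 :=
  CvD.job (b := 9) (y := 1) (n := 48) (CvD.step kM_9_1_0 (by decide) (CvD.zero))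
    (by decide +kernel)

theorem jM18 : JobD fM Am 18 :=
  CvD.job (b := 10) (y := 0) (n := 45) (CvD.step kM_10_0_0 (by decide) (CvD.zero))
    (by decide +kernel)

theorem jM19 : JobD fM Am 19 :=
  CvD.job (b := 10) (y := 1) (n := 46) (CvD.step kM_10_1_0 (by decide) (CvD.zero))
    (by decide +kernel)

theorem jM20 : JobD fM Am 20 :=
  CvD.job (b := 11) (y := 0) (n := 43) (CvD.step kM_11_0_0 (by decide) (CvD.zero))
    (by decide +kernel)

theorem jM21 : JobD fM Am 21 :=
  CvD.job (b := 11) (y := 1) (n := 44) (CvD.step kM_11_1_0 (by decide) (CvD.zero))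
    (by decide +kernel)

theorem jM22 : JobD fM Am 22 :=
  CvD.job (b := 12) (y := 0) (n := 41) (CvD.step kM_12_0_0 (by decide) (CvD.zero))
    (by decide +kernel)

theorem jM23 : JobD fM Am 23 :=
  CvD.job (b := 12) (y := 1) (n := 42) (CvD.step kM_12_1_0 (by decide) (CvD.zero))
    (by decide +kernel)

theorem jM24 : JobD fM Am 24 :=
  CvD.job (b := 13) (y := 0) (n := 39) (CvD.step kM_13_0_0 (by decide) (CvD.zero))
    (by decide +kernel)

theorem jM25 : JobD fM Am 25 :=
  CvD.job (b := 13) (y := 1) (n := 40) (CvD.step kM_13_1_0 (by decide) (CvD.zero))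
    (by decide +kernel)

theorem jM26 : JobD fM Am 26 :=
  CvD.job (b := 14) (y := 0) (n := 37) (CvD.step kM_14_0_0 (by decide) (CvD.zero))
    (by decide +kernel)

theorem jM27 : JobD fM Am 27 :=
  CvD.job (b := 14) (y := 1) (n := 38) (CvD.step kM_14_1_0 (by decide) (CvD.zero))
    (by decide +kernel)

theorem jM28 : JobD fM Am 28 :=
  CvD.job (b := 15) (y := 0) (n := 35) (CvD.step kM_15_0_0 (by decide) (CvD.zero))
    (by decide +kernel)

theorem jM29 : JobD fM Am 29 :=
  CvD.job (b := 15) (y := 1) (n := 36) (CvD.step kM_15_1_0 (by decide) (CvD.zero))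
    (by decide +kernel)

theorem jM30 : JobD fM Am 30 :=
  CvD.job (b := 16) (y := 0) (n := 33) (CvD.step kM_16_0_0 (by decide) (CvD.zero))
    (by decide +kernel)

theorem jM31 : JobD fM Am 31 :=
  CvD.job (b := 16) (y := 1) (n := 34) (CvD.step kM_16_1_0 (by decide) (CvD.zero))
    (by decide +kernel)

theorem jM32 : JobD fM Am 32 :=
  CvD.job (b := 17) (y := 0) (n := 31) (CvD.step kM_17_0_0 (by decide) (CvD.zero))
    (by decide +kernel)

theorem jM33 : JobD fM Am 33 :=
  CvD.job (b := 17) (y := 1) (n := 32) (CvD.step kM_17_1_0 (by decide) (CvD.zero))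
    (by decide +kernel)

theorem jM34 : JobD fM Am 34 :=
  CvD.job (b := 18) (y := 0) (n := 29) (CvD.step kM_18_0_0 (by decide) (CvD.zero))
    (by decide +kernel)

theorem jM35 : JobD fM Am 35 :=
  CvD.job (b := 18) (y := 1) (n := 30) (CvD.step kM_18_1_0 (by decide) (CvD.zero))
    (by decide +kernel)

theorem jM36 : JobD fM Am 36 :=
  CvD.job (b := 19) (y := 0) (n := 27) (CvD.step kM_19_0_0 (by decide) (CvD.zero))
    (by decide +kernel)

theorem jM37 : JobD fM Am 37 :=
  CvD.job (b := 19) (y := 1) (n := 28) (CvD.step kM_19_1_0 (by decide) (CvD.zero))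
    (by decide +kernel)

theorem jM38 : JobD fM Am 38 :=
  CvD.job (b := 20) (y := 0) (n := 25) (CvD.step kM_20_0_0 (by decide) (CvD.zero))
    (by decide +kernel)

theorem jM39 : JobD fM Am 39 :=
  CvD.job (b := 20) (y := 1) (n := 26) (CvD.step kM_20_1_0 (by decide) (CvD.zero))
    (by decide +kernel)

theorem jM40 : JobD fM Am 40 :=
  CvD.job (b := 21) (y := 0) (n := 23) (CvD.step kM_21_0_0 (by decide) (CvD.zero))
    (by decide +kernel)

theorem jM41 : JobD fM Am 41 :=
  CvD.job (b := 21) (y := 1) (n := 24) (CvD.step kM_21_1_0 (by decide) (CvD.zero))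
    (by decide +kernel)

theorem jM42 : JobD fM Am 42 :=
  CvD.job (b := 22) (y := 0) (n := 21) (CvD.step kM_22_0_0 (by decide) (CvD.zero))
    (by decide +kernel)

theorem jM43 : JobD fM Am 43 :=
  CvD.job (b := 22) (y := 1) (n := 22) (CvD.step kM_22_1_0 (by decide) (CvD.zero))
    (by decide +kernel)

theorem jM44 : JobD fM Am 44 :=
  CvD.job (b := 23) (y := 0) (n := 19) (CvD.step kM_23_0_0 (by decide) (CvD.zero))
    (by decide +kernel)

theorem jM45 : JobD fM Am 45 :=
  CvD.job (b := 23) (y := 1) (n := 20) (CvD.step kM_23_1_0 (by decide) (CvD.zero))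
    (by decide +kernel)

theorem jM46 : JobD fM Am 46 :=
  CvD.job (b := 24) (y := 0) (n := 17) (CvD.step kM_24_0_0 (by decide) (CvD.zero))
    (by decide +kernel)

theorem jM47 : JobD fM Am 47 :=
  CvD.job (b := 24) (y := 1) (n := 18) (CvD.step kM_24_1_0 (by decide) (CvD.zero))
    (by decide +kernel)

theorem jM48 : JobD fM Am 48 :=
  CvD.job (b := 25) (y := 0) (n := 15) (CvD.step kM_25_0_0 (by decide) (CvD.zero))
    (by decide +kernel)

theorem jM49 : JobD fM Am 49 :=
  CvD.job (b := 25) (y := 1) (n := 16) (CvD.step kM_25_1_0 (by decide) (CvD.zero))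
    (by decide +kernel)

theorem jM50 : JobD fM Am 50 :=
  CvD.job (b := 26) (y := 0) (n := 13) (CvD.step kM_26_0_0 (by decide) (CvD.zero))
    (by decide +kernel)

theorem jM51 : JobD fM Am 51 :=
  CvD.job (b := 26) (y := 1) (n := 14) (CvD.step kM_26_1_0 (by decide) (CvD.zero))
    (by decide +kernel)

theorem jM52 : JobD fM Am 52 :=
  CvD.job (b := 27) (y := 0) (n := 11) (CvD.step kM_27_0_0 (by decide) (CvD.zero))
    (by decide +kernel)

theorem jM53 : JobD fM Am 53 :=
  CvD.job (b := 27) (y := 1) (n := 12) (CvD.step kM_27_1_0 (by decide) (CvD.zero))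
    (by decide +kernel)

theorem jM54 : JobD fM Am 54 :=
  CvD.job (b := 28) (y := 0) (n := 9) (CvD.step kM_28_0_0 (by decide) (CvD.zero))
    (by decide +kernel)

theorem jM55 : JobD fM Am 55 :=
  CvD.job (b := 28) (y := 1) (n := 10) (CvD.step kM_28_1_0 (by decide) (CvD.zero))
    (by decide +kernel)

theorem jM56 : JobD fM Am 56 :=
  CvD.job (b := 29) (y := 0) (n := 7) (CvD.step kM_29_0_0 (by decide) (CvD.zero))
    (by decide +kernel)

theorem jM57 : JobD fM Am 57 :=
  CvD.job (b := 29) (y := 1) (n := 8) (CvD.step kM_29_1_0 (by decide) (CvD.zero))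
    (by decide +kernel)

theorem jM58 : JobD fM Am 58 :=
  CvD.job (b := 30) (y := 0) (n := 5) (CvD.step kM_30_0_0 (by decide) (CvD.zero))
    (by decide +kernel)

theorem jM59 : JobD fM Am 59 :=
  CvD.job (b := 30) (y := 1) (n := 6) (CvD.step kM_30_1_0 (by decide) (CvD.zero))
    (by decide +kernel)

theorem jM60 : JobD fM Am 60 :=
  CvD.job (b := 31) (y := 0) (n := 3) (CvD.step kM_31_0_0 (by decide) (CvD.zero))
    (by decide +kernel)

theorem jM61 : JobD fM Am 61 :=
  CvD.job (b := 31) (y := 1) (n := 4) (CvD.step kM_31_1_0 (by decide) (CvD.zero))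
    (by decide +kernel)

theorem jM62 : JobD fM Am 62 :=
  CvD.job (b := 32) (y := 0) (n := 1) (CvD.step kM_32_0_0 (by decide) (CvD.zero))
    (by decide +kernel)

theorem jM63 : JobD fM Am 63 :=
  CvD.job (b := 32) (y := 1) (n := 2) (CvD.step kM_32_1_0 (by decide) (CvD.zero))
    (by decide +kernel)

theorem jobM : JobG fM Am := jobG_of (n := 64)
  (AllP.step jM63 (AllP.step jM62 (AllP.step jM61 (AllP.step jM60 (AllP.step jM59 (AllP.step jM58
  (AllP.step jM57 (AllP.step jM56 (AllP.step jM55 (AllP.step jM54 (AllP.step jM53 (AllP.step jM52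
  (AllP.step jM51 (AllP.step jM50 (AllP.step jM49 (AllP.step jM48 (AllP.step jM47 (AllP.step jM46
  (AllP.step jM45 (AllP.step jM44 (AllP.step jM43 (AllP.step jM42 (AllP.step jM41 (AllP.step jM40
  (AllP.step jM39 (AllP.step jM38 (AllP.step jM37 (AllP.step jM36 (AllP.step jM35 (AllP.step jM34
  (AllP.step jM33 (AllP.step jM32 (AllP.step jM31 (AllP.step jM30 (AllP.step jM29 (AllP.step jM28
  (AllP.step jM27 (AllP.step jM26 (AllP.step jM25 (AllP.step jM24 (AllP.step jM23 (AllP.step jM22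
  (AllP.step jM21 (AllP.step jM20 (AllP.step jM19 (AllP.step jM18 (AllP.step jM17 (AllP.step jM16
  (AllP.step jM15 (AllP.step jM14 (AllP.step jM13 (AllP.step jM12 (AllP.step jM11 (AllP.step jM10
  (AllP.step jM9 (AllP.step jM8 (AllP.step jM7 (AllP.step jM6 (AllP.step jM5 (AllP.step jM4
  (AllP.step jM3 (AllP.step jM2 (AllP.step jM1 (AllP.step jM0 (AllP.zero
  _)))))))))))))))))))))))))))))))))))))))))))))))))))))))))))))))))
  (by decide +kernel)

end Pool.Agent.Work.MP_6bf1e5_an.HD
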