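import Pool.Agent.Work.MP_6bf1e5_an.HD.FcS

namespace Pool.Agent.Work.MP_6bf1e5_an.HD

open Pool.Agent.Lib.KLA Pool.Agent.Lib.KBlk Pool.Agent.Lib.KRad

def kS_1_1_13 : PLift (fS 1 1 13 45 = true) := ⟨by decide +kernel⟩

def kS_2_0_10 : PLift (fS 2 0 10 43 = true) := ⟨by decide +kernel⟩

def kS_3_1_11 : PLift (fS 3 1 11 43 = true) := ⟨by decide +kernel⟩

def kS_4_0_8 : PLift (fS 4 0 8 41 = true) := ⟨by decide +kernel⟩

def kS_5_1_10 : PLift (fS 5 1 10 40 = true) := ⟨by decide +kernel⟩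

def kS_6_0_7 : PLift (fS 6 0 7 38 = true) := ⟨by decide +kernel⟩

def kS_7_1_9 : PLift (fS 7 1 9 37 = true) := ⟨by decide +kernel⟩

def kS_8_0_7 : PLift (fS 8 0 7 34 = true) := ⟨by decide +kernel⟩

def kS_9_1_8 : PLift (fS 9 1 8 34 = true) := ⟨by decide +kernel⟩

def kS_10_1_7 : PLift (fS 10 1 7 33 = true) := ⟨by decide +kernel⟩

def kS_11_0_6 : PLift (fS 11 0 6 29 = true) := ⟨by decide +kernel⟩

def kS_12_1_7 : PLift (fS 12 1 7 29 = true) := ⟨by decide +kernel⟩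

def kS_13_0_5 : PLift (fS 13 0 5 26 = true) := ⟨by decide +kernel⟩

def kS_14_1_6 : PLift (fS 14 1 6 26 = true) := ⟨by decide +kernel⟩

def kS_15_0_5 : PLift (fS 15 0 5 22 = true) := ⟨by decide +kernel⟩

def kS_16_1_6 : PLift (fS 16 1 6 22 = true) := ⟨by decide +kernel⟩

def kS_17_1_5 : PLift (fS 17 1 5 21 = true) := ⟨by decide +kernel⟩

def kS_18_0_4 : PLift (fS 18 0 4 17 = true) := ⟨by decide +kernel⟩

def kS_19_1_5 : PLift (fS 19 1 5 17 = true) := ⟨by decide +kernel⟩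

def kS_20_0_4 : PLift (fS 20 0 4 13 = true) := ⟨by decide +kernel⟩

def kS_21_1_5 : PLift (fS 21 1 5 13 = true) := ⟨by decide +kernel⟩

def kS_22_0_3 : PLift (fS 22 0 3 10 = true) := ⟨by decide +kernel⟩

def kS_23_1_4 : PLift (fS 23 1 4 10 = true) := ⟨by decide +kernel⟩

def kS_24_0_3 : PLift (fS 24 0 3 6 = true) := ⟨by decide +kernel⟩

def kS_25_1_4 : PLift (fS 25 1 4 6 = true) := ⟨by decide +kernel⟩

def kS_26_1_3 : PLift (fS 26 1 3 5 = true) := ⟨by decide +kernel⟩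

def kS_27_0_2 : PLift (fS 27 0 2 1 = true) := ⟨by decide +kernel⟩

def kS_28_1_3 : PLift (fS 28 1 3 1 = true) := ⟨by decide +kernel⟩

def kS_24_1_0 : PLift (fS 24 1 0 4 = true) := ⟨by decide +kernel⟩

def kS_25_1_0 : PLift (fS 25 1 0 4 = true) := ⟨by decide +kernel⟩

def kS_26_1_0 : PLift (fS 26 1 0 3 = true) := ⟨by decide +kernel⟩

def kS_27_1_0 : PLift (fS 27 1 0 3 = true) := ⟨by decide +kernel⟩

def kS_28_1_0 : PLift (fS 28 1 0 3 = true) := ⟨by decide +kernel⟩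

end Pool.Agent.Work.MP_6bf1e5_an.HD
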