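import Pool.Agent.Work.MP_6bf1e5_an.HD.FcS

namespace Pool.Agent.Work.MP_6bf1e5_an.HD

open Pool.Agent.Lib.KLA Pool.Agent.Lib.KBlk Pool.Agent.Lib.KRad

def kS_1_0_11 : PLift (fS 1 0 11 44 = true) := ⟨by decide +kernel⟩

def kS_2_1_12 : PLift (fS 2 1 12 44 = true) := ⟨by decide +kernel⟩

def kS_3_0_9 : PLift (fS 3 0 9 42 = true) := ⟨by decide +kernel⟩

def kS_4_1_10 : PLift (fS 4 1 10 42 = true) := ⟨by decide +kernel⟩

def kS_5_0_8 : PLift (fS 5 0 8 39 = true) := ⟨by decide +kernel⟩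

def kS_6_1_9 : PLift (fS 6 1 9 39 = true) := ⟨by decide +kernel⟩

def kS_7_0_7 : PLift (fS 7 0 7 36 = true) := ⟨by decide +kernel⟩

def kS_8_1_8 : PLift (fS 8 1 8 36 = true) := ⟨by decide +kernel⟩

def kS_9_0_6 : PLift (fS 9 0 6 33 = true) := ⟨by decide +kernel⟩

def kS_10_0_6 : PLift (fS 10 0 6 31 = true) := ⟨by decide +kernel⟩

def kS_11_1_7 : PLift (fS 11 1 7 31 = true) := ⟨by decide +kernel⟩

def kS_12_0_5 : PLift (fS 12 0 5 28 = true) := ⟨by decide +kernel⟩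

def kS_13_1_6 : PLift (fS 13 1 6 28 = true) := ⟨by decide +kernel⟩

def kS_14_0_5 : PLift (fS 14 0 5 24 = true) := ⟨by decide +kernel⟩

def kS_15_1_6 : PLift (fS 15 1 6 24 = true) := ⟨by decide +kernel⟩

def kS_16_0_4 : PLift (fS 16 0 4 21 = true) := ⟨by decide +kernel⟩

def kS_17_0_4 : PLift (fS 17 0 4 19 = true) := ⟨by decide +kernel⟩

def kS_18_1_5 : PLift (fS 18 1 5 19 = true) := ⟨by decide +kernel⟩

def kS_19_0_4 : PLift (fS 19 0 4 15 = true) := ⟨by decide +kernel⟩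

def kS_20_1_5 : PLift (fS 20 1 5 15 = true) := ⟨by decide +kernel⟩

def kS_21_0_3 : PLift (fS 21 0 3 12 = true) := ⟨by decide +kernel⟩

def kS_22_1_4 : PLift (fS 22 1 4 12 = true) := ⟨by decide +kernel⟩

def kS_23_0_3 : PLift (fS 23 0 3 8 = true) := ⟨by decide +kernel⟩

def kS_24_1_4 : PLift (fS 24 1 4 8 = true) := ⟨by decide +kernel⟩

def kS_25_0_2 : PLift (fS 25 0 2 5 = true) := ⟨by decide +kernel⟩

def kS_26_0_2 : PLift (fS 26 0 2 3 = true) := ⟨by decide +kernel⟩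

def kS_27_1_3 : PLift (fS 27 1 3 3 = true) := ⟨by decide +kernel⟩

def kS_1_0_0 : PLift (fS 1 0 0 11 = true) := ⟨by decide +kernel⟩

def kS_1_1_0 : PLift (fS 1 1 0 13 = true) := ⟨by decide +kernel⟩

def kS_2_0_0 : PLift (fS 2 0 0 10 = true) := ⟨by decide +kernel⟩

def kS_2_1_0 : PLift (fS 2 1 0 12 = true) := ⟨by decide +kernel⟩

def kS_3_0_0 : PLift (fS 3 0 0 9 = true) := ⟨by decide +kernel⟩

def kS_3_1_0 : PLift (fS 3 1 0 11 = true) := ⟨by decide +kernel⟩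

def kS_4_0_0 : PLift (fS 4 0 0 8 = true) := ⟨by decide +kernel⟩

def kS_4_1_0 : PLift (fS 4 1 0 10 = true) := ⟨by decide +kernel⟩

def kS_5_0_0 : PLift (fS 5 0 0 8 = true) := ⟨by decide +kernel⟩

def kS_5_1_0 : PLift (fS 5 1 0 10 = true) := ⟨by decide +kernel⟩

def kS_6_0_0 : PLift (fS 6 0 0 7 = true) := ⟨by decide +kernel⟩

def kS_6_1_0 : PLift (fS 6 1 0 9 = true) := ⟨by decide +kernel⟩

def kS_7_0_0 : PLift (fS 7 0 0 7 = true) := ⟨by decide +kernel⟩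

def kS_7_1_0 : PLift (fS 7 1 0 9 = true) := ⟨by decide +kernel⟩

def kS_8_0_0 : PLift (fS 8 0 0 7 = true) := ⟨by decide +kernel⟩

def kS_8_1_0 : PLift (fS 8 1 0 8 = true) := ⟨by decide +kernel⟩

def kS_9_0_0 : PLift (fS 9 0 0 6 = true) := ⟨by decide +kernel⟩

def kS_9_1_0 : PLift (fS 9 1 0 8 = true) := ⟨by decide +kernel⟩

def kS_10_0_0 : PLift (fS 10 0 0 6 = true) := ⟨by decide +kernel⟩

def kS_10_1_0 : PLift (fS 10 1 0 7 = true) := ⟨by decide +kernel⟩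

def kS_11_0_0 : PLift (fS 11 0 0 6 = true) := ⟨by decide +kernel⟩

def kS_11_1_0 : PLift (fS 11 1 0 7 = true) := ⟨by decide +kernel⟩

def kS_12_0_0 : PLift (fS 12 0 0 5 = true) := ⟨by decide +kernel⟩

def kS_12_1_0 : PLift (fS 12 1 0 7 = true) := ⟨by decide +kernel⟩

def kS_13_0_0 : PLift (fS 13 0 0 5 = true) := ⟨by decide +kernel⟩

def kS_13_1_0 : PLift (fS 13 1 0 6 = true) := ⟨by decide +kernel⟩

def kS_14_0_0 : PLift (fS 14 0 0 5 = true) := ⟨by decide +kernel⟩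

def kS_14_1_0 : PLift (fS 14 1 0 6 = true) := ⟨by decide +kernel⟩

def kS_15_0_0 : PLift (fS 15 0 0 5 = true) := ⟨by decide +kernel⟩

def kS_15_1_0 : PLift (fS 15 1 0 6 = true) := ⟨by decide +kernel⟩

def kS_16_0_0 : PLift (fS 16 0 0 4 = true) := ⟨by decide +kernel⟩

def kS_16_1_0 : PLift (fS 16 1 0 6 = true) := ⟨by decide +kernel⟩

def kS_17_0_0 : PLift (fS 17 0 0 4 = true) := ⟨by decide +kernel⟩

def kS_17_1_0 : PLift (fS 17 1 0 5 = true) := ⟨by decide +kernel⟩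

def kS_18_0_0 : PLift (fS 18 0 0 4 = true) := ⟨by decide +kernel⟩

def kS_18_1_0 : PLift (fS 18 1 0 5 = true) := ⟨by decide +kernel⟩

def kS_19_0_0 : PLift (fS 19 0 0 4 = true) := ⟨by decide +kernel⟩

def kS_19_1_0 : PLift (fS 19 1 0 5 = true) := ⟨by decide +kernel⟩

def kS_20_0_0 : PLift (fS 20 0 0 4 = true) := ⟨by decide +kernel⟩

def kS_20_1_0 : PLift (fS 20 1 0 5 = true) := ⟨by decide +kernel⟩

def kS_21_0_0 : PLift (fS 21 0 0 3 = true) := ⟨by decide +kernel⟩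

def kS_21_1_0 : PLift (fS 21 1 0 5 = true) := ⟨by decide +kernel⟩

def kS_22_0_0 : PLift (fS 22 0 0 3 = true) := ⟨by decide +kernel⟩

def kS_22_1_0 : PLift (fS 22 1 0 4 = true) := ⟨by decide +kernel⟩

def kS_23_0_0 : PLift (fS 23 0 0 3 = true) := ⟨by decide +kernel⟩

def kS_23_1_0 : PLift (fS 23 1 0 4 = true) := ⟨by decide +kernel⟩

def kS_24_0_0 : PLift (fS 24 0 0 3 = true) := ⟨by decide +kernel⟩

def kS_25_0_0 : PLift (fS 25 0 0 2 = true) := ⟨by decide +kernel⟩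

def kS_26_0_0 : PLift (fS 26 0 0 2 = true) := ⟨by decide +kernel⟩

def kS_27_0_0 : PLift (fS 27 0 0 2 = true) := ⟨by decide +kernel⟩

def kS_28_0_0 : PLift (fS 28 0 0 1 = true) := ⟨by decide +kernel⟩

end Pool.Agent.Work.MP_6bf1e5_an.HD
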