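import Pool.Agent.Work.MP_6bf1e5_an.H.JobG
import Pool.Agent.Work.MP_6bf1e5_an.HD.KS0
import Pool.Agent.Work.MP_6bf1e5_an.HD.KS1

namespace Pool.Agent.Work.MP_6bf1e5_an.HD

open Pool.Agent.Lib.KLA Pool.Agent.Lib.KBlk Pool.Agent.Lib.KRad

open Pool.Agent.Work.MP_6bf1e5_an.H.Ps

theorem jSm0 : JobD fS Ah 0 :=
  CvD.job (b := 1) (y := 0) (n := 55) (CvD.step kS_1_0_11 (by decide) (CvD.step kS_1_0_0 (by decide) (CvD.zero)))
    (by decide +kernel)

theorem jSm1 : JobD fS Ah 1 :=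
  CvD.job (b := 1) (y := 1) (n := 58) (CvD.step kS_1_1_13 (by decide) (CvD.step kS_1_1_0 (by decide) (CvD.zero)))
    (by decide +kernel)

theorem jSm2 : JobD fS Ah 2 :=
  CvD.job (b := 2) (y := 0) (n := 53) (CvD.step kS_2_0_10 (by decide) (CvD.step kS_2_0_0 (by decide) (CvD.zero)))
    (by decide +kernel)

theorem jSm3 : JobD fS Ah 3 :=
  CvD.job (b := 2) (y := 1) (n := 56) (CvD.step kS_2_1_12 (by decide) (CvD.step kS_2_1_0 (by decide) (CvD.zero)))
    (by decide +kernel)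

theorem jSm4 : JobD fS Ah 4 :=
  CvD.job (b := 3) (y := 0) (n := 51) (CvD.step kS_3_0_9 (by decide) (CvD.step kS_3_0_0 (by decide) (CvD.zero)))
    (by decide +kernel)

theorem jSm5 : JobD fS Ah 5 :=
  CvD.job (b := 3) (y := 1) (n := 54) (CvD.step kS_3_1_11 (by decide) (CvD.step kS_3_1_0 (by decide) (CvD.zero)))
    (by decide +kernel)

theorem jSm6 : JobD fS Ah 6 :=
  CvD.job (b := 4) (y := 0) (n := 49) (CvD.step kS_4_0_8 (by decide) (CvD.step kS_4_0_0 (by decide) (CvD.zero)))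
    (by decide +kernel)

theorem jSm7 : JobD fS Ah 7 :=
  CvD.job (b := 4) (y := 1) (n := 52) (CvD.step kS_4_1_10 (by decide) (CvD.step kS_4_1_0 (by decide) (CvD.zero)))
    (by decide +kernel)

theorem jSm8 : JobD fS Ah 8 :=
  CvD.job (b := 5) (y := 0) (n := 47) (CvD.step kS_5_0_8 (by decide) (CvD.step kS_5_0_0 (by decide) (CvD.zero)))
    (by decide +kernel)

theorem jSm9 : JobD fS Ah 9 :=
  CvD.job (b := 5) (y := 1) (n := 50) (CvD.step kS_5_1_10 (by decide) (CvD.step kS_5_1_0 (by decide) (CvD.zero)))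
    (by decide +kernel)

theorem jSm10 : JobD fS Ah 10 :=
  CvD.job (b := 6) (y := 0) (n := 45) (CvD.step kS_6_0_7 (by decide) (CvD.step kS_6_0_0 (by decide) (CvD.zero)))
    (by decide +kernel)

theorem jSm11 : JobD fS Ah 11 :=
  CvD.job (b := 6) (y := 1) (n := 48) (CvD.step kS_6_1_9 (by decide) (CvD.step kS_6_1_0 (by decide) (CvD.zero)))
    (by decide +kernel)

theorem jSm12 : JobD fS Ah 12 :=
  CvD.job (b := 7) (y := 0) (n := 43) (CvD.step kS_7_0_7 (by decide) (CvD.step kS_7_0_0 (by decide) (CvD.zero)))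
    (by decide +kernel)

theorem jSm13 : JobD fS Ah 13 :=
  CvD.job (b := 7) (y := 1) (n := 46) (CvD.step kS_7_1_9 (by decide) (CvD.step kS_7_1_0 (by decide) (CvD.zero)))
    (by decide +kernel)

theorem jSm14 : JobD fS Ah 14 :=
  CvD.job (b := 8) (y := 0) (n := 41) (CvD.step kS_8_0_7 (by decide) (CvD.step kS_8_0_0 (by decide) (CvD.zero)))
    (by decide +kernel)

theorem jSm15 : JobD fS Ah 15 :=
  CvD.job (b := 8) (y := 1) (n := 44) (CvD.step kS_8_1_8 (by decide) (CvD.step kS_8_1_0 (by decide) (CvD.zero)))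
    (by decide +kernel)

theorem jSm16 : JobD fS Ah 16 :=
  CvD.job (b := 9) (y := 0) (n := 39) (CvD.step kS_9_0_6 (by decide) (CvD.step kS_9_0_0 (by decide) (CvD.zero)))
    (by decide +kernel)

theorem jSm17 : JobD fS Ah 17 :=
  CvD.job (b := 9) (y := 1) (n := 42) (CvD.step kS_9_1_8 (by decide) (CvD.step kS_9_1_0 (by decide) (CvD.zero)))
    (by decide +kernel)

theorem jSm18 : JobD fS Ah 18 :=
  CvD.job (b := 10) (y := 0) (n := 37) (CvD.step kS_10_0_6 (by decide) (CvD.step kS_10_0_0 (by decide) (CvD.zero)))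
    (by decide +kernel)

theorem jSm19 : JobD fS Ah 19 :=
  CvD.job (b := 10) (y := 1) (n := 40) (CvD.step kS_10_1_7 (by decide) (CvD.step kS_10_1_0 (by decide) (CvD.zero)))
    (by decide +kernel)

theorem jSm20 : JobD fS Ah 20 :=
  CvD.job (b := 11) (y := 0) (n := 35) (CvD.step kS_11_0_6 (by decide) (CvD.step kS_11_0_0 (by decide) (CvD.zero)))
    (by decide +kernel)

theorem jSm21 : JobD fS Ah 21 :=
  CvD.job (b := 11) (y := 1) (n := 38) (CvD.step kS_11_1_7 (by decide) (CvD.step kS_11_1_0 (by decide) (CvD.zero)))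
    (by decide +kernel)

theorem jSm22 : JobD fS Ah 22 :=
  CvD.job (b := 12) (y := 0) (n := 33) (CvD.step kS_12_0_5 (by decide) (CvD.step kS_12_0_0 (by decide) (CvD.zero)))
    (by decide +kernel)

theorem jSm23 : JobD fS Ah 23 :=
  CvD.job (b := 12) (y := 1) (n := 36) (CvD.step kS_12_1_7 (by decide) (CvD.step kS_12_1_0 (by decide) (CvD.zero)))
    (by decide +kernel)

theorem jSm24 : JobD fS Ah 24 :=
  CvD.job (b := 13) (y := 0) (n := 31) (CvD.step kS_13_0_5 (by decide) (CvD.step kS_13_0_0 (by decide) (CvD.zero)))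
    (by decide +kernel)

theorem jSm25 : JobD fS Ah 25 :=
  CvD.job (b := 13) (y := 1) (n := 34) (CvD.step kS_13_1_6 (by decide) (CvD.step kS_13_1_0 (by decide) (CvD.zero)))
    (by decide +kernel)

theorem jSm26 : JobD fS Ah 26 :=
  CvD.job (b := 14) (y := 0) (n := 29) (CvD.step kS_14_0_5 (by decide) (CvD.step kS_14_0_0 (by decide) (CvD.zero)))
    (by decide +kernel)

theorem jSm27 : JobD fS Ah 27 :=
  CvD.job (b := 14) (y := 1) (n := 32) (CvD.step kS_14_1_6 (by decide) (CvD.step kS_14_1_0 (by decide) (CvD.zero)))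
    (by decide +kernel)

theorem jSm28 : JobD fS Ah 28 :=
  CvD.job (b := 15) (y := 0) (n := 27) (CvD.step kS_15_0_5 (by decide) (CvD.step kS_15_0_0 (by decide) (CvD.zero)))
    (by decide +kernel)

theorem jSm29 : JobD fS Ah 29 :=
  CvD.job (b := 15) (y := 1) (n := 30) (CvD.step kS_15_1_6 (by decide) (CvD.step kS_15_1_0 (by decide) (CvD.zero)))
    (by decide +kernel)

theorem jSm30 : JobD fS Ah 30 :=
  CvD.job (b := 16) (y := 0) (n := 25) (CvD.step kS_16_0_4 (by decide) (CvD.step kS_16_0_0 (by decide) (CvD.zero)))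
    (by decide +kernel)

theorem jSm31 : JobD fS Ah 31 :=
  CvD.job (b := 16) (y := 1) (n := 28) (CvD.step kS_16_1_6 (by decide) (CvD.step kS_16_1_0 (by decide) (CvD.zero)))
    (by decide +kernel)

theorem jSm32 : JobD fS Ah 32 :=
  CvD.job (b := 17) (y := 0) (n := 23) (CvD.step kS_17_0_4 (by decide) (CvD.step kS_17_0_0 (by decide) (CvD.zero)))
    (by decide +kernel)

theorem jSm33 : JobD fS Ah 33 :=
  CvD.job (b := 17) (y := 1) (n := 26) (CvD.step kS_17_1_5 (by decide) (CvD.step kS_17_1_0 (by decide) (CvD.zero)))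
    (by decide +kernel)

theorem jSm34 : JobD fS Ah 34 :=
  CvD.job (b := 18) (y := 0) (n := 21) (CvD.step kS_18_0_4 (by decide) (CvD.step kS_18_0_0 (by decide) (CvD.zero)))
    (by decide +kernel)

theorem jSm35 : JobD fS Ah 35 :=
  CvD.job (b := 18) (y := 1) (n := 24) (CvD.step kS_18_1_5 (by decide) (CvD.step kS_18_1_0 (by decide) (CvD.zero)))
    (by decide +kernel)

theorem jSm36 : JobD fS Ah 36 :=
  CvD.job (b := 19) (y := 0) (n := 19) (CvD.step kS_19_0_4 (by decide) (CvD.step kS_19_0_0 (by decide) (CvD.zero)))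
    (by decide +kernel)

theorem jSm37 : JobD fS Ah 37 :=
  CvD.job (b := 19) (y := 1) (n := 22) (CvD.step kS_19_1_5 (by decide) (CvD.step kS_19_1_0 (by decide) (CvD.zero)))
    (by decide +kernel)

theorem jSm38 : JobD fS Ah 38 :=
  CvD.job (b := 20) (y := 0) (n := 17) (CvD.step kS_20_0_4 (by decide) (CvD.step kS_20_0_0 (by decide) (CvD.zero)))
    (by decide +kernel)

theorem jSm39 : JobD fS Ah 39 :=
  CvD.job (b := 20) (y := 1) (n := 20) (CvD.step kS_20_1_5 (by decide) (CvD.step kS_20_1_0 (by decide) (CvD.zero)))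
    (by decide +kernel)

theorem jSm40 : JobD fS Ah 40 :=
  CvD.job (b := 21) (y := 0) (n := 15) (CvD.step kS_21_0_3 (by decide) (CvD.step kS_21_0_0 (by decide) (CvD.zero)))
    (by decide +kernel)

theorem jSm41 : JobD fS Ah 41 :=
  CvD.job (b := 21) (y := 1) (n := 18) (CvD.step kS_21_1_5 (by decide) (CvD.step kS_21_1_0 (by decide) (CvD.zero)))
    (by decide +kernel)

theorem jSm42 : JobD fS Ah 42 :=
  CvD.job (b := 22) (y := 0) (n := 13) (CvD.step kS_22_0_3 (by decide) (CvD.step kS_22_0_0 (by decide) (CvD.zero)))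
    (by decide +kernel)

theorem jSm43 : JobD fS Ah 43 :=
  CvD.job (b := 22) (y := 1) (n := 16) (CvD.step kS_22_1_4 (by decide) (CvD.step kS_22_1_0 (by decide) (CvD.zero)))
    (by decide +kernel)

theorem jSm44 : JobD fS Ah 44 :=
  CvD.job (b := 23) (y := 0) (n := 11) (CvD.step kS_23_0_3 (by decide) (CvD.step kS_23_0_0 (by decide) (CvD.zero)))
    (by decide +kernel)

theorem jSm45 : JobD fS Ah 45 :=
  CvD.job (b := 23) (y := 1) (n := 14) (CvD.step kS_23_1_4 (by decide) (CvD.step kS_23_1_0 (by decide) (CvD.zero)))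
    (by decide +kernel)

theorem jSm46 : JobD fS Ah 46 :=
  CvD.job (b := 24) (y := 0) (n := 9) (CvD.step kS_24_0_3 (by decide) (CvD.step kS_24_0_0 (by decide) (CvD.zero)))
    (by decide +kernel)

theorem jSm47 : JobD fS Ah 47 :=
  CvD.job (b := 24) (y := 1) (n := 12) (CvD.step kS_24_1_4 (by decide) (CvD.step kS_24_1_0 (by decide) (CvD.zero)))
    (by decide +kernel)

theorem jSm48 : JobD fS Ah 48 :=
  CvD.job (b := 25) (y := 0) (n := 7) (CvD.step kS_25_0_2 (by decide) (CvD.step kS_25_0_0 (by decide) (CvD.zero)))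
    (by decide +kernel)

theorem jSm49 : JobD fS Ah 49 :=
  CvD.job (b := 25) (y := 1) (n := 10) (CvD.step kS_25_1_4 (by decide) (CvD.step kS_25_1_0 (by decide) (CvD.zero)))
    (by decide +kernel)

theorem jSm50 : JobD fS Ah 50 :=
  CvD.job (b := 26) (y := 0) (n := 5) (CvD.step kS_26_0_2 (by decide) (CvD.step kS_26_0_0 (by decide) (CvD.zero)))
    (by decide +kernel)

theorem jSm51 : JobD fS Ah 51 :=
  CvD.job (b := 26) (y := 1) (n := 8) (CvD.step kS_26_1_3 (by decide) (CvD.step kS_26_1_0 (by decide) (CvD.zero)))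
    (by decide +kernel)

theorem jSm52 : JobD fS Ah 52 :=
  CvD.job (b := 27) (y := 0) (n := 3) (CvD.step kS_27_0_2 (by decide) (CvD.step kS_27_0_0 (by decide) (CvD.zero)))
    (by decide +kernel)

theorem jSm53 : JobD fS Ah 53 :=
  CvD.job (b := 27) (y := 1) (n := 6) (CvD.step kS_27_1_3 (by decide) (CvD.step kS_27_1_0 (by decide) (CvD.zero)))
    (by decide +kernel)

theorem jSm54 : JobD fS Ah 54 :=
  CvD.job (b := 28) (y := 0) (n := 1) (CvD.step kS_28_0_0 (by decide) (CvD.zero))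
    (by decide +kernel)

theorem jSm55 : JobD fS Ah 55 :=
  CvD.job (b := 28) (y := 1) (n := 4) (CvD.step kS_28_1_3 (by decide) (CvD.step kS_28_1_0 (by decide) (CvD.zero)))
    (by decide +kernel)

theorem jobS : JobG fS Ah := jobG_of (n := 56)
  (AllP.step jSm55 (AllP.step jSm54 (AllP.step jSm53 (AllP.step jSm52 (AllP.step jSm51 (AllP.step
  jSm50 (AllP.step jSm49 (AllP.step jSm48 (AllP.step jSm47 (AllP.step jSm46 (AllP.step jSm45
  (AllP.step jSm44 (AllP.step jSm43 (AllP.step jSm42 (AllP.step jSm41 (AllP.step jSm40 (AllP.step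
  jSm39 (AllP.step jSm38 (AllP.step jSm37 (AllP.step jSm36 (AllP.step jSm35 (AllP.step jSm34
  (AllP.step jSm33 (AllP.step jSm32 (AllP.step jSm31 (AllP.step jSm30 (AllP.step jSm29 (AllP.step
  jSm28 (AllP.step jSm27 (AllP.step jSm26 (AllP.step jSm25 (AllP.step jSm24 (AllP.step jSm23
  (AllP.step jSm22 (AllP.step jSm21 (AllP.step jSm20 (AllP.step jSm19 (AllP.step jSm18 (AllP.step
  jSm17 (AllP.step jSm16 (AllP.step jSm15 (AllP.step jSm14 (AllP.step jSm13 (AllP.step jSm12
  (AllP.step jSm11 (AllP.step jSm10 (AllP.step jSm9 (AllP.step jSm8 (AllP.step jSm7 (AllP.step jSm6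
  (AllP.step jSm5 (AllP.step jSm4 (AllP.step jSm3 (AllP.step jSm2 (AllP.step jSm1 (AllP.step jSm0
  (AllP.zero _)))))))))))))))))))))))))))))))))))))))))))))))))))))))))
  (by decide +kernel)

theorem smT : Nat.ble (smS 40 Ah cy) 137359788634800128 = true := by decide +kernel

end Pool.Agent.Work.MP_6bf1e5_an.HD
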