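import Pool.Agent.Work.MP_6bf1e5_an.HD.FcT

namespace Pool.Agent.Work.MP_6bf1e5_an.HD

open Pool.Agent.Lib.KLA Pool.Agent.Lib.KBlk Pool.Agent.Lib.KRad

def kT_1_1_0 : PLift (fT 1 1 0 58 = true) := ⟨by decide +kernel⟩

def kT_3_1_0 : PLift (fT 3 1 0 54 = true) := ⟨by decide +kernel⟩

def kT_4_1_0 : PLift (fT 4 1 0 52 = true) := ⟨by decide +kernel⟩

def kT_5_1_0 : PLift (fT 5 1 0 50 = true) := ⟨by decide +kernel⟩

def kT_4_0_0 : PLift (fT 4 0 0 49 = true) := ⟨by decide +kernel⟩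

def kT_7_1_0 : PLift (fT 7 1 0 46 = true) := ⟨by decide +kernel⟩

def kT_6_0_0 : PLift (fT 6 0 0 45 = true) := ⟨by decide +kernel⟩

def kT_9_1_0 : PLift (fT 9 1 0 42 = true) := ⟨by decide +kernel⟩

def kT_8_0_0 : PLift (fT 8 0 0 41 = true) := ⟨by decide +kernel⟩

def kT_11_1_0 : PLift (fT 11 1 0 38 = true) := ⟨by decide +kernel⟩

def kT_10_0_0 : PLift (fT 10 0 0 37 = true) := ⟨by decide +kernel⟩

def kT_13_1_0 : PLift (fT 13 1 0 34 = true) := ⟨by decide +kernel⟩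

def kT_12_0_0 : PLift (fT 12 0 0 33 = true) := ⟨by decide +kernel⟩

def kT_15_1_0 : PLift (fT 15 1 0 30 = true) := ⟨by decide +kernel⟩

def kT_14_0_0 : PLift (fT 14 0 0 29 = true) := ⟨by decide +kernel⟩

def kT_17_1_0 : PLift (fT 17 1 0 26 = true) := ⟨by decide +kernel⟩

def kT_16_0_0 : PLift (fT 16 0 0 25 = true) := ⟨by decide +kernel⟩

def kT_19_1_0 : PLift (fT 19 1 0 22 = true) := ⟨by decide +kernel⟩

def kT_18_0_0 : PLift (fT 18 0 0 21 = true) := ⟨by decide +kernel⟩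

def kT_21_1_0 : PLift (fT 21 1 0 18 = true) := ⟨by decide +kernel⟩

def kT_20_0_0 : PLift (fT 20 0 0 17 = true) := ⟨by decide +kernel⟩

def kT_23_1_0 : PLift (fT 23 1 0 14 = true) := ⟨by decide +kernel⟩

def kT_22_0_0 : PLift (fT 22 0 0 13 = true) := ⟨by decide +kernel⟩

def kT_25_1_0 : PLift (fT 25 1 0 10 = true) := ⟨by decide +kernel⟩

def kT_24_0_0 : PLift (fT 24 0 0 9 = true) := ⟨by decide +kernel⟩

def kT_27_1_0 : PLift (fT 27 1 0 6 = true) := ⟨by decide +kernel⟩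

def kT_26_0_0 : PLift (fT 26 0 0 5 = true) := ⟨by decide +kernel⟩

def kT_28_0_0 : PLift (fT 28 0 0 1 = true) := ⟨by decide +kernel⟩

end Pool.Agent.Work.MP_6bf1e5_an.HD
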