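import Pool.Agent.Work.MP_6bf1e5_an.HD.FcT

namespace Pool.Agent.Work.MP_6bf1e5_an.HD

open Pool.Agent.Lib.KLA Pool.Agent.Lib.KBlk Pool.Agent.Lib.KRad

def kT_2_1_0 : PLift (fT 2 1 0 56 = true) := ⟨by decide +kernel⟩

def kT_1_0_0 : PLift (fT 1 0 0 55 = true) := ⟨by decide +kernel⟩

def kT_2_0_0 : PLift (fT 2 0 0 53 = true) := ⟨by decide +kernel⟩

def kT_3_0_0 : PLift (fT 3 0 0 51 = true) := ⟨by decide +kernel⟩

def kT_6_1_0 : PLift (fT 6 1 0 48 = true) := ⟨by decide +kernel⟩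

def kT_5_0_0 : PLift (fT 5 0 0 47 = true) := ⟨by decide +kernel⟩

def kT_8_1_0 : PLift (fT 8 1 0 44 = true) := ⟨by decide +kernel⟩

def kT_7_0_0 : PLift (fT 7 0 0 43 = true) := ⟨by decide +kernel⟩

def kT_10_1_0 : PLift (fT 10 1 0 40 = true) := ⟨by decide +kernel⟩

def kT_9_0_0 : PLift (fT 9 0 0 39 = true) := ⟨by decide +kernel⟩

def kT_12_1_0 : PLift (fT 12 1 0 36 = true) := ⟨by decide +kernel⟩

def kT_11_0_0 : PLift (fT 11 0 0 35 = true) := ⟨by decide +kernel⟩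

def kT_14_1_0 : PLift (fT 14 1 0 32 = true) := ⟨by decide +kernel⟩

def kT_13_0_0 : PLift (fT 13 0 0 31 = true) := ⟨by decide +kernel⟩

def kT_16_1_0 : PLift (fT 16 1 0 28 = true) := ⟨by decide +kernel⟩

def kT_15_0_0 : PLift (fT 15 0 0 27 = true) := ⟨by decide +kernel⟩

def kT_18_1_0 : PLift (fT 18 1 0 24 = true) := ⟨by decide +kernel⟩

def kT_17_0_0 : PLift (fT 17 0 0 23 = true) := ⟨by decide +kernel⟩

def kT_20_1_0 : PLift (fT 20 1 0 20 = true) := ⟨by decide +kernel⟩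

def kT_19_0_0 : PLift (fT 19 0 0 19 = true) := ⟨by decide +kernel⟩

def kT_22_1_0 : PLift (fT 22 1 0 16 = true) := ⟨by decide +kernel⟩

def kT_21_0_0 : PLift (fT 21 0 0 15 = true) := ⟨by decide +kernel⟩

def kT_24_1_0 : PLift (fT 24 1 0 12 = true) := ⟨by decide +kernel⟩

def kT_23_0_0 : PLift (fT 23 0 0 11 = true) := ⟨by decide +kernel⟩

def kT_26_1_0 : PLift (fT 26 1 0 8 = true) := ⟨by decide +kernel⟩

def kT_25_0_0 : PLift (fT 25 0 0 7 = true) := ⟨by decide +kernel⟩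

def kT_28_1_0 : PLift (fT 28 1 0 4 = true) := ⟨by decide +kernel⟩

def kT_27_0_0 : PLift (fT 27 0 0 3 = true) := ⟨by decide +kernel⟩

end Pool.Agent.Work.MP_6bf1e5_an.HD
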