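import Pool.Agent.Work.MP_6bf1e5_an.H.JobG
import Pool.Agent.Work.MP_6bf1e5_an.HD.KT0
import Pool.Agent.Work.MP_6bf1e5_an.HD.KT1

namespace Pool.Agent.Work.MP_6bf1e5_an.HD

open Pool.Agent.Lib.KLA Pool.Agent.Lib.KBlk Pool.Agent.Lib.KRad

open Pool.Agent.Work.MP_6bf1e5_an.H.Ps

theorem jT0 : JobD fT Ah 0 :=
  CvD.job (b := 1) (y := 0) (n := 55) (CvD.step kT_1_0_0 (by decide) (CvD.zero))
    (by decide +kernel)

theorem jT1 : JobD fT Ah 1 :=
  CvD.job (b := 1) (y := 1) (n := 58) (CvD.step kT_1_1_0 (by decide) (CvD.zero))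
    (by decide +kernel)

theorem jT2 : JobD fT Ah 2 :=
  CvD.job (b := 2) (y := 0) (n := 53) (CvD.step kT_2_0_0 (by decide) (CvD.zero))
    (by decide +kernel)

theorem jT3 : JobD fT Ah 3 :=
  CvD.job (b := 2) (y := 1) (n := 56) (CvD.step kT_2_1_0 (by decide) (CvD.zero))
    (by decide +kernel)

theorem jT4 : JobD fT Ah 4 :=
  CvD.job (b := 3) (y := 0) (n := 51) (CvD.step kT_3_0_0 (by decide) (CvD.zero))
    (by decide +kernel)

theorem jT5 : JobD fT Ah 5 :=
  CvD.job (b := 3) (y := 1) (n := 54) (CvD.step kT_3_1_0 (by decide) (CvD.zero))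
    (by decide +kernel)

theorem jT6 : JobD fT Ah 6 :=
  CvD.job (b := 4) (y := 0) (n := 49) (CvD.step kT_4_0_0 (by decide) (CvD.zero))
    (by decide +kernel)

theorem jT7 : JobD fT Ah 7 :=
  CvD.job (b := 4) (y := 1) (n := 52) (CvD.step kT_4_1_0 (by decide) (CvD.zero))
    (by decide +kernel)

theorem jT8 : JobD fT Ah 8 :=
  CvD.job (b := 5) (y := 0) (n := 47) (CvD.step kT_5_0_0 (by decide) (CvD.zero))
    (by decide +kernel)

theorem jT9 : JobD fT Ah 9 :=
  CvD.job (b := 5) (y := 1) (n := 50) (CvD.step kT_5_1_0 (by decide) (CvD.zero))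
    (by decide +kernel)

theorem jT10 : JobD fT Ah 10 :=
  CvD.job (b := 6) (y := 0) (n := 45) (CvD.step kT_6_0_0 (by decide) (CvD.zero))
    (by decide +kernel)

theorem jT11 : JobD fT Ah 11 :=
  CvD.job (b := 6) (y := 1) (n := 48) (CvD.step kT_6_1_0 (by decide) (CvD.zero))
    (by decide +kernel)

theorem jT12 : JobD fT Ah 12 :=
  CvD.job (b := 7) (y := 0) (n := 43) (CvD.step kT_7_0_0 (by decide) (CvD.zero))
    (by decide +kernel)

theorem jT13 : JobD fT Ah 13 :=
  CvD.job (b := 7) (y := 1) (n := 46) (CvD.step kT_7_1_0 (by decide) (CvD.zero))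
    (by decide +kernel)

theorem jT14 : JobD fT Ah 14 :=
  CvD.job (b := 8) (y := 0) (n := 41) (CvD.step kT_8_0_0 (by decide) (CvD.zero))
    (by decide +kernel)

theorem jT15 : JobD fT Ah 15 :=
  CvD.job (b := 8) (y := 1) (n := 44) (CvD.step kT_8_1_0 (by decide) (CvD.zero))
    (by decide +kernel)

theorem jT16 : JobD fT Ah 16 :=
  CvD.job (b := 9) (y := 0) (n := 39) (CvD.step kT_9_0_0 (by decide) (CvD.zero))
    (by decide +kernel)

theorem jT17 : JobD fT Ah 17 :=
  CvD.job (b := 9) (y := 1) (n := 42) (CvD.step kT_9_1_0 (by decide) (CvD.zero))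
    (by decide +kernel)

theorem jT18 : JobD fT Ah 18 :=
  CvD.job (b := 10) (y := 0) (n := 37) (CvD.step kT_10_0_0 (by decide) (CvD.zero))
    (by decide +kernel)

theorem jT19 : JobD fT Ah 19 :=
  CvD.job (b := 10) (y := 1) (n := 40) (CvD.step kT_10_1_0 (by decide) (CvD.zero))
    (by decide +kernel)

theorem jT20 : JobD fT Ah 20 :=
  CvD.job (b := 11) (y := 0) (n := 35) (CvD.step kT_11_0_0 (by decide) (CvD.zero))
    (by decide +kernel)

theorem jT21 : JobD fT Ah 21 :=
  CvD.job (b := 11) (y := 1) (n := 38) (CvD.step kT_11_1_0 (by decide) (CvD.zero))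
    (by decide +kernel)

theorem jT22 : JobD fT Ah 22 :=
  CvD.job (b := 12) (y := 0) (n := 33) (CvD.step kT_12_0_0 (by decide) (CvD.zero))
    (by decide +kernel)

theorem jT23 : JobD fT Ah 23 :=
  CvD.job (b := 12) (y := 1) (n := 36) (CvD.step kT_12_1_0 (by decide) (CvD.zero))
    (by decide +kernel)

theorem jT24 : JobD fT Ah 24 :=
  CvD.job (b := 13) (y := 0) (n := 31) (CvD.step kT_13_0_0 (by decide) (CvD.zero))
    (by decide +kernel)

theorem jT25 : JobD fT Ah 25 :=
  CvD.job (b := 13) (y := 1) (n := 34) (CvD.step kT_13_1_0 (by decide) (CvD.zero))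
    (by decide +kernel)

theorem jT26 : JobD fT Ah 26 :=
  CvD.job (b := 14) (y := 0) (n := 29) (CvD.step kT_14_0_0 (by decide) (CvD.zero))
    (by decide +kernel)

theorem jT27 : JobD fT Ah 27 :=
  CvD.job (b := 14) (y := 1) (n := 32) (CvD.step kT_14_1_0 (by decide) (CvD.zero))
    (by decide +kernel)

theorem jT28 : JobD fT Ah 28 :=
  CvD.job (b := 15) (y := 0) (n := 27) (CvD.step kT_15_0_0 (by decide) (CvD.zero))
    (by decide +kernel)

theorem jT29 : JobD fT Ah 29 :=
  CvD.job (b := 15) (y := 1) (n := 30) (CvD.step kT_15_1_0 (by decide) (CvD.zero))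
    (by decide +kernel)

theorem jT30 : JobD fT Ah 30 :=
  CvD.job (b := 16) (y := 0) (n := 25) (CvD.step kT_16_0_0 (by decide) (CvD.zero))
    (by decide +kernel)

theorem jT31 : JobD fT Ah 31 :=
  CvD.job (b := 16) (y := 1) (n := 28) (CvD.step kT_16_1_0 (by decide) (CvD.zero))
    (by decide +kernel)

theorem jT32 : JobD fT Ah 32 :=
  CvD.job (b := 17) (y := 0) (n := 23) (CvD.step kT_17_0_0 (by decide) (CvD.zero))
    (by decide +kernel)

theorem jT33 : JobD fT Ah 33 :=
  CvD.job (b := 17) (y := 1) (n := 26) (CvD.step kT_17_1_0 (by decide) (CvD.zero))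
    (by decide +kernel)

theorem jT34 : JobD fT Ah 34 :=
  CvD.job (b := 18) (y := 0) (n := 21) (CvD.step kT_18_0_0 (by decide) (CvD.zero))
    (by decide +kernel)

theorem jT35 : JobD fT Ah 35 :=
  CvD.job (b := 18) (y := 1) (n := 24) (CvD.step kT_18_1_0 (by decide) (CvD.zero))
    (by decide +kernel)

theorem jT36 : JobD fT Ah 36 :=
  CvD.job (b := 19) (y := 0) (n := 19) (CvD.step kT_19_0_0 (by decide) (CvD.zero))
    (by decide +kernel)

theorem jT37 : JobD fT Ah 37 :=
  CvD.job (b := 19) (y := 1) (n := 22) (CvD.step kT_19_1_0 (by decide) (CvD.zero))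
    (by decide +kernel)

theorem jT38 : JobD fT Ah 38 :=
  CvD.job (b := 20) (y := 0) (n := 17) (CvD.step kT_20_0_0 (by decide) (CvD.zero))
    (by decide +kernel)

theorem jT39 : JobD fT Ah 39 :=
  CvD.job (b := 20) (y := 1) (n := 20) (CvD.step kT_20_1_0 (by decide) (CvD.zero))
    (by decide +kernel)

theorem jT40 : JobD fT Ah 40 :=
  CvD.job (b := 21) (y := 0) (n := 15) (CvD.step kT_21_0_0 (by decide) (CvD.zero))
    (by decide +kernel)

theorem jT41 : JobD fT Ah 41 :=
  CvD.job (b := 21) (y := 1) (n := 18) (CvD.step kT_21_1_0 (by decide) (CvD.zero))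
    (by decide +kernel)

theorem jT42 : JobD fT Ah 42 :=
  CvD.job (b := 22) (y := 0) (n := 13) (CvD.step kT_22_0_0 (by decide) (CvD.zero))
    (by decide +kernel)

theorem jT43 : JobD fT Ah 43 :=
  CvD.job (b := 22) (y := 1) (n := 16) (CvD.step kT_22_1_0 (by decide) (CvD.zero))
    (by decide +kernel)

theorem jT44 : JobD fT Ah 44 :=
  CvD.job (b := 23) (y := 0) (n := 11) (CvD.step kT_23_0_0 (by decide) (CvD.zero))
    (by decide +kernel)

theorem jT45 : JobD fT Ah 45 :=
  CvD.job (b := 23) (y := 1) (n := 14) (CvD.step kT_23_1_0 (by decide) (CvD.zero))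
    (by decide +kernel)

theorem jT46 : JobD fT Ah 46 :=
  CvD.job (b := 24) (y := 0) (n := 9) (CvD.step kT_24_0_0 (by decide) (CvD.zero))
    (by decide +kernel)

theorem jT47 : JobD fT Ah 47 :=
  CvD.job (b := 24) (y := 1) (n := 12) (CvD.step kT_24_1_0 (by decide) (CvD.zero))
    (by decide +kernel)

theorem jT48 : JobD fT Ah 48 :=
  CvD.job (b := 25) (y := 0) (n := 7) (CvD.step kT_25_0_0 (by decide) (CvD.zero))
    (by decide +kernel)

theorem jT49 : JobD fT Ah 49 :=
  CvD.job (b := 25) (y := 1) (n := 10) (CvD.step kT_25_1_0 (by decide) (CvD.zero))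
    (by decide +kernel)

theorem jT50 : JobD fT Ah 50 :=
  CvD.job (b := 26) (y := 0) (n := 5) (CvD.step kT_26_0_0 (by decide) (CvD.zero))
    (by decide +kernel)

theorem jT51 : JobD fT Ah 51 :=
  CvD.job (b := 26) (y := 1) (n := 8) (CvD.step kT_26_1_0 (by decide) (CvD.zero))
    (by decide +kernel)

theorem jT52 : JobD fT Ah 52 :=
  CvD.job (b := 27) (y := 0) (n := 3) (CvD.step kT_27_0_0 (by decide) (CvD.zero))
    (by decide +kernel)

theorem jT53 : JobD fT Ah 53 :=
  CvD.job (b := 27) (y := 1) (n := 6) (CvD.step kT_27_1_0 (by decide) (CvD.zero))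
    (by decide +kernel)

theorem jT54 : JobD fT Ah 54 :=
  CvD.job (b := 28) (y := 0) (n := 1) (CvD.step kT_28_0_0 (by decide) (CvD.zero))
    (by decide +kernel)

theorem jT55 : JobD fT Ah 55 :=
  CvD.job (b := 28) (y := 1) (n := 4) (CvD.step kT_28_1_0 (by decide) (CvD.zero))
    (by decide +kernel)

theorem jobT : JobG fT Ah := jobG_of (n := 56)
  (AllP.step jT55 (AllP.step jT54 (AllP.step jT53 (AllP.step jT52 (AllP.step jT51 (AllP.step jT50
  (AllP.step jT49 (AllP.step jT48 (AllP.step jT47 (AllP.step jT46 (AllP.step jT45 (AllP.step jT44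
  (AllP.step jT43 (AllP.step jT42 (AllP.step jT41 (AllP.step jT40 (AllP.step jT39 (AllP.step jT38
  (AllP.step jT37 (AllP.step jT36 (AllP.step jT35 (AllP.step jT34 (AllP.step jT33 (AllP.step jT32
  (AllP.step jT31 (AllP.step jT30 (AllP.step jT29 (AllP.step jT28 (AllP.step jT27 (AllP.step jT26
  (AllP.step jT25 (AllP.step jT24 (AllP.step jT23 (AllP.step jT22 (AllP.step jT21 (AllP.step jT20
  (AllP.step jT19 (AllP.step jT18 (AllP.step jT17 (AllP.step jT16 (AllP.step jT15 (AllP.step jT14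
  (AllP.step jT13 (AllP.step jT12 (AllP.step jT11 (AllP.step jT10 (AllP.step jT9 (AllP.step jT8
  (AllP.step jT7 (AllP.step jT6 (AllP.step jT5 (AllP.step jT4 (AllP.step jT3 (AllP.step jT2
  (AllP.step jT1 (AllP.step jT0 (AllP.zero
  _)))))))))))))))))))))))))))))))))))))))))))))))))))))))))
  (by decide +kernel)

end Pool.Agent.Work.MP_6bf1e5_an.HD
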