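import Pool.Agent.Work.MP_6bf1e5_an.HD.FcV

namespace Pool.Agent.Work.MP_6bf1e5_an.HD

open Pool.Agent.Lib.KLA Pool.Agent.Lib.KBlk Pool.Agent.Lib.KRad

def kV_25_1_0 : PLift (fV 25 1 0 66 = true) := ⟨by decide +kernel⟩

def kV_14_1_0 : PLift (fV 14 1 0 59 = true) := ⟨by decide +kernel⟩

def kV_15_0_0 : PLift (fV 15 0 0 57 = true) := ⟨by decide +kernel⟩

def kV_15_1_0 : PLift (fV 15 1 0 56 = true) := ⟨by decide +kernel⟩

def kV_3_1_108 : PLift (fV 3 1 108 55 = true) := ⟨by decide +kernel⟩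

def kV_16_0_0 : PLift (fV 16 0 0 54 = true) := ⟨by decide +kernel⟩

def kV_16_1_0 : PLift (fV 16 1 0 53 = true) := ⟨by decide +kernel⟩

def kV_17_1_50 : PLift (fV 17 1 50 51 = true) := ⟨by decide +kernel⟩

def kV_17_1_0 : PLift (fV 17 1 0 50 = true) := ⟨by decide +kernel⟩

def kV_18_1_0 : PLift (fV 18 1 0 48 = true) := ⟨by decide +kernel⟩

def kV_9_0_0 : PLift (fV 9 0 0 47 = true) := ⟨by decide +kernel⟩

def kV_8_1_46 : PLift (fV 8 1 46 46 = true) := ⟨by decide +kernel⟩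

def kV_10_1_45 : PLift (fV 10 1 45 46 = true) := ⟨by decide +kernel⟩

def kV_10_1_0 : PLift (fV 10 1 0 45 = true) := ⟨by decide +kernel⟩

def kV_21_0_43 : PLift (fV 21 0 43 44 = true) := ⟨by decide +kernel⟩

def kV_23_1_39 : PLift (fV 23 1 39 39 = true) := ⟨by decide +kernel⟩

def kV_31_1_0 : PLift (fV 31 1 0 34 = true) := ⟨by decide +kernel⟩

def kV_36_1_0 : PLift (fV 36 1 0 17 = true) := ⟨by decide +kernel⟩

def kV_4_1_160 : PLift (fV 4 1 160 10 = true) := ⟨by decide +kernel⟩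

def kV_7_1_142 : PLift (fV 7 1 142 9 = true) := ⟨by decide +kernel⟩

def kV_8_0_143 : PLift (fV 8 0 143 7 = true) := ⟨by decide +kernel⟩

def kV_11_0_134 : PLift (fV 11 0 134 6 = true) := ⟨by decide +kernel⟩

def kV_17_1_101 : PLift (fV 17 1 101 5 = true) := ⟨by decide +kernel⟩

def kV_19_0_94 : PLift (fV 19 0 94 4 = true) := ⟨by decide +kernel⟩

def kV_23_0_77 : PLift (fV 23 0 77 3 = true) := ⟨by decide +kernel⟩

def kV_27_0_54 : PLift (fV 27 0 54 2 = true) := ⟨by decide +kernel⟩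

end Pool.Agent.Work.MP_6bf1e5_an.HD
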