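import Pool.Agent.Work.MP_6bf1e5_an.HD.FcV

namespace Pool.Agent.Work.MP_6bf1e5_an.HD

open Pool.Agent.Lib.KLA Pool.Agent.Lib.KBlk Pool.Agent.Lib.KRad

def kV_12_0_0 : PLift (fV 12 0 0 65 = true) := ⟨by decide +kernel⟩

def kV_14_0_60 : PLift (fV 14 0 60 60 = true) := ⟨by decide +kernel⟩

def kV_15_1_56 : PLift (fV 15 1 56 57 = true) := ⟨by decide +kernel⟩

def kV_27_1_0 : PLift (fV 27 1 0 56 = true) := ⟨by decide +kernel⟩

def kV_4_0_108 : PLift (fV 4 0 108 55 = true) := ⟨by decide +kernel⟩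

def kV_16_0_54 : PLift (fV 16 0 54 54 = true) := ⟨by decide +kernel⟩

def kV_5_1_0 : PLift (fV 5 1 0 52 = true) := ⟨by decide +kernel⟩

def kV_5_1_104 : PLift (fV 5 1 104 52 = true) := ⟨by decide +kernel⟩

def kV_7_0_0 : PLift (fV 7 0 0 49 = true) := ⟨by decide +kernel⟩

def kV_18_0_48 : PLift (fV 18 0 48 49 = true) := ⟨by decide +kernel⟩

def kV_9_0_47 : PLift (fV 9 0 47 47 = true) := ⟨by decide +kernel⟩

def kV_9_1_0 : PLift (fV 9 1 0 46 = true) := ⟨by decide +kernel⟩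

def kV_10_1_91 : PLift (fV 10 1 91 46 = true) := ⟨by decide +kernel⟩

def kV_11_0_44 : PLift (fV 11 0 44 45 = true) := ⟨by decide +kernel⟩

def kV_21_1_0 : PLift (fV 21 1 0 44 = true) := ⟨by decide +kernel⟩

def kV_30_1_0 : PLift (fV 30 1 0 39 = true) := ⟨by decide +kernel⟩

def kV_31_0_0 : PLift (fV 31 0 0 31 = true) := ⟨by decide +kernel⟩

def kV_34_1_0 : PLift (fV 34 1 0 20 = true) := ⟨by decide +kernel⟩

def kV_36_0_0 : PLift (fV 36 0 0 11 = true) := ⟨by decide +kernel⟩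

def kV_5_0_160 : PLift (fV 5 0 160 8 = true) := ⟨by decide +kernel⟩

def kV_38_0_0 : PLift (fV 38 0 0 8 = true) := ⟨by decide +kernel⟩

def kV_12_0_130 : PLift (fV 12 0 130 5 = true) := ⟨by decide +kernel⟩

def kV_13_0_125 : PLift (fV 13 0 125 5 = true) := ⟨by decide +kernel⟩

def kV_16_0_108 : PLift (fV 16 0 108 4 = true) := ⟨by decide +kernel⟩

def kV_25_1_66 : PLift (fV 25 1 66 4 = true) := ⟨by decide +kernel⟩

end Pool.Agent.Work.MP_6bf1e5_an.HD
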