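import Pool.Agent.Work.MP_6bf1e5_an.HD.FcV

namespace Pool.Agent.Work.MP_6bf1e5_an.HD

open Pool.Agent.Lib.KLA Pool.Agent.Lib.KBlk Pool.Agent.Lib.KRad

def kV_12_0_65 : PLift (fV 12 0 65 65 = true) := ⟨by decide +kernel⟩

def kV_14_1_59 : PLift (fV 14 1 59 60 = true) := ⟨by decide +kernel⟩

def kV_0_1_0 : PLift (fV 0 1 0 56 = true) := ⟨by decide +kernel⟩

def kV_2_0_55 : PLift (fV 2 0 55 56 = true) := ⟨by decide +kernel⟩

def kV_1_1_110 : PLift (fV 1 1 110 55 = true) := ⟨by decide +kernel⟩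

def kV_3_1_0 : PLift (fV 3 1 0 54 = true) := ⟨by decide +kernel⟩

def kV_16_1_53 : PLift (fV 16 1 53 54 = true) := ⟨by decide +kernel⟩

def kV_17_0_0 : PLift (fV 17 0 0 51 = true) := ⟨by decide +kernel⟩

def kV_6_1_50 : PLift (fV 6 1 50 50 = true) := ⟨by decide +kernel⟩

def kV_8_0_47 : PLift (fV 8 0 47 48 = true) := ⟨by decide +kernel⟩

def kV_7_1_47 : PLift (fV 7 1 47 47 = true) := ⟨by decide +kernel⟩

def kV_19_0_0 : PLift (fV 19 0 0 47 = true) := ⟨by decide +kernel⟩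

def kV_20_0_46 : PLift (fV 20 0 46 46 = true) := ⟨by decide +kernel⟩

def kV_29_1_0 : PLift (fV 29 1 0 45 = true) := ⟨by decide +kernel⟩

def kV_22_1_41 : PLift (fV 22 1 41 42 = true) := ⟨by decide +kernel⟩

def kV_22_1_0 : PLift (fV 22 1 0 41 = true) := ⟨by decide +kernel⟩

def kV_32_0_0 : PLift (fV 32 0 0 25 = true) := ⟨by decide +kernel⟩

def kV_33_1_0 : PLift (fV 33 1 0 23 = true) := ⟨by decide +kernel⟩

def kV_35_0_0 : PLift (fV 35 0 0 13 = true) := ⟨by decide +kernel⟩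

def kV_8_1_139 : PLift (fV 8 1 139 8 = true) := ⟨by decide +kernel⟩

def kV_10_1_137 : PLift (fV 10 1 137 7 = true) := ⟨by decide +kernel⟩

def kV_13_1_124 : PLift (fV 13 1 124 6 = true) := ⟨by decide +kernel⟩

def kV_18_1_97 : PLift (fV 18 1 97 5 = true) := ⟨by decide +kernel⟩

def kV_20_0_92 : PLift (fV 20 0 92 4 = true) := ⟨by decide +kernel⟩

def kV_24_0_71 : PLift (fV 24 0 71 3 = true) := ⟨by decide +kernel⟩

def kV_28_0_48 : PLift (fV 28 0 48 1 = true) := ⟨by decide +kernel⟩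

end Pool.Agent.Work.MP_6bf1e5_an.HD
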