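import Pool.Agent.Work.MP_6bf1e5_an.HD.FcV

namespace Pool.Agent.Work.MP_6bf1e5_an.HD

open Pool.Agent.Lib.KLA Pool.Agent.Lib.KBlk Pool.Agent.Lib.KRad

def kV_12_1_64 : PLift (fV 12 1 64 65 = true) := ⟨by decide +kernel⟩

def kV_26_0_0 : PLift (fV 26 0 0 60 = true) := ⟨by decide +kernel⟩

def kV_1_0_0 : PLift (fV 1 0 0 56 = true) := ⟨by decide +kernel⟩

def kV_2_0_111 : PLift (fV 2 0 111 56 = true) := ⟨by decide +kernel⟩

def kV_2_0_0 : PLift (fV 2 0 0 55 = true) := ⟨by decide +kernel⟩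

def kV_3_1_54 : PLift (fV 3 1 54 54 = true) := ⟨by decide +kernel⟩

def kV_27_0_0 : PLift (fV 27 0 0 54 = true) := ⟨by decide +kernel⟩

def kV_17_0_51 : PLift (fV 17 0 51 51 = true) := ⟨by decide +kernel⟩

def kV_6_1_100 : PLift (fV 6 1 100 50 = true) := ⟨by decide +kernel⟩

def kV_8_0_95 : PLift (fV 8 0 95 48 = true) := ⟨by decide +kernel⟩

def kV_8_0_0 : PLift (fV 8 0 0 47 = true) := ⟨by decide +kernel⟩

def kV_19_0_47 : PLift (fV 19 0 47 47 = true) := ⟨by decide +kernel⟩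

def kV_20_1_0 : PLift (fV 20 1 0 46 = true) := ⟨by decide +kernel⟩

def kV_11_0_0 : PLift (fV 11 0 0 44 = true) := ⟨by decide +kernel⟩

def kV_11_1_0 : PLift (fV 11 1 0 44 = true) := ⟨by decide +kernel⟩

def kV_23_0_0 : PLift (fV 23 0 0 38 = true) := ⟨by decide +kernel⟩

def kV_24_1_36 : PLift (fV 24 1 36 36 = true) := ⟨by decide +kernel⟩

def kV_37_1_0 : PLift (fV 37 1 0 15 = true) := ⟨by decide +kernel⟩

def kV_3_1_163 : PLift (fV 3 1 163 11 = true) := ⟨by decide +kernel⟩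

def kV_3_0_166 : PLift (fV 3 0 166 9 = true) := ⟨by decide +kernel⟩

def kV_6_0_154 : PLift (fV 6 0 154 7 = true) := ⟨by decide +kernel⟩

def kV_9_0_141 : PLift (fV 9 0 141 6 = true) := ⟨by decide +kernel⟩

def kV_14_0_120 : PLift (fV 14 0 120 5 = true) := ⟨by decide +kernel⟩

def kV_17_0_102 : PLift (fV 17 0 102 4 = true) := ⟨by decide +kernel⟩

def kV_21_0_87 : PLift (fV 21 0 87 3 = true) := ⟨by decide +kernel⟩

def kV_25_0_65 : PLift (fV 25 0 65 2 = true) := ⟨by decide +kernel⟩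

end Pool.Agent.Work.MP_6bf1e5_an.HD
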