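import Pool.Agent.Work.MP_6bf1e5_an.HD.FcV

namespace Pool.Agent.Work.MP_6bf1e5_an.HD

open Pool.Agent.Lib.KLA Pool.Agent.Lib.KBlk Pool.Agent.Lib.KRad

def kV_25_0_0 : PLift (fV 25 0 0 65 = true) := ⟨by decide +kernel⟩

def kV_26_1_0 : PLift (fV 26 1 0 60 = true) := ⟨by decide +kernel⟩

def kV_1_0_56 : PLift (fV 1 0 56 56 = true) := ⟨by decide +kernel⟩

def kV_2_1_110 : PLift (fV 2 1 110 56 = true) := ⟨by decide +kernel⟩

def kV_2_1_0 : PLift (fV 2 1 0 55 = true) := ⟨by decide +kernel⟩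

def kV_4_0_0 : PLift (fV 4 0 0 54 = true) := ⟨by decide +kernel⟩

def kV_4_1_0 : PLift (fV 4 1 0 53 = true) := ⟨by decide +kernel⟩

def kV_5_1_52 : PLift (fV 5 1 52 52 = true) := ⟨by decide +kernel⟩

def kV_7_0_98 : PLift (fV 7 0 98 50 = true) := ⟨by decide +kernel⟩

def kV_18_0_0 : PLift (fV 18 0 0 48 = true) := ⟨by decide +kernel⟩

def kV_8_1_92 : PLift (fV 8 1 92 47 = true) := ⟨by decide +kernel⟩

def kV_8_1_0 : PLift (fV 8 1 0 46 = true) := ⟨by decide +kernel⟩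

def kV_10_0_92 : PLift (fV 10 0 92 46 = true) := ⟨by decide +kernel⟩

def kV_20_1_46 : PLift (fV 20 1 46 46 = true) := ⟨by decide +kernel⟩

def kV_22_0_0 : PLift (fV 22 0 0 41 = true) := ⟨by decide +kernel⟩

def kV_22_0_41 : PLift (fV 22 0 41 41 = true) := ⟨by decide +kernel⟩

def kV_32_1_0 : PLift (fV 32 1 0 28 = true) := ⟨by decide +kernel⟩

def kV_33_0_0 : PLift (fV 33 0 0 20 = true) := ⟨by decide +kernel⟩

def kV_1_1_165 : PLift (fV 1 1 165 13 = true) := ⟨by decide +kernel⟩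

def kV_37_0_0 : PLift (fV 37 0 0 9 = true) := ⟨by decide +kernel⟩

def kV_11_1_134 : PLift (fV 11 1 134 7 = true) := ⟨by decide +kernel⟩

def kV_14_1_119 : PLift (fV 14 1 119 6 = true) := ⟨by decide +kernel⟩

def kV_19_1_92 : PLift (fV 19 1 92 5 = true) := ⟨by decide +kernel⟩

def kV_22_1_83 : PLift (fV 22 1 83 4 = true) := ⟨by decide +kernel⟩

def kV_26_1_60 : PLift (fV 26 1 60 3 = true) := ⟨by decide +kernel⟩

end Pool.Agent.Work.MP_6bf1e5_an.HD
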