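import Pool.Agent.Work.MP_6bf1e5_an.HD.FcV

namespace Pool.Agent.Work.MP_6bf1e5_an.HD

open Pool.Agent.Lib.KLA Pool.Agent.Lib.KBlk Pool.Agent.Lib.KRad

def kV_12_1_0 : PLift (fV 12 1 0 64 = true) := ⟨by decide +kernel⟩

def kV_14_0_0 : PLift (fV 14 0 0 60 = true) := ⟨by decide +kernel⟩

def kV_0_0_0 : PLift (fV 0 0 0 58 = true) := ⟨by decide +kernel⟩

def kV_1_1_0 : PLift (fV 1 1 0 55 = true) := ⟨by decide +kernel⟩

def kV_2_1_55 : PLift (fV 2 1 55 55 = true) := ⟨by decide +kernel⟩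

def kV_4_0_54 : PLift (fV 4 0 54 54 = true) := ⟨by decide +kernel⟩

def kV_4_1_53 : PLift (fV 4 1 53 53 = true) := ⟨by decide +kernel⟩

def kV_6_0_102 : PLift (fV 6 0 102 52 = true) := ⟨by decide +kernel⟩

def kV_7_0_49 : PLift (fV 7 0 49 49 = true) := ⟨by decide +kernel⟩

def kV_18_1_48 : PLift (fV 18 1 48 49 = true) := ⟨by decide +kernel⟩

def kV_9_0_94 : PLift (fV 9 0 94 47 = true) := ⟨by decide +kernel⟩

def kV_10_0_0 : PLift (fV 10 0 0 46 = true) := ⟨by decide +kernel⟩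

def kV_19_1_0 : PLift (fV 19 1 0 46 = true) := ⟨by decide +kernel⟩

def kV_11_0_89 : PLift (fV 11 0 89 45 = true) := ⟨by decide +kernel⟩

def kV_21_1_44 : PLift (fV 21 1 44 44 = true) := ⟨by decide +kernel⟩

def kV_24_0_35 : PLift (fV 24 0 35 36 = true) := ⟨by decide +kernel⟩

def kV_24_1_0 : PLift (fV 24 1 0 36 = true) := ⟨by decide +kernel⟩

def kV_35_1_0 : PLift (fV 35 1 0 18 = true) := ⟨by decide +kernel⟩

def kV_2_0_167 : PLift (fV 2 0 167 10 = true) := ⟨by decide +kernel⟩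

def kV_6_1_150 : PLift (fV 6 1 150 9 = true) := ⟨by decide +kernel⟩

def kV_7_0_148 : PLift (fV 7 0 148 7 = true) := ⟨by decide +kernel⟩

def kV_10_0_138 : PLift (fV 10 0 138 6 = true) := ⟨by decide +kernel⟩

def kV_15_0_115 : PLift (fV 15 0 115 5 = true) := ⟨by decide +kernel⟩

def kV_18_0_97 : PLift (fV 18 0 97 4 = true) := ⟨by decide +kernel⟩

def kV_22_0_82 : PLift (fV 22 0 82 3 = true) := ⟨by decide +kernel⟩

def kV_26_0_60 : PLift (fV 26 0 60 2 = true) := ⟨by decide +kernel⟩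

end Pool.Agent.Work.MP_6bf1e5_an.HD
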