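import Pool.Agent.Work.MP_6bf1e5_an.HD.FcV

namespace Pool.Agent.Work.MP_6bf1e5_an.HD

open Pool.Agent.Lib.KLA Pool.Agent.Lib.KBlk Pool.Agent.Lib.KRad

def kV_13_0_62 : PLift (fV 13 0 62 63 = true) := ⟨by decide +kernel⟩

def kV_13_1_62 : PLift (fV 13 1 62 62 = true) := ⟨by decide +kernel⟩

def kV_1_0_112 : PLift (fV 1 0 112 56 = true) := ⟨by decide +kernel⟩

def kV_3_0_110 : PLift (fV 3 0 110 56 = true) := ⟨by decide +kernel⟩

def kV_3_0_0 : PLift (fV 3 0 0 55 = true) := ⟨by decide +kernel⟩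

def kV_4_1_106 : PLift (fV 4 1 106 54 = true) := ⟨by decide +kernel⟩

def kV_5_0_0 : PLift (fV 5 0 0 53 = true) := ⟨by decide +kernel⟩

def kV_6_0_0 : PLift (fV 6 0 0 51 = true) := ⟨by decide +kernel⟩

def kV_28_1_0 : PLift (fV 28 1 0 51 = true) := ⟨by decide +kernel⟩

def kV_28_0_0 : PLift (fV 28 0 0 48 = true) := ⟨by decide +kernel⟩

def kV_9_1_46 : PLift (fV 9 1 46 47 = true) := ⟨by decide +kernel⟩

def kV_10_0_46 : PLift (fV 10 0 46 46 = true) := ⟨by decide +kernel⟩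

def kV_20_0_0 : PLift (fV 20 0 0 46 = true) := ⟨by decide +kernel⟩

def kV_11_1_89 : PLift (fV 11 1 89 45 = true) := ⟨by decide +kernel⟩

def kV_29_0_0 : PLift (fV 29 0 0 43 = true) := ⟨by decide +kernel⟩

def kV_23_1_0 : PLift (fV 23 1 0 39 = true) := ⟨by decide +kernel⟩

def kV_24_0_0 : PLift (fV 24 0 0 35 = true) := ⟨by decide +kernel⟩

def kV_34_0_0 : PLift (fV 34 0 0 15 = true) := ⟨by decide +kernel⟩

def kV_1_0_168 : PLift (fV 1 0 168 11 = true) := ⟨by decide +kernel⟩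

def kV_5_1_156 : PLift (fV 5 1 156 10 = true) := ⟨by decide +kernel⟩

def kV_12_1_129 : PLift (fV 12 1 129 7 = true) := ⟨by decide +kernel⟩

def kV_15_1_113 : PLift (fV 15 1 113 6 = true) := ⟨by decide +kernel⟩

def kV_20_1_92 : PLift (fV 20 1 92 5 = true) := ⟨by decide +kernel⟩

def kV_23_1_78 : PLift (fV 23 1 78 4 = true) := ⟨by decide +kernel⟩

def kV_27_1_56 : PLift (fV 27 1 56 3 = true) := ⟨by decide +kernel⟩

end Pool.Agent.Work.MP_6bf1e5_an.HD
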