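import Pool.Agent.Work.MP_6bf1e5_an.HD.FcV

namespace Pool.Agent.Work.MP_6bf1e5_an.HD

open Pool.Agent.Lib.KLA Pool.Agent.Lib.KBlk Pool.Agent.Lib.KRad

def kV_13_0_0 : PLift (fV 13 0 0 62 = true) := ⟨by decide +kernel⟩

def kV_13_1_0 : PLift (fV 13 1 0 62 = true) := ⟨by decide +kernel⟩

def kV_15_0_57 : PLift (fV 15 0 57 58 = true) := ⟨by decide +kernel⟩

def kV_1_1_55 : PLift (fV 1 1 55 55 = true) := ⟨by decide +kernel⟩

def kV_3_0_55 : PLift (fV 3 0 55 55 = true) := ⟨by decide +kernel⟩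

def kV_5_0_106 : PLift (fV 5 0 106 54 = true) := ⟨by decide +kernel⟩

def kV_5_0_53 : PLift (fV 5 0 53 53 = true) := ⟨by decide +kernel⟩

def kV_6_0_51 : PLift (fV 6 0 51 51 = true) := ⟨by decide +kernel⟩

def kV_6_1_0 : PLift (fV 6 1 0 50 = true) := ⟨by decide +kernel⟩

def kV_7_1_94 : PLift (fV 7 1 94 48 = true) := ⟨by decide +kernel⟩

def kV_7_1_0 : PLift (fV 7 1 0 47 = true) := ⟨by decide +kernel⟩

def kV_9_1_93 : PLift (fV 9 1 93 47 = true) := ⟨by decide +kernel⟩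

def kV_19_1_46 : PLift (fV 19 1 46 46 = true) := ⟨by decide +kernel⟩

def kV_11_1_44 : PLift (fV 11 1 44 45 = true) := ⟨by decide +kernel⟩

def kV_21_0_0 : PLift (fV 21 0 0 43 = true) := ⟨by decide +kernel⟩

def kV_23_0_38 : PLift (fV 23 0 38 39 = true) := ⟨by decide +kernel⟩

def kV_30_0_0 : PLift (fV 30 0 0 36 = true) := ⟨by decide +kernel⟩

def kV_38_1_0 : PLift (fV 38 1 0 14 = true) := ⟨by decide +kernel⟩

def kV_2_1_166 : PLift (fV 2 1 166 12 = true) := ⟨by decide +kernel⟩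

def kV_4_0_163 : PLift (fV 4 0 163 8 = true) := ⟨by decide +kernel⟩

def kV_9_1_140 : PLift (fV 9 1 140 8 = true) := ⟨by decide +kernel⟩

def kV_16_1_107 : PLift (fV 16 1 107 6 = true) := ⟨by decide +kernel⟩

def kV_21_1_88 : PLift (fV 21 1 88 5 = true) := ⟨by decide +kernel⟩

def kV_24_1_72 : PLift (fV 24 1 72 4 = true) := ⟨by decide +kernel⟩

def kV_28_1_51 : PLift (fV 28 1 51 3 = true) := ⟨by decide +kernel⟩

end Pool.Agent.Work.MP_6bf1e5_an.HD
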