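import Pool.Agent.Work.MP_6bf1e5_an.H.JobG
import Pool.Agent.Work.MP_6bf1e5_an.HD.KV0
import Pool.Agent.Work.MP_6bf1e5_an.HD.KV1
import Pool.Agent.Work.MP_6bf1e5_an.HD.KV2
import Pool.Agent.Work.MP_6bf1e5_an.HD.KV3
import Pool.Agent.Work.MP_6bf1e5_an.HD.KV4
import Pool.Agent.Work.MP_6bf1e5_an.HD.KV5
import Pool.Agent.Work.MP_6bf1e5_an.HD.KV6
import Pool.Agent.Work.MP_6bf1e5_an.HD.KV7

namespace Pool.Agent.Work.MP_6bf1e5_an.HD

open Pool.Agent.Lib.KLA Pool.Agent.Lib.KBlk Pool.Agent.Lib.KRad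

open Pool.Agent.Work.MP_6bf1e5_an.H.Ps

theorem jV0 : JobD fV At 0 :=
  CvD.job (b := 0) (y := 0) (n := 58) (CvD.step kV_0_0_0 (by decide) (CvD.zero))
    (by decide +kernel)

theorem jV1 : JobD fV At 1 :=
  CvD.job (b := 0) (y := 1) (n := 56) (CvD.step kV_0_1_0 (by decide) (CvD.zero))
    (by decide +kernel)

theorem jV2 : JobD fV At 2 :=
  CvD.job (b := 1) (y := 0) (n := 179) (CvD.step kV_1_0_168 (by decide) (CvD.step kV_1_0_112 (by decide) (CvD.step kV_1_0_56 (by decide) (CvD.step kV_1_0_0 (by decide) (CvD.zero)))))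
    (by decide +kernel)

theorem jV3 : JobD fV At 3 :=
  CvD.job (b := 1) (y := 1) (n := 178) (CvD.step kV_1_1_165 (by decide) (CvD.step kV_1_1_110 (by decide) (CvD.step kV_1_1_55 (by decide) (CvD.step kV_1_1_0 (by decide) (CvD.zero)))))
    (by decide +kernel)

theorem jV4 : JobD fV At 4 :=
  CvD.job (b := 2) (y := 0) (n := 177) (CvD.step kV_2_0_167 (by decide) (CvD.step kV_2_0_111 (by decide) (CvD.step kV_2_0_55 (by decide) (CvD.step kV_2_0_0 (by decide) (CvD.zero)))))
    (by decide +kernel)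

theorem jV5 : JobD fV At 5 :=
  CvD.job (b := 2) (y := 1) (n := 178) (CvD.step kV_2_1_166 (by decide) (CvD.step kV_2_1_110 (by decide) (CvD.step kV_2_1_55 (by decide) (CvD.step kV_2_1_0 (by decide) (CvD.zero)))))
    (by decide +kernel)

theorem jV6 : JobD fV At 6 :=
  CvD.job (b := 3) (y := 0) (n := 175) (CvD.step kV_3_0_166 (by decide) (CvD.step kV_3_0_110 (by decide) (CvD.step kV_3_0_55 (by decide) (CvD.step kV_3_0_0 (by decide) (CvD.zero)))))
    (by decide +kernel)

theorem jV7 : JobD fV At 7 :=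
  CvD.job (b := 3) (y := 1) (n := 174) (CvD.step kV_3_1_163 (by decide) (CvD.step kV_3_1_108 (by decide) (CvD.step kV_3_1_54 (by decide) (CvD.step kV_3_1_0 (by decide) (CvD.zero)))))
    (by decide +kernel)

theorem jV8 : JobD fV At 8 :=
  CvD.job (b := 4) (y := 0) (n := 171) (CvD.step kV_4_0_163 (by decide) (CvD.step kV_4_0_108 (by decide) (CvD.step kV_4_0_54 (by decide) (CvD.step kV_4_0_0 (by decide) (CvD.zero)))))
    (by decide +kernel)

theorem jV9 : JobD fV At 9 :=
  CvD.job (b := 4) (y := 1) (n := 170) (CvD.step kV_4_1_160 (by decide) (CvD.step kV_4_1_106 (by decide) (CvD.step kV_4_1_53 (by decide) (CvD.step kV_4_1_0 (by decide) (CvD.zero)))))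
    (by decide +kernel)

theorem jV10 : JobD fV At 10 :=
  CvD.job (b := 5) (y := 0) (n := 168) (CvD.step kV_5_0_160 (by decide) (CvD.step kV_5_0_106 (by decide) (CvD.step kV_5_0_53 (by decide) (CvD.step kV_5_0_0 (by decide) (CvD.zero)))))
    (by decide +kernel)

theorem jV11 : JobD fV At 11 :=
  CvD.job (b := 5) (y := 1) (n := 166) (CvD.step kV_5_1_156 (by decide) (CvD.step kV_5_1_104 (by decide) (CvD.step kV_5_1_52 (by decide) (CvD.step kV_5_1_0 (by decide) (CvD.zero)))))
    (by decide +kernel)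

theorem jV12 : JobD fV At 12 :=
  CvD.job (b := 6) (y := 0) (n := 161) (CvD.step kV_6_0_154 (by decide) (CvD.step kV_6_0_102 (by decide) (CvD.step kV_6_0_51 (by decide) (CvD.step kV_6_0_0 (by decide) (CvD.zero)))))
    (by decide +kernel)

theorem jV13 : JobD fV At 13 :=
  CvD.job (b := 6) (y := 1) (n := 159) (CvD.step kV_6_1_150 (by decide) (CvD.step kV_6_1_100 (by decide) (CvD.step kV_6_1_50 (by decide) (CvD.step kV_6_1_0 (by decide) (CvD.zero)))))
    (by decide +kernel)

theorem jV14 : JobD fV At 14 :=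
  CvD.job (b := 7) (y := 0) (n := 155) (CvD.step kV_7_0_148 (by decide) (CvD.step kV_7_0_98 (by decide) (CvD.step kV_7_0_49 (by decide) (CvD.step kV_7_0_0 (by decide) (CvD.zero)))))
    (by decide +kernel)

theorem jV15 : JobD fV At 15 :=
  CvD.job (b := 7) (y := 1) (n := 151) (CvD.step kV_7_1_142 (by decide) (CvD.step kV_7_1_94 (by decide) (CvD.step kV_7_1_47 (by decide) (CvD.step kV_7_1_0 (by decide) (CvD.zero)))))
    (by decide +kernel)

theorem jV16 : JobD fV At 16 :=
  CvD.job (b := 8) (y := 0) (n := 150) (CvD.step kV_8_0_143 (by decide) (CvD.step kV_8_0_95 (by decide) (CvD.step kV_8_0_47 (by decide) (CvD.step kV_8_0_0 (by decide) (CvD.zero)))))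
    (by decide +kernel)

theorem jV17 : JobD fV At 17 :=
  CvD.job (b := 8) (y := 1) (n := 147) (CvD.step kV_8_1_139 (by decide) (CvD.step kV_8_1_92 (by decide) (CvD.step kV_8_1_46 (by decide) (CvD.step kV_8_1_0 (by decide) (CvD.zero)))))
    (by decide +kernel)

theorem jV18 : JobD fV At 18 :=
  CvD.job (b := 9) (y := 0) (n := 147) (CvD.step kV_9_0_141 (by decide) (CvD.step kV_9_0_94 (by decide) (CvD.step kV_9_0_47 (by decide) (CvD.step kV_9_0_0 (by decide) (CvD.zero)))))
    (by decide +kernel)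

theorem jV19 : JobD fV At 19 :=
  CvD.job (b := 9) (y := 1) (n := 148) (CvD.step kV_9_1_140 (by decide) (CvD.step kV_9_1_93 (by decide) (CvD.step kV_9_1_46 (by decide) (CvD.step kV_9_1_0 (by decide) (CvD.zero)))))
    (by decide +kernel)

theorem jV20 : JobD fV At 20 :=
  CvD.job (b := 10) (y := 0) (n := 144) (CvD.step kV_10_0_138 (by decide) (CvD.step kV_10_0_92 (by decide) (CvD.step kV_10_0_46 (by decide) (CvD.step kV_10_0_0 (by decide) (CvD.zero)))))
    (by decide +kernel)

theorem jV21 : JobD fV At 21 :=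
  CvD.job (b := 10) (y := 1) (n := 144) (CvD.step kV_10_1_137 (by decide) (CvD.step kV_10_1_91 (by decide) (CvD.step kV_10_1_45 (by decide) (CvD.step kV_10_1_0 (by decide) (CvD.zero)))))
    (by decide +kernel)

theorem jV22 : JobD fV At 22 :=
  CvD.job (b := 11) (y := 0) (n := 140) (CvD.step kV_11_0_134 (by decide) (CvD.step kV_11_0_89 (by decide) (CvD.step kV_11_0_44 (by decide) (CvD.step kV_11_0_0 (by decide) (CvD.zero)))))
    (by decide +kernel)

theorem jV23 : JobD fV At 23 :=
  CvD.job (b := 11) (y := 1) (n := 141) (CvD.step kV_11_1_134 (by decide) (CvD.step kV_11_1_89 (by decide) (CvD.step kV_11_1_44 (by decide) (CvD.step kV_11_1_0 (by decide) (CvD.zero)))))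
    (by decide +kernel)

theorem jV24 : JobD fV At 24 :=
  CvD.job (b := 12) (y := 0) (n := 135) (CvD.step kV_12_0_130 (by decide) (CvD.step kV_12_0_65 (by decide) (CvD.step kV_12_0_0 (by decide) (CvD.zero))))
    (by decide +kernel)

theorem jV25 : JobD fV At 25 :=
  CvD.job (b := 12) (y := 1) (n := 136) (CvD.step kV_12_1_129 (by decide) (CvD.step kV_12_1_64 (by decide) (CvD.step kV_12_1_0 (by decide) (CvD.zero))))
    (by decide +kernel)

theorem jV26 : JobD fV At 26 :=
  CvD.job (b := 13) (y := 0) (n := 130) (CvD.step kV_13_0_125 (by decide) (CvD.step kV_13_0_62 (by decide) (CvD.step kV_13_0_0 (by decide) (CvD.zero))))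
    (by decide +kernel)

theorem jV27 : JobD fV At 27 :=
  CvD.job (b := 13) (y := 1) (n := 130) (CvD.step kV_13_1_124 (by decide) (CvD.step kV_13_1_62 (by decide) (CvD.step kV_13_1_0 (by decide) (CvD.zero))))
    (by decide +kernel)

theorem jV28 : JobD fV At 28 :=
  CvD.job (b := 14) (y := 0) (n := 125) (CvD.step kV_14_0_120 (by decide) (CvD.step kV_14_0_60 (by decide) (CvD.step kV_14_0_0 (by decide) (CvD.zero))))
    (by decide +kernel)

theorem jV29 : JobD fV At 29 :=
  CvD.job (b := 14) (y := 1) (n := 125) (CvD.step kV_14_1_119 (by decide) (CvD.step kV_14_1_59 (by decide) (CvD.step kV_14_1_0 (by decide) (CvD.zero))))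
    (by decide +kernel)

theorem jV30 : JobD fV At 30 :=
  CvD.job (b := 15) (y := 0) (n := 120) (CvD.step kV_15_0_115 (by decide) (CvD.step kV_15_0_57 (by decide) (CvD.step kV_15_0_0 (by decide) (CvD.zero))))
    (by decide +kernel)

theorem jV31 : JobD fV At 31 :=
  CvD.job (b := 15) (y := 1) (n := 119) (CvD.step kV_15_1_113 (by decide) (CvD.step kV_15_1_56 (by decide) (CvD.step kV_15_1_0 (by decide) (CvD.zero))))
    (by decide +kernel)

theorem jV32 : JobD fV At 32 :=
  CvD.job (b := 16) (y := 0) (n := 112) (CvD.step kV_16_0_108 (by decide) (CvD.step kV_16_0_54 (by decide) (CvD.step kV_16_0_0 (by decide) (CvD.zero))))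
    (by decide +kernel)

theorem jV33 : JobD fV At 33 :=
  CvD.job (b := 16) (y := 1) (n := 113) (CvD.step kV_16_1_107 (by decide) (CvD.step kV_16_1_53 (by decide) (CvD.step kV_16_1_0 (by decide) (CvD.zero))))
    (by decide +kernel)

theorem jV34 : JobD fV At 34 :=
  CvD.job (b := 17) (y := 0) (n := 106) (CvD.step kV_17_0_102 (by decide) (CvD.step kV_17_0_51 (by decide) (CvD.step kV_17_0_0 (by decide) (CvD.zero))))
    (by decide +kernel)

theorem jV35 : JobD fV At 35 :=
  CvD.job (b := 17) (y := 1) (n := 106) (CvD.step kV_17_1_101 (by decide) (CvD.step kV_17_1_50 (by decide) (CvD.step kV_17_1_0 (by decide) (CvD.zero))))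
    (by decide +kernel)

theorem jV36 : JobD fV At 36 :=
  CvD.job (b := 18) (y := 0) (n := 101) (CvD.step kV_18_0_97 (by decide) (CvD.step kV_18_0_48 (by decide) (CvD.step kV_18_0_0 (by decide) (CvD.zero))))
    (by decide +kernel)

theorem jV37 : JobD fV At 37 :=
  CvD.job (b := 18) (y := 1) (n := 102) (CvD.step kV_18_1_97 (by decide) (CvD.step kV_18_1_48 (by decide) (CvD.step kV_18_1_0 (by decide) (CvD.zero))))
    (by decide +kernel)

theorem jV38 : JobD fV At 38 :=
  CvD.job (b := 19) (y := 0) (n := 98) (CvD.step kV_19_0_94 (by decide) (CvD.step kV_19_0_47 (by decide) (CvD.step kV_19_0_0 (by decide) (CvD.zero))))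
    (by decide +kernel)

theorem jV39 : JobD fV At 39 :=
  CvD.job (b := 19) (y := 1) (n := 97) (CvD.step kV_19_1_92 (by decide) (CvD.step kV_19_1_46 (by decide) (CvD.step kV_19_1_0 (by decide) (CvD.zero))))
    (by decide +kernel)

theorem jV40 : JobD fV At 40 :=
  CvD.job (b := 20) (y := 0) (n := 96) (CvD.step kV_20_0_92 (by decide) (CvD.step kV_20_0_46 (by decide) (CvD.step kV_20_0_0 (by decide) (CvD.zero))))
    (by decide +kernel)

theorem jV41 : JobD fV At 41 :=
  CvD.job (b := 20) (y := 1) (n := 97) (CvD.step kV_20_1_92 (by decide) (CvD.step kV_20_1_46 (by decide) (CvD.step kV_20_1_0 (by decide) (CvD.zero))))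
    (by decide +kernel)

theorem jV42 : JobD fV At 42 :=
  CvD.job (b := 21) (y := 0) (n := 90) (CvD.step kV_21_0_87 (by decide) (CvD.step kV_21_0_43 (by decide) (CvD.step kV_21_0_0 (by decide) (CvD.zero))))
    (by decide +kernel)

theorem jV43 : JobD fV At 43 :=
  CvD.job (b := 21) (y := 1) (n := 93) (CvD.step kV_21_1_88 (by decide) (CvD.step kV_21_1_44 (by decide) (CvD.step kV_21_1_0 (by decide) (CvD.zero))))
    (by decide +kernel)

theorem jV44 : JobD fV At 44 :=
  CvD.job (b := 22) (y := 0) (n := 85) (CvD.step kV_22_0_82 (by decide) (CvD.step kV_22_0_41 (by decide) (CvD.step kV_22_0_0 (by decide) (CvD.zero))))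
    (by decide +kernel)

theorem jV45 : JobD fV At 45 :=
  CvD.job (b := 22) (y := 1) (n := 87) (CvD.step kV_22_1_83 (by decide) (CvD.step kV_22_1_41 (by decide) (CvD.step kV_22_1_0 (by decide) (CvD.zero))))
    (by decide +kernel)

theorem jV46 : JobD fV At 46 :=
  CvD.job (b := 23) (y := 0) (n := 80) (CvD.step kV_23_0_77 (by decide) (CvD.step kV_23_0_38 (by decide) (CvD.step kV_23_0_0 (by decide) (CvD.zero))))
    (by decide +kernel)

theorem jV47 : JobD fV At 47 :=
  CvD.job (b := 23) (y := 1) (n := 82) (CvD.step kV_23_1_78 (by decide) (CvD.step kV_23_1_39 (by decide) (CvD.step kV_23_1_0 (by decide) (CvD.zero))))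
    (by decide +kernel)

theorem jV48 : JobD fV At 48 :=
  CvD.job (b := 24) (y := 0) (n := 74) (CvD.step kV_24_0_71 (by decide) (CvD.step kV_24_0_35 (by decide) (CvD.step kV_24_0_0 (by decide) (CvD.zero))))
    (by decide +kernel)

theorem jV49 : JobD fV At 49 :=
  CvD.job (b := 24) (y := 1) (n := 76) (CvD.step kV_24_1_72 (by decide) (CvD.step kV_24_1_36 (by decide) (CvD.step kV_24_1_0 (by decide) (CvD.zero))))
    (by decide +kernel)

theorem jV50 : JobD fV At 50 :=
  CvD.job (b := 25) (y := 0) (n := 67) (CvD.step kV_25_0_65 (by decide) (CvD.step kV_25_0_0 (by decide) (CvD.zero)))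
    (by decide +kernel)

theorem jV51 : JobD fV At 51 :=
  CvD.job (b := 25) (y := 1) (n := 70) (CvD.step kV_25_1_66 (by decide) (CvD.step kV_25_1_0 (by decide) (CvD.zero)))
    (by decide +kernel)

theorem jV52 : JobD fV At 52 :=
  CvD.job (b := 26) (y := 0) (n := 62) (CvD.step kV_26_0_60 (by decide) (CvD.step kV_26_0_0 (by decide) (CvD.zero)))
    (by decide +kernel)

theorem jV53 : JobD fV At 53 :=
  CvD.job (b := 26) (y := 1) (n := 63) (CvD.step kV_26_1_60 (by decide) (CvD.step kV_26_1_0 (by decide) (CvD.zero)))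
    (by decide +kernel)

theorem jV54 : JobD fV At 54 :=
  CvD.job (b := 27) (y := 0) (n := 56) (CvD.step kV_27_0_54 (by decide) (CvD.step kV_27_0_0 (by decide) (CvD.zero)))
    (by decide +kernel)

theorem jV55 : JobD fV At 55 :=
  CvD.job (b := 27) (y := 1) (n := 59) (CvD.step kV_27_1_56 (by decide) (CvD.step kV_27_1_0 (by decide) (CvD.zero)))
    (by decide +kernel)

theorem jV56 : JobD fV At 56 :=
  CvD.job (b := 28) (y := 0) (n := 49) (CvD.step kV_28_0_48 (by decide) (CvD.step kV_28_0_0 (by decide) (CvD.zero)))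
    (by decide +kernel)

theorem jV57 : JobD fV At 57 :=
  CvD.job (b := 28) (y := 1) (n := 54) (CvD.step kV_28_1_51 (by decide) (CvD.step kV_28_1_0 (by decide) (CvD.zero)))
    (by decide +kernel)

theorem jV58 : JobD fV At 58 :=
  CvD.job (b := 29) (y := 0) (n := 43) (CvD.step kV_29_0_0 (by decide) (CvD.zero))
    (by decide +kernel)

theorem jV59 : JobD fV At 59 :=
  CvD.job (b := 29) (y := 1) (n := 45) (CvD.step kV_29_1_0 (by decide) (CvD.zero))
    (by decide +kernel)

theorem jV60 : JobD fV At 60 :=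
  CvD.job (b := 30) (y := 0) (n := 36) (CvD.step kV_30_0_0 (by decide) (CvD.zero))
    (by decide +kernel)

theorem jV61 : JobD fV At 61 :=
  CvD.job (b := 30) (y := 1) (n := 39) (CvD.step kV_30_1_0 (by decide) (CvD.zero))
    (by decide +kernel)

theorem jV62 : JobD fV At 62 :=
  CvD.job (b := 31) (y := 0) (n := 31) (CvD.step kV_31_0_0 (by decide) (CvD.zero))
    (by decide +kernel)

theorem jV63 : JobD fV At 63 :=
  CvD.job (b := 31) (y := 1) (n := 34) (CvD.step kV_31_1_0 (by decide) (CvD.zero))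
    (by decide +kernel)

theorem jV64 : JobD fV At 64 :=
  CvD.job (b := 32) (y := 0) (n := 25) (CvD.step kV_32_0_0 (by decide) (CvD.zero))
    (by decide +kernel)

theorem jV65 : JobD fV At 65 :=
  CvD.job (b := 32) (y := 1) (n := 28) (CvD.step kV_32_1_0 (by decide) (CvD.zero))
    (by decide +kernel)

theorem jV66 : JobD fV At 66 :=
  CvD.job (b := 33) (y := 0) (n := 20) (CvD.step kV_33_0_0 (by decide) (CvD.zero))
    (by decide +kernel)

theorem jV67 : JobD fV At 67 :=
  CvD.job (b := 33) (y := 1) (n := 23) (CvD.step kV_33_1_0 (by decide) (CvD.zero))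
    (by decide +kernel)

theorem jV68 : JobD fV At 68 :=
  CvD.job (b := 34) (y := 0) (n := 15) (CvD.step kV_34_0_0 (by decide) (CvD.zero))
    (by decide +kernel)

theorem jV69 : JobD fV At 69 :=
  CvD.job (b := 34) (y := 1) (n := 20) (CvD.step kV_34_1_0 (by decide) (CvD.zero))
    (by decide +kernel)

theorem jV70 : JobD fV At 70 :=
  CvD.job (b := 35) (y := 0) (n := 13) (CvD.step kV_35_0_0 (by decide) (CvD.zero))
    (by decide +kernel)

theorem jV71 : JobD fV At 71 :=
  CvD.job (b := 35) (y := 1) (n := 18) (CvD.step kV_35_1_0 (by decide) (CvD.zero))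
    (by decide +kernel)

theorem jV72 : JobD fV At 72 :=
  CvD.job (b := 36) (y := 0) (n := 11) (CvD.step kV_36_0_0 (by decide) (CvD.zero))
    (by decide +kernel)

theorem jV73 : JobD fV At 73 :=
  CvD.job (b := 36) (y := 1) (n := 17) (CvD.step kV_36_1_0 (by decide) (CvD.zero))
    (by decide +kernel)

theorem jV74 : JobD fV At 74 :=
  CvD.job (b := 37) (y := 0) (n := 9) (CvD.step kV_37_0_0 (by decide) (CvD.zero))
    (by decide +kernel)

theorem jV75 : JobD fV At 75 :=
  CvD.job (b := 37) (y := 1) (n := 15) (CvD.step kV_37_1_0 (by decide) (CvD.zero))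
    (by decide +kernel)

theorem jV76 : JobD fV At 76 :=
  CvD.job (b := 38) (y := 0) (n := 8) (CvD.step kV_38_0_0 (by decide) (CvD.zero))
    (by decide +kernel)

theorem jV77 : JobD fV At 77 :=
  CvD.job (b := 38) (y := 1) (n := 14) (CvD.step kV_38_1_0 (by decide) (CvD.zero))
    (by decide +kernel)

theorem jobV : JobG fV At := jobG_of (n := 78)
  (AllP.step jV77 (AllP.step jV76 (AllP.step jV75 (AllP.step jV74 (AllP.step jV73 (AllP.step jV72
  (AllP.step jV71 (AllP.step jV70 (AllP.step jV69 (AllP.step jV68 (AllP.step jV67 (AllP.step jV66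
  (AllP.step jV65 (AllP.step jV64 (AllP.step jV63 (AllP.step jV62 (AllP.step jV61 (AllP.step jV60
  (AllP.step jV59 (AllP.step jV58 (AllP.step jV57 (AllP.step jV56 (AllP.step jV55 (AllP.step jV54
  (AllP.step jV53 (AllP.step jV52 (AllP.step jV51 (AllP.step jV50 (AllP.step jV49 (AllP.step jV48
  (AllP.step jV47 (AllP.step jV46 (AllP.step jV45 (AllP.step jV44 (AllP.step jV43 (AllP.step jV42
  (AllP.step jV41 (AllP.step jV40 (AllP.step jV39 (AllP.step jV38 (AllP.step jV37 (AllP.step jV36
  (AllP.step jV35 (AllP.step jV34 (AllP.step jV33 (AllP.step jV32 (AllP.step jV31 (AllP.step jV30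
  (AllP.step jV29 (AllP.step jV28 (AllP.step jV27 (AllP.step jV26 (AllP.step jV25 (AllP.step jV24
  (AllP.step jV23 (AllP.step jV22 (AllP.step jV21 (AllP.step jV20 (AllP.step jV19 (AllP.step jV18
  (AllP.step jV17 (AllP.step jV16 (AllP.step jV15 (AllP.step jV14 (AllP.step jV13 (AllP.step jV12
  (AllP.step jV11 (AllP.step jV10 (AllP.step jV9 (AllP.step jV8 (AllP.step jV7 (AllP.step jV6
  (AllP.step jV5 (AllP.step jV4 (AllP.step jV3 (AllP.step jV2 (AllP.step jV1 (AllP.step jV0
  (AllP.zero _)))))))))))))))))))))))))))))))))))))))))))))))))))))))))))))))))))))))))))))))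
  (by decide +kernel)

end Pool.Agent.Work.MP_6bf1e5_an.HD
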