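import Pool.Agent.Work.MP_6bf1e5_an.HD.Cu

namespace Pool.Agent.Work.MP_6bf1e5_an.HD

open Pool.Agent.Lib.KLA Pool.Agent.Lib.KBlk Pool.Agent.Lib.KRad

def kU0 : PLift (allR (uchk pM cU0) 0 36 = true) := ⟨by decide +kernel⟩

def kU1 : PLift (allR (uchk pM cU0) 36 14 = true) := ⟨by decide +kernel⟩

def kU2 : PLift (allR (uchk pM cU0) 50 8 = true) := ⟨by decide +kernel⟩

def kU3 : PLift (allR (uchk pM cU0) 58 6 = true) := ⟨by decide +kernel⟩

def kU4 : PLift (allR (uchk pM cU0) 64 5 = true) := ⟨by decide +kernel⟩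

def kU5 : PLift (allR (uchk pM cU0) 69 4 = true) := ⟨by decide +kernel⟩

def kU6 : PLift (allR (uchk pM cU0) 73 4 = true) := ⟨by decide +kernel⟩

def kU7 : PLift (allR (uchk pM cU0) 77 3 = true) := ⟨by decide +kernel⟩

end Pool.Agent.Work.MP_6bf1e5_an.HD
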