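import Pool.Agent.Work.MP_6bf1e5_an.H.FamT
import Pool.Agent.Work.MP_6bf1e5_an.H.Ins
import Pool.Agent.Work.MP_6bf1e5_an.HD.JM
import Pool.Agent.Work.MP_6bf1e5_an.HD.JT
import Pool.Agent.Work.MP_6bf1e5_an.HD.JV
import Pool.Agent.Work.MP_6bf1e5_an.HD.JS
import Pool.Agent.Work.MP_6bf1e5_an.HD.KU

namespace Pool.Agent.Work.MP_6bf1e5_an.HD

open Pool.Agent.Lib.KLA Pool.Agent.Lib.KBlk Pool.Agent.Lib.KRad

open Polynomial Pool.Agent.Lib Pool.Agent.Work.MP_6bf1e5_an.H Gl Ca Ps Jf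

theorem uAll (k : ℕ) (hk : k < 16 * pM.c) : uchk pM cU0 k = true := by
  have hk : k < 80 := hk
  rcases (show (0 ≤ k ∧ k < 0 + 36) ∨ (36 ≤ k ∧ k < 36 + 14) ∨ (50 ≤ k ∧ k < 50 + 8) ∨ (58 ≤ k ∧ k < 58 + 6) ∨ (64 ≤ k ∧ k < 64 + 5) ∨ (69 ≤ k ∧ k < 69 + 4) ∨ (73 ≤ k ∧ k < 73 + 4) ∨ (77 ≤ k ∧ k < 77 + 3) by omega) with h | h | h | h | h | h | h | h
  exacts [allR_spec kU0.down k h.1 h.2, allR_spec kU1.down k h.1 h.2, allR_spec kU2.down k h.1 h.2, allR_spec kU3.down k h.1 h.2, allR_spec kU4.down k h.1 h.2, allR_spec kU5.down k h.1 h.2, allR_spec kU6.down k h.1 h.2, allR_spec kU7.down k h.1 h.2]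

theorem subM : KRad.Sub pM.V (16 * pM.c) (Nat.shiftLeft 4 pM.su) pM.nU pM.NU pM.eU pM.LU cU0
    (2 ^ pM.su) (1 - X ^ 4) :=
  sub_of (m := 16 * 15) (u := cUv.ent 160 151) (mat_vld (by decide) (by decide) 80 15 cUv) (by decide)
    (by decide) (by decide) uAll

theorem subT : KRad.Sub pT.V (16 * pT.c) (Nat.shiftLeft 4 pT.su) pT.nU pT.NU pT.eU pT.LU cU0
    (2 ^ pT.su) (1 - X ^ 4) := subM

theorem subV : KRad.Sub pV.V (16 * pV.c) (Nat.shiftLeft 4 pV.su) pV.nU pV.NU pV.eU pV.LU cU0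
    (2 ^ pV.su) (1 - X ^ 4) := subM

/-- The entries of the tables of the tests. -/
noncomputable def eV (b c : ℕ) : ℕ → ℕ → ℤ := (Tt b c).ent 192 94

theorem tbM : Tbs pM cU0 Am 80 Rm fun b c => (Tm b c).ent 192 91 :=
  ⟨by decide, subM, fun b c _ => mat_vld (by decide) (by decide) _ 5 (Tm b c)⟩

theorem fmM : Ins.Fm (2 ^ 90) (18 * 2 ^ 89) 76 64 e33
    (fun d => xU (uD (xi0 cMd) d)) Am Rm := fun _ _ h => blk_md tbM jobM h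

theorem tbT : Tbs pT cU0 Ah 80 Ra fun b c => (Ta b c).ent 192 94 :=
  ⟨by decide, subT, fun b c _ => mat_vld (by decide) (by decide) _ 5 (Ta b c)⟩

theorem fmH : Ins.Fm (2 ^ 93) (29 * 2 ^ 95) 80 64 (eth 5)
    (fun d => xT (th0 cTh d)) Ah Ra := fun _ _ h => blk_th tbT jobT h

theorem tbV : Tbs pV cU0 At 80 Rt eV :=
  ⟨by decide, subV, fun b c _ => mat_vld (by decide) (by decide) _ 5 (Tt b c)⟩

theorem fmT : Ins.Fm (2 ^ 93) (20 * 2 ^ 95) 80 64 e68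
    (x0 pV 80 8 At.J (jz As) bq cTh cTe eV) At Rt := fun _ _ h => blk_ts tbV jobV h

end Pool.Agent.Work.MP_6bf1e5_an.HD
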