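import Pool.Agent.Work.MP_6bf1e5_an.H.Top
import Pool.Agent.Work.MP_6bf1e5_an.HD.Fam
import Pool.Agent.Work.MP_6bf1e5_an.HD.Dat

/-! The stored data as one object. -/

namespace Pool.Agent.Work.MP_6bf1e5_an.HD

/-- The data. -/
@[reducible] noncomputable def F0 {n : ℕ} (h : dat.Ok) (a : H.Pz.asz dat As beta n = true) :
    H.Ca.Fd := ⟨dat, As, beta, n, cMd, cTh, cTe, pV, 80, eV, h, a⟩

end Pool.Agent.Work.MP_6bf1e5_an.HD
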