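import Pool.Agent.Work.MP_6bf1e5_an.HD.Cm
import Pool.Agent.Work.MP_6bf1e5_an.HD.Tm

namespace Pool.Agent.Work.MP_6bf1e5_an.HD

open Pool.Agent.Lib.KLA Pool.Agent.Lib.KBlk Pool.Agent.Lib.KRad

noncomputable def fM : Nat → Nat → Nat → Nat → Bool :=
  mdC pM cU0 76 Am.J cMd Rm

end Pool.Agent.Work.MP_6bf1e5_an.HD
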