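import Pool.Agent.Work.MP_6bf1e5_an.HD.Ch
import Pool.Agent.Work.MP_6bf1e5_an.HD.Cs
import Pool.Agent.Work.MP_6bf1e5_an.HD.Lay0

namespace Pool.Agent.Work.MP_6bf1e5_an.HD

open Pool.Agent.Lib.KLA Pool.Agent.Lib.KBlk Pool.Agent.Lib.KRad

noncomputable def fS : Nat → Nat → Nat → Nat → Bool :=
  smC pV cU0 60 64 40 (jz As) cTh cSm cy

end Pool.Agent.Work.MP_6bf1e5_an.HD
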