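import Pool.Agent.Work.MP_6bf1e5_an.HD.Ch
import Pool.Agent.Work.MP_6bf1e5_an.HD.Ct
import Pool.Agent.Work.MP_6bf1e5_an.HD.Tt

namespace Pool.Agent.Work.MP_6bf1e5_an.HD

open Pool.Agent.Lib.KLA Pool.Agent.Lib.KBlk Pool.Agent.Lib.KRad

noncomputable def bq (b c m : Nat) : Nat := beta (As.pos b c m)

noncomputable def fV : Nat → Nat → Nat → Nat → Bool :=
  tsC pV cU0 80 64 8 268435456 At.J (jz As) bq cTh cTe Rt

end Pool.Agent.Work.MP_6bf1e5_an.HD
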