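import Pool.Agent.Work.MP_6bf1e5_an.H.ThGS
import Pool.Agent.Work.MP_6bf1e5_an.HD.CkGG0
import Pool.Agent.Work.MP_6bf1e5_an.HD.CkGC0
import Pool.Agent.Work.MP_6bf1e5_an.HD.CkGC1
import Pool.Agent.Work.MP_6bf1e5_an.HD.CkGC2
import Pool.Agent.Work.MP_6bf1e5_an.HD.CkGC3

namespace Pool.Agent.Work.MP_6bf1e5_an.HD

open Pool.Agent.Lib.KLA Pool.Agent.Lib.KBlk H H.Tg

theorem allG : All fG 56 :=
  All.step kG55.down (All.step kG54.down (All.step kG53.down (All.step kG52.down (All.step
  kG51.down (All.step kG50.down (All.step kG49.down (All.step kG48.down (All.step kG47.down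
  (All.step kG46.down (All.step kG45.down (All.step kG44.down (All.step kG43.down (All.step
  kG42.down (All.step kG41.down (All.step kG40.down (All.step kG39.down (All.step kG38.down
  (All.step kG37.down (All.step kG36.down (All.step kG35.down (All.step kG34.down (All.step
  kG33.down (All.step kG32.down (All.step kG31.down (All.step kG30.down (All.step kG29.down
  (All.step kG28.down (All.step kG27.down (All.step kG26.down (All.step kG25.down (All.step
  kG24.down (All.step kG23.down (All.step kG22.down (All.step kG21.down (All.step kG20.down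
  (All.step kG19.down (All.step kG18.down (All.step kG17.down (All.step kG16.down (All.step
  kG15.down (All.step kG14.down (All.step kG13.down (All.step kG12.down (All.step kG11.down
  (All.step kG10.down (All.step kG9.down (All.step kG8.down (All.step kG7.down (All.step kG6.down
  (All.step kG5.down (All.step kG4.down (All.step kG3.down (All.step kG2.down (All.step kG1.down
  (All.step kG0.down (All.zero _))))))))))))))))))))))))))))))))))))))))))))))))))))))))

theorem allC : All fC 56 :=
  All.step kC55.down (All.step kC54.down (All.step kC53.down (All.step kC52.down (All.step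
  kC51.down (All.step kC50.down (All.step kC49.down (All.step kC48.down (All.step kC47.down
  (All.step kC46.down (All.step kC45.down (All.step kC44.down (All.step kC43.down (All.step
  kC42.down (All.step kC41.down (All.step kC40.down (All.step kC39.down (All.step kC38.down
  (All.step kC37.down (All.step kC36.down (All.step kC35.down (All.step kC34.down (All.step
  kC33.down (All.step kC32.down (All.step kC31.down (All.step kC30.down (All.step kC29.down
  (All.step kC28.down (All.step kC27.down (All.step kC26.down (All.step kC25.down (All.step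
  kC24.down (All.step kC23.down (All.step kC22.down (All.step kC21.down (All.step kC20.down
  (All.step kC19.down (All.step kC18.down (All.step kC17.down (All.step kC16.down (All.step
  kC15.down (All.step kC14.down (All.step kC13.down (All.step kC12.down (All.step kC11.down
  (All.step kC10.down (All.step kC9.down (All.step kC8.down (All.step kC7.down (All.step kC6.down
  (All.step kC5.down (All.step kC4.down (All.step kC3.down (All.step kC2.down (All.step kC1.down
  (All.step kC0.down (All.zero _))))))))))))))))))))))))))))))))))))))))))))))))))))))))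

theorem gam0 {O : Ca.Obj} (hD : O.D = dat) (hθ : O.θ = Jf.th0 cTh) (t : Fin O.L.r → ℝ) :
    nw (Op (-1)) (lc t O.L.θ) ≤ (1 + 1 / 10 ^ 5) * ∑ a, t a ^ 2 := by
  have h := gram_of (A := O.D.Ah) (F := gF) (G := 1000010000) (hD ▸ le_rfl) (hD ▸ allG) t
  rw [show ((1000010000 : ℕ) : ℝ) / 10 ^ 9 = 1 + 1 / 10 ^ 5 by norm_num] at h
  simp only [hθ]
  exact h

theorem hc0 {O : Ca.Obj} (hD : O.D = dat) (hθ : O.θ = Jf.th0 cTh)
    (sy : ∀ i < 2, ∀ b < O.NF, O.D.x (2 + i) (O.D.lo b) = O.D.z i b) :
    ∑ a, nw (Op (-1 / 2)) (curl (O.L.θF a)) + ∑ a, nw (Op (-1 / 2)) (curl (O.L.θZ a))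
      ≤ 2000 ^ 2 :=
  (hc (F := cF) (B := cB) (Cc := 2000) (hD ▸ le_rfl) hθ sy (hD ▸ allC)
    (hD ▸ by decide +kernel)).trans_eq (by norm_num)

end Pool.Agent.Work.MP_6bf1e5_an.HD
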