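import Pool.Agent.Work.MP_6bf1e5_an.HD.JobN
import Pool.Agent.Work.MP_6bf1e5_an.H.PassN

namespace Pool.Agent.Work.MP_6bf1e5_an.HD

open Finset Pool.Agent.Lib Pool.Agent.Lib.KLA Pool.Agent.Lib.KBlk H H.Ps H.Ca

theorem sNF : KRad.sumF (lget bNF) 16 = 213826956 := by decide +kernel

theorem sNK : KRad.sumF (lget bNK) 16 = 3749450762 := by decide +kernel

theorem sNU : KRad.sumF (lget bNU) 14 = 1794584383 := by decide +kernel

theorem tHI : KRad.sumF (lget bHI) 24 = 201490039 := by decide +kernel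

theorem sX1 : KRad.sumF (lget bX1) 8 = 3633126973991202 := by decide +kernel

theorem eN : dat.Ah.N = 1652 := by decide +kernel

variable (h : dat.Ok)

include h

theorem frF0 : ∑ a : Fin dat.Ah.N, ∑ b : Fin dat.Ah.N, dat.f a b ^ 2 ≤ (5713 / 100 : ℝ) ^ 2 :=
  fro_F (g := 2) (P := 8) h (by decide +kernel) (by norm_num) allNF (by decide +kernel)
    (by rw [sNF, show dat.sX = 28 from rfl]; norm_num)

theorem nF0 : Nm (fun a b : Fin dat.Ah.N => dat.f a b) (5713 / 100 : ℝ) := .of_frob (by norm_num) (frF0 h)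

theorem nK0 : Nm (fun (a : Fin dat.Ah.N) (j : Fin dat.Am.N) => dat.k (16 + a) j) (1914 : ℝ) :=
  nK_all (g := 2) (P := 8) h (by decide +kernel) (by norm_num) allNK (by decide +kernel)
    (by norm_num) (by rw [sNK, show dat.sK = 27 from rfl]; norm_num)

theorem nU0 : Nm (fun a b : Fin dat.Ah.N => dat.u (16 + a) b) (169500 : ℝ) :=
  nU_all (g := 2) (P := 7) h (by decide +kernel) (by norm_num) allNU (by decide +kernel)
    (by norm_num) (by rw [sNU, show dat.sU = 30 from rfl]; norm_num)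

theorem frZ0 : ∑ i : Fin 2, ∑ a : Fin dat.Ah.N, dat.z i a ^ 2 ≤ (3479 / 500 : ℝ) ^ 2 :=
  fro_Z h (by decide +kernel) jNZ.down (by decide +kernel)
    (by rw [show dat.sZ = 28 from rfl]; norm_num)

theorem nZ0 : Nm (fun (i : Fin 2) (a : Fin dat.Ah.N) => dat.z i a) (3479 / 500 : ℝ) :=
  .of_frob (by norm_num) (frZ0 h)

theorem z10 : ∀ i < 2, ∑ a ∈ range dat.Ah.N, |dat.z i a| ≤ (1651 / 25 : ℝ) :=
  z1_all h jZ1.down (by decide +kernel) (by rw [eN, show dat.sZ = 28 from rfl]; norm_num)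

theorem x10 : 0 ≤ (4599 / 10 : ℝ) ∧ ∑ j ∈ range dat.Am.N, (∑ h ∈ range (16 * dat.c1), |dat.x h j|
    + (1651 / 25 : ℝ) * ∑ i ∈ range 2, |dat.x i j|) ^ 2 ≤ (4599 / 10 : ℝ) ^ 2 :=
  x1_all h allX1 (by decide +kernel) (by decide +kernel) (by norm_num) (by norm_num)
    (by rw [sX1, show dat.sX = 28 from rfl]; norm_num)

theorem hi0 (sy : ∀ i < 2, ∀ b < dat.Ah.N, dat.x (2 + i) (dat.lo b) = dat.z i b)
    (x : Fin dat.Ah.N → ℝ) : ∑ a : Fin dat.Ah.N, (∑ b : Fin dat.Ah.N, dat.f a b * x b) * x a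
      + 2 * ∑ i : Fin 2, (∑ a : Fin dat.Ah.N, dat.z i a * x a) ^ 2 ≤ (1109 / 20 : ℝ) * ∑ a, x a ^ 2 :=
  hi_all (g := 3) (P := 8) h (by decide +kernel) (by norm_num) allHI (by decide +kernel)
    (by decide +kernel) (by rw [show dat.sZ = 28 from rfl]; norm_num [sHI, Scl.val]) sy
    (by norm_num) (by rw [tHI, show dat.sX = 28 from rfl]; norm_num) x

theorem lo0 (sF : ∀ a < dat.Ah.N, ∀ b < dat.Ah.N, dat.f a b = dat.f b a)
    (x : Fin dat.Ah.N → ℝ) : 0 ≤ (997837 / 1000000 : ℝ) * ∑ a, x a ^ 2 + ∑ a : Fin dat.Ah.N, (∑ b : Fin dat.Ah.N, dat.f a b * x b) * x a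
      + (2 - K0.cz) * ∑ i : Fin 2, (∑ a : Fin dat.Ah.N, dat.z i a * x a) ^ 2 :=
  lo_all (t := 24) (w := 2 ^ 32) (z := 35 / 32) h jobCO (by decide +kernel) (by
    rw [eN, show dat.sX = 28 from rfl, show dat.sZ = 28 from rfl]
    norm_num [sCF, sCZ, sCC, Scl.val, K0]) sF x

end Pool.Agent.Work.MP_6bf1e5_an.HD
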