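import Pool.Agent.Work.MP_6bf1e5_an.HD.CkO
import Pool.Agent.Work.MP_6bf1e5_an.H.PassSem

namespace Pool.Agent.Work.MP_6bf1e5_an.HD

theorem datOk : dat.Ok :=
  H.Ps.Dat.ok_of jOs.down jOX.down jOK.down jOL.down jOT.down jOR.down jOP.down jOU.down jOZ.down

end Pool.Agent.Work.MP_6bf1e5_an.HD
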