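import Pool.Agent.Work.MP_6bf1e5_an.HD.CkP0
import Pool.Agent.Work.MP_6bf1e5_an.HD.CkP1
import Pool.Agent.Work.MP_6bf1e5_an.HD.CkP2
import Pool.Agent.Work.MP_6bf1e5_an.H.PwThF

namespace Pool.Agent.Work.MP_6bf1e5_an.HD

open Finset Pool.Agent.Lib Pool.Agent.Lib.KLA Pool.Agent.Lib.KBlk H H.Ps H.Ca

theorem allPC : All cPC 56 :=
  .step jPC55.down <|
  .step jPC54.down <|
  .step jPC53.down <|
  .step jPC52.down <|
  .step jPC51.down <|
  .step jPC50.down <|
  .step jPC49.down <|
  .step jPC48.down <|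
  .step jPC47.down <|
  .step jPC46.down <|
  .step jPC45.down <|
  .step jPC44.down <|
  .step jPC43.down <|
  .step jPC42.down <|
  .step jPC41.down <|
  .step jPC40.down <|
  .step jPC39.down <|
  .step jPC38.down <|
  .step jPC37.down <|
  .step jPC36.down <|
  .step jPC35.down <|
  .step jPC34.down <|
  .step jPC33.down <|
  .step jPC32.down <|
  .step jPC31.down <|
  .step jPC30.down <|
  .step jPC29.down <|
  .step jPC28.down <|
  .step jPC27.down <|
  .step jPC26.down <|
  .step jPC25.down <|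
  .step jPC24.down <|
  .step jPC23.down <|
  .step jPC22.down <|
  .step jPC21.down <|
  .step jPC20.down <|
  .step jPC19.down <|
  .step jPC18.down <|
  .step jPC17.down <|
  .step jPC16.down <|
  .step jPC15.down <|
  .step jPC14.down <|
  .step jPC13.down <|
  .step jPC12.down <|
  .step jPC11.down <|
  .step jPC10.down <|
  .step jPC9.down <|
  .step jPC8.down <|
  .step jPC7.down <|
  .step jPC6.down <|
  .step jPC5.down <|
  .step jPC4.down <|
  .step jPC3.down <|
  .step jPC2.down <|
  .step jPC1.down <|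
  .step jPC0.down <|
  .zero _

theorem allPX : All cPX 8 :=
  .step jPX7.down <|
  .step jPX6.down <|
  .step jPX5.down <|
  .step jPX4.down <|
  .step jPX3.down <|
  .step jPX2.down <|
  .step jPX1.down <|
  .step jPX0.down <|
  .zero _

theorem sP : KRad.sumF (lget bP) 8 = 50015087409022870 := by decide +kernel

/-- The field `pwθ`. -/
theorem pwθ0 {O : Obj} (hL : O.L.Good) (hD : O.D = dat) (hθ : O.θ = Jf.th0 cTh) (y : R3) :
    ∑ a, dot (curl (O.L.θF a)) (curl (O.L.θF a)) y + ∑ a, dot (curl (O.L.θZ a)) (curl (O.L.θZ a)) y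
      ≤ K0.Cth ^ 2 * Om y ^ 3 :=
  pwθ_fam (P := pT) (n := 64) (r := 80) (U := 16) (d := 16) (e := 125) (q := 86) (z := zP) (x := 33)
    (t := 20) (w := 40) (x' := 31) (t' := 18) (w' := 40) (B' := 11216091686898377) (B := bP) hL hθ
    (by rw [hD]; exact allPC) (by decide +kernel) (by rw [hD]; exact allPX)
    (by rw [hD]; exact jPY.down) (by rw [hD]; decide +kernel) (by rw [hD]; decide +kernel) (by
      rw [hD, show dat.nm = 8 from rfl, sP, show dat.sX = 28 from rfl, show dat.sZ = 28 from rfl]
      norm_num [K0]) y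

end Pool.Agent.Work.MP_6bf1e5_an.HD
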