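import Pool.Agent.Work.MP_6bf1e5_an.HD.JobS
import Pool.Agent.Work.MP_6bf1e5_an.H.PassVy

namespace Pool.Agent.Work.MP_6bf1e5_an.HD

open Finset Pool.Agent.Lib.KBlk H.Pz

theorem zp0 (h : dat.Ok) (k : fZP = true) : ZP dat :=
  zp_all h k (by decide +kernel) (by decide +kernel) (by norm_num [Scl.val, dat])

theorem zt0 (h : dat.Ok) (z : ZP dat) (k : Col fZT dat.At) :
    Spec dat dat.tp (fun _ _ => 0) dat.At.N (8 / 15 / 2 ^ 30 : ℝ) :=
  zt_all (l := 2 ^ 42) h z k (by decide +kernel) (by decide +kernel) (by decide +kernel) (by decide +kernel) (by positivity)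
    (by norm_num [Scl.val, dat]) (by norm_num [Scl.val, dat]) (by norm_num)

theorem zu0 (h : dat.Ok) (z : ZP dat) (k : Col fZU dat.Ah) :
    Spec dat dat.u (fun _ _ => 0) dat.Ah.N (8 / 15 / 2 ^ 30 : ℝ) :=
  zu_all (l := 2 ^ 42) h z k (by decide +kernel) (by decide +kernel) (by decide +kernel) (by decide +kernel) (by positivity)
    (by norm_num [Scl.val, dat]) (by norm_num [Scl.val, dat]) (by norm_num)

theorem zk0 (h : dat.Ok) (z : ZP dat) (k : Col fZK dat.Am) : ∀ i < 2, ∀ j < dat.Am.N,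
    |2 * (5 / 16384 : ℝ) * ∑ a ∈ range dat.Ah.N, dat.z i a * dat.k (16 + a) j + dat.x i j| ≤ (8 / 15 / 2 ^ 28 : ℝ) :=
  zk_all (l := 2 ^ 40) h z k (by decide +kernel) (by decide +kernel) (by decide +kernel) (by decide +kernel) (by positivity)
    (by norm_num [Scl.val, dat]) (by norm_num [Scl.val, dat]) (by norm_num)

theorem zl0 (h : dat.Ok) (z : ZP dat) (k : Col fZL dat.Am) :
    Spec dat dat.la (fun i j => if i < 2 then (795 / 256 : ℝ) * (123 / 16384 : ℝ) * dat.x (2 + i) j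
      + (795 / 256 : ℝ) / (4 * (5 / 16384 : ℝ)) * dat.x i j
      else if i < 4 then -(2 * (795 / 256 : ℝ) * (123 / 16384 : ℝ)) * dat.x i j else 0) dat.Am.N (8 / 15 / 2 ^ 26 : ℝ) :=
  zl_all (l := 2 ^ 38) h z k (by decide +kernel) (by decide +kernel) (by decide +kernel) (by decide +kernel) (by decide +kernel) (by decide +kernel)
    (by decide +kernel) (by positivity) (by norm_num [Scl.val, dat]) (by norm_num [Scl.val, dat])
    (by norm_num [Scl.val, dat]) (by norm_num [Scl.val, dat]) (by norm_num [Scl.val, dat]) (by norm_num)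

theorem s20 (h : dat.Ok) (k : Col fS2 dat.Am) : ∀ j < dat.Am.N,
    (∀ i < 2, dat.x (2 + i) j = sp dat (dat.z i) j) ∧
      ∀ a, dat.Ah.N ≤ a → 16 + a < 16 * dat.c1 → dat.x (16 + a) j = 0 :=
  s2_all h k (by decide +kernel) (by decide +kernel) (by decide +kernel) (by decide +kernel) rfl (by norm_num [Scl.val, dat])
    (by norm_num [Scl.val, dat, Am])

theorem s10 (h : dat.Ok) (k : Job fS1 dat.Ah dat.Am fun _ => dat.Am.b0) :
    (∀ a < dat.Ah.N, ∀ b < dat.Ah.N, dat.f a b = dat.f b a) ∧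
      ∀ a < dat.Ah.N, ∀ j < dat.Am.N, dat.x (16 + a) j = sp dat (dat.f a) j :=
  s1_all h k (by decide +kernel) (by decide +kernel) (by decide +kernel) (by decide +kernel) (by norm_num [Scl.val, dat])
    (by norm_num [Scl.val, dat, Am])

theorem vyOk : VyOk dat pVY (123 / 16384 : ℝ) (4194309 / 4194304 : ℝ) 256 (8 / 15 / 2 ^ 24 : ℝ) (2 ^ 34) (1 / 4 : ℝ) :=
  ⟨by decide +kernel, by decide +kernel, by decide +kernel, by decide +kernel, by decide +kernel,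
    by decide +kernel, by decide +kernel, by decide +kernel, by decide +kernel,
    by decide +kernel, by decide +kernel, by decide +kernel, by decide +kernel, by norm_num,
    by norm_num [Scl.val, dat, pVY], by norm_num [Scl.val, dat, pVY],
    by norm_num [Scl.val, dat, pVY], by norm_num [Scl.val, dat, pVY],
    by norm_num [Scl.val, dat, pVY], by norm_num [Scl.val, dat, pVY],
    by norm_num [VyP.err, pVY]⟩

theorem vy0 (h : dat.Ok) (a : fAS = true) (k1 : Job fS1 dat.Ah dat.Am fun _ => dat.Am.b0)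
    (k2 : Col fS2 dat.Am) (k : Job fVY As dat.Am fun _ => dat.Am.b0) (d : ℕ × ℕ × ℕ)
    (hd : As.Has d.1 d.2.1 ∧ d.2.2 < As.J d.1 d.2.1) (j : ℕ) (hj : j < dat.Am.N) :
    |vyE dat As beta (123 / 16384 : ℝ) (4194309 / 4194304 : ℝ) 256 d j| ≤ (8 / 15 / 2 ^ 24 : ℝ) :=
  vy_all h a vyOk (s10 h k1).1 (s20 h k2) k hd hj

variable (h : dat.Ok)

include h

theorem sF0 : ∀ a < dat.Ah.N, ∀ b < dat.Ah.N, dat.f a b = dat.f b a := (s10 h jobS1).1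

theorem sy10 : ∀ a < dat.Ah.N, ∀ j < dat.Am.N, (∀ b < dat.Ah.N, dat.lo b ≠ j) →
    dat.x (16 + a) j = 0 := sy1_of (s10 h jobS1).2

theorem sy20 : ∀ i < 2, ∀ b < dat.Ah.N, dat.x (2 + i) (dat.lo b) = dat.z i b :=
  (sy23_of h (s20 h colS2)).1

theorem sy30 : ∀ i < 2, ∀ j < dat.Am.N, (∀ b < dat.Ah.N, dat.lo b ≠ j) → dat.x (2 + i) j = 0 :=
  (sy23_of h (s20 h colS2)).2

theorem zt00 : ∀ i < 2, ∀ r < dat.At.N,
    |∑ a ∈ range dat.Ah.N, dat.z i a * dat.tp (16 + a) r - dat.tp i r| ≤ (8 / 15 / 2 ^ 30 : ℝ) :=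
  (zt0 h (zp0 h jZP.down) colZT).zero.1

theorem zt10 : ∀ q < 16 * dat.c1, 2 ≤ q → q < 16 ∨ 16 + dat.Ah.N ≤ q → ∀ r < dat.At.N,
    |dat.tp q r| ≤ (8 / 15 / 2 ^ 30 : ℝ) :=
  (zt0 h (zp0 h jZP.down) colZT).zero.2

theorem zu00 : ∀ i < 2, ∀ r < dat.Ah.N,
    |∑ a ∈ range dat.Ah.N, dat.z i a * dat.u (16 + a) r - dat.u i r| ≤ (8 / 15 / 2 ^ 30 : ℝ) :=
  (zu0 h (zp0 h jZP.down) colZU).zero.1

theorem zu10 : ∀ q < 16 * dat.c1, 2 ≤ q → q < 16 ∨ 16 + dat.Ah.N ≤ q → ∀ r < dat.Ah.N,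
    |dat.u q r| ≤ (8 / 15 / 2 ^ 30 : ℝ) :=
  (zu0 h (zp0 h jZP.down) colZU).zero.2

theorem zk00 : ∀ i < 2, ∀ j < dat.Am.N,
    |2 * (5 / 16384 : ℝ) * ∑ a ∈ range dat.Ah.N, dat.z i a * dat.k (16 + a) j + dat.x i j|
      ≤ (8 / 15 / 2 ^ 28 : ℝ) :=
  zk0 h (zp0 h jZP.down) colZK

theorem zl00 : ∀ i < 2, ∀ j < dat.Am.N, |∑ a ∈ range dat.Ah.N, dat.z i a * dat.la (16 + a) j
    + ((795 / 256 : ℝ) * (123 / 16384 : ℝ) * dat.x (2 + i) j
      + (795 / 256 : ℝ) / (4 * (5 / 16384 : ℝ)) * dat.x i j) - dat.la i j| ≤ (8 / 15 / 2 ^ 26 : ℝ) :=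
  (zl0 h (zp0 h jZP.down) colZL).la.1

theorem zl10 : ∀ i < 2, ∀ j < dat.Am.N,
    |-(2 * (795 / 256 : ℝ) * (123 / 16384 : ℝ)) * dat.x (2 + i) j - dat.la (2 + i) j|
      ≤ (8 / 15 / 2 ^ 26 : ℝ) :=
  (zl0 h (zp0 h jZP.down) colZL).la.2.1

theorem zl20 : ∀ q < 16 * dat.c1, 4 ≤ q → q < 16 ∨ 16 + dat.Ah.N ≤ q → ∀ j < dat.Am.N,
    |dat.la q j| ≤ (8 / 15 / 2 ^ 26 : ℝ) :=
  (zl0 h (zp0 h jZP.down) colZL).la.2.2

theorem vy00 (d : ℕ × ℕ × ℕ) (hd : As.Has d.1 d.2.1 ∧ d.2.2 < As.J d.1 d.2.1) (j : ℕ)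
    (hj : j < dat.Am.N) :
    |vyE dat As beta (123 / 16384 : ℝ) (4194309 / 4194304 : ℝ) 256 d j| ≤ (8 / 15 / 2 ^ 24 : ℝ) :=
  vy0 h jAS.down jobS1 colS2 jobVY d hd j hj

omit h in
theorem nb00 (d : ℕ × ℕ × ℕ) (hd : As.Has d.1 d.2.1 ∧ d.2.2 < As.J d.1 d.2.1) :
    |(256 : ℝ) / beta (As.pos d.1 d.2.1 d.2.2)| ≤ 256 / 523 :=
  (nb_all jAS.down (by norm_num) hd).trans (by norm_num)

end Pool.Agent.Work.MP_6bf1e5_an.HD
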