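import Pool.Agent.Work.MP_6bf1e5_an.H.PassTl
import Pool.Agent.Work.MP_6bf1e5_an.HD.CkQ

open Finset Pool.Agent.Lib.KLA Pool.Agent.Lib.KBlk

namespace Pool.Agent.Work.MP_6bf1e5_an.HD

open H H.Ca H.Ps

noncomputable def qT : TlT :=
  ⟨113558938142 / 10 ^ 10, 952054608563 / 10 ^ 9, 113905676228 / 10 ^ 10, 406441732844 / 10 ^ 12,
    911390591807 / 10 ^ 14, 302858916123 / 10 ^ 12, 952264849481 / 10 ^ 9⟩

theorem subQ : Sub Ab As := fun b y h => by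
  have k : allR (fun b => bnd (Nat.ble (jb b 0) (js b 0)) (Nat.ble (jb b 1) (js b 1))) 1 13
    = true := by decide +kernel
  obtain ⟨h1, h2, h3⟩ := h
  have := allR_spec k b h1 h2
  simp only [bnd_iff, Nat.ble_eq] at this
  refine ⟨⟨h1, h2.trans_le (by decide), h3⟩, ?_⟩
  interval_cases y
  exacts [this.1, this.2]

theorem tlQ {O : Obj} (hD : O.D = dat) (hA : O.As = As) (hβ : ∀ d, In O.As d →
    O.β d = beta (ps O.As d) / 2 ^ 8 ∧ 0 < beta (ps O.As d))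
    (hz : ∀ i < 2, ∑ a ∈ range O.NF, |O.D.z i a| ≤ 70 * 10 ^ 0) : O.Tl qT := by
  obtain ⟨wl, wu⟩ := w_of (k := 80) hβ
  rw [show 80 + 2 * 8 = 96 from rfl] at wl wu
  have cA : All (H.Ps.tailA dat As Ab 3 13 60 40 (Scl.mk 1 20 0x10000000000 false)
    (H.Ps.wLo 96 beta) (lget qU) qA) (2 * 13) := allQA
  have cY : All (H.Ps.tailY dat As 6 32 (Scl.mk 1 0 0x1000000000 false) qZ) 7 := allQY
  have cB : All (H.Ps.tailB dat As 2 70 51 (Scl.mk 1 19 0x8000000000000 false)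
    (H.Ps.wUp 96 beta) q1 q2 q3) 28 := allQB
  have cZ : H.Ps.tailZ dat As 37 (Scl.mk 1 0 0x100000000000 false) (H.Ps.wUp 96 beta)
    0xee10f34ab011320cc 0x4d8829740c54bcf2a14a = true := cQZ.down
  have sA : PrOk dat.V dat.c1 dat.kX dat.kP 60 (Scl.mk 1 20 0x10000000000 false) ∧
      SqOk dat.V dat.At.N 40 (Scl.mk 1 20 0x10000000000 false) := by decide +kernel
  have sY : Scl.Ok (Scl.mk 1 0 0x1000000000 false) dat.V dat.kP ∧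
      SqOk dat.V dat.At.N 32 (Scl.mk 1 0 0x1000000000 false) := by decide +kernel
  have sB : PrOk dat.V dat.c1 dat.kX dat.kU 70 (Scl.mk 1 19 0x8000000000000 false) ∧
      DtOk dat.V dat.Ah.N dat.kX 51 (Scl.mk 1 19 0x8000000000000 false) ∧ 16 * dat.c1 * (2 * dat.kX) ^ 2
        + 2 * (16 * dat.c1) * dat.kX + 2 * dat.kX + 1 < 2 ^ dat.V := by decide +kernel
  have sZ : Scl.Ok (Scl.mk 1 0 0x100000000000 false) dat.V dat.kU ∧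
      DtOk dat.V dat.Ah.N dat.kZ 37 (Scl.mk 1 0 0x100000000000 false) := by decide +kernel
  have e : (dat.sX = 28 ∧ dat.sP = 30 ∧ dat.sU = 30 ∧ dat.sZ = 28) ∧ dat.At.N = 7296 ∧ dat.Ah.N = 1652 ∧
      dat.Ah.nq ≤ dat.Ah.q * dat.nh ∧ 2 * As.nq ≤ 2 * 28 := by decide +kernel
  have u : lsum qA (2 * 13) = 0xb5b1bdb69ff5567d5f40817d0c1826488a10904d ∧
      lsum qZ 7 = 0x3b80dfb48a5c5ac65e ∧
      lsum q1 28 = 0x5b1fe1eae5ec20e96dac8b53c75813eb81a33a ∧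
      lsum q2 28 = 0x680c90be4b36e0e6a0c17b5aec3268a5e3 ∧
      lsum q3 28 = 0x25549f7db5d3b3059212d0316f096ac34 := by decide +kernel
  have sb := subQ
  rw [← hD] at cA cY cB cZ sA sY sB sZ e
  rw [← hA] at cA cY cB cZ e sb
  obtain ⟨⟨e1, e2, e3, e4⟩, e5, e6, e7, e8⟩ := e
  obtain ⟨u1, u2, u3, u4, u5⟩ := u
  obtain ⟨z, b4⟩ := tailZ_all (l := 2 ^ 30) (bz := qT.bz) (b4 := qT.b4) wu (by positivity) e7 cZ sZ
    (by rw [e3]; norm_num [Scl.val]) hz (by rw [e4]; norm_num [qT]) (by norm_num [qT])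
  obtain ⟨b1, b2, b3⟩ := tailB_all (l := 2 ^ 39) (b1 := qT.b1) (b2 := qT.b2) (b3 := qT.b3) wu
    (by positivity) e7 cB e8 sB (by rw [e1, e3]; norm_num [Scl.val]) b4
    (by rw [e1, u4]; norm_num [qT]) (by rw [e1, u5]; norm_num [qT])
    (by rw [e1, u3, Obj.NF, e6]; norm_num [qT])
  exact ⟨tailA_all (l := 2 ^ 38) (σ := 6 / 10 ^ 11) wl (by positivity) sb cA sA (by norm_num)
      (by rw [e1, e2]; norm_num [Scl.val]) b4 (by rw [u1, Obj.Nt, e5]; norm_num [qT]),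
    tailY_all (l := 2 ^ 30) (σ := 4 / 10 ^ 9) cY sY (by norm_num) (by rw [e2]; norm_num [Scl.val])
      (by rw [u2, Obj.Nt, e5]; norm_num [qT]), b1, b2, b3, b4, z⟩

/-- Bounds for the parameters. -/
noncomputable def tQ (t : HatT) : HatT :=
  { t with
    eP := 60 / 10 ^ 11, eU := 14 / 10 ^ 10, z1 := 70 * 10 ^ 0, f := 58 * 10 ^ 0, nZ := 74 / 10 ^ 1
    nU := 18 * 10 ^ 4, b := 495 / 10 ^ 3 }

/-- The hypothesis `tail` of `Fd.blow`. -/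
theorem tail0 {O : Obj} (hD : O.D = dat) (hA : O.As = As) (hβ : ∀ d, In O.As d →
    O.β d = beta (ps O.As d) / 2 ^ 8 ∧ 0 < beta (ps O.As d))
    (hμ : O.μ = 123 / 2 ^ 14 ∧ O.μ' = 5 / 2 ^ 14) {g τ : ℝ} {mv mu : Sc}
    (h : O.Ok mv mu g τ) {t : HatT} (p : O.Rs t)
    (hF : ∑ a : Fin O.NF, ∑ b : Fin O.NF, O.D.f a b ^ 2 ≤ t.f ^ 2)
    (hZ : ∑ i : Fin 2, ∑ a : Fin O.NF, O.D.z i a ^ 2 ≤ t.nZ ^ 2)
    (hg : 0 ≤ g ∧ g ≤ 1 + 100 / 10 ^ 9) (hτ : 0 ≤ τ ∧ τ ≤ 31 / 10 ^ 18)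
    (k : (0 ≤ t.eP ∧ t.eP ≤ 60 / 10 ^ 11) ∧ (0 ≤ t.eU ∧ t.eU ≤ 14 / 10 ^ 10) ∧ (0 ≤ t.z1 ∧ t.z1 ≤ 70 * 10 ^ 0) ∧
      (0 ≤ t.f ∧ t.f ≤ 58 * 10 ^ 0) ∧ (0 ≤ t.nZ ∧ t.nZ ≤ 74 / 10 ^ 1) ∧ (0 ≤ t.nU ∧ t.nU ≤ 18 * 10 ^ 4) ∧
      0 ≤ t.b ∧ t.b ≤ 495 / 10 ^ 3) (w : Vc) (hw : Adm w) (hp : ∀ i, Perp (9 / 4) (O.n + 1) (w i)) :
    -(1890 / 10 ^ 4 * (nw mv (curl w) + nw mu w)) ≤ O.T.FF w := by
  obtain ⟨k1, k2, k3, k4, k5, k6, k7⟩ := k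
  have e : dat.At.N = 7296 ∧ 16 * dat.c1 = 1680 := by decide +kernel
  rw [← hD] at e
  refine h.tail p (tlQ hD hA hβ fun i hi => (p.z1 i hi).trans k3.2) hF hZ
    (m := 1680) (s := 8 / 10 ^ 4) (σ := 4 / 10 ^ 7) (ρ := 1 - 2 * (100 / 10 ^ 9)) (l1 := 113558847881 / 10 ^ 10)
    (l2 := 952054161538 / 10 ^ 9) (v1 := 186383 / 10 ^ 6) (v2 := 315829 / 10 ^ 6) (by rw [e.2]; norm_num)
    (TlT.Ok.mono (t' := tQ t) (g' := 1 + 100 / 10 ^ 9) (τ' := 31 / 10 ^ 18) ?_ (by norm_num [qT]) hg hτ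
      k1 k2 k3 k4 k5 k6 k7) w hw hp
  rw [Obj.Nt, e.1, hμ.1, hμ.2]
  norm_num [TlT.Ok, qT, tQ]

end Pool.Agent.Work.MP_6bf1e5_an.HD
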