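import Pool.Agent.Work.MP_6bf1e5_an.HD.CfTP
import Pool.Agent.Work.MP_6bf1e5_an.HD.CfT0
import Pool.Agent.Work.MP_6bf1e5_an.HD.CfGT
import Pool.Agent.Work.MP_6bf1e5_an.HD.CfPP
import Pool.Agent.Work.MP_6bf1e5_an.HD.CfKK
import Pool.Agent.Work.MP_6bf1e5_an.HD.CfLL
import Pool.Agent.Work.MP_6bf1e5_an.HD.CfMM
import Pool.Agent.Work.MP_6bf1e5_an.HD.Dat
import Pool.Agent.Work.MP_6bf1e5_an.H.Ins
import Pool.Agent.Work.MP_6bf1e5_an.H.JetFam

/-! The results of the passes with tiles. -/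

open Finset Pool.Agent.Lib.KLA Pool.Agent.Lib.KBlk

namespace Pool.Agent.Work.MP_6bf1e5_an.HD

open H H.Gl H.Ca H.Ps H.Ins H.Jf H.Lt.Dat H.Fs

variable {xm xh xt : ℕ × ℕ × ℕ → V6} {f : ℕ × ℕ × ℕ → ℕ × ℕ × ℕ → ℝ}

theorem tilTP (hM : Mos 0 78 (2 ^ 82) 3 2835 MoTP)
    (hh : Fm (2 ^ 93) (29 * 2 ^ 95) 80 64 (eth 5) xh Ah Ra)
    (ht : Fm (2 ^ 93) (20 * 2 ^ 95) 80 64 e68 xt At Rt) :
    Til pTP Ang.T0 Ang.T1 Ang.dg MoTP Ra Rt Ah At (Fs.sets 0).1 xh xt
      (2 ^ 142) (114643151158140496497858096136192 : ℕ) :=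
  til ⟨19807040628566084398385987584, 1148808356456832895106387279872,
    792281625142643375935439503360, 3, 104, 143, 113296272395398002758767848980480, 80⟩
    hM hh ht (by constructor <;> decide +kernel) (by decide +kernel) (by decide +kernel) (by decide +kernel)

theorem tp0 (h : dat.Ok) (hM : Mos 0 78 (2 ^ 82) 3 2835 MoTP)
    (hh : Fm (2 ^ 93) (29 * 2 ^ 95) 80 64 (eth 5) xh Ah Ra)
    (ht : Fm (2 ^ 93) (20 * 2 ^ 95) 80 64 e68 xt At Rt)
    (k : Job fTP Ah At fun _ => At.b0) : ∀ a < dat.Ah.N, ∀ r < dat.At.N,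
    |pr6 (sets 0).1 (xh (dat.Ah.mem a)) (xt (dat.At.mem r))
      - dat.tp (16 + a) r| ≤ (143 / 2 ^ 38 : ℝ) := fun _ ha _ hr =>
  tp_all (lam := 2 ^ 44) h (tilTP hM hh ht) k (by decide +kernel) (by decide +kernel) (by decide +kernel)
    (by decide +kernel) (by decide +kernel) (by decide +kernel) (by positivity) (by norm_num [Scl.val, dat])
    (by norm_num [Scl.val, dat]) (by norm_num) ha hr

theorem tilT0 (hM : Mos 1 72 (2 ^ 78) 3 1534 MoT0)
    (hm : Fm (2 ^ 90) (18 * 2 ^ 89) 76 64 e33 xm Am Rm)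
    (ht : Fm (2 ^ 93) (20 * 2 ^ 95) 80 64 e68 xt At Rt) :
    Til pT0 Ang.T0 Ang.T1 Ang.dg MoT0 Rm Rt Am At (Fs.sets 1).1 xm xt
      (2 ^ 143) (2073242556673269186147858092392448 : ℕ) :=
  til ⟨19807040628566084398385987584, 11141460353568422474092118016,
    792281625142643375935439503360, 3, 394754, 2604, 2063101351871443350935884466749440, 80⟩
    hM hm ht (by constructor <;> decide +kernel) (by decide +kernel) (by decide +kernel) (by decide +kernel)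

theorem t00 (h : dat.Ok) (hM : Mos 1 72 (2 ^ 78) 3 1534 MoT0)
    (hm : Fm (2 ^ 90) (18 * 2 ^ 89) 76 64 e33 xm Am Rm)
    (ht : Fm (2 ^ 93) (20 * 2 ^ 95) 80 64 e68 xt At Rt)
    (k : Job fT0 Am At fun _ => At.b0) : ∀ j < dat.Am.N, ∀ r < dat.At.N,
    |pr6 (sets 1).1 (xm (dat.Am.mem j)) (xt (dat.At.mem r))
      + ∑ i ∈ range (16 * dat.c1), dat.x i j * dat.tp i r - dat.th r j| ≤ (140 / 2 ^ 34 : ℝ) :=
  fun _ hj _ hr => t0_all (lam := 2 ^ 45) h (tilT0 hM hm ht) k (by decide +kernel) (by decide +kernel)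
    (by decide +kernel) (by decide +kernel) (by decide +kernel) (by decide +kernel) (by decide +kernel)
    (by decide +kernel) (by decide +kernel) (by decide +kernel) (by decide +kernel) (by positivity)
    (by norm_num [Scl.val, dat]) (by norm_num [Scl.val, dat]) (by norm_num [Scl.val, dat]) (by norm_num) hj hr

theorem tilGT (hM : Mos 2 75 (2 ^ 79) 3 332 MoGT)
    (ht : Fm (2 ^ 93) (20 * 2 ^ 95) 80 64 e68 xt At Rt) :
    Til pGT Ang.T0 Ang.T1 Ang.dg MoGT Rt Rt At At (Fs.sets 2).1 xt xt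
      (2 ^ 142) (576939479428872906356187046346752 : ℕ) :=
  til ⟨19807040628566084398385987584, 792281625142643375935439503360,
    792281625142643375935439503360, 3, 1550, 728, 576781023103844377680999958446080, 80⟩
    hM ht ht (by constructor <;> decide +kernel) (by decide +kernel) (by decide +kernel) (by decide +kernel)

theorem gt0 (hM : Mos 2 75 (2 ^ 79) 3 332 MoGT)
    (ht : Fm (2 ^ 93) (20 * 2 ^ 95) 80 64 e68 xt At Rt)
    (hx : ∀ d, Pb (xt d false) (xt d true)) (k : JobG fGT At) : ∀ j < dat.At.N,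
    ∑ m ∈ range dat.At.N, |pr6 (oI ov ou) (xt (dat.At.mem j)) (xt (dat.At.mem m))
      - if j = m then 1 else 0| ≤ (61971 / 2 ^ 40 : ℝ) := fun _ hj =>
  gt_all (w := 448) (tilGT hM ht) k (by decide +kernel) (by decide +kernel) (by decide +kernel) (by decide +kernel)
    (by decide +kernel) (by decide +kernel) (by decide +kernel) (by norm_num [Scl.val, dat]) (by positivity) (by norm_num) (ht.off hx) hj

theorem tilPP (hM : Mos 3 76 (2 ^ 83) 3 19398 MoPP)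
    (hh : Fm (2 ^ 93) (29 * 2 ^ 95) 80 64 (eth 5) xh Ah Ra) :
    Til pPP Ang.T0 Ang.T1 Ang.dg MoPP Ra Ra Ah Ah (Fs.sets 3).1 xh xh
      (2 ^ 140) (176203433431723886808041745547264 : ℕ) :=
  til ⟨19807040628566084398385987584, 1148808356456832895106387279872,
    1148808356456832895106387279872, 3, 110, 151, 173470061824981767161064479260672, 80⟩
    hM hh hh (by constructor <;> decide +kernel) (by decide +kernel) (by decide +kernel) (by decide +kernel)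

theorem pp0 (h : dat.Ok) (hM : Mos 3 76 (2 ^ 83) 3 19398 MoPP)
    (hh : Fm (2 ^ 93) (29 * 2 ^ 95) 80 64 (eth 5) xh Ah Ra)
    (k : Job fPP Ah Ah (loP Ah)) (k' : fUP = true) : ∀ a < dat.Ah.N, ∀ b < dat.Ah.N,
    |wo dat.Ah.pan a b * pr6 (sets 3).1 (xh (dat.Ah.mem a))
      (xh (dat.Ah.mem b)) - dat.u (16 + a) b| ≤ (343 / 2 ^ 38 : ℝ) := fun _ ha _ hb =>
  pp_all (w := 2 ^ 41) (w0 := 2 ^ 32) h (by decide +kernel) (tilPP hM hh) k (by decide +kernel)
    (by norm_num [Scl.val, dat]) k' (by decide +kernel) (by norm_num [Scl.val, dat]) ha hb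

theorem tilKK (hM : Mos 4 72 (2 ^ 76) 3 253 MoKK)
    (hh : Fm (2 ^ 93) (29 * 2 ^ 95) 80 64 (eth 5) xh Ah Ra)
    (hm : Fm (2 ^ 90) (18 * 2 ^ 89) 76 64 e33 xm Am Rm) :
    Til pKK Ang.T0 Ang.T1 Ang.dg MoKK Ra Rm Ah Am (Fs.sets 4).1 xh xm
      (2 ^ 142) (1492024756468626005561619672727552 : ℕ) :=
  til ⟨19807040628566084398385987584, 1148808356456832895106387279872,
    11141460353568422474092118016, 3, 12302, 133786, 1490571414862504969118888100888576, 80⟩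
    hM hh hm (by constructor <;> decide +kernel) (by decide +kernel) (by decide +kernel) (by decide +kernel)

theorem kk0 (h : dat.Ok) (hM : Mos 4 72 (2 ^ 76) 3 253 MoKK)
    (hh : Fm (2 ^ 93) (29 * 2 ^ 95) 80 64 (eth 5) xh Ah Ra)
    (hm : Fm (2 ^ 90) (18 * 2 ^ 89) 76 64 e33 xm Am Rm)
    (hB : Blks 96 (2 ^ 47) 40 Ah Am KL f (1 / 2 ^ 36)) (k : Job fKK Ah Am fun _ => Am.b0) :
    ∀ a < dat.Ah.N, ∀ j < dat.Am.N, |pr6 (sets 4).1 (xh (dat.Ah.mem a)) (xm (dat.Am.mem j))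
      + f (dat.Ah.mem a) (dat.Am.mem j) - dat.k (16 + a) j| ≤ (156 / 2 ^ 35 : ℝ) :=
  fun _ ha _ hj => (kk_all (w := 2 ^ 44) h (tilKK hM hh hm) hB k (by decide +kernel)
    (by norm_num [Scl.val, dat]) (by positivity) ha hj).trans (by norm_num)

theorem tilLL (hM : Mos 5 72 (2 ^ 78) 3 2773 MoLL)
    (hh : Fm (2 ^ 93) (29 * 2 ^ 95) 80 64 (eth 5) xh Ah Ra)
    (hm : Fm (2 ^ 90) (18 * 2 ^ 89) 76 64 e33 xm Am Rm) :
    Til pLL Ang.T0 Ang.T1 Ang.dg MoLL Ra Rm Ah Am (Fs.sets 5).1 xh xm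
      (2 ^ 140) (377126053567898246945269203599360 : ℕ) :=
  til ⟨19807040628566084398385987584, 1148808356456832895106387279872,
    11141460353568422474092118016, 3, 3086, 33562, 373929692386463395075479664852992, 80⟩
    hM hh hm (by constructor <;> decide +kernel) (by decide +kernel) (by decide +kernel) (by decide +kernel)

theorem ll0 (h : dat.Ok) (hM : Mos 5 72 (2 ^ 78) 3 2773 MoLL)
    (hh : Fm (2 ^ 93) (29 * 2 ^ 95) 80 64 (eth 5) xh Ah Ra)
    (hm : Fm (2 ^ 90) (18 * 2 ^ 89) 76 64 e33 xm Am Rm)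
    (k : Job fLL Ah Am fun _ => Am.b0) : ∀ a < dat.Ah.N, ∀ j < dat.Am.N,
    |(795 / 256 : ℝ) * dat.k (16 + a) j - (795 / 256 : ℝ) * (123 / 16384 : ℝ) * (if dat.lo a = j then 1 else 0)
      - 2 * pr6 (sets 5).1 (xh (dat.Ah.mem a)) (xm (dat.Am.mem j))
      - ∑ r ∈ range (16 * dat.c1), dat.u r a * dat.x r j - dat.la (16 + a) j| ≤ (146 / 2 ^ 34 : ℝ) :=
  fun _ ha _ hj => (ll_all (w := 2 ^ 41) h (tilLL hM hh hm) k (by decide +kernel)
    (by norm_num [Scl.val, dat]) ha hj).trans (by norm_num)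

theorem tilMM (hM : Mos 6 63 (2 ^ 76) 3 299542 MoMM)
    (hm : Fm (2 ^ 90) (18 * 2 ^ 89) 76 64 e33 xm Am Rm) :
    Til pMM Ang.T0 Ang.T1 Ang.dg MoMM Rm Rm Am Am (Fs.sets 6).1 xm xm
      (2 ^ 137) (3714216258668712146385340391751680 : ℕ) :=
  til ⟨19807040628566084398385987584, 11141460353568422474092118016,
    11141460353568422474092118016, 3, 6297602, 332102, 3700101266340780240490940577349632, 80⟩
    hM hm hm (by constructor <;> decide +kernel) (by decide +kernel) (by decide +kernel) (by decide +kernel)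

theorem mm0 (h : dat.Ok) (hM : Mos 6 63 (2 ^ 76) 3 299542 MoMM)
    (hm : Fm (2 ^ 90) (18 * 2 ^ 89) 76 64 e33 xm Am Rm)
    (hB : Blks 96 (2 ^ 47) 32 Am Am Dt f (1 / 2 ^ 30)) (k : Job fMM Am Am fun b => b) :
    ∀ j < dat.Am.N, ∀ i < dat.Am.N, (dat.Am.mem j).1 ≤ (dat.Am.mem i).1 →
    |pr6 (sets 6).1 (xm (dat.Am.mem j)) (xm (dat.Am.mem i))
      + (795 / 256 : ℝ) * (1 / 64) * f (dat.Am.mem j) (dat.Am.mem i)
      + (4194293 / 4194304 : ℝ) * ∑ r ∈ range dat.At.N, dat.th r j * dat.th r i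
      + (∑ r ∈ range (16 * dat.c1), dat.x r j * dat.la r i
        + ∑ r ∈ range (16 * dat.c1), dat.la r j * dat.x r i) / 2
      - ∑ r ∈ range (16 * dat.cR dat.nm), dat.r r j * dat.r r i - if j = i then (11 / 2048 : ℝ) else 0|
      ≤ (16033 / 2 ^ 36 : ℝ) := fun _ hj _ hi ho => by
  rw [show (11 / 2048 : ℝ) = (2952790016 : ℕ) / 2 ^ 39 by norm_num]
  exact (mm_all (w := 2 ^ 39) h (tilMM hM hm) hB k (by decide +kernel)
    (by norm_num [Scl.val, dat]) (by positivity) hj hi ho).trans (by norm_num)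

end Pool.Agent.Work.MP_6bf1e5_an.HD
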