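import Pool.Agent.Work.MP_6bf1e5_an.H.JobG
import Pool.Agent.Work.MP_6bf1e5_an.HD.CGT0
import Pool.Agent.Work.MP_6bf1e5_an.HD.CGT1

/-! The pass GT. -/

namespace Pool.Agent.Work.MP_6bf1e5_an.HD

open Pool.Agent.Lib.KLA Pool.Agent.Lib.KBlk

theorem bGT_0 : H.Ps.JobD fGT At 0 :=
  H.Ps.CvD.job (b := 0) (y := 0) (n := 58)
    (H.Ps.CvD.step ⟨bnd_l cGT_0.down⟩ rfl H.Ps.CvD.zero)
    (by decide +kernel)

theorem bGT_1 : H.Ps.JobD fGT At 1 :=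
  H.Ps.CvD.job (b := 0) (y := 1) (n := 56)
    (H.Ps.CvD.step ⟨bnd_l (bnd_r cGT_0.down)⟩ rfl H.Ps.CvD.zero)
    (by decide +kernel)

theorem bGT_2 : H.Ps.JobD fGT At 2 :=
  H.Ps.CvD.job (b := 1) (y := 0) (n := 179)
    (H.Ps.CvD.step ⟨cGT_2.down⟩ rfl (H.Ps.CvD.step ⟨cGT_1.down⟩ rfl (H.Ps.CvD.step ⟨(bnd_r (bnd_r cGT_0.down))⟩ rfl H.Ps.CvD.zero)))
    (by decide +kernel)

theorem bGT_3 : H.Ps.JobD fGT At 3 :=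
  H.Ps.CvD.job (b := 1) (y := 1) (n := 178)
    (H.Ps.CvD.step ⟨bnd_l cGT_5.down⟩ rfl (H.Ps.CvD.step ⟨cGT_4.down⟩ rfl (H.Ps.CvD.step ⟨cGT_3.down⟩ rfl H.Ps.CvD.zero)))
    (by decide +kernel)

theorem bGT_4 : H.Ps.JobD fGT At 4 :=
  H.Ps.CvD.job (b := 2) (y := 0) (n := 177)
    (H.Ps.CvD.step ⟨bnd_l cGT_7.down⟩ rfl (H.Ps.CvD.step ⟨cGT_6.down⟩ rfl (H.Ps.CvD.step ⟨(bnd_r cGT_5.down)⟩ rfl H.Ps.CvD.zero)))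
    (by decide +kernel)

theorem bGT_5 : H.Ps.JobD fGT At 5 :=
  H.Ps.CvD.job (b := 2) (y := 1) (n := 178)
    (H.Ps.CvD.step ⟨bnd_l cGT_9.down⟩ rfl (H.Ps.CvD.step ⟨cGT_8.down⟩ rfl (H.Ps.CvD.step ⟨(bnd_r cGT_7.down)⟩ rfl H.Ps.CvD.zero)))
    (by decide +kernel)

theorem bGT_6 : H.Ps.JobD fGT At 6 :=
  H.Ps.CvD.job (b := 3) (y := 0) (n := 175)
    (H.Ps.CvD.step ⟨cGT_11.down⟩ rfl (H.Ps.CvD.step ⟨cGT_10.down⟩ rfl (H.Ps.CvD.step ⟨(bnd_r cGT_9.down)⟩ rfl H.Ps.CvD.zero)))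
    (by decide +kernel)

theorem bGT_7 : H.Ps.JobD fGT At 7 :=
  H.Ps.CvD.job (b := 3) (y := 1) (n := 174)
    (H.Ps.CvD.step ⟨bnd_l cGT_14.down⟩ rfl (H.Ps.CvD.step ⟨cGT_13.down⟩ rfl (H.Ps.CvD.step ⟨cGT_12.down⟩ rfl H.Ps.CvD.zero)))
    (by decide +kernel)

theorem bGT_8 : H.Ps.JobD fGT At 8 :=
  H.Ps.CvD.job (b := 4) (y := 0) (n := 171)
    (H.Ps.CvD.step ⟨bnd_l cGT_16.down⟩ rfl (H.Ps.CvD.step ⟨cGT_15.down⟩ rfl (H.Ps.CvD.step ⟨(bnd_r cGT_14.down)⟩ rfl H.Ps.CvD.zero)))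
    (by decide +kernel)

theorem bGT_9 : H.Ps.JobD fGT At 9 :=
  H.Ps.CvD.job (b := 4) (y := 1) (n := 170)
    (H.Ps.CvD.step ⟨bnd_l cGT_18.down⟩ rfl (H.Ps.CvD.step ⟨cGT_17.down⟩ rfl (H.Ps.CvD.step ⟨(bnd_r cGT_16.down)⟩ rfl H.Ps.CvD.zero)))
    (by decide +kernel)

theorem bGT_10 : H.Ps.JobD fGT At 10 :=
  H.Ps.CvD.job (b := 5) (y := 0) (n := 168)
    (H.Ps.CvD.step ⟨bnd_l cGT_20.down⟩ rfl (H.Ps.CvD.step ⟨cGT_19.down⟩ rfl (H.Ps.CvD.step ⟨(bnd_r cGT_18.down)⟩ rfl H.Ps.CvD.zero)))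
    (by decide +kernel)

theorem bGT_11 : H.Ps.JobD fGT At 11 :=
  H.Ps.CvD.job (b := 5) (y := 1) (n := 166)
    (H.Ps.CvD.step ⟨bnd_l cGT_22.down⟩ rfl (H.Ps.CvD.step ⟨cGT_21.down⟩ rfl (H.Ps.CvD.step ⟨(bnd_r cGT_20.down)⟩ rfl H.Ps.CvD.zero)))
    (by decide +kernel)

theorem bGT_12 : H.Ps.JobD fGT At 12 :=
  H.Ps.CvD.job (b := 6) (y := 0) (n := 161)
    (H.Ps.CvD.step ⟨bnd_l cGT_24.down⟩ rfl (H.Ps.CvD.step ⟨cGT_23.down⟩ rfl (H.Ps.CvD.step ⟨(bnd_r cGT_22.down)⟩ rfl H.Ps.CvD.zero)))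
    (by decide +kernel)

theorem bGT_13 : H.Ps.JobD fGT At 13 :=
  H.Ps.CvD.job (b := 6) (y := 1) (n := 159)
    (H.Ps.CvD.step ⟨bnd_l cGT_26.down⟩ rfl (H.Ps.CvD.step ⟨cGT_25.down⟩ rfl (H.Ps.CvD.step ⟨(bnd_r cGT_24.down)⟩ rfl H.Ps.CvD.zero)))
    (by decide +kernel)

theorem bGT_14 : H.Ps.JobD fGT At 14 :=
  H.Ps.CvD.job (b := 7) (y := 0) (n := 155)
    (H.Ps.CvD.step ⟨cGT_27.down⟩ rfl (H.Ps.CvD.step ⟨(bnd_r cGT_26.down)⟩ rfl H.Ps.CvD.zero))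
    (by decide +kernel)

theorem bGT_15 : H.Ps.JobD fGT At 15 :=
  H.Ps.CvD.job (b := 7) (y := 1) (n := 151)
    (H.Ps.CvD.step ⟨bnd_l cGT_29.down⟩ rfl (H.Ps.CvD.step ⟨cGT_28.down⟩ rfl H.Ps.CvD.zero))
    (by decide +kernel)

theorem bGT_16 : H.Ps.JobD fGT At 16 :=
  H.Ps.CvD.job (b := 8) (y := 0) (n := 150)
    (H.Ps.CvD.step ⟨bnd_l cGT_31.down⟩ rfl (H.Ps.CvD.step ⟨cGT_30.down⟩ rfl (H.Ps.CvD.step ⟨(bnd_r cGT_29.down)⟩ rfl H.Ps.CvD.zero)))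
    (by decide +kernel)

theorem bGT_17 : H.Ps.JobD fGT At 17 :=
  H.Ps.CvD.job (b := 8) (y := 1) (n := 147)
    (H.Ps.CvD.step ⟨cGT_32.down⟩ rfl (H.Ps.CvD.step ⟨(bnd_r cGT_31.down)⟩ rfl H.Ps.CvD.zero))
    (by decide +kernel)

theorem bGT_18 : H.Ps.JobD fGT At 18 :=
  H.Ps.CvD.job (b := 9) (y := 0) (n := 147)
    (H.Ps.CvD.step ⟨bnd_l cGT_34.down⟩ rfl (H.Ps.CvD.step ⟨cGT_33.down⟩ rfl H.Ps.CvD.zero))
    (by decide +kernel)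

theorem bGT_19 : H.Ps.JobD fGT At 19 :=
  H.Ps.CvD.job (b := 9) (y := 1) (n := 148)
    (H.Ps.CvD.step ⟨bnd_l cGT_36.down⟩ rfl (H.Ps.CvD.step ⟨cGT_35.down⟩ rfl (H.Ps.CvD.step ⟨(bnd_r cGT_34.down)⟩ rfl H.Ps.CvD.zero)))
    (by decide +kernel)

theorem bGT_20 : H.Ps.JobD fGT At 20 :=
  H.Ps.CvD.job (b := 10) (y := 0) (n := 144)
    (H.Ps.CvD.step ⟨bnd_l cGT_37.down⟩ rfl (H.Ps.CvD.step ⟨(bnd_r cGT_36.down)⟩ rfl H.Ps.CvD.zero))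
    (by decide +kernel)

theorem bGT_21 : H.Ps.JobD fGT At 21 :=
  H.Ps.CvD.job (b := 10) (y := 1) (n := 144)
    (H.Ps.CvD.step ⟨bnd_l cGT_39.down⟩ rfl (H.Ps.CvD.step ⟨cGT_38.down⟩ rfl (H.Ps.CvD.step ⟨(bnd_r cGT_37.down)⟩ rfl H.Ps.CvD.zero)))
    (by decide +kernel)

theorem bGT_22 : H.Ps.JobD fGT At 22 :=
  H.Ps.CvD.job (b := 11) (y := 0) (n := 140)
    (H.Ps.CvD.step ⟨bnd_l cGT_40.down⟩ rfl (H.Ps.CvD.step ⟨(bnd_r cGT_39.down)⟩ rfl H.Ps.CvD.zero))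
    (by decide +kernel)

theorem bGT_23 : H.Ps.JobD fGT At 23 :=
  H.Ps.CvD.job (b := 11) (y := 1) (n := 141)
    (H.Ps.CvD.step ⟨bnd_l cGT_42.down⟩ rfl (H.Ps.CvD.step ⟨cGT_41.down⟩ rfl (H.Ps.CvD.step ⟨(bnd_r cGT_40.down)⟩ rfl H.Ps.CvD.zero)))
    (by decide +kernel)

theorem bGT_24 : H.Ps.JobD fGT At 24 :=
  H.Ps.CvD.job (b := 12) (y := 0) (n := 135)
    (H.Ps.CvD.step ⟨bnd_l cGT_43.down⟩ rfl (H.Ps.CvD.step ⟨(bnd_r cGT_42.down)⟩ rfl H.Ps.CvD.zero))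
    (by decide +kernel)

theorem bGT_25 : H.Ps.JobD fGT At 25 :=
  H.Ps.CvD.job (b := 12) (y := 1) (n := 136)
    (H.Ps.CvD.step ⟨bnd_l cGT_45.down⟩ rfl (H.Ps.CvD.step ⟨cGT_44.down⟩ rfl (H.Ps.CvD.step ⟨(bnd_r cGT_43.down)⟩ rfl H.Ps.CvD.zero)))
    (by decide +kernel)

theorem bGT_26 : H.Ps.JobD fGT At 26 :=
  H.Ps.CvD.job (b := 13) (y := 0) (n := 130)
    (H.Ps.CvD.step ⟨bnd_l cGT_46.down⟩ rfl (H.Ps.CvD.step ⟨(bnd_r cGT_45.down)⟩ rfl H.Ps.CvD.zero))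
    (by decide +kernel)

theorem bGT_27 : H.Ps.JobD fGT At 27 :=
  H.Ps.CvD.job (b := 13) (y := 1) (n := 130)
    (H.Ps.CvD.step ⟨bnd_l cGT_47.down⟩ rfl (H.Ps.CvD.step ⟨(bnd_r cGT_46.down)⟩ rfl H.Ps.CvD.zero))
    (by decide +kernel)

theorem bGT_28 : H.Ps.JobD fGT At 28 :=
  H.Ps.CvD.job (b := 14) (y := 0) (n := 125)
    (H.Ps.CvD.step ⟨bnd_l cGT_48.down⟩ rfl (H.Ps.CvD.step ⟨(bnd_r cGT_47.down)⟩ rfl H.Ps.CvD.zero))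
    (by decide +kernel)

theorem bGT_29 : H.Ps.JobD fGT At 29 :=
  H.Ps.CvD.job (b := 14) (y := 1) (n := 125)
    (H.Ps.CvD.step ⟨bnd_l cGT_50.down⟩ rfl (H.Ps.CvD.step ⟨cGT_49.down⟩ rfl (H.Ps.CvD.step ⟨(bnd_r cGT_48.down)⟩ rfl H.Ps.CvD.zero)))
    (by decide +kernel)

theorem bGT_30 : H.Ps.JobD fGT At 30 :=
  H.Ps.CvD.job (b := 15) (y := 0) (n := 120)
    (H.Ps.CvD.step ⟨bnd_l cGT_51.down⟩ rfl (H.Ps.CvD.step ⟨(bnd_r cGT_50.down)⟩ rfl H.Ps.CvD.zero))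
    (by decide +kernel)

theorem bGT_31 : H.Ps.JobD fGT At 31 :=
  H.Ps.CvD.job (b := 15) (y := 1) (n := 119)
    (H.Ps.CvD.step ⟨bnd_l cGT_52.down⟩ rfl (H.Ps.CvD.step ⟨(bnd_r cGT_51.down)⟩ rfl H.Ps.CvD.zero))
    (by decide +kernel)

theorem bGT_32 : H.Ps.JobD fGT At 32 :=
  H.Ps.CvD.job (b := 16) (y := 0) (n := 112)
    (H.Ps.CvD.step ⟨bnd_l cGT_53.down⟩ rfl (H.Ps.CvD.step ⟨(bnd_r cGT_52.down)⟩ rfl H.Ps.CvD.zero))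
    (by decide +kernel)

theorem bGT_33 : H.Ps.JobD fGT At 33 :=
  H.Ps.CvD.job (b := 16) (y := 1) (n := 113)
    (H.Ps.CvD.step ⟨bnd_l cGT_54.down⟩ rfl (H.Ps.CvD.step ⟨(bnd_r cGT_53.down)⟩ rfl H.Ps.CvD.zero))
    (by decide +kernel)

theorem bGT_34 : H.Ps.JobD fGT At 34 :=
  H.Ps.CvD.job (b := 17) (y := 0) (n := 106)
    (H.Ps.CvD.step ⟨bnd_l cGT_55.down⟩ rfl (H.Ps.CvD.step ⟨(bnd_r cGT_54.down)⟩ rfl H.Ps.CvD.zero))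
    (by decide +kernel)

theorem bGT_35 : H.Ps.JobD fGT At 35 :=
  H.Ps.CvD.job (b := 17) (y := 1) (n := 106)
    (H.Ps.CvD.step ⟨bnd_l cGT_56.down⟩ rfl (H.Ps.CvD.step ⟨(bnd_r cGT_55.down)⟩ rfl H.Ps.CvD.zero))
    (by decide +kernel)

theorem bGT_36 : H.Ps.JobD fGT At 36 :=
  H.Ps.CvD.job (b := 18) (y := 0) (n := 101)
    (H.Ps.CvD.step ⟨(bnd_r cGT_56.down)⟩ rfl H.Ps.CvD.zero)
    (by decide +kernel)

theorem bGT_37 : H.Ps.JobD fGT At 37 :=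
  H.Ps.CvD.job (b := 18) (y := 1) (n := 102)
    (H.Ps.CvD.step ⟨bnd_l cGT_57.down⟩ rfl H.Ps.CvD.zero)
    (by decide +kernel)

theorem bGT_38 : H.Ps.JobD fGT At 38 :=
  H.Ps.CvD.job (b := 19) (y := 0) (n := 98)
    (H.Ps.CvD.step ⟨bnd_l cGT_58.down⟩ rfl (H.Ps.CvD.step ⟨(bnd_r cGT_57.down)⟩ rfl H.Ps.CvD.zero))
    (by decide +kernel)

theorem bGT_39 : H.Ps.JobD fGT At 39 :=
  H.Ps.CvD.job (b := 19) (y := 1) (n := 97)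
    (H.Ps.CvD.step ⟨bnd_l cGT_59.down⟩ rfl (H.Ps.CvD.step ⟨(bnd_r cGT_58.down)⟩ rfl H.Ps.CvD.zero))
    (by decide +kernel)

theorem bGT_40 : H.Ps.JobD fGT At 40 :=
  H.Ps.CvD.job (b := 20) (y := 0) (n := 96)
    (H.Ps.CvD.step ⟨bnd_l cGT_60.down⟩ rfl (H.Ps.CvD.step ⟨(bnd_r cGT_59.down)⟩ rfl H.Ps.CvD.zero))
    (by decide +kernel)

theorem bGT_41 : H.Ps.JobD fGT At 41 :=
  H.Ps.CvD.job (b := 20) (y := 1) (n := 97)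
    (H.Ps.CvD.step ⟨(bnd_r cGT_60.down)⟩ rfl H.Ps.CvD.zero)
    (by decide +kernel)

theorem bGT_42 : H.Ps.JobD fGT At 42 :=
  H.Ps.CvD.job (b := 21) (y := 0) (n := 90)
    (H.Ps.CvD.step ⟨bnd_l cGT_61.down⟩ rfl H.Ps.CvD.zero)
    (by decide +kernel)

theorem bGT_43 : H.Ps.JobD fGT At 43 :=
  H.Ps.CvD.job (b := 21) (y := 1) (n := 93)
    (H.Ps.CvD.step ⟨bnd_l cGT_62.down⟩ rfl (H.Ps.CvD.step ⟨(bnd_r cGT_61.down)⟩ rfl H.Ps.CvD.zero))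
    (by decide +kernel)

theorem bGT_44 : H.Ps.JobD fGT At 44 :=
  H.Ps.CvD.job (b := 22) (y := 0) (n := 85)
    (H.Ps.CvD.step ⟨bnd_l cGT_63.down⟩ rfl (H.Ps.CvD.step ⟨(bnd_r cGT_62.down)⟩ rfl H.Ps.CvD.zero))
    (by decide +kernel)

theorem bGT_45 : H.Ps.JobD fGT At 45 :=
  H.Ps.CvD.job (b := 22) (y := 1) (n := 87)
    (H.Ps.CvD.step ⟨bnd_l (bnd_r cGT_63.down)⟩ rfl H.Ps.CvD.zero)
    (by decide +kernel)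

theorem bGT_46 : H.Ps.JobD fGT At 46 :=
  H.Ps.CvD.job (b := 23) (y := 0) (n := 80)
    (H.Ps.CvD.step ⟨bnd_l cGT_64.down⟩ rfl (H.Ps.CvD.step ⟨(bnd_r (bnd_r cGT_63.down))⟩ rfl H.Ps.CvD.zero))
    (by decide +kernel)

theorem bGT_47 : H.Ps.JobD fGT At 47 :=
  H.Ps.CvD.job (b := 23) (y := 1) (n := 82)
    (H.Ps.CvD.step ⟨bnd_l (bnd_r cGT_64.down)⟩ rfl H.Ps.CvD.zero)
    (by decide +kernel)

theorem bGT_48 : H.Ps.JobD fGT At 48 :=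
  H.Ps.CvD.job (b := 24) (y := 0) (n := 74)
    (H.Ps.CvD.step ⟨bnd_l cGT_65.down⟩ rfl (H.Ps.CvD.step ⟨(bnd_r (bnd_r cGT_64.down))⟩ rfl H.Ps.CvD.zero))
    (by decide +kernel)

theorem bGT_49 : H.Ps.JobD fGT At 49 :=
  H.Ps.CvD.job (b := 24) (y := 1) (n := 76)
    (H.Ps.CvD.step ⟨bnd_l (bnd_r cGT_65.down)⟩ rfl H.Ps.CvD.zero)
    (by decide +kernel)

theorem bGT_50 : H.Ps.JobD fGT At 50 :=
  H.Ps.CvD.job (b := 25) (y := 0) (n := 67)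
    (H.Ps.CvD.step ⟨bnd_l cGT_66.down⟩ rfl (H.Ps.CvD.step ⟨(bnd_r (bnd_r cGT_65.down))⟩ rfl H.Ps.CvD.zero))
    (by decide +kernel)

theorem bGT_51 : H.Ps.JobD fGT At 51 :=
  H.Ps.CvD.job (b := 25) (y := 1) (n := 70)
    (H.Ps.CvD.step ⟨bnd_l (bnd_r cGT_66.down)⟩ rfl H.Ps.CvD.zero)
    (by decide +kernel)

theorem bGT_52 : H.Ps.JobD fGT At 52 :=
  H.Ps.CvD.job (b := 26) (y := 0) (n := 62)
    (H.Ps.CvD.step ⟨bnd_l cGT_67.down⟩ rfl (H.Ps.CvD.step ⟨(bnd_r (bnd_r cGT_66.down))⟩ rfl H.Ps.CvD.zero))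
    (by decide +kernel)

theorem bGT_53 : H.Ps.JobD fGT At 53 :=
  H.Ps.CvD.job (b := 26) (y := 1) (n := 63)
    (H.Ps.CvD.step ⟨bnd_l (bnd_r cGT_67.down)⟩ rfl H.Ps.CvD.zero)
    (by decide +kernel)

theorem bGT_54 : H.Ps.JobD fGT At 54 :=
  H.Ps.CvD.job (b := 27) (y := 0) (n := 56)
    (H.Ps.CvD.step ⟨bnd_l (bnd_r (bnd_r cGT_67.down))⟩ rfl H.Ps.CvD.zero)
    (by decide +kernel)

theorem bGT_55 : H.Ps.JobD fGT At 55 :=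
  H.Ps.CvD.job (b := 27) (y := 1) (n := 59)
    (H.Ps.CvD.step ⟨bnd_l cGT_68.down⟩ rfl (H.Ps.CvD.step ⟨(bnd_r (bnd_r (bnd_r cGT_67.down)))⟩ rfl H.Ps.CvD.zero))
    (by decide +kernel)

theorem bGT_56 : H.Ps.JobD fGT At 56 :=
  H.Ps.CvD.job (b := 28) (y := 0) (n := 49)
    (H.Ps.CvD.step ⟨bnd_l (bnd_r cGT_68.down)⟩ rfl H.Ps.CvD.zero)
    (by decide +kernel)

theorem bGT_57 : H.Ps.JobD fGT At 57 :=
  H.Ps.CvD.job (b := 28) (y := 1) (n := 54)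
    (H.Ps.CvD.step ⟨bnd_l (bnd_r (bnd_r cGT_68.down))⟩ rfl H.Ps.CvD.zero)
    (by decide +kernel)

theorem bGT_58 : H.Ps.JobD fGT At 58 :=
  H.Ps.CvD.job (b := 29) (y := 0) (n := 43)
    (H.Ps.CvD.step ⟨(bnd_r (bnd_r (bnd_r cGT_68.down)))⟩ rfl H.Ps.CvD.zero)
    (by decide +kernel)

theorem bGT_59 : H.Ps.JobD fGT At 59 :=
  H.Ps.CvD.job (b := 29) (y := 1) (n := 45)
    (H.Ps.CvD.step ⟨bnd_l cGT_69.down⟩ rfl H.Ps.CvD.zero)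
    (by decide +kernel)

theorem bGT_60 : H.Ps.JobD fGT At 60 :=
  H.Ps.CvD.job (b := 30) (y := 0) (n := 36)
    (H.Ps.CvD.step ⟨bnd_l (bnd_r cGT_69.down)⟩ rfl H.Ps.CvD.zero)
    (by decide +kernel)

theorem bGT_61 : H.Ps.JobD fGT At 61 :=
  H.Ps.CvD.job (b := 30) (y := 1) (n := 39)
    (H.Ps.CvD.step ⟨bnd_l (bnd_r (bnd_r cGT_69.down))⟩ rfl H.Ps.CvD.zero)
    (by decide +kernel)

theorem bGT_62 : H.Ps.JobD fGT At 62 :=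
  H.Ps.CvD.job (b := 31) (y := 0) (n := 31)
    (H.Ps.CvD.step ⟨bnd_l (bnd_r (bnd_r (bnd_r cGT_69.down)))⟩ rfl H.Ps.CvD.zero)
    (by decide +kernel)

theorem bGT_63 : H.Ps.JobD fGT At 63 :=
  H.Ps.CvD.job (b := 31) (y := 1) (n := 34)
    (H.Ps.CvD.step ⟨bnd_l (bnd_r (bnd_r (bnd_r (bnd_r cGT_69.down))))⟩ rfl H.Ps.CvD.zero)
    (by decide +kernel)

theorem bGT_64 : H.Ps.JobD fGT At 64 :=
  H.Ps.CvD.job (b := 32) (y := 0) (n := 25)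
    (H.Ps.CvD.step ⟨(bnd_r (bnd_r (bnd_r (bnd_r (bnd_r cGT_69.down)))))⟩ rfl H.Ps.CvD.zero)
    (by decide +kernel)

theorem bGT_65 : H.Ps.JobD fGT At 65 :=
  H.Ps.CvD.job (b := 32) (y := 1) (n := 28)
    (H.Ps.CvD.step ⟨bnd_l cGT_70.down⟩ rfl H.Ps.CvD.zero)
    (by decide +kernel)

theorem bGT_66 : H.Ps.JobD fGT At 66 :=
  H.Ps.CvD.job (b := 33) (y := 0) (n := 20)
    (H.Ps.CvD.step ⟨bnd_l (bnd_r cGT_70.down)⟩ rfl H.Ps.CvD.zero)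
    (by decide +kernel)

theorem bGT_67 : H.Ps.JobD fGT At 67 :=
  H.Ps.CvD.job (b := 33) (y := 1) (n := 23)
    (H.Ps.CvD.step ⟨bnd_l (bnd_r (bnd_r cGT_70.down))⟩ rfl H.Ps.CvD.zero)
    (by decide +kernel)

theorem bGT_68 : H.Ps.JobD fGT At 68 :=
  H.Ps.CvD.job (b := 34) (y := 0) (n := 15)
    (H.Ps.CvD.step ⟨bnd_l (bnd_r (bnd_r (bnd_r cGT_70.down)))⟩ rfl H.Ps.CvD.zero)
    (by decide +kernel)

theorem bGT_69 : H.Ps.JobD fGT At 69 :=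
  H.Ps.CvD.job (b := 34) (y := 1) (n := 20)
    (H.Ps.CvD.step ⟨bnd_l (bnd_r (bnd_r (bnd_r (bnd_r cGT_70.down))))⟩ rfl H.Ps.CvD.zero)
    (by decide +kernel)

theorem bGT_70 : H.Ps.JobD fGT At 70 :=
  H.Ps.CvD.job (b := 35) (y := 0) (n := 13)
    (H.Ps.CvD.step ⟨bnd_l (bnd_r (bnd_r (bnd_r (bnd_r (bnd_r cGT_70.down)))))⟩ rfl H.Ps.CvD.zero)
    (by decide +kernel)

theorem bGT_71 : H.Ps.JobD fGT At 71 :=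
  H.Ps.CvD.job (b := 35) (y := 1) (n := 18)
    (H.Ps.CvD.step ⟨bnd_l (bnd_r (bnd_r (bnd_r (bnd_r (bnd_r (bnd_r cGT_70.down))))))⟩ rfl H.Ps.CvD.zero)
    (by decide +kernel)

theorem bGT_72 : H.Ps.JobD fGT At 72 :=
  H.Ps.CvD.job (b := 36) (y := 0) (n := 11)
    (H.Ps.CvD.step ⟨bnd_l (bnd_r (bnd_r (bnd_r (bnd_r (bnd_r (bnd_r (bnd_r cGT_70.down)))))))⟩ rfl H.Ps.CvD.zero)
    (by decide +kernel)

theorem bGT_73 : H.Ps.JobD fGT At 73 :=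
  H.Ps.CvD.job (b := 36) (y := 1) (n := 17)
    (H.Ps.CvD.step ⟨bnd_l (bnd_r (bnd_r (bnd_r (bnd_r (bnd_r (bnd_r (bnd_r (bnd_r cGT_70.down))))))))⟩ rfl H.Ps.CvD.zero)
    (by decide +kernel)

theorem bGT_74 : H.Ps.JobD fGT At 74 :=
  H.Ps.CvD.job (b := 37) (y := 0) (n := 9)
    (H.Ps.CvD.step ⟨bnd_l (bnd_r (bnd_r (bnd_r (bnd_r (bnd_r (bnd_r (bnd_r (bnd_r (bnd_r cGT_70.down)))))))))⟩ rfl H.Ps.CvD.zero)
    (by decide +kernel)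

theorem bGT_75 : H.Ps.JobD fGT At 75 :=
  H.Ps.CvD.job (b := 37) (y := 1) (n := 15)
    (H.Ps.CvD.step ⟨bnd_l (bnd_r (bnd_r (bnd_r (bnd_r (bnd_r (bnd_r (bnd_r (bnd_r (bnd_r (bnd_r cGT_70.down))))))))))⟩ rfl H.Ps.CvD.zero)
    (by decide +kernel)

theorem bGT_76 : H.Ps.JobD fGT At 76 :=
  H.Ps.CvD.job (b := 38) (y := 0) (n := 8)
    (H.Ps.CvD.step ⟨bnd_l (bnd_r (bnd_r (bnd_r (bnd_r (bnd_r (bnd_r (bnd_r (bnd_r (bnd_r (bnd_r (bnd_r cGT_70.down)))))))))))⟩ rfl H.Ps.CvD.zero)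
    (by decide +kernel)

theorem bGT_77 : H.Ps.JobD fGT At 77 :=
  H.Ps.CvD.job (b := 38) (y := 1) (n := 14)
    (H.Ps.CvD.step ⟨(bnd_r (bnd_r (bnd_r (bnd_r (bnd_r (bnd_r (bnd_r (bnd_r (bnd_r (bnd_r (bnd_r (bnd_r cGT_70.down))))))))))))⟩ rfl H.Ps.CvD.zero)
    (by decide +kernel)

theorem jobGT : H.Ps.JobG fGT At :=
  H.Ps.jobG_of (n := 78)
    (AllP.step bGT_77 <|
    AllP.step bGT_76 <|
    AllP.step bGT_75 <|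
    AllP.step bGT_74 <|
    AllP.step bGT_73 <|
    AllP.step bGT_72 <|
    AllP.step bGT_71 <|
    AllP.step bGT_70 <|
    AllP.step bGT_69 <|
    AllP.step bGT_68 <|
    AllP.step bGT_67 <|
    AllP.step bGT_66 <|
    AllP.step bGT_65 <|
    AllP.step bGT_64 <|
    AllP.step bGT_63 <|
    AllP.step bGT_62 <|
    AllP.step bGT_61 <|
    AllP.step bGT_60 <|
    AllP.step bGT_59 <|
    AllP.step bGT_58 <|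
    AllP.step bGT_57 <|
    AllP.step bGT_56 <|
    AllP.step bGT_55 <|
    AllP.step bGT_54 <|
    AllP.step bGT_53 <|
    AllP.step bGT_52 <|
    AllP.step bGT_51 <|
    AllP.step bGT_50 <|
    AllP.step bGT_49 <|
    AllP.step bGT_48 <|
    AllP.step bGT_47 <|
    AllP.step bGT_46 <|
    AllP.step bGT_45 <|
    AllP.step bGT_44 <|
    AllP.step bGT_43 <|
    AllP.step bGT_42 <|
    AllP.step bGT_41 <|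
    AllP.step bGT_40 <|
    AllP.step bGT_39 <|
    AllP.step bGT_38 <|
    AllP.step bGT_37 <|
    AllP.step bGT_36 <|
    AllP.step bGT_35 <|
    AllP.step bGT_34 <|
    AllP.step bGT_33 <|
    AllP.step bGT_32 <|
    AllP.step bGT_31 <|
    AllP.step bGT_30 <|
    AllP.step bGT_29 <|
    AllP.step bGT_28 <|
    AllP.step bGT_27 <|
    AllP.step bGT_26 <|
    AllP.step bGT_25 <|
    AllP.step bGT_24 <|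
    AllP.step bGT_23 <|
    AllP.step bGT_22 <|
    AllP.step bGT_21 <|
    AllP.step bGT_20 <|
    AllP.step bGT_19 <|
    AllP.step bGT_18 <|
    AllP.step bGT_17 <|
    AllP.step bGT_16 <|
    AllP.step bGT_15 <|
    AllP.step bGT_14 <|
    AllP.step bGT_13 <|
    AllP.step bGT_12 <|
    AllP.step bGT_11 <|
    AllP.step bGT_10 <|
    AllP.step bGT_9 <|
    AllP.step bGT_8 <|
    AllP.step bGT_7 <|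
    AllP.step bGT_6 <|
    AllP.step bGT_5 <|
    AllP.step bGT_4 <|
    AllP.step bGT_3 <|
    AllP.step bGT_2 <|
    AllP.step bGT_1 <|
    AllP.step bGT_0 <|
    AllP.zero _)
    (by decide +kernel)

end Pool.Agent.Work.MP_6bf1e5_an.HD
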