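import Pool.Agent.Lib.KBlk.Jobs
import Pool.Agent.Work.MP_6bf1e5_an.HD.CKK0
import Pool.Agent.Work.MP_6bf1e5_an.HD.CKK1
import Pool.Agent.Work.MP_6bf1e5_an.HD.CKK2
import Pool.Agent.Work.MP_6bf1e5_an.HD.CKK3
import Pool.Agent.Work.MP_6bf1e5_an.HD.CKK4
import Pool.Agent.Work.MP_6bf1e5_an.HD.CKK5
import Pool.Agent.Work.MP_6bf1e5_an.HD.CKK6
import Pool.Agent.Work.MP_6bf1e5_an.HD.CKK7

/-! The pass KK. -/

namespace Pool.Agent.Work.MP_6bf1e5_an.HD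

open Pool.Agent.Lib.KLA Pool.Agent.Lib.KBlk

theorem bKK_0 : JobB fKK Ah Am (fun _ => Am.b0) 0 :=
  CvB.job (b0 := 1) (y := 0) (n := 55) (lo := 1) (hi := 33)
    (CvB.step (b := 29) (q := 4) (CvR.step ⟨bnd_l cKK_29_0.down⟩ rfl CvR.zero) rfl <|
    CvB.step (b := 25) (q := 4) (CvR.step ⟨bnd_l cKK_25_0.down⟩ rfl CvR.zero) rfl <|
    CvB.step (b := 21) (q := 4) (CvR.step ⟨bnd_l cKK_21_0.down⟩ rfl CvR.zero) rfl <|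
    CvB.step (b := 17) (q := 4) (CvR.step ⟨bnd_l cKK_17_0.down⟩ rfl CvR.zero) rfl <|
    CvB.step (b := 13) (q := 4) (CvR.step ⟨cKK_13_0.down⟩ rfl CvR.zero) rfl <|
    CvB.step (b := 9) (q := 4) (CvR.step ⟨cKK_9_0.down⟩ rfl CvR.zero) rfl <|
    CvB.step (b := 5) (q := 4) (CvR.step ⟨cKK_5_0.down⟩ rfl CvR.zero) rfl <|
    CvB.step (b := 1) (q := 4) (CvR.step ⟨cKK_1_0.down⟩ rfl CvR.zero) rfl <|
    CvB.zero)
    (by decide +kernel)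

theorem bKK_1 : JobB fKK Ah Am (fun _ => Am.b0) 1 :=
  CvB.job (b0 := 1) (y := 1) (n := 58) (lo := 1) (hi := 33)
    (CvB.step (b := 29) (q := 4) (CvR.step ⟨bnd_l (bnd_r cKK_29_0.down)⟩ rfl CvR.zero) rfl <|
    CvB.step (b := 25) (q := 4) (CvR.step ⟨(bnd_r cKK_25_0.down)⟩ rfl CvR.zero) rfl <|
    CvB.step (b := 21) (q := 4) (CvR.step ⟨bnd_l cKK_21_1.down⟩ rfl (CvR.step ⟨(bnd_r cKK_21_0.down)⟩ rfl CvR.zero)) rfl <|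
    CvB.step (b := 17) (q := 4) (CvR.step ⟨bnd_l cKK_17_1.down⟩ rfl (CvR.step ⟨(bnd_r cKK_17_0.down)⟩ rfl CvR.zero)) rfl <|
    CvB.step (b := 13) (q := 4) (CvR.step ⟨cKK_13_1.down⟩ rfl CvR.zero) rfl <|
    CvB.step (b := 9) (q := 4) (CvR.step ⟨cKK_9_1.down⟩ rfl CvR.zero) rfl <|
    CvB.step (b := 5) (q := 4) (CvR.step ⟨cKK_5_1.down⟩ rfl CvR.zero) rfl <|
    CvB.step (b := 1) (q := 4) (CvR.step ⟨bnd_l cKK_1_2.down⟩ rfl (CvR.step ⟨cKK_1_1.down⟩ rfl CvR.zero)) rfl <|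
    CvB.zero)
    (by decide +kernel)

theorem bKK_2 : JobB fKK Ah Am (fun _ => Am.b0) 2 :=
  CvB.job (b0 := 2) (y := 0) (n := 53) (lo := 1) (hi := 33)
    (CvB.step (b := 29) (q := 4) (CvR.step ⟨bnd_l cKK_29_1.down⟩ rfl (CvR.step ⟨(bnd_r (bnd_r cKK_29_0.down))⟩ rfl CvR.zero)) rfl <|
    CvB.step (b := 25) (q := 4) (CvR.step ⟨bnd_l cKK_25_1.down⟩ rfl CvR.zero) rfl <|
    CvB.step (b := 21) (q := 4) (CvR.step ⟨bnd_l (bnd_r cKK_21_1.down)⟩ rfl CvR.zero) rfl <|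
    CvB.step (b := 17) (q := 4) (CvR.step ⟨(bnd_r cKK_17_1.down)⟩ rfl CvR.zero) rfl <|
    CvB.step (b := 13) (q := 4) (CvR.step ⟨cKK_13_2.down⟩ rfl CvR.zero) rfl <|
    CvB.step (b := 9) (q := 4) (CvR.step ⟨cKK_9_2.down⟩ rfl CvR.zero) rfl <|
    CvB.step (b := 5) (q := 4) (CvR.step ⟨cKK_5_2.down⟩ rfl CvR.zero) rfl <|
    CvB.step (b := 1) (q := 4) (CvR.step ⟨(bnd_r cKK_1_2.down)⟩ rfl CvR.zero) rfl <|
    CvB.zero)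
    (by decide +kernel)

theorem bKK_3 : JobB fKK Ah Am (fun _ => Am.b0) 3 :=
  CvB.job (b0 := 2) (y := 1) (n := 56) (lo := 1) (hi := 33)
    (CvB.step (b := 29) (q := 4) (CvR.step ⟨bnd_l (bnd_r cKK_29_1.down)⟩ rfl CvR.zero) rfl <|
    CvB.step (b := 25) (q := 4) (CvR.step ⟨(bnd_r cKK_25_1.down)⟩ rfl CvR.zero) rfl <|
    CvB.step (b := 21) (q := 4) (CvR.step ⟨bnd_l cKK_21_2.down⟩ rfl (CvR.step ⟨(bnd_r (bnd_r cKK_21_1.down))⟩ rfl CvR.zero)) rfl <|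
    CvB.step (b := 17) (q := 4) (CvR.step ⟨bnd_l cKK_17_2.down⟩ rfl CvR.zero) rfl <|
    CvB.step (b := 13) (q := 4) (CvR.step ⟨cKK_13_3.down⟩ rfl CvR.zero) rfl <|
    CvB.step (b := 9) (q := 4) (CvR.step ⟨cKK_9_3.down⟩ rfl CvR.zero) rfl <|
    CvB.step (b := 5) (q := 4) (CvR.step ⟨cKK_5_3.down⟩ rfl CvR.zero) rfl <|
    CvB.step (b := 1) (q := 4) (CvR.step ⟨cKK_1_3.down⟩ rfl CvR.zero) rfl <|
    CvB.zero)
    (by decide +kernel)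

theorem bKK_4 : JobB fKK Ah Am (fun _ => Am.b0) 4 :=
  CvB.job (b0 := 3) (y := 0) (n := 51) (lo := 1) (hi := 33)
    (CvB.step (b := 29) (q := 4) (CvR.step ⟨bnd_l (bnd_r (bnd_r cKK_29_1.down))⟩ rfl CvR.zero) rfl <|
    CvB.step (b := 25) (q := 4) (CvR.step ⟨bnd_l cKK_25_2.down⟩ rfl CvR.zero) rfl <|
    CvB.step (b := 21) (q := 4) (CvR.step ⟨bnd_l (bnd_r cKK_21_2.down)⟩ rfl CvR.zero) rfl <|
    CvB.step (b := 17) (q := 4) (CvR.step ⟨bnd_l cKK_17_3.down⟩ rfl (CvR.step ⟨(bnd_r cKK_17_2.down)⟩ rfl CvR.zero)) rfl <|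
    CvB.step (b := 13) (q := 4) (CvR.step ⟨bnd_l cKK_13_4.down⟩ rfl CvR.zero) rfl <|
    CvB.step (b := 9) (q := 4) (CvR.step ⟨cKK_9_4.down⟩ rfl CvR.zero) rfl <|
    CvB.step (b := 5) (q := 4) (CvR.step ⟨cKK_5_4.down⟩ rfl CvR.zero) rfl <|
    CvB.step (b := 1) (q := 4) (CvR.step ⟨cKK_1_4.down⟩ rfl CvR.zero) rfl <|
    CvB.zero)
    (by decide +kernel)

theorem bKK_5 : JobB fKK Ah Am (fun _ => Am.b0) 5 :=
  CvB.job (b0 := 3) (y := 1) (n := 54) (lo := 1) (hi := 33)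
    (CvB.step (b := 29) (q := 4) (CvR.step ⟨bnd_l cKK_29_2.down⟩ rfl (CvR.step ⟨(bnd_r (bnd_r (bnd_r cKK_29_1.down)))⟩ rfl CvR.zero)) rfl <|
    CvB.step (b := 25) (q := 4) (CvR.step ⟨(bnd_r cKK_25_2.down)⟩ rfl CvR.zero) rfl <|
    CvB.step (b := 21) (q := 4) (CvR.step ⟨bnd_l cKK_21_3.down⟩ rfl (CvR.step ⟨(bnd_r (bnd_r cKK_21_2.down))⟩ rfl CvR.zero)) rfl <|
    CvB.step (b := 17) (q := 4) (CvR.step ⟨(bnd_r cKK_17_3.down)⟩ rfl CvR.zero) rfl <|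
    CvB.step (b := 13) (q := 4) (CvR.step ⟨bnd_l cKK_13_5.down⟩ rfl (CvR.step ⟨(bnd_r cKK_13_4.down)⟩ rfl CvR.zero)) rfl <|
    CvB.step (b := 9) (q := 4) (CvR.step ⟨cKK_9_5.down⟩ rfl CvR.zero) rfl <|
    CvB.step (b := 5) (q := 4) (CvR.step ⟨cKK_5_5.down⟩ rfl CvR.zero) rfl <|
    CvB.step (b := 1) (q := 4) (CvR.step ⟨cKK_1_5.down⟩ rfl CvR.zero) rfl <|
    CvB.zero)
    (by decide +kernel)

theorem bKK_6 : JobB fKK Ah Am (fun _ => Am.b0) 6 :=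
  CvB.job (b0 := 4) (y := 0) (n := 49) (lo := 1) (hi := 33)
    (CvB.step (b := 29) (q := 4) (CvR.step ⟨bnd_l (bnd_r cKK_29_2.down)⟩ rfl CvR.zero) rfl <|
    CvB.step (b := 25) (q := 4) (CvR.step ⟨bnd_l cKK_25_3.down⟩ rfl CvR.zero) rfl <|
    CvB.step (b := 21) (q := 4) (CvR.step ⟨bnd_l (bnd_r cKK_21_3.down)⟩ rfl CvR.zero) rfl <|
    CvB.step (b := 17) (q := 4) (CvR.step ⟨bnd_l cKK_17_4.down⟩ rfl CvR.zero) rfl <|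
    CvB.step (b := 13) (q := 4) (CvR.step ⟨bnd_l cKK_13_6.down⟩ rfl (CvR.step ⟨(bnd_r cKK_13_5.down)⟩ rfl CvR.zero)) rfl <|
    CvB.step (b := 9) (q := 4) (CvR.step ⟨cKK_9_6.down⟩ rfl CvR.zero) rfl <|
    CvB.step (b := 5) (q := 4) (CvR.step ⟨cKK_5_6.down⟩ rfl CvR.zero) rfl <|
    CvB.step (b := 1) (q := 4) (CvR.step ⟨cKK_1_6.down⟩ rfl CvR.zero) rfl <|
    CvB.zero)
    (by decide +kernel)

theorem bKK_7 : JobB fKK Ah Am (fun _ => Am.b0) 7 :=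
  CvB.job (b0 := 4) (y := 1) (n := 52) (lo := 1) (hi := 33)
    (CvB.step (b := 29) (q := 4) (CvR.step ⟨(bnd_r (bnd_r cKK_29_2.down))⟩ rfl CvR.zero) rfl <|
    CvB.step (b := 25) (q := 4) (CvR.step ⟨(bnd_r cKK_25_3.down)⟩ rfl CvR.zero) rfl <|
    CvB.step (b := 21) (q := 4) (CvR.step ⟨bnd_l cKK_21_4.down⟩ rfl (CvR.step ⟨(bnd_r (bnd_r cKK_21_3.down))⟩ rfl CvR.zero)) rfl <|
    CvB.step (b := 17) (q := 4) (CvR.step ⟨bnd_l cKK_17_5.down⟩ rfl (CvR.step ⟨(bnd_r cKK_17_4.down)⟩ rfl CvR.zero)) rfl <|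
    CvB.step (b := 13) (q := 4) (CvR.step ⟨(bnd_r cKK_13_6.down)⟩ rfl CvR.zero) rfl <|
    CvB.step (b := 9) (q := 4) (CvR.step ⟨cKK_9_7.down⟩ rfl CvR.zero) rfl <|
    CvB.step (b := 5) (q := 4) (CvR.step ⟨cKK_5_7.down⟩ rfl CvR.zero) rfl <|
    CvB.step (b := 1) (q := 4) (CvR.step ⟨cKK_1_7.down⟩ rfl CvR.zero) rfl <|
    CvB.zero)
    (by decide +kernel)

theorem bKK_8 : JobB fKK Ah Am (fun _ => Am.b0) 8 :=
  CvB.job (b0 := 5) (y := 0) (n := 47) (lo := 1) (hi := 33)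
    (CvB.step (b := 29) (q := 4) (CvR.step ⟨bnd_l cKK_29_3.down⟩ rfl CvR.zero) rfl <|
    CvB.step (b := 25) (q := 4) (CvR.step ⟨bnd_l cKK_25_4.down⟩ rfl CvR.zero) rfl <|
    CvB.step (b := 21) (q := 4) (CvR.step ⟨bnd_l (bnd_r cKK_21_4.down)⟩ rfl CvR.zero) rfl <|
    CvB.step (b := 17) (q := 4) (CvR.step ⟨(bnd_r cKK_17_5.down)⟩ rfl CvR.zero) rfl <|
    CvB.step (b := 13) (q := 4) (CvR.step ⟨bnd_l cKK_13_7.down⟩ rfl CvR.zero) rfl <|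
    CvB.step (b := 9) (q := 4) (CvR.step ⟨cKK_9_8.down⟩ rfl CvR.zero) rfl <|
    CvB.step (b := 5) (q := 4) (CvR.step ⟨cKK_5_8.down⟩ rfl CvR.zero) rfl <|
    CvB.step (b := 1) (q := 4) (CvR.step ⟨cKK_1_8.down⟩ rfl CvR.zero) rfl <|
    CvB.zero)
    (by decide +kernel)

theorem bKK_9 : JobB fKK Ah Am (fun _ => Am.b0) 9 :=
  CvB.job (b0 := 5) (y := 1) (n := 50) (lo := 1) (hi := 33)
    (CvB.step (b := 29) (q := 4) (CvR.step ⟨bnd_l (bnd_r cKK_29_3.down)⟩ rfl CvR.zero) rfl <|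
    CvB.step (b := 25) (q := 4) (CvR.step ⟨(bnd_r cKK_25_4.down)⟩ rfl CvR.zero) rfl <|
    CvB.step (b := 21) (q := 4) (CvR.step ⟨bnd_l cKK_21_5.down⟩ rfl (CvR.step ⟨(bnd_r (bnd_r cKK_21_4.down))⟩ rfl CvR.zero)) rfl <|
    CvB.step (b := 17) (q := 4) (CvR.step ⟨bnd_l cKK_17_6.down⟩ rfl CvR.zero) rfl <|
    CvB.step (b := 13) (q := 4) (CvR.step ⟨bnd_l cKK_13_8.down⟩ rfl (CvR.step ⟨(bnd_r cKK_13_7.down)⟩ rfl CvR.zero)) rfl <|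
    CvB.step (b := 9) (q := 4) (CvR.step ⟨cKK_9_9.down⟩ rfl CvR.zero) rfl <|
    CvB.step (b := 5) (q := 4) (CvR.step ⟨cKK_5_9.down⟩ rfl CvR.zero) rfl <|
    CvB.step (b := 1) (q := 4) (CvR.step ⟨cKK_1_9.down⟩ rfl CvR.zero) rfl <|
    CvB.zero)
    (by decide +kernel)

theorem bKK_10 : JobB fKK Ah Am (fun _ => Am.b0) 10 :=
  CvB.job (b0 := 6) (y := 0) (n := 45) (lo := 1) (hi := 33)
    (CvB.step (b := 29) (q := 4) (CvR.step ⟨(bnd_r (bnd_r cKK_29_3.down))⟩ rfl CvR.zero) rfl <|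
    CvB.step (b := 25) (q := 4) (CvR.step ⟨bnd_l cKK_25_5.down⟩ rfl CvR.zero) rfl <|
    CvB.step (b := 21) (q := 4) (CvR.step ⟨bnd_l (bnd_r cKK_21_5.down)⟩ rfl CvR.zero) rfl <|
    CvB.step (b := 17) (q := 4) (CvR.step ⟨bnd_l cKK_17_7.down⟩ rfl (CvR.step ⟨(bnd_r cKK_17_6.down)⟩ rfl CvR.zero)) rfl <|
    CvB.step (b := 13) (q := 4) (CvR.step ⟨(bnd_r cKK_13_8.down)⟩ rfl CvR.zero) rfl <|
    CvB.step (b := 9) (q := 4) (CvR.step ⟨cKK_9_10.down⟩ rfl CvR.zero) rfl <|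
    CvB.step (b := 5) (q := 4) (CvR.step ⟨cKK_5_10.down⟩ rfl CvR.zero) rfl <|
    CvB.step (b := 1) (q := 4) (CvR.step ⟨cKK_1_10.down⟩ rfl CvR.zero) rfl <|
    CvB.zero)
    (by decide +kernel)

theorem bKK_11 : JobB fKK Ah Am (fun _ => Am.b0) 11 :=
  CvB.job (b0 := 6) (y := 1) (n := 48) (lo := 1) (hi := 33)
    (CvB.step (b := 29) (q := 4) (CvR.step ⟨bnd_l cKK_29_4.down⟩ rfl CvR.zero) rfl <|
    CvB.step (b := 25) (q := 4) (CvR.step ⟨(bnd_r cKK_25_5.down)⟩ rfl CvR.zero) rfl <|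
    CvB.step (b := 21) (q := 4) (CvR.step ⟨bnd_l cKK_21_6.down⟩ rfl (CvR.step ⟨(bnd_r (bnd_r cKK_21_5.down))⟩ rfl CvR.zero)) rfl <|
    CvB.step (b := 17) (q := 4) (CvR.step ⟨bnd_l (bnd_r cKK_17_7.down)⟩ rfl CvR.zero) rfl <|
    CvB.step (b := 13) (q := 4) (CvR.step ⟨bnd_l cKK_13_9.down⟩ rfl CvR.zero) rfl <|
    CvB.step (b := 9) (q := 4) (CvR.step ⟨cKK_9_11.down⟩ rfl CvR.zero) rfl <|
    CvB.step (b := 5) (q := 4) (CvR.step ⟨cKK_5_11.down⟩ rfl CvR.zero) rfl <|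
    CvB.step (b := 1) (q := 4) (CvR.step ⟨cKK_1_11.down⟩ rfl CvR.zero) rfl <|
    CvB.zero)
    (by decide +kernel)

theorem bKK_12 : JobB fKK Ah Am (fun _ => Am.b0) 12 :=
  CvB.job (b0 := 7) (y := 0) (n := 43) (lo := 1) (hi := 33)
    (CvB.step (b := 29) (q := 4) (CvR.step ⟨bnd_l (bnd_r cKK_29_4.down)⟩ rfl CvR.zero) rfl <|
    CvB.step (b := 25) (q := 4) (CvR.step ⟨bnd_l cKK_25_6.down⟩ rfl CvR.zero) rfl <|
    CvB.step (b := 21) (q := 4) (CvR.step ⟨bnd_l (bnd_r cKK_21_6.down)⟩ rfl CvR.zero) rfl <|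
    CvB.step (b := 17) (q := 4) (CvR.step ⟨bnd_l cKK_17_8.down⟩ rfl (CvR.step ⟨(bnd_r (bnd_r cKK_17_7.down))⟩ rfl CvR.zero)) rfl <|
    CvB.step (b := 13) (q := 4) (CvR.step ⟨bnd_l cKK_13_10.down⟩ rfl (CvR.step ⟨(bnd_r cKK_13_9.down)⟩ rfl CvR.zero)) rfl <|
    CvB.step (b := 9) (q := 4) (CvR.step ⟨cKK_9_12.down⟩ rfl CvR.zero) rfl <|
    CvB.step (b := 5) (q := 4) (CvR.step ⟨cKK_5_12.down⟩ rfl CvR.zero) rfl <|
    CvB.step (b := 1) (q := 4) (CvR.step ⟨cKK_1_12.down⟩ rfl CvR.zero) rfl <|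
    CvB.zero)
    (by decide +kernel)

theorem bKK_13 : JobB fKK Ah Am (fun _ => Am.b0) 13 :=
  CvB.job (b0 := 7) (y := 1) (n := 46) (lo := 1) (hi := 33)
    (CvB.step (b := 29) (q := 4) (CvR.step ⟨(bnd_r (bnd_r cKK_29_4.down))⟩ rfl CvR.zero) rfl <|
    CvB.step (b := 25) (q := 4) (CvR.step ⟨bnd_l (bnd_r cKK_25_6.down)⟩ rfl CvR.zero) rfl <|
    CvB.step (b := 21) (q := 4) (CvR.step ⟨bnd_l cKK_21_7.down⟩ rfl (CvR.step ⟨(bnd_r (bnd_r cKK_21_6.down))⟩ rfl CvR.zero)) rfl <|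
    CvB.step (b := 17) (q := 4) (CvR.step ⟨(bnd_r cKK_17_8.down)⟩ rfl CvR.zero) rfl <|
    CvB.step (b := 13) (q := 4) (CvR.step ⟨(bnd_r cKK_13_10.down)⟩ rfl CvR.zero) rfl <|
    CvB.step (b := 9) (q := 4) (CvR.step ⟨cKK_9_13.down⟩ rfl CvR.zero) rfl <|
    CvB.step (b := 5) (q := 4) (CvR.step ⟨cKK_5_13.down⟩ rfl CvR.zero) rfl <|
    CvB.step (b := 1) (q := 4) (CvR.step ⟨cKK_1_13.down⟩ rfl CvR.zero) rfl <|
    CvB.zero)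
    (by decide +kernel)

theorem bKK_14 : JobB fKK Ah Am (fun _ => Am.b0) 14 :=
  CvB.job (b0 := 8) (y := 0) (n := 41) (lo := 1) (hi := 33)
    (CvB.step (b := 29) (q := 4) (CvR.step ⟨bnd_l cKK_29_5.down⟩ rfl CvR.zero) rfl <|
    CvB.step (b := 25) (q := 4) (CvR.step ⟨bnd_l cKK_25_7.down⟩ rfl (CvR.step ⟨(bnd_r (bnd_r cKK_25_6.down))⟩ rfl CvR.zero)) rfl <|
    CvB.step (b := 21) (q := 4) (CvR.step ⟨bnd_l (bnd_r cKK_21_7.down)⟩ rfl CvR.zero) rfl <|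
    CvB.step (b := 17) (q := 4) (CvR.step ⟨bnd_l cKK_17_9.down⟩ rfl CvR.zero) rfl <|
    CvB.step (b := 13) (q := 4) (CvR.step ⟨bnd_l cKK_13_11.down⟩ rfl CvR.zero) rfl <|
    CvB.step (b := 9) (q := 4) (CvR.step ⟨bnd_l cKK_9_14.down⟩ rfl CvR.zero) rfl <|
    CvB.step (b := 5) (q := 4) (CvR.step ⟨cKK_5_14.down⟩ rfl CvR.zero) rfl <|
    CvB.step (b := 1) (q := 4) (CvR.step ⟨cKK_1_14.down⟩ rfl CvR.zero) rfl <|
    CvB.zero)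
    (by decide +kernel)

theorem bKK_15 : JobB fKK Ah Am (fun _ => Am.b0) 15 :=
  CvB.job (b0 := 8) (y := 1) (n := 44) (lo := 1) (hi := 33)
    (CvB.step (b := 29) (q := 4) (CvR.step ⟨bnd_l (bnd_r cKK_29_5.down)⟩ rfl CvR.zero) rfl <|
    CvB.step (b := 25) (q := 4) (CvR.step ⟨bnd_l (bnd_r cKK_25_7.down)⟩ rfl CvR.zero) rfl <|
    CvB.step (b := 21) (q := 4) (CvR.step ⟨(bnd_r (bnd_r cKK_21_7.down))⟩ rfl CvR.zero) rfl <|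
    CvB.step (b := 17) (q := 4) (CvR.step ⟨(bnd_r cKK_17_9.down)⟩ rfl CvR.zero) rfl <|
    CvB.step (b := 13) (q := 4) (CvR.step ⟨bnd_l cKK_13_12.down⟩ rfl (CvR.step ⟨(bnd_r cKK_13_11.down)⟩ rfl CvR.zero)) rfl <|
    CvB.step (b := 9) (q := 4) (CvR.step ⟨bnd_l cKK_9_15.down⟩ rfl (CvR.step ⟨(bnd_r cKK_9_14.down)⟩ rfl CvR.zero)) rfl <|
    CvB.step (b := 5) (q := 4) (CvR.step ⟨cKK_5_15.down⟩ rfl CvR.zero) rfl <|
    CvB.step (b := 1) (q := 4) (CvR.step ⟨cKK_1_15.down⟩ rfl CvR.zero) rfl <|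
    CvB.zero)
    (by decide +kernel)

theorem bKK_16 : JobB fKK Ah Am (fun _ => Am.b0) 16 :=
  CvB.job (b0 := 9) (y := 0) (n := 39) (lo := 1) (hi := 33)
    (CvB.step (b := 29) (q := 4) (CvR.step ⟨bnd_l (bnd_r (bnd_r cKK_29_5.down))⟩ rfl CvR.zero) rfl <|
    CvB.step (b := 25) (q := 4) (CvR.step ⟨(bnd_r (bnd_r cKK_25_7.down))⟩ rfl CvR.zero) rfl <|
    CvB.step (b := 21) (q := 4) (CvR.step ⟨bnd_l cKK_21_8.down⟩ rfl CvR.zero) rfl <|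
    CvB.step (b := 17) (q := 4) (CvR.step ⟨bnd_l cKK_17_10.down⟩ rfl CvR.zero) rfl <|
    CvB.step (b := 13) (q := 4) (CvR.step ⟨(bnd_r cKK_13_12.down)⟩ rfl CvR.zero) rfl <|
    CvB.step (b := 9) (q := 4) (CvR.step ⟨(bnd_r cKK_9_15.down)⟩ rfl CvR.zero) rfl <|
    CvB.step (b := 5) (q := 4) (CvR.step ⟨cKK_5_16.down⟩ rfl CvR.zero) rfl <|
    CvB.step (b := 1) (q := 4) (CvR.step ⟨cKK_1_16.down⟩ rfl CvR.zero) rfl <|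
    CvB.zero)
    (by decide +kernel)

theorem bKK_17 : JobB fKK Ah Am (fun _ => Am.b0) 17 :=
  CvB.job (b0 := 9) (y := 1) (n := 42) (lo := 1) (hi := 33)
    (CvB.step (b := 29) (q := 4) (CvR.step ⟨bnd_l cKK_29_6.down⟩ rfl (CvR.step ⟨(bnd_r (bnd_r (bnd_r cKK_29_5.down)))⟩ rfl CvR.zero)) rfl <|
    CvB.step (b := 25) (q := 4) (CvR.step ⟨bnd_l cKK_25_8.down⟩ rfl CvR.zero) rfl <|
    CvB.step (b := 21) (q := 4) (CvR.step ⟨(bnd_r cKK_21_8.down)⟩ rfl CvR.zero) rfl <|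
    CvB.step (b := 17) (q := 4) (CvR.step ⟨(bnd_r cKK_17_10.down)⟩ rfl CvR.zero) rfl <|
    CvB.step (b := 13) (q := 4) (CvR.step ⟨bnd_l cKK_13_13.down⟩ rfl CvR.zero) rfl <|
    CvB.step (b := 9) (q := 4) (CvR.step ⟨bnd_l cKK_9_16.down⟩ rfl CvR.zero) rfl <|
    CvB.step (b := 5) (q := 4) (CvR.step ⟨cKK_5_17.down⟩ rfl CvR.zero) rfl <|
    CvB.step (b := 1) (q := 4) (CvR.step ⟨cKK_1_17.down⟩ rfl CvR.zero) rfl <|
    CvB.zero)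
    (by decide +kernel)

theorem bKK_18 : JobB fKK Ah Am (fun _ => Am.b0) 18 :=
  CvB.job (b0 := 10) (y := 0) (n := 37) (lo := 1) (hi := 33)
    (CvB.step (b := 29) (q := 4) (CvR.step ⟨bnd_l (bnd_r cKK_29_6.down)⟩ rfl CvR.zero) rfl <|
    CvB.step (b := 25) (q := 4) (CvR.step ⟨bnd_l (bnd_r cKK_25_8.down)⟩ rfl CvR.zero) rfl <|
    CvB.step (b := 21) (q := 4) (CvR.step ⟨bnd_l cKK_21_9.down⟩ rfl CvR.zero) rfl <|
    CvB.step (b := 17) (q := 4) (CvR.step ⟨bnd_l cKK_17_11.down⟩ rfl CvR.zero) rfl <|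
    CvB.step (b := 13) (q := 4) (CvR.step ⟨bnd_l cKK_13_14.down⟩ rfl (CvR.step ⟨(bnd_r cKK_13_13.down)⟩ rfl CvR.zero)) rfl <|
    CvB.step (b := 9) (q := 4) (CvR.step ⟨bnd_l cKK_9_17.down⟩ rfl (CvR.step ⟨(bnd_r cKK_9_16.down)⟩ rfl CvR.zero)) rfl <|
    CvB.step (b := 5) (q := 4) (CvR.step ⟨cKK_5_18.down⟩ rfl CvR.zero) rfl <|
    CvB.step (b := 1) (q := 4) (CvR.step ⟨cKK_1_18.down⟩ rfl CvR.zero) rfl <|
    CvB.zero)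
    (by decide +kernel)

theorem bKK_19 : JobB fKK Ah Am (fun _ => Am.b0) 19 :=
  CvB.job (b0 := 10) (y := 1) (n := 40) (lo := 1) (hi := 33)
    (CvB.step (b := 29) (q := 4) (CvR.step ⟨bnd_l (bnd_r (bnd_r cKK_29_6.down))⟩ rfl CvR.zero) rfl <|
    CvB.step (b := 25) (q := 4) (CvR.step ⟨bnd_l cKK_25_9.down⟩ rfl (CvR.step ⟨(bnd_r (bnd_r cKK_25_8.down))⟩ rfl CvR.zero)) rfl <|
    CvB.step (b := 21) (q := 4) (CvR.step ⟨(bnd_r cKK_21_9.down)⟩ rfl CvR.zero) rfl <|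
    CvB.step (b := 17) (q := 4) (CvR.step ⟨(bnd_r cKK_17_11.down)⟩ rfl CvR.zero) rfl <|
    CvB.step (b := 13) (q := 4) (CvR.step ⟨bnd_l (bnd_r cKK_13_14.down)⟩ rfl CvR.zero) rfl <|
    CvB.step (b := 9) (q := 4) (CvR.step ⟨(bnd_r cKK_9_17.down)⟩ rfl CvR.zero) rfl <|
    CvB.step (b := 5) (q := 4) (CvR.step ⟨cKK_5_19.down⟩ rfl CvR.zero) rfl <|
    CvB.step (b := 1) (q := 4) (CvR.step ⟨cKK_1_19.down⟩ rfl CvR.zero) rfl <|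
    CvB.zero)
    (by decide +kernel)

theorem bKK_20 : JobB fKK Ah Am (fun _ => Am.b0) 20 :=
  CvB.job (b0 := 11) (y := 0) (n := 35) (lo := 1) (hi := 33)
    (CvB.step (b := 29) (q := 4) (CvR.step ⟨bnd_l cKK_29_7.down⟩ rfl (CvR.step ⟨(bnd_r (bnd_r (bnd_r cKK_29_6.down)))⟩ rfl CvR.zero)) rfl <|
    CvB.step (b := 25) (q := 4) (CvR.step ⟨bnd_l (bnd_r cKK_25_9.down)⟩ rfl CvR.zero) rfl <|
    CvB.step (b := 21) (q := 4) (CvR.step ⟨bnd_l cKK_21_10.down⟩ rfl CvR.zero) rfl <|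
    CvB.step (b := 17) (q := 4) (CvR.step ⟨bnd_l cKK_17_12.down⟩ rfl CvR.zero) rfl <|
    CvB.step (b := 13) (q := 4) (CvR.step ⟨bnd_l cKK_13_15.down⟩ rfl (CvR.step ⟨(bnd_r (bnd_r cKK_13_14.down))⟩ rfl CvR.zero)) rfl <|
    CvB.step (b := 9) (q := 4) (CvR.step ⟨bnd_l cKK_9_18.down⟩ rfl CvR.zero) rfl <|
    CvB.step (b := 5) (q := 4) (CvR.step ⟨bnd_l cKK_5_20.down⟩ rfl CvR.zero) rfl <|
    CvB.step (b := 1) (q := 4) (CvR.step ⟨cKK_1_20.down⟩ rfl CvR.zero) rfl <|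
    CvB.zero)
    (by decide +kernel)

theorem bKK_21 : JobB fKK Ah Am (fun _ => Am.b0) 21 :=
  CvB.job (b0 := 11) (y := 1) (n := 38) (lo := 1) (hi := 33)
    (CvB.step (b := 29) (q := 4) (CvR.step ⟨bnd_l (bnd_r cKK_29_7.down)⟩ rfl CvR.zero) rfl <|
    CvB.step (b := 25) (q := 4) (CvR.step ⟨bnd_l (bnd_r (bnd_r cKK_25_9.down))⟩ rfl CvR.zero) rfl <|
    CvB.step (b := 21) (q := 4) (CvR.step ⟨(bnd_r cKK_21_10.down)⟩ rfl CvR.zero) rfl <|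
    CvB.step (b := 17) (q := 4) (CvR.step ⟨(bnd_r cKK_17_12.down)⟩ rfl CvR.zero) rfl <|
    CvB.step (b := 13) (q := 4) (CvR.step ⟨bnd_l (bnd_r cKK_13_15.down)⟩ rfl CvR.zero) rfl <|
    CvB.step (b := 9) (q := 4) (CvR.step ⟨bnd_l cKK_9_19.down⟩ rfl (CvR.step ⟨(bnd_r cKK_9_18.down)⟩ rfl CvR.zero)) rfl <|
    CvB.step (b := 5) (q := 4) (CvR.step ⟨bnd_l cKK_5_21.down⟩ rfl (CvR.step ⟨(bnd_r cKK_5_20.down)⟩ rfl CvR.zero)) rfl <|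
    CvB.step (b := 1) (q := 4) (CvR.step ⟨cKK_1_21.down⟩ rfl CvR.zero) rfl <|
    CvB.zero)
    (by decide +kernel)

theorem bKK_22 : JobB fKK Ah Am (fun _ => Am.b0) 22 :=
  CvB.job (b0 := 12) (y := 0) (n := 33) (lo := 1) (hi := 33)
    (CvB.step (b := 29) (q := 4) (CvR.step ⟨bnd_l (bnd_r (bnd_r cKK_29_7.down))⟩ rfl CvR.zero) rfl <|
    CvB.step (b := 25) (q := 4) (CvR.step ⟨bnd_l cKK_25_10.down⟩ rfl (CvR.step ⟨(bnd_r (bnd_r (bnd_r cKK_25_9.down)))⟩ rfl CvR.zero)) rfl <|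
    CvB.step (b := 21) (q := 4) (CvR.step ⟨bnd_l cKK_21_11.down⟩ rfl CvR.zero) rfl <|
    CvB.step (b := 17) (q := 4) (CvR.step ⟨bnd_l cKK_17_13.down⟩ rfl CvR.zero) rfl <|
    CvB.step (b := 13) (q := 4) (CvR.step ⟨bnd_l cKK_13_16.down⟩ rfl (CvR.step ⟨(bnd_r (bnd_r cKK_13_15.down))⟩ rfl CvR.zero)) rfl <|
    CvB.step (b := 9) (q := 4) (CvR.step ⟨(bnd_r cKK_9_19.down)⟩ rfl CvR.zero) rfl <|
    CvB.step (b := 5) (q := 4) (CvR.step ⟨(bnd_r cKK_5_21.down)⟩ rfl CvR.zero) rfl <|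
    CvB.step (b := 1) (q := 4) (CvR.step ⟨cKK_1_22.down⟩ rfl CvR.zero) rfl <|
    CvB.zero)
    (by decide +kernel)

theorem bKK_23 : JobB fKK Ah Am (fun _ => Am.b0) 23 :=
  CvB.job (b0 := 12) (y := 1) (n := 36) (lo := 1) (hi := 33)
    (CvB.step (b := 29) (q := 4) (CvR.step ⟨bnd_l (bnd_r (bnd_r (bnd_r cKK_29_7.down)))⟩ rfl CvR.zero) rfl <|
    CvB.step (b := 25) (q := 4) (CvR.step ⟨bnd_l (bnd_r cKK_25_10.down)⟩ rfl CvR.zero) rfl <|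
    CvB.step (b := 21) (q := 4) (CvR.step ⟨bnd_l (bnd_r cKK_21_11.down)⟩ rfl CvR.zero) rfl <|
    CvB.step (b := 17) (q := 4) (CvR.step ⟨(bnd_r cKK_17_13.down)⟩ rfl CvR.zero) rfl <|
    CvB.step (b := 13) (q := 4) (CvR.step ⟨bnd_l (bnd_r cKK_13_16.down)⟩ rfl CvR.zero) rfl <|
    CvB.step (b := 9) (q := 4) (CvR.step ⟨bnd_l cKK_9_20.down⟩ rfl CvR.zero) rfl <|
    CvB.step (b := 5) (q := 4) (CvR.step ⟨cKK_5_22.down⟩ rfl CvR.zero) rfl <|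
    CvB.step (b := 1) (q := 4) (CvR.step ⟨cKK_1_23.down⟩ rfl CvR.zero) rfl <|
    CvB.zero)
    (by decide +kernel)

theorem bKK_24 : JobB fKK Ah Am (fun _ => Am.b0) 24 :=
  CvB.job (b0 := 13) (y := 0) (n := 31) (lo := 1) (hi := 33)
    (CvB.step (b := 29) (q := 4) (CvR.step ⟨bnd_l cKK_29_8.down⟩ rfl (CvR.step ⟨(bnd_r (bnd_r (bnd_r (bnd_r cKK_29_7.down))))⟩ rfl CvR.zero)) rfl <|
    CvB.step (b := 25) (q := 4) (CvR.step ⟨bnd_l (bnd_r (bnd_r cKK_25_10.down))⟩ rfl CvR.zero) rfl <|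
    CvB.step (b := 21) (q := 4) (CvR.step ⟨bnd_l cKK_21_12.down⟩ rfl (CvR.step ⟨(bnd_r (bnd_r cKK_21_11.down))⟩ rfl CvR.zero)) rfl <|
    CvB.step (b := 17) (q := 4) (CvR.step ⟨bnd_l cKK_17_14.down⟩ rfl CvR.zero) rfl <|
    CvB.step (b := 13) (q := 4) (CvR.step ⟨bnd_l cKK_13_17.down⟩ rfl (CvR.step ⟨(bnd_r (bnd_r cKK_13_16.down))⟩ rfl CvR.zero)) rfl <|
    CvB.step (b := 9) (q := 4) (CvR.step ⟨bnd_l cKK_9_21.down⟩ rfl (CvR.step ⟨(bnd_r cKK_9_20.down)⟩ rfl CvR.zero)) rfl <|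
    CvB.step (b := 5) (q := 4) (CvR.step ⟨bnd_l cKK_5_23.down⟩ rfl CvR.zero) rfl <|
    CvB.step (b := 1) (q := 4) (CvR.step ⟨cKK_1_24.down⟩ rfl CvR.zero) rfl <|
    CvB.zero)
    (by decide +kernel)

theorem bKK_25 : JobB fKK Ah Am (fun _ => Am.b0) 25 :=
  CvB.job (b0 := 13) (y := 1) (n := 34) (lo := 1) (hi := 33)
    (CvB.step (b := 29) (q := 4) (CvR.step ⟨bnd_l (bnd_r cKK_29_8.down)⟩ rfl CvR.zero) rfl <|
    CvB.step (b := 25) (q := 4) (CvR.step ⟨(bnd_r (bnd_r (bnd_r cKK_25_10.down)))⟩ rfl CvR.zero) rfl <|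
    CvB.step (b := 21) (q := 4) (CvR.step ⟨bnd_l (bnd_r cKK_21_12.down)⟩ rfl CvR.zero) rfl <|
    CvB.step (b := 17) (q := 4) (CvR.step ⟨(bnd_r cKK_17_14.down)⟩ rfl CvR.zero) rfl <|
    CvB.step (b := 13) (q := 4) (CvR.step ⟨bnd_l (bnd_r cKK_13_17.down)⟩ rfl CvR.zero) rfl <|
    CvB.step (b := 9) (q := 4) (CvR.step ⟨bnd_l (bnd_r cKK_9_21.down)⟩ rfl CvR.zero) rfl <|
    CvB.step (b := 5) (q := 4) (CvR.step ⟨bnd_l cKK_5_24.down⟩ rfl (CvR.step ⟨(bnd_r cKK_5_23.down)⟩ rfl CvR.zero)) rfl <|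
    CvB.step (b := 1) (q := 4) (CvR.step ⟨cKK_1_25.down⟩ rfl CvR.zero) rfl <|
    CvB.zero)
    (by decide +kernel)

theorem bKK_26 : JobB fKK Ah Am (fun _ => Am.b0) 26 :=
  CvB.job (b0 := 14) (y := 0) (n := 29) (lo := 1) (hi := 33)
    (CvB.step (b := 29) (q := 4) (CvR.step ⟨bnd_l (bnd_r (bnd_r cKK_29_8.down))⟩ rfl CvR.zero) rfl <|
    CvB.step (b := 25) (q := 4) (CvR.step ⟨bnd_l cKK_25_11.down⟩ rfl CvR.zero) rfl <|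
    CvB.step (b := 21) (q := 4) (CvR.step ⟨(bnd_r (bnd_r cKK_21_12.down))⟩ rfl CvR.zero) rfl <|
    CvB.step (b := 17) (q := 4) (CvR.step ⟨bnd_l cKK_17_15.down⟩ rfl CvR.zero) rfl <|
    CvB.step (b := 13) (q := 4) (CvR.step ⟨(bnd_r (bnd_r cKK_13_17.down))⟩ rfl CvR.zero) rfl <|
    CvB.step (b := 9) (q := 4) (CvR.step ⟨bnd_l cKK_9_22.down⟩ rfl (CvR.step ⟨(bnd_r (bnd_r cKK_9_21.down))⟩ rfl CvR.zero)) rfl <|
    CvB.step (b := 5) (q := 4) (CvR.step ⟨(bnd_r cKK_5_24.down)⟩ rfl CvR.zero) rfl <|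
    CvB.step (b := 1) (q := 4) (CvR.step ⟨bnd_l cKK_1_26.down⟩ rfl CvR.zero) rfl <|
    CvB.zero)
    (by decide +kernel)

theorem bKK_27 : JobB fKK Ah Am (fun _ => Am.b0) 27 :=
  CvB.job (b0 := 14) (y := 1) (n := 32) (lo := 1) (hi := 33)
    (CvB.step (b := 29) (q := 4) (CvR.step ⟨bnd_l (bnd_r (bnd_r (bnd_r cKK_29_8.down)))⟩ rfl CvR.zero) rfl <|
    CvB.step (b := 25) (q := 4) (CvR.step ⟨bnd_l (bnd_r cKK_25_11.down)⟩ rfl CvR.zero) rfl <|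
    CvB.step (b := 21) (q := 4) (CvR.step ⟨bnd_l cKK_21_13.down⟩ rfl CvR.zero) rfl <|
    CvB.step (b := 17) (q := 4) (CvR.step ⟨(bnd_r cKK_17_15.down)⟩ rfl CvR.zero) rfl <|
    CvB.step (b := 13) (q := 4) (CvR.step ⟨bnd_l cKK_13_18.down⟩ rfl CvR.zero) rfl <|
    CvB.step (b := 9) (q := 4) (CvR.step ⟨bnd_l (bnd_r cKK_9_22.down)⟩ rfl CvR.zero) rfl <|
    CvB.step (b := 5) (q := 4) (CvR.step ⟨bnd_l cKK_5_25.down⟩ rfl CvR.zero) rfl <|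
    CvB.step (b := 1) (q := 4) (CvR.step ⟨bnd_l cKK_1_27.down⟩ rfl (CvR.step ⟨(bnd_r cKK_1_26.down)⟩ rfl CvR.zero)) rfl <|
    CvB.zero)
    (by decide +kernel)

theorem bKK_28 : JobB fKK Ah Am (fun _ => Am.b0) 28 :=
  CvB.job (b0 := 15) (y := 0) (n := 27) (lo := 1) (hi := 33)
    (CvB.step (b := 29) (q := 4) (CvR.step ⟨bnd_l cKK_29_9.down⟩ rfl (CvR.step ⟨(bnd_r (bnd_r (bnd_r (bnd_r cKK_29_8.down))))⟩ rfl CvR.zero)) rfl <|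
    CvB.step (b := 25) (q := 4) (CvR.step ⟨(bnd_r (bnd_r cKK_25_11.down))⟩ rfl CvR.zero) rfl <|
    CvB.step (b := 21) (q := 4) (CvR.step ⟨bnd_l (bnd_r cKK_21_13.down)⟩ rfl CvR.zero) rfl <|
    CvB.step (b := 17) (q := 4) (CvR.step ⟨bnd_l cKK_17_16.down⟩ rfl CvR.zero) rfl <|
    CvB.step (b := 13) (q := 4) (CvR.step ⟨(bnd_r cKK_13_18.down)⟩ rfl CvR.zero) rfl <|
    CvB.step (b := 9) (q := 4) (CvR.step ⟨(bnd_r (bnd_r cKK_9_22.down))⟩ rfl CvR.zero) rfl <|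
    CvB.step (b := 5) (q := 4) (CvR.step ⟨(bnd_r cKK_5_25.down)⟩ rfl CvR.zero) rfl <|
    CvB.step (b := 1) (q := 4) (CvR.step ⟨(bnd_r cKK_1_27.down)⟩ rfl CvR.zero) rfl <|
    CvB.zero)
    (by decide +kernel)

theorem bKK_29 : JobB fKK Ah Am (fun _ => Am.b0) 29 :=
  CvB.job (b0 := 15) (y := 1) (n := 30) (lo := 1) (hi := 33)
    (CvB.step (b := 29) (q := 4) (CvR.step ⟨bnd_l (bnd_r cKK_29_9.down)⟩ rfl CvR.zero) rfl <|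
    CvB.step (b := 25) (q := 4) (CvR.step ⟨bnd_l cKK_25_12.down⟩ rfl CvR.zero) rfl <|
    CvB.step (b := 21) (q := 4) (CvR.step ⟨(bnd_r (bnd_r cKK_21_13.down))⟩ rfl CvR.zero) rfl <|
    CvB.step (b := 17) (q := 4) (CvR.step ⟨(bnd_r cKK_17_16.down)⟩ rfl CvR.zero) rfl <|
    CvB.step (b := 13) (q := 4) (CvR.step ⟨bnd_l cKK_13_19.down⟩ rfl CvR.zero) rfl <|
    CvB.step (b := 9) (q := 4) (CvR.step ⟨bnd_l cKK_9_23.down⟩ rfl CvR.zero) rfl <|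
    CvB.step (b := 5) (q := 4) (CvR.step ⟨bnd_l cKK_5_26.down⟩ rfl CvR.zero) rfl <|
    CvB.step (b := 1) (q := 4) (CvR.step ⟨cKK_1_28.down⟩ rfl CvR.zero) rfl <|
    CvB.zero)
    (by decide +kernel)

theorem bKK_30 : JobB fKK Ah Am (fun _ => Am.b0) 30 :=
  CvB.job (b0 := 16) (y := 0) (n := 25) (lo := 1) (hi := 33)
    (CvB.step (b := 29) (q := 4) (CvR.step ⟨bnd_l (bnd_r (bnd_r cKK_29_9.down))⟩ rfl CvR.zero) rfl <|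
    CvB.step (b := 25) (q := 4) (CvR.step ⟨bnd_l (bnd_r cKK_25_12.down)⟩ rfl CvR.zero) rfl <|
    CvB.step (b := 21) (q := 4) (CvR.step ⟨bnd_l cKK_21_14.down⟩ rfl CvR.zero) rfl <|
    CvB.step (b := 17) (q := 4) (CvR.step ⟨bnd_l cKK_17_17.down⟩ rfl CvR.zero) rfl <|
    CvB.step (b := 13) (q := 4) (CvR.step ⟨(bnd_r cKK_13_19.down)⟩ rfl CvR.zero) rfl <|
    CvB.step (b := 9) (q := 4) (CvR.step ⟨(bnd_r cKK_9_23.down)⟩ rfl CvR.zero) rfl <|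
    CvB.step (b := 5) (q := 4) (CvR.step ⟨(bnd_r cKK_5_26.down)⟩ rfl CvR.zero) rfl <|
    CvB.step (b := 1) (q := 4) (CvR.step ⟨bnd_l cKK_1_29.down⟩ rfl CvR.zero) rfl <|
    CvB.zero)
    (by decide +kernel)

theorem bKK_31 : JobB fKK Ah Am (fun _ => Am.b0) 31 :=
  CvB.job (b0 := 16) (y := 1) (n := 28) (lo := 1) (hi := 33)
    (CvB.step (b := 29) (q := 4) (CvR.step ⟨bnd_l (bnd_r (bnd_r (bnd_r cKK_29_9.down)))⟩ rfl CvR.zero) rfl <|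
    CvB.step (b := 25) (q := 4) (CvR.step ⟨bnd_l (bnd_r (bnd_r cKK_25_12.down))⟩ rfl CvR.zero) rfl <|
    CvB.step (b := 21) (q := 4) (CvR.step ⟨bnd_l (bnd_r cKK_21_14.down)⟩ rfl CvR.zero) rfl <|
    CvB.step (b := 17) (q := 4) (CvR.step ⟨bnd_l (bnd_r cKK_17_17.down)⟩ rfl CvR.zero) rfl <|
    CvB.step (b := 13) (q := 4) (CvR.step ⟨bnd_l cKK_13_20.down⟩ rfl CvR.zero) rfl <|
    CvB.step (b := 9) (q := 4) (CvR.step ⟨bnd_l cKK_9_24.down⟩ rfl CvR.zero) rfl <|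
    CvB.step (b := 5) (q := 4) (CvR.step ⟨bnd_l cKK_5_27.down⟩ rfl CvR.zero) rfl <|
    CvB.step (b := 1) (q := 4) (CvR.step ⟨(bnd_r cKK_1_29.down)⟩ rfl CvR.zero) rfl <|
    CvB.zero)
    (by decide +kernel)

theorem bKK_32 : JobB fKK Ah Am (fun _ => Am.b0) 32 :=
  CvB.job (b0 := 17) (y := 0) (n := 23) (lo := 1) (hi := 33)
    (CvB.step (b := 29) (q := 4) (CvR.step ⟨(bnd_r (bnd_r (bnd_r (bnd_r cKK_29_9.down))))⟩ rfl CvR.zero) rfl <|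
    CvB.step (b := 25) (q := 4) (CvR.step ⟨(bnd_r (bnd_r (bnd_r cKK_25_12.down)))⟩ rfl CvR.zero) rfl <|
    CvB.step (b := 21) (q := 4) (CvR.step ⟨(bnd_r (bnd_r cKK_21_14.down))⟩ rfl CvR.zero) rfl <|
    CvB.step (b := 17) (q := 4) (CvR.step ⟨(bnd_r (bnd_r cKK_17_17.down))⟩ rfl CvR.zero) rfl <|
    CvB.step (b := 13) (q := 4) (CvR.step ⟨(bnd_r cKK_13_20.down)⟩ rfl CvR.zero) rfl <|
    CvB.step (b := 9) (q := 4) (CvR.step ⟨(bnd_r cKK_9_24.down)⟩ rfl CvR.zero) rfl <|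
    CvB.step (b := 5) (q := 4) (CvR.step ⟨(bnd_r cKK_5_27.down)⟩ rfl CvR.zero) rfl <|
    CvB.step (b := 1) (q := 4) (CvR.step ⟨bnd_l cKK_1_30.down⟩ rfl CvR.zero) rfl <|
    CvB.zero)
    (by decide +kernel)

theorem bKK_33 : JobB fKK Ah Am (fun _ => Am.b0) 33 :=
  CvB.job (b0 := 17) (y := 1) (n := 26) (lo := 1) (hi := 33)
    (CvB.step (b := 29) (q := 4) (CvR.step ⟨bnd_l cKK_29_10.down⟩ rfl CvR.zero) rfl <|
    CvB.step (b := 25) (q := 4) (CvR.step ⟨bnd_l cKK_25_13.down⟩ rfl CvR.zero) rfl <|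
    CvB.step (b := 21) (q := 4) (CvR.step ⟨bnd_l cKK_21_15.down⟩ rfl CvR.zero) rfl <|
    CvB.step (b := 17) (q := 4) (CvR.step ⟨bnd_l cKK_17_18.down⟩ rfl CvR.zero) rfl <|
    CvB.step (b := 13) (q := 4) (CvR.step ⟨bnd_l cKK_13_21.down⟩ rfl CvR.zero) rfl <|
    CvB.step (b := 9) (q := 4) (CvR.step ⟨bnd_l cKK_9_25.down⟩ rfl CvR.zero) rfl <|
    CvB.step (b := 5) (q := 4) (CvR.step ⟨bnd_l cKK_5_28.down⟩ rfl CvR.zero) rfl <|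
    CvB.step (b := 1) (q := 4) (CvR.step ⟨(bnd_r cKK_1_30.down)⟩ rfl CvR.zero) rfl <|
    CvB.zero)
    (by decide +kernel)

theorem bKK_34 : JobB fKK Ah Am (fun _ => Am.b0) 34 :=
  CvB.job (b0 := 18) (y := 0) (n := 21) (lo := 1) (hi := 33)
    (CvB.step (b := 29) (q := 4) (CvR.step ⟨bnd_l (bnd_r cKK_29_10.down)⟩ rfl CvR.zero) rfl <|
    CvB.step (b := 25) (q := 4) (CvR.step ⟨bnd_l (bnd_r cKK_25_13.down)⟩ rfl CvR.zero) rfl <|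
    CvB.step (b := 21) (q := 4) (CvR.step ⟨bnd_l (bnd_r cKK_21_15.down)⟩ rfl CvR.zero) rfl <|
    CvB.step (b := 17) (q := 4) (CvR.step ⟨bnd_l (bnd_r cKK_17_18.down)⟩ rfl CvR.zero) rfl <|
    CvB.step (b := 13) (q := 4) (CvR.step ⟨(bnd_r cKK_13_21.down)⟩ rfl CvR.zero) rfl <|
    CvB.step (b := 9) (q := 4) (CvR.step ⟨(bnd_r cKK_9_25.down)⟩ rfl CvR.zero) rfl <|
    CvB.step (b := 5) (q := 4) (CvR.step ⟨(bnd_r cKK_5_28.down)⟩ rfl CvR.zero) rfl <|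
    CvB.step (b := 1) (q := 4) (CvR.step ⟨bnd_l cKK_1_31.down⟩ rfl CvR.zero) rfl <|
    CvB.zero)
    (by decide +kernel)

theorem bKK_35 : JobB fKK Ah Am (fun _ => Am.b0) 35 :=
  CvB.job (b0 := 18) (y := 1) (n := 24) (lo := 1) (hi := 33)
    (CvB.step (b := 29) (q := 4) (CvR.step ⟨bnd_l (bnd_r (bnd_r cKK_29_10.down))⟩ rfl CvR.zero) rfl <|
    CvB.step (b := 25) (q := 4) (CvR.step ⟨bnd_l (bnd_r (bnd_r cKK_25_13.down))⟩ rfl CvR.zero) rfl <|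
    CvB.step (b := 21) (q := 4) (CvR.step ⟨(bnd_r (bnd_r cKK_21_15.down))⟩ rfl CvR.zero) rfl <|
    CvB.step (b := 17) (q := 4) (CvR.step ⟨(bnd_r (bnd_r cKK_17_18.down))⟩ rfl CvR.zero) rfl <|
    CvB.step (b := 13) (q := 4) (CvR.step ⟨bnd_l cKK_13_22.down⟩ rfl CvR.zero) rfl <|
    CvB.step (b := 9) (q := 4) (CvR.step ⟨bnd_l cKK_9_26.down⟩ rfl CvR.zero) rfl <|
    CvB.step (b := 5) (q := 4) (CvR.step ⟨bnd_l cKK_5_29.down⟩ rfl CvR.zero) rfl <|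
    CvB.step (b := 1) (q := 4) (CvR.step ⟨(bnd_r cKK_1_31.down)⟩ rfl CvR.zero) rfl <|
    CvB.zero)
    (by decide +kernel)

theorem bKK_36 : JobB fKK Ah Am (fun _ => Am.b0) 36 :=
  CvB.job (b0 := 19) (y := 0) (n := 19) (lo := 1) (hi := 33)
    (CvB.step (b := 29) (q := 4) (CvR.step ⟨bnd_l (bnd_r (bnd_r (bnd_r cKK_29_10.down)))⟩ rfl CvR.zero) rfl <|
    CvB.step (b := 25) (q := 4) (CvR.step ⟨(bnd_r (bnd_r (bnd_r cKK_25_13.down)))⟩ rfl CvR.zero) rfl <|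
    CvB.step (b := 21) (q := 4) (CvR.step ⟨bnd_l cKK_21_16.down⟩ rfl CvR.zero) rfl <|
    CvB.step (b := 17) (q := 4) (CvR.step ⟨bnd_l cKK_17_19.down⟩ rfl CvR.zero) rfl <|
    CvB.step (b := 13) (q := 4) (CvR.step ⟨bnd_l (bnd_r cKK_13_22.down)⟩ rfl CvR.zero) rfl <|
    CvB.step (b := 9) (q := 4) (CvR.step ⟨(bnd_r cKK_9_26.down)⟩ rfl CvR.zero) rfl <|
    CvB.step (b := 5) (q := 4) (CvR.step ⟨(bnd_r cKK_5_29.down)⟩ rfl CvR.zero) rfl <|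
    CvB.step (b := 1) (q := 4) (CvR.step ⟨bnd_l cKK_1_32.down⟩ rfl CvR.zero) rfl <|
    CvB.zero)
    (by decide +kernel)

theorem bKK_37 : JobB fKK Ah Am (fun _ => Am.b0) 37 :=
  CvB.job (b0 := 19) (y := 1) (n := 22) (lo := 1) (hi := 33)
    (CvB.step (b := 29) (q := 4) (CvR.step ⟨(bnd_r (bnd_r (bnd_r (bnd_r cKK_29_10.down))))⟩ rfl CvR.zero) rfl <|
    CvB.step (b := 25) (q := 4) (CvR.step ⟨bnd_l cKK_25_14.down⟩ rfl CvR.zero) rfl <|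
    CvB.step (b := 21) (q := 4) (CvR.step ⟨bnd_l (bnd_r cKK_21_16.down)⟩ rfl CvR.zero) rfl <|
    CvB.step (b := 17) (q := 4) (CvR.step ⟨bnd_l (bnd_r cKK_17_19.down)⟩ rfl CvR.zero) rfl <|
    CvB.step (b := 13) (q := 4) (CvR.step ⟨(bnd_r (bnd_r cKK_13_22.down))⟩ rfl CvR.zero) rfl <|
    CvB.step (b := 9) (q := 4) (CvR.step ⟨bnd_l cKK_9_27.down⟩ rfl CvR.zero) rfl <|
    CvB.step (b := 5) (q := 4) (CvR.step ⟨bnd_l cKK_5_30.down⟩ rfl CvR.zero) rfl <|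
    CvB.step (b := 1) (q := 4) (CvR.step ⟨(bnd_r cKK_1_32.down)⟩ rfl CvR.zero) rfl <|
    CvB.zero)
    (by decide +kernel)

theorem bKK_38 : JobB fKK Ah Am (fun _ => Am.b0) 38 :=
  CvB.job (b0 := 20) (y := 0) (n := 17) (lo := 1) (hi := 33)
    (CvB.step (b := 29) (q := 4) (CvR.step ⟨bnd_l cKK_29_11.down⟩ rfl CvR.zero) rfl <|
    CvB.step (b := 25) (q := 4) (CvR.step ⟨bnd_l (bnd_r cKK_25_14.down)⟩ rfl CvR.zero) rfl <|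
    CvB.step (b := 21) (q := 4) (CvR.step ⟨bnd_l (bnd_r (bnd_r cKK_21_16.down))⟩ rfl CvR.zero) rfl <|
    CvB.step (b := 17) (q := 4) (CvR.step ⟨(bnd_r (bnd_r cKK_17_19.down))⟩ rfl CvR.zero) rfl <|
    CvB.step (b := 13) (q := 4) (CvR.step ⟨bnd_l cKK_13_23.down⟩ rfl CvR.zero) rfl <|
    CvB.step (b := 9) (q := 4) (CvR.step ⟨bnd_l (bnd_r cKK_9_27.down)⟩ rfl CvR.zero) rfl <|
    CvB.step (b := 5) (q := 4) (CvR.step ⟨(bnd_r cKK_5_30.down)⟩ rfl CvR.zero) rfl <|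
    CvB.step (b := 1) (q := 4) (CvR.step ⟨bnd_l cKK_1_33.down⟩ rfl CvR.zero) rfl <|
    CvB.zero)
    (by decide +kernel)

theorem bKK_39 : JobB fKK Ah Am (fun _ => Am.b0) 39 :=
  CvB.job (b0 := 20) (y := 1) (n := 20) (lo := 1) (hi := 33)
    (CvB.step (b := 29) (q := 4) (CvR.step ⟨bnd_l (bnd_r cKK_29_11.down)⟩ rfl CvR.zero) rfl <|
    CvB.step (b := 25) (q := 4) (CvR.step ⟨bnd_l (bnd_r (bnd_r cKK_25_14.down))⟩ rfl CvR.zero) rfl <|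
    CvB.step (b := 21) (q := 4) (CvR.step ⟨(bnd_r (bnd_r (bnd_r cKK_21_16.down)))⟩ rfl CvR.zero) rfl <|
    CvB.step (b := 17) (q := 4) (CvR.step ⟨bnd_l cKK_17_20.down⟩ rfl CvR.zero) rfl <|
    CvB.step (b := 13) (q := 4) (CvR.step ⟨bnd_l (bnd_r cKK_13_23.down)⟩ rfl CvR.zero) rfl <|
    CvB.step (b := 9) (q := 4) (CvR.step ⟨(bnd_r (bnd_r cKK_9_27.down))⟩ rfl CvR.zero) rfl <|
    CvB.step (b := 5) (q := 4) (CvR.step ⟨bnd_l cKK_5_31.down⟩ rfl CvR.zero) rfl <|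
    CvB.step (b := 1) (q := 4) (CvR.step ⟨(bnd_r cKK_1_33.down)⟩ rfl CvR.zero) rfl <|
    CvB.zero)
    (by decide +kernel)

theorem bKK_40 : JobB fKK Ah Am (fun _ => Am.b0) 40 :=
  CvB.job (b0 := 21) (y := 0) (n := 15) (lo := 1) (hi := 33)
    (CvB.step (b := 29) (q := 4) (CvR.step ⟨bnd_l (bnd_r (bnd_r cKK_29_11.down))⟩ rfl CvR.zero) rfl <|
    CvB.step (b := 25) (q := 4) (CvR.step ⟨bnd_l (bnd_r (bnd_r (bnd_r cKK_25_14.down)))⟩ rfl CvR.zero) rfl <|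
    CvB.step (b := 21) (q := 4) (CvR.step ⟨bnd_l cKK_21_17.down⟩ rfl CvR.zero) rfl <|
    CvB.step (b := 17) (q := 4) (CvR.step ⟨bnd_l (bnd_r cKK_17_20.down)⟩ rfl CvR.zero) rfl <|
    CvB.step (b := 13) (q := 4) (CvR.step ⟨(bnd_r (bnd_r cKK_13_23.down))⟩ rfl CvR.zero) rfl <|
    CvB.step (b := 9) (q := 4) (CvR.step ⟨bnd_l cKK_9_28.down⟩ rfl CvR.zero) rfl <|
    CvB.step (b := 5) (q := 4) (CvR.step ⟨bnd_l (bnd_r cKK_5_31.down)⟩ rfl CvR.zero) rfl <|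
    CvB.step (b := 1) (q := 4) (CvR.step ⟨bnd_l cKK_1_34.down⟩ rfl CvR.zero) rfl <|
    CvB.zero)
    (by decide +kernel)

theorem bKK_41 : JobB fKK Ah Am (fun _ => Am.b0) 41 :=
  CvB.job (b0 := 21) (y := 1) (n := 18) (lo := 1) (hi := 33)
    (CvB.step (b := 29) (q := 4) (CvR.step ⟨bnd_l (bnd_r (bnd_r (bnd_r cKK_29_11.down)))⟩ rfl CvR.zero) rfl <|
    CvB.step (b := 25) (q := 4) (CvR.step ⟨(bnd_r (bnd_r (bnd_r (bnd_r cKK_25_14.down))))⟩ rfl CvR.zero) rfl <|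
    CvB.step (b := 21) (q := 4) (CvR.step ⟨bnd_l (bnd_r cKK_21_17.down)⟩ rfl CvR.zero) rfl <|
    CvB.step (b := 17) (q := 4) (CvR.step ⟨bnd_l (bnd_r (bnd_r cKK_17_20.down))⟩ rfl CvR.zero) rfl <|
    CvB.step (b := 13) (q := 4) (CvR.step ⟨bnd_l cKK_13_24.down⟩ rfl CvR.zero) rfl <|
    CvB.step (b := 9) (q := 4) (CvR.step ⟨bnd_l (bnd_r cKK_9_28.down)⟩ rfl CvR.zero) rfl <|
    CvB.step (b := 5) (q := 4) (CvR.step ⟨(bnd_r (bnd_r cKK_5_31.down))⟩ rfl CvR.zero) rfl <|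
    CvB.step (b := 1) (q := 4) (CvR.step ⟨bnd_l (bnd_r cKK_1_34.down)⟩ rfl CvR.zero) rfl <|
    CvB.zero)
    (by decide +kernel)

theorem bKK_42 : JobB fKK Ah Am (fun _ => Am.b0) 42 :=
  CvB.job (b0 := 22) (y := 0) (n := 13) (lo := 1) (hi := 33)
    (CvB.step (b := 29) (q := 4) (CvR.step ⟨bnd_l (bnd_r (bnd_r (bnd_r (bnd_r cKK_29_11.down))))⟩ rfl CvR.zero) rfl <|
    CvB.step (b := 25) (q := 4) (CvR.step ⟨bnd_l cKK_25_15.down⟩ rfl CvR.zero) rfl <|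
    CvB.step (b := 21) (q := 4) (CvR.step ⟨bnd_l (bnd_r (bnd_r cKK_21_17.down))⟩ rfl CvR.zero) rfl <|
    CvB.step (b := 17) (q := 4) (CvR.step ⟨(bnd_r (bnd_r (bnd_r cKK_17_20.down)))⟩ rfl CvR.zero) rfl <|
    CvB.step (b := 13) (q := 4) (CvR.step ⟨bnd_l (bnd_r cKK_13_24.down)⟩ rfl CvR.zero) rfl <|
    CvB.step (b := 9) (q := 4) (CvR.step ⟨(bnd_r (bnd_r cKK_9_28.down))⟩ rfl CvR.zero) rfl <|
    CvB.step (b := 5) (q := 4) (CvR.step ⟨bnd_l cKK_5_32.down⟩ rfl CvR.zero) rfl <|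
    CvB.step (b := 1) (q := 4) (CvR.step ⟨(bnd_r (bnd_r cKK_1_34.down))⟩ rfl CvR.zero) rfl <|
    CvB.zero)
    (by decide +kernel)

theorem bKK_43 : JobB fKK Ah Am (fun _ => Am.b0) 43 :=
  CvB.job (b0 := 22) (y := 1) (n := 16) (lo := 1) (hi := 33)
    (CvB.step (b := 29) (q := 4) (CvR.step ⟨(bnd_r (bnd_r (bnd_r (bnd_r (bnd_r cKK_29_11.down)))))⟩ rfl CvR.zero) rfl <|
    CvB.step (b := 25) (q := 4) (CvR.step ⟨bnd_l (bnd_r cKK_25_15.down)⟩ rfl CvR.zero) rfl <|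
    CvB.step (b := 21) (q := 4) (CvR.step ⟨bnd_l (bnd_r (bnd_r (bnd_r cKK_21_17.down)))⟩ rfl CvR.zero) rfl <|
    CvB.step (b := 17) (q := 4) (CvR.step ⟨bnd_l cKK_17_21.down⟩ rfl CvR.zero) rfl <|
    CvB.step (b := 13) (q := 4) (CvR.step ⟨bnd_l (bnd_r (bnd_r cKK_13_24.down))⟩ rfl CvR.zero) rfl <|
    CvB.step (b := 9) (q := 4) (CvR.step ⟨bnd_l cKK_9_29.down⟩ rfl CvR.zero) rfl <|
    CvB.step (b := 5) (q := 4) (CvR.step ⟨bnd_l (bnd_r cKK_5_32.down)⟩ rfl CvR.zero) rfl <|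
    CvB.step (b := 1) (q := 4) (CvR.step ⟨bnd_l cKK_1_35.down⟩ rfl CvR.zero) rfl <|
    CvB.zero)
    (by decide +kernel)

theorem bKK_44 : JobB fKK Ah Am (fun _ => Am.b0) 44 :=
  CvB.job (b0 := 23) (y := 0) (n := 11) (lo := 1) (hi := 33)
    (CvB.step (b := 29) (q := 4) (CvR.step ⟨bnd_l cKK_29_12.down⟩ rfl CvR.zero) rfl <|
    CvB.step (b := 25) (q := 4) (CvR.step ⟨bnd_l (bnd_r (bnd_r cKK_25_15.down))⟩ rfl CvR.zero) rfl <|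
    CvB.step (b := 21) (q := 4) (CvR.step ⟨(bnd_r (bnd_r (bnd_r (bnd_r cKK_21_17.down))))⟩ rfl CvR.zero) rfl <|
    CvB.step (b := 17) (q := 4) (CvR.step ⟨bnd_l (bnd_r cKK_17_21.down)⟩ rfl CvR.zero) rfl <|
    CvB.step (b := 13) (q := 4) (CvR.step ⟨(bnd_r (bnd_r (bnd_r cKK_13_24.down)))⟩ rfl CvR.zero) rfl <|
    CvB.step (b := 9) (q := 4) (CvR.step ⟨bnd_l (bnd_r cKK_9_29.down)⟩ rfl CvR.zero) rfl <|
    CvB.step (b := 5) (q := 4) (CvR.step ⟨bnd_l (bnd_r (bnd_r cKK_5_32.down))⟩ rfl CvR.zero) rfl <|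
    CvB.step (b := 1) (q := 4) (CvR.step ⟨bnd_l (bnd_r cKK_1_35.down)⟩ rfl CvR.zero) rfl <|
    CvB.zero)
    (by decide +kernel)

theorem bKK_45 : JobB fKK Ah Am (fun _ => Am.b0) 45 :=
  CvB.job (b0 := 23) (y := 1) (n := 14) (lo := 1) (hi := 33)
    (CvB.step (b := 29) (q := 4) (CvR.step ⟨bnd_l (bnd_r cKK_29_12.down)⟩ rfl CvR.zero) rfl <|
    CvB.step (b := 25) (q := 4) (CvR.step ⟨bnd_l (bnd_r (bnd_r (bnd_r cKK_25_15.down)))⟩ rfl CvR.zero) rfl <|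
    CvB.step (b := 21) (q := 4) (CvR.step ⟨bnd_l cKK_21_18.down⟩ rfl CvR.zero) rfl <|
    CvB.step (b := 17) (q := 4) (CvR.step ⟨bnd_l (bnd_r (bnd_r cKK_17_21.down))⟩ rfl CvR.zero) rfl <|
    CvB.step (b := 13) (q := 4) (CvR.step ⟨bnd_l cKK_13_25.down⟩ rfl CvR.zero) rfl <|
    CvB.step (b := 9) (q := 4) (CvR.step ⟨bnd_l (bnd_r (bnd_r cKK_9_29.down))⟩ rfl CvR.zero) rfl <|
    CvB.step (b := 5) (q := 4) (CvR.step ⟨(bnd_r (bnd_r (bnd_r cKK_5_32.down)))⟩ rfl CvR.zero) rfl <|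
    CvB.step (b := 1) (q := 4) (CvR.step ⟨(bnd_r (bnd_r cKK_1_35.down))⟩ rfl CvR.zero) rfl <|
    CvB.zero)
    (by decide +kernel)

theorem bKK_46 : JobB fKK Ah Am (fun _ => Am.b0) 46 :=
  CvB.job (b0 := 24) (y := 0) (n := 9) (lo := 1) (hi := 33)
    (CvB.step (b := 29) (q := 4) (CvR.step ⟨bnd_l (bnd_r (bnd_r cKK_29_12.down))⟩ rfl CvR.zero) rfl <|
    CvB.step (b := 25) (q := 4) (CvR.step ⟨bnd_l (bnd_r (bnd_r (bnd_r (bnd_r cKK_25_15.down))))⟩ rfl CvR.zero) rfl <|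
    CvB.step (b := 21) (q := 4) (CvR.step ⟨bnd_l (bnd_r cKK_21_18.down)⟩ rfl CvR.zero) rfl <|
    CvB.step (b := 17) (q := 4) (CvR.step ⟨bnd_l (bnd_r (bnd_r (bnd_r cKK_17_21.down)))⟩ rfl CvR.zero) rfl <|
    CvB.step (b := 13) (q := 4) (CvR.step ⟨bnd_l (bnd_r cKK_13_25.down)⟩ rfl CvR.zero) rfl <|
    CvB.step (b := 9) (q := 4) (CvR.step ⟨(bnd_r (bnd_r (bnd_r cKK_9_29.down)))⟩ rfl CvR.zero) rfl <|
    CvB.step (b := 5) (q := 4) (CvR.step ⟨bnd_l cKK_5_33.down⟩ rfl CvR.zero) rfl <|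
    CvB.step (b := 1) (q := 4) (CvR.step ⟨bnd_l cKK_1_36.down⟩ rfl CvR.zero) rfl <|
    CvB.zero)
    (by decide +kernel)

theorem bKK_47 : JobB fKK Ah Am (fun _ => Am.b0) 47 :=
  CvB.job (b0 := 24) (y := 1) (n := 12) (lo := 1) (hi := 33)
    (CvB.step (b := 29) (q := 4) (CvR.step ⟨bnd_l (bnd_r (bnd_r (bnd_r cKK_29_12.down)))⟩ rfl CvR.zero) rfl <|
    CvB.step (b := 25) (q := 4) (CvR.step ⟨(bnd_r (bnd_r (bnd_r (bnd_r (bnd_r cKK_25_15.down)))))⟩ rfl CvR.zero) rfl <|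
    CvB.step (b := 21) (q := 4) (CvR.step ⟨bnd_l (bnd_r (bnd_r cKK_21_18.down))⟩ rfl CvR.zero) rfl <|
    CvB.step (b := 17) (q := 4) (CvR.step ⟨(bnd_r (bnd_r (bnd_r (bnd_r cKK_17_21.down))))⟩ rfl CvR.zero) rfl <|
    CvB.step (b := 13) (q := 4) (CvR.step ⟨bnd_l (bnd_r (bnd_r cKK_13_25.down))⟩ rfl CvR.zero) rfl <|
    CvB.step (b := 9) (q := 4) (CvR.step ⟨bnd_l cKK_9_30.down⟩ rfl CvR.zero) rfl <|
    CvB.step (b := 5) (q := 4) (CvR.step ⟨bnd_l (bnd_r cKK_5_33.down)⟩ rfl CvR.zero) rfl <|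
    CvB.step (b := 1) (q := 4) (CvR.step ⟨bnd_l (bnd_r cKK_1_36.down)⟩ rfl CvR.zero) rfl <|
    CvB.zero)
    (by decide +kernel)

theorem bKK_48 : JobB fKK Ah Am (fun _ => Am.b0) 48 :=
  CvB.job (b0 := 25) (y := 0) (n := 7) (lo := 1) (hi := 33)
    (CvB.step (b := 29) (q := 4) (CvR.step ⟨bnd_l (bnd_r (bnd_r (bnd_r (bnd_r cKK_29_12.down))))⟩ rfl CvR.zero) rfl <|
    CvB.step (b := 25) (q := 4) (CvR.step ⟨bnd_l cKK_25_16.down⟩ rfl CvR.zero) rfl <|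
    CvB.step (b := 21) (q := 4) (CvR.step ⟨bnd_l (bnd_r (bnd_r (bnd_r cKK_21_18.down)))⟩ rfl CvR.zero) rfl <|
    CvB.step (b := 17) (q := 4) (CvR.step ⟨bnd_l cKK_17_22.down⟩ rfl CvR.zero) rfl <|
    CvB.step (b := 13) (q := 4) (CvR.step ⟨bnd_l (bnd_r (bnd_r (bnd_r cKK_13_25.down)))⟩ rfl CvR.zero) rfl <|
    CvB.step (b := 9) (q := 4) (CvR.step ⟨bnd_l (bnd_r cKK_9_30.down)⟩ rfl CvR.zero) rfl <|
    CvB.step (b := 5) (q := 4) (CvR.step ⟨bnd_l (bnd_r (bnd_r cKK_5_33.down))⟩ rfl CvR.zero) rfl <|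
    CvB.step (b := 1) (q := 4) (CvR.step ⟨bnd_l (bnd_r (bnd_r cKK_1_36.down))⟩ rfl CvR.zero) rfl <|
    CvB.zero)
    (by decide +kernel)

theorem bKK_49 : JobB fKK Ah Am (fun _ => Am.b0) 49 :=
  CvB.job (b0 := 25) (y := 1) (n := 10) (lo := 1) (hi := 33)
    (CvB.step (b := 29) (q := 4) (CvR.step ⟨bnd_l (bnd_r (bnd_r (bnd_r (bnd_r (bnd_r cKK_29_12.down)))))⟩ rfl CvR.zero) rfl <|
    CvB.step (b := 25) (q := 4) (CvR.step ⟨bnd_l (bnd_r cKK_25_16.down)⟩ rfl CvR.zero) rfl <|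
    CvB.step (b := 21) (q := 4) (CvR.step ⟨bnd_l (bnd_r (bnd_r (bnd_r (bnd_r cKK_21_18.down))))⟩ rfl CvR.zero) rfl <|
    CvB.step (b := 17) (q := 4) (CvR.step ⟨bnd_l (bnd_r cKK_17_22.down)⟩ rfl CvR.zero) rfl <|
    CvB.step (b := 13) (q := 4) (CvR.step ⟨(bnd_r (bnd_r (bnd_r (bnd_r cKK_13_25.down))))⟩ rfl CvR.zero) rfl <|
    CvB.step (b := 9) (q := 4) (CvR.step ⟨bnd_l (bnd_r (bnd_r cKK_9_30.down))⟩ rfl CvR.zero) rfl <|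
    CvB.step (b := 5) (q := 4) (CvR.step ⟨bnd_l (bnd_r (bnd_r (bnd_r cKK_5_33.down)))⟩ rfl CvR.zero) rfl <|
    CvB.step (b := 1) (q := 4) (CvR.step ⟨bnd_l (bnd_r (bnd_r (bnd_r cKK_1_36.down)))⟩ rfl CvR.zero) rfl <|
    CvB.zero)
    (by decide +kernel)

theorem bKK_50 : JobB fKK Ah Am (fun _ => Am.b0) 50 :=
  CvB.job (b0 := 26) (y := 0) (n := 5) (lo := 1) (hi := 33)
    (CvB.step (b := 29) (q := 4) (CvR.step ⟨bnd_l (bnd_r (bnd_r (bnd_r (bnd_r (bnd_r (bnd_r cKK_29_12.down))))))⟩ rfl CvR.zero) rfl <|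
    CvB.step (b := 25) (q := 4) (CvR.step ⟨bnd_l (bnd_r (bnd_r cKK_25_16.down))⟩ rfl CvR.zero) rfl <|
    CvB.step (b := 21) (q := 4) (CvR.step ⟨(bnd_r (bnd_r (bnd_r (bnd_r (bnd_r cKK_21_18.down)))))⟩ rfl CvR.zero) rfl <|
    CvB.step (b := 17) (q := 4) (CvR.step ⟨bnd_l (bnd_r (bnd_r cKK_17_22.down))⟩ rfl CvR.zero) rfl <|
    CvB.step (b := 13) (q := 4) (CvR.step ⟨bnd_l cKK_13_26.down⟩ rfl CvR.zero) rfl <|
    CvB.step (b := 9) (q := 4) (CvR.step ⟨bnd_l (bnd_r (bnd_r (bnd_r cKK_9_30.down)))⟩ rfl CvR.zero) rfl <|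
    CvB.step (b := 5) (q := 4) (CvR.step ⟨(bnd_r (bnd_r (bnd_r (bnd_r cKK_5_33.down))))⟩ rfl CvR.zero) rfl <|
    CvB.step (b := 1) (q := 4) (CvR.step ⟨(bnd_r (bnd_r (bnd_r (bnd_r cKK_1_36.down))))⟩ rfl CvR.zero) rfl <|
    CvB.zero)
    (by decide +kernel)

theorem bKK_51 : JobB fKK Ah Am (fun _ => Am.b0) 51 :=
  CvB.job (b0 := 26) (y := 1) (n := 8) (lo := 1) (hi := 33)
    (CvB.step (b := 29) (q := 4) (CvR.step ⟨(bnd_r (bnd_r (bnd_r (bnd_r (bnd_r (bnd_r (bnd_r cKK_29_12.down)))))))⟩ rfl CvR.zero) rfl <|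
    CvB.step (b := 25) (q := 4) (CvR.step ⟨bnd_l (bnd_r (bnd_r (bnd_r cKK_25_16.down)))⟩ rfl CvR.zero) rfl <|
    CvB.step (b := 21) (q := 4) (CvR.step ⟨bnd_l cKK_21_19.down⟩ rfl CvR.zero) rfl <|
    CvB.step (b := 17) (q := 4) (CvR.step ⟨bnd_l (bnd_r (bnd_r (bnd_r cKK_17_22.down)))⟩ rfl CvR.zero) rfl <|
    CvB.step (b := 13) (q := 4) (CvR.step ⟨bnd_l (bnd_r cKK_13_26.down)⟩ rfl CvR.zero) rfl <|
    CvB.step (b := 9) (q := 4) (CvR.step ⟨bnd_l (bnd_r (bnd_r (bnd_r (bnd_r cKK_9_30.down))))⟩ rfl CvR.zero) rfl <|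
    CvB.step (b := 5) (q := 4) (CvR.step ⟨bnd_l cKK_5_34.down⟩ rfl CvR.zero) rfl <|
    CvB.step (b := 1) (q := 4) (CvR.step ⟨bnd_l cKK_1_37.down⟩ rfl CvR.zero) rfl <|
    CvB.zero)
    (by decide +kernel)

theorem bKK_52 : JobB fKK Ah Am (fun _ => Am.b0) 52 :=
  CvB.job (b0 := 27) (y := 0) (n := 3) (lo := 1) (hi := 33)
    (CvB.step (b := 29) (q := 4) (CvR.step ⟨bnd_l cKK_29_13.down⟩ rfl CvR.zero) rfl <|
    CvB.step (b := 25) (q := 4) (CvR.step ⟨bnd_l (bnd_r (bnd_r (bnd_r (bnd_r cKK_25_16.down))))⟩ rfl CvR.zero) rfl <|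
    CvB.step (b := 21) (q := 4) (CvR.step ⟨bnd_l (bnd_r cKK_21_19.down)⟩ rfl CvR.zero) rfl <|
    CvB.step (b := 17) (q := 4) (CvR.step ⟨bnd_l (bnd_r (bnd_r (bnd_r (bnd_r cKK_17_22.down))))⟩ rfl CvR.zero) rfl <|
    CvB.step (b := 13) (q := 4) (CvR.step ⟨bnd_l (bnd_r (bnd_r cKK_13_26.down))⟩ rfl CvR.zero) rfl <|
    CvB.step (b := 9) (q := 4) (CvR.step ⟨(bnd_r (bnd_r (bnd_r (bnd_r (bnd_r cKK_9_30.down)))))⟩ rfl CvR.zero) rfl <|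
    CvB.step (b := 5) (q := 4) (CvR.step ⟨bnd_l (bnd_r cKK_5_34.down)⟩ rfl CvR.zero) rfl <|
    CvB.step (b := 1) (q := 4) (CvR.step ⟨bnd_l (bnd_r cKK_1_37.down)⟩ rfl CvR.zero) rfl <|
    CvB.zero)
    (by decide +kernel)

theorem bKK_53 : JobB fKK Ah Am (fun _ => Am.b0) 53 :=
  CvB.job (b0 := 27) (y := 1) (n := 6) (lo := 1) (hi := 33)
    (CvB.step (b := 29) (q := 4) (CvR.step ⟨bnd_l (bnd_r cKK_29_13.down)⟩ rfl CvR.zero) rfl <|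
    CvB.step (b := 25) (q := 4) (CvR.step ⟨bnd_l (bnd_r (bnd_r (bnd_r (bnd_r (bnd_r cKK_25_16.down)))))⟩ rfl CvR.zero) rfl <|
    CvB.step (b := 21) (q := 4) (CvR.step ⟨bnd_l (bnd_r (bnd_r cKK_21_19.down))⟩ rfl CvR.zero) rfl <|
    CvB.step (b := 17) (q := 4) (CvR.step ⟨bnd_l (bnd_r (bnd_r (bnd_r (bnd_r (bnd_r cKK_17_22.down)))))⟩ rfl CvR.zero) rfl <|
    CvB.step (b := 13) (q := 4) (CvR.step ⟨bnd_l (bnd_r (bnd_r (bnd_r cKK_13_26.down)))⟩ rfl CvR.zero) rfl <|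
    CvB.step (b := 9) (q := 4) (CvR.step ⟨bnd_l cKK_9_31.down⟩ rfl CvR.zero) rfl <|
    CvB.step (b := 5) (q := 4) (CvR.step ⟨bnd_l (bnd_r (bnd_r cKK_5_34.down))⟩ rfl CvR.zero) rfl <|
    CvB.step (b := 1) (q := 4) (CvR.step ⟨bnd_l (bnd_r (bnd_r cKK_1_37.down))⟩ rfl CvR.zero) rfl <|
    CvB.zero)
    (by decide +kernel)

theorem bKK_54 : JobB fKK Ah Am (fun _ => Am.b0) 54 :=
  CvB.job (b0 := 28) (y := 0) (n := 1) (lo := 1) (hi := 33)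
    (CvB.step (b := 29) (q := 4) (CvR.step ⟨bnd_l (bnd_r (bnd_r cKK_29_13.down))⟩ rfl CvR.zero) rfl <|
    CvB.step (b := 25) (q := 4) (CvR.step ⟨bnd_l (bnd_r (bnd_r (bnd_r (bnd_r (bnd_r (bnd_r cKK_25_16.down))))))⟩ rfl CvR.zero) rfl <|
    CvB.step (b := 21) (q := 4) (CvR.step ⟨bnd_l (bnd_r (bnd_r (bnd_r cKK_21_19.down)))⟩ rfl CvR.zero) rfl <|
    CvB.step (b := 17) (q := 4) (CvR.step ⟨bnd_l (bnd_r (bnd_r (bnd_r (bnd_r (bnd_r (bnd_r cKK_17_22.down))))))⟩ rfl CvR.zero) rfl <|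
    CvB.step (b := 13) (q := 4) (CvR.step ⟨bnd_l (bnd_r (bnd_r (bnd_r (bnd_r cKK_13_26.down))))⟩ rfl CvR.zero) rfl <|
    CvB.step (b := 9) (q := 4) (CvR.step ⟨bnd_l (bnd_r cKK_9_31.down)⟩ rfl CvR.zero) rfl <|
    CvB.step (b := 5) (q := 4) (CvR.step ⟨bnd_l (bnd_r (bnd_r (bnd_r cKK_5_34.down)))⟩ rfl CvR.zero) rfl <|
    CvB.step (b := 1) (q := 4) (CvR.step ⟨bnd_l (bnd_r (bnd_r (bnd_r cKK_1_37.down)))⟩ rfl CvR.zero) rfl <|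
    CvB.zero)
    (by decide +kernel)

theorem bKK_55 : JobB fKK Ah Am (fun _ => Am.b0) 55 :=
  CvB.job (b0 := 28) (y := 1) (n := 4) (lo := 1) (hi := 33)
    (CvB.step (b := 29) (q := 4) (CvR.step ⟨(bnd_r (bnd_r (bnd_r cKK_29_13.down)))⟩ rfl CvR.zero) rfl <|
    CvB.step (b := 25) (q := 4) (CvR.step ⟨(bnd_r (bnd_r (bnd_r (bnd_r (bnd_r (bnd_r (bnd_r cKK_25_16.down)))))))⟩ rfl CvR.zero) rfl <|
    CvB.step (b := 21) (q := 4) (CvR.step ⟨(bnd_r (bnd_r (bnd_r (bnd_r cKK_21_19.down))))⟩ rfl CvR.zero) rfl <|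
    CvB.step (b := 17) (q := 4) (CvR.step ⟨(bnd_r (bnd_r (bnd_r (bnd_r (bnd_r (bnd_r (bnd_r cKK_17_22.down)))))))⟩ rfl CvR.zero) rfl <|
    CvB.step (b := 13) (q := 4) (CvR.step ⟨(bnd_r (bnd_r (bnd_r (bnd_r (bnd_r cKK_13_26.down)))))⟩ rfl CvR.zero) rfl <|
    CvB.step (b := 9) (q := 4) (CvR.step ⟨(bnd_r (bnd_r cKK_9_31.down))⟩ rfl CvR.zero) rfl <|
    CvB.step (b := 5) (q := 4) (CvR.step ⟨(bnd_r (bnd_r (bnd_r (bnd_r cKK_5_34.down))))⟩ rfl CvR.zero) rfl <|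
    CvB.step (b := 1) (q := 4) (CvR.step ⟨(bnd_r (bnd_r (bnd_r (bnd_r cKK_1_37.down))))⟩ rfl CvR.zero) rfl <|
    CvB.zero)
    (by decide +kernel)

theorem jobKK : Job fKK Ah Am (fun _ => Am.b0) :=
  AllP.job (n := 56)
    (AllP.step bKK_55 <|
    AllP.step bKK_54 <|
    AllP.step bKK_53 <|
    AllP.step bKK_52 <|
    AllP.step bKK_51 <|
    AllP.step bKK_50 <|
    AllP.step bKK_49 <|
    AllP.step bKK_48 <|
    AllP.step bKK_47 <|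
    AllP.step bKK_46 <|
    AllP.step bKK_45 <|
    AllP.step bKK_44 <|
    AllP.step bKK_43 <|
    AllP.step bKK_42 <|
    AllP.step bKK_41 <|
    AllP.step bKK_40 <|
    AllP.step bKK_39 <|
    AllP.step bKK_38 <|
    AllP.step bKK_37 <|
    AllP.step bKK_36 <|
    AllP.step bKK_35 <|
    AllP.step bKK_34 <|
    AllP.step bKK_33 <|
    AllP.step bKK_32 <|
    AllP.step bKK_31 <|
    AllP.step bKK_30 <|
    AllP.step bKK_29 <|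
    AllP.step bKK_28 <|
    AllP.step bKK_27 <|
    AllP.step bKK_26 <|
    AllP.step bKK_25 <|
    AllP.step bKK_24 <|
    AllP.step bKK_23 <|
    AllP.step bKK_22 <|
    AllP.step bKK_21 <|
    AllP.step bKK_20 <|
    AllP.step bKK_19 <|
    AllP.step bKK_18 <|
    AllP.step bKK_17 <|
    AllP.step bKK_16 <|
    AllP.step bKK_15 <|
    AllP.step bKK_14 <|
    AllP.step bKK_13 <|
    AllP.step bKK_12 <|
    AllP.step bKK_11 <|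
    AllP.step bKK_10 <|
    AllP.step bKK_9 <|
    AllP.step bKK_8 <|
    AllP.step bKK_7 <|
    AllP.step bKK_6 <|
    AllP.step bKK_5 <|
    AllP.step bKK_4 <|
    AllP.step bKK_3 <|
    AllP.step bKK_2 <|
    AllP.step bKK_1 <|
    AllP.step bKK_0 <|
    AllP.zero _)
    (by decide +kernel)

end Pool.Agent.Work.MP_6bf1e5_an.HD
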