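import Pool.Agent.Lib.KBlk.Jobs
import Pool.Agent.Work.MP_6bf1e5_an.HD.CLL0
import Pool.Agent.Work.MP_6bf1e5_an.HD.CLL1
import Pool.Agent.Work.MP_6bf1e5_an.HD.CLL2
import Pool.Agent.Work.MP_6bf1e5_an.HD.CLL3
import Pool.Agent.Work.MP_6bf1e5_an.HD.CLL4
import Pool.Agent.Work.MP_6bf1e5_an.HD.CLL5
import Pool.Agent.Work.MP_6bf1e5_an.HD.CLL6
import Pool.Agent.Work.MP_6bf1e5_an.HD.CLL7
import Pool.Agent.Work.MP_6bf1e5_an.HD.CLL8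
import Pool.Agent.Work.MP_6bf1e5_an.HD.CLL9
import Pool.Agent.Work.MP_6bf1e5_an.HD.CLL10
import Pool.Agent.Work.MP_6bf1e5_an.HD.CLL11
import Pool.Agent.Work.MP_6bf1e5_an.HD.CLL12
import Pool.Agent.Work.MP_6bf1e5_an.HD.CLL13

/-! The pass LL. -/

namespace Pool.Agent.Work.MP_6bf1e5_an.HD

open Pool.Agent.Lib.KLA Pool.Agent.Lib.KBlk

theorem bLL_0 : JobB fLL Ah Am (fun _ => Am.b0) 0 :=
  CvB.job (b0 := 1) (y := 0) (n := 55) (lo := 1) (hi := 33)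
    (CvB.step (b := 29) (q := 4) (CvR.step ⟨bnd_l cLL_29_0.down⟩ rfl CvR.zero) rfl <|
    CvB.step (b := 25) (q := 4) (CvR.step ⟨cLL_25_0.down⟩ rfl CvR.zero) rfl <|
    CvB.step (b := 21) (q := 4) (CvR.step ⟨cLL_21_0.down⟩ rfl CvR.zero) rfl <|
    CvB.step (b := 17) (q := 4) (CvR.step ⟨cLL_17_0.down⟩ rfl CvR.zero) rfl <|
    CvB.step (b := 13) (q := 4) (CvR.step ⟨bnd_l cLL_13_1.down⟩ rfl (CvR.step ⟨cLL_13_0.down⟩ rfl CvR.zero)) rfl <|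
    CvB.step (b := 9) (q := 4) (CvR.step ⟨bnd_l cLL_9_1.down⟩ rfl (CvR.step ⟨cLL_9_0.down⟩ rfl CvR.zero)) rfl <|
    CvB.step (b := 5) (q := 4) (CvR.step ⟨bnd_l cLL_5_1.down⟩ rfl (CvR.step ⟨cLL_5_0.down⟩ rfl CvR.zero)) rfl <|
    CvB.step (b := 1) (q := 4) (CvR.step ⟨bnd_l cLL_1_1.down⟩ rfl (CvR.step ⟨cLL_1_0.down⟩ rfl CvR.zero)) rfl <|
    CvB.zero)
    (by decide +kernel)

theorem bLL_1 : JobB fLL Ah Am (fun _ => Am.b0) 1 :=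
  CvB.job (b0 := 1) (y := 1) (n := 58) (lo := 1) (hi := 33)
    (CvB.step (b := 29) (q := 4) (CvR.step ⟨bnd_l cLL_29_1.down⟩ rfl (CvR.step ⟨(bnd_r cLL_29_0.down)⟩ rfl CvR.zero)) rfl <|
    CvB.step (b := 25) (q := 4) (CvR.step ⟨cLL_25_1.down⟩ rfl CvR.zero) rfl <|
    CvB.step (b := 21) (q := 4) (CvR.step ⟨cLL_21_1.down⟩ rfl CvR.zero) rfl <|
    CvB.step (b := 17) (q := 4) (CvR.step ⟨cLL_17_1.down⟩ rfl CvR.zero) rfl <|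
    CvB.step (b := 13) (q := 4) (CvR.step ⟨bnd_l cLL_13_2.down⟩ rfl (CvR.step ⟨(bnd_r cLL_13_1.down)⟩ rfl CvR.zero)) rfl <|
    CvB.step (b := 9) (q := 4) (CvR.step ⟨cLL_9_2.down⟩ rfl (CvR.step ⟨(bnd_r cLL_9_1.down)⟩ rfl CvR.zero)) rfl <|
    CvB.step (b := 5) (q := 4) (CvR.step ⟨cLL_5_2.down⟩ rfl (CvR.step ⟨(bnd_r cLL_5_1.down)⟩ rfl CvR.zero)) rfl <|
    CvB.step (b := 1) (q := 4) (CvR.step ⟨bnd_l cLL_1_3.down⟩ rfl (CvR.step ⟨cLL_1_2.down⟩ rfl (CvR.step ⟨(bnd_r cLL_1_1.down)⟩ rfl CvR.zero))) rfl <|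
    CvB.zero)
    (by decide +kernel)

theorem bLL_2 : JobB fLL Ah Am (fun _ => Am.b0) 2 :=
  CvB.job (b0 := 2) (y := 0) (n := 53) (lo := 1) (hi := 33)
    (CvB.step (b := 29) (q := 4) (CvR.step ⟨(bnd_r cLL_29_1.down)⟩ rfl CvR.zero) rfl <|
    CvB.step (b := 25) (q := 4) (CvR.step ⟨cLL_25_2.down⟩ rfl CvR.zero) rfl <|
    CvB.step (b := 21) (q := 4) (CvR.step ⟨cLL_21_2.down⟩ rfl CvR.zero) rfl <|
    CvB.step (b := 17) (q := 4) (CvR.step ⟨cLL_17_2.down⟩ rfl CvR.zero) rfl <|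
    CvB.step (b := 13) (q := 4) (CvR.step ⟨cLL_13_3.down⟩ rfl (CvR.step ⟨(bnd_r cLL_13_2.down)⟩ rfl CvR.zero)) rfl <|
    CvB.step (b := 9) (q := 4) (CvR.step ⟨bnd_l cLL_9_4.down⟩ rfl (CvR.step ⟨cLL_9_3.down⟩ rfl CvR.zero)) rfl <|
    CvB.step (b := 5) (q := 4) (CvR.step ⟨bnd_l cLL_5_4.down⟩ rfl (CvR.step ⟨cLL_5_3.down⟩ rfl CvR.zero)) rfl <|
    CvB.step (b := 1) (q := 4) (CvR.step ⟨cLL_1_4.down⟩ rfl (CvR.step ⟨(bnd_r cLL_1_3.down)⟩ rfl CvR.zero)) rfl <|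
    CvB.zero)
    (by decide +kernel)

theorem bLL_3 : JobB fLL Ah Am (fun _ => Am.b0) 3 :=
  CvB.job (b0 := 2) (y := 1) (n := 56) (lo := 1) (hi := 33)
    (CvB.step (b := 29) (q := 4) (CvR.step ⟨bnd_l cLL_29_2.down⟩ rfl CvR.zero) rfl <|
    CvB.step (b := 25) (q := 4) (CvR.step ⟨cLL_25_3.down⟩ rfl CvR.zero) rfl <|
    CvB.step (b := 21) (q := 4) (CvR.step ⟨cLL_21_3.down⟩ rfl CvR.zero) rfl <|
    CvB.step (b := 17) (q := 4) (CvR.step ⟨cLL_17_3.down⟩ rfl CvR.zero) rfl <|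
    CvB.step (b := 13) (q := 4) (CvR.step ⟨bnd_l cLL_13_5.down⟩ rfl (CvR.step ⟨cLL_13_4.down⟩ rfl CvR.zero)) rfl <|
    CvB.step (b := 9) (q := 4) (CvR.step ⟨bnd_l cLL_9_5.down⟩ rfl (CvR.step ⟨(bnd_r cLL_9_4.down)⟩ rfl CvR.zero)) rfl <|
    CvB.step (b := 5) (q := 4) (CvR.step ⟨cLL_5_5.down⟩ rfl (CvR.step ⟨(bnd_r cLL_5_4.down)⟩ rfl CvR.zero)) rfl <|
    CvB.step (b := 1) (q := 4) (CvR.step ⟨cLL_1_6.down⟩ rfl (CvR.step ⟨cLL_1_5.down⟩ rfl CvR.zero)) rfl <|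
    CvB.zero)
    (by decide +kernel)

theorem bLL_4 : JobB fLL Ah Am (fun _ => Am.b0) 4 :=
  CvB.job (b0 := 3) (y := 0) (n := 51) (lo := 1) (hi := 33)
    (CvB.step (b := 29) (q := 4) (CvR.step ⟨bnd_l cLL_29_3.down⟩ rfl (CvR.step ⟨(bnd_r cLL_29_2.down)⟩ rfl CvR.zero)) rfl <|
    CvB.step (b := 25) (q := 4) (CvR.step ⟨cLL_25_4.down⟩ rfl CvR.zero) rfl <|
    CvB.step (b := 21) (q := 4) (CvR.step ⟨cLL_21_4.down⟩ rfl CvR.zero) rfl <|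
    CvB.step (b := 17) (q := 4) (CvR.step ⟨cLL_17_4.down⟩ rfl CvR.zero) rfl <|
    CvB.step (b := 13) (q := 4) (CvR.step ⟨bnd_l cLL_13_6.down⟩ rfl (CvR.step ⟨(bnd_r cLL_13_5.down)⟩ rfl CvR.zero)) rfl <|
    CvB.step (b := 9) (q := 4) (CvR.step ⟨cLL_9_6.down⟩ rfl (CvR.step ⟨(bnd_r cLL_9_5.down)⟩ rfl CvR.zero)) rfl <|
    CvB.step (b := 5) (q := 4) (CvR.step ⟨bnd_l cLL_5_7.down⟩ rfl (CvR.step ⟨cLL_5_6.down⟩ rfl CvR.zero)) rfl <|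
    CvB.step (b := 1) (q := 4) (CvR.step ⟨bnd_l cLL_1_8.down⟩ rfl (CvR.step ⟨cLL_1_7.down⟩ rfl CvR.zero)) rfl <|
    CvB.zero)
    (by decide +kernel)

theorem bLL_5 : JobB fLL Ah Am (fun _ => Am.b0) 5 :=
  CvB.job (b0 := 3) (y := 1) (n := 54) (lo := 1) (hi := 33)
    (CvB.step (b := 29) (q := 4) (CvR.step ⟨(bnd_r cLL_29_3.down)⟩ rfl CvR.zero) rfl <|
    CvB.step (b := 25) (q := 4) (CvR.step ⟨cLL_25_5.down⟩ rfl CvR.zero) rfl <|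
    CvB.step (b := 21) (q := 4) (CvR.step ⟨cLL_21_5.down⟩ rfl CvR.zero) rfl <|
    CvB.step (b := 17) (q := 4) (CvR.step ⟨cLL_17_5.down⟩ rfl CvR.zero) rfl <|
    CvB.step (b := 13) (q := 4) (CvR.step ⟨cLL_13_7.down⟩ rfl (CvR.step ⟨(bnd_r cLL_13_6.down)⟩ rfl CvR.zero)) rfl <|
    CvB.step (b := 9) (q := 4) (CvR.step ⟨bnd_l cLL_9_8.down⟩ rfl (CvR.step ⟨cLL_9_7.down⟩ rfl CvR.zero)) rfl <|
    CvB.step (b := 5) (q := 4) (CvR.step ⟨cLL_5_8.down⟩ rfl (CvR.step ⟨(bnd_r cLL_5_7.down)⟩ rfl CvR.zero)) rfl <|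
    CvB.step (b := 1) (q := 4) (CvR.step ⟨bnd_l cLL_1_10.down⟩ rfl (CvR.step ⟨cLL_1_9.down⟩ rfl (CvR.step ⟨(bnd_r cLL_1_8.down)⟩ rfl CvR.zero))) rfl <|
    CvB.zero)
    (by decide +kernel)

theorem bLL_6 : JobB fLL Ah Am (fun _ => Am.b0) 6 :=
  CvB.job (b0 := 4) (y := 0) (n := 49) (lo := 1) (hi := 33)
    (CvB.step (b := 29) (q := 4) (CvR.step ⟨bnd_l cLL_29_4.down⟩ rfl CvR.zero) rfl <|
    CvB.step (b := 25) (q := 4) (CvR.step ⟨cLL_25_6.down⟩ rfl CvR.zero) rfl <|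
    CvB.step (b := 21) (q := 4) (CvR.step ⟨cLL_21_6.down⟩ rfl CvR.zero) rfl <|
    CvB.step (b := 17) (q := 4) (CvR.step ⟨cLL_17_6.down⟩ rfl CvR.zero) rfl <|
    CvB.step (b := 13) (q := 4) (CvR.step ⟨cLL_13_8.down⟩ rfl CvR.zero) rfl <|
    CvB.step (b := 9) (q := 4) (CvR.step ⟨bnd_l cLL_9_9.down⟩ rfl (CvR.step ⟨(bnd_r cLL_9_8.down)⟩ rfl CvR.zero)) rfl <|
    CvB.step (b := 5) (q := 4) (CvR.step ⟨bnd_l cLL_5_10.down⟩ rfl (CvR.step ⟨cLL_5_9.down⟩ rfl CvR.zero)) rfl <|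
    CvB.step (b := 1) (q := 4) (CvR.step ⟨cLL_1_11.down⟩ rfl (CvR.step ⟨(bnd_r cLL_1_10.down)⟩ rfl CvR.zero)) rfl <|
    CvB.zero)
    (by decide +kernel)

theorem bLL_7 : JobB fLL Ah Am (fun _ => Am.b0) 7 :=
  CvB.job (b0 := 4) (y := 1) (n := 52) (lo := 1) (hi := 33)
    (CvB.step (b := 29) (q := 4) (CvR.step ⟨bnd_l cLL_29_5.down⟩ rfl (CvR.step ⟨(bnd_r cLL_29_4.down)⟩ rfl CvR.zero)) rfl <|
    CvB.step (b := 25) (q := 4) (CvR.step ⟨cLL_25_7.down⟩ rfl CvR.zero) rfl <|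
    CvB.step (b := 21) (q := 4) (CvR.step ⟨cLL_21_7.down⟩ rfl CvR.zero) rfl <|
    CvB.step (b := 17) (q := 4) (CvR.step ⟨cLL_17_7.down⟩ rfl CvR.zero) rfl <|
    CvB.step (b := 13) (q := 4) (CvR.step ⟨bnd_l cLL_13_10.down⟩ rfl (CvR.step ⟨cLL_13_9.down⟩ rfl CvR.zero)) rfl <|
    CvB.step (b := 9) (q := 4) (CvR.step ⟨cLL_9_10.down⟩ rfl (CvR.step ⟨(bnd_r cLL_9_9.down)⟩ rfl CvR.zero)) rfl <|
    CvB.step (b := 5) (q := 4) (CvR.step ⟨cLL_5_11.down⟩ rfl (CvR.step ⟨(bnd_r cLL_5_10.down)⟩ rfl CvR.zero)) rfl <|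
    CvB.step (b := 1) (q := 4) (CvR.step ⟨bnd_l cLL_1_13.down⟩ rfl (CvR.step ⟨cLL_1_12.down⟩ rfl CvR.zero)) rfl <|
    CvB.zero)
    (by decide +kernel)

theorem bLL_8 : JobB fLL Ah Am (fun _ => Am.b0) 8 :=
  CvB.job (b0 := 5) (y := 0) (n := 47) (lo := 1) (hi := 33)
    (CvB.step (b := 29) (q := 4) (CvR.step ⟨(bnd_r cLL_29_5.down)⟩ rfl CvR.zero) rfl <|
    CvB.step (b := 25) (q := 4) (CvR.step ⟨cLL_25_8.down⟩ rfl CvR.zero) rfl <|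
    CvB.step (b := 21) (q := 4) (CvR.step ⟨cLL_21_8.down⟩ rfl CvR.zero) rfl <|
    CvB.step (b := 17) (q := 4) (CvR.step ⟨cLL_17_8.down⟩ rfl CvR.zero) rfl <|
    CvB.step (b := 13) (q := 4) (CvR.step ⟨cLL_13_11.down⟩ rfl (CvR.step ⟨(bnd_r cLL_13_10.down)⟩ rfl CvR.zero)) rfl <|
    CvB.step (b := 9) (q := 4) (CvR.step ⟨bnd_l cLL_9_12.down⟩ rfl (CvR.step ⟨cLL_9_11.down⟩ rfl CvR.zero)) rfl <|
    CvB.step (b := 5) (q := 4) (CvR.step ⟨bnd_l cLL_5_13.down⟩ rfl (CvR.step ⟨cLL_5_12.down⟩ rfl CvR.zero)) rfl <|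
    CvB.step (b := 1) (q := 4) (CvR.step ⟨bnd_l cLL_1_15.down⟩ rfl (CvR.step ⟨cLL_1_14.down⟩ rfl (CvR.step ⟨(bnd_r cLL_1_13.down)⟩ rfl CvR.zero))) rfl <|
    CvB.zero)
    (by decide +kernel)

theorem bLL_9 : JobB fLL Ah Am (fun _ => Am.b0) 9 :=
  CvB.job (b0 := 5) (y := 1) (n := 50) (lo := 1) (hi := 33)
    (CvB.step (b := 29) (q := 4) (CvR.step ⟨bnd_l cLL_29_6.down⟩ rfl CvR.zero) rfl <|
    CvB.step (b := 25) (q := 4) (CvR.step ⟨cLL_25_9.down⟩ rfl CvR.zero) rfl <|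
    CvB.step (b := 21) (q := 4) (CvR.step ⟨cLL_21_9.down⟩ rfl CvR.zero) rfl <|
    CvB.step (b := 17) (q := 4) (CvR.step ⟨cLL_17_9.down⟩ rfl CvR.zero) rfl <|
    CvB.step (b := 13) (q := 4) (CvR.step ⟨bnd_l cLL_13_13.down⟩ rfl (CvR.step ⟨cLL_13_12.down⟩ rfl CvR.zero)) rfl <|
    CvB.step (b := 9) (q := 4) (CvR.step ⟨cLL_9_13.down⟩ rfl (CvR.step ⟨(bnd_r cLL_9_12.down)⟩ rfl CvR.zero)) rfl <|
    CvB.step (b := 5) (q := 4) (CvR.step ⟨cLL_5_14.down⟩ rfl (CvR.step ⟨(bnd_r cLL_5_13.down)⟩ rfl CvR.zero)) rfl <|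
    CvB.step (b := 1) (q := 4) (CvR.step ⟨cLL_1_16.down⟩ rfl (CvR.step ⟨(bnd_r cLL_1_15.down)⟩ rfl CvR.zero)) rfl <|
    CvB.zero)
    (by decide +kernel)

theorem bLL_10 : JobB fLL Ah Am (fun _ => Am.b0) 10 :=
  CvB.job (b0 := 6) (y := 0) (n := 45) (lo := 1) (hi := 33)
    (CvB.step (b := 29) (q := 4) (CvR.step ⟨bnd_l cLL_29_7.down⟩ rfl (CvR.step ⟨(bnd_r cLL_29_6.down)⟩ rfl CvR.zero)) rfl <|
    CvB.step (b := 25) (q := 4) (CvR.step ⟨cLL_25_10.down⟩ rfl CvR.zero) rfl <|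
    CvB.step (b := 21) (q := 4) (CvR.step ⟨cLL_21_10.down⟩ rfl CvR.zero) rfl <|
    CvB.step (b := 17) (q := 4) (CvR.step ⟨cLL_17_10.down⟩ rfl CvR.zero) rfl <|
    CvB.step (b := 13) (q := 4) (CvR.step ⟨cLL_13_14.down⟩ rfl (CvR.step ⟨(bnd_r cLL_13_13.down)⟩ rfl CvR.zero)) rfl <|
    CvB.step (b := 9) (q := 4) (CvR.step ⟨bnd_l cLL_9_15.down⟩ rfl (CvR.step ⟨cLL_9_14.down⟩ rfl CvR.zero)) rfl <|
    CvB.step (b := 5) (q := 4) (CvR.step ⟨bnd_l cLL_5_16.down⟩ rfl (CvR.step ⟨cLL_5_15.down⟩ rfl CvR.zero)) rfl <|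
    CvB.step (b := 1) (q := 4) (CvR.step ⟨bnd_l cLL_1_18.down⟩ rfl (CvR.step ⟨cLL_1_17.down⟩ rfl CvR.zero)) rfl <|
    CvB.zero)
    (by decide +kernel)

theorem bLL_11 : JobB fLL Ah Am (fun _ => Am.b0) 11 :=
  CvB.job (b0 := 6) (y := 1) (n := 48) (lo := 1) (hi := 33)
    (CvB.step (b := 29) (q := 4) (CvR.step ⟨(bnd_r cLL_29_7.down)⟩ rfl CvR.zero) rfl <|
    CvB.step (b := 25) (q := 4) (CvR.step ⟨cLL_25_11.down⟩ rfl CvR.zero) rfl <|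
    CvB.step (b := 21) (q := 4) (CvR.step ⟨cLL_21_11.down⟩ rfl CvR.zero) rfl <|
    CvB.step (b := 17) (q := 4) (CvR.step ⟨cLL_17_11.down⟩ rfl CvR.zero) rfl <|
    CvB.step (b := 13) (q := 4) (CvR.step ⟨bnd_l cLL_13_16.down⟩ rfl (CvR.step ⟨cLL_13_15.down⟩ rfl CvR.zero)) rfl <|
    CvB.step (b := 9) (q := 4) (CvR.step ⟨cLL_9_16.down⟩ rfl (CvR.step ⟨(bnd_r cLL_9_15.down)⟩ rfl CvR.zero)) rfl <|
    CvB.step (b := 5) (q := 4) (CvR.step ⟨cLL_5_17.down⟩ rfl (CvR.step ⟨(bnd_r cLL_5_16.down)⟩ rfl CvR.zero)) rfl <|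
    CvB.step (b := 1) (q := 4) (CvR.step ⟨bnd_l cLL_1_20.down⟩ rfl (CvR.step ⟨cLL_1_19.down⟩ rfl (CvR.step ⟨(bnd_r cLL_1_18.down)⟩ rfl CvR.zero))) rfl <|
    CvB.zero)
    (by decide +kernel)

theorem bLL_12 : JobB fLL Ah Am (fun _ => Am.b0) 12 :=
  CvB.job (b0 := 7) (y := 0) (n := 43) (lo := 1) (hi := 33)
    (CvB.step (b := 29) (q := 4) (CvR.step ⟨bnd_l cLL_29_8.down⟩ rfl CvR.zero) rfl <|
    CvB.step (b := 25) (q := 4) (CvR.step ⟨cLL_25_12.down⟩ rfl CvR.zero) rfl <|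
    CvB.step (b := 21) (q := 4) (CvR.step ⟨cLL_21_12.down⟩ rfl CvR.zero) rfl <|
    CvB.step (b := 17) (q := 4) (CvR.step ⟨cLL_17_12.down⟩ rfl CvR.zero) rfl <|
    CvB.step (b := 13) (q := 4) (CvR.step ⟨bnd_l cLL_13_17.down⟩ rfl (CvR.step ⟨(bnd_r cLL_13_16.down)⟩ rfl CvR.zero)) rfl <|
    CvB.step (b := 9) (q := 4) (CvR.step ⟨bnd_l cLL_9_18.down⟩ rfl (CvR.step ⟨cLL_9_17.down⟩ rfl CvR.zero)) rfl <|
    CvB.step (b := 5) (q := 4) (CvR.step ⟨bnd_l cLL_5_19.down⟩ rfl (CvR.step ⟨cLL_5_18.down⟩ rfl CvR.zero)) rfl <|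
    CvB.step (b := 1) (q := 4) (CvR.step ⟨cLL_1_21.down⟩ rfl (CvR.step ⟨(bnd_r cLL_1_20.down)⟩ rfl CvR.zero)) rfl <|
    CvB.zero)
    (by decide +kernel)

theorem bLL_13 : JobB fLL Ah Am (fun _ => Am.b0) 13 :=
  CvB.job (b0 := 7) (y := 1) (n := 46) (lo := 1) (hi := 33)
    (CvB.step (b := 29) (q := 4) (CvR.step ⟨bnd_l cLL_29_9.down⟩ rfl (CvR.step ⟨(bnd_r cLL_29_8.down)⟩ rfl CvR.zero)) rfl <|
    CvB.step (b := 25) (q := 4) (CvR.step ⟨cLL_25_13.down⟩ rfl CvR.zero) rfl <|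
    CvB.step (b := 21) (q := 4) (CvR.step ⟨cLL_21_13.down⟩ rfl CvR.zero) rfl <|
    CvB.step (b := 17) (q := 4) (CvR.step ⟨cLL_17_13.down⟩ rfl CvR.zero) rfl <|
    CvB.step (b := 13) (q := 4) (CvR.step ⟨cLL_13_18.down⟩ rfl (CvR.step ⟨(bnd_r cLL_13_17.down)⟩ rfl CvR.zero)) rfl <|
    CvB.step (b := 9) (q := 4) (CvR.step ⟨bnd_l cLL_9_19.down⟩ rfl (CvR.step ⟨(bnd_r cLL_9_18.down)⟩ rfl CvR.zero)) rfl <|
    CvB.step (b := 5) (q := 4) (CvR.step ⟨cLL_5_20.down⟩ rfl (CvR.step ⟨(bnd_r cLL_5_19.down)⟩ rfl CvR.zero)) rfl <|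
    CvB.step (b := 1) (q := 4) (CvR.step ⟨bnd_l cLL_1_23.down⟩ rfl (CvR.step ⟨cLL_1_22.down⟩ rfl CvR.zero)) rfl <|
    CvB.zero)
    (by decide +kernel)

theorem bLL_14 : JobB fLL Ah Am (fun _ => Am.b0) 14 :=
  CvB.job (b0 := 8) (y := 0) (n := 41) (lo := 1) (hi := 33)
    (CvB.step (b := 29) (q := 4) (CvR.step ⟨(bnd_r cLL_29_9.down)⟩ rfl CvR.zero) rfl <|
    CvB.step (b := 25) (q := 4) (CvR.step ⟨cLL_25_14.down⟩ rfl CvR.zero) rfl <|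
    CvB.step (b := 21) (q := 4) (CvR.step ⟨cLL_21_14.down⟩ rfl CvR.zero) rfl <|
    CvB.step (b := 17) (q := 4) (CvR.step ⟨cLL_17_14.down⟩ rfl CvR.zero) rfl <|
    CvB.step (b := 13) (q := 4) (CvR.step ⟨cLL_13_19.down⟩ rfl CvR.zero) rfl <|
    CvB.step (b := 9) (q := 4) (CvR.step ⟨cLL_9_20.down⟩ rfl (CvR.step ⟨(bnd_r cLL_9_19.down)⟩ rfl CvR.zero)) rfl <|
    CvB.step (b := 5) (q := 4) (CvR.step ⟨bnd_l cLL_5_22.down⟩ rfl (CvR.step ⟨cLL_5_21.down⟩ rfl CvR.zero)) rfl <|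
    CvB.step (b := 1) (q := 4) (CvR.step ⟨cLL_1_24.down⟩ rfl (CvR.step ⟨(bnd_r cLL_1_23.down)⟩ rfl CvR.zero)) rfl <|
    CvB.zero)
    (by decide +kernel)

theorem bLL_15 : JobB fLL Ah Am (fun _ => Am.b0) 15 :=
  CvB.job (b0 := 8) (y := 1) (n := 44) (lo := 1) (hi := 33)
    (CvB.step (b := 29) (q := 4) (CvR.step ⟨bnd_l cLL_29_10.down⟩ rfl CvR.zero) rfl <|
    CvB.step (b := 25) (q := 4) (CvR.step ⟨cLL_25_15.down⟩ rfl CvR.zero) rfl <|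
    CvB.step (b := 21) (q := 4) (CvR.step ⟨cLL_21_15.down⟩ rfl CvR.zero) rfl <|
    CvB.step (b := 17) (q := 4) (CvR.step ⟨cLL_17_15.down⟩ rfl CvR.zero) rfl <|
    CvB.step (b := 13) (q := 4) (CvR.step ⟨cLL_13_20.down⟩ rfl CvR.zero) rfl <|
    CvB.step (b := 9) (q := 4) (CvR.step ⟨bnd_l cLL_9_22.down⟩ rfl (CvR.step ⟨cLL_9_21.down⟩ rfl CvR.zero)) rfl <|
    CvB.step (b := 5) (q := 4) (CvR.step ⟨cLL_5_23.down⟩ rfl (CvR.step ⟨(bnd_r cLL_5_22.down)⟩ rfl CvR.zero)) rfl <|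
    CvB.step (b := 1) (q := 4) (CvR.step ⟨cLL_1_26.down⟩ rfl (CvR.step ⟨cLL_1_25.down⟩ rfl CvR.zero)) rfl <|
    CvB.zero)
    (by decide +kernel)

theorem bLL_16 : JobB fLL Ah Am (fun _ => Am.b0) 16 :=
  CvB.job (b0 := 9) (y := 0) (n := 39) (lo := 1) (hi := 33)
    (CvB.step (b := 29) (q := 4) (CvR.step ⟨bnd_l cLL_29_11.down⟩ rfl (CvR.step ⟨(bnd_r cLL_29_10.down)⟩ rfl CvR.zero)) rfl <|
    CvB.step (b := 25) (q := 4) (CvR.step ⟨cLL_25_16.down⟩ rfl CvR.zero) rfl <|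
    CvB.step (b := 21) (q := 4) (CvR.step ⟨cLL_21_16.down⟩ rfl CvR.zero) rfl <|
    CvB.step (b := 17) (q := 4) (CvR.step ⟨cLL_17_16.down⟩ rfl CvR.zero) rfl <|
    CvB.step (b := 13) (q := 4) (CvR.step ⟨cLL_13_21.down⟩ rfl CvR.zero) rfl <|
    CvB.step (b := 9) (q := 4) (CvR.step ⟨cLL_9_23.down⟩ rfl (CvR.step ⟨(bnd_r cLL_9_22.down)⟩ rfl CvR.zero)) rfl <|
    CvB.step (b := 5) (q := 4) (CvR.step ⟨bnd_l cLL_5_25.down⟩ rfl (CvR.step ⟨cLL_5_24.down⟩ rfl CvR.zero)) rfl <|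
    CvB.step (b := 1) (q := 4) (CvR.step ⟨bnd_l cLL_1_28.down⟩ rfl (CvR.step ⟨cLL_1_27.down⟩ rfl CvR.zero)) rfl <|
    CvB.zero)
    (by decide +kernel)

theorem bLL_17 : JobB fLL Ah Am (fun _ => Am.b0) 17 :=
  CvB.job (b0 := 9) (y := 1) (n := 42) (lo := 1) (hi := 33)
    (CvB.step (b := 29) (q := 4) (CvR.step ⟨(bnd_r cLL_29_11.down)⟩ rfl CvR.zero) rfl <|
    CvB.step (b := 25) (q := 4) (CvR.step ⟨cLL_25_17.down⟩ rfl CvR.zero) rfl <|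
    CvB.step (b := 21) (q := 4) (CvR.step ⟨cLL_21_17.down⟩ rfl CvR.zero) rfl <|
    CvB.step (b := 17) (q := 4) (CvR.step ⟨cLL_17_17.down⟩ rfl CvR.zero) rfl <|
    CvB.step (b := 13) (q := 4) (CvR.step ⟨bnd_l cLL_13_23.down⟩ rfl (CvR.step ⟨cLL_13_22.down⟩ rfl CvR.zero)) rfl <|
    CvB.step (b := 9) (q := 4) (CvR.step ⟨bnd_l cLL_9_25.down⟩ rfl (CvR.step ⟨cLL_9_24.down⟩ rfl CvR.zero)) rfl <|
    CvB.step (b := 5) (q := 4) (CvR.step ⟨cLL_5_26.down⟩ rfl (CvR.step ⟨(bnd_r cLL_5_25.down)⟩ rfl CvR.zero)) rfl <|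
    CvB.step (b := 1) (q := 4) (CvR.step ⟨bnd_l cLL_1_30.down⟩ rfl (CvR.step ⟨cLL_1_29.down⟩ rfl (CvR.step ⟨(bnd_r cLL_1_28.down)⟩ rfl CvR.zero))) rfl <|
    CvB.zero)
    (by decide +kernel)

theorem bLL_18 : JobB fLL Ah Am (fun _ => Am.b0) 18 :=
  CvB.job (b0 := 10) (y := 0) (n := 37) (lo := 1) (hi := 33)
    (CvB.step (b := 29) (q := 4) (CvR.step ⟨bnd_l cLL_29_12.down⟩ rfl CvR.zero) rfl <|
    CvB.step (b := 25) (q := 4) (CvR.step ⟨cLL_25_18.down⟩ rfl CvR.zero) rfl <|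
    CvB.step (b := 21) (q := 4) (CvR.step ⟨cLL_21_18.down⟩ rfl CvR.zero) rfl <|
    CvB.step (b := 17) (q := 4) (CvR.step ⟨cLL_17_18.down⟩ rfl CvR.zero) rfl <|
    CvB.step (b := 13) (q := 4) (CvR.step ⟨bnd_l cLL_13_24.down⟩ rfl (CvR.step ⟨(bnd_r cLL_13_23.down)⟩ rfl CvR.zero)) rfl <|
    CvB.step (b := 9) (q := 4) (CvR.step ⟨cLL_9_26.down⟩ rfl (CvR.step ⟨(bnd_r cLL_9_25.down)⟩ rfl CvR.zero)) rfl <|
    CvB.step (b := 5) (q := 4) (CvR.step ⟨bnd_l cLL_5_28.down⟩ rfl (CvR.step ⟨cLL_5_27.down⟩ rfl CvR.zero)) rfl <|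
    CvB.step (b := 1) (q := 4) (CvR.step ⟨cLL_1_31.down⟩ rfl (CvR.step ⟨(bnd_r cLL_1_30.down)⟩ rfl CvR.zero)) rfl <|
    CvB.zero)
    (by decide +kernel)

theorem bLL_19 : JobB fLL Ah Am (fun _ => Am.b0) 19 :=
  CvB.job (b0 := 10) (y := 1) (n := 40) (lo := 1) (hi := 33)
    (CvB.step (b := 29) (q := 4) (CvR.step ⟨bnd_l cLL_29_13.down⟩ rfl (CvR.step ⟨(bnd_r cLL_29_12.down)⟩ rfl CvR.zero)) rfl <|
    CvB.step (b := 25) (q := 4) (CvR.step ⟨cLL_25_19.down⟩ rfl CvR.zero) rfl <|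
    CvB.step (b := 21) (q := 4) (CvR.step ⟨cLL_21_19.down⟩ rfl CvR.zero) rfl <|
    CvB.step (b := 17) (q := 4) (CvR.step ⟨cLL_17_19.down⟩ rfl CvR.zero) rfl <|
    CvB.step (b := 13) (q := 4) (CvR.step ⟨cLL_13_25.down⟩ rfl (CvR.step ⟨(bnd_r cLL_13_24.down)⟩ rfl CvR.zero)) rfl <|
    CvB.step (b := 9) (q := 4) (CvR.step ⟨bnd_l cLL_9_28.down⟩ rfl (CvR.step ⟨cLL_9_27.down⟩ rfl CvR.zero)) rfl <|
    CvB.step (b := 5) (q := 4) (CvR.step ⟨cLL_5_29.down⟩ rfl (CvR.step ⟨(bnd_r cLL_5_28.down)⟩ rfl CvR.zero)) rfl <|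
    CvB.step (b := 1) (q := 4) (CvR.step ⟨bnd_l cLL_1_33.down⟩ rfl (CvR.step ⟨cLL_1_32.down⟩ rfl CvR.zero)) rfl <|
    CvB.zero)
    (by decide +kernel)

theorem bLL_20 : JobB fLL Ah Am (fun _ => Am.b0) 20 :=
  CvB.job (b0 := 11) (y := 0) (n := 35) (lo := 1) (hi := 33)
    (CvB.step (b := 29) (q := 4) (CvR.step ⟨(bnd_r cLL_29_13.down)⟩ rfl CvR.zero) rfl <|
    CvB.step (b := 25) (q := 4) (CvR.step ⟨cLL_25_20.down⟩ rfl CvR.zero) rfl <|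
    CvB.step (b := 21) (q := 4) (CvR.step ⟨cLL_21_20.down⟩ rfl CvR.zero) rfl <|
    CvB.step (b := 17) (q := 4) (CvR.step ⟨cLL_17_20.down⟩ rfl CvR.zero) rfl <|
    CvB.step (b := 13) (q := 4) (CvR.step ⟨cLL_13_26.down⟩ rfl CvR.zero) rfl <|
    CvB.step (b := 9) (q := 4) (CvR.step ⟨bnd_l cLL_9_29.down⟩ rfl (CvR.step ⟨(bnd_r cLL_9_28.down)⟩ rfl CvR.zero)) rfl <|
    CvB.step (b := 5) (q := 4) (CvR.step ⟨bnd_l cLL_5_31.down⟩ rfl (CvR.step ⟨cLL_5_30.down⟩ rfl CvR.zero)) rfl <|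
    CvB.step (b := 1) (q := 4) (CvR.step ⟨cLL_1_34.down⟩ rfl (CvR.step ⟨(bnd_r cLL_1_33.down)⟩ rfl CvR.zero)) rfl <|
    CvB.zero)
    (by decide +kernel)

theorem bLL_21 : JobB fLL Ah Am (fun _ => Am.b0) 21 :=
  CvB.job (b0 := 11) (y := 1) (n := 38) (lo := 1) (hi := 33)
    (CvB.step (b := 29) (q := 4) (CvR.step ⟨bnd_l cLL_29_14.down⟩ rfl CvR.zero) rfl <|
    CvB.step (b := 25) (q := 4) (CvR.step ⟨cLL_25_21.down⟩ rfl CvR.zero) rfl <|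
    CvB.step (b := 21) (q := 4) (CvR.step ⟨cLL_21_21.down⟩ rfl CvR.zero) rfl <|
    CvB.step (b := 17) (q := 4) (CvR.step ⟨cLL_17_21.down⟩ rfl CvR.zero) rfl <|
    CvB.step (b := 13) (q := 4) (CvR.step ⟨cLL_13_27.down⟩ rfl CvR.zero) rfl <|
    CvB.step (b := 9) (q := 4) (CvR.step ⟨cLL_9_30.down⟩ rfl (CvR.step ⟨(bnd_r cLL_9_29.down)⟩ rfl CvR.zero)) rfl <|
    CvB.step (b := 5) (q := 4) (CvR.step ⟨cLL_5_32.down⟩ rfl (CvR.step ⟨(bnd_r cLL_5_31.down)⟩ rfl CvR.zero)) rfl <|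
    CvB.step (b := 1) (q := 4) (CvR.step ⟨bnd_l cLL_1_36.down⟩ rfl (CvR.step ⟨cLL_1_35.down⟩ rfl CvR.zero)) rfl <|
    CvB.zero)
    (by decide +kernel)

theorem bLL_22 : JobB fLL Ah Am (fun _ => Am.b0) 22 :=
  CvB.job (b0 := 12) (y := 0) (n := 33) (lo := 1) (hi := 33)
    (CvB.step (b := 29) (q := 4) (CvR.step ⟨(bnd_r cLL_29_14.down)⟩ rfl CvR.zero) rfl <|
    CvB.step (b := 25) (q := 4) (CvR.step ⟨cLL_25_22.down⟩ rfl CvR.zero) rfl <|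
    CvB.step (b := 21) (q := 4) (CvR.step ⟨cLL_21_22.down⟩ rfl CvR.zero) rfl <|
    CvB.step (b := 17) (q := 4) (CvR.step ⟨cLL_17_22.down⟩ rfl CvR.zero) rfl <|
    CvB.step (b := 13) (q := 4) (CvR.step ⟨cLL_13_28.down⟩ rfl CvR.zero) rfl <|
    CvB.step (b := 9) (q := 4) (CvR.step ⟨cLL_9_31.down⟩ rfl CvR.zero) rfl <|
    CvB.step (b := 5) (q := 4) (CvR.step ⟨bnd_l cLL_5_34.down⟩ rfl (CvR.step ⟨cLL_5_33.down⟩ rfl CvR.zero)) rfl <|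
    CvB.step (b := 1) (q := 4) (CvR.step ⟨cLL_1_37.down⟩ rfl (CvR.step ⟨(bnd_r cLL_1_36.down)⟩ rfl CvR.zero)) rfl <|
    CvB.zero)
    (by decide +kernel)

theorem bLL_23 : JobB fLL Ah Am (fun _ => Am.b0) 23 :=
  CvB.job (b0 := 12) (y := 1) (n := 36) (lo := 1) (hi := 33)
    (CvB.step (b := 29) (q := 4) (CvR.step ⟨bnd_l cLL_29_15.down⟩ rfl CvR.zero) rfl <|
    CvB.step (b := 25) (q := 4) (CvR.step ⟨cLL_25_23.down⟩ rfl CvR.zero) rfl <|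
    CvB.step (b := 21) (q := 4) (CvR.step ⟨cLL_21_23.down⟩ rfl CvR.zero) rfl <|
    CvB.step (b := 17) (q := 4) (CvR.step ⟨cLL_17_23.down⟩ rfl CvR.zero) rfl <|
    CvB.step (b := 13) (q := 4) (CvR.step ⟨cLL_13_29.down⟩ rfl CvR.zero) rfl <|
    CvB.step (b := 9) (q := 4) (CvR.step ⟨bnd_l cLL_9_33.down⟩ rfl (CvR.step ⟨cLL_9_32.down⟩ rfl CvR.zero)) rfl <|
    CvB.step (b := 5) (q := 4) (CvR.step ⟨cLL_5_35.down⟩ rfl (CvR.step ⟨(bnd_r cLL_5_34.down)⟩ rfl CvR.zero)) rfl <|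
    CvB.step (b := 1) (q := 4) (CvR.step ⟨cLL_1_39.down⟩ rfl (CvR.step ⟨cLL_1_38.down⟩ rfl CvR.zero)) rfl <|
    CvB.zero)
    (by decide +kernel)

theorem bLL_24 : JobB fLL Ah Am (fun _ => Am.b0) 24 :=
  CvB.job (b0 := 13) (y := 0) (n := 31) (lo := 1) (hi := 33)
    (CvB.step (b := 29) (q := 4) (CvR.step ⟨bnd_l cLL_29_16.down⟩ rfl (CvR.step ⟨(bnd_r cLL_29_15.down)⟩ rfl CvR.zero)) rfl <|
    CvB.step (b := 25) (q := 4) (CvR.step ⟨cLL_25_24.down⟩ rfl CvR.zero) rfl <|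
    CvB.step (b := 21) (q := 4) (CvR.step ⟨cLL_21_24.down⟩ rfl CvR.zero) rfl <|
    CvB.step (b := 17) (q := 4) (CvR.step ⟨cLL_17_24.down⟩ rfl CvR.zero) rfl <|
    CvB.step (b := 13) (q := 4) (CvR.step ⟨cLL_13_30.down⟩ rfl CvR.zero) rfl <|
    CvB.step (b := 9) (q := 4) (CvR.step ⟨bnd_l cLL_9_34.down⟩ rfl (CvR.step ⟨(bnd_r cLL_9_33.down)⟩ rfl CvR.zero)) rfl <|
    CvB.step (b := 5) (q := 4) (CvR.step ⟨bnd_l cLL_5_37.down⟩ rfl (CvR.step ⟨cLL_5_36.down⟩ rfl CvR.zero)) rfl <|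
    CvB.step (b := 1) (q := 4) (CvR.step ⟨bnd_l cLL_1_41.down⟩ rfl (CvR.step ⟨cLL_1_40.down⟩ rfl CvR.zero)) rfl <|
    CvB.zero)
    (by decide +kernel)

theorem bLL_25 : JobB fLL Ah Am (fun _ => Am.b0) 25 :=
  CvB.job (b0 := 13) (y := 1) (n := 34) (lo := 1) (hi := 33)
    (CvB.step (b := 29) (q := 4) (CvR.step ⟨(bnd_r cLL_29_16.down)⟩ rfl CvR.zero) rfl <|
    CvB.step (b := 25) (q := 4) (CvR.step ⟨cLL_25_25.down⟩ rfl CvR.zero) rfl <|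
    CvB.step (b := 21) (q := 4) (CvR.step ⟨cLL_21_25.down⟩ rfl CvR.zero) rfl <|
    CvB.step (b := 17) (q := 4) (CvR.step ⟨cLL_17_25.down⟩ rfl CvR.zero) rfl <|
    CvB.step (b := 13) (q := 4) (CvR.step ⟨cLL_13_31.down⟩ rfl CvR.zero) rfl <|
    CvB.step (b := 9) (q := 4) (CvR.step ⟨cLL_9_35.down⟩ rfl (CvR.step ⟨(bnd_r cLL_9_34.down)⟩ rfl CvR.zero)) rfl <|
    CvB.step (b := 5) (q := 4) (CvR.step ⟨cLL_5_38.down⟩ rfl (CvR.step ⟨(bnd_r cLL_5_37.down)⟩ rfl CvR.zero)) rfl <|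
    CvB.step (b := 1) (q := 4) (CvR.step ⟨cLL_1_42.down⟩ rfl (CvR.step ⟨(bnd_r cLL_1_41.down)⟩ rfl CvR.zero)) rfl <|
    CvB.zero)
    (by decide +kernel)

theorem bLL_26 : JobB fLL Ah Am (fun _ => Am.b0) 26 :=
  CvB.job (b0 := 14) (y := 0) (n := 29) (lo := 1) (hi := 33)
    (CvB.step (b := 29) (q := 4) (CvR.step ⟨bnd_l cLL_29_17.down⟩ rfl CvR.zero) rfl <|
    CvB.step (b := 25) (q := 4) (CvR.step ⟨cLL_25_26.down⟩ rfl CvR.zero) rfl <|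
    CvB.step (b := 21) (q := 4) (CvR.step ⟨cLL_21_26.down⟩ rfl CvR.zero) rfl <|
    CvB.step (b := 17) (q := 4) (CvR.step ⟨cLL_17_26.down⟩ rfl CvR.zero) rfl <|
    CvB.step (b := 13) (q := 4) (CvR.step ⟨cLL_13_32.down⟩ rfl CvR.zero) rfl <|
    CvB.step (b := 9) (q := 4) (CvR.step ⟨cLL_9_36.down⟩ rfl CvR.zero) rfl <|
    CvB.step (b := 5) (q := 4) (CvR.step ⟨bnd_l cLL_5_40.down⟩ rfl (CvR.step ⟨cLL_5_39.down⟩ rfl CvR.zero)) rfl <|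
    CvB.step (b := 1) (q := 4) (CvR.step ⟨bnd_l cLL_1_44.down⟩ rfl (CvR.step ⟨cLL_1_43.down⟩ rfl CvR.zero)) rfl <|
    CvB.zero)
    (by decide +kernel)

theorem bLL_27 : JobB fLL Ah Am (fun _ => Am.b0) 27 :=
  CvB.job (b0 := 14) (y := 1) (n := 32) (lo := 1) (hi := 33)
    (CvB.step (b := 29) (q := 4) (CvR.step ⟨(bnd_r cLL_29_17.down)⟩ rfl CvR.zero) rfl <|
    CvB.step (b := 25) (q := 4) (CvR.step ⟨cLL_25_27.down⟩ rfl CvR.zero) rfl <|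
    CvB.step (b := 21) (q := 4) (CvR.step ⟨cLL_21_27.down⟩ rfl CvR.zero) rfl <|
    CvB.step (b := 17) (q := 4) (CvR.step ⟨cLL_17_27.down⟩ rfl CvR.zero) rfl <|
    CvB.step (b := 13) (q := 4) (CvR.step ⟨cLL_13_33.down⟩ rfl CvR.zero) rfl <|
    CvB.step (b := 9) (q := 4) (CvR.step ⟨cLL_9_37.down⟩ rfl CvR.zero) rfl <|
    CvB.step (b := 5) (q := 4) (CvR.step ⟨bnd_l cLL_5_41.down⟩ rfl (CvR.step ⟨(bnd_r cLL_5_40.down)⟩ rfl CvR.zero)) rfl <|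
    CvB.step (b := 1) (q := 4) (CvR.step ⟨cLL_1_45.down⟩ rfl (CvR.step ⟨(bnd_r cLL_1_44.down)⟩ rfl CvR.zero)) rfl <|
    CvB.zero)
    (by decide +kernel)

theorem bLL_28 : JobB fLL Ah Am (fun _ => Am.b0) 28 :=
  CvB.job (b0 := 15) (y := 0) (n := 27) (lo := 1) (hi := 33)
    (CvB.step (b := 29) (q := 4) (CvR.step ⟨bnd_l cLL_29_18.down⟩ rfl CvR.zero) rfl <|
    CvB.step (b := 25) (q := 4) (CvR.step ⟨bnd_l cLL_25_28.down⟩ rfl CvR.zero) rfl <|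
    CvB.step (b := 21) (q := 4) (CvR.step ⟨cLL_21_28.down⟩ rfl CvR.zero) rfl <|
    CvB.step (b := 17) (q := 4) (CvR.step ⟨cLL_17_28.down⟩ rfl CvR.zero) rfl <|
    CvB.step (b := 13) (q := 4) (CvR.step ⟨cLL_13_34.down⟩ rfl CvR.zero) rfl <|
    CvB.step (b := 9) (q := 4) (CvR.step ⟨cLL_9_38.down⟩ rfl CvR.zero) rfl <|
    CvB.step (b := 5) (q := 4) (CvR.step ⟨cLL_5_42.down⟩ rfl (CvR.step ⟨(bnd_r cLL_5_41.down)⟩ rfl CvR.zero)) rfl <|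
    CvB.step (b := 1) (q := 4) (CvR.step ⟨bnd_l cLL_1_47.down⟩ rfl (CvR.step ⟨cLL_1_46.down⟩ rfl CvR.zero)) rfl <|
    CvB.zero)
    (by decide +kernel)

theorem bLL_29 : JobB fLL Ah Am (fun _ => Am.b0) 29 :=
  CvB.job (b0 := 15) (y := 1) (n := 30) (lo := 1) (hi := 33)
    (CvB.step (b := 29) (q := 4) (CvR.step ⟨(bnd_r cLL_29_18.down)⟩ rfl CvR.zero) rfl <|
    CvB.step (b := 25) (q := 4) (CvR.step ⟨bnd_l cLL_25_29.down⟩ rfl (CvR.step ⟨(bnd_r cLL_25_28.down)⟩ rfl CvR.zero)) rfl <|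
    CvB.step (b := 21) (q := 4) (CvR.step ⟨cLL_21_29.down⟩ rfl CvR.zero) rfl <|
    CvB.step (b := 17) (q := 4) (CvR.step ⟨cLL_17_29.down⟩ rfl CvR.zero) rfl <|
    CvB.step (b := 13) (q := 4) (CvR.step ⟨cLL_13_35.down⟩ rfl CvR.zero) rfl <|
    CvB.step (b := 9) (q := 4) (CvR.step ⟨cLL_9_39.down⟩ rfl CvR.zero) rfl <|
    CvB.step (b := 5) (q := 4) (CvR.step ⟨bnd_l cLL_5_44.down⟩ rfl (CvR.step ⟨cLL_5_43.down⟩ rfl CvR.zero)) rfl <|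
    CvB.step (b := 1) (q := 4) (CvR.step ⟨cLL_1_48.down⟩ rfl (CvR.step ⟨(bnd_r cLL_1_47.down)⟩ rfl CvR.zero)) rfl <|
    CvB.zero)
    (by decide +kernel)

theorem bLL_30 : JobB fLL Ah Am (fun _ => Am.b0) 30 :=
  CvB.job (b0 := 16) (y := 0) (n := 25) (lo := 1) (hi := 33)
    (CvB.step (b := 29) (q := 4) (CvR.step ⟨bnd_l cLL_29_19.down⟩ rfl CvR.zero) rfl <|
    CvB.step (b := 25) (q := 4) (CvR.step ⟨(bnd_r cLL_25_29.down)⟩ rfl CvR.zero) rfl <|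
    CvB.step (b := 21) (q := 4) (CvR.step ⟨cLL_21_30.down⟩ rfl CvR.zero) rfl <|
    CvB.step (b := 17) (q := 4) (CvR.step ⟨cLL_17_30.down⟩ rfl CvR.zero) rfl <|
    CvB.step (b := 13) (q := 4) (CvR.step ⟨cLL_13_36.down⟩ rfl CvR.zero) rfl <|
    CvB.step (b := 9) (q := 4) (CvR.step ⟨cLL_9_40.down⟩ rfl CvR.zero) rfl <|
    CvB.step (b := 5) (q := 4) (CvR.step ⟨bnd_l cLL_5_45.down⟩ rfl (CvR.step ⟨(bnd_r cLL_5_44.down)⟩ rfl CvR.zero)) rfl <|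
    CvB.step (b := 1) (q := 4) (CvR.step ⟨cLL_1_49.down⟩ rfl CvR.zero) rfl <|
    CvB.zero)
    (by decide +kernel)

theorem bLL_31 : JobB fLL Ah Am (fun _ => Am.b0) 31 :=
  CvB.job (b0 := 16) (y := 1) (n := 28) (lo := 1) (hi := 33)
    (CvB.step (b := 29) (q := 4) (CvR.step ⟨(bnd_r cLL_29_19.down)⟩ rfl CvR.zero) rfl <|
    CvB.step (b := 25) (q := 4) (CvR.step ⟨cLL_25_30.down⟩ rfl CvR.zero) rfl <|
    CvB.step (b := 21) (q := 4) (CvR.step ⟨cLL_21_31.down⟩ rfl CvR.zero) rfl <|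
    CvB.step (b := 17) (q := 4) (CvR.step ⟨cLL_17_31.down⟩ rfl CvR.zero) rfl <|
    CvB.step (b := 13) (q := 4) (CvR.step ⟨cLL_13_37.down⟩ rfl CvR.zero) rfl <|
    CvB.step (b := 9) (q := 4) (CvR.step ⟨cLL_9_41.down⟩ rfl CvR.zero) rfl <|
    CvB.step (b := 5) (q := 4) (CvR.step ⟨cLL_5_46.down⟩ rfl (CvR.step ⟨(bnd_r cLL_5_45.down)⟩ rfl CvR.zero)) rfl <|
    CvB.step (b := 1) (q := 4) (CvR.step ⟨bnd_l cLL_1_51.down⟩ rfl (CvR.step ⟨cLL_1_50.down⟩ rfl CvR.zero)) rfl <|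
    CvB.zero)
    (by decide +kernel)

theorem bLL_32 : JobB fLL Ah Am (fun _ => Am.b0) 32 :=
  CvB.job (b0 := 17) (y := 0) (n := 23) (lo := 1) (hi := 33)
    (CvB.step (b := 29) (q := 4) (CvR.step ⟨bnd_l cLL_29_20.down⟩ rfl CvR.zero) rfl <|
    CvB.step (b := 25) (q := 4) (CvR.step ⟨bnd_l cLL_25_31.down⟩ rfl CvR.zero) rfl <|
    CvB.step (b := 21) (q := 4) (CvR.step ⟨cLL_21_32.down⟩ rfl CvR.zero) rfl <|
    CvB.step (b := 17) (q := 4) (CvR.step ⟨cLL_17_32.down⟩ rfl CvR.zero) rfl <|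
    CvB.step (b := 13) (q := 4) (CvR.step ⟨cLL_13_38.down⟩ rfl CvR.zero) rfl <|
    CvB.step (b := 9) (q := 4) (CvR.step ⟨cLL_9_42.down⟩ rfl CvR.zero) rfl <|
    CvB.step (b := 5) (q := 4) (CvR.step ⟨cLL_5_47.down⟩ rfl CvR.zero) rfl <|
    CvB.step (b := 1) (q := 4) (CvR.step ⟨cLL_1_52.down⟩ rfl (CvR.step ⟨(bnd_r cLL_1_51.down)⟩ rfl CvR.zero)) rfl <|
    CvB.zero)
    (by decide +kernel)

theorem bLL_33 : JobB fLL Ah Am (fun _ => Am.b0) 33 :=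
  CvB.job (b0 := 17) (y := 1) (n := 26) (lo := 1) (hi := 33)
    (CvB.step (b := 29) (q := 4) (CvR.step ⟨(bnd_r cLL_29_20.down)⟩ rfl CvR.zero) rfl <|
    CvB.step (b := 25) (q := 4) (CvR.step ⟨bnd_l cLL_25_32.down⟩ rfl (CvR.step ⟨(bnd_r cLL_25_31.down)⟩ rfl CvR.zero)) rfl <|
    CvB.step (b := 21) (q := 4) (CvR.step ⟨cLL_21_33.down⟩ rfl CvR.zero) rfl <|
    CvB.step (b := 17) (q := 4) (CvR.step ⟨cLL_17_33.down⟩ rfl CvR.zero) rfl <|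
    CvB.step (b := 13) (q := 4) (CvR.step ⟨cLL_13_39.down⟩ rfl CvR.zero) rfl <|
    CvB.step (b := 9) (q := 4) (CvR.step ⟨cLL_9_43.down⟩ rfl CvR.zero) rfl <|
    CvB.step (b := 5) (q := 4) (CvR.step ⟨cLL_5_48.down⟩ rfl CvR.zero) rfl <|
    CvB.step (b := 1) (q := 4) (CvR.step ⟨bnd_l cLL_1_54.down⟩ rfl (CvR.step ⟨cLL_1_53.down⟩ rfl CvR.zero)) rfl <|
    CvB.zero)
    (by decide +kernel)

theorem bLL_34 : JobB fLL Ah Am (fun _ => Am.b0) 34 :=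
  CvB.job (b0 := 18) (y := 0) (n := 21) (lo := 1) (hi := 33)
    (CvB.step (b := 29) (q := 4) (CvR.step ⟨bnd_l cLL_29_21.down⟩ rfl CvR.zero) rfl <|
    CvB.step (b := 25) (q := 4) (CvR.step ⟨(bnd_r cLL_25_32.down)⟩ rfl CvR.zero) rfl <|
    CvB.step (b := 21) (q := 4) (CvR.step ⟨cLL_21_34.down⟩ rfl CvR.zero) rfl <|
    CvB.step (b := 17) (q := 4) (CvR.step ⟨cLL_17_34.down⟩ rfl CvR.zero) rfl <|
    CvB.step (b := 13) (q := 4) (CvR.step ⟨cLL_13_40.down⟩ rfl CvR.zero) rfl <|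
    CvB.step (b := 9) (q := 4) (CvR.step ⟨cLL_9_44.down⟩ rfl CvR.zero) rfl <|
    CvB.step (b := 5) (q := 4) (CvR.step ⟨cLL_5_49.down⟩ rfl CvR.zero) rfl <|
    CvB.step (b := 1) (q := 4) (CvR.step ⟨bnd_l cLL_1_55.down⟩ rfl (CvR.step ⟨(bnd_r cLL_1_54.down)⟩ rfl CvR.zero)) rfl <|
    CvB.zero)
    (by decide +kernel)

theorem bLL_35 : JobB fLL Ah Am (fun _ => Am.b0) 35 :=
  CvB.job (b0 := 18) (y := 1) (n := 24) (lo := 1) (hi := 33)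
    (CvB.step (b := 29) (q := 4) (CvR.step ⟨(bnd_r cLL_29_21.down)⟩ rfl CvR.zero) rfl <|
    CvB.step (b := 25) (q := 4) (CvR.step ⟨bnd_l cLL_25_33.down⟩ rfl CvR.zero) rfl <|
    CvB.step (b := 21) (q := 4) (CvR.step ⟨cLL_21_35.down⟩ rfl CvR.zero) rfl <|
    CvB.step (b := 17) (q := 4) (CvR.step ⟨cLL_17_35.down⟩ rfl CvR.zero) rfl <|
    CvB.step (b := 13) (q := 4) (CvR.step ⟨cLL_13_41.down⟩ rfl CvR.zero) rfl <|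
    CvB.step (b := 9) (q := 4) (CvR.step ⟨cLL_9_45.down⟩ rfl CvR.zero) rfl <|
    CvB.step (b := 5) (q := 4) (CvR.step ⟨cLL_5_50.down⟩ rfl CvR.zero) rfl <|
    CvB.step (b := 1) (q := 4) (CvR.step ⟨cLL_1_56.down⟩ rfl (CvR.step ⟨(bnd_r cLL_1_55.down)⟩ rfl CvR.zero)) rfl <|
    CvB.zero)
    (by decide +kernel)

theorem bLL_36 : JobB fLL Ah Am (fun _ => Am.b0) 36 :=
  CvB.job (b0 := 19) (y := 0) (n := 19) (lo := 1) (hi := 33)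
    (CvB.step (b := 29) (q := 4) (CvR.step ⟨bnd_l cLL_29_22.down⟩ rfl CvR.zero) rfl <|
    CvB.step (b := 25) (q := 4) (CvR.step ⟨(bnd_r cLL_25_33.down)⟩ rfl CvR.zero) rfl <|
    CvB.step (b := 21) (q := 4) (CvR.step ⟨cLL_21_36.down⟩ rfl CvR.zero) rfl <|
    CvB.step (b := 17) (q := 4) (CvR.step ⟨cLL_17_36.down⟩ rfl CvR.zero) rfl <|
    CvB.step (b := 13) (q := 4) (CvR.step ⟨cLL_13_42.down⟩ rfl CvR.zero) rfl <|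
    CvB.step (b := 9) (q := 4) (CvR.step ⟨cLL_9_46.down⟩ rfl CvR.zero) rfl <|
    CvB.step (b := 5) (q := 4) (CvR.step ⟨cLL_5_51.down⟩ rfl CvR.zero) rfl <|
    CvB.step (b := 1) (q := 4) (CvR.step ⟨cLL_1_57.down⟩ rfl CvR.zero) rfl <|
    CvB.zero)
    (by decide +kernel)

theorem bLL_37 : JobB fLL Ah Am (fun _ => Am.b0) 37 :=
  CvB.job (b0 := 19) (y := 1) (n := 22) (lo := 1) (hi := 33)
    (CvB.step (b := 29) (q := 4) (CvR.step ⟨(bnd_r cLL_29_22.down)⟩ rfl CvR.zero) rfl <|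
    CvB.step (b := 25) (q := 4) (CvR.step ⟨bnd_l cLL_25_34.down⟩ rfl CvR.zero) rfl <|
    CvB.step (b := 21) (q := 4) (CvR.step ⟨cLL_21_37.down⟩ rfl CvR.zero) rfl <|
    CvB.step (b := 17) (q := 4) (CvR.step ⟨cLL_17_37.down⟩ rfl CvR.zero) rfl <|
    CvB.step (b := 13) (q := 4) (CvR.step ⟨cLL_13_43.down⟩ rfl CvR.zero) rfl <|
    CvB.step (b := 9) (q := 4) (CvR.step ⟨cLL_9_47.down⟩ rfl CvR.zero) rfl <|
    CvB.step (b := 5) (q := 4) (CvR.step ⟨cLL_5_52.down⟩ rfl CvR.zero) rfl <|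
    CvB.step (b := 1) (q := 4) (CvR.step ⟨cLL_1_58.down⟩ rfl CvR.zero) rfl <|
    CvB.zero)
    (by decide +kernel)

theorem bLL_38 : JobB fLL Ah Am (fun _ => Am.b0) 38 :=
  CvB.job (b0 := 20) (y := 0) (n := 17) (lo := 1) (hi := 33)
    (CvB.step (b := 29) (q := 4) (CvR.step ⟨bnd_l cLL_29_23.down⟩ rfl CvR.zero) rfl <|
    CvB.step (b := 25) (q := 4) (CvR.step ⟨(bnd_r cLL_25_34.down)⟩ rfl CvR.zero) rfl <|
    CvB.step (b := 21) (q := 4) (CvR.step ⟨bnd_l cLL_21_38.down⟩ rfl CvR.zero) rfl <|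
    CvB.step (b := 17) (q := 4) (CvR.step ⟨cLL_17_38.down⟩ rfl CvR.zero) rfl <|
    CvB.step (b := 13) (q := 4) (CvR.step ⟨cLL_13_44.down⟩ rfl CvR.zero) rfl <|
    CvB.step (b := 9) (q := 4) (CvR.step ⟨cLL_9_48.down⟩ rfl CvR.zero) rfl <|
    CvB.step (b := 5) (q := 4) (CvR.step ⟨cLL_5_53.down⟩ rfl CvR.zero) rfl <|
    CvB.step (b := 1) (q := 4) (CvR.step ⟨cLL_1_59.down⟩ rfl CvR.zero) rfl <|
    CvB.zero)
    (by decide +kernel)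

theorem bLL_39 : JobB fLL Ah Am (fun _ => Am.b0) 39 :=
  CvB.job (b0 := 20) (y := 1) (n := 20) (lo := 1) (hi := 33)
    (CvB.step (b := 29) (q := 4) (CvR.step ⟨(bnd_r cLL_29_23.down)⟩ rfl CvR.zero) rfl <|
    CvB.step (b := 25) (q := 4) (CvR.step ⟨bnd_l cLL_25_35.down⟩ rfl CvR.zero) rfl <|
    CvB.step (b := 21) (q := 4) (CvR.step ⟨(bnd_r cLL_21_38.down)⟩ rfl CvR.zero) rfl <|
    CvB.step (b := 17) (q := 4) (CvR.step ⟨cLL_17_39.down⟩ rfl CvR.zero) rfl <|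
    CvB.step (b := 13) (q := 4) (CvR.step ⟨cLL_13_45.down⟩ rfl CvR.zero) rfl <|
    CvB.step (b := 9) (q := 4) (CvR.step ⟨cLL_9_49.down⟩ rfl CvR.zero) rfl <|
    CvB.step (b := 5) (q := 4) (CvR.step ⟨cLL_5_54.down⟩ rfl CvR.zero) rfl <|
    CvB.step (b := 1) (q := 4) (CvR.step ⟨cLL_1_60.down⟩ rfl CvR.zero) rfl <|
    CvB.zero)
    (by decide +kernel)

theorem bLL_40 : JobB fLL Ah Am (fun _ => Am.b0) 40 :=
  CvB.job (b0 := 21) (y := 0) (n := 15) (lo := 1) (hi := 33)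
    (CvB.step (b := 29) (q := 4) (CvR.step ⟨bnd_l cLL_29_24.down⟩ rfl CvR.zero) rfl <|
    CvB.step (b := 25) (q := 4) (CvR.step ⟨(bnd_r cLL_25_35.down)⟩ rfl CvR.zero) rfl <|
    CvB.step (b := 21) (q := 4) (CvR.step ⟨bnd_l cLL_21_39.down⟩ rfl CvR.zero) rfl <|
    CvB.step (b := 17) (q := 4) (CvR.step ⟨cLL_17_40.down⟩ rfl CvR.zero) rfl <|
    CvB.step (b := 13) (q := 4) (CvR.step ⟨cLL_13_46.down⟩ rfl CvR.zero) rfl <|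
    CvB.step (b := 9) (q := 4) (CvR.step ⟨cLL_9_50.down⟩ rfl CvR.zero) rfl <|
    CvB.step (b := 5) (q := 4) (CvR.step ⟨cLL_5_55.down⟩ rfl CvR.zero) rfl <|
    CvB.step (b := 1) (q := 4) (CvR.step ⟨cLL_1_61.down⟩ rfl CvR.zero) rfl <|
    CvB.zero)
    (by decide +kernel)

theorem bLL_41 : JobB fLL Ah Am (fun _ => Am.b0) 41 :=
  CvB.job (b0 := 21) (y := 1) (n := 18) (lo := 1) (hi := 33)
    (CvB.step (b := 29) (q := 4) (CvR.step ⟨bnd_l (bnd_r cLL_29_24.down)⟩ rfl CvR.zero) rfl <|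
    CvB.step (b := 25) (q := 4) (CvR.step ⟨bnd_l cLL_25_36.down⟩ rfl CvR.zero) rfl <|
    CvB.step (b := 21) (q := 4) (CvR.step ⟨(bnd_r cLL_21_39.down)⟩ rfl CvR.zero) rfl <|
    CvB.step (b := 17) (q := 4) (CvR.step ⟨bnd_l cLL_17_41.down⟩ rfl CvR.zero) rfl <|
    CvB.step (b := 13) (q := 4) (CvR.step ⟨cLL_13_47.down⟩ rfl CvR.zero) rfl <|
    CvB.step (b := 9) (q := 4) (CvR.step ⟨cLL_9_51.down⟩ rfl CvR.zero) rfl <|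
    CvB.step (b := 5) (q := 4) (CvR.step ⟨cLL_5_56.down⟩ rfl CvR.zero) rfl <|
    CvB.step (b := 1) (q := 4) (CvR.step ⟨cLL_1_62.down⟩ rfl CvR.zero) rfl <|
    CvB.zero)
    (by decide +kernel)

theorem bLL_42 : JobB fLL Ah Am (fun _ => Am.b0) 42 :=
  CvB.job (b0 := 22) (y := 0) (n := 13) (lo := 1) (hi := 33)
    (CvB.step (b := 29) (q := 4) (CvR.step ⟨(bnd_r (bnd_r cLL_29_24.down))⟩ rfl CvR.zero) rfl <|
    CvB.step (b := 25) (q := 4) (CvR.step ⟨(bnd_r cLL_25_36.down)⟩ rfl CvR.zero) rfl <|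
    CvB.step (b := 21) (q := 4) (CvR.step ⟨bnd_l cLL_21_40.down⟩ rfl CvR.zero) rfl <|
    CvB.step (b := 17) (q := 4) (CvR.step ⟨(bnd_r cLL_17_41.down)⟩ rfl CvR.zero) rfl <|
    CvB.step (b := 13) (q := 4) (CvR.step ⟨cLL_13_48.down⟩ rfl CvR.zero) rfl <|
    CvB.step (b := 9) (q := 4) (CvR.step ⟨cLL_9_52.down⟩ rfl CvR.zero) rfl <|
    CvB.step (b := 5) (q := 4) (CvR.step ⟨cLL_5_57.down⟩ rfl CvR.zero) rfl <|
    CvB.step (b := 1) (q := 4) (CvR.step ⟨cLL_1_63.down⟩ rfl CvR.zero) rfl <|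
    CvB.zero)
    (by decide +kernel)

theorem bLL_43 : JobB fLL Ah Am (fun _ => Am.b0) 43 :=
  CvB.job (b0 := 22) (y := 1) (n := 16) (lo := 1) (hi := 33)
    (CvB.step (b := 29) (q := 4) (CvR.step ⟨bnd_l cLL_29_25.down⟩ rfl CvR.zero) rfl <|
    CvB.step (b := 25) (q := 4) (CvR.step ⟨bnd_l cLL_25_37.down⟩ rfl CvR.zero) rfl <|
    CvB.step (b := 21) (q := 4) (CvR.step ⟨(bnd_r cLL_21_40.down)⟩ rfl CvR.zero) rfl <|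
    CvB.step (b := 17) (q := 4) (CvR.step ⟨bnd_l cLL_17_42.down⟩ rfl CvR.zero) rfl <|
    CvB.step (b := 13) (q := 4) (CvR.step ⟨cLL_13_49.down⟩ rfl CvR.zero) rfl <|
    CvB.step (b := 9) (q := 4) (CvR.step ⟨cLL_9_53.down⟩ rfl CvR.zero) rfl <|
    CvB.step (b := 5) (q := 4) (CvR.step ⟨cLL_5_58.down⟩ rfl CvR.zero) rfl <|
    CvB.step (b := 1) (q := 4) (CvR.step ⟨cLL_1_64.down⟩ rfl CvR.zero) rfl <|
    CvB.zero)
    (by decide +kernel)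

theorem bLL_44 : JobB fLL Ah Am (fun _ => Am.b0) 44 :=
  CvB.job (b0 := 23) (y := 0) (n := 11) (lo := 1) (hi := 33)
    (CvB.step (b := 29) (q := 4) (CvR.step ⟨bnd_l (bnd_r cLL_29_25.down)⟩ rfl CvR.zero) rfl <|
    CvB.step (b := 25) (q := 4) (CvR.step ⟨(bnd_r cLL_25_37.down)⟩ rfl CvR.zero) rfl <|
    CvB.step (b := 21) (q := 4) (CvR.step ⟨bnd_l cLL_21_41.down⟩ rfl CvR.zero) rfl <|
    CvB.step (b := 17) (q := 4) (CvR.step ⟨(bnd_r cLL_17_42.down)⟩ rfl CvR.zero) rfl <|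
    CvB.step (b := 13) (q := 4) (CvR.step ⟨bnd_l cLL_13_50.down⟩ rfl CvR.zero) rfl <|
    CvB.step (b := 9) (q := 4) (CvR.step ⟨cLL_9_54.down⟩ rfl CvR.zero) rfl <|
    CvB.step (b := 5) (q := 4) (CvR.step ⟨cLL_5_59.down⟩ rfl CvR.zero) rfl <|
    CvB.step (b := 1) (q := 4) (CvR.step ⟨cLL_1_65.down⟩ rfl CvR.zero) rfl <|
    CvB.zero)
    (by decide +kernel)

theorem bLL_45 : JobB fLL Ah Am (fun _ => Am.b0) 45 :=
  CvB.job (b0 := 23) (y := 1) (n := 14) (lo := 1) (hi := 33)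
    (CvB.step (b := 29) (q := 4) (CvR.step ⟨(bnd_r (bnd_r cLL_29_25.down))⟩ rfl CvR.zero) rfl <|
    CvB.step (b := 25) (q := 4) (CvR.step ⟨bnd_l cLL_25_38.down⟩ rfl CvR.zero) rfl <|
    CvB.step (b := 21) (q := 4) (CvR.step ⟨(bnd_r cLL_21_41.down)⟩ rfl CvR.zero) rfl <|
    CvB.step (b := 17) (q := 4) (CvR.step ⟨bnd_l cLL_17_43.down⟩ rfl CvR.zero) rfl <|
    CvB.step (b := 13) (q := 4) (CvR.step ⟨(bnd_r cLL_13_50.down)⟩ rfl CvR.zero) rfl <|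
    CvB.step (b := 9) (q := 4) (CvR.step ⟨cLL_9_55.down⟩ rfl CvR.zero) rfl <|
    CvB.step (b := 5) (q := 4) (CvR.step ⟨cLL_5_60.down⟩ rfl CvR.zero) rfl <|
    CvB.step (b := 1) (q := 4) (CvR.step ⟨cLL_1_66.down⟩ rfl CvR.zero) rfl <|
    CvB.zero)
    (by decide +kernel)

theorem bLL_46 : JobB fLL Ah Am (fun _ => Am.b0) 46 :=
  CvB.job (b0 := 24) (y := 0) (n := 9) (lo := 1) (hi := 33)
    (CvB.step (b := 29) (q := 4) (CvR.step ⟨bnd_l cLL_29_26.down⟩ rfl CvR.zero) rfl <|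
    CvB.step (b := 25) (q := 4) (CvR.step ⟨bnd_l (bnd_r cLL_25_38.down)⟩ rfl CvR.zero) rfl <|
    CvB.step (b := 21) (q := 4) (CvR.step ⟨bnd_l cLL_21_42.down⟩ rfl CvR.zero) rfl <|
    CvB.step (b := 17) (q := 4) (CvR.step ⟨(bnd_r cLL_17_43.down)⟩ rfl CvR.zero) rfl <|
    CvB.step (b := 13) (q := 4) (CvR.step ⟨bnd_l cLL_13_51.down⟩ rfl CvR.zero) rfl <|
    CvB.step (b := 9) (q := 4) (CvR.step ⟨bnd_l cLL_9_56.down⟩ rfl CvR.zero) rfl <|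
    CvB.step (b := 5) (q := 4) (CvR.step ⟨cLL_5_61.down⟩ rfl CvR.zero) rfl <|
    CvB.step (b := 1) (q := 4) (CvR.step ⟨cLL_1_67.down⟩ rfl CvR.zero) rfl <|
    CvB.zero)
    (by decide +kernel)

theorem bLL_47 : JobB fLL Ah Am (fun _ => Am.b0) 47 :=
  CvB.job (b0 := 24) (y := 1) (n := 12) (lo := 1) (hi := 33)
    (CvB.step (b := 29) (q := 4) (CvR.step ⟨bnd_l (bnd_r cLL_29_26.down)⟩ rfl CvR.zero) rfl <|
    CvB.step (b := 25) (q := 4) (CvR.step ⟨(bnd_r (bnd_r cLL_25_38.down))⟩ rfl CvR.zero) rfl <|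
    CvB.step (b := 21) (q := 4) (CvR.step ⟨(bnd_r cLL_21_42.down)⟩ rfl CvR.zero) rfl <|
    CvB.step (b := 17) (q := 4) (CvR.step ⟨bnd_l cLL_17_44.down⟩ rfl CvR.zero) rfl <|
    CvB.step (b := 13) (q := 4) (CvR.step ⟨(bnd_r cLL_13_51.down)⟩ rfl CvR.zero) rfl <|
    CvB.step (b := 9) (q := 4) (CvR.step ⟨(bnd_r cLL_9_56.down)⟩ rfl CvR.zero) rfl <|
    CvB.step (b := 5) (q := 4) (CvR.step ⟨cLL_5_62.down⟩ rfl CvR.zero) rfl <|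
    CvB.step (b := 1) (q := 4) (CvR.step ⟨cLL_1_68.down⟩ rfl CvR.zero) rfl <|
    CvB.zero)
    (by decide +kernel)

theorem bLL_48 : JobB fLL Ah Am (fun _ => Am.b0) 48 :=
  CvB.job (b0 := 25) (y := 0) (n := 7) (lo := 1) (hi := 33)
    (CvB.step (b := 29) (q := 4) (CvR.step ⟨(bnd_r (bnd_r cLL_29_26.down))⟩ rfl CvR.zero) rfl <|
    CvB.step (b := 25) (q := 4) (CvR.step ⟨bnd_l cLL_25_39.down⟩ rfl CvR.zero) rfl <|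
    CvB.step (b := 21) (q := 4) (CvR.step ⟨bnd_l cLL_21_43.down⟩ rfl CvR.zero) rfl <|
    CvB.step (b := 17) (q := 4) (CvR.step ⟨(bnd_r cLL_17_44.down)⟩ rfl CvR.zero) rfl <|
    CvB.step (b := 13) (q := 4) (CvR.step ⟨bnd_l cLL_13_52.down⟩ rfl CvR.zero) rfl <|
    CvB.step (b := 9) (q := 4) (CvR.step ⟨bnd_l cLL_9_57.down⟩ rfl CvR.zero) rfl <|
    CvB.step (b := 5) (q := 4) (CvR.step ⟨bnd_l cLL_5_63.down⟩ rfl CvR.zero) rfl <|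
    CvB.step (b := 1) (q := 4) (CvR.step ⟨bnd_l cLL_1_69.down⟩ rfl CvR.zero) rfl <|
    CvB.zero)
    (by decide +kernel)

theorem bLL_49 : JobB fLL Ah Am (fun _ => Am.b0) 49 :=
  CvB.job (b0 := 25) (y := 1) (n := 10) (lo := 1) (hi := 33)
    (CvB.step (b := 29) (q := 4) (CvR.step ⟨bnd_l cLL_29_27.down⟩ rfl CvR.zero) rfl <|
    CvB.step (b := 25) (q := 4) (CvR.step ⟨bnd_l (bnd_r cLL_25_39.down)⟩ rfl CvR.zero) rfl <|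
    CvB.step (b := 21) (q := 4) (CvR.step ⟨bnd_l (bnd_r cLL_21_43.down)⟩ rfl CvR.zero) rfl <|
    CvB.step (b := 17) (q := 4) (CvR.step ⟨bnd_l cLL_17_45.down⟩ rfl CvR.zero) rfl <|
    CvB.step (b := 13) (q := 4) (CvR.step ⟨(bnd_r cLL_13_52.down)⟩ rfl CvR.zero) rfl <|
    CvB.step (b := 9) (q := 4) (CvR.step ⟨(bnd_r cLL_9_57.down)⟩ rfl CvR.zero) rfl <|
    CvB.step (b := 5) (q := 4) (CvR.step ⟨(bnd_r cLL_5_63.down)⟩ rfl CvR.zero) rfl <|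
    CvB.step (b := 1) (q := 4) (CvR.step ⟨(bnd_r cLL_1_69.down)⟩ rfl CvR.zero) rfl <|
    CvB.zero)
    (by decide +kernel)

theorem bLL_50 : JobB fLL Ah Am (fun _ => Am.b0) 50 :=
  CvB.job (b0 := 26) (y := 0) (n := 5) (lo := 1) (hi := 33)
    (CvB.step (b := 29) (q := 4) (CvR.step ⟨bnd_l (bnd_r cLL_29_27.down)⟩ rfl CvR.zero) rfl <|
    CvB.step (b := 25) (q := 4) (CvR.step ⟨(bnd_r (bnd_r cLL_25_39.down))⟩ rfl CvR.zero) rfl <|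
    CvB.step (b := 21) (q := 4) (CvR.step ⟨(bnd_r (bnd_r cLL_21_43.down))⟩ rfl CvR.zero) rfl <|
    CvB.step (b := 17) (q := 4) (CvR.step ⟨bnd_l (bnd_r cLL_17_45.down)⟩ rfl CvR.zero) rfl <|
    CvB.step (b := 13) (q := 4) (CvR.step ⟨bnd_l cLL_13_53.down⟩ rfl CvR.zero) rfl <|
    CvB.step (b := 9) (q := 4) (CvR.step ⟨bnd_l cLL_9_58.down⟩ rfl CvR.zero) rfl <|
    CvB.step (b := 5) (q := 4) (CvR.step ⟨bnd_l cLL_5_64.down⟩ rfl CvR.zero) rfl <|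
    CvB.step (b := 1) (q := 4) (CvR.step ⟨bnd_l cLL_1_70.down⟩ rfl CvR.zero) rfl <|
    CvB.zero)
    (by decide +kernel)

theorem bLL_51 : JobB fLL Ah Am (fun _ => Am.b0) 51 :=
  CvB.job (b0 := 26) (y := 1) (n := 8) (lo := 1) (hi := 33)
    (CvB.step (b := 29) (q := 4) (CvR.step ⟨bnd_l (bnd_r (bnd_r cLL_29_27.down))⟩ rfl CvR.zero) rfl <|
    CvB.step (b := 25) (q := 4) (CvR.step ⟨bnd_l cLL_25_40.down⟩ rfl CvR.zero) rfl <|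
    CvB.step (b := 21) (q := 4) (CvR.step ⟨bnd_l cLL_21_44.down⟩ rfl CvR.zero) rfl <|
    CvB.step (b := 17) (q := 4) (CvR.step ⟨(bnd_r (bnd_r cLL_17_45.down))⟩ rfl CvR.zero) rfl <|
    CvB.step (b := 13) (q := 4) (CvR.step ⟨bnd_l (bnd_r cLL_13_53.down)⟩ rfl CvR.zero) rfl <|
    CvB.step (b := 9) (q := 4) (CvR.step ⟨bnd_l (bnd_r cLL_9_58.down)⟩ rfl CvR.zero) rfl <|
    CvB.step (b := 5) (q := 4) (CvR.step ⟨bnd_l (bnd_r cLL_5_64.down)⟩ rfl CvR.zero) rfl <|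
    CvB.step (b := 1) (q := 4) (CvR.step ⟨bnd_l (bnd_r cLL_1_70.down)⟩ rfl CvR.zero) rfl <|
    CvB.zero)
    (by decide +kernel)

theorem bLL_52 : JobB fLL Ah Am (fun _ => Am.b0) 52 :=
  CvB.job (b0 := 27) (y := 0) (n := 3) (lo := 1) (hi := 33)
    (CvB.step (b := 29) (q := 4) (CvR.step ⟨(bnd_r (bnd_r (bnd_r cLL_29_27.down)))⟩ rfl CvR.zero) rfl <|
    CvB.step (b := 25) (q := 4) (CvR.step ⟨bnd_l (bnd_r cLL_25_40.down)⟩ rfl CvR.zero) rfl <|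
    CvB.step (b := 21) (q := 4) (CvR.step ⟨bnd_l (bnd_r cLL_21_44.down)⟩ rfl CvR.zero) rfl <|
    CvB.step (b := 17) (q := 4) (CvR.step ⟨bnd_l cLL_17_46.down⟩ rfl CvR.zero) rfl <|
    CvB.step (b := 13) (q := 4) (CvR.step ⟨(bnd_r (bnd_r cLL_13_53.down))⟩ rfl CvR.zero) rfl <|
    CvB.step (b := 9) (q := 4) (CvR.step ⟨(bnd_r (bnd_r cLL_9_58.down))⟩ rfl CvR.zero) rfl <|
    CvB.step (b := 5) (q := 4) (CvR.step ⟨(bnd_r (bnd_r cLL_5_64.down))⟩ rfl CvR.zero) rfl <|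
    CvB.step (b := 1) (q := 4) (CvR.step ⟨(bnd_r (bnd_r cLL_1_70.down))⟩ rfl CvR.zero) rfl <|
    CvB.zero)
    (by decide +kernel)

theorem bLL_53 : JobB fLL Ah Am (fun _ => Am.b0) 53 :=
  CvB.job (b0 := 27) (y := 1) (n := 6) (lo := 1) (hi := 33)
    (CvB.step (b := 29) (q := 4) (CvR.step ⟨bnd_l cLL_29_28.down⟩ rfl CvR.zero) rfl <|
    CvB.step (b := 25) (q := 4) (CvR.step ⟨bnd_l (bnd_r (bnd_r cLL_25_40.down))⟩ rfl CvR.zero) rfl <|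
    CvB.step (b := 21) (q := 4) (CvR.step ⟨bnd_l (bnd_r (bnd_r cLL_21_44.down))⟩ rfl CvR.zero) rfl <|
    CvB.step (b := 17) (q := 4) (CvR.step ⟨bnd_l (bnd_r cLL_17_46.down)⟩ rfl CvR.zero) rfl <|
    CvB.step (b := 13) (q := 4) (CvR.step ⟨bnd_l cLL_13_54.down⟩ rfl CvR.zero) rfl <|
    CvB.step (b := 9) (q := 4) (CvR.step ⟨bnd_l cLL_9_59.down⟩ rfl CvR.zero) rfl <|
    CvB.step (b := 5) (q := 4) (CvR.step ⟨bnd_l cLL_5_65.down⟩ rfl CvR.zero) rfl <|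
    CvB.step (b := 1) (q := 4) (CvR.step ⟨bnd_l cLL_1_71.down⟩ rfl CvR.zero) rfl <|
    CvB.zero)
    (by decide +kernel)

theorem bLL_54 : JobB fLL Ah Am (fun _ => Am.b0) 54 :=
  CvB.job (b0 := 28) (y := 0) (n := 1) (lo := 1) (hi := 33)
    (CvB.step (b := 29) (q := 4) (CvR.step ⟨bnd_l (bnd_r cLL_29_28.down)⟩ rfl CvR.zero) rfl <|
    CvB.step (b := 25) (q := 4) (CvR.step ⟨(bnd_r (bnd_r (bnd_r cLL_25_40.down)))⟩ rfl CvR.zero) rfl <|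
    CvB.step (b := 21) (q := 4) (CvR.step ⟨(bnd_r (bnd_r (bnd_r cLL_21_44.down)))⟩ rfl CvR.zero) rfl <|
    CvB.step (b := 17) (q := 4) (CvR.step ⟨bnd_l (bnd_r (bnd_r cLL_17_46.down))⟩ rfl CvR.zero) rfl <|
    CvB.step (b := 13) (q := 4) (CvR.step ⟨bnd_l (bnd_r cLL_13_54.down)⟩ rfl CvR.zero) rfl <|
    CvB.step (b := 9) (q := 4) (CvR.step ⟨bnd_l (bnd_r cLL_9_59.down)⟩ rfl CvR.zero) rfl <|
    CvB.step (b := 5) (q := 4) (CvR.step ⟨bnd_l (bnd_r cLL_5_65.down)⟩ rfl CvR.zero) rfl <|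
    CvB.step (b := 1) (q := 4) (CvR.step ⟨bnd_l (bnd_r cLL_1_71.down)⟩ rfl CvR.zero) rfl <|
    CvB.zero)
    (by decide +kernel)

theorem bLL_55 : JobB fLL Ah Am (fun _ => Am.b0) 55 :=
  CvB.job (b0 := 28) (y := 1) (n := 4) (lo := 1) (hi := 33)
    (CvB.step (b := 29) (q := 4) (CvR.step ⟨(bnd_r (bnd_r cLL_29_28.down))⟩ rfl CvR.zero) rfl <|
    CvB.step (b := 25) (q := 4) (CvR.step ⟨cLL_25_41.down⟩ rfl CvR.zero) rfl <|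
    CvB.step (b := 21) (q := 4) (CvR.step ⟨cLL_21_45.down⟩ rfl CvR.zero) rfl <|
    CvB.step (b := 17) (q := 4) (CvR.step ⟨(bnd_r (bnd_r (bnd_r cLL_17_46.down)))⟩ rfl CvR.zero) rfl <|
    CvB.step (b := 13) (q := 4) (CvR.step ⟨(bnd_r (bnd_r cLL_13_54.down))⟩ rfl CvR.zero) rfl <|
    CvB.step (b := 9) (q := 4) (CvR.step ⟨(bnd_r (bnd_r cLL_9_59.down))⟩ rfl CvR.zero) rfl <|
    CvB.step (b := 5) (q := 4) (CvR.step ⟨(bnd_r (bnd_r cLL_5_65.down))⟩ rfl CvR.zero) rfl <|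
    CvB.step (b := 1) (q := 4) (CvR.step ⟨(bnd_r (bnd_r cLL_1_71.down))⟩ rfl CvR.zero) rfl <|
    CvB.zero)
    (by decide +kernel)

theorem jobLL : Job fLL Ah Am (fun _ => Am.b0) :=
  AllP.job (n := 56)
    (AllP.step bLL_55 <|
    AllP.step bLL_54 <|
    AllP.step bLL_53 <|
    AllP.step bLL_52 <|
    AllP.step bLL_51 <|
    AllP.step bLL_50 <|
    AllP.step bLL_49 <|
    AllP.step bLL_48 <|
    AllP.step bLL_47 <|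
    AllP.step bLL_46 <|
    AllP.step bLL_45 <|
    AllP.step bLL_44 <|
    AllP.step bLL_43 <|
    AllP.step bLL_42 <|
    AllP.step bLL_41 <|
    AllP.step bLL_40 <|
    AllP.step bLL_39 <|
    AllP.step bLL_38 <|
    AllP.step bLL_37 <|
    AllP.step bLL_36 <|
    AllP.step bLL_35 <|
    AllP.step bLL_34 <|
    AllP.step bLL_33 <|
    AllP.step bLL_32 <|
    AllP.step bLL_31 <|
    AllP.step bLL_30 <|
    AllP.step bLL_29 <|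
    AllP.step bLL_28 <|
    AllP.step bLL_27 <|
    AllP.step bLL_26 <|
    AllP.step bLL_25 <|
    AllP.step bLL_24 <|
    AllP.step bLL_23 <|
    AllP.step bLL_22 <|
    AllP.step bLL_21 <|
    AllP.step bLL_20 <|
    AllP.step bLL_19 <|
    AllP.step bLL_18 <|
    AllP.step bLL_17 <|
    AllP.step bLL_16 <|
    AllP.step bLL_15 <|
    AllP.step bLL_14 <|
    AllP.step bLL_13 <|
    AllP.step bLL_12 <|
    AllP.step bLL_11 <|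
    AllP.step bLL_10 <|
    AllP.step bLL_9 <|
    AllP.step bLL_8 <|
    AllP.step bLL_7 <|
    AllP.step bLL_6 <|
    AllP.step bLL_5 <|
    AllP.step bLL_4 <|
    AllP.step bLL_3 <|
    AllP.step bLL_2 <|
    AllP.step bLL_1 <|
    AllP.step bLL_0 <|
    AllP.zero _)
    (by decide +kernel)

end Pool.Agent.Work.MP_6bf1e5_an.HD
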