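import Pool.Agent.Lib.KBlk.Jobs
import Pool.Agent.Work.MP_6bf1e5_an.HD.CMM0
import Pool.Agent.Work.MP_6bf1e5_an.HD.CMM1
import Pool.Agent.Work.MP_6bf1e5_an.HD.CMM2
import Pool.Agent.Work.MP_6bf1e5_an.HD.CMM3
import Pool.Agent.Work.MP_6bf1e5_an.HD.CMM4
import Pool.Agent.Work.MP_6bf1e5_an.HD.CMM5
import Pool.Agent.Work.MP_6bf1e5_an.HD.CMM6
import Pool.Agent.Work.MP_6bf1e5_an.HD.CMM7
import Pool.Agent.Work.MP_6bf1e5_an.HD.CMM8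
import Pool.Agent.Work.MP_6bf1e5_an.HD.CMM9
import Pool.Agent.Work.MP_6bf1e5_an.HD.CMM10
import Pool.Agent.Work.MP_6bf1e5_an.HD.CMM11
import Pool.Agent.Work.MP_6bf1e5_an.HD.CMM12
import Pool.Agent.Work.MP_6bf1e5_an.HD.CMM13
import Pool.Agent.Work.MP_6bf1e5_an.HD.CMM14
import Pool.Agent.Work.MP_6bf1e5_an.HD.CMM15
import Pool.Agent.Work.MP_6bf1e5_an.HD.CMM16
import Pool.Agent.Work.MP_6bf1e5_an.HD.CMM17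
import Pool.Agent.Work.MP_6bf1e5_an.HD.CMM18
import Pool.Agent.Work.MP_6bf1e5_an.HD.CMM19
import Pool.Agent.Work.MP_6bf1e5_an.HD.CMM20
import Pool.Agent.Work.MP_6bf1e5_an.HD.CMM21
import Pool.Agent.Work.MP_6bf1e5_an.HD.CMM22
import Pool.Agent.Work.MP_6bf1e5_an.HD.CMM23
import Pool.Agent.Work.MP_6bf1e5_an.HD.CMM24
import Pool.Agent.Work.MP_6bf1e5_an.HD.CMM25
import Pool.Agent.Work.MP_6bf1e5_an.HD.CMM26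
import Pool.Agent.Work.MP_6bf1e5_an.HD.CMM27
import Pool.Agent.Work.MP_6bf1e5_an.HD.CMM28
import Pool.Agent.Work.MP_6bf1e5_an.HD.CMM29
import Pool.Agent.Work.MP_6bf1e5_an.HD.CMM30
import Pool.Agent.Work.MP_6bf1e5_an.HD.CMM31
import Pool.Agent.Work.MP_6bf1e5_an.HD.CMM32
import Pool.Agent.Work.MP_6bf1e5_an.HD.CMM33
import Pool.Agent.Work.MP_6bf1e5_an.HD.CMM34
import Pool.Agent.Work.MP_6bf1e5_an.HD.CMM35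
import Pool.Agent.Work.MP_6bf1e5_an.HD.CMM36
import Pool.Agent.Work.MP_6bf1e5_an.HD.CMM37
import Pool.Agent.Work.MP_6bf1e5_an.HD.CMM38
import Pool.Agent.Work.MP_6bf1e5_an.HD.CMM39
import Pool.Agent.Work.MP_6bf1e5_an.HD.CMM40
import Pool.Agent.Work.MP_6bf1e5_an.HD.CMM41
import Pool.Agent.Work.MP_6bf1e5_an.HD.CMM42
import Pool.Agent.Work.MP_6bf1e5_an.HD.CMM43
import Pool.Agent.Work.MP_6bf1e5_an.HD.CMM44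
import Pool.Agent.Work.MP_6bf1e5_an.HD.CMM45
import Pool.Agent.Work.MP_6bf1e5_an.HD.CMM46
import Pool.Agent.Work.MP_6bf1e5_an.HD.CMM47
import Pool.Agent.Work.MP_6bf1e5_an.HD.CMM48
import Pool.Agent.Work.MP_6bf1e5_an.HD.CMM49
import Pool.Agent.Work.MP_6bf1e5_an.HD.CMM50
import Pool.Agent.Work.MP_6bf1e5_an.HD.CMM51
import Pool.Agent.Work.MP_6bf1e5_an.HD.CMM52
import Pool.Agent.Work.MP_6bf1e5_an.HD.CMM53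
import Pool.Agent.Work.MP_6bf1e5_an.HD.CMM54
import Pool.Agent.Work.MP_6bf1e5_an.HD.CMM55

/-! The pass MM. -/

namespace Pool.Agent.Work.MP_6bf1e5_an.HD

open Pool.Agent.Lib.KLA Pool.Agent.Lib.KBlk

theorem bMM_0 : JobB fMM Am Am (fun b => b) 0 :=
  CvB.job (b0 := 1) (y := 0) (n := 63) (lo := 1) (hi := 33)
    (CvB.step (b := 29) (q := 4) (CvR.step ⟨cMM_29_1.down⟩ rfl (CvR.step ⟨cMM_29_0.down⟩ rfl CvR.zero)) rfl <|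
    CvB.step (b := 25) (q := 4) (CvR.step ⟨cMM_25_2.down⟩ rfl (CvR.step ⟨cMM_25_1.down⟩ rfl (CvR.step ⟨cMM_25_0.down⟩ rfl CvR.zero))) rfl <|
    CvB.step (b := 21) (q := 4) (CvR.step ⟨bnd_l cMM_21_4.down⟩ rfl (CvR.step ⟨cMM_21_3.down⟩ rfl (CvR.step ⟨cMM_21_2.down⟩ rfl (CvR.step ⟨cMM_21_1.down⟩ rfl (CvR.step ⟨cMM_21_0.down⟩ rfl CvR.zero))))) rfl <|
    CvB.step (b := 17) (q := 4) (CvR.step ⟨bnd_l cMM_17_5.down⟩ rfl (CvR.step ⟨cMM_17_4.down⟩ rfl (CvR.step ⟨cMM_17_3.down⟩ rfl (CvR.step ⟨cMM_17_2.down⟩ rfl (CvR.step ⟨cMM_17_1.down⟩ rfl (CvR.step ⟨cMM_17_0.down⟩ rfl CvR.zero)))))) rfl <|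
    CvB.step (b := 13) (q := 4) (CvR.step ⟨cMM_13_6.down⟩ rfl (CvR.step ⟨cMM_13_5.down⟩ rfl (CvR.step ⟨cMM_13_4.down⟩ rfl (CvR.step ⟨cMM_13_3.down⟩ rfl (CvR.step ⟨cMM_13_2.down⟩ rfl (CvR.step ⟨cMM_13_1.down⟩ rfl (CvR.step ⟨cMM_13_0.down⟩ rfl CvR.zero))))))) rfl <|
    CvB.step (b := 9) (q := 4) (CvR.step ⟨cMM_9_7.down⟩ rfl (CvR.step ⟨cMM_9_6.down⟩ rfl (CvR.step ⟨cMM_9_5.down⟩ rfl (CvR.step ⟨cMM_9_4.down⟩ rfl (CvR.step ⟨cMM_9_3.down⟩ rfl (CvR.step ⟨cMM_9_2.down⟩ rfl (CvR.step ⟨cMM_9_1.down⟩ rfl (CvR.step ⟨cMM_9_0.down⟩ rfl CvR.zero)))))))) rfl <|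
    CvB.step (b := 5) (q := 4) (CvR.step ⟨cMM_5_8.down⟩ rfl (CvR.step ⟨cMM_5_7.down⟩ rfl (CvR.step ⟨cMM_5_6.down⟩ rfl (CvR.step ⟨cMM_5_5.down⟩ rfl (CvR.step ⟨cMM_5_4.down⟩ rfl (CvR.step ⟨cMM_5_3.down⟩ rfl (CvR.step ⟨cMM_5_2.down⟩ rfl (CvR.step ⟨cMM_5_1.down⟩ rfl (CvR.step ⟨cMM_5_0.down⟩ rfl CvR.zero))))))))) rfl <|
    CvB.step (b := 2) (q := 3) (CvR.step ⟨cMM_2_7.down⟩ rfl (CvR.step ⟨cMM_2_6.down⟩ rfl (CvR.step ⟨cMM_2_5.down⟩ rfl (CvR.step ⟨cMM_2_4.down⟩ rfl (CvR.step ⟨cMM_2_3.down⟩ rfl (CvR.step ⟨cMM_2_2.down⟩ rfl (CvR.step ⟨cMM_2_1.down⟩ rfl (CvR.step ⟨cMM_2_0.down⟩ rfl CvR.zero)))))))) rfl <|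
    CvB.step (b := 1) (q := 1) (CvR.step ⟨cMM_1_2.down⟩ rfl (CvR.step ⟨cMM_1_1.down⟩ rfl (CvR.step ⟨cMM_1_0.down⟩ rfl CvR.zero))) rfl <|
    CvB.zero)
    (by decide +kernel)

theorem bMM_1 : JobB fMM Am Am (fun b => b) 1 :=
  CvB.job (b0 := 1) (y := 1) (n := 64) (lo := 1) (hi := 33)
    (CvB.step (b := 29) (q := 4) (CvR.step ⟨cMM_29_3.down⟩ rfl (CvR.step ⟨cMM_29_2.down⟩ rfl CvR.zero)) rfl <|
    CvB.step (b := 25) (q := 4) (CvR.step ⟨cMM_25_5.down⟩ rfl (CvR.step ⟨cMM_25_4.down⟩ rfl (CvR.step ⟨cMM_25_3.down⟩ rfl CvR.zero))) rfl <|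
    CvB.step (b := 21) (q := 4) (CvR.step ⟨cMM_21_8.down⟩ rfl (CvR.step ⟨cMM_21_7.down⟩ rfl (CvR.step ⟨cMM_21_6.down⟩ rfl (CvR.step ⟨cMM_21_5.down⟩ rfl (CvR.step ⟨(bnd_r cMM_21_4.down)⟩ rfl CvR.zero))))) rfl <|
    CvB.step (b := 17) (q := 4) (CvR.step ⟨cMM_17_10.down⟩ rfl (CvR.step ⟨cMM_17_9.down⟩ rfl (CvR.step ⟨cMM_17_8.down⟩ rfl (CvR.step ⟨cMM_17_7.down⟩ rfl (CvR.step ⟨cMM_17_6.down⟩ rfl (CvR.step ⟨(bnd_r cMM_17_5.down)⟩ rfl CvR.zero)))))) rfl <|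
    CvB.step (b := 13) (q := 4) (CvR.step ⟨bnd_l cMM_13_14.down⟩ rfl (CvR.step ⟨cMM_13_13.down⟩ rfl (CvR.step ⟨cMM_13_12.down⟩ rfl (CvR.step ⟨cMM_13_11.down⟩ rfl (CvR.step ⟨cMM_13_10.down⟩ rfl (CvR.step ⟨cMM_13_9.down⟩ rfl (CvR.step ⟨cMM_13_8.down⟩ rfl (CvR.step ⟨cMM_13_7.down⟩ rfl CvR.zero)))))))) rfl <|
    CvB.step (b := 9) (q := 4) (CvR.step ⟨cMM_9_15.down⟩ rfl (CvR.step ⟨cMM_9_14.down⟩ rfl (CvR.step ⟨cMM_9_13.down⟩ rfl (CvR.step ⟨cMM_9_12.down⟩ rfl (CvR.step ⟨cMM_9_11.down⟩ rfl (CvR.step ⟨cMM_9_10.down⟩ rfl (CvR.step ⟨cMM_9_9.down⟩ rfl (CvR.step ⟨cMM_9_8.down⟩ rfl CvR.zero)))))))) rfl <|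
    CvB.step (b := 5) (q := 4) (CvR.step ⟨bnd_l cMM_5_18.down⟩ rfl (CvR.step ⟨cMM_5_17.down⟩ rfl (CvR.step ⟨cMM_5_16.down⟩ rfl (CvR.step ⟨cMM_5_15.down⟩ rfl (CvR.step ⟨cMM_5_14.down⟩ rfl (CvR.step ⟨cMM_5_13.down⟩ rfl (CvR.step ⟨cMM_5_12.down⟩ rfl (CvR.step ⟨cMM_5_11.down⟩ rfl (CvR.step ⟨cMM_5_10.down⟩ rfl (CvR.step ⟨cMM_5_9.down⟩ rfl CvR.zero)))))))))) rfl <|
    CvB.step (b := 2) (q := 3) (CvR.step ⟨cMM_2_15.down⟩ rfl (CvR.step ⟨cMM_2_14.down⟩ rfl (CvR.step ⟨cMM_2_13.down⟩ rfl (CvR.step ⟨cMM_2_12.down⟩ rfl (CvR.step ⟨cMM_2_11.down⟩ rfl (CvR.step ⟨cMM_2_10.down⟩ rfl (CvR.step ⟨cMM_2_9.down⟩ rfl (CvR.step ⟨cMM_2_8.down⟩ rfl CvR.zero)))))))) rfl <|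
    CvB.step (b := 1) (q := 1) (CvR.step ⟨cMM_1_6.down⟩ rfl (CvR.step ⟨cMM_1_5.down⟩ rfl (CvR.step ⟨cMM_1_4.down⟩ rfl (CvR.step ⟨cMM_1_3.down⟩ rfl CvR.zero)))) rfl <|
    CvB.zero)
    (by decide +kernel)

theorem bMM_2 : JobB fMM Am Am (fun b => b) 2 :=
  CvB.job (b0 := 2) (y := 0) (n := 61) (lo := 2) (hi := 33)
    (CvB.step (b := 29) (q := 4) (CvR.step ⟨cMM_29_5.down⟩ rfl (CvR.step ⟨cMM_29_4.down⟩ rfl CvR.zero)) rfl <|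
    CvB.step (b := 25) (q := 4) (CvR.step ⟨cMM_25_8.down⟩ rfl (CvR.step ⟨cMM_25_7.down⟩ rfl (CvR.step ⟨cMM_25_6.down⟩ rfl CvR.zero))) rfl <|
    CvB.step (b := 21) (q := 4) (CvR.step ⟨bnd_l cMM_21_13.down⟩ rfl (CvR.step ⟨cMM_21_12.down⟩ rfl (CvR.step ⟨cMM_21_11.down⟩ rfl (CvR.step ⟨cMM_21_10.down⟩ rfl (CvR.step ⟨cMM_21_9.down⟩ rfl CvR.zero))))) rfl <|
    CvB.step (b := 17) (q := 4) (CvR.step ⟨bnd_l cMM_17_16.down⟩ rfl (CvR.step ⟨cMM_17_15.down⟩ rfl (CvR.step ⟨cMM_17_14.down⟩ rfl (CvR.step ⟨cMM_17_13.down⟩ rfl (CvR.step ⟨cMM_17_12.down⟩ rfl (CvR.step ⟨cMM_17_11.down⟩ rfl CvR.zero)))))) rfl <|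
    CvB.step (b := 13) (q := 4) (CvR.step ⟨bnd_l cMM_13_21.down⟩ rfl (CvR.step ⟨cMM_13_20.down⟩ rfl (CvR.step ⟨cMM_13_19.down⟩ rfl (CvR.step ⟨cMM_13_18.down⟩ rfl (CvR.step ⟨cMM_13_17.down⟩ rfl (CvR.step ⟨cMM_13_16.down⟩ rfl (CvR.step ⟨cMM_13_15.down⟩ rfl (CvR.step ⟨(bnd_r cMM_13_14.down)⟩ rfl CvR.zero)))))))) rfl <|
    CvB.step (b := 9) (q := 4) (CvR.step ⟨bnd_l cMM_9_23.down⟩ rfl (CvR.step ⟨cMM_9_22.down⟩ rfl (CvR.step ⟨cMM_9_21.down⟩ rfl (CvR.step ⟨cMM_9_20.down⟩ rfl (CvR.step ⟨cMM_9_19.down⟩ rfl (CvR.step ⟨cMM_9_18.down⟩ rfl (CvR.step ⟨cMM_9_17.down⟩ rfl (CvR.step ⟨cMM_9_16.down⟩ rfl CvR.zero)))))))) rfl <|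
    CvB.step (b := 5) (q := 4) (CvR.step ⟨bnd_l cMM_5_27.down⟩ rfl (CvR.step ⟨cMM_5_26.down⟩ rfl (CvR.step ⟨cMM_5_25.down⟩ rfl (CvR.step ⟨cMM_5_24.down⟩ rfl (CvR.step ⟨cMM_5_23.down⟩ rfl (CvR.step ⟨cMM_5_22.down⟩ rfl (CvR.step ⟨cMM_5_21.down⟩ rfl (CvR.step ⟨cMM_5_20.down⟩ rfl (CvR.step ⟨cMM_5_19.down⟩ rfl (CvR.step ⟨(bnd_r cMM_5_18.down)⟩ rfl CvR.zero)))))))))) rfl <|
    CvB.step (b := 2) (q := 3) (CvR.step ⟨bnd_l cMM_2_23.down⟩ rfl (CvR.step ⟨cMM_2_22.down⟩ rfl (CvR.step ⟨cMM_2_21.down⟩ rfl (CvR.step ⟨cMM_2_20.down⟩ rfl (CvR.step ⟨cMM_2_19.down⟩ rfl (CvR.step ⟨cMM_2_18.down⟩ rfl (CvR.step ⟨cMM_2_17.down⟩ rfl (CvR.step ⟨cMM_2_16.down⟩ rfl CvR.zero)))))))) rfl <|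
    CvB.zero)
    (by decide +kernel)

theorem bMM_3 : JobB fMM Am Am (fun b => b) 3 :=
  CvB.job (b0 := 2) (y := 1) (n := 62) (lo := 2) (hi := 33)
    (CvB.step (b := 29) (q := 4) (CvR.step ⟨cMM_29_7.down⟩ rfl (CvR.step ⟨cMM_29_6.down⟩ rfl CvR.zero)) rfl <|
    CvB.step (b := 25) (q := 4) (CvR.step ⟨cMM_25_11.down⟩ rfl (CvR.step ⟨cMM_25_10.down⟩ rfl (CvR.step ⟨cMM_25_9.down⟩ rfl CvR.zero))) rfl <|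
    CvB.step (b := 21) (q := 4) (CvR.step ⟨bnd_l cMM_21_17.down⟩ rfl (CvR.step ⟨cMM_21_16.down⟩ rfl (CvR.step ⟨cMM_21_15.down⟩ rfl (CvR.step ⟨cMM_21_14.down⟩ rfl (CvR.step ⟨(bnd_r cMM_21_13.down)⟩ rfl CvR.zero))))) rfl <|
    CvB.step (b := 17) (q := 4) (CvR.step ⟨bnd_l cMM_17_21.down⟩ rfl (CvR.step ⟨cMM_17_20.down⟩ rfl (CvR.step ⟨cMM_17_19.down⟩ rfl (CvR.step ⟨cMM_17_18.down⟩ rfl (CvR.step ⟨cMM_17_17.down⟩ rfl (CvR.step ⟨(bnd_r cMM_17_16.down)⟩ rfl CvR.zero)))))) rfl <|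
    CvB.step (b := 13) (q := 4) (CvR.step ⟨bnd_l cMM_13_28.down⟩ rfl (CvR.step ⟨cMM_13_27.down⟩ rfl (CvR.step ⟨cMM_13_26.down⟩ rfl (CvR.step ⟨cMM_13_25.down⟩ rfl (CvR.step ⟨cMM_13_24.down⟩ rfl (CvR.step ⟨cMM_13_23.down⟩ rfl (CvR.step ⟨cMM_13_22.down⟩ rfl (CvR.step ⟨(bnd_r cMM_13_21.down)⟩ rfl CvR.zero)))))))) rfl <|
    CvB.step (b := 9) (q := 4) (CvR.step ⟨bnd_l cMM_9_31.down⟩ rfl (CvR.step ⟨cMM_9_30.down⟩ rfl (CvR.step ⟨cMM_9_29.down⟩ rfl (CvR.step ⟨cMM_9_28.down⟩ rfl (CvR.step ⟨cMM_9_27.down⟩ rfl (CvR.step ⟨cMM_9_26.down⟩ rfl (CvR.step ⟨cMM_9_25.down⟩ rfl (CvR.step ⟨cMM_9_24.down⟩ rfl (CvR.step ⟨(bnd_r cMM_9_23.down)⟩ rfl CvR.zero))))))))) rfl <|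
    CvB.step (b := 5) (q := 4) (CvR.step ⟨bnd_l cMM_5_36.down⟩ rfl (CvR.step ⟨cMM_5_35.down⟩ rfl (CvR.step ⟨cMM_5_34.down⟩ rfl (CvR.step ⟨cMM_5_33.down⟩ rfl (CvR.step ⟨cMM_5_32.down⟩ rfl (CvR.step ⟨cMM_5_31.down⟩ rfl (CvR.step ⟨cMM_5_30.down⟩ rfl (CvR.step ⟨cMM_5_29.down⟩ rfl (CvR.step ⟨cMM_5_28.down⟩ rfl (CvR.step ⟨(bnd_r cMM_5_27.down)⟩ rfl CvR.zero)))))))))) rfl <|
    CvB.step (b := 2) (q := 3) (CvR.step ⟨bnd_l cMM_2_31.down⟩ rfl (CvR.step ⟨cMM_2_30.down⟩ rfl (CvR.step ⟨cMM_2_29.down⟩ rfl (CvR.step ⟨cMM_2_28.down⟩ rfl (CvR.step ⟨cMM_2_27.down⟩ rfl (CvR.step ⟨cMM_2_26.down⟩ rfl (CvR.step ⟨cMM_2_25.down⟩ rfl (CvR.step ⟨cMM_2_24.down⟩ rfl (CvR.step ⟨(bnd_r cMM_2_23.down)⟩ rfl CvR.zero))))))))) rfl <|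
    CvB.zero)
    (by decide +kernel)

theorem bMM_4 : JobB fMM Am Am (fun b => b) 4 :=
  CvB.job (b0 := 3) (y := 0) (n := 59) (lo := 2) (hi := 33)
    (CvB.step (b := 29) (q := 4) (CvR.step ⟨cMM_29_9.down⟩ rfl (CvR.step ⟨cMM_29_8.down⟩ rfl CvR.zero)) rfl <|
    CvB.step (b := 25) (q := 4) (CvR.step ⟨cMM_25_14.down⟩ rfl (CvR.step ⟨cMM_25_13.down⟩ rfl (CvR.step ⟨cMM_25_12.down⟩ rfl CvR.zero))) rfl <|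
    CvB.step (b := 21) (q := 4) (CvR.step ⟨cMM_21_21.down⟩ rfl (CvR.step ⟨cMM_21_20.down⟩ rfl (CvR.step ⟨cMM_21_19.down⟩ rfl (CvR.step ⟨cMM_21_18.down⟩ rfl (CvR.step ⟨(bnd_r cMM_21_17.down)⟩ rfl CvR.zero))))) rfl <|
    CvB.step (b := 17) (q := 4) (CvR.step ⟨cMM_17_26.down⟩ rfl (CvR.step ⟨cMM_17_25.down⟩ rfl (CvR.step ⟨cMM_17_24.down⟩ rfl (CvR.step ⟨cMM_17_23.down⟩ rfl (CvR.step ⟨cMM_17_22.down⟩ rfl (CvR.step ⟨(bnd_r cMM_17_21.down)⟩ rfl CvR.zero)))))) rfl <|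
    CvB.step (b := 13) (q := 4) (CvR.step ⟨cMM_13_34.down⟩ rfl (CvR.step ⟨cMM_13_33.down⟩ rfl (CvR.step ⟨cMM_13_32.down⟩ rfl (CvR.step ⟨cMM_13_31.down⟩ rfl (CvR.step ⟨cMM_13_30.down⟩ rfl (CvR.step ⟨cMM_13_29.down⟩ rfl (CvR.step ⟨(bnd_r cMM_13_28.down)⟩ rfl CvR.zero))))))) rfl <|
    CvB.step (b := 9) (q := 4) (CvR.step ⟨bnd_l cMM_9_39.down⟩ rfl (CvR.step ⟨cMM_9_38.down⟩ rfl (CvR.step ⟨cMM_9_37.down⟩ rfl (CvR.step ⟨cMM_9_36.down⟩ rfl (CvR.step ⟨cMM_9_35.down⟩ rfl (CvR.step ⟨cMM_9_34.down⟩ rfl (CvR.step ⟨cMM_9_33.down⟩ rfl (CvR.step ⟨cMM_9_32.down⟩ rfl (CvR.step ⟨(bnd_r cMM_9_31.down)⟩ rfl CvR.zero))))))))) rfl <|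
    CvB.step (b := 5) (q := 4) (CvR.step ⟨cMM_5_44.down⟩ rfl (CvR.step ⟨cMM_5_43.down⟩ rfl (CvR.step ⟨cMM_5_42.down⟩ rfl (CvR.step ⟨cMM_5_41.down⟩ rfl (CvR.step ⟨cMM_5_40.down⟩ rfl (CvR.step ⟨cMM_5_39.down⟩ rfl (CvR.step ⟨cMM_5_38.down⟩ rfl (CvR.step ⟨cMM_5_37.down⟩ rfl (CvR.step ⟨(bnd_r cMM_5_36.down)⟩ rfl CvR.zero))))))))) rfl <|
    CvB.step (b := 2) (q := 3) (CvR.step ⟨bnd_l cMM_2_39.down⟩ rfl (CvR.step ⟨cMM_2_38.down⟩ rfl (CvR.step ⟨cMM_2_37.down⟩ rfl (CvR.step ⟨cMM_2_36.down⟩ rfl (CvR.step ⟨cMM_2_35.down⟩ rfl (CvR.step ⟨cMM_2_34.down⟩ rfl (CvR.step ⟨cMM_2_33.down⟩ rfl (CvR.step ⟨cMM_2_32.down⟩ rfl (CvR.step ⟨(bnd_r cMM_2_31.down)⟩ rfl CvR.zero))))))))) rfl <|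
    CvB.zero)
    (by decide +kernel)

theorem bMM_5 : JobB fMM Am Am (fun b => b) 5 :=
  CvB.job (b0 := 3) (y := 1) (n := 60) (lo := 2) (hi := 33)
    (CvB.step (b := 29) (q := 4) (CvR.step ⟨cMM_29_11.down⟩ rfl (CvR.step ⟨cMM_29_10.down⟩ rfl CvR.zero)) rfl <|
    CvB.step (b := 25) (q := 4) (CvR.step ⟨cMM_25_17.down⟩ rfl (CvR.step ⟨cMM_25_16.down⟩ rfl (CvR.step ⟨cMM_25_15.down⟩ rfl CvR.zero))) rfl <|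
    CvB.step (b := 21) (q := 4) (CvR.step ⟨cMM_21_25.down⟩ rfl (CvR.step ⟨cMM_21_24.down⟩ rfl (CvR.step ⟨cMM_21_23.down⟩ rfl (CvR.step ⟨cMM_21_22.down⟩ rfl CvR.zero)))) rfl <|
    CvB.step (b := 17) (q := 4) (CvR.step ⟨cMM_17_31.down⟩ rfl (CvR.step ⟨cMM_17_30.down⟩ rfl (CvR.step ⟨cMM_17_29.down⟩ rfl (CvR.step ⟨cMM_17_28.down⟩ rfl (CvR.step ⟨cMM_17_27.down⟩ rfl CvR.zero))))) rfl <|
    CvB.step (b := 13) (q := 4) (CvR.step ⟨cMM_13_41.down⟩ rfl (CvR.step ⟨cMM_13_40.down⟩ rfl (CvR.step ⟨cMM_13_39.down⟩ rfl (CvR.step ⟨cMM_13_38.down⟩ rfl (CvR.step ⟨cMM_13_37.down⟩ rfl (CvR.step ⟨cMM_13_36.down⟩ rfl (CvR.step ⟨cMM_13_35.down⟩ rfl CvR.zero))))))) rfl <|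
    CvB.step (b := 9) (q := 4) (CvR.step ⟨cMM_9_46.down⟩ rfl (CvR.step ⟨cMM_9_45.down⟩ rfl (CvR.step ⟨cMM_9_44.down⟩ rfl (CvR.step ⟨cMM_9_43.down⟩ rfl (CvR.step ⟨cMM_9_42.down⟩ rfl (CvR.step ⟨cMM_9_41.down⟩ rfl (CvR.step ⟨cMM_9_40.down⟩ rfl (CvR.step ⟨(bnd_r cMM_9_39.down)⟩ rfl CvR.zero)))))))) rfl <|
    CvB.step (b := 5) (q := 4) (CvR.step ⟨cMM_5_53.down⟩ rfl (CvR.step ⟨cMM_5_52.down⟩ rfl (CvR.step ⟨cMM_5_51.down⟩ rfl (CvR.step ⟨cMM_5_50.down⟩ rfl (CvR.step ⟨cMM_5_49.down⟩ rfl (CvR.step ⟨cMM_5_48.down⟩ rfl (CvR.step ⟨cMM_5_47.down⟩ rfl (CvR.step ⟨cMM_5_46.down⟩ rfl (CvR.step ⟨cMM_5_45.down⟩ rfl CvR.zero))))))))) rfl <|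
    CvB.step (b := 2) (q := 3) (CvR.step ⟨cMM_2_46.down⟩ rfl (CvR.step ⟨cMM_2_45.down⟩ rfl (CvR.step ⟨cMM_2_44.down⟩ rfl (CvR.step ⟨cMM_2_43.down⟩ rfl (CvR.step ⟨cMM_2_42.down⟩ rfl (CvR.step ⟨cMM_2_41.down⟩ rfl (CvR.step ⟨cMM_2_40.down⟩ rfl (CvR.step ⟨(bnd_r cMM_2_39.down)⟩ rfl CvR.zero)))))))) rfl <|
    CvB.zero)
    (by decide +kernel)

theorem bMM_6 : JobB fMM Am Am (fun b => b) 6 :=
  CvB.job (b0 := 4) (y := 0) (n := 57) (lo := 2) (hi := 33)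
    (CvB.step (b := 29) (q := 4) (CvR.step ⟨cMM_29_13.down⟩ rfl (CvR.step ⟨cMM_29_12.down⟩ rfl CvR.zero)) rfl <|
    CvB.step (b := 25) (q := 4) (CvR.step ⟨cMM_25_20.down⟩ rfl (CvR.step ⟨cMM_25_19.down⟩ rfl (CvR.step ⟨cMM_25_18.down⟩ rfl CvR.zero))) rfl <|
    CvB.step (b := 21) (q := 4) (CvR.step ⟨cMM_21_29.down⟩ rfl (CvR.step ⟨cMM_21_28.down⟩ rfl (CvR.step ⟨cMM_21_27.down⟩ rfl (CvR.step ⟨cMM_21_26.down⟩ rfl CvR.zero)))) rfl <|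
    CvB.step (b := 17) (q := 4) (CvR.step ⟨cMM_17_36.down⟩ rfl (CvR.step ⟨cMM_17_35.down⟩ rfl (CvR.step ⟨cMM_17_34.down⟩ rfl (CvR.step ⟨cMM_17_33.down⟩ rfl (CvR.step ⟨cMM_17_32.down⟩ rfl CvR.zero))))) rfl <|
    CvB.step (b := 13) (q := 4) (CvR.step ⟨bnd_l cMM_13_48.down⟩ rfl (CvR.step ⟨cMM_13_47.down⟩ rfl (CvR.step ⟨cMM_13_46.down⟩ rfl (CvR.step ⟨cMM_13_45.down⟩ rfl (CvR.step ⟨cMM_13_44.down⟩ rfl (CvR.step ⟨cMM_13_43.down⟩ rfl (CvR.step ⟨cMM_13_42.down⟩ rfl CvR.zero))))))) rfl <|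
    CvB.step (b := 9) (q := 4) (CvR.step ⟨bnd_l cMM_9_54.down⟩ rfl (CvR.step ⟨cMM_9_53.down⟩ rfl (CvR.step ⟨cMM_9_52.down⟩ rfl (CvR.step ⟨cMM_9_51.down⟩ rfl (CvR.step ⟨cMM_9_50.down⟩ rfl (CvR.step ⟨cMM_9_49.down⟩ rfl (CvR.step ⟨cMM_9_48.down⟩ rfl (CvR.step ⟨cMM_9_47.down⟩ rfl CvR.zero)))))))) rfl <|
    CvB.step (b := 5) (q := 4) (CvR.step ⟨bnd_l cMM_5_62.down⟩ rfl (CvR.step ⟨cMM_5_61.down⟩ rfl (CvR.step ⟨cMM_5_60.down⟩ rfl (CvR.step ⟨cMM_5_59.down⟩ rfl (CvR.step ⟨cMM_5_58.down⟩ rfl (CvR.step ⟨cMM_5_57.down⟩ rfl (CvR.step ⟨cMM_5_56.down⟩ rfl (CvR.step ⟨cMM_5_55.down⟩ rfl (CvR.step ⟨cMM_5_54.down⟩ rfl CvR.zero))))))))) rfl <|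
    CvB.step (b := 2) (q := 3) (CvR.step ⟨bnd_l cMM_2_54.down⟩ rfl (CvR.step ⟨cMM_2_53.down⟩ rfl (CvR.step ⟨cMM_2_52.down⟩ rfl (CvR.step ⟨cMM_2_51.down⟩ rfl (CvR.step ⟨cMM_2_50.down⟩ rfl (CvR.step ⟨cMM_2_49.down⟩ rfl (CvR.step ⟨cMM_2_48.down⟩ rfl (CvR.step ⟨cMM_2_47.down⟩ rfl CvR.zero)))))))) rfl <|
    CvB.zero)
    (by decide +kernel)

theorem bMM_7 : JobB fMM Am Am (fun b => b) 7 :=
  CvB.job (b0 := 4) (y := 1) (n := 58) (lo := 2) (hi := 33)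
    (CvB.step (b := 29) (q := 4) (CvR.step ⟨cMM_29_15.down⟩ rfl (CvR.step ⟨cMM_29_14.down⟩ rfl CvR.zero)) rfl <|
    CvB.step (b := 25) (q := 4) (CvR.step ⟨cMM_25_23.down⟩ rfl (CvR.step ⟨cMM_25_22.down⟩ rfl (CvR.step ⟨cMM_25_21.down⟩ rfl CvR.zero))) rfl <|
    CvB.step (b := 21) (q := 4) (CvR.step ⟨cMM_21_33.down⟩ rfl (CvR.step ⟨cMM_21_32.down⟩ rfl (CvR.step ⟨cMM_21_31.down⟩ rfl (CvR.step ⟨cMM_21_30.down⟩ rfl CvR.zero)))) rfl <|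
    CvB.step (b := 17) (q := 4) (CvR.step ⟨cMM_17_41.down⟩ rfl (CvR.step ⟨cMM_17_40.down⟩ rfl (CvR.step ⟨cMM_17_39.down⟩ rfl (CvR.step ⟨cMM_17_38.down⟩ rfl (CvR.step ⟨cMM_17_37.down⟩ rfl CvR.zero))))) rfl <|
    CvB.step (b := 13) (q := 4) (CvR.step ⟨cMM_13_54.down⟩ rfl (CvR.step ⟨cMM_13_53.down⟩ rfl (CvR.step ⟨cMM_13_52.down⟩ rfl (CvR.step ⟨cMM_13_51.down⟩ rfl (CvR.step ⟨cMM_13_50.down⟩ rfl (CvR.step ⟨cMM_13_49.down⟩ rfl (CvR.step ⟨(bnd_r cMM_13_48.down)⟩ rfl CvR.zero))))))) rfl <|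
    CvB.step (b := 9) (q := 4) (CvR.step ⟨cMM_9_61.down⟩ rfl (CvR.step ⟨cMM_9_60.down⟩ rfl (CvR.step ⟨cMM_9_59.down⟩ rfl (CvR.step ⟨cMM_9_58.down⟩ rfl (CvR.step ⟨cMM_9_57.down⟩ rfl (CvR.step ⟨cMM_9_56.down⟩ rfl (CvR.step ⟨cMM_9_55.down⟩ rfl (CvR.step ⟨(bnd_r cMM_9_54.down)⟩ rfl CvR.zero)))))))) rfl <|
    CvB.step (b := 5) (q := 4) (CvR.step ⟨cMM_5_70.down⟩ rfl (CvR.step ⟨cMM_5_69.down⟩ rfl (CvR.step ⟨cMM_5_68.down⟩ rfl (CvR.step ⟨cMM_5_67.down⟩ rfl (CvR.step ⟨cMM_5_66.down⟩ rfl (CvR.step ⟨cMM_5_65.down⟩ rfl (CvR.step ⟨cMM_5_64.down⟩ rfl (CvR.step ⟨cMM_5_63.down⟩ rfl (CvR.step ⟨(bnd_r cMM_5_62.down)⟩ rfl CvR.zero))))))))) rfl <|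
    CvB.step (b := 2) (q := 3) (CvR.step ⟨cMM_2_61.down⟩ rfl (CvR.step ⟨cMM_2_60.down⟩ rfl (CvR.step ⟨cMM_2_59.down⟩ rfl (CvR.step ⟨cMM_2_58.down⟩ rfl (CvR.step ⟨cMM_2_57.down⟩ rfl (CvR.step ⟨cMM_2_56.down⟩ rfl (CvR.step ⟨cMM_2_55.down⟩ rfl (CvR.step ⟨(bnd_r cMM_2_54.down)⟩ rfl CvR.zero)))))))) rfl <|
    CvB.zero)
    (by decide +kernel)

theorem bMM_8 : JobB fMM Am Am (fun b => b) 8 :=
  CvB.job (b0 := 5) (y := 0) (n := 55) (lo := 5) (hi := 33)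
    (CvB.step (b := 29) (q := 4) (CvR.step ⟨cMM_29_17.down⟩ rfl (CvR.step ⟨cMM_29_16.down⟩ rfl CvR.zero)) rfl <|
    CvB.step (b := 25) (q := 4) (CvR.step ⟨cMM_25_26.down⟩ rfl (CvR.step ⟨cMM_25_25.down⟩ rfl (CvR.step ⟨cMM_25_24.down⟩ rfl CvR.zero))) rfl <|
    CvB.step (b := 21) (q := 4) (CvR.step ⟨bnd_l cMM_21_37.down⟩ rfl (CvR.step ⟨cMM_21_36.down⟩ rfl (CvR.step ⟨cMM_21_35.down⟩ rfl (CvR.step ⟨cMM_21_34.down⟩ rfl CvR.zero)))) rfl <|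
    CvB.step (b := 17) (q := 4) (CvR.step ⟨bnd_l cMM_17_46.down⟩ rfl (CvR.step ⟨cMM_17_45.down⟩ rfl (CvR.step ⟨cMM_17_44.down⟩ rfl (CvR.step ⟨cMM_17_43.down⟩ rfl (CvR.step ⟨cMM_17_42.down⟩ rfl CvR.zero))))) rfl <|
    CvB.step (b := 13) (q := 4) (CvR.step ⟨bnd_l cMM_13_60.down⟩ rfl (CvR.step ⟨cMM_13_59.down⟩ rfl (CvR.step ⟨cMM_13_58.down⟩ rfl (CvR.step ⟨cMM_13_57.down⟩ rfl (CvR.step ⟨cMM_13_56.down⟩ rfl (CvR.step ⟨cMM_13_55.down⟩ rfl CvR.zero)))))) rfl <|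
    CvB.step (b := 9) (q := 4) (CvR.step ⟨cMM_9_68.down⟩ rfl (CvR.step ⟨cMM_9_67.down⟩ rfl (CvR.step ⟨cMM_9_66.down⟩ rfl (CvR.step ⟨cMM_9_65.down⟩ rfl (CvR.step ⟨cMM_9_64.down⟩ rfl (CvR.step ⟨cMM_9_63.down⟩ rfl (CvR.step ⟨cMM_9_62.down⟩ rfl CvR.zero))))))) rfl <|
    CvB.step (b := 5) (q := 4) (CvR.step ⟨cMM_5_78.down⟩ rfl (CvR.step ⟨cMM_5_77.down⟩ rfl (CvR.step ⟨cMM_5_76.down⟩ rfl (CvR.step ⟨cMM_5_75.down⟩ rfl (CvR.step ⟨cMM_5_74.down⟩ rfl (CvR.step ⟨cMM_5_73.down⟩ rfl (CvR.step ⟨cMM_5_72.down⟩ rfl (CvR.step ⟨cMM_5_71.down⟩ rfl CvR.zero)))))))) rfl <|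
    CvB.zero)
    (by decide +kernel)

theorem bMM_9 : JobB fMM Am Am (fun b => b) 9 :=
  CvB.job (b0 := 5) (y := 1) (n := 56) (lo := 5) (hi := 33)
    (CvB.step (b := 29) (q := 4) (CvR.step ⟨cMM_29_19.down⟩ rfl (CvR.step ⟨cMM_29_18.down⟩ rfl CvR.zero)) rfl <|
    CvB.step (b := 25) (q := 4) (CvR.step ⟨cMM_25_29.down⟩ rfl (CvR.step ⟨cMM_25_28.down⟩ rfl (CvR.step ⟨cMM_25_27.down⟩ rfl CvR.zero))) rfl <|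
    CvB.step (b := 21) (q := 4) (CvR.step ⟨bnd_l cMM_21_41.down⟩ rfl (CvR.step ⟨cMM_21_40.down⟩ rfl (CvR.step ⟨cMM_21_39.down⟩ rfl (CvR.step ⟨cMM_21_38.down⟩ rfl (CvR.step ⟨(bnd_r cMM_21_37.down)⟩ rfl CvR.zero))))) rfl <|
    CvB.step (b := 17) (q := 4) (CvR.step ⟨bnd_l cMM_17_51.down⟩ rfl (CvR.step ⟨cMM_17_50.down⟩ rfl (CvR.step ⟨cMM_17_49.down⟩ rfl (CvR.step ⟨cMM_17_48.down⟩ rfl (CvR.step ⟨cMM_17_47.down⟩ rfl (CvR.step ⟨(bnd_r cMM_17_46.down)⟩ rfl CvR.zero)))))) rfl <|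
    CvB.step (b := 13) (q := 4) (CvR.step ⟨bnd_l cMM_13_66.down⟩ rfl (CvR.step ⟨cMM_13_65.down⟩ rfl (CvR.step ⟨cMM_13_64.down⟩ rfl (CvR.step ⟨cMM_13_63.down⟩ rfl (CvR.step ⟨cMM_13_62.down⟩ rfl (CvR.step ⟨cMM_13_61.down⟩ rfl (CvR.step ⟨(bnd_r cMM_13_60.down)⟩ rfl CvR.zero))))))) rfl <|
    CvB.step (b := 9) (q := 4) (CvR.step ⟨cMM_9_75.down⟩ rfl (CvR.step ⟨cMM_9_74.down⟩ rfl (CvR.step ⟨cMM_9_73.down⟩ rfl (CvR.step ⟨cMM_9_72.down⟩ rfl (CvR.step ⟨cMM_9_71.down⟩ rfl (CvR.step ⟨cMM_9_70.down⟩ rfl (CvR.step ⟨cMM_9_69.down⟩ rfl CvR.zero))))))) rfl <|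
    CvB.step (b := 5) (q := 4) (CvR.step ⟨cMM_5_86.down⟩ rfl (CvR.step ⟨cMM_5_85.down⟩ rfl (CvR.step ⟨cMM_5_84.down⟩ rfl (CvR.step ⟨cMM_5_83.down⟩ rfl (CvR.step ⟨cMM_5_82.down⟩ rfl (CvR.step ⟨cMM_5_81.down⟩ rfl (CvR.step ⟨cMM_5_80.down⟩ rfl (CvR.step ⟨cMM_5_79.down⟩ rfl CvR.zero)))))))) rfl <|
    CvB.zero)
    (by decide +kernel)

theorem bMM_10 : JobB fMM Am Am (fun b => b) 10 :=
  CvB.job (b0 := 6) (y := 0) (n := 53) (lo := 5) (hi := 33)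
    (CvB.step (b := 29) (q := 4) (CvR.step ⟨cMM_29_21.down⟩ rfl (CvR.step ⟨cMM_29_20.down⟩ rfl CvR.zero)) rfl <|
    CvB.step (b := 25) (q := 4) (CvR.step ⟨cMM_25_32.down⟩ rfl (CvR.step ⟨cMM_25_31.down⟩ rfl (CvR.step ⟨cMM_25_30.down⟩ rfl CvR.zero))) rfl <|
    CvB.step (b := 21) (q := 4) (CvR.step ⟨cMM_21_44.down⟩ rfl (CvR.step ⟨cMM_21_43.down⟩ rfl (CvR.step ⟨cMM_21_42.down⟩ rfl (CvR.step ⟨(bnd_r cMM_21_41.down)⟩ rfl CvR.zero)))) rfl <|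
    CvB.step (b := 17) (q := 4) (CvR.step ⟨cMM_17_55.down⟩ rfl (CvR.step ⟨cMM_17_54.down⟩ rfl (CvR.step ⟨cMM_17_53.down⟩ rfl (CvR.step ⟨cMM_17_52.down⟩ rfl (CvR.step ⟨(bnd_r cMM_17_51.down)⟩ rfl CvR.zero))))) rfl <|
    CvB.step (b := 13) (q := 4) (CvR.step ⟨cMM_13_71.down⟩ rfl (CvR.step ⟨cMM_13_70.down⟩ rfl (CvR.step ⟨cMM_13_69.down⟩ rfl (CvR.step ⟨cMM_13_68.down⟩ rfl (CvR.step ⟨cMM_13_67.down⟩ rfl (CvR.step ⟨(bnd_r cMM_13_66.down)⟩ rfl CvR.zero)))))) rfl <|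
    CvB.step (b := 9) (q := 4) (CvR.step ⟨bnd_l cMM_9_82.down⟩ rfl (CvR.step ⟨cMM_9_81.down⟩ rfl (CvR.step ⟨cMM_9_80.down⟩ rfl (CvR.step ⟨cMM_9_79.down⟩ rfl (CvR.step ⟨cMM_9_78.down⟩ rfl (CvR.step ⟨cMM_9_77.down⟩ rfl (CvR.step ⟨cMM_9_76.down⟩ rfl CvR.zero))))))) rfl <|
    CvB.step (b := 5) (q := 4) (CvR.step ⟨cMM_5_94.down⟩ rfl (CvR.step ⟨cMM_5_93.down⟩ rfl (CvR.step ⟨cMM_5_92.down⟩ rfl (CvR.step ⟨cMM_5_91.down⟩ rfl (CvR.step ⟨cMM_5_90.down⟩ rfl (CvR.step ⟨cMM_5_89.down⟩ rfl (CvR.step ⟨cMM_5_88.down⟩ rfl (CvR.step ⟨cMM_5_87.down⟩ rfl CvR.zero)))))))) rfl <|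
    CvB.zero)
    (by decide +kernel)

theorem bMM_11 : JobB fMM Am Am (fun b => b) 11 :=
  CvB.job (b0 := 6) (y := 1) (n := 54) (lo := 5) (hi := 33)
    (CvB.step (b := 29) (q := 4) (CvR.step ⟨cMM_29_23.down⟩ rfl (CvR.step ⟨cMM_29_22.down⟩ rfl CvR.zero)) rfl <|
    CvB.step (b := 25) (q := 4) (CvR.step ⟨cMM_25_35.down⟩ rfl (CvR.step ⟨cMM_25_34.down⟩ rfl (CvR.step ⟨cMM_25_33.down⟩ rfl CvR.zero))) rfl <|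
    CvB.step (b := 21) (q := 4) (CvR.step ⟨bnd_l cMM_21_48.down⟩ rfl (CvR.step ⟨cMM_21_47.down⟩ rfl (CvR.step ⟨cMM_21_46.down⟩ rfl (CvR.step ⟨cMM_21_45.down⟩ rfl CvR.zero)))) rfl <|
    CvB.step (b := 17) (q := 4) (CvR.step ⟨bnd_l cMM_17_60.down⟩ rfl (CvR.step ⟨cMM_17_59.down⟩ rfl (CvR.step ⟨cMM_17_58.down⟩ rfl (CvR.step ⟨cMM_17_57.down⟩ rfl (CvR.step ⟨cMM_17_56.down⟩ rfl CvR.zero))))) rfl <|
    CvB.step (b := 13) (q := 4) (CvR.step ⟨bnd_l cMM_13_77.down⟩ rfl (CvR.step ⟨cMM_13_76.down⟩ rfl (CvR.step ⟨cMM_13_75.down⟩ rfl (CvR.step ⟨cMM_13_74.down⟩ rfl (CvR.step ⟨cMM_13_73.down⟩ rfl (CvR.step ⟨cMM_13_72.down⟩ rfl CvR.zero)))))) rfl <|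
    CvB.step (b := 9) (q := 4) (CvR.step ⟨bnd_l cMM_9_89.down⟩ rfl (CvR.step ⟨cMM_9_88.down⟩ rfl (CvR.step ⟨cMM_9_87.down⟩ rfl (CvR.step ⟨cMM_9_86.down⟩ rfl (CvR.step ⟨cMM_9_85.down⟩ rfl (CvR.step ⟨cMM_9_84.down⟩ rfl (CvR.step ⟨cMM_9_83.down⟩ rfl (CvR.step ⟨(bnd_r cMM_9_82.down)⟩ rfl CvR.zero)))))))) rfl <|
    CvB.step (b := 5) (q := 4) (CvR.step ⟨cMM_5_102.down⟩ rfl (CvR.step ⟨cMM_5_101.down⟩ rfl (CvR.step ⟨cMM_5_100.down⟩ rfl (CvR.step ⟨cMM_5_99.down⟩ rfl (CvR.step ⟨cMM_5_98.down⟩ rfl (CvR.step ⟨cMM_5_97.down⟩ rfl (CvR.step ⟨cMM_5_96.down⟩ rfl (CvR.step ⟨cMM_5_95.down⟩ rfl CvR.zero)))))))) rfl <|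
    CvB.zero)
    (by decide +kernel)

theorem bMM_12 : JobB fMM Am Am (fun b => b) 12 :=
  CvB.job (b0 := 7) (y := 0) (n := 51) (lo := 5) (hi := 33)
    (CvB.step (b := 29) (q := 4) (CvR.step ⟨bnd_l cMM_29_25.down⟩ rfl (CvR.step ⟨cMM_29_24.down⟩ rfl CvR.zero)) rfl <|
    CvB.step (b := 25) (q := 4) (CvR.step ⟨cMM_25_38.down⟩ rfl (CvR.step ⟨cMM_25_37.down⟩ rfl (CvR.step ⟨cMM_25_36.down⟩ rfl CvR.zero))) rfl <|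
    CvB.step (b := 21) (q := 4) (CvR.step ⟨cMM_21_51.down⟩ rfl (CvR.step ⟨cMM_21_50.down⟩ rfl (CvR.step ⟨cMM_21_49.down⟩ rfl (CvR.step ⟨(bnd_r cMM_21_48.down)⟩ rfl CvR.zero)))) rfl <|
    CvB.step (b := 17) (q := 4) (CvR.step ⟨cMM_17_64.down⟩ rfl (CvR.step ⟨cMM_17_63.down⟩ rfl (CvR.step ⟨cMM_17_62.down⟩ rfl (CvR.step ⟨cMM_17_61.down⟩ rfl (CvR.step ⟨(bnd_r cMM_17_60.down)⟩ rfl CvR.zero))))) rfl <|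
    CvB.step (b := 13) (q := 4) (CvR.step ⟨cMM_13_82.down⟩ rfl (CvR.step ⟨cMM_13_81.down⟩ rfl (CvR.step ⟨cMM_13_80.down⟩ rfl (CvR.step ⟨cMM_13_79.down⟩ rfl (CvR.step ⟨cMM_13_78.down⟩ rfl (CvR.step ⟨(bnd_r cMM_13_77.down)⟩ rfl CvR.zero)))))) rfl <|
    CvB.step (b := 9) (q := 4) (CvR.step ⟨bnd_l cMM_9_96.down⟩ rfl (CvR.step ⟨cMM_9_95.down⟩ rfl (CvR.step ⟨cMM_9_94.down⟩ rfl (CvR.step ⟨cMM_9_93.down⟩ rfl (CvR.step ⟨cMM_9_92.down⟩ rfl (CvR.step ⟨cMM_9_91.down⟩ rfl (CvR.step ⟨cMM_9_90.down⟩ rfl (CvR.step ⟨(bnd_r cMM_9_89.down)⟩ rfl CvR.zero)))))))) rfl <|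
    CvB.step (b := 5) (q := 4) (CvR.step ⟨bnd_l cMM_5_110.down⟩ rfl (CvR.step ⟨cMM_5_109.down⟩ rfl (CvR.step ⟨cMM_5_108.down⟩ rfl (CvR.step ⟨cMM_5_107.down⟩ rfl (CvR.step ⟨cMM_5_106.down⟩ rfl (CvR.step ⟨cMM_5_105.down⟩ rfl (CvR.step ⟨cMM_5_104.down⟩ rfl (CvR.step ⟨cMM_5_103.down⟩ rfl CvR.zero)))))))) rfl <|
    CvB.zero)
    (by decide +kernel)

theorem bMM_13 : JobB fMM Am Am (fun b => b) 13 :=
  CvB.job (b0 := 7) (y := 1) (n := 52) (lo := 5) (hi := 33)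
    (CvB.step (b := 29) (q := 4) (CvR.step ⟨bnd_l cMM_29_27.down⟩ rfl (CvR.step ⟨cMM_29_26.down⟩ rfl (CvR.step ⟨(bnd_r cMM_29_25.down)⟩ rfl CvR.zero))) rfl <|
    CvB.step (b := 25) (q := 4) (CvR.step ⟨cMM_25_41.down⟩ rfl (CvR.step ⟨cMM_25_40.down⟩ rfl (CvR.step ⟨cMM_25_39.down⟩ rfl CvR.zero))) rfl <|
    CvB.step (b := 21) (q := 4) (CvR.step ⟨bnd_l cMM_21_55.down⟩ rfl (CvR.step ⟨cMM_21_54.down⟩ rfl (CvR.step ⟨cMM_21_53.down⟩ rfl (CvR.step ⟨cMM_21_52.down⟩ rfl CvR.zero)))) rfl <|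
    CvB.step (b := 17) (q := 4) (CvR.step ⟨bnd_l cMM_17_69.down⟩ rfl (CvR.step ⟨cMM_17_68.down⟩ rfl (CvR.step ⟨cMM_17_67.down⟩ rfl (CvR.step ⟨cMM_17_66.down⟩ rfl (CvR.step ⟨cMM_17_65.down⟩ rfl CvR.zero))))) rfl <|
    CvB.step (b := 13) (q := 4) (CvR.step ⟨bnd_l cMM_13_88.down⟩ rfl (CvR.step ⟨cMM_13_87.down⟩ rfl (CvR.step ⟨cMM_13_86.down⟩ rfl (CvR.step ⟨cMM_13_85.down⟩ rfl (CvR.step ⟨cMM_13_84.down⟩ rfl (CvR.step ⟨cMM_13_83.down⟩ rfl CvR.zero)))))) rfl <|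
    CvB.step (b := 9) (q := 4) (CvR.step ⟨cMM_9_102.down⟩ rfl (CvR.step ⟨cMM_9_101.down⟩ rfl (CvR.step ⟨cMM_9_100.down⟩ rfl (CvR.step ⟨cMM_9_99.down⟩ rfl (CvR.step ⟨cMM_9_98.down⟩ rfl (CvR.step ⟨cMM_9_97.down⟩ rfl (CvR.step ⟨(bnd_r cMM_9_96.down)⟩ rfl CvR.zero))))))) rfl <|
    CvB.step (b := 5) (q := 4) (CvR.step ⟨cMM_5_117.down⟩ rfl (CvR.step ⟨cMM_5_116.down⟩ rfl (CvR.step ⟨cMM_5_115.down⟩ rfl (CvR.step ⟨cMM_5_114.down⟩ rfl (CvR.step ⟨cMM_5_113.down⟩ rfl (CvR.step ⟨cMM_5_112.down⟩ rfl (CvR.step ⟨cMM_5_111.down⟩ rfl (CvR.step ⟨(bnd_r cMM_5_110.down)⟩ rfl CvR.zero)))))))) rfl <|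
    CvB.zero)
    (by decide +kernel)

theorem bMM_14 : JobB fMM Am Am (fun b => b) 14 :=
  CvB.job (b0 := 8) (y := 0) (n := 49) (lo := 5) (hi := 33)
    (CvB.step (b := 29) (q := 4) (CvR.step ⟨cMM_29_28.down⟩ rfl (CvR.step ⟨(bnd_r cMM_29_27.down)⟩ rfl CvR.zero)) rfl <|
    CvB.step (b := 25) (q := 4) (CvR.step ⟨cMM_25_44.down⟩ rfl (CvR.step ⟨cMM_25_43.down⟩ rfl (CvR.step ⟨cMM_25_42.down⟩ rfl CvR.zero))) rfl <|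
    CvB.step (b := 21) (q := 4) (CvR.step ⟨cMM_21_58.down⟩ rfl (CvR.step ⟨cMM_21_57.down⟩ rfl (CvR.step ⟨cMM_21_56.down⟩ rfl (CvR.step ⟨(bnd_r cMM_21_55.down)⟩ rfl CvR.zero)))) rfl <|
    CvB.step (b := 17) (q := 4) (CvR.step ⟨bnd_l cMM_17_73.down⟩ rfl (CvR.step ⟨cMM_17_72.down⟩ rfl (CvR.step ⟨cMM_17_71.down⟩ rfl (CvR.step ⟨cMM_17_70.down⟩ rfl (CvR.step ⟨(bnd_r cMM_17_69.down)⟩ rfl CvR.zero))))) rfl <|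
    CvB.step (b := 13) (q := 4) (CvR.step ⟨bnd_l cMM_13_93.down⟩ rfl (CvR.step ⟨cMM_13_92.down⟩ rfl (CvR.step ⟨cMM_13_91.down⟩ rfl (CvR.step ⟨cMM_13_90.down⟩ rfl (CvR.step ⟨cMM_13_89.down⟩ rfl (CvR.step ⟨(bnd_r cMM_13_88.down)⟩ rfl CvR.zero)))))) rfl <|
    CvB.step (b := 9) (q := 4) (CvR.step ⟨bnd_l cMM_9_109.down⟩ rfl (CvR.step ⟨cMM_9_108.down⟩ rfl (CvR.step ⟨cMM_9_107.down⟩ rfl (CvR.step ⟨cMM_9_106.down⟩ rfl (CvR.step ⟨cMM_9_105.down⟩ rfl (CvR.step ⟨cMM_9_104.down⟩ rfl (CvR.step ⟨cMM_9_103.down⟩ rfl CvR.zero))))))) rfl <|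
    CvB.step (b := 5) (q := 4) (CvR.step ⟨cMM_5_124.down⟩ rfl (CvR.step ⟨cMM_5_123.down⟩ rfl (CvR.step ⟨cMM_5_122.down⟩ rfl (CvR.step ⟨cMM_5_121.down⟩ rfl (CvR.step ⟨cMM_5_120.down⟩ rfl (CvR.step ⟨cMM_5_119.down⟩ rfl (CvR.step ⟨cMM_5_118.down⟩ rfl CvR.zero))))))) rfl <|
    CvB.zero)
    (by decide +kernel)

theorem bMM_15 : JobB fMM Am Am (fun b => b) 15 :=
  CvB.job (b0 := 8) (y := 1) (n := 50) (lo := 5) (hi := 33)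
    (CvB.step (b := 29) (q := 4) (CvR.step ⟨cMM_29_30.down⟩ rfl (CvR.step ⟨cMM_29_29.down⟩ rfl CvR.zero)) rfl <|
    CvB.step (b := 25) (q := 4) (CvR.step ⟨cMM_25_47.down⟩ rfl (CvR.step ⟨cMM_25_46.down⟩ rfl (CvR.step ⟨cMM_25_45.down⟩ rfl CvR.zero))) rfl <|
    CvB.step (b := 21) (q := 4) (CvR.step ⟨bnd_l cMM_21_62.down⟩ rfl (CvR.step ⟨cMM_21_61.down⟩ rfl (CvR.step ⟨cMM_21_60.down⟩ rfl (CvR.step ⟨cMM_21_59.down⟩ rfl CvR.zero)))) rfl <|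
    CvB.step (b := 17) (q := 4) (CvR.step ⟨cMM_17_77.down⟩ rfl (CvR.step ⟨cMM_17_76.down⟩ rfl (CvR.step ⟨cMM_17_75.down⟩ rfl (CvR.step ⟨cMM_17_74.down⟩ rfl (CvR.step ⟨(bnd_r cMM_17_73.down)⟩ rfl CvR.zero))))) rfl <|
    CvB.step (b := 13) (q := 4) (CvR.step ⟨cMM_13_98.down⟩ rfl (CvR.step ⟨cMM_13_97.down⟩ rfl (CvR.step ⟨cMM_13_96.down⟩ rfl (CvR.step ⟨cMM_13_95.down⟩ rfl (CvR.step ⟨cMM_13_94.down⟩ rfl (CvR.step ⟨(bnd_r cMM_13_93.down)⟩ rfl CvR.zero)))))) rfl <|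
    CvB.step (b := 9) (q := 4) (CvR.step ⟨cMM_9_115.down⟩ rfl (CvR.step ⟨cMM_9_114.down⟩ rfl (CvR.step ⟨cMM_9_113.down⟩ rfl (CvR.step ⟨cMM_9_112.down⟩ rfl (CvR.step ⟨cMM_9_111.down⟩ rfl (CvR.step ⟨cMM_9_110.down⟩ rfl (CvR.step ⟨(bnd_r cMM_9_109.down)⟩ rfl CvR.zero))))))) rfl <|
    CvB.step (b := 5) (q := 4) (CvR.step ⟨cMM_5_132.down⟩ rfl (CvR.step ⟨cMM_5_131.down⟩ rfl (CvR.step ⟨cMM_5_130.down⟩ rfl (CvR.step ⟨cMM_5_129.down⟩ rfl (CvR.step ⟨cMM_5_128.down⟩ rfl (CvR.step ⟨cMM_5_127.down⟩ rfl (CvR.step ⟨cMM_5_126.down⟩ rfl (CvR.step ⟨cMM_5_125.down⟩ rfl CvR.zero)))))))) rfl <|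
    CvB.zero)
    (by decide +kernel)

theorem bMM_16 : JobB fMM Am Am (fun b => b) 16 :=
  CvB.job (b0 := 9) (y := 0) (n := 47) (lo := 9) (hi := 33)
    (CvB.step (b := 29) (q := 4) (CvR.step ⟨bnd_l cMM_29_32.down⟩ rfl (CvR.step ⟨cMM_29_31.down⟩ rfl CvR.zero)) rfl <|
    CvB.step (b := 25) (q := 4) (CvR.step ⟨bnd_l cMM_25_50.down⟩ rfl (CvR.step ⟨cMM_25_49.down⟩ rfl (CvR.step ⟨cMM_25_48.down⟩ rfl CvR.zero))) rfl <|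
    CvB.step (b := 21) (q := 4) (CvR.step ⟨cMM_21_65.down⟩ rfl (CvR.step ⟨cMM_21_64.down⟩ rfl (CvR.step ⟨cMM_21_63.down⟩ rfl (CvR.step ⟨(bnd_r cMM_21_62.down)⟩ rfl CvR.zero)))) rfl <|
    CvB.step (b := 17) (q := 4) (CvR.step ⟨cMM_17_81.down⟩ rfl (CvR.step ⟨cMM_17_80.down⟩ rfl (CvR.step ⟨cMM_17_79.down⟩ rfl (CvR.step ⟨cMM_17_78.down⟩ rfl CvR.zero)))) rfl <|
    CvB.step (b := 13) (q := 4) (CvR.step ⟨cMM_13_103.down⟩ rfl (CvR.step ⟨cMM_13_102.down⟩ rfl (CvR.step ⟨cMM_13_101.down⟩ rfl (CvR.step ⟨cMM_13_100.down⟩ rfl (CvR.step ⟨cMM_13_99.down⟩ rfl CvR.zero))))) rfl <|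
    CvB.step (b := 9) (q := 4) (CvR.step ⟨cMM_9_121.down⟩ rfl (CvR.step ⟨cMM_9_120.down⟩ rfl (CvR.step ⟨cMM_9_119.down⟩ rfl (CvR.step ⟨cMM_9_118.down⟩ rfl (CvR.step ⟨cMM_9_117.down⟩ rfl (CvR.step ⟨cMM_9_116.down⟩ rfl CvR.zero)))))) rfl <|
    CvB.zero)
    (by decide +kernel)

theorem bMM_17 : JobB fMM Am Am (fun b => b) 17 :=
  CvB.job (b0 := 9) (y := 1) (n := 48) (lo := 9) (hi := 33)
    (CvB.step (b := 29) (q := 4) (CvR.step ⟨cMM_29_33.down⟩ rfl (CvR.step ⟨(bnd_r cMM_29_32.down)⟩ rfl CvR.zero)) rfl <|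
    CvB.step (b := 25) (q := 4) (CvR.step ⟨cMM_25_52.down⟩ rfl (CvR.step ⟨cMM_25_51.down⟩ rfl (CvR.step ⟨(bnd_r cMM_25_50.down)⟩ rfl CvR.zero))) rfl <|
    CvB.step (b := 21) (q := 4) (CvR.step ⟨cMM_21_68.down⟩ rfl (CvR.step ⟨cMM_21_67.down⟩ rfl (CvR.step ⟨cMM_21_66.down⟩ rfl CvR.zero))) rfl <|
    CvB.step (b := 17) (q := 4) (CvR.step ⟨cMM_17_85.down⟩ rfl (CvR.step ⟨cMM_17_84.down⟩ rfl (CvR.step ⟨cMM_17_83.down⟩ rfl (CvR.step ⟨cMM_17_82.down⟩ rfl CvR.zero)))) rfl <|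
    CvB.step (b := 13) (q := 4) (CvR.step ⟨cMM_13_108.down⟩ rfl (CvR.step ⟨cMM_13_107.down⟩ rfl (CvR.step ⟨cMM_13_106.down⟩ rfl (CvR.step ⟨cMM_13_105.down⟩ rfl (CvR.step ⟨cMM_13_104.down⟩ rfl CvR.zero))))) rfl <|
    CvB.step (b := 9) (q := 4) (CvR.step ⟨cMM_9_127.down⟩ rfl (CvR.step ⟨cMM_9_126.down⟩ rfl (CvR.step ⟨cMM_9_125.down⟩ rfl (CvR.step ⟨cMM_9_124.down⟩ rfl (CvR.step ⟨cMM_9_123.down⟩ rfl (CvR.step ⟨cMM_9_122.down⟩ rfl CvR.zero)))))) rfl <|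
    CvB.zero)
    (by decide +kernel)

theorem bMM_18 : JobB fMM Am Am (fun b => b) 18 :=
  CvB.job (b0 := 10) (y := 0) (n := 45) (lo := 9) (hi := 33)
    (CvB.step (b := 29) (q := 4) (CvR.step ⟨bnd_l cMM_29_35.down⟩ rfl (CvR.step ⟨cMM_29_34.down⟩ rfl CvR.zero)) rfl <|
    CvB.step (b := 25) (q := 4) (CvR.step ⟨bnd_l cMM_25_55.down⟩ rfl (CvR.step ⟨cMM_25_54.down⟩ rfl (CvR.step ⟨cMM_25_53.down⟩ rfl CvR.zero))) rfl <|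
    CvB.step (b := 21) (q := 4) (CvR.step ⟨cMM_21_71.down⟩ rfl (CvR.step ⟨cMM_21_70.down⟩ rfl (CvR.step ⟨cMM_21_69.down⟩ rfl CvR.zero))) rfl <|
    CvB.step (b := 17) (q := 4) (CvR.step ⟨cMM_17_89.down⟩ rfl (CvR.step ⟨cMM_17_88.down⟩ rfl (CvR.step ⟨cMM_17_87.down⟩ rfl (CvR.step ⟨cMM_17_86.down⟩ rfl CvR.zero)))) rfl <|
    CvB.step (b := 13) (q := 4) (CvR.step ⟨bnd_l cMM_13_113.down⟩ rfl (CvR.step ⟨cMM_13_112.down⟩ rfl (CvR.step ⟨cMM_13_111.down⟩ rfl (CvR.step ⟨cMM_13_110.down⟩ rfl (CvR.step ⟨cMM_13_109.down⟩ rfl CvR.zero))))) rfl <|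
    CvB.step (b := 9) (q := 4) (CvR.step ⟨bnd_l cMM_9_133.down⟩ rfl (CvR.step ⟨cMM_9_132.down⟩ rfl (CvR.step ⟨cMM_9_131.down⟩ rfl (CvR.step ⟨cMM_9_130.down⟩ rfl (CvR.step ⟨cMM_9_129.down⟩ rfl (CvR.step ⟨cMM_9_128.down⟩ rfl CvR.zero)))))) rfl <|
    CvB.zero)
    (by decide +kernel)

theorem bMM_19 : JobB fMM Am Am (fun b => b) 19 :=
  CvB.job (b0 := 10) (y := 1) (n := 46) (lo := 9) (hi := 33)
    (CvB.step (b := 29) (q := 4) (CvR.step ⟨cMM_29_36.down⟩ rfl (CvR.step ⟨(bnd_r cMM_29_35.down)⟩ rfl CvR.zero)) rfl <|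
    CvB.step (b := 25) (q := 4) (CvR.step ⟨cMM_25_57.down⟩ rfl (CvR.step ⟨cMM_25_56.down⟩ rfl (CvR.step ⟨(bnd_r cMM_25_55.down)⟩ rfl CvR.zero))) rfl <|
    CvB.step (b := 21) (q := 4) (CvR.step ⟨cMM_21_74.down⟩ rfl (CvR.step ⟨cMM_21_73.down⟩ rfl (CvR.step ⟨cMM_21_72.down⟩ rfl CvR.zero))) rfl <|
    CvB.step (b := 17) (q := 4) (CvR.step ⟨cMM_17_93.down⟩ rfl (CvR.step ⟨cMM_17_92.down⟩ rfl (CvR.step ⟨cMM_17_91.down⟩ rfl (CvR.step ⟨cMM_17_90.down⟩ rfl CvR.zero)))) rfl <|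
    CvB.step (b := 13) (q := 4) (CvR.step ⟨bnd_l cMM_13_118.down⟩ rfl (CvR.step ⟨cMM_13_117.down⟩ rfl (CvR.step ⟨cMM_13_116.down⟩ rfl (CvR.step ⟨cMM_13_115.down⟩ rfl (CvR.step ⟨cMM_13_114.down⟩ rfl (CvR.step ⟨(bnd_r cMM_13_113.down)⟩ rfl CvR.zero)))))) rfl <|
    CvB.step (b := 9) (q := 4) (CvR.step ⟨bnd_l cMM_9_139.down⟩ rfl (CvR.step ⟨cMM_9_138.down⟩ rfl (CvR.step ⟨cMM_9_137.down⟩ rfl (CvR.step ⟨cMM_9_136.down⟩ rfl (CvR.step ⟨cMM_9_135.down⟩ rfl (CvR.step ⟨cMM_9_134.down⟩ rfl (CvR.step ⟨(bnd_r cMM_9_133.down)⟩ rfl CvR.zero))))))) rfl <|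
    CvB.zero)
    (by decide +kernel)

theorem bMM_20 : JobB fMM Am Am (fun b => b) 20 :=
  CvB.job (b0 := 11) (y := 0) (n := 43) (lo := 9) (hi := 33)
    (CvB.step (b := 29) (q := 4) (CvR.step ⟨bnd_l cMM_29_38.down⟩ rfl (CvR.step ⟨cMM_29_37.down⟩ rfl CvR.zero)) rfl <|
    CvB.step (b := 25) (q := 4) (CvR.step ⟨cMM_25_59.down⟩ rfl (CvR.step ⟨cMM_25_58.down⟩ rfl CvR.zero)) rfl <|
    CvB.step (b := 21) (q := 4) (CvR.step ⟨cMM_21_77.down⟩ rfl (CvR.step ⟨cMM_21_76.down⟩ rfl (CvR.step ⟨cMM_21_75.down⟩ rfl CvR.zero))) rfl <|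
    CvB.step (b := 17) (q := 4) (CvR.step ⟨bnd_l cMM_17_97.down⟩ rfl (CvR.step ⟨cMM_17_96.down⟩ rfl (CvR.step ⟨cMM_17_95.down⟩ rfl (CvR.step ⟨cMM_17_94.down⟩ rfl CvR.zero)))) rfl <|
    CvB.step (b := 13) (q := 4) (CvR.step ⟨cMM_13_122.down⟩ rfl (CvR.step ⟨cMM_13_121.down⟩ rfl (CvR.step ⟨cMM_13_120.down⟩ rfl (CvR.step ⟨cMM_13_119.down⟩ rfl (CvR.step ⟨(bnd_r cMM_13_118.down)⟩ rfl CvR.zero))))) rfl <|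
    CvB.step (b := 9) (q := 4) (CvR.step ⟨cMM_9_144.down⟩ rfl (CvR.step ⟨cMM_9_143.down⟩ rfl (CvR.step ⟨cMM_9_142.down⟩ rfl (CvR.step ⟨cMM_9_141.down⟩ rfl (CvR.step ⟨cMM_9_140.down⟩ rfl (CvR.step ⟨(bnd_r cMM_9_139.down)⟩ rfl CvR.zero)))))) rfl <|
    CvB.zero)
    (by decide +kernel)

theorem bMM_21 : JobB fMM Am Am (fun b => b) 21 :=
  CvB.job (b0 := 11) (y := 1) (n := 44) (lo := 9) (hi := 33)
    (CvB.step (b := 29) (q := 4) (CvR.step ⟨cMM_29_39.down⟩ rfl (CvR.step ⟨(bnd_r cMM_29_38.down)⟩ rfl CvR.zero)) rfl <|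
    CvB.step (b := 25) (q := 4) (CvR.step ⟨cMM_25_61.down⟩ rfl (CvR.step ⟨cMM_25_60.down⟩ rfl CvR.zero)) rfl <|
    CvB.step (b := 21) (q := 4) (CvR.step ⟨cMM_21_80.down⟩ rfl (CvR.step ⟨cMM_21_79.down⟩ rfl (CvR.step ⟨cMM_21_78.down⟩ rfl CvR.zero))) rfl <|
    CvB.step (b := 17) (q := 4) (CvR.step ⟨bnd_l cMM_17_101.down⟩ rfl (CvR.step ⟨cMM_17_100.down⟩ rfl (CvR.step ⟨cMM_17_99.down⟩ rfl (CvR.step ⟨cMM_17_98.down⟩ rfl (CvR.step ⟨(bnd_r cMM_17_97.down)⟩ rfl CvR.zero))))) rfl <|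
    CvB.step (b := 13) (q := 4) (CvR.step ⟨bnd_l cMM_13_127.down⟩ rfl (CvR.step ⟨cMM_13_126.down⟩ rfl (CvR.step ⟨cMM_13_125.down⟩ rfl (CvR.step ⟨cMM_13_124.down⟩ rfl (CvR.step ⟨cMM_13_123.down⟩ rfl CvR.zero))))) rfl <|
    CvB.step (b := 9) (q := 4) (CvR.step ⟨bnd_l cMM_9_150.down⟩ rfl (CvR.step ⟨cMM_9_149.down⟩ rfl (CvR.step ⟨cMM_9_148.down⟩ rfl (CvR.step ⟨cMM_9_147.down⟩ rfl (CvR.step ⟨cMM_9_146.down⟩ rfl (CvR.step ⟨cMM_9_145.down⟩ rfl CvR.zero)))))) rfl <|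
    CvB.zero)
    (by decide +kernel)

theorem bMM_22 : JobB fMM Am Am (fun b => b) 22 :=
  CvB.job (b0 := 12) (y := 0) (n := 41) (lo := 9) (hi := 33)
    (CvB.step (b := 29) (q := 4) (CvR.step ⟨bnd_l cMM_29_41.down⟩ rfl (CvR.step ⟨cMM_29_40.down⟩ rfl CvR.zero)) rfl <|
    CvB.step (b := 25) (q := 4) (CvR.step ⟨cMM_25_63.down⟩ rfl (CvR.step ⟨cMM_25_62.down⟩ rfl CvR.zero)) rfl <|
    CvB.step (b := 21) (q := 4) (CvR.step ⟨cMM_21_83.down⟩ rfl (CvR.step ⟨cMM_21_82.down⟩ rfl (CvR.step ⟨cMM_21_81.down⟩ rfl CvR.zero))) rfl <|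
    CvB.step (b := 17) (q := 4) (CvR.step ⟨cMM_17_104.down⟩ rfl (CvR.step ⟨cMM_17_103.down⟩ rfl (CvR.step ⟨cMM_17_102.down⟩ rfl (CvR.step ⟨(bnd_r cMM_17_101.down)⟩ rfl CvR.zero)))) rfl <|
    CvB.step (b := 13) (q := 4) (CvR.step ⟨cMM_13_131.down⟩ rfl (CvR.step ⟨cMM_13_130.down⟩ rfl (CvR.step ⟨cMM_13_129.down⟩ rfl (CvR.step ⟨cMM_13_128.down⟩ rfl (CvR.step ⟨(bnd_r cMM_13_127.down)⟩ rfl CvR.zero))))) rfl <|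
    CvB.step (b := 9) (q := 4) (CvR.step ⟨bnd_l cMM_9_155.down⟩ rfl (CvR.step ⟨cMM_9_154.down⟩ rfl (CvR.step ⟨cMM_9_153.down⟩ rfl (CvR.step ⟨cMM_9_152.down⟩ rfl (CvR.step ⟨cMM_9_151.down⟩ rfl (CvR.step ⟨(bnd_r cMM_9_150.down)⟩ rfl CvR.zero)))))) rfl <|
    CvB.zero)
    (by decide +kernel)

theorem bMM_23 : JobB fMM Am Am (fun b => b) 23 :=
  CvB.job (b0 := 12) (y := 1) (n := 42) (lo := 9) (hi := 33)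
    (CvB.step (b := 29) (q := 4) (CvR.step ⟨cMM_29_42.down⟩ rfl (CvR.step ⟨(bnd_r cMM_29_41.down)⟩ rfl CvR.zero)) rfl <|
    CvB.step (b := 25) (q := 4) (CvR.step ⟨cMM_25_65.down⟩ rfl (CvR.step ⟨cMM_25_64.down⟩ rfl CvR.zero)) rfl <|
    CvB.step (b := 21) (q := 4) (CvR.step ⟨cMM_21_86.down⟩ rfl (CvR.step ⟨cMM_21_85.down⟩ rfl (CvR.step ⟨cMM_21_84.down⟩ rfl CvR.zero))) rfl <|
    CvB.step (b := 17) (q := 4) (CvR.step ⟨cMM_17_108.down⟩ rfl (CvR.step ⟨cMM_17_107.down⟩ rfl (CvR.step ⟨cMM_17_106.down⟩ rfl (CvR.step ⟨cMM_17_105.down⟩ rfl CvR.zero)))) rfl <|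
    CvB.step (b := 13) (q := 4) (CvR.step ⟨bnd_l cMM_13_136.down⟩ rfl (CvR.step ⟨cMM_13_135.down⟩ rfl (CvR.step ⟨cMM_13_134.down⟩ rfl (CvR.step ⟨cMM_13_133.down⟩ rfl (CvR.step ⟨cMM_13_132.down⟩ rfl CvR.zero))))) rfl <|
    CvB.step (b := 9) (q := 4) (CvR.step ⟨cMM_9_161.down⟩ rfl (CvR.step ⟨cMM_9_160.down⟩ rfl (CvR.step ⟨cMM_9_159.down⟩ rfl (CvR.step ⟨cMM_9_158.down⟩ rfl (CvR.step ⟨cMM_9_157.down⟩ rfl (CvR.step ⟨cMM_9_156.down⟩ rfl (CvR.step ⟨(bnd_r cMM_9_155.down)⟩ rfl CvR.zero))))))) rfl <|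
    CvB.zero)
    (by decide +kernel)

theorem bMM_24 : JobB fMM Am Am (fun b => b) 24 :=
  CvB.job (b0 := 13) (y := 0) (n := 39) (lo := 13) (hi := 33)
    (CvB.step (b := 29) (q := 4) (CvR.step ⟨bnd_l cMM_29_44.down⟩ rfl (CvR.step ⟨cMM_29_43.down⟩ rfl CvR.zero)) rfl <|
    CvB.step (b := 25) (q := 4) (CvR.step ⟨cMM_25_67.down⟩ rfl (CvR.step ⟨cMM_25_66.down⟩ rfl CvR.zero)) rfl <|
    CvB.step (b := 21) (q := 4) (CvR.step ⟨bnd_l cMM_21_89.down⟩ rfl (CvR.step ⟨cMM_21_88.down⟩ rfl (CvR.step ⟨cMM_21_87.down⟩ rfl CvR.zero))) rfl <|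
    CvB.step (b := 17) (q := 4) (CvR.step ⟨cMM_17_111.down⟩ rfl (CvR.step ⟨cMM_17_110.down⟩ rfl (CvR.step ⟨cMM_17_109.down⟩ rfl CvR.zero))) rfl <|
    CvB.step (b := 13) (q := 4) (CvR.step ⟨bnd_l cMM_13_140.down⟩ rfl (CvR.step ⟨cMM_13_139.down⟩ rfl (CvR.step ⟨cMM_13_138.down⟩ rfl (CvR.step ⟨cMM_13_137.down⟩ rfl (CvR.step ⟨(bnd_r cMM_13_136.down)⟩ rfl CvR.zero))))) rfl <|
    CvB.zero)
    (by decide +kernel)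

theorem bMM_25 : JobB fMM Am Am (fun b => b) 25 :=
  CvB.job (b0 := 13) (y := 1) (n := 40) (lo := 13) (hi := 33)
    (CvB.step (b := 29) (q := 4) (CvR.step ⟨bnd_l cMM_29_45.down⟩ rfl (CvR.step ⟨(bnd_r cMM_29_44.down)⟩ rfl CvR.zero)) rfl <|
    CvB.step (b := 25) (q := 4) (CvR.step ⟨cMM_25_69.down⟩ rfl (CvR.step ⟨cMM_25_68.down⟩ rfl CvR.zero)) rfl <|
    CvB.step (b := 21) (q := 4) (CvR.step ⟨bnd_l cMM_21_92.down⟩ rfl (CvR.step ⟨cMM_21_91.down⟩ rfl (CvR.step ⟨cMM_21_90.down⟩ rfl (CvR.step ⟨(bnd_r cMM_21_89.down)⟩ rfl CvR.zero)))) rfl <|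
    CvB.step (b := 17) (q := 4) (CvR.step ⟨bnd_l cMM_17_115.down⟩ rfl (CvR.step ⟨cMM_17_114.down⟩ rfl (CvR.step ⟨cMM_17_113.down⟩ rfl (CvR.step ⟨cMM_17_112.down⟩ rfl CvR.zero)))) rfl <|
    CvB.step (b := 13) (q := 4) (CvR.step ⟨bnd_l cMM_13_144.down⟩ rfl (CvR.step ⟨cMM_13_143.down⟩ rfl (CvR.step ⟨cMM_13_142.down⟩ rfl (CvR.step ⟨cMM_13_141.down⟩ rfl (CvR.step ⟨(bnd_r cMM_13_140.down)⟩ rfl CvR.zero))))) rfl <|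
    CvB.zero)
    (by decide +kernel)

theorem bMM_26 : JobB fMM Am Am (fun b => b) 26 :=
  CvB.job (b0 := 14) (y := 0) (n := 37) (lo := 13) (hi := 33)
    (CvB.step (b := 29) (q := 4) (CvR.step ⟨cMM_29_46.down⟩ rfl (CvR.step ⟨(bnd_r cMM_29_45.down)⟩ rfl CvR.zero)) rfl <|
    CvB.step (b := 25) (q := 4) (CvR.step ⟨cMM_25_71.down⟩ rfl (CvR.step ⟨cMM_25_70.down⟩ rfl CvR.zero)) rfl <|
    CvB.step (b := 21) (q := 4) (CvR.step ⟨cMM_21_94.down⟩ rfl (CvR.step ⟨cMM_21_93.down⟩ rfl (CvR.step ⟨(bnd_r cMM_21_92.down)⟩ rfl CvR.zero))) rfl <|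
    CvB.step (b := 17) (q := 4) (CvR.step ⟨bnd_l cMM_17_118.down⟩ rfl (CvR.step ⟨cMM_17_117.down⟩ rfl (CvR.step ⟨cMM_17_116.down⟩ rfl (CvR.step ⟨(bnd_r cMM_17_115.down)⟩ rfl CvR.zero)))) rfl <|
    CvB.step (b := 13) (q := 4) (CvR.step ⟨bnd_l cMM_13_148.down⟩ rfl (CvR.step ⟨cMM_13_147.down⟩ rfl (CvR.step ⟨cMM_13_146.down⟩ rfl (CvR.step ⟨cMM_13_145.down⟩ rfl (CvR.step ⟨(bnd_r cMM_13_144.down)⟩ rfl CvR.zero))))) rfl <|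
    CvB.zero)
    (by decide +kernel)

theorem bMM_27 : JobB fMM Am Am (fun b => b) 27 :=
  CvB.job (b0 := 14) (y := 1) (n := 38) (lo := 13) (hi := 33)
    (CvB.step (b := 29) (q := 4) (CvR.step ⟨bnd_l cMM_29_48.down⟩ rfl (CvR.step ⟨cMM_29_47.down⟩ rfl CvR.zero)) rfl <|
    CvB.step (b := 25) (q := 4) (CvR.step ⟨cMM_25_73.down⟩ rfl (CvR.step ⟨cMM_25_72.down⟩ rfl CvR.zero)) rfl <|
    CvB.step (b := 21) (q := 4) (CvR.step ⟨bnd_l cMM_21_97.down⟩ rfl (CvR.step ⟨cMM_21_96.down⟩ rfl (CvR.step ⟨cMM_21_95.down⟩ rfl CvR.zero))) rfl <|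
    CvB.step (b := 17) (q := 4) (CvR.step ⟨bnd_l cMM_17_121.down⟩ rfl (CvR.step ⟨cMM_17_120.down⟩ rfl (CvR.step ⟨cMM_17_119.down⟩ rfl (CvR.step ⟨(bnd_r cMM_17_118.down)⟩ rfl CvR.zero)))) rfl <|
    CvB.step (b := 13) (q := 4) (CvR.step ⟨bnd_l cMM_13_152.down⟩ rfl (CvR.step ⟨cMM_13_151.down⟩ rfl (CvR.step ⟨cMM_13_150.down⟩ rfl (CvR.step ⟨cMM_13_149.down⟩ rfl (CvR.step ⟨(bnd_r cMM_13_148.down)⟩ rfl CvR.zero))))) rfl <|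
    CvB.zero)
    (by decide +kernel)

theorem bMM_28 : JobB fMM Am Am (fun b => b) 28 :=
  CvB.job (b0 := 15) (y := 0) (n := 35) (lo := 13) (hi := 33)
    (CvB.step (b := 29) (q := 4) (CvR.step ⟨bnd_l cMM_29_49.down⟩ rfl (CvR.step ⟨(bnd_r cMM_29_48.down)⟩ rfl CvR.zero)) rfl <|
    CvB.step (b := 25) (q := 4) (CvR.step ⟨cMM_25_75.down⟩ rfl (CvR.step ⟨cMM_25_74.down⟩ rfl CvR.zero)) rfl <|
    CvB.step (b := 21) (q := 4) (CvR.step ⟨cMM_21_99.down⟩ rfl (CvR.step ⟨cMM_21_98.down⟩ rfl (CvR.step ⟨(bnd_r cMM_21_97.down)⟩ rfl CvR.zero))) rfl <|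
    CvB.step (b := 17) (q := 4) (CvR.step ⟨bnd_l cMM_17_124.down⟩ rfl (CvR.step ⟨cMM_17_123.down⟩ rfl (CvR.step ⟨cMM_17_122.down⟩ rfl (CvR.step ⟨(bnd_r cMM_17_121.down)⟩ rfl CvR.zero)))) rfl <|
    CvB.step (b := 13) (q := 4) (CvR.step ⟨cMM_13_155.down⟩ rfl (CvR.step ⟨cMM_13_154.down⟩ rfl (CvR.step ⟨cMM_13_153.down⟩ rfl (CvR.step ⟨(bnd_r cMM_13_152.down)⟩ rfl CvR.zero)))) rfl <|
    CvB.zero)
    (by decide +kernel)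

theorem bMM_29 : JobB fMM Am Am (fun b => b) 29 :=
  CvB.job (b0 := 15) (y := 1) (n := 36) (lo := 13) (hi := 33)
    (CvB.step (b := 29) (q := 4) (CvR.step ⟨bnd_l cMM_29_50.down⟩ rfl (CvR.step ⟨(bnd_r cMM_29_49.down)⟩ rfl CvR.zero)) rfl <|
    CvB.step (b := 25) (q := 4) (CvR.step ⟨cMM_25_77.down⟩ rfl (CvR.step ⟨cMM_25_76.down⟩ rfl CvR.zero)) rfl <|
    CvB.step (b := 21) (q := 4) (CvR.step ⟨bnd_l cMM_21_102.down⟩ rfl (CvR.step ⟨cMM_21_101.down⟩ rfl (CvR.step ⟨cMM_21_100.down⟩ rfl CvR.zero))) rfl <|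
    CvB.step (b := 17) (q := 4) (CvR.step ⟨bnd_l cMM_17_127.down⟩ rfl (CvR.step ⟨cMM_17_126.down⟩ rfl (CvR.step ⟨cMM_17_125.down⟩ rfl (CvR.step ⟨(bnd_r cMM_17_124.down)⟩ rfl CvR.zero)))) rfl <|
    CvB.step (b := 13) (q := 4) (CvR.step ⟨bnd_l cMM_13_159.down⟩ rfl (CvR.step ⟨cMM_13_158.down⟩ rfl (CvR.step ⟨cMM_13_157.down⟩ rfl (CvR.step ⟨cMM_13_156.down⟩ rfl CvR.zero)))) rfl <|
    CvB.zero)
    (by decide +kernel)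

theorem bMM_30 : JobB fMM Am Am (fun b => b) 30 :=
  CvB.job (b0 := 16) (y := 0) (n := 33) (lo := 13) (hi := 33)
    (CvB.step (b := 29) (q := 4) (CvR.step ⟨cMM_29_51.down⟩ rfl (CvR.step ⟨(bnd_r cMM_29_50.down)⟩ rfl CvR.zero)) rfl <|
    CvB.step (b := 25) (q := 4) (CvR.step ⟨cMM_25_79.down⟩ rfl (CvR.step ⟨cMM_25_78.down⟩ rfl CvR.zero)) rfl <|
    CvB.step (b := 21) (q := 4) (CvR.step ⟨bnd_l cMM_21_104.down⟩ rfl (CvR.step ⟨cMM_21_103.down⟩ rfl (CvR.step ⟨(bnd_r cMM_21_102.down)⟩ rfl CvR.zero))) rfl <|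
    CvB.step (b := 17) (q := 4) (CvR.step ⟨cMM_17_129.down⟩ rfl (CvR.step ⟨cMM_17_128.down⟩ rfl (CvR.step ⟨(bnd_r cMM_17_127.down)⟩ rfl CvR.zero))) rfl <|
    CvB.step (b := 13) (q := 4) (CvR.step ⟨cMM_13_162.down⟩ rfl (CvR.step ⟨cMM_13_161.down⟩ rfl (CvR.step ⟨cMM_13_160.down⟩ rfl (CvR.step ⟨(bnd_r cMM_13_159.down)⟩ rfl CvR.zero)))) rfl <|
    CvB.zero)
    (by decide +kernel)

theorem bMM_31 : JobB fMM Am Am (fun b => b) 31 :=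
  CvB.job (b0 := 16) (y := 1) (n := 34) (lo := 13) (hi := 33)
    (CvB.step (b := 29) (q := 4) (CvR.step ⟨cMM_29_52.down⟩ rfl CvR.zero) rfl <|
    CvB.step (b := 25) (q := 4) (CvR.step ⟨cMM_25_81.down⟩ rfl (CvR.step ⟨cMM_25_80.down⟩ rfl CvR.zero)) rfl <|
    CvB.step (b := 21) (q := 4) (CvR.step ⟨cMM_21_106.down⟩ rfl (CvR.step ⟨cMM_21_105.down⟩ rfl (CvR.step ⟨(bnd_r cMM_21_104.down)⟩ rfl CvR.zero))) rfl <|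
    CvB.step (b := 17) (q := 4) (CvR.step ⟨cMM_17_132.down⟩ rfl (CvR.step ⟨cMM_17_131.down⟩ rfl (CvR.step ⟨cMM_17_130.down⟩ rfl CvR.zero))) rfl <|
    CvB.step (b := 13) (q := 4) (CvR.step ⟨cMM_13_166.down⟩ rfl (CvR.step ⟨cMM_13_165.down⟩ rfl (CvR.step ⟨cMM_13_164.down⟩ rfl (CvR.step ⟨cMM_13_163.down⟩ rfl CvR.zero)))) rfl <|
    CvB.zero)
    (by decide +kernel)

theorem bMM_32 : JobB fMM Am Am (fun b => b) 32 :=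
  CvB.job (b0 := 17) (y := 0) (n := 31) (lo := 17) (hi := 33)
    (CvB.step (b := 29) (q := 4) (CvR.step ⟨cMM_29_53.down⟩ rfl CvR.zero) rfl <|
    CvB.step (b := 25) (q := 4) (CvR.step ⟨bnd_l cMM_25_83.down⟩ rfl (CvR.step ⟨cMM_25_82.down⟩ rfl CvR.zero)) rfl <|
    CvB.step (b := 21) (q := 4) (CvR.step ⟨cMM_21_108.down⟩ rfl (CvR.step ⟨cMM_21_107.down⟩ rfl CvR.zero)) rfl <|
    CvB.step (b := 17) (q := 4) (CvR.step ⟨bnd_l cMM_17_135.down⟩ rfl (CvR.step ⟨cMM_17_134.down⟩ rfl (CvR.step ⟨cMM_17_133.down⟩ rfl CvR.zero))) rfl <|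
    CvB.zero)
    (by decide +kernel)

theorem bMM_33 : JobB fMM Am Am (fun b => b) 33 :=
  CvB.job (b0 := 17) (y := 1) (n := 32) (lo := 17) (hi := 33)
    (CvB.step (b := 29) (q := 4) (CvR.step ⟨cMM_29_54.down⟩ rfl CvR.zero) rfl <|
    CvB.step (b := 25) (q := 4) (CvR.step ⟨cMM_25_84.down⟩ rfl (CvR.step ⟨(bnd_r cMM_25_83.down)⟩ rfl CvR.zero)) rfl <|
    CvB.step (b := 21) (q := 4) (CvR.step ⟨cMM_21_110.down⟩ rfl (CvR.step ⟨cMM_21_109.down⟩ rfl CvR.zero)) rfl <|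
    CvB.step (b := 17) (q := 4) (CvR.step ⟨cMM_17_137.down⟩ rfl (CvR.step ⟨cMM_17_136.down⟩ rfl (CvR.step ⟨(bnd_r cMM_17_135.down)⟩ rfl CvR.zero))) rfl <|
    CvB.zero)
    (by decide +kernel)

theorem bMM_34 : JobB fMM Am Am (fun b => b) 34 :=
  CvB.job (b0 := 18) (y := 0) (n := 29) (lo := 17) (hi := 33)
    (CvB.step (b := 29) (q := 4) (CvR.step ⟨cMM_29_55.down⟩ rfl CvR.zero) rfl <|
    CvB.step (b := 25) (q := 4) (CvR.step ⟨bnd_l cMM_25_86.down⟩ rfl (CvR.step ⟨cMM_25_85.down⟩ rfl CvR.zero)) rfl <|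
    CvB.step (b := 21) (q := 4) (CvR.step ⟨cMM_21_112.down⟩ rfl (CvR.step ⟨cMM_21_111.down⟩ rfl CvR.zero)) rfl <|
    CvB.step (b := 17) (q := 4) (CvR.step ⟨bnd_l cMM_17_140.down⟩ rfl (CvR.step ⟨cMM_17_139.down⟩ rfl (CvR.step ⟨cMM_17_138.down⟩ rfl CvR.zero))) rfl <|
    CvB.zero)
    (by decide +kernel)

theorem bMM_35 : JobB fMM Am Am (fun b => b) 35 :=
  CvB.job (b0 := 18) (y := 1) (n := 30) (lo := 17) (hi := 33)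
    (CvB.step (b := 29) (q := 4) (CvR.step ⟨cMM_29_56.down⟩ rfl CvR.zero) rfl <|
    CvB.step (b := 25) (q := 4) (CvR.step ⟨cMM_25_87.down⟩ rfl (CvR.step ⟨(bnd_r cMM_25_86.down)⟩ rfl CvR.zero)) rfl <|
    CvB.step (b := 21) (q := 4) (CvR.step ⟨cMM_21_114.down⟩ rfl (CvR.step ⟨cMM_21_113.down⟩ rfl CvR.zero)) rfl <|
    CvB.step (b := 17) (q := 4) (CvR.step ⟨cMM_17_142.down⟩ rfl (CvR.step ⟨cMM_17_141.down⟩ rfl (CvR.step ⟨(bnd_r cMM_17_140.down)⟩ rfl CvR.zero))) rfl <|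
    CvB.zero)
    (by decide +kernel)

theorem bMM_36 : JobB fMM Am Am (fun b => b) 36 :=
  CvB.job (b0 := 19) (y := 0) (n := 27) (lo := 17) (hi := 33)
    (CvB.step (b := 29) (q := 4) (CvR.step ⟨cMM_29_57.down⟩ rfl CvR.zero) rfl <|
    CvB.step (b := 25) (q := 4) (CvR.step ⟨bnd_l cMM_25_89.down⟩ rfl (CvR.step ⟨cMM_25_88.down⟩ rfl CvR.zero)) rfl <|
    CvB.step (b := 21) (q := 4) (CvR.step ⟨cMM_21_116.down⟩ rfl (CvR.step ⟨cMM_21_115.down⟩ rfl CvR.zero)) rfl <|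
    CvB.step (b := 17) (q := 4) (CvR.step ⟨bnd_l cMM_17_145.down⟩ rfl (CvR.step ⟨cMM_17_144.down⟩ rfl (CvR.step ⟨cMM_17_143.down⟩ rfl CvR.zero))) rfl <|
    CvB.zero)
    (by decide +kernel)

theorem bMM_37 : JobB fMM Am Am (fun b => b) 37 :=
  CvB.job (b0 := 19) (y := 1) (n := 28) (lo := 17) (hi := 33)
    (CvB.step (b := 29) (q := 4) (CvR.step ⟨cMM_29_58.down⟩ rfl CvR.zero) rfl <|
    CvB.step (b := 25) (q := 4) (CvR.step ⟨cMM_25_90.down⟩ rfl (CvR.step ⟨(bnd_r cMM_25_89.down)⟩ rfl CvR.zero)) rfl <|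
    CvB.step (b := 21) (q := 4) (CvR.step ⟨cMM_21_118.down⟩ rfl (CvR.step ⟨cMM_21_117.down⟩ rfl CvR.zero)) rfl <|
    CvB.step (b := 17) (q := 4) (CvR.step ⟨bnd_l cMM_17_147.down⟩ rfl (CvR.step ⟨cMM_17_146.down⟩ rfl (CvR.step ⟨(bnd_r cMM_17_145.down)⟩ rfl CvR.zero))) rfl <|
    CvB.zero)
    (by decide +kernel)

theorem bMM_38 : JobB fMM Am Am (fun b => b) 38 :=
  CvB.job (b0 := 20) (y := 0) (n := 25) (lo := 17) (hi := 33)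
    (CvB.step (b := 29) (q := 4) (CvR.step ⟨cMM_29_59.down⟩ rfl CvR.zero) rfl <|
    CvB.step (b := 25) (q := 4) (CvR.step ⟨bnd_l cMM_25_92.down⟩ rfl (CvR.step ⟨cMM_25_91.down⟩ rfl CvR.zero)) rfl <|
    CvB.step (b := 21) (q := 4) (CvR.step ⟨bnd_l cMM_21_120.down⟩ rfl (CvR.step ⟨cMM_21_119.down⟩ rfl CvR.zero)) rfl <|
    CvB.step (b := 17) (q := 4) (CvR.step ⟨bnd_l cMM_17_149.down⟩ rfl (CvR.step ⟨cMM_17_148.down⟩ rfl (CvR.step ⟨(bnd_r cMM_17_147.down)⟩ rfl CvR.zero))) rfl <|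
    CvB.zero)
    (by decide +kernel)

theorem bMM_39 : JobB fMM Am Am (fun b => b) 39 :=
  CvB.job (b0 := 20) (y := 1) (n := 26) (lo := 17) (hi := 33)
    (CvB.step (b := 29) (q := 4) (CvR.step ⟨cMM_29_60.down⟩ rfl CvR.zero) rfl <|
    CvB.step (b := 25) (q := 4) (CvR.step ⟨cMM_25_93.down⟩ rfl (CvR.step ⟨(bnd_r cMM_25_92.down)⟩ rfl CvR.zero)) rfl <|
    CvB.step (b := 21) (q := 4) (CvR.step ⟨bnd_l cMM_21_122.down⟩ rfl (CvR.step ⟨cMM_21_121.down⟩ rfl (CvR.step ⟨(bnd_r cMM_21_120.down)⟩ rfl CvR.zero))) rfl <|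
    CvB.step (b := 17) (q := 4) (CvR.step ⟨cMM_17_151.down⟩ rfl (CvR.step ⟨cMM_17_150.down⟩ rfl (CvR.step ⟨(bnd_r cMM_17_149.down)⟩ rfl CvR.zero))) rfl <|
    CvB.zero)
    (by decide +kernel)

theorem bMM_40 : JobB fMM Am Am (fun b => b) 40 :=
  CvB.job (b0 := 21) (y := 0) (n := 23) (lo := 21) (hi := 33)
    (CvB.step (b := 29) (q := 4) (CvR.step ⟨cMM_29_61.down⟩ rfl CvR.zero) rfl <|
    CvB.step (b := 25) (q := 4) (CvR.step ⟨cMM_25_94.down⟩ rfl CvR.zero) rfl <|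
    CvB.step (b := 21) (q := 4) (CvR.step ⟨cMM_21_123.down⟩ rfl (CvR.step ⟨(bnd_r cMM_21_122.down)⟩ rfl CvR.zero)) rfl <|
    CvB.zero)
    (by decide +kernel)

theorem bMM_41 : JobB fMM Am Am (fun b => b) 41 :=
  CvB.job (b0 := 21) (y := 1) (n := 24) (lo := 21) (hi := 33)
    (CvB.step (b := 29) (q := 4) (CvR.step ⟨cMM_29_62.down⟩ rfl CvR.zero) rfl <|
    CvB.step (b := 25) (q := 4) (CvR.step ⟨bnd_l cMM_25_96.down⟩ rfl (CvR.step ⟨cMM_25_95.down⟩ rfl CvR.zero)) rfl <|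
    CvB.step (b := 21) (q := 4) (CvR.step ⟨bnd_l cMM_21_125.down⟩ rfl (CvR.step ⟨cMM_21_124.down⟩ rfl CvR.zero)) rfl <|
    CvB.zero)
    (by decide +kernel)

theorem bMM_42 : JobB fMM Am Am (fun b => b) 42 :=
  CvB.job (b0 := 22) (y := 0) (n := 21) (lo := 21) (hi := 33)
    (CvB.step (b := 29) (q := 4) (CvR.step ⟨cMM_29_63.down⟩ rfl CvR.zero) rfl <|
    CvB.step (b := 25) (q := 4) (CvR.step ⟨bnd_l cMM_25_97.down⟩ rfl (CvR.step ⟨(bnd_r cMM_25_96.down)⟩ rfl CvR.zero)) rfl <|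
    CvB.step (b := 21) (q := 4) (CvR.step ⟨cMM_21_126.down⟩ rfl (CvR.step ⟨(bnd_r cMM_21_125.down)⟩ rfl CvR.zero)) rfl <|
    CvB.zero)
    (by decide +kernel)

theorem bMM_43 : JobB fMM Am Am (fun b => b) 43 :=
  CvB.job (b0 := 22) (y := 1) (n := 22) (lo := 21) (hi := 33)
    (CvB.step (b := 29) (q := 4) (CvR.step ⟨cMM_29_64.down⟩ rfl CvR.zero) rfl <|
    CvB.step (b := 25) (q := 4) (CvR.step ⟨bnd_l cMM_25_98.down⟩ rfl (CvR.step ⟨(bnd_r cMM_25_97.down)⟩ rfl CvR.zero)) rfl <|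
    CvB.step (b := 21) (q := 4) (CvR.step ⟨bnd_l cMM_21_128.down⟩ rfl (CvR.step ⟨cMM_21_127.down⟩ rfl CvR.zero)) rfl <|
    CvB.zero)
    (by decide +kernel)

theorem bMM_44 : JobB fMM Am Am (fun b => b) 44 :=
  CvB.job (b0 := 23) (y := 0) (n := 19) (lo := 21) (hi := 33)
    (CvB.step (b := 29) (q := 4) (CvR.step ⟨cMM_29_65.down⟩ rfl CvR.zero) rfl <|
    CvB.step (b := 25) (q := 4) (CvR.step ⟨bnd_l cMM_25_99.down⟩ rfl (CvR.step ⟨(bnd_r cMM_25_98.down)⟩ rfl CvR.zero)) rfl <|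
    CvB.step (b := 21) (q := 4) (CvR.step ⟨bnd_l cMM_21_129.down⟩ rfl (CvR.step ⟨(bnd_r cMM_21_128.down)⟩ rfl CvR.zero)) rfl <|
    CvB.zero)
    (by decide +kernel)

theorem bMM_45 : JobB fMM Am Am (fun b => b) 45 :=
  CvB.job (b0 := 23) (y := 1) (n := 20) (lo := 21) (hi := 33)
    (CvB.step (b := 29) (q := 4) (CvR.step ⟨cMM_29_66.down⟩ rfl CvR.zero) rfl <|
    CvB.step (b := 25) (q := 4) (CvR.step ⟨bnd_l cMM_25_100.down⟩ rfl (CvR.step ⟨(bnd_r cMM_25_99.down)⟩ rfl CvR.zero)) rfl <|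
    CvB.step (b := 21) (q := 4) (CvR.step ⟨cMM_21_130.down⟩ rfl (CvR.step ⟨(bnd_r cMM_21_129.down)⟩ rfl CvR.zero)) rfl <|
    CvB.zero)
    (by decide +kernel)

theorem bMM_46 : JobB fMM Am Am (fun b => b) 46 :=
  CvB.job (b0 := 24) (y := 0) (n := 17) (lo := 21) (hi := 33)
    (CvB.step (b := 29) (q := 4) (CvR.step ⟨bnd_l cMM_29_67.down⟩ rfl CvR.zero) rfl <|
    CvB.step (b := 25) (q := 4) (CvR.step ⟨(bnd_r cMM_25_100.down)⟩ rfl CvR.zero) rfl <|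
    CvB.step (b := 21) (q := 4) (CvR.step ⟨cMM_21_131.down⟩ rfl CvR.zero) rfl <|
    CvB.zero)
    (by decide +kernel)

theorem bMM_47 : JobB fMM Am Am (fun b => b) 47 :=
  CvB.job (b0 := 24) (y := 1) (n := 18) (lo := 21) (hi := 33)
    (CvB.step (b := 29) (q := 4) (CvR.step ⟨bnd_l cMM_29_68.down⟩ rfl (CvR.step ⟨(bnd_r cMM_29_67.down)⟩ rfl CvR.zero)) rfl <|
    CvB.step (b := 25) (q := 4) (CvR.step ⟨cMM_25_101.down⟩ rfl CvR.zero) rfl <|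
    CvB.step (b := 21) (q := 4) (CvR.step ⟨cMM_21_133.down⟩ rfl (CvR.step ⟨cMM_21_132.down⟩ rfl CvR.zero)) rfl <|
    CvB.zero)
    (by decide +kernel)

theorem bMM_48 : JobB fMM Am Am (fun b => b) 48 :=
  CvB.job (b0 := 25) (y := 0) (n := 15) (lo := 25) (hi := 33)
    (CvB.step (b := 29) (q := 4) (CvR.step ⟨(bnd_r cMM_29_68.down)⟩ rfl CvR.zero) rfl <|
    CvB.step (b := 25) (q := 4) (CvR.step ⟨cMM_25_102.down⟩ rfl CvR.zero) rfl <|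
    CvB.zero)
    (by decide +kernel)

theorem bMM_49 : JobB fMM Am Am (fun b => b) 49 :=
  CvB.job (b0 := 25) (y := 1) (n := 16) (lo := 25) (hi := 33)
    (CvB.step (b := 29) (q := 4) (CvR.step ⟨bnd_l cMM_29_69.down⟩ rfl CvR.zero) rfl <|
    CvB.step (b := 25) (q := 4) (CvR.step ⟨cMM_25_103.down⟩ rfl CvR.zero) rfl <|
    CvB.zero)
    (by decide +kernel)

theorem bMM_50 : JobB fMM Am Am (fun b => b) 50 :=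
  CvB.job (b0 := 26) (y := 0) (n := 13) (lo := 25) (hi := 33)
    (CvB.step (b := 29) (q := 4) (CvR.step ⟨(bnd_r cMM_29_69.down)⟩ rfl CvR.zero) rfl <|
    CvB.step (b := 25) (q := 4) (CvR.step ⟨cMM_25_104.down⟩ rfl CvR.zero) rfl <|
    CvB.zero)
    (by decide +kernel)

theorem bMM_51 : JobB fMM Am Am (fun b => b) 51 :=
  CvB.job (b0 := 26) (y := 1) (n := 14) (lo := 25) (hi := 33)
    (CvB.step (b := 29) (q := 4) (CvR.step ⟨bnd_l cMM_29_70.down⟩ rfl CvR.zero) rfl <|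
    CvB.step (b := 25) (q := 4) (CvR.step ⟨cMM_25_105.down⟩ rfl CvR.zero) rfl <|
    CvB.zero)
    (by decide +kernel)

theorem bMM_52 : JobB fMM Am Am (fun b => b) 52 :=
  CvB.job (b0 := 27) (y := 0) (n := 11) (lo := 25) (hi := 33)
    (CvB.step (b := 29) (q := 4) (CvR.step ⟨(bnd_r cMM_29_70.down)⟩ rfl CvR.zero) rfl <|
    CvB.step (b := 25) (q := 4) (CvR.step ⟨cMM_25_106.down⟩ rfl CvR.zero) rfl <|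
    CvB.zero)
    (by decide +kernel)

theorem bMM_53 : JobB fMM Am Am (fun b => b) 53 :=
  CvB.job (b0 := 27) (y := 1) (n := 12) (lo := 25) (hi := 33)
    (CvB.step (b := 29) (q := 4) (CvR.step ⟨bnd_l cMM_29_71.down⟩ rfl CvR.zero) rfl <|
    CvB.step (b := 25) (q := 4) (CvR.step ⟨bnd_l cMM_25_107.down⟩ rfl CvR.zero) rfl <|
    CvB.zero)
    (by decide +kernel)

theorem bMM_54 : JobB fMM Am Am (fun b => b) 54 :=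
  CvB.job (b0 := 28) (y := 0) (n := 9) (lo := 25) (hi := 33)
    (CvB.step (b := 29) (q := 4) (CvR.step ⟨(bnd_r cMM_29_71.down)⟩ rfl CvR.zero) rfl <|
    CvB.step (b := 25) (q := 4) (CvR.step ⟨(bnd_r cMM_25_107.down)⟩ rfl CvR.zero) rfl <|
    CvB.zero)
    (by decide +kernel)

theorem bMM_55 : JobB fMM Am Am (fun b => b) 55 :=
  CvB.job (b0 := 28) (y := 1) (n := 10) (lo := 25) (hi := 33)
    (CvB.step (b := 29) (q := 4) (CvR.step ⟨bnd_l cMM_29_72.down⟩ rfl CvR.zero) rfl <|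
    CvB.step (b := 25) (q := 4) (CvR.step ⟨cMM_25_108.down⟩ rfl CvR.zero) rfl <|
    CvB.zero)
    (by decide +kernel)

theorem bMM_56 : JobB fMM Am Am (fun b => b) 56 :=
  CvB.job (b0 := 29) (y := 0) (n := 7) (lo := 29) (hi := 33)
    (CvB.step (b := 29) (q := 4) (CvR.step ⟨bnd_l (bnd_r cMM_29_72.down)⟩ rfl CvR.zero) rfl <|
    CvB.zero)
    (by decide +kernel)

theorem bMM_57 : JobB fMM Am Am (fun b => b) 57 :=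
  CvB.job (b0 := 29) (y := 1) (n := 8) (lo := 29) (hi := 33)
    (CvB.step (b := 29) (q := 4) (CvR.step ⟨(bnd_r (bnd_r cMM_29_72.down))⟩ rfl CvR.zero) rfl <|
    CvB.zero)
    (by decide +kernel)

theorem bMM_58 : JobB fMM Am Am (fun b => b) 58 :=
  CvB.job (b0 := 30) (y := 0) (n := 5) (lo := 29) (hi := 33)
    (CvB.step (b := 29) (q := 4) (CvR.step ⟨bnd_l cMM_29_73.down⟩ rfl CvR.zero) rfl <|
    CvB.zero)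
    (by decide +kernel)

theorem bMM_59 : JobB fMM Am Am (fun b => b) 59 :=
  CvB.job (b0 := 30) (y := 1) (n := 6) (lo := 29) (hi := 33)
    (CvB.step (b := 29) (q := 4) (CvR.step ⟨bnd_l (bnd_r cMM_29_73.down)⟩ rfl CvR.zero) rfl <|
    CvB.zero)
    (by decide +kernel)

theorem bMM_60 : JobB fMM Am Am (fun b => b) 60 :=
  CvB.job (b0 := 31) (y := 0) (n := 3) (lo := 29) (hi := 33)
    (CvB.step (b := 29) (q := 4) (CvR.step ⟨bnd_l (bnd_r (bnd_r cMM_29_73.down))⟩ rfl CvR.zero) rfl <|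
    CvB.zero)
    (by decide +kernel)

theorem bMM_61 : JobB fMM Am Am (fun b => b) 61 :=
  CvB.job (b0 := 31) (y := 1) (n := 4) (lo := 29) (hi := 33)
    (CvB.step (b := 29) (q := 4) (CvR.step ⟨bnd_l (bnd_r (bnd_r (bnd_r cMM_29_73.down)))⟩ rfl CvR.zero) rfl <|
    CvB.zero)
    (by decide +kernel)

theorem bMM_62 : JobB fMM Am Am (fun b => b) 62 :=
  CvB.job (b0 := 32) (y := 0) (n := 1) (lo := 29) (hi := 33)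
    (CvB.step (b := 29) (q := 4) (CvR.step ⟨bnd_l (bnd_r (bnd_r (bnd_r (bnd_r cMM_29_73.down))))⟩ rfl CvR.zero) rfl <|
    CvB.zero)
    (by decide +kernel)

theorem bMM_63 : JobB fMM Am Am (fun b => b) 63 :=
  CvB.job (b0 := 32) (y := 1) (n := 2) (lo := 29) (hi := 33)
    (CvB.step (b := 29) (q := 4) (CvR.step ⟨(bnd_r (bnd_r (bnd_r (bnd_r (bnd_r cMM_29_73.down)))))⟩ rfl CvR.zero) rfl <|
    CvB.zero)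
    (by decide +kernel)

theorem jobMM : Job fMM Am Am (fun b => b) :=
  AllP.job (n := 64)
    (AllP.step bMM_63 <|
    AllP.step bMM_62 <|
    AllP.step bMM_61 <|
    AllP.step bMM_60 <|
    AllP.step bMM_59 <|
    AllP.step bMM_58 <|
    AllP.step bMM_57 <|
    AllP.step bMM_56 <|
    AllP.step bMM_55 <|
    AllP.step bMM_54 <|
    AllP.step bMM_53 <|
    AllP.step bMM_52 <|
    AllP.step bMM_51 <|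
    AllP.step bMM_50 <|
    AllP.step bMM_49 <|
    AllP.step bMM_48 <|
    AllP.step bMM_47 <|
    AllP.step bMM_46 <|
    AllP.step bMM_45 <|
    AllP.step bMM_44 <|
    AllP.step bMM_43 <|
    AllP.step bMM_42 <|
    AllP.step bMM_41 <|
    AllP.step bMM_40 <|
    AllP.step bMM_39 <|
    AllP.step bMM_38 <|
    AllP.step bMM_37 <|
    AllP.step bMM_36 <|
    AllP.step bMM_35 <|
    AllP.step bMM_34 <|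
    AllP.step bMM_33 <|
    AllP.step bMM_32 <|
    AllP.step bMM_31 <|
    AllP.step bMM_30 <|
    AllP.step bMM_29 <|
    AllP.step bMM_28 <|
    AllP.step bMM_27 <|
    AllP.step bMM_26 <|
    AllP.step bMM_25 <|
    AllP.step bMM_24 <|
    AllP.step bMM_23 <|
    AllP.step bMM_22 <|
    AllP.step bMM_21 <|
    AllP.step bMM_20 <|
    AllP.step bMM_19 <|
    AllP.step bMM_18 <|
    AllP.step bMM_17 <|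
    AllP.step bMM_16 <|
    AllP.step bMM_15 <|
    AllP.step bMM_14 <|
    AllP.step bMM_13 <|
    AllP.step bMM_12 <|
    AllP.step bMM_11 <|
    AllP.step bMM_10 <|
    AllP.step bMM_9 <|
    AllP.step bMM_8 <|
    AllP.step bMM_7 <|
    AllP.step bMM_6 <|
    AllP.step bMM_5 <|
    AllP.step bMM_4 <|
    AllP.step bMM_3 <|
    AllP.step bMM_2 <|
    AllP.step bMM_1 <|
    AllP.step bMM_0 <|
    AllP.zero _)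
    (by decide +kernel)

end Pool.Agent.Work.MP_6bf1e5_an.HD
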