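import Pool.Agent.Lib.KBlk.Jobs
import Pool.Agent.Work.MP_6bf1e5_an.HD.CPP0
import Pool.Agent.Work.MP_6bf1e5_an.HD.CPP1
import Pool.Agent.Work.MP_6bf1e5_an.HD.CPP2
import Pool.Agent.Work.MP_6bf1e5_an.HD.CPP3
import Pool.Agent.Work.MP_6bf1e5_an.HD.CPP4
import Pool.Agent.Work.MP_6bf1e5_an.HD.CPP5

/-! The pass PP. -/

namespace Pool.Agent.Work.MP_6bf1e5_an.HD

open Pool.Agent.Lib.KLA Pool.Agent.Lib.KBlk

theorem bPP_0 : JobB fPP Ah Ah (H.Ps.loP Ah) 0 :=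
  CvB.job (b0 := 1) (y := 0) (n := 55) (lo := 1) (hi := 29)
    (CvB.step (b := 25) (q := 4) (CvR.step ⟨bnd_l cPP_25_0.down⟩ rfl CvR.zero) rfl <|
    CvB.step (b := 21) (q := 4) (CvR.step ⟨bnd_l cPP_21_0.down⟩ rfl CvR.zero) rfl <|
    CvB.step (b := 17) (q := 4) (CvR.step ⟨bnd_l cPP_17_0.down⟩ rfl CvR.zero) rfl <|
    CvB.step (b := 13) (q := 4) (CvR.step ⟨cPP_13_0.down⟩ rfl CvR.zero) rfl <|
    CvB.step (b := 9) (q := 4) (CvR.step ⟨cPP_9_0.down⟩ rfl CvR.zero) rfl <|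
    CvB.step (b := 5) (q := 4) (CvR.step ⟨cPP_5_0.down⟩ rfl CvR.zero) rfl <|
    CvB.step (b := 1) (q := 4) (CvR.step ⟨cPP_1_0.down⟩ rfl CvR.zero) rfl <|
    CvB.zero)
    (by decide +kernel)

theorem bPP_1 : JobB fPP Ah Ah (H.Ps.loP Ah) 1 :=
  CvB.job (b0 := 1) (y := 1) (n := 58) (lo := 1) (hi := 29)
    (CvB.step (b := 25) (q := 4) (CvR.step ⟨(bnd_r cPP_25_0.down)⟩ rfl CvR.zero) rfl <|
    CvB.step (b := 21) (q := 4) (CvR.step ⟨bnd_l cPP_21_1.down⟩ rfl (CvR.step ⟨(bnd_r cPP_21_0.down)⟩ rfl CvR.zero)) rfl <|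
    CvB.step (b := 17) (q := 4) (CvR.step ⟨bnd_l cPP_17_1.down⟩ rfl (CvR.step ⟨(bnd_r cPP_17_0.down)⟩ rfl CvR.zero)) rfl <|
    CvB.step (b := 13) (q := 4) (CvR.step ⟨cPP_13_1.down⟩ rfl CvR.zero) rfl <|
    CvB.step (b := 9) (q := 4) (CvR.step ⟨cPP_9_1.down⟩ rfl CvR.zero) rfl <|
    CvB.step (b := 5) (q := 4) (CvR.step ⟨cPP_5_1.down⟩ rfl CvR.zero) rfl <|
    CvB.step (b := 1) (q := 4) (CvR.step ⟨bnd_l cPP_1_2.down⟩ rfl (CvR.step ⟨cPP_1_1.down⟩ rfl CvR.zero)) rfl <|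
    CvB.zero)
    (by decide +kernel)

theorem bPP_2 : JobB fPP Ah Ah (H.Ps.loP Ah) 2 :=
  CvB.job (b0 := 2) (y := 0) (n := 53) (lo := 1) (hi := 29)
    (CvB.step (b := 25) (q := 4) (CvR.step ⟨bnd_l cPP_25_1.down⟩ rfl CvR.zero) rfl <|
    CvB.step (b := 21) (q := 4) (CvR.step ⟨bnd_l (bnd_r cPP_21_1.down)⟩ rfl CvR.zero) rfl <|
    CvB.step (b := 17) (q := 4) (CvR.step ⟨(bnd_r cPP_17_1.down)⟩ rfl CvR.zero) rfl <|
    CvB.step (b := 13) (q := 4) (CvR.step ⟨cPP_13_2.down⟩ rfl CvR.zero) rfl <|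
    CvB.step (b := 9) (q := 4) (CvR.step ⟨cPP_9_2.down⟩ rfl CvR.zero) rfl <|
    CvB.step (b := 5) (q := 4) (CvR.step ⟨cPP_5_2.down⟩ rfl CvR.zero) rfl <|
    CvB.step (b := 1) (q := 4) (CvR.step ⟨bnd_l cPP_1_3.down⟩ rfl (CvR.step ⟨(bnd_r cPP_1_2.down)⟩ rfl CvR.zero)) rfl <|
    CvB.zero)
    (by decide +kernel)

theorem bPP_3 : JobB fPP Ah Ah (H.Ps.loP Ah) 3 :=
  CvB.job (b0 := 2) (y := 1) (n := 56) (lo := 1) (hi := 29)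
    (CvB.step (b := 25) (q := 4) (CvR.step ⟨(bnd_r cPP_25_1.down)⟩ rfl CvR.zero) rfl <|
    CvB.step (b := 21) (q := 4) (CvR.step ⟨bnd_l cPP_21_2.down⟩ rfl (CvR.step ⟨(bnd_r (bnd_r cPP_21_1.down))⟩ rfl CvR.zero)) rfl <|
    CvB.step (b := 17) (q := 4) (CvR.step ⟨bnd_l cPP_17_2.down⟩ rfl CvR.zero) rfl <|
    CvB.step (b := 13) (q := 4) (CvR.step ⟨cPP_13_3.down⟩ rfl CvR.zero) rfl <|
    CvB.step (b := 9) (q := 4) (CvR.step ⟨cPP_9_3.down⟩ rfl CvR.zero) rfl <|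
    CvB.step (b := 5) (q := 4) (CvR.step ⟨cPP_5_3.down⟩ rfl CvR.zero) rfl <|
    CvB.step (b := 1) (q := 4) (CvR.step ⟨bnd_l cPP_1_4.down⟩ rfl (CvR.step ⟨(bnd_r cPP_1_3.down)⟩ rfl CvR.zero)) rfl <|
    CvB.zero)
    (by decide +kernel)

theorem bPP_4 : JobB fPP Ah Ah (H.Ps.loP Ah) 4 :=
  CvB.job (b0 := 3) (y := 0) (n := 51) (lo := 1) (hi := 29)
    (CvB.step (b := 25) (q := 4) (CvR.step ⟨bnd_l cPP_25_2.down⟩ rfl CvR.zero) rfl <|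
    CvB.step (b := 21) (q := 4) (CvR.step ⟨bnd_l (bnd_r cPP_21_2.down)⟩ rfl CvR.zero) rfl <|
    CvB.step (b := 17) (q := 4) (CvR.step ⟨bnd_l cPP_17_3.down⟩ rfl (CvR.step ⟨(bnd_r cPP_17_2.down)⟩ rfl CvR.zero)) rfl <|
    CvB.step (b := 13) (q := 4) (CvR.step ⟨cPP_13_4.down⟩ rfl CvR.zero) rfl <|
    CvB.step (b := 9) (q := 4) (CvR.step ⟨cPP_9_4.down⟩ rfl CvR.zero) rfl <|
    CvB.step (b := 5) (q := 4) (CvR.step ⟨cPP_5_4.down⟩ rfl CvR.zero) rfl <|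
    CvB.step (b := 1) (q := 4) (CvR.step ⟨bnd_l cPP_1_5.down⟩ rfl (CvR.step ⟨(bnd_r cPP_1_4.down)⟩ rfl CvR.zero)) rfl <|
    CvB.zero)
    (by decide +kernel)

theorem bPP_5 : JobB fPP Ah Ah (H.Ps.loP Ah) 5 :=
  CvB.job (b0 := 3) (y := 1) (n := 54) (lo := 1) (hi := 29)
    (CvB.step (b := 25) (q := 4) (CvR.step ⟨bnd_l (bnd_r cPP_25_2.down)⟩ rfl CvR.zero) rfl <|
    CvB.step (b := 21) (q := 4) (CvR.step ⟨bnd_l cPP_21_3.down⟩ rfl (CvR.step ⟨(bnd_r (bnd_r cPP_21_2.down))⟩ rfl CvR.zero)) rfl <|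
    CvB.step (b := 17) (q := 4) (CvR.step ⟨(bnd_r cPP_17_3.down)⟩ rfl CvR.zero) rfl <|
    CvB.step (b := 13) (q := 4) (CvR.step ⟨cPP_13_5.down⟩ rfl CvR.zero) rfl <|
    CvB.step (b := 9) (q := 4) (CvR.step ⟨cPP_9_5.down⟩ rfl CvR.zero) rfl <|
    CvB.step (b := 5) (q := 4) (CvR.step ⟨cPP_5_5.down⟩ rfl CvR.zero) rfl <|
    CvB.step (b := 1) (q := 4) (CvR.step ⟨bnd_l cPP_1_6.down⟩ rfl (CvR.step ⟨(bnd_r cPP_1_5.down)⟩ rfl CvR.zero)) rfl <|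
    CvB.zero)
    (by decide +kernel)

theorem bPP_6 : JobB fPP Ah Ah (H.Ps.loP Ah) 6 :=
  CvB.job (b0 := 4) (y := 0) (n := 49) (lo := 1) (hi := 29)
    (CvB.step (b := 25) (q := 4) (CvR.step ⟨bnd_l cPP_25_3.down⟩ rfl (CvR.step ⟨(bnd_r (bnd_r cPP_25_2.down))⟩ rfl CvR.zero)) rfl <|
    CvB.step (b := 21) (q := 4) (CvR.step ⟨(bnd_r cPP_21_3.down)⟩ rfl CvR.zero) rfl <|
    CvB.step (b := 17) (q := 4) (CvR.step ⟨bnd_l cPP_17_4.down⟩ rfl CvR.zero) rfl <|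
    CvB.step (b := 13) (q := 4) (CvR.step ⟨bnd_l cPP_13_6.down⟩ rfl CvR.zero) rfl <|
    CvB.step (b := 9) (q := 4) (CvR.step ⟨cPP_9_6.down⟩ rfl CvR.zero) rfl <|
    CvB.step (b := 5) (q := 4) (CvR.step ⟨cPP_5_6.down⟩ rfl CvR.zero) rfl <|
    CvB.step (b := 1) (q := 4) (CvR.step ⟨(bnd_r cPP_1_6.down)⟩ rfl CvR.zero) rfl <|
    CvB.zero)
    (by decide +kernel)

theorem bPP_7 : JobB fPP Ah Ah (H.Ps.loP Ah) 7 :=
  CvB.job (b0 := 4) (y := 1) (n := 52) (lo := 1) (hi := 29)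
    (CvB.step (b := 25) (q := 4) (CvR.step ⟨bnd_l (bnd_r cPP_25_3.down)⟩ rfl CvR.zero) rfl <|
    CvB.step (b := 21) (q := 4) (CvR.step ⟨bnd_l cPP_21_4.down⟩ rfl CvR.zero) rfl <|
    CvB.step (b := 17) (q := 4) (CvR.step ⟨bnd_l cPP_17_5.down⟩ rfl (CvR.step ⟨(bnd_r cPP_17_4.down)⟩ rfl CvR.zero)) rfl <|
    CvB.step (b := 13) (q := 4) (CvR.step ⟨bnd_l cPP_13_7.down⟩ rfl (CvR.step ⟨(bnd_r cPP_13_6.down)⟩ rfl CvR.zero)) rfl <|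
    CvB.step (b := 9) (q := 4) (CvR.step ⟨cPP_9_7.down⟩ rfl CvR.zero) rfl <|
    CvB.step (b := 5) (q := 4) (CvR.step ⟨cPP_5_7.down⟩ rfl CvR.zero) rfl <|
    CvB.step (b := 1) (q := 4) (CvR.step ⟨cPP_1_7.down⟩ rfl CvR.zero) rfl <|
    CvB.zero)
    (by decide +kernel)

theorem bPP_8 : JobB fPP Ah Ah (H.Ps.loP Ah) 8 :=
  CvB.job (b0 := 5) (y := 0) (n := 47) (lo := 5) (hi := 29)
    (CvB.step (b := 25) (q := 4) (CvR.step ⟨bnd_l cPP_25_4.down⟩ rfl (CvR.step ⟨(bnd_r (bnd_r cPP_25_3.down))⟩ rfl CvR.zero)) rfl <|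
    CvB.step (b := 21) (q := 4) (CvR.step ⟨(bnd_r cPP_21_4.down)⟩ rfl CvR.zero) rfl <|
    CvB.step (b := 17) (q := 4) (CvR.step ⟨(bnd_r cPP_17_5.down)⟩ rfl CvR.zero) rfl <|
    CvB.step (b := 13) (q := 4) (CvR.step ⟨(bnd_r cPP_13_7.down)⟩ rfl CvR.zero) rfl <|
    CvB.step (b := 9) (q := 4) (CvR.step ⟨cPP_9_8.down⟩ rfl CvR.zero) rfl <|
    CvB.step (b := 5) (q := 4) (CvR.step ⟨cPP_5_8.down⟩ rfl CvR.zero) rfl <|
    CvB.zero)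
    (by decide +kernel)

theorem bPP_9 : JobB fPP Ah Ah (H.Ps.loP Ah) 9 :=
  CvB.job (b0 := 5) (y := 1) (n := 50) (lo := 5) (hi := 29)
    (CvB.step (b := 25) (q := 4) (CvR.step ⟨bnd_l (bnd_r cPP_25_4.down)⟩ rfl CvR.zero) rfl <|
    CvB.step (b := 21) (q := 4) (CvR.step ⟨bnd_l cPP_21_5.down⟩ rfl CvR.zero) rfl <|
    CvB.step (b := 17) (q := 4) (CvR.step ⟨bnd_l cPP_17_6.down⟩ rfl CvR.zero) rfl <|
    CvB.step (b := 13) (q := 4) (CvR.step ⟨bnd_l cPP_13_8.down⟩ rfl CvR.zero) rfl <|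
    CvB.step (b := 9) (q := 4) (CvR.step ⟨cPP_9_9.down⟩ rfl CvR.zero) rfl <|
    CvB.step (b := 5) (q := 4) (CvR.step ⟨cPP_5_9.down⟩ rfl CvR.zero) rfl <|
    CvB.zero)
    (by decide +kernel)

theorem bPP_10 : JobB fPP Ah Ah (H.Ps.loP Ah) 10 :=
  CvB.job (b0 := 6) (y := 0) (n := 45) (lo := 5) (hi := 29)
    (CvB.step (b := 25) (q := 4) (CvR.step ⟨(bnd_r (bnd_r cPP_25_4.down))⟩ rfl CvR.zero) rfl <|
    CvB.step (b := 21) (q := 4) (CvR.step ⟨(bnd_r cPP_21_5.down)⟩ rfl CvR.zero) rfl <|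
    CvB.step (b := 17) (q := 4) (CvR.step ⟨bnd_l cPP_17_7.down⟩ rfl (CvR.step ⟨(bnd_r cPP_17_6.down)⟩ rfl CvR.zero)) rfl <|
    CvB.step (b := 13) (q := 4) (CvR.step ⟨bnd_l cPP_13_9.down⟩ rfl (CvR.step ⟨(bnd_r cPP_13_8.down)⟩ rfl CvR.zero)) rfl <|
    CvB.step (b := 9) (q := 4) (CvR.step ⟨cPP_9_10.down⟩ rfl CvR.zero) rfl <|
    CvB.step (b := 5) (q := 4) (CvR.step ⟨cPP_5_10.down⟩ rfl CvR.zero) rfl <|
    CvB.zero)
    (by decide +kernel)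

theorem bPP_11 : JobB fPP Ah Ah (H.Ps.loP Ah) 11 :=
  CvB.job (b0 := 6) (y := 1) (n := 48) (lo := 5) (hi := 29)
    (CvB.step (b := 25) (q := 4) (CvR.step ⟨bnd_l cPP_25_5.down⟩ rfl CvR.zero) rfl <|
    CvB.step (b := 21) (q := 4) (CvR.step ⟨bnd_l cPP_21_6.down⟩ rfl CvR.zero) rfl <|
    CvB.step (b := 17) (q := 4) (CvR.step ⟨bnd_l (bnd_r cPP_17_7.down)⟩ rfl CvR.zero) rfl <|
    CvB.step (b := 13) (q := 4) (CvR.step ⟨(bnd_r cPP_13_9.down)⟩ rfl CvR.zero) rfl <|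
    CvB.step (b := 9) (q := 4) (CvR.step ⟨cPP_9_11.down⟩ rfl CvR.zero) rfl <|
    CvB.step (b := 5) (q := 4) (CvR.step ⟨cPP_5_11.down⟩ rfl CvR.zero) rfl <|
    CvB.zero)
    (by decide +kernel)

theorem bPP_12 : JobB fPP Ah Ah (H.Ps.loP Ah) 12 :=
  CvB.job (b0 := 7) (y := 0) (n := 43) (lo := 5) (hi := 29)
    (CvB.step (b := 25) (q := 4) (CvR.step ⟨bnd_l (bnd_r cPP_25_5.down)⟩ rfl CvR.zero) rfl <|
    CvB.step (b := 21) (q := 4) (CvR.step ⟨(bnd_r cPP_21_6.down)⟩ rfl CvR.zero) rfl <|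
    CvB.step (b := 17) (q := 4) (CvR.step ⟨bnd_l cPP_17_8.down⟩ rfl (CvR.step ⟨(bnd_r (bnd_r cPP_17_7.down))⟩ rfl CvR.zero)) rfl <|
    CvB.step (b := 13) (q := 4) (CvR.step ⟨bnd_l cPP_13_10.down⟩ rfl CvR.zero) rfl <|
    CvB.step (b := 9) (q := 4) (CvR.step ⟨cPP_9_12.down⟩ rfl CvR.zero) rfl <|
    CvB.step (b := 5) (q := 4) (CvR.step ⟨cPP_5_12.down⟩ rfl CvR.zero) rfl <|
    CvB.zero)
    (by decide +kernel)

theorem bPP_13 : JobB fPP Ah Ah (H.Ps.loP Ah) 13 :=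
  CvB.job (b0 := 7) (y := 1) (n := 46) (lo := 5) (hi := 29)
    (CvB.step (b := 25) (q := 4) (CvR.step ⟨bnd_l cPP_25_6.down⟩ rfl (CvR.step ⟨(bnd_r (bnd_r cPP_25_5.down))⟩ rfl CvR.zero)) rfl <|
    CvB.step (b := 21) (q := 4) (CvR.step ⟨bnd_l cPP_21_7.down⟩ rfl CvR.zero) rfl <|
    CvB.step (b := 17) (q := 4) (CvR.step ⟨(bnd_r cPP_17_8.down)⟩ rfl CvR.zero) rfl <|
    CvB.step (b := 13) (q := 4) (CvR.step ⟨bnd_l cPP_13_11.down⟩ rfl (CvR.step ⟨(bnd_r cPP_13_10.down)⟩ rfl CvR.zero)) rfl <|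
    CvB.step (b := 9) (q := 4) (CvR.step ⟨cPP_9_13.down⟩ rfl CvR.zero) rfl <|
    CvB.step (b := 5) (q := 4) (CvR.step ⟨cPP_5_13.down⟩ rfl CvR.zero) rfl <|
    CvB.zero)
    (by decide +kernel)

theorem bPP_14 : JobB fPP Ah Ah (H.Ps.loP Ah) 14 :=
  CvB.job (b0 := 8) (y := 0) (n := 41) (lo := 5) (hi := 29)
    (CvB.step (b := 25) (q := 4) (CvR.step ⟨bnd_l (bnd_r cPP_25_6.down)⟩ rfl CvR.zero) rfl <|
    CvB.step (b := 21) (q := 4) (CvR.step ⟨(bnd_r cPP_21_7.down)⟩ rfl CvR.zero) rfl <|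
    CvB.step (b := 17) (q := 4) (CvR.step ⟨bnd_l cPP_17_9.down⟩ rfl CvR.zero) rfl <|
    CvB.step (b := 13) (q := 4) (CvR.step ⟨(bnd_r cPP_13_11.down)⟩ rfl CvR.zero) rfl <|
    CvB.step (b := 9) (q := 4) (CvR.step ⟨bnd_l cPP_9_14.down⟩ rfl CvR.zero) rfl <|
    CvB.step (b := 5) (q := 4) (CvR.step ⟨cPP_5_14.down⟩ rfl CvR.zero) rfl <|
    CvB.zero)
    (by decide +kernel)

theorem bPP_15 : JobB fPP Ah Ah (H.Ps.loP Ah) 15 :=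
  CvB.job (b0 := 8) (y := 1) (n := 44) (lo := 5) (hi := 29)
    (CvB.step (b := 25) (q := 4) (CvR.step ⟨(bnd_r (bnd_r cPP_25_6.down))⟩ rfl CvR.zero) rfl <|
    CvB.step (b := 21) (q := 4) (CvR.step ⟨bnd_l cPP_21_8.down⟩ rfl CvR.zero) rfl <|
    CvB.step (b := 17) (q := 4) (CvR.step ⟨(bnd_r cPP_17_9.down)⟩ rfl CvR.zero) rfl <|
    CvB.step (b := 13) (q := 4) (CvR.step ⟨bnd_l cPP_13_12.down⟩ rfl CvR.zero) rfl <|
    CvB.step (b := 9) (q := 4) (CvR.step ⟨bnd_l cPP_9_15.down⟩ rfl (CvR.step ⟨(bnd_r cPP_9_14.down)⟩ rfl CvR.zero)) rfl <|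
    CvB.step (b := 5) (q := 4) (CvR.step ⟨cPP_5_15.down⟩ rfl CvR.zero) rfl <|
    CvB.zero)
    (by decide +kernel)

theorem bPP_16 : JobB fPP Ah Ah (H.Ps.loP Ah) 16 :=
  CvB.job (b0 := 9) (y := 0) (n := 39) (lo := 9) (hi := 29)
    (CvB.step (b := 25) (q := 4) (CvR.step ⟨bnd_l cPP_25_7.down⟩ rfl CvR.zero) rfl <|
    CvB.step (b := 21) (q := 4) (CvR.step ⟨(bnd_r cPP_21_8.down)⟩ rfl CvR.zero) rfl <|
    CvB.step (b := 17) (q := 4) (CvR.step ⟨bnd_l cPP_17_10.down⟩ rfl CvR.zero) rfl <|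
    CvB.step (b := 13) (q := 4) (CvR.step ⟨bnd_l cPP_13_13.down⟩ rfl (CvR.step ⟨(bnd_r cPP_13_12.down)⟩ rfl CvR.zero)) rfl <|
    CvB.step (b := 9) (q := 4) (CvR.step ⟨(bnd_r cPP_9_15.down)⟩ rfl CvR.zero) rfl <|
    CvB.zero)
    (by decide +kernel)

theorem bPP_17 : JobB fPP Ah Ah (H.Ps.loP Ah) 17 :=
  CvB.job (b0 := 9) (y := 1) (n := 42) (lo := 9) (hi := 29)
    (CvB.step (b := 25) (q := 4) (CvR.step ⟨bnd_l (bnd_r cPP_25_7.down)⟩ rfl CvR.zero) rfl <|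
    CvB.step (b := 21) (q := 4) (CvR.step ⟨bnd_l cPP_21_9.down⟩ rfl CvR.zero) rfl <|
    CvB.step (b := 17) (q := 4) (CvR.step ⟨(bnd_r cPP_17_10.down)⟩ rfl CvR.zero) rfl <|
    CvB.step (b := 13) (q := 4) (CvR.step ⟨(bnd_r cPP_13_13.down)⟩ rfl CvR.zero) rfl <|
    CvB.step (b := 9) (q := 4) (CvR.step ⟨cPP_9_16.down⟩ rfl CvR.zero) rfl <|
    CvB.zero)
    (by decide +kernel)

theorem bPP_18 : JobB fPP Ah Ah (H.Ps.loP Ah) 18 :=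
  CvB.job (b0 := 10) (y := 0) (n := 37) (lo := 9) (hi := 29)
    (CvB.step (b := 25) (q := 4) (CvR.step ⟨(bnd_r (bnd_r cPP_25_7.down))⟩ rfl CvR.zero) rfl <|
    CvB.step (b := 21) (q := 4) (CvR.step ⟨(bnd_r cPP_21_9.down)⟩ rfl CvR.zero) rfl <|
    CvB.step (b := 17) (q := 4) (CvR.step ⟨bnd_l cPP_17_11.down⟩ rfl CvR.zero) rfl <|
    CvB.step (b := 13) (q := 4) (CvR.step ⟨bnd_l cPP_13_14.down⟩ rfl CvR.zero) rfl <|
    CvB.step (b := 9) (q := 4) (CvR.step ⟨bnd_l cPP_9_17.down⟩ rfl CvR.zero) rfl <|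
    CvB.zero)
    (by decide +kernel)

theorem bPP_19 : JobB fPP Ah Ah (H.Ps.loP Ah) 19 :=
  CvB.job (b0 := 10) (y := 1) (n := 40) (lo := 9) (hi := 29)
    (CvB.step (b := 25) (q := 4) (CvR.step ⟨bnd_l cPP_25_8.down⟩ rfl CvR.zero) rfl <|
    CvB.step (b := 21) (q := 4) (CvR.step ⟨bnd_l cPP_21_10.down⟩ rfl CvR.zero) rfl <|
    CvB.step (b := 17) (q := 4) (CvR.step ⟨(bnd_r cPP_17_11.down)⟩ rfl CvR.zero) rfl <|
    CvB.step (b := 13) (q := 4) (CvR.step ⟨bnd_l cPP_13_15.down⟩ rfl (CvR.step ⟨(bnd_r cPP_13_14.down)⟩ rfl CvR.zero)) rfl <|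
    CvB.step (b := 9) (q := 4) (CvR.step ⟨bnd_l cPP_9_18.down⟩ rfl (CvR.step ⟨(bnd_r cPP_9_17.down)⟩ rfl CvR.zero)) rfl <|
    CvB.zero)
    (by decide +kernel)

theorem bPP_20 : JobB fPP Ah Ah (H.Ps.loP Ah) 20 :=
  CvB.job (b0 := 11) (y := 0) (n := 35) (lo := 9) (hi := 29)
    (CvB.step (b := 25) (q := 4) (CvR.step ⟨bnd_l (bnd_r cPP_25_8.down)⟩ rfl CvR.zero) rfl <|
    CvB.step (b := 21) (q := 4) (CvR.step ⟨(bnd_r cPP_21_10.down)⟩ rfl CvR.zero) rfl <|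
    CvB.step (b := 17) (q := 4) (CvR.step ⟨bnd_l cPP_17_12.down⟩ rfl CvR.zero) rfl <|
    CvB.step (b := 13) (q := 4) (CvR.step ⟨bnd_l (bnd_r cPP_13_15.down)⟩ rfl CvR.zero) rfl <|
    CvB.step (b := 9) (q := 4) (CvR.step ⟨(bnd_r cPP_9_18.down)⟩ rfl CvR.zero) rfl <|
    CvB.zero)
    (by decide +kernel)

theorem bPP_21 : JobB fPP Ah Ah (H.Ps.loP Ah) 21 :=
  CvB.job (b0 := 11) (y := 1) (n := 38) (lo := 9) (hi := 29)
    (CvB.step (b := 25) (q := 4) (CvR.step ⟨(bnd_r (bnd_r cPP_25_8.down))⟩ rfl CvR.zero) rfl <|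
    CvB.step (b := 21) (q := 4) (CvR.step ⟨bnd_l cPP_21_11.down⟩ rfl CvR.zero) rfl <|
    CvB.step (b := 17) (q := 4) (CvR.step ⟨(bnd_r cPP_17_12.down)⟩ rfl CvR.zero) rfl <|
    CvB.step (b := 13) (q := 4) (CvR.step ⟨bnd_l cPP_13_16.down⟩ rfl (CvR.step ⟨(bnd_r (bnd_r cPP_13_15.down))⟩ rfl CvR.zero)) rfl <|
    CvB.step (b := 9) (q := 4) (CvR.step ⟨bnd_l cPP_9_19.down⟩ rfl CvR.zero) rfl <|
    CvB.zero)
    (by decide +kernel)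

theorem bPP_22 : JobB fPP Ah Ah (H.Ps.loP Ah) 22 :=
  CvB.job (b0 := 12) (y := 0) (n := 33) (lo := 9) (hi := 29)
    (CvB.step (b := 25) (q := 4) (CvR.step ⟨bnd_l cPP_25_9.down⟩ rfl CvR.zero) rfl <|
    CvB.step (b := 21) (q := 4) (CvR.step ⟨bnd_l (bnd_r cPP_21_11.down)⟩ rfl CvR.zero) rfl <|
    CvB.step (b := 17) (q := 4) (CvR.step ⟨bnd_l cPP_17_13.down⟩ rfl CvR.zero) rfl <|
    CvB.step (b := 13) (q := 4) (CvR.step ⟨bnd_l (bnd_r cPP_13_16.down)⟩ rfl CvR.zero) rfl <|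
    CvB.step (b := 9) (q := 4) (CvR.step ⟨bnd_l cPP_9_20.down⟩ rfl (CvR.step ⟨(bnd_r cPP_9_19.down)⟩ rfl CvR.zero)) rfl <|
    CvB.zero)
    (by decide +kernel)

theorem bPP_23 : JobB fPP Ah Ah (H.Ps.loP Ah) 23 :=
  CvB.job (b0 := 12) (y := 1) (n := 36) (lo := 9) (hi := 29)
    (CvB.step (b := 25) (q := 4) (CvR.step ⟨bnd_l (bnd_r cPP_25_9.down)⟩ rfl CvR.zero) rfl <|
    CvB.step (b := 21) (q := 4) (CvR.step ⟨bnd_l cPP_21_12.down⟩ rfl (CvR.step ⟨(bnd_r (bnd_r cPP_21_11.down))⟩ rfl CvR.zero)) rfl <|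
    CvB.step (b := 17) (q := 4) (CvR.step ⟨(bnd_r cPP_17_13.down)⟩ rfl CvR.zero) rfl <|
    CvB.step (b := 13) (q := 4) (CvR.step ⟨bnd_l cPP_13_17.down⟩ rfl (CvR.step ⟨(bnd_r (bnd_r cPP_13_16.down))⟩ rfl CvR.zero)) rfl <|
    CvB.step (b := 9) (q := 4) (CvR.step ⟨(bnd_r cPP_9_20.down)⟩ rfl CvR.zero) rfl <|
    CvB.zero)
    (by decide +kernel)

theorem bPP_24 : JobB fPP Ah Ah (H.Ps.loP Ah) 24 :=
  CvB.job (b0 := 13) (y := 0) (n := 31) (lo := 13) (hi := 29)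
    (CvB.step (b := 25) (q := 4) (CvR.step ⟨bnd_l (bnd_r (bnd_r cPP_25_9.down))⟩ rfl CvR.zero) rfl <|
    CvB.step (b := 21) (q := 4) (CvR.step ⟨bnd_l (bnd_r cPP_21_12.down)⟩ rfl CvR.zero) rfl <|
    CvB.step (b := 17) (q := 4) (CvR.step ⟨bnd_l cPP_17_14.down⟩ rfl CvR.zero) rfl <|
    CvB.step (b := 13) (q := 4) (CvR.step ⟨bnd_l (bnd_r cPP_13_17.down)⟩ rfl CvR.zero) rfl <|
    CvB.zero)
    (by decide +kernel)

theorem bPP_25 : JobB fPP Ah Ah (H.Ps.loP Ah) 25 :=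
  CvB.job (b0 := 13) (y := 1) (n := 34) (lo := 13) (hi := 29)
    (CvB.step (b := 25) (q := 4) (CvR.step ⟨bnd_l cPP_25_10.down⟩ rfl (CvR.step ⟨(bnd_r (bnd_r (bnd_r cPP_25_9.down)))⟩ rfl CvR.zero)) rfl <|
    CvB.step (b := 21) (q := 4) (CvR.step ⟨(bnd_r (bnd_r cPP_21_12.down))⟩ rfl CvR.zero) rfl <|
    CvB.step (b := 17) (q := 4) (CvR.step ⟨(bnd_r cPP_17_14.down)⟩ rfl CvR.zero) rfl <|
    CvB.step (b := 13) (q := 4) (CvR.step ⟨(bnd_r (bnd_r cPP_13_17.down))⟩ rfl CvR.zero) rfl <|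
    CvB.zero)
    (by decide +kernel)

theorem bPP_26 : JobB fPP Ah Ah (H.Ps.loP Ah) 26 :=
  CvB.job (b0 := 14) (y := 0) (n := 29) (lo := 13) (hi := 29)
    (CvB.step (b := 25) (q := 4) (CvR.step ⟨bnd_l (bnd_r cPP_25_10.down)⟩ rfl CvR.zero) rfl <|
    CvB.step (b := 21) (q := 4) (CvR.step ⟨bnd_l cPP_21_13.down⟩ rfl CvR.zero) rfl <|
    CvB.step (b := 17) (q := 4) (CvR.step ⟨bnd_l cPP_17_15.down⟩ rfl CvR.zero) rfl <|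
    CvB.step (b := 13) (q := 4) (CvR.step ⟨bnd_l cPP_13_18.down⟩ rfl CvR.zero) rfl <|
    CvB.zero)
    (by decide +kernel)

theorem bPP_27 : JobB fPP Ah Ah (H.Ps.loP Ah) 27 :=
  CvB.job (b0 := 14) (y := 1) (n := 32) (lo := 13) (hi := 29)
    (CvB.step (b := 25) (q := 4) (CvR.step ⟨bnd_l (bnd_r (bnd_r cPP_25_10.down))⟩ rfl CvR.zero) rfl <|
    CvB.step (b := 21) (q := 4) (CvR.step ⟨bnd_l (bnd_r cPP_21_13.down)⟩ rfl CvR.zero) rfl <|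
    CvB.step (b := 17) (q := 4) (CvR.step ⟨(bnd_r cPP_17_15.down)⟩ rfl CvR.zero) rfl <|
    CvB.step (b := 13) (q := 4) (CvR.step ⟨(bnd_r cPP_13_18.down)⟩ rfl CvR.zero) rfl <|
    CvB.zero)
    (by decide +kernel)

theorem bPP_28 : JobB fPP Ah Ah (H.Ps.loP Ah) 28 :=
  CvB.job (b0 := 15) (y := 0) (n := 27) (lo := 13) (hi := 29)
    (CvB.step (b := 25) (q := 4) (CvR.step ⟨(bnd_r (bnd_r (bnd_r cPP_25_10.down)))⟩ rfl CvR.zero) rfl <|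
    CvB.step (b := 21) (q := 4) (CvR.step ⟨(bnd_r (bnd_r cPP_21_13.down))⟩ rfl CvR.zero) rfl <|
    CvB.step (b := 17) (q := 4) (CvR.step ⟨bnd_l cPP_17_16.down⟩ rfl CvR.zero) rfl <|
    CvB.step (b := 13) (q := 4) (CvR.step ⟨bnd_l cPP_13_19.down⟩ rfl CvR.zero) rfl <|
    CvB.zero)
    (by decide +kernel)

theorem bPP_29 : JobB fPP Ah Ah (H.Ps.loP Ah) 29 :=
  CvB.job (b0 := 15) (y := 1) (n := 30) (lo := 13) (hi := 29)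
    (CvB.step (b := 25) (q := 4) (CvR.step ⟨bnd_l cPP_25_11.down⟩ rfl CvR.zero) rfl <|
    CvB.step (b := 21) (q := 4) (CvR.step ⟨bnd_l cPP_21_14.down⟩ rfl CvR.zero) rfl <|
    CvB.step (b := 17) (q := 4) (CvR.step ⟨(bnd_r cPP_17_16.down)⟩ rfl CvR.zero) rfl <|
    CvB.step (b := 13) (q := 4) (CvR.step ⟨(bnd_r cPP_13_19.down)⟩ rfl CvR.zero) rfl <|
    CvB.zero)
    (by decide +kernel)

theorem bPP_30 : JobB fPP Ah Ah (H.Ps.loP Ah) 30 :=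
  CvB.job (b0 := 16) (y := 0) (n := 25) (lo := 13) (hi := 29)
    (CvB.step (b := 25) (q := 4) (CvR.step ⟨bnd_l (bnd_r cPP_25_11.down)⟩ rfl CvR.zero) rfl <|
    CvB.step (b := 21) (q := 4) (CvR.step ⟨bnd_l (bnd_r cPP_21_14.down)⟩ rfl CvR.zero) rfl <|
    CvB.step (b := 17) (q := 4) (CvR.step ⟨bnd_l cPP_17_17.down⟩ rfl CvR.zero) rfl <|
    CvB.step (b := 13) (q := 4) (CvR.step ⟨bnd_l cPP_13_20.down⟩ rfl CvR.zero) rfl <|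
    CvB.zero)
    (by decide +kernel)

theorem bPP_31 : JobB fPP Ah Ah (H.Ps.loP Ah) 31 :=
  CvB.job (b0 := 16) (y := 1) (n := 28) (lo := 13) (hi := 29)
    (CvB.step (b := 25) (q := 4) (CvR.step ⟨bnd_l (bnd_r (bnd_r cPP_25_11.down))⟩ rfl CvR.zero) rfl <|
    CvB.step (b := 21) (q := 4) (CvR.step ⟨(bnd_r (bnd_r cPP_21_14.down))⟩ rfl CvR.zero) rfl <|
    CvB.step (b := 17) (q := 4) (CvR.step ⟨bnd_l (bnd_r cPP_17_17.down)⟩ rfl CvR.zero) rfl <|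
    CvB.step (b := 13) (q := 4) (CvR.step ⟨(bnd_r cPP_13_20.down)⟩ rfl CvR.zero) rfl <|
    CvB.zero)
    (by decide +kernel)

theorem bPP_32 : JobB fPP Ah Ah (H.Ps.loP Ah) 32 :=
  CvB.job (b0 := 17) (y := 0) (n := 23) (lo := 17) (hi := 29)
    (CvB.step (b := 25) (q := 4) (CvR.step ⟨(bnd_r (bnd_r (bnd_r cPP_25_11.down)))⟩ rfl CvR.zero) rfl <|
    CvB.step (b := 21) (q := 4) (CvR.step ⟨bnd_l cPP_21_15.down⟩ rfl CvR.zero) rfl <|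
    CvB.step (b := 17) (q := 4) (CvR.step ⟨(bnd_r (bnd_r cPP_17_17.down))⟩ rfl CvR.zero) rfl <|
    CvB.zero)
    (by decide +kernel)

theorem bPP_33 : JobB fPP Ah Ah (H.Ps.loP Ah) 33 :=
  CvB.job (b0 := 17) (y := 1) (n := 26) (lo := 17) (hi := 29)
    (CvB.step (b := 25) (q := 4) (CvR.step ⟨bnd_l cPP_25_12.down⟩ rfl CvR.zero) rfl <|
    CvB.step (b := 21) (q := 4) (CvR.step ⟨bnd_l (bnd_r cPP_21_15.down)⟩ rfl CvR.zero) rfl <|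
    CvB.step (b := 17) (q := 4) (CvR.step ⟨bnd_l cPP_17_18.down⟩ rfl CvR.zero) rfl <|
    CvB.zero)
    (by decide +kernel)

theorem bPP_34 : JobB fPP Ah Ah (H.Ps.loP Ah) 34 :=
  CvB.job (b0 := 18) (y := 0) (n := 21) (lo := 17) (hi := 29)
    (CvB.step (b := 25) (q := 4) (CvR.step ⟨bnd_l (bnd_r cPP_25_12.down)⟩ rfl CvR.zero) rfl <|
    CvB.step (b := 21) (q := 4) (CvR.step ⟨(bnd_r (bnd_r cPP_21_15.down))⟩ rfl CvR.zero) rfl <|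
    CvB.step (b := 17) (q := 4) (CvR.step ⟨bnd_l (bnd_r cPP_17_18.down)⟩ rfl CvR.zero) rfl <|
    CvB.zero)
    (by decide +kernel)

theorem bPP_35 : JobB fPP Ah Ah (H.Ps.loP Ah) 35 :=
  CvB.job (b0 := 18) (y := 1) (n := 24) (lo := 17) (hi := 29)
    (CvB.step (b := 25) (q := 4) (CvR.step ⟨bnd_l (bnd_r (bnd_r cPP_25_12.down))⟩ rfl CvR.zero) rfl <|
    CvB.step (b := 21) (q := 4) (CvR.step ⟨bnd_l cPP_21_16.down⟩ rfl CvR.zero) rfl <|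
    CvB.step (b := 17) (q := 4) (CvR.step ⟨(bnd_r (bnd_r cPP_17_18.down))⟩ rfl CvR.zero) rfl <|
    CvB.zero)
    (by decide +kernel)

theorem bPP_36 : JobB fPP Ah Ah (H.Ps.loP Ah) 36 :=
  CvB.job (b0 := 19) (y := 0) (n := 19) (lo := 17) (hi := 29)
    (CvB.step (b := 25) (q := 4) (CvR.step ⟨bnd_l (bnd_r (bnd_r (bnd_r cPP_25_12.down)))⟩ rfl CvR.zero) rfl <|
    CvB.step (b := 21) (q := 4) (CvR.step ⟨bnd_l (bnd_r cPP_21_16.down)⟩ rfl CvR.zero) rfl <|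
    CvB.step (b := 17) (q := 4) (CvR.step ⟨bnd_l cPP_17_19.down⟩ rfl CvR.zero) rfl <|
    CvB.zero)
    (by decide +kernel)

theorem bPP_37 : JobB fPP Ah Ah (H.Ps.loP Ah) 37 :=
  CvB.job (b0 := 19) (y := 1) (n := 22) (lo := 17) (hi := 29)
    (CvB.step (b := 25) (q := 4) (CvR.step ⟨bnd_l cPP_25_13.down⟩ rfl (CvR.step ⟨(bnd_r (bnd_r (bnd_r (bnd_r cPP_25_12.down))))⟩ rfl CvR.zero)) rfl <|
    CvB.step (b := 21) (q := 4) (CvR.step ⟨bnd_l (bnd_r (bnd_r cPP_21_16.down))⟩ rfl CvR.zero) rfl <|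
    CvB.step (b := 17) (q := 4) (CvR.step ⟨bnd_l (bnd_r cPP_17_19.down)⟩ rfl CvR.zero) rfl <|
    CvB.zero)
    (by decide +kernel)

theorem bPP_38 : JobB fPP Ah Ah (H.Ps.loP Ah) 38 :=
  CvB.job (b0 := 20) (y := 0) (n := 17) (lo := 17) (hi := 29)
    (CvB.step (b := 25) (q := 4) (CvR.step ⟨bnd_l (bnd_r cPP_25_13.down)⟩ rfl CvR.zero) rfl <|
    CvB.step (b := 21) (q := 4) (CvR.step ⟨(bnd_r (bnd_r (bnd_r cPP_21_16.down)))⟩ rfl CvR.zero) rfl <|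
    CvB.step (b := 17) (q := 4) (CvR.step ⟨(bnd_r (bnd_r cPP_17_19.down))⟩ rfl CvR.zero) rfl <|
    CvB.zero)
    (by decide +kernel)

theorem bPP_39 : JobB fPP Ah Ah (H.Ps.loP Ah) 39 :=
  CvB.job (b0 := 20) (y := 1) (n := 20) (lo := 17) (hi := 29)
    (CvB.step (b := 25) (q := 4) (CvR.step ⟨bnd_l (bnd_r (bnd_r cPP_25_13.down))⟩ rfl CvR.zero) rfl <|
    CvB.step (b := 21) (q := 4) (CvR.step ⟨bnd_l cPP_21_17.down⟩ rfl CvR.zero) rfl <|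
    CvB.step (b := 17) (q := 4) (CvR.step ⟨cPP_17_20.down⟩ rfl CvR.zero) rfl <|
    CvB.zero)
    (by decide +kernel)

theorem bPP_40 : JobB fPP Ah Ah (H.Ps.loP Ah) 40 :=
  CvB.job (b0 := 21) (y := 0) (n := 15) (lo := 21) (hi := 29)
    (CvB.step (b := 25) (q := 4) (CvR.step ⟨bnd_l (bnd_r (bnd_r (bnd_r cPP_25_13.down)))⟩ rfl CvR.zero) rfl <|
    CvB.step (b := 21) (q := 4) (CvR.step ⟨bnd_l (bnd_r cPP_21_17.down)⟩ rfl CvR.zero) rfl <|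
    CvB.zero)
    (by decide +kernel)

theorem bPP_41 : JobB fPP Ah Ah (H.Ps.loP Ah) 41 :=
  CvB.job (b0 := 21) (y := 1) (n := 18) (lo := 21) (hi := 29)
    (CvB.step (b := 25) (q := 4) (CvR.step ⟨bnd_l (bnd_r (bnd_r (bnd_r (bnd_r cPP_25_13.down))))⟩ rfl CvR.zero) rfl <|
    CvB.step (b := 21) (q := 4) (CvR.step ⟨bnd_l (bnd_r (bnd_r cPP_21_17.down))⟩ rfl CvR.zero) rfl <|
    CvB.zero)
    (by decide +kernel)

theorem bPP_42 : JobB fPP Ah Ah (H.Ps.loP Ah) 42 :=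
  CvB.job (b0 := 22) (y := 0) (n := 13) (lo := 21) (hi := 29)
    (CvB.step (b := 25) (q := 4) (CvR.step ⟨(bnd_r (bnd_r (bnd_r (bnd_r (bnd_r cPP_25_13.down)))))⟩ rfl CvR.zero) rfl <|
    CvB.step (b := 21) (q := 4) (CvR.step ⟨bnd_l (bnd_r (bnd_r (bnd_r cPP_21_17.down)))⟩ rfl CvR.zero) rfl <|
    CvB.zero)
    (by decide +kernel)

theorem bPP_43 : JobB fPP Ah Ah (H.Ps.loP Ah) 43 :=
  CvB.job (b0 := 22) (y := 1) (n := 16) (lo := 21) (hi := 29)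
    (CvB.step (b := 25) (q := 4) (CvR.step ⟨bnd_l cPP_25_14.down⟩ rfl CvR.zero) rfl <|
    CvB.step (b := 21) (q := 4) (CvR.step ⟨(bnd_r (bnd_r (bnd_r (bnd_r cPP_21_17.down))))⟩ rfl CvR.zero) rfl <|
    CvB.zero)
    (by decide +kernel)

theorem bPP_44 : JobB fPP Ah Ah (H.Ps.loP Ah) 44 :=
  CvB.job (b0 := 23) (y := 0) (n := 11) (lo := 21) (hi := 29)
    (CvB.step (b := 25) (q := 4) (CvR.step ⟨bnd_l (bnd_r cPP_25_14.down)⟩ rfl CvR.zero) rfl <|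
    CvB.step (b := 21) (q := 4) (CvR.step ⟨bnd_l cPP_21_18.down⟩ rfl CvR.zero) rfl <|
    CvB.zero)
    (by decide +kernel)

theorem bPP_45 : JobB fPP Ah Ah (H.Ps.loP Ah) 45 :=
  CvB.job (b0 := 23) (y := 1) (n := 14) (lo := 21) (hi := 29)
    (CvB.step (b := 25) (q := 4) (CvR.step ⟨bnd_l (bnd_r (bnd_r cPP_25_14.down))⟩ rfl CvR.zero) rfl <|
    CvB.step (b := 21) (q := 4) (CvR.step ⟨bnd_l (bnd_r cPP_21_18.down)⟩ rfl CvR.zero) rfl <|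
    CvB.zero)
    (by decide +kernel)

theorem bPP_46 : JobB fPP Ah Ah (H.Ps.loP Ah) 46 :=
  CvB.job (b0 := 24) (y := 0) (n := 9) (lo := 21) (hi := 29)
    (CvB.step (b := 25) (q := 4) (CvR.step ⟨bnd_l (bnd_r (bnd_r (bnd_r cPP_25_14.down)))⟩ rfl CvR.zero) rfl <|
    CvB.step (b := 21) (q := 4) (CvR.step ⟨bnd_l (bnd_r (bnd_r cPP_21_18.down))⟩ rfl CvR.zero) rfl <|
    CvB.zero)
    (by decide +kernel)

theorem bPP_47 : JobB fPP Ah Ah (H.Ps.loP Ah) 47 :=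
  CvB.job (b0 := 24) (y := 1) (n := 12) (lo := 21) (hi := 29)
    (CvB.step (b := 25) (q := 4) (CvR.step ⟨bnd_l (bnd_r (bnd_r (bnd_r (bnd_r cPP_25_14.down))))⟩ rfl CvR.zero) rfl <|
    CvB.step (b := 21) (q := 4) (CvR.step ⟨(bnd_r (bnd_r (bnd_r cPP_21_18.down)))⟩ rfl CvR.zero) rfl <|
    CvB.zero)
    (by decide +kernel)

theorem bPP_48 : JobB fPP Ah Ah (H.Ps.loP Ah) 48 :=
  CvB.job (b0 := 25) (y := 0) (n := 7) (lo := 25) (hi := 29)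
    (CvB.step (b := 25) (q := 4) (CvR.step ⟨bnd_l (bnd_r (bnd_r (bnd_r (bnd_r (bnd_r cPP_25_14.down)))))⟩ rfl CvR.zero) rfl <|
    CvB.zero)
    (by decide +kernel)

theorem bPP_49 : JobB fPP Ah Ah (H.Ps.loP Ah) 49 :=
  CvB.job (b0 := 25) (y := 1) (n := 10) (lo := 25) (hi := 29)
    (CvB.step (b := 25) (q := 4) (CvR.step ⟨(bnd_r (bnd_r (bnd_r (bnd_r (bnd_r (bnd_r cPP_25_14.down))))))⟩ rfl CvR.zero) rfl <|
    CvB.zero)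
    (by decide +kernel)

theorem bPP_50 : JobB fPP Ah Ah (H.Ps.loP Ah) 50 :=
  CvB.job (b0 := 26) (y := 0) (n := 5) (lo := 25) (hi := 29)
    (CvB.step (b := 25) (q := 4) (CvR.step ⟨bnd_l cPP_25_15.down⟩ rfl CvR.zero) rfl <|
    CvB.zero)
    (by decide +kernel)

theorem bPP_51 : JobB fPP Ah Ah (H.Ps.loP Ah) 51 :=
  CvB.job (b0 := 26) (y := 1) (n := 8) (lo := 25) (hi := 29)
    (CvB.step (b := 25) (q := 4) (CvR.step ⟨bnd_l (bnd_r cPP_25_15.down)⟩ rfl CvR.zero) rfl <|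
    CvB.zero)
    (by decide +kernel)

theorem bPP_52 : JobB fPP Ah Ah (H.Ps.loP Ah) 52 :=
  CvB.job (b0 := 27) (y := 0) (n := 3) (lo := 25) (hi := 29)
    (CvB.step (b := 25) (q := 4) (CvR.step ⟨bnd_l (bnd_r (bnd_r cPP_25_15.down))⟩ rfl CvR.zero) rfl <|
    CvB.zero)
    (by decide +kernel)

theorem bPP_53 : JobB fPP Ah Ah (H.Ps.loP Ah) 53 :=
  CvB.job (b0 := 27) (y := 1) (n := 6) (lo := 25) (hi := 29)
    (CvB.step (b := 25) (q := 4) (CvR.step ⟨bnd_l (bnd_r (bnd_r (bnd_r cPP_25_15.down)))⟩ rfl CvR.zero) rfl <|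
    CvB.zero)
    (by decide +kernel)

theorem bPP_54 : JobB fPP Ah Ah (H.Ps.loP Ah) 54 :=
  CvB.job (b0 := 28) (y := 0) (n := 1) (lo := 25) (hi := 29)
    (CvB.step (b := 25) (q := 4) (CvR.step ⟨bnd_l (bnd_r (bnd_r (bnd_r (bnd_r cPP_25_15.down))))⟩ rfl CvR.zero) rfl <|
    CvB.zero)
    (by decide +kernel)

theorem bPP_55 : JobB fPP Ah Ah (H.Ps.loP Ah) 55 :=
  CvB.job (b0 := 28) (y := 1) (n := 4) (lo := 25) (hi := 29)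
    (CvB.step (b := 25) (q := 4) (CvR.step ⟨(bnd_r (bnd_r (bnd_r (bnd_r (bnd_r cPP_25_15.down)))))⟩ rfl CvR.zero) rfl <|
    CvB.zero)
    (by decide +kernel)

theorem jobPP : Job fPP Ah Ah (H.Ps.loP Ah) :=
  AllP.job (n := 56)
    (AllP.step bPP_55 <|
    AllP.step bPP_54 <|
    AllP.step bPP_53 <|
    AllP.step bPP_52 <|
    AllP.step bPP_51 <|
    AllP.step bPP_50 <|
    AllP.step bPP_49 <|
    AllP.step bPP_48 <|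
    AllP.step bPP_47 <|
    AllP.step bPP_46 <|
    AllP.step bPP_45 <|
    AllP.step bPP_44 <|
    AllP.step bPP_43 <|
    AllP.step bPP_42 <|
    AllP.step bPP_41 <|
    AllP.step bPP_40 <|
    AllP.step bPP_39 <|
    AllP.step bPP_38 <|
    AllP.step bPP_37 <|
    AllP.step bPP_36 <|
    AllP.step bPP_35 <|
    AllP.step bPP_34 <|
    AllP.step bPP_33 <|
    AllP.step bPP_32 <|
    AllP.step bPP_31 <|
    AllP.step bPP_30 <|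
    AllP.step bPP_29 <|
    AllP.step bPP_28 <|
    AllP.step bPP_27 <|
    AllP.step bPP_26 <|
    AllP.step bPP_25 <|
    AllP.step bPP_24 <|
    AllP.step bPP_23 <|
    AllP.step bPP_22 <|
    AllP.step bPP_21 <|
    AllP.step bPP_20 <|
    AllP.step bPP_19 <|
    AllP.step bPP_18 <|
    AllP.step bPP_17 <|
    AllP.step bPP_16 <|
    AllP.step bPP_15 <|
    AllP.step bPP_14 <|
    AllP.step bPP_13 <|
    AllP.step bPP_12 <|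
    AllP.step bPP_11 <|
    AllP.step bPP_10 <|
    AllP.step bPP_9 <|
    AllP.step bPP_8 <|
    AllP.step bPP_7 <|
    AllP.step bPP_6 <|
    AllP.step bPP_5 <|
    AllP.step bPP_4 <|
    AllP.step bPP_3 <|
    AllP.step bPP_2 <|
    AllP.step bPP_1 <|
    AllP.step bPP_0 <|
    AllP.zero _)
    (by decide +kernel)

end Pool.Agent.Work.MP_6bf1e5_an.HD
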