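import Pool.Agent.Lib.KBlk.Jobs
import Pool.Agent.Work.MP_6bf1e5_an.HD.CT00
import Pool.Agent.Work.MP_6bf1e5_an.HD.CT01
import Pool.Agent.Work.MP_6bf1e5_an.HD.CT02
import Pool.Agent.Work.MP_6bf1e5_an.HD.CT03
import Pool.Agent.Work.MP_6bf1e5_an.HD.CT04
import Pool.Agent.Work.MP_6bf1e5_an.HD.CT05
import Pool.Agent.Work.MP_6bf1e5_an.HD.CT06
import Pool.Agent.Work.MP_6bf1e5_an.HD.CT07
import Pool.Agent.Work.MP_6bf1e5_an.HD.CT08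
import Pool.Agent.Work.MP_6bf1e5_an.HD.CT09
import Pool.Agent.Work.MP_6bf1e5_an.HD.CT010
import Pool.Agent.Work.MP_6bf1e5_an.HD.CT011
import Pool.Agent.Work.MP_6bf1e5_an.HD.CT012
import Pool.Agent.Work.MP_6bf1e5_an.HD.CT013
import Pool.Agent.Work.MP_6bf1e5_an.HD.CT014
import Pool.Agent.Work.MP_6bf1e5_an.HD.CT015
import Pool.Agent.Work.MP_6bf1e5_an.HD.CT016
import Pool.Agent.Work.MP_6bf1e5_an.HD.CT017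
import Pool.Agent.Work.MP_6bf1e5_an.HD.CT018
import Pool.Agent.Work.MP_6bf1e5_an.HD.CT019
import Pool.Agent.Work.MP_6bf1e5_an.HD.CT020
import Pool.Agent.Work.MP_6bf1e5_an.HD.CT021
import Pool.Agent.Work.MP_6bf1e5_an.HD.CT022
import Pool.Agent.Work.MP_6bf1e5_an.HD.CT023
import Pool.Agent.Work.MP_6bf1e5_an.HD.CT024
import Pool.Agent.Work.MP_6bf1e5_an.HD.CT025
import Pool.Agent.Work.MP_6bf1e5_an.HD.CT026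
import Pool.Agent.Work.MP_6bf1e5_an.HD.CT027
import Pool.Agent.Work.MP_6bf1e5_an.HD.CT028
import Pool.Agent.Work.MP_6bf1e5_an.HD.CT029
import Pool.Agent.Work.MP_6bf1e5_an.HD.CT030
import Pool.Agent.Work.MP_6bf1e5_an.HD.CT031
import Pool.Agent.Work.MP_6bf1e5_an.HD.CT032
import Pool.Agent.Work.MP_6bf1e5_an.HD.CT033
import Pool.Agent.Work.MP_6bf1e5_an.HD.CT034
import Pool.Agent.Work.MP_6bf1e5_an.HD.CT035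
import Pool.Agent.Work.MP_6bf1e5_an.HD.CT036
import Pool.Agent.Work.MP_6bf1e5_an.HD.CT037
import Pool.Agent.Work.MP_6bf1e5_an.HD.CT038
import Pool.Agent.Work.MP_6bf1e5_an.HD.CT039
import Pool.Agent.Work.MP_6bf1e5_an.HD.CT040
import Pool.Agent.Work.MP_6bf1e5_an.HD.CT041
import Pool.Agent.Work.MP_6bf1e5_an.HD.CT042
import Pool.Agent.Work.MP_6bf1e5_an.HD.CT043

/-! The pass T0. -/

namespace Pool.Agent.Work.MP_6bf1e5_an.HD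

open Pool.Agent.Lib.KLA Pool.Agent.Lib.KBlk

theorem bT0_0 : JobB fT0 Am At (fun _ => At.b0) 0 :=
  CvB.job (b0 := 1) (y := 0) (n := 63) (lo := 0) (hi := 39)
    (CvB.step (b := 36) (q := 3) (CvR.step ⟨bnd_l cT0_36_0.down⟩ rfl CvR.zero) rfl <|
    CvB.step (b := 30) (q := 6) (CvR.step ⟨cT0_30_1.down⟩ rfl (CvR.step ⟨cT0_30_0.down⟩ rfl CvR.zero)) rfl <|
    CvB.step (b := 24) (q := 6) (CvR.step ⟨bnd_l cT0_24_3.down⟩ rfl (CvR.step ⟨cT0_24_2.down⟩ rfl (CvR.step ⟨cT0_24_1.down⟩ rfl (CvR.step ⟨cT0_24_0.down⟩ rfl CvR.zero)))) rfl <|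
    CvB.step (b := 21) (q := 3) (CvR.step ⟨bnd_l cT0_21_2.down⟩ rfl (CvR.step ⟨cT0_21_1.down⟩ rfl (CvR.step ⟨cT0_21_0.down⟩ rfl CvR.zero))) rfl <|
    CvB.step (b := 18) (q := 3) (CvR.step ⟨bnd_l cT0_18_2.down⟩ rfl (CvR.step ⟨cT0_18_1.down⟩ rfl (CvR.step ⟨cT0_18_0.down⟩ rfl CvR.zero))) rfl <|
    CvB.step (b := 15) (q := 3) (CvR.step ⟨cT0_15_2.down⟩ rfl (CvR.step ⟨cT0_15_1.down⟩ rfl (CvR.step ⟨cT0_15_0.down⟩ rfl CvR.zero))) rfl <|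
    CvB.step (b := 12) (q := 3) (CvR.step ⟨bnd_l cT0_12_3.down⟩ rfl (CvR.step ⟨cT0_12_2.down⟩ rfl (CvR.step ⟨cT0_12_1.down⟩ rfl (CvR.step ⟨cT0_12_0.down⟩ rfl CvR.zero)))) rfl <|
    CvB.step (b := 10) (q := 2) (CvR.step ⟨bnd_l cT0_10_2.down⟩ rfl (CvR.step ⟨cT0_10_1.down⟩ rfl (CvR.step ⟨cT0_10_0.down⟩ rfl CvR.zero))) rfl <|
    CvB.step (b := 8) (q := 2) (CvR.step ⟨bnd_l cT0_8_2.down⟩ rfl (CvR.step ⟨cT0_8_1.down⟩ rfl (CvR.step ⟨cT0_8_0.down⟩ rfl CvR.zero))) rfl <|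
    CvB.step (b := 6) (q := 2) (CvR.step ⟨bnd_l cT0_6_2.down⟩ rfl (CvR.step ⟨cT0_6_1.down⟩ rfl (CvR.step ⟨cT0_6_0.down⟩ rfl CvR.zero))) rfl <|
    CvB.step (b := 4) (q := 2) (CvR.step ⟨bnd_l cT0_4_2.down⟩ rfl (CvR.step ⟨cT0_4_1.down⟩ rfl (CvR.step ⟨cT0_4_0.down⟩ rfl CvR.zero))) rfl <|
    CvB.step (b := 2) (q := 2) (CvR.step ⟨bnd_l cT0_2_2.down⟩ rfl (CvR.step ⟨cT0_2_1.down⟩ rfl (CvR.step ⟨cT0_2_0.down⟩ rfl CvR.zero))) rfl <|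
    CvB.step (b := 0) (q := 2) (CvR.step ⟨cT0_0_1.down⟩ rfl (CvR.step ⟨cT0_0_0.down⟩ rfl CvR.zero)) rfl <|
    CvB.zero)
    (by decide +kernel)

theorem bT0_1 : JobB fT0 Am At (fun _ => At.b0) 1 :=
  CvB.job (b0 := 1) (y := 1) (n := 64) (lo := 0) (hi := 39)
    (CvB.step (b := 36) (q := 3) (CvR.step ⟨bnd_l cT0_36_1.down⟩ rfl (CvR.step ⟨(bnd_r cT0_36_0.down)⟩ rfl CvR.zero)) rfl <|
    CvB.step (b := 30) (q := 6) (CvR.step ⟨cT0_30_3.down⟩ rfl (CvR.step ⟨cT0_30_2.down⟩ rfl CvR.zero)) rfl <|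
    CvB.step (b := 24) (q := 6) (CvR.step ⟨bnd_l cT0_24_6.down⟩ rfl (CvR.step ⟨cT0_24_5.down⟩ rfl (CvR.step ⟨cT0_24_4.down⟩ rfl (CvR.step ⟨(bnd_r cT0_24_3.down)⟩ rfl CvR.zero)))) rfl <|
    CvB.step (b := 21) (q := 3) (CvR.step ⟨bnd_l cT0_21_4.down⟩ rfl (CvR.step ⟨cT0_21_3.down⟩ rfl (CvR.step ⟨(bnd_r cT0_21_2.down)⟩ rfl CvR.zero))) rfl <|
    CvB.step (b := 18) (q := 3) (CvR.step ⟨cT0_18_4.down⟩ rfl (CvR.step ⟨cT0_18_3.down⟩ rfl (CvR.step ⟨(bnd_r cT0_18_2.down)⟩ rfl CvR.zero))) rfl <|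
    CvB.step (b := 15) (q := 3) (CvR.step ⟨cT0_15_5.down⟩ rfl (CvR.step ⟨cT0_15_4.down⟩ rfl (CvR.step ⟨cT0_15_3.down⟩ rfl CvR.zero))) rfl <|
    CvB.step (b := 12) (q := 3) (CvR.step ⟨bnd_l cT0_12_6.down⟩ rfl (CvR.step ⟨cT0_12_5.down⟩ rfl (CvR.step ⟨cT0_12_4.down⟩ rfl (CvR.step ⟨(bnd_r cT0_12_3.down)⟩ rfl CvR.zero)))) rfl <|
    CvB.step (b := 10) (q := 2) (CvR.step ⟨bnd_l cT0_10_4.down⟩ rfl (CvR.step ⟨cT0_10_3.down⟩ rfl (CvR.step ⟨(bnd_r cT0_10_2.down)⟩ rfl CvR.zero))) rfl <|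
    CvB.step (b := 8) (q := 2) (CvR.step ⟨bnd_l cT0_8_4.down⟩ rfl (CvR.step ⟨cT0_8_3.down⟩ rfl (CvR.step ⟨(bnd_r cT0_8_2.down)⟩ rfl CvR.zero))) rfl <|
    CvB.step (b := 6) (q := 2) (CvR.step ⟨cT0_6_4.down⟩ rfl (CvR.step ⟨cT0_6_3.down⟩ rfl (CvR.step ⟨(bnd_r cT0_6_2.down)⟩ rfl CvR.zero))) rfl <|
    CvB.step (b := 4) (q := 2) (CvR.step ⟨bnd_l cT0_4_5.down⟩ rfl (CvR.step ⟨cT0_4_4.down⟩ rfl (CvR.step ⟨cT0_4_3.down⟩ rfl (CvR.step ⟨(bnd_r cT0_4_2.down)⟩ rfl CvR.zero)))) rfl <|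
    CvB.step (b := 2) (q := 2) (CvR.step ⟨bnd_l cT0_2_5.down⟩ rfl (CvR.step ⟨cT0_2_4.down⟩ rfl (CvR.step ⟨cT0_2_3.down⟩ rfl (CvR.step ⟨(bnd_r cT0_2_2.down)⟩ rfl CvR.zero)))) rfl <|
    CvB.step (b := 0) (q := 2) (CvR.step ⟨cT0_0_3.down⟩ rfl (CvR.step ⟨cT0_0_2.down⟩ rfl CvR.zero)) rfl <|
    CvB.zero)
    (by decide +kernel)

theorem bT0_2 : JobB fT0 Am At (fun _ => At.b0) 2 :=
  CvB.job (b0 := 2) (y := 0) (n := 61) (lo := 0) (hi := 39)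
    (CvB.step (b := 36) (q := 3) (CvR.step ⟨(bnd_r cT0_36_1.down)⟩ rfl CvR.zero) rfl <|
    CvB.step (b := 30) (q := 6) (CvR.step ⟨cT0_30_5.down⟩ rfl (CvR.step ⟨cT0_30_4.down⟩ rfl CvR.zero)) rfl <|
    CvB.step (b := 24) (q := 6) (CvR.step ⟨bnd_l cT0_24_9.down⟩ rfl (CvR.step ⟨cT0_24_8.down⟩ rfl (CvR.step ⟨cT0_24_7.down⟩ rfl (CvR.step ⟨(bnd_r cT0_24_6.down)⟩ rfl CvR.zero)))) rfl <|
    CvB.step (b := 21) (q := 3) (CvR.step ⟨bnd_l cT0_21_6.down⟩ rfl (CvR.step ⟨cT0_21_5.down⟩ rfl (CvR.step ⟨(bnd_r cT0_21_4.down)⟩ rfl CvR.zero))) rfl <|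
    CvB.step (b := 18) (q := 3) (CvR.step ⟨bnd_l cT0_18_7.down⟩ rfl (CvR.step ⟨cT0_18_6.down⟩ rfl (CvR.step ⟨cT0_18_5.down⟩ rfl CvR.zero))) rfl <|
    CvB.step (b := 15) (q := 3) (CvR.step ⟨cT0_15_8.down⟩ rfl (CvR.step ⟨cT0_15_7.down⟩ rfl (CvR.step ⟨cT0_15_6.down⟩ rfl CvR.zero))) rfl <|
    CvB.step (b := 12) (q := 3) (CvR.step ⟨bnd_l cT0_12_9.down⟩ rfl (CvR.step ⟨cT0_12_8.down⟩ rfl (CvR.step ⟨cT0_12_7.down⟩ rfl (CvR.step ⟨(bnd_r cT0_12_6.down)⟩ rfl CvR.zero)))) rfl <|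
    CvB.step (b := 10) (q := 2) (CvR.step ⟨cT0_10_6.down⟩ rfl (CvR.step ⟨cT0_10_5.down⟩ rfl (CvR.step ⟨(bnd_r cT0_10_4.down)⟩ rfl CvR.zero))) rfl <|
    CvB.step (b := 8) (q := 2) (CvR.step ⟨cT0_8_6.down⟩ rfl (CvR.step ⟨cT0_8_5.down⟩ rfl (CvR.step ⟨(bnd_r cT0_8_4.down)⟩ rfl CvR.zero))) rfl <|
    CvB.step (b := 6) (q := 2) (CvR.step ⟨bnd_l cT0_6_7.down⟩ rfl (CvR.step ⟨cT0_6_6.down⟩ rfl (CvR.step ⟨cT0_6_5.down⟩ rfl CvR.zero))) rfl <|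
    CvB.step (b := 4) (q := 2) (CvR.step ⟨cT0_4_7.down⟩ rfl (CvR.step ⟨cT0_4_6.down⟩ rfl (CvR.step ⟨(bnd_r cT0_4_5.down)⟩ rfl CvR.zero))) rfl <|
    CvB.step (b := 2) (q := 2) (CvR.step ⟨bnd_l cT0_2_8.down⟩ rfl (CvR.step ⟨cT0_2_7.down⟩ rfl (CvR.step ⟨cT0_2_6.down⟩ rfl (CvR.step ⟨(bnd_r cT0_2_5.down)⟩ rfl CvR.zero)))) rfl <|
    CvB.step (b := 0) (q := 2) (CvR.step ⟨cT0_0_5.down⟩ rfl (CvR.step ⟨cT0_0_4.down⟩ rfl CvR.zero)) rfl <|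
    CvB.zero)
    (by decide +kernel)

theorem bT0_3 : JobB fT0 Am At (fun _ => At.b0) 3 :=
  CvB.job (b0 := 2) (y := 1) (n := 62) (lo := 0) (hi := 39)
    (CvB.step (b := 36) (q := 3) (CvR.step ⟨bnd_l cT0_36_2.down⟩ rfl CvR.zero) rfl <|
    CvB.step (b := 30) (q := 6) (CvR.step ⟨cT0_30_7.down⟩ rfl (CvR.step ⟨cT0_30_6.down⟩ rfl CvR.zero)) rfl <|
    CvB.step (b := 24) (q := 6) (CvR.step ⟨cT0_24_12.down⟩ rfl (CvR.step ⟨cT0_24_11.down⟩ rfl (CvR.step ⟨cT0_24_10.down⟩ rfl (CvR.step ⟨(bnd_r cT0_24_9.down)⟩ rfl CvR.zero)))) rfl <|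
    CvB.step (b := 21) (q := 3) (CvR.step ⟨bnd_l cT0_21_8.down⟩ rfl (CvR.step ⟨cT0_21_7.down⟩ rfl (CvR.step ⟨(bnd_r cT0_21_6.down)⟩ rfl CvR.zero))) rfl <|
    CvB.step (b := 18) (q := 3) (CvR.step ⟨bnd_l cT0_18_9.down⟩ rfl (CvR.step ⟨cT0_18_8.down⟩ rfl (CvR.step ⟨(bnd_r cT0_18_7.down)⟩ rfl CvR.zero))) rfl <|
    CvB.step (b := 15) (q := 3) (CvR.step ⟨cT0_15_11.down⟩ rfl (CvR.step ⟨cT0_15_10.down⟩ rfl (CvR.step ⟨cT0_15_9.down⟩ rfl CvR.zero))) rfl <|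
    CvB.step (b := 12) (q := 3) (CvR.step ⟨cT0_12_12.down⟩ rfl (CvR.step ⟨cT0_12_11.down⟩ rfl (CvR.step ⟨cT0_12_10.down⟩ rfl (CvR.step ⟨(bnd_r cT0_12_9.down)⟩ rfl CvR.zero)))) rfl <|
    CvB.step (b := 10) (q := 2) (CvR.step ⟨bnd_l cT0_10_9.down⟩ rfl (CvR.step ⟨cT0_10_8.down⟩ rfl (CvR.step ⟨cT0_10_7.down⟩ rfl CvR.zero))) rfl <|
    CvB.step (b := 8) (q := 2) (CvR.step ⟨bnd_l cT0_8_9.down⟩ rfl (CvR.step ⟨cT0_8_8.down⟩ rfl (CvR.step ⟨cT0_8_7.down⟩ rfl CvR.zero))) rfl <|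
    CvB.step (b := 6) (q := 2) (CvR.step ⟨cT0_6_9.down⟩ rfl (CvR.step ⟨cT0_6_8.down⟩ rfl (CvR.step ⟨(bnd_r cT0_6_7.down)⟩ rfl CvR.zero))) rfl <|
    CvB.step (b := 4) (q := 2) (CvR.step ⟨bnd_l cT0_4_10.down⟩ rfl (CvR.step ⟨cT0_4_9.down⟩ rfl (CvR.step ⟨cT0_4_8.down⟩ rfl CvR.zero))) rfl <|
    CvB.step (b := 2) (q := 2) (CvR.step ⟨bnd_l cT0_2_11.down⟩ rfl (CvR.step ⟨cT0_2_10.down⟩ rfl (CvR.step ⟨cT0_2_9.down⟩ rfl (CvR.step ⟨(bnd_r cT0_2_8.down)⟩ rfl CvR.zero)))) rfl <|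
    CvB.step (b := 0) (q := 2) (CvR.step ⟨cT0_0_7.down⟩ rfl (CvR.step ⟨cT0_0_6.down⟩ rfl CvR.zero)) rfl <|
    CvB.zero)
    (by decide +kernel)

theorem bT0_4 : JobB fT0 Am At (fun _ => At.b0) 4 :=
  CvB.job (b0 := 3) (y := 0) (n := 59) (lo := 0) (hi := 39)
    (CvB.step (b := 36) (q := 3) (CvR.step ⟨bnd_l cT0_36_3.down⟩ rfl (CvR.step ⟨(bnd_r cT0_36_2.down)⟩ rfl CvR.zero)) rfl <|
    CvB.step (b := 30) (q := 6) (CvR.step ⟨cT0_30_9.down⟩ rfl (CvR.step ⟨cT0_30_8.down⟩ rfl CvR.zero)) rfl <|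
    CvB.step (b := 24) (q := 6) (CvR.step ⟨cT0_24_15.down⟩ rfl (CvR.step ⟨cT0_24_14.down⟩ rfl (CvR.step ⟨cT0_24_13.down⟩ rfl CvR.zero))) rfl <|
    CvB.step (b := 21) (q := 3) (CvR.step ⟨bnd_l cT0_21_10.down⟩ rfl (CvR.step ⟨cT0_21_9.down⟩ rfl (CvR.step ⟨(bnd_r cT0_21_8.down)⟩ rfl CvR.zero))) rfl <|
    CvB.step (b := 18) (q := 3) (CvR.step ⟨cT0_18_11.down⟩ rfl (CvR.step ⟨cT0_18_10.down⟩ rfl (CvR.step ⟨(bnd_r cT0_18_9.down)⟩ rfl CvR.zero))) rfl <|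
    CvB.step (b := 15) (q := 3) (CvR.step ⟨bnd_l cT0_15_14.down⟩ rfl (CvR.step ⟨cT0_15_13.down⟩ rfl (CvR.step ⟨cT0_15_12.down⟩ rfl CvR.zero))) rfl <|
    CvB.step (b := 12) (q := 3) (CvR.step ⟨cT0_12_15.down⟩ rfl (CvR.step ⟨cT0_12_14.down⟩ rfl (CvR.step ⟨cT0_12_13.down⟩ rfl CvR.zero))) rfl <|
    CvB.step (b := 10) (q := 2) (CvR.step ⟨bnd_l cT0_10_11.down⟩ rfl (CvR.step ⟨cT0_10_10.down⟩ rfl (CvR.step ⟨(bnd_r cT0_10_9.down)⟩ rfl CvR.zero))) rfl <|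
    CvB.step (b := 8) (q := 2) (CvR.step ⟨bnd_l cT0_8_11.down⟩ rfl (CvR.step ⟨cT0_8_10.down⟩ rfl (CvR.step ⟨(bnd_r cT0_8_9.down)⟩ rfl CvR.zero))) rfl <|
    CvB.step (b := 6) (q := 2) (CvR.step ⟨bnd_l cT0_6_12.down⟩ rfl (CvR.step ⟨cT0_6_11.down⟩ rfl (CvR.step ⟨cT0_6_10.down⟩ rfl CvR.zero))) rfl <|
    CvB.step (b := 4) (q := 2) (CvR.step ⟨bnd_l cT0_4_13.down⟩ rfl (CvR.step ⟨cT0_4_12.down⟩ rfl (CvR.step ⟨cT0_4_11.down⟩ rfl (CvR.step ⟨(bnd_r cT0_4_10.down)⟩ rfl CvR.zero)))) rfl <|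
    CvB.step (b := 2) (q := 2) (CvR.step ⟨bnd_l cT0_2_13.down⟩ rfl (CvR.step ⟨cT0_2_12.down⟩ rfl (CvR.step ⟨(bnd_r cT0_2_11.down)⟩ rfl CvR.zero))) rfl <|
    CvB.step (b := 0) (q := 2) (CvR.step ⟨bnd_l cT0_0_9.down⟩ rfl (CvR.step ⟨cT0_0_8.down⟩ rfl CvR.zero)) rfl <|
    CvB.zero)
    (by decide +kernel)

theorem bT0_5 : JobB fT0 Am At (fun _ => At.b0) 5 :=
  CvB.job (b0 := 3) (y := 1) (n := 60) (lo := 0) (hi := 39)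
    (CvB.step (b := 36) (q := 3) (CvR.step ⟨(bnd_r cT0_36_3.down)⟩ rfl CvR.zero) rfl <|
    CvB.step (b := 30) (q := 6) (CvR.step ⟨cT0_30_11.down⟩ rfl (CvR.step ⟨cT0_30_10.down⟩ rfl CvR.zero)) rfl <|
    CvB.step (b := 24) (q := 6) (CvR.step ⟨cT0_24_18.down⟩ rfl (CvR.step ⟨cT0_24_17.down⟩ rfl (CvR.step ⟨cT0_24_16.down⟩ rfl CvR.zero))) rfl <|
    CvB.step (b := 21) (q := 3) (CvR.step ⟨bnd_l cT0_21_12.down⟩ rfl (CvR.step ⟨cT0_21_11.down⟩ rfl (CvR.step ⟨(bnd_r cT0_21_10.down)⟩ rfl CvR.zero))) rfl <|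
    CvB.step (b := 18) (q := 3) (CvR.step ⟨bnd_l cT0_18_14.down⟩ rfl (CvR.step ⟨cT0_18_13.down⟩ rfl (CvR.step ⟨cT0_18_12.down⟩ rfl CvR.zero))) rfl <|
    CvB.step (b := 15) (q := 3) (CvR.step ⟨bnd_l cT0_15_17.down⟩ rfl (CvR.step ⟨cT0_15_16.down⟩ rfl (CvR.step ⟨cT0_15_15.down⟩ rfl (CvR.step ⟨(bnd_r cT0_15_14.down)⟩ rfl CvR.zero)))) rfl <|
    CvB.step (b := 12) (q := 3) (CvR.step ⟨cT0_12_18.down⟩ rfl (CvR.step ⟨cT0_12_17.down⟩ rfl (CvR.step ⟨cT0_12_16.down⟩ rfl CvR.zero))) rfl <|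
    CvB.step (b := 10) (q := 2) (CvR.step ⟨bnd_l cT0_10_13.down⟩ rfl (CvR.step ⟨cT0_10_12.down⟩ rfl (CvR.step ⟨(bnd_r cT0_10_11.down)⟩ rfl CvR.zero))) rfl <|
    CvB.step (b := 8) (q := 2) (CvR.step ⟨bnd_l cT0_8_13.down⟩ rfl (CvR.step ⟨cT0_8_12.down⟩ rfl (CvR.step ⟨(bnd_r cT0_8_11.down)⟩ rfl CvR.zero))) rfl <|
    CvB.step (b := 6) (q := 2) (CvR.step ⟨cT0_6_14.down⟩ rfl (CvR.step ⟨cT0_6_13.down⟩ rfl (CvR.step ⟨(bnd_r cT0_6_12.down)⟩ rfl CvR.zero))) rfl <|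
    CvB.step (b := 4) (q := 2) (CvR.step ⟨bnd_l cT0_4_15.down⟩ rfl (CvR.step ⟨cT0_4_14.down⟩ rfl (CvR.step ⟨(bnd_r cT0_4_13.down)⟩ rfl CvR.zero))) rfl <|
    CvB.step (b := 2) (q := 2) (CvR.step ⟨bnd_l cT0_2_16.down⟩ rfl (CvR.step ⟨cT0_2_15.down⟩ rfl (CvR.step ⟨cT0_2_14.down⟩ rfl (CvR.step ⟨(bnd_r cT0_2_13.down)⟩ rfl CvR.zero)))) rfl <|
    CvB.step (b := 0) (q := 2) (CvR.step ⟨bnd_l cT0_0_11.down⟩ rfl (CvR.step ⟨cT0_0_10.down⟩ rfl (CvR.step ⟨(bnd_r cT0_0_9.down)⟩ rfl CvR.zero))) rfl <|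
    CvB.zero)
    (by decide +kernel)

theorem bT0_6 : JobB fT0 Am At (fun _ => At.b0) 6 :=
  CvB.job (b0 := 4) (y := 0) (n := 57) (lo := 0) (hi := 39)
    (CvB.step (b := 36) (q := 3) (CvR.step ⟨bnd_l cT0_36_4.down⟩ rfl CvR.zero) rfl <|
    CvB.step (b := 30) (q := 6) (CvR.step ⟨cT0_30_13.down⟩ rfl (CvR.step ⟨cT0_30_12.down⟩ rfl CvR.zero)) rfl <|
    CvB.step (b := 24) (q := 6) (CvR.step ⟨cT0_24_21.down⟩ rfl (CvR.step ⟨cT0_24_20.down⟩ rfl (CvR.step ⟨cT0_24_19.down⟩ rfl CvR.zero))) rfl <|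
    CvB.step (b := 21) (q := 3) (CvR.step ⟨bnd_l cT0_21_14.down⟩ rfl (CvR.step ⟨cT0_21_13.down⟩ rfl (CvR.step ⟨(bnd_r cT0_21_12.down)⟩ rfl CvR.zero))) rfl <|
    CvB.step (b := 18) (q := 3) (CvR.step ⟨bnd_l cT0_18_16.down⟩ rfl (CvR.step ⟨cT0_18_15.down⟩ rfl (CvR.step ⟨(bnd_r cT0_18_14.down)⟩ rfl CvR.zero))) rfl <|
    CvB.step (b := 15) (q := 3) (CvR.step ⟨cT0_15_19.down⟩ rfl (CvR.step ⟨cT0_15_18.down⟩ rfl (CvR.step ⟨(bnd_r cT0_15_17.down)⟩ rfl CvR.zero))) rfl <|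
    CvB.step (b := 12) (q := 3) (CvR.step ⟨cT0_12_21.down⟩ rfl (CvR.step ⟨cT0_12_20.down⟩ rfl (CvR.step ⟨cT0_12_19.down⟩ rfl CvR.zero))) rfl <|
    CvB.step (b := 10) (q := 2) (CvR.step ⟨cT0_10_15.down⟩ rfl (CvR.step ⟨cT0_10_14.down⟩ rfl (CvR.step ⟨(bnd_r cT0_10_13.down)⟩ rfl CvR.zero))) rfl <|
    CvB.step (b := 8) (q := 2) (CvR.step ⟨bnd_l cT0_8_15.down⟩ rfl (CvR.step ⟨cT0_8_14.down⟩ rfl (CvR.step ⟨(bnd_r cT0_8_13.down)⟩ rfl CvR.zero))) rfl <|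
    CvB.step (b := 6) (q := 2) (CvR.step ⟨bnd_l cT0_6_17.down⟩ rfl (CvR.step ⟨cT0_6_16.down⟩ rfl (CvR.step ⟨cT0_6_15.down⟩ rfl CvR.zero))) rfl <|
    CvB.step (b := 4) (q := 2) (CvR.step ⟨bnd_l cT0_4_18.down⟩ rfl (CvR.step ⟨cT0_4_17.down⟩ rfl (CvR.step ⟨cT0_4_16.down⟩ rfl (CvR.step ⟨(bnd_r cT0_4_15.down)⟩ rfl CvR.zero)))) rfl <|
    CvB.step (b := 2) (q := 2) (CvR.step ⟨bnd_l cT0_2_19.down⟩ rfl (CvR.step ⟨cT0_2_18.down⟩ rfl (CvR.step ⟨cT0_2_17.down⟩ rfl (CvR.step ⟨(bnd_r cT0_2_16.down)⟩ rfl CvR.zero)))) rfl <|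
    CvB.step (b := 0) (q := 2) (CvR.step ⟨bnd_l cT0_0_13.down⟩ rfl (CvR.step ⟨cT0_0_12.down⟩ rfl (CvR.step ⟨(bnd_r cT0_0_11.down)⟩ rfl CvR.zero))) rfl <|
    CvB.zero)
    (by decide +kernel)

theorem bT0_7 : JobB fT0 Am At (fun _ => At.b0) 7 :=
  CvB.job (b0 := 4) (y := 1) (n := 58) (lo := 0) (hi := 39)
    (CvB.step (b := 36) (q := 3) (CvR.step ⟨bnd_l cT0_36_5.down⟩ rfl (CvR.step ⟨(bnd_r cT0_36_4.down)⟩ rfl CvR.zero)) rfl <|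
    CvB.step (b := 30) (q := 6) (CvR.step ⟨cT0_30_15.down⟩ rfl (CvR.step ⟨cT0_30_14.down⟩ rfl CvR.zero)) rfl <|
    CvB.step (b := 24) (q := 6) (CvR.step ⟨cT0_24_24.down⟩ rfl (CvR.step ⟨cT0_24_23.down⟩ rfl (CvR.step ⟨cT0_24_22.down⟩ rfl CvR.zero))) rfl <|
    CvB.step (b := 21) (q := 3) (CvR.step ⟨bnd_l cT0_21_16.down⟩ rfl (CvR.step ⟨cT0_21_15.down⟩ rfl (CvR.step ⟨(bnd_r cT0_21_14.down)⟩ rfl CvR.zero))) rfl <|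
    CvB.step (b := 18) (q := 3) (CvR.step ⟨cT0_18_18.down⟩ rfl (CvR.step ⟨cT0_18_17.down⟩ rfl (CvR.step ⟨(bnd_r cT0_18_16.down)⟩ rfl CvR.zero))) rfl <|
    CvB.step (b := 15) (q := 3) (CvR.step ⟨bnd_l cT0_15_22.down⟩ rfl (CvR.step ⟨cT0_15_21.down⟩ rfl (CvR.step ⟨cT0_15_20.down⟩ rfl CvR.zero))) rfl <|
    CvB.step (b := 12) (q := 3) (CvR.step ⟨cT0_12_24.down⟩ rfl (CvR.step ⟨cT0_12_23.down⟩ rfl (CvR.step ⟨cT0_12_22.down⟩ rfl CvR.zero))) rfl <|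
    CvB.step (b := 10) (q := 2) (CvR.step ⟨cT0_10_17.down⟩ rfl (CvR.step ⟨cT0_10_16.down⟩ rfl CvR.zero)) rfl <|
    CvB.step (b := 8) (q := 2) (CvR.step ⟨cT0_8_17.down⟩ rfl (CvR.step ⟨cT0_8_16.down⟩ rfl (CvR.step ⟨(bnd_r cT0_8_15.down)⟩ rfl CvR.zero))) rfl <|
    CvB.step (b := 6) (q := 2) (CvR.step ⟨cT0_6_19.down⟩ rfl (CvR.step ⟨cT0_6_18.down⟩ rfl (CvR.step ⟨(bnd_r cT0_6_17.down)⟩ rfl CvR.zero))) rfl <|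
    CvB.step (b := 4) (q := 2) (CvR.step ⟨bnd_l cT0_4_20.down⟩ rfl (CvR.step ⟨cT0_4_19.down⟩ rfl (CvR.step ⟨(bnd_r cT0_4_18.down)⟩ rfl CvR.zero))) rfl <|
    CvB.step (b := 2) (q := 2) (CvR.step ⟨bnd_l cT0_2_21.down⟩ rfl (CvR.step ⟨cT0_2_20.down⟩ rfl (CvR.step ⟨(bnd_r cT0_2_19.down)⟩ rfl CvR.zero))) rfl <|
    CvB.step (b := 0) (q := 2) (CvR.step ⟨bnd_l cT0_0_15.down⟩ rfl (CvR.step ⟨cT0_0_14.down⟩ rfl (CvR.step ⟨(bnd_r cT0_0_13.down)⟩ rfl CvR.zero))) rfl <|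
    CvB.zero)
    (by decide +kernel)

theorem bT0_8 : JobB fT0 Am At (fun _ => At.b0) 8 :=
  CvB.job (b0 := 5) (y := 0) (n := 55) (lo := 0) (hi := 39)
    (CvB.step (b := 36) (q := 3) (CvR.step ⟨bnd_l (bnd_r cT0_36_5.down)⟩ rfl CvR.zero) rfl <|
    CvB.step (b := 30) (q := 6) (CvR.step ⟨cT0_30_17.down⟩ rfl (CvR.step ⟨cT0_30_16.down⟩ rfl CvR.zero)) rfl <|
    CvB.step (b := 24) (q := 6) (CvR.step ⟨cT0_24_27.down⟩ rfl (CvR.step ⟨cT0_24_26.down⟩ rfl (CvR.step ⟨cT0_24_25.down⟩ rfl CvR.zero))) rfl <|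
    CvB.step (b := 21) (q := 3) (CvR.step ⟨bnd_l cT0_21_18.down⟩ rfl (CvR.step ⟨cT0_21_17.down⟩ rfl (CvR.step ⟨(bnd_r cT0_21_16.down)⟩ rfl CvR.zero))) rfl <|
    CvB.step (b := 18) (q := 3) (CvR.step ⟨bnd_l cT0_18_21.down⟩ rfl (CvR.step ⟨cT0_18_20.down⟩ rfl (CvR.step ⟨cT0_18_19.down⟩ rfl CvR.zero))) rfl <|
    CvB.step (b := 15) (q := 3) (CvR.step ⟨cT0_15_24.down⟩ rfl (CvR.step ⟨cT0_15_23.down⟩ rfl (CvR.step ⟨(bnd_r cT0_15_22.down)⟩ rfl CvR.zero))) rfl <|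
    CvB.step (b := 12) (q := 3) (CvR.step ⟨cT0_12_27.down⟩ rfl (CvR.step ⟨cT0_12_26.down⟩ rfl (CvR.step ⟨cT0_12_25.down⟩ rfl CvR.zero))) rfl <|
    CvB.step (b := 10) (q := 2) (CvR.step ⟨cT0_10_19.down⟩ rfl (CvR.step ⟨cT0_10_18.down⟩ rfl CvR.zero)) rfl <|
    CvB.step (b := 8) (q := 2) (CvR.step ⟨cT0_8_19.down⟩ rfl (CvR.step ⟨cT0_8_18.down⟩ rfl CvR.zero)) rfl <|
    CvB.step (b := 6) (q := 2) (CvR.step ⟨bnd_l cT0_6_22.down⟩ rfl (CvR.step ⟨cT0_6_21.down⟩ rfl (CvR.step ⟨cT0_6_20.down⟩ rfl CvR.zero))) rfl <|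
    CvB.step (b := 4) (q := 2) (CvR.step ⟨bnd_l cT0_4_23.down⟩ rfl (CvR.step ⟨cT0_4_22.down⟩ rfl (CvR.step ⟨cT0_4_21.down⟩ rfl (CvR.step ⟨(bnd_r cT0_4_20.down)⟩ rfl CvR.zero)))) rfl <|
    CvB.step (b := 2) (q := 2) (CvR.step ⟨bnd_l cT0_2_24.down⟩ rfl (CvR.step ⟨cT0_2_23.down⟩ rfl (CvR.step ⟨cT0_2_22.down⟩ rfl (CvR.step ⟨(bnd_r cT0_2_21.down)⟩ rfl CvR.zero)))) rfl <|
    CvB.step (b := 0) (q := 2) (CvR.step ⟨bnd_l cT0_0_16.down⟩ rfl (CvR.step ⟨(bnd_r cT0_0_15.down)⟩ rfl CvR.zero)) rfl <|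
    CvB.zero)
    (by decide +kernel)

theorem bT0_9 : JobB fT0 Am At (fun _ => At.b0) 9 :=
  CvB.job (b0 := 5) (y := 1) (n := 56) (lo := 0) (hi := 39)
    (CvB.step (b := 36) (q := 3) (CvR.step ⟨bnd_l cT0_36_6.down⟩ rfl (CvR.step ⟨(bnd_r (bnd_r cT0_36_5.down))⟩ rfl CvR.zero)) rfl <|
    CvB.step (b := 30) (q := 6) (CvR.step ⟨cT0_30_19.down⟩ rfl (CvR.step ⟨cT0_30_18.down⟩ rfl CvR.zero)) rfl <|
    CvB.step (b := 24) (q := 6) (CvR.step ⟨cT0_24_30.down⟩ rfl (CvR.step ⟨cT0_24_29.down⟩ rfl (CvR.step ⟨cT0_24_28.down⟩ rfl CvR.zero))) rfl <|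
    CvB.step (b := 21) (q := 3) (CvR.step ⟨bnd_l cT0_21_20.down⟩ rfl (CvR.step ⟨cT0_21_19.down⟩ rfl (CvR.step ⟨(bnd_r cT0_21_18.down)⟩ rfl CvR.zero))) rfl <|
    CvB.step (b := 18) (q := 3) (CvR.step ⟨bnd_l cT0_18_23.down⟩ rfl (CvR.step ⟨cT0_18_22.down⟩ rfl (CvR.step ⟨(bnd_r cT0_18_21.down)⟩ rfl CvR.zero))) rfl <|
    CvB.step (b := 15) (q := 3) (CvR.step ⟨bnd_l cT0_15_27.down⟩ rfl (CvR.step ⟨cT0_15_26.down⟩ rfl (CvR.step ⟨cT0_15_25.down⟩ rfl CvR.zero))) rfl <|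
    CvB.step (b := 12) (q := 3) (CvR.step ⟨cT0_12_30.down⟩ rfl (CvR.step ⟨cT0_12_29.down⟩ rfl (CvR.step ⟨cT0_12_28.down⟩ rfl CvR.zero))) rfl <|
    CvB.step (b := 10) (q := 2) (CvR.step ⟨cT0_10_21.down⟩ rfl (CvR.step ⟨cT0_10_20.down⟩ rfl CvR.zero)) rfl <|
    CvB.step (b := 8) (q := 2) (CvR.step ⟨cT0_8_21.down⟩ rfl (CvR.step ⟨cT0_8_20.down⟩ rfl CvR.zero)) rfl <|
    CvB.step (b := 6) (q := 2) (CvR.step ⟨bnd_l cT0_6_24.down⟩ rfl (CvR.step ⟨cT0_6_23.down⟩ rfl (CvR.step ⟨(bnd_r cT0_6_22.down)⟩ rfl CvR.zero))) rfl <|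
    CvB.step (b := 4) (q := 2) (CvR.step ⟨bnd_l cT0_4_25.down⟩ rfl (CvR.step ⟨cT0_4_24.down⟩ rfl (CvR.step ⟨(bnd_r cT0_4_23.down)⟩ rfl CvR.zero))) rfl <|
    CvB.step (b := 2) (q := 2) (CvR.step ⟨bnd_l cT0_2_26.down⟩ rfl (CvR.step ⟨cT0_2_25.down⟩ rfl (CvR.step ⟨(bnd_r cT0_2_24.down)⟩ rfl CvR.zero))) rfl <|
    CvB.step (b := 0) (q := 2) (CvR.step ⟨bnd_l cT0_0_18.down⟩ rfl (CvR.step ⟨cT0_0_17.down⟩ rfl (CvR.step ⟨(bnd_r cT0_0_16.down)⟩ rfl CvR.zero))) rfl <|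
    CvB.zero)
    (by decide +kernel)

theorem bT0_10 : JobB fT0 Am At (fun _ => At.b0) 10 :=
  CvB.job (b0 := 6) (y := 0) (n := 53) (lo := 0) (hi := 39)
    (CvB.step (b := 36) (q := 3) (CvR.step ⟨(bnd_r cT0_36_6.down)⟩ rfl CvR.zero) rfl <|
    CvB.step (b := 30) (q := 6) (CvR.step ⟨cT0_30_21.down⟩ rfl (CvR.step ⟨cT0_30_20.down⟩ rfl CvR.zero)) rfl <|
    CvB.step (b := 24) (q := 6) (CvR.step ⟨bnd_l cT0_24_33.down⟩ rfl (CvR.step ⟨cT0_24_32.down⟩ rfl (CvR.step ⟨cT0_24_31.down⟩ rfl CvR.zero))) rfl <|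
    CvB.step (b := 21) (q := 3) (CvR.step ⟨bnd_l cT0_21_22.down⟩ rfl (CvR.step ⟨cT0_21_21.down⟩ rfl (CvR.step ⟨(bnd_r cT0_21_20.down)⟩ rfl CvR.zero))) rfl <|
    CvB.step (b := 18) (q := 3) (CvR.step ⟨bnd_l cT0_18_25.down⟩ rfl (CvR.step ⟨cT0_18_24.down⟩ rfl (CvR.step ⟨(bnd_r cT0_18_23.down)⟩ rfl CvR.zero))) rfl <|
    CvB.step (b := 15) (q := 3) (CvR.step ⟨cT0_15_29.down⟩ rfl (CvR.step ⟨cT0_15_28.down⟩ rfl (CvR.step ⟨(bnd_r cT0_15_27.down)⟩ rfl CvR.zero))) rfl <|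
    CvB.step (b := 12) (q := 3) (CvR.step ⟨cT0_12_33.down⟩ rfl (CvR.step ⟨cT0_12_32.down⟩ rfl (CvR.step ⟨cT0_12_31.down⟩ rfl CvR.zero))) rfl <|
    CvB.step (b := 10) (q := 2) (CvR.step ⟨cT0_10_23.down⟩ rfl (CvR.step ⟨cT0_10_22.down⟩ rfl CvR.zero)) rfl <|
    CvB.step (b := 8) (q := 2) (CvR.step ⟨cT0_8_23.down⟩ rfl (CvR.step ⟨cT0_8_22.down⟩ rfl CvR.zero)) rfl <|
    CvB.step (b := 6) (q := 2) (CvR.step ⟨bnd_l cT0_6_26.down⟩ rfl (CvR.step ⟨cT0_6_25.down⟩ rfl (CvR.step ⟨(bnd_r cT0_6_24.down)⟩ rfl CvR.zero))) rfl <|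
    CvB.step (b := 4) (q := 2) (CvR.step ⟨bnd_l cT0_4_27.down⟩ rfl (CvR.step ⟨cT0_4_26.down⟩ rfl (CvR.step ⟨(bnd_r cT0_4_25.down)⟩ rfl CvR.zero))) rfl <|
    CvB.step (b := 2) (q := 2) (CvR.step ⟨bnd_l cT0_2_29.down⟩ rfl (CvR.step ⟨cT0_2_28.down⟩ rfl (CvR.step ⟨cT0_2_27.down⟩ rfl (CvR.step ⟨(bnd_r cT0_2_26.down)⟩ rfl CvR.zero)))) rfl <|
    CvB.step (b := 0) (q := 2) (CvR.step ⟨cT0_0_19.down⟩ rfl (CvR.step ⟨(bnd_r cT0_0_18.down)⟩ rfl CvR.zero)) rfl <|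
    CvB.zero)
    (by decide +kernel)

theorem bT0_11 : JobB fT0 Am At (fun _ => At.b0) 11 :=
  CvB.job (b0 := 6) (y := 1) (n := 54) (lo := 0) (hi := 39)
    (CvB.step (b := 36) (q := 3) (CvR.step ⟨bnd_l cT0_36_7.down⟩ rfl CvR.zero) rfl <|
    CvB.step (b := 30) (q := 6) (CvR.step ⟨cT0_30_23.down⟩ rfl (CvR.step ⟨cT0_30_22.down⟩ rfl CvR.zero)) rfl <|
    CvB.step (b := 24) (q := 6) (CvR.step ⟨bnd_l cT0_24_36.down⟩ rfl (CvR.step ⟨cT0_24_35.down⟩ rfl (CvR.step ⟨cT0_24_34.down⟩ rfl (CvR.step ⟨(bnd_r cT0_24_33.down)⟩ rfl CvR.zero)))) rfl <|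
    CvB.step (b := 21) (q := 3) (CvR.step ⟨cT0_21_23.down⟩ rfl (CvR.step ⟨(bnd_r cT0_21_22.down)⟩ rfl CvR.zero)) rfl <|
    CvB.step (b := 18) (q := 3) (CvR.step ⟨bnd_l cT0_18_27.down⟩ rfl (CvR.step ⟨cT0_18_26.down⟩ rfl (CvR.step ⟨(bnd_r cT0_18_25.down)⟩ rfl CvR.zero))) rfl <|
    CvB.step (b := 15) (q := 3) (CvR.step ⟨bnd_l cT0_15_32.down⟩ rfl (CvR.step ⟨cT0_15_31.down⟩ rfl (CvR.step ⟨cT0_15_30.down⟩ rfl CvR.zero))) rfl <|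
    CvB.step (b := 12) (q := 3) (CvR.step ⟨cT0_12_36.down⟩ rfl (CvR.step ⟨cT0_12_35.down⟩ rfl (CvR.step ⟨cT0_12_34.down⟩ rfl CvR.zero))) rfl <|
    CvB.step (b := 10) (q := 2) (CvR.step ⟨cT0_10_25.down⟩ rfl (CvR.step ⟨cT0_10_24.down⟩ rfl CvR.zero)) rfl <|
    CvB.step (b := 8) (q := 2) (CvR.step ⟨cT0_8_25.down⟩ rfl (CvR.step ⟨cT0_8_24.down⟩ rfl CvR.zero)) rfl <|
    CvB.step (b := 6) (q := 2) (CvR.step ⟨cT0_6_28.down⟩ rfl (CvR.step ⟨cT0_6_27.down⟩ rfl (CvR.step ⟨(bnd_r cT0_6_26.down)⟩ rfl CvR.zero))) rfl <|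
    CvB.step (b := 4) (q := 2) (CvR.step ⟨bnd_l cT0_4_30.down⟩ rfl (CvR.step ⟨cT0_4_29.down⟩ rfl (CvR.step ⟨cT0_4_28.down⟩ rfl (CvR.step ⟨(bnd_r cT0_4_27.down)⟩ rfl CvR.zero)))) rfl <|
    CvB.step (b := 2) (q := 2) (CvR.step ⟨bnd_l cT0_2_31.down⟩ rfl (CvR.step ⟨cT0_2_30.down⟩ rfl (CvR.step ⟨(bnd_r cT0_2_29.down)⟩ rfl CvR.zero))) rfl <|
    CvB.step (b := 0) (q := 2) (CvR.step ⟨bnd_l cT0_0_21.down⟩ rfl (CvR.step ⟨cT0_0_20.down⟩ rfl CvR.zero)) rfl <|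
    CvB.zero)
    (by decide +kernel)

theorem bT0_12 : JobB fT0 Am At (fun _ => At.b0) 12 :=
  CvB.job (b0 := 7) (y := 0) (n := 51) (lo := 0) (hi := 39)
    (CvB.step (b := 36) (q := 3) (CvR.step ⟨bnd_l cT0_36_8.down⟩ rfl (CvR.step ⟨(bnd_r cT0_36_7.down)⟩ rfl CvR.zero)) rfl <|
    CvB.step (b := 30) (q := 6) (CvR.step ⟨bnd_l cT0_30_25.down⟩ rfl (CvR.step ⟨cT0_30_24.down⟩ rfl CvR.zero)) rfl <|
    CvB.step (b := 24) (q := 6) (CvR.step ⟨bnd_l cT0_24_39.down⟩ rfl (CvR.step ⟨cT0_24_38.down⟩ rfl (CvR.step ⟨cT0_24_37.down⟩ rfl (CvR.step ⟨(bnd_r cT0_24_36.down)⟩ rfl CvR.zero)))) rfl <|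
    CvB.step (b := 21) (q := 3) (CvR.step ⟨bnd_l cT0_21_25.down⟩ rfl (CvR.step ⟨cT0_21_24.down⟩ rfl CvR.zero)) rfl <|
    CvB.step (b := 18) (q := 3) (CvR.step ⟨bnd_l cT0_18_29.down⟩ rfl (CvR.step ⟨cT0_18_28.down⟩ rfl (CvR.step ⟨(bnd_r cT0_18_27.down)⟩ rfl CvR.zero))) rfl <|
    CvB.step (b := 15) (q := 3) (CvR.step ⟨bnd_l cT0_15_34.down⟩ rfl (CvR.step ⟨cT0_15_33.down⟩ rfl (CvR.step ⟨(bnd_r cT0_15_32.down)⟩ rfl CvR.zero))) rfl <|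
    CvB.step (b := 12) (q := 3) (CvR.step ⟨bnd_l cT0_12_39.down⟩ rfl (CvR.step ⟨cT0_12_38.down⟩ rfl (CvR.step ⟨cT0_12_37.down⟩ rfl CvR.zero))) rfl <|
    CvB.step (b := 10) (q := 2) (CvR.step ⟨cT0_10_27.down⟩ rfl (CvR.step ⟨cT0_10_26.down⟩ rfl CvR.zero)) rfl <|
    CvB.step (b := 8) (q := 2) (CvR.step ⟨bnd_l cT0_8_27.down⟩ rfl (CvR.step ⟨cT0_8_26.down⟩ rfl CvR.zero)) rfl <|
    CvB.step (b := 6) (q := 2) (CvR.step ⟨cT0_6_30.down⟩ rfl (CvR.step ⟨cT0_6_29.down⟩ rfl CvR.zero)) rfl <|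
    CvB.step (b := 4) (q := 2) (CvR.step ⟨bnd_l cT0_4_32.down⟩ rfl (CvR.step ⟨cT0_4_31.down⟩ rfl (CvR.step ⟨(bnd_r cT0_4_30.down)⟩ rfl CvR.zero))) rfl <|
    CvB.step (b := 2) (q := 2) (CvR.step ⟨bnd_l cT0_2_33.down⟩ rfl (CvR.step ⟨cT0_2_32.down⟩ rfl (CvR.step ⟨(bnd_r cT0_2_31.down)⟩ rfl CvR.zero))) rfl <|
    CvB.step (b := 0) (q := 2) (CvR.step ⟨bnd_l cT0_0_23.down⟩ rfl (CvR.step ⟨cT0_0_22.down⟩ rfl (CvR.step ⟨(bnd_r cT0_0_21.down)⟩ rfl CvR.zero))) rfl <|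
    CvB.zero)
    (by decide +kernel)

theorem bT0_13 : JobB fT0 Am At (fun _ => At.b0) 13 :=
  CvB.job (b0 := 7) (y := 1) (n := 52) (lo := 0) (hi := 39)
    (CvB.step (b := 36) (q := 3) (CvR.step ⟨bnd_l (bnd_r cT0_36_8.down)⟩ rfl CvR.zero) rfl <|
    CvB.step (b := 30) (q := 6) (CvR.step ⟨cT0_30_26.down⟩ rfl (CvR.step ⟨(bnd_r cT0_30_25.down)⟩ rfl CvR.zero)) rfl <|
    CvB.step (b := 24) (q := 6) (CvR.step ⟨bnd_l cT0_24_42.down⟩ rfl (CvR.step ⟨cT0_24_41.down⟩ rfl (CvR.step ⟨cT0_24_40.down⟩ rfl (CvR.step ⟨(bnd_r cT0_24_39.down)⟩ rfl CvR.zero)))) rfl <|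
    CvB.step (b := 21) (q := 3) (CvR.step ⟨bnd_l cT0_21_27.down⟩ rfl (CvR.step ⟨cT0_21_26.down⟩ rfl (CvR.step ⟨(bnd_r cT0_21_25.down)⟩ rfl CvR.zero))) rfl <|
    CvB.step (b := 18) (q := 3) (CvR.step ⟨bnd_l cT0_18_31.down⟩ rfl (CvR.step ⟨cT0_18_30.down⟩ rfl (CvR.step ⟨(bnd_r cT0_18_29.down)⟩ rfl CvR.zero))) rfl <|
    CvB.step (b := 15) (q := 3) (CvR.step ⟨cT0_15_36.down⟩ rfl (CvR.step ⟨cT0_15_35.down⟩ rfl (CvR.step ⟨(bnd_r cT0_15_34.down)⟩ rfl CvR.zero))) rfl <|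
    CvB.step (b := 12) (q := 3) (CvR.step ⟨bnd_l cT0_12_42.down⟩ rfl (CvR.step ⟨cT0_12_41.down⟩ rfl (CvR.step ⟨cT0_12_40.down⟩ rfl (CvR.step ⟨(bnd_r cT0_12_39.down)⟩ rfl CvR.zero)))) rfl <|
    CvB.step (b := 10) (q := 2) (CvR.step ⟨cT0_10_29.down⟩ rfl (CvR.step ⟨cT0_10_28.down⟩ rfl CvR.zero)) rfl <|
    CvB.step (b := 8) (q := 2) (CvR.step ⟨bnd_l cT0_8_29.down⟩ rfl (CvR.step ⟨cT0_8_28.down⟩ rfl (CvR.step ⟨(bnd_r cT0_8_27.down)⟩ rfl CvR.zero))) rfl <|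
    CvB.step (b := 6) (q := 2) (CvR.step ⟨cT0_6_32.down⟩ rfl (CvR.step ⟨cT0_6_31.down⟩ rfl CvR.zero)) rfl <|
    CvB.step (b := 4) (q := 2) (CvR.step ⟨bnd_l cT0_4_34.down⟩ rfl (CvR.step ⟨cT0_4_33.down⟩ rfl (CvR.step ⟨(bnd_r cT0_4_32.down)⟩ rfl CvR.zero))) rfl <|
    CvB.step (b := 2) (q := 2) (CvR.step ⟨bnd_l cT0_2_36.down⟩ rfl (CvR.step ⟨cT0_2_35.down⟩ rfl (CvR.step ⟨cT0_2_34.down⟩ rfl (CvR.step ⟨(bnd_r cT0_2_33.down)⟩ rfl CvR.zero)))) rfl <|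
    CvB.step (b := 0) (q := 2) (CvR.step ⟨bnd_l cT0_0_24.down⟩ rfl (CvR.step ⟨(bnd_r cT0_0_23.down)⟩ rfl CvR.zero)) rfl <|
    CvB.zero)
    (by decide +kernel)

theorem bT0_14 : JobB fT0 Am At (fun _ => At.b0) 14 :=
  CvB.job (b0 := 8) (y := 0) (n := 49) (lo := 0) (hi := 39)
    (CvB.step (b := 36) (q := 3) (CvR.step ⟨bnd_l cT0_36_9.down⟩ rfl (CvR.step ⟨(bnd_r (bnd_r cT0_36_8.down))⟩ rfl CvR.zero)) rfl <|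
    CvB.step (b := 30) (q := 6) (CvR.step ⟨bnd_l cT0_30_28.down⟩ rfl (CvR.step ⟨cT0_30_27.down⟩ rfl CvR.zero)) rfl <|
    CvB.step (b := 24) (q := 6) (CvR.step ⟨cT0_24_44.down⟩ rfl (CvR.step ⟨cT0_24_43.down⟩ rfl (CvR.step ⟨(bnd_r cT0_24_42.down)⟩ rfl CvR.zero))) rfl <|
    CvB.step (b := 21) (q := 3) (CvR.step ⟨bnd_l cT0_21_29.down⟩ rfl (CvR.step ⟨cT0_21_28.down⟩ rfl (CvR.step ⟨(bnd_r cT0_21_27.down)⟩ rfl CvR.zero))) rfl <|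
    CvB.step (b := 18) (q := 3) (CvR.step ⟨bnd_l cT0_18_33.down⟩ rfl (CvR.step ⟨cT0_18_32.down⟩ rfl (CvR.step ⟨(bnd_r cT0_18_31.down)⟩ rfl CvR.zero))) rfl <|
    CvB.step (b := 15) (q := 3) (CvR.step ⟨bnd_l cT0_15_39.down⟩ rfl (CvR.step ⟨cT0_15_38.down⟩ rfl (CvR.step ⟨cT0_15_37.down⟩ rfl CvR.zero))) rfl <|
    CvB.step (b := 12) (q := 3) (CvR.step ⟨cT0_12_44.down⟩ rfl (CvR.step ⟨cT0_12_43.down⟩ rfl (CvR.step ⟨(bnd_r cT0_12_42.down)⟩ rfl CvR.zero))) rfl <|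
    CvB.step (b := 10) (q := 2) (CvR.step ⟨cT0_10_31.down⟩ rfl (CvR.step ⟨cT0_10_30.down⟩ rfl CvR.zero)) rfl <|
    CvB.step (b := 8) (q := 2) (CvR.step ⟨bnd_l cT0_8_31.down⟩ rfl (CvR.step ⟨cT0_8_30.down⟩ rfl (CvR.step ⟨(bnd_r cT0_8_29.down)⟩ rfl CvR.zero))) rfl <|
    CvB.step (b := 6) (q := 2) (CvR.step ⟨cT0_6_34.down⟩ rfl (CvR.step ⟨cT0_6_33.down⟩ rfl CvR.zero)) rfl <|
    CvB.step (b := 4) (q := 2) (CvR.step ⟨bnd_l cT0_4_36.down⟩ rfl (CvR.step ⟨cT0_4_35.down⟩ rfl (CvR.step ⟨(bnd_r cT0_4_34.down)⟩ rfl CvR.zero))) rfl <|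
    CvB.step (b := 2) (q := 2) (CvR.step ⟨bnd_l cT0_2_38.down⟩ rfl (CvR.step ⟨cT0_2_37.down⟩ rfl (CvR.step ⟨(bnd_r cT0_2_36.down)⟩ rfl CvR.zero))) rfl <|
    CvB.step (b := 0) (q := 2) (CvR.step ⟨bnd_l cT0_0_26.down⟩ rfl (CvR.step ⟨cT0_0_25.down⟩ rfl (CvR.step ⟨(bnd_r cT0_0_24.down)⟩ rfl CvR.zero))) rfl <|
    CvB.zero)
    (by decide +kernel)

theorem bT0_15 : JobB fT0 Am At (fun _ => At.b0) 15 :=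
  CvB.job (b0 := 8) (y := 1) (n := 50) (lo := 0) (hi := 39)
    (CvB.step (b := 36) (q := 3) (CvR.step ⟨bnd_l (bnd_r cT0_36_9.down)⟩ rfl CvR.zero) rfl <|
    CvB.step (b := 30) (q := 6) (CvR.step ⟨cT0_30_29.down⟩ rfl (CvR.step ⟨(bnd_r cT0_30_28.down)⟩ rfl CvR.zero)) rfl <|
    CvB.step (b := 24) (q := 6) (CvR.step ⟨bnd_l cT0_24_47.down⟩ rfl (CvR.step ⟨cT0_24_46.down⟩ rfl (CvR.step ⟨cT0_24_45.down⟩ rfl CvR.zero))) rfl <|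
    CvB.step (b := 21) (q := 3) (CvR.step ⟨cT0_21_30.down⟩ rfl (CvR.step ⟨(bnd_r cT0_21_29.down)⟩ rfl CvR.zero)) rfl <|
    CvB.step (b := 18) (q := 3) (CvR.step ⟨bnd_l cT0_18_35.down⟩ rfl (CvR.step ⟨cT0_18_34.down⟩ rfl (CvR.step ⟨(bnd_r cT0_18_33.down)⟩ rfl CvR.zero))) rfl <|
    CvB.step (b := 15) (q := 3) (CvR.step ⟨bnd_l cT0_15_41.down⟩ rfl (CvR.step ⟨cT0_15_40.down⟩ rfl (CvR.step ⟨(bnd_r cT0_15_39.down)⟩ rfl CvR.zero))) rfl <|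
    CvB.step (b := 12) (q := 3) (CvR.step ⟨bnd_l cT0_12_47.down⟩ rfl (CvR.step ⟨cT0_12_46.down⟩ rfl (CvR.step ⟨cT0_12_45.down⟩ rfl CvR.zero))) rfl <|
    CvB.step (b := 10) (q := 2) (CvR.step ⟨cT0_10_33.down⟩ rfl (CvR.step ⟨cT0_10_32.down⟩ rfl CvR.zero)) rfl <|
    CvB.step (b := 8) (q := 2) (CvR.step ⟨bnd_l cT0_8_33.down⟩ rfl (CvR.step ⟨cT0_8_32.down⟩ rfl (CvR.step ⟨(bnd_r cT0_8_31.down)⟩ rfl CvR.zero))) rfl <|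
    CvB.step (b := 6) (q := 2) (CvR.step ⟨cT0_6_36.down⟩ rfl (CvR.step ⟨cT0_6_35.down⟩ rfl CvR.zero)) rfl <|
    CvB.step (b := 4) (q := 2) (CvR.step ⟨bnd_l cT0_4_38.down⟩ rfl (CvR.step ⟨cT0_4_37.down⟩ rfl (CvR.step ⟨(bnd_r cT0_4_36.down)⟩ rfl CvR.zero))) rfl <|
    CvB.step (b := 2) (q := 2) (CvR.step ⟨bnd_l cT0_2_40.down⟩ rfl (CvR.step ⟨cT0_2_39.down⟩ rfl (CvR.step ⟨(bnd_r cT0_2_38.down)⟩ rfl CvR.zero))) rfl <|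
    CvB.step (b := 0) (q := 2) (CvR.step ⟨bnd_l cT0_0_27.down⟩ rfl (CvR.step ⟨(bnd_r cT0_0_26.down)⟩ rfl CvR.zero)) rfl <|
    CvB.zero)
    (by decide +kernel)

theorem bT0_16 : JobB fT0 Am At (fun _ => At.b0) 16 :=
  CvB.job (b0 := 9) (y := 0) (n := 47) (lo := 0) (hi := 39)
    (CvB.step (b := 36) (q := 3) (CvR.step ⟨bnd_l cT0_36_10.down⟩ rfl (CvR.step ⟨(bnd_r (bnd_r cT0_36_9.down))⟩ rfl CvR.zero)) rfl <|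
    CvB.step (b := 30) (q := 6) (CvR.step ⟨bnd_l cT0_30_31.down⟩ rfl (CvR.step ⟨cT0_30_30.down⟩ rfl CvR.zero)) rfl <|
    CvB.step (b := 24) (q := 6) (CvR.step ⟨bnd_l cT0_24_50.down⟩ rfl (CvR.step ⟨cT0_24_49.down⟩ rfl (CvR.step ⟨cT0_24_48.down⟩ rfl (CvR.step ⟨(bnd_r cT0_24_47.down)⟩ rfl CvR.zero)))) rfl <|
    CvB.step (b := 21) (q := 3) (CvR.step ⟨bnd_l cT0_21_32.down⟩ rfl (CvR.step ⟨cT0_21_31.down⟩ rfl CvR.zero)) rfl <|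
    CvB.step (b := 18) (q := 3) (CvR.step ⟨bnd_l cT0_18_37.down⟩ rfl (CvR.step ⟨cT0_18_36.down⟩ rfl (CvR.step ⟨(bnd_r cT0_18_35.down)⟩ rfl CvR.zero))) rfl <|
    CvB.step (b := 15) (q := 3) (CvR.step ⟨bnd_l cT0_15_43.down⟩ rfl (CvR.step ⟨cT0_15_42.down⟩ rfl (CvR.step ⟨(bnd_r cT0_15_41.down)⟩ rfl CvR.zero))) rfl <|
    CvB.step (b := 12) (q := 3) (CvR.step ⟨cT0_12_49.down⟩ rfl (CvR.step ⟨cT0_12_48.down⟩ rfl (CvR.step ⟨(bnd_r cT0_12_47.down)⟩ rfl CvR.zero))) rfl <|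
    CvB.step (b := 10) (q := 2) (CvR.step ⟨cT0_10_35.down⟩ rfl (CvR.step ⟨cT0_10_34.down⟩ rfl CvR.zero)) rfl <|
    CvB.step (b := 8) (q := 2) (CvR.step ⟨bnd_l cT0_8_35.down⟩ rfl (CvR.step ⟨cT0_8_34.down⟩ rfl (CvR.step ⟨(bnd_r cT0_8_33.down)⟩ rfl CvR.zero))) rfl <|
    CvB.step (b := 6) (q := 2) (CvR.step ⟨cT0_6_38.down⟩ rfl (CvR.step ⟨cT0_6_37.down⟩ rfl CvR.zero)) rfl <|
    CvB.step (b := 4) (q := 2) (CvR.step ⟨bnd_l cT0_4_40.down⟩ rfl (CvR.step ⟨cT0_4_39.down⟩ rfl (CvR.step ⟨(bnd_r cT0_4_38.down)⟩ rfl CvR.zero))) rfl <|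
    CvB.step (b := 2) (q := 2) (CvR.step ⟨bnd_l cT0_2_42.down⟩ rfl (CvR.step ⟨cT0_2_41.down⟩ rfl (CvR.step ⟨(bnd_r cT0_2_40.down)⟩ rfl CvR.zero))) rfl <|
    CvB.step (b := 0) (q := 2) (CvR.step ⟨bnd_l cT0_0_29.down⟩ rfl (CvR.step ⟨cT0_0_28.down⟩ rfl (CvR.step ⟨(bnd_r cT0_0_27.down)⟩ rfl CvR.zero))) rfl <|
    CvB.zero)
    (by decide +kernel)

theorem bT0_17 : JobB fT0 Am At (fun _ => At.b0) 17 :=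
  CvB.job (b0 := 9) (y := 1) (n := 48) (lo := 0) (hi := 39)
    (CvB.step (b := 36) (q := 3) (CvR.step ⟨bnd_l (bnd_r cT0_36_10.down)⟩ rfl CvR.zero) rfl <|
    CvB.step (b := 30) (q := 6) (CvR.step ⟨cT0_30_32.down⟩ rfl (CvR.step ⟨(bnd_r cT0_30_31.down)⟩ rfl CvR.zero)) rfl <|
    CvB.step (b := 24) (q := 6) (CvR.step ⟨cT0_24_52.down⟩ rfl (CvR.step ⟨cT0_24_51.down⟩ rfl (CvR.step ⟨(bnd_r cT0_24_50.down)⟩ rfl CvR.zero))) rfl <|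
    CvB.step (b := 21) (q := 3) (CvR.step ⟨bnd_l cT0_21_34.down⟩ rfl (CvR.step ⟨cT0_21_33.down⟩ rfl (CvR.step ⟨(bnd_r cT0_21_32.down)⟩ rfl CvR.zero))) rfl <|
    CvB.step (b := 18) (q := 3) (CvR.step ⟨bnd_l cT0_18_39.down⟩ rfl (CvR.step ⟨cT0_18_38.down⟩ rfl (CvR.step ⟨(bnd_r cT0_18_37.down)⟩ rfl CvR.zero))) rfl <|
    CvB.step (b := 15) (q := 3) (CvR.step ⟨cT0_15_45.down⟩ rfl (CvR.step ⟨cT0_15_44.down⟩ rfl (CvR.step ⟨(bnd_r cT0_15_43.down)⟩ rfl CvR.zero))) rfl <|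
    CvB.step (b := 12) (q := 3) (CvR.step ⟨bnd_l cT0_12_52.down⟩ rfl (CvR.step ⟨cT0_12_51.down⟩ rfl (CvR.step ⟨cT0_12_50.down⟩ rfl CvR.zero))) rfl <|
    CvB.step (b := 10) (q := 2) (CvR.step ⟨cT0_10_37.down⟩ rfl (CvR.step ⟨cT0_10_36.down⟩ rfl CvR.zero)) rfl <|
    CvB.step (b := 8) (q := 2) (CvR.step ⟨bnd_l cT0_8_37.down⟩ rfl (CvR.step ⟨cT0_8_36.down⟩ rfl (CvR.step ⟨(bnd_r cT0_8_35.down)⟩ rfl CvR.zero))) rfl <|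
    CvB.step (b := 6) (q := 2) (CvR.step ⟨cT0_6_40.down⟩ rfl (CvR.step ⟨cT0_6_39.down⟩ rfl CvR.zero)) rfl <|
    CvB.step (b := 4) (q := 2) (CvR.step ⟨cT0_4_42.down⟩ rfl (CvR.step ⟨cT0_4_41.down⟩ rfl (CvR.step ⟨(bnd_r cT0_4_40.down)⟩ rfl CvR.zero))) rfl <|
    CvB.step (b := 2) (q := 2) (CvR.step ⟨cT0_2_44.down⟩ rfl (CvR.step ⟨cT0_2_43.down⟩ rfl (CvR.step ⟨(bnd_r cT0_2_42.down)⟩ rfl CvR.zero))) rfl <|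
    CvB.step (b := 0) (q := 2) (CvR.step ⟨bnd_l cT0_0_30.down⟩ rfl (CvR.step ⟨(bnd_r cT0_0_29.down)⟩ rfl CvR.zero)) rfl <|
    CvB.zero)
    (by decide +kernel)

theorem bT0_18 : JobB fT0 Am At (fun _ => At.b0) 18 :=
  CvB.job (b0 := 10) (y := 0) (n := 45) (lo := 0) (hi := 39)
    (CvB.step (b := 36) (q := 3) (CvR.step ⟨bnd_l cT0_36_11.down⟩ rfl (CvR.step ⟨(bnd_r (bnd_r cT0_36_10.down))⟩ rfl CvR.zero)) rfl <|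
    CvB.step (b := 30) (q := 6) (CvR.step ⟨bnd_l cT0_30_34.down⟩ rfl (CvR.step ⟨cT0_30_33.down⟩ rfl CvR.zero)) rfl <|
    CvB.step (b := 24) (q := 6) (CvR.step ⟨bnd_l cT0_24_55.down⟩ rfl (CvR.step ⟨cT0_24_54.down⟩ rfl (CvR.step ⟨cT0_24_53.down⟩ rfl CvR.zero))) rfl <|
    CvB.step (b := 21) (q := 3) (CvR.step ⟨cT0_21_35.down⟩ rfl (CvR.step ⟨(bnd_r cT0_21_34.down)⟩ rfl CvR.zero)) rfl <|
    CvB.step (b := 18) (q := 3) (CvR.step ⟨cT0_18_40.down⟩ rfl (CvR.step ⟨(bnd_r cT0_18_39.down)⟩ rfl CvR.zero)) rfl <|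
    CvB.step (b := 15) (q := 3) (CvR.step ⟨cT0_15_47.down⟩ rfl (CvR.step ⟨cT0_15_46.down⟩ rfl CvR.zero)) rfl <|
    CvB.step (b := 12) (q := 3) (CvR.step ⟨cT0_12_54.down⟩ rfl (CvR.step ⟨cT0_12_53.down⟩ rfl (CvR.step ⟨(bnd_r cT0_12_52.down)⟩ rfl CvR.zero))) rfl <|
    CvB.step (b := 10) (q := 2) (CvR.step ⟨cT0_10_39.down⟩ rfl (CvR.step ⟨cT0_10_38.down⟩ rfl CvR.zero)) rfl <|
    CvB.step (b := 8) (q := 2) (CvR.step ⟨cT0_8_38.down⟩ rfl (CvR.step ⟨(bnd_r cT0_8_37.down)⟩ rfl CvR.zero)) rfl <|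
    CvB.step (b := 6) (q := 2) (CvR.step ⟨cT0_6_42.down⟩ rfl (CvR.step ⟨cT0_6_41.down⟩ rfl CvR.zero)) rfl <|
    CvB.step (b := 4) (q := 2) (CvR.step ⟨bnd_l cT0_4_44.down⟩ rfl (CvR.step ⟨cT0_4_43.down⟩ rfl CvR.zero)) rfl <|
    CvB.step (b := 2) (q := 2) (CvR.step ⟨cT0_2_46.down⟩ rfl (CvR.step ⟨cT0_2_45.down⟩ rfl CvR.zero)) rfl <|
    CvB.step (b := 0) (q := 2) (CvR.step ⟨cT0_0_31.down⟩ rfl (CvR.step ⟨(bnd_r cT0_0_30.down)⟩ rfl CvR.zero)) rfl <|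
    CvB.zero)
    (by decide +kernel)

theorem bT0_19 : JobB fT0 Am At (fun _ => At.b0) 19 :=
  CvB.job (b0 := 10) (y := 1) (n := 46) (lo := 0) (hi := 39)
    (CvB.step (b := 36) (q := 3) (CvR.step ⟨bnd_l (bnd_r cT0_36_11.down)⟩ rfl CvR.zero) rfl <|
    CvB.step (b := 30) (q := 6) (CvR.step ⟨cT0_30_35.down⟩ rfl (CvR.step ⟨(bnd_r cT0_30_34.down)⟩ rfl CvR.zero)) rfl <|
    CvB.step (b := 24) (q := 6) (CvR.step ⟨cT0_24_57.down⟩ rfl (CvR.step ⟨cT0_24_56.down⟩ rfl (CvR.step ⟨(bnd_r cT0_24_55.down)⟩ rfl CvR.zero))) rfl <|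
    CvB.step (b := 21) (q := 3) (CvR.step ⟨bnd_l cT0_21_37.down⟩ rfl (CvR.step ⟨cT0_21_36.down⟩ rfl CvR.zero)) rfl <|
    CvB.step (b := 18) (q := 3) (CvR.step ⟨cT0_18_42.down⟩ rfl (CvR.step ⟨cT0_18_41.down⟩ rfl CvR.zero)) rfl <|
    CvB.step (b := 15) (q := 3) (CvR.step ⟨cT0_15_49.down⟩ rfl (CvR.step ⟨cT0_15_48.down⟩ rfl CvR.zero)) rfl <|
    CvB.step (b := 12) (q := 3) (CvR.step ⟨bnd_l cT0_12_57.down⟩ rfl (CvR.step ⟨cT0_12_56.down⟩ rfl (CvR.step ⟨cT0_12_55.down⟩ rfl CvR.zero))) rfl <|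
    CvB.step (b := 10) (q := 2) (CvR.step ⟨cT0_10_41.down⟩ rfl (CvR.step ⟨cT0_10_40.down⟩ rfl CvR.zero)) rfl <|
    CvB.step (b := 8) (q := 2) (CvR.step ⟨bnd_l cT0_8_40.down⟩ rfl (CvR.step ⟨cT0_8_39.down⟩ rfl CvR.zero)) rfl <|
    CvB.step (b := 6) (q := 2) (CvR.step ⟨cT0_6_44.down⟩ rfl (CvR.step ⟨cT0_6_43.down⟩ rfl CvR.zero)) rfl <|
    CvB.step (b := 4) (q := 2) (CvR.step ⟨bnd_l cT0_4_46.down⟩ rfl (CvR.step ⟨cT0_4_45.down⟩ rfl (CvR.step ⟨(bnd_r cT0_4_44.down)⟩ rfl CvR.zero))) rfl <|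
    CvB.step (b := 2) (q := 2) (CvR.step ⟨cT0_2_48.down⟩ rfl (CvR.step ⟨cT0_2_47.down⟩ rfl CvR.zero)) rfl <|
    CvB.step (b := 0) (q := 2) (CvR.step ⟨bnd_l cT0_0_33.down⟩ rfl (CvR.step ⟨cT0_0_32.down⟩ rfl CvR.zero)) rfl <|
    CvB.zero)
    (by decide +kernel)

theorem bT0_20 : JobB fT0 Am At (fun _ => At.b0) 20 :=
  CvB.job (b0 := 11) (y := 0) (n := 43) (lo := 0) (hi := 39)
    (CvB.step (b := 36) (q := 3) (CvR.step ⟨(bnd_r (bnd_r cT0_36_11.down))⟩ rfl CvR.zero) rfl <|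
    CvB.step (b := 30) (q := 6) (CvR.step ⟨bnd_l cT0_30_37.down⟩ rfl (CvR.step ⟨cT0_30_36.down⟩ rfl CvR.zero)) rfl <|
    CvB.step (b := 24) (q := 6) (CvR.step ⟨bnd_l cT0_24_60.down⟩ rfl (CvR.step ⟨cT0_24_59.down⟩ rfl (CvR.step ⟨cT0_24_58.down⟩ rfl CvR.zero))) rfl <|
    CvB.step (b := 21) (q := 3) (CvR.step ⟨bnd_l cT0_21_39.down⟩ rfl (CvR.step ⟨cT0_21_38.down⟩ rfl (CvR.step ⟨(bnd_r cT0_21_37.down)⟩ rfl CvR.zero))) rfl <|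
    CvB.step (b := 18) (q := 3) (CvR.step ⟨bnd_l cT0_18_44.down⟩ rfl (CvR.step ⟨cT0_18_43.down⟩ rfl CvR.zero)) rfl <|
    CvB.step (b := 15) (q := 3) (CvR.step ⟨cT0_15_51.down⟩ rfl (CvR.step ⟨cT0_15_50.down⟩ rfl CvR.zero)) rfl <|
    CvB.step (b := 12) (q := 3) (CvR.step ⟨bnd_l cT0_12_59.down⟩ rfl (CvR.step ⟨cT0_12_58.down⟩ rfl (CvR.step ⟨(bnd_r cT0_12_57.down)⟩ rfl CvR.zero))) rfl <|
    CvB.step (b := 10) (q := 2) (CvR.step ⟨bnd_l cT0_10_43.down⟩ rfl (CvR.step ⟨cT0_10_42.down⟩ rfl CvR.zero)) rfl <|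
    CvB.step (b := 8) (q := 2) (CvR.step ⟨bnd_l cT0_8_42.down⟩ rfl (CvR.step ⟨cT0_8_41.down⟩ rfl (CvR.step ⟨(bnd_r cT0_8_40.down)⟩ rfl CvR.zero))) rfl <|
    CvB.step (b := 6) (q := 2) (CvR.step ⟨cT0_6_46.down⟩ rfl (CvR.step ⟨cT0_6_45.down⟩ rfl CvR.zero)) rfl <|
    CvB.step (b := 4) (q := 2) (CvR.step ⟨bnd_l cT0_4_48.down⟩ rfl (CvR.step ⟨cT0_4_47.down⟩ rfl (CvR.step ⟨(bnd_r cT0_4_46.down)⟩ rfl CvR.zero))) rfl <|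
    CvB.step (b := 2) (q := 2) (CvR.step ⟨cT0_2_50.down⟩ rfl (CvR.step ⟨cT0_2_49.down⟩ rfl CvR.zero)) rfl <|
    CvB.step (b := 0) (q := 2) (CvR.step ⟨bnd_l cT0_0_34.down⟩ rfl (CvR.step ⟨(bnd_r cT0_0_33.down)⟩ rfl CvR.zero)) rfl <|
    CvB.zero)
    (by decide +kernel)

theorem bT0_21 : JobB fT0 Am At (fun _ => At.b0) 21 :=
  CvB.job (b0 := 11) (y := 1) (n := 44) (lo := 0) (hi := 39)
    (CvB.step (b := 36) (q := 3) (CvR.step ⟨bnd_l cT0_36_12.down⟩ rfl CvR.zero) rfl <|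
    CvB.step (b := 30) (q := 6) (CvR.step ⟨cT0_30_38.down⟩ rfl (CvR.step ⟨(bnd_r cT0_30_37.down)⟩ rfl CvR.zero)) rfl <|
    CvB.step (b := 24) (q := 6) (CvR.step ⟨cT0_24_62.down⟩ rfl (CvR.step ⟨cT0_24_61.down⟩ rfl (CvR.step ⟨(bnd_r cT0_24_60.down)⟩ rfl CvR.zero))) rfl <|
    CvB.step (b := 21) (q := 3) (CvR.step ⟨bnd_l cT0_21_40.down⟩ rfl (CvR.step ⟨(bnd_r cT0_21_39.down)⟩ rfl CvR.zero)) rfl <|
    CvB.step (b := 18) (q := 3) (CvR.step ⟨bnd_l cT0_18_46.down⟩ rfl (CvR.step ⟨cT0_18_45.down⟩ rfl (CvR.step ⟨(bnd_r cT0_18_44.down)⟩ rfl CvR.zero))) rfl <|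
    CvB.step (b := 15) (q := 3) (CvR.step ⟨cT0_15_53.down⟩ rfl (CvR.step ⟨cT0_15_52.down⟩ rfl CvR.zero)) rfl <|
    CvB.step (b := 12) (q := 3) (CvR.step ⟨cT0_12_61.down⟩ rfl (CvR.step ⟨cT0_12_60.down⟩ rfl (CvR.step ⟨(bnd_r cT0_12_59.down)⟩ rfl CvR.zero))) rfl <|
    CvB.step (b := 10) (q := 2) (CvR.step ⟨bnd_l cT0_10_45.down⟩ rfl (CvR.step ⟨cT0_10_44.down⟩ rfl (CvR.step ⟨(bnd_r cT0_10_43.down)⟩ rfl CvR.zero))) rfl <|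
    CvB.step (b := 8) (q := 2) (CvR.step ⟨cT0_8_43.down⟩ rfl (CvR.step ⟨(bnd_r cT0_8_42.down)⟩ rfl CvR.zero)) rfl <|
    CvB.step (b := 6) (q := 2) (CvR.step ⟨cT0_6_48.down⟩ rfl (CvR.step ⟨cT0_6_47.down⟩ rfl CvR.zero)) rfl <|
    CvB.step (b := 4) (q := 2) (CvR.step ⟨bnd_l cT0_4_50.down⟩ rfl (CvR.step ⟨cT0_4_49.down⟩ rfl (CvR.step ⟨(bnd_r cT0_4_48.down)⟩ rfl CvR.zero))) rfl <|
    CvB.step (b := 2) (q := 2) (CvR.step ⟨cT0_2_52.down⟩ rfl (CvR.step ⟨cT0_2_51.down⟩ rfl CvR.zero)) rfl <|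
    CvB.step (b := 0) (q := 2) (CvR.step ⟨cT0_0_35.down⟩ rfl (CvR.step ⟨(bnd_r cT0_0_34.down)⟩ rfl CvR.zero)) rfl <|
    CvB.zero)
    (by decide +kernel)

theorem bT0_22 : JobB fT0 Am At (fun _ => At.b0) 22 :=
  CvB.job (b0 := 12) (y := 0) (n := 41) (lo := 0) (hi := 39)
    (CvB.step (b := 36) (q := 3) (CvR.step ⟨(bnd_r cT0_36_12.down)⟩ rfl CvR.zero) rfl <|
    CvB.step (b := 30) (q := 6) (CvR.step ⟨bnd_l cT0_30_40.down⟩ rfl (CvR.step ⟨cT0_30_39.down⟩ rfl CvR.zero)) rfl <|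
    CvB.step (b := 24) (q := 6) (CvR.step ⟨bnd_l cT0_24_65.down⟩ rfl (CvR.step ⟨cT0_24_64.down⟩ rfl (CvR.step ⟨cT0_24_63.down⟩ rfl CvR.zero))) rfl <|
    CvB.step (b := 21) (q := 3) (CvR.step ⟨bnd_l cT0_21_42.down⟩ rfl (CvR.step ⟨cT0_21_41.down⟩ rfl (CvR.step ⟨(bnd_r cT0_21_40.down)⟩ rfl CvR.zero))) rfl <|
    CvB.step (b := 18) (q := 3) (CvR.step ⟨cT0_18_47.down⟩ rfl (CvR.step ⟨(bnd_r cT0_18_46.down)⟩ rfl CvR.zero)) rfl <|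
    CvB.step (b := 15) (q := 3) (CvR.step ⟨cT0_15_55.down⟩ rfl (CvR.step ⟨cT0_15_54.down⟩ rfl CvR.zero)) rfl <|
    CvB.step (b := 12) (q := 3) (CvR.step ⟨bnd_l cT0_12_64.down⟩ rfl (CvR.step ⟨cT0_12_63.down⟩ rfl (CvR.step ⟨cT0_12_62.down⟩ rfl CvR.zero))) rfl <|
    CvB.step (b := 10) (q := 2) (CvR.step ⟨cT0_10_46.down⟩ rfl (CvR.step ⟨(bnd_r cT0_10_45.down)⟩ rfl CvR.zero)) rfl <|
    CvB.step (b := 8) (q := 2) (CvR.step ⟨bnd_l cT0_8_45.down⟩ rfl (CvR.step ⟨cT0_8_44.down⟩ rfl CvR.zero)) rfl <|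
    CvB.step (b := 6) (q := 2) (CvR.step ⟨cT0_6_50.down⟩ rfl (CvR.step ⟨cT0_6_49.down⟩ rfl CvR.zero)) rfl <|
    CvB.step (b := 4) (q := 2) (CvR.step ⟨bnd_l cT0_4_52.down⟩ rfl (CvR.step ⟨cT0_4_51.down⟩ rfl (CvR.step ⟨(bnd_r cT0_4_50.down)⟩ rfl CvR.zero))) rfl <|
    CvB.step (b := 2) (q := 2) (CvR.step ⟨bnd_l cT0_2_54.down⟩ rfl (CvR.step ⟨cT0_2_53.down⟩ rfl CvR.zero)) rfl <|
    CvB.step (b := 0) (q := 2) (CvR.step ⟨bnd_l cT0_0_37.down⟩ rfl (CvR.step ⟨cT0_0_36.down⟩ rfl CvR.zero)) rfl <|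
    CvB.zero)
    (by decide +kernel)

theorem bT0_23 : JobB fT0 Am At (fun _ => At.b0) 23 :=
  CvB.job (b0 := 12) (y := 1) (n := 42) (lo := 0) (hi := 39)
    (CvB.step (b := 36) (q := 3) (CvR.step ⟨bnd_l cT0_36_13.down⟩ rfl CvR.zero) rfl <|
    CvB.step (b := 30) (q := 6) (CvR.step ⟨bnd_l cT0_30_41.down⟩ rfl (CvR.step ⟨(bnd_r cT0_30_40.down)⟩ rfl CvR.zero)) rfl <|
    CvB.step (b := 24) (q := 6) (CvR.step ⟨bnd_l cT0_24_67.down⟩ rfl (CvR.step ⟨cT0_24_66.down⟩ rfl (CvR.step ⟨(bnd_r cT0_24_65.down)⟩ rfl CvR.zero))) rfl <|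
    CvB.step (b := 21) (q := 3) (CvR.step ⟨bnd_l cT0_21_43.down⟩ rfl (CvR.step ⟨(bnd_r cT0_21_42.down)⟩ rfl CvR.zero)) rfl <|
    CvB.step (b := 18) (q := 3) (CvR.step ⟨bnd_l cT0_18_49.down⟩ rfl (CvR.step ⟨cT0_18_48.down⟩ rfl CvR.zero)) rfl <|
    CvB.step (b := 15) (q := 3) (CvR.step ⟨cT0_15_57.down⟩ rfl (CvR.step ⟨cT0_15_56.down⟩ rfl CvR.zero)) rfl <|
    CvB.step (b := 12) (q := 3) (CvR.step ⟨bnd_l cT0_12_66.down⟩ rfl (CvR.step ⟨cT0_12_65.down⟩ rfl (CvR.step ⟨(bnd_r cT0_12_64.down)⟩ rfl CvR.zero))) rfl <|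
    CvB.step (b := 10) (q := 2) (CvR.step ⟨bnd_l cT0_10_48.down⟩ rfl (CvR.step ⟨cT0_10_47.down⟩ rfl CvR.zero)) rfl <|
    CvB.step (b := 8) (q := 2) (CvR.step ⟨bnd_l cT0_8_47.down⟩ rfl (CvR.step ⟨cT0_8_46.down⟩ rfl (CvR.step ⟨(bnd_r cT0_8_45.down)⟩ rfl CvR.zero))) rfl <|
    CvB.step (b := 6) (q := 2) (CvR.step ⟨cT0_6_52.down⟩ rfl (CvR.step ⟨cT0_6_51.down⟩ rfl CvR.zero)) rfl <|
    CvB.step (b := 4) (q := 2) (CvR.step ⟨bnd_l cT0_4_54.down⟩ rfl (CvR.step ⟨cT0_4_53.down⟩ rfl (CvR.step ⟨(bnd_r cT0_4_52.down)⟩ rfl CvR.zero))) rfl <|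
    CvB.step (b := 2) (q := 2) (CvR.step ⟨bnd_l cT0_2_56.down⟩ rfl (CvR.step ⟨cT0_2_55.down⟩ rfl (CvR.step ⟨(bnd_r cT0_2_54.down)⟩ rfl CvR.zero))) rfl <|
    CvB.step (b := 0) (q := 2) (CvR.step ⟨bnd_l cT0_0_38.down⟩ rfl (CvR.step ⟨(bnd_r cT0_0_37.down)⟩ rfl CvR.zero)) rfl <|
    CvB.zero)
    (by decide +kernel)

theorem bT0_24 : JobB fT0 Am At (fun _ => At.b0) 24 :=
  CvB.job (b0 := 13) (y := 0) (n := 39) (lo := 0) (hi := 39)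
    (CvB.step (b := 36) (q := 3) (CvR.step ⟨(bnd_r cT0_36_13.down)⟩ rfl CvR.zero) rfl <|
    CvB.step (b := 30) (q := 6) (CvR.step ⟨cT0_30_42.down⟩ rfl (CvR.step ⟨(bnd_r cT0_30_41.down)⟩ rfl CvR.zero)) rfl <|
    CvB.step (b := 24) (q := 6) (CvR.step ⟨bnd_l cT0_24_69.down⟩ rfl (CvR.step ⟨cT0_24_68.down⟩ rfl (CvR.step ⟨(bnd_r cT0_24_67.down)⟩ rfl CvR.zero))) rfl <|
    CvB.step (b := 21) (q := 3) (CvR.step ⟨cT0_21_44.down⟩ rfl (CvR.step ⟨(bnd_r cT0_21_43.down)⟩ rfl CvR.zero)) rfl <|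
    CvB.step (b := 18) (q := 3) (CvR.step ⟨bnd_l cT0_18_51.down⟩ rfl (CvR.step ⟨cT0_18_50.down⟩ rfl (CvR.step ⟨(bnd_r cT0_18_49.down)⟩ rfl CvR.zero))) rfl <|
    CvB.step (b := 15) (q := 3) (CvR.step ⟨cT0_15_59.down⟩ rfl (CvR.step ⟨cT0_15_58.down⟩ rfl CvR.zero)) rfl <|
    CvB.step (b := 12) (q := 3) (CvR.step ⟨bnd_l cT0_12_68.down⟩ rfl (CvR.step ⟨cT0_12_67.down⟩ rfl (CvR.step ⟨(bnd_r cT0_12_66.down)⟩ rfl CvR.zero))) rfl <|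
    CvB.step (b := 10) (q := 2) (CvR.step ⟨cT0_10_49.down⟩ rfl (CvR.step ⟨(bnd_r cT0_10_48.down)⟩ rfl CvR.zero)) rfl <|
    CvB.step (b := 8) (q := 2) (CvR.step ⟨bnd_l cT0_8_48.down⟩ rfl (CvR.step ⟨(bnd_r cT0_8_47.down)⟩ rfl CvR.zero)) rfl <|
    CvB.step (b := 6) (q := 2) (CvR.step ⟨cT0_6_54.down⟩ rfl (CvR.step ⟨cT0_6_53.down⟩ rfl CvR.zero)) rfl <|
    CvB.step (b := 4) (q := 2) (CvR.step ⟨cT0_4_55.down⟩ rfl (CvR.step ⟨(bnd_r cT0_4_54.down)⟩ rfl CvR.zero)) rfl <|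
    CvB.step (b := 2) (q := 2) (CvR.step ⟨bnd_l cT0_2_58.down⟩ rfl (CvR.step ⟨cT0_2_57.down⟩ rfl (CvR.step ⟨(bnd_r cT0_2_56.down)⟩ rfl CvR.zero))) rfl <|
    CvB.step (b := 0) (q := 2) (CvR.step ⟨bnd_l cT0_0_39.down⟩ rfl (CvR.step ⟨(bnd_r cT0_0_38.down)⟩ rfl CvR.zero)) rfl <|
    CvB.zero)
    (by decide +kernel)

theorem bT0_25 : JobB fT0 Am At (fun _ => At.b0) 25 :=
  CvB.job (b0 := 13) (y := 1) (n := 40) (lo := 0) (hi := 39)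
    (CvB.step (b := 36) (q := 3) (CvR.step ⟨bnd_l cT0_36_14.down⟩ rfl CvR.zero) rfl <|
    CvB.step (b := 30) (q := 6) (CvR.step ⟨cT0_30_43.down⟩ rfl CvR.zero) rfl <|
    CvB.step (b := 24) (q := 6) (CvR.step ⟨cT0_24_71.down⟩ rfl (CvR.step ⟨cT0_24_70.down⟩ rfl (CvR.step ⟨(bnd_r cT0_24_69.down)⟩ rfl CvR.zero))) rfl <|
    CvB.step (b := 21) (q := 3) (CvR.step ⟨bnd_l cT0_21_46.down⟩ rfl (CvR.step ⟨cT0_21_45.down⟩ rfl CvR.zero)) rfl <|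
    CvB.step (b := 18) (q := 3) (CvR.step ⟨cT0_18_52.down⟩ rfl (CvR.step ⟨(bnd_r cT0_18_51.down)⟩ rfl CvR.zero)) rfl <|
    CvB.step (b := 15) (q := 3) (CvR.step ⟨cT0_15_61.down⟩ rfl (CvR.step ⟨cT0_15_60.down⟩ rfl CvR.zero)) rfl <|
    CvB.step (b := 12) (q := 3) (CvR.step ⟨bnd_l cT0_12_70.down⟩ rfl (CvR.step ⟨cT0_12_69.down⟩ rfl (CvR.step ⟨(bnd_r cT0_12_68.down)⟩ rfl CvR.zero))) rfl <|
    CvB.step (b := 10) (q := 2) (CvR.step ⟨bnd_l cT0_10_51.down⟩ rfl (CvR.step ⟨cT0_10_50.down⟩ rfl CvR.zero)) rfl <|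
    CvB.step (b := 8) (q := 2) (CvR.step ⟨bnd_l cT0_8_50.down⟩ rfl (CvR.step ⟨cT0_8_49.down⟩ rfl (CvR.step ⟨(bnd_r cT0_8_48.down)⟩ rfl CvR.zero))) rfl <|
    CvB.step (b := 6) (q := 2) (CvR.step ⟨cT0_6_56.down⟩ rfl (CvR.step ⟨cT0_6_55.down⟩ rfl CvR.zero)) rfl <|
    CvB.step (b := 4) (q := 2) (CvR.step ⟨bnd_l cT0_4_57.down⟩ rfl (CvR.step ⟨cT0_4_56.down⟩ rfl CvR.zero)) rfl <|
    CvB.step (b := 2) (q := 2) (CvR.step ⟨bnd_l cT0_2_60.down⟩ rfl (CvR.step ⟨cT0_2_59.down⟩ rfl (CvR.step ⟨(bnd_r cT0_2_58.down)⟩ rfl CvR.zero))) rfl <|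
    CvB.step (b := 0) (q := 2) (CvR.step ⟨cT0_0_40.down⟩ rfl (CvR.step ⟨(bnd_r cT0_0_39.down)⟩ rfl CvR.zero)) rfl <|
    CvB.zero)
    (by decide +kernel)

theorem bT0_26 : JobB fT0 Am At (fun _ => At.b0) 26 :=
  CvB.job (b0 := 14) (y := 0) (n := 37) (lo := 0) (hi := 39)
    (CvB.step (b := 36) (q := 3) (CvR.step ⟨(bnd_r cT0_36_14.down)⟩ rfl CvR.zero) rfl <|
    CvB.step (b := 30) (q := 6) (CvR.step ⟨cT0_30_44.down⟩ rfl CvR.zero) rfl <|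
    CvB.step (b := 24) (q := 6) (CvR.step ⟨cT0_24_73.down⟩ rfl (CvR.step ⟨cT0_24_72.down⟩ rfl CvR.zero)) rfl <|
    CvB.step (b := 21) (q := 3) (CvR.step ⟨bnd_l cT0_21_47.down⟩ rfl (CvR.step ⟨(bnd_r cT0_21_46.down)⟩ rfl CvR.zero)) rfl <|
    CvB.step (b := 18) (q := 3) (CvR.step ⟨bnd_l cT0_18_54.down⟩ rfl (CvR.step ⟨cT0_18_53.down⟩ rfl CvR.zero)) rfl <|
    CvB.step (b := 15) (q := 3) (CvR.step ⟨bnd_l cT0_15_63.down⟩ rfl (CvR.step ⟨cT0_15_62.down⟩ rfl CvR.zero)) rfl <|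
    CvB.step (b := 12) (q := 3) (CvR.step ⟨bnd_l cT0_12_72.down⟩ rfl (CvR.step ⟨cT0_12_71.down⟩ rfl (CvR.step ⟨(bnd_r cT0_12_70.down)⟩ rfl CvR.zero))) rfl <|
    CvB.step (b := 10) (q := 2) (CvR.step ⟨cT0_10_52.down⟩ rfl (CvR.step ⟨(bnd_r cT0_10_51.down)⟩ rfl CvR.zero)) rfl <|
    CvB.step (b := 8) (q := 2) (CvR.step ⟨bnd_l cT0_8_51.down⟩ rfl (CvR.step ⟨(bnd_r cT0_8_50.down)⟩ rfl CvR.zero)) rfl <|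
    CvB.step (b := 6) (q := 2) (CvR.step ⟨bnd_l cT0_6_58.down⟩ rfl (CvR.step ⟨cT0_6_57.down⟩ rfl CvR.zero)) rfl <|
    CvB.step (b := 4) (q := 2) (CvR.step ⟨bnd_l cT0_4_59.down⟩ rfl (CvR.step ⟨cT0_4_58.down⟩ rfl (CvR.step ⟨(bnd_r cT0_4_57.down)⟩ rfl CvR.zero))) rfl <|
    CvB.step (b := 2) (q := 2) (CvR.step ⟨cT0_2_61.down⟩ rfl (CvR.step ⟨(bnd_r cT0_2_60.down)⟩ rfl CvR.zero)) rfl <|
    CvB.step (b := 0) (q := 2) (CvR.step ⟨bnd_l cT0_0_42.down⟩ rfl (CvR.step ⟨cT0_0_41.down⟩ rfl CvR.zero)) rfl <|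
    CvB.zero)
    (by decide +kernel)

theorem bT0_27 : JobB fT0 Am At (fun _ => At.b0) 27 :=
  CvB.job (b0 := 14) (y := 1) (n := 38) (lo := 0) (hi := 39)
    (CvB.step (b := 36) (q := 3) (CvR.step ⟨bnd_l cT0_36_15.down⟩ rfl CvR.zero) rfl <|
    CvB.step (b := 30) (q := 6) (CvR.step ⟨cT0_30_45.down⟩ rfl CvR.zero) rfl <|
    CvB.step (b := 24) (q := 6) (CvR.step ⟨cT0_24_75.down⟩ rfl (CvR.step ⟨cT0_24_74.down⟩ rfl CvR.zero)) rfl <|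
    CvB.step (b := 21) (q := 3) (CvR.step ⟨cT0_21_48.down⟩ rfl (CvR.step ⟨(bnd_r cT0_21_47.down)⟩ rfl CvR.zero)) rfl <|
    CvB.step (b := 18) (q := 3) (CvR.step ⟨cT0_18_55.down⟩ rfl (CvR.step ⟨(bnd_r cT0_18_54.down)⟩ rfl CvR.zero)) rfl <|
    CvB.step (b := 15) (q := 3) (CvR.step ⟨bnd_l cT0_15_65.down⟩ rfl (CvR.step ⟨cT0_15_64.down⟩ rfl (CvR.step ⟨(bnd_r cT0_15_63.down)⟩ rfl CvR.zero))) rfl <|
    CvB.step (b := 12) (q := 3) (CvR.step ⟨bnd_l cT0_12_74.down⟩ rfl (CvR.step ⟨cT0_12_73.down⟩ rfl (CvR.step ⟨(bnd_r cT0_12_72.down)⟩ rfl CvR.zero))) rfl <|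
    CvB.step (b := 10) (q := 2) (CvR.step ⟨bnd_l cT0_10_54.down⟩ rfl (CvR.step ⟨cT0_10_53.down⟩ rfl CvR.zero)) rfl <|
    CvB.step (b := 8) (q := 2) (CvR.step ⟨cT0_8_52.down⟩ rfl (CvR.step ⟨(bnd_r cT0_8_51.down)⟩ rfl CvR.zero)) rfl <|
    CvB.step (b := 6) (q := 2) (CvR.step ⟨cT0_6_59.down⟩ rfl (CvR.step ⟨(bnd_r cT0_6_58.down)⟩ rfl CvR.zero)) rfl <|
    CvB.step (b := 4) (q := 2) (CvR.step ⟨cT0_4_60.down⟩ rfl (CvR.step ⟨(bnd_r cT0_4_59.down)⟩ rfl CvR.zero)) rfl <|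
    CvB.step (b := 2) (q := 2) (CvR.step ⟨bnd_l cT0_2_63.down⟩ rfl (CvR.step ⟨cT0_2_62.down⟩ rfl CvR.zero)) rfl <|
    CvB.step (b := 0) (q := 2) (CvR.step ⟨bnd_l cT0_0_43.down⟩ rfl (CvR.step ⟨(bnd_r cT0_0_42.down)⟩ rfl CvR.zero)) rfl <|
    CvB.zero)
    (by decide +kernel)

theorem bT0_28 : JobB fT0 Am At (fun _ => At.b0) 28 :=
  CvB.job (b0 := 15) (y := 0) (n := 35) (lo := 0) (hi := 39)
    (CvB.step (b := 36) (q := 3) (CvR.step ⟨(bnd_r cT0_36_15.down)⟩ rfl CvR.zero) rfl <|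
    CvB.step (b := 30) (q := 6) (CvR.step ⟨cT0_30_46.down⟩ rfl CvR.zero) rfl <|
    CvB.step (b := 24) (q := 6) (CvR.step ⟨cT0_24_77.down⟩ rfl (CvR.step ⟨cT0_24_76.down⟩ rfl CvR.zero)) rfl <|
    CvB.step (b := 21) (q := 3) (CvR.step ⟨bnd_l cT0_21_50.down⟩ rfl (CvR.step ⟨cT0_21_49.down⟩ rfl CvR.zero)) rfl <|
    CvB.step (b := 18) (q := 3) (CvR.step ⟨bnd_l cT0_18_57.down⟩ rfl (CvR.step ⟨cT0_18_56.down⟩ rfl CvR.zero)) rfl <|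
    CvB.step (b := 15) (q := 3) (CvR.step ⟨cT0_15_66.down⟩ rfl (CvR.step ⟨(bnd_r cT0_15_65.down)⟩ rfl CvR.zero)) rfl <|
    CvB.step (b := 12) (q := 3) (CvR.step ⟨bnd_l cT0_12_76.down⟩ rfl (CvR.step ⟨cT0_12_75.down⟩ rfl (CvR.step ⟨(bnd_r cT0_12_74.down)⟩ rfl CvR.zero))) rfl <|
    CvB.step (b := 10) (q := 2) (CvR.step ⟨cT0_10_55.down⟩ rfl (CvR.step ⟨(bnd_r cT0_10_54.down)⟩ rfl CvR.zero)) rfl <|
    CvB.step (b := 8) (q := 2) (CvR.step ⟨bnd_l cT0_8_54.down⟩ rfl (CvR.step ⟨cT0_8_53.down⟩ rfl CvR.zero)) rfl <|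
    CvB.step (b := 6) (q := 2) (CvR.step ⟨bnd_l cT0_6_61.down⟩ rfl (CvR.step ⟨cT0_6_60.down⟩ rfl CvR.zero)) rfl <|
    CvB.step (b := 4) (q := 2) (CvR.step ⟨bnd_l cT0_4_62.down⟩ rfl (CvR.step ⟨cT0_4_61.down⟩ rfl CvR.zero)) rfl <|
    CvB.step (b := 2) (q := 2) (CvR.step ⟨bnd_l cT0_2_65.down⟩ rfl (CvR.step ⟨cT0_2_64.down⟩ rfl (CvR.step ⟨(bnd_r cT0_2_63.down)⟩ rfl CvR.zero))) rfl <|
    CvB.step (b := 0) (q := 2) (CvR.step ⟨bnd_l cT0_0_44.down⟩ rfl (CvR.step ⟨(bnd_r cT0_0_43.down)⟩ rfl CvR.zero)) rfl <|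
    CvB.zero)
    (by decide +kernel)

theorem bT0_29 : JobB fT0 Am At (fun _ => At.b0) 29 :=
  CvB.job (b0 := 15) (y := 1) (n := 36) (lo := 0) (hi := 39)
    (CvB.step (b := 36) (q := 3) (CvR.step ⟨bnd_l cT0_36_16.down⟩ rfl CvR.zero) rfl <|
    CvB.step (b := 30) (q := 6) (CvR.step ⟨cT0_30_47.down⟩ rfl CvR.zero) rfl <|
    CvB.step (b := 24) (q := 6) (CvR.step ⟨cT0_24_79.down⟩ rfl (CvR.step ⟨cT0_24_78.down⟩ rfl CvR.zero)) rfl <|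
    CvB.step (b := 21) (q := 3) (CvR.step ⟨bnd_l cT0_21_51.down⟩ rfl (CvR.step ⟨(bnd_r cT0_21_50.down)⟩ rfl CvR.zero)) rfl <|
    CvB.step (b := 18) (q := 3) (CvR.step ⟨cT0_18_58.down⟩ rfl (CvR.step ⟨(bnd_r cT0_18_57.down)⟩ rfl CvR.zero)) rfl <|
    CvB.step (b := 15) (q := 3) (CvR.step ⟨bnd_l cT0_15_68.down⟩ rfl (CvR.step ⟨cT0_15_67.down⟩ rfl CvR.zero)) rfl <|
    CvB.step (b := 12) (q := 3) (CvR.step ⟨bnd_l cT0_12_78.down⟩ rfl (CvR.step ⟨cT0_12_77.down⟩ rfl (CvR.step ⟨(bnd_r cT0_12_76.down)⟩ rfl CvR.zero))) rfl <|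
    CvB.step (b := 10) (q := 2) (CvR.step ⟨bnd_l cT0_10_57.down⟩ rfl (CvR.step ⟨cT0_10_56.down⟩ rfl CvR.zero)) rfl <|
    CvB.step (b := 8) (q := 2) (CvR.step ⟨bnd_l cT0_8_55.down⟩ rfl (CvR.step ⟨(bnd_r cT0_8_54.down)⟩ rfl CvR.zero)) rfl <|
    CvB.step (b := 6) (q := 2) (CvR.step ⟨cT0_6_62.down⟩ rfl (CvR.step ⟨(bnd_r cT0_6_61.down)⟩ rfl CvR.zero)) rfl <|
    CvB.step (b := 4) (q := 2) (CvR.step ⟨bnd_l cT0_4_64.down⟩ rfl (CvR.step ⟨cT0_4_63.down⟩ rfl (CvR.step ⟨(bnd_r cT0_4_62.down)⟩ rfl CvR.zero))) rfl <|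
    CvB.step (b := 2) (q := 2) (CvR.step ⟨cT0_2_66.down⟩ rfl (CvR.step ⟨(bnd_r cT0_2_65.down)⟩ rfl CvR.zero)) rfl <|
    CvB.step (b := 0) (q := 2) (CvR.step ⟨bnd_l cT0_0_45.down⟩ rfl (CvR.step ⟨(bnd_r cT0_0_44.down)⟩ rfl CvR.zero)) rfl <|
    CvB.zero)
    (by decide +kernel)

theorem bT0_30 : JobB fT0 Am At (fun _ => At.b0) 30 :=
  CvB.job (b0 := 16) (y := 0) (n := 33) (lo := 0) (hi := 39)
    (CvB.step (b := 36) (q := 3) (CvR.step ⟨bnd_l (bnd_r cT0_36_16.down)⟩ rfl CvR.zero) rfl <|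
    CvB.step (b := 30) (q := 6) (CvR.step ⟨cT0_30_48.down⟩ rfl CvR.zero) rfl <|
    CvB.step (b := 24) (q := 6) (CvR.step ⟨bnd_l cT0_24_81.down⟩ rfl (CvR.step ⟨cT0_24_80.down⟩ rfl CvR.zero)) rfl <|
    CvB.step (b := 21) (q := 3) (CvR.step ⟨bnd_l cT0_21_52.down⟩ rfl (CvR.step ⟨(bnd_r cT0_21_51.down)⟩ rfl CvR.zero)) rfl <|
    CvB.step (b := 18) (q := 3) (CvR.step ⟨bnd_l cT0_18_60.down⟩ rfl (CvR.step ⟨cT0_18_59.down⟩ rfl CvR.zero)) rfl <|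
    CvB.step (b := 15) (q := 3) (CvR.step ⟨bnd_l cT0_15_70.down⟩ rfl (CvR.step ⟨cT0_15_69.down⟩ rfl (CvR.step ⟨(bnd_r cT0_15_68.down)⟩ rfl CvR.zero))) rfl <|
    CvB.step (b := 12) (q := 3) (CvR.step ⟨cT0_12_79.down⟩ rfl (CvR.step ⟨(bnd_r cT0_12_78.down)⟩ rfl CvR.zero)) rfl <|
    CvB.step (b := 10) (q := 2) (CvR.step ⟨bnd_l cT0_10_58.down⟩ rfl (CvR.step ⟨(bnd_r cT0_10_57.down)⟩ rfl CvR.zero)) rfl <|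
    CvB.step (b := 8) (q := 2) (CvR.step ⟨cT0_8_56.down⟩ rfl (CvR.step ⟨(bnd_r cT0_8_55.down)⟩ rfl CvR.zero)) rfl <|
    CvB.step (b := 6) (q := 2) (CvR.step ⟨bnd_l cT0_6_64.down⟩ rfl (CvR.step ⟨cT0_6_63.down⟩ rfl CvR.zero)) rfl <|
    CvB.step (b := 4) (q := 2) (CvR.step ⟨bnd_l cT0_4_65.down⟩ rfl (CvR.step ⟨(bnd_r cT0_4_64.down)⟩ rfl CvR.zero)) rfl <|
    CvB.step (b := 2) (q := 2) (CvR.step ⟨bnd_l cT0_2_68.down⟩ rfl (CvR.step ⟨cT0_2_67.down⟩ rfl CvR.zero)) rfl <|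
    CvB.step (b := 0) (q := 2) (CvR.step ⟨bnd_l cT0_0_46.down⟩ rfl (CvR.step ⟨(bnd_r cT0_0_45.down)⟩ rfl CvR.zero)) rfl <|
    CvB.zero)
    (by decide +kernel)

theorem bT0_31 : JobB fT0 Am At (fun _ => At.b0) 31 :=
  CvB.job (b0 := 16) (y := 1) (n := 34) (lo := 0) (hi := 39)
    (CvB.step (b := 36) (q := 3) (CvR.step ⟨bnd_l cT0_36_17.down⟩ rfl (CvR.step ⟨(bnd_r (bnd_r cT0_36_16.down))⟩ rfl CvR.zero)) rfl <|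
    CvB.step (b := 30) (q := 6) (CvR.step ⟨cT0_30_49.down⟩ rfl CvR.zero) rfl <|
    CvB.step (b := 24) (q := 6) (CvR.step ⟨bnd_l cT0_24_83.down⟩ rfl (CvR.step ⟨cT0_24_82.down⟩ rfl (CvR.step ⟨(bnd_r cT0_24_81.down)⟩ rfl CvR.zero))) rfl <|
    CvB.step (b := 21) (q := 3) (CvR.step ⟨cT0_21_53.down⟩ rfl (CvR.step ⟨(bnd_r cT0_21_52.down)⟩ rfl CvR.zero)) rfl <|
    CvB.step (b := 18) (q := 3) (CvR.step ⟨bnd_l cT0_18_61.down⟩ rfl (CvR.step ⟨(bnd_r cT0_18_60.down)⟩ rfl CvR.zero)) rfl <|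
    CvB.step (b := 15) (q := 3) (CvR.step ⟨bnd_l cT0_15_71.down⟩ rfl (CvR.step ⟨(bnd_r cT0_15_70.down)⟩ rfl CvR.zero)) rfl <|
    CvB.step (b := 12) (q := 3) (CvR.step ⟨cT0_12_81.down⟩ rfl (CvR.step ⟨cT0_12_80.down⟩ rfl CvR.zero)) rfl <|
    CvB.step (b := 10) (q := 2) (CvR.step ⟨cT0_10_59.down⟩ rfl (CvR.step ⟨(bnd_r cT0_10_58.down)⟩ rfl CvR.zero)) rfl <|
    CvB.step (b := 8) (q := 2) (CvR.step ⟨bnd_l cT0_8_58.down⟩ rfl (CvR.step ⟨cT0_8_57.down⟩ rfl CvR.zero)) rfl <|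
    CvB.step (b := 6) (q := 2) (CvR.step ⟨cT0_6_65.down⟩ rfl (CvR.step ⟨(bnd_r cT0_6_64.down)⟩ rfl CvR.zero)) rfl <|
    CvB.step (b := 4) (q := 2) (CvR.step ⟨cT0_4_66.down⟩ rfl (CvR.step ⟨(bnd_r cT0_4_65.down)⟩ rfl CvR.zero)) rfl <|
    CvB.step (b := 2) (q := 2) (CvR.step ⟨cT0_2_69.down⟩ rfl (CvR.step ⟨(bnd_r cT0_2_68.down)⟩ rfl CvR.zero)) rfl <|
    CvB.step (b := 0) (q := 2) (CvR.step ⟨bnd_l cT0_0_47.down⟩ rfl (CvR.step ⟨(bnd_r cT0_0_46.down)⟩ rfl CvR.zero)) rfl <|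
    CvB.zero)
    (by decide +kernel)

theorem bT0_32 : JobB fT0 Am At (fun _ => At.b0) 32 :=
  CvB.job (b0 := 17) (y := 0) (n := 31) (lo := 0) (hi := 39)
    (CvB.step (b := 36) (q := 3) (CvR.step ⟨bnd_l (bnd_r cT0_36_17.down)⟩ rfl CvR.zero) rfl <|
    CvB.step (b := 30) (q := 6) (CvR.step ⟨cT0_30_50.down⟩ rfl CvR.zero) rfl <|
    CvB.step (b := 24) (q := 6) (CvR.step ⟨bnd_l cT0_24_85.down⟩ rfl (CvR.step ⟨cT0_24_84.down⟩ rfl (CvR.step ⟨(bnd_r cT0_24_83.down)⟩ rfl CvR.zero))) rfl <|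
    CvB.step (b := 21) (q := 3) (CvR.step ⟨cT0_21_54.down⟩ rfl CvR.zero) rfl <|
    CvB.step (b := 18) (q := 3) (CvR.step ⟨cT0_18_62.down⟩ rfl (CvR.step ⟨(bnd_r cT0_18_61.down)⟩ rfl CvR.zero)) rfl <|
    CvB.step (b := 15) (q := 3) (CvR.step ⟨bnd_l cT0_15_73.down⟩ rfl (CvR.step ⟨cT0_15_72.down⟩ rfl (CvR.step ⟨(bnd_r cT0_15_71.down)⟩ rfl CvR.zero))) rfl <|
    CvB.step (b := 12) (q := 3) (CvR.step ⟨bnd_l cT0_12_83.down⟩ rfl (CvR.step ⟨cT0_12_82.down⟩ rfl CvR.zero)) rfl <|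
    CvB.step (b := 10) (q := 2) (CvR.step ⟨bnd_l cT0_10_61.down⟩ rfl (CvR.step ⟨cT0_10_60.down⟩ rfl CvR.zero)) rfl <|
    CvB.step (b := 8) (q := 2) (CvR.step ⟨bnd_l cT0_8_59.down⟩ rfl (CvR.step ⟨(bnd_r cT0_8_58.down)⟩ rfl CvR.zero)) rfl <|
    CvB.step (b := 6) (q := 2) (CvR.step ⟨bnd_l cT0_6_67.down⟩ rfl (CvR.step ⟨cT0_6_66.down⟩ rfl CvR.zero)) rfl <|
    CvB.step (b := 4) (q := 2) (CvR.step ⟨bnd_l cT0_4_68.down⟩ rfl (CvR.step ⟨cT0_4_67.down⟩ rfl CvR.zero)) rfl <|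
    CvB.step (b := 2) (q := 2) (CvR.step ⟨bnd_l cT0_2_71.down⟩ rfl (CvR.step ⟨cT0_2_70.down⟩ rfl CvR.zero)) rfl <|
    CvB.step (b := 0) (q := 2) (CvR.step ⟨bnd_l cT0_0_48.down⟩ rfl (CvR.step ⟨(bnd_r cT0_0_47.down)⟩ rfl CvR.zero)) rfl <|
    CvB.zero)
    (by decide +kernel)

theorem bT0_33 : JobB fT0 Am At (fun _ => At.b0) 33 :=
  CvB.job (b0 := 17) (y := 1) (n := 32) (lo := 0) (hi := 39)
    (CvB.step (b := 36) (q := 3) (CvR.step ⟨(bnd_r (bnd_r cT0_36_17.down))⟩ rfl CvR.zero) rfl <|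
    CvB.step (b := 30) (q := 6) (CvR.step ⟨cT0_30_51.down⟩ rfl CvR.zero) rfl <|
    CvB.step (b := 24) (q := 6) (CvR.step ⟨cT0_24_86.down⟩ rfl (CvR.step ⟨(bnd_r cT0_24_85.down)⟩ rfl CvR.zero)) rfl <|
    CvB.step (b := 21) (q := 3) (CvR.step ⟨bnd_l cT0_21_56.down⟩ rfl (CvR.step ⟨cT0_21_55.down⟩ rfl CvR.zero)) rfl <|
    CvB.step (b := 18) (q := 3) (CvR.step ⟨bnd_l cT0_18_64.down⟩ rfl (CvR.step ⟨cT0_18_63.down⟩ rfl CvR.zero)) rfl <|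
    CvB.step (b := 15) (q := 3) (CvR.step ⟨bnd_l cT0_15_74.down⟩ rfl (CvR.step ⟨(bnd_r cT0_15_73.down)⟩ rfl CvR.zero)) rfl <|
    CvB.step (b := 12) (q := 3) (CvR.step ⟨bnd_l cT0_12_85.down⟩ rfl (CvR.step ⟨cT0_12_84.down⟩ rfl (CvR.step ⟨(bnd_r cT0_12_83.down)⟩ rfl CvR.zero))) rfl <|
    CvB.step (b := 10) (q := 2) (CvR.step ⟨bnd_l cT0_10_62.down⟩ rfl (CvR.step ⟨(bnd_r cT0_10_61.down)⟩ rfl CvR.zero)) rfl <|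
    CvB.step (b := 8) (q := 2) (CvR.step ⟨bnd_l cT0_8_60.down⟩ rfl (CvR.step ⟨(bnd_r cT0_8_59.down)⟩ rfl CvR.zero)) rfl <|
    CvB.step (b := 6) (q := 2) (CvR.step ⟨cT0_6_68.down⟩ rfl (CvR.step ⟨(bnd_r cT0_6_67.down)⟩ rfl CvR.zero)) rfl <|
    CvB.step (b := 4) (q := 2) (CvR.step ⟨bnd_l cT0_4_69.down⟩ rfl (CvR.step ⟨(bnd_r cT0_4_68.down)⟩ rfl CvR.zero)) rfl <|
    CvB.step (b := 2) (q := 2) (CvR.step ⟨cT0_2_72.down⟩ rfl (CvR.step ⟨(bnd_r cT0_2_71.down)⟩ rfl CvR.zero)) rfl <|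
    CvB.step (b := 0) (q := 2) (CvR.step ⟨bnd_l cT0_0_49.down⟩ rfl (CvR.step ⟨(bnd_r cT0_0_48.down)⟩ rfl CvR.zero)) rfl <|
    CvB.zero)
    (by decide +kernel)

theorem bT0_34 : JobB fT0 Am At (fun _ => At.b0) 34 :=
  CvB.job (b0 := 18) (y := 0) (n := 29) (lo := 0) (hi := 39)
    (CvB.step (b := 36) (q := 3) (CvR.step ⟨bnd_l cT0_36_18.down⟩ rfl CvR.zero) rfl <|
    CvB.step (b := 30) (q := 6) (CvR.step ⟨cT0_30_52.down⟩ rfl CvR.zero) rfl <|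
    CvB.step (b := 24) (q := 6) (CvR.step ⟨bnd_l cT0_24_88.down⟩ rfl (CvR.step ⟨cT0_24_87.down⟩ rfl CvR.zero)) rfl <|
    CvB.step (b := 21) (q := 3) (CvR.step ⟨bnd_l cT0_21_57.down⟩ rfl (CvR.step ⟨(bnd_r cT0_21_56.down)⟩ rfl CvR.zero)) rfl <|
    CvB.step (b := 18) (q := 3) (CvR.step ⟨bnd_l cT0_18_65.down⟩ rfl (CvR.step ⟨(bnd_r cT0_18_64.down)⟩ rfl CvR.zero)) rfl <|
    CvB.step (b := 15) (q := 3) (CvR.step ⟨cT0_15_75.down⟩ rfl (CvR.step ⟨(bnd_r cT0_15_74.down)⟩ rfl CvR.zero)) rfl <|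
    CvB.step (b := 12) (q := 3) (CvR.step ⟨cT0_12_86.down⟩ rfl (CvR.step ⟨(bnd_r cT0_12_85.down)⟩ rfl CvR.zero)) rfl <|
    CvB.step (b := 10) (q := 2) (CvR.step ⟨bnd_l cT0_10_63.down⟩ rfl (CvR.step ⟨(bnd_r cT0_10_62.down)⟩ rfl CvR.zero)) rfl <|
    CvB.step (b := 8) (q := 2) (CvR.step ⟨bnd_l cT0_8_61.down⟩ rfl (CvR.step ⟨(bnd_r cT0_8_60.down)⟩ rfl CvR.zero)) rfl <|
    CvB.step (b := 6) (q := 2) (CvR.step ⟨bnd_l cT0_6_70.down⟩ rfl (CvR.step ⟨cT0_6_69.down⟩ rfl CvR.zero)) rfl <|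
    CvB.step (b := 4) (q := 2) (CvR.step ⟨cT0_4_70.down⟩ rfl (CvR.step ⟨(bnd_r cT0_4_69.down)⟩ rfl CvR.zero)) rfl <|
    CvB.step (b := 2) (q := 2) (CvR.step ⟨bnd_l cT0_2_74.down⟩ rfl (CvR.step ⟨cT0_2_73.down⟩ rfl CvR.zero)) rfl <|
    CvB.step (b := 0) (q := 2) (CvR.step ⟨bnd_l cT0_0_50.down⟩ rfl (CvR.step ⟨(bnd_r cT0_0_49.down)⟩ rfl CvR.zero)) rfl <|
    CvB.zero)
    (by decide +kernel)

theorem bT0_35 : JobB fT0 Am At (fun _ => At.b0) 35 :=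
  CvB.job (b0 := 18) (y := 1) (n := 30) (lo := 0) (hi := 39)
    (CvB.step (b := 36) (q := 3) (CvR.step ⟨bnd_l (bnd_r cT0_36_18.down)⟩ rfl CvR.zero) rfl <|
    CvB.step (b := 30) (q := 6) (CvR.step ⟨cT0_30_53.down⟩ rfl CvR.zero) rfl <|
    CvB.step (b := 24) (q := 6) (CvR.step ⟨bnd_l cT0_24_90.down⟩ rfl (CvR.step ⟨cT0_24_89.down⟩ rfl (CvR.step ⟨(bnd_r cT0_24_88.down)⟩ rfl CvR.zero))) rfl <|
    CvB.step (b := 21) (q := 3) (CvR.step ⟨bnd_l cT0_21_58.down⟩ rfl (CvR.step ⟨(bnd_r cT0_21_57.down)⟩ rfl CvR.zero)) rfl <|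
    CvB.step (b := 18) (q := 3) (CvR.step ⟨bnd_l cT0_18_66.down⟩ rfl (CvR.step ⟨(bnd_r cT0_18_65.down)⟩ rfl CvR.zero)) rfl <|
    CvB.step (b := 15) (q := 3) (CvR.step ⟨bnd_l cT0_15_77.down⟩ rfl (CvR.step ⟨cT0_15_76.down⟩ rfl CvR.zero)) rfl <|
    CvB.step (b := 12) (q := 3) (CvR.step ⟨bnd_l cT0_12_88.down⟩ rfl (CvR.step ⟨cT0_12_87.down⟩ rfl CvR.zero)) rfl <|
    CvB.step (b := 10) (q := 2) (CvR.step ⟨bnd_l cT0_10_64.down⟩ rfl (CvR.step ⟨(bnd_r cT0_10_63.down)⟩ rfl CvR.zero)) rfl <|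
    CvB.step (b := 8) (q := 2) (CvR.step ⟨bnd_l cT0_8_62.down⟩ rfl (CvR.step ⟨(bnd_r cT0_8_61.down)⟩ rfl CvR.zero)) rfl <|
    CvB.step (b := 6) (q := 2) (CvR.step ⟨bnd_l cT0_6_71.down⟩ rfl (CvR.step ⟨(bnd_r cT0_6_70.down)⟩ rfl CvR.zero)) rfl <|
    CvB.step (b := 4) (q := 2) (CvR.step ⟨bnd_l cT0_4_72.down⟩ rfl (CvR.step ⟨cT0_4_71.down⟩ rfl CvR.zero)) rfl <|
    CvB.step (b := 2) (q := 2) (CvR.step ⟨bnd_l cT0_2_75.down⟩ rfl (CvR.step ⟨(bnd_r cT0_2_74.down)⟩ rfl CvR.zero)) rfl <|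
    CvB.step (b := 0) (q := 2) (CvR.step ⟨bnd_l cT0_0_51.down⟩ rfl (CvR.step ⟨(bnd_r cT0_0_50.down)⟩ rfl CvR.zero)) rfl <|
    CvB.zero)
    (by decide +kernel)

theorem bT0_36 : JobB fT0 Am At (fun _ => At.b0) 36 :=
  CvB.job (b0 := 19) (y := 0) (n := 27) (lo := 0) (hi := 39)
    (CvB.step (b := 36) (q := 3) (CvR.step ⟨(bnd_r (bnd_r cT0_36_18.down))⟩ rfl CvR.zero) rfl <|
    CvB.step (b := 30) (q := 6) (CvR.step ⟨cT0_30_54.down⟩ rfl CvR.zero) rfl <|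
    CvB.step (b := 24) (q := 6) (CvR.step ⟨bnd_l cT0_24_91.down⟩ rfl (CvR.step ⟨(bnd_r cT0_24_90.down)⟩ rfl CvR.zero)) rfl <|
    CvB.step (b := 21) (q := 3) (CvR.step ⟨bnd_l cT0_21_59.down⟩ rfl (CvR.step ⟨(bnd_r cT0_21_58.down)⟩ rfl CvR.zero)) rfl <|
    CvB.step (b := 18) (q := 3) (CvR.step ⟨cT0_18_67.down⟩ rfl (CvR.step ⟨(bnd_r cT0_18_66.down)⟩ rfl CvR.zero)) rfl <|
    CvB.step (b := 15) (q := 3) (CvR.step ⟨bnd_l cT0_15_78.down⟩ rfl (CvR.step ⟨(bnd_r cT0_15_77.down)⟩ rfl CvR.zero)) rfl <|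
    CvB.step (b := 12) (q := 3) (CvR.step ⟨cT0_12_89.down⟩ rfl (CvR.step ⟨(bnd_r cT0_12_88.down)⟩ rfl CvR.zero)) rfl <|
    CvB.step (b := 10) (q := 2) (CvR.step ⟨bnd_l cT0_10_65.down⟩ rfl (CvR.step ⟨(bnd_r cT0_10_64.down)⟩ rfl CvR.zero)) rfl <|
    CvB.step (b := 8) (q := 2) (CvR.step ⟨cT0_8_63.down⟩ rfl (CvR.step ⟨(bnd_r cT0_8_62.down)⟩ rfl CvR.zero)) rfl <|
    CvB.step (b := 6) (q := 2) (CvR.step ⟨bnd_l cT0_6_72.down⟩ rfl (CvR.step ⟨(bnd_r cT0_6_71.down)⟩ rfl CvR.zero)) rfl <|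
    CvB.step (b := 4) (q := 2) (CvR.step ⟨bnd_l cT0_4_73.down⟩ rfl (CvR.step ⟨(bnd_r cT0_4_72.down)⟩ rfl CvR.zero)) rfl <|
    CvB.step (b := 2) (q := 2) (CvR.step ⟨cT0_2_76.down⟩ rfl (CvR.step ⟨(bnd_r cT0_2_75.down)⟩ rfl CvR.zero)) rfl <|
    CvB.step (b := 0) (q := 2) (CvR.step ⟨bnd_l cT0_0_52.down⟩ rfl (CvR.step ⟨(bnd_r cT0_0_51.down)⟩ rfl CvR.zero)) rfl <|
    CvB.zero)
    (by decide +kernel)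

theorem bT0_37 : JobB fT0 Am At (fun _ => At.b0) 37 :=
  CvB.job (b0 := 19) (y := 1) (n := 28) (lo := 0) (hi := 39)
    (CvB.step (b := 36) (q := 3) (CvR.step ⟨bnd_l cT0_36_19.down⟩ rfl CvR.zero) rfl <|
    CvB.step (b := 30) (q := 6) (CvR.step ⟨cT0_30_55.down⟩ rfl CvR.zero) rfl <|
    CvB.step (b := 24) (q := 6) (CvR.step ⟨bnd_l cT0_24_93.down⟩ rfl (CvR.step ⟨cT0_24_92.down⟩ rfl (CvR.step ⟨(bnd_r cT0_24_91.down)⟩ rfl CvR.zero))) rfl <|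
    CvB.step (b := 21) (q := 3) (CvR.step ⟨bnd_l cT0_21_60.down⟩ rfl (CvR.step ⟨(bnd_r cT0_21_59.down)⟩ rfl CvR.zero)) rfl <|
    CvB.step (b := 18) (q := 3) (CvR.step ⟨bnd_l cT0_18_69.down⟩ rfl (CvR.step ⟨cT0_18_68.down⟩ rfl CvR.zero)) rfl <|
    CvB.step (b := 15) (q := 3) (CvR.step ⟨cT0_15_79.down⟩ rfl (CvR.step ⟨(bnd_r cT0_15_78.down)⟩ rfl CvR.zero)) rfl <|
    CvB.step (b := 12) (q := 3) (CvR.step ⟨bnd_l cT0_12_91.down⟩ rfl (CvR.step ⟨cT0_12_90.down⟩ rfl CvR.zero)) rfl <|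
    CvB.step (b := 10) (q := 2) (CvR.step ⟨bnd_l cT0_10_66.down⟩ rfl (CvR.step ⟨(bnd_r cT0_10_65.down)⟩ rfl CvR.zero)) rfl <|
    CvB.step (b := 8) (q := 2) (CvR.step ⟨cT0_8_64.down⟩ rfl CvR.zero) rfl <|
    CvB.step (b := 6) (q := 2) (CvR.step ⟨cT0_6_73.down⟩ rfl (CvR.step ⟨(bnd_r cT0_6_72.down)⟩ rfl CvR.zero)) rfl <|
    CvB.step (b := 4) (q := 2) (CvR.step ⟨bnd_l cT0_4_74.down⟩ rfl (CvR.step ⟨(bnd_r cT0_4_73.down)⟩ rfl CvR.zero)) rfl <|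
    CvB.step (b := 2) (q := 2) (CvR.step ⟨bnd_l cT0_2_78.down⟩ rfl (CvR.step ⟨cT0_2_77.down⟩ rfl CvR.zero)) rfl <|
    CvB.step (b := 0) (q := 2) (CvR.step ⟨bnd_l cT0_0_53.down⟩ rfl (CvR.step ⟨(bnd_r cT0_0_52.down)⟩ rfl CvR.zero)) rfl <|
    CvB.zero)
    (by decide +kernel)

theorem bT0_38 : JobB fT0 Am At (fun _ => At.b0) 38 :=
  CvB.job (b0 := 20) (y := 0) (n := 25) (lo := 0) (hi := 39)
    (CvB.step (b := 36) (q := 3) (CvR.step ⟨bnd_l (bnd_r cT0_36_19.down)⟩ rfl CvR.zero) rfl <|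
    CvB.step (b := 30) (q := 6) (CvR.step ⟨cT0_30_56.down⟩ rfl CvR.zero) rfl <|
    CvB.step (b := 24) (q := 6) (CvR.step ⟨bnd_l cT0_24_94.down⟩ rfl (CvR.step ⟨(bnd_r cT0_24_93.down)⟩ rfl CvR.zero)) rfl <|
    CvB.step (b := 21) (q := 3) (CvR.step ⟨(bnd_r cT0_21_60.down)⟩ rfl CvR.zero) rfl <|
    CvB.step (b := 18) (q := 3) (CvR.step ⟨bnd_l cT0_18_70.down⟩ rfl (CvR.step ⟨(bnd_r cT0_18_69.down)⟩ rfl CvR.zero)) rfl <|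
    CvB.step (b := 15) (q := 3) (CvR.step ⟨bnd_l cT0_15_81.down⟩ rfl (CvR.step ⟨cT0_15_80.down⟩ rfl CvR.zero)) rfl <|
    CvB.step (b := 12) (q := 3) (CvR.step ⟨cT0_12_92.down⟩ rfl (CvR.step ⟨(bnd_r cT0_12_91.down)⟩ rfl CvR.zero)) rfl <|
    CvB.step (b := 10) (q := 2) (CvR.step ⟨bnd_l cT0_10_67.down⟩ rfl (CvR.step ⟨(bnd_r cT0_10_66.down)⟩ rfl CvR.zero)) rfl <|
    CvB.step (b := 8) (q := 2) (CvR.step ⟨bnd_l cT0_8_65.down⟩ rfl CvR.zero) rfl <|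
    CvB.step (b := 6) (q := 2) (CvR.step ⟨cT0_6_74.down⟩ rfl CvR.zero) rfl <|
    CvB.step (b := 4) (q := 2) (CvR.step ⟨bnd_l cT0_4_75.down⟩ rfl (CvR.step ⟨(bnd_r cT0_4_74.down)⟩ rfl CvR.zero)) rfl <|
    CvB.step (b := 2) (q := 2) (CvR.step ⟨bnd_l cT0_2_79.down⟩ rfl (CvR.step ⟨(bnd_r cT0_2_78.down)⟩ rfl CvR.zero)) rfl <|
    CvB.step (b := 0) (q := 2) (CvR.step ⟨(bnd_r cT0_0_53.down)⟩ rfl CvR.zero) rfl <|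
    CvB.zero)
    (by decide +kernel)

theorem bT0_39 : JobB fT0 Am At (fun _ => At.b0) 39 :=
  CvB.job (b0 := 20) (y := 1) (n := 26) (lo := 0) (hi := 39)
    (CvB.step (b := 36) (q := 3) (CvR.step ⟨(bnd_r (bnd_r cT0_36_19.down))⟩ rfl CvR.zero) rfl <|
    CvB.step (b := 30) (q := 6) (CvR.step ⟨cT0_30_57.down⟩ rfl CvR.zero) rfl <|
    CvB.step (b := 24) (q := 6) (CvR.step ⟨bnd_l cT0_24_96.down⟩ rfl (CvR.step ⟨cT0_24_95.down⟩ rfl (CvR.step ⟨(bnd_r cT0_24_94.down)⟩ rfl CvR.zero))) rfl <|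
    CvB.step (b := 21) (q := 3) (CvR.step ⟨cT0_21_61.down⟩ rfl CvR.zero) rfl <|
    CvB.step (b := 18) (q := 3) (CvR.step ⟨bnd_l cT0_18_71.down⟩ rfl (CvR.step ⟨(bnd_r cT0_18_70.down)⟩ rfl CvR.zero)) rfl <|
    CvB.step (b := 15) (q := 3) (CvR.step ⟨bnd_l cT0_15_82.down⟩ rfl (CvR.step ⟨(bnd_r cT0_15_81.down)⟩ rfl CvR.zero)) rfl <|
    CvB.step (b := 12) (q := 3) (CvR.step ⟨bnd_l cT0_12_94.down⟩ rfl (CvR.step ⟨cT0_12_93.down⟩ rfl CvR.zero)) rfl <|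
    CvB.step (b := 10) (q := 2) (CvR.step ⟨bnd_l cT0_10_68.down⟩ rfl (CvR.step ⟨(bnd_r cT0_10_67.down)⟩ rfl CvR.zero)) rfl <|
    CvB.step (b := 8) (q := 2) (CvR.step ⟨bnd_l cT0_8_66.down⟩ rfl (CvR.step ⟨(bnd_r cT0_8_65.down)⟩ rfl CvR.zero)) rfl <|
    CvB.step (b := 6) (q := 2) (CvR.step ⟨cT0_6_75.down⟩ rfl CvR.zero) rfl <|
    CvB.step (b := 4) (q := 2) (CvR.step ⟨cT0_4_76.down⟩ rfl (CvR.step ⟨(bnd_r cT0_4_75.down)⟩ rfl CvR.zero)) rfl <|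
    CvB.step (b := 2) (q := 2) (CvR.step ⟨bnd_l cT0_2_80.down⟩ rfl (CvR.step ⟨(bnd_r cT0_2_79.down)⟩ rfl CvR.zero)) rfl <|
    CvB.step (b := 0) (q := 2) (CvR.step ⟨bnd_l cT0_0_54.down⟩ rfl CvR.zero) rfl <|
    CvB.zero)
    (by decide +kernel)

theorem bT0_40 : JobB fT0 Am At (fun _ => At.b0) 40 :=
  CvB.job (b0 := 21) (y := 0) (n := 23) (lo := 0) (hi := 39)
    (CvB.step (b := 36) (q := 3) (CvR.step ⟨bnd_l cT0_36_20.down⟩ rfl CvR.zero) rfl <|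
    CvB.step (b := 30) (q := 6) (CvR.step ⟨cT0_30_58.down⟩ rfl CvR.zero) rfl <|
    CvB.step (b := 24) (q := 6) (CvR.step ⟨bnd_l cT0_24_97.down⟩ rfl (CvR.step ⟨(bnd_r cT0_24_96.down)⟩ rfl CvR.zero)) rfl <|
    CvB.step (b := 21) (q := 3) (CvR.step ⟨cT0_21_62.down⟩ rfl CvR.zero) rfl <|
    CvB.step (b := 18) (q := 3) (CvR.step ⟨bnd_l cT0_18_72.down⟩ rfl (CvR.step ⟨(bnd_r cT0_18_71.down)⟩ rfl CvR.zero)) rfl <|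
    CvB.step (b := 15) (q := 3) (CvR.step ⟨bnd_l cT0_15_83.down⟩ rfl (CvR.step ⟨(bnd_r cT0_15_82.down)⟩ rfl CvR.zero)) rfl <|
    CvB.step (b := 12) (q := 3) (CvR.step ⟨bnd_l cT0_12_95.down⟩ rfl (CvR.step ⟨(bnd_r cT0_12_94.down)⟩ rfl CvR.zero)) rfl <|
    CvB.step (b := 10) (q := 2) (CvR.step ⟨bnd_l cT0_10_69.down⟩ rfl (CvR.step ⟨(bnd_r cT0_10_68.down)⟩ rfl CvR.zero)) rfl <|
    CvB.step (b := 8) (q := 2) (CvR.step ⟨bnd_l cT0_8_67.down⟩ rfl (CvR.step ⟨(bnd_r cT0_8_66.down)⟩ rfl CvR.zero)) rfl <|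
    CvB.step (b := 6) (q := 2) (CvR.step ⟨cT0_6_76.down⟩ rfl CvR.zero) rfl <|
    CvB.step (b := 4) (q := 2) (CvR.step ⟨cT0_4_77.down⟩ rfl CvR.zero) rfl <|
    CvB.step (b := 2) (q := 2) (CvR.step ⟨bnd_l cT0_2_81.down⟩ rfl (CvR.step ⟨(bnd_r cT0_2_80.down)⟩ rfl CvR.zero)) rfl <|
    CvB.step (b := 0) (q := 2) (CvR.step ⟨bnd_l cT0_0_55.down⟩ rfl (CvR.step ⟨(bnd_r cT0_0_54.down)⟩ rfl CvR.zero)) rfl <|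
    CvB.zero)
    (by decide +kernel)

theorem bT0_41 : JobB fT0 Am At (fun _ => At.b0) 41 :=
  CvB.job (b0 := 21) (y := 1) (n := 24) (lo := 0) (hi := 39)
    (CvB.step (b := 36) (q := 3) (CvR.step ⟨bnd_l (bnd_r cT0_36_20.down)⟩ rfl CvR.zero) rfl <|
    CvB.step (b := 30) (q := 6) (CvR.step ⟨cT0_30_59.down⟩ rfl CvR.zero) rfl <|
    CvB.step (b := 24) (q := 6) (CvR.step ⟨cT0_24_98.down⟩ rfl (CvR.step ⟨(bnd_r cT0_24_97.down)⟩ rfl CvR.zero)) rfl <|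
    CvB.step (b := 21) (q := 3) (CvR.step ⟨cT0_21_63.down⟩ rfl CvR.zero) rfl <|
    CvB.step (b := 18) (q := 3) (CvR.step ⟨bnd_l cT0_18_73.down⟩ rfl (CvR.step ⟨(bnd_r cT0_18_72.down)⟩ rfl CvR.zero)) rfl <|
    CvB.step (b := 15) (q := 3) (CvR.step ⟨bnd_l cT0_15_84.down⟩ rfl (CvR.step ⟨(bnd_r cT0_15_83.down)⟩ rfl CvR.zero)) rfl <|
    CvB.step (b := 12) (q := 3) (CvR.step ⟨cT0_12_96.down⟩ rfl (CvR.step ⟨(bnd_r cT0_12_95.down)⟩ rfl CvR.zero)) rfl <|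
    CvB.step (b := 10) (q := 2) (CvR.step ⟨bnd_l cT0_10_70.down⟩ rfl (CvR.step ⟨(bnd_r cT0_10_69.down)⟩ rfl CvR.zero)) rfl <|
    CvB.step (b := 8) (q := 2) (CvR.step ⟨bnd_l cT0_8_68.down⟩ rfl (CvR.step ⟨(bnd_r cT0_8_67.down)⟩ rfl CvR.zero)) rfl <|
    CvB.step (b := 6) (q := 2) (CvR.step ⟨cT0_6_77.down⟩ rfl CvR.zero) rfl <|
    CvB.step (b := 4) (q := 2) (CvR.step ⟨cT0_4_78.down⟩ rfl CvR.zero) rfl <|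
    CvB.step (b := 2) (q := 2) (CvR.step ⟨cT0_2_82.down⟩ rfl (CvR.step ⟨(bnd_r cT0_2_81.down)⟩ rfl CvR.zero)) rfl <|
    CvB.step (b := 0) (q := 2) (CvR.step ⟨bnd_l cT0_0_56.down⟩ rfl (CvR.step ⟨(bnd_r cT0_0_55.down)⟩ rfl CvR.zero)) rfl <|
    CvB.zero)
    (by decide +kernel)

theorem bT0_42 : JobB fT0 Am At (fun _ => At.b0) 42 :=
  CvB.job (b0 := 22) (y := 0) (n := 21) (lo := 0) (hi := 39)
    (CvB.step (b := 36) (q := 3) (CvR.step ⟨bnd_l (bnd_r (bnd_r cT0_36_20.down))⟩ rfl CvR.zero) rfl <|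
    CvB.step (b := 30) (q := 6) (CvR.step ⟨cT0_30_60.down⟩ rfl CvR.zero) rfl <|
    CvB.step (b := 24) (q := 6) (CvR.step ⟨bnd_l cT0_24_100.down⟩ rfl (CvR.step ⟨cT0_24_99.down⟩ rfl CvR.zero)) rfl <|
    CvB.step (b := 21) (q := 3) (CvR.step ⟨bnd_l cT0_21_64.down⟩ rfl CvR.zero) rfl <|
    CvB.step (b := 18) (q := 3) (CvR.step ⟨(bnd_r cT0_18_73.down)⟩ rfl CvR.zero) rfl <|
    CvB.step (b := 15) (q := 3) (CvR.step ⟨bnd_l cT0_15_85.down⟩ rfl (CvR.step ⟨(bnd_r cT0_15_84.down)⟩ rfl CvR.zero)) rfl <|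
    CvB.step (b := 12) (q := 3) (CvR.step ⟨bnd_l cT0_12_98.down⟩ rfl (CvR.step ⟨cT0_12_97.down⟩ rfl CvR.zero)) rfl <|
    CvB.step (b := 10) (q := 2) (CvR.step ⟨(bnd_r cT0_10_70.down)⟩ rfl CvR.zero) rfl <|
    CvB.step (b := 8) (q := 2) (CvR.step ⟨bnd_l cT0_8_69.down⟩ rfl (CvR.step ⟨(bnd_r cT0_8_68.down)⟩ rfl CvR.zero)) rfl <|
    CvB.step (b := 6) (q := 2) (CvR.step ⟨cT0_6_78.down⟩ rfl CvR.zero) rfl <|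
    CvB.step (b := 4) (q := 2) (CvR.step ⟨bnd_l cT0_4_79.down⟩ rfl CvR.zero) rfl <|
    CvB.step (b := 2) (q := 2) (CvR.step ⟨cT0_2_83.down⟩ rfl CvR.zero) rfl <|
    CvB.step (b := 0) (q := 2) (CvR.step ⟨(bnd_r cT0_0_56.down)⟩ rfl CvR.zero) rfl <|
    CvB.zero)
    (by decide +kernel)

theorem bT0_43 : JobB fT0 Am At (fun _ => At.b0) 43 :=
  CvB.job (b0 := 22) (y := 1) (n := 22) (lo := 0) (hi := 39)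
    (CvB.step (b := 36) (q := 3) (CvR.step ⟨(bnd_r (bnd_r (bnd_r cT0_36_20.down)))⟩ rfl CvR.zero) rfl <|
    CvB.step (b := 30) (q := 6) (CvR.step ⟨cT0_30_61.down⟩ rfl CvR.zero) rfl <|
    CvB.step (b := 24) (q := 6) (CvR.step ⟨bnd_l cT0_24_101.down⟩ rfl (CvR.step ⟨(bnd_r cT0_24_100.down)⟩ rfl CvR.zero)) rfl <|
    CvB.step (b := 21) (q := 3) (CvR.step ⟨bnd_l cT0_21_65.down⟩ rfl (CvR.step ⟨(bnd_r cT0_21_64.down)⟩ rfl CvR.zero)) rfl <|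
    CvB.step (b := 18) (q := 3) (CvR.step ⟨cT0_18_74.down⟩ rfl CvR.zero) rfl <|
    CvB.step (b := 15) (q := 3) (CvR.step ⟨bnd_l cT0_15_86.down⟩ rfl (CvR.step ⟨(bnd_r cT0_15_85.down)⟩ rfl CvR.zero)) rfl <|
    CvB.step (b := 12) (q := 3) (CvR.step ⟨bnd_l cT0_12_99.down⟩ rfl (CvR.step ⟨(bnd_r cT0_12_98.down)⟩ rfl CvR.zero)) rfl <|
    CvB.step (b := 10) (q := 2) (CvR.step ⟨cT0_10_71.down⟩ rfl CvR.zero) rfl <|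
    CvB.step (b := 8) (q := 2) (CvR.step ⟨bnd_l cT0_8_70.down⟩ rfl (CvR.step ⟨(bnd_r cT0_8_69.down)⟩ rfl CvR.zero)) rfl <|
    CvB.step (b := 6) (q := 2) (CvR.step ⟨cT0_6_79.down⟩ rfl CvR.zero) rfl <|
    CvB.step (b := 4) (q := 2) (CvR.step ⟨bnd_l cT0_4_80.down⟩ rfl (CvR.step ⟨(bnd_r cT0_4_79.down)⟩ rfl CvR.zero)) rfl <|
    CvB.step (b := 2) (q := 2) (CvR.step ⟨cT0_2_84.down⟩ rfl CvR.zero) rfl <|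
    CvB.step (b := 0) (q := 2) (CvR.step ⟨bnd_l cT0_0_57.down⟩ rfl CvR.zero) rfl <|
    CvB.zero)
    (by decide +kernel)

theorem bT0_44 : JobB fT0 Am At (fun _ => At.b0) 44 :=
  CvB.job (b0 := 23) (y := 0) (n := 19) (lo := 0) (hi := 39)
    (CvB.step (b := 36) (q := 3) (CvR.step ⟨bnd_l cT0_36_21.down⟩ rfl CvR.zero) rfl <|
    CvB.step (b := 30) (q := 6) (CvR.step ⟨cT0_30_62.down⟩ rfl CvR.zero) rfl <|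
    CvB.step (b := 24) (q := 6) (CvR.step ⟨bnd_l cT0_24_102.down⟩ rfl (CvR.step ⟨(bnd_r cT0_24_101.down)⟩ rfl CvR.zero)) rfl <|
    CvB.step (b := 21) (q := 3) (CvR.step ⟨bnd_l cT0_21_66.down⟩ rfl (CvR.step ⟨(bnd_r cT0_21_65.down)⟩ rfl CvR.zero)) rfl <|
    CvB.step (b := 18) (q := 3) (CvR.step ⟨cT0_18_75.down⟩ rfl CvR.zero) rfl <|
    CvB.step (b := 15) (q := 3) (CvR.step ⟨bnd_l cT0_15_87.down⟩ rfl (CvR.step ⟨(bnd_r cT0_15_86.down)⟩ rfl CvR.zero)) rfl <|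
    CvB.step (b := 12) (q := 3) (CvR.step ⟨bnd_l cT0_12_100.down⟩ rfl (CvR.step ⟨(bnd_r cT0_12_99.down)⟩ rfl CvR.zero)) rfl <|
    CvB.step (b := 10) (q := 2) (CvR.step ⟨cT0_10_72.down⟩ rfl CvR.zero) rfl <|
    CvB.step (b := 8) (q := 2) (CvR.step ⟨bnd_l cT0_8_71.down⟩ rfl (CvR.step ⟨(bnd_r cT0_8_70.down)⟩ rfl CvR.zero)) rfl <|
    CvB.step (b := 6) (q := 2) (CvR.step ⟨cT0_6_80.down⟩ rfl CvR.zero) rfl <|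
    CvB.step (b := 4) (q := 2) (CvR.step ⟨bnd_l cT0_4_81.down⟩ rfl (CvR.step ⟨(bnd_r cT0_4_80.down)⟩ rfl CvR.zero)) rfl <|
    CvB.step (b := 2) (q := 2) (CvR.step ⟨cT0_2_85.down⟩ rfl CvR.zero) rfl <|
    CvB.step (b := 0) (q := 2) (CvR.step ⟨bnd_l cT0_0_58.down⟩ rfl (CvR.step ⟨(bnd_r cT0_0_57.down)⟩ rfl CvR.zero)) rfl <|
    CvB.zero)
    (by decide +kernel)

theorem bT0_45 : JobB fT0 Am At (fun _ => At.b0) 45 :=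
  CvB.job (b0 := 23) (y := 1) (n := 20) (lo := 0) (hi := 39)
    (CvB.step (b := 36) (q := 3) (CvR.step ⟨bnd_l (bnd_r cT0_36_21.down)⟩ rfl CvR.zero) rfl <|
    CvB.step (b := 30) (q := 6) (CvR.step ⟨cT0_30_63.down⟩ rfl CvR.zero) rfl <|
    CvB.step (b := 24) (q := 6) (CvR.step ⟨cT0_24_103.down⟩ rfl (CvR.step ⟨(bnd_r cT0_24_102.down)⟩ rfl CvR.zero)) rfl <|
    CvB.step (b := 21) (q := 3) (CvR.step ⟨(bnd_r cT0_21_66.down)⟩ rfl CvR.zero) rfl <|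
    CvB.step (b := 18) (q := 3) (CvR.step ⟨cT0_18_76.down⟩ rfl CvR.zero) rfl <|
    CvB.step (b := 15) (q := 3) (CvR.step ⟨bnd_l cT0_15_88.down⟩ rfl (CvR.step ⟨(bnd_r cT0_15_87.down)⟩ rfl CvR.zero)) rfl <|
    CvB.step (b := 12) (q := 3) (CvR.step ⟨bnd_l cT0_12_101.down⟩ rfl (CvR.step ⟨(bnd_r cT0_12_100.down)⟩ rfl CvR.zero)) rfl <|
    CvB.step (b := 10) (q := 2) (CvR.step ⟨cT0_10_73.down⟩ rfl CvR.zero) rfl <|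
    CvB.step (b := 8) (q := 2) (CvR.step ⟨(bnd_r cT0_8_71.down)⟩ rfl CvR.zero) rfl <|
    CvB.step (b := 6) (q := 2) (CvR.step ⟨cT0_6_81.down⟩ rfl CvR.zero) rfl <|
    CvB.step (b := 4) (q := 2) (CvR.step ⟨bnd_l cT0_4_82.down⟩ rfl (CvR.step ⟨(bnd_r cT0_4_81.down)⟩ rfl CvR.zero)) rfl <|
    CvB.step (b := 2) (q := 2) (CvR.step ⟨cT0_2_86.down⟩ rfl CvR.zero) rfl <|
    CvB.step (b := 0) (q := 2) (CvR.step ⟨(bnd_r cT0_0_58.down)⟩ rfl CvR.zero) rfl <|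
    CvB.zero)
    (by decide +kernel)

theorem bT0_46 : JobB fT0 Am At (fun _ => At.b0) 46 :=
  CvB.job (b0 := 24) (y := 0) (n := 17) (lo := 0) (hi := 39)
    (CvB.step (b := 36) (q := 3) (CvR.step ⟨bnd_l (bnd_r (bnd_r cT0_36_21.down))⟩ rfl CvR.zero) rfl <|
    CvB.step (b := 30) (q := 6) (CvR.step ⟨cT0_30_64.down⟩ rfl CvR.zero) rfl <|
    CvB.step (b := 24) (q := 6) (CvR.step ⟨cT0_24_104.down⟩ rfl CvR.zero) rfl <|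
    CvB.step (b := 21) (q := 3) (CvR.step ⟨bnd_l cT0_21_67.down⟩ rfl CvR.zero) rfl <|
    CvB.step (b := 18) (q := 3) (CvR.step ⟨bnd_l cT0_18_77.down⟩ rfl CvR.zero) rfl <|
    CvB.step (b := 15) (q := 3) (CvR.step ⟨bnd_l cT0_15_89.down⟩ rfl (CvR.step ⟨(bnd_r cT0_15_88.down)⟩ rfl CvR.zero)) rfl <|
    CvB.step (b := 12) (q := 3) (CvR.step ⟨bnd_l cT0_12_102.down⟩ rfl (CvR.step ⟨(bnd_r cT0_12_101.down)⟩ rfl CvR.zero)) rfl <|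
    CvB.step (b := 10) (q := 2) (CvR.step ⟨cT0_10_74.down⟩ rfl CvR.zero) rfl <|
    CvB.step (b := 8) (q := 2) (CvR.step ⟨bnd_l cT0_8_72.down⟩ rfl CvR.zero) rfl <|
    CvB.step (b := 6) (q := 2) (CvR.step ⟨cT0_6_82.down⟩ rfl CvR.zero) rfl <|
    CvB.step (b := 4) (q := 2) (CvR.step ⟨bnd_l cT0_4_83.down⟩ rfl (CvR.step ⟨(bnd_r cT0_4_82.down)⟩ rfl CvR.zero)) rfl <|
    CvB.step (b := 2) (q := 2) (CvR.step ⟨bnd_l cT0_2_87.down⟩ rfl CvR.zero) rfl <|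
    CvB.step (b := 0) (q := 2) (CvR.step ⟨bnd_l cT0_0_59.down⟩ rfl CvR.zero) rfl <|
    CvB.zero)
    (by decide +kernel)

theorem bT0_47 : JobB fT0 Am At (fun _ => At.b0) 47 :=
  CvB.job (b0 := 24) (y := 1) (n := 18) (lo := 0) (hi := 39)
    (CvB.step (b := 36) (q := 3) (CvR.step ⟨(bnd_r (bnd_r (bnd_r cT0_36_21.down)))⟩ rfl CvR.zero) rfl <|
    CvB.step (b := 30) (q := 6) (CvR.step ⟨bnd_l cT0_30_65.down⟩ rfl CvR.zero) rfl <|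
    CvB.step (b := 24) (q := 6) (CvR.step ⟨cT0_24_105.down⟩ rfl CvR.zero) rfl <|
    CvB.step (b := 21) (q := 3) (CvR.step ⟨bnd_l cT0_21_68.down⟩ rfl (CvR.step ⟨(bnd_r cT0_21_67.down)⟩ rfl CvR.zero)) rfl <|
    CvB.step (b := 18) (q := 3) (CvR.step ⟨bnd_l cT0_18_78.down⟩ rfl (CvR.step ⟨(bnd_r cT0_18_77.down)⟩ rfl CvR.zero)) rfl <|
    CvB.step (b := 15) (q := 3) (CvR.step ⟨bnd_l cT0_15_90.down⟩ rfl (CvR.step ⟨(bnd_r cT0_15_89.down)⟩ rfl CvR.zero)) rfl <|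
    CvB.step (b := 12) (q := 3) (CvR.step ⟨bnd_l cT0_12_103.down⟩ rfl (CvR.step ⟨(bnd_r cT0_12_102.down)⟩ rfl CvR.zero)) rfl <|
    CvB.step (b := 10) (q := 2) (CvR.step ⟨cT0_10_75.down⟩ rfl CvR.zero) rfl <|
    CvB.step (b := 8) (q := 2) (CvR.step ⟨bnd_l cT0_8_73.down⟩ rfl (CvR.step ⟨(bnd_r cT0_8_72.down)⟩ rfl CvR.zero)) rfl <|
    CvB.step (b := 6) (q := 2) (CvR.step ⟨cT0_6_83.down⟩ rfl CvR.zero) rfl <|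
    CvB.step (b := 4) (q := 2) (CvR.step ⟨bnd_l cT0_4_84.down⟩ rfl (CvR.step ⟨(bnd_r cT0_4_83.down)⟩ rfl CvR.zero)) rfl <|
    CvB.step (b := 2) (q := 2) (CvR.step ⟨bnd_l cT0_2_88.down⟩ rfl (CvR.step ⟨(bnd_r cT0_2_87.down)⟩ rfl CvR.zero)) rfl <|
    CvB.step (b := 0) (q := 2) (CvR.step ⟨bnd_l cT0_0_60.down⟩ rfl (CvR.step ⟨(bnd_r cT0_0_59.down)⟩ rfl CvR.zero)) rfl <|
    CvB.zero)
    (by decide +kernel)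

theorem bT0_48 : JobB fT0 Am At (fun _ => At.b0) 48 :=
  CvB.job (b0 := 25) (y := 0) (n := 15) (lo := 0) (hi := 39)
    (CvB.step (b := 36) (q := 3) (CvR.step ⟨bnd_l cT0_36_22.down⟩ rfl CvR.zero) rfl <|
    CvB.step (b := 30) (q := 6) (CvR.step ⟨(bnd_r cT0_30_65.down)⟩ rfl CvR.zero) rfl <|
    CvB.step (b := 24) (q := 6) (CvR.step ⟨cT0_24_106.down⟩ rfl CvR.zero) rfl <|
    CvB.step (b := 21) (q := 3) (CvR.step ⟨(bnd_r cT0_21_68.down)⟩ rfl CvR.zero) rfl <|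
    CvB.step (b := 18) (q := 3) (CvR.step ⟨bnd_l cT0_18_79.down⟩ rfl (CvR.step ⟨(bnd_r cT0_18_78.down)⟩ rfl CvR.zero)) rfl <|
    CvB.step (b := 15) (q := 3) (CvR.step ⟨(bnd_r cT0_15_90.down)⟩ rfl CvR.zero) rfl <|
    CvB.step (b := 12) (q := 3) (CvR.step ⟨bnd_l cT0_12_104.down⟩ rfl (CvR.step ⟨(bnd_r cT0_12_103.down)⟩ rfl CvR.zero)) rfl <|
    CvB.step (b := 10) (q := 2) (CvR.step ⟨bnd_l cT0_10_76.down⟩ rfl CvR.zero) rfl <|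
    CvB.step (b := 8) (q := 2) (CvR.step ⟨(bnd_r cT0_8_73.down)⟩ rfl CvR.zero) rfl <|
    CvB.step (b := 6) (q := 2) (CvR.step ⟨cT0_6_84.down⟩ rfl CvR.zero) rfl <|
    CvB.step (b := 4) (q := 2) (CvR.step ⟨(bnd_r cT0_4_84.down)⟩ rfl CvR.zero) rfl <|
    CvB.step (b := 2) (q := 2) (CvR.step ⟨bnd_l cT0_2_89.down⟩ rfl (CvR.step ⟨(bnd_r cT0_2_88.down)⟩ rfl CvR.zero)) rfl <|
    CvB.step (b := 0) (q := 2) (CvR.step ⟨bnd_l (bnd_r cT0_0_60.down)⟩ rfl CvR.zero) rfl <|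
    CvB.zero)
    (by decide +kernel)

theorem bT0_49 : JobB fT0 Am At (fun _ => At.b0) 49 :=
  CvB.job (b0 := 25) (y := 1) (n := 16) (lo := 0) (hi := 39)
    (CvB.step (b := 36) (q := 3) (CvR.step ⟨bnd_l (bnd_r cT0_36_22.down)⟩ rfl CvR.zero) rfl <|
    CvB.step (b := 30) (q := 6) (CvR.step ⟨bnd_l cT0_30_66.down⟩ rfl CvR.zero) rfl <|
    CvB.step (b := 24) (q := 6) (CvR.step ⟨cT0_24_107.down⟩ rfl CvR.zero) rfl <|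
    CvB.step (b := 21) (q := 3) (CvR.step ⟨bnd_l cT0_21_69.down⟩ rfl CvR.zero) rfl <|
    CvB.step (b := 18) (q := 3) (CvR.step ⟨bnd_l (bnd_r cT0_18_79.down)⟩ rfl CvR.zero) rfl <|
    CvB.step (b := 15) (q := 3) (CvR.step ⟨cT0_15_91.down⟩ rfl CvR.zero) rfl <|
    CvB.step (b := 12) (q := 3) (CvR.step ⟨bnd_l cT0_12_105.down⟩ rfl (CvR.step ⟨(bnd_r cT0_12_104.down)⟩ rfl CvR.zero)) rfl <|
    CvB.step (b := 10) (q := 2) (CvR.step ⟨bnd_l cT0_10_77.down⟩ rfl (CvR.step ⟨(bnd_r cT0_10_76.down)⟩ rfl CvR.zero)) rfl <|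
    CvB.step (b := 8) (q := 2) (CvR.step ⟨bnd_l cT0_8_74.down⟩ rfl CvR.zero) rfl <|
    CvB.step (b := 6) (q := 2) (CvR.step ⟨cT0_6_85.down⟩ rfl CvR.zero) rfl <|
    CvB.step (b := 4) (q := 2) (CvR.step ⟨bnd_l cT0_4_85.down⟩ rfl CvR.zero) rfl <|
    CvB.step (b := 2) (q := 2) (CvR.step ⟨bnd_l cT0_2_90.down⟩ rfl (CvR.step ⟨(bnd_r cT0_2_89.down)⟩ rfl CvR.zero)) rfl <|
    CvB.step (b := 0) (q := 2) (CvR.step ⟨bnd_l cT0_0_61.down⟩ rfl (CvR.step ⟨(bnd_r (bnd_r cT0_0_60.down))⟩ rfl CvR.zero)) rfl <|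
    CvB.zero)
    (by decide +kernel)

theorem bT0_50 : JobB fT0 Am At (fun _ => At.b0) 50 :=
  CvB.job (b0 := 26) (y := 0) (n := 13) (lo := 0) (hi := 39)
    (CvB.step (b := 36) (q := 3) (CvR.step ⟨bnd_l (bnd_r (bnd_r cT0_36_22.down))⟩ rfl CvR.zero) rfl <|
    CvB.step (b := 30) (q := 6) (CvR.step ⟨(bnd_r cT0_30_66.down)⟩ rfl CvR.zero) rfl <|
    CvB.step (b := 24) (q := 6) (CvR.step ⟨bnd_l cT0_24_108.down⟩ rfl CvR.zero) rfl <|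
    CvB.step (b := 21) (q := 3) (CvR.step ⟨bnd_l cT0_21_70.down⟩ rfl (CvR.step ⟨(bnd_r cT0_21_69.down)⟩ rfl CvR.zero)) rfl <|
    CvB.step (b := 18) (q := 3) (CvR.step ⟨bnd_l cT0_18_80.down⟩ rfl (CvR.step ⟨(bnd_r (bnd_r cT0_18_79.down))⟩ rfl CvR.zero)) rfl <|
    CvB.step (b := 15) (q := 3) (CvR.step ⟨bnd_l cT0_15_92.down⟩ rfl CvR.zero) rfl <|
    CvB.step (b := 12) (q := 3) (CvR.step ⟨(bnd_r cT0_12_105.down)⟩ rfl CvR.zero) rfl <|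
    CvB.step (b := 10) (q := 2) (CvR.step ⟨(bnd_r cT0_10_77.down)⟩ rfl CvR.zero) rfl <|
    CvB.step (b := 8) (q := 2) (CvR.step ⟨bnd_l cT0_8_75.down⟩ rfl (CvR.step ⟨(bnd_r cT0_8_74.down)⟩ rfl CvR.zero)) rfl <|
    CvB.step (b := 6) (q := 2) (CvR.step ⟨cT0_6_86.down⟩ rfl CvR.zero) rfl <|
    CvB.step (b := 4) (q := 2) (CvR.step ⟨bnd_l cT0_4_86.down⟩ rfl (CvR.step ⟨(bnd_r cT0_4_85.down)⟩ rfl CvR.zero)) rfl <|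
    CvB.step (b := 2) (q := 2) (CvR.step ⟨bnd_l (bnd_r cT0_2_90.down)⟩ rfl CvR.zero) rfl <|
    CvB.step (b := 0) (q := 2) (CvR.step ⟨bnd_l (bnd_r cT0_0_61.down)⟩ rfl CvR.zero) rfl <|
    CvB.zero)
    (by decide +kernel)

theorem bT0_51 : JobB fT0 Am At (fun _ => At.b0) 51 :=
  CvB.job (b0 := 26) (y := 1) (n := 14) (lo := 0) (hi := 39)
    (CvB.step (b := 36) (q := 3) (CvR.step ⟨bnd_l (bnd_r (bnd_r (bnd_r cT0_36_22.down)))⟩ rfl CvR.zero) rfl <|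
    CvB.step (b := 30) (q := 6) (CvR.step ⟨bnd_l cT0_30_67.down⟩ rfl CvR.zero) rfl <|
    CvB.step (b := 24) (q := 6) (CvR.step ⟨bnd_l cT0_24_109.down⟩ rfl (CvR.step ⟨(bnd_r cT0_24_108.down)⟩ rfl CvR.zero)) rfl <|
    CvB.step (b := 21) (q := 3) (CvR.step ⟨bnd_l (bnd_r cT0_21_70.down)⟩ rfl CvR.zero) rfl <|
    CvB.step (b := 18) (q := 3) (CvR.step ⟨(bnd_r cT0_18_80.down)⟩ rfl CvR.zero) rfl <|
    CvB.step (b := 15) (q := 3) (CvR.step ⟨bnd_l cT0_15_93.down⟩ rfl (CvR.step ⟨(bnd_r cT0_15_92.down)⟩ rfl CvR.zero)) rfl <|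
    CvB.step (b := 12) (q := 3) (CvR.step ⟨cT0_12_106.down⟩ rfl CvR.zero) rfl <|
    CvB.step (b := 10) (q := 2) (CvR.step ⟨bnd_l cT0_10_78.down⟩ rfl CvR.zero) rfl <|
    CvB.step (b := 8) (q := 2) (CvR.step ⟨bnd_l (bnd_r cT0_8_75.down)⟩ rfl CvR.zero) rfl <|
    CvB.step (b := 6) (q := 2) (CvR.step ⟨cT0_6_87.down⟩ rfl CvR.zero) rfl <|
    CvB.step (b := 4) (q := 2) (CvR.step ⟨bnd_l (bnd_r cT0_4_86.down)⟩ rfl CvR.zero) rfl <|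
    CvB.step (b := 2) (q := 2) (CvR.step ⟨bnd_l cT0_2_91.down⟩ rfl (CvR.step ⟨(bnd_r (bnd_r cT0_2_90.down))⟩ rfl CvR.zero)) rfl <|
    CvB.step (b := 0) (q := 2) (CvR.step ⟨(bnd_r (bnd_r cT0_0_61.down))⟩ rfl CvR.zero) rfl <|
    CvB.zero)
    (by decide +kernel)

theorem bT0_52 : JobB fT0 Am At (fun _ => At.b0) 52 :=
  CvB.job (b0 := 27) (y := 0) (n := 11) (lo := 0) (hi := 39)
    (CvB.step (b := 36) (q := 3) (CvR.step ⟨(bnd_r (bnd_r (bnd_r (bnd_r cT0_36_22.down))))⟩ rfl CvR.zero) rfl <|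
    CvB.step (b := 30) (q := 6) (CvR.step ⟨(bnd_r cT0_30_67.down)⟩ rfl CvR.zero) rfl <|
    CvB.step (b := 24) (q := 6) (CvR.step ⟨bnd_l cT0_24_110.down⟩ rfl (CvR.step ⟨(bnd_r cT0_24_109.down)⟩ rfl CvR.zero)) rfl <|
    CvB.step (b := 21) (q := 3) (CvR.step ⟨(bnd_r (bnd_r cT0_21_70.down))⟩ rfl CvR.zero) rfl <|
    CvB.step (b := 18) (q := 3) (CvR.step ⟨bnd_l cT0_18_81.down⟩ rfl CvR.zero) rfl <|
    CvB.step (b := 15) (q := 3) (CvR.step ⟨(bnd_r cT0_15_93.down)⟩ rfl CvR.zero) rfl <|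
    CvB.step (b := 12) (q := 3) (CvR.step ⟨bnd_l cT0_12_107.down⟩ rfl CvR.zero) rfl <|
    CvB.step (b := 10) (q := 2) (CvR.step ⟨(bnd_r cT0_10_78.down)⟩ rfl CvR.zero) rfl <|
    CvB.step (b := 8) (q := 2) (CvR.step ⟨bnd_l cT0_8_76.down⟩ rfl (CvR.step ⟨(bnd_r (bnd_r cT0_8_75.down))⟩ rfl CvR.zero)) rfl <|
    CvB.step (b := 6) (q := 2) (CvR.step ⟨bnd_l cT0_6_88.down⟩ rfl CvR.zero) rfl <|
    CvB.step (b := 4) (q := 2) (CvR.step ⟨bnd_l cT0_4_87.down⟩ rfl (CvR.step ⟨(bnd_r (bnd_r cT0_4_86.down))⟩ rfl CvR.zero)) rfl <|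
    CvB.step (b := 2) (q := 2) (CvR.step ⟨(bnd_r cT0_2_91.down)⟩ rfl CvR.zero) rfl <|
    CvB.step (b := 0) (q := 2) (CvR.step ⟨bnd_l cT0_0_62.down⟩ rfl CvR.zero) rfl <|
    CvB.zero)
    (by decide +kernel)

theorem bT0_53 : JobB fT0 Am At (fun _ => At.b0) 53 :=
  CvB.job (b0 := 27) (y := 1) (n := 12) (lo := 0) (hi := 39)
    (CvB.step (b := 36) (q := 3) (CvR.step ⟨bnd_l cT0_36_23.down⟩ rfl CvR.zero) rfl <|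
    CvB.step (b := 30) (q := 6) (CvR.step ⟨bnd_l cT0_30_68.down⟩ rfl CvR.zero) rfl <|
    CvB.step (b := 24) (q := 6) (CvR.step ⟨bnd_l cT0_24_111.down⟩ rfl (CvR.step ⟨(bnd_r cT0_24_110.down)⟩ rfl CvR.zero)) rfl <|
    CvB.step (b := 21) (q := 3) (CvR.step ⟨bnd_l cT0_21_71.down⟩ rfl CvR.zero) rfl <|
    CvB.step (b := 18) (q := 3) (CvR.step ⟨(bnd_r cT0_18_81.down)⟩ rfl CvR.zero) rfl <|
    CvB.step (b := 15) (q := 3) (CvR.step ⟨bnd_l cT0_15_94.down⟩ rfl CvR.zero) rfl <|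
    CvB.step (b := 12) (q := 3) (CvR.step ⟨bnd_l cT0_12_108.down⟩ rfl (CvR.step ⟨(bnd_r cT0_12_107.down)⟩ rfl CvR.zero)) rfl <|
    CvB.step (b := 10) (q := 2) (CvR.step ⟨bnd_l cT0_10_79.down⟩ rfl CvR.zero) rfl <|
    CvB.step (b := 8) (q := 2) (CvR.step ⟨bnd_l (bnd_r cT0_8_76.down)⟩ rfl CvR.zero) rfl <|
    CvB.step (b := 6) (q := 2) (CvR.step ⟨(bnd_r cT0_6_88.down)⟩ rfl CvR.zero) rfl <|
    CvB.step (b := 4) (q := 2) (CvR.step ⟨(bnd_r cT0_4_87.down)⟩ rfl CvR.zero) rfl <|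
    CvB.step (b := 2) (q := 2) (CvR.step ⟨bnd_l cT0_2_92.down⟩ rfl CvR.zero) rfl <|
    CvB.step (b := 0) (q := 2) (CvR.step ⟨bnd_l (bnd_r cT0_0_62.down)⟩ rfl CvR.zero) rfl <|
    CvB.zero)
    (by decide +kernel)

theorem bT0_54 : JobB fT0 Am At (fun _ => At.b0) 54 :=
  CvB.job (b0 := 28) (y := 0) (n := 9) (lo := 0) (hi := 39)
    (CvB.step (b := 36) (q := 3) (CvR.step ⟨bnd_l (bnd_r cT0_36_23.down)⟩ rfl CvR.zero) rfl <|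
    CvB.step (b := 30) (q := 6) (CvR.step ⟨(bnd_r cT0_30_68.down)⟩ rfl CvR.zero) rfl <|
    CvB.step (b := 24) (q := 6) (CvR.step ⟨bnd_l (bnd_r cT0_24_111.down)⟩ rfl CvR.zero) rfl <|
    CvB.step (b := 21) (q := 3) (CvR.step ⟨(bnd_r cT0_21_71.down)⟩ rfl CvR.zero) rfl <|
    CvB.step (b := 18) (q := 3) (CvR.step ⟨bnd_l cT0_18_82.down⟩ rfl CvR.zero) rfl <|
    CvB.step (b := 15) (q := 3) (CvR.step ⟨(bnd_r cT0_15_94.down)⟩ rfl CvR.zero) rfl <|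
    CvB.step (b := 12) (q := 3) (CvR.step ⟨(bnd_r cT0_12_108.down)⟩ rfl CvR.zero) rfl <|
    CvB.step (b := 10) (q := 2) (CvR.step ⟨(bnd_r cT0_10_79.down)⟩ rfl CvR.zero) rfl <|
    CvB.step (b := 8) (q := 2) (CvR.step ⟨bnd_l cT0_8_77.down⟩ rfl (CvR.step ⟨(bnd_r (bnd_r cT0_8_76.down))⟩ rfl CvR.zero)) rfl <|
    CvB.step (b := 6) (q := 2) (CvR.step ⟨bnd_l cT0_6_89.down⟩ rfl CvR.zero) rfl <|
    CvB.step (b := 4) (q := 2) (CvR.step ⟨bnd_l cT0_4_88.down⟩ rfl CvR.zero) rfl <|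
    CvB.step (b := 2) (q := 2) (CvR.step ⟨(bnd_r cT0_2_92.down)⟩ rfl CvR.zero) rfl <|
    CvB.step (b := 0) (q := 2) (CvR.step ⟨(bnd_r (bnd_r cT0_0_62.down))⟩ rfl CvR.zero) rfl <|
    CvB.zero)
    (by decide +kernel)

theorem bT0_55 : JobB fT0 Am At (fun _ => At.b0) 55 :=
  CvB.job (b0 := 28) (y := 1) (n := 10) (lo := 0) (hi := 39)
    (CvB.step (b := 36) (q := 3) (CvR.step ⟨bnd_l (bnd_r (bnd_r cT0_36_23.down))⟩ rfl CvR.zero) rfl <|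
    CvB.step (b := 30) (q := 6) (CvR.step ⟨bnd_l cT0_30_69.down⟩ rfl CvR.zero) rfl <|
    CvB.step (b := 24) (q := 6) (CvR.step ⟨bnd_l cT0_24_112.down⟩ rfl (CvR.step ⟨(bnd_r (bnd_r cT0_24_111.down))⟩ rfl CvR.zero)) rfl <|
    CvB.step (b := 21) (q := 3) (CvR.step ⟨bnd_l cT0_21_72.down⟩ rfl CvR.zero) rfl <|
    CvB.step (b := 18) (q := 3) (CvR.step ⟨(bnd_r cT0_18_82.down)⟩ rfl CvR.zero) rfl <|
    CvB.step (b := 15) (q := 3) (CvR.step ⟨bnd_l cT0_15_95.down⟩ rfl CvR.zero) rfl <|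
    CvB.step (b := 12) (q := 3) (CvR.step ⟨bnd_l cT0_12_109.down⟩ rfl CvR.zero) rfl <|
    CvB.step (b := 10) (q := 2) (CvR.step ⟨bnd_l cT0_10_80.down⟩ rfl CvR.zero) rfl <|
    CvB.step (b := 8) (q := 2) (CvR.step ⟨bnd_l (bnd_r cT0_8_77.down)⟩ rfl CvR.zero) rfl <|
    CvB.step (b := 6) (q := 2) (CvR.step ⟨(bnd_r cT0_6_89.down)⟩ rfl CvR.zero) rfl <|
    CvB.step (b := 4) (q := 2) (CvR.step ⟨bnd_l (bnd_r cT0_4_88.down)⟩ rfl CvR.zero) rfl <|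
    CvB.step (b := 2) (q := 2) (CvR.step ⟨bnd_l cT0_2_93.down⟩ rfl CvR.zero) rfl <|
    CvB.step (b := 0) (q := 2) (CvR.step ⟨bnd_l cT0_0_63.down⟩ rfl CvR.zero) rfl <|
    CvB.zero)
    (by decide +kernel)

theorem bT0_56 : JobB fT0 Am At (fun _ => At.b0) 56 :=
  CvB.job (b0 := 29) (y := 0) (n := 7) (lo := 0) (hi := 39)
    (CvB.step (b := 36) (q := 3) (CvR.step ⟨bnd_l (bnd_r (bnd_r (bnd_r cT0_36_23.down)))⟩ rfl CvR.zero) rfl <|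
    CvB.step (b := 30) (q := 6) (CvR.step ⟨bnd_l (bnd_r cT0_30_69.down)⟩ rfl CvR.zero) rfl <|
    CvB.step (b := 24) (q := 6) (CvR.step ⟨(bnd_r cT0_24_112.down)⟩ rfl CvR.zero) rfl <|
    CvB.step (b := 21) (q := 3) (CvR.step ⟨bnd_l (bnd_r cT0_21_72.down)⟩ rfl CvR.zero) rfl <|
    CvB.step (b := 18) (q := 3) (CvR.step ⟨bnd_l cT0_18_83.down⟩ rfl CvR.zero) rfl <|
    CvB.step (b := 15) (q := 3) (CvR.step ⟨(bnd_r cT0_15_95.down)⟩ rfl CvR.zero) rfl <|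
    CvB.step (b := 12) (q := 3) (CvR.step ⟨(bnd_r cT0_12_109.down)⟩ rfl CvR.zero) rfl <|
    CvB.step (b := 10) (q := 2) (CvR.step ⟨bnd_l (bnd_r cT0_10_80.down)⟩ rfl CvR.zero) rfl <|
    CvB.step (b := 8) (q := 2) (CvR.step ⟨bnd_l (bnd_r (bnd_r cT0_8_77.down))⟩ rfl CvR.zero) rfl <|
    CvB.step (b := 6) (q := 2) (CvR.step ⟨bnd_l cT0_6_90.down⟩ rfl CvR.zero) rfl <|
    CvB.step (b := 4) (q := 2) (CvR.step ⟨bnd_l cT0_4_89.down⟩ rfl (CvR.step ⟨(bnd_r (bnd_r cT0_4_88.down))⟩ rfl CvR.zero)) rfl <|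
    CvB.step (b := 2) (q := 2) (CvR.step ⟨bnd_l (bnd_r cT0_2_93.down)⟩ rfl CvR.zero) rfl <|
    CvB.step (b := 0) (q := 2) (CvR.step ⟨bnd_l (bnd_r cT0_0_63.down)⟩ rfl CvR.zero) rfl <|
    CvB.zero)
    (by decide +kernel)

theorem bT0_57 : JobB fT0 Am At (fun _ => At.b0) 57 :=
  CvB.job (b0 := 29) (y := 1) (n := 8) (lo := 0) (hi := 39)
    (CvB.step (b := 36) (q := 3) (CvR.step ⟨bnd_l (bnd_r (bnd_r (bnd_r (bnd_r cT0_36_23.down))))⟩ rfl CvR.zero) rfl <|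
    CvB.step (b := 30) (q := 6) (CvR.step ⟨(bnd_r (bnd_r cT0_30_69.down))⟩ rfl CvR.zero) rfl <|
    CvB.step (b := 24) (q := 6) (CvR.step ⟨bnd_l cT0_24_113.down⟩ rfl CvR.zero) rfl <|
    CvB.step (b := 21) (q := 3) (CvR.step ⟨(bnd_r (bnd_r cT0_21_72.down))⟩ rfl CvR.zero) rfl <|
    CvB.step (b := 18) (q := 3) (CvR.step ⟨bnd_l (bnd_r cT0_18_83.down)⟩ rfl CvR.zero) rfl <|
    CvB.step (b := 15) (q := 3) (CvR.step ⟨bnd_l cT0_15_96.down⟩ rfl CvR.zero) rfl <|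
    CvB.step (b := 12) (q := 3) (CvR.step ⟨bnd_l cT0_12_110.down⟩ rfl CvR.zero) rfl <|
    CvB.step (b := 10) (q := 2) (CvR.step ⟨(bnd_r (bnd_r cT0_10_80.down))⟩ rfl CvR.zero) rfl <|
    CvB.step (b := 8) (q := 2) (CvR.step ⟨bnd_l cT0_8_78.down⟩ rfl (CvR.step ⟨(bnd_r (bnd_r (bnd_r cT0_8_77.down)))⟩ rfl CvR.zero)) rfl <|
    CvB.step (b := 6) (q := 2) (CvR.step ⟨bnd_l (bnd_r cT0_6_90.down)⟩ rfl CvR.zero) rfl <|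
    CvB.step (b := 4) (q := 2) (CvR.step ⟨bnd_l (bnd_r cT0_4_89.down)⟩ rfl CvR.zero) rfl <|
    CvB.step (b := 2) (q := 2) (CvR.step ⟨bnd_l cT0_2_94.down⟩ rfl (CvR.step ⟨(bnd_r (bnd_r cT0_2_93.down))⟩ rfl CvR.zero)) rfl <|
    CvB.step (b := 0) (q := 2) (CvR.step ⟨bnd_l (bnd_r (bnd_r cT0_0_63.down))⟩ rfl CvR.zero) rfl <|
    CvB.zero)
    (by decide +kernel)

theorem bT0_58 : JobB fT0 Am At (fun _ => At.b0) 58 :=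
  CvB.job (b0 := 30) (y := 0) (n := 5) (lo := 0) (hi := 39)
    (CvB.step (b := 36) (q := 3) (CvR.step ⟨bnd_l (bnd_r (bnd_r (bnd_r (bnd_r (bnd_r cT0_36_23.down)))))⟩ rfl CvR.zero) rfl <|
    CvB.step (b := 30) (q := 6) (CvR.step ⟨bnd_l cT0_30_70.down⟩ rfl CvR.zero) rfl <|
    CvB.step (b := 24) (q := 6) (CvR.step ⟨(bnd_r cT0_24_113.down)⟩ rfl CvR.zero) rfl <|
    CvB.step (b := 21) (q := 3) (CvR.step ⟨bnd_l cT0_21_73.down⟩ rfl CvR.zero) rfl <|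
    CvB.step (b := 18) (q := 3) (CvR.step ⟨(bnd_r (bnd_r cT0_18_83.down))⟩ rfl CvR.zero) rfl <|
    CvB.step (b := 15) (q := 3) (CvR.step ⟨bnd_l (bnd_r cT0_15_96.down)⟩ rfl CvR.zero) rfl <|
    CvB.step (b := 12) (q := 3) (CvR.step ⟨(bnd_r cT0_12_110.down)⟩ rfl CvR.zero) rfl <|
    CvB.step (b := 10) (q := 2) (CvR.step ⟨bnd_l cT0_10_81.down⟩ rfl CvR.zero) rfl <|
    CvB.step (b := 8) (q := 2) (CvR.step ⟨bnd_l (bnd_r cT0_8_78.down)⟩ rfl CvR.zero) rfl <|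
    CvB.step (b := 6) (q := 2) (CvR.step ⟨(bnd_r (bnd_r cT0_6_90.down))⟩ rfl CvR.zero) rfl <|
    CvB.step (b := 4) (q := 2) (CvR.step ⟨bnd_l (bnd_r (bnd_r cT0_4_89.down))⟩ rfl CvR.zero) rfl <|
    CvB.step (b := 2) (q := 2) (CvR.step ⟨bnd_l (bnd_r cT0_2_94.down)⟩ rfl CvR.zero) rfl <|
    CvB.step (b := 0) (q := 2) (CvR.step ⟨(bnd_r (bnd_r (bnd_r cT0_0_63.down)))⟩ rfl CvR.zero) rfl <|
    CvB.zero)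
    (by decide +kernel)

theorem bT0_59 : JobB fT0 Am At (fun _ => At.b0) 59 :=
  CvB.job (b0 := 30) (y := 1) (n := 6) (lo := 0) (hi := 39)
    (CvB.step (b := 36) (q := 3) (CvR.step ⟨bnd_l (bnd_r (bnd_r (bnd_r (bnd_r (bnd_r (bnd_r cT0_36_23.down))))))⟩ rfl CvR.zero) rfl <|
    CvB.step (b := 30) (q := 6) (CvR.step ⟨bnd_l (bnd_r cT0_30_70.down)⟩ rfl CvR.zero) rfl <|
    CvB.step (b := 24) (q := 6) (CvR.step ⟨bnd_l cT0_24_114.down⟩ rfl CvR.zero) rfl <|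
    CvB.step (b := 21) (q := 3) (CvR.step ⟨bnd_l (bnd_r cT0_21_73.down)⟩ rfl CvR.zero) rfl <|
    CvB.step (b := 18) (q := 3) (CvR.step ⟨bnd_l cT0_18_84.down⟩ rfl CvR.zero) rfl <|
    CvB.step (b := 15) (q := 3) (CvR.step ⟨(bnd_r (bnd_r cT0_15_96.down))⟩ rfl CvR.zero) rfl <|
    CvB.step (b := 12) (q := 3) (CvR.step ⟨bnd_l cT0_12_111.down⟩ rfl CvR.zero) rfl <|
    CvB.step (b := 10) (q := 2) (CvR.step ⟨bnd_l (bnd_r cT0_10_81.down)⟩ rfl CvR.zero) rfl <|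
    CvB.step (b := 8) (q := 2) (CvR.step ⟨bnd_l (bnd_r (bnd_r cT0_8_78.down))⟩ rfl CvR.zero) rfl <|
    CvB.step (b := 6) (q := 2) (CvR.step ⟨bnd_l cT0_6_91.down⟩ rfl CvR.zero) rfl <|
    CvB.step (b := 4) (q := 2) (CvR.step ⟨bnd_l cT0_4_90.down⟩ rfl (CvR.step ⟨(bnd_r (bnd_r (bnd_r cT0_4_89.down)))⟩ rfl CvR.zero)) rfl <|
    CvB.step (b := 2) (q := 2) (CvR.step ⟨bnd_l (bnd_r (bnd_r cT0_2_94.down))⟩ rfl CvR.zero) rfl <|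
    CvB.step (b := 0) (q := 2) (CvR.step ⟨bnd_l cT0_0_64.down⟩ rfl CvR.zero) rfl <|
    CvB.zero)
    (by decide +kernel)

theorem bT0_60 : JobB fT0 Am At (fun _ => At.b0) 60 :=
  CvB.job (b0 := 31) (y := 0) (n := 3) (lo := 0) (hi := 39)
    (CvB.step (b := 36) (q := 3) (CvR.step ⟨(bnd_r (bnd_r (bnd_r (bnd_r (bnd_r (bnd_r (bnd_r cT0_36_23.down)))))))⟩ rfl CvR.zero) rfl <|
    CvB.step (b := 30) (q := 6) (CvR.step ⟨bnd_l (bnd_r (bnd_r cT0_30_70.down))⟩ rfl CvR.zero) rfl <|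
    CvB.step (b := 24) (q := 6) (CvR.step ⟨bnd_l (bnd_r cT0_24_114.down)⟩ rfl CvR.zero) rfl <|
    CvB.step (b := 21) (q := 3) (CvR.step ⟨bnd_l (bnd_r (bnd_r cT0_21_73.down))⟩ rfl CvR.zero) rfl <|
    CvB.step (b := 18) (q := 3) (CvR.step ⟨bnd_l (bnd_r cT0_18_84.down)⟩ rfl CvR.zero) rfl <|
    CvB.step (b := 15) (q := 3) (CvR.step ⟨bnd_l cT0_15_97.down⟩ rfl CvR.zero) rfl <|
    CvB.step (b := 12) (q := 3) (CvR.step ⟨bnd_l (bnd_r cT0_12_111.down)⟩ rfl CvR.zero) rfl <|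
    CvB.step (b := 10) (q := 2) (CvR.step ⟨bnd_l (bnd_r (bnd_r cT0_10_81.down))⟩ rfl CvR.zero) rfl <|
    CvB.step (b := 8) (q := 2) (CvR.step ⟨bnd_l (bnd_r (bnd_r (bnd_r cT0_8_78.down)))⟩ rfl CvR.zero) rfl <|
    CvB.step (b := 6) (q := 2) (CvR.step ⟨bnd_l (bnd_r cT0_6_91.down)⟩ rfl CvR.zero) rfl <|
    CvB.step (b := 4) (q := 2) (CvR.step ⟨bnd_l (bnd_r cT0_4_90.down)⟩ rfl CvR.zero) rfl <|
    CvB.step (b := 2) (q := 2) (CvR.step ⟨(bnd_r (bnd_r (bnd_r cT0_2_94.down)))⟩ rfl CvR.zero) rfl <|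
    CvB.step (b := 0) (q := 2) (CvR.step ⟨bnd_l (bnd_r cT0_0_64.down)⟩ rfl CvR.zero) rfl <|
    CvB.zero)
    (by decide +kernel)

theorem bT0_61 : JobB fT0 Am At (fun _ => At.b0) 61 :=
  CvB.job (b0 := 31) (y := 1) (n := 4) (lo := 0) (hi := 39)
    (CvB.step (b := 36) (q := 3) (CvR.step ⟨bnd_l cT0_36_24.down⟩ rfl CvR.zero) rfl <|
    CvB.step (b := 30) (q := 6) (CvR.step ⟨bnd_l (bnd_r (bnd_r (bnd_r cT0_30_70.down)))⟩ rfl CvR.zero) rfl <|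
    CvB.step (b := 24) (q := 6) (CvR.step ⟨(bnd_r (bnd_r cT0_24_114.down))⟩ rfl CvR.zero) rfl <|
    CvB.step (b := 21) (q := 3) (CvR.step ⟨bnd_l (bnd_r (bnd_r (bnd_r cT0_21_73.down)))⟩ rfl CvR.zero) rfl <|
    CvB.step (b := 18) (q := 3) (CvR.step ⟨bnd_l (bnd_r (bnd_r cT0_18_84.down))⟩ rfl CvR.zero) rfl <|
    CvB.step (b := 15) (q := 3) (CvR.step ⟨bnd_l (bnd_r cT0_15_97.down)⟩ rfl CvR.zero) rfl <|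
    CvB.step (b := 12) (q := 3) (CvR.step ⟨bnd_l (bnd_r (bnd_r cT0_12_111.down))⟩ rfl CvR.zero) rfl <|
    CvB.step (b := 10) (q := 2) (CvR.step ⟨bnd_l (bnd_r (bnd_r (bnd_r cT0_10_81.down)))⟩ rfl CvR.zero) rfl <|
    CvB.step (b := 8) (q := 2) (CvR.step ⟨bnd_l (bnd_r (bnd_r (bnd_r (bnd_r cT0_8_78.down))))⟩ rfl CvR.zero) rfl <|
    CvB.step (b := 6) (q := 2) (CvR.step ⟨bnd_l (bnd_r (bnd_r cT0_6_91.down))⟩ rfl CvR.zero) rfl <|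
    CvB.step (b := 4) (q := 2) (CvR.step ⟨bnd_l (bnd_r (bnd_r cT0_4_90.down))⟩ rfl CvR.zero) rfl <|
    CvB.step (b := 2) (q := 2) (CvR.step ⟨bnd_l cT0_2_95.down⟩ rfl CvR.zero) rfl <|
    CvB.step (b := 0) (q := 2) (CvR.step ⟨bnd_l (bnd_r (bnd_r cT0_0_64.down))⟩ rfl CvR.zero) rfl <|
    CvB.zero)
    (by decide +kernel)

theorem bT0_62 : JobB fT0 Am At (fun _ => At.b0) 62 :=
  CvB.job (b0 := 32) (y := 0) (n := 1) (lo := 0) (hi := 39)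
    (CvB.step (b := 36) (q := 3) (CvR.step ⟨bnd_l (bnd_r cT0_36_24.down)⟩ rfl CvR.zero) rfl <|
    CvB.step (b := 30) (q := 6) (CvR.step ⟨(bnd_r (bnd_r (bnd_r (bnd_r cT0_30_70.down))))⟩ rfl CvR.zero) rfl <|
    CvB.step (b := 24) (q := 6) (CvR.step ⟨bnd_l cT0_24_115.down⟩ rfl CvR.zero) rfl <|
    CvB.step (b := 21) (q := 3) (CvR.step ⟨bnd_l (bnd_r (bnd_r (bnd_r (bnd_r cT0_21_73.down))))⟩ rfl CvR.zero) rfl <|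
    CvB.step (b := 18) (q := 3) (CvR.step ⟨bnd_l (bnd_r (bnd_r (bnd_r cT0_18_84.down)))⟩ rfl CvR.zero) rfl <|
    CvB.step (b := 15) (q := 3) (CvR.step ⟨bnd_l (bnd_r (bnd_r cT0_15_97.down))⟩ rfl CvR.zero) rfl <|
    CvB.step (b := 12) (q := 3) (CvR.step ⟨(bnd_r (bnd_r (bnd_r cT0_12_111.down)))⟩ rfl CvR.zero) rfl <|
    CvB.step (b := 10) (q := 2) (CvR.step ⟨bnd_l (bnd_r (bnd_r (bnd_r (bnd_r cT0_10_81.down))))⟩ rfl CvR.zero) rfl <|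
    CvB.step (b := 8) (q := 2) (CvR.step ⟨(bnd_r (bnd_r (bnd_r (bnd_r (bnd_r cT0_8_78.down)))))⟩ rfl CvR.zero) rfl <|
    CvB.step (b := 6) (q := 2) (CvR.step ⟨bnd_l (bnd_r (bnd_r (bnd_r cT0_6_91.down)))⟩ rfl CvR.zero) rfl <|
    CvB.step (b := 4) (q := 2) (CvR.step ⟨bnd_l (bnd_r (bnd_r (bnd_r cT0_4_90.down)))⟩ rfl CvR.zero) rfl <|
    CvB.step (b := 2) (q := 2) (CvR.step ⟨bnd_l (bnd_r cT0_2_95.down)⟩ rfl CvR.zero) rfl <|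
    CvB.step (b := 0) (q := 2) (CvR.step ⟨bnd_l (bnd_r (bnd_r (bnd_r cT0_0_64.down)))⟩ rfl CvR.zero) rfl <|
    CvB.zero)
    (by decide +kernel)

theorem bT0_63 : JobB fT0 Am At (fun _ => At.b0) 63 :=
  CvB.job (b0 := 32) (y := 1) (n := 2) (lo := 0) (hi := 39)
    (CvB.step (b := 36) (q := 3) (CvR.step ⟨(bnd_r (bnd_r cT0_36_24.down))⟩ rfl CvR.zero) rfl <|
    CvB.step (b := 30) (q := 6) (CvR.step ⟨cT0_30_71.down⟩ rfl CvR.zero) rfl <|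
    CvB.step (b := 24) (q := 6) (CvR.step ⟨(bnd_r cT0_24_115.down)⟩ rfl CvR.zero) rfl <|
    CvB.step (b := 21) (q := 3) (CvR.step ⟨(bnd_r (bnd_r (bnd_r (bnd_r (bnd_r cT0_21_73.down)))))⟩ rfl CvR.zero) rfl <|
    CvB.step (b := 18) (q := 3) (CvR.step ⟨(bnd_r (bnd_r (bnd_r (bnd_r cT0_18_84.down))))⟩ rfl CvR.zero) rfl <|
    CvB.step (b := 15) (q := 3) (CvR.step ⟨(bnd_r (bnd_r (bnd_r cT0_15_97.down)))⟩ rfl CvR.zero) rfl <|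
    CvB.step (b := 12) (q := 3) (CvR.step ⟨cT0_12_112.down⟩ rfl CvR.zero) rfl <|
    CvB.step (b := 10) (q := 2) (CvR.step ⟨(bnd_r (bnd_r (bnd_r (bnd_r (bnd_r cT0_10_81.down)))))⟩ rfl CvR.zero) rfl <|
    CvB.step (b := 8) (q := 2) (CvR.step ⟨cT0_8_79.down⟩ rfl CvR.zero) rfl <|
    CvB.step (b := 6) (q := 2) (CvR.step ⟨(bnd_r (bnd_r (bnd_r (bnd_r cT0_6_91.down))))⟩ rfl CvR.zero) rfl <|
    CvB.step (b := 4) (q := 2) (CvR.step ⟨(bnd_r (bnd_r (bnd_r (bnd_r cT0_4_90.down))))⟩ rfl CvR.zero) rfl <|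
    CvB.step (b := 2) (q := 2) (CvR.step ⟨(bnd_r (bnd_r cT0_2_95.down))⟩ rfl CvR.zero) rfl <|
    CvB.step (b := 0) (q := 2) (CvR.step ⟨(bnd_r (bnd_r (bnd_r (bnd_r cT0_0_64.down))))⟩ rfl CvR.zero) rfl <|
    CvB.zero)
    (by decide +kernel)

theorem jobT0 : Job fT0 Am At (fun _ => At.b0) :=
  AllP.job (n := 64)
    (AllP.step bT0_63 <|
    AllP.step bT0_62 <|
    AllP.step bT0_61 <|
    AllP.step bT0_60 <|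
    AllP.step bT0_59 <|
    AllP.step bT0_58 <|
    AllP.step bT0_57 <|
    AllP.step bT0_56 <|
    AllP.step bT0_55 <|
    AllP.step bT0_54 <|
    AllP.step bT0_53 <|
    AllP.step bT0_52 <|
    AllP.step bT0_51 <|
    AllP.step bT0_50 <|
    AllP.step bT0_49 <|
    AllP.step bT0_48 <|
    AllP.step bT0_47 <|
    AllP.step bT0_46 <|
    AllP.step bT0_45 <|
    AllP.step bT0_44 <|
    AllP.step bT0_43 <|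
    AllP.step bT0_42 <|
    AllP.step bT0_41 <|
    AllP.step bT0_40 <|
    AllP.step bT0_39 <|
    AllP.step bT0_38 <|
    AllP.step bT0_37 <|
    AllP.step bT0_36 <|
    AllP.step bT0_35 <|
    AllP.step bT0_34 <|
    AllP.step bT0_33 <|
    AllP.step bT0_32 <|
    AllP.step bT0_31 <|
    AllP.step bT0_30 <|
    AllP.step bT0_29 <|
    AllP.step bT0_28 <|
    AllP.step bT0_27 <|
    AllP.step bT0_26 <|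
    AllP.step bT0_25 <|
    AllP.step bT0_24 <|
    AllP.step bT0_23 <|
    AllP.step bT0_22 <|
    AllP.step bT0_21 <|
    AllP.step bT0_20 <|
    AllP.step bT0_19 <|
    AllP.step bT0_18 <|
    AllP.step bT0_17 <|
    AllP.step bT0_16 <|
    AllP.step bT0_15 <|
    AllP.step bT0_14 <|
    AllP.step bT0_13 <|
    AllP.step bT0_12 <|
    AllP.step bT0_11 <|
    AllP.step bT0_10 <|
    AllP.step bT0_9 <|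
    AllP.step bT0_8 <|
    AllP.step bT0_7 <|
    AllP.step bT0_6 <|
    AllP.step bT0_5 <|
    AllP.step bT0_4 <|
    AllP.step bT0_3 <|
    AllP.step bT0_2 <|
    AllP.step bT0_1 <|
    AllP.step bT0_0 <|
    AllP.zero _)
    (by decide +kernel)

end Pool.Agent.Work.MP_6bf1e5_an.HD
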