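import Pool.Agent.Lib.KBlk.Jobs
import Pool.Agent.Work.MP_6bf1e5_an.HD.CTP0
import Pool.Agent.Work.MP_6bf1e5_an.HD.CTP1
import Pool.Agent.Work.MP_6bf1e5_an.HD.CTP2
import Pool.Agent.Work.MP_6bf1e5_an.HD.CTP3
import Pool.Agent.Work.MP_6bf1e5_an.HD.CTP4
import Pool.Agent.Work.MP_6bf1e5_an.HD.CTP5
import Pool.Agent.Work.MP_6bf1e5_an.HD.CTP6
import Pool.Agent.Work.MP_6bf1e5_an.HD.CTP7
import Pool.Agent.Work.MP_6bf1e5_an.HD.CTP8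
import Pool.Agent.Work.MP_6bf1e5_an.HD.CTP9
import Pool.Agent.Work.MP_6bf1e5_an.HD.CTP10
import Pool.Agent.Work.MP_6bf1e5_an.HD.CTP11
import Pool.Agent.Work.MP_6bf1e5_an.HD.CTP12
import Pool.Agent.Work.MP_6bf1e5_an.HD.CTP13
import Pool.Agent.Work.MP_6bf1e5_an.HD.CTP14
import Pool.Agent.Work.MP_6bf1e5_an.HD.CTP15
import Pool.Agent.Work.MP_6bf1e5_an.HD.CTP16
import Pool.Agent.Work.MP_6bf1e5_an.HD.CTP17
import Pool.Agent.Work.MP_6bf1e5_an.HD.CTP18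

/-! The pass TP. -/

namespace Pool.Agent.Work.MP_6bf1e5_an.HD

open Pool.Agent.Lib.KLA Pool.Agent.Lib.KBlk

theorem bTP_0 : JobB fTP Ah At (fun _ => At.b0) 0 :=
  CvB.job (b0 := 1) (y := 0) (n := 55) (lo := 0) (hi := 39)
    (CvB.step (b := 36) (q := 3) (CvR.step ⟨bnd_l cTP_36_0.down⟩ rfl CvR.zero) rfl <|
    CvB.step (b := 30) (q := 6) (CvR.step ⟨cTP_30_0.down⟩ rfl CvR.zero) rfl <|
    CvB.step (b := 24) (q := 6) (CvR.step ⟨cTP_24_1.down⟩ rfl (CvR.step ⟨cTP_24_0.down⟩ rfl CvR.zero)) rfl <|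
    CvB.step (b := 18) (q := 6) (CvR.step ⟨bnd_l cTP_18_2.down⟩ rfl (CvR.step ⟨cTP_18_1.down⟩ rfl (CvR.step ⟨cTP_18_0.down⟩ rfl CvR.zero))) rfl <|
    CvB.step (b := 15) (q := 3) (CvR.step ⟨bnd_l cTP_15_1.down⟩ rfl (CvR.step ⟨cTP_15_0.down⟩ rfl CvR.zero)) rfl <|
    CvB.step (b := 12) (q := 3) (CvR.step ⟨bnd_l cTP_12_1.down⟩ rfl (CvR.step ⟨cTP_12_0.down⟩ rfl CvR.zero)) rfl <|
    CvB.step (b := 9) (q := 3) (CvR.step ⟨bnd_l cTP_9_1.down⟩ rfl (CvR.step ⟨cTP_9_0.down⟩ rfl CvR.zero)) rfl <|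
    CvB.step (b := 6) (q := 3) (CvR.step ⟨cTP_6_1.down⟩ rfl (CvR.step ⟨cTP_6_0.down⟩ rfl CvR.zero)) rfl <|
    CvB.step (b := 3) (q := 3) (CvR.step ⟨cTP_3_1.down⟩ rfl (CvR.step ⟨cTP_3_0.down⟩ rfl CvR.zero)) rfl <|
    CvB.step (b := 0) (q := 3) (CvR.step ⟨bnd_l cTP_0_1.down⟩ rfl (CvR.step ⟨cTP_0_0.down⟩ rfl CvR.zero)) rfl <|
    CvB.zero)
    (by decide +kernel)

theorem bTP_1 : JobB fTP Ah At (fun _ => At.b0) 1 :=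
  CvB.job (b0 := 1) (y := 1) (n := 58) (lo := 0) (hi := 39)
    (CvB.step (b := 36) (q := 3) (CvR.step ⟨(bnd_r cTP_36_0.down)⟩ rfl CvR.zero) rfl <|
    CvB.step (b := 30) (q := 6) (CvR.step ⟨bnd_l cTP_30_2.down⟩ rfl (CvR.step ⟨cTP_30_1.down⟩ rfl CvR.zero)) rfl <|
    CvB.step (b := 24) (q := 6) (CvR.step ⟨cTP_24_3.down⟩ rfl (CvR.step ⟨cTP_24_2.down⟩ rfl CvR.zero)) rfl <|
    CvB.step (b := 18) (q := 6) (CvR.step ⟨cTP_18_4.down⟩ rfl (CvR.step ⟨cTP_18_3.down⟩ rfl (CvR.step ⟨(bnd_r cTP_18_2.down)⟩ rfl CvR.zero))) rfl <|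
    CvB.step (b := 15) (q := 3) (CvR.step ⟨cTP_15_2.down⟩ rfl (CvR.step ⟨(bnd_r cTP_15_1.down)⟩ rfl CvR.zero)) rfl <|
    CvB.step (b := 12) (q := 3) (CvR.step ⟨bnd_l cTP_12_3.down⟩ rfl (CvR.step ⟨cTP_12_2.down⟩ rfl (CvR.step ⟨(bnd_r cTP_12_1.down)⟩ rfl CvR.zero))) rfl <|
    CvB.step (b := 9) (q := 3) (CvR.step ⟨bnd_l cTP_9_3.down⟩ rfl (CvR.step ⟨cTP_9_2.down⟩ rfl (CvR.step ⟨(bnd_r cTP_9_1.down)⟩ rfl CvR.zero))) rfl <|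
    CvB.step (b := 6) (q := 3) (CvR.step ⟨cTP_6_3.down⟩ rfl (CvR.step ⟨cTP_6_2.down⟩ rfl CvR.zero)) rfl <|
    CvB.step (b := 3) (q := 3) (CvR.step ⟨bnd_l cTP_3_4.down⟩ rfl (CvR.step ⟨cTP_3_3.down⟩ rfl (CvR.step ⟨cTP_3_2.down⟩ rfl CvR.zero))) rfl <|
    CvB.step (b := 0) (q := 3) (CvR.step ⟨bnd_l cTP_0_3.down⟩ rfl (CvR.step ⟨cTP_0_2.down⟩ rfl (CvR.step ⟨(bnd_r cTP_0_1.down)⟩ rfl CvR.zero))) rfl <|
    CvB.zero)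
    (by decide +kernel)

theorem bTP_2 : JobB fTP Ah At (fun _ => At.b0) 2 :=
  CvB.job (b0 := 2) (y := 0) (n := 53) (lo := 0) (hi := 39)
    (CvB.step (b := 36) (q := 3) (CvR.step ⟨bnd_l cTP_36_1.down⟩ rfl CvR.zero) rfl <|
    CvB.step (b := 30) (q := 6) (CvR.step ⟨bnd_l cTP_30_3.down⟩ rfl (CvR.step ⟨(bnd_r cTP_30_2.down)⟩ rfl CvR.zero)) rfl <|
    CvB.step (b := 24) (q := 6) (CvR.step ⟨cTP_24_5.down⟩ rfl (CvR.step ⟨cTP_24_4.down⟩ rfl CvR.zero)) rfl <|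
    CvB.step (b := 18) (q := 6) (CvR.step ⟨bnd_l cTP_18_7.down⟩ rfl (CvR.step ⟨cTP_18_6.down⟩ rfl (CvR.step ⟨cTP_18_5.down⟩ rfl CvR.zero))) rfl <|
    CvB.step (b := 15) (q := 3) (CvR.step ⟨bnd_l cTP_15_4.down⟩ rfl (CvR.step ⟨cTP_15_3.down⟩ rfl CvR.zero)) rfl <|
    CvB.step (b := 12) (q := 3) (CvR.step ⟨bnd_l cTP_12_4.down⟩ rfl (CvR.step ⟨(bnd_r cTP_12_3.down)⟩ rfl CvR.zero)) rfl <|
    CvB.step (b := 9) (q := 3) (CvR.step ⟨bnd_l cTP_9_5.down⟩ rfl (CvR.step ⟨cTP_9_4.down⟩ rfl (CvR.step ⟨(bnd_r cTP_9_3.down)⟩ rfl CvR.zero))) rfl <|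
    CvB.step (b := 6) (q := 3) (CvR.step ⟨cTP_6_5.down⟩ rfl (CvR.step ⟨cTP_6_4.down⟩ rfl CvR.zero)) rfl <|
    CvB.step (b := 3) (q := 3) (CvR.step ⟨cTP_3_5.down⟩ rfl (CvR.step ⟨(bnd_r cTP_3_4.down)⟩ rfl CvR.zero)) rfl <|
    CvB.step (b := 0) (q := 3) (CvR.step ⟨cTP_0_4.down⟩ rfl (CvR.step ⟨(bnd_r cTP_0_3.down)⟩ rfl CvR.zero)) rfl <|
    CvB.zero)
    (by decide +kernel)

theorem bTP_3 : JobB fTP Ah At (fun _ => At.b0) 3 :=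
  CvB.job (b0 := 2) (y := 1) (n := 56) (lo := 0) (hi := 39)
    (CvB.step (b := 36) (q := 3) (CvR.step ⟨(bnd_r cTP_36_1.down)⟩ rfl CvR.zero) rfl <|
    CvB.step (b := 30) (q := 6) (CvR.step ⟨bnd_l cTP_30_4.down⟩ rfl (CvR.step ⟨(bnd_r cTP_30_3.down)⟩ rfl CvR.zero)) rfl <|
    CvB.step (b := 24) (q := 6) (CvR.step ⟨cTP_24_7.down⟩ rfl (CvR.step ⟨cTP_24_6.down⟩ rfl CvR.zero)) rfl <|
    CvB.step (b := 18) (q := 6) (CvR.step ⟨cTP_18_9.down⟩ rfl (CvR.step ⟨cTP_18_8.down⟩ rfl (CvR.step ⟨(bnd_r cTP_18_7.down)⟩ rfl CvR.zero))) rfl <|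
    CvB.step (b := 15) (q := 3) (CvR.step ⟨cTP_15_5.down⟩ rfl (CvR.step ⟨(bnd_r cTP_15_4.down)⟩ rfl CvR.zero)) rfl <|
    CvB.step (b := 12) (q := 3) (CvR.step ⟨bnd_l cTP_12_6.down⟩ rfl (CvR.step ⟨cTP_12_5.down⟩ rfl (CvR.step ⟨(bnd_r cTP_12_4.down)⟩ rfl CvR.zero))) rfl <|
    CvB.step (b := 9) (q := 3) (CvR.step ⟨cTP_9_6.down⟩ rfl (CvR.step ⟨(bnd_r cTP_9_5.down)⟩ rfl CvR.zero)) rfl <|
    CvB.step (b := 6) (q := 3) (CvR.step ⟨cTP_6_7.down⟩ rfl (CvR.step ⟨cTP_6_6.down⟩ rfl CvR.zero)) rfl <|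
    CvB.step (b := 3) (q := 3) (CvR.step ⟨cTP_3_7.down⟩ rfl (CvR.step ⟨cTP_3_6.down⟩ rfl CvR.zero)) rfl <|
    CvB.step (b := 0) (q := 3) (CvR.step ⟨bnd_l cTP_0_6.down⟩ rfl (CvR.step ⟨cTP_0_5.down⟩ rfl CvR.zero)) rfl <|
    CvB.zero)
    (by decide +kernel)

theorem bTP_4 : JobB fTP Ah At (fun _ => At.b0) 4 :=
  CvB.job (b0 := 3) (y := 0) (n := 51) (lo := 0) (hi := 39)
    (CvB.step (b := 36) (q := 3) (CvR.step ⟨bnd_l cTP_36_2.down⟩ rfl CvR.zero) rfl <|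
    CvB.step (b := 30) (q := 6) (CvR.step ⟨bnd_l cTP_30_5.down⟩ rfl (CvR.step ⟨(bnd_r cTP_30_4.down)⟩ rfl CvR.zero)) rfl <|
    CvB.step (b := 24) (q := 6) (CvR.step ⟨cTP_24_9.down⟩ rfl (CvR.step ⟨cTP_24_8.down⟩ rfl CvR.zero)) rfl <|
    CvB.step (b := 18) (q := 6) (CvR.step ⟨bnd_l cTP_18_12.down⟩ rfl (CvR.step ⟨cTP_18_11.down⟩ rfl (CvR.step ⟨cTP_18_10.down⟩ rfl CvR.zero))) rfl <|
    CvB.step (b := 15) (q := 3) (CvR.step ⟨bnd_l cTP_15_7.down⟩ rfl (CvR.step ⟨cTP_15_6.down⟩ rfl CvR.zero)) rfl <|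
    CvB.step (b := 12) (q := 3) (CvR.step ⟨bnd_l cTP_12_7.down⟩ rfl (CvR.step ⟨(bnd_r cTP_12_6.down)⟩ rfl CvR.zero)) rfl <|
    CvB.step (b := 9) (q := 3) (CvR.step ⟨bnd_l cTP_9_8.down⟩ rfl (CvR.step ⟨cTP_9_7.down⟩ rfl CvR.zero)) rfl <|
    CvB.step (b := 6) (q := 3) (CvR.step ⟨cTP_6_9.down⟩ rfl (CvR.step ⟨cTP_6_8.down⟩ rfl CvR.zero)) rfl <|
    CvB.step (b := 3) (q := 3) (CvR.step ⟨cTP_3_9.down⟩ rfl (CvR.step ⟨cTP_3_8.down⟩ rfl CvR.zero)) rfl <|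
    CvB.step (b := 0) (q := 3) (CvR.step ⟨bnd_l cTP_0_8.down⟩ rfl (CvR.step ⟨cTP_0_7.down⟩ rfl (CvR.step ⟨(bnd_r cTP_0_6.down)⟩ rfl CvR.zero))) rfl <|
    CvB.zero)
    (by decide +kernel)

theorem bTP_5 : JobB fTP Ah At (fun _ => At.b0) 5 :=
  CvB.job (b0 := 3) (y := 1) (n := 54) (lo := 0) (hi := 39)
    (CvB.step (b := 36) (q := 3) (CvR.step ⟨(bnd_r cTP_36_2.down)⟩ rfl CvR.zero) rfl <|
    CvB.step (b := 30) (q := 6) (CvR.step ⟨bnd_l cTP_30_6.down⟩ rfl (CvR.step ⟨(bnd_r cTP_30_5.down)⟩ rfl CvR.zero)) rfl <|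
    CvB.step (b := 24) (q := 6) (CvR.step ⟨cTP_24_11.down⟩ rfl (CvR.step ⟨cTP_24_10.down⟩ rfl CvR.zero)) rfl <|
    CvB.step (b := 18) (q := 6) (CvR.step ⟨cTP_18_14.down⟩ rfl (CvR.step ⟨cTP_18_13.down⟩ rfl (CvR.step ⟨(bnd_r cTP_18_12.down)⟩ rfl CvR.zero))) rfl <|
    CvB.step (b := 15) (q := 3) (CvR.step ⟨bnd_l cTP_15_8.down⟩ rfl (CvR.step ⟨(bnd_r cTP_15_7.down)⟩ rfl CvR.zero)) rfl <|
    CvB.step (b := 12) (q := 3) (CvR.step ⟨bnd_l cTP_12_9.down⟩ rfl (CvR.step ⟨cTP_12_8.down⟩ rfl (CvR.step ⟨(bnd_r cTP_12_7.down)⟩ rfl CvR.zero))) rfl <|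
    CvB.step (b := 9) (q := 3) (CvR.step ⟨bnd_l cTP_9_10.down⟩ rfl (CvR.step ⟨cTP_9_9.down⟩ rfl (CvR.step ⟨(bnd_r cTP_9_8.down)⟩ rfl CvR.zero))) rfl <|
    CvB.step (b := 6) (q := 3) (CvR.step ⟨cTP_6_11.down⟩ rfl (CvR.step ⟨cTP_6_10.down⟩ rfl CvR.zero)) rfl <|
    CvB.step (b := 3) (q := 3) (CvR.step ⟨cTP_3_11.down⟩ rfl (CvR.step ⟨cTP_3_10.down⟩ rfl CvR.zero)) rfl <|
    CvB.step (b := 0) (q := 3) (CvR.step ⟨bnd_l cTP_0_9.down⟩ rfl (CvR.step ⟨(bnd_r cTP_0_8.down)⟩ rfl CvR.zero)) rfl <|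
    CvB.zero)
    (by decide +kernel)

theorem bTP_6 : JobB fTP Ah At (fun _ => At.b0) 6 :=
  CvB.job (b0 := 4) (y := 0) (n := 49) (lo := 0) (hi := 39)
    (CvB.step (b := 36) (q := 3) (CvR.step ⟨bnd_l cTP_36_3.down⟩ rfl CvR.zero) rfl <|
    CvB.step (b := 30) (q := 6) (CvR.step ⟨bnd_l cTP_30_7.down⟩ rfl (CvR.step ⟨(bnd_r cTP_30_6.down)⟩ rfl CvR.zero)) rfl <|
    CvB.step (b := 24) (q := 6) (CvR.step ⟨cTP_24_13.down⟩ rfl (CvR.step ⟨cTP_24_12.down⟩ rfl CvR.zero)) rfl <|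
    CvB.step (b := 18) (q := 6) (CvR.step ⟨bnd_l cTP_18_17.down⟩ rfl (CvR.step ⟨cTP_18_16.down⟩ rfl (CvR.step ⟨cTP_18_15.down⟩ rfl CvR.zero))) rfl <|
    CvB.step (b := 15) (q := 3) (CvR.step ⟨cTP_15_9.down⟩ rfl (CvR.step ⟨(bnd_r cTP_15_8.down)⟩ rfl CvR.zero)) rfl <|
    CvB.step (b := 12) (q := 3) (CvR.step ⟨bnd_l cTP_12_10.down⟩ rfl (CvR.step ⟨(bnd_r cTP_12_9.down)⟩ rfl CvR.zero)) rfl <|
    CvB.step (b := 9) (q := 3) (CvR.step ⟨bnd_l cTP_9_11.down⟩ rfl (CvR.step ⟨(bnd_r cTP_9_10.down)⟩ rfl CvR.zero)) rfl <|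
    CvB.step (b := 6) (q := 3) (CvR.step ⟨bnd_l cTP_6_13.down⟩ rfl (CvR.step ⟨cTP_6_12.down⟩ rfl CvR.zero)) rfl <|
    CvB.step (b := 3) (q := 3) (CvR.step ⟨cTP_3_13.down⟩ rfl (CvR.step ⟨cTP_3_12.down⟩ rfl CvR.zero)) rfl <|
    CvB.step (b := 0) (q := 3) (CvR.step ⟨bnd_l cTP_0_11.down⟩ rfl (CvR.step ⟨cTP_0_10.down⟩ rfl (CvR.step ⟨(bnd_r cTP_0_9.down)⟩ rfl CvR.zero))) rfl <|
    CvB.zero)
    (by decide +kernel)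

theorem bTP_7 : JobB fTP Ah At (fun _ => At.b0) 7 :=
  CvB.job (b0 := 4) (y := 1) (n := 52) (lo := 0) (hi := 39)
    (CvB.step (b := 36) (q := 3) (CvR.step ⟨bnd_l (bnd_r cTP_36_3.down)⟩ rfl CvR.zero) rfl <|
    CvB.step (b := 30) (q := 6) (CvR.step ⟨bnd_l cTP_30_8.down⟩ rfl (CvR.step ⟨(bnd_r cTP_30_7.down)⟩ rfl CvR.zero)) rfl <|
    CvB.step (b := 24) (q := 6) (CvR.step ⟨cTP_24_15.down⟩ rfl (CvR.step ⟨cTP_24_14.down⟩ rfl CvR.zero)) rfl <|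
    CvB.step (b := 18) (q := 6) (CvR.step ⟨cTP_18_19.down⟩ rfl (CvR.step ⟨cTP_18_18.down⟩ rfl (CvR.step ⟨(bnd_r cTP_18_17.down)⟩ rfl CvR.zero))) rfl <|
    CvB.step (b := 15) (q := 3) (CvR.step ⟨bnd_l cTP_15_11.down⟩ rfl (CvR.step ⟨cTP_15_10.down⟩ rfl CvR.zero)) rfl <|
    CvB.step (b := 12) (q := 3) (CvR.step ⟨cTP_12_11.down⟩ rfl (CvR.step ⟨(bnd_r cTP_12_10.down)⟩ rfl CvR.zero)) rfl <|
    CvB.step (b := 9) (q := 3) (CvR.step ⟨bnd_l cTP_9_13.down⟩ rfl (CvR.step ⟨cTP_9_12.down⟩ rfl (CvR.step ⟨(bnd_r cTP_9_11.down)⟩ rfl CvR.zero))) rfl <|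
    CvB.step (b := 6) (q := 3) (CvR.step ⟨bnd_l cTP_6_15.down⟩ rfl (CvR.step ⟨cTP_6_14.down⟩ rfl (CvR.step ⟨(bnd_r cTP_6_13.down)⟩ rfl CvR.zero))) rfl <|
    CvB.step (b := 3) (q := 3) (CvR.step ⟨cTP_3_15.down⟩ rfl (CvR.step ⟨cTP_3_14.down⟩ rfl CvR.zero)) rfl <|
    CvB.step (b := 0) (q := 3) (CvR.step ⟨bnd_l cTP_0_12.down⟩ rfl (CvR.step ⟨(bnd_r cTP_0_11.down)⟩ rfl CvR.zero)) rfl <|
    CvB.zero)
    (by decide +kernel)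

theorem bTP_8 : JobB fTP Ah At (fun _ => At.b0) 8 :=
  CvB.job (b0 := 5) (y := 0) (n := 47) (lo := 0) (hi := 39)
    (CvB.step (b := 36) (q := 3) (CvR.step ⟨bnd_l cTP_36_4.down⟩ rfl (CvR.step ⟨(bnd_r (bnd_r cTP_36_3.down))⟩ rfl CvR.zero)) rfl <|
    CvB.step (b := 30) (q := 6) (CvR.step ⟨bnd_l cTP_30_9.down⟩ rfl (CvR.step ⟨(bnd_r cTP_30_8.down)⟩ rfl CvR.zero)) rfl <|
    CvB.step (b := 24) (q := 6) (CvR.step ⟨cTP_24_17.down⟩ rfl (CvR.step ⟨cTP_24_16.down⟩ rfl CvR.zero)) rfl <|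
    CvB.step (b := 18) (q := 6) (CvR.step ⟨bnd_l cTP_18_22.down⟩ rfl (CvR.step ⟨cTP_18_21.down⟩ rfl (CvR.step ⟨cTP_18_20.down⟩ rfl CvR.zero))) rfl <|
    CvB.step (b := 15) (q := 3) (CvR.step ⟨bnd_l cTP_15_12.down⟩ rfl (CvR.step ⟨(bnd_r cTP_15_11.down)⟩ rfl CvR.zero)) rfl <|
    CvB.step (b := 12) (q := 3) (CvR.step ⟨bnd_l cTP_12_13.down⟩ rfl (CvR.step ⟨cTP_12_12.down⟩ rfl CvR.zero)) rfl <|
    CvB.step (b := 9) (q := 3) (CvR.step ⟨cTP_9_14.down⟩ rfl (CvR.step ⟨(bnd_r cTP_9_13.down)⟩ rfl CvR.zero)) rfl <|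
    CvB.step (b := 6) (q := 3) (CvR.step ⟨cTP_6_16.down⟩ rfl (CvR.step ⟨(bnd_r cTP_6_15.down)⟩ rfl CvR.zero)) rfl <|
    CvB.step (b := 3) (q := 3) (CvR.step ⟨cTP_3_17.down⟩ rfl (CvR.step ⟨cTP_3_16.down⟩ rfl CvR.zero)) rfl <|
    CvB.step (b := 0) (q := 3) (CvR.step ⟨bnd_l cTP_0_14.down⟩ rfl (CvR.step ⟨cTP_0_13.down⟩ rfl (CvR.step ⟨(bnd_r cTP_0_12.down)⟩ rfl CvR.zero))) rfl <|
    CvB.zero)
    (by decide +kernel)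

theorem bTP_9 : JobB fTP Ah At (fun _ => At.b0) 9 :=
  CvB.job (b0 := 5) (y := 1) (n := 50) (lo := 0) (hi := 39)
    (CvB.step (b := 36) (q := 3) (CvR.step ⟨bnd_l (bnd_r cTP_36_4.down)⟩ rfl CvR.zero) rfl <|
    CvB.step (b := 30) (q := 6) (CvR.step ⟨bnd_l cTP_30_10.down⟩ rfl (CvR.step ⟨(bnd_r cTP_30_9.down)⟩ rfl CvR.zero)) rfl <|
    CvB.step (b := 24) (q := 6) (CvR.step ⟨cTP_24_19.down⟩ rfl (CvR.step ⟨cTP_24_18.down⟩ rfl CvR.zero)) rfl <|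
    CvB.step (b := 18) (q := 6) (CvR.step ⟨bnd_l cTP_18_24.down⟩ rfl (CvR.step ⟨cTP_18_23.down⟩ rfl (CvR.step ⟨(bnd_r cTP_18_22.down)⟩ rfl CvR.zero))) rfl <|
    CvB.step (b := 15) (q := 3) (CvR.step ⟨cTP_15_13.down⟩ rfl (CvR.step ⟨(bnd_r cTP_15_12.down)⟩ rfl CvR.zero)) rfl <|
    CvB.step (b := 12) (q := 3) (CvR.step ⟨bnd_l cTP_12_14.down⟩ rfl (CvR.step ⟨(bnd_r cTP_12_13.down)⟩ rfl CvR.zero)) rfl <|
    CvB.step (b := 9) (q := 3) (CvR.step ⟨bnd_l cTP_9_16.down⟩ rfl (CvR.step ⟨cTP_9_15.down⟩ rfl CvR.zero)) rfl <|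
    CvB.step (b := 6) (q := 3) (CvR.step ⟨cTP_6_18.down⟩ rfl (CvR.step ⟨cTP_6_17.down⟩ rfl CvR.zero)) rfl <|
    CvB.step (b := 3) (q := 3) (CvR.step ⟨cTP_3_19.down⟩ rfl (CvR.step ⟨cTP_3_18.down⟩ rfl CvR.zero)) rfl <|
    CvB.step (b := 0) (q := 3) (CvR.step ⟨bnd_l cTP_0_15.down⟩ rfl (CvR.step ⟨(bnd_r cTP_0_14.down)⟩ rfl CvR.zero)) rfl <|
    CvB.zero)
    (by decide +kernel)

theorem bTP_10 : JobB fTP Ah At (fun _ => At.b0) 10 :=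
  CvB.job (b0 := 6) (y := 0) (n := 45) (lo := 0) (hi := 39)
    (CvB.step (b := 36) (q := 3) (CvR.step ⟨(bnd_r (bnd_r cTP_36_4.down))⟩ rfl CvR.zero) rfl <|
    CvB.step (b := 30) (q := 6) (CvR.step ⟨bnd_l cTP_30_11.down⟩ rfl (CvR.step ⟨(bnd_r cTP_30_10.down)⟩ rfl CvR.zero)) rfl <|
    CvB.step (b := 24) (q := 6) (CvR.step ⟨cTP_24_21.down⟩ rfl (CvR.step ⟨cTP_24_20.down⟩ rfl CvR.zero)) rfl <|
    CvB.step (b := 18) (q := 6) (CvR.step ⟨bnd_l cTP_18_26.down⟩ rfl (CvR.step ⟨cTP_18_25.down⟩ rfl (CvR.step ⟨(bnd_r cTP_18_24.down)⟩ rfl CvR.zero))) rfl <|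
    CvB.step (b := 15) (q := 3) (CvR.step ⟨bnd_l cTP_15_15.down⟩ rfl (CvR.step ⟨cTP_15_14.down⟩ rfl CvR.zero)) rfl <|
    CvB.step (b := 12) (q := 3) (CvR.step ⟨cTP_12_15.down⟩ rfl (CvR.step ⟨(bnd_r cTP_12_14.down)⟩ rfl CvR.zero)) rfl <|
    CvB.step (b := 9) (q := 3) (CvR.step ⟨cTP_9_17.down⟩ rfl (CvR.step ⟨(bnd_r cTP_9_16.down)⟩ rfl CvR.zero)) rfl <|
    CvB.step (b := 6) (q := 3) (CvR.step ⟨bnd_l cTP_6_20.down⟩ rfl (CvR.step ⟨cTP_6_19.down⟩ rfl CvR.zero)) rfl <|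
    CvB.step (b := 3) (q := 3) (CvR.step ⟨cTP_3_21.down⟩ rfl (CvR.step ⟨cTP_3_20.down⟩ rfl CvR.zero)) rfl <|
    CvB.step (b := 0) (q := 3) (CvR.step ⟨cTP_0_16.down⟩ rfl (CvR.step ⟨(bnd_r cTP_0_15.down)⟩ rfl CvR.zero)) rfl <|
    CvB.zero)
    (by decide +kernel)

theorem bTP_11 : JobB fTP Ah At (fun _ => At.b0) 11 :=
  CvB.job (b0 := 6) (y := 1) (n := 48) (lo := 0) (hi := 39)
    (CvB.step (b := 36) (q := 3) (CvR.step ⟨bnd_l cTP_36_5.down⟩ rfl CvR.zero) rfl <|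
    CvB.step (b := 30) (q := 6) (CvR.step ⟨bnd_l cTP_30_12.down⟩ rfl (CvR.step ⟨(bnd_r cTP_30_11.down)⟩ rfl CvR.zero)) rfl <|
    CvB.step (b := 24) (q := 6) (CvR.step ⟨cTP_24_23.down⟩ rfl (CvR.step ⟨cTP_24_22.down⟩ rfl CvR.zero)) rfl <|
    CvB.step (b := 18) (q := 6) (CvR.step ⟨cTP_18_28.down⟩ rfl (CvR.step ⟨cTP_18_27.down⟩ rfl (CvR.step ⟨(bnd_r cTP_18_26.down)⟩ rfl CvR.zero))) rfl <|
    CvB.step (b := 15) (q := 3) (CvR.step ⟨bnd_l cTP_15_16.down⟩ rfl (CvR.step ⟨(bnd_r cTP_15_15.down)⟩ rfl CvR.zero)) rfl <|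
    CvB.step (b := 12) (q := 3) (CvR.step ⟨bnd_l cTP_12_17.down⟩ rfl (CvR.step ⟨cTP_12_16.down⟩ rfl CvR.zero)) rfl <|
    CvB.step (b := 9) (q := 3) (CvR.step ⟨bnd_l cTP_9_19.down⟩ rfl (CvR.step ⟨cTP_9_18.down⟩ rfl CvR.zero)) rfl <|
    CvB.step (b := 6) (q := 3) (CvR.step ⟨bnd_l cTP_6_22.down⟩ rfl (CvR.step ⟨cTP_6_21.down⟩ rfl (CvR.step ⟨(bnd_r cTP_6_20.down)⟩ rfl CvR.zero))) rfl <|
    CvB.step (b := 3) (q := 3) (CvR.step ⟨cTP_3_23.down⟩ rfl (CvR.step ⟨cTP_3_22.down⟩ rfl CvR.zero)) rfl <|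
    CvB.step (b := 0) (q := 3) (CvR.step ⟨bnd_l cTP_0_18.down⟩ rfl (CvR.step ⟨cTP_0_17.down⟩ rfl CvR.zero)) rfl <|
    CvB.zero)
    (by decide +kernel)

theorem bTP_12 : JobB fTP Ah At (fun _ => At.b0) 12 :=
  CvB.job (b0 := 7) (y := 0) (n := 43) (lo := 0) (hi := 39)
    (CvB.step (b := 36) (q := 3) (CvR.step ⟨bnd_l (bnd_r cTP_36_5.down)⟩ rfl CvR.zero) rfl <|
    CvB.step (b := 30) (q := 6) (CvR.step ⟨bnd_l cTP_30_13.down⟩ rfl (CvR.step ⟨(bnd_r cTP_30_12.down)⟩ rfl CvR.zero)) rfl <|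
    CvB.step (b := 24) (q := 6) (CvR.step ⟨cTP_24_25.down⟩ rfl (CvR.step ⟨cTP_24_24.down⟩ rfl CvR.zero)) rfl <|
    CvB.step (b := 18) (q := 6) (CvR.step ⟨cTP_18_30.down⟩ rfl (CvR.step ⟨cTP_18_29.down⟩ rfl CvR.zero)) rfl <|
    CvB.step (b := 15) (q := 3) (CvR.step ⟨bnd_l cTP_15_17.down⟩ rfl (CvR.step ⟨(bnd_r cTP_15_16.down)⟩ rfl CvR.zero)) rfl <|
    CvB.step (b := 12) (q := 3) (CvR.step ⟨bnd_l cTP_12_18.down⟩ rfl (CvR.step ⟨(bnd_r cTP_12_17.down)⟩ rfl CvR.zero)) rfl <|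
    CvB.step (b := 9) (q := 3) (CvR.step ⟨cTP_9_20.down⟩ rfl (CvR.step ⟨(bnd_r cTP_9_19.down)⟩ rfl CvR.zero)) rfl <|
    CvB.step (b := 6) (q := 3) (CvR.step ⟨bnd_l cTP_6_23.down⟩ rfl (CvR.step ⟨(bnd_r cTP_6_22.down)⟩ rfl CvR.zero)) rfl <|
    CvB.step (b := 3) (q := 3) (CvR.step ⟨bnd_l cTP_3_25.down⟩ rfl (CvR.step ⟨cTP_3_24.down⟩ rfl CvR.zero)) rfl <|
    CvB.step (b := 0) (q := 3) (CvR.step ⟨bnd_l cTP_0_19.down⟩ rfl (CvR.step ⟨(bnd_r cTP_0_18.down)⟩ rfl CvR.zero)) rfl <|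
    CvB.zero)
    (by decide +kernel)

theorem bTP_13 : JobB fTP Ah At (fun _ => At.b0) 13 :=
  CvB.job (b0 := 7) (y := 1) (n := 46) (lo := 0) (hi := 39)
    (CvB.step (b := 36) (q := 3) (CvR.step ⟨bnd_l cTP_36_6.down⟩ rfl (CvR.step ⟨(bnd_r (bnd_r cTP_36_5.down))⟩ rfl CvR.zero)) rfl <|
    CvB.step (b := 30) (q := 6) (CvR.step ⟨bnd_l cTP_30_14.down⟩ rfl (CvR.step ⟨(bnd_r cTP_30_13.down)⟩ rfl CvR.zero)) rfl <|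
    CvB.step (b := 24) (q := 6) (CvR.step ⟨cTP_24_27.down⟩ rfl (CvR.step ⟨cTP_24_26.down⟩ rfl CvR.zero)) rfl <|
    CvB.step (b := 18) (q := 6) (CvR.step ⟨cTP_18_32.down⟩ rfl (CvR.step ⟨cTP_18_31.down⟩ rfl CvR.zero)) rfl <|
    CvB.step (b := 15) (q := 3) (CvR.step ⟨bnd_l cTP_15_18.down⟩ rfl (CvR.step ⟨(bnd_r cTP_15_17.down)⟩ rfl CvR.zero)) rfl <|
    CvB.step (b := 12) (q := 3) (CvR.step ⟨cTP_12_19.down⟩ rfl (CvR.step ⟨(bnd_r cTP_12_18.down)⟩ rfl CvR.zero)) rfl <|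
    CvB.step (b := 9) (q := 3) (CvR.step ⟨bnd_l cTP_9_22.down⟩ rfl (CvR.step ⟨cTP_9_21.down⟩ rfl CvR.zero)) rfl <|
    CvB.step (b := 6) (q := 3) (CvR.step ⟨cTP_6_24.down⟩ rfl (CvR.step ⟨(bnd_r cTP_6_23.down)⟩ rfl CvR.zero)) rfl <|
    CvB.step (b := 3) (q := 3) (CvR.step ⟨bnd_l cTP_3_27.down⟩ rfl (CvR.step ⟨cTP_3_26.down⟩ rfl (CvR.step ⟨(bnd_r cTP_3_25.down)⟩ rfl CvR.zero))) rfl <|
    CvB.step (b := 0) (q := 3) (CvR.step ⟨bnd_l cTP_0_21.down⟩ rfl (CvR.step ⟨cTP_0_20.down⟩ rfl (CvR.step ⟨(bnd_r cTP_0_19.down)⟩ rfl CvR.zero))) rfl <|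
    CvB.zero)
    (by decide +kernel)

theorem bTP_14 : JobB fTP Ah At (fun _ => At.b0) 14 :=
  CvB.job (b0 := 8) (y := 0) (n := 41) (lo := 0) (hi := 39)
    (CvB.step (b := 36) (q := 3) (CvR.step ⟨bnd_l (bnd_r cTP_36_6.down)⟩ rfl CvR.zero) rfl <|
    CvB.step (b := 30) (q := 6) (CvR.step ⟨bnd_l cTP_30_15.down⟩ rfl (CvR.step ⟨(bnd_r cTP_30_14.down)⟩ rfl CvR.zero)) rfl <|
    CvB.step (b := 24) (q := 6) (CvR.step ⟨cTP_24_29.down⟩ rfl (CvR.step ⟨cTP_24_28.down⟩ rfl CvR.zero)) rfl <|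
    CvB.step (b := 18) (q := 6) (CvR.step ⟨cTP_18_34.down⟩ rfl (CvR.step ⟨cTP_18_33.down⟩ rfl CvR.zero)) rfl <|
    CvB.step (b := 15) (q := 3) (CvR.step ⟨bnd_l cTP_15_19.down⟩ rfl (CvR.step ⟨(bnd_r cTP_15_18.down)⟩ rfl CvR.zero)) rfl <|
    CvB.step (b := 12) (q := 3) (CvR.step ⟨bnd_l cTP_12_21.down⟩ rfl (CvR.step ⟨cTP_12_20.down⟩ rfl CvR.zero)) rfl <|
    CvB.step (b := 9) (q := 3) (CvR.step ⟨bnd_l cTP_9_23.down⟩ rfl (CvR.step ⟨(bnd_r cTP_9_22.down)⟩ rfl CvR.zero)) rfl <|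
    CvB.step (b := 6) (q := 3) (CvR.step ⟨bnd_l cTP_6_26.down⟩ rfl (CvR.step ⟨cTP_6_25.down⟩ rfl CvR.zero)) rfl <|
    CvB.step (b := 3) (q := 3) (CvR.step ⟨cTP_3_28.down⟩ rfl (CvR.step ⟨(bnd_r cTP_3_27.down)⟩ rfl CvR.zero)) rfl <|
    CvB.step (b := 0) (q := 3) (CvR.step ⟨bnd_l cTP_0_22.down⟩ rfl (CvR.step ⟨(bnd_r cTP_0_21.down)⟩ rfl CvR.zero)) rfl <|
    CvB.zero)
    (by decide +kernel)

theorem bTP_15 : JobB fTP Ah At (fun _ => At.b0) 15 :=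
  CvB.job (b0 := 8) (y := 1) (n := 44) (lo := 0) (hi := 39)
    (CvB.step (b := 36) (q := 3) (CvR.step ⟨bnd_l (bnd_r (bnd_r cTP_36_6.down))⟩ rfl CvR.zero) rfl <|
    CvB.step (b := 30) (q := 6) (CvR.step ⟨(bnd_r cTP_30_15.down)⟩ rfl CvR.zero) rfl <|
    CvB.step (b := 24) (q := 6) (CvR.step ⟨cTP_24_31.down⟩ rfl (CvR.step ⟨cTP_24_30.down⟩ rfl CvR.zero)) rfl <|
    CvB.step (b := 18) (q := 6) (CvR.step ⟨cTP_18_36.down⟩ rfl (CvR.step ⟨cTP_18_35.down⟩ rfl CvR.zero)) rfl <|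
    CvB.step (b := 15) (q := 3) (CvR.step ⟨cTP_15_20.down⟩ rfl (CvR.step ⟨(bnd_r cTP_15_19.down)⟩ rfl CvR.zero)) rfl <|
    CvB.step (b := 12) (q := 3) (CvR.step ⟨bnd_l cTP_12_22.down⟩ rfl (CvR.step ⟨(bnd_r cTP_12_21.down)⟩ rfl CvR.zero)) rfl <|
    CvB.step (b := 9) (q := 3) (CvR.step ⟨bnd_l cTP_9_25.down⟩ rfl (CvR.step ⟨cTP_9_24.down⟩ rfl (CvR.step ⟨(bnd_r cTP_9_23.down)⟩ rfl CvR.zero))) rfl <|
    CvB.step (b := 6) (q := 3) (CvR.step ⟨cTP_6_27.down⟩ rfl (CvR.step ⟨(bnd_r cTP_6_26.down)⟩ rfl CvR.zero)) rfl <|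
    CvB.step (b := 3) (q := 3) (CvR.step ⟨cTP_3_30.down⟩ rfl (CvR.step ⟨cTP_3_29.down⟩ rfl CvR.zero)) rfl <|
    CvB.step (b := 0) (q := 3) (CvR.step ⟨bnd_l cTP_0_23.down⟩ rfl (CvR.step ⟨(bnd_r cTP_0_22.down)⟩ rfl CvR.zero)) rfl <|
    CvB.zero)
    (by decide +kernel)

theorem bTP_16 : JobB fTP Ah At (fun _ => At.b0) 16 :=
  CvB.job (b0 := 9) (y := 0) (n := 39) (lo := 0) (hi := 39)
    (CvB.step (b := 36) (q := 3) (CvR.step ⟨bnd_l cTP_36_7.down⟩ rfl (CvR.step ⟨(bnd_r (bnd_r (bnd_r cTP_36_6.down)))⟩ rfl CvR.zero)) rfl <|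
    CvB.step (b := 30) (q := 6) (CvR.step ⟨cTP_30_16.down⟩ rfl CvR.zero) rfl <|
    CvB.step (b := 24) (q := 6) (CvR.step ⟨cTP_24_33.down⟩ rfl (CvR.step ⟨cTP_24_32.down⟩ rfl CvR.zero)) rfl <|
    CvB.step (b := 18) (q := 6) (CvR.step ⟨cTP_18_38.down⟩ rfl (CvR.step ⟨cTP_18_37.down⟩ rfl CvR.zero)) rfl <|
    CvB.step (b := 15) (q := 3) (CvR.step ⟨cTP_15_21.down⟩ rfl CvR.zero) rfl <|
    CvB.step (b := 12) (q := 3) (CvR.step ⟨bnd_l cTP_12_23.down⟩ rfl (CvR.step ⟨(bnd_r cTP_12_22.down)⟩ rfl CvR.zero)) rfl <|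
    CvB.step (b := 9) (q := 3) (CvR.step ⟨bnd_l cTP_9_26.down⟩ rfl (CvR.step ⟨(bnd_r cTP_9_25.down)⟩ rfl CvR.zero)) rfl <|
    CvB.step (b := 6) (q := 3) (CvR.step ⟨bnd_l cTP_6_29.down⟩ rfl (CvR.step ⟨cTP_6_28.down⟩ rfl CvR.zero)) rfl <|
    CvB.step (b := 3) (q := 3) (CvR.step ⟨bnd_l cTP_3_32.down⟩ rfl (CvR.step ⟨cTP_3_31.down⟩ rfl CvR.zero)) rfl <|
    CvB.step (b := 0) (q := 3) (CvR.step ⟨bnd_l cTP_0_24.down⟩ rfl (CvR.step ⟨(bnd_r cTP_0_23.down)⟩ rfl CvR.zero)) rfl <|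
    CvB.zero)
    (by decide +kernel)

theorem bTP_17 : JobB fTP Ah At (fun _ => At.b0) 17 :=
  CvB.job (b0 := 9) (y := 1) (n := 42) (lo := 0) (hi := 39)
    (CvB.step (b := 36) (q := 3) (CvR.step ⟨bnd_l (bnd_r cTP_36_7.down)⟩ rfl CvR.zero) rfl <|
    CvB.step (b := 30) (q := 6) (CvR.step ⟨cTP_30_17.down⟩ rfl CvR.zero) rfl <|
    CvB.step (b := 24) (q := 6) (CvR.step ⟨cTP_24_35.down⟩ rfl (CvR.step ⟨cTP_24_34.down⟩ rfl CvR.zero)) rfl <|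
    CvB.step (b := 18) (q := 6) (CvR.step ⟨cTP_18_40.down⟩ rfl (CvR.step ⟨cTP_18_39.down⟩ rfl CvR.zero)) rfl <|
    CvB.step (b := 15) (q := 3) (CvR.step ⟨cTP_15_22.down⟩ rfl CvR.zero) rfl <|
    CvB.step (b := 12) (q := 3) (CvR.step ⟨bnd_l cTP_12_24.down⟩ rfl (CvR.step ⟨(bnd_r cTP_12_23.down)⟩ rfl CvR.zero)) rfl <|
    CvB.step (b := 9) (q := 3) (CvR.step ⟨bnd_l cTP_9_27.down⟩ rfl (CvR.step ⟨(bnd_r cTP_9_26.down)⟩ rfl CvR.zero)) rfl <|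
    CvB.step (b := 6) (q := 3) (CvR.step ⟨cTP_6_30.down⟩ rfl (CvR.step ⟨(bnd_r cTP_6_29.down)⟩ rfl CvR.zero)) rfl <|
    CvB.step (b := 3) (q := 3) (CvR.step ⟨cTP_3_33.down⟩ rfl (CvR.step ⟨(bnd_r cTP_3_32.down)⟩ rfl CvR.zero)) rfl <|
    CvB.step (b := 0) (q := 3) (CvR.step ⟨cTP_0_25.down⟩ rfl (CvR.step ⟨(bnd_r cTP_0_24.down)⟩ rfl CvR.zero)) rfl <|
    CvB.zero)
    (by decide +kernel)

theorem bTP_18 : JobB fTP Ah At (fun _ => At.b0) 18 :=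
  CvB.job (b0 := 10) (y := 0) (n := 37) (lo := 0) (hi := 39)
    (CvB.step (b := 36) (q := 3) (CvR.step ⟨bnd_l (bnd_r (bnd_r cTP_36_7.down))⟩ rfl CvR.zero) rfl <|
    CvB.step (b := 30) (q := 6) (CvR.step ⟨cTP_30_18.down⟩ rfl CvR.zero) rfl <|
    CvB.step (b := 24) (q := 6) (CvR.step ⟨bnd_l cTP_24_37.down⟩ rfl (CvR.step ⟨cTP_24_36.down⟩ rfl CvR.zero)) rfl <|
    CvB.step (b := 18) (q := 6) (CvR.step ⟨cTP_18_42.down⟩ rfl (CvR.step ⟨cTP_18_41.down⟩ rfl CvR.zero)) rfl <|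
    CvB.step (b := 15) (q := 3) (CvR.step ⟨cTP_15_23.down⟩ rfl CvR.zero) rfl <|
    CvB.step (b := 12) (q := 3) (CvR.step ⟨bnd_l cTP_12_25.down⟩ rfl (CvR.step ⟨(bnd_r cTP_12_24.down)⟩ rfl CvR.zero)) rfl <|
    CvB.step (b := 9) (q := 3) (CvR.step ⟨cTP_9_28.down⟩ rfl (CvR.step ⟨(bnd_r cTP_9_27.down)⟩ rfl CvR.zero)) rfl <|
    CvB.step (b := 6) (q := 3) (CvR.step ⟨bnd_l cTP_6_32.down⟩ rfl (CvR.step ⟨cTP_6_31.down⟩ rfl CvR.zero)) rfl <|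
    CvB.step (b := 3) (q := 3) (CvR.step ⟨bnd_l cTP_3_35.down⟩ rfl (CvR.step ⟨cTP_3_34.down⟩ rfl CvR.zero)) rfl <|
    CvB.step (b := 0) (q := 3) (CvR.step ⟨bnd_l cTP_0_27.down⟩ rfl (CvR.step ⟨cTP_0_26.down⟩ rfl CvR.zero)) rfl <|
    CvB.zero)
    (by decide +kernel)

theorem bTP_19 : JobB fTP Ah At (fun _ => At.b0) 19 :=
  CvB.job (b0 := 10) (y := 1) (n := 40) (lo := 0) (hi := 39)
    (CvB.step (b := 36) (q := 3) (CvR.step ⟨bnd_l cTP_36_8.down⟩ rfl (CvR.step ⟨(bnd_r (bnd_r (bnd_r cTP_36_7.down)))⟩ rfl CvR.zero)) rfl <|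
    CvB.step (b := 30) (q := 6) (CvR.step ⟨cTP_30_19.down⟩ rfl CvR.zero) rfl <|
    CvB.step (b := 24) (q := 6) (CvR.step ⟨cTP_24_38.down⟩ rfl (CvR.step ⟨(bnd_r cTP_24_37.down)⟩ rfl CvR.zero)) rfl <|
    CvB.step (b := 18) (q := 6) (CvR.step ⟨cTP_18_44.down⟩ rfl (CvR.step ⟨cTP_18_43.down⟩ rfl CvR.zero)) rfl <|
    CvB.step (b := 15) (q := 3) (CvR.step ⟨cTP_15_24.down⟩ rfl CvR.zero) rfl <|
    CvB.step (b := 12) (q := 3) (CvR.step ⟨cTP_12_26.down⟩ rfl (CvR.step ⟨(bnd_r cTP_12_25.down)⟩ rfl CvR.zero)) rfl <|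
    CvB.step (b := 9) (q := 3) (CvR.step ⟨bnd_l cTP_9_30.down⟩ rfl (CvR.step ⟨cTP_9_29.down⟩ rfl CvR.zero)) rfl <|
    CvB.step (b := 6) (q := 3) (CvR.step ⟨bnd_l cTP_6_33.down⟩ rfl (CvR.step ⟨(bnd_r cTP_6_32.down)⟩ rfl CvR.zero)) rfl <|
    CvB.step (b := 3) (q := 3) (CvR.step ⟨cTP_3_36.down⟩ rfl (CvR.step ⟨(bnd_r cTP_3_35.down)⟩ rfl CvR.zero)) rfl <|
    CvB.step (b := 0) (q := 3) (CvR.step ⟨bnd_l cTP_0_28.down⟩ rfl (CvR.step ⟨(bnd_r cTP_0_27.down)⟩ rfl CvR.zero)) rfl <|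
    CvB.zero)
    (by decide +kernel)

theorem bTP_20 : JobB fTP Ah At (fun _ => At.b0) 20 :=
  CvB.job (b0 := 11) (y := 0) (n := 35) (lo := 0) (hi := 39)
    (CvB.step (b := 36) (q := 3) (CvR.step ⟨bnd_l (bnd_r cTP_36_8.down)⟩ rfl CvR.zero) rfl <|
    CvB.step (b := 30) (q := 6) (CvR.step ⟨cTP_30_20.down⟩ rfl CvR.zero) rfl <|
    CvB.step (b := 24) (q := 6) (CvR.step ⟨bnd_l cTP_24_40.down⟩ rfl (CvR.step ⟨cTP_24_39.down⟩ rfl CvR.zero)) rfl <|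
    CvB.step (b := 18) (q := 6) (CvR.step ⟨cTP_18_46.down⟩ rfl (CvR.step ⟨cTP_18_45.down⟩ rfl CvR.zero)) rfl <|
    CvB.step (b := 15) (q := 3) (CvR.step ⟨cTP_15_25.down⟩ rfl CvR.zero) rfl <|
    CvB.step (b := 12) (q := 3) (CvR.step ⟨cTP_12_27.down⟩ rfl CvR.zero) rfl <|
    CvB.step (b := 9) (q := 3) (CvR.step ⟨bnd_l cTP_9_31.down⟩ rfl (CvR.step ⟨(bnd_r cTP_9_30.down)⟩ rfl CvR.zero)) rfl <|
    CvB.step (b := 6) (q := 3) (CvR.step ⟨cTP_6_34.down⟩ rfl (CvR.step ⟨(bnd_r cTP_6_33.down)⟩ rfl CvR.zero)) rfl <|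
    CvB.step (b := 3) (q := 3) (CvR.step ⟨bnd_l cTP_3_38.down⟩ rfl (CvR.step ⟨cTP_3_37.down⟩ rfl CvR.zero)) rfl <|
    CvB.step (b := 0) (q := 3) (CvR.step ⟨bnd_l cTP_0_29.down⟩ rfl (CvR.step ⟨(bnd_r cTP_0_28.down)⟩ rfl CvR.zero)) rfl <|
    CvB.zero)
    (by decide +kernel)

theorem bTP_21 : JobB fTP Ah At (fun _ => At.b0) 21 :=
  CvB.job (b0 := 11) (y := 1) (n := 38) (lo := 0) (hi := 39)
    (CvB.step (b := 36) (q := 3) (CvR.step ⟨bnd_l (bnd_r (bnd_r cTP_36_8.down))⟩ rfl CvR.zero) rfl <|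
    CvB.step (b := 30) (q := 6) (CvR.step ⟨cTP_30_21.down⟩ rfl CvR.zero) rfl <|
    CvB.step (b := 24) (q := 6) (CvR.step ⟨cTP_24_41.down⟩ rfl (CvR.step ⟨(bnd_r cTP_24_40.down)⟩ rfl CvR.zero)) rfl <|
    CvB.step (b := 18) (q := 6) (CvR.step ⟨cTP_18_48.down⟩ rfl (CvR.step ⟨cTP_18_47.down⟩ rfl CvR.zero)) rfl <|
    CvB.step (b := 15) (q := 3) (CvR.step ⟨cTP_15_26.down⟩ rfl CvR.zero) rfl <|
    CvB.step (b := 12) (q := 3) (CvR.step ⟨bnd_l cTP_12_29.down⟩ rfl (CvR.step ⟨cTP_12_28.down⟩ rfl CvR.zero)) rfl <|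
    CvB.step (b := 9) (q := 3) (CvR.step ⟨bnd_l cTP_9_32.down⟩ rfl (CvR.step ⟨(bnd_r cTP_9_31.down)⟩ rfl CvR.zero)) rfl <|
    CvB.step (b := 6) (q := 3) (CvR.step ⟨bnd_l cTP_6_36.down⟩ rfl (CvR.step ⟨cTP_6_35.down⟩ rfl CvR.zero)) rfl <|
    CvB.step (b := 3) (q := 3) (CvR.step ⟨cTP_3_39.down⟩ rfl (CvR.step ⟨(bnd_r cTP_3_38.down)⟩ rfl CvR.zero)) rfl <|
    CvB.step (b := 0) (q := 3) (CvR.step ⟨bnd_l cTP_0_30.down⟩ rfl (CvR.step ⟨(bnd_r cTP_0_29.down)⟩ rfl CvR.zero)) rfl <|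
    CvB.zero)
    (by decide +kernel)

theorem bTP_22 : JobB fTP Ah At (fun _ => At.b0) 22 :=
  CvB.job (b0 := 12) (y := 0) (n := 33) (lo := 0) (hi := 39)
    (CvB.step (b := 36) (q := 3) (CvR.step ⟨bnd_l cTP_36_9.down⟩ rfl (CvR.step ⟨(bnd_r (bnd_r (bnd_r cTP_36_8.down)))⟩ rfl CvR.zero)) rfl <|
    CvB.step (b := 30) (q := 6) (CvR.step ⟨cTP_30_22.down⟩ rfl CvR.zero) rfl <|
    CvB.step (b := 24) (q := 6) (CvR.step ⟨bnd_l cTP_24_43.down⟩ rfl (CvR.step ⟨cTP_24_42.down⟩ rfl CvR.zero)) rfl <|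
    CvB.step (b := 18) (q := 6) (CvR.step ⟨cTP_18_50.down⟩ rfl (CvR.step ⟨cTP_18_49.down⟩ rfl CvR.zero)) rfl <|
    CvB.step (b := 15) (q := 3) (CvR.step ⟨cTP_15_27.down⟩ rfl CvR.zero) rfl <|
    CvB.step (b := 12) (q := 3) (CvR.step ⟨(bnd_r cTP_12_29.down)⟩ rfl CvR.zero) rfl <|
    CvB.step (b := 9) (q := 3) (CvR.step ⟨bnd_l cTP_9_33.down⟩ rfl (CvR.step ⟨(bnd_r cTP_9_32.down)⟩ rfl CvR.zero)) rfl <|
    CvB.step (b := 6) (q := 3) (CvR.step ⟨bnd_l cTP_6_37.down⟩ rfl (CvR.step ⟨(bnd_r cTP_6_36.down)⟩ rfl CvR.zero)) rfl <|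
    CvB.step (b := 3) (q := 3) (CvR.step ⟨bnd_l cTP_3_41.down⟩ rfl (CvR.step ⟨cTP_3_40.down⟩ rfl CvR.zero)) rfl <|
    CvB.step (b := 0) (q := 3) (CvR.step ⟨bnd_l cTP_0_31.down⟩ rfl (CvR.step ⟨(bnd_r cTP_0_30.down)⟩ rfl CvR.zero)) rfl <|
    CvB.zero)
    (by decide +kernel)

theorem bTP_23 : JobB fTP Ah At (fun _ => At.b0) 23 :=
  CvB.job (b0 := 12) (y := 1) (n := 36) (lo := 0) (hi := 39)
    (CvB.step (b := 36) (q := 3) (CvR.step ⟨bnd_l (bnd_r cTP_36_9.down)⟩ rfl CvR.zero) rfl <|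
    CvB.step (b := 30) (q := 6) (CvR.step ⟨cTP_30_23.down⟩ rfl CvR.zero) rfl <|
    CvB.step (b := 24) (q := 6) (CvR.step ⟨cTP_24_44.down⟩ rfl (CvR.step ⟨(bnd_r cTP_24_43.down)⟩ rfl CvR.zero)) rfl <|
    CvB.step (b := 18) (q := 6) (CvR.step ⟨cTP_18_52.down⟩ rfl (CvR.step ⟨cTP_18_51.down⟩ rfl CvR.zero)) rfl <|
    CvB.step (b := 15) (q := 3) (CvR.step ⟨cTP_15_28.down⟩ rfl CvR.zero) rfl <|
    CvB.step (b := 12) (q := 3) (CvR.step ⟨cTP_12_30.down⟩ rfl CvR.zero) rfl <|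
    CvB.step (b := 9) (q := 3) (CvR.step ⟨bnd_l cTP_9_34.down⟩ rfl (CvR.step ⟨(bnd_r cTP_9_33.down)⟩ rfl CvR.zero)) rfl <|
    CvB.step (b := 6) (q := 3) (CvR.step ⟨cTP_6_38.down⟩ rfl (CvR.step ⟨(bnd_r cTP_6_37.down)⟩ rfl CvR.zero)) rfl <|
    CvB.step (b := 3) (q := 3) (CvR.step ⟨cTP_3_42.down⟩ rfl (CvR.step ⟨(bnd_r cTP_3_41.down)⟩ rfl CvR.zero)) rfl <|
    CvB.step (b := 0) (q := 3) (CvR.step ⟨bnd_l cTP_0_32.down⟩ rfl (CvR.step ⟨(bnd_r cTP_0_31.down)⟩ rfl CvR.zero)) rfl <|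
    CvB.zero)
    (by decide +kernel)

theorem bTP_24 : JobB fTP Ah At (fun _ => At.b0) 24 :=
  CvB.job (b0 := 13) (y := 0) (n := 31) (lo := 0) (hi := 39)
    (CvB.step (b := 36) (q := 3) (CvR.step ⟨bnd_l (bnd_r (bnd_r cTP_36_9.down))⟩ rfl CvR.zero) rfl <|
    CvB.step (b := 30) (q := 6) (CvR.step ⟨cTP_30_24.down⟩ rfl CvR.zero) rfl <|
    CvB.step (b := 24) (q := 6) (CvR.step ⟨cTP_24_45.down⟩ rfl CvR.zero) rfl <|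
    CvB.step (b := 18) (q := 6) (CvR.step ⟨cTP_18_54.down⟩ rfl (CvR.step ⟨cTP_18_53.down⟩ rfl CvR.zero)) rfl <|
    CvB.step (b := 15) (q := 3) (CvR.step ⟨cTP_15_29.down⟩ rfl CvR.zero) rfl <|
    CvB.step (b := 12) (q := 3) (CvR.step ⟨bnd_l cTP_12_31.down⟩ rfl CvR.zero) rfl <|
    CvB.step (b := 9) (q := 3) (CvR.step ⟨bnd_l cTP_9_35.down⟩ rfl (CvR.step ⟨(bnd_r cTP_9_34.down)⟩ rfl CvR.zero)) rfl <|
    CvB.step (b := 6) (q := 3) (CvR.step ⟨cTP_6_39.down⟩ rfl CvR.zero) rfl <|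
    CvB.step (b := 3) (q := 3) (CvR.step ⟨bnd_l cTP_3_44.down⟩ rfl (CvR.step ⟨cTP_3_43.down⟩ rfl CvR.zero)) rfl <|
    CvB.step (b := 0) (q := 3) (CvR.step ⟨bnd_l cTP_0_33.down⟩ rfl (CvR.step ⟨(bnd_r cTP_0_32.down)⟩ rfl CvR.zero)) rfl <|
    CvB.zero)
    (by decide +kernel)

theorem bTP_25 : JobB fTP Ah At (fun _ => At.b0) 25 :=
  CvB.job (b0 := 13) (y := 1) (n := 34) (lo := 0) (hi := 39)
    (CvB.step (b := 36) (q := 3) (CvR.step ⟨(bnd_r (bnd_r (bnd_r cTP_36_9.down)))⟩ rfl CvR.zero) rfl <|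
    CvB.step (b := 30) (q := 6) (CvR.step ⟨cTP_30_25.down⟩ rfl CvR.zero) rfl <|
    CvB.step (b := 24) (q := 6) (CvR.step ⟨bnd_l cTP_24_47.down⟩ rfl (CvR.step ⟨cTP_24_46.down⟩ rfl CvR.zero)) rfl <|
    CvB.step (b := 18) (q := 6) (CvR.step ⟨cTP_18_56.down⟩ rfl (CvR.step ⟨cTP_18_55.down⟩ rfl CvR.zero)) rfl <|
    CvB.step (b := 15) (q := 3) (CvR.step ⟨cTP_15_30.down⟩ rfl CvR.zero) rfl <|
    CvB.step (b := 12) (q := 3) (CvR.step ⟨bnd_l cTP_12_32.down⟩ rfl (CvR.step ⟨(bnd_r cTP_12_31.down)⟩ rfl CvR.zero)) rfl <|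
    CvB.step (b := 9) (q := 3) (CvR.step ⟨cTP_9_36.down⟩ rfl (CvR.step ⟨(bnd_r cTP_9_35.down)⟩ rfl CvR.zero)) rfl <|
    CvB.step (b := 6) (q := 3) (CvR.step ⟨bnd_l cTP_6_41.down⟩ rfl (CvR.step ⟨cTP_6_40.down⟩ rfl CvR.zero)) rfl <|
    CvB.step (b := 3) (q := 3) (CvR.step ⟨bnd_l cTP_3_45.down⟩ rfl (CvR.step ⟨(bnd_r cTP_3_44.down)⟩ rfl CvR.zero)) rfl <|
    CvB.step (b := 0) (q := 3) (CvR.step ⟨bnd_l cTP_0_34.down⟩ rfl (CvR.step ⟨(bnd_r cTP_0_33.down)⟩ rfl CvR.zero)) rfl <|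
    CvB.zero)
    (by decide +kernel)

theorem bTP_26 : JobB fTP Ah At (fun _ => At.b0) 26 :=
  CvB.job (b0 := 14) (y := 0) (n := 29) (lo := 0) (hi := 39)
    (CvB.step (b := 36) (q := 3) (CvR.step ⟨bnd_l cTP_36_10.down⟩ rfl CvR.zero) rfl <|
    CvB.step (b := 30) (q := 6) (CvR.step ⟨cTP_30_26.down⟩ rfl CvR.zero) rfl <|
    CvB.step (b := 24) (q := 6) (CvR.step ⟨bnd_l cTP_24_48.down⟩ rfl (CvR.step ⟨(bnd_r cTP_24_47.down)⟩ rfl CvR.zero)) rfl <|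
    CvB.step (b := 18) (q := 6) (CvR.step ⟨bnd_l cTP_18_58.down⟩ rfl (CvR.step ⟨cTP_18_57.down⟩ rfl CvR.zero)) rfl <|
    CvB.step (b := 15) (q := 3) (CvR.step ⟨cTP_15_31.down⟩ rfl CvR.zero) rfl <|
    CvB.step (b := 12) (q := 3) (CvR.step ⟨bnd_l cTP_12_33.down⟩ rfl (CvR.step ⟨(bnd_r cTP_12_32.down)⟩ rfl CvR.zero)) rfl <|
    CvB.step (b := 9) (q := 3) (CvR.step ⟨cTP_9_37.down⟩ rfl CvR.zero) rfl <|
    CvB.step (b := 6) (q := 3) (CvR.step ⟨bnd_l cTP_6_42.down⟩ rfl (CvR.step ⟨(bnd_r cTP_6_41.down)⟩ rfl CvR.zero)) rfl <|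
    CvB.step (b := 3) (q := 3) (CvR.step ⟨bnd_l cTP_3_46.down⟩ rfl (CvR.step ⟨(bnd_r cTP_3_45.down)⟩ rfl CvR.zero)) rfl <|
    CvB.step (b := 0) (q := 3) (CvR.step ⟨bnd_l cTP_0_35.down⟩ rfl (CvR.step ⟨(bnd_r cTP_0_34.down)⟩ rfl CvR.zero)) rfl <|
    CvB.zero)
    (by decide +kernel)

theorem bTP_27 : JobB fTP Ah At (fun _ => At.b0) 27 :=
  CvB.job (b0 := 14) (y := 1) (n := 32) (lo := 0) (hi := 39)
    (CvB.step (b := 36) (q := 3) (CvR.step ⟨bnd_l (bnd_r cTP_36_10.down)⟩ rfl CvR.zero) rfl <|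
    CvB.step (b := 30) (q := 6) (CvR.step ⟨cTP_30_27.down⟩ rfl CvR.zero) rfl <|
    CvB.step (b := 24) (q := 6) (CvR.step ⟨bnd_l cTP_24_49.down⟩ rfl (CvR.step ⟨(bnd_r cTP_24_48.down)⟩ rfl CvR.zero)) rfl <|
    CvB.step (b := 18) (q := 6) (CvR.step ⟨cTP_18_59.down⟩ rfl (CvR.step ⟨(bnd_r cTP_18_58.down)⟩ rfl CvR.zero)) rfl <|
    CvB.step (b := 15) (q := 3) (CvR.step ⟨cTP_15_32.down⟩ rfl CvR.zero) rfl <|
    CvB.step (b := 12) (q := 3) (CvR.step ⟨bnd_l cTP_12_34.down⟩ rfl (CvR.step ⟨(bnd_r cTP_12_33.down)⟩ rfl CvR.zero)) rfl <|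
    CvB.step (b := 9) (q := 3) (CvR.step ⟨cTP_9_38.down⟩ rfl CvR.zero) rfl <|
    CvB.step (b := 6) (q := 3) (CvR.step ⟨bnd_l cTP_6_43.down⟩ rfl (CvR.step ⟨(bnd_r cTP_6_42.down)⟩ rfl CvR.zero)) rfl <|
    CvB.step (b := 3) (q := 3) (CvR.step ⟨cTP_3_47.down⟩ rfl (CvR.step ⟨(bnd_r cTP_3_46.down)⟩ rfl CvR.zero)) rfl <|
    CvB.step (b := 0) (q := 3) (CvR.step ⟨bnd_l cTP_0_36.down⟩ rfl (CvR.step ⟨(bnd_r cTP_0_35.down)⟩ rfl CvR.zero)) rfl <|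
    CvB.zero)
    (by decide +kernel)

theorem bTP_28 : JobB fTP Ah At (fun _ => At.b0) 28 :=
  CvB.job (b0 := 15) (y := 0) (n := 27) (lo := 0) (hi := 39)
    (CvB.step (b := 36) (q := 3) (CvR.step ⟨bnd_l (bnd_r (bnd_r cTP_36_10.down))⟩ rfl CvR.zero) rfl <|
    CvB.step (b := 30) (q := 6) (CvR.step ⟨cTP_30_28.down⟩ rfl CvR.zero) rfl <|
    CvB.step (b := 24) (q := 6) (CvR.step ⟨bnd_l cTP_24_50.down⟩ rfl (CvR.step ⟨(bnd_r cTP_24_49.down)⟩ rfl CvR.zero)) rfl <|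
    CvB.step (b := 18) (q := 6) (CvR.step ⟨bnd_l cTP_18_61.down⟩ rfl (CvR.step ⟨cTP_18_60.down⟩ rfl CvR.zero)) rfl <|
    CvB.step (b := 15) (q := 3) (CvR.step ⟨bnd_l cTP_15_33.down⟩ rfl CvR.zero) rfl <|
    CvB.step (b := 12) (q := 3) (CvR.step ⟨bnd_l cTP_12_35.down⟩ rfl (CvR.step ⟨(bnd_r cTP_12_34.down)⟩ rfl CvR.zero)) rfl <|
    CvB.step (b := 9) (q := 3) (CvR.step ⟨cTP_9_39.down⟩ rfl CvR.zero) rfl <|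
    CvB.step (b := 6) (q := 3) (CvR.step ⟨bnd_l cTP_6_44.down⟩ rfl (CvR.step ⟨(bnd_r cTP_6_43.down)⟩ rfl CvR.zero)) rfl <|
    CvB.step (b := 3) (q := 3) (CvR.step ⟨cTP_3_48.down⟩ rfl CvR.zero) rfl <|
    CvB.step (b := 0) (q := 3) (CvR.step ⟨bnd_l cTP_0_37.down⟩ rfl (CvR.step ⟨(bnd_r cTP_0_36.down)⟩ rfl CvR.zero)) rfl <|
    CvB.zero)
    (by decide +kernel)

theorem bTP_29 : JobB fTP Ah At (fun _ => At.b0) 29 :=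
  CvB.job (b0 := 15) (y := 1) (n := 30) (lo := 0) (hi := 39)
    (CvB.step (b := 36) (q := 3) (CvR.step ⟨bnd_l cTP_36_11.down⟩ rfl (CvR.step ⟨(bnd_r (bnd_r (bnd_r cTP_36_10.down)))⟩ rfl CvR.zero)) rfl <|
    CvB.step (b := 30) (q := 6) (CvR.step ⟨cTP_30_29.down⟩ rfl CvR.zero) rfl <|
    CvB.step (b := 24) (q := 6) (CvR.step ⟨bnd_l cTP_24_51.down⟩ rfl (CvR.step ⟨(bnd_r cTP_24_50.down)⟩ rfl CvR.zero)) rfl <|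
    CvB.step (b := 18) (q := 6) (CvR.step ⟨cTP_18_62.down⟩ rfl (CvR.step ⟨(bnd_r cTP_18_61.down)⟩ rfl CvR.zero)) rfl <|
    CvB.step (b := 15) (q := 3) (CvR.step ⟨bnd_l cTP_15_34.down⟩ rfl (CvR.step ⟨(bnd_r cTP_15_33.down)⟩ rfl CvR.zero)) rfl <|
    CvB.step (b := 12) (q := 3) (CvR.step ⟨bnd_l cTP_12_36.down⟩ rfl (CvR.step ⟨(bnd_r cTP_12_35.down)⟩ rfl CvR.zero)) rfl <|
    CvB.step (b := 9) (q := 3) (CvR.step ⟨cTP_9_40.down⟩ rfl CvR.zero) rfl <|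
    CvB.step (b := 6) (q := 3) (CvR.step ⟨bnd_l cTP_6_45.down⟩ rfl (CvR.step ⟨(bnd_r cTP_6_44.down)⟩ rfl CvR.zero)) rfl <|
    CvB.step (b := 3) (q := 3) (CvR.step ⟨bnd_l cTP_3_50.down⟩ rfl (CvR.step ⟨cTP_3_49.down⟩ rfl CvR.zero)) rfl <|
    CvB.step (b := 0) (q := 3) (CvR.step ⟨bnd_l cTP_0_38.down⟩ rfl (CvR.step ⟨(bnd_r cTP_0_37.down)⟩ rfl CvR.zero)) rfl <|
    CvB.zero)
    (by decide +kernel)

theorem bTP_30 : JobB fTP Ah At (fun _ => At.b0) 30 :=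
  CvB.job (b0 := 16) (y := 0) (n := 25) (lo := 0) (hi := 39)
    (CvB.step (b := 36) (q := 3) (CvR.step ⟨bnd_l (bnd_r cTP_36_11.down)⟩ rfl CvR.zero) rfl <|
    CvB.step (b := 30) (q := 6) (CvR.step ⟨cTP_30_30.down⟩ rfl CvR.zero) rfl <|
    CvB.step (b := 24) (q := 6) (CvR.step ⟨(bnd_r cTP_24_51.down)⟩ rfl CvR.zero) rfl <|
    CvB.step (b := 18) (q := 6) (CvR.step ⟨bnd_l cTP_18_64.down⟩ rfl (CvR.step ⟨cTP_18_63.down⟩ rfl CvR.zero)) rfl <|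
    CvB.step (b := 15) (q := 3) (CvR.step ⟨bnd_l cTP_15_35.down⟩ rfl (CvR.step ⟨(bnd_r cTP_15_34.down)⟩ rfl CvR.zero)) rfl <|
    CvB.step (b := 12) (q := 3) (CvR.step ⟨bnd_l cTP_12_37.down⟩ rfl (CvR.step ⟨(bnd_r cTP_12_36.down)⟩ rfl CvR.zero)) rfl <|
    CvB.step (b := 9) (q := 3) (CvR.step ⟨bnd_l cTP_9_41.down⟩ rfl CvR.zero) rfl <|
    CvB.step (b := 6) (q := 3) (CvR.step ⟨bnd_l cTP_6_46.down⟩ rfl (CvR.step ⟨(bnd_r cTP_6_45.down)⟩ rfl CvR.zero)) rfl <|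
    CvB.step (b := 3) (q := 3) (CvR.step ⟨bnd_l cTP_3_51.down⟩ rfl (CvR.step ⟨(bnd_r cTP_3_50.down)⟩ rfl CvR.zero)) rfl <|
    CvB.step (b := 0) (q := 3) (CvR.step ⟨(bnd_r cTP_0_38.down)⟩ rfl CvR.zero) rfl <|
    CvB.zero)
    (by decide +kernel)

theorem bTP_31 : JobB fTP Ah At (fun _ => At.b0) 31 :=
  CvB.job (b0 := 16) (y := 1) (n := 28) (lo := 0) (hi := 39)
    (CvB.step (b := 36) (q := 3) (CvR.step ⟨bnd_l (bnd_r (bnd_r cTP_36_11.down))⟩ rfl CvR.zero) rfl <|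
    CvB.step (b := 30) (q := 6) (CvR.step ⟨cTP_30_31.down⟩ rfl CvR.zero) rfl <|
    CvB.step (b := 24) (q := 6) (CvR.step ⟨cTP_24_52.down⟩ rfl CvR.zero) rfl <|
    CvB.step (b := 18) (q := 6) (CvR.step ⟨cTP_18_65.down⟩ rfl (CvR.step ⟨(bnd_r cTP_18_64.down)⟩ rfl CvR.zero)) rfl <|
    CvB.step (b := 15) (q := 3) (CvR.step ⟨(bnd_r cTP_15_35.down)⟩ rfl CvR.zero) rfl <|
    CvB.step (b := 12) (q := 3) (CvR.step ⟨(bnd_r cTP_12_37.down)⟩ rfl CvR.zero) rfl <|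
    CvB.step (b := 9) (q := 3) (CvR.step ⟨bnd_l cTP_9_42.down⟩ rfl (CvR.step ⟨(bnd_r cTP_9_41.down)⟩ rfl CvR.zero)) rfl <|
    CvB.step (b := 6) (q := 3) (CvR.step ⟨(bnd_r cTP_6_46.down)⟩ rfl CvR.zero) rfl <|
    CvB.step (b := 3) (q := 3) (CvR.step ⟨bnd_l cTP_3_52.down⟩ rfl (CvR.step ⟨(bnd_r cTP_3_51.down)⟩ rfl CvR.zero)) rfl <|
    CvB.step (b := 0) (q := 3) (CvR.step ⟨cTP_0_39.down⟩ rfl CvR.zero) rfl <|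
    CvB.zero)
    (by decide +kernel)

theorem bTP_32 : JobB fTP Ah At (fun _ => At.b0) 32 :=
  CvB.job (b0 := 17) (y := 0) (n := 23) (lo := 0) (hi := 39)
    (CvB.step (b := 36) (q := 3) (CvR.step ⟨bnd_l (bnd_r (bnd_r (bnd_r cTP_36_11.down)))⟩ rfl CvR.zero) rfl <|
    CvB.step (b := 30) (q := 6) (CvR.step ⟨bnd_l cTP_30_32.down⟩ rfl CvR.zero) rfl <|
    CvB.step (b := 24) (q := 6) (CvR.step ⟨cTP_24_53.down⟩ rfl CvR.zero) rfl <|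
    CvB.step (b := 18) (q := 6) (CvR.step ⟨bnd_l cTP_18_67.down⟩ rfl (CvR.step ⟨cTP_18_66.down⟩ rfl CvR.zero)) rfl <|
    CvB.step (b := 15) (q := 3) (CvR.step ⟨bnd_l cTP_15_36.down⟩ rfl CvR.zero) rfl <|
    CvB.step (b := 12) (q := 3) (CvR.step ⟨bnd_l cTP_12_38.down⟩ rfl CvR.zero) rfl <|
    CvB.step (b := 9) (q := 3) (CvR.step ⟨bnd_l cTP_9_43.down⟩ rfl (CvR.step ⟨(bnd_r cTP_9_42.down)⟩ rfl CvR.zero)) rfl <|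
    CvB.step (b := 6) (q := 3) (CvR.step ⟨cTP_6_47.down⟩ rfl CvR.zero) rfl <|
    CvB.step (b := 3) (q := 3) (CvR.step ⟨(bnd_r cTP_3_52.down)⟩ rfl CvR.zero) rfl <|
    CvB.step (b := 0) (q := 3) (CvR.step ⟨bnd_l cTP_0_40.down⟩ rfl CvR.zero) rfl <|
    CvB.zero)
    (by decide +kernel)

theorem bTP_33 : JobB fTP Ah At (fun _ => At.b0) 33 :=
  CvB.job (b0 := 17) (y := 1) (n := 26) (lo := 0) (hi := 39)
    (CvB.step (b := 36) (q := 3) (CvR.step ⟨(bnd_r (bnd_r (bnd_r (bnd_r cTP_36_11.down))))⟩ rfl CvR.zero) rfl <|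
    CvB.step (b := 30) (q := 6) (CvR.step ⟨bnd_l cTP_30_33.down⟩ rfl (CvR.step ⟨(bnd_r cTP_30_32.down)⟩ rfl CvR.zero)) rfl <|
    CvB.step (b := 24) (q := 6) (CvR.step ⟨cTP_24_54.down⟩ rfl CvR.zero) rfl <|
    CvB.step (b := 18) (q := 6) (CvR.step ⟨bnd_l cTP_18_68.down⟩ rfl (CvR.step ⟨(bnd_r cTP_18_67.down)⟩ rfl CvR.zero)) rfl <|
    CvB.step (b := 15) (q := 3) (CvR.step ⟨bnd_l cTP_15_37.down⟩ rfl (CvR.step ⟨(bnd_r cTP_15_36.down)⟩ rfl CvR.zero)) rfl <|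
    CvB.step (b := 12) (q := 3) (CvR.step ⟨bnd_l cTP_12_39.down⟩ rfl (CvR.step ⟨(bnd_r cTP_12_38.down)⟩ rfl CvR.zero)) rfl <|
    CvB.step (b := 9) (q := 3) (CvR.step ⟨bnd_l cTP_9_44.down⟩ rfl (CvR.step ⟨(bnd_r cTP_9_43.down)⟩ rfl CvR.zero)) rfl <|
    CvB.step (b := 6) (q := 3) (CvR.step ⟨cTP_6_48.down⟩ rfl CvR.zero) rfl <|
    CvB.step (b := 3) (q := 3) (CvR.step ⟨cTP_3_53.down⟩ rfl CvR.zero) rfl <|
    CvB.step (b := 0) (q := 3) (CvR.step ⟨bnd_l cTP_0_41.down⟩ rfl (CvR.step ⟨(bnd_r cTP_0_40.down)⟩ rfl CvR.zero)) rfl <|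
    CvB.zero)
    (by decide +kernel)

theorem bTP_34 : JobB fTP Ah At (fun _ => At.b0) 34 :=
  CvB.job (b0 := 18) (y := 0) (n := 21) (lo := 0) (hi := 39)
    (CvB.step (b := 36) (q := 3) (CvR.step ⟨bnd_l cTP_36_12.down⟩ rfl CvR.zero) rfl <|
    CvB.step (b := 30) (q := 6) (CvR.step ⟨(bnd_r cTP_30_33.down)⟩ rfl CvR.zero) rfl <|
    CvB.step (b := 24) (q := 6) (CvR.step ⟨cTP_24_55.down⟩ rfl CvR.zero) rfl <|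
    CvB.step (b := 18) (q := 6) (CvR.step ⟨bnd_l cTP_18_69.down⟩ rfl (CvR.step ⟨(bnd_r cTP_18_68.down)⟩ rfl CvR.zero)) rfl <|
    CvB.step (b := 15) (q := 3) (CvR.step ⟨(bnd_r cTP_15_37.down)⟩ rfl CvR.zero) rfl <|
    CvB.step (b := 12) (q := 3) (CvR.step ⟨bnd_l cTP_12_40.down⟩ rfl (CvR.step ⟨(bnd_r cTP_12_39.down)⟩ rfl CvR.zero)) rfl <|
    CvB.step (b := 9) (q := 3) (CvR.step ⟨(bnd_r cTP_9_44.down)⟩ rfl CvR.zero) rfl <|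
    CvB.step (b := 6) (q := 3) (CvR.step ⟨cTP_6_49.down⟩ rfl CvR.zero) rfl <|
    CvB.step (b := 3) (q := 3) (CvR.step ⟨cTP_3_54.down⟩ rfl CvR.zero) rfl <|
    CvB.step (b := 0) (q := 3) (CvR.step ⟨bnd_l cTP_0_42.down⟩ rfl (CvR.step ⟨(bnd_r cTP_0_41.down)⟩ rfl CvR.zero)) rfl <|
    CvB.zero)
    (by decide +kernel)

theorem bTP_35 : JobB fTP Ah At (fun _ => At.b0) 35 :=
  CvB.job (b0 := 18) (y := 1) (n := 24) (lo := 0) (hi := 39)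
    (CvB.step (b := 36) (q := 3) (CvR.step ⟨bnd_l (bnd_r cTP_36_12.down)⟩ rfl CvR.zero) rfl <|
    CvB.step (b := 30) (q := 6) (CvR.step ⟨bnd_l cTP_30_34.down⟩ rfl CvR.zero) rfl <|
    CvB.step (b := 24) (q := 6) (CvR.step ⟨cTP_24_56.down⟩ rfl CvR.zero) rfl <|
    CvB.step (b := 18) (q := 6) (CvR.step ⟨cTP_18_70.down⟩ rfl (CvR.step ⟨(bnd_r cTP_18_69.down)⟩ rfl CvR.zero)) rfl <|
    CvB.step (b := 15) (q := 3) (CvR.step ⟨bnd_l cTP_15_38.down⟩ rfl CvR.zero) rfl <|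
    CvB.step (b := 12) (q := 3) (CvR.step ⟨bnd_l (bnd_r cTP_12_40.down)⟩ rfl CvR.zero) rfl <|
    CvB.step (b := 9) (q := 3) (CvR.step ⟨bnd_l cTP_9_45.down⟩ rfl CvR.zero) rfl <|
    CvB.step (b := 6) (q := 3) (CvR.step ⟨cTP_6_50.down⟩ rfl CvR.zero) rfl <|
    CvB.step (b := 3) (q := 3) (CvR.step ⟨cTP_3_55.down⟩ rfl CvR.zero) rfl <|
    CvB.step (b := 0) (q := 3) (CvR.step ⟨(bnd_r cTP_0_42.down)⟩ rfl CvR.zero) rfl <|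
    CvB.zero)
    (by decide +kernel)

theorem bTP_36 : JobB fTP Ah At (fun _ => At.b0) 36 :=
  CvB.job (b0 := 19) (y := 0) (n := 19) (lo := 0) (hi := 39)
    (CvB.step (b := 36) (q := 3) (CvR.step ⟨bnd_l (bnd_r (bnd_r cTP_36_12.down))⟩ rfl CvR.zero) rfl <|
    CvB.step (b := 30) (q := 6) (CvR.step ⟨(bnd_r cTP_30_34.down)⟩ rfl CvR.zero) rfl <|
    CvB.step (b := 24) (q := 6) (CvR.step ⟨cTP_24_57.down⟩ rfl CvR.zero) rfl <|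
    CvB.step (b := 18) (q := 6) (CvR.step ⟨cTP_18_71.down⟩ rfl CvR.zero) rfl <|
    CvB.step (b := 15) (q := 3) (CvR.step ⟨bnd_l cTP_15_39.down⟩ rfl (CvR.step ⟨(bnd_r cTP_15_38.down)⟩ rfl CvR.zero)) rfl <|
    CvB.step (b := 12) (q := 3) (CvR.step ⟨bnd_l cTP_12_41.down⟩ rfl (CvR.step ⟨(bnd_r (bnd_r cTP_12_40.down))⟩ rfl CvR.zero)) rfl <|
    CvB.step (b := 9) (q := 3) (CvR.step ⟨bnd_l cTP_9_46.down⟩ rfl (CvR.step ⟨(bnd_r cTP_9_45.down)⟩ rfl CvR.zero)) rfl <|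
    CvB.step (b := 6) (q := 3) (CvR.step ⟨cTP_6_51.down⟩ rfl CvR.zero) rfl <|
    CvB.step (b := 3) (q := 3) (CvR.step ⟨cTP_3_56.down⟩ rfl CvR.zero) rfl <|
    CvB.step (b := 0) (q := 3) (CvR.step ⟨bnd_l cTP_0_43.down⟩ rfl CvR.zero) rfl <|
    CvB.zero)
    (by decide +kernel)

theorem bTP_37 : JobB fTP Ah At (fun _ => At.b0) 37 :=
  CvB.job (b0 := 19) (y := 1) (n := 22) (lo := 0) (hi := 39)
    (CvB.step (b := 36) (q := 3) (CvR.step ⟨bnd_l (bnd_r (bnd_r (bnd_r cTP_36_12.down)))⟩ rfl CvR.zero) rfl <|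
    CvB.step (b := 30) (q := 6) (CvR.step ⟨bnd_l cTP_30_35.down⟩ rfl CvR.zero) rfl <|
    CvB.step (b := 24) (q := 6) (CvR.step ⟨cTP_24_58.down⟩ rfl CvR.zero) rfl <|
    CvB.step (b := 18) (q := 6) (CvR.step ⟨cTP_18_72.down⟩ rfl CvR.zero) rfl <|
    CvB.step (b := 15) (q := 3) (CvR.step ⟨(bnd_r cTP_15_39.down)⟩ rfl CvR.zero) rfl <|
    CvB.step (b := 12) (q := 3) (CvR.step ⟨(bnd_r cTP_12_41.down)⟩ rfl CvR.zero) rfl <|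
    CvB.step (b := 9) (q := 3) (CvR.step ⟨bnd_l cTP_9_47.down⟩ rfl (CvR.step ⟨(bnd_r cTP_9_46.down)⟩ rfl CvR.zero)) rfl <|
    CvB.step (b := 6) (q := 3) (CvR.step ⟨cTP_6_52.down⟩ rfl CvR.zero) rfl <|
    CvB.step (b := 3) (q := 3) (CvR.step ⟨cTP_3_57.down⟩ rfl CvR.zero) rfl <|
    CvB.step (b := 0) (q := 3) (CvR.step ⟨bnd_l cTP_0_44.down⟩ rfl (CvR.step ⟨(bnd_r cTP_0_43.down)⟩ rfl CvR.zero)) rfl <|
    CvB.zero)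
    (by decide +kernel)

theorem bTP_38 : JobB fTP Ah At (fun _ => At.b0) 38 :=
  CvB.job (b0 := 20) (y := 0) (n := 17) (lo := 0) (hi := 39)
    (CvB.step (b := 36) (q := 3) (CvR.step ⟨(bnd_r (bnd_r (bnd_r (bnd_r cTP_36_12.down))))⟩ rfl CvR.zero) rfl <|
    CvB.step (b := 30) (q := 6) (CvR.step ⟨(bnd_r cTP_30_35.down)⟩ rfl CvR.zero) rfl <|
    CvB.step (b := 24) (q := 6) (CvR.step ⟨cTP_24_59.down⟩ rfl CvR.zero) rfl <|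
    CvB.step (b := 18) (q := 6) (CvR.step ⟨cTP_18_73.down⟩ rfl CvR.zero) rfl <|
    CvB.step (b := 15) (q := 3) (CvR.step ⟨bnd_l cTP_15_40.down⟩ rfl CvR.zero) rfl <|
    CvB.step (b := 12) (q := 3) (CvR.step ⟨bnd_l cTP_12_42.down⟩ rfl CvR.zero) rfl <|
    CvB.step (b := 9) (q := 3) (CvR.step ⟨bnd_l (bnd_r cTP_9_47.down)⟩ rfl CvR.zero) rfl <|
    CvB.step (b := 6) (q := 3) (CvR.step ⟨bnd_l cTP_6_53.down⟩ rfl CvR.zero) rfl <|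
    CvB.step (b := 3) (q := 3) (CvR.step ⟨cTP_3_58.down⟩ rfl CvR.zero) rfl <|
    CvB.step (b := 0) (q := 3) (CvR.step ⟨(bnd_r cTP_0_44.down)⟩ rfl CvR.zero) rfl <|
    CvB.zero)
    (by decide +kernel)

theorem bTP_39 : JobB fTP Ah At (fun _ => At.b0) 39 :=
  CvB.job (b0 := 20) (y := 1) (n := 20) (lo := 0) (hi := 39)
    (CvB.step (b := 36) (q := 3) (CvR.step ⟨bnd_l cTP_36_13.down⟩ rfl CvR.zero) rfl <|
    CvB.step (b := 30) (q := 6) (CvR.step ⟨bnd_l cTP_30_36.down⟩ rfl CvR.zero) rfl <|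
    CvB.step (b := 24) (q := 6) (CvR.step ⟨cTP_24_60.down⟩ rfl CvR.zero) rfl <|
    CvB.step (b := 18) (q := 6) (CvR.step ⟨cTP_18_74.down⟩ rfl CvR.zero) rfl <|
    CvB.step (b := 15) (q := 3) (CvR.step ⟨(bnd_r cTP_15_40.down)⟩ rfl CvR.zero) rfl <|
    CvB.step (b := 12) (q := 3) (CvR.step ⟨bnd_l cTP_12_43.down⟩ rfl (CvR.step ⟨(bnd_r cTP_12_42.down)⟩ rfl CvR.zero)) rfl <|
    CvB.step (b := 9) (q := 3) (CvR.step ⟨bnd_l cTP_9_48.down⟩ rfl (CvR.step ⟨(bnd_r (bnd_r cTP_9_47.down))⟩ rfl CvR.zero)) rfl <|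
    CvB.step (b := 6) (q := 3) (CvR.step ⟨bnd_l cTP_6_54.down⟩ rfl (CvR.step ⟨(bnd_r cTP_6_53.down)⟩ rfl CvR.zero)) rfl <|
    CvB.step (b := 3) (q := 3) (CvR.step ⟨cTP_3_59.down⟩ rfl CvR.zero) rfl <|
    CvB.step (b := 0) (q := 3) (CvR.step ⟨bnd_l cTP_0_45.down⟩ rfl CvR.zero) rfl <|
    CvB.zero)
    (by decide +kernel)

theorem bTP_40 : JobB fTP Ah At (fun _ => At.b0) 40 :=
  CvB.job (b0 := 21) (y := 0) (n := 15) (lo := 0) (hi := 39)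
    (CvB.step (b := 36) (q := 3) (CvR.step ⟨bnd_l (bnd_r cTP_36_13.down)⟩ rfl CvR.zero) rfl <|
    CvB.step (b := 30) (q := 6) (CvR.step ⟨(bnd_r cTP_30_36.down)⟩ rfl CvR.zero) rfl <|
    CvB.step (b := 24) (q := 6) (CvR.step ⟨cTP_24_61.down⟩ rfl CvR.zero) rfl <|
    CvB.step (b := 18) (q := 6) (CvR.step ⟨cTP_18_75.down⟩ rfl CvR.zero) rfl <|
    CvB.step (b := 15) (q := 3) (CvR.step ⟨bnd_l cTP_15_41.down⟩ rfl CvR.zero) rfl <|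
    CvB.step (b := 12) (q := 3) (CvR.step ⟨bnd_l (bnd_r cTP_12_43.down)⟩ rfl CvR.zero) rfl <|
    CvB.step (b := 9) (q := 3) (CvR.step ⟨(bnd_r cTP_9_48.down)⟩ rfl CvR.zero) rfl <|
    CvB.step (b := 6) (q := 3) (CvR.step ⟨(bnd_r cTP_6_54.down)⟩ rfl CvR.zero) rfl <|
    CvB.step (b := 3) (q := 3) (CvR.step ⟨cTP_3_60.down⟩ rfl CvR.zero) rfl <|
    CvB.step (b := 0) (q := 3) (CvR.step ⟨bnd_l cTP_0_46.down⟩ rfl (CvR.step ⟨(bnd_r cTP_0_45.down)⟩ rfl CvR.zero)) rfl <|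
    CvB.zero)
    (by decide +kernel)

theorem bTP_41 : JobB fTP Ah At (fun _ => At.b0) 41 :=
  CvB.job (b0 := 21) (y := 1) (n := 18) (lo := 0) (hi := 39)
    (CvB.step (b := 36) (q := 3) (CvR.step ⟨bnd_l (bnd_r (bnd_r cTP_36_13.down))⟩ rfl CvR.zero) rfl <|
    CvB.step (b := 30) (q := 6) (CvR.step ⟨bnd_l cTP_30_37.down⟩ rfl CvR.zero) rfl <|
    CvB.step (b := 24) (q := 6) (CvR.step ⟨cTP_24_62.down⟩ rfl CvR.zero) rfl <|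
    CvB.step (b := 18) (q := 6) (CvR.step ⟨cTP_18_76.down⟩ rfl CvR.zero) rfl <|
    CvB.step (b := 15) (q := 3) (CvR.step ⟨(bnd_r cTP_15_41.down)⟩ rfl CvR.zero) rfl <|
    CvB.step (b := 12) (q := 3) (CvR.step ⟨bnd_l cTP_12_44.down⟩ rfl (CvR.step ⟨(bnd_r (bnd_r cTP_12_43.down))⟩ rfl CvR.zero)) rfl <|
    CvB.step (b := 9) (q := 3) (CvR.step ⟨bnd_l cTP_9_49.down⟩ rfl CvR.zero) rfl <|
    CvB.step (b := 6) (q := 3) (CvR.step ⟨cTP_6_55.down⟩ rfl CvR.zero) rfl <|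
    CvB.step (b := 3) (q := 3) (CvR.step ⟨cTP_3_61.down⟩ rfl CvR.zero) rfl <|
    CvB.step (b := 0) (q := 3) (CvR.step ⟨bnd_l (bnd_r cTP_0_46.down)⟩ rfl CvR.zero) rfl <|
    CvB.zero)
    (by decide +kernel)

theorem bTP_42 : JobB fTP Ah At (fun _ => At.b0) 42 :=
  CvB.job (b0 := 22) (y := 0) (n := 13) (lo := 0) (hi := 39)
    (CvB.step (b := 36) (q := 3) (CvR.step ⟨bnd_l (bnd_r (bnd_r (bnd_r cTP_36_13.down)))⟩ rfl CvR.zero) rfl <|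
    CvB.step (b := 30) (q := 6) (CvR.step ⟨(bnd_r cTP_30_37.down)⟩ rfl CvR.zero) rfl <|
    CvB.step (b := 24) (q := 6) (CvR.step ⟨cTP_24_63.down⟩ rfl CvR.zero) rfl <|
    CvB.step (b := 18) (q := 6) (CvR.step ⟨cTP_18_77.down⟩ rfl CvR.zero) rfl <|
    CvB.step (b := 15) (q := 3) (CvR.step ⟨bnd_l cTP_15_42.down⟩ rfl CvR.zero) rfl <|
    CvB.step (b := 12) (q := 3) (CvR.step ⟨bnd_l (bnd_r cTP_12_44.down)⟩ rfl CvR.zero) rfl <|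
    CvB.step (b := 9) (q := 3) (CvR.step ⟨(bnd_r cTP_9_49.down)⟩ rfl CvR.zero) rfl <|
    CvB.step (b := 6) (q := 3) (CvR.step ⟨bnd_l cTP_6_56.down⟩ rfl CvR.zero) rfl <|
    CvB.step (b := 3) (q := 3) (CvR.step ⟨bnd_l cTP_3_62.down⟩ rfl CvR.zero) rfl <|
    CvB.step (b := 0) (q := 3) (CvR.step ⟨bnd_l cTP_0_47.down⟩ rfl (CvR.step ⟨(bnd_r (bnd_r cTP_0_46.down))⟩ rfl CvR.zero)) rfl <|
    CvB.zero)
    (by decide +kernel)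

theorem bTP_43 : JobB fTP Ah At (fun _ => At.b0) 43 :=
  CvB.job (b0 := 22) (y := 1) (n := 16) (lo := 0) (hi := 39)
    (CvB.step (b := 36) (q := 3) (CvR.step ⟨bnd_l (bnd_r (bnd_r (bnd_r (bnd_r cTP_36_13.down))))⟩ rfl CvR.zero) rfl <|
    CvB.step (b := 30) (q := 6) (CvR.step ⟨bnd_l cTP_30_38.down⟩ rfl CvR.zero) rfl <|
    CvB.step (b := 24) (q := 6) (CvR.step ⟨bnd_l cTP_24_64.down⟩ rfl CvR.zero) rfl <|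
    CvB.step (b := 18) (q := 6) (CvR.step ⟨cTP_18_78.down⟩ rfl CvR.zero) rfl <|
    CvB.step (b := 15) (q := 3) (CvR.step ⟨(bnd_r cTP_15_42.down)⟩ rfl CvR.zero) rfl <|
    CvB.step (b := 12) (q := 3) (CvR.step ⟨(bnd_r (bnd_r cTP_12_44.down))⟩ rfl CvR.zero) rfl <|
    CvB.step (b := 9) (q := 3) (CvR.step ⟨bnd_l cTP_9_50.down⟩ rfl CvR.zero) rfl <|
    CvB.step (b := 6) (q := 3) (CvR.step ⟨(bnd_r cTP_6_56.down)⟩ rfl CvR.zero) rfl <|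
    CvB.step (b := 3) (q := 3) (CvR.step ⟨bnd_l cTP_3_63.down⟩ rfl (CvR.step ⟨(bnd_r cTP_3_62.down)⟩ rfl CvR.zero)) rfl <|
    CvB.step (b := 0) (q := 3) (CvR.step ⟨bnd_l (bnd_r cTP_0_47.down)⟩ rfl CvR.zero) rfl <|
    CvB.zero)
    (by decide +kernel)

theorem bTP_44 : JobB fTP Ah At (fun _ => At.b0) 44 :=
  CvB.job (b0 := 23) (y := 0) (n := 11) (lo := 0) (hi := 39)
    (CvB.step (b := 36) (q := 3) (CvR.step ⟨(bnd_r (bnd_r (bnd_r (bnd_r (bnd_r cTP_36_13.down)))))⟩ rfl CvR.zero) rfl <|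
    CvB.step (b := 30) (q := 6) (CvR.step ⟨bnd_l (bnd_r cTP_30_38.down)⟩ rfl CvR.zero) rfl <|
    CvB.step (b := 24) (q := 6) (CvR.step ⟨(bnd_r cTP_24_64.down)⟩ rfl CvR.zero) rfl <|
    CvB.step (b := 18) (q := 6) (CvR.step ⟨cTP_18_79.down⟩ rfl CvR.zero) rfl <|
    CvB.step (b := 15) (q := 3) (CvR.step ⟨bnd_l cTP_15_43.down⟩ rfl CvR.zero) rfl <|
    CvB.step (b := 12) (q := 3) (CvR.step ⟨bnd_l cTP_12_45.down⟩ rfl CvR.zero) rfl <|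
    CvB.step (b := 9) (q := 3) (CvR.step ⟨(bnd_r cTP_9_50.down)⟩ rfl CvR.zero) rfl <|
    CvB.step (b := 6) (q := 3) (CvR.step ⟨bnd_l cTP_6_57.down⟩ rfl CvR.zero) rfl <|
    CvB.step (b := 3) (q := 3) (CvR.step ⟨bnd_l (bnd_r cTP_3_63.down)⟩ rfl CvR.zero) rfl <|
    CvB.step (b := 0) (q := 3) (CvR.step ⟨(bnd_r (bnd_r cTP_0_47.down))⟩ rfl CvR.zero) rfl <|
    CvB.zero)
    (by decide +kernel)

theorem bTP_45 : JobB fTP Ah At (fun _ => At.b0) 45 :=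
  CvB.job (b0 := 23) (y := 1) (n := 14) (lo := 0) (hi := 39)
    (CvB.step (b := 36) (q := 3) (CvR.step ⟨bnd_l cTP_36_14.down⟩ rfl CvR.zero) rfl <|
    CvB.step (b := 30) (q := 6) (CvR.step ⟨(bnd_r (bnd_r cTP_30_38.down))⟩ rfl CvR.zero) rfl <|
    CvB.step (b := 24) (q := 6) (CvR.step ⟨bnd_l cTP_24_65.down⟩ rfl CvR.zero) rfl <|
    CvB.step (b := 18) (q := 6) (CvR.step ⟨cTP_18_80.down⟩ rfl CvR.zero) rfl <|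
    CvB.step (b := 15) (q := 3) (CvR.step ⟨bnd_l (bnd_r cTP_15_43.down)⟩ rfl CvR.zero) rfl <|
    CvB.step (b := 12) (q := 3) (CvR.step ⟨bnd_l (bnd_r cTP_12_45.down)⟩ rfl CvR.zero) rfl <|
    CvB.step (b := 9) (q := 3) (CvR.step ⟨bnd_l cTP_9_51.down⟩ rfl CvR.zero) rfl <|
    CvB.step (b := 6) (q := 3) (CvR.step ⟨(bnd_r cTP_6_57.down)⟩ rfl CvR.zero) rfl <|
    CvB.step (b := 3) (q := 3) (CvR.step ⟨bnd_l cTP_3_64.down⟩ rfl (CvR.step ⟨(bnd_r (bnd_r cTP_3_63.down))⟩ rfl CvR.zero)) rfl <|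
    CvB.step (b := 0) (q := 3) (CvR.step ⟨bnd_l cTP_0_48.down⟩ rfl CvR.zero) rfl <|
    CvB.zero)
    (by decide +kernel)

theorem bTP_46 : JobB fTP Ah At (fun _ => At.b0) 46 :=
  CvB.job (b0 := 24) (y := 0) (n := 9) (lo := 0) (hi := 39)
    (CvB.step (b := 36) (q := 3) (CvR.step ⟨bnd_l (bnd_r cTP_36_14.down)⟩ rfl CvR.zero) rfl <|
    CvB.step (b := 30) (q := 6) (CvR.step ⟨bnd_l cTP_30_39.down⟩ rfl CvR.zero) rfl <|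
    CvB.step (b := 24) (q := 6) (CvR.step ⟨(bnd_r cTP_24_65.down)⟩ rfl CvR.zero) rfl <|
    CvB.step (b := 18) (q := 6) (CvR.step ⟨cTP_18_81.down⟩ rfl CvR.zero) rfl <|
    CvB.step (b := 15) (q := 3) (CvR.step ⟨(bnd_r (bnd_r cTP_15_43.down))⟩ rfl CvR.zero) rfl <|
    CvB.step (b := 12) (q := 3) (CvR.step ⟨bnd_l cTP_12_46.down⟩ rfl (CvR.step ⟨(bnd_r (bnd_r cTP_12_45.down))⟩ rfl CvR.zero)) rfl <|
    CvB.step (b := 9) (q := 3) (CvR.step ⟨bnd_l (bnd_r cTP_9_51.down)⟩ rfl CvR.zero) rfl <|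
    CvB.step (b := 6) (q := 3) (CvR.step ⟨bnd_l cTP_6_58.down⟩ rfl CvR.zero) rfl <|
    CvB.step (b := 3) (q := 3) (CvR.step ⟨bnd_l (bnd_r cTP_3_64.down)⟩ rfl CvR.zero) rfl <|
    CvB.step (b := 0) (q := 3) (CvR.step ⟨bnd_l (bnd_r cTP_0_48.down)⟩ rfl CvR.zero) rfl <|
    CvB.zero)
    (by decide +kernel)

theorem bTP_47 : JobB fTP Ah At (fun _ => At.b0) 47 :=
  CvB.job (b0 := 24) (y := 1) (n := 12) (lo := 0) (hi := 39)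
    (CvB.step (b := 36) (q := 3) (CvR.step ⟨bnd_l (bnd_r (bnd_r cTP_36_14.down))⟩ rfl CvR.zero) rfl <|
    CvB.step (b := 30) (q := 6) (CvR.step ⟨bnd_l (bnd_r cTP_30_39.down)⟩ rfl CvR.zero) rfl <|
    CvB.step (b := 24) (q := 6) (CvR.step ⟨bnd_l cTP_24_66.down⟩ rfl CvR.zero) rfl <|
    CvB.step (b := 18) (q := 6) (CvR.step ⟨bnd_l cTP_18_82.down⟩ rfl CvR.zero) rfl <|
    CvB.step (b := 15) (q := 3) (CvR.step ⟨bnd_l cTP_15_44.down⟩ rfl CvR.zero) rfl <|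
    CvB.step (b := 12) (q := 3) (CvR.step ⟨bnd_l (bnd_r cTP_12_46.down)⟩ rfl CvR.zero) rfl <|
    CvB.step (b := 9) (q := 3) (CvR.step ⟨bnd_l cTP_9_52.down⟩ rfl (CvR.step ⟨(bnd_r (bnd_r cTP_9_51.down))⟩ rfl CvR.zero)) rfl <|
    CvB.step (b := 6) (q := 3) (CvR.step ⟨bnd_l (bnd_r cTP_6_58.down)⟩ rfl CvR.zero) rfl <|
    CvB.step (b := 3) (q := 3) (CvR.step ⟨(bnd_r (bnd_r cTP_3_64.down))⟩ rfl CvR.zero) rfl <|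
    CvB.step (b := 0) (q := 3) (CvR.step ⟨bnd_l cTP_0_49.down⟩ rfl (CvR.step ⟨(bnd_r (bnd_r cTP_0_48.down))⟩ rfl CvR.zero)) rfl <|
    CvB.zero)
    (by decide +kernel)

theorem bTP_48 : JobB fTP Ah At (fun _ => At.b0) 48 :=
  CvB.job (b0 := 25) (y := 0) (n := 7) (lo := 0) (hi := 39)
    (CvB.step (b := 36) (q := 3) (CvR.step ⟨bnd_l (bnd_r (bnd_r (bnd_r cTP_36_14.down)))⟩ rfl CvR.zero) rfl <|
    CvB.step (b := 30) (q := 6) (CvR.step ⟨bnd_l (bnd_r (bnd_r cTP_30_39.down))⟩ rfl CvR.zero) rfl <|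
    CvB.step (b := 24) (q := 6) (CvR.step ⟨(bnd_r cTP_24_66.down)⟩ rfl CvR.zero) rfl <|
    CvB.step (b := 18) (q := 6) (CvR.step ⟨(bnd_r cTP_18_82.down)⟩ rfl CvR.zero) rfl <|
    CvB.step (b := 15) (q := 3) (CvR.step ⟨bnd_l (bnd_r cTP_15_44.down)⟩ rfl CvR.zero) rfl <|
    CvB.step (b := 12) (q := 3) (CvR.step ⟨bnd_l (bnd_r (bnd_r cTP_12_46.down))⟩ rfl CvR.zero) rfl <|
    CvB.step (b := 9) (q := 3) (CvR.step ⟨bnd_l (bnd_r cTP_9_52.down)⟩ rfl CvR.zero) rfl <|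
    CvB.step (b := 6) (q := 3) (CvR.step ⟨(bnd_r (bnd_r cTP_6_58.down))⟩ rfl CvR.zero) rfl <|
    CvB.step (b := 3) (q := 3) (CvR.step ⟨bnd_l cTP_3_65.down⟩ rfl CvR.zero) rfl <|
    CvB.step (b := 0) (q := 3) (CvR.step ⟨bnd_l (bnd_r cTP_0_49.down)⟩ rfl CvR.zero) rfl <|
    CvB.zero)
    (by decide +kernel)

theorem bTP_49 : JobB fTP Ah At (fun _ => At.b0) 49 :=
  CvB.job (b0 := 25) (y := 1) (n := 10) (lo := 0) (hi := 39)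
    (CvB.step (b := 36) (q := 3) (CvR.step ⟨bnd_l (bnd_r (bnd_r (bnd_r (bnd_r cTP_36_14.down))))⟩ rfl CvR.zero) rfl <|
    CvB.step (b := 30) (q := 6) (CvR.step ⟨(bnd_r (bnd_r (bnd_r cTP_30_39.down)))⟩ rfl CvR.zero) rfl <|
    CvB.step (b := 24) (q := 6) (CvR.step ⟨bnd_l cTP_24_67.down⟩ rfl CvR.zero) rfl <|
    CvB.step (b := 18) (q := 6) (CvR.step ⟨bnd_l cTP_18_83.down⟩ rfl CvR.zero) rfl <|
    CvB.step (b := 15) (q := 3) (CvR.step ⟨bnd_l (bnd_r (bnd_r cTP_15_44.down))⟩ rfl CvR.zero) rfl <|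
    CvB.step (b := 12) (q := 3) (CvR.step ⟨(bnd_r (bnd_r (bnd_r cTP_12_46.down)))⟩ rfl CvR.zero) rfl <|
    CvB.step (b := 9) (q := 3) (CvR.step ⟨bnd_l (bnd_r (bnd_r cTP_9_52.down))⟩ rfl CvR.zero) rfl <|
    CvB.step (b := 6) (q := 3) (CvR.step ⟨bnd_l cTP_6_59.down⟩ rfl CvR.zero) rfl <|
    CvB.step (b := 3) (q := 3) (CvR.step ⟨bnd_l (bnd_r cTP_3_65.down)⟩ rfl CvR.zero) rfl <|
    CvB.step (b := 0) (q := 3) (CvR.step ⟨bnd_l (bnd_r (bnd_r cTP_0_49.down))⟩ rfl CvR.zero) rfl <|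
    CvB.zero)
    (by decide +kernel)

theorem bTP_50 : JobB fTP Ah At (fun _ => At.b0) 50 :=
  CvB.job (b0 := 26) (y := 0) (n := 5) (lo := 0) (hi := 39)
    (CvB.step (b := 36) (q := 3) (CvR.step ⟨bnd_l (bnd_r (bnd_r (bnd_r (bnd_r (bnd_r cTP_36_14.down)))))⟩ rfl CvR.zero) rfl <|
    CvB.step (b := 30) (q := 6) (CvR.step ⟨bnd_l cTP_30_40.down⟩ rfl CvR.zero) rfl <|
    CvB.step (b := 24) (q := 6) (CvR.step ⟨bnd_l (bnd_r cTP_24_67.down)⟩ rfl CvR.zero) rfl <|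
    CvB.step (b := 18) (q := 6) (CvR.step ⟨(bnd_r cTP_18_83.down)⟩ rfl CvR.zero) rfl <|
    CvB.step (b := 15) (q := 3) (CvR.step ⟨(bnd_r (bnd_r (bnd_r cTP_15_44.down)))⟩ rfl CvR.zero) rfl <|
    CvB.step (b := 12) (q := 3) (CvR.step ⟨bnd_l cTP_12_47.down⟩ rfl CvR.zero) rfl <|
    CvB.step (b := 9) (q := 3) (CvR.step ⟨(bnd_r (bnd_r (bnd_r cTP_9_52.down)))⟩ rfl CvR.zero) rfl <|
    CvB.step (b := 6) (q := 3) (CvR.step ⟨bnd_l (bnd_r cTP_6_59.down)⟩ rfl CvR.zero) rfl <|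
    CvB.step (b := 3) (q := 3) (CvR.step ⟨(bnd_r (bnd_r cTP_3_65.down))⟩ rfl CvR.zero) rfl <|
    CvB.step (b := 0) (q := 3) (CvR.step ⟨(bnd_r (bnd_r (bnd_r cTP_0_49.down)))⟩ rfl CvR.zero) rfl <|
    CvB.zero)
    (by decide +kernel)

theorem bTP_51 : JobB fTP Ah At (fun _ => At.b0) 51 :=
  CvB.job (b0 := 26) (y := 1) (n := 8) (lo := 0) (hi := 39)
    (CvB.step (b := 36) (q := 3) (CvR.step ⟨bnd_l (bnd_r (bnd_r (bnd_r (bnd_r (bnd_r (bnd_r cTP_36_14.down))))))⟩ rfl CvR.zero) rfl <|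
    CvB.step (b := 30) (q := 6) (CvR.step ⟨bnd_l (bnd_r cTP_30_40.down)⟩ rfl CvR.zero) rfl <|
    CvB.step (b := 24) (q := 6) (CvR.step ⟨(bnd_r (bnd_r cTP_24_67.down))⟩ rfl CvR.zero) rfl <|
    CvB.step (b := 18) (q := 6) (CvR.step ⟨bnd_l cTP_18_84.down⟩ rfl CvR.zero) rfl <|
    CvB.step (b := 15) (q := 3) (CvR.step ⟨bnd_l cTP_15_45.down⟩ rfl CvR.zero) rfl <|
    CvB.step (b := 12) (q := 3) (CvR.step ⟨bnd_l (bnd_r cTP_12_47.down)⟩ rfl CvR.zero) rfl <|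
    CvB.step (b := 9) (q := 3) (CvR.step ⟨bnd_l cTP_9_53.down⟩ rfl CvR.zero) rfl <|
    CvB.step (b := 6) (q := 3) (CvR.step ⟨bnd_l (bnd_r (bnd_r cTP_6_59.down))⟩ rfl CvR.zero) rfl <|
    CvB.step (b := 3) (q := 3) (CvR.step ⟨bnd_l cTP_3_66.down⟩ rfl CvR.zero) rfl <|
    CvB.step (b := 0) (q := 3) (CvR.step ⟨bnd_l cTP_0_50.down⟩ rfl CvR.zero) rfl <|
    CvB.zero)
    (by decide +kernel)

theorem bTP_52 : JobB fTP Ah At (fun _ => At.b0) 52 :=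
  CvB.job (b0 := 27) (y := 0) (n := 3) (lo := 0) (hi := 39)
    (CvB.step (b := 36) (q := 3) (CvR.step ⟨bnd_l (bnd_r (bnd_r (bnd_r (bnd_r (bnd_r (bnd_r (bnd_r cTP_36_14.down)))))))⟩ rfl CvR.zero) rfl <|
    CvB.step (b := 30) (q := 6) (CvR.step ⟨bnd_l (bnd_r (bnd_r cTP_30_40.down))⟩ rfl CvR.zero) rfl <|
    CvB.step (b := 24) (q := 6) (CvR.step ⟨bnd_l cTP_24_68.down⟩ rfl CvR.zero) rfl <|
    CvB.step (b := 18) (q := 6) (CvR.step ⟨bnd_l (bnd_r cTP_18_84.down)⟩ rfl CvR.zero) rfl <|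
    CvB.step (b := 15) (q := 3) (CvR.step ⟨bnd_l (bnd_r cTP_15_45.down)⟩ rfl CvR.zero) rfl <|
    CvB.step (b := 12) (q := 3) (CvR.step ⟨bnd_l (bnd_r (bnd_r cTP_12_47.down))⟩ rfl CvR.zero) rfl <|
    CvB.step (b := 9) (q := 3) (CvR.step ⟨bnd_l (bnd_r cTP_9_53.down)⟩ rfl CvR.zero) rfl <|
    CvB.step (b := 6) (q := 3) (CvR.step ⟨(bnd_r (bnd_r (bnd_r cTP_6_59.down)))⟩ rfl CvR.zero) rfl <|
    CvB.step (b := 3) (q := 3) (CvR.step ⟨bnd_l (bnd_r cTP_3_66.down)⟩ rfl CvR.zero) rfl <|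
    CvB.step (b := 0) (q := 3) (CvR.step ⟨bnd_l (bnd_r cTP_0_50.down)⟩ rfl CvR.zero) rfl <|
    CvB.zero)
    (by decide +kernel)

theorem bTP_53 : JobB fTP Ah At (fun _ => At.b0) 53 :=
  CvB.job (b0 := 27) (y := 1) (n := 6) (lo := 0) (hi := 39)
    (CvB.step (b := 36) (q := 3) (CvR.step ⟨bnd_l (bnd_r (bnd_r (bnd_r (bnd_r (bnd_r (bnd_r (bnd_r (bnd_r cTP_36_14.down))))))))⟩ rfl CvR.zero) rfl <|
    CvB.step (b := 30) (q := 6) (CvR.step ⟨bnd_l (bnd_r (bnd_r (bnd_r cTP_30_40.down)))⟩ rfl CvR.zero) rfl <|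
    CvB.step (b := 24) (q := 6) (CvR.step ⟨bnd_l (bnd_r cTP_24_68.down)⟩ rfl CvR.zero) rfl <|
    CvB.step (b := 18) (q := 6) (CvR.step ⟨(bnd_r (bnd_r cTP_18_84.down))⟩ rfl CvR.zero) rfl <|
    CvB.step (b := 15) (q := 3) (CvR.step ⟨bnd_l (bnd_r (bnd_r cTP_15_45.down))⟩ rfl CvR.zero) rfl <|
    CvB.step (b := 12) (q := 3) (CvR.step ⟨bnd_l (bnd_r (bnd_r (bnd_r cTP_12_47.down)))⟩ rfl CvR.zero) rfl <|
    CvB.step (b := 9) (q := 3) (CvR.step ⟨bnd_l (bnd_r (bnd_r cTP_9_53.down))⟩ rfl CvR.zero) rfl <|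
    CvB.step (b := 6) (q := 3) (CvR.step ⟨bnd_l cTP_6_60.down⟩ rfl CvR.zero) rfl <|
    CvB.step (b := 3) (q := 3) (CvR.step ⟨bnd_l (bnd_r (bnd_r cTP_3_66.down))⟩ rfl CvR.zero) rfl <|
    CvB.step (b := 0) (q := 3) (CvR.step ⟨bnd_l (bnd_r (bnd_r cTP_0_50.down))⟩ rfl CvR.zero) rfl <|
    CvB.zero)
    (by decide +kernel)

theorem bTP_54 : JobB fTP Ah At (fun _ => At.b0) 54 :=
  CvB.job (b0 := 28) (y := 0) (n := 1) (lo := 0) (hi := 39)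
    (CvB.step (b := 36) (q := 3) (CvR.step ⟨bnd_l (bnd_r (bnd_r (bnd_r (bnd_r (bnd_r (bnd_r (bnd_r (bnd_r (bnd_r cTP_36_14.down)))))))))⟩ rfl CvR.zero) rfl <|
    CvB.step (b := 30) (q := 6) (CvR.step ⟨bnd_l (bnd_r (bnd_r (bnd_r (bnd_r cTP_30_40.down))))⟩ rfl CvR.zero) rfl <|
    CvB.step (b := 24) (q := 6) (CvR.step ⟨bnd_l (bnd_r (bnd_r cTP_24_68.down))⟩ rfl CvR.zero) rfl <|
    CvB.step (b := 18) (q := 6) (CvR.step ⟨bnd_l cTP_18_85.down⟩ rfl CvR.zero) rfl <|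
    CvB.step (b := 15) (q := 3) (CvR.step ⟨bnd_l (bnd_r (bnd_r (bnd_r cTP_15_45.down)))⟩ rfl CvR.zero) rfl <|
    CvB.step (b := 12) (q := 3) (CvR.step ⟨bnd_l (bnd_r (bnd_r (bnd_r (bnd_r cTP_12_47.down))))⟩ rfl CvR.zero) rfl <|
    CvB.step (b := 9) (q := 3) (CvR.step ⟨bnd_l (bnd_r (bnd_r (bnd_r cTP_9_53.down)))⟩ rfl CvR.zero) rfl <|
    CvB.step (b := 6) (q := 3) (CvR.step ⟨bnd_l (bnd_r cTP_6_60.down)⟩ rfl CvR.zero) rfl <|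
    CvB.step (b := 3) (q := 3) (CvR.step ⟨bnd_l (bnd_r (bnd_r (bnd_r cTP_3_66.down)))⟩ rfl CvR.zero) rfl <|
    CvB.step (b := 0) (q := 3) (CvR.step ⟨bnd_l (bnd_r (bnd_r (bnd_r cTP_0_50.down)))⟩ rfl CvR.zero) rfl <|
    CvB.zero)
    (by decide +kernel)

theorem bTP_55 : JobB fTP Ah At (fun _ => At.b0) 55 :=
  CvB.job (b0 := 28) (y := 1) (n := 4) (lo := 0) (hi := 39)
    (CvB.step (b := 36) (q := 3) (CvR.step ⟨(bnd_r (bnd_r (bnd_r (bnd_r (bnd_r (bnd_r (bnd_r (bnd_r (bnd_r (bnd_r cTP_36_14.down))))))))))⟩ rfl CvR.zero) rfl <|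
    CvB.step (b := 30) (q := 6) (CvR.step ⟨(bnd_r (bnd_r (bnd_r (bnd_r (bnd_r cTP_30_40.down)))))⟩ rfl CvR.zero) rfl <|
    CvB.step (b := 24) (q := 6) (CvR.step ⟨(bnd_r (bnd_r (bnd_r cTP_24_68.down)))⟩ rfl CvR.zero) rfl <|
    CvB.step (b := 18) (q := 6) (CvR.step ⟨(bnd_r cTP_18_85.down)⟩ rfl CvR.zero) rfl <|
    CvB.step (b := 15) (q := 3) (CvR.step ⟨(bnd_r (bnd_r (bnd_r (bnd_r cTP_15_45.down))))⟩ rfl CvR.zero) rfl <|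
    CvB.step (b := 12) (q := 3) (CvR.step ⟨(bnd_r (bnd_r (bnd_r (bnd_r (bnd_r cTP_12_47.down)))))⟩ rfl CvR.zero) rfl <|
    CvB.step (b := 9) (q := 3) (CvR.step ⟨(bnd_r (bnd_r (bnd_r (bnd_r cTP_9_53.down))))⟩ rfl CvR.zero) rfl <|
    CvB.step (b := 6) (q := 3) (CvR.step ⟨(bnd_r (bnd_r cTP_6_60.down))⟩ rfl CvR.zero) rfl <|
    CvB.step (b := 3) (q := 3) (CvR.step ⟨(bnd_r (bnd_r (bnd_r (bnd_r cTP_3_66.down))))⟩ rfl CvR.zero) rfl <|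
    CvB.step (b := 0) (q := 3) (CvR.step ⟨(bnd_r (bnd_r (bnd_r (bnd_r cTP_0_50.down))))⟩ rfl CvR.zero) rfl <|
    CvB.zero)
    (by decide +kernel)

theorem jobTP : Job fTP Ah At (fun _ => At.b0) :=
  AllP.job (n := 56)
    (AllP.step bTP_55 <|
    AllP.step bTP_54 <|
    AllP.step bTP_53 <|
    AllP.step bTP_52 <|
    AllP.step bTP_51 <|
    AllP.step bTP_50 <|
    AllP.step bTP_49 <|
    AllP.step bTP_48 <|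
    AllP.step bTP_47 <|
    AllP.step bTP_46 <|
    AllP.step bTP_45 <|
    AllP.step bTP_44 <|
    AllP.step bTP_43 <|
    AllP.step bTP_42 <|
    AllP.step bTP_41 <|
    AllP.step bTP_40 <|
    AllP.step bTP_39 <|
    AllP.step bTP_38 <|
    AllP.step bTP_37 <|
    AllP.step bTP_36 <|
    AllP.step bTP_35 <|
    AllP.step bTP_34 <|
    AllP.step bTP_33 <|
    AllP.step bTP_32 <|
    AllP.step bTP_31 <|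
    AllP.step bTP_30 <|
    AllP.step bTP_29 <|
    AllP.step bTP_28 <|
    AllP.step bTP_27 <|
    AllP.step bTP_26 <|
    AllP.step bTP_25 <|
    AllP.step bTP_24 <|
    AllP.step bTP_23 <|
    AllP.step bTP_22 <|
    AllP.step bTP_21 <|
    AllP.step bTP_20 <|
    AllP.step bTP_19 <|
    AllP.step bTP_18 <|
    AllP.step bTP_17 <|
    AllP.step bTP_16 <|
    AllP.step bTP_15 <|
    AllP.step bTP_14 <|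
    AllP.step bTP_13 <|
    AllP.step bTP_12 <|
    AllP.step bTP_11 <|
    AllP.step bTP_10 <|
    AllP.step bTP_9 <|
    AllP.step bTP_8 <|
    AllP.step bTP_7 <|
    AllP.step bTP_6 <|
    AllP.step bTP_5 <|
    AllP.step bTP_4 <|
    AllP.step bTP_3 <|
    AllP.step bTP_2 <|
    AllP.step bTP_1 <|
    AllP.step bTP_0 <|
    AllP.zero _)
    (by decide +kernel)

end Pool.Agent.Work.MP_6bf1e5_an.HD
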