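import Pool.Agent.Work.MP_6bf1e5_an.H.IniD
import Pool.Agent.Work.MP_6bf1e5_an.HD.Dat
import Pool.Agent.Work.MP_6bf1e5_an.HD.Ch

namespace Pool.Agent.Work.MP_6bf1e5_an.HD

def kIni : PLift (H.Ini.chk0 dat cTh = true) := ⟨by decide +kernel⟩

end Pool.Agent.Work.MP_6bf1e5_an.HD
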