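import Pool.Agent.Work.MP_6bf1e5_an.H.MoE
import Pool.Agent.Work.MP_6bf1e5_an.HD.MoDt7

/-! Checks of moment tables (owner helper64). -/

namespace Pool.Agent.Work.MP_6bf1e5_an.HD

open H H.Mw

def moc34 : PLift (ck1 177 84 134 79 88 0 86 16 0 84 75 80 false false (Fs.gs 2 0 0 0) m34 = true) :=
  ⟨by decide +kernel⟩

def mod34 : PLift (ck2 72 false (Fs.gs 2 0 0 0) = true) := ⟨by decide +kernel⟩

def moc35 : PLift (ck1 177 84 134 79 88 0 86 16 0 84 75 80 false true (Fs.gs 2 0 1 1) m35 = true) :=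
  ⟨by decide +kernel⟩

def mod35 : PLift (ck2 72 false (Fs.gs 2 0 1 1) = true) := ⟨by decide +kernel⟩

def moc36 : PLift (ck1 178 85 158 80 88 0 86 16 0 84 75 80 false true (Fs.gs 2 0 2 2) m36 = true) :=
  ⟨by decide +kernel⟩

def mod36 : PLift (ck2 129 false (Fs.gs 2 0 2 2) = true) := ⟨by decide +kernel⟩

def moc37 : PLift (ck1 178 85 162 80 89 1 86 16 0 84 75 80 false false (Fs.gs 2 1 0 3) m37 = true) :=
  ⟨by decide +kernel⟩

def mod37 : PLift (ck2 129 false (Fs.gs 2 1 0 3) = true) := ⟨by decide +kernel⟩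

def moc38 : PLift (ck1 178 85 162 80 89 1 86 16 0 84 75 80 false true (Fs.gs 2 1 1 4) m38 = true) :=
  ⟨by decide +kernel⟩

def mod38 : PLift (ck2 129 false (Fs.gs 2 1 1 4) = true) := ⟨by decide +kernel⟩

def moc39 : PLift (ck1 177 84 130 79 88 0 86 16 0 84 75 80 false true (Fs.gs 2 1 2 5) m39 = true) :=
  ⟨by decide +kernel⟩

def mod39 : PLift (ck2 74 false (Fs.gs 2 1 2 5) = true) := ⟨by decide +kernel⟩

end Pool.Agent.Work.MP_6bf1e5_an.HD
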