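import Pool.Agent.Work.MP_6bf1e5_an.H.MoG
import Pool.Agent.Work.MP_6bf1e5_an.HD.MoGT
import Pool.Agent.Work.MP_6bf1e5_an.HD.MoC7

/-! The moment tables of one pass are correct (owner helper64). -/

namespace Pool.Agent.Work.MP_6bf1e5_an.HD

open H H.Mw

theorem setGT : MSet 2 75 80 332 MoGT := by
  refine mset
    [72, 0, 0, 0, 0, 0, 0, 72, 0, 0, 0, 0, 0, 0, 129, 0, 0, 0, 0, 0, 0, 129, 0, 0, 0, 0, 0, 0,
    129, 0, 0, 0, 0, 0, 0, 74]
    (by norm_num) (fun c hc s hs b hb => ?_) (by decide +kernel)
  interval_cases c <;> interval_cases s <;> interval_cases b
  · exact (good1 moc34.down mod34.down (by norm_num)).cast (by decide +kernel) rfl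
  · exact (good0 true true).cast (by decide +kernel) rfl
  · exact (good0 true true).cast (by decide +kernel) rfl
  · exact (good0 false false).cast (by decide +kernel) rfl
  · exact (good0 true true).cast (by decide +kernel) rfl
  · exact (good0 true true).cast (by decide +kernel) rfl
  · exact (good0 true true).cast (by decide +kernel) rfl
  · exact (good1 moc35.down mod35.down (by norm_num)).cast (by decide +kernel) rfl
  · exact (good0 false true).cast (by decide +kernel) rfl
  · exact (good0 true true).cast (by decide +kernel) rfl
  · exact (good0 false true).cast (by decide +kernel) rfl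
  · exact (good0 false true).cast (by decide +kernel) rfl
  · exact (good0 true true).cast (by decide +kernel) rfl
  · exact (good0 false true).cast (by decide +kernel) rfl
  · exact (good1 moc36.down mod36.down (by norm_num)).cast (by decide +kernel) rfl
  · exact (good0 true true).cast (by decide +kernel) rfl
  · exact (good0 false true).cast (by decide +kernel) rfl
  · exact (good0 false true).cast (by decide +kernel) rfl
  · exact (good0 false false).cast (by decide +kernel) rfl
  · exact (good0 true true).cast (by decide +kernel) rfl
  · exact (good0 true true).cast (by decide +kernel) rfl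
  · exact (good1 moc37.down mod37.down (by norm_num)).cast (by decide +kernel) rfl
  · exact (good0 true true).cast (by decide +kernel) rfl
  · exact (good0 true true).cast (by decide +kernel) rfl
  · exact (good0 true true).cast (by decide +kernel) rfl
  · exact (good0 false true).cast (by decide +kernel) rfl
  · exact (good0 false true).cast (by decide +kernel) rfl
  · exact (good0 true true).cast (by decide +kernel) rfl
  · exact (good1 moc38.down mod38.down (by norm_num)).cast (by decide +kernel) rfl
  · exact (good0 false true).cast (by decide +kernel) rfl
  · exact (good0 true true).cast (by decide +kernel) rfl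
  · exact (good0 false true).cast (by decide +kernel) rfl
  · exact (good0 false true).cast (by decide +kernel) rfl
  · exact (good0 true true).cast (by decide +kernel) rfl
  · exact (good0 false true).cast (by decide +kernel) rfl
  · exact (good1 moc39.down mod39.down (by norm_num)).cast (by decide +kernel) rfl

end Pool.Agent.Work.MP_6bf1e5_an.HD
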