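import Pool.Agent.Work.MP_6bf1e5_an.H.MoE
import Pool.Agent.Work.MP_6bf1e5_an.HD.MoDt11

/-! Checks of moment tables (owner helper64). -/

namespace Pool.Agent.Work.MP_6bf1e5_an.HD

open H H.Mw

def moc52 : PLift (ck1 164 77 55 76 81 0 80 16 0 81 72 77 false false (Fs.gs 4 0 0 0) m52 = true) :=
  ⟨by decide +kernel⟩

def mod52 : PLift (ck2 13 false (Fs.gs 4 0 0 0) = true) := ⟨by decide +kernel⟩

def moc53 : PLift (ck1 164 77 55 76 81 0 80 16 0 81 72 77 false true (Fs.gs 4 0 1 1) m53 = true) :=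
  ⟨by decide +kernel⟩

def mod53 : PLift (ck2 13 false (Fs.gs 4 0 1 1) = true) := ⟨by decide +kernel⟩

def moc54 : PLift (ck1 178 83 392 79 84 42 84 16 46 85 72 77 true true (Fs.gs 4 0 2 0) m54 = true) :=
  ⟨by decide +kernel⟩

def mod54 : PLift (ck2 8 true (Fs.gs 4 0 2 0) = true) := ⟨by decide +kernel⟩

def moc55 : PLift (ck1 179 84 370 80 86 45 85 16 46 86 72 77 false true (Fs.gs 4 0 2 1) m55 = true) :=
  ⟨by decide +kernel⟩

def mod55 : PLift (ck2 23 false (Fs.gs 4 0 2 1) = true) := ⟨by decide +kernel⟩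

def moc56 : PLift (ck1 182 85 568 82 88 47 86 16 46 92 72 77 true true (Fs.gs 4 0 2 3) m56 = true) :=
  ⟨by decide +kernel⟩

def mod56 : PLift (ck2 26 true (Fs.gs 4 0 2 3) = true) := ⟨by decide +kernel⟩

end Pool.Agent.Work.MP_6bf1e5_an.HD
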