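import Pool.Agent.Work.MP_6bf1e5_an.H.MoE
import Pool.Agent.Work.MP_6bf1e5_an.HD.MoDt12

/-! Checks of moment tables (owner helper64). -/

namespace Pool.Agent.Work.MP_6bf1e5_an.HD

open H H.Mw

def moc57 : PLift (ck1 184 86 567 83 89 48 87 16 46 89 72 77 false true (Fs.gs 4 0 2 4) m57 = true) :=
  ⟨by decide +kernel⟩

def mod57 : PLift (ck2 139 false (Fs.gs 4 0 2 4) = true) := ⟨by decide +kernel⟩

def moc58 : PLift (ck1 174 81 414 77 85 43 82 16 46 84 72 77 true true (Fs.gs 4 1 0 1) m58 = true) :=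
  ⟨by decide +kernel⟩

def mod58 : PLift (ck2 20 true (Fs.gs 4 1 0 1) = true) := ⟨by decide +kernel⟩

def moc59 : PLift (ck1 180 84 451 81 85 44 85 16 46 88 72 77 true true (Fs.gs 4 1 0 4) m59 = true) :=
  ⟨by decide +kernel⟩

def mod59 : PLift (ck2 102 true (Fs.gs 4 1 0 4) = true) := ⟨by decide +kernel⟩

def moc60 : PLift (ck1 165 78 51 75 81 0 82 16 0 81 72 77 false true (Fs.gs 4 1 2 5) m60 = true) :=
  ⟨by decide +kernel⟩

def mod60 : PLift (ck2 18 false (Fs.gs 4 1 2 5) = true) := ⟨by decide +kernel⟩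

end Pool.Agent.Work.MP_6bf1e5_an.HD
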