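import Pool.Agent.Work.MP_6bf1e5_an.H.MoG
import Pool.Agent.Work.MP_6bf1e5_an.HD.MoKK
import Pool.Agent.Work.MP_6bf1e5_an.HD.MoC11
import Pool.Agent.Work.MP_6bf1e5_an.HD.MoC12

/-! The moment tables of one pass are correct (owner helper64). -/

namespace Pool.Agent.Work.MP_6bf1e5_an.HD

open H H.Mw

theorem setKK : MSet 4 72 77 253 MoKK := by
  refine mset
    [13, 0, 0, 0, 0, 0, 0, 13, 0, 0, 0, 0, 8, 23, 0, 26, 139, 0, 0, 20, 26, 0, 102, 8, 20, 0, 139,
    102, 0, 23, 0, 0, 0, 0, 0, 18]
    (by norm_num) (fun c hc s hs b hb => ?_) (by decide +kernel)
  interval_cases c <;> interval_cases s <;> interval_cases b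
  · exact (good1 moc52.down mod52.down (by norm_num)).cast (by decide +kernel) rfl
  · exact (good0 true true).cast (by decide +kernel) rfl
  · exact (good0 true true).cast (by decide +kernel) rfl
  · exact (good0 false false).cast (by decide +kernel) rfl
  · exact (good0 true true).cast (by decide +kernel) rfl
  · exact (good0 true true).cast (by decide +kernel) rfl
  · exact (good0 true true).cast (by decide +kernel) rfl
  · exact (good1 moc53.down mod53.down (by norm_num)).cast (by decide +kernel) rfl
  · exact (good0 false true).cast (by decide +kernel) rfl
  · exact (good0 true true).cast (by decide +kernel) rfl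
  · exact (good0 false true).cast (by decide +kernel) rfl
  · exact (good0 false true).cast (by decide +kernel) rfl
  · exact (good1 moc54.down mod54.down (by norm_num)).cast (by decide +kernel) rfl
  · exact (good1 moc55.down mod55.down (by norm_num)).cast (by decide +kernel) rfl
  · exact (good0 false true).cast (by decide +kernel) rfl
  · exact (good1 moc56.down mod56.down (by norm_num)).cast (by decide +kernel) rfl
  · exact (good1 moc57.down mod57.down (by norm_num)).cast (by decide +kernel) rfl
  · exact (good0 false true).cast (by decide +kernel) rfl
  · exact (good0 false false).cast (by decide +kernel) rfl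
  · exact (good1 moc58.down mod58.down (by norm_num)).cast (by decide +kernel) rfl
  · exact (good2 moc56.down mod56.down (by norm_num)).cast (by decide +kernel) rfl
  · exact (good0 false false).cast (by decide +kernel) rfl
  · exact (good1 moc59.down mod59.down (by norm_num)).cast (by decide +kernel) rfl
  · exact (good2 moc54.down mod54.down (by norm_num)).cast (by decide +kernel) rfl
  · exact (good2 moc58.down mod58.down (by norm_num)).cast (by decide +kernel) rfl
  · exact (good0 false true).cast (by decide +kernel) rfl
  · exact (good2 moc57.down mod57.down (by norm_num)).cast (by decide +kernel) rfl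
  · exact (good2 moc59.down mod59.down (by norm_num)).cast (by decide +kernel) rfl
  · exact (good0 false true).cast (by decide +kernel) rfl
  · exact (good2 moc55.down mod55.down (by norm_num)).cast (by decide +kernel) rfl
  · exact (good0 true true).cast (by decide +kernel) rfl
  · exact (good0 false true).cast (by decide +kernel) rfl
  · exact (good0 false true).cast (by decide +kernel) rfl
  · exact (good0 true true).cast (by decide +kernel) rfl
  · exact (good0 false true).cast (by decide +kernel) rfl
  · exact (good1 moc60.down mod60.down (by norm_num)).cast (by decide +kernel) rfl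

end Pool.Agent.Work.MP_6bf1e5_an.HD
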