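import Pool.Agent.Work.MP_6bf1e5_an.H.MoE
import Pool.Agent.Work.MP_6bf1e5_an.HD.MoDt13

/-! Checks of moment tables (owner helper64). -/

namespace Pool.Agent.Work.MP_6bf1e5_an.HD

open H H.Mw

def moc61 : PLift (ck1 212 99 1134 95 101 90 99 8 80 103 72 79 true true (Fs.gs 5 0 2 0) m61 = true) :=
  ⟨by decide +kernel⟩

def mod61 : PLift (ck2 115 true (Fs.gs 5 0 2 0) = true) := ⟨by decide +kernel⟩

def moc63 : PLift (ck1 206 97 899 93 97 97 98 16 88 103 72 79 false true (Fs.gs 5 0 2 2) m63 = true) :=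
  ⟨by decide +kernel⟩

def mod63 : PLift (ck2 931 false (Fs.gs 5 0 2 2) = true) := ⟨by decide +kernel⟩

def moc64 : PLift (ck1 201 94 920 91 96 88 95 16 80 98 72 79 true true (Fs.gs 5 0 2 3) m64 = true) :=
  ⟨by decide +kernel⟩

def mod64 : PLift (ck2 265 true (Fs.gs 5 0 2 3) = true) := ⟨by decide +kernel⟩

def moc66 : PLift (ck1 217 102 1099 98 104 102 102 8 88 106 72 79 false true (Fs.gs 5 0 2 5) m66 = true) :=
  ⟨by decide +kernel⟩

def mod66 : PLift (ck2 121 false (Fs.gs 5 0 2 5) = true) := ⟨by decide +kernel⟩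

end Pool.Agent.Work.MP_6bf1e5_an.HD
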