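import Pool.Agent.Work.MP_6bf1e5_an.H.MoE
import Pool.Agent.Work.MP_6bf1e5_an.HD.MoDt14

/-! Checks of moment tables (owner helper64). -/

namespace Pool.Agent.Work.MP_6bf1e5_an.HD

open H H.Mw

def moc62 : PLift (ck1 212 99 1135 95 102 91 99 8 80 103 72 79 false true (Fs.gs 5 0 2 1) m62 = true) :=
  ⟨by decide +kernel⟩

def mod62 : PLift (ck2 215 false (Fs.gs 5 0 2 1) = true) := ⟨by decide +kernel⟩

def moc65 : PLift (ck1 201 93 935 91 97 89 95 16 80 99 72 79 false true (Fs.gs 5 0 2 4) m65 = true) :=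
  ⟨by decide +kernel⟩

def mod65 : PLift (ck2 163 false (Fs.gs 5 0 2 4) = true) := ⟨by decide +kernel⟩

def moc67 : PLift (ck1 213 100 1103 96 102 100 100 8 88 106 72 79 false false (Fs.gs 5 1 0 0) m67 = true) :=
  ⟨by decide +kernel⟩

def mod67 : PLift (ck2 88 false (Fs.gs 5 1 0 0) = true) := ⟨by decide +kernel⟩

def moc69 : PLift (ck1 199 93 898 90 95 87 94 16 80 98 72 79 true true (Fs.gs 5 1 0 2) m69 = true) :=
  ⟨by decide +kernel⟩

def mod69 : PLift (ck2 718 true (Fs.gs 5 1 0 2) = true) := ⟨by decide +kernel⟩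

end Pool.Agent.Work.MP_6bf1e5_an.HD
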