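import Pool.Agent.Work.MP_6bf1e5_an.H.MoE
import Pool.Agent.Work.MP_6bf1e5_an.HD.MoDt15

/-! Checks of moment tables (owner helper64). -/

namespace Pool.Agent.Work.MP_6bf1e5_an.HD

open H H.Mw

def moc68 : PLift (ck1 215 101 1080 97 102 100 101 8 88 106 72 79 true true (Fs.gs 5 1 0 1) m68 = true) :=
  ⟨by decide +kernel⟩

def mod68 : PLift (ck2 217 true (Fs.gs 5 1 0 1) = true) := ⟨by decide +kernel⟩

def moc70 : PLift (ck1 203 94 957 91 95 94 96 16 88 99 72 79 false false (Fs.gs 5 1 0 3) m70 = true) :=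
  ⟨by decide +kernel⟩

def mod70 : PLift (ck2 250 false (Fs.gs 5 1 0 3) = true) := ⟨by decide +kernel⟩

def moc72 : PLift (ck1 211 99 1058 95 101 91 99 8 80 104 72 79 true true (Fs.gs 5 1 0 5) m72 = true) :=
  ⟨by decide +kernel⟩

def mod72 : PLift (ck2 157 true (Fs.gs 5 1 0 5) = true) := ⟨by decide +kernel⟩

end Pool.Agent.Work.MP_6bf1e5_an.HD
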