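import Pool.Agent.Work.MP_6bf1e5_an.H.MoE
import Pool.Agent.Work.MP_6bf1e5_an.HD.MoDt16

/-! Checks of moment tables (owner helper64). -/

namespace Pool.Agent.Work.MP_6bf1e5_an.HD

open H H.Mw

def moc71 : PLift (ck1 204 95 942 92 96 96 97 16 88 103 72 79 true true (Fs.gs 5 1 0 4) m71 = true) :=
  ⟨by decide +kernel⟩

def mod71 : PLift (ck2 105 true (Fs.gs 5 1 0 4) = true) := ⟨by decide +kernel⟩

def moc73 : PLift (ck1 214 100 1102 96 101 98 100 8 88 105 72 79 true true (Fs.gs 5 1 1 0) m73 = true) :=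
  ⟨by decide +kernel⟩

def mod73 : PLift (ck2 195 true (Fs.gs 5 1 1 0) = true) := ⟨by decide +kernel⟩

def moc75 : PLift (ck1 199 93 921 90 96 88 94 16 80 97 72 79 false true (Fs.gs 5 1 1 2) m75 = true) :=
  ⟨by decide +kernel⟩

def mod75 : PLift (ck2 308 false (Fs.gs 5 1 1 2) = true) := ⟨by decide +kernel⟩

def moc76 : PLift (ck1 203 95 942 92 95 95 96 16 88 100 72 79 true true (Fs.gs 5 1 1 3) m76 = true) :=
  ⟨by decide +kernel⟩

def mod76 : PLift (ck2 149 true (Fs.gs 5 1 1 3) = true) := ⟨by decide +kernel⟩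

end Pool.Agent.Work.MP_6bf1e5_an.HD
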