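import Pool.Agent.Work.MP_6bf1e5_an.H.MoE
import Pool.Agent.Work.MP_6bf1e5_an.HD.MoDt17

/-! Checks of moment tables (owner helper64). -/

namespace Pool.Agent.Work.MP_6bf1e5_an.HD

open H H.Mw

def moc74 : PLift (ck1 216 101 1079 97 102 99 101 8 88 105 72 79 false true (Fs.gs 5 1 1 1) m74 = true) :=
  ⟨by decide +kernel⟩

def mod74 : PLift (ck2 93 false (Fs.gs 5 1 1 1) = true) := ⟨by decide +kernel⟩

def moc77 : PLift (ck1 205 96 957 93 96 96 97 16 88 101 72 79 false true (Fs.gs 5 1 1 4) m77 = true) :=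
  ⟨by decide +kernel⟩

def mod77 : PLift (ck2 527 false (Fs.gs 5 1 1 4) = true) := ⟨by decide +kernel⟩

def moc78 : PLift (ck1 210 98 1057 94 100 89 98 8 80 103 72 79 false true (Fs.gs 5 1 1 5) m78 = true) :=
  ⟨by decide +kernel⟩

def mod78 : PLift (ck2 194 false (Fs.gs 5 1 1 5) = true) := ⟨by decide +kernel⟩

end Pool.Agent.Work.MP_6bf1e5_an.HD
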