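import Pool.Agent.Work.MP_6bf1e5_an.H.MoE
import Pool.Agent.Work.MP_6bf1e5_an.HD.MoDt2

/-! Checks of moment tables (owner helper64). -/

namespace Pool.Agent.Work.MP_6bf1e5_an.HD

open H H.Mw

def moc10 : PLift (ck1 187 88 349 83 89 35 89 16 34 90 72 79 false false (Fs.gs 1 0 0 0) m10 = true) :=
  ⟨by decide +kernel⟩

def mod10 : PLift (ck2 162 false (Fs.gs 1 0 0 0) = true) := ⟨by decide +kernel⟩

def moc11 : PLift (ck1 185 87 358 82 87 33 88 16 34 90 72 79 true true (Fs.gs 1 0 0 1) m11 = true) :=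
  ⟨by decide +kernel⟩

def mod11 : PLift (ck2 97 true (Fs.gs 1 0 0 1) = true) := ⟨by decide +kernel⟩

def moc15 : PLift (ck1 186 87 499 82 90 35 88 16 34 90 72 79 true true (Fs.gs 1 0 0 5) m15 = true) :=
  ⟨by decide +kernel⟩

def mod15 : PLift (ck2 24 true (Fs.gs 1 0 0 5) = true) := ⟨by decide +kernel⟩

def moc16 : PLift (ck1 187 88 349 83 88 34 89 16 34 90 72 79 false true (Fs.gs 1 0 1 1) m16 = true) :=
  ⟨by decide +kernel⟩

def mod16 : PLift (ck2 162 false (Fs.gs 1 0 1 1) = true) := ⟨by decide +kernel⟩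

def moc20 : PLift (ck1 188 88 475 83 89 34 89 16 34 91 72 79 false true (Fs.gs 1 0 1 5) m20 = true) :=
  ⟨by decide +kernel⟩

def mod20 : PLift (ck2 72 false (Fs.gs 1 0 1 5) = true) := ⟨by decide +kernel⟩

end Pool.Agent.Work.MP_6bf1e5_an.HD
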