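import Pool.Agent.Work.MP_6bf1e5_an.H.MoE
import Pool.Agent.Work.MP_6bf1e5_an.HD.MoDt3

/-! Checks of moment tables (owner helper64). -/

namespace Pool.Agent.Work.MP_6bf1e5_an.HD

open H H.Mw

def moc21 : PLift (ck1 191 89 562 86 92 39 91 16 34 96 72 79 true true (Fs.gs 1 0 2 0) m21 = true) :=
  ⟨by decide +kernel⟩

def mod21 : PLift (ck2 248 true (Fs.gs 1 0 2 0) = true) := ⟨by decide +kernel⟩

def moc22 : PLift (ck1 192 90 539 87 92 39 91 16 34 96 72 79 false true (Fs.gs 1 0 2 1) m22 = true) :=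
  ⟨by decide +kernel⟩

def mod22 : PLift (ck2 746 false (Fs.gs 1 0 2 1) = true) := ⟨by decide +kernel⟩

def moc23 : PLift (ck1 188 88 517 84 90 36 89 16 34 92 72 79 false true (Fs.gs 1 0 2 5) m23 = true) :=
  ⟨by decide +kernel⟩

def mod23 : PLift (ck2 218 false (Fs.gs 1 0 2 5) = true) := ⟨by decide +kernel⟩

def moc24 : PLift (ck1 190 88 583 85 91 37 90 16 34 93 72 79 false false (Fs.gs 1 1 0 0) m24 = true) :=
  ⟨by decide +kernel⟩

def mod24 : PLift (ck2 173 false (Fs.gs 1 1 0 0) = true) := ⟨by decide +kernel⟩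

def moc25 : PLift (ck1 190 89 598 86 92 39 90 16 34 93 72 79 true true (Fs.gs 1 1 0 1) m25 = true) :=
  ⟨by decide +kernel⟩

def mod25 : PLift (ck2 266 true (Fs.gs 1 1 0 1) = true) := ⟨by decide +kernel⟩

end Pool.Agent.Work.MP_6bf1e5_an.HD
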