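import Pool.Agent.Work.MP_6bf1e5_an.H.MoE
import Pool.Agent.Work.MP_6bf1e5_an.HD.MoDt4

/-! Checks of moment tables (owner helper64). -/

namespace Pool.Agent.Work.MP_6bf1e5_an.HD

open H H.Mw

def moc26 : PLift (ck1 191 89 562 86 91 38 91 16 34 96 72 79 true true (Fs.gs 1 1 0 5) m26 = true) :=
  ⟨by decide +kernel⟩

def mod26 : PLift (ck2 183 true (Fs.gs 1 1 0 5) = true) := ⟨by decide +kernel⟩

def moc27 : PLift (ck1 190 89 598 86 92 39 90 16 34 93 72 79 true true (Fs.gs 1 1 1 0) m27 = true) :=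
  ⟨by decide +kernel⟩

def mod27 : PLift (ck2 264 true (Fs.gs 1 1 1 0) = true) := ⟨by decide +kernel⟩

def moc28 : PLift (ck1 190 89 583 86 90 37 90 16 34 93 72 79 false true (Fs.gs 1 1 1 1) m28 = true) :=
  ⟨by decide +kernel⟩

def mod28 : PLift (ck2 72 false (Fs.gs 1 1 1 1) = true) := ⟨by decide +kernel⟩

def moc29 : PLift (ck1 192 90 539 87 92 39 91 16 34 96 72 79 false true (Fs.gs 1 1 1 5) m29 = true) :=
  ⟨by decide +kernel⟩

def mod29 : PLift (ck2 746 false (Fs.gs 1 1 1 5) = true) := ⟨by decide +kernel⟩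

def moc33 : PLift (ck1 185 87 298 82 88 34 88 16 34 91 72 79 false true (Fs.gs 1 1 2 5) m33 = true) :=
  ⟨by decide +kernel⟩

def mod33 : PLift (ck2 169 false (Fs.gs 1 1 2 5) = true) := ⟨by decide +kernel⟩

end Pool.Agent.Work.MP_6bf1e5_an.HD
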