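import Pool.Agent.Work.MP_6bf1e5_an.H.MoG
import Pool.Agent.Work.MP_6bf1e5_an.HD.MoLL
import Pool.Agent.Work.MP_6bf1e5_an.HD.MoC2
import Pool.Agent.Work.MP_6bf1e5_an.HD.MoC3
import Pool.Agent.Work.MP_6bf1e5_an.HD.MoC4
import Pool.Agent.Work.MP_6bf1e5_an.HD.MoC13
import Pool.Agent.Work.MP_6bf1e5_an.HD.MoC14
import Pool.Agent.Work.MP_6bf1e5_an.HD.MoC15
import Pool.Agent.Work.MP_6bf1e5_an.HD.MoC16
import Pool.Agent.Work.MP_6bf1e5_an.HD.MoC17

/-! The moment tables of one pass are correct (owner helper64). -/

namespace Pool.Agent.Work.MP_6bf1e5_an.HD

open H H.Mw

theorem setLL : MSet 5 72 79 2773 MoLL := by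
  refine mset
    [162, 97, 248, 173, 264, 24, 97, 162, 746, 266, 72, 72, 115, 215, 931, 265, 163, 121, 88, 217,
    718, 250, 105, 157, 195, 93, 308, 149, 527, 194, 24, 72, 218, 183, 746, 169]
    (by norm_num) (fun c hc s hs b hb => ?_) (by decide +kernel)
  interval_cases c <;> interval_cases s <;> interval_cases b
  · exact (good1 moc10.down mod10.down (by norm_num)).cast (by decide +kernel) rfl
  · exact (good1 moc11.down mod11.down (by norm_num)).cast (by decide +kernel) rfl
  · exact (good1 moc21.down mod21.down (by norm_num)).cast (by decide +kernel) rfl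
  · exact (good1 moc24.down mod24.down (by norm_num)).cast (by decide +kernel) rfl
  · exact (good1 moc27.down mod27.down (by norm_num)).cast (by decide +kernel) rfl
  · exact (good1 moc15.down mod15.down (by norm_num)).cast (by decide +kernel) rfl
  · exact (good1 moc11.down mod11.down (by norm_num)).cast (by decide +kernel) rfl
  · exact (good1 moc16.down mod16.down (by norm_num)).cast (by decide +kernel) rfl
  · exact (good1 moc22.down mod22.down (by norm_num)).cast (by decide +kernel) rfl
  · exact (good1 moc25.down mod25.down (by norm_num)).cast (by decide +kernel) rfl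
  · exact (good1 moc28.down mod28.down (by norm_num)).cast (by decide +kernel) rfl
  · exact (good1 moc20.down mod20.down (by norm_num)).cast (by decide +kernel) rfl
  · exact (good1 moc61.down mod61.down (by norm_num)).cast (by decide +kernel) rfl
  · exact (good1 moc62.down mod62.down (by norm_num)).cast (by decide +kernel) rfl
  · exact (good1 moc63.down mod63.down (by norm_num)).cast (by decide +kernel) rfl
  · exact (good1 moc64.down mod64.down (by norm_num)).cast (by decide +kernel) rfl
  · exact (good1 moc65.down mod65.down (by norm_num)).cast (by decide +kernel) rfl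
  · exact (good1 moc66.down mod66.down (by norm_num)).cast (by decide +kernel) rfl
  · exact (good1 moc67.down mod67.down (by norm_num)).cast (by decide +kernel) rfl
  · exact (good1 moc68.down mod68.down (by norm_num)).cast (by decide +kernel) rfl
  · exact (good1 moc69.down mod69.down (by norm_num)).cast (by decide +kernel) rfl
  · exact (good1 moc70.down mod70.down (by norm_num)).cast (by decide +kernel) rfl
  · exact (good1 moc71.down mod71.down (by norm_num)).cast (by decide +kernel) rfl
  · exact (good1 moc72.down mod72.down (by norm_num)).cast (by decide +kernel) rfl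
  · exact (good1 moc73.down mod73.down (by norm_num)).cast (by decide +kernel) rfl
  · exact (good1 moc74.down mod74.down (by norm_num)).cast (by decide +kernel) rfl
  · exact (good1 moc75.down mod75.down (by norm_num)).cast (by decide +kernel) rfl
  · exact (good1 moc76.down mod76.down (by norm_num)).cast (by decide +kernel) rfl
  · exact (good1 moc77.down mod77.down (by norm_num)).cast (by decide +kernel) rfl
  · exact (good1 moc78.down mod78.down (by norm_num)).cast (by decide +kernel) rfl
  · exact (good1 moc15.down mod15.down (by norm_num)).cast (by decide +kernel) rfl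
  · exact (good1 moc20.down mod20.down (by norm_num)).cast (by decide +kernel) rfl
  · exact (good1 moc23.down mod23.down (by norm_num)).cast (by decide +kernel) rfl
  · exact (good1 moc26.down mod26.down (by norm_num)).cast (by decide +kernel) rfl
  · exact (good1 moc29.down mod29.down (by norm_num)).cast (by decide +kernel) rfl
  · exact (good1 moc33.down mod33.down (by norm_num)).cast (by decide +kernel) rfl

end Pool.Agent.Work.MP_6bf1e5_an.HD
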