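import Pool.Agent.Work.MP_6bf1e5_an.H.MoE
import Pool.Agent.Work.MP_6bf1e5_an.HD.MoDt18

/-! Checks of moment tables (owner helper64). -/

namespace Pool.Agent.Work.MP_6bf1e5_an.HD

open H H.Mw

def moc79 : PLift (ck1 201 93 1086 92 95 90 92 5 76 99 63 77 false false (Fs.gs 6 0 0 0) m79 = true) :=
  ⟨by decide +kernel⟩

def mod79 : PLift (ck2 1910 false (Fs.gs 6 0 0 0) = true) := ⟨by decide +kernel⟩

def moc81 : PLift (ck1 193 90 886 87 90 78 90 8 68 95 63 77 true true (Fs.gs 6 0 0 2) m81 = true) :=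
  ⟨by decide +kernel⟩

def mod81 : PLift (ck2 8505 true (Fs.gs 6 0 0 2) = true) := ⟨by decide +kernel⟩

def moc82 : PLift (ck1 193 90 931 87 91 87 90 8 76 95 63 77 false false (Fs.gs 6 0 0 3) m82 = true) :=
  ⟨by decide +kernel⟩

def mod82 : PLift (ck2 4872 false (Fs.gs 6 0 0 3) = true) := ⟨by decide +kernel⟩

def moc90 : PLift (ck1 199 93 990 92 95 94 94 16 76 99 63 77 false true (Fs.gs 6 0 2 2) m90 = true) :=
  ⟨by decide +kernel⟩

def mod90 : PLift (ck2 241208 false (Fs.gs 6 0 2 2) = true) := ⟨by decide +kernel⟩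

end Pool.Agent.Work.MP_6bf1e5_an.HD
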