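import Pool.Agent.Work.MP_6bf1e5_an.H.MoE
import Pool.Agent.Work.MP_6bf1e5_an.HD.MoDt19

/-! Checks of moment tables (owner helper64). -/

namespace Pool.Agent.Work.MP_6bf1e5_an.HD

open H H.Mw

def moc80 : PLift (ck1 202 93 1071 92 95 90 93 5 76 102 63 77 true true (Fs.gs 6 0 0 1) m80 = true) :=
  ⟨by decide +kernel⟩

def mod80 : PLift (ck2 1423 true (Fs.gs 6 0 0 1) = true) := ⟨by decide +kernel⟩

def moc83 : PLift (ck1 194 91 908 88 92 88 90 8 76 95 63 77 true true (Fs.gs 6 0 0 4) m83 = true) :=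
  ⟨by decide +kernel⟩

def mod83 : PLift (ck2 4150 true (Fs.gs 6 0 0 4) = true) := ⟨by decide +kernel⟩

def moc86 : PLift (ck1 193 90 862 87 91 79 90 8 68 96 63 77 false true (Fs.gs 6 0 1 2) m86 = true) :=
  ⟨by decide +kernel⟩

def mod86 : PLift (ck2 17330 false (Fs.gs 6 0 1 2) = true) := ⟨by decide +kernel⟩

def moc91 : PLift (ck1 193 90 1011 89 92 83 91 16 68 99 63 77 true true (Fs.gs 6 0 2 3) m91 = true) :=
  ⟨by decide +kernel⟩

def mod91 : PLift (ck2 67659 true (Fs.gs 6 0 2 3) = true) := ⟨by decide +kernel⟩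

end Pool.Agent.Work.MP_6bf1e5_an.HD
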