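import Pool.Agent.Work.MP_6bf1e5_an.H.MoE
import Pool.Agent.Work.MP_6bf1e5_an.HD.MoDt20

/-! Checks of moment tables (owner helper64). -/

namespace Pool.Agent.Work.MP_6bf1e5_an.HD

open H H.Mw

def moc84 : PLift (ck1 200 92 1035 91 93 80 92 5 68 100 63 77 true true (Fs.gs 6 0 0 5) m84 = true) :=
  ⟨by decide +kernel⟩

def mod84 : PLift (ck2 1447 true (Fs.gs 6 0 0 5) = true) := ⟨by decide +kernel⟩

def moc87 : PLift (ck1 193 91 907 88 93 90 90 8 76 97 63 77 true true (Fs.gs 6 0 1 3) m87 = true) :=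
  ⟨by decide +kernel⟩

def mod87 : PLift (ck2 5402 true (Fs.gs 6 0 1 3) = true) := ⟨by decide +kernel⟩

def moc88 : PLift (ck1 195 92 884 89 93 90 91 8 76 97 63 77 false true (Fs.gs 6 0 1 4) m88 = true) :=
  ⟨by decide +kernel⟩

def mod88 : PLift (ck2 4000 false (Fs.gs 6 0 1 4) = true) := ⟨by decide +kernel⟩

def moc92 : PLift (ck1 195 91 1026 90 91 82 92 16 68 97 63 77 false true (Fs.gs 6 0 2 4) m92 = true) :=
  ⟨by decide +kernel⟩

def mod92 : PLift (ck2 35565 false (Fs.gs 6 0 2 4) = true) := ⟨by decide +kernel⟩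

end Pool.Agent.Work.MP_6bf1e5_an.HD
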