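import Pool.Agent.Work.MP_6bf1e5_an.H.MoE
import Pool.Agent.Work.MP_6bf1e5_an.HD.MoDt21

/-! Checks of moment tables (owner helper64). -/

namespace Pool.Agent.Work.MP_6bf1e5_an.HD

open H H.Mw

def moc85 : PLift (ck1 204 94 1086 93 96 91 94 5 76 102 63 77 false true (Fs.gs 6 0 1 1) m85 = true) :=
  ⟨by decide +kernel⟩

def mod85 : PLift (ck2 1908 false (Fs.gs 6 0 1 1) = true) := ⟨by decide +kernel⟩

def moc93 : PLift (ck1 196 92 927 89 93 89 91 8 76 96 63 77 false true (Fs.gs 6 0 2 5) m93 = true) :=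
  ⟨by decide +kernel⟩

def mod93 : PLift (ck2 29170 false (Fs.gs 6 0 2 5) = true) := ⟨by decide +kernel⟩

def moc94 : PLift (ck1 195 91 1062 90 91 90 92 16 76 98 63 77 false false (Fs.gs 6 1 0 3) m94 = true) :=
  ⟨by decide +kernel⟩

def mod94 : PLift (ck2 42547 false (Fs.gs 6 1 0 3) = true) := ⟨by decide +kernel⟩

end Pool.Agent.Work.MP_6bf1e5_an.HD
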