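import Pool.Agent.Work.MP_6bf1e5_an.H.MoE
import Pool.Agent.Work.MP_6bf1e5_an.HD.MoDt22

/-! Checks of moment tables (owner helper64). -/

namespace Pool.Agent.Work.MP_6bf1e5_an.HD

open H H.Mw

def moc89 : PLift (ck1 200 92 1050 91 94 81 92 5 68 101 63 77 false true (Fs.gs 6 0 1 5) m89 = true) :=
  ⟨by decide +kernel⟩

def mod89 : PLift (ck2 2238 false (Fs.gs 6 0 1 5) = true) := ⟨by decide +kernel⟩

def moc95 : PLift (ck1 197 92 1047 91 92 91 93 16 76 98 63 77 true true (Fs.gs 6 1 0 4) m95 = true) :=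
  ⟨by decide +kernel⟩

def mod95 : PLift (ck2 15395 true (Fs.gs 6 1 0 4) = true) := ⟨by decide +kernel⟩

def moc96 : PLift (ck1 192 90 948 87 90 78 89 8 68 95 63 77 true true (Fs.gs 6 1 0 5) m96 = true) :=
  ⟨by decide +kernel⟩

def mod96 : PLift (ck2 7825 true (Fs.gs 6 1 0 5) = true) := ⟨by decide +kernel⟩

end Pool.Agent.Work.MP_6bf1e5_an.HD
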