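import Pool.Agent.Work.MP_6bf1e5_an.H.MoE
import Pool.Agent.Work.MP_6bf1e5_an.HD.MoDt23

/-! Checks of moment tables (owner helper64). -/

namespace Pool.Agent.Work.MP_6bf1e5_an.HD

open H H.Mw

def moc97 : PLift (ck1 198 92 1062 91 94 92 93 16 76 99 63 77 false true (Fs.gs 6 1 1 4) m97 = true) :=
  ⟨by decide +kernel⟩

def mod97 : PLift (ck2 57021 false (Fs.gs 6 1 1 4) = true) := ⟨by decide +kernel⟩

def moc98 : PLift (ck1 193 90 963 87 92 80 90 8 68 96 63 77 false true (Fs.gs 6 1 1 5) m98 = true) :=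
  ⟨by decide +kernel⟩

def mod98 : PLift (ck2 14198 false (Fs.gs 6 1 1 5) = true) := ⟨by decide +kernel⟩

def moc99 : PLift (ck1 204 94 1014 93 96 91 94 5 76 103 63 77 false true (Fs.gs 6 1 2 5) m99 = true) :=
  ⟨by decide +kernel⟩

def mod99 : PLift (ck2 6723 false (Fs.gs 6 1 2 5) = true) := ⟨by decide +kernel⟩

end Pool.Agent.Work.MP_6bf1e5_an.HD
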