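import Pool.Agent.Work.MP_6bf1e5_an.H.MoG
import Pool.Agent.Work.MP_6bf1e5_an.HD.MoMM
import Pool.Agent.Work.MP_6bf1e5_an.HD.MoC18
import Pool.Agent.Work.MP_6bf1e5_an.HD.MoC19
import Pool.Agent.Work.MP_6bf1e5_an.HD.MoC20
import Pool.Agent.Work.MP_6bf1e5_an.HD.MoC21
import Pool.Agent.Work.MP_6bf1e5_an.HD.MoC22
import Pool.Agent.Work.MP_6bf1e5_an.HD.MoC23

/-! The moment tables of one pass are correct (owner helper64). -/

namespace Pool.Agent.Work.MP_6bf1e5_an.HD

open H H.Mw

theorem setMM : MSet 6 63 77 299542 MoMM := by
  refine mset
    [1910, 1423, 8505, 4872, 4150, 1447, 1423, 1908, 17330, 5402, 4000, 2238, 8505, 17330, 241208,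
    67659, 35565, 29170, 4872, 5402, 67659, 42547, 15395, 7825, 4150, 4000, 35565, 15395, 57021,
    14198, 1447, 2238, 29170, 7825, 14198, 6723]
    (by norm_num) (fun c hc s hs b hb => ?_) (by decide +kernel)
  interval_cases c <;> interval_cases s <;> interval_cases b
  · exact (good1 moc79.down mod79.down (by norm_num)).cast (by decide +kernel) rfl
  · exact (good1 moc80.down mod80.down (by norm_num)).cast (by decide +kernel) rfl
  · exact (good1 moc81.down mod81.down (by norm_num)).cast (by decide +kernel) rfl
  · exact (good1 moc82.down mod82.down (by norm_num)).cast (by decide +kernel) rfl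
  · exact (good1 moc83.down mod83.down (by norm_num)).cast (by decide +kernel) rfl
  · exact (good1 moc84.down mod84.down (by norm_num)).cast (by decide +kernel) rfl
  · exact (good1 moc80.down mod80.down (by norm_num)).cast (by decide +kernel) rfl
  · exact (good1 moc85.down mod85.down (by norm_num)).cast (by decide +kernel) rfl
  · exact (good1 moc86.down mod86.down (by norm_num)).cast (by decide +kernel) rfl
  · exact (good1 moc87.down mod87.down (by norm_num)).cast (by decide +kernel) rfl
  · exact (good1 moc88.down mod88.down (by norm_num)).cast (by decide +kernel) rfl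
  · exact (good1 moc89.down mod89.down (by norm_num)).cast (by decide +kernel) rfl
  · exact (good1 moc81.down mod81.down (by norm_num)).cast (by decide +kernel) rfl
  · exact (good1 moc86.down mod86.down (by norm_num)).cast (by decide +kernel) rfl
  · exact (good1 moc90.down mod90.down (by norm_num)).cast (by decide +kernel) rfl
  · exact (good1 moc91.down mod91.down (by norm_num)).cast (by decide +kernel) rfl
  · exact (good1 moc92.down mod92.down (by norm_num)).cast (by decide +kernel) rfl
  · exact (good1 moc93.down mod93.down (by norm_num)).cast (by decide +kernel) rfl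
  · exact (good1 moc82.down mod82.down (by norm_num)).cast (by decide +kernel) rfl
  · exact (good1 moc87.down mod87.down (by norm_num)).cast (by decide +kernel) rfl
  · exact (good1 moc91.down mod91.down (by norm_num)).cast (by decide +kernel) rfl
  · exact (good1 moc94.down mod94.down (by norm_num)).cast (by decide +kernel) rfl
  · exact (good1 moc95.down mod95.down (by norm_num)).cast (by decide +kernel) rfl
  · exact (good1 moc96.down mod96.down (by norm_num)).cast (by decide +kernel) rfl
  · exact (good1 moc83.down mod83.down (by norm_num)).cast (by decide +kernel) rfl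
  · exact (good1 moc88.down mod88.down (by norm_num)).cast (by decide +kernel) rfl
  · exact (good1 moc92.down mod92.down (by norm_num)).cast (by decide +kernel) rfl
  · exact (good1 moc95.down mod95.down (by norm_num)).cast (by decide +kernel) rfl
  · exact (good1 moc97.down mod97.down (by norm_num)).cast (by decide +kernel) rfl
  · exact (good1 moc98.down mod98.down (by norm_num)).cast (by decide +kernel) rfl
  · exact (good1 moc84.down mod84.down (by norm_num)).cast (by decide +kernel) rfl
  · exact (good1 moc89.down mod89.down (by norm_num)).cast (by decide +kernel) rfl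
  · exact (good1 moc93.down mod93.down (by norm_num)).cast (by decide +kernel) rfl
  · exact (good1 moc96.down mod96.down (by norm_num)).cast (by decide +kernel) rfl
  · exact (good1 moc98.down mod98.down (by norm_num)).cast (by decide +kernel) rfl
  · exact (good1 moc99.down mod99.down (by norm_num)).cast (by decide +kernel) rfl

end Pool.Agent.Work.MP_6bf1e5_an.HD
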