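import Pool.Agent.Work.MP_6bf1e5_an.H.MoE
import Pool.Agent.Work.MP_6bf1e5_an.HD.MoDt10

/-! Checks of moment tables (owner helper64). -/

namespace Pool.Agent.Work.MP_6bf1e5_an.HD

open H H.Mw

def moc46 : PLift (ck1 216 101 1066 94 102 96 101 8 92 102 76 84 true true (Fs.gs 3 0 2 3) m46 = true) :=
  ⟨by decide +kernel⟩

def mod46 : PLift (ck2 4436 true (Fs.gs 3 0 2 3) = true) := ⟨by decide +kernel⟩

def moc48 : PLift (ck1 221 103 1188 96 103 104 103 8 100 104 76 84 false false (Fs.gs 3 1 0 3) m48 = true) :=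
  ⟨by decide +kernel⟩

def mod48 : PLift (ck2 7944 false (Fs.gs 3 1 0 3) = true) := ⟨by decide +kernel⟩

def moc50 : PLift (ck1 222 104 1186 97 103 105 104 8 100 106 76 84 false true (Fs.gs 3 1 1 4) m50 = true) :=
  ⟨by decide +kernel⟩

def mod50 : PLift (ck2 10328 false (Fs.gs 3 1 1 4) = true) := ⟨by decide +kernel⟩

end Pool.Agent.Work.MP_6bf1e5_an.HD
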