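import Pool.Agent.Work.MP_6bf1e5_an.H.MoE
import Pool.Agent.Work.MP_6bf1e5_an.HD.MoDt8

/-! Checks of moment tables (owner helper64). -/

namespace Pool.Agent.Work.MP_6bf1e5_an.HD

open H H.Mw

def moc40 : PLift (ck1 179 85 134 80 89 0 87 16 0 85 76 84 false false (Fs.gs 3 0 0 0) m40 = true) :=
  ⟨by decide +kernel⟩

def mod40 : PLift (ck2 72 false (Fs.gs 3 0 0 0) = true) := ⟨by decide +kernel⟩

def moc41 : PLift (ck1 191 90 471 83 91 43 91 16 46 91 76 84 true true (Fs.gs 3 0 0 2) m41 = true) :=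
  ⟨by decide +kernel⟩

def mod41 : PLift (ck2 25 true (Fs.gs 3 0 0 2) = true) := ⟨by decide +kernel⟩

def moc42 : PLift (ck1 188 88 493 81 89 40 89 16 46 89 76 84 true true (Fs.gs 3 0 0 4) m42 = true) :=
  ⟨by decide +kernel⟩

def mod42 : PLift (ck2 87 true (Fs.gs 3 0 0 4) = true) := ⟨by decide +kernel⟩

def moc43 : PLift (ck1 179 85 134 80 89 0 87 16 0 85 76 84 false true (Fs.gs 3 0 1 1) m43 = true) :=
  ⟨by decide +kernel⟩

def mod43 : PLift (ck2 72 false (Fs.gs 3 0 1 1) = true) := ⟨by decide +kernel⟩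

def moc44 : PLift (ck1 192 90 449 83 92 43 91 16 46 91 76 84 false true (Fs.gs 3 0 1 2) m44 = true) :=
  ⟨by decide +kernel⟩

def mod44 : PLift (ck2 92 false (Fs.gs 3 0 1 2) = true) := ⟨by decide +kernel⟩

def moc51 : PLift (ck1 179 85 130 80 89 0 87 16 0 85 76 84 false true (Fs.gs 3 1 2 5) m51 = true) :=
  ⟨by decide +kernel⟩

def mod51 : PLift (ck2 74 false (Fs.gs 3 1 2 5) = true) := ⟨by decide +kernel⟩

end Pool.Agent.Work.MP_6bf1e5_an.HD
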