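import Pool.Agent.Work.MP_6bf1e5_an.H.MoE
import Pool.Agent.Work.MP_6bf1e5_an.HD.MoDt9

/-! Checks of moment tables (owner helper64). -/

namespace Pool.Agent.Work.MP_6bf1e5_an.HD

open H H.Mw

def moc45 : PLift (ck1 223 105 1184 98 103 105 104 8 100 107 76 84 false true (Fs.gs 3 0 2 2) m45 = true) :=
  ⟨by decide +kernel⟩

def mod45 : PLift (ck2 3848 false (Fs.gs 3 0 2 2) = true) := ⟨by decide +kernel⟩

def moc47 : PLift (ck1 215 101 1067 94 103 98 101 8 92 103 76 84 false true (Fs.gs 3 0 2 4) m47 = true) :=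
  ⟨by decide +kernel⟩

def mod47 : PLift (ck2 396 false (Fs.gs 3 0 2 4) = true) := ⟨by decide +kernel⟩

def moc49 : PLift (ck1 221 104 1187 97 102 104 103 8 100 106 76 84 true true (Fs.gs 3 1 0 4) m49 = true) :=
  ⟨by decide +kernel⟩

def mod49 : PLift (ck2 409 true (Fs.gs 3 1 0 4) = true) := ⟨by decide +kernel⟩

end Pool.Agent.Work.MP_6bf1e5_an.HD
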