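import Pool.Agent.Work.MP_6bf1e5_an.H.MoG
import Pool.Agent.Work.MP_6bf1e5_an.HD.MoPP
import Pool.Agent.Work.MP_6bf1e5_an.HD.MoC8
import Pool.Agent.Work.MP_6bf1e5_an.HD.MoC9
import Pool.Agent.Work.MP_6bf1e5_an.HD.MoC10

/-! The moment tables of one pass are correct (owner helper64). -/

namespace Pool.Agent.Work.MP_6bf1e5_an.HD

open H H.Mw

theorem setPP : MSet 3 76 84 19398 MoPP := by
  refine mset
    [72, 0, 25, 0, 87, 0, 0, 72, 92, 87, 0, 0, 25, 92, 3848, 4436, 396, 0, 0, 87, 4436, 7944, 409,
    25, 87, 0, 396, 409, 10328, 92, 0, 0, 0, 25, 92, 74]
    (by norm_num) (fun c hc s hs b hb => ?_) (by decide +kernel)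
  interval_cases c <;> interval_cases s <;> interval_cases b
  · exact (good1 moc40.down mod40.down (by norm_num)).cast (by decide +kernel) rfl
  · exact (good0 true true).cast (by decide +kernel) rfl
  · exact (good1 moc41.down mod41.down (by norm_num)).cast (by decide +kernel) rfl
  · exact (good0 false false).cast (by decide +kernel) rfl
  · exact (good1 moc42.down mod42.down (by norm_num)).cast (by decide +kernel) rfl
  · exact (good0 true true).cast (by decide +kernel) rfl
  · exact (good0 true true).cast (by decide +kernel) rfl
  · exact (good1 moc43.down mod43.down (by norm_num)).cast (by decide +kernel) rfl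
  · exact (good1 moc44.down mod44.down (by norm_num)).cast (by decide +kernel) rfl
  · exact (good2 moc42.down mod42.down (by norm_num)).cast (by decide +kernel) rfl
  · exact (good0 false true).cast (by decide +kernel) rfl
  · exact (good0 false true).cast (by decide +kernel) rfl
  · exact (good1 moc41.down mod41.down (by norm_num)).cast (by decide +kernel) rfl
  · exact (good1 moc44.down mod44.down (by norm_num)).cast (by decide +kernel) rfl
  · exact (good1 moc45.down mod45.down (by norm_num)).cast (by decide +kernel) rfl
  · exact (good1 moc46.down mod46.down (by norm_num)).cast (by decide +kernel) rfl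
  · exact (good1 moc47.down mod47.down (by norm_num)).cast (by decide +kernel) rfl
  · exact (good0 false true).cast (by decide +kernel) rfl
  · exact (good0 false false).cast (by decide +kernel) rfl
  · exact (good2 moc42.down mod42.down (by norm_num)).cast (by decide +kernel) rfl
  · exact (good1 moc46.down mod46.down (by norm_num)).cast (by decide +kernel) rfl
  · exact (good1 moc48.down mod48.down (by norm_num)).cast (by decide +kernel) rfl
  · exact (good1 moc49.down mod49.down (by norm_num)).cast (by decide +kernel) rfl
  · exact (good2 moc41.down mod41.down (by norm_num)).cast (by decide +kernel) rfl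
  · exact (good1 moc42.down mod42.down (by norm_num)).cast (by decide +kernel) rfl
  · exact (good0 false true).cast (by decide +kernel) rfl
  · exact (good1 moc47.down mod47.down (by norm_num)).cast (by decide +kernel) rfl
  · exact (good1 moc49.down mod49.down (by norm_num)).cast (by decide +kernel) rfl
  · exact (good1 moc50.down mod50.down (by norm_num)).cast (by decide +kernel) rfl
  · exact (good2 moc44.down mod44.down (by norm_num)).cast (by decide +kernel) rfl
  · exact (good0 true true).cast (by decide +kernel) rfl
  · exact (good0 false true).cast (by decide +kernel) rfl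
  · exact (good0 false true).cast (by decide +kernel) rfl
  · exact (good2 moc41.down mod41.down (by norm_num)).cast (by decide +kernel) rfl
  · exact (good2 moc44.down mod44.down (by norm_num)).cast (by decide +kernel) rfl
  · exact (good1 moc51.down mod51.down (by norm_num)).cast (by decide +kernel) rfl

end Pool.Agent.Work.MP_6bf1e5_an.HD
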