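import Pool.Agent.Work.MP_6bf1e5_an.H.MoE
import Pool.Agent.Work.MP_6bf1e5_an.HD.MoDt5

/-! Checks of moment tables (owner helper64). -/

namespace Pool.Agent.Work.MP_6bf1e5_an.HD

open H H.Mw

def moc12 : PLift (ck1 192 90 588 86 92 38 91 16 34 96 72 79 true true (Fs.gs 1 0 0 2) m12 = true) :=
  ⟨by decide +kernel⟩

def mod12 : PLift (ck2 5 true (Fs.gs 1 0 0 2) = true) := ⟨by decide +kernel⟩

def moc13 : PLift (ck1 192 89 609 85 93 38 91 16 34 93 72 79 false false (Fs.gs 1 0 0 3) m13 = true) :=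
  ⟨by decide +kernel⟩

def mod13 : PLift (ck2 4 false (Fs.gs 1 0 0 3) = true) := ⟨by decide +kernel⟩

def moc14 : PLift (ck1 192 89 624 85 91 36 91 16 34 94 72 79 true true (Fs.gs 1 0 0 4) m14 = true) :=
  ⟨by decide +kernel⟩

def mod14 : PLift (ck2 6 true (Fs.gs 1 0 0 4) = true) := ⟨by decide +kernel⟩

def moc17 : PLift (ck1 194 91 565 87 93 39 92 16 34 96 72 79 false true (Fs.gs 1 0 1 2) m17 = true) :=
  ⟨by decide +kernel⟩

def mod17 : PLift (ck2 17 false (Fs.gs 1 0 1 2) = true) := ⟨by decide +kernel⟩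

def moc18 : PLift (ck1 192 89 624 85 91 36 91 16 34 94 72 79 true true (Fs.gs 1 0 1 3) m18 = true) :=
  ⟨by decide +kernel⟩

def mod18 : PLift (ck2 6 true (Fs.gs 1 0 1 3) = true) := ⟨by decide +kernel⟩

end Pool.Agent.Work.MP_6bf1e5_an.HD
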