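import Pool.Agent.Work.MP_6bf1e5_an.H.MoE
import Pool.Agent.Work.MP_6bf1e5_an.HD.MoDt6

/-! Checks of moment tables (owner helper64). -/

namespace Pool.Agent.Work.MP_6bf1e5_an.HD

open H H.Mw

def moc19 : PLift (ck1 192 90 609 86 92 38 91 16 34 93 72 79 false true (Fs.gs 1 0 1 4) m19 = true) :=
  ⟨by decide +kernel⟩

def mod19 : PLift (ck2 1 false (Fs.gs 1 0 1 4) = true) := ⟨by decide +kernel⟩

def moc30 : PLift (ck1 189 88 543 84 92 38 90 16 34 94 72 79 false true (Fs.gs 1 1 2 2) m30 = true) :=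
  ⟨by decide +kernel⟩

def mod30 : PLift (ck2 2 false (Fs.gs 1 1 2 2) = true) := ⟨by decide +kernel⟩

def moc31 : PLift (ck1 192 90 588 86 94 40 91 16 34 95 72 79 true true (Fs.gs 1 1 2 3) m31 = true) :=
  ⟨by decide +kernel⟩

def mod31 : PLift (ck2 3 true (Fs.gs 1 1 2 3) = true) := ⟨by decide +kernel⟩

def moc32 : PLift (ck1 194 91 565 87 93 39 92 16 34 96 72 79 false true (Fs.gs 1 1 2 4) m32 = true) :=
  ⟨by decide +kernel⟩

def mod32 : PLift (ck2 17 false (Fs.gs 1 1 2 4) = true) := ⟨by decide +kernel⟩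

end Pool.Agent.Work.MP_6bf1e5_an.HD
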