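import Pool.Agent.Work.MP_6bf1e5_an.H.MoG
import Pool.Agent.Work.MP_6bf1e5_an.HD.MoT0
import Pool.Agent.Work.MP_6bf1e5_an.HD.MoC2
import Pool.Agent.Work.MP_6bf1e5_an.HD.MoC3
import Pool.Agent.Work.MP_6bf1e5_an.HD.MoC4
import Pool.Agent.Work.MP_6bf1e5_an.HD.MoC5
import Pool.Agent.Work.MP_6bf1e5_an.HD.MoC6

/-! The moment tables of one pass are correct (owner helper64). -/

namespace Pool.Agent.Work.MP_6bf1e5_an.HD

open H H.Mw

theorem setT0 : MSet 1 72 79 1534 MoT0 := by
  refine mset
    [162, 97, 5, 4, 6, 24, 97, 162, 17, 6, 1, 72, 248, 746, 0, 0, 0, 218, 173, 266, 0, 0, 0, 183,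
    264, 72, 0, 0, 0, 746, 24, 72, 2, 3, 17, 169]
    (by norm_num) (fun c hc s hs b hb => ?_) (by decide +kernel)
  interval_cases c <;> interval_cases s <;> interval_cases b
  · exact (good1 moc10.down mod10.down (by norm_num)).cast (by decide +kernel) rfl
  · exact (good1 moc11.down mod11.down (by norm_num)).cast (by decide +kernel) rfl
  · exact (good1 moc12.down mod12.down (by norm_num)).cast (by decide +kernel) rfl
  · exact (good1 moc13.down mod13.down (by norm_num)).cast (by decide +kernel) rfl
  · exact (good1 moc14.down mod14.down (by norm_num)).cast (by decide +kernel) rfl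
  · exact (good1 moc15.down mod15.down (by norm_num)).cast (by decide +kernel) rfl
  · exact (good1 moc11.down mod11.down (by norm_num)).cast (by decide +kernel) rfl
  · exact (good1 moc16.down mod16.down (by norm_num)).cast (by decide +kernel) rfl
  · exact (good1 moc17.down mod17.down (by norm_num)).cast (by decide +kernel) rfl
  · exact (good1 moc18.down mod18.down (by norm_num)).cast (by decide +kernel) rfl
  · exact (good1 moc19.down mod19.down (by norm_num)).cast (by decide +kernel) rfl
  · exact (good1 moc20.down mod20.down (by norm_num)).cast (by decide +kernel) rfl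
  · exact (good1 moc21.down mod21.down (by norm_num)).cast (by decide +kernel) rfl
  · exact (good1 moc22.down mod22.down (by norm_num)).cast (by decide +kernel) rfl
  · exact (good0 false true).cast (by decide +kernel) rfl
  · exact (good0 true true).cast (by decide +kernel) rfl
  · exact (good0 false true).cast (by decide +kernel) rfl
  · exact (good1 moc23.down mod23.down (by norm_num)).cast (by decide +kernel) rfl
  · exact (good1 moc24.down mod24.down (by norm_num)).cast (by decide +kernel) rfl
  · exact (good1 moc25.down mod25.down (by norm_num)).cast (by decide +kernel) rfl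
  · exact (good0 true true).cast (by decide +kernel) rfl
  · exact (good0 false false).cast (by decide +kernel) rfl
  · exact (good0 true true).cast (by decide +kernel) rfl
  · exact (good1 moc26.down mod26.down (by norm_num)).cast (by decide +kernel) rfl
  · exact (good1 moc27.down mod27.down (by norm_num)).cast (by decide +kernel) rfl
  · exact (good1 moc28.down mod28.down (by norm_num)).cast (by decide +kernel) rfl
  · exact (good0 false true).cast (by decide +kernel) rfl
  · exact (good0 true true).cast (by decide +kernel) rfl
  · exact (good0 false true).cast (by decide +kernel) rfl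
  · exact (good1 moc29.down mod29.down (by norm_num)).cast (by decide +kernel) rfl
  · exact (good1 moc15.down mod15.down (by norm_num)).cast (by decide +kernel) rfl
  · exact (good1 moc20.down mod20.down (by norm_num)).cast (by decide +kernel) rfl
  · exact (good1 moc30.down mod30.down (by norm_num)).cast (by decide +kernel) rfl
  · exact (good1 moc31.down mod31.down (by norm_num)).cast (by decide +kernel) rfl
  · exact (good1 moc32.down mod32.down (by norm_num)).cast (by decide +kernel) rfl
  · exact (good1 moc33.down mod33.down (by norm_num)).cast (by decide +kernel) rfl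

end Pool.Agent.Work.MP_6bf1e5_an.HD
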