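import Pool.Agent.Work.MP_6bf1e5_an.H.MoE
import Pool.Agent.Work.MP_6bf1e5_an.HD.MoDt0

/-! Checks of moment tables (owner helper64). -/

namespace Pool.Agent.Work.MP_6bf1e5_an.HD

open H H.Mw

def moc1 : PLift (ck1 183 87 134 82 91 0 89 16 0 87 78 83 false false (Fs.gs 0 0 0 0) m1 = true) :=
  ⟨by decide +kernel⟩

def mod1 : PLift (ck2 72 false (Fs.gs 0 0 0 0) = true) := ⟨by decide +kernel⟩

def moc2 : PLift (ck1 183 87 134 82 91 0 89 16 0 87 78 83 false true (Fs.gs 0 0 1 1) m2 = true) :=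
  ⟨by decide +kernel⟩

def mod2 : PLift (ck2 72 false (Fs.gs 0 0 1 1) = true) := ⟨by decide +kernel⟩

def moc3 : PLift (ck1 195 92 471 85 93 43 93 16 46 93 78 83 true true (Fs.gs 0 0 2 0) m3 = true) :=
  ⟨by decide +kernel⟩

def mod3 : PLift (ck2 25 true (Fs.gs 0 0 2 0) = true) := ⟨by decide +kernel⟩

def moc4 : PLift (ck1 196 92 449 85 94 43 93 16 46 93 78 83 false true (Fs.gs 0 0 2 1) m4 = true) :=
  ⟨by decide +kernel⟩

def mod4 : PLift (ck2 92 false (Fs.gs 0 0 2 1) = true) := ⟨by decide +kernel⟩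

def moc5 : PLift (ck1 204 95 673 88 96 44 97 16 46 97 78 83 true true (Fs.gs 0 0 2 3) m5 = true) :=
  ⟨by decide +kernel⟩

def mod5 : PLift (ck2 75 true (Fs.gs 0 0 2 3) = true) := ⟨by decide +kernel⟩

end Pool.Agent.Work.MP_6bf1e5_an.HD
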