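import Pool.Agent.Work.MP_6bf1e5_an.H.MoE
import Pool.Agent.Work.MP_6bf1e5_an.HD.MoDt1

/-! Checks of moment tables (owner helper64). -/

namespace Pool.Agent.Work.MP_6bf1e5_an.HD

open H H.Mw

def moc6 : PLift (ck1 204 96 672 89 98 47 97 16 46 98 78 83 false true (Fs.gs 0 0 2 4) m6 = true) :=
  ⟨by decide +kernel⟩

def mod6 : PLift (ck2 862 false (Fs.gs 0 0 2 4) = true) := ⟨by decide +kernel⟩

def moc7 : PLift (ck1 192 90 493 83 91 40 91 16 46 91 78 83 true true (Fs.gs 0 1 0 1) m7 = true) :=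
  ⟨by decide +kernel⟩

def mod7 : PLift (ck2 87 true (Fs.gs 0 1 0 1) = true) := ⟨by decide +kernel⟩

def moc8 : PLift (ck1 201 94 556 87 97 46 96 16 46 96 78 83 true true (Fs.gs 0 1 0 4) m8 = true) :=
  ⟨by decide +kernel⟩

def mod8 : PLift (ck2 1322 true (Fs.gs 0 1 0 4) = true) := ⟨by decide +kernel⟩

def moc9 : PLift (ck1 183 87 130 82 91 0 89 16 0 87 78 83 false true (Fs.gs 0 1 2 5) m9 = true) :=
  ⟨by decide +kernel⟩

def mod9 : PLift (ck2 74 false (Fs.gs 0 1 2 5) = true) := ⟨by decide +kernel⟩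

end Pool.Agent.Work.MP_6bf1e5_an.HD
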