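import Pool.Agent.Work.MP_6bf1e5_an.H.MoG
import Pool.Agent.Work.MP_6bf1e5_an.HD.MoTP
import Pool.Agent.Work.MP_6bf1e5_an.HD.MoC0
import Pool.Agent.Work.MP_6bf1e5_an.HD.MoC1

/-! The moment tables of one pass are correct (owner helper64). -/

namespace Pool.Agent.Work.MP_6bf1e5_an.HD

open H H.Mw

theorem setTP : MSet 0 78 83 2835 MoTP := by
  refine mset
    [72, 0, 0, 0, 0, 0, 0, 72, 0, 0, 0, 0, 25, 92, 0, 75, 862, 0, 0, 87, 75, 0, 1322, 25, 87, 0,
    862, 1322, 0, 92, 0, 0, 0, 0, 0, 74]
    (by norm_num) (fun c hc s hs b hb => ?_) (by decide +kernel)
  interval_cases c <;> interval_cases s <;> interval_cases b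
  · exact (good1 moc1.down mod1.down (by norm_num)).cast (by decide +kernel) rfl
  · exact (good0 true true).cast (by decide +kernel) rfl
  · exact (good0 true true).cast (by decide +kernel) rfl
  · exact (good0 false false).cast (by decide +kernel) rfl
  · exact (good0 true true).cast (by decide +kernel) rfl
  · exact (good0 true true).cast (by decide +kernel) rfl
  · exact (good0 true true).cast (by decide +kernel) rfl
  · exact (good1 moc2.down mod2.down (by norm_num)).cast (by decide +kernel) rfl
  · exact (good0 false true).cast (by decide +kernel) rfl
  · exact (good0 true true).cast (by decide +kernel) rfl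
  · exact (good0 false true).cast (by decide +kernel) rfl
  · exact (good0 false true).cast (by decide +kernel) rfl
  · exact (good1 moc3.down mod3.down (by norm_num)).cast (by decide +kernel) rfl
  · exact (good1 moc4.down mod4.down (by norm_num)).cast (by decide +kernel) rfl
  · exact (good0 false true).cast (by decide +kernel) rfl
  · exact (good1 moc5.down mod5.down (by norm_num)).cast (by decide +kernel) rfl
  · exact (good1 moc6.down mod6.down (by norm_num)).cast (by decide +kernel) rfl
  · exact (good0 false true).cast (by decide +kernel) rfl
  · exact (good0 false false).cast (by decide +kernel) rfl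
  · exact (good1 moc7.down mod7.down (by norm_num)).cast (by decide +kernel) rfl
  · exact (good2 moc5.down mod5.down (by norm_num)).cast (by decide +kernel) rfl
  · exact (good0 false false).cast (by decide +kernel) rfl
  · exact (good1 moc8.down mod8.down (by norm_num)).cast (by decide +kernel) rfl
  · exact (good2 moc3.down mod3.down (by norm_num)).cast (by decide +kernel) rfl
  · exact (good2 moc7.down mod7.down (by norm_num)).cast (by decide +kernel) rfl
  · exact (good0 false true).cast (by decide +kernel) rfl
  · exact (good2 moc6.down mod6.down (by norm_num)).cast (by decide +kernel) rfl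
  · exact (good2 moc8.down mod8.down (by norm_num)).cast (by decide +kernel) rfl
  · exact (good0 false true).cast (by decide +kernel) rfl
  · exact (good2 moc4.down mod4.down (by norm_num)).cast (by decide +kernel) rfl
  · exact (good0 true true).cast (by decide +kernel) rfl
  · exact (good0 false true).cast (by decide +kernel) rfl
  · exact (good0 false true).cast (by decide +kernel) rfl
  · exact (good0 true true).cast (by decide +kernel) rfl
  · exact (good0 false true).cast (by decide +kernel) rfl
  · exact (good1 moc9.down mod9.down (by norm_num)).cast (by decide +kernel) rfl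

end Pool.Agent.Work.MP_6bf1e5_an.HD
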