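import Pool.Agent.Work.MP_6bf1e5_an.H.Ins
import Pool.Agent.Work.MP_6bf1e5_an.HD.MoXTP
import Pool.Agent.Work.MP_6bf1e5_an.HD.MoXT0
import Pool.Agent.Work.MP_6bf1e5_an.HD.MoXGT
import Pool.Agent.Work.MP_6bf1e5_an.HD.MoXPP
import Pool.Agent.Work.MP_6bf1e5_an.HD.MoXKK
import Pool.Agent.Work.MP_6bf1e5_an.HD.MoXLL
import Pool.Agent.Work.MP_6bf1e5_an.HD.MoXMM

/-! The seven sets of moment tables (owner helper64). -/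

namespace Pool.Agent.Work.MP_6bf1e5_an.HD

open H.Ins

theorem mos0 : Mos 0 78 (2 ^ 82) 3 2835 MoTP := ⟨setTP.mom, setTP.int, setTP.hI⟩

theorem mos1 : Mos 1 72 (2 ^ 78) 3 1534 MoT0 := ⟨setT0.mom, setT0.int, setT0.hI⟩

theorem mos2 : Mos 2 75 (2 ^ 79) 3 332 MoGT := ⟨setGT.mom, setGT.int, setGT.hI⟩

theorem mos3 : Mos 3 76 (2 ^ 83) 3 19398 MoPP := ⟨setPP.mom, setPP.int, setPP.hI⟩

theorem mos4 : Mos 4 72 (2 ^ 76) 3 253 MoKK := ⟨setKK.mom, setKK.int, setKK.hI⟩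

theorem mos5 : Mos 5 72 (2 ^ 78) 3 2773 MoLL := ⟨setLL.mom, setLL.int, setLL.hI⟩

theorem mos6 : Mos 6 63 (2 ^ 76) 3 299542 MoMM := ⟨setMM.mom, setMM.int, setMM.hI⟩

end Pool.Agent.Work.MP_6bf1e5_an.HD
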