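import Pool.Agent.Work.MP_6bf1e5_an.HD.BkF
import Pool.Agent.Work.MP_6bf1e5_an.HD.F0
import Pool.Agent.Work.MP_6bf1e5_an.HD.InsT
import Pool.Agent.Work.MP_6bf1e5_an.HD.InsQ
import Pool.Agent.Work.MP_6bf1e5_an.HD.Mos
import Pool.Agent.Work.MP_6bf1e5_an.HD.JTP
import Pool.Agent.Work.MP_6bf1e5_an.HD.JT0
import Pool.Agent.Work.MP_6bf1e5_an.HD.JGT
import Pool.Agent.Work.MP_6bf1e5_an.HD.JPP
import Pool.Agent.Work.MP_6bf1e5_an.HD.JUP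
import Pool.Agent.Work.MP_6bf1e5_an.HD.JKK
import Pool.Agent.Work.MP_6bf1e5_an.HD.JLL
import Pool.Agent.Work.MP_6bf1e5_an.HD.JMM
import Pool.Agent.Work.MP_6bf1e5_an.HD.FinG
import Pool.Agent.Work.MP_6bf1e5_an.HD.FinN
import Pool.Agent.Work.MP_6bf1e5_an.HD.FinO
import Pool.Agent.Work.MP_6bf1e5_an.HD.FinP
import Pool.Agent.Work.MP_6bf1e5_an.HD.FinS
import Pool.Agent.Work.MP_6bf1e5_an.HD.KIni
import Pool.Agent.Work.MP_6bf1e5_an.H.TopR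
import Pool.Agent.Work.MP_6bf1e5_an.H.IniK
import Pool.Agent.Work.MP_6bf1e5_an.H.ClZ

/-! The final assembly on the stored data. -/

open Finset Pool.Agent.Lib.KLA Pool.Agent.Lib.KBlk

namespace Pool.Agent.Work.MP_6bf1e5_an.HD

open H H.Ca H.Ps H.Jf

/-- The numbers. -/
noncomputable def t0 : HatT where
  kp := 795 / 256
  s := 1 / 100
  σ := 232 / 10 ^ 8
  ρ := 4194293 / 4194304
  c1 := 4194309 / 4194304
  sh := 11 / 2048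
  eP := 143 / 2 ^ 38
  eT := 140 / 2 ^ 34
  eU := 343 / 2 ^ 38
  eK := 156 / 2 ^ 35
  eL := 146 / 2 ^ 34
  eZ := 8 / 15 / 2 ^ 28
  eY := 8 / 15 / 2 ^ 24
  eM := 16033 / 2 ^ 36
  z1 := 1651 / 25
  x1 := 4599 / 10
  f := 5713 / 100
  nZ := 3479 / 500
  nK := 1914
  nU := 169500
  b := 256 / 523
  dG := 1 / 10 ^ 11
  n := 4561 / 100
  nF := 4065 / 100
  nt := 8542 / 100
  nS := 1814 / 100

theorem szs : dat.Am.N = 2080 ∧ dat.Ah.N = 1652 ∧ dat.At.N = 7296 ∧ As.N = 329 := by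
  decide +kernel

theorem ok0 : (F0 datOk jAS.down).O.Ok Lt.Dat.mv Lt.Dat.mu (1 + 61971 / 2 ^ 40) (266 / 10 ^ 19) :=
  Fd.ok_of (by decide +kernel) det0 jobT jobV jobS (by decide) subV smT (by norm_num) (by decide)
    (sF0 datOk) fun j hj => (gt0 mos2 fmT pb_ts' jobGT j hj).trans (by norm_num)

theorem rs0 : (F0 datOk jAS.down).O.Rs t0 :=
  Fd.rs ⟨by norm_num, by norm_num, rfl, rfl⟩ (by norm_num [t0]) (s10 datOk jobS1).2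
    (s20 datOk colS2) (zt0 datOk (zp0 datOk jZP.down) colZT) (zu0 datOk (zp0 datOk jZP.down) colZU)
    (zk00 datOk) (zl0 datOk (zp0 datOk jZP.down) colZL) (vy00 datOk) (tp0 datOk mos0 fmH fmT jobTP :)
    (t00 datOk mos1 fmM fmT jobT0 :) (pp0 datOk mos3 fmH jobPP jobUP :)
    (kk0 datOk mos4 fmH fmM (blkK fun _ => test_th' jobT) jobKK :) (ll0 datOk mos5 fmH fmM jobLL :)
    rfl (mm0 datOk mos6 fmM blkD jobMM :) (z10 datOk) (x10 datOk) (nF0 datOk) (nZ0 datOk)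
    (nK0 datOk) (nU0 datOk) (hG0 rfl rfl datOk.has)

theorem blow0 {ν : ℝ} (hν : 0 < ν) : ∃ T, 0 < T ∧ BlowUp ν T := by
  obtain ⟨ψ, s, k1, k2, k3⟩ := Ini.ini0 _ ok0.good rfl kIni.down
  obtain ⟨a1, a2, a3, a4⟩ := szs
  refine Fd.blow (vth := 1890 / 10 ^ 4) ok0 rs0 ?_ ?_ (tail0 rfl rfl (fun d hd => ⟨rfl,
    lt_of_le_of_lt (Nat.zero_le _) ((Pz.asz_spec jAS.down).2.2 _ hd.ps.1)⟩) ⟨rfl, rfl⟩ ok0 rs0
    (frF0 datOk) (frZ0 datOk) (by norm_num) (by norm_num) (by norm_num [t0])) ?_ dat_cV dat_cB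
    dat_cU dat_cW (hc0 rfl rfl rs0.sy2) (by norm_num) dat_pw0 dat_pw1 dat_pw2 (pwθ0 ok0.good rfl rfl)
    (coer_of ok0.good (gam0 rfl rfl) (lo0 datOk (sF0 datOk)) (hi0 datOk rs0.sy2) ?_) k1 k2 k3 hν
  · rw [a1, a2, a3, a4]
    norm_num [HatT.Ok, t0]
  · norm_num [Tol.Ok, HatT.tol, t0]
  · norm_num [t0]
  · norm_num [K0]

end Pool.Agent.Work.MP_6bf1e5_an.HD
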