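import Pool.Agent.Work.MP_6bf1e5_an.HD.CfPP

/-! The rows below the triangle. -/

namespace Pool.Agent.Work.MP_6bf1e5_an.HD

open Pool.Agent.Lib.KLA Pool.Agent.Lib.KBlk

def cUP : PLift (fUP = true) :=
  ⟨by decide +kernel⟩

theorem jobUP : fUP = true := cUP.down

end Pool.Agent.Work.MP_6bf1e5_an.HD
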