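import Pool.Agent.Work.MP_6bf1e5_an.HD.CkN0
import Pool.Agent.Work.MP_6bf1e5_an.HD.CkN1
import Pool.Agent.Work.MP_6bf1e5_an.HD.CkN2
import Pool.Agent.Work.MP_6bf1e5_an.HD.CkN3
import Pool.Agent.Work.MP_6bf1e5_an.HD.CkN4
import Pool.Agent.Work.MP_6bf1e5_an.HD.CkN5
import Pool.Agent.Work.MP_6bf1e5_an.HD.CkN6
import Pool.Agent.Work.MP_6bf1e5_an.HD.CkN7
import Pool.Agent.Work.MP_6bf1e5_an.HD.CkN8
import Pool.Agent.Work.MP_6bf1e5_an.HD.CkN9
import Pool.Agent.Work.MP_6bf1e5_an.HD.CkN10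
import Pool.Agent.Work.MP_6bf1e5_an.HD.CkN11
import Pool.Agent.Work.MP_6bf1e5_an.HD.CkN12
import Pool.Agent.Work.MP_6bf1e5_an.HD.CkN13
import Pool.Agent.Work.MP_6bf1e5_an.HD.CkN14
import Pool.Agent.Work.MP_6bf1e5_an.HD.CkN15
import Pool.Agent.Work.MP_6bf1e5_an.HD.CkN16

namespace Pool.Agent.Work.MP_6bf1e5_an.HD

open Pool.Agent.Lib.KLA Pool.Agent.Lib.KBlk

theorem allNF : All cNF 16 :=
  .step jNF15.down <|
  .step jNF14.down <|
  .step jNF13.down <|
  .step jNF12.down <|
  .step jNF11.down <|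
  .step jNF10.down <|
  .step jNF9.down <|
  .step jNF8.down <|
  .step jNF7.down <|
  .step jNF6.down <|
  .step jNF5.down <|
  .step jNF4.down <|
  .step jNF3.down <|
  .step jNF2.down <|
  .step jNF1.down <|
  .step jNF0.down <|
  .zero _

theorem allNK : All cNK 16 :=
  .step jNK15.down <|
  .step jNK14.down <|
  .step jNK13.down <|
  .step jNK12.down <|
  .step jNK11.down <|
  .step jNK10.down <|
  .step jNK9.down <|
  .step jNK8.down <|
  .step jNK7.down <|
  .step jNK6.down <|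
  .step jNK5.down <|
  .step jNK4.down <|
  .step jNK3.down <|
  .step jNK2.down <|
  .step jNK1.down <|
  .step jNK0.down <|
  .zero _

theorem allNU : All cNU 14 :=
  .step jNU13.down <|
  .step jNU12.down <|
  .step jNU11.down <|
  .step jNU10.down <|
  .step jNU9.down <|
  .step jNU8.down <|
  .step jNU7.down <|
  .step jNU6.down <|
  .step jNU5.down <|
  .step jNU4.down <|
  .step jNU3.down <|
  .step jNU2.down <|
  .step jNU1.down <|
  .step jNU0.down <|
  .zero _

theorem allHI : All cHI 24 :=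
  .step jHI23.down <|
  .step jHI22.down <|
  .step jHI21.down <|
  .step jHI20.down <|
  .step jHI19.down <|
  .step jHI18.down <|
  .step jHI17.down <|
  .step jHI16.down <|
  .step jHI15.down <|
  .step jHI14.down <|
  .step jHI13.down <|
  .step jHI12.down <|
  .step jHI11.down <|
  .step jHI10.down <|
  .step jHI9.down <|
  .step jHI8.down <|
  .step jHI7.down <|
  .step jHI6.down <|
  .step jHI5.down <|
  .step jHI4.down <|
  .step jHI3.down <|
  .step jHI2.down <|
  .step jHI1.down <|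
  .step jHI0.down <|
  .zero _

theorem allX1 : All cX1 8 :=
  .step jX17.down <|
  .step jX16.down <|
  .step jX15.down <|
  .step jX14.down <|
  .step jX13.down <|
  .step jX12.down <|
  .step jX11.down <|
  .step jX10.down <|
  .zero _

theorem bCO0 : JobB cCO dat.Ah dat.Ah (fun b => b) 0 :=
  CvB.job (b0 := 1) (y := 0) (n := 55) (lo := 1) (hi := 29) (
    CvB.step (.one jCO0_25) rfl <|
    CvB.step (.one jCO0_21) rfl <|
    CvB.step (.one jCO0_17) rfl <|
    CvB.step (.one jCO0_13) rfl <|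
    CvB.step (.one jCO0_9) rfl <|
    CvB.step (.one jCO0_5) rfl <|
    CvB.step (.one jCO0_1) rfl <|
    CvB.zero) (by decide +kernel)

theorem bCO1 : JobB cCO dat.Ah dat.Ah (fun b => b) 1 :=
  CvB.job (b0 := 1) (y := 1) (n := 58) (lo := 1) (hi := 29) (
    CvB.step (.one jCO1_25) rfl <|
    CvB.step (.one jCO1_21) rfl <|
    CvB.step (.one jCO1_17) rfl <|
    CvB.step (.one jCO1_13) rfl <|
    CvB.step (.one jCO1_9) rfl <|
    CvB.step (.one jCO1_5) rfl <|
    CvB.step (.one jCO1_1) rfl <|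
    CvB.zero) (by decide +kernel)

theorem bCO2 : JobB cCO dat.Ah dat.Ah (fun b => b) 2 :=
  CvB.job (b0 := 2) (y := 0) (n := 53) (lo := 2) (hi := 29) (
    CvB.step (.one jCO2_25) rfl <|
    CvB.step (.one jCO2_21) rfl <|
    CvB.step (.one jCO2_17) rfl <|
    CvB.step (.one jCO2_13) rfl <|
    CvB.step (.one jCO2_9) rfl <|
    CvB.step (.one jCO2_5) rfl <|
    CvB.step (.one jCO2_2) rfl <|
    CvB.zero) (by decide +kernel)

theorem bCO3 : JobB cCO dat.Ah dat.Ah (fun b => b) 3 :=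
  CvB.job (b0 := 2) (y := 1) (n := 56) (lo := 2) (hi := 29) (
    CvB.step (.one jCO3_25) rfl <|
    CvB.step (.one jCO3_21) rfl <|
    CvB.step (.one jCO3_17) rfl <|
    CvB.step (.one jCO3_13) rfl <|
    CvB.step (.one jCO3_9) rfl <|
    CvB.step (.one jCO3_5) rfl <|
    CvB.step (.one jCO3_2) rfl <|
    CvB.zero) (by decide +kernel)

theorem bCO4 : JobB cCO dat.Ah dat.Ah (fun b => b) 4 :=
  CvB.job (b0 := 3) (y := 0) (n := 51) (lo := 3) (hi := 29) (
    CvB.step (.one jCO4_25) rfl <|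
    CvB.step (.one jCO4_21) rfl <|
    CvB.step (.one jCO4_17) rfl <|
    CvB.step (.one jCO4_13) rfl <|
    CvB.step (.one jCO4_9) rfl <|
    CvB.step (.one jCO4_5) rfl <|
    CvB.step (.one jCO4_3) rfl <|
    CvB.zero) (by decide +kernel)

theorem bCO5 : JobB cCO dat.Ah dat.Ah (fun b => b) 5 :=
  CvB.job (b0 := 3) (y := 1) (n := 54) (lo := 3) (hi := 29) (
    CvB.step (.one jCO5_25) rfl <|
    CvB.step (.one jCO5_21) rfl <|
    CvB.step (.one jCO5_17) rfl <|
    CvB.step (.one jCO5_13) rfl <|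
    CvB.step (.one jCO5_9) rfl <|
    CvB.step (.one jCO5_5) rfl <|
    CvB.step (.one jCO5_3) rfl <|
    CvB.zero) (by decide +kernel)

theorem bCO6 : JobB cCO dat.Ah dat.Ah (fun b => b) 6 :=
  CvB.job (b0 := 4) (y := 0) (n := 49) (lo := 4) (hi := 29) (
    CvB.step (.one jCO6_25) rfl <|
    CvB.step (.one jCO6_21) rfl <|
    CvB.step (.one jCO6_17) rfl <|
    CvB.step (.one jCO6_13) rfl <|
    CvB.step (.one jCO6_9) rfl <|
    CvB.step (.one jCO6_5) rfl <|
    CvB.step (.one jCO6_4) rfl <|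
    CvB.zero) (by decide +kernel)

theorem bCO7 : JobB cCO dat.Ah dat.Ah (fun b => b) 7 :=
  CvB.job (b0 := 4) (y := 1) (n := 52) (lo := 4) (hi := 29) (
    CvB.step (.one jCO7_25) rfl <|
    CvB.step (.one jCO7_21) rfl <|
    CvB.step (.one jCO7_17) rfl <|
    CvB.step (.one jCO7_13) rfl <|
    CvB.step (.one jCO7_9) rfl <|
    CvB.step (.one jCO7_5) rfl <|
    CvB.step (.one jCO7_4) rfl <|
    CvB.zero) (by decide +kernel)

theorem bCO8 : JobB cCO dat.Ah dat.Ah (fun b => b) 8 :=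
  CvB.job (b0 := 5) (y := 0) (n := 47) (lo := 5) (hi := 29) (
    CvB.step (.one jCO8_25) rfl <|
    CvB.step (.one jCO8_21) rfl <|
    CvB.step (.one jCO8_17) rfl <|
    CvB.step (.one jCO8_13) rfl <|
    CvB.step (.one jCO8_9) rfl <|
    CvB.step (.one jCO8_5) rfl <|
    CvB.zero) (by decide +kernel)

theorem bCO9 : JobB cCO dat.Ah dat.Ah (fun b => b) 9 :=
  CvB.job (b0 := 5) (y := 1) (n := 50) (lo := 5) (hi := 29) (
    CvB.step (.one jCO9_25) rfl <|
    CvB.step (.one jCO9_21) rfl <|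
    CvB.step (.one jCO9_17) rfl <|
    CvB.step (.one jCO9_13) rfl <|
    CvB.step (.one jCO9_9) rfl <|
    CvB.step (.one jCO9_5) rfl <|
    CvB.zero) (by decide +kernel)

theorem bCO10 : JobB cCO dat.Ah dat.Ah (fun b => b) 10 :=
  CvB.job (b0 := 6) (y := 0) (n := 45) (lo := 6) (hi := 29) (
    CvB.step (.one jCO10_25) rfl <|
    CvB.step (.one jCO10_21) rfl <|
    CvB.step (.one jCO10_17) rfl <|
    CvB.step (.one jCO10_13) rfl <|
    CvB.step (.one jCO10_9) rfl <|
    CvB.step (.one jCO10_6) rfl <|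
    CvB.zero) (by decide +kernel)

theorem bCO11 : JobB cCO dat.Ah dat.Ah (fun b => b) 11 :=
  CvB.job (b0 := 6) (y := 1) (n := 48) (lo := 6) (hi := 29) (
    CvB.step (.one jCO11_25) rfl <|
    CvB.step (.one jCO11_21) rfl <|
    CvB.step (.one jCO11_17) rfl <|
    CvB.step (.one jCO11_13) rfl <|
    CvB.step (.one jCO11_9) rfl <|
    CvB.step (.one jCO11_6) rfl <|
    CvB.zero) (by decide +kernel)

theorem bCO12 : JobB cCO dat.Ah dat.Ah (fun b => b) 12 :=
  CvB.job (b0 := 7) (y := 0) (n := 43) (lo := 7) (hi := 29) (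
    CvB.step (.one jCO12_25) rfl <|
    CvB.step (.one jCO12_21) rfl <|
    CvB.step (.one jCO12_17) rfl <|
    CvB.step (.one jCO12_13) rfl <|
    CvB.step (.one jCO12_9) rfl <|
    CvB.step (.one jCO12_7) rfl <|
    CvB.zero) (by decide +kernel)

theorem bCO13 : JobB cCO dat.Ah dat.Ah (fun b => b) 13 :=
  CvB.job (b0 := 7) (y := 1) (n := 46) (lo := 7) (hi := 29) (
    CvB.step (.one jCO13_25) rfl <|
    CvB.step (.one jCO13_21) rfl <|
    CvB.step (.one jCO13_17) rfl <|
    CvB.step (.one jCO13_13) rfl <|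
    CvB.step (.one jCO13_9) rfl <|
    CvB.step (.one jCO13_7) rfl <|
    CvB.zero) (by decide +kernel)

theorem bCO14 : JobB cCO dat.Ah dat.Ah (fun b => b) 14 :=
  CvB.job (b0 := 8) (y := 0) (n := 41) (lo := 8) (hi := 29) (
    CvB.step (.one jCO14_25) rfl <|
    CvB.step (.one jCO14_21) rfl <|
    CvB.step (.one jCO14_17) rfl <|
    CvB.step (.one jCO14_13) rfl <|
    CvB.step (.one jCO14_9) rfl <|
    CvB.step (.one jCO14_8) rfl <|
    CvB.zero) (by decide +kernel)

theorem bCO15 : JobB cCO dat.Ah dat.Ah (fun b => b) 15 :=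
  CvB.job (b0 := 8) (y := 1) (n := 44) (lo := 8) (hi := 29) (
    CvB.step (.one jCO15_25) rfl <|
    CvB.step (.one jCO15_21) rfl <|
    CvB.step (.one jCO15_17) rfl <|
    CvB.step (.one jCO15_13) rfl <|
    CvB.step (.one jCO15_9) rfl <|
    CvB.step (.one jCO15_8) rfl <|
    CvB.zero) (by decide +kernel)

theorem bCO16 : JobB cCO dat.Ah dat.Ah (fun b => b) 16 :=
  CvB.job (b0 := 9) (y := 0) (n := 39) (lo := 9) (hi := 29) (
    CvB.step (.one jCO16_25) rfl <|
    CvB.step (.one jCO16_21) rfl <|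
    CvB.step (.one jCO16_17) rfl <|
    CvB.step (.one jCO16_13) rfl <|
    CvB.step (.one jCO16_9) rfl <|
    CvB.zero) (by decide +kernel)

theorem bCO17 : JobB cCO dat.Ah dat.Ah (fun b => b) 17 :=
  CvB.job (b0 := 9) (y := 1) (n := 42) (lo := 9) (hi := 29) (
    CvB.step (.one jCO17_25) rfl <|
    CvB.step (.one jCO17_21) rfl <|
    CvB.step (.one jCO17_17) rfl <|
    CvB.step (.one jCO17_13) rfl <|
    CvB.step (.one jCO17_9) rfl <|
    CvB.zero) (by decide +kernel)

theorem bCO18 : JobB cCO dat.Ah dat.Ah (fun b => b) 18 :=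
  CvB.job (b0 := 10) (y := 0) (n := 37) (lo := 10) (hi := 29) (
    CvB.step (.one jCO18_25) rfl <|
    CvB.step (.one jCO18_21) rfl <|
    CvB.step (.one jCO18_17) rfl <|
    CvB.step (.one jCO18_13) rfl <|
    CvB.step (.one jCO18_10) rfl <|
    CvB.zero) (by decide +kernel)

theorem bCO19 : JobB cCO dat.Ah dat.Ah (fun b => b) 19 :=
  CvB.job (b0 := 10) (y := 1) (n := 40) (lo := 10) (hi := 29) (
    CvB.step (.one jCO19_25) rfl <|
    CvB.step (.one jCO19_21) rfl <|
    CvB.step (.one jCO19_17) rfl <|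
    CvB.step (.one jCO19_13) rfl <|
    CvB.step (.one jCO19_10) rfl <|
    CvB.zero) (by decide +kernel)

theorem bCO20 : JobB cCO dat.Ah dat.Ah (fun b => b) 20 :=
  CvB.job (b0 := 11) (y := 0) (n := 35) (lo := 11) (hi := 29) (
    CvB.step (.one jCO20_25) rfl <|
    CvB.step (.one jCO20_21) rfl <|
    CvB.step (.one jCO20_17) rfl <|
    CvB.step (.one jCO20_13) rfl <|
    CvB.step (.one jCO20_11) rfl <|
    CvB.zero) (by decide +kernel)

theorem bCO21 : JobB cCO dat.Ah dat.Ah (fun b => b) 21 :=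
  CvB.job (b0 := 11) (y := 1) (n := 38) (lo := 11) (hi := 29) (
    CvB.step (.one jCO21_25) rfl <|
    CvB.step (.one jCO21_21) rfl <|
    CvB.step (.one jCO21_17) rfl <|
    CvB.step (.one jCO21_13) rfl <|
    CvB.step (.one jCO21_11) rfl <|
    CvB.zero) (by decide +kernel)

theorem bCO22 : JobB cCO dat.Ah dat.Ah (fun b => b) 22 :=
  CvB.job (b0 := 12) (y := 0) (n := 33) (lo := 12) (hi := 29) (
    CvB.step (.one jCO22_25) rfl <|
    CvB.step (.one jCO22_21) rfl <|
    CvB.step (.one jCO22_17) rfl <|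
    CvB.step (.one jCO22_13) rfl <|
    CvB.step (.one jCO22_12) rfl <|
    CvB.zero) (by decide +kernel)

theorem bCO23 : JobB cCO dat.Ah dat.Ah (fun b => b) 23 :=
  CvB.job (b0 := 12) (y := 1) (n := 36) (lo := 12) (hi := 29) (
    CvB.step (.one jCO23_25) rfl <|
    CvB.step (.one jCO23_21) rfl <|
    CvB.step (.one jCO23_17) rfl <|
    CvB.step (.one jCO23_13) rfl <|
    CvB.step (.one jCO23_12) rfl <|
    CvB.zero) (by decide +kernel)

theorem bCO24 : JobB cCO dat.Ah dat.Ah (fun b => b) 24 :=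
  CvB.job (b0 := 13) (y := 0) (n := 31) (lo := 13) (hi := 29) (
    CvB.step (.one jCO24_25) rfl <|
    CvB.step (.one jCO24_21) rfl <|
    CvB.step (.one jCO24_17) rfl <|
    CvB.step (.one jCO24_13) rfl <|
    CvB.zero) (by decide +kernel)

theorem bCO25 : JobB cCO dat.Ah dat.Ah (fun b => b) 25 :=
  CvB.job (b0 := 13) (y := 1) (n := 34) (lo := 13) (hi := 29) (
    CvB.step (.one jCO25_25) rfl <|
    CvB.step (.one jCO25_21) rfl <|
    CvB.step (.one jCO25_17) rfl <|
    CvB.step (.one jCO25_13) rfl <|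
    CvB.zero) (by decide +kernel)

theorem bCO26 : JobB cCO dat.Ah dat.Ah (fun b => b) 26 :=
  CvB.job (b0 := 14) (y := 0) (n := 29) (lo := 14) (hi := 29) (
    CvB.step (.one jCO26_25) rfl <|
    CvB.step (.one jCO26_21) rfl <|
    CvB.step (.one jCO26_17) rfl <|
    CvB.step (.one jCO26_14) rfl <|
    CvB.zero) (by decide +kernel)

theorem bCO27 : JobB cCO dat.Ah dat.Ah (fun b => b) 27 :=
  CvB.job (b0 := 14) (y := 1) (n := 32) (lo := 14) (hi := 29) (
    CvB.step (.one jCO27_25) rfl <|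
    CvB.step (.one jCO27_21) rfl <|
    CvB.step (.one jCO27_17) rfl <|
    CvB.step (.one jCO27_14) rfl <|
    CvB.zero) (by decide +kernel)

theorem bCO28 : JobB cCO dat.Ah dat.Ah (fun b => b) 28 :=
  CvB.job (b0 := 15) (y := 0) (n := 27) (lo := 15) (hi := 29) (
    CvB.step (.one jCO28_25) rfl <|
    CvB.step (.one jCO28_21) rfl <|
    CvB.step (.one jCO28_17) rfl <|
    CvB.step (.one jCO28_15) rfl <|
    CvB.zero) (by decide +kernel)

theorem bCO29 : JobB cCO dat.Ah dat.Ah (fun b => b) 29 :=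
  CvB.job (b0 := 15) (y := 1) (n := 30) (lo := 15) (hi := 29) (
    CvB.step (.one jCO29_25) rfl <|
    CvB.step (.one jCO29_21) rfl <|
    CvB.step (.one jCO29_17) rfl <|
    CvB.step (.one jCO29_15) rfl <|
    CvB.zero) (by decide +kernel)

theorem bCO30 : JobB cCO dat.Ah dat.Ah (fun b => b) 30 :=
  CvB.job (b0 := 16) (y := 0) (n := 25) (lo := 16) (hi := 29) (
    CvB.step (.one jCO30_25) rfl <|
    CvB.step (.one jCO30_21) rfl <|
    CvB.step (.one jCO30_17) rfl <|
    CvB.step (.one jCO30_16) rfl <|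
    CvB.zero) (by decide +kernel)

theorem bCO31 : JobB cCO dat.Ah dat.Ah (fun b => b) 31 :=
  CvB.job (b0 := 16) (y := 1) (n := 28) (lo := 16) (hi := 29) (
    CvB.step (.one jCO31_25) rfl <|
    CvB.step (.one jCO31_21) rfl <|
    CvB.step (.one jCO31_17) rfl <|
    CvB.step (.one jCO31_16) rfl <|
    CvB.zero) (by decide +kernel)

theorem bCO32 : JobB cCO dat.Ah dat.Ah (fun b => b) 32 :=
  CvB.job (b0 := 17) (y := 0) (n := 23) (lo := 17) (hi := 29) (
    CvB.step (.one jCO32_25) rfl <|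
    CvB.step (.one jCO32_21) rfl <|
    CvB.step (.one jCO32_17) rfl <|
    CvB.zero) (by decide +kernel)

theorem bCO33 : JobB cCO dat.Ah dat.Ah (fun b => b) 33 :=
  CvB.job (b0 := 17) (y := 1) (n := 26) (lo := 17) (hi := 29) (
    CvB.step (.one jCO33_25) rfl <|
    CvB.step (.one jCO33_21) rfl <|
    CvB.step (.one jCO33_17) rfl <|
    CvB.zero) (by decide +kernel)

theorem bCO34 : JobB cCO dat.Ah dat.Ah (fun b => b) 34 :=
  CvB.job (b0 := 18) (y := 0) (n := 21) (lo := 18) (hi := 29) (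
    CvB.step (.one jCO34_25) rfl <|
    CvB.step (.one jCO34_21) rfl <|
    CvB.step (.one jCO34_18) rfl <|
    CvB.zero) (by decide +kernel)

theorem bCO35 : JobB cCO dat.Ah dat.Ah (fun b => b) 35 :=
  CvB.job (b0 := 18) (y := 1) (n := 24) (lo := 18) (hi := 29) (
    CvB.step (.one jCO35_25) rfl <|
    CvB.step (.one jCO35_21) rfl <|
    CvB.step (.one jCO35_18) rfl <|
    CvB.zero) (by decide +kernel)

theorem bCO36 : JobB cCO dat.Ah dat.Ah (fun b => b) 36 :=
  CvB.job (b0 := 19) (y := 0) (n := 19) (lo := 19) (hi := 29) (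
    CvB.step (.one jCO36_25) rfl <|
    CvB.step (.one jCO36_21) rfl <|
    CvB.step (.one jCO36_19) rfl <|
    CvB.zero) (by decide +kernel)

theorem bCO37 : JobB cCO dat.Ah dat.Ah (fun b => b) 37 :=
  CvB.job (b0 := 19) (y := 1) (n := 22) (lo := 19) (hi := 29) (
    CvB.step (.one jCO37_25) rfl <|
    CvB.step (.one jCO37_21) rfl <|
    CvB.step (.one jCO37_19) rfl <|
    CvB.zero) (by decide +kernel)

theorem bCO38 : JobB cCO dat.Ah dat.Ah (fun b => b) 38 :=
  CvB.job (b0 := 20) (y := 0) (n := 17) (lo := 20) (hi := 29) (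
    CvB.step (.one jCO38_25) rfl <|
    CvB.step (.one jCO38_21) rfl <|
    CvB.step (.one jCO38_20) rfl <|
    CvB.zero) (by decide +kernel)

theorem bCO39 : JobB cCO dat.Ah dat.Ah (fun b => b) 39 :=
  CvB.job (b0 := 20) (y := 1) (n := 20) (lo := 20) (hi := 29) (
    CvB.step (.one jCO39_25) rfl <|
    CvB.step (.one jCO39_21) rfl <|
    CvB.step (.one jCO39_20) rfl <|
    CvB.zero) (by decide +kernel)

theorem bCO40 : JobB cCO dat.Ah dat.Ah (fun b => b) 40 :=
  CvB.job (b0 := 21) (y := 0) (n := 15) (lo := 21) (hi := 29) (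
    CvB.step (.one jCO40_25) rfl <|
    CvB.step (.one jCO40_21) rfl <|
    CvB.zero) (by decide +kernel)

theorem bCO41 : JobB cCO dat.Ah dat.Ah (fun b => b) 41 :=
  CvB.job (b0 := 21) (y := 1) (n := 18) (lo := 21) (hi := 29) (
    CvB.step (.one jCO41_25) rfl <|
    CvB.step (.one jCO41_21) rfl <|
    CvB.zero) (by decide +kernel)

theorem bCO42 : JobB cCO dat.Ah dat.Ah (fun b => b) 42 :=
  CvB.job (b0 := 22) (y := 0) (n := 13) (lo := 22) (hi := 29) (
    CvB.step (.one jCO42_25) rfl <|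
    CvB.step (.one jCO42_22) rfl <|
    CvB.zero) (by decide +kernel)

theorem bCO43 : JobB cCO dat.Ah dat.Ah (fun b => b) 43 :=
  CvB.job (b0 := 22) (y := 1) (n := 16) (lo := 22) (hi := 29) (
    CvB.step (.one jCO43_25) rfl <|
    CvB.step (.one jCO43_22) rfl <|
    CvB.zero) (by decide +kernel)

theorem bCO44 : JobB cCO dat.Ah dat.Ah (fun b => b) 44 :=
  CvB.job (b0 := 23) (y := 0) (n := 11) (lo := 23) (hi := 29) (
    CvB.step (.one jCO44_25) rfl <|
    CvB.step (.one jCO44_23) rfl <|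
    CvB.zero) (by decide +kernel)

theorem bCO45 : JobB cCO dat.Ah dat.Ah (fun b => b) 45 :=
  CvB.job (b0 := 23) (y := 1) (n := 14) (lo := 23) (hi := 29) (
    CvB.step (.one jCO45_25) rfl <|
    CvB.step (.one jCO45_23) rfl <|
    CvB.zero) (by decide +kernel)

theorem bCO46 : JobB cCO dat.Ah dat.Ah (fun b => b) 46 :=
  CvB.job (b0 := 24) (y := 0) (n := 9) (lo := 24) (hi := 29) (
    CvB.step (.one jCO46_25) rfl <|
    CvB.step (.one jCO46_24) rfl <|
    CvB.zero) (by decide +kernel)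

theorem bCO47 : JobB cCO dat.Ah dat.Ah (fun b => b) 47 :=
  CvB.job (b0 := 24) (y := 1) (n := 12) (lo := 24) (hi := 29) (
    CvB.step (.one jCO47_25) rfl <|
    CvB.step (.one jCO47_24) rfl <|
    CvB.zero) (by decide +kernel)

theorem bCO48 : JobB cCO dat.Ah dat.Ah (fun b => b) 48 :=
  CvB.job (b0 := 25) (y := 0) (n := 7) (lo := 25) (hi := 29) (
    CvB.step (.one jCO48_25) rfl <|
    CvB.zero) (by decide +kernel)

theorem bCO49 : JobB cCO dat.Ah dat.Ah (fun b => b) 49 :=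
  CvB.job (b0 := 25) (y := 1) (n := 10) (lo := 25) (hi := 29) (
    CvB.step (.one jCO49_25) rfl <|
    CvB.zero) (by decide +kernel)

theorem bCO50 : JobB cCO dat.Ah dat.Ah (fun b => b) 50 :=
  CvB.job (b0 := 26) (y := 0) (n := 5) (lo := 26) (hi := 29) (
    CvB.step (.one jCO50_26) rfl <|
    CvB.zero) (by decide +kernel)

theorem bCO51 : JobB cCO dat.Ah dat.Ah (fun b => b) 51 :=
  CvB.job (b0 := 26) (y := 1) (n := 8) (lo := 26) (hi := 29) (
    CvB.step (.one jCO51_26) rfl <|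
    CvB.zero) (by decide +kernel)

theorem bCO52 : JobB cCO dat.Ah dat.Ah (fun b => b) 52 :=
  CvB.job (b0 := 27) (y := 0) (n := 3) (lo := 27) (hi := 29) (
    CvB.step (.one jCO52_27) rfl <|
    CvB.zero) (by decide +kernel)

theorem bCO53 : JobB cCO dat.Ah dat.Ah (fun b => b) 53 :=
  CvB.job (b0 := 27) (y := 1) (n := 6) (lo := 27) (hi := 29) (
    CvB.step (.one jCO53_27) rfl <|
    CvB.zero) (by decide +kernel)

theorem bCO54 : JobB cCO dat.Ah dat.Ah (fun b => b) 54 :=
  CvB.job (b0 := 28) (y := 0) (n := 1) (lo := 28) (hi := 29) (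
    CvB.step (.one jCO54_28) rfl <|
    CvB.zero) (by decide +kernel)

theorem bCO55 : JobB cCO dat.Ah dat.Ah (fun b => b) 55 :=
  CvB.job (b0 := 28) (y := 1) (n := 4) (lo := 28) (hi := 29) (
    CvB.step (.one jCO55_28) rfl <|
    CvB.zero) (by decide +kernel)

theorem jobCO : Job cCO dat.Ah dat.Ah fun b => b :=
  AllP.job (n := 56) (
    .step bCO55 <|
    .step bCO54 <|
    .step bCO53 <|
    .step bCO52 <|
    .step bCO51 <|
    .step bCO50 <|
    .step bCO49 <|
    .step bCO48 <|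
    .step bCO47 <|
    .step bCO46 <|
    .step bCO45 <|
    .step bCO44 <|
    .step bCO43 <|
    .step bCO42 <|
    .step bCO41 <|
    .step bCO40 <|
    .step bCO39 <|
    .step bCO38 <|
    .step bCO37 <|
    .step bCO36 <|
    .step bCO35 <|
    .step bCO34 <|
    .step bCO33 <|
    .step bCO32 <|
    .step bCO31 <|
    .step bCO30 <|
    .step bCO29 <|
    .step bCO28 <|
    .step bCO27 <|
    .step bCO26 <|
    .step bCO25 <|
    .step bCO24 <|
    .step bCO23 <|
    .step bCO22 <|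
    .step bCO21 <|
    .step bCO20 <|
    .step bCO19 <|
    .step bCO18 <|
    .step bCO17 <|
    .step bCO16 <|
    .step bCO15 <|
    .step bCO14 <|
    .step bCO13 <|
    .step bCO12 <|
    .step bCO11 <|
    .step bCO10 <|
    .step bCO9 <|
    .step bCO8 <|
    .step bCO7 <|
    .step bCO6 <|
    .step bCO5 <|
    .step bCO4 <|
    .step bCO3 <|
    .step bCO2 <|
    .step bCO1 <|
    .step bCO0 <|
    .zero _) (by decide +kernel)

end Pool.Agent.Work.MP_6bf1e5_an.HD
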