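import Pool.Agent.Work.MP_6bf1e5_an.HD.CkS0
import Pool.Agent.Work.MP_6bf1e5_an.HD.CkS1
import Pool.Agent.Work.MP_6bf1e5_an.HD.CkS2
import Pool.Agent.Work.MP_6bf1e5_an.HD.CkS3
import Pool.Agent.Work.MP_6bf1e5_an.HD.CkS4
import Pool.Agent.Work.MP_6bf1e5_an.HD.CkS5
import Pool.Agent.Work.MP_6bf1e5_an.HD.CkS6
import Pool.Agent.Work.MP_6bf1e5_an.HD.CkS7
import Pool.Agent.Work.MP_6bf1e5_an.HD.CkS8
import Pool.Agent.Work.MP_6bf1e5_an.HD.CkS9
import Pool.Agent.Work.MP_6bf1e5_an.HD.CkS10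
import Pool.Agent.Work.MP_6bf1e5_an.HD.CkS11
import Pool.Agent.Work.MP_6bf1e5_an.HD.CkS12
import Pool.Agent.Work.MP_6bf1e5_an.HD.CkS13
import Pool.Agent.Work.MP_6bf1e5_an.HD.CkS14
import Pool.Agent.Work.MP_6bf1e5_an.HD.CkS15
import Pool.Agent.Work.MP_6bf1e5_an.HD.CkS16
import Pool.Agent.Work.MP_6bf1e5_an.HD.CkS17
import Pool.Agent.Work.MP_6bf1e5_an.HD.CkS18
import Pool.Agent.Work.MP_6bf1e5_an.HD.CkS19
import Pool.Agent.Work.MP_6bf1e5_an.HD.CkS20
import Pool.Agent.Work.MP_6bf1e5_an.HD.CkS21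
import Pool.Agent.Work.MP_6bf1e5_an.HD.CkS22
import Pool.Agent.Work.MP_6bf1e5_an.HD.CkS23
import Pool.Agent.Work.MP_6bf1e5_an.HD.CkS24
import Pool.Agent.Work.MP_6bf1e5_an.HD.CkS25
import Pool.Agent.Work.MP_6bf1e5_an.HD.CkS26
import Pool.Agent.Work.MP_6bf1e5_an.HD.CkS27
import Pool.Agent.Work.MP_6bf1e5_an.HD.CkS28
import Pool.Agent.Work.MP_6bf1e5_an.HD.CkS29
import Pool.Agent.Work.MP_6bf1e5_an.HD.CkS30
import Pool.Agent.Work.MP_6bf1e5_an.HD.CkS31
import Pool.Agent.Work.MP_6bf1e5_an.HD.CkS32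
import Pool.Agent.Work.MP_6bf1e5_an.HD.CkS33
import Pool.Agent.Work.MP_6bf1e5_an.HD.CkS34
import Pool.Agent.Work.MP_6bf1e5_an.HD.CkS35
import Pool.Agent.Work.MP_6bf1e5_an.HD.CkS36
import Pool.Agent.Work.MP_6bf1e5_an.HD.CkS37
import Pool.Agent.Work.MP_6bf1e5_an.HD.CkS38
import Pool.Agent.Work.MP_6bf1e5_an.HD.CkS39
import Pool.Agent.Work.MP_6bf1e5_an.HD.CkS40
import Pool.Agent.Work.MP_6bf1e5_an.HD.CkS41
import Pool.Agent.Work.MP_6bf1e5_an.HD.CkS42
import Pool.Agent.Work.MP_6bf1e5_an.HD.CkS43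
import Pool.Agent.Work.MP_6bf1e5_an.HD.CkS44
import Pool.Agent.Work.MP_6bf1e5_an.HD.CkS45
import Pool.Agent.Work.MP_6bf1e5_an.HD.CkS46

namespace Pool.Agent.Work.MP_6bf1e5_an.HD

open Pool.Agent.Lib.KBlk H.Pz

theorem colZT : Col fZT dat.At :=
  show CovP (fun b q => fZT b q = true) 0 39 from
    .step jZT36.down rfl <|
    .step jZT30.down rfl <|
    .step jZT24.down rfl <|
    .step jZT18.down rfl <|
    .step jZT12.down rfl <|
    .step jZT6.down rfl <|
    .step jZT0.down rfl <|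
    .zero _ _

theorem colZU : Col fZU dat.Ah :=
  show CovP (fun b q => fZU b q = true) 1 29 from
    .step jZU25.down rfl <|
    .step jZU21.down rfl <|
    .step jZU17.down rfl <|
    .step jZU13.down rfl <|
    .step jZU9.down rfl <|
    .step jZU5.down rfl <|
    .step jZU1.down rfl <|
    .zero _ _

theorem colZK : Col fZK dat.Am :=
  show CovP (fun b q => fZK b q = true) 1 33 from
    .step jZK29.down rfl <|
    .step jZK25.down rfl <|
    .step jZK21.down rfl <|
    .step jZK17.down rfl <|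
    .step jZK13.down rfl <|
    .step jZK9.down rfl <|
    .step jZK5.down rfl <|
    .step jZK1.down rfl <|
    .zero _ _

theorem colZL : Col fZL dat.Am :=
  show CovP (fun b q => fZL b q = true) 1 33 from
    .step jZL29.down rfl <|
    .step jZL25.down rfl <|
    .step jZL21.down rfl <|
    .step jZL17.down rfl <|
    .step jZL13.down rfl <|
    .step jZL9.down rfl <|
    .step jZL5.down rfl <|
    .step jZL1.down rfl <|
    .zero _ _

theorem colS2 : Col fS2 dat.Am :=
  show CovP (fun b q => fS2 b q = true) 1 33 from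
    .step jS229.down rfl <|
    .step jS225.down rfl <|
    .step jS221.down rfl <|
    .step jS217.down rfl <|
    .step jS213.down rfl <|
    .step jS29.down rfl <|
    .step jS25.down rfl <|
    .step jS21.down rfl <|
    .zero _ _

theorem bS10 : JobB fS1 dat.Ah dat.Am (fun _ => dat.Am.b0) 0 :=
  CvB.job (b0 := 1) (y := 0) (n := 55) (lo := 1) (hi := 33) (
    CvB.step (.one jS10_29) rfl <|
    CvB.step (.one jS10_25) rfl <|
    CvB.step (.one jS10_21) rfl <|
    CvB.step (.one jS10_17) rfl <|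
    CvB.step (.one jS10_13) rfl <|
    CvB.step (.one jS10_9) rfl <|
    CvB.step (.one jS10_5) rfl <|
    CvB.step (.one jS10_1) rfl <|
    CvB.zero) (by decide +kernel)

theorem bS11 : JobB fS1 dat.Ah dat.Am (fun _ => dat.Am.b0) 1 :=
  CvB.job (b0 := 1) (y := 1) (n := 58) (lo := 1) (hi := 33) (
    CvB.step (.one jS11_29) rfl <|
    CvB.step (.one jS11_25) rfl <|
    CvB.step (.one jS11_21) rfl <|
    CvB.step (.one jS11_17) rfl <|
    CvB.step (.one jS11_13) rfl <|
    CvB.step (.one jS11_9) rfl <|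
    CvB.step (.one jS11_5) rfl <|
    CvB.step (.one jS11_1) rfl <|
    CvB.zero) (by decide +kernel)

theorem bS12 : JobB fS1 dat.Ah dat.Am (fun _ => dat.Am.b0) 2 :=
  CvB.job (b0 := 2) (y := 0) (n := 53) (lo := 1) (hi := 33) (
    CvB.step (.one jS12_29) rfl <|
    CvB.step (.one jS12_25) rfl <|
    CvB.step (.one jS12_21) rfl <|
    CvB.step (.one jS12_17) rfl <|
    CvB.step (.one jS12_13) rfl <|
    CvB.step (.one jS12_9) rfl <|
    CvB.step (.one jS12_5) rfl <|
    CvB.step (.one jS12_1) rfl <|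
    CvB.zero) (by decide +kernel)

theorem bS13 : JobB fS1 dat.Ah dat.Am (fun _ => dat.Am.b0) 3 :=
  CvB.job (b0 := 2) (y := 1) (n := 56) (lo := 1) (hi := 33) (
    CvB.step (.one jS13_29) rfl <|
    CvB.step (.one jS13_25) rfl <|
    CvB.step (.one jS13_21) rfl <|
    CvB.step (.one jS13_17) rfl <|
    CvB.step (.one jS13_13) rfl <|
    CvB.step (.one jS13_9) rfl <|
    CvB.step (.one jS13_5) rfl <|
    CvB.step (.one jS13_1) rfl <|
    CvB.zero) (by decide +kernel)

theorem bS14 : JobB fS1 dat.Ah dat.Am (fun _ => dat.Am.b0) 4 :=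
  CvB.job (b0 := 3) (y := 0) (n := 51) (lo := 1) (hi := 33) (
    CvB.step (.one jS14_29) rfl <|
    CvB.step (.one jS14_25) rfl <|
    CvB.step (.one jS14_21) rfl <|
    CvB.step (.one jS14_17) rfl <|
    CvB.step (.one jS14_13) rfl <|
    CvB.step (.one jS14_9) rfl <|
    CvB.step (.one jS14_5) rfl <|
    CvB.step (.one jS14_1) rfl <|
    CvB.zero) (by decide +kernel)

theorem bS15 : JobB fS1 dat.Ah dat.Am (fun _ => dat.Am.b0) 5 :=
  CvB.job (b0 := 3) (y := 1) (n := 54) (lo := 1) (hi := 33) (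
    CvB.step (.one jS15_29) rfl <|
    CvB.step (.one jS15_25) rfl <|
    CvB.step (.one jS15_21) rfl <|
    CvB.step (.one jS15_17) rfl <|
    CvB.step (.one jS15_13) rfl <|
    CvB.step (.one jS15_9) rfl <|
    CvB.step (.one jS15_5) rfl <|
    CvB.step (.one jS15_1) rfl <|
    CvB.zero) (by decide +kernel)

theorem bS16 : JobB fS1 dat.Ah dat.Am (fun _ => dat.Am.b0) 6 :=
  CvB.job (b0 := 4) (y := 0) (n := 49) (lo := 1) (hi := 33) (
    CvB.step (.one jS16_29) rfl <|
    CvB.step (.one jS16_25) rfl <|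
    CvB.step (.one jS16_21) rfl <|
    CvB.step (.one jS16_17) rfl <|
    CvB.step (.one jS16_13) rfl <|
    CvB.step (.one jS16_9) rfl <|
    CvB.step (.one jS16_5) rfl <|
    CvB.step (.one jS16_1) rfl <|
    CvB.zero) (by decide +kernel)

theorem bS17 : JobB fS1 dat.Ah dat.Am (fun _ => dat.Am.b0) 7 :=
  CvB.job (b0 := 4) (y := 1) (n := 52) (lo := 1) (hi := 33) (
    CvB.step (.one jS17_29) rfl <|
    CvB.step (.one jS17_25) rfl <|
    CvB.step (.one jS17_21) rfl <|
    CvB.step (.one jS17_17) rfl <|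
    CvB.step (.one jS17_13) rfl <|
    CvB.step (.one jS17_9) rfl <|
    CvB.step (.one jS17_5) rfl <|
    CvB.step (.one jS17_1) rfl <|
    CvB.zero) (by decide +kernel)

theorem bS18 : JobB fS1 dat.Ah dat.Am (fun _ => dat.Am.b0) 8 :=
  CvB.job (b0 := 5) (y := 0) (n := 47) (lo := 1) (hi := 33) (
    CvB.step (.one jS18_29) rfl <|
    CvB.step (.one jS18_25) rfl <|
    CvB.step (.one jS18_21) rfl <|
    CvB.step (.one jS18_17) rfl <|
    CvB.step (.one jS18_13) rfl <|
    CvB.step (.one jS18_9) rfl <|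
    CvB.step (.one jS18_5) rfl <|
    CvB.step (.one jS18_1) rfl <|
    CvB.zero) (by decide +kernel)

theorem bS19 : JobB fS1 dat.Ah dat.Am (fun _ => dat.Am.b0) 9 :=
  CvB.job (b0 := 5) (y := 1) (n := 50) (lo := 1) (hi := 33) (
    CvB.step (.one jS19_29) rfl <|
    CvB.step (.one jS19_25) rfl <|
    CvB.step (.one jS19_21) rfl <|
    CvB.step (.one jS19_17) rfl <|
    CvB.step (.one jS19_13) rfl <|
    CvB.step (.one jS19_9) rfl <|
    CvB.step (.one jS19_5) rfl <|
    CvB.step (.one jS19_1) rfl <|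
    CvB.zero) (by decide +kernel)

theorem bS110 : JobB fS1 dat.Ah dat.Am (fun _ => dat.Am.b0) 10 :=
  CvB.job (b0 := 6) (y := 0) (n := 45) (lo := 1) (hi := 33) (
    CvB.step (.one jS110_29) rfl <|
    CvB.step (.one jS110_25) rfl <|
    CvB.step (.one jS110_21) rfl <|
    CvB.step (.one jS110_17) rfl <|
    CvB.step (.one jS110_13) rfl <|
    CvB.step (.one jS110_9) rfl <|
    CvB.step (.one jS110_5) rfl <|
    CvB.step (.one jS110_1) rfl <|
    CvB.zero) (by decide +kernel)

theorem bS111 : JobB fS1 dat.Ah dat.Am (fun _ => dat.Am.b0) 11 :=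
  CvB.job (b0 := 6) (y := 1) (n := 48) (lo := 1) (hi := 33) (
    CvB.step (.one jS111_29) rfl <|
    CvB.step (.one jS111_25) rfl <|
    CvB.step (.one jS111_21) rfl <|
    CvB.step (.one jS111_17) rfl <|
    CvB.step (.one jS111_13) rfl <|
    CvB.step (.one jS111_9) rfl <|
    CvB.step (.one jS111_5) rfl <|
    CvB.step (.one jS111_1) rfl <|
    CvB.zero) (by decide +kernel)

theorem bS112 : JobB fS1 dat.Ah dat.Am (fun _ => dat.Am.b0) 12 :=
  CvB.job (b0 := 7) (y := 0) (n := 43) (lo := 1) (hi := 33) (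
    CvB.step (.one jS112_29) rfl <|
    CvB.step (.one jS112_25) rfl <|
    CvB.step (.one jS112_21) rfl <|
    CvB.step (.one jS112_17) rfl <|
    CvB.step (.one jS112_13) rfl <|
    CvB.step (.one jS112_9) rfl <|
    CvB.step (.one jS112_5) rfl <|
    CvB.step (.one jS112_1) rfl <|
    CvB.zero) (by decide +kernel)

theorem bS113 : JobB fS1 dat.Ah dat.Am (fun _ => dat.Am.b0) 13 :=
  CvB.job (b0 := 7) (y := 1) (n := 46) (lo := 1) (hi := 33) (
    CvB.step (.one jS113_29) rfl <|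
    CvB.step (.one jS113_25) rfl <|
    CvB.step (.one jS113_21) rfl <|
    CvB.step (.one jS113_17) rfl <|
    CvB.step (.one jS113_13) rfl <|
    CvB.step (.one jS113_9) rfl <|
    CvB.step (.one jS113_5) rfl <|
    CvB.step (.one jS113_1) rfl <|
    CvB.zero) (by decide +kernel)

theorem bS114 : JobB fS1 dat.Ah dat.Am (fun _ => dat.Am.b0) 14 :=
  CvB.job (b0 := 8) (y := 0) (n := 41) (lo := 1) (hi := 33) (
    CvB.step (.one jS114_29) rfl <|
    CvB.step (.one jS114_25) rfl <|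
    CvB.step (.one jS114_21) rfl <|
    CvB.step (.one jS114_17) rfl <|
    CvB.step (.one jS114_13) rfl <|
    CvB.step (.one jS114_9) rfl <|
    CvB.step (.one jS114_5) rfl <|
    CvB.step (.one jS114_1) rfl <|
    CvB.zero) (by decide +kernel)

theorem bS115 : JobB fS1 dat.Ah dat.Am (fun _ => dat.Am.b0) 15 :=
  CvB.job (b0 := 8) (y := 1) (n := 44) (lo := 1) (hi := 33) (
    CvB.step (.one jS115_29) rfl <|
    CvB.step (.one jS115_25) rfl <|
    CvB.step (.one jS115_21) rfl <|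
    CvB.step (.one jS115_17) rfl <|
    CvB.step (.one jS115_13) rfl <|
    CvB.step (.one jS115_9) rfl <|
    CvB.step (.one jS115_5) rfl <|
    CvB.step (.one jS115_1) rfl <|
    CvB.zero) (by decide +kernel)

theorem bS116 : JobB fS1 dat.Ah dat.Am (fun _ => dat.Am.b0) 16 :=
  CvB.job (b0 := 9) (y := 0) (n := 39) (lo := 1) (hi := 33) (
    CvB.step (.one jS116_29) rfl <|
    CvB.step (.one jS116_25) rfl <|
    CvB.step (.one jS116_21) rfl <|
    CvB.step (.one jS116_17) rfl <|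
    CvB.step (.one jS116_13) rfl <|
    CvB.step (.one jS116_9) rfl <|
    CvB.step (.one jS116_5) rfl <|
    CvB.step (.one jS116_1) rfl <|
    CvB.zero) (by decide +kernel)

theorem bS117 : JobB fS1 dat.Ah dat.Am (fun _ => dat.Am.b0) 17 :=
  CvB.job (b0 := 9) (y := 1) (n := 42) (lo := 1) (hi := 33) (
    CvB.step (.one jS117_29) rfl <|
    CvB.step (.one jS117_25) rfl <|
    CvB.step (.one jS117_21) rfl <|
    CvB.step (.one jS117_17) rfl <|
    CvB.step (.one jS117_13) rfl <|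
    CvB.step (.one jS117_9) rfl <|
    CvB.step (.one jS117_5) rfl <|
    CvB.step (.one jS117_1) rfl <|
    CvB.zero) (by decide +kernel)

theorem bS118 : JobB fS1 dat.Ah dat.Am (fun _ => dat.Am.b0) 18 :=
  CvB.job (b0 := 10) (y := 0) (n := 37) (lo := 1) (hi := 33) (
    CvB.step (.one jS118_29) rfl <|
    CvB.step (.one jS118_25) rfl <|
    CvB.step (.one jS118_21) rfl <|
    CvB.step (.one jS118_17) rfl <|
    CvB.step (.one jS118_13) rfl <|
    CvB.step (.one jS118_9) rfl <|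
    CvB.step (.one jS118_5) rfl <|
    CvB.step (.one jS118_1) rfl <|
    CvB.zero) (by decide +kernel)

theorem bS119 : JobB fS1 dat.Ah dat.Am (fun _ => dat.Am.b0) 19 :=
  CvB.job (b0 := 10) (y := 1) (n := 40) (lo := 1) (hi := 33) (
    CvB.step (.one jS119_29) rfl <|
    CvB.step (.one jS119_25) rfl <|
    CvB.step (.one jS119_21) rfl <|
    CvB.step (.one jS119_17) rfl <|
    CvB.step (.one jS119_13) rfl <|
    CvB.step (.one jS119_9) rfl <|
    CvB.step (.one jS119_5) rfl <|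
    CvB.step (.one jS119_1) rfl <|
    CvB.zero) (by decide +kernel)

theorem bS120 : JobB fS1 dat.Ah dat.Am (fun _ => dat.Am.b0) 20 :=
  CvB.job (b0 := 11) (y := 0) (n := 35) (lo := 1) (hi := 33) (
    CvB.step (.one jS120_29) rfl <|
    CvB.step (.one jS120_25) rfl <|
    CvB.step (.one jS120_21) rfl <|
    CvB.step (.one jS120_17) rfl <|
    CvB.step (.one jS120_13) rfl <|
    CvB.step (.one jS120_9) rfl <|
    CvB.step (.one jS120_5) rfl <|
    CvB.step (.one jS120_1) rfl <|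
    CvB.zero) (by decide +kernel)

theorem bS121 : JobB fS1 dat.Ah dat.Am (fun _ => dat.Am.b0) 21 :=
  CvB.job (b0 := 11) (y := 1) (n := 38) (lo := 1) (hi := 33) (
    CvB.step (.one jS121_29) rfl <|
    CvB.step (.one jS121_25) rfl <|
    CvB.step (.one jS121_21) rfl <|
    CvB.step (.one jS121_17) rfl <|
    CvB.step (.one jS121_13) rfl <|
    CvB.step (.one jS121_9) rfl <|
    CvB.step (.one jS121_5) rfl <|
    CvB.step (.one jS121_1) rfl <|
    CvB.zero) (by decide +kernel)

theorem bS122 : JobB fS1 dat.Ah dat.Am (fun _ => dat.Am.b0) 22 :=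
  CvB.job (b0 := 12) (y := 0) (n := 33) (lo := 1) (hi := 33) (
    CvB.step (.one jS122_29) rfl <|
    CvB.step (.one jS122_25) rfl <|
    CvB.step (.one jS122_21) rfl <|
    CvB.step (.one jS122_17) rfl <|
    CvB.step (.one jS122_13) rfl <|
    CvB.step (.one jS122_9) rfl <|
    CvB.step (.one jS122_5) rfl <|
    CvB.step (.one jS122_1) rfl <|
    CvB.zero) (by decide +kernel)

theorem bS123 : JobB fS1 dat.Ah dat.Am (fun _ => dat.Am.b0) 23 :=
  CvB.job (b0 := 12) (y := 1) (n := 36) (lo := 1) (hi := 33) (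
    CvB.step (.one jS123_29) rfl <|
    CvB.step (.one jS123_25) rfl <|
    CvB.step (.one jS123_21) rfl <|
    CvB.step (.one jS123_17) rfl <|
    CvB.step (.one jS123_13) rfl <|
    CvB.step (.one jS123_9) rfl <|
    CvB.step (.one jS123_5) rfl <|
    CvB.step (.one jS123_1) rfl <|
    CvB.zero) (by decide +kernel)

theorem bS124 : JobB fS1 dat.Ah dat.Am (fun _ => dat.Am.b0) 24 :=
  CvB.job (b0 := 13) (y := 0) (n := 31) (lo := 1) (hi := 33) (
    CvB.step (.one jS124_29) rfl <|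
    CvB.step (.one jS124_25) rfl <|
    CvB.step (.one jS124_21) rfl <|
    CvB.step (.one jS124_17) rfl <|
    CvB.step (.one jS124_13) rfl <|
    CvB.step (.one jS124_9) rfl <|
    CvB.step (.one jS124_5) rfl <|
    CvB.step (.one jS124_1) rfl <|
    CvB.zero) (by decide +kernel)

theorem bS125 : JobB fS1 dat.Ah dat.Am (fun _ => dat.Am.b0) 25 :=
  CvB.job (b0 := 13) (y := 1) (n := 34) (lo := 1) (hi := 33) (
    CvB.step (.one jS125_29) rfl <|
    CvB.step (.one jS125_25) rfl <|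
    CvB.step (.one jS125_21) rfl <|
    CvB.step (.one jS125_17) rfl <|
    CvB.step (.one jS125_13) rfl <|
    CvB.step (.one jS125_9) rfl <|
    CvB.step (.one jS125_5) rfl <|
    CvB.step (.one jS125_1) rfl <|
    CvB.zero) (by decide +kernel)

theorem bS126 : JobB fS1 dat.Ah dat.Am (fun _ => dat.Am.b0) 26 :=
  CvB.job (b0 := 14) (y := 0) (n := 29) (lo := 1) (hi := 33) (
    CvB.step (.one jS126_29) rfl <|
    CvB.step (.one jS126_25) rfl <|
    CvB.step (.one jS126_21) rfl <|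
    CvB.step (.one jS126_17) rfl <|
    CvB.step (.one jS126_13) rfl <|
    CvB.step (.one jS126_9) rfl <|
    CvB.step (.one jS126_5) rfl <|
    CvB.step (.one jS126_1) rfl <|
    CvB.zero) (by decide +kernel)

theorem bS127 : JobB fS1 dat.Ah dat.Am (fun _ => dat.Am.b0) 27 :=
  CvB.job (b0 := 14) (y := 1) (n := 32) (lo := 1) (hi := 33) (
    CvB.step (.one jS127_29) rfl <|
    CvB.step (.one jS127_25) rfl <|
    CvB.step (.one jS127_21) rfl <|
    CvB.step (.one jS127_17) rfl <|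
    CvB.step (.one jS127_13) rfl <|
    CvB.step (.one jS127_9) rfl <|
    CvB.step (.one jS127_5) rfl <|
    CvB.step (.one jS127_1) rfl <|
    CvB.zero) (by decide +kernel)

theorem bS128 : JobB fS1 dat.Ah dat.Am (fun _ => dat.Am.b0) 28 :=
  CvB.job (b0 := 15) (y := 0) (n := 27) (lo := 1) (hi := 33) (
    CvB.step (.one jS128_29) rfl <|
    CvB.step (.one jS128_25) rfl <|
    CvB.step (.one jS128_21) rfl <|
    CvB.step (.one jS128_17) rfl <|
    CvB.step (.one jS128_13) rfl <|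
    CvB.step (.one jS128_9) rfl <|
    CvB.step (.one jS128_5) rfl <|
    CvB.step (.one jS128_1) rfl <|
    CvB.zero) (by decide +kernel)

theorem bS129 : JobB fS1 dat.Ah dat.Am (fun _ => dat.Am.b0) 29 :=
  CvB.job (b0 := 15) (y := 1) (n := 30) (lo := 1) (hi := 33) (
    CvB.step (.one jS129_29) rfl <|
    CvB.step (.one jS129_25) rfl <|
    CvB.step (.one jS129_21) rfl <|
    CvB.step (.one jS129_17) rfl <|
    CvB.step (.one jS129_13) rfl <|
    CvB.step (.one jS129_9) rfl <|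
    CvB.step (.one jS129_5) rfl <|
    CvB.step (.one jS129_1) rfl <|
    CvB.zero) (by decide +kernel)

theorem bS130 : JobB fS1 dat.Ah dat.Am (fun _ => dat.Am.b0) 30 :=
  CvB.job (b0 := 16) (y := 0) (n := 25) (lo := 1) (hi := 33) (
    CvB.step (.one jS130_29) rfl <|
    CvB.step (.one jS130_25) rfl <|
    CvB.step (.one jS130_21) rfl <|
    CvB.step (.one jS130_17) rfl <|
    CvB.step (.one jS130_13) rfl <|
    CvB.step (.one jS130_9) rfl <|
    CvB.step (.one jS130_5) rfl <|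
    CvB.step (.one jS130_1) rfl <|
    CvB.zero) (by decide +kernel)

theorem bS131 : JobB fS1 dat.Ah dat.Am (fun _ => dat.Am.b0) 31 :=
  CvB.job (b0 := 16) (y := 1) (n := 28) (lo := 1) (hi := 33) (
    CvB.step (.one jS131_29) rfl <|
    CvB.step (.one jS131_25) rfl <|
    CvB.step (.one jS131_21) rfl <|
    CvB.step (.one jS131_17) rfl <|
    CvB.step (.one jS131_13) rfl <|
    CvB.step (.one jS131_9) rfl <|
    CvB.step (.one jS131_5) rfl <|
    CvB.step (.one jS131_1) rfl <|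
    CvB.zero) (by decide +kernel)

theorem bS132 : JobB fS1 dat.Ah dat.Am (fun _ => dat.Am.b0) 32 :=
  CvB.job (b0 := 17) (y := 0) (n := 23) (lo := 1) (hi := 33) (
    CvB.step (.one jS132_29) rfl <|
    CvB.step (.one jS132_25) rfl <|
    CvB.step (.one jS132_21) rfl <|
    CvB.step (.one jS132_17) rfl <|
    CvB.step (.one jS132_13) rfl <|
    CvB.step (.one jS132_9) rfl <|
    CvB.step (.one jS132_5) rfl <|
    CvB.step (.one jS132_1) rfl <|
    CvB.zero) (by decide +kernel)

theorem bS133 : JobB fS1 dat.Ah dat.Am (fun _ => dat.Am.b0) 33 :=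
  CvB.job (b0 := 17) (y := 1) (n := 26) (lo := 1) (hi := 33) (
    CvB.step (.one jS133_29) rfl <|
    CvB.step (.one jS133_25) rfl <|
    CvB.step (.one jS133_21) rfl <|
    CvB.step (.one jS133_17) rfl <|
    CvB.step (.one jS133_13) rfl <|
    CvB.step (.one jS133_9) rfl <|
    CvB.step (.one jS133_5) rfl <|
    CvB.step (.one jS133_1) rfl <|
    CvB.zero) (by decide +kernel)

theorem bS134 : JobB fS1 dat.Ah dat.Am (fun _ => dat.Am.b0) 34 :=
  CvB.job (b0 := 18) (y := 0) (n := 21) (lo := 1) (hi := 33) (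
    CvB.step (.one jS134_29) rfl <|
    CvB.step (.one jS134_25) rfl <|
    CvB.step (.one jS134_21) rfl <|
    CvB.step (.one jS134_17) rfl <|
    CvB.step (.one jS134_13) rfl <|
    CvB.step (.one jS134_9) rfl <|
    CvB.step (.one jS134_5) rfl <|
    CvB.step (.one jS134_1) rfl <|
    CvB.zero) (by decide +kernel)

theorem bS135 : JobB fS1 dat.Ah dat.Am (fun _ => dat.Am.b0) 35 :=
  CvB.job (b0 := 18) (y := 1) (n := 24) (lo := 1) (hi := 33) (
    CvB.step (.one jS135_29) rfl <|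
    CvB.step (.one jS135_25) rfl <|
    CvB.step (.one jS135_21) rfl <|
    CvB.step (.one jS135_17) rfl <|
    CvB.step (.one jS135_13) rfl <|
    CvB.step (.one jS135_9) rfl <|
    CvB.step (.one jS135_5) rfl <|
    CvB.step (.one jS135_1) rfl <|
    CvB.zero) (by decide +kernel)

theorem bS136 : JobB fS1 dat.Ah dat.Am (fun _ => dat.Am.b0) 36 :=
  CvB.job (b0 := 19) (y := 0) (n := 19) (lo := 1) (hi := 33) (
    CvB.step (.one jS136_29) rfl <|
    CvB.step (.one jS136_25) rfl <|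
    CvB.step (.one jS136_21) rfl <|
    CvB.step (.one jS136_17) rfl <|
    CvB.step (.one jS136_13) rfl <|
    CvB.step (.one jS136_9) rfl <|
    CvB.step (.one jS136_5) rfl <|
    CvB.step (.one jS136_1) rfl <|
    CvB.zero) (by decide +kernel)

theorem bS137 : JobB fS1 dat.Ah dat.Am (fun _ => dat.Am.b0) 37 :=
  CvB.job (b0 := 19) (y := 1) (n := 22) (lo := 1) (hi := 33) (
    CvB.step (.one jS137_29) rfl <|
    CvB.step (.one jS137_25) rfl <|
    CvB.step (.one jS137_21) rfl <|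
    CvB.step (.one jS137_17) rfl <|
    CvB.step (.one jS137_13) rfl <|
    CvB.step (.one jS137_9) rfl <|
    CvB.step (.one jS137_5) rfl <|
    CvB.step (.one jS137_1) rfl <|
    CvB.zero) (by decide +kernel)

theorem bS138 : JobB fS1 dat.Ah dat.Am (fun _ => dat.Am.b0) 38 :=
  CvB.job (b0 := 20) (y := 0) (n := 17) (lo := 1) (hi := 33) (
    CvB.step (.one jS138_29) rfl <|
    CvB.step (.one jS138_25) rfl <|
    CvB.step (.one jS138_21) rfl <|
    CvB.step (.one jS138_17) rfl <|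
    CvB.step (.one jS138_13) rfl <|
    CvB.step (.one jS138_9) rfl <|
    CvB.step (.one jS138_5) rfl <|
    CvB.step (.one jS138_1) rfl <|
    CvB.zero) (by decide +kernel)

theorem bS139 : JobB fS1 dat.Ah dat.Am (fun _ => dat.Am.b0) 39 :=
  CvB.job (b0 := 20) (y := 1) (n := 20) (lo := 1) (hi := 33) (
    CvB.step (.one jS139_29) rfl <|
    CvB.step (.one jS139_25) rfl <|
    CvB.step (.one jS139_21) rfl <|
    CvB.step (.one jS139_17) rfl <|
    CvB.step (.one jS139_13) rfl <|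
    CvB.step (.one jS139_9) rfl <|
    CvB.step (.one jS139_5) rfl <|
    CvB.step (.one jS139_1) rfl <|
    CvB.zero) (by decide +kernel)

theorem bS140 : JobB fS1 dat.Ah dat.Am (fun _ => dat.Am.b0) 40 :=
  CvB.job (b0 := 21) (y := 0) (n := 15) (lo := 1) (hi := 33) (
    CvB.step (.one jS140_29) rfl <|
    CvB.step (.one jS140_25) rfl <|
    CvB.step (.one jS140_21) rfl <|
    CvB.step (.one jS140_17) rfl <|
    CvB.step (.one jS140_13) rfl <|
    CvB.step (.one jS140_9) rfl <|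
    CvB.step (.one jS140_5) rfl <|
    CvB.step (.one jS140_1) rfl <|
    CvB.zero) (by decide +kernel)

theorem bS141 : JobB fS1 dat.Ah dat.Am (fun _ => dat.Am.b0) 41 :=
  CvB.job (b0 := 21) (y := 1) (n := 18) (lo := 1) (hi := 33) (
    CvB.step (.one jS141_29) rfl <|
    CvB.step (.one jS141_25) rfl <|
    CvB.step (.one jS141_21) rfl <|
    CvB.step (.one jS141_17) rfl <|
    CvB.step (.one jS141_13) rfl <|
    CvB.step (.one jS141_9) rfl <|
    CvB.step (.one jS141_5) rfl <|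
    CvB.step (.one jS141_1) rfl <|
    CvB.zero) (by decide +kernel)

theorem bS142 : JobB fS1 dat.Ah dat.Am (fun _ => dat.Am.b0) 42 :=
  CvB.job (b0 := 22) (y := 0) (n := 13) (lo := 1) (hi := 33) (
    CvB.step (.one jS142_29) rfl <|
    CvB.step (.one jS142_25) rfl <|
    CvB.step (.one jS142_21) rfl <|
    CvB.step (.one jS142_17) rfl <|
    CvB.step (.one jS142_13) rfl <|
    CvB.step (.one jS142_9) rfl <|
    CvB.step (.one jS142_5) rfl <|
    CvB.step (.one jS142_1) rfl <|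
    CvB.zero) (by decide +kernel)

theorem bS143 : JobB fS1 dat.Ah dat.Am (fun _ => dat.Am.b0) 43 :=
  CvB.job (b0 := 22) (y := 1) (n := 16) (lo := 1) (hi := 33) (
    CvB.step (.one jS143_29) rfl <|
    CvB.step (.one jS143_25) rfl <|
    CvB.step (.one jS143_21) rfl <|
    CvB.step (.one jS143_17) rfl <|
    CvB.step (.one jS143_13) rfl <|
    CvB.step (.one jS143_9) rfl <|
    CvB.step (.one jS143_5) rfl <|
    CvB.step (.one jS143_1) rfl <|
    CvB.zero) (by decide +kernel)

theorem bS144 : JobB fS1 dat.Ah dat.Am (fun _ => dat.Am.b0) 44 :=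
  CvB.job (b0 := 23) (y := 0) (n := 11) (lo := 1) (hi := 33) (
    CvB.step (.one jS144_29) rfl <|
    CvB.step (.one jS144_25) rfl <|
    CvB.step (.one jS144_21) rfl <|
    CvB.step (.one jS144_17) rfl <|
    CvB.step (.one jS144_13) rfl <|
    CvB.step (.one jS144_9) rfl <|
    CvB.step (.one jS144_5) rfl <|
    CvB.step (.one jS144_1) rfl <|
    CvB.zero) (by decide +kernel)

theorem bS145 : JobB fS1 dat.Ah dat.Am (fun _ => dat.Am.b0) 45 :=
  CvB.job (b0 := 23) (y := 1) (n := 14) (lo := 1) (hi := 33) (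
    CvB.step (.one jS145_29) rfl <|
    CvB.step (.one jS145_25) rfl <|
    CvB.step (.one jS145_21) rfl <|
    CvB.step (.one jS145_17) rfl <|
    CvB.step (.one jS145_13) rfl <|
    CvB.step (.one jS145_9) rfl <|
    CvB.step (.one jS145_5) rfl <|
    CvB.step (.one jS145_1) rfl <|
    CvB.zero) (by decide +kernel)

theorem bS146 : JobB fS1 dat.Ah dat.Am (fun _ => dat.Am.b0) 46 :=
  CvB.job (b0 := 24) (y := 0) (n := 9) (lo := 1) (hi := 33) (
    CvB.step (.one jS146_29) rfl <|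
    CvB.step (.one jS146_25) rfl <|
    CvB.step (.one jS146_21) rfl <|
    CvB.step (.one jS146_17) rfl <|
    CvB.step (.one jS146_13) rfl <|
    CvB.step (.one jS146_9) rfl <|
    CvB.step (.one jS146_5) rfl <|
    CvB.step (.one jS146_1) rfl <|
    CvB.zero) (by decide +kernel)

theorem bS147 : JobB fS1 dat.Ah dat.Am (fun _ => dat.Am.b0) 47 :=
  CvB.job (b0 := 24) (y := 1) (n := 12) (lo := 1) (hi := 33) (
    CvB.step (.one jS147_29) rfl <|
    CvB.step (.one jS147_25) rfl <|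
    CvB.step (.one jS147_21) rfl <|
    CvB.step (.one jS147_17) rfl <|
    CvB.step (.one jS147_13) rfl <|
    CvB.step (.one jS147_9) rfl <|
    CvB.step (.one jS147_5) rfl <|
    CvB.step (.one jS147_1) rfl <|
    CvB.zero) (by decide +kernel)

theorem bS148 : JobB fS1 dat.Ah dat.Am (fun _ => dat.Am.b0) 48 :=
  CvB.job (b0 := 25) (y := 0) (n := 7) (lo := 1) (hi := 33) (
    CvB.step (.one jS148_29) rfl <|
    CvB.step (.one jS148_25) rfl <|
    CvB.step (.one jS148_21) rfl <|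
    CvB.step (.one jS148_17) rfl <|
    CvB.step (.one jS148_13) rfl <|
    CvB.step (.one jS148_9) rfl <|
    CvB.step (.one jS148_5) rfl <|
    CvB.step (.one jS148_1) rfl <|
    CvB.zero) (by decide +kernel)

theorem bS149 : JobB fS1 dat.Ah dat.Am (fun _ => dat.Am.b0) 49 :=
  CvB.job (b0 := 25) (y := 1) (n := 10) (lo := 1) (hi := 33) (
    CvB.step (.one jS149_29) rfl <|
    CvB.step (.one jS149_25) rfl <|
    CvB.step (.one jS149_21) rfl <|
    CvB.step (.one jS149_17) rfl <|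
    CvB.step (.one jS149_13) rfl <|
    CvB.step (.one jS149_9) rfl <|
    CvB.step (.one jS149_5) rfl <|
    CvB.step (.one jS149_1) rfl <|
    CvB.zero) (by decide +kernel)

theorem bS150 : JobB fS1 dat.Ah dat.Am (fun _ => dat.Am.b0) 50 :=
  CvB.job (b0 := 26) (y := 0) (n := 5) (lo := 1) (hi := 33) (
    CvB.step (.one jS150_29) rfl <|
    CvB.step (.one jS150_25) rfl <|
    CvB.step (.one jS150_21) rfl <|
    CvB.step (.one jS150_17) rfl <|
    CvB.step (.one jS150_13) rfl <|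
    CvB.step (.one jS150_9) rfl <|
    CvB.step (.one jS150_5) rfl <|
    CvB.step (.one jS150_1) rfl <|
    CvB.zero) (by decide +kernel)

theorem bS151 : JobB fS1 dat.Ah dat.Am (fun _ => dat.Am.b0) 51 :=
  CvB.job (b0 := 26) (y := 1) (n := 8) (lo := 1) (hi := 33) (
    CvB.step (.one jS151_29) rfl <|
    CvB.step (.one jS151_25) rfl <|
    CvB.step (.one jS151_21) rfl <|
    CvB.step (.one jS151_17) rfl <|
    CvB.step (.one jS151_13) rfl <|
    CvB.step (.one jS151_9) rfl <|
    CvB.step (.one jS151_5) rfl <|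
    CvB.step (.one jS151_1) rfl <|
    CvB.zero) (by decide +kernel)

theorem bS152 : JobB fS1 dat.Ah dat.Am (fun _ => dat.Am.b0) 52 :=
  CvB.job (b0 := 27) (y := 0) (n := 3) (lo := 1) (hi := 33) (
    CvB.step (.one jS152_29) rfl <|
    CvB.step (.one jS152_25) rfl <|
    CvB.step (.one jS152_21) rfl <|
    CvB.step (.one jS152_17) rfl <|
    CvB.step (.one jS152_13) rfl <|
    CvB.step (.one jS152_9) rfl <|
    CvB.step (.one jS152_5) rfl <|
    CvB.step (.one jS152_1) rfl <|
    CvB.zero) (by decide +kernel)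

theorem bS153 : JobB fS1 dat.Ah dat.Am (fun _ => dat.Am.b0) 53 :=
  CvB.job (b0 := 27) (y := 1) (n := 6) (lo := 1) (hi := 33) (
    CvB.step (.one jS153_29) rfl <|
    CvB.step (.one jS153_25) rfl <|
    CvB.step (.one jS153_21) rfl <|
    CvB.step (.one jS153_17) rfl <|
    CvB.step (.one jS153_13) rfl <|
    CvB.step (.one jS153_9) rfl <|
    CvB.step (.one jS153_5) rfl <|
    CvB.step (.one jS153_1) rfl <|
    CvB.zero) (by decide +kernel)

theorem bS154 : JobB fS1 dat.Ah dat.Am (fun _ => dat.Am.b0) 54 :=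
  CvB.job (b0 := 28) (y := 0) (n := 1) (lo := 1) (hi := 33) (
    CvB.step (.one jS154_29) rfl <|
    CvB.step (.one jS154_25) rfl <|
    CvB.step (.one jS154_21) rfl <|
    CvB.step (.one jS154_17) rfl <|
    CvB.step (.one jS154_13) rfl <|
    CvB.step (.one jS154_9) rfl <|
    CvB.step (.one jS154_5) rfl <|
    CvB.step (.one jS154_1) rfl <|
    CvB.zero) (by decide +kernel)

theorem bS155 : JobB fS1 dat.Ah dat.Am (fun _ => dat.Am.b0) 55 :=
  CvB.job (b0 := 28) (y := 1) (n := 4) (lo := 1) (hi := 33) (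
    CvB.step (.one jS155_29) rfl <|
    CvB.step (.one jS155_25) rfl <|
    CvB.step (.one jS155_21) rfl <|
    CvB.step (.one jS155_17) rfl <|
    CvB.step (.one jS155_13) rfl <|
    CvB.step (.one jS155_9) rfl <|
    CvB.step (.one jS155_5) rfl <|
    CvB.step (.one jS155_1) rfl <|
    CvB.zero) (by decide +kernel)

theorem jobS1 : Job fS1 dat.Ah dat.Am fun _ => dat.Am.b0 :=
  AllP.job (n := 56) (
    .step bS155 <|
    .step bS154 <|
    .step bS153 <|
    .step bS152 <|
    .step bS151 <|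
    .step bS150 <|
    .step bS149 <|
    .step bS148 <|
    .step bS147 <|
    .step bS146 <|
    .step bS145 <|
    .step bS144 <|
    .step bS143 <|
    .step bS142 <|
    .step bS141 <|
    .step bS140 <|
    .step bS139 <|
    .step bS138 <|
    .step bS137 <|
    .step bS136 <|
    .step bS135 <|
    .step bS134 <|
    .step bS133 <|
    .step bS132 <|
    .step bS131 <|
    .step bS130 <|
    .step bS129 <|
    .step bS128 <|
    .step bS127 <|
    .step bS126 <|
    .step bS125 <|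
    .step bS124 <|
    .step bS123 <|
    .step bS122 <|
    .step bS121 <|
    .step bS120 <|
    .step bS119 <|
    .step bS118 <|
    .step bS117 <|
    .step bS116 <|
    .step bS115 <|
    .step bS114 <|
    .step bS113 <|
    .step bS112 <|
    .step bS111 <|
    .step bS110 <|
    .step bS19 <|
    .step bS18 <|
    .step bS17 <|
    .step bS16 <|
    .step bS15 <|
    .step bS14 <|
    .step bS13 <|
    .step bS12 <|
    .step bS11 <|
    .step bS10 <|
    .zero _) (by decide +kernel)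

theorem bVY0 : JobB fVY As dat.Am (fun _ => dat.Am.b0) 0 :=
  CvB.job (b0 := 1) (y := 0) (n := 11) (lo := 1) (hi := 33) (
    CvB.step (.one jVY0_29) rfl <|
    CvB.step (.one jVY0_25) rfl <|
    CvB.step (.one jVY0_21) rfl <|
    CvB.step (.one jVY0_17) rfl <|
    CvB.step (.one jVY0_13) rfl <|
    CvB.step (.one jVY0_9) rfl <|
    CvB.step (.one jVY0_5) rfl <|
    CvB.step (.one jVY0_1) rfl <|
    CvB.zero) (by decide +kernel)

theorem bVY1 : JobB fVY As dat.Am (fun _ => dat.Am.b0) 1 :=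
  CvB.job (b0 := 1) (y := 1) (n := 13) (lo := 1) (hi := 33) (
    CvB.step (.one jVY1_29) rfl <|
    CvB.step (.one jVY1_25) rfl <|
    CvB.step (.one jVY1_21) rfl <|
    CvB.step (.one jVY1_17) rfl <|
    CvB.step (.one jVY1_13) rfl <|
    CvB.step (.one jVY1_9) rfl <|
    CvB.step (.one jVY1_5) rfl <|
    CvB.step (.one jVY1_1) rfl <|
    CvB.zero) (by decide +kernel)

theorem bVY2 : JobB fVY As dat.Am (fun _ => dat.Am.b0) 2 :=
  CvB.job (b0 := 2) (y := 0) (n := 10) (lo := 1) (hi := 33) (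
    CvB.step (.one jVY2_29) rfl <|
    CvB.step (.one jVY2_25) rfl <|
    CvB.step (.one jVY2_21) rfl <|
    CvB.step (.one jVY2_17) rfl <|
    CvB.step (.one jVY2_13) rfl <|
    CvB.step (.one jVY2_9) rfl <|
    CvB.step (.one jVY2_5) rfl <|
    CvB.step (.one jVY2_1) rfl <|
    CvB.zero) (by decide +kernel)

theorem bVY3 : JobB fVY As dat.Am (fun _ => dat.Am.b0) 3 :=
  CvB.job (b0 := 2) (y := 1) (n := 12) (lo := 1) (hi := 33) (
    CvB.step (.one jVY3_29) rfl <|
    CvB.step (.one jVY3_25) rfl <|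
    CvB.step (.one jVY3_21) rfl <|
    CvB.step (.one jVY3_17) rfl <|
    CvB.step (.one jVY3_13) rfl <|
    CvB.step (.one jVY3_9) rfl <|
    CvB.step (.one jVY3_5) rfl <|
    CvB.step (.one jVY3_1) rfl <|
    CvB.zero) (by decide +kernel)

theorem bVY4 : JobB fVY As dat.Am (fun _ => dat.Am.b0) 4 :=
  CvB.job (b0 := 3) (y := 0) (n := 9) (lo := 1) (hi := 33) (
    CvB.step (.one jVY4_29) rfl <|
    CvB.step (.one jVY4_25) rfl <|
    CvB.step (.one jVY4_21) rfl <|
    CvB.step (.one jVY4_17) rfl <|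
    CvB.step (.one jVY4_13) rfl <|
    CvB.step (.one jVY4_9) rfl <|
    CvB.step (.one jVY4_5) rfl <|
    CvB.step (.one jVY4_1) rfl <|
    CvB.zero) (by decide +kernel)

theorem bVY5 : JobB fVY As dat.Am (fun _ => dat.Am.b0) 5 :=
  CvB.job (b0 := 3) (y := 1) (n := 11) (lo := 1) (hi := 33) (
    CvB.step (.one jVY5_29) rfl <|
    CvB.step (.one jVY5_25) rfl <|
    CvB.step (.one jVY5_21) rfl <|
    CvB.step (.one jVY5_17) rfl <|
    CvB.step (.one jVY5_13) rfl <|
    CvB.step (.one jVY5_9) rfl <|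
    CvB.step (.one jVY5_5) rfl <|
    CvB.step (.one jVY5_1) rfl <|
    CvB.zero) (by decide +kernel)

theorem bVY6 : JobB fVY As dat.Am (fun _ => dat.Am.b0) 6 :=
  CvB.job (b0 := 4) (y := 0) (n := 8) (lo := 1) (hi := 33) (
    CvB.step (.one jVY6_29) rfl <|
    CvB.step (.one jVY6_25) rfl <|
    CvB.step (.one jVY6_21) rfl <|
    CvB.step (.one jVY6_17) rfl <|
    CvB.step (.one jVY6_13) rfl <|
    CvB.step (.one jVY6_9) rfl <|
    CvB.step (.one jVY6_5) rfl <|
    CvB.step (.one jVY6_1) rfl <|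
    CvB.zero) (by decide +kernel)

theorem bVY7 : JobB fVY As dat.Am (fun _ => dat.Am.b0) 7 :=
  CvB.job (b0 := 4) (y := 1) (n := 10) (lo := 1) (hi := 33) (
    CvB.step (.one jVY7_29) rfl <|
    CvB.step (.one jVY7_25) rfl <|
    CvB.step (.one jVY7_21) rfl <|
    CvB.step (.one jVY7_17) rfl <|
    CvB.step (.one jVY7_13) rfl <|
    CvB.step (.one jVY7_9) rfl <|
    CvB.step (.one jVY7_5) rfl <|
    CvB.step (.one jVY7_1) rfl <|
    CvB.zero) (by decide +kernel)

theorem bVY8 : JobB fVY As dat.Am (fun _ => dat.Am.b0) 8 :=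
  CvB.job (b0 := 5) (y := 0) (n := 8) (lo := 1) (hi := 33) (
    CvB.step (.one jVY8_29) rfl <|
    CvB.step (.one jVY8_25) rfl <|
    CvB.step (.one jVY8_21) rfl <|
    CvB.step (.one jVY8_17) rfl <|
    CvB.step (.one jVY8_13) rfl <|
    CvB.step (.one jVY8_9) rfl <|
    CvB.step (.one jVY8_5) rfl <|
    CvB.step (.one jVY8_1) rfl <|
    CvB.zero) (by decide +kernel)

theorem bVY9 : JobB fVY As dat.Am (fun _ => dat.Am.b0) 9 :=
  CvB.job (b0 := 5) (y := 1) (n := 10) (lo := 1) (hi := 33) (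
    CvB.step (.one jVY9_29) rfl <|
    CvB.step (.one jVY9_25) rfl <|
    CvB.step (.one jVY9_21) rfl <|
    CvB.step (.one jVY9_17) rfl <|
    CvB.step (.one jVY9_13) rfl <|
    CvB.step (.one jVY9_9) rfl <|
    CvB.step (.one jVY9_5) rfl <|
    CvB.step (.one jVY9_1) rfl <|
    CvB.zero) (by decide +kernel)

theorem bVY10 : JobB fVY As dat.Am (fun _ => dat.Am.b0) 10 :=
  CvB.job (b0 := 6) (y := 0) (n := 7) (lo := 1) (hi := 33) (
    CvB.step (.one jVY10_29) rfl <|
    CvB.step (.one jVY10_25) rfl <|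
    CvB.step (.one jVY10_21) rfl <|
    CvB.step (.one jVY10_17) rfl <|
    CvB.step (.one jVY10_13) rfl <|
    CvB.step (.one jVY10_9) rfl <|
    CvB.step (.one jVY10_5) rfl <|
    CvB.step (.one jVY10_1) rfl <|
    CvB.zero) (by decide +kernel)

theorem bVY11 : JobB fVY As dat.Am (fun _ => dat.Am.b0) 11 :=
  CvB.job (b0 := 6) (y := 1) (n := 9) (lo := 1) (hi := 33) (
    CvB.step (.one jVY11_29) rfl <|
    CvB.step (.one jVY11_25) rfl <|
    CvB.step (.one jVY11_21) rfl <|
    CvB.step (.one jVY11_17) rfl <|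
    CvB.step (.one jVY11_13) rfl <|
    CvB.step (.one jVY11_9) rfl <|
    CvB.step (.one jVY11_5) rfl <|
    CvB.step (.one jVY11_1) rfl <|
    CvB.zero) (by decide +kernel)

theorem bVY12 : JobB fVY As dat.Am (fun _ => dat.Am.b0) 12 :=
  CvB.job (b0 := 7) (y := 0) (n := 7) (lo := 1) (hi := 33) (
    CvB.step (.one jVY12_29) rfl <|
    CvB.step (.one jVY12_25) rfl <|
    CvB.step (.one jVY12_21) rfl <|
    CvB.step (.one jVY12_17) rfl <|
    CvB.step (.one jVY12_13) rfl <|
    CvB.step (.one jVY12_9) rfl <|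
    CvB.step (.one jVY12_5) rfl <|
    CvB.step (.one jVY12_1) rfl <|
    CvB.zero) (by decide +kernel)

theorem bVY13 : JobB fVY As dat.Am (fun _ => dat.Am.b0) 13 :=
  CvB.job (b0 := 7) (y := 1) (n := 9) (lo := 1) (hi := 33) (
    CvB.step (.one jVY13_29) rfl <|
    CvB.step (.one jVY13_25) rfl <|
    CvB.step (.one jVY13_21) rfl <|
    CvB.step (.one jVY13_17) rfl <|
    CvB.step (.one jVY13_13) rfl <|
    CvB.step (.one jVY13_9) rfl <|
    CvB.step (.one jVY13_5) rfl <|
    CvB.step (.one jVY13_1) rfl <|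
    CvB.zero) (by decide +kernel)

theorem bVY14 : JobB fVY As dat.Am (fun _ => dat.Am.b0) 14 :=
  CvB.job (b0 := 8) (y := 0) (n := 7) (lo := 1) (hi := 33) (
    CvB.step (.one jVY14_29) rfl <|
    CvB.step (.one jVY14_25) rfl <|
    CvB.step (.one jVY14_21) rfl <|
    CvB.step (.one jVY14_17) rfl <|
    CvB.step (.one jVY14_13) rfl <|
    CvB.step (.one jVY14_9) rfl <|
    CvB.step (.one jVY14_5) rfl <|
    CvB.step (.one jVY14_1) rfl <|
    CvB.zero) (by decide +kernel)

theorem bVY15 : JobB fVY As dat.Am (fun _ => dat.Am.b0) 15 :=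
  CvB.job (b0 := 8) (y := 1) (n := 8) (lo := 1) (hi := 33) (
    CvB.step (.one jVY15_29) rfl <|
    CvB.step (.one jVY15_25) rfl <|
    CvB.step (.one jVY15_21) rfl <|
    CvB.step (.one jVY15_17) rfl <|
    CvB.step (.one jVY15_13) rfl <|
    CvB.step (.one jVY15_9) rfl <|
    CvB.step (.one jVY15_5) rfl <|
    CvB.step (.one jVY15_1) rfl <|
    CvB.zero) (by decide +kernel)

theorem bVY16 : JobB fVY As dat.Am (fun _ => dat.Am.b0) 16 :=
  CvB.job (b0 := 9) (y := 0) (n := 6) (lo := 1) (hi := 33) (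
    CvB.step (.one jVY16_29) rfl <|
    CvB.step (.one jVY16_25) rfl <|
    CvB.step (.one jVY16_21) rfl <|
    CvB.step (.one jVY16_17) rfl <|
    CvB.step (.one jVY16_13) rfl <|
    CvB.step (.one jVY16_9) rfl <|
    CvB.step (.one jVY16_5) rfl <|
    CvB.step (.one jVY16_1) rfl <|
    CvB.zero) (by decide +kernel)

theorem bVY17 : JobB fVY As dat.Am (fun _ => dat.Am.b0) 17 :=
  CvB.job (b0 := 9) (y := 1) (n := 8) (lo := 1) (hi := 33) (
    CvB.step (.one jVY17_29) rfl <|
    CvB.step (.one jVY17_25) rfl <|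
    CvB.step (.one jVY17_21) rfl <|
    CvB.step (.one jVY17_17) rfl <|
    CvB.step (.one jVY17_13) rfl <|
    CvB.step (.one jVY17_9) rfl <|
    CvB.step (.one jVY17_5) rfl <|
    CvB.step (.one jVY17_1) rfl <|
    CvB.zero) (by decide +kernel)

theorem bVY18 : JobB fVY As dat.Am (fun _ => dat.Am.b0) 18 :=
  CvB.job (b0 := 10) (y := 0) (n := 6) (lo := 1) (hi := 33) (
    CvB.step (.one jVY18_29) rfl <|
    CvB.step (.one jVY18_25) rfl <|
    CvB.step (.one jVY18_21) rfl <|
    CvB.step (.one jVY18_17) rfl <|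
    CvB.step (.one jVY18_13) rfl <|
    CvB.step (.one jVY18_9) rfl <|
    CvB.step (.one jVY18_5) rfl <|
    CvB.step (.one jVY18_1) rfl <|
    CvB.zero) (by decide +kernel)

theorem bVY19 : JobB fVY As dat.Am (fun _ => dat.Am.b0) 19 :=
  CvB.job (b0 := 10) (y := 1) (n := 7) (lo := 1) (hi := 33) (
    CvB.step (.one jVY19_29) rfl <|
    CvB.step (.one jVY19_25) rfl <|
    CvB.step (.one jVY19_21) rfl <|
    CvB.step (.one jVY19_17) rfl <|
    CvB.step (.one jVY19_13) rfl <|
    CvB.step (.one jVY19_9) rfl <|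
    CvB.step (.one jVY19_5) rfl <|
    CvB.step (.one jVY19_1) rfl <|
    CvB.zero) (by decide +kernel)

theorem bVY20 : JobB fVY As dat.Am (fun _ => dat.Am.b0) 20 :=
  CvB.job (b0 := 11) (y := 0) (n := 6) (lo := 1) (hi := 33) (
    CvB.step (.one jVY20_29) rfl <|
    CvB.step (.one jVY20_25) rfl <|
    CvB.step (.one jVY20_21) rfl <|
    CvB.step (.one jVY20_17) rfl <|
    CvB.step (.one jVY20_13) rfl <|
    CvB.step (.one jVY20_9) rfl <|
    CvB.step (.one jVY20_5) rfl <|
    CvB.step (.one jVY20_1) rfl <|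
    CvB.zero) (by decide +kernel)

theorem bVY21 : JobB fVY As dat.Am (fun _ => dat.Am.b0) 21 :=
  CvB.job (b0 := 11) (y := 1) (n := 7) (lo := 1) (hi := 33) (
    CvB.step (.one jVY21_29) rfl <|
    CvB.step (.one jVY21_25) rfl <|
    CvB.step (.one jVY21_21) rfl <|
    CvB.step (.one jVY21_17) rfl <|
    CvB.step (.one jVY21_13) rfl <|
    CvB.step (.one jVY21_9) rfl <|
    CvB.step (.one jVY21_5) rfl <|
    CvB.step (.one jVY21_1) rfl <|
    CvB.zero) (by decide +kernel)

theorem bVY22 : JobB fVY As dat.Am (fun _ => dat.Am.b0) 22 :=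
  CvB.job (b0 := 12) (y := 0) (n := 5) (lo := 1) (hi := 33) (
    CvB.step (.one jVY22_29) rfl <|
    CvB.step (.one jVY22_25) rfl <|
    CvB.step (.one jVY22_21) rfl <|
    CvB.step (.one jVY22_17) rfl <|
    CvB.step (.one jVY22_13) rfl <|
    CvB.step (.one jVY22_9) rfl <|
    CvB.step (.one jVY22_5) rfl <|
    CvB.step (.one jVY22_1) rfl <|
    CvB.zero) (by decide +kernel)

theorem bVY23 : JobB fVY As dat.Am (fun _ => dat.Am.b0) 23 :=
  CvB.job (b0 := 12) (y := 1) (n := 7) (lo := 1) (hi := 33) (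
    CvB.step (.one jVY23_29) rfl <|
    CvB.step (.one jVY23_25) rfl <|
    CvB.step (.one jVY23_21) rfl <|
    CvB.step (.one jVY23_17) rfl <|
    CvB.step (.one jVY23_13) rfl <|
    CvB.step (.one jVY23_9) rfl <|
    CvB.step (.one jVY23_5) rfl <|
    CvB.step (.one jVY23_1) rfl <|
    CvB.zero) (by decide +kernel)

theorem bVY24 : JobB fVY As dat.Am (fun _ => dat.Am.b0) 24 :=
  CvB.job (b0 := 13) (y := 0) (n := 5) (lo := 1) (hi := 33) (
    CvB.step (.one jVY24_29) rfl <|
    CvB.step (.one jVY24_25) rfl <|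
    CvB.step (.one jVY24_21) rfl <|
    CvB.step (.one jVY24_17) rfl <|
    CvB.step (.one jVY24_13) rfl <|
    CvB.step (.one jVY24_9) rfl <|
    CvB.step (.one jVY24_5) rfl <|
    CvB.step (.one jVY24_1) rfl <|
    CvB.zero) (by decide +kernel)

theorem bVY25 : JobB fVY As dat.Am (fun _ => dat.Am.b0) 25 :=
  CvB.job (b0 := 13) (y := 1) (n := 6) (lo := 1) (hi := 33) (
    CvB.step (.one jVY25_29) rfl <|
    CvB.step (.one jVY25_25) rfl <|
    CvB.step (.one jVY25_21) rfl <|
    CvB.step (.one jVY25_17) rfl <|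
    CvB.step (.one jVY25_13) rfl <|
    CvB.step (.one jVY25_9) rfl <|
    CvB.step (.one jVY25_5) rfl <|
    CvB.step (.one jVY25_1) rfl <|
    CvB.zero) (by decide +kernel)

theorem bVY26 : JobB fVY As dat.Am (fun _ => dat.Am.b0) 26 :=
  CvB.job (b0 := 14) (y := 0) (n := 5) (lo := 1) (hi := 33) (
    CvB.step (.one jVY26_29) rfl <|
    CvB.step (.one jVY26_25) rfl <|
    CvB.step (.one jVY26_21) rfl <|
    CvB.step (.one jVY26_17) rfl <|
    CvB.step (.one jVY26_13) rfl <|
    CvB.step (.one jVY26_9) rfl <|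
    CvB.step (.one jVY26_5) rfl <|
    CvB.step (.one jVY26_1) rfl <|
    CvB.zero) (by decide +kernel)

theorem bVY27 : JobB fVY As dat.Am (fun _ => dat.Am.b0) 27 :=
  CvB.job (b0 := 14) (y := 1) (n := 6) (lo := 1) (hi := 33) (
    CvB.step (.one jVY27_29) rfl <|
    CvB.step (.one jVY27_25) rfl <|
    CvB.step (.one jVY27_21) rfl <|
    CvB.step (.one jVY27_17) rfl <|
    CvB.step (.one jVY27_13) rfl <|
    CvB.step (.one jVY27_9) rfl <|
    CvB.step (.one jVY27_5) rfl <|
    CvB.step (.one jVY27_1) rfl <|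
    CvB.zero) (by decide +kernel)

theorem bVY28 : JobB fVY As dat.Am (fun _ => dat.Am.b0) 28 :=
  CvB.job (b0 := 15) (y := 0) (n := 5) (lo := 1) (hi := 33) (
    CvB.step (.one jVY28_29) rfl <|
    CvB.step (.one jVY28_25) rfl <|
    CvB.step (.one jVY28_21) rfl <|
    CvB.step (.one jVY28_17) rfl <|
    CvB.step (.one jVY28_13) rfl <|
    CvB.step (.one jVY28_9) rfl <|
    CvB.step (.one jVY28_5) rfl <|
    CvB.step (.one jVY28_1) rfl <|
    CvB.zero) (by decide +kernel)

theorem bVY29 : JobB fVY As dat.Am (fun _ => dat.Am.b0) 29 :=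
  CvB.job (b0 := 15) (y := 1) (n := 6) (lo := 1) (hi := 33) (
    CvB.step (.one jVY29_29) rfl <|
    CvB.step (.one jVY29_25) rfl <|
    CvB.step (.one jVY29_21) rfl <|
    CvB.step (.one jVY29_17) rfl <|
    CvB.step (.one jVY29_13) rfl <|
    CvB.step (.one jVY29_9) rfl <|
    CvB.step (.one jVY29_5) rfl <|
    CvB.step (.one jVY29_1) rfl <|
    CvB.zero) (by decide +kernel)

theorem bVY30 : JobB fVY As dat.Am (fun _ => dat.Am.b0) 30 :=
  CvB.job (b0 := 16) (y := 0) (n := 4) (lo := 1) (hi := 33) (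
    CvB.step (.one jVY30_29) rfl <|
    CvB.step (.one jVY30_25) rfl <|
    CvB.step (.one jVY30_21) rfl <|
    CvB.step (.one jVY30_17) rfl <|
    CvB.step (.one jVY30_13) rfl <|
    CvB.step (.one jVY30_9) rfl <|
    CvB.step (.one jVY30_5) rfl <|
    CvB.step (.one jVY30_1) rfl <|
    CvB.zero) (by decide +kernel)

theorem bVY31 : JobB fVY As dat.Am (fun _ => dat.Am.b0) 31 :=
  CvB.job (b0 := 16) (y := 1) (n := 6) (lo := 1) (hi := 33) (
    CvB.step (.one jVY31_29) rfl <|
    CvB.step (.one jVY31_25) rfl <|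
    CvB.step (.one jVY31_21) rfl <|
    CvB.step (.one jVY31_17) rfl <|
    CvB.step (.one jVY31_13) rfl <|
    CvB.step (.one jVY31_9) rfl <|
    CvB.step (.one jVY31_5) rfl <|
    CvB.step (.one jVY31_1) rfl <|
    CvB.zero) (by decide +kernel)

theorem bVY32 : JobB fVY As dat.Am (fun _ => dat.Am.b0) 32 :=
  CvB.job (b0 := 17) (y := 0) (n := 4) (lo := 1) (hi := 33) (
    CvB.step (.one jVY32_29) rfl <|
    CvB.step (.one jVY32_25) rfl <|
    CvB.step (.one jVY32_21) rfl <|
    CvB.step (.one jVY32_17) rfl <|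
    CvB.step (.one jVY32_13) rfl <|
    CvB.step (.one jVY32_9) rfl <|
    CvB.step (.one jVY32_5) rfl <|
    CvB.step (.one jVY32_1) rfl <|
    CvB.zero) (by decide +kernel)

theorem bVY33 : JobB fVY As dat.Am (fun _ => dat.Am.b0) 33 :=
  CvB.job (b0 := 17) (y := 1) (n := 5) (lo := 1) (hi := 33) (
    CvB.step (.one jVY33_29) rfl <|
    CvB.step (.one jVY33_25) rfl <|
    CvB.step (.one jVY33_21) rfl <|
    CvB.step (.one jVY33_17) rfl <|
    CvB.step (.one jVY33_13) rfl <|
    CvB.step (.one jVY33_9) rfl <|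
    CvB.step (.one jVY33_5) rfl <|
    CvB.step (.one jVY33_1) rfl <|
    CvB.zero) (by decide +kernel)

theorem bVY34 : JobB fVY As dat.Am (fun _ => dat.Am.b0) 34 :=
  CvB.job (b0 := 18) (y := 0) (n := 4) (lo := 1) (hi := 33) (
    CvB.step (.one jVY34_29) rfl <|
    CvB.step (.one jVY34_25) rfl <|
    CvB.step (.one jVY34_21) rfl <|
    CvB.step (.one jVY34_17) rfl <|
    CvB.step (.one jVY34_13) rfl <|
    CvB.step (.one jVY34_9) rfl <|
    CvB.step (.one jVY34_5) rfl <|
    CvB.step (.one jVY34_1) rfl <|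
    CvB.zero) (by decide +kernel)

theorem bVY35 : JobB fVY As dat.Am (fun _ => dat.Am.b0) 35 :=
  CvB.job (b0 := 18) (y := 1) (n := 5) (lo := 1) (hi := 33) (
    CvB.step (.one jVY35_29) rfl <|
    CvB.step (.one jVY35_25) rfl <|
    CvB.step (.one jVY35_21) rfl <|
    CvB.step (.one jVY35_17) rfl <|
    CvB.step (.one jVY35_13) rfl <|
    CvB.step (.one jVY35_9) rfl <|
    CvB.step (.one jVY35_5) rfl <|
    CvB.step (.one jVY35_1) rfl <|
    CvB.zero) (by decide +kernel)

theorem bVY36 : JobB fVY As dat.Am (fun _ => dat.Am.b0) 36 :=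
  CvB.job (b0 := 19) (y := 0) (n := 4) (lo := 1) (hi := 33) (
    CvB.step (.one jVY36_29) rfl <|
    CvB.step (.one jVY36_25) rfl <|
    CvB.step (.one jVY36_21) rfl <|
    CvB.step (.one jVY36_17) rfl <|
    CvB.step (.one jVY36_13) rfl <|
    CvB.step (.one jVY36_9) rfl <|
    CvB.step (.one jVY36_5) rfl <|
    CvB.step (.one jVY36_1) rfl <|
    CvB.zero) (by decide +kernel)

theorem bVY37 : JobB fVY As dat.Am (fun _ => dat.Am.b0) 37 :=
  CvB.job (b0 := 19) (y := 1) (n := 5) (lo := 1) (hi := 33) (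
    CvB.step (.one jVY37_29) rfl <|
    CvB.step (.one jVY37_25) rfl <|
    CvB.step (.one jVY37_21) rfl <|
    CvB.step (.one jVY37_17) rfl <|
    CvB.step (.one jVY37_13) rfl <|
    CvB.step (.one jVY37_9) rfl <|
    CvB.step (.one jVY37_5) rfl <|
    CvB.step (.one jVY37_1) rfl <|
    CvB.zero) (by decide +kernel)

theorem bVY38 : JobB fVY As dat.Am (fun _ => dat.Am.b0) 38 :=
  CvB.job (b0 := 20) (y := 0) (n := 4) (lo := 1) (hi := 33) (
    CvB.step (.one jVY38_29) rfl <|
    CvB.step (.one jVY38_25) rfl <|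
    CvB.step (.one jVY38_21) rfl <|
    CvB.step (.one jVY38_17) rfl <|
    CvB.step (.one jVY38_13) rfl <|
    CvB.step (.one jVY38_9) rfl <|
    CvB.step (.one jVY38_5) rfl <|
    CvB.step (.one jVY38_1) rfl <|
    CvB.zero) (by decide +kernel)

theorem bVY39 : JobB fVY As dat.Am (fun _ => dat.Am.b0) 39 :=
  CvB.job (b0 := 20) (y := 1) (n := 5) (lo := 1) (hi := 33) (
    CvB.step (.one jVY39_29) rfl <|
    CvB.step (.one jVY39_25) rfl <|
    CvB.step (.one jVY39_21) rfl <|
    CvB.step (.one jVY39_17) rfl <|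
    CvB.step (.one jVY39_13) rfl <|
    CvB.step (.one jVY39_9) rfl <|
    CvB.step (.one jVY39_5) rfl <|
    CvB.step (.one jVY39_1) rfl <|
    CvB.zero) (by decide +kernel)

theorem bVY40 : JobB fVY As dat.Am (fun _ => dat.Am.b0) 40 :=
  CvB.job (b0 := 21) (y := 0) (n := 3) (lo := 1) (hi := 33) (
    CvB.step (.one jVY40_29) rfl <|
    CvB.step (.one jVY40_25) rfl <|
    CvB.step (.one jVY40_21) rfl <|
    CvB.step (.one jVY40_17) rfl <|
    CvB.step (.one jVY40_13) rfl <|
    CvB.step (.one jVY40_9) rfl <|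
    CvB.step (.one jVY40_5) rfl <|
    CvB.step (.one jVY40_1) rfl <|
    CvB.zero) (by decide +kernel)

theorem bVY41 : JobB fVY As dat.Am (fun _ => dat.Am.b0) 41 :=
  CvB.job (b0 := 21) (y := 1) (n := 5) (lo := 1) (hi := 33) (
    CvB.step (.one jVY41_29) rfl <|
    CvB.step (.one jVY41_25) rfl <|
    CvB.step (.one jVY41_21) rfl <|
    CvB.step (.one jVY41_17) rfl <|
    CvB.step (.one jVY41_13) rfl <|
    CvB.step (.one jVY41_9) rfl <|
    CvB.step (.one jVY41_5) rfl <|
    CvB.step (.one jVY41_1) rfl <|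
    CvB.zero) (by decide +kernel)

theorem bVY42 : JobB fVY As dat.Am (fun _ => dat.Am.b0) 42 :=
  CvB.job (b0 := 22) (y := 0) (n := 3) (lo := 1) (hi := 33) (
    CvB.step (.one jVY42_29) rfl <|
    CvB.step (.one jVY42_25) rfl <|
    CvB.step (.one jVY42_21) rfl <|
    CvB.step (.one jVY42_17) rfl <|
    CvB.step (.one jVY42_13) rfl <|
    CvB.step (.one jVY42_9) rfl <|
    CvB.step (.one jVY42_5) rfl <|
    CvB.step (.one jVY42_1) rfl <|
    CvB.zero) (by decide +kernel)

theorem bVY43 : JobB fVY As dat.Am (fun _ => dat.Am.b0) 43 :=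
  CvB.job (b0 := 22) (y := 1) (n := 4) (lo := 1) (hi := 33) (
    CvB.step (.one jVY43_29) rfl <|
    CvB.step (.one jVY43_25) rfl <|
    CvB.step (.one jVY43_21) rfl <|
    CvB.step (.one jVY43_17) rfl <|
    CvB.step (.one jVY43_13) rfl <|
    CvB.step (.one jVY43_9) rfl <|
    CvB.step (.one jVY43_5) rfl <|
    CvB.step (.one jVY43_1) rfl <|
    CvB.zero) (by decide +kernel)

theorem bVY44 : JobB fVY As dat.Am (fun _ => dat.Am.b0) 44 :=
  CvB.job (b0 := 23) (y := 0) (n := 3) (lo := 1) (hi := 33) (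
    CvB.step (.one jVY44_29) rfl <|
    CvB.step (.one jVY44_25) rfl <|
    CvB.step (.one jVY44_21) rfl <|
    CvB.step (.one jVY44_17) rfl <|
    CvB.step (.one jVY44_13) rfl <|
    CvB.step (.one jVY44_9) rfl <|
    CvB.step (.one jVY44_5) rfl <|
    CvB.step (.one jVY44_1) rfl <|
    CvB.zero) (by decide +kernel)

theorem bVY45 : JobB fVY As dat.Am (fun _ => dat.Am.b0) 45 :=
  CvB.job (b0 := 23) (y := 1) (n := 4) (lo := 1) (hi := 33) (
    CvB.step (.one jVY45_29) rfl <|
    CvB.step (.one jVY45_25) rfl <|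
    CvB.step (.one jVY45_21) rfl <|
    CvB.step (.one jVY45_17) rfl <|
    CvB.step (.one jVY45_13) rfl <|
    CvB.step (.one jVY45_9) rfl <|
    CvB.step (.one jVY45_5) rfl <|
    CvB.step (.one jVY45_1) rfl <|
    CvB.zero) (by decide +kernel)

theorem bVY46 : JobB fVY As dat.Am (fun _ => dat.Am.b0) 46 :=
  CvB.job (b0 := 24) (y := 0) (n := 3) (lo := 1) (hi := 33) (
    CvB.step (.one jVY46_29) rfl <|
    CvB.step (.one jVY46_25) rfl <|
    CvB.step (.one jVY46_21) rfl <|
    CvB.step (.one jVY46_17) rfl <|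
    CvB.step (.one jVY46_13) rfl <|
    CvB.step (.one jVY46_9) rfl <|
    CvB.step (.one jVY46_5) rfl <|
    CvB.step (.one jVY46_1) rfl <|
    CvB.zero) (by decide +kernel)

theorem bVY47 : JobB fVY As dat.Am (fun _ => dat.Am.b0) 47 :=
  CvB.job (b0 := 24) (y := 1) (n := 4) (lo := 1) (hi := 33) (
    CvB.step (.one jVY47_29) rfl <|
    CvB.step (.one jVY47_25) rfl <|
    CvB.step (.one jVY47_21) rfl <|
    CvB.step (.one jVY47_17) rfl <|
    CvB.step (.one jVY47_13) rfl <|
    CvB.step (.one jVY47_9) rfl <|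
    CvB.step (.one jVY47_5) rfl <|
    CvB.step (.one jVY47_1) rfl <|
    CvB.zero) (by decide +kernel)

theorem bVY48 : JobB fVY As dat.Am (fun _ => dat.Am.b0) 48 :=
  CvB.job (b0 := 25) (y := 0) (n := 2) (lo := 1) (hi := 33) (
    CvB.step (.one jVY48_29) rfl <|
    CvB.step (.one jVY48_25) rfl <|
    CvB.step (.one jVY48_21) rfl <|
    CvB.step (.one jVY48_17) rfl <|
    CvB.step (.one jVY48_13) rfl <|
    CvB.step (.one jVY48_9) rfl <|
    CvB.step (.one jVY48_5) rfl <|
    CvB.step (.one jVY48_1) rfl <|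
    CvB.zero) (by decide +kernel)

theorem bVY49 : JobB fVY As dat.Am (fun _ => dat.Am.b0) 49 :=
  CvB.job (b0 := 25) (y := 1) (n := 4) (lo := 1) (hi := 33) (
    CvB.step (.one jVY49_29) rfl <|
    CvB.step (.one jVY49_25) rfl <|
    CvB.step (.one jVY49_21) rfl <|
    CvB.step (.one jVY49_17) rfl <|
    CvB.step (.one jVY49_13) rfl <|
    CvB.step (.one jVY49_9) rfl <|
    CvB.step (.one jVY49_5) rfl <|
    CvB.step (.one jVY49_1) rfl <|
    CvB.zero) (by decide +kernel)

theorem bVY50 : JobB fVY As dat.Am (fun _ => dat.Am.b0) 50 :=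
  CvB.job (b0 := 26) (y := 0) (n := 2) (lo := 1) (hi := 33) (
    CvB.step (.one jVY50_29) rfl <|
    CvB.step (.one jVY50_25) rfl <|
    CvB.step (.one jVY50_21) rfl <|
    CvB.step (.one jVY50_17) rfl <|
    CvB.step (.one jVY50_13) rfl <|
    CvB.step (.one jVY50_9) rfl <|
    CvB.step (.one jVY50_5) rfl <|
    CvB.step (.one jVY50_1) rfl <|
    CvB.zero) (by decide +kernel)

theorem bVY51 : JobB fVY As dat.Am (fun _ => dat.Am.b0) 51 :=
  CvB.job (b0 := 26) (y := 1) (n := 3) (lo := 1) (hi := 33) (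
    CvB.step (.one jVY51_29) rfl <|
    CvB.step (.one jVY51_25) rfl <|
    CvB.step (.one jVY51_21) rfl <|
    CvB.step (.one jVY51_17) rfl <|
    CvB.step (.one jVY51_13) rfl <|
    CvB.step (.one jVY51_9) rfl <|
    CvB.step (.one jVY51_5) rfl <|
    CvB.step (.one jVY51_1) rfl <|
    CvB.zero) (by decide +kernel)

theorem bVY52 : JobB fVY As dat.Am (fun _ => dat.Am.b0) 52 :=
  CvB.job (b0 := 27) (y := 0) (n := 2) (lo := 1) (hi := 33) (
    CvB.step (.one jVY52_29) rfl <|
    CvB.step (.one jVY52_25) rfl <|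
    CvB.step (.one jVY52_21) rfl <|
    CvB.step (.one jVY52_17) rfl <|
    CvB.step (.one jVY52_13) rfl <|
    CvB.step (.one jVY52_9) rfl <|
    CvB.step (.one jVY52_5) rfl <|
    CvB.step (.one jVY52_1) rfl <|
    CvB.zero) (by decide +kernel)

theorem bVY53 : JobB fVY As dat.Am (fun _ => dat.Am.b0) 53 :=
  CvB.job (b0 := 27) (y := 1) (n := 3) (lo := 1) (hi := 33) (
    CvB.step (.one jVY53_29) rfl <|
    CvB.step (.one jVY53_25) rfl <|
    CvB.step (.one jVY53_21) rfl <|
    CvB.step (.one jVY53_17) rfl <|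
    CvB.step (.one jVY53_13) rfl <|
    CvB.step (.one jVY53_9) rfl <|
    CvB.step (.one jVY53_5) rfl <|
    CvB.step (.one jVY53_1) rfl <|
    CvB.zero) (by decide +kernel)

theorem bVY54 : JobB fVY As dat.Am (fun _ => dat.Am.b0) 54 :=
  CvB.job (b0 := 28) (y := 0) (n := 1) (lo := 1) (hi := 33) (
    CvB.step (.one jVY54_29) rfl <|
    CvB.step (.one jVY54_25) rfl <|
    CvB.step (.one jVY54_21) rfl <|
    CvB.step (.one jVY54_17) rfl <|
    CvB.step (.one jVY54_13) rfl <|
    CvB.step (.one jVY54_9) rfl <|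
    CvB.step (.one jVY54_5) rfl <|
    CvB.step (.one jVY54_1) rfl <|
    CvB.zero) (by decide +kernel)

theorem bVY55 : JobB fVY As dat.Am (fun _ => dat.Am.b0) 55 :=
  CvB.job (b0 := 28) (y := 1) (n := 3) (lo := 1) (hi := 33) (
    CvB.step (.one jVY55_29) rfl <|
    CvB.step (.one jVY55_25) rfl <|
    CvB.step (.one jVY55_21) rfl <|
    CvB.step (.one jVY55_17) rfl <|
    CvB.step (.one jVY55_13) rfl <|
    CvB.step (.one jVY55_9) rfl <|
    CvB.step (.one jVY55_5) rfl <|
    CvB.step (.one jVY55_1) rfl <|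
    CvB.zero) (by decide +kernel)

theorem jobVY : Job fVY As dat.Am fun _ => dat.Am.b0 :=
  AllP.job (n := 56) (
    .step bVY55 <|
    .step bVY54 <|
    .step bVY53 <|
    .step bVY52 <|
    .step bVY51 <|
    .step bVY50 <|
    .step bVY49 <|
    .step bVY48 <|
    .step bVY47 <|
    .step bVY46 <|
    .step bVY45 <|
    .step bVY44 <|
    .step bVY43 <|
    .step bVY42 <|
    .step bVY41 <|
    .step bVY40 <|
    .step bVY39 <|
    .step bVY38 <|
    .step bVY37 <|
    .step bVY36 <|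
    .step bVY35 <|
    .step bVY34 <|
    .step bVY33 <|
    .step bVY32 <|
    .step bVY31 <|
    .step bVY30 <|
    .step bVY29 <|
    .step bVY28 <|
    .step bVY27 <|
    .step bVY26 <|
    .step bVY25 <|
    .step bVY24 <|
    .step bVY23 <|
    .step bVY22 <|
    .step bVY21 <|
    .step bVY20 <|
    .step bVY19 <|
    .step bVY18 <|
    .step bVY17 <|
    .step bVY16 <|
    .step bVY15 <|
    .step bVY14 <|
    .step bVY13 <|
    .step bVY12 <|
    .step bVY11 <|
    .step bVY10 <|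
    .step bVY9 <|
    .step bVY8 <|
    .step bVY7 <|
    .step bVY6 <|
    .step bVY5 <|
    .step bVY4 <|
    .step bVY3 <|
    .step bVY2 <|
    .step bVY1 <|
    .step bVY0 <|
    .zero _) (by decide +kernel)

end Pool.Agent.Work.MP_6bf1e5_an.HD
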