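import Pool.Agent.Work.MP_6bf1e5_an.HD.BkQ

namespace Pool.Agent.Work.MP_6bf1e5_an.HD

open Pool.Agent.Lib.KLA Pool.Agent.Lib.KBlk Pool.Agent.Lib.KRad Pool.Agent.Work.MP_6bf1e5_an.H.Bk

def kBA1 : PLift (GA.at (chkA GA) 1 = true) := ⟨by decide +kernel⟩

def kBA10 : PLift (GA.at (chkA GA) 10 = true) := ⟨by decide +kernel⟩

def kBA16 : PLift (GA.at (chkA GA) 16 = true) := ⟨by decide +kernel⟩

def kBA19 : PLift (GA.at (chkA GA) 19 = true) := ⟨by decide +kernel⟩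

def kBA29 : PLift (GA.at (chkA GA) 29 = true) := ⟨by decide +kernel⟩

def kBA30 : PLift (GA.at (chkA GA) 30 = true) := ⟨by decide +kernel⟩

def kBA39 : PLift (GA.at (chkA GA) 39 = true) := ⟨by decide +kernel⟩

def kBA44 : PLift (GA.at (chkA GA) 44 = true) := ⟨by decide +kernel⟩

def kBA51 : PLift (GA.at (chkA GA) 51 = true) := ⟨by decide +kernel⟩

def kBA56 : PLift (GA.at (chkA GA) 56 = true) := ⟨by decide +kernel⟩

def kBA63 : PLift (GA.at (chkA GA) 63 = true) := ⟨by decide +kernel⟩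

end Pool.Agent.Work.MP_6bf1e5_an.HD
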